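import Mathlib



namespace Pool.Agent.H391R2

open scoped commutatorElement

/- The wreath product `G ≀ S_n`. -/
abbrev Wr (G : Type) [Group G] (n : ℕ) : Type :=
  (Fin n → G) ⋊[mulAutArrow] Equiv.Perm (Fin n)

section

variable {G : Type} [Group G] {n : ℕ}

theorem wr_mul_left (a b : Wr G n) (i : Fin n) :
    (a * b).left i = a.left i * b.left (a.right⁻¹ i) := rfl

theorem wr_mul_right (a b : Wr G n) : (a * b).right = a.right * b.right := rfl

theorem wr_inv_left (a : Wr G n) (i : Fin n) : a⁻¹.left i = (a.left (a.right i))⁻¹ := by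
  rw [SemidirectProduct.inv_left]
  change (a.left⁻¹) ((a.right⁻¹)⁻¹ • i) = _
  rw [inv_inv]
  rfl

/- Two elements of the wreath product. -/
def Tw (k l : Fin n) (u : G) : Wr G n := ⟨Pi.mulSingle k u * Pi.mulSingle l u⁻¹, Equiv.swap k l⟩

theorem wr_conj (H : Subgroup (Wr G n))
    (h2 : ∀ k l k' l' : Fin n, k ≠ l → k' ≠ l' → ∀ g h : G, ∃ w ∈ H,
      w.right k = k' ∧ w.right l = l' ∧ w.left k' = g ∧ w.left l' = h)
    (k₁ k₂ : Fin n) (hk : k₁ ≠ k₂) (τ : Wr G n) (hτ : τ ∈ H) (hτr : τ.right = Equiv.swap k₁ k₂)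
    (hτl : ∀ k, k ≠ k₁ → k ≠ k₂ → τ.left k = 1) (hτ2 : τ * τ = 1) (k l : Fin n) (hkl : k ≠ l)
    (u : G) : Tw k l u ∈ H := by
  classical
  have ha : τ.left k₂ = (τ.left k₁)⁻¹ := by
    have h1 := congrArg (fun w : Wr G n => w.left k₂) hτ2
    simp only [wr_mul_left, hτr, Equiv.swap_inv, Equiv.swap_apply_right] at h1
    exact eq_inv_of_mul_eq_one_left h1
  obtain ⟨γ, hγ, h1, h3, h4, h5⟩ := h2 k₁ k₂ k l hk hkl (u * (τ.left k₁)⁻¹) 1
  have h6 : γ * τ * γ⁻¹ = Tw k l u := by
    have hr : (γ * τ * γ⁻¹).right = Equiv.swap k l := by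
      rw [wr_mul_right, wr_mul_right, SemidirectProduct.inv_right, hτr, ← h1, ← h3]
      exact (Equiv.swap_apply_apply γ.right k₁ k₂).symm
    apply SemidirectProduct.ext
    · funext i
      have hr2 : (γ * τ).right⁻¹ i = γ.right⁻¹ (Equiv.swap k l i) := by
        have : (γ * τ).right = Equiv.swap k l * γ.right := by
          rw [← hr, wr_mul_right _ γ⁻¹, SemidirectProduct.inv_right, inv_mul_cancel_right]
        rw [this, mul_inv_rev, Equiv.swap_inv]
        rfl
      rw [wr_mul_left, wr_mul_left, wr_inv_left, hr2]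
      have hinvk : γ.right⁻¹ k = k₁ := by rw [← h1]; simp
      have hinvl : γ.right⁻¹ l = k₂ := by rw [← h3]; simp
      have hcancel : γ.right (γ.right⁻¹ (Equiv.swap k l i)) = Equiv.swap k l i := by simp
      rw [hcancel]
      by_cases hik : i = k
      · subst hik
        rw [hinvk, Equiv.swap_apply_left, h4, h5]
        simp [Tw, Pi.mulSingle_apply, hkl]
      · by_cases hil : i = l
        · subst hil
          rw [hinvl, Equiv.swap_apply_right, h4, h5, ha]
          simp [Tw, Pi.mulSingle_apply, hik]
        · rw [Equiv.swap_apply_of_ne_of_ne hik hil, hτl]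
          · simp [Tw, Pi.mulSingle_apply, hik, hil]
          · intro h
            apply hik
            rw [← h1, ← h]; simp
          · intro h
            apply hil
            rw [← h3, ← h]; simp
    · exact hr
  rw [← h6]
  exact H.mul_mem (H.mul_mem hγ hτ) (H.inv_mem hγ)

theorem wr_gen (hn : 3 ≤ n) (H : Subgroup (Wr G n)) (hT : ∀ k l : Fin n, k ≠ l → ∀ u : G,
    Tw k l u ∈ H) (w : Wr G n) (hw : ∏ i, Abelianization.of (w.left i) = 1) : w ∈ H := by
  classical
  -- diagonal elements
  have hD : ∀ k l : Fin n, k ≠ l → ∀ u : G,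
      Pi.mulSingle k u * Pi.mulSingle l u⁻¹ ∈ H.comap SemidirectProduct.inl := by
    intro k l hkl u
    rw [Subgroup.mem_comap]
    have h1 : (SemidirectProduct.inl (Pi.mulSingle k u * Pi.mulSingle l u⁻¹) : Wr G n) =
        Tw k l u * Tw k l 1 := by
      apply SemidirectProduct.ext
      · funext i
        rw [wr_mul_left]
        simp [Tw]
      · rw [wr_mul_right]
        simp [Tw]
    rw [h1]
    exact H.mul_mem (hT k l hkl u) (hT k l hkl 1)
  have hperm : ∀ σ : Equiv.Perm (Fin n), (SemidirectProduct.inr σ : Wr G n) ∈ H := by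
    intro σ
    induction σ using Equiv.Perm.swap_induction_on with
    | one => rw [map_one]; exact H.one_mem
    | swap_mul f x y hxy ih =>
      rw [map_mul]
      refine H.mul_mem ?_ ih
      have h1 := hT x y hxy 1
      have h2 : Tw x y (1 : G) = SemidirectProduct.inr (Equiv.swap x y) := by
        apply SemidirectProduct.ext
        · simp [Tw]
        · simp [Tw]
      rwa [h2] at h1
  have hcomm : ∀ k : Fin n, ∀ c ∈ commutator G, Pi.mulSingle k c ∈
      H.comap (SemidirectProduct.inl : (Fin n → G) →* Wr G n) := by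
    intro k c hc
    obtain ⟨l, hkl⟩ : ∃ l : Fin n, l ≠ k := by
      have : Nontrivial (Fin n) := Fin.nontrivial_iff_two_le.2 (by omega)
      exact exists_ne k
    obtain ⟨r, hrk, hrl⟩ : ∃ r : Fin n, r ≠ k ∧ r ≠ l := by
      have h1 : ({k, l} : Finset (Fin n)).card < (Finset.univ : Finset (Fin n)).card := by
        rw [Finset.card_univ, Fintype.card_fin]
        exact lt_of_le_of_lt Finset.card_le_two (by omega)
      obtain ⟨r, -, hr⟩ := Finset.exists_mem_notMem_of_card_lt_card h1
      simp only [Finset.mem_insert, Finset.mem_singleton, not_or] at hr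
      exact ⟨r, hr.1, hr.2⟩
    have hle : commutator G ≤ (H.comap (SemidirectProduct.inl : (Fin n → G) →* Wr G n)).comap
        (MonoidHom.mulSingle (fun _ : Fin n => G) k) := by
      rw [commutator_def, Subgroup.commutator_le]
      intro u _ v _
      rw [Subgroup.mem_comap]
      have h1 : MonoidHom.mulSingle (fun _ : Fin n => G) k ⁅u, v⁆ =
          (Pi.mulSingle k u * Pi.mulSingle l u⁻¹) * (Pi.mulSingle k v * Pi.mulSingle r v⁻¹) *
          (Pi.mulSingle k u * Pi.mulSingle l u⁻¹)⁻¹ *
          (Pi.mulSingle k v * Pi.mulSingle r v⁻¹)⁻¹ := by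
        funext i
        by_cases hik : i = k
        · subst hik
          simp [Pi.mulSingle_apply, hkl.symm, hrk.symm, commutatorElement_def]
        · by_cases hil : i = l
          · subst hil
            simp [commutatorElement_def, hik, hrl.symm]
          · simp [commutatorElement_def, hik, hil]
      rw [h1]
      exact Subgroup.mul_mem _ (Subgroup.mul_mem _ (Subgroup.mul_mem _ (hD k l hkl.symm u)
        (hD k r hrk.symm v)) (Subgroup.inv_mem _ (hD k l hkl.symm u)))
        (Subgroup.inv_mem _ (hD k r hrk.symm v))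
    exact hle hc
  have k₀ : Fin n := ⟨0, by omega⟩
  have main : ∀ s : Finset (Fin n), k₀ ∉ s → ∀ f : Fin n → G, (∀ i, i ∉ s → i ≠ k₀ → f i = 1) →
      ∏ i, Abelianization.of (f i) = 1 →
      f ∈ H.comap (SemidirectProduct.inl : (Fin n → G) →* Wr G n) := by
    intro s
    induction s using Finset.induction_on with
    | empty =>
      intro _ f hf hprod
      have h1 : f = Pi.mulSingle k₀ (f k₀) := by
        funext i
        by_cases h : i = k₀
        · subst h; simp
        · rw [hf i (by simp) h, Pi.mulSingle_eq_of_ne h]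
      rw [h1]
      apply hcomm
      rw [Finset.prod_eq_single k₀] at hprod
      · rw [← Abelianization.ker_of, MonoidHom.mem_ker]
        exact hprod
      · intro i _ h
        rw [hf i (by simp) h, map_one]
      · intro h
        exact absurd (Finset.mem_univ _) h
    | insert a s has ih =>
      intro hk₀ f hf hprod
      have hak : a ≠ k₀ := fun h => hk₀ (by rw [h]; exact Finset.mem_insert_self _ _)
      have hk₀s : k₀ ∉ s := fun h => hk₀ (Finset.mem_insert_of_mem h)
      have hmem := hD a k₀ hak (f a)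
      have h1 := ih hk₀s (f * (Pi.mulSingle a (f a) * Pi.mulSingle k₀ (f a)⁻¹)⁻¹) (by
        intro i hi hik
        by_cases hia : i = a
        · subst hia
          simp [Pi.mulSingle_apply, hak]
        · simp [Pi.mulSingle_apply, hia, hik]
          exact hf i (by simp [hia, hi]) hik) (by
        simp only [Pi.mul_apply, Pi.inv_apply, map_mul, map_inv, Finset.prod_mul_distrib, hprod,
          Finset.prod_inv_distrib, one_mul, mul_inv_rev]
        rw [Finset.prod_eq_single k₀ (fun i _ h => by rw [Pi.mulSingle_eq_of_ne h, map_one])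
          (fun h => absurd (Finset.mem_univ _) h),
          Finset.prod_eq_single a (fun i _ h => by rw [Pi.mulSingle_eq_of_ne h, map_one])
          (fun h => absurd (Finset.mem_univ _) h), Pi.mulSingle_eq_same, Pi.mulSingle_eq_same]
        simp)
      have h2 := Subgroup.mul_mem _ h1 hmem
      rwa [inv_mul_cancel_right] at h2
  have h1 := main (Finset.univ.erase k₀) (Finset.notMem_erase _ _) w.left (fun i hi hik =>
    absurd (Finset.mem_erase.2 ⟨hik, Finset.mem_univ _⟩) hi) hw
  rw [Subgroup.mem_comap] at h1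
  rw [← SemidirectProduct.inl_left_mul_inr_right w]
  exact H.mul_mem h1 (hperm _)

end

end Pool.Agent.H391R2
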