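import Mathlib
import Pool.Agent.H84.L.S8_H391R2_WrGrp

namespace Pool.Agent.H391R2
end Pool.Agent.H391R2


/-!
Statements (NOT results) of the pieces of the project (G wr A_n) wr A_r over Q
(owner helper793, problem MP_dadaab_nt).
-/

set_option autoImplicit false

namespace Pool.Agent.Y793

open Polynomial Pool.Agent.H391R2

/-! ### Group theory -/

/- The alternating wreath product `G ≀ A_n`, as a subgroup of `G ≀ S_n`. -/
def AWr (G : Type) [Group G] (n : ℕ) : Subgroup (Wr G n) :=
  (Equiv.Perm.sign.comp SemidirectProduct.rightHom).ker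


/-! ### Polynomials -/

/- The antiderivative with value `0` at `0`. -/
noncomputable def adr (K : Type) {E : Type} [Field K] [CommRing E] [Algebra K E] (p : E[X]) :
    E[X] :=
  p.sum fun n a => monomial (n + 1) (algebraMap K E ((n : K) + 1)⁻¹ * a)


/- ISO: the form `u ↦ ∫_{s₂}^{s₁} (∑ u_i κ_i)²` has no totally isotropic subspace of dimension
more than `(k+1)/2`. -/
def St_iso : Prop :=
  ∀ (K F ι : Type) [Field K] [CharZero K] [Field F] [Algebra K F] [Fintype ι] (κ : ι → K[X])
    (k : ℕ), LinearIndependent K κ → (∀ i, (κ i).natDegree ≤ k) → ∀ (s₁ s₂ : F), s₁ ≠ s₂ →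
    ∀ U : Submodule F (ι → F),
    (∀ u ∈ U, (adr K ((∑ i, C (u i) * (κ i).map (algebraMap K F)) ^ 2)).eval s₁ =
      (adr K ((∑ i, C (u i) * (κ i).map (algebraMap K F)) ^ 2)).eval s₂) →
    2 * Module.finrank F U ≤ k + 1

/- GEN: a point `c` in the span of a linear subspace `U` over `F`, such that `N` is algebraic over
`F(c)` and the transcendence degree of `N` over `F` is at least the dimension of `U`, is
a generic point of `U`. -/
def St_gen : Prop :=
  ∀ (F N I : Type) [Field F] [Field N] [Algebra F N] [Fintype I] (c : I → N),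
    Algebra.IsAlgebraic (IntermediateField.adjoin F (Set.range c)) N →
    ∀ U : Submodule F (I → F),
      c ∈ Submodule.span N ((fun (v : I → F) (i : I) => algebraMap F N (v i)) '' (U : Set (I → F))) →
      (Module.finrank F U : Cardinal) ≤ Algebra.trdeg F N →
      ∀ f : MvPolynomial I F, MvPolynomial.aeval c f = 0 → ∀ v ∈ U, MvPolynomial.eval v f = 0

/-! ### Regular extensions -/

/- EXT: extension of embeddings of a regular Galois extension `Z` of `K(t)` and of a square root
`w` of `t - t₀`. -/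
def St_ext : Prop :=
  ∀ (K Z N : Type) [Field K] [CharZero K] [Field Z] [Algebra (RatFunc K) Z] [Algebra K Z]
    [IsScalarTower K (RatFunc K) Z] [FiniteDimensional (RatFunc K) Z] [IsGalois (RatFunc K) Z]
    [Field N] [IsAlgClosed N] [Algebra K N],
    (∀ y : Z, IsAlgebraic K y → y ∈ Set.range (algebraMap K Z)) →
    ∀ t₀ : K, (∀ (z : Z) (a : K), a ≠ 0 →
      z ^ 2 ≠ algebraMap (RatFunc K) Z (RatFunc.C a * (RatFunc.X - RatFunc.C t₀))) →
    ∀ (F : IntermediateField K N) (φ : Z →ₐ[K] N) (w : N),
      w ^ 2 = φ (algebraMap (RatFunc K) Z (RatFunc.X - RatFunc.C t₀)) → Transcendental F w →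
      ∀ (γ : Z ≃ₐ[RatFunc K] Z) (e : ℤˣ), ∃ τ : N ≃ₐ[F] N,
        (∀ z, τ (φ z) = φ (γ z)) ∧ τ w = (e : ℤ) • w


/-! ### Power series -/


/-! ### Parity -/


end Pool.Agent.Y793
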