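import Mathlib
import Pool.Agent.H84.L.S8_H391R2_WrGrp
import Pool.Agent.H84.L.S8_Y793_Stm

namespace Pool.Agent.H391R2
end Pool.Agent.H391R2
namespace Pool.Agent.H391R2.T4
end Pool.Agent.H391R2.T4
namespace Pool.Agent.Y793
end Pool.Agent.Y793


/-!
Statements (NOT results) of the pieces of the project `G ≀ A_n` over `K(t)` (helper70, problem
MP_dadaab_nt): for every finite perfect group `G` there is `m` such that for all large `k` the group
`G ≀ A_(m (2 k + 1))` is a regular Galois group over `K(t)` for all fields `K` of characteristic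
zero.
-/

set_option autoImplicit false

namespace Pool.Agent.N70.AW

open Polynomial Pool.Agent.H391R2 Pool.Agent.H391R2.T4 Pool.Agent.Y793

/- The polynomial `p` in the variable of `K(t)`, as an element of the field `Z`. -/
noncomputable def pz {K : Type} (Z : Type) [Field K] [Field Z] [Algebra (RatFunc K) Z] (p : K[X]) :
    Z :=
  algebraMap (RatFunc K) Z (algebraMap K[X] (RatFunc K) p)


/- SMALL: a doubly transitive group of permutations (with labels) of degree `n` with an element
`≠ 1` which moves at most `b` points, `b ^ 2 < n`, has an element which is a three-cycle. -/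
def St_small : Prop :=
  ∀ (G : Type) [Group G] [Finite G] (n b : ℕ) (H : Subgroup (Wr G n)), b * b < n →
    (∀ a c a' c' : Fin n, a ≠ c → a' ≠ c' → ∃ x ∈ H, x.right a = a' ∧ x.right c = c') →
    (∃ x ∈ H, x.right ≠ 1 ∧ x.right.support.card ≤ b) → ∃ x ∈ H, x.right.IsThreeCycle


/- HENS: a polynomial over power series whose degree drops modulo the maximal ideal. -/
def St_hens : Prop :=
  ∀ (κ : Type) [Field κ] [IsAlgClosed κ] [CharZero κ] (f : Polynomial (PowerSeries κ)) (n n' : ℕ),
    f.natDegree = n → (f.map PowerSeries.constantCoeff).natDegree = n' →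
    (f.map PowerSeries.constantCoeff).Separable → n' < n →
    (∀ y : LaurentSeries κ, (f.map (algebraMap (PowerSeries κ) (LaurentSeries κ))).eval y = 0 →
      y ∈ Set.range (algebraMap (PowerSeries κ) (LaurentSeries κ))) →
    ∀ (Ω : Type) [Field Ω] [IsAlgClosed Ω] [Algebra (LaurentSeries κ) Ω]
      [Algebra.IsAlgebraic (LaurentSeries κ) Ω] (r : Fin n → Ω), Function.Injective r →
      (∀ i, ((f.map (algebraMap (PowerSeries κ) (LaurentSeries κ))).map
        (algebraMap (LaurentSeries κ) Ω)).eval (r i) = 0) →
      ∃ (τ : Ω ≃ₐ[LaurentSeries κ] Ω) (π : Equiv.Perm (Fin n)), (∀ i, τ (r i) = r (π i)) ∧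
        π ≠ 1 ∧ π.support.card ≤ n - n'

/- VAL: integrality of the solutions in Laurent series. -/
def St_val : Prop :=
  ∀ (κ : Type) [Field κ] [CharZero κ] (k d m : ℕ) (α β : κ[X]), α.natDegree ≤ k →
    β.natDegree = k + 2 → d ≤ 2 * k →
    ∀ (T : PowerSeries κ) (A : Polynomial (PowerSeries κ))
      (M : Matrix (Fin m) (Fin m) (Polynomial (PowerSeries κ))),
      A = adr κ ((α.map (PowerSeries.C (R := κ)) +
        C PowerSeries.X * β.map (PowerSeries.C (R := κ)) : Polynomial (PowerSeries κ)) ^ 2) →
      (∀ l l', (M l l').natDegree ≤ d) →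
    ∀ y : LaurentSeries κ,
      (((C T - A) • (1 : Matrix (Fin m) (Fin m) (Polynomial (PowerSeries κ))) - M).det.map
            (algebraMap (PowerSeries κ) (LaurentSeries κ))).eval y = 0 →
      y ∈ Set.range (algebraMap (PowerSeries κ) (LaurentSeries κ))


end Pool.Agent.N70.AW
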