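import Mathlib



namespace Pool.Agent.H391R2

open MvPolynomial

section tuple

variable {k : Type} [Field k] {G : Type} [Group G] [Fintype G]

/- The eliminant of a tuple of polynomials. -/
noncomputable def PhiP (Ψ : Polynomial (MvPolynomial (Fin (Fintype.card G)) k))
    {E : Type} [CommRing E] [Algebra k E]
    (P : Option (Fin (Fintype.card G)) → Polynomial E) : Polynomial E :=
  Polynomial.eval₂ ((aeval fun i => P (some i) :
    MvPolynomial (Fin (Fintype.card G)) k →ₐ[k] Polynomial E) :
    MvPolynomial (Fin (Fintype.card G)) k →+* Polynomial E) (P none) Ψ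


omit [Group G] in
theorem PhiP_eval (Ψ : Polynomial (MvPolynomial (Fin (Fintype.card G)) k))
    {E : Type} [CommRing E] [Algebra k E]
    (P : Option (Fin (Fintype.card G)) → Polynomial E) (s : E) :
    (PhiP Ψ P).eval s = (Ψ.map ((aeval fun i => (P (some i)).eval s :
      MvPolynomial (Fin (Fintype.card G)) k →ₐ[k] E) :
      MvPolynomial (Fin (Fintype.card G)) k →+* E)).eval ((P none).eval s) := by
  unfold PhiP
  rw [← Polynomial.coe_evalRingHom, Polynomial.hom_eval₂, Polynomial.eval_map]
  congr 1
  ext x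
  · simp
  · simp

omit [Group G] in
theorem PhiP_map (Ψ : Polynomial (MvPolynomial (Fin (Fintype.card G)) k))
    {E E' : Type} [CommRing E] [Algebra k E] [CommRing E'] [Algebra k E'] (f : E →ₐ[k] E')
    (P : Option (Fin (Fintype.card G)) → Polynomial E) :
    (PhiP Ψ P).map (f : E →+* E') = PhiP Ψ (fun i => (P i).map (f : E →+* E')) := by
  unfold PhiP
  rw [← Polynomial.coe_mapRingHom, Polynomial.hom_eval₂]
  rw [Polynomial.coe_mapRingHom]
  congr 1
  ext x
  · simp
  · simp


end tuple

section misc

/- Enumeration of the roots. -/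
theorem exists_enum {E : Type} [Field E] [IsAlgClosed E] (p : Polynomial E) (D : ℕ)
    (hD : p.natDegree = D) :
    ∃ r : Fin D → E, p = Polynomial.C p.leadingCoeff * ∏ a, (Polynomial.X - Polynomial.C (r a)) := by
  classical
  have hs : p.Splits := IsAlgClosed.splits _
  have hcard : p.roots.card = D := hs.natDegree_eq_card_roots.symm.trans hD
  have hc : Fintype.card (Fin D) = Fintype.card p.roots.ToType := by
    rw [Multiset.card_coe, hcard, Fintype.card_fin]
  obtain ⟨r, hr⟩ : ∃ r : Fin D → E, (Finset.univ : Finset (Fin D)).val.map r = p.roots := by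
    let e : Fin D ≃ p.roots.ToType := Fintype.equivOfCardEq hc
    refine ⟨fun g => (e g : E), ?_⟩
    have h2 := Multiset.map_univ_val_equiv e
    have h3 := Multiset.map_univ_coe p.roots
    rw [← h2, Multiset.map_map] at h3
    exact h3
  refine ⟨r, ?_⟩
  have h5 := hs.eq_prod_roots
  nth_rewrite 1 [h5]
  rw [← hr, Multiset.map_map]
  rfl

/- Labels of free orbits. -/
theorem exists_cl {G K : Type} [Group G] : ∃ cl : (G → K) → Abelianization G,
    ∀ v : G → K, (∀ g : G, v ∘ Equiv.mulLeft g = v → g = 1) → ∀ g : G,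
      cl (v ∘ Equiv.mulLeft g) = cl v * Abelianization.of g := by
  classical
  have hcomp : ∀ (v : G → K) (g h : G), (v ∘ Equiv.mulLeft g) ∘ Equiv.mulLeft h =
      v ∘ Equiv.mulLeft (g * h) := by
    intro v g h
    funext x
    simp [mul_assoc]
  have hone : ∀ v : G → K, v ∘ Equiv.mulLeft 1 = v := by
    intro v
    funext x
    simp
  let S : Setoid (G → K) :=
    { r := fun v w => ∃ g : G, w = v ∘ Equiv.mulLeft g
      iseqv :=
        { refl := fun v => ⟨1, (hone v).symm⟩
          symm := by
            rintro v w ⟨g, rfl⟩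
            refine ⟨g⁻¹, ?_⟩
            rw [hcomp, mul_inv_cancel, hone]
          trans := by
            rintro v w x ⟨g, rfl⟩ ⟨h, rfl⟩
            exact ⟨g * h, by rw [hcomp]⟩ } }
  let ref : (G → K) → (G → K) := fun v => (Quotient.mk S v).out
  have href : ∀ v, ∃ g : G, v = ref v ∘ Equiv.mulLeft g := fun v => Quotient.mk_out (s := S) v
  choose c hc using href
  refine ⟨fun v => Abelianization.of (c v), fun v hv g => ?_⟩
  have h1 : ref (v ∘ Equiv.mulLeft g) = ref v := by
    simp only [ref]
    congr 1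
    exact Quotient.sound (s := S) ⟨g⁻¹, by rw [hcomp, mul_inv_cancel, hone]⟩
  have h2 := hc (v ∘ Equiv.mulLeft g)
  have h3 := hc v
  rw [h1] at h2
  change Abelianization.of (c (v ∘ Equiv.mulLeft g)) = Abelianization.of (c v) * _
  rw [← map_mul]
  congr 1
  generalize c (v ∘ Equiv.mulLeft g) = b at h2
  generalize c v = a at h3
  generalize ref v = w at h2 h3
  subst h3
  rw [hcomp] at h2
  have h4 : (w ∘ Equiv.mulLeft a) ∘ Equiv.mulLeft (a⁻¹ * b * g⁻¹) = w ∘ Equiv.mulLeft a := by
    have h5 := congrArg (fun u : G → K => u ∘ Equiv.mulLeft g⁻¹) h2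
    simp only [hcomp] at h5
    rw [mul_assoc, mul_inv_cancel, mul_one] at h5
    rw [hcomp, h5]
    congr 2
    group
  have h6 := hv _ h4
  have h7 : a⁻¹ * b = g := by
    rwa [mul_inv_eq_one] at h6
  rw [← h7, mul_inv_cancel_left]

/- Extension of a ring homomorphism to an algebraic extension. -/
theorem exists_ext {F E Ω : Type} [Field F] [Field E] [Algebra F E] [Algebra.IsAlgebraic F E]
    [Field Ω] [IsAlgClosed Ω] (i : F →+* Ω) : ∃ δ : E →+* Ω, ∀ x, δ (algebraMap F E x) = i x := by
  let _ : Algebra F Ω := i.toAlgebra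
  let j : E →ₐ[F] Ω := IsAlgClosed.lift
  exact ⟨j, fun x => j.commutes x⟩

end misc

end Pool.Agent.H391R2
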