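import Mathlib



namespace Pool.Agent.H391R2

open MvPolynomial


section degree

open Polynomial in
theorem natDegree_aeval_le {k E σ : Type} [Field k] [CommRing E] [Algebra k E]
    (F : MvPolynomial σ k) (f : σ → Polynomial E) (T D : ℕ) (hF : F.totalDegree ≤ T)
    (hf : ∀ i, (f i).natDegree ≤ D) : (MvPolynomial.aeval f F).natDegree ≤ T * D := by
  classical
  rw [MvPolynomial.aeval_def, MvPolynomial.eval₂_eq]
  apply natDegree_sum_le_of_forall_le
  intro m hm
  have h1 : (algebraMap k (Polynomial E) (F.coeff m)).natDegree = 0 := by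
    rw [Polynomial.algebraMap_apply, natDegree_C]
  refine natDegree_mul_le.trans ?_
  rw [h1, zero_add]
  refine (natDegree_prod_le _ _).trans ?_
  have h2 : ∑ i ∈ m.support, (f i ^ m i).natDegree ≤ ∑ i ∈ m.support, m i * D := by
    refine Finset.sum_le_sum fun i _ => ?_
    exact natDegree_pow_le.trans (Nat.mul_le_mul_left _ (hf i))
  refine h2.trans ?_
  rw [← Finset.sum_mul]
  refine Nat.mul_le_mul_right _ (le_trans ?_ hF)
  exact MvPolynomial.le_totalDegree hm

/- Degree of a monic polynomial with small coefficients at a large argument. -/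
theorem natDegree_eval₂ {R E : Type} [CommRing R] [Field E] (Ψ : Polynomial R) (hm : Ψ.Monic)
    (f : R →+* Polynomial E) (P : Polynomial E) (M B : ℕ) (hP : P.natDegree = M) (hMB : B < M)
    (hB : ∀ e, (f (Ψ.coeff e)).natDegree ≤ B) :
    (Polynomial.eval₂ f P Ψ).natDegree = Ψ.natDegree * M ∧
      (Polynomial.eval₂ f P Ψ).leadingCoeff = P.leadingCoeff ^ Ψ.natDegree := by
  have hP0 : P ≠ 0 := by
    rintro rfl
    rw [Polynomial.natDegree_zero] at hP
    omega
  rw [Polynomial.eval₂_eq_sum_range, Finset.sum_range_succ, hm.coeff_natDegree, map_one, one_mul]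
  rcases Nat.eq_zero_or_pos Ψ.natDegree with h0 | hpos
  · simp [h0]
  · have h1 : (∑ i ∈ Finset.range Ψ.natDegree, f (Ψ.coeff i) * P ^ i).natDegree <
        (P ^ Ψ.natDegree).natDegree := by
      rw [Polynomial.natDegree_pow, hP]
      refine lt_of_le_of_lt (b := B + (Ψ.natDegree - 1) * M) ?_ ?_
      · apply Polynomial.natDegree_sum_le_of_forall_le
        intro i hi
        have hi' := Finset.mem_range.1 hi
        refine Polynomial.natDegree_mul_le.trans (Nat.add_le_add (hB i) ?_)
        rw [Polynomial.natDegree_pow, hP]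
        exact Nat.mul_le_mul_right _ (by omega)
      · obtain ⟨d, hd⟩ : ∃ d, Ψ.natDegree = d + 1 := ⟨Ψ.natDegree - 1, by omega⟩
        rw [hd, Nat.add_sub_cancel, Nat.succ_mul]
        omega
    refine ⟨?_, ?_⟩
    · rw [Polynomial.natDegree_add_eq_right_of_natDegree_lt h1, Polynomial.natDegree_pow, hP]
    · rw [Polynomial.leadingCoeff_add_of_degree_lt (Polynomial.degree_lt_degree h1),
        Polynomial.leadingCoeff_pow]

end degree

end Pool.Agent.H391R2
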