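import Mathlib
import Pool.Agent.H84.L.S8_H391R2_NtB
import Pool.Agent.H84.L.S8_H391R2_WrPhi



namespace Pool.Agent.H391R2

open Filter Topology MvPolynomial

section rn

variable {G : Type} [Group G] [Fintype G]


/- The degree of the eliminant. -/
theorem PhiP_natDegree {k : Type} [Field k] {G : Type} [Fintype G]
    (Ψ : Polynomial (MvPolynomial (Fin (Fintype.card G)) k)) (hm : Ψ.Monic) (T : ℕ)
    (hT : ∀ e, (Ψ.coeff e).totalDegree ≤ T) {E : Type} [Field E] [Algebra k E]
    (P : Option (Fin (Fintype.card G)) → Polynomial E) (B M : ℕ) (hB : T * B < M)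
    (hsome : ∀ i, (P (some i)).natDegree ≤ B) (hnone : (P none).natDegree = M) :
    (PhiP Ψ P).natDegree = Ψ.natDegree * M ∧
      (PhiP Ψ P).leadingCoeff = (P none).leadingCoeff ^ Ψ.natDegree :=
  natDegree_eval₂ Ψ hm ((aeval fun i => P (some i) :
    MvPolynomial (Fin (Fintype.card G)) k →ₐ[k] Polynomial E) :
    MvPolynomial (Fin (Fintype.card G)) k →+* Polynomial E) (P none) M (T * B) hnone hB
    (fun e => natDegree_aeval_le _ _ T B (hT e) hsome)


end rn

end Pool.Agent.H391R2
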