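import Mathlib



set_option autoImplicit false

namespace Pool.Agent.H391R2.T4

open PowerSeries

section hens

variable {κ : Type} [Field κ]

/- The involution `X ↦ -X`. -/
noncomputable def tau (κ : Type) [Field κ] : κ⟦X⟧ →+* κ⟦X⟧ := PowerSeries.evalNegHom

theorem tau_coeff (f : κ⟦X⟧) (n : ℕ) : coeff n (tau κ f) = (-1) ^ n * coeff n f := by
  unfold tau
  rw [PowerSeries.evalNegHom, PowerSeries.coeff_rescale]

theorem tau_tau (f : κ⟦X⟧) : tau κ (tau κ f) = f := by
  ext n
  rw [tau_coeff, tau_coeff, ← mul_assoc, ← mul_pow]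
  simp

theorem tau_constantCoeff (f : κ⟦X⟧) : constantCoeff (tau κ f) = constantCoeff f := by
  rw [← coeff_zero_eq_constantCoeff_apply, tau_coeff]
  simp

theorem tau_C (a : κ) : tau κ (C a) = C a := by
  ext n
  rw [tau_coeff]
  by_cases h : n = 0
  · subst h; simp
  · rw [coeff_C, if_neg h, mul_zero]

theorem tau_X : tau κ X = -X := by
  ext n
  rw [tau_coeff, map_neg, coeff_X]
  by_cases h : n = 1
  · subst h; simp
  · rw [if_neg h]; simp

theorem tau_X_sq : tau κ (X ^ 2) = X ^ 2 := by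
  rw [map_pow, tau_X]; ring

/- Hensel's lemma: existence. -/
theorem hensel (f : Polynomial κ⟦X⟧) (hf : f.Monic) (a : κ)
    (h0 : (f.map constantCoeff).eval a = 0)
    (h1 : (f.map constantCoeff).derivative.eval a ≠ 0) :
    ∃ α : κ⟦X⟧, f.eval α = 0 ∧ constantCoeff α = a := by
  have e0 : constantCoeff (f.eval (C a)) = 0 := by
    rw [← h0, ← Polynomial.eval_map_apply, constantCoeff_C]
  have e1 : constantCoeff (f.derivative.eval (C a)) ≠ 0 := by
    rw [← Polynomial.eval_map_apply, constantCoeff_C, ← Polynomial.derivative_map]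
    exact h1
  obtain ⟨α, hα, hα'⟩ := HenselianRing.is_henselian (I := Ideal.span {(X : κ⟦X⟧)}) f hf (C a)
    (by rw [Ideal.mem_span_singleton, X_dvd_iff]; exact e0)
    (((isUnit_iff_constantCoeff.2 (isUnit_iff_ne_zero.2 e1))).map _)
  refine ⟨α, hα, ?_⟩
  rw [Ideal.mem_span_singleton, X_dvd_iff, map_sub, constantCoeff_C, sub_eq_zero] at hα'
  exact hα'

/- Hensel's lemma: uniqueness. -/
theorem hensel_unique (f : Polynomial κ⟦X⟧) (α β : κ⟦X⟧) (hα : f.eval α = 0) (hβ : f.eval β = 0)
    (hαβ : constantCoeff α = constantCoeff β)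
    (h1 : (f.map constantCoeff).derivative.eval (constantCoeff β) ≠ 0) : α = β := by
  by_contra hne
  obtain ⟨g, hg⟩ := Polynomial.dvd_iff_isRoot.2 (show f.IsRoot β from hβ)
  have h2 : g.eval α = 0 := by
    rw [hg, Polynomial.eval_mul, mul_eq_zero] at hα
    refine hα.resolve_left ?_
    rw [Polynomial.eval_sub, Polynomial.eval_X, Polynomial.eval_C]
    exact sub_ne_zero.2 hne
  apply h1
  rw [hg, Polynomial.map_mul, Polynomial.derivative_mul]
  have h3 : (g.map constantCoeff).eval (constantCoeff β) = 0 := by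
    rw [← hαβ, Polynomial.eval_map_apply, h2, map_zero]
  simp [h3]

/- Square roots of units. -/
theorem exists_sqrt [IsAlgClosed κ] [CharZero κ] (w : κ⟦X⟧) (hw : constantCoeff w ≠ 0)
    (hτ : tau κ w = w) : ∃ ω : κ⟦X⟧, ω ^ 2 = w ∧ tau κ ω = ω ∧ constantCoeff ω ≠ 0 := by
  obtain ⟨r, hr⟩ := IsAlgClosed.exists_pow_nat_eq (constantCoeff w) (n := 2) (by norm_num)
  have hr0 : r ≠ 0 := by
    rintro rfl
    apply hw
    rw [← hr]; simp
  have hmap : (Polynomial.X ^ 2 - Polynomial.C w).map constantCoeff =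
      Polynomial.X ^ 2 - Polynomial.C (constantCoeff w) := by simp
  have hder : ∀ s : κ, s ≠ 0 →
      ((Polynomial.X ^ 2 - Polynomial.C w).map constantCoeff).derivative.eval s ≠ 0 := by
    intro s hs
    rw [hmap]
    simp [hs]
  obtain ⟨ω, hω, hω'⟩ := hensel (Polynomial.X ^ 2 - Polynomial.C w)
    (Polynomial.monic_X_pow_sub_C w (by norm_num)) r (by rw [hmap]; simp [hr]) (hder r hr0)
  have hω2 : ω ^ 2 = w := by
    simpa [sub_eq_zero] using hω
  refine ⟨ω, hω2, ?_, by rw [hω']; exact hr0⟩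
  refine hensel_unique (Polynomial.X ^ 2 - Polynomial.C w) _ _ ?_ hω ?_ (hder _ ?_)
  · simp only [Polynomial.eval_sub, Polynomial.eval_pow, Polynomial.eval_X, Polynomial.eval_C]
    rw [← map_pow, hω2, hτ, sub_self]
  · exact tau_constantCoeff ω
  · rw [hω']; exact hr0

theorem even_dvd [CharZero κ] (b : κ⟦X⟧) (hb : constantCoeff b = 0) (hτ : tau κ b = b) :
    ∃ c, b = X ^ 2 * c := by
  have h1 : X ^ 2 ∣ b := by
    rw [X_pow_dvd_iff]
    intro m hm
    interval_cases m
    · rw [coeff_zero_eq_constantCoeff_apply, hb]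
    · have h2 := congrArg (coeff 1) hτ
      rw [tau_coeff] at h2
      simp only [pow_one, neg_mul, one_mul] at h2
      exact self_eq_neg.1 h2.symm
  exact h1

/- The structure of the roots. -/
theorem root_structure [IsAlgClosed κ] [CharZero κ] (f : Polynomial κ⟦X⟧) (u : κ) (hu : u ≠ 0)
    {D : ℕ} (hD : f.natDegree = D + 2) (hlc : f.leadingCoeff = C u)
    (hτ : f.map (tau κ) = f) (a : Fin D → κ) (ha : Function.Injective a) (ha0 : ∀ i, a i ≠ 0)
    (hres : f.map constantCoeff = Polynomial.C u * (Polynomial.X ^ 2 *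
      ∏ i, (Polynomial.X - Polynomial.C (a i))))
    (h0 : ∃ v : κ⟦X⟧, constantCoeff v ≠ 0 ∧ f.eval 0 = X ^ 2 * v) :
    ∃ (α : Fin D → κ⟦X⟧) (z z' : κ⟦X⟧), (∀ i, constantCoeff (α i) = a i) ∧
      (∀ i, tau κ (α i) = α i) ∧ constantCoeff z = 0 ∧ constantCoeff z' = 0 ∧ z ≠ z' ∧
      tau κ z = z' ∧ tau κ z' = z ∧
      f = Polynomial.C (C u) * ((Polynomial.X - Polynomial.C z) * (Polynomial.X - Polynomial.C z') *
        ∏ i, (Polynomial.X - Polynomial.C (α i))) := by
  classical
  have huC : (C u : κ⟦X⟧) ≠ 0 := by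
    intro h
    apply hu
    have := congrArg constantCoeff h
    simpa using this
  have hunit : IsUnit (C u : κ⟦X⟧) := (isUnit_iff_ne_zero.2 hu).map C
  -- the monic version
  let f₁ : Polynomial κ⟦X⟧ := Polynomial.C (C u⁻¹) * f
  have hf₁m : f₁.Monic := by
    rw [Polynomial.Monic, Polynomial.leadingCoeff_mul, Polynomial.leadingCoeff_C, hlc, ← map_mul,
      inv_mul_cancel₀ hu, map_one]
  have hff₁ : f = Polynomial.C (C u) * f₁ := by
    simp only [f₁]
    rw [← mul_assoc, ← Polynomial.C_mul, ← map_mul, mul_inv_cancel₀ hu, map_one, map_one, one_mul]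
  have hres₁ : f₁.map constantCoeff = Polynomial.X ^ 2 *
      ∏ i, (Polynomial.X - Polynomial.C (a i)) := by
    simp only [f₁]
    rw [Polynomial.map_mul, Polynomial.map_C, constantCoeff_C, hres, ← mul_assoc,
      ← Polynomial.C_mul, inv_mul_cancel₀ hu, Polynomial.C_1, one_mul]
  have hτ₁ : f₁.map (tau κ) = f₁ := by
    simp only [f₁]
    rw [Polynomial.map_mul, Polynomial.map_C, tau_C, hτ]
  have hder : ∀ i, (f₁.map constantCoeff).derivative.eval (a i) ≠ 0 := by
    intro i
    have hsplit : Polynomial.X ^ 2 * ∏ i, (Polynomial.X - Polynomial.C (a i)) =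
        (Polynomial.X - Polynomial.C (a i)) * (Polynomial.X ^ 2 *
          ∏ j ∈ Finset.univ.erase i, (Polynomial.X - Polynomial.C (a j))) := by
      rw [← Finset.mul_prod_erase Finset.univ _ (Finset.mem_univ i)]
      ring
    rw [hres₁, hsplit, Polynomial.derivative_mul]
    simp only [Polynomial.derivative_sub, Polynomial.derivative_X, Polynomial.derivative_C,
      sub_zero, one_mul, Polynomial.eval_add, Polynomial.eval_mul, Polynomial.eval_sub,
      Polynomial.eval_X, Polynomial.eval_C, sub_self, zero_mul, add_zero, Polynomial.eval_pow]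
    refine mul_ne_zero (pow_ne_zero _ (ha0 i)) ?_
    rw [Polynomial.eval_prod]
    refine Finset.prod_ne_zero_iff.2 fun j hj => ?_
    rw [Polynomial.eval_sub, Polynomial.eval_X, Polynomial.eval_C]
    exact sub_ne_zero.2 fun h => (Finset.ne_of_mem_erase hj) (ha h).symm
  have hex : ∀ i, ∃ α : κ⟦X⟧, f₁.eval α = 0 ∧ constantCoeff α = a i := by
    intro i
    refine hensel f₁ hf₁m (a i) ?_ (hder i)
    rw [hres₁, Polynomial.eval_mul, Polynomial.eval_prod,
      Finset.prod_eq_zero (Finset.mem_univ i) (by simp), mul_zero]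
  choose α hα hαa using hex
  have hτα : ∀ i, tau κ (α i) = α i := by
    intro i
    refine hensel_unique f₁ _ _ ?_ (hα i) (tau_constantCoeff _) (by rw [hαa]; exact hder i)
    rw [← hτ₁, Polynomial.eval_map_apply, hα, map_zero]
  have hαinj : Function.Injective α := fun i j h => ha (by rw [← hαa, ← hαa, h])
  -- division
  obtain ⟨g, hg⟩ : (∏ i, (Polynomial.X - Polynomial.C (α i))) ∣ f₁ := by
    have h1 := Polynomial.prod_multiset_X_sub_C_dvd f₁
    have h2 : (Finset.univ.val.map α) ≤ f₁.roots := by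
      rw [Multiset.le_iff_subset]
      · intro x hx
        obtain ⟨i, -, rfl⟩ := Multiset.mem_map.1 hx
        rw [Polynomial.mem_roots hf₁m.ne_zero]
        exact hα i
      · exact Multiset.Nodup.map hαinj Finset.univ.nodup
    have h3 := Multiset.prod_dvd_prod_of_le (Multiset.map_le_map
      (f := fun a : κ⟦X⟧ => Polynomial.X - Polynomial.C a) h2)
    rw [Multiset.map_map] at h3
    exact h3.trans h1
  have hPm : (∏ i, (Polynomial.X - Polynomial.C (α i))).Monic :=
    Polynomial.monic_prod_of_monic _ _ fun i _ => Polynomial.monic_X_sub_C _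
  have hPd : (∏ i, (Polynomial.X - Polynomial.C (α i))).natDegree = D := by
    rw [Polynomial.natDegree_prod_of_monic _ _ fun i _ => Polynomial.monic_X_sub_C _]
    simp
  have hf₁d : f₁.natDegree = D + 2 := by
    have h1 : f.natDegree = f₁.natDegree := by
      rw [hff₁, Polynomial.natDegree_C_mul huC]
    rw [← h1, hD]
  have hgm : g.Monic := by
    have := hf₁m
    rw [hg] at this
    exact hPm.of_mul_monic_left this
  have hgd : g.natDegree = 2 := by
    have h1 := hPm.natDegree_mul hgm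
    rw [← hg, hPd, hf₁d] at h1
    omega
  have hgX : g = Polynomial.X ^ 2 + Polynomial.C (g.coeff 1) * Polynomial.X +
      Polynomial.C (g.coeff 0) := by
    have h1 := Polynomial.as_sum_range_C_mul_X_pow' g (show g.natDegree < 3 by omega)
    have h2 : g.coeff 2 = 1 := by
      have := hgm.coeff_natDegree
      rwa [hgd] at this
    nth_rewrite 1 [h1]
    simp [Finset.sum_range_succ, h2]
    ring
  set b := g.coeff 1 with hb
  set d := g.coeff 0 with hd
  -- residues of b and d
  have hgres : g.map constantCoeff = Polynomial.X ^ 2 := by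
    have h1 := hres₁
    rw [hg, Polynomial.map_mul, Polynomial.map_prod] at h1
    simp only [Polynomial.map_sub, Polynomial.map_X, Polynomial.map_C, hαa] at h1
    rw [mul_comm] at h1
    refine mul_right_cancel₀ ?_ h1
    exact (Polynomial.monic_prod_of_monic _ _ fun i _ => Polynomial.monic_X_sub_C _).ne_zero
  have hb0 : constantCoeff b = 0 := by
    have h1 := congrArg (fun q : Polynomial κ => q.coeff 1) hgres
    simp only [Polynomial.coeff_map] at h1
    rw [hb, h1]
    simp
  have hd0 : constantCoeff d = 0 := by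
    have h1 := congrArg (fun q : Polynomial κ => q.coeff 0) hgres
    simp only [Polynomial.coeff_map] at h1
    rw [hd, h1]
    simp
  have hgτ : g.map (tau κ) = g := by
    have h1 := hτ₁
    rw [hg, Polynomial.map_mul, Polynomial.map_prod] at h1
    simp only [Polynomial.map_sub, Polynomial.map_X, Polynomial.map_C, hτα] at h1
    exact mul_left_cancel₀ hPm.ne_zero h1
  have hτb : tau κ b = b := by
    have h1 := congrArg (fun q : Polynomial κ⟦X⟧ => q.coeff 1) hgτ
    simpa [Polynomial.coeff_map] using h1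
  have hτd : tau κ d = d := by
    have h1 := congrArg (fun q : Polynomial κ⟦X⟧ => q.coeff 0) hgτ
    simpa [Polynomial.coeff_map] using h1
  obtain ⟨b', hb'⟩ := even_dvd b hb0 hτb
  obtain ⟨d', hd'⟩ := even_dvd d hd0 hτd
  have hX2 : (X ^ 2 : κ⟦X⟧) ≠ 0 := pow_ne_zero _ X_ne_zero
  -- d' is a unit
  have hd'0 : constantCoeff d' ≠ 0 := by
    obtain ⟨v, hv0, hv⟩ := h0
    rw [hff₁, hg, Polynomial.eval_mul, Polynomial.eval_mul, Polynomial.eval_C,
      Polynomial.eval_prod] at hv
    have h2 : g.eval 0 = d := by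
      rw [hgX]
      simp
    rw [h2, hd'] at hv
    have h3 : X ^ 2 * (C u * (∏ i, (Polynomial.X - Polynomial.C (α i)).eval 0) * d') =
        X ^ 2 * v := by
      rw [← hv]
      ring
    have h4 := mul_left_cancel₀ hX2 h3
    intro h5
    apply hv0
    rw [← h4, map_mul, h5, mul_zero]
  set w₀ := X ^ 2 * b' ^ 2 - 4 * d' with hw₀
  have hw₀0 : constantCoeff w₀ ≠ 0 := by
    rw [hw₀, map_sub, map_mul, map_mul]
    simp only [map_pow, constantCoeff_X, ne_eq, OfNat.ofNat_ne_zero, not_false_eq_true, zero_pow,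
      zero_mul, zero_sub, neg_eq_zero]
    refine mul_ne_zero ?_ hd'0
    have : (constantCoeff : κ⟦X⟧ →+* κ) 4 = 4 := map_ofNat _ 4
    rw [this]
    norm_num
  have hdisc : b ^ 2 - 4 * d = X ^ 2 * w₀ := by
    rw [hb', hd', hw₀]
    ring
  have hτw : tau κ w₀ = w₀ := by
    apply mul_left_cancel₀ hX2
    have h1 : tau κ (X ^ 2 * w₀) = X ^ 2 * w₀ := by
      rw [← hdisc, map_sub, map_pow, map_mul, hτb, hτd]
      congr 2
      exact map_ofNat _ 4
    rwa [map_mul, tau_X_sq] at h1
  obtain ⟨ω, hω, hτω, hω0⟩ := exists_sqrt w₀ hw₀0 hτw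
  have htwo : (C (2⁻¹ : κ) : κ⟦X⟧) * 2 = 1 := by
    have h1 : (2 : κ⟦X⟧) = C 2 := (map_ofNat C 2).symm
    rw [h1, ← map_mul]
    simp
  set z : κ⟦X⟧ := C (2⁻¹ : κ) * (-b + X * ω) with hz
  set z' : κ⟦X⟧ := C (2⁻¹ : κ) * (-b - X * ω) with hz'
  have hgz : g = (Polynomial.X - Polynomial.C z) * (Polynomial.X - Polynomial.C z') := by
    have h1 : z + z' = -b := by
      rw [hz, hz']
      linear_combination (-b) * htwo
    have h2 : z * z' = d := by
      rw [hz, hz']
      have h3 : (-b + X * ω) * (-b - X * ω) = 4 * d := by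
        have : (X * ω) ^ 2 = b ^ 2 - 4 * d := by
          rw [mul_pow, hω, hdisc]
        linear_combination (-1) * this
      calc C (2⁻¹ : κ) * (-b + X * ω) * (C (2⁻¹ : κ) * (-b - X * ω)) =
          (C (2⁻¹ : κ)) ^ 2 * ((-b + X * ω) * (-b - X * ω)) := by ring
        _ = (C (2⁻¹ : κ) * 2) ^ 2 * d := by rw [h3]; ring
        _ = d := by rw [htwo]; ring
    rw [hgX]
    have h3 : b = -(z + z') := by rw [h1]; ring
    rw [h3, ← h2]
    simp only [Polynomial.C_neg, Polynomial.C_add, Polynomial.C_mul]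
    ring
  have hzz' : z ≠ z' := by
    intro h
    have h1 : X * ω = 0 := by
      have h2 : z - z' = X * ω := by
        rw [hz, hz']
        linear_combination (X * ω) * htwo
      rw [← h2, h, sub_self]
    rcases mul_eq_zero.1 h1 with h1 | h1
    · exact X_ne_zero h1
    · apply hω0
      rw [h1, map_zero]
  refine ⟨α, z, z', hαa, hτα, ?_, ?_, hzz', ?_, ?_, ?_⟩
  · rw [hz]; simp [hb0]
  · rw [hz']; simp [hb0]
  · rw [hz, hz', map_mul, map_add, map_neg, map_mul, tau_C, tau_X, hτb, hτω]
    ring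
  · rw [hz, hz', map_mul, map_sub, map_neg, map_mul, tau_C, tau_X, hτb, hτω]
    ring
  · rw [hff₁, hg, hgz]
    ring

end hens

end Pool.Agent.H391R2.T4
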