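import Mathlib



namespace Pool.Agent.H391R2

open MvPolynomial

section family

variable (k : Type) [Field k] (G : Type) [Group G] [Fintype G]


variable {k}
variable (base : Option (Fin (Fintype.card G)) → Polynomial k) (w : Polynomial k)

/- The family of curves. -/
noncomputable def fam {E : Type} [CommRing E] [Algebra k E]
    (θ : Option (Fin (Fintype.card G)) ⊕ Option (Fin (Fintype.card G)) → E)
    (i : Option (Fin (Fintype.card G))) : Polynomial E :=
  (base i).map (algebraMap k E) + w.map (algebraMap k E) *
    (Polynomial.C (θ (Sum.inl i)) + Polynomial.C (θ (Sum.inr i)) * Polynomial.X)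

omit [Group G] in
theorem fam_eval {E : Type} [CommRing E] [Algebra k E]
    (θ : Option (Fin (Fintype.card G)) ⊕ Option (Fin (Fintype.card G)) → E)
    (i : Option (Fin (Fintype.card G))) (s : E) :
    (fam G base w θ i).eval s = Polynomial.aeval s (base i) + Polynomial.aeval s w *
      (θ (Sum.inl i) + θ (Sum.inr i) * s) := by
  simp [fam, Polynomial.eval_map_algebraMap]

omit [Group G] in
theorem fam_map {E E' : Type} [CommRing E] [Algebra k E] [CommRing E'] [Algebra k E']
    (f : E →ₐ[k] E')
    (θ : Option (Fin (Fintype.card G)) ⊕ Option (Fin (Fintype.card G)) → E)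
    (i : Option (Fin (Fintype.card G))) :
    (fam G base w θ i).map (f : E →+* E') = fam G base w (f ∘ θ) i := by
  simp only [fam, Polynomial.map_add, Polynomial.map_mul, Polynomial.map_map, Polynomial.map_C,
    Polynomial.map_X, Function.comp_apply, RingHom.coe_coe]
  have : (f : E →+* E').comp (algebraMap k E) = algebraMap k E' := f.comp_algebraMap
  rw [this]


end family


end Pool.Agent.H391R2
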