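import Mathlib



namespace Pool.Agent.H391R2

open MvPolynomial

section y0

variable (k : Type) [Field k] (G : Type) [Group G] [Fintype G]


omit [Group G] in
theorem aeval_esymm_comp {E : Type} [CommRing E] [Algebra k E] (v : G → E) (π : Equiv.Perm G)
    (n : ℕ) : aeval (v ∘ π) (esymm G k n) = aeval v (esymm G k n) := by
  rw [← aeval_rename, rename_esymm]

end y0


section pc

/- The monic polynomial with prescribed elementary symmetric functions of the roots. -/
noncomputable def Pc {E : Type} [CommRing E] {m : ℕ} (c : Fin m → E) : Polynomial E :=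
  Polynomial.X ^ m + ∑ i : Fin m, Polynomial.C ((-1) ^ ((i : ℕ) + 1) * c i) *
    Polynomial.X ^ (m - 1 - i)

theorem Pc_map {E E' : Type} [CommRing E] [CommRing E'] {m : ℕ} (c : Fin m → E)
    (f : E →+* E') : (Pc c).map f = Pc (fun i => f (c i)) := by
  simp [Pc, Polynomial.map_sum]

theorem Pc_coeff {E : Type} [CommRing E] {m : ℕ} (c : Fin m → E) (i : Fin m) :
    (Pc c).coeff (m - 1 - i) = (-1) ^ ((i : ℕ) + 1) * c i := by
  classical
  unfold Pc
  rw [Polynomial.coeff_add, Polynomial.coeff_X_pow, if_neg (by omega), zero_add,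
    Polynomial.finsetSum_coeff, Finset.sum_eq_single i]
  · rw [Polynomial.coeff_C_mul, Polynomial.coeff_X_pow, if_pos rfl, mul_one]
  · intro j _ hne
    rw [Polynomial.coeff_C_mul, Polynomial.coeff_X_pow, if_neg, mul_zero]
    intro h
    apply hne
    apply Fin.ext
    have := i.2
    have := j.2
    omega
  · intro h
    exact absurd (Finset.mem_univ _) h

theorem Pc_injective {E : Type} [CommRing E] {m : ℕ} :
    Function.Injective (Pc : (Fin m → E) → Polynomial E) := by
  intro c c' h
  funext i
  have h1 := Pc_coeff c i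
  rw [h, Pc_coeff] at h1
  have h2 : IsUnit ((-1 : E) ^ ((i : ℕ) + 1)) := (isUnit_one.neg).pow _
  exact (h2.mul_left_cancel h1).symm

theorem prod_eq_Pc {k E G : Type} [Field k] [CommRing E] [Algebra k E] [Fintype G] (v : G → E) :
    ∏ g : G, (Polynomial.X - Polynomial.C (v g)) =
      Pc (fun i : Fin (Fintype.card G) => aeval v (esymm G k (i + 1))) := by
  classical
  have h1 := Multiset.prod_X_sub_X_eq_sum_esymm (Finset.univ.val.map v)
  rw [Multiset.map_map] at h1
  have h2 : (Multiset.map ((fun t => Polynomial.X - Polynomial.C t) ∘ v)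
      (Finset.univ : Finset G).val).prod = ∏ g : G, (Polynomial.X - Polynomial.C (v g)) := rfl
  rw [h2] at h1
  rw [h1]
  simp only [Multiset.card_map, Finset.card_val, Finset.card_univ]
  rw [Finset.sum_range_succ']
  unfold Pc
  rw [add_comm]
  congr 1
  · simp [Multiset.esymm]
  · rw [Finset.sum_range]
    refine Finset.sum_congr rfl fun i _ => ?_
    change _ = Polynomial.C ((-1) ^ ((i : ℕ) + 1) * aeval v (esymm G k (i + 1))) * _
    rw [aeval_esymm_eq_multiset_esymm]
    have h3 : Fintype.card G - ((i : ℕ) + 1) = Fintype.card G - 1 - i := by omega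
    rw [h3]
    simp only [Polynomial.C_mul, Polynomial.C_pow, Polynomial.C_neg, Polynomial.C_1]
    ring

theorem Pc_natDegree {E : Type} [CommRing E] [Nontrivial E] {m : ℕ} (c : Fin m → E) :
    (Pc c).Monic ∧ (Pc c).natDegree = m := by
  unfold Pc
  have h1 : (∑ i : Fin m, Polynomial.C ((-1) ^ ((i : ℕ) + 1) * c i) *
    Polynomial.X ^ (m - 1 - i) : Polynomial E).degree < m := by
    rw [← Polynomial.mem_degreeLT]
    refine Submodule.sum_mem _ fun i _ => ?_
    rw [Polynomial.mem_degreeLT]
    refine (Polynomial.degree_C_mul_X_pow_le _ _).trans_lt ?_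
    have := i.2
    exact_mod_cast (by omega : m - 1 - i < m)
  refine ⟨Polynomial.monic_X_pow_add h1, ?_⟩
  apply Polynomial.natDegree_eq_of_degree_eq_some
  rw [Polynomial.degree_add_eq_left_of_degree_lt (by rwa [Polynomial.degree_X_pow]),
    Polynomial.degree_X_pow]

/- Over an algebraically closed field, there are always roots. -/
theorem exists_roots {k E G : Type} [Field k] [Field E] [Algebra k E] [IsAlgClosed E] [Fintype G]
    (c : Fin (Fintype.card G) → E) :
    ∃ v : G → E, ∀ i : Fin (Fintype.card G), aeval v (esymm G k (i + 1)) = c i := by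
  classical
  obtain ⟨hm, hd⟩ := Pc_natDegree c
  have hs : (Pc c).Splits := IsAlgClosed.splits _
  have hcard : (Pc c).roots.card = Fintype.card G := hs.natDegree_eq_card_roots.symm.trans hd
  have h1 : ∃ v : G → E, (Finset.univ : Finset G).val.map v = (Pc c).roots := by
    have hc : Fintype.card G = Fintype.card (Pc c).roots.ToType := by
      rw [Multiset.card_coe, hcard]
    let e : G ≃ (Pc c).roots.ToType := Fintype.equivOfCardEq hc
    refine ⟨fun g => (e g : E), ?_⟩
    have h2 := Multiset.map_univ_val_equiv e
    have h3 := Multiset.map_univ_coe (Pc c).roots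
    rw [← h2, Multiset.map_map] at h3
    exact h3
  obtain ⟨v, hv⟩ := h1
  refine ⟨v, ?_⟩
  have h2 : ∏ g : G, (Polynomial.X - Polynomial.C (v g)) = Pc c := by
    rw [hs.eq_prod_roots_of_monic hm, ← hv, Multiset.map_map]
    rfl
  rw [prod_eq_Pc (k := k)] at h2
  exact fun i => congrFun (Pc_injective h2) i

theorem exists_perm_of_esymm {k E G : Type} [Field k] [Field E] [Algebra k E] [Fintype G]
    (v v' : G → E) (h : ∀ i : Fin (Fintype.card G),
      (aeval v (esymm G k (i + 1)) : E) = aeval v' (esymm G k (i + 1))) :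
    ∃ π : Equiv.Perm G, v' = v ∘ π := by
  classical
  have h1 : ∏ g : G, (Polynomial.X - Polynomial.C (v g)) =
      ∏ g : G, (Polynomial.X - Polynomial.C (v' g)) := by
    rw [prod_eq_Pc (k := k), prod_eq_Pc (k := k)]
    congr 1
    funext i
    exact h i
  have h2 : (Finset.univ : Finset G).val.map v = (Finset.univ : Finset G).val.map v' := by
    have h3 := congrArg Polynomial.roots h1
    have h4 : ∀ u : G → E, (∏ g : G, (Polynomial.X - Polynomial.C (u g))).roots =
        (Finset.univ : Finset G).val.map u := by
      intro u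
      have := Polynomial.roots_multiset_prod_X_sub_C ((Finset.univ : Finset G).val.map u)
      rw [Multiset.map_map] at this
      exact this
    rwa [h4, h4] at h3
  have h5 : ∀ c : E, Nonempty ({a // v' a = c} ≃ {b // v b = c}) := by
    intro c
    apply Fintype.card_eq.1
    have h6 : ∀ u : G → E, Fintype.card {a // u a = c} =
        Multiset.count c ((Finset.univ : Finset G).val.map u) := by
      intro u
      rw [Multiset.count_map, Fintype.card_subtype]
      simp only [eq_comm (a := c)]
      rfl
    rw [h6, h6, h2]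
  let π : G ≃ G := Equiv.ofFiberEquiv (f := v') (g := v) fun c => (h5 c).some
  exact ⟨π, funext fun a => (Equiv.ofFiberEquiv_map (f := v') (g := v) _ a).symm⟩

end pc

end Pool.Agent.H391R2
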