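import Mathlib
import Pool.Agent.H84.L.S8_H391R2_NtB
import Pool.Agent.H84.L.S8_H391R2_RnA
import Pool.Agent.H84.L.S8_H391R2_T4_Hens
import Pool.Agent.H84.L.S8_H391R2_T4_Sol
import Pool.Agent.H84.L.S8_H391R2_WrSym



set_option autoImplicit false

namespace Pool.Agent.H391R2.T4

open MvPolynomial

set_option linter.unusedSectionVars false

section prod

variable {k : Type} [Field k] {G : Type} [Group G] [Fintype G] (y : MvPolynomial G k)

theorem PhiP_prod (Ψ : Polynomial (MvPolynomial (Fin (Fintype.card G)) k))
    (hΨ : Ψ.map ((aeval fun i : Fin (Fintype.card G) => esymm G k (i + 1) :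
      MvPolynomial (Fin (Fintype.card G)) k →ₐ[k] MvPolynomial G k) :
      MvPolynomial (Fin (Fintype.card G)) k →+* MvPolynomial G k) =
      ∏ q ∈ orb y, (Polynomial.X - Polynomial.C q)) {E : Type} [CommRing E] [Algebra k E]
    (P : Option (Fin (Fintype.card G)) → Polynomial E) (V : G → Polynomial E)
    (hV : ∀ i : Fin (Fintype.card G), P (some i) = aeval V (esymm G k (i + 1))) :
    PhiP Ψ P = ∏ q ∈ orb y, (P none - aeval V q) := by
  unfold PhiP
  rw [← Polynomial.eval_map, psi_map y hΨ V (fun i => P (some i)) hV, Polynomial.eval_prod]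
  simp only [Polynomial.eval_sub, Polynomial.eval_X, Polynomial.eval_C]

theorem aeval_C_comp {E : Type} [CommRing E] [Algebra k E] (l : G → k) (q : MvPolynomial G k) :
    aeval (fun g => (Polynomial.C (algebraMap k E (l g)) : Polynomial E)) q =
      Polynomial.C (algebraMap k E (aeval l q)) := by
  have h1 := comp_aeval_apply (f := l) (φ := (Algebra.ofId k (Polynomial E))) q
  have h2 : (fun i => (Algebra.ofId k (Polynomial E)) (l i)) =
      fun g => (Polynomial.C (algebraMap k E (l g)) : Polynomial E) := by
    funext g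
    rw [Algebra.ofId_apply, Polynomial.algebraMap_apply]
  rw [h2] at h1
  rw [← h1, Algebra.ofId_apply, Polynomial.algebraMap_apply]

end prod

section cfg

variable {k : Type} [Field k] {G : Type} [Group G] [Fintype G] (y : MvPolynomial G k)
variable {κ : Type} [Field κ] [Algebra k κ]

/- `tau` as an algebra homomorphism. -/
noncomputable def tauA (k κ : Type) [Field k] [Field κ] [Algebra k κ] :
    PowerSeries κ →ₐ[k] PowerSeries κ :=
  { tau κ with
    commutes' := fun a => by
      change tau κ (algebraMap k (PowerSeries κ) a) = _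
      rw [PowerSeries.algebraMap_apply, tau_C] }

/- The constant coefficient as an algebra homomorphism. -/
noncomputable def ccA (k κ : Type) [Field k] [Field κ] [Algebra k κ] : PowerSeries κ →ₐ[k] κ :=
  { (PowerSeries.constantCoeff : PowerSeries κ →+* κ) with
    commutes' := fun a => by
      change PowerSeries.constantCoeff (algebraMap k (PowerSeries κ) a) = _
      rw [PowerSeries.algebraMap_apply, PowerSeries.constantCoeff_C] }

/- The unperturbed tuple. -/
noncomputable def bsT {E : Type} [CommRing E] [Algebra k E] (l : G → k) (Q : Polynomial E) :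
    Option (Fin (Fintype.card G)) → Polynomial E
  | none => Polynomial.C (algebraMap k E (aeval l y)) + Q
  | some i => Polynomial.C (algebraMap k E (aeval l (esymm G k (i + 1))))

theorem bsT_map {E E' : Type} [CommRing E] [Algebra k E] [CommRing E'] [Algebra k E']
    (f : E →ₐ[k] E') (l : G → k) (Q : Polynomial E) (i : Option (Fin (Fintype.card G))) :
    (bsT y l Q i).map (f : E →+* E') = bsT y l (Q.map (f : E →+* E')) i := by
  have h : ∀ x, (f : E →+* E') (algebraMap k E x) = algebraMap k E' x := f.commutes
  cases i with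
  | none => simp only [bsT, Polynomial.map_add, Polynomial.map_C, h]
  | some i => simp only [bsT, Polynomial.map_C, h]

theorem bsT_prod (Ψ : Polynomial (MvPolynomial (Fin (Fintype.card G)) k))
    (hΨ : Ψ.map ((aeval fun i : Fin (Fintype.card G) => esymm G k (i + 1) :
      MvPolynomial (Fin (Fintype.card G)) k →ₐ[k] MvPolynomial G k) :
      MvPolynomial (Fin (Fintype.card G)) k →+* MvPolynomial G k) =
      ∏ q ∈ orb y, (Polynomial.X - Polynomial.C q)) {E : Type} [CommRing E] [Algebra k E]
    (l : G → k) (Q : Polynomial E) :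
    PhiP Ψ (bsT y l Q) =
      ∏ q ∈ orb y, (Q - Polynomial.C (algebraMap k E (aeval l q - aeval l y))) := by
  rw [PhiP_prod y Ψ hΨ (bsT y l Q) (fun g => Polynomial.C (algebraMap k E (l g)))
    (fun i => (aeval_C_comp l _).symm)]
  refine Finset.prod_congr rfl fun q _ => ?_
  rw [aeval_C_comp]
  simp only [bsT, map_sub]
  ring

open Classical in
theorem config_roots [IsAlgClosed κ] [CharZero κ]
    (Ψ : Polynomial (MvPolynomial (Fin (Fintype.card G)) k)) (hm : Ψ.Monic)
    (hΨ : Ψ.map ((aeval fun i : Fin (Fintype.card G) => esymm G k (i + 1) :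
      MvPolynomial (Fin (Fintype.card G)) k →ₐ[k] MvPolynomial G k) :
      MvPolynomial (Fin (Fintype.card G)) k →+* MvPolynomial G k) =
      ∏ q ∈ orb y, (Polynomial.X - Polynomial.C q))
    (T : ℕ) (hT : ∀ e, (Ψ.coeff e).totalDegree ≤ T) (l : G → k) (c : k) (hc : c ≠ 0)
    (R : Polynomial k) (hR0 : R.eval 0 ≠ 0)
    (hδ : ∀ q ∈ orb y, q ≠ y → aeval l q - aeval l y ≠ 0)
    (hsep : (Polynomial.C c * R * ∏ q ∈ (orb y).erase y, (Polynomial.C c * (Polynomial.X ^ 2 * R) -
      Polynomial.C (aeval l q - aeval l y))).Separable)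
    (B M : ℕ) (hB : T * B < M) (hM : 2 + R.natDegree = M) (n' : ℕ)
    (hdeg : Ψ.natDegree * M = n' + 2)
    (P : Option (Fin (Fintype.card G)) → Polynomial (PowerSeries κ))
    (hPB : ∀ i, (P (some i)).natDegree ≤ B) (hPM : (P none).natDegree = M)
    (hPl : (P none).leadingCoeff = algebraMap k (PowerSeries κ) c)
    (hPτ : ∀ i, (P i).map (tau κ) = P i)
    (D : Option (Fin (Fintype.card G)) → Polynomial (PowerSeries κ))
    (hPD : ∀ i, P i = bsT y l (Polynomial.C (algebraMap k (PowerSeries κ) c) *
      ((Polynomial.X ^ 2 - Polynomial.C (PowerSeries.X ^ 2)) * R.map (algebraMap k _))) i +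
      Polynomial.C (PowerSeries.X ^ 4) * D i) :
    ∃ (α : Fin n' → PowerSeries κ) (z z' : PowerSeries κ),
      Function.Injective (fun i => PowerSeries.constantCoeff (α i)) ∧
      (∀ i, PowerSeries.constantCoeff (α i) ≠ 0) ∧
      (∀ i, tau κ (α i) = α i) ∧ PowerSeries.constantCoeff z = 0 ∧
      PowerSeries.constantCoeff z' = 0 ∧ z ≠ z' ∧
      tau κ z = z' ∧ tau κ z' = z ∧
      PhiP Ψ P = Polynomial.C (algebraMap k (PowerSeries κ) (c ^ Ψ.natDegree)) *
        ((Polynomial.X - Polynomial.C z) * (Polynomial.X - Polynomial.C z') *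
        ∏ i, (Polynomial.X - Polynomial.C (α i))) := by
  classical
  let O := PowerSeries κ
  have hκinj : Function.Injective (algebraMap k κ) := (algebraMap k κ).injective
  have hOinj : Function.Injective (algebraMap k O) := by
    intro a b hab
    have := congrArg PowerSeries.constantCoeff hab
    rw [PowerSeries.algebraMap_apply, PowerSeries.algebraMap_apply, PowerSeries.constantCoeff_C,
      PowerSeries.constantCoeff_C] at this
    exact hκinj this
  -- degree
  have hdl : (PhiP Ψ P).natDegree = Ψ.natDegree * M ∧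
      (PhiP Ψ P).leadingCoeff = (P none).leadingCoeff ^ Ψ.natDegree := by
    let E := FractionRing O
    let i : O →ₐ[k] E := IsScalarTower.toAlgHom k O E
    have hi : Function.Injective (i : O →+* E) := IsFractionRing.injective O E
    have h1 := PhiP_map Ψ i P
    have h2 := PhiP_natDegree Ψ hm T hT (fun j => (P j).map (i : O →+* E)) B M hB
      (fun j => (Polynomial.natDegree_map_le).trans (hPB j))
      (by rw [Polynomial.natDegree_map_eq_of_injective hi, hPM])
    rw [← h1, Polynomial.natDegree_map_eq_of_injective hi,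
      Polynomial.leadingCoeff_map_of_injective hi,
      Polynomial.leadingCoeff_map_of_injective hi, ← map_pow] at h2
    exact ⟨h2.1, hi h2.2⟩
  set f := PhiP Ψ P with hf
  have hfd : f.natDegree = n' + 2 := by rw [hdl.1, hdeg]
  have hfl : f.leadingCoeff = PowerSeries.C (algebraMap k κ (c ^ Ψ.natDegree)) := by
    rw [hdl.2, hPl, ← map_pow, PowerSeries.algebraMap_apply]
  have hfτ : f.map (tau κ) = f := by
    have h1 := PhiP_map Ψ (tauA k κ) P
    have h2 : ((tauA k κ : O →ₐ[k] O) : O →+* O) = tau κ := rfl
    rw [h2] at h1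
    rw [hf, h1]
    congr 1
    funext i
    exact hPτ i
  -- residue
  set δ : MvPolynomial G k → k := fun q => aeval l q - aeval l y with hδd
  set S : Polynomial k := Polynomial.C c * R * ∏ q ∈ (orb y).erase y,
    (Polynomial.C c * (Polynomial.X ^ 2 * R) - Polynomial.C (δ q)) with hS
  have hres : f.map PowerSeries.constantCoeff = Polynomial.X ^ 2 * S.map (algebraMap k κ) := by
    have h1 := PhiP_map Ψ (ccA k κ) P
    have h2 : ((ccA k κ : O →ₐ[k] κ) : O →+* κ) = PowerSeries.constantCoeff := rfl
    rw [h2] at h1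
    rw [hf, h1]
    have h3 : (fun i => (P i).map (PowerSeries.constantCoeff : O →+* κ)) =
        bsT y l (Polynomial.C (algebraMap k κ c) *
          (Polynomial.X ^ 2 * R.map (algebraMap k κ))) := by
      funext i
      rw [hPD, Polynomial.map_add, Polynomial.map_mul, Polynomial.map_C]
      have h4 := bsT_map y (ccA k κ) l (Polynomial.C (algebraMap k (PowerSeries κ) c) *
        ((Polynomial.X ^ 2 - Polynomial.C (PowerSeries.X ^ 2)) * R.map (algebraMap k _))) i
      rw [h2] at h4
      rw [h4]
      have h5 : (PowerSeries.constantCoeff : O →+* κ) (PowerSeries.X ^ 4) = 0 := by simp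
      rw [h5, Polynomial.C_0, zero_mul, add_zero]
      congr 1
      rw [Polynomial.map_mul, Polynomial.map_mul, Polynomial.map_sub, Polynomial.map_C,
        Polynomial.map_C, Polynomial.map_pow, Polynomial.map_X, Polynomial.map_map]
      have h6 : (PowerSeries.constantCoeff : O →+* κ) (PowerSeries.X ^ 2) = 0 := by simp
      have h7 : (PowerSeries.constantCoeff : O →+* κ).comp (algebraMap k O) = algebraMap k κ :=
        (ccA k κ).comp_algebraMap
      have h8 : (PowerSeries.constantCoeff : O →+* κ) (algebraMap k O c) = algebraMap k κ c :=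
        (ccA k κ).commutes c
      rw [h6, h7, h8, Polynomial.C_0, sub_zero]
    rw [h3, bsT_prod y Ψ hΨ, ← Finset.mul_prod_erase _ _ (y_mem_orb y), sub_self, map_zero,
      Polynomial.C_0, sub_zero, hS, Polynomial.map_mul, Polynomial.map_prod]
    simp only [Polynomial.map_mul, Polynomial.map_sub, Polynomial.map_C, Polynomial.map_pow,
      Polynomial.map_X, δ]
    ring
  have hSsep : (S.map (algebraMap k κ)).Separable := hsep.map
  have hS0 : (S.map (algebraMap k κ)) ≠ 0 := hSsep.ne_zero
  -- roots of the residue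
  have hfresd : (f.map PowerSeries.constantCoeff).natDegree = n' + 2 := by
    rw [Polynomial.natDegree_map_of_leadingCoeff_ne_zero, hfd]
    rw [hfl, PowerSeries.constantCoeff_C]
    exact (_root_.map_ne_zero _).2 (pow_ne_zero _ hc)
  have hSd : (S.map (algebraMap k κ)).natDegree = n' := by
    rw [hres, Polynomial.natDegree_mul (pow_ne_zero _ Polynomial.X_ne_zero) hS0,
      Polynomial.natDegree_X_pow] at hfresd
    omega
  have hSl : (S.map (algebraMap k κ)).leadingCoeff = algebraMap k κ (c ^ Ψ.natDegree) := by
    have h1 : (f.map PowerSeries.constantCoeff).leadingCoeff =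
        algebraMap k κ (c ^ Ψ.natDegree) := by
      rw [Polynomial.leadingCoeff_map_of_leadingCoeff_ne_zero, hfl, PowerSeries.constantCoeff_C]
      rw [hfl, PowerSeries.constantCoeff_C]
      exact (_root_.map_ne_zero _).2 (pow_ne_zero _ hc)
    rw [hres, Polynomial.leadingCoeff_mul, Polynomial.leadingCoeff_pow,
      Polynomial.leadingCoeff_X, one_pow, one_mul] at h1
    exact h1
  obtain ⟨a, ha⟩ := exists_enum (S.map (algebraMap k κ)) n' hSd
  rw [hSl] at ha
  have hainj : Function.Injective a := by
    have h1 : (∏ i, (Polynomial.X - Polynomial.C (a i))).Separable := by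
      rw [ha] at hSsep
      exact hSsep.of_mul_right
    exact Polynomial.separable_prod_X_sub_C_iff.1 h1
  have hS00 : (S.map (algebraMap k κ)).eval 0 ≠ 0 := by
    have h1 : (S.map (algebraMap k κ)).eval 0 = algebraMap k κ (S.eval 0) := by
      rw [← Polynomial.eval_map_apply, map_zero]
    rw [h1, _root_.map_ne_zero, hS, Polynomial.eval_mul, Polynomial.eval_prod]
    refine mul_ne_zero ?_ (Finset.prod_ne_zero_iff.2 fun q hq => ?_)
    · rw [Polynomial.eval_mul, Polynomial.eval_C]
      exact mul_ne_zero hc hR0
    · simp only [Polynomial.eval_sub, Polynomial.eval_mul, Polynomial.eval_C, Polynomial.eval_pow,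
        Polynomial.eval_X]
      simp only [ne_eq, OfNat.ofNat_ne_zero, not_false_eq_true, zero_pow, zero_mul, mul_zero,
        zero_sub, neg_eq_zero]
      exact hδ q (Finset.mem_of_mem_erase hq) (Finset.ne_of_mem_erase hq)
  have ha0 : ∀ i, a i ≠ 0 := by
    intro i h
    apply hS00
    rw [ha, Polynomial.eval_mul, Polynomial.eval_prod,
      Finset.prod_eq_zero (Finset.mem_univ i) (by simp [h]), mul_zero]
  -- the value at zero
  have h0 : ∃ v : O, PowerSeries.constantCoeff v ≠ 0 ∧ f.eval 0 = PowerSeries.X ^ 2 * v := by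
    set Qt : Polynomial O := Polynomial.C (algebraMap k O c) *
      ((Polynomial.X ^ 2 - Polynomial.C (PowerSeries.X ^ 2)) * R.map (algebraMap k O)) with hQt
    have h1 : f.eval 0 - (PhiP Ψ (bsT y l Qt)).eval 0 ∈ Ideal.span {(PowerSeries.X ^ 4 : O)} := by
      let mk : O →ₐ[k] O ⧸ Ideal.span {(PowerSeries.X ^ 4 : O)} := Ideal.Quotient.mkₐ k _
      let mr : O →+* O ⧸ Ideal.span {(PowerSeries.X ^ 4 : O)} := mk
      have h2 : (fun i => (P i).map mr) = fun i => (bsT y l Qt i).map mr := by
        funext i
        rw [hPD, Polynomial.map_add, Polynomial.map_mul, Polynomial.map_C]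
        have h3 : mr (PowerSeries.X ^ 4) = 0 :=
          Ideal.Quotient.eq_zero_iff_mem.2 (Ideal.mem_span_singleton_self _)
        rw [h3, Polynomial.C_0, zero_mul, add_zero]
      have h4 : f.map mr = (PhiP Ψ (bsT y l Qt)).map mr := by
        have e1 := PhiP_map Ψ mk P
        have e2 := PhiP_map Ψ mk (bsT y l Qt)
        change f.map mr = PhiP Ψ (fun i => (P i).map mr) at e1
        change (PhiP Ψ (bsT y l Qt)).map mr = PhiP Ψ (fun i => (bsT y l Qt i).map mr) at e2
        rw [e1, e2, h2]
      have h5 : ∀ p : Polynomial O, mr (p.eval 0) = (p.map mr).eval 0 := by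
        intro p
        have h6 := Polynomial.eval_map_apply (f := mr) (p := p) (x := 0)
        rw [map_zero] at h6
        exact h6.symm
      rw [← Ideal.Quotient.eq_zero_iff_mem]
      change mr _ = 0
      rw [map_sub, h5, h5, h4, sub_self]
    obtain ⟨w, hw⟩ := Ideal.mem_span_singleton.1 h1
    have h2 : (PhiP Ψ (bsT y l Qt)).eval 0 = PowerSeries.X ^ 2 *
        (-(algebraMap k O c) * algebraMap k O (R.eval 0) * ∏ q ∈ (orb y).erase y,
          (Qt.eval 0 - algebraMap k O (δ q))) := by
      have h3 : Qt.eval 0 = PowerSeries.X ^ 2 *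
          (-(algebraMap k O c) * algebraMap k O (R.eval 0)) := by
        have h4 : (R.map (algebraMap k O)).eval 0 = algebraMap k O (R.eval 0) := by
          rw [← Polynomial.eval_map_apply, map_zero]
        rw [hQt]
        simp only [Polynomial.eval_mul, Polynomial.eval_sub, Polynomial.eval_pow,
          Polynomial.eval_X, Polynomial.eval_C, h4]
        ring
      rw [bsT_prod y Ψ hΨ, Polynomial.eval_prod, ← Finset.mul_prod_erase _ _ (y_mem_orb y)]
      simp only [Polynomial.eval_sub, Polynomial.eval_C, sub_self, map_zero, sub_zero]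
      nth_rewrite 1 [h3]
      simp only [δ]
      ring
    refine ⟨-(algebraMap k O c) * algebraMap k O (R.eval 0) * (∏ q ∈ (orb y).erase y,
          (Qt.eval 0 - algebraMap k O (δ q))) + PowerSeries.X ^ 2 * w, ?_, ?_⟩
    · have hcc : ∀ x : k, PowerSeries.constantCoeff (algebraMap k O x) = algebraMap k κ x := by
        intro x
        rw [PowerSeries.algebraMap_apply, PowerSeries.constantCoeff_C]
      have hQ0 : PowerSeries.constantCoeff (Qt.eval 0) = 0 := by
        rw [hQt]
        simp
      rw [map_add, map_mul, map_mul, map_mul, map_neg, map_prod, hcc, hcc]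
      simp only [map_sub, hQ0, hcc, map_pow, PowerSeries.constantCoeff_X, zero_sub]
      simp only [ne_eq, OfNat.ofNat_ne_zero, not_false_eq_true, zero_pow, zero_mul, add_zero]
      refine mul_ne_zero (mul_ne_zero (neg_ne_zero.2 ((_root_.map_ne_zero _).2 hc))
        ((_root_.map_ne_zero _).2 hR0)) (Finset.prod_ne_zero_iff.2 fun q hq => ?_)
      exact neg_ne_zero.2 ((_root_.map_ne_zero _).2
        (hδ q (Finset.mem_of_mem_erase hq) (Finset.ne_of_mem_erase hq)))
    · have h3 : f.eval 0 = (PhiP Ψ (bsT y l Qt)).eval 0 + PowerSeries.X ^ 4 * w := by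
        rw [← hw]; ring
      rw [h3, h2]
      ring
  obtain ⟨α, z, z', h1, h2, h3, h4, h5, h6, h7, h8⟩ := root_structure f
    (algebraMap k κ (c ^ Ψ.natDegree)) ((_root_.map_ne_zero _).2 (pow_ne_zero _ hc)) hfd hfl hfτ a
    hainj ha0 (by rw [hres, ha]; ring) h0
  refine ⟨α, z, z', ?_, ?_, h2, h3, h4, h5, h6, h7, ?_⟩
  · intro i j hij
    simp only [h1] at hij
    exact hainj hij
  · intro i
    rw [h1]
    exact ha0 i
  · rw [PowerSeries.algebraMap_apply]
    exact h8

end cfg

section fibre

variable {k : Type} [Field k] {G : Type} [Group G] [Fintype G]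
variable {κ : Type} [Field κ] [Algebra k κ]

/- Fibres have power series coordinates. -/
theorem fibre_coords (l : G → k) (hl : Function.Injective l) {Ω : Type} [Field Ω] [Algebra k Ω]
    (ι : PowerSeries κ →ₐ[k] Ω)
    (e : Fin (Fintype.card G) → PowerSeries κ)
    (he : ∀ i, PowerSeries.constantCoeff (e i) = algebraMap k κ (aeval l (esymm G k (i + 1))))
    (v : G → Ω) (hv : ∀ i : Fin (Fintype.card G), aeval v (esymm G k (i + 1)) = ι (e i)) :
    ∃ v' : G → PowerSeries κ, (∀ g, v g = ι (v' g)) ∧
      ((∀ i, tau κ (e i) = e i) → ∀ g, tau κ (v' g) = v' g) := by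
  classical
  set f : Polynomial (PowerSeries κ) := Pc e with hf
  have hfm := Pc_natDegree e
  have hres : f.map PowerSeries.constantCoeff =
      ∏ g : G, (Polynomial.X - Polynomial.C (algebraMap k κ (l g))) := by
    rw [hf, Pc_map, prod_eq_Pc (k := k)]
    congr 1
    funext i
    rw [he]
    have h1 := comp_aeval_apply (f := l) (φ := Algebra.ofId k κ) (esymm G k (i + 1))
    rw [Algebra.ofId_apply] at h1
    exact h1
  have hlinj : Function.Injective fun g => algebraMap k κ (l g) :=
    (algebraMap k κ).injective.comp hl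
  have hder : ∀ g, (f.map PowerSeries.constantCoeff).derivative.eval (algebraMap k κ (l g)) ≠ 0 := by
    intro g
    rw [hres]
    have hsep : (∏ g : G, (Polynomial.X - Polynomial.C (algebraMap k κ (l g)))).Separable :=
      Polynomial.separable_prod_X_sub_C_iff.2 hlinj
    refine hsep.eval₂_derivative_ne_zero (RingHom.id κ) ?_
    rw [Polynomial.eval₂_id, Polynomial.eval_prod]
    exact Finset.prod_eq_zero (Finset.mem_univ g) (by simp)
  have hex : ∀ g, ∃ α : PowerSeries κ, f.eval α = 0 ∧
      PowerSeries.constantCoeff α = algebraMap k κ (l g) := by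
    intro g
    refine hensel f hfm.1 _ ?_ (hder g)
    rw [hres, Polynomial.eval_prod]
    exact Finset.prod_eq_zero (Finset.mem_univ g) (by simp)
  choose w hw hwl using hex
  have hwinj : Function.Injective w := by
    intro a b hab
    apply hlinj
    simp only
    rw [← hwl, ← hwl, hab]
  have hprod : f = ∏ g : G, (Polynomial.X - Polynomial.C (w g)) := by
    have h1 : (∏ g : G, (Polynomial.X - Polynomial.C (w g))) ∣ f := by
      have h1 := Polynomial.prod_multiset_X_sub_C_dvd f
      have h2 : (Finset.univ.val.map w) ≤ f.roots := by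
        rw [Multiset.le_iff_subset]
        · intro x hx
          obtain ⟨i, -, rfl⟩ := Multiset.mem_map.1 hx
          rw [Polynomial.mem_roots hfm.1.ne_zero]
          exact hw i
        · exact Multiset.Nodup.map hwinj Finset.univ.nodup
      have h3 := Multiset.prod_dvd_prod_of_le (Multiset.map_le_map
        (f := fun a : PowerSeries κ => Polynomial.X - Polynomial.C a) h2)
      rw [Multiset.map_map] at h3
      exact h3.trans h1
    have hPm : (∏ g : G, (Polynomial.X - Polynomial.C (w g))).Monic :=
      Polynomial.monic_prod_of_monic _ _ fun i _ => Polynomial.monic_X_sub_C _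
    have hPd : (∏ g : G, (Polynomial.X - Polynomial.C (w g))).natDegree = Fintype.card G := by
      rw [Polynomial.natDegree_prod_of_monic _ _ fun i _ => Polynomial.monic_X_sub_C _]
      simp
    exact Polynomial.eq_of_monic_of_dvd_of_natDegree_le hPm hfm.1 h1 (by
      rw [hPd, hfm.2])
  have hval : ∀ g, ∃ g', v g = ι (w g') := by
    intro g
    have h1 : f.map (ι : PowerSeries κ →+* Ω) = ∏ g : G, (Polynomial.X - Polynomial.C (v g)) := by
      rw [hf, Pc_map, prod_eq_Pc (k := k) v]
      congr 1
      funext i
      exact (hv i).symm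
    have h2 : (f.map (ι : PowerSeries κ →+* Ω)).eval (v g) = 0 := by
      rw [h1, Polynomial.eval_prod]
      exact Finset.prod_eq_zero (Finset.mem_univ g) (by simp)
    rw [hprod, Polynomial.map_prod, Polynomial.eval_prod, Finset.prod_eq_zero_iff] at h2
    obtain ⟨g', -, h3⟩ := h2
    refine ⟨g', ?_⟩
    simpa [sub_eq_zero] using h3
  choose σ hσ using hval
  refine ⟨fun g => w (σ g), hσ, fun hτ g => ?_⟩
  refine hensel_unique f _ _ ?_ (hw _) (tau_constantCoeff _) (by rw [hwl]; exact hder _)
  have h1 : f.map (tau κ) = f := by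
    rw [hf, Pc_map]
    congr 1
    funext i
    exact hτ i
  rw [← h1, Polynomial.eval_map_apply, hw, map_zero]

end fibre

end Pool.Agent.H391R2.T4
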