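import Mathlib
import Pool.Agent.H84.L.S8_H391R2_NtB
import Pool.Agent.H84.L.S8_H391R2_T4_Cfg
import Pool.Agent.H84.L.S8_H391R2_T4_Dft
import Pool.Agent.H84.L.S8_H391R2_WrTrd



set_option autoImplicit false

namespace Pool.Agent.H391R2.T4

open MvPolynomial

set_option linter.unusedSectionVars false

section lift

theorem lift_family {k V N Ω : Type} [Field k] [Field N] [Algebra k N] [Field Ω] [Algebra k Ω]
    [IsAlgClosed Ω] (ξ : V → N) (hξ : IsTranscendenceBasis k ξ) (ξ' : V → Ω)
    (hξ' : AlgebraicIndependent k ξ') : ∃ j : N →ₐ[k] Ω, ∀ v, j (ξ v) = ξ' v := by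
  obtain ⟨F, i1, i2, i3, i4, i5, φ, hφ⟩ := exists_field hξ.1
  let _ : Algebra F N := φ.toRingHom.toAlgebra
  have hT : IsScalarTower k F N := IsScalarTower.of_algebraMap_eq fun x => (φ.commutes x).symm
  have halg : Algebra.IsAlgebraic F N := by
    have h1 := hξ.isAlgebraic_field
    refine ⟨fun x => ?_⟩
    have h2 : IsAlgebraic (IntermediateField.adjoin k (Set.range ξ)) x := h1.isAlgebraic x
    have h3 : IntermediateField.adjoin k (Set.range ξ) ≤ φ.fieldRange := by
      rw [IntermediateField.adjoin_le_iff]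
      rintro _ ⟨v, rfl⟩
      exact ⟨algebraMap (MvPolynomial V k) F (X v), by
        change φ _ = _
        rw [hφ, aeval_X]⟩
    have h4 : IsAlgebraic φ.fieldRange x := by
      obtain ⟨p, hp, hp0⟩ := h2
      refine ⟨p.map (IntermediateField.inclusion h3 : _ →+* _), ?_, ?_⟩
      · exact (Polynomial.map_ne_zero_iff (IntermediateField.inclusion h3).injective).2 hp
      · rw [Polynomial.aeval_def, Polynomial.eval₂_map]
        exact hp0
    obtain ⟨p, hp, hp0⟩ := h4
    let e : F ≃ₐ[k] φ.fieldRange := AlgEquiv.ofInjectiveField φ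
    refine ⟨p.map (e.symm : φ.fieldRange →+* F), ?_, ?_⟩
    · exact (Polynomial.map_ne_zero_iff e.symm.injective).2 hp
    · rw [Polynomial.aeval_def, Polynomial.eval₂_map]
      have h5 : (algebraMap F N).comp (e.symm : φ.fieldRange →+* F) =
          algebraMap φ.fieldRange N := by
        apply RingHom.ext
        intro z
        exact congrArg Subtype.val (e.apply_symm_apply z)
      rw [h5]
      exact hp0
  have hinj : Function.Injective (aeval ξ' : MvPolynomial V k →ₐ[k] Ω) :=
    algebraicIndependent_iff_injective_aeval.1 hξ'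
  let i : F →+* Ω := IsFractionRing.lift (A := MvPolynomial V k)
    (g := ((aeval ξ' : MvPolynomial V k →ₐ[k] Ω) : MvPolynomial V k →+* Ω)) hinj
  have hi : ∀ p, i (algebraMap (MvPolynomial V k) F p) = aeval ξ' p := fun p =>
    IsFractionRing.lift_algebraMap hinj p
  obtain ⟨δ, hδ⟩ := exists_ext (F := F) (E := N) i
  have hδ' : ∀ x : F, δ (φ x) = i x := hδ
  refine ⟨{ δ with commutes' := fun c => ?_ }, fun v => ?_⟩
  · change δ (algebraMap k N c) = _
    rw [← φ.commutes, hδ', IsScalarTower.algebraMap_apply k (MvPolynomial V k) F, hi,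
      AlgHom.commutes]
  · change δ (ξ v) = _
    have h1 : ξ v = φ (algebraMap (MvPolynomial V k) F (X v)) := by rw [hφ, aeval_X]
    rw [h1, hδ', hi, aeval_X]

theorem basis_of_alg {k V W N : Type} [Field k] [Field N] [Algebra k N] [Finite V] [Finite W]
    (hcard : Nat.card W ≤ Nat.card V) (ξ : V → N) (hξ : IsTranscendenceBasis k ξ) (X : W → N)
    (h : ∀ v, IsAlgebraic (Algebra.adjoin k (Set.range X)) (ξ v)) :
    IsTranscendenceBasis k X := by
  have halg : Algebra.IsAlgebraic (Algebra.adjoin k (Set.range X)) N := by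
    refine ⟨fun a => ?_⟩
    have h1 := hξ.isAlgebraic.isAlgebraic a
    refine h1.adjoin_of_forall_isAlgebraic ?_
    rintro _ ⟨⟨v, rfl⟩, -⟩
    exact h v
  refine Algebra.IsAlgebraic.isTranscendenceBasis_of_le_trdeg_of_finite k X ?_
  have h1 := hξ.1.cardinalMk_le_trdeg
  refine le_trans ?_ h1
  have := Fintype.ofFinite V
  have := Fintype.ofFinite W
  rw [Cardinal.mk_fintype, Cardinal.mk_fintype, Nat.cast_le, ← Nat.card_eq_fintype_card,
    ← Nat.card_eq_fintype_card]
  exact hcard

end lift

section pp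

variable {k : Type} [Field k] {G : Type} [Group G] [Fintype G] (y : MvPolynomial G k)
variable {Q A : Type} [Fintype Q] [Fintype A] [DecidableEq A]

/- The numerical data of the construction. -/
structure Dat (k G Q A : Type) [Field k] [Group G] [Fintype G] where
  l : G → k
  c : k
  R : Polynomial k
  nd : A → k
  w : Polynomial k
  hh : Q → G
  ζ : Q → k
  e : ℕ
  emb : Q → A

/- The tuple of polynomials, over any algebra. -/
noncomputable def PP (d : Dat k G Q A) {E : Type} [CommRing E] [Algebra k E] (Y : Q → E) (t : E)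
    (θ : Option (Fin (Fintype.card G)) ⊕ Option (Fin (Fintype.card G)) → E)
    (i : Option (Fin (Fintype.card G))) : Polynomial E :=
  bsT y d.l (Polynomial.C (algebraMap k E d.c) *
    ((Polynomial.X ^ 2 - Polynomial.C t) * d.R.map (algebraMap k E))) i +
  (∑ q : Q, Polynomial.C (Polynomial.aeval (Y q) (kp y d.l (d.hh q) (d.ζ q) d.e i)) *
    (Lagrange.basis Finset.univ d.nd (d.emb q)).map (algebraMap k E)) +
  d.w.map (algebraMap k E) *
    (Polynomial.C (θ (Sum.inl i)) + Polynomial.C (θ (Sum.inr i)) * Polynomial.X)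

theorem PP_map (d : Dat k G Q A) {E E' : Type} [CommRing E] [Algebra k E] [CommRing E']
    [Algebra k E'] (f : E →ₐ[k] E') (Y : Q → E) (t : E)
    (θ : Option (Fin (Fintype.card G)) ⊕ Option (Fin (Fintype.card G)) → E)
    (i : Option (Fin (Fintype.card G))) :
    (PP y d Y t θ i).map (f : E →+* E') = PP y d (fun q => f (Y q)) (f t) (fun j => f (θ j)) i := by
  have h : (f : E →+* E').comp (algebraMap k E) = algebraMap k E' := f.comp_algebraMap
  have h' : ∀ x, (f : E →+* E') (algebraMap k E x) = algebraMap k E' x := f.commutes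
  unfold PP
  rw [Polynomial.map_add, Polynomial.map_add, bsT_map, Polynomial.map_sum]
  simp only [Polynomial.map_mul, Polynomial.map_sub, Polynomial.map_pow, Polynomial.map_X,
    Polynomial.map_C, Polynomial.map_map, Polynomial.map_add, h, h']
  congr 2
  refine Finset.sum_congr rfl fun q _ => ?_
  rw [Polynomial.aeval_algHom_apply]
  rfl

end pp

end Pool.Agent.H391R2.T4
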