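import Mathlib
import Pool.Agent.H84.L.S8_H391R2_T4_Cfg
import Pool.Agent.H84.L.S8_H391R2_T4_Dft
import Pool.Agent.H84.L.S8_H391R2_T4_Fam
import Pool.Agent.H84.L.S8_H391R2_T4_Phi
import Pool.Agent.H84.L.S8_H391R2_T4_Sol
import Pool.Agent.H84.L.S8_H391R2_WrSol



set_option autoImplicit false

namespace Pool.Agent.H391R2.T4

open MvPolynomial

set_option linter.unusedSectionVars false

section nod

variable {k : Type} [Field k] [CharZero k] {G : Type} [Group G] [Fintype G]
variable (y : MvPolynomial G k) {Q : Type} [Fintype Q] {J : ℕ}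

/- The properties of the data. -/
structure GD (y : MvPolynomial G k) (d : Dat k G Q (Fin J)) : Prop where
  hl : Function.Injective d.l
  hδ : ∀ q ∈ orb y, q ≠ y → aeval d.l q - aeval d.l y ≠ 0
  hc : d.c ≠ 0
  hR : d.R.Monic
  hR0 : d.R.eval 0 ≠ 0
  hnd : Function.Injective d.nd
  hndR : ∀ a, d.R.eval (d.nd a) = 0
  hw : d.w = ∏ a, (Polynomial.X - Polynomial.C (d.nd a))
  he0 : 0 < d.e
  hhe : ∀ q, d.hh q ^ d.e = 1
  hζ : ∀ q, IsPrimitiveRoot (d.ζ q) d.e
  hemb : Function.Injective d.emb
  hsurj : ∀ g, ∃ q, d.hh q = g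

variable {y} {d : Dat k G Q (Fin J)}

theorem GD.nd0 (h : GD y d) (a : Fin J) : d.nd a ≠ 0 := by
  intro h0
  apply h.hR0
  have := h.hndR a
  rwa [h0] at this

open Classical in
/- The values at the nodes. -/
noncomputable def nu (d : Dat k G Q (Fin J)) {E : Type} [CommRing E] [Algebra k E] (Y : Q → E)
    (a : Fin J) (x : G) : E :=
  if h : ∃ q, d.emb q = a then Polynomial.aeval (Y h.choose)
    (Mv d.l (d.hh h.choose) (d.ζ h.choose) d.e x) else algebraMap k E (d.l x)

theorem nu_emb (h : GD y d) {E : Type} [CommRing E] [Algebra k E] (Y : Q → E) (q : Q) (x : G) :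
    nu d Y (d.emb q) x = Polynomial.aeval (Y q) (Mv d.l (d.hh q) (d.ζ q) d.e x) := by
  have h1 : ∃ q', d.emb q' = d.emb q := ⟨q, rfl⟩
  unfold nu
  rw [dif_pos h1]
  have h2 : h1.choose = q := h.hemb h1.choose_spec
  rw [h2]

theorem nu_not {E : Type} [CommRing E] [Algebra k E] (Y : Q → E) (a : Fin J)
    (ha : ¬ ∃ q, d.emb q = a) (x : G) : nu d Y a x = algebraMap k E (d.l x) := by
  unfold nu
  rw [dif_neg ha]

theorem w_eval (h : GD y d) {E : Type} [CommRing E] [Algebra k E] (a : Fin J) :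
    (d.w.map (algebraMap k E)).eval (algebraMap k E (d.nd a)) = 0 := by
  rw [Polynomial.eval_map_apply, h.hw, Polynomial.eval_prod,
    Finset.prod_eq_zero (Finset.mem_univ a) (by simp), map_zero]

theorem w_root (h : GD y d) {E : Type} [Field E] [Algebra k E] (s : E)
    (hs : Polynomial.aeval s d.w = 0) : ∃ a, s = algebraMap k E (d.nd a) := by
  rw [h.hw, map_prod, Finset.prod_eq_zero_iff] at hs
  obtain ⟨a, -, ha⟩ := hs
  refine ⟨a, ?_⟩
  simpa [sub_eq_zero] using ha

theorem bsT_node (h : GD y d) {E : Type} [CommRing E] [Algebra k E] (t : E)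
    (i : Option (Fin (Fintype.card G))) (a : Fin J) :
    (bsT y d.l (Polynomial.C (algebraMap k E d.c) *
    ((Polynomial.X ^ 2 - Polynomial.C t) * d.R.map (algebraMap k E))) i).eval
      (algebraMap k E (d.nd a)) = algebraMap k E (aeval d.l (tv y i)) := by
  have h1 : (d.R.map (algebraMap k E)).eval (algebraMap k E (d.nd a)) = 0 := by
    rw [Polynomial.eval_map_apply, h.hndR, map_zero]
  cases i with
  | none =>
    simp only [bsT, tv, Polynomial.eval_add, Polynomial.eval_mul, Polynomial.eval_C, h1, mul_zero,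
      add_zero]
  | some i => simp only [bsT, tv, Polynomial.eval_C]

theorem corr_node (h : GD y d) {E : Type} [CommRing E] [Algebra k E] (z : Q → E)
    (a : Fin J) : (∑ q : Q, Polynomial.C (z q) *
    (Lagrange.basis Finset.univ d.nd (d.emb q)).map (algebraMap k E)).eval
      (algebraMap k E (d.nd a)) = ∑ q : Q, if d.emb q = a then z q else 0 := by
  rw [Polynomial.eval_finsetSum]
  refine Finset.sum_congr rfl fun q _ => ?_
  rw [Polynomial.eval_mul, Polynomial.eval_C, Polynomial.eval_map_apply]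
  by_cases hq : d.emb q = a
  · rw [if_pos hq, ← hq, Lagrange.eval_basis_self h.hnd.injOn (Finset.mem_univ _), map_one, mul_one]
  · rw [if_neg hq, Lagrange.eval_basis_of_ne hq (Finset.mem_univ _), map_zero, mul_zero]

theorem node_val (h : GD y d) {E : Type} [CommRing E] [Algebra k E] (Y : Q → E)
    (i : Option (Fin (Fintype.card G))) (a : Fin J) :
    algebraMap k E (aeval d.l (tv y i)) + (∑ q : Q, if d.emb q = a then
      Polynomial.aeval (Y q) (kp y d.l (d.hh q) (d.ζ q) d.e i) else 0) =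
      aeval (nu d Y a) (tv y i) := by
  classical
  by_cases ha : ∃ q, d.emb q = a
  · obtain ⟨q, rfl⟩ := ha
    rw [Finset.sum_eq_single q (fun q' _ hq' => if_neg fun e => hq' (h.hemb e))
      (fun h => absurd (Finset.mem_univ q) h), if_pos rfl, aeval_kp]
    have h1 : nu d Y (d.emb q) = fun x => Polynomial.aeval (Y q)
        (Mv d.l (d.hh q) (d.ζ q) d.e x) := funext fun x => nu_emb h Y q x
    rw [h1]
    ring
  · rw [Finset.sum_eq_zero (fun q _ => if_neg fun e => ha ⟨q, e⟩), add_zero]
    have h1 : nu d Y a = fun x => algebraMap k E (d.l x) := funext fun x => nu_not Y a ha x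
    rw [h1]
    have h2 := comp_aeval_apply (f := d.l) (φ := Algebra.ofId k E) (tv y i)
    rw [Algebra.ofId_apply] at h2
    exact h2

theorem PP_node (h : GD y d) {E : Type} [CommRing E] [Algebra k E] (Y : Q → E) (t : E)
    (θ : Option (Fin (Fintype.card G)) ⊕ Option (Fin (Fintype.card G)) → E) (a : Fin J) :
    SolP y (PP y d Y t θ) (algebraMap k E (d.nd a)) (nu d Y a) := by
  intro i
  unfold PP
  rw [Polynomial.eval_add, Polynomial.eval_add, bsT_node h, corr_node h, node_val h,
    Polynomial.eval_mul, w_eval h, zero_mul, add_zero]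


theorem nu_inj (h : GD y d) {E : Type} [Field E] [Algebra k E] (Y : Q → E)
    (hY : ∀ q, Transcendental k (Y q)) (a : Fin J) : Function.Injective (nu d Y a) := by
  by_cases ha : ∃ q, d.emb q = a
  · obtain ⟨q, rfl⟩ := ha
    intro x x' hx
    rw [nu_emb h, nu_emb h] at hx
    have h1 := (transcendental_iff_injective.1 (hY q)) hx
    have h2 := congrArg (Polynomial.eval 1) h1
    rw [Mv_eval_one _ _ _ _ h.he0 (h.hζ q), Mv_eval_one _ _ _ _ h.he0 (h.hζ q)] at h2
    exact h.hl h2
  · intro x x' hx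
    rw [nu_not Y a ha, nu_not Y a ha] at hx
    exact h.hl ((algebraMap k E).injective hx)

theorem l_stab [YData y] (h : GD y d) (π : Equiv.Perm G)
    (hπ : aeval (d.l ∘ π) y = aeval d.l y) : ∃ g : G, π = Equiv.mulLeft g := by
  by_cases h1 : rename π y = y
  · exact YData.stab (y := y) π h1
  · exfalso
    apply h.hδ _ ((mem_orb y).2 ⟨π, rfl⟩) h1
    rw [aeval_mem_orb, hπ, sub_self]

theorem nu_stab [YData y] (h : GD y d) {E : Type} [Field E] [Algebra k E] (Y : Q → E)
    (hY : ∀ q, Transcendental k (Y q)) (a : Fin J) (π : Equiv.Perm G)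
    (hπ : aeval (nu d Y a ∘ π) y = aeval (nu d Y a) y) : ∃ g : G, π = Equiv.mulLeft g := by
  by_cases ha : ∃ q, d.emb q = a
  · obtain ⟨q, rfl⟩ := ha
    have h1 : nu d Y (d.emb q) = fun x => Polynomial.aeval (Y q)
        (Mv d.l (d.hh q) (d.ζ q) d.e x) := funext fun x => nu_emb h Y q x
    rw [h1] at hπ
    have h2 := comp_aeval_apply (f := Mv d.l (d.hh q) (d.ζ q) d.e)
      (φ := Polynomial.aeval (Y q)) y
    have h3 := comp_aeval_apply (f := Mv d.l (d.hh q) (d.ζ q) d.e ∘ π)
      (φ := Polynomial.aeval (Y q)) y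
    have h4 : (fun x => Polynomial.aeval (Y q) (Mv d.l (d.hh q) (d.ζ q) d.e x)) ∘ π =
      fun x => Polynomial.aeval (Y q) ((Mv d.l (d.hh q) (d.ζ q) d.e ∘ π) x) := rfl
    rw [h4, ← h2, ← h3] at hπ
    have h5 := (transcendental_iff_injective.1 (hY q)) hπ
    have h6 := congrArg (Polynomial.aeval (1 : k)) h5
    have h7 := comp_aeval_apply (f := Mv d.l (d.hh q) (d.ζ q) d.e)
      (φ := Polynomial.aeval (1 : k)) y
    have h8 := comp_aeval_apply (f := Mv d.l (d.hh q) (d.ζ q) d.e ∘ π)
      (φ := Polynomial.aeval (1 : k)) y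
    rw [h7, h8] at h6
    have h9 : ∀ x, Polynomial.aeval (1 : k) (Mv d.l (d.hh q) (d.ζ q) d.e x) = d.l x := by
      intro x
      rw [Polynomial.coe_aeval_eq_eval]
      exact Mv_eval_one _ _ _ _ h.he0 (h.hζ q) x
    simp only [Function.comp_apply, h9] at h6
    exact l_stab h π h6
  · have h1 : nu d Y a = fun x => algebraMap k E (d.l x) := funext fun x => nu_not Y a ha x
    rw [h1] at hπ
    have h2 := comp_aeval_apply (f := d.l) (φ := Algebra.ofId k E) y
    have h3 := comp_aeval_apply (f := d.l ∘ π) (φ := Algebra.ofId k E) y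
    have h4 : (fun x => algebraMap k E (d.l x)) ∘ π = fun x => Algebra.ofId k E ((d.l ∘ π) x) := rfl
    have h5 : (fun x => algebraMap k E (d.l x)) = fun x => Algebra.ofId k E (d.l x) := rfl
    rw [h4, h5, ← h2, ← h3] at hπ
    exact l_stab h π ((algebraMap k E).injective hπ)

end nod

section fam

variable {k : Type} [Field k] {G : Type} [Group G] [Fintype G]
variable (y : MvPolynomial G k) {Q : Type} [Fintype Q] {J : ℕ}

/- The correction over the field of the parameters. -/
noncomputable def corr1 (d : Dat k G Q (Fin J)) {k₁ : Type} [Field k₁] [Algebra k k₁]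
    (kc : Q → Option (Fin (Fintype.card G)) → k₁) (i : Option (Fin (Fintype.card G))) :
    Polynomial k₁ :=
  ∑ q : Q, Polynomial.C (kc q i) *
    (Lagrange.basis Finset.univ d.nd (d.emb q)).map (algebraMap k k₁)

/- The base over the field of the parameters. -/
noncomputable def base1 (d : Dat k G Q (Fin J)) {k₁ : Type} [Field k₁] [Algebra k k₁] (t : k₁)
    (i : Option (Fin (Fintype.card G))) : Polynomial k₁ :=
  bsT y d.l (Polynomial.C (algebraMap k k₁ d.c) *
    ((Polynomial.X ^ 2 - Polynomial.C t) * d.R.map (algebraMap k k₁))) i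

theorem fam_PP (d : Dat k G Q (Fin J)) {k₁ : Type} [Field k₁] [Algebra k k₁] (t : k₁)
    (kc : Q → Option (Fin (Fintype.card G)) → k₁) {E : Type} [Field E] [Algebra k E]
    [Algebra k₁ E] [IsScalarTower k k₁ E] (Y : Q → E)
    (hY : ∀ q i, algebraMap k₁ E (kc q i) =
      Polynomial.aeval (Y q) (kp y d.l (d.hh q) (d.ζ q) d.e i))
    (θ : Option (Fin (Fintype.card G)) ⊕ Option (Fin (Fintype.card G)) → E)
    (i : Option (Fin (Fintype.card G))) :
    fam G (fun i => base1 y d t i + corr1 d kc i) (d.w.map (algebraMap k k₁)) θ i =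
      PP y d Y (algebraMap k₁ E t) θ i := by
  have hT : (algebraMap k₁ E).comp (algebraMap k k₁) = algebraMap k E :=
    (IsScalarTower.algebraMap_eq k k₁ E).symm
  have hT' : ∀ x, algebraMap k₁ E (algebraMap k k₁ x) = algebraMap k E x := fun x =>
    (IsScalarTower.algebraMap_apply k k₁ E x).symm
  unfold fam PP base1 corr1
  have h1 := bsT_map y (IsScalarTower.toAlgHom k k₁ E) d.l (Polynomial.C (algebraMap k k₁ d.c) *
    ((Polynomial.X ^ 2 - Polynomial.C t) * d.R.map (algebraMap k k₁))) i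
  have h2 : ((IsScalarTower.toAlgHom k k₁ E : k₁ →ₐ[k] E) : k₁ →+* E) = algebraMap k₁ E := rfl
  rw [h2] at h1
  rw [Polynomial.map_add, h1, Polynomial.map_sum]
  simp only [Polynomial.map_mul, Polynomial.map_sub, Polynomial.map_pow, Polynomial.map_X,
    Polynomial.map_C, Polynomial.map_map, hT, hT', hY]

end fam

end Pool.Agent.H391R2.T4
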