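import Mathlib
import Pool.Agent.H84.L.S8_H391R2_WrSol



namespace Pool.Agent.H391R2

open MvPolynomial

section path

variable {k : Type} [Field k] {G : Type} [Group G] [Fintype G]

/- A path of tuples of polynomials. -/
noncomputable def path (base corr : Option (Fin (Fintype.card G)) → Polynomial k)
    (w : Polynomial k) {E : Type} [CommRing E] [Algebra k E]
    (θ : Option (Fin (Fintype.card G)) ⊕ Option (Fin (Fintype.card G)) → E) (x : E)
    (i : Option (Fin (Fintype.card G))) : Polynomial E :=
  (base i).map (algebraMap k E) + Polynomial.C x * (corr i).map (algebraMap k E) +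
    Polynomial.C (x * (1 - x) * θ (Sum.inr i)) +
    Polynomial.C x * (w.map (algebraMap k E) *
      (Polynomial.C (θ (Sum.inl i)) + Polynomial.C (θ (Sum.inr i)) * Polynomial.X))

omit [Group G] in
theorem path_map (base corr : Option (Fin (Fintype.card G)) → Polynomial k)
    (w : Polynomial k) {E E' : Type} [CommRing E] [Algebra k E] [CommRing E'] [Algebra k E']
    (f : E →ₐ[k] E')
    (θ : Option (Fin (Fintype.card G)) ⊕ Option (Fin (Fintype.card G)) → E) (x : E)
    (i : Option (Fin (Fintype.card G))) :
    (path base corr w θ x i).map (f : E →+* E') = path base corr w (f ∘ θ) (f x) i := by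
  have : (f : E →+* E').comp (algebraMap k E) = algebraMap k E' := f.comp_algebraMap
  simp only [path, Polynomial.map_add, Polynomial.map_mul, Polynomial.map_map, Polynomial.map_C,
    Polynomial.map_X, Function.comp_apply, RingHom.coe_coe, this, map_mul, map_sub, map_one,
    Polynomial.map_sub, Polynomial.map_one]

omit [Group G] in
theorem path_one (base corr : Option (Fin (Fintype.card G)) → Polynomial k)
    (w : Polynomial k) {E : Type} [CommRing E] [Algebra k E]
    (θ : Option (Fin (Fintype.card G)) ⊕ Option (Fin (Fintype.card G)) → E)
    (i : Option (Fin (Fintype.card G))) :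
    path base corr w θ 1 i = fam G (fun i => base i + corr i) w θ i := by
  simp only [path, fam, Polynomial.map_add, Polynomial.C_1, one_mul, sub_self, mul_zero,
    zero_mul, Polynomial.C_0, add_zero]

omit [Group G] in
theorem path_zero (base corr : Option (Fin (Fintype.card G)) → Polynomial k)
    (w : Polynomial k) {E : Type} [CommRing E] [Algebra k E]
    (θ : Option (Fin (Fintype.card G)) ⊕ Option (Fin (Fintype.card G)) → E)
    (i : Option (Fin (Fintype.card G))) :
    path base corr w θ 0 i = (base i).map (algebraMap k E) := by
  simp only [path, Polynomial.C_0, zero_mul, add_zero]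

omit [Group G] in
theorem path_eval (base corr : Option (Fin (Fintype.card G)) → Polynomial k)
    (w : Polynomial k) {E : Type} [CommRing E] [Algebra k E]
    (θ : Option (Fin (Fintype.card G)) ⊕ Option (Fin (Fintype.card G)) → E) (x s : E)
    (i : Option (Fin (Fintype.card G))) :
    (path base corr w θ x i).eval s = Polynomial.aeval s (base i) + x * Polynomial.aeval s (corr i)
      + x * (1 - x) * θ (Sum.inr i) +
      x * (Polynomial.aeval s w * (θ (Sum.inl i) + θ (Sum.inr i) * s)) := by
  simp [path, Polynomial.eval_map_algebraMap]


end path

end Pool.Agent.H391R2
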