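import Mathlib
import Pool.Agent.H84.L.S8_H391R2_NtS
import Pool.Agent.H84.L.S8_H391R2_T4_Cfg
import Pool.Agent.H84.L.S8_H391R2_T4_Dft
import Pool.Agent.H84.L.S8_H391R2_T4_Fam



set_option autoImplicit false

namespace Pool.Agent.H391R2.T4

open MvPolynomial

set_option linter.unusedSectionVars false

section deg

variable {k : Type} [Field k] {G : Type} [Group G] [Fintype G] (y : MvPolynomial G k)
variable {Q : Type} [Fintype Q] {J : ℕ}

theorem lagrange_natDegree (nd : Fin J → k) (hnd : Function.Injective nd) (a : Fin J) :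
    (Lagrange.basis Finset.univ nd a).natDegree ≤ J := by
  have h1 := Lagrange.degree_basis (hnd.injOn) (Finset.mem_univ a)
  rw [Polynomial.natDegree_eq_of_degree_eq_some h1, Finset.card_univ, Fintype.card_fin]
  omega

theorem lead_aux {E : Type} [CommRing E] [IsDomain E] (S Qt : Polynomial E) (M : ℕ)
    (hQ : Qt.natDegree = M) (hS : S.natDegree < M) :
    (S + Qt).natDegree = M ∧ (S + Qt).leadingCoeff = Qt.leadingCoeff := by
  have h1 : S.natDegree < Qt.natDegree := by omega
  refine ⟨?_, ?_⟩
  · rw [Polynomial.natDegree_add_eq_right_of_natDegree_lt h1, hQ]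
  · exact Polynomial.leadingCoeff_add_of_degree_lt (Polynomial.degree_lt_degree h1)

theorem Qt_deg {E : Type} [CommRing E] [IsDomain E] [Algebra k E] (c : k) (hc : c ≠ 0)
    (R : Polynomial k) (hR : R.Monic) (M : ℕ) (hM : 2 + R.natDegree = M) (t : E) :
    (Polynomial.C (algebraMap k E c) * ((Polynomial.X ^ 2 - Polynomial.C t) *
      R.map (algebraMap k E))).natDegree = M ∧
    (Polynomial.C (algebraMap k E c) * ((Polynomial.X ^ 2 - Polynomial.C t) *
      R.map (algebraMap k E))).leadingCoeff = algebraMap k E c := by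
  have hinj : Function.Injective (algebraMap k E) := FaithfulSMul.algebraMap_injective k E
  have hc' : algebraMap k E c ≠ 0 := (map_ne_zero_iff _ hinj).2 hc
  have h1 : (Polynomial.X ^ 2 - Polynomial.C t : Polynomial E).Monic :=
    Polynomial.monic_X_pow_sub_C t (by norm_num)
  have h2 : (R.map (algebraMap k E)).Monic := hR.map _
  refine ⟨?_, ?_⟩
  · rw [Polynomial.natDegree_C_mul hc', h1.natDegree_mul h2, Polynomial.natDegree_X_pow_sub_C,
      hR.natDegree_map, hM]
  · rw [Polynomial.leadingCoeff_mul, Polynomial.leadingCoeff_C, (h1.mul h2).leadingCoeff, mul_one]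

theorem mv_natDegree {E : Type} [CommRing E] (w : Polynomial E) (hw : w.natDegree ≤ J) (a b : E) :
    (w * (Polynomial.C a + Polynomial.C b * Polynomial.X)).natDegree ≤ J + 1 := by
  refine Polynomial.natDegree_mul_le.trans (Nat.add_le_add hw ?_)
  compute_degree

theorem PP_deg (d : Dat k G Q (Fin J)) {E : Type} [CommRing E] [IsDomain E] [Algebra k E]
    (Y : Q → E) (t : E)
    (θ : Option (Fin (Fintype.card G)) ⊕ Option (Fin (Fintype.card G)) → E)
    (hw : d.w.natDegree ≤ J) (hc : d.c ≠ 0) (hR : d.R.Monic) (hnd : Function.Injective d.nd)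
    (M : ℕ) (hM : 2 + d.R.natDegree = M) (hJ : J + 1 < M) :
    (∀ i, (PP y d Y t θ (some i)).natDegree ≤ J + 1) ∧
    (PP y d Y t θ none).natDegree = M ∧
    (PP y d Y t θ none).leadingCoeff = algebraMap k E d.c := by
  have hsum : ∀ i, (∑ q : Q, Polynomial.C (Polynomial.aeval (Y q)
      (kp y d.l (d.hh q) (d.ζ q) d.e i)) *
      (Lagrange.basis Finset.univ d.nd (d.emb q)).map (algebraMap k E)).natDegree ≤ J + 1 := by
    intro i
    apply Polynomial.natDegree_sum_le_of_forall_le
    intro q _
    refine (Polynomial.natDegree_C_mul_le _ _).trans (Polynomial.natDegree_map_le.trans ?_)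
    exact (lagrange_natDegree d.nd hnd _).trans (Nat.le_succ _)
  have hmv : ∀ i, (d.w.map (algebraMap k E) *
      (Polynomial.C (θ (Sum.inl i)) + Polynomial.C (θ (Sum.inr i)) * Polynomial.X)).natDegree ≤
      J + 1 := fun i => mv_natDegree _ (Polynomial.natDegree_map_le.trans hw) _ _
  obtain ⟨h1, h2⟩ := Qt_deg (E := E) d.c hc d.R hR M hM t
  refine ⟨fun i => ?_, ?_⟩
  · unfold PP
    refine (Polynomial.natDegree_add_le _ _).trans (max_le ((Polynomial.natDegree_add_le _ _).trans
      (max_le ?_ (hsum _))) (hmv _))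
    simp only [bsT, Polynomial.natDegree_C]
    exact Nat.zero_le _
  · have h3 : PP y d Y t θ none = (Polynomial.C (algebraMap k E (aeval d.l y)) +
        (∑ q : Q, Polynomial.C (Polynomial.aeval (Y q) (kp y d.l (d.hh q) (d.ζ q) d.e none)) *
        (Lagrange.basis Finset.univ d.nd (d.emb q)).map (algebraMap k E)) +
        d.w.map (algebraMap k E) *
        (Polynomial.C (θ (Sum.inl none)) + Polynomial.C (θ (Sum.inr none)) * Polynomial.X)) +
        Polynomial.C (algebraMap k E d.c) * ((Polynomial.X ^ 2 - Polynomial.C t) *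
        d.R.map (algebraMap k E)) := by
      unfold PP
      simp only [bsT]
      ring
    have h4 : (Polynomial.C (algebraMap k E (aeval d.l y)) +
        (∑ q : Q, Polynomial.C (Polynomial.aeval (Y q) (kp y d.l (d.hh q) (d.ζ q) d.e none)) *
        (Lagrange.basis Finset.univ d.nd (d.emb q)).map (algebraMap k E)) +
        d.w.map (algebraMap k E) *
        (Polynomial.C (θ (Sum.inl none)) + Polynomial.C (θ (Sum.inr none)) *
          Polynomial.X)).natDegree < M := by
      refine lt_of_le_of_lt ?_ hJ
      refine (Polynomial.natDegree_add_le _ _).trans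
        (max_le ((Polynomial.natDegree_add_le _ _).trans
        (max_le ?_ (hsum _))) (hmv _))
      rw [Polynomial.natDegree_C]
      exact Nat.zero_le _
    obtain ⟨h5, h6⟩ := lead_aux _ _ M h1 h4
    rw [h3]
    exact ⟨h5, h6.trans h2⟩

theorem path_deg {k₁ : Type} [Field k₁] [Algebra k k₁] (l : G → k) (c : k) (hc : c ≠ 0)
    (R : Polynomial k) (hR : R.Monic) (M : ℕ) (hM : 2 + R.natDegree = M) (hJ : J + 1 < M)
    (t : k₁) (corr : Option (Fin (Fintype.card G)) → Polynomial k₁)
    (hcorr : ∀ i, (corr i).natDegree ≤ J) (w : Polynomial k₁) (hw : w.natDegree ≤ J)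
    {E : Type} [Field E] [Algebra k₁ E]
    (θ : Option (Fin (Fintype.card G)) ⊕ Option (Fin (Fintype.card G)) → E) (x : E) :
    (∀ i, (path (bsT y l (Polynomial.C (algebraMap k k₁ c) * ((Polynomial.X ^ 2 - Polynomial.C t) *
      R.map (algebraMap k k₁)))) corr w θ x (some i)).natDegree ≤ J + 1) ∧
    (path (bsT y l (Polynomial.C (algebraMap k k₁ c) * ((Polynomial.X ^ 2 - Polynomial.C t) *
      R.map (algebraMap k k₁)))) corr w θ x none).natDegree = M ∧
    (path (bsT y l (Polynomial.C (algebraMap k k₁ c) * ((Polynomial.X ^ 2 - Polynomial.C t) *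
      R.map (algebraMap k k₁)))) corr w θ x none).leadingCoeff =
      algebraMap k₁ E (algebraMap k k₁ c) := by
  obtain ⟨h1, h2⟩ := Qt_deg (E := k₁) c hc R hR M hM t
  set Qt := Polynomial.C (algebraMap k k₁ c) * ((Polynomial.X ^ 2 - Polynomial.C t) *
      R.map (algebraMap k k₁)) with hQt
  have hinj : Function.Injective (algebraMap k₁ E) := (algebraMap k₁ E).injective
  have hmv : ∀ i, (Polynomial.C x * (w.map (algebraMap k₁ E) *
      (Polynomial.C (θ (Sum.inl i)) + Polynomial.C (θ (Sum.inr i)) * Polynomial.X))).natDegree ≤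
      J + 1 := fun i => (Polynomial.natDegree_C_mul_le _ _).trans
        (mv_natDegree _ (Polynomial.natDegree_map_le.trans hw) _ _)
  have hc1 : ∀ i, (Polynomial.C x * (corr i).map (algebraMap k₁ E)).natDegree ≤ J + 1 := fun i =>
    (Polynomial.natDegree_C_mul_le _ _).trans (Polynomial.natDegree_map_le.trans
      ((hcorr i).trans (Nat.le_succ _)))
  refine ⟨fun i => ?_, ?_⟩
  · unfold path
    refine (Polynomial.natDegree_add_le _ _).trans (max_le ((Polynomial.natDegree_add_le _ _).trans
      (max_le ((Polynomial.natDegree_add_le _ _).trans (max_le ?_ (hc1 _))) ?_)) (hmv _))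
    · simp only [bsT, Polynomial.map_C, Polynomial.natDegree_C]
      exact Nat.zero_le _
    · rw [Polynomial.natDegree_C]
      exact Nat.zero_le _
  · have h3 : path (bsT y l Qt) corr w θ x none =
        (Polynomial.C (algebraMap k₁ E (algebraMap k k₁ (aeval l y))) +
        Polynomial.C x * (corr none).map (algebraMap k₁ E) +
        Polynomial.C (x * (1 - x) * θ (Sum.inr none)) +
        Polynomial.C x * (w.map (algebraMap k₁ E) *
        (Polynomial.C (θ (Sum.inl none)) + Polynomial.C (θ (Sum.inr none)) * Polynomial.X))) +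
        Qt.map (algebraMap k₁ E) := by
      unfold path
      simp only [bsT, Polynomial.map_add, Polynomial.map_C]
      ring
    have h4 : (Qt.map (algebraMap k₁ E)).natDegree = M := by
      rw [Polynomial.natDegree_map, h1]
    have h5 : (Qt.map (algebraMap k₁ E)).leadingCoeff = algebraMap k₁ E (algebraMap k k₁ c) := by
      rw [Polynomial.leadingCoeff_map, h2]
    have h6 : (Polynomial.C (algebraMap k₁ E (algebraMap k k₁ (aeval l y))) +
        Polynomial.C x * (corr none).map (algebraMap k₁ E) +
        Polynomial.C (x * (1 - x) * θ (Sum.inr none)) +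
        Polynomial.C x * (w.map (algebraMap k₁ E) *
        (Polynomial.C (θ (Sum.inl none)) + Polynomial.C (θ (Sum.inr none)) *
          Polynomial.X))).natDegree < M := by
      refine lt_of_le_of_lt ?_ hJ
      refine (Polynomial.natDegree_add_le _ _).trans
        (max_le ((Polynomial.natDegree_add_le _ _).trans
        (max_le ((Polynomial.natDegree_add_le _ _).trans (max_le ?_ (hc1 _))) ?_)) (hmv _))
      · rw [Polynomial.natDegree_C]
        exact Nat.zero_le _
      · rw [Polynomial.natDegree_C]
        exact Nat.zero_le _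
    obtain ⟨h7, h8⟩ := lead_aux _ _ M h4 h6
    rw [h3]
    exact ⟨h7, h8.trans h5⟩

end deg

end Pool.Agent.H391R2.T4
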