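import Mathlib
import Pool.Agent.H84.L.S8_H391R2_T4_Cfg
import Pool.Agent.H84.L.S8_H391R2_T4_Dft
import Pool.Agent.H84.L.S8_H391R2_T4_Fam
import Pool.Agent.H84.L.S8_H391R2_T4_GeoA
import Pool.Agent.H84.L.S8_H391R2_T4_Nod
import Pool.Agent.H84.L.S8_H391R2_T4_Phi
import Pool.Agent.H84.L.S8_H391R2_T4_Sol



set_option autoImplicit false

namespace Pool.Agent.H391R2.T4

open MvPolynomial

set_option linter.unusedSectionVars false

section sem

variable {k : Type} [Field k] [CharZero k] {G : Type} [Group G] [Fintype G]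
variable (y : MvPolynomial G k) {Q : Type} [Fintype Q] {J : ℕ}

/- Semi-invariance of the data under a field homomorphism. -/
structure SI (f : k →+* k) (α : MulAut G) (sq : Equiv.Perm Q) (y : MvPolynomial G k)
    (d : Dat k G Q (Fin J)) : Prop where
  hy : rename α (MvPolynomial.map f y) = y
  hl : ∀ g, f (d.l g) = d.l (α g)
  hc : f d.c = d.c
  hR : d.R.map f = d.R
  hnd : ∃ π : Equiv.Perm (Fin J), (∀ a, f (d.nd a) = d.nd (π a)) ∧
    ∀ q, π (d.emb q) = d.emb (sq q)
  hh : ∀ q, α (d.hh q) = d.hh (sq q)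
  hζ : ∀ q, f (d.ζ q) = d.ζ (sq q)

variable {y} {d : Dat k G Q (Fin J)} {f : k →+* k} {α : MulAut G} {sq : Equiv.Perm Q}

theorem tv_si (h : SI f α sq y d) (i : Option (Fin (Fintype.card G))) :
    rename α (MvPolynomial.map f (tv y i)) = tv y i := by
  cases i with
  | none => exact h.hy
  | some i =>
    change rename α (MvPolynomial.map f (esymm G k (i + 1))) = esymm G k (i + 1)
    rw [MvPolynomial.map_esymm]
    exact MvPolynomial.rename_esymm G k _ α.toEquiv

/- Semilinear evaluation. -/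
theorem aeval_semi {E E' : Type} [CommRing E] [Algebra k E] [CommRing E'] [Algebra k E']
    (σ : E →+* E') (hσ : ∀ a, σ (algebraMap k E a) = algebraMap k E' (f a)) (v : G → E)
    (p : MvPolynomial G k) : σ (aeval v p) = aeval (fun g => σ (v g)) (MvPolynomial.map f p) := by
  rw [MvPolynomial.aeval_def, MvPolynomial.aeval_def, MvPolynomial.eval₂_map,
    MvPolynomial.hom_eval₂]
  congr 1
  apply RingHom.ext
  intro a
  exact hσ a

theorem paeval_semi {E E' : Type} [CommRing E] [Algebra k E] [CommRing E'] [Algebra k E']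
    (σ : E →+* E') (hσ : ∀ a, σ (algebraMap k E a) = algebraMap k E' (f a)) (s : E)
    (p : Polynomial k) : σ (Polynomial.aeval s p) = Polynomial.aeval (σ s) (p.map f) := by
  rw [Polynomial.aeval_def, Polynomial.aeval_def, Polynomial.eval₂_map, Polynomial.hom_eval₂]
  congr 1
  apply RingHom.ext
  intro a
  exact hσ a

theorem aeval_si {E E' : Type} [CommRing E] [Algebra k E] [CommRing E'] [Algebra k E']
    (h : SI f α sq y d) (σ : E →+* E')
    (hσ : ∀ a, σ (algebraMap k E a) = algebraMap k E' (f a)) (v : G → E) (v' : G → E')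
    (hv : ∀ g, σ (v g) = v' (α g)) (i : Option (Fin (Fintype.card G))) :
    σ (aeval v (tv y i)) = aeval v' (tv y i) := by
  rw [aeval_semi σ hσ]
  nth_rewrite 2 [← tv_si h i]
  rw [aeval_rename]
  congr 1
  congr 1
  funext g
  exact hv g

theorem l_si (h : SI f α sq y d) (i : Option (Fin (Fintype.card G))) :
    f (aeval d.l (tv y i)) = aeval d.l (tv y i) :=
  aeval_si h f (fun _ => rfl) d.l d.l h.hl i

theorem cf_si (h : SI f α sq y d) (q : Q) (b : ℕ) (x : G) :
    f (cf d.l (d.hh q) (d.ζ q) d.e b x) =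
      cf d.l (d.hh (sq q)) (d.ζ (sq q)) d.e b (α x) := by
  unfold cf
  rw [map_mul, map_inv₀, map_natCast, map_sum]
  congr 1
  refine Finset.sum_congr rfl fun a _ => ?_
  rw [map_mul, map_pow, map_inv₀, h.hζ, h.hl, map_mul, map_pow, h.hh]

theorem Mv_si (h : SI f α sq y d) {E E' : Type} [CommRing E] [Algebra k E] [CommRing E']
    [Algebra k E'] (σ : E →+* E')
    (hσ : ∀ a, σ (algebraMap k E a) = algebraMap k E' (f a)) (q : Q) (Y : E) (x : G) :
    σ (Polynomial.aeval Y (Mv d.l (d.hh q) (d.ζ q) d.e x)) =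
      Polynomial.aeval (σ Y) (Mv d.l (d.hh (sq q)) (d.ζ (sq q)) d.e (α x)) := by
  rw [paeval_semi σ hσ]
  congr 1
  unfold Mv
  rw [Polynomial.map_sum]
  refine Finset.sum_congr rfl fun b _ => ?_
  rw [Polynomial.map_mul, Polynomial.map_C, Polynomial.map_pow, Polynomial.map_X, cf_si h]

theorem Mv_twist_pow (l : G → k) (h : G) (ζ : k) (e : ℕ) (he : h ^ e = 1) (hζ : ζ ^ e = 1)
    (hζ0 : ζ ≠ 0) (j : ℕ) (x : G) {A : Type} [CommRing A] [Algebra k A] (Y : A) :
    Polynomial.aeval (algebraMap k A ζ ^ j * Y) (Mv l h ζ e x) =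
      Polynomial.aeval Y (Mv l h ζ e (h ^ j * x)) := by
  induction j generalizing x with
  | zero => simp
  | succ j ih =>
    have h1 : algebraMap k A ζ ^ (j + 1) * Y = algebraMap k A ζ * (algebraMap k A ζ ^ j * Y) := by
      ring
    rw [h1, Mv_twist l h ζ e he hζ hζ0, ih, pow_succ, mul_assoc]

/- The correction terms are permuted. -/
theorem kp_si [YData y] (h : SI f α sq y d) (hd : GD y d) {N : Type} [Field N] [Algebra k N]
    (σ : N →+* N) (hσ : ∀ a, σ (algebraMap k N a) = algebraMap k N (f a)) (q : Q) (Y Y' : N)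
    (hY0 : Y' ≠ 0) (hY : σ Y ^ d.e = Y' ^ d.e) (i : Option (Fin (Fintype.card G))) :
    σ (Polynomial.aeval Y (kp y d.l (d.hh q) (d.ζ q) d.e i)) =
      Polynomial.aeval Y' (kp y d.l (d.hh (sq q)) (d.ζ (sq q)) d.e i) := by
  have hprim : IsPrimitiveRoot (algebraMap k N (d.ζ (sq q))) d.e :=
    (hd.hζ (sq q)).map_of_injective (algebraMap k N).injective
  have : NeZero d.e := ⟨hd.he0.ne'⟩
  obtain ⟨j, -, hj⟩ := hprim.eq_pow_of_pow_eq_one (ξ := σ Y / Y') (by
    rw [div_pow, hY, div_self (pow_ne_zero _ hY0)])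
  have hj' : σ Y = algebraMap k N (d.ζ (sq q)) ^ j * Y' := by
    rw [hj, div_mul_cancel₀ _ hY0]
  rw [aeval_kp, aeval_kp, map_sub, hσ, l_si h]
  congr 1
  have h1 := aeval_si h σ hσ (fun x => Polynomial.aeval Y (Mv d.l (d.hh q) (d.ζ q) d.e x))
    (fun x => Polynomial.aeval (σ Y) (Mv d.l (d.hh (sq q)) (d.ζ (sq q)) d.e x))
    (fun x => Mv_si h σ hσ q Y x) i
  rw [h1]
  have h2 : (fun x => Polynomial.aeval (σ Y) (Mv d.l (d.hh (sq q)) (d.ζ (sq q)) d.e x)) =
      (fun x => Polynomial.aeval Y' (Mv d.l (d.hh (sq q)) (d.ζ (sq q)) d.e x)) ∘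
        Equiv.mulLeft (d.hh (sq q) ^ j) := by
    funext x
    rw [hj']
    exact Mv_twist_pow d.l _ _ d.e (hd.hhe _) (hd.hζ _).pow_eq_one
      ((hd.hζ _).ne_zero hd.he0.ne') j x Y'
  rw [h2, tv_mulLeft]


theorem w_si (h : SI f α sq y d) (hd : GD y d) : d.w.map f = d.w := by
  obtain ⟨π, hπ, -⟩ := h.hnd
  rw [hd.hw, Polynomial.map_prod]
  simp only [Polynomial.map_sub, Polynomial.map_X, Polynomial.map_C, hπ]
  exact Equiv.prod_comp π (fun a => Polynomial.X - Polynomial.C (d.nd a))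

theorem basis_si (h : SI f α sq y d) (q : Q) :
    (Lagrange.basis Finset.univ d.nd (d.emb q)).map f =
      Lagrange.basis Finset.univ d.nd (d.emb (sq q)) := by
  classical
  obtain ⟨π, hπ, hπ'⟩ := h.hnd
  unfold Lagrange.basis
  rw [Polynomial.map_prod, ← hπ']
  refine Finset.prod_bij (fun b _ => π b) ?_ ?_ ?_ ?_
  · intro b hb
    rw [Finset.mem_erase] at hb ⊢
    exact ⟨fun e => hb.1 (π.injective e), Finset.mem_univ _⟩
  · intro a _ b _ hab
    exact π.injective hab
  · intro b hb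
    refine ⟨π.symm b, ?_, by simp⟩
    rw [Finset.mem_erase] at hb ⊢
    exact ⟨fun e => hb.1 (by rw [← e, Equiv.apply_symm_apply]), Finset.mem_univ _⟩
  · intro b _
    unfold Lagrange.basisDivisor
    rw [Polynomial.map_mul, Polynomial.map_sub, Polynomial.map_X, Polynomial.map_C,
      Polynomial.map_C, map_inv₀, map_sub, hπ, hπ]

/- Invariance of the tuple. -/
theorem PX_si [YData y] (h : SI f α sq y d) (hd : GD y d) {N : Type} [Field N] [Algebra k N]
    (σ : N →+* N) (hσ : ∀ a, σ (algebraMap k N a) = algebraMap k N (f a))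
    (ξ : Q ⊕ (Unit ⊕ (Option (Fin (Fintype.card G)) ⊕ Option (Fin (Fintype.card G)))) → N)
    (hξ0 : ∀ q, ξ (Sum.inl q) ≠ 0)
    (hξ1 : ∀ q, σ (ξ (Sum.inl q)) ^ d.e = ξ (Sum.inl (sq q)) ^ d.e)
    (hξ2 : ∀ v, σ (ξ (Sum.inr v)) = ξ (Sum.inr v)) (i : Option (Fin (Fintype.card G))) :
    (PX y d ξ i).map σ = PX y d ξ i := by
  have hcomp : σ.comp (algebraMap k N) = (algebraMap k N).comp f := RingHom.ext hσ
  have hw := w_si h hd
  unfold PX PP
  rw [Polynomial.map_add, Polynomial.map_add, Polynomial.map_sum]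
  congr 1
  · congr 1
    · cases i with
      | none =>
        simp only [bsT, Polynomial.map_add, Polynomial.map_C, Polynomial.map_mul,
          Polynomial.map_sub, Polynomial.map_pow, Polynomial.map_X, Polynomial.map_map, hcomp, hσ,
          hξ2, h.hc]
        rw [← Polynomial.map_map, h.hR]
        have h1 := l_si h none
        change f (aeval d.l y) = aeval d.l y at h1
        rw [h1]
      | some i =>
        simp only [bsT, Polynomial.map_C, hσ]
        have h1 := l_si h (some i)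
        change f (aeval d.l (esymm G k (i + 1))) = aeval d.l (esymm G k (i + 1)) at h1
        rw [h1]
    · rw [← Equiv.sum_comp sq (fun q => Polynomial.C (Polynomial.aeval (ξ (Sum.inl q))
        (kp y d.l (d.hh q) (d.ζ q) d.e i)) *
        (Lagrange.basis Finset.univ d.nd (d.emb q)).map (algebraMap k N))]
      refine Finset.sum_congr rfl fun q _ => ?_
      rw [Polynomial.map_mul, Polynomial.map_C, kp_si h hd σ hσ q _ _ (hξ0 (sq q)) (hξ1 q),
        Polynomial.map_map, hcomp, ← Polynomial.map_map, basis_si h]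
  · rw [Polynomial.map_mul, Polynomial.map_map, hcomp, ← Polynomial.map_map, hw]
    simp only [Polynomial.map_add, Polynomial.map_mul, Polynomial.map_C, Polynomial.map_X, hξ2]

/- Semilinear transport of solutions. -/
theorem SolP_si [YData y] (h : SI f α sq y d) (hd : GD y d) {N : Type} [Field N] [Algebra k N]
    (σ : N →+* N) (hσ : ∀ a, σ (algebraMap k N a) = algebraMap k N (f a))
    (ξ : Q ⊕ (Unit ⊕ (Option (Fin (Fintype.card G)) ⊕ Option (Fin (Fintype.card G)))) → N)
    (hξ0 : ∀ q, ξ (Sum.inl q) ≠ 0)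
    (hξ1 : ∀ q, σ (ξ (Sum.inl q)) ^ d.e = ξ (Sum.inl (sq q)) ^ d.e)
    (hξ2 : ∀ v, σ (ξ (Sum.inr v)) = ξ (Sum.inr v)) (s : N) (v : G → N)
    (hs : SolP y (PX y d ξ) s v) (hsw : Polynomial.aeval s d.w ≠ 0) :
    SolP y (PX y d ξ) (σ s) (fun g => σ (v (α⁻¹ g))) ∧ Polynomial.aeval (σ s) d.w ≠ 0 := by
  refine ⟨fun i => ?_, fun h0 => hsw ?_⟩
  · rw [← PX_si h hd σ hσ ξ hξ0 hξ1 hξ2 i, Polynomial.eval_map_apply, ← hs i]
    refine (aeval_si h σ hσ v _ (fun g => ?_) i).symm
    congr 2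
    change g = α.symm (α g)
    rw [MulEquiv.symm_apply_apply]
  · rw [← w_si h hd, ← paeval_semi σ hσ] at h0
    exact (map_eq_zero_iff σ σ.injective).1 h0

end sem

end Pool.Agent.H391R2.T4
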