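import Mathlib
import Pool.Agent.H84.L.A3_N70_AW_Stm
import Pool.Agent.H84.L.S8_H391R2_T4_Fam
import Pool.Agent.H84.L.S8_H391R2_T4_Nod
import Pool.Agent.H84.L.S8_H391R2_T4_Sem

namespace Pool.Agent.N70.AW
end Pool.Agent.N70.AW


/-!
# The basis of the fixed field and its trace form
-/

set_option autoImplicit false

namespace Pool.Agent.N157.AW

open Polynomial Pool.Agent.N70.AW Matrix

/-! ### The map `pz` -/

section pz

variable {K Z : Type} [Field K] [Field Z] [Algebra (RatFunc K) Z]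

variable (K Z) in
/- `pz` as a ring homomorphism. -/
noncomputable def pzH : K[X] →+* Z :=
  (algebraMap (RatFunc K) Z).comp (algebraMap K[X] (RatFunc K))

lemma pz_eq (p : K[X]) : pz Z p = pzH K Z p := rfl

lemma pzH_apply (p : K[X]) : pzH K Z p = algebraMap (RatFunc K) Z (algebraMap K[X] (RatFunc K) p) :=
  rfl

lemma pzH_inj : Function.Injective (pzH K Z) := by
  intro p q h
  exact (FaithfulSMul.algebraMap_injective K[X] (RatFunc K)) ((algebraMap (RatFunc K) Z).injective h)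

lemma pzH_ne {p : K[X]} (hp : p ≠ 0) : pzH K Z p ≠ 0 := by
  rw [Ne, map_eq_zero_iff _ pzH_inj]
  exact hp

lemma gal_pzH (γ : Z ≃ₐ[RatFunc K] Z) (p : K[X]) : γ (pzH K Z p) = pzH K Z p := γ.commutes _

end pz

/-! ### Cosets -/

section coset

variable {Γ : Type} [Group Γ] {P : Subgroup Γ} {m : ℕ} {g : Fin m → Γ}

lemma exists_perm (hg : Function.Bijective (fun t => (g t : Γ ⧸ P))) (γ : Γ) :
    ∃ π : Equiv.Perm (Fin m), ∀ t, ((γ * g t : Γ) : Γ ⧸ P) = (g (π t) : Γ ⧸ P) := by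
  let b : Fin m ≃ Γ ⧸ P := Equiv.ofBijective _ hg
  refine ⟨b.trans ((MulAction.toPerm γ).trans b.symm), fun t => ?_⟩
  have h1 : (g ((b.trans ((MulAction.toPerm γ).trans b.symm)) t) : Γ ⧸ P) =
      b ((b.trans ((MulAction.toPerm γ).trans b.symm)) t) := rfl
  rw [h1]
  simp only [Equiv.trans_apply, Equiv.apply_symm_apply]
  rfl

lemma exists_one (hg : Function.Bijective (fun t => (g t : Γ ⧸ P))) : ∃ t, g t ∈ P := by
  obtain ⟨t, ht⟩ := hg.2 ((1 : Γ) : Γ ⧸ P)
  have h1 : ((1 : Γ) : Γ ⧸ P) = (g t : Γ ⧸ P) := ht.symm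
  rw [QuotientGroup.eq, inv_one, one_mul] at h1
  exact ⟨t, h1⟩

end coset

/-! ### The fixed field -/

section fix

variable {K Z : Type} [Field K] [Field Z] [Algebra (RatFunc K) Z]
  {P : Subgroup (Z ≃ₐ[RatFunc K] Z)} {m : ℕ} {g : Fin m → (Z ≃ₐ[RatFunc K] Z)}

lemma act {x : Z} (hx : ∀ γ ∈ P, γ x = x) {γ δ : Z ≃ₐ[RatFunc K] Z}
    (h : (γ : (Z ≃ₐ[RatFunc K] Z) ⧸ P) = (δ : (Z ≃ₐ[RatFunc K] Z) ⧸ P)) : γ x = δ x := by
  rw [QuotientGroup.eq] at h
  have h1 := hx _ h
  have h2 : δ x = γ ((γ⁻¹ * δ) x) := by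
    rw [← AlgEquiv.mul_apply, mul_inv_cancel_left]
  rw [h2, h1]

variable [FiniteDimensional (RatFunc K) Z] [IsGalois (RatFunc K) Z]

lemma mem_R {z : Z} (h : ∀ γ : Z ≃ₐ[RatFunc K] Z, γ z = z) :
    ∃ r : RatFunc K, algebraMap (RatFunc K) Z r = z :=
  (IsGalois.mem_range_algebraMap_iff_fixed z).2 h

/- The matrix of the conjugates. -/
noncomputable def Um (g : Fin m → (Z ≃ₐ[RatFunc K] Z)) (f : Fin m → Z) : Matrix (Fin m) (Fin m) Z :=
  Matrix.of fun t l => g t (f l)

omit [FiniteDimensional (RatFunc K) Z] [IsGalois (RatFunc K) Z] in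
lemma Um_apply (f : Fin m → Z) (t l : Fin m) : Um g f t l = g t (f l) := rfl

/- Coordinates of the elements of the fixed field. -/
lemma expand (hg : Function.Bijective (fun t => (g t : (Z ≃ₐ[RatFunc K] Z) ⧸ P))) {f : Fin m → Z}
    (hf : ∀ l, ∀ γ ∈ P, γ (f l) = f l) (hU : (Um g f).det ≠ 0) {x : Z}
    (hx : ∀ γ ∈ P, γ x = x) :
    ∃ h : Fin m → RatFunc K, x = ∑ l, algebraMap (RatFunc K) Z (h l) * f l := by
  have hunit : IsUnit (Um g f).det := isUnit_iff_ne_zero.2 hU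
  set y : Fin m → Z := fun t => g t x with hy
  set v : Fin m → Z := (Um g f)⁻¹ *ᵥ y with hv
  have hUv : Um g f *ᵥ v = y := by
    rw [hv, Matrix.mulVec_mulVec, Matrix.mul_nonsing_inv _ hunit, Matrix.one_mulVec]
  have hinj : ∀ w : Fin m → Z, Um g f *ᵥ w = y → w = v := by
    intro w hw
    rw [hv, ← hw, Matrix.mulVec_mulVec, Matrix.nonsing_inv_mul _ hunit, Matrix.one_mulVec]
  have hgal : ∀ l, ∀ γ : Z ≃ₐ[RatFunc K] Z, γ (v l) = v l := by
    intro l γ
    obtain ⟨π, hπ⟩ := exists_perm hg γ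
    have h1 : (fun l => γ (v l)) = v := by
      apply hinj
      funext s
      obtain ⟨t, rfl⟩ := π.surjective s
      have h2 := congrArg γ (congrFun hUv t)
      simp only [Matrix.mulVec, dotProduct, map_sum, map_mul] at h2 ⊢
      have h3 : ∀ l, γ (Um g f t l) = Um g f (π t) l := by
        intro l
        rw [Um_apply, Um_apply, ← AlgEquiv.mul_apply]
        exact act (hf l) (hπ t)
      have h4 : γ (y t) = y (π t) := by
        rw [hy]
        beta_reduce
        rw [← AlgEquiv.mul_apply]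
        exact act hx (hπ t)
      rw [h4] at h2
      rw [← h2]
      exact Finset.sum_congr rfl fun l _ => by rw [h3]
    exact congrFun h1 l
  choose h hh using fun l => mem_R (hgal l)
  refine ⟨h, ?_⟩
  obtain ⟨t, ht⟩ := exists_one hg
  have h5 := congrFun hUv t
  simp only [Matrix.mulVec, dotProduct, Um_apply, hy] at h5
  rw [hx _ ht] at h5
  rw [← h5]
  refine Finset.sum_congr rfl fun l _ => ?_
  rw [hf l _ ht, hh, mul_comm]


/- The trace form is rational. -/
lemma gram_rat (hg : Function.Bijective (fun t => (g t : (Z ≃ₐ[RatFunc K] Z) ⧸ P)))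
    {f : Fin m → Z} (hf : ∀ l, ∀ γ ∈ P, γ (f l) = f l) :
    ∃ S0 : Matrix (Fin m) (Fin m) (RatFunc K),
      S0.map (algebraMap (RatFunc K) Z) = (Um g f)ᵀ * Um g f := by
  have h1 : ∀ l l', ∃ r : RatFunc K, algebraMap (RatFunc K) Z r = ((Um g f)ᵀ * Um g f) l l' := by
    intro l l'
    refine mem_R fun γ => ?_
    obtain ⟨π, hπ⟩ := exists_perm hg γ
    rw [Matrix.mul_apply, map_sum]
    conv_rhs => rw [← Equiv.sum_comp π]
    refine Finset.sum_congr rfl fun t _ => ?_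
    rw [Matrix.transpose_apply, Matrix.transpose_apply, Um_apply, Um_apply, Um_apply, Um_apply,
      map_mul, ← AlgEquiv.mul_apply, ← AlgEquiv.mul_apply]
    congr 1
    · exact act (hf l) (hπ t)
    · exact act (hf l') (hπ t)
  choose r hr using h1
  exact ⟨Matrix.of r, by ext l l'; exact hr l l'⟩

end fix

/-! ### Multiplication in the basis -/

/- The multiplication by `x` in the basis `e`. -/
structure MD {K Z : Type} [Field K] [Field Z] [Algebra (RatFunc K) Z] [Algebra K Z]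
    (P : Subgroup (Z ≃ₐ[RatFunc K] Z)) {m : ℕ} (D : Derivation K Z Z) (e es : Fin m → Z)
    (S : Matrix (Fin m) (Fin m) K[X]) (d : ℕ) (x : Z) (M L : Matrix (Fin m) (Fin m) K[X]) :
    Prop where
  fix : ∀ γ ∈ P, γ x = x
  mul_e : ∀ l', x * e l' = ∑ l, pz Z (M l l') * e l
  mul_es : ∀ l, x * es l = ∑ l', pz Z (M l l') * es l'
  fac : M = L * S
  symL : L.transpose = L
  deg : ∀ l l', (M l l').natDegree ≤ d
  der : D x = ∑ l, ∑ l', e l * pz Z (derivative (M l l')) * es l'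


end Pool.Agent.N157.AW
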