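import Mathlib
import Pool.Agent.H84.L.A3_N157_AW_Base
import Pool.Agent.H84.L.A3_N70_AW_Stm
import Pool.Agent.H84.L.S8_H391R2_T4_Nod
import Pool.Agent.H84.L.S8_H391R2_T4_Sem

namespace Pool.Agent.N70.AW
end Pool.Agent.N70.AW


/-!
# Assembly of the data
-/

set_option autoImplicit false
set_option linter.unusedSectionVars false

namespace Pool.Agent.N157.AW

open Polynomial Pool.Agent.N70.AW Matrix

/-! ### Linear independence by degrees -/

lemma linInd {K ι : Type} [Field K] (f : ι → K[X]) (h0 : ∀ i, f i ≠ 0)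
    (hinj : Function.Injective fun i => (f i).natDegree) : LinearIndependent K f := by
  refine linearIndependent_iff'.2 fun s g hsum i hi => ?_
  by_contra hgi
  have hd : ∀ j, g j ≠ 0 → (g j • f j).degree = ((f j).natDegree : WithBot ℕ) := fun j hj => by
    rw [smul_eq_C_mul, degree_C_mul hj, degree_eq_natDegree (h0 j)]
  have hp : {i | i ∈ s ∧ g i • f i ≠ 0}.Pairwise (Function.onFun Ne fun i => (g i • f i).degree) := by
    intro x hx y hy hxy
    have zx : g x ≠ 0 := (smul_ne_zero_iff.mp hx.2).1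
    have zy : g y ≠ 0 := (smul_ne_zero_iff.mp hy.2).1
    rw [Function.onFun, hd x zx, hd y zy]
    intro h
    exact hxy (hinj (by exact_mod_cast h))
  have h1 := degree_sum_eq_of_disjoint _ s hp
  rw [hsum, degree_zero] at h1
  have h2 := Finset.le_sup hi (f := fun i => (g i • f i).degree)
  rw [← h1, hd i hgi] at h2
  exact absurd (le_bot_iff.1 h2) (by simp)

section pz

variable {K Z : Type} [Field K] [Field Z] [Algebra (RatFunc K) Z]

lemma pz_add (p q : K[X]) : pz Z (p + q) = pz Z p + pz Z q := map_add (pzH K Z) p q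
lemma pz_mul (p q : K[X]) : pz Z (p * q) = pz Z p * pz Z q := map_mul (pzH K Z) p q
lemma pz_neg (p : K[X]) : pz Z (-p) = -pz Z p := map_neg (pzH K Z) p
lemma pz_zero : pz Z (0 : K[X]) = 0 := map_zero (pzH K Z)
lemma pz_one : pz Z (1 : K[X]) = 1 := map_one (pzH K Z)
lemma pz_pow (p : K[X]) (n : ℕ) : pz Z (p ^ n) = pz Z p ^ n := map_pow (pzH K Z) p n
lemma pz_sum {ι : Type} (s : Finset ι) (f : ι → K[X]) :
    pz Z (∑ i ∈ s, f i) = ∑ i ∈ s, pz Z (f i) := map_sum (pzH K Z) f s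
lemma pz_ne {p : K[X]} (hp : p ≠ 0) : pz Z p ≠ 0 := pzH_ne hp
lemma gal_pz (γ : Z ≃ₐ[RatFunc K] Z) (p : K[X]) : γ (pz Z p) = pz Z p := γ.commutes _

end pz

section

variable {K Z : Type} [Field K] [Field Z] [Algebra (RatFunc K) Z] [Algebra K Z]

/-! ### Integration by parts -/

/- The primitive. -/
noncomputable def IBP (D : Derivation K Z Z) (g₀ : Z) (l : ℕ) (w : K[X]) : Z :=
  ∑ i ∈ Finset.range l, pz Z ((-1) ^ i * derivative^[i] w) * (D^[l - 1 - i]) g₀


/-! ### Combinations of the basis -/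

/- Combinations of the basis with coefficients divisible by `Δ ^ 3`, of degree at most `d`. -/
def Gd {m : ℕ} (Δ : K[X]) (e : Fin m → Z) (d : ℕ) (x : Z) : Prop :=
  ∃ h : Fin m → K[X], (∀ j, Δ ^ 3 ∣ h j) ∧ (∀ j, (h j).natDegree ≤ d) ∧
    x = ∑ j, pz Z (h j) * e j

variable {m : ℕ} {Δ : K[X]} {e : Fin m → Z} {d : ℕ}

omit [Algebra K Z] in
lemma Gd.zero : Gd Δ e d 0 :=
  ⟨fun _ => 0, fun _ => dvd_zero _, fun _ => by simp, by simp [pz_zero]⟩

omit [Algebra K Z] in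
lemma Gd.add {x y : Z} (hx : Gd Δ e d x) (hy : Gd Δ e d y) : Gd Δ e d (x + y) := by
  obtain ⟨h, h1, h2, rfl⟩ := hx
  obtain ⟨h', h1', h2', rfl⟩ := hy
  refine ⟨fun j => h j + h' j, fun j => dvd_add (h1 j) (h1' j), fun j =>
    (natDegree_add_le _ _).trans (max_le (h2 j) (h2' j)), ?_⟩
  rw [← Finset.sum_add_distrib]
  exact Finset.sum_congr rfl fun j _ => by rw [pz_add, add_mul]

omit [Algebra K Z] in
lemma Gd.neg {x : Z} (hx : Gd Δ e d x) : Gd Δ e d (-x) := by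
  obtain ⟨h, h1, h2, rfl⟩ := hx
  refine ⟨fun j => -h j, fun j => (dvd_neg).2 (h1 j), fun j => by
    rw [natDegree_neg]; exact h2 j, ?_⟩
  rw [← Finset.sum_neg_distrib]
  exact Finset.sum_congr rfl fun j _ => by rw [pz_neg, neg_mul]

omit [Algebra K Z] in
lemma Gd.sum {ι : Type} (s : Finset ι) {f : ι → Z} (hf : ∀ i ∈ s, Gd Δ e d (f i)) :
    Gd Δ e d (∑ i ∈ s, f i) := by
  classical
  induction s using Finset.induction_on with
  | empty => exact Gd.zero
  | insert a s ha ih =>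
    rw [Finset.sum_insert ha]
    exact (hf a (Finset.mem_insert_self _ _)).add
      (ih fun i hi => hf i (Finset.mem_insert_of_mem hi))

lemma Gd.single {D : Derivation K Z Z} {g₀ : Z} (hΔ : Δ ≠ 0)
    (he : ∀ l : Fin m, e l = pz Z Δ * (D^[(l : ℕ)]) g₀) {w : K[X]} (hw : Δ ^ 4 ∣ w)
    (hd : w.natDegree ≤ d) {j : ℕ} (hj : j < m) : Gd Δ e d (pz Z w * (D^[j]) g₀) := by
  obtain ⟨w', rfl⟩ : Δ ∣ w := (dvd_pow_self Δ (by norm_num)).trans hw
  have h1 : Δ ^ 3 ∣ w' := by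
    rw [pow_succ' Δ 3] at hw
    exact (mul_dvd_mul_iff_left hΔ).1 hw
  refine ⟨Pi.single ⟨j, hj⟩ w', fun i => ?_, fun i => ?_, ?_⟩
  · by_cases h : i = ⟨j, hj⟩
    · subst h; rw [Pi.single_eq_same]; exact h1
    · rw [Pi.single_eq_of_ne h]; exact dvd_zero _
  · by_cases h : i = ⟨j, hj⟩
    · subst h
      rw [Pi.single_eq_same]
      refine le_trans ?_ hd
      by_cases h2 : w' = 0
      · rw [h2, natDegree_zero]; exact Nat.zero_le _
      · rw [natDegree_mul hΔ h2]; exact Nat.le_add_left _ _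
    · rw [Pi.single_eq_of_ne h, natDegree_zero]; exact Nat.zero_le _
  · rw [Finset.sum_eq_single ⟨j, hj⟩]
    · rw [Pi.single_eq_same, he, pz_mul]
      ring
    · intro i _ hi
      rw [Pi.single_eq_of_ne hi, pz_zero, zero_mul]
    · intro h; exact absurd (Finset.mem_univ _) h

lemma Gd.ibp {D : Derivation K Z Z} {g₀ : Z} (hΔ : Δ ≠ 0)
    (he : ∀ l : Fin m, e l = pz Z Δ * (D^[(l : ℕ)]) g₀) {w : K[X]} (hw : Δ ^ (m + 4) ∣ w)
    (hd : w.natDegree ≤ d) {l : ℕ} (hl : l ≤ m) : Gd Δ e d (IBP D g₀ l w) := by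
  refine Gd.sum _ fun i hi => ?_
  have hi' := Finset.mem_range.1 hi
  refine Gd.single hΔ he ?_ ?_ (by omega)
  · refine Dvd.dvd.mul_left ?_ _
    refine (pow_dvd_pow Δ ?_).trans (pow_sub_dvd_iterate_derivative_of_pow_dvd i hw)
    omega
  · refine natDegree_mul_le.trans ?_
    have h1 : ((-1 : K[X]) ^ i).natDegree = 0 := by
      rw [natDegree_pow, natDegree_neg, natDegree_one, mul_zero]
    rw [h1, zero_add]
    exact (natDegree_iterate_derivative _ _).trans ((Nat.sub_le _ _).trans hd)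

end

/-! ### The sequences -/

/- The sequences of the data. -/
structure Sq {K Z : Type} [Field K] [Field Z] [Algebra (RatFunc K) Z] [Algebra K Z]
    (P : Subgroup (Z ≃ₐ[RatFunc K] Z)) {m : ℕ} (D : Derivation K Z Z) (g₀ : Z) (e es : Fin m → Z)
    (S : Matrix (Fin m) (Fin m) K[X]) (α β : K[X]) (κt : ℕ → K[X]) (xt : ℕ → Z)
    (Mt Lt : ℕ → Matrix (Fin m) (Fin m) K[X]) (x0 : Z) (M0 L0 : Matrix (Fin m) (Fin m) K[X])
    (c0 c1 t0 : ℕ) (ν : ℤ) : Prop where
  β0 : β ≠ 0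
  h0 : ∀ γ : Z ≃ₐ[RatFunc K] Z, γ g₀ = g₀ ↔ γ ∈ P
  md : ∀ t, MD P D e es S (t + c1) (xt t) (Mt t) (Lt t)
  md0 : MD P D e es S c0 x0 M0 L0
  dx : ∀ t, D (xt t) = pz Z (κt t) * (pz Z β * g₀)
  dx0 : D x0 = (pz Z α + pz Z β * g₀) ^ 2 - pz Z α ^ 2
  ne : ∀ t, t0 ≤ t → κt t ≠ 0
  dg : ∀ t, t0 ≤ t → ((κt t).natDegree : ℤ) = t + ν

section

variable {K Z : Type} [Field K] [CharZero K] [Field Z] [Algebra (RatFunc K) Z] [Algebra K Z]


/-! ### The data -/

variable {ι : Type}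

/- The polynomials. -/
def κf (α : K[X]) (κt : ℕ → K[X]) (τ : ι → ℕ) : Option ι → K[X]
  | none => α
  | some i => κt (τ i)

/- The elements `v`. -/
noncomputable def vf (α β : K[X]) (g₀ : Z) (κt : ℕ → K[X]) (τ : ι → ℕ) : Option ι → Z
  | none => pz Z α + pz Z β * g₀
  | some i => pz Z (κt (τ i))

/- The elements `x` and their matrices. -/
def xf {A : Type} [Zero A] (x0 : A) (xt : ℕ → A) (τ : ι → ℕ) : Option ι → Option ι → A
  | none, none => x0
  | none, some i => xt (τ i)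
  | some i, none => xt (τ i)
  | some _, some _ => 0


end


end Pool.Agent.N157.AW
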