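import Mathlib



namespace Pool.Agent.H391R2

open MvPolynomial

section ntd

variable {k K : Type} [Field k] [Field K] [Algebra k K] {G : Type} [Group G] [Fintype G]

/- A place as a `k`-algebra homomorphism. -/
noncomputable def placeAlg {B : Type} [CommRing B] [Algebra (Polynomial K) B] [Algebra k B]
    [IsScalarTower k (Polynomial K) B] (φ : B →+* K) (x : K)
    (hφ : ∀ p, φ (algebraMap (Polynomial K) B p) = p.eval x) : B →ₐ[k] K :=
  { φ with
    commutes' := fun c => by
      change φ (algebraMap k B c) = _
      rw [IsScalarTower.algebraMap_apply k (Polynomial K) B, hφ]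
      rw [Polynomial.algebraMap_apply, Polynomial.eval_C] }


theorem exists_galois' {F Ω : Type} [Field F] [CharZero F] [Field Ω] [IsAlgClosed Ω] [Algebra F Ω]
    (S : Finset Ω) (hS : ∀ x ∈ S, IsIntegral F x) : ∃ (N : Type) (_ : Field N) (_ : Algebra F N)
    (_ : FiniteDimensional F N) (_ : IsGalois F N) (j : N →ₐ[F] Ω), ∀ x ∈ S, ∃ y, j y = x := by
  classical
  let P : Polynomial F := ∏ x ∈ S, minpoly F x
  have hP : P ≠ 0 := Finset.prod_ne_zero_iff.2 fun x hx => minpoly.ne_zero (hS x hx)
  let N := IntermediateField.adjoin F (P.rootSet Ω)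
  have hsplit : P.IsSplittingField F N :=
    IntermediateField.adjoin_rootSet_isSplittingField (IsAlgClosed.splits _)
  have hfd : FiniteDimensional F N := hsplit.finiteDimensional N P
  have hnormal : Normal F N := Normal.of_isSplittingField P
  have hgal : IsGalois F N := { __ := hnormal }
  refine ⟨N, inferInstance, inferInstance, hfd, hgal, N.val, fun x hx => ?_⟩
  have hx' : x ∈ N := by
    apply IntermediateField.subset_adjoin
    rw [Polynomial.mem_rootSet]
    refine ⟨hP, ?_⟩
    rw [map_prod]
    exact Finset.prod_eq_zero hx (minpoly.aeval F x)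
  exact ⟨⟨x, hx'⟩, rfl⟩


end ntd

end Pool.Agent.H391R2
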