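import Mathlib
import Pool.Agent.H84.L.S8_H391R2_NtS
import Pool.Agent.H84.L.S8_H391R2_T4_Phi
import Pool.Agent.H84.L.S8_H391R2_T4_Sol
import Pool.Agent.H84.L.S8_H391R2_WrTrd



namespace Pool.Agent.H391R2.T4

open MvPolynomial

set_option linter.unusedSectionVars false

section path

variable {k : Type} [Field k] {G : Type} [Group G] [Fintype G] (y : MvPolynomial G k)

theorem stab_path (hm : 3 ≤ Fintype.card G)
    (base corr : Option (Fin (Fintype.card G)) → Polynomial k) (w : Polynomial k)
    {E : Type} [Field E] [Algebra k E]
    (θ : Option (Fin (Fintype.card G)) ⊕ Option (Fin (Fintype.card G)) → E)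
    (hθ : AlgebraicIndependent k θ)
    (hw : ∀ s : E, Polynomial.aeval s w = 0 → ∃ c : k, s = algebraMap k E c)
    (hb : ∀ (s : E) (v : G → E), SolP y (fun i => (base i).map (algebraMap k E)) s v →
      Function.Injective v)
    (hc : ∀ (s : E) (v : G → E), Polynomial.aeval s w = 0 →
      SolP y (fun i => (base i + corr i).map (algebraMap k E)) s v → Function.Injective v)
    (x s : E) (v : G → E) (h : SolP y (path base corr w θ x) s v) (g : G)
    (hg : v ∘ Equiv.mulLeft g = v) : g = 1 := by
  classical
  have hvg : ∀ y, v (g * y) = v y := fun y => congrFun hg y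
  have hinj : Function.Injective v → g = 1 := by
    intro hi
    have h1 := hvg 1
    rw [mul_one] at h1
    exact hi h1
  by_cases hx0 : x = 0
  · subst hx0
    apply hinj
    apply hb s v
    intro i
    rw [h i, path_zero]
  by_cases hws : Polynomial.aeval s w = 0
  · by_cases hx1 : x = 1
    · subst hx1
      apply hinj
      apply hc s v hws
      intro i
      rw [h i, path_eval, hws]
      simp [Polynomial.eval_map_algebraMap]
    · apply hinj
      obtain ⟨c, hc'⟩ := hw s hws
      let X : Option G → E := fun o => o.elim x v
      have hxne : x * (1 - x) ≠ 0 := mul_ne_zero hx0 (sub_ne_zero.2 (Ne.symm hx1))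
      have hX : AlgebraicIndependent k X := by
        refine indep_of_mem (ι := Option (Fin (Fintype.card G))) ?_ (fun i => θ (Sum.inr i))
          (hθ.comp _ Sum.inr_injective) X fun i => ?_
        · simp [Nat.card_eq_fintype_card]
        · set L := IntermediateField.adjoin k (Set.range X) with hL
          have hxL : x ∈ L := IntermediateField.subset_adjoin _ _ ⟨none, rfl⟩
          have hvL : ∀ y, v y ∈ L := fun y => IntermediateField.subset_adjoin _ _ ⟨some y, rfl⟩
          have hsL : s ∈ L := by
            rw [hc']
            exact L.algebraMap_mem c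
          have htv : aeval v (tv y i) ∈ L := by
            have h1 := comp_aeval_apply (f := fun y => (⟨v y, hvL y⟩ : L)) (φ := L.val)
              (tv y i)
            have h2 : (fun y => L.val (⟨v y, hvL y⟩ : L)) = v := rfl
            rw [h2] at h1
            rw [← h1]
            exact (aeval (fun y => (⟨v y, hvL y⟩ : L)) (tv y i)).2
          have hpol : ∀ p : Polynomial k, Polynomial.aeval s p ∈ L := by
            intro p
            have h1 := Polynomial.aeval_algHom_apply L.val (⟨s, hsL⟩ : L) p
            change Polynomial.aeval s p = _ at h1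
            rw [h1]
            exact (Polynomial.aeval (⟨s, hsL⟩ : L) p).2
          have h3 := h i
          rw [path_eval, hws, zero_mul, mul_zero, add_zero] at h3
          have h4 : θ (Sum.inr i) = (aeval v (tv y i) - Polynomial.aeval s (base i) -
              x * Polynomial.aeval s (corr i)) / (x * (1 - x)) := by
            rw [eq_div_iff hxne, h3]
            ring
          rw [h4]
          exact L.div_mem (L.sub_mem (L.sub_mem htv (hpol _)) (L.mul_mem hxL (hpol _)))
            (L.mul_mem hxL (L.sub_mem L.one_mem hxL))
      intro a b hab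
      have h5 : X (some a) = X (some b) := hab
      exact Option.some_injective _ (hX.injective h5)
  · by_contra hg1
    let J := (Unit ⊕ Unit) ⊕ ({y : G // y ≠ g} ⊕ Option (Fin (Fintype.card G)))
    let X : J → E := Sum.elim (Sum.elim (fun _ => x) (fun _ => s))
      (Sum.elim (fun y => v y) (fun i => θ (Sum.inr i)))
    have hcardJ : Nat.card J ≤ Nat.card (Option (Fin (Fintype.card G)) ⊕
        Option (Fin (Fintype.card G))) := by
      simp only [J, Nat.card_eq_fintype_card, Fintype.card_sum, Fintype.card_unit,
        Fintype.card_option, Fintype.card_fin, Fintype.card_subtype_compl,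
        Fintype.card_subtype_eq]
      omega
    have hX : AlgebraicIndependent k X := by
      refine indep_of_mem hcardJ θ hθ X fun i => ?_
      set L := IntermediateField.adjoin k (Set.range X) with hL
      have hxL : x ∈ L := IntermediateField.subset_adjoin _ _ ⟨Sum.inl (Sum.inl ()), rfl⟩
      have hsL : s ∈ L := IntermediateField.subset_adjoin _ _ ⟨Sum.inl (Sum.inr ()), rfl⟩
      have hvL' : ∀ y, y ≠ g → v y ∈ L := fun y hy =>
        IntermediateField.subset_adjoin _ _ ⟨Sum.inr (Sum.inl ⟨y, hy⟩), rfl⟩
      have hvL : ∀ y, v y ∈ L := by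
        intro y
        by_cases hy : y = g
        · subst hy
          have h1 := hvg 1
          rw [mul_one] at h1
          rw [h1]
          exact hvL' 1 (Ne.symm hg1)
        · exact hvL' y hy
      have hbL : ∀ i, θ (Sum.inr i) ∈ L := fun i =>
        IntermediateField.subset_adjoin _ _ ⟨Sum.inr (Sum.inr i), rfl⟩
      cases i with
      | inr i => exact hbL i
      | inl i =>
        have htv : aeval v (tv y i) ∈ L := by
          have h1 := comp_aeval_apply (f := fun y => (⟨v y, hvL y⟩ : L)) (φ := L.val)
            (tv y i)
          have h2 : (fun y => L.val (⟨v y, hvL y⟩ : L)) = v := rfl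
          rw [h2] at h1
          rw [← h1]
          exact (aeval (fun y => (⟨v y, hvL y⟩ : L)) (tv y i)).2
        have hpol : ∀ p : Polynomial k, Polynomial.aeval s p ∈ L := by
          intro p
          have h1 := Polynomial.aeval_algHom_apply L.val (⟨s, hsL⟩ : L) p
          change Polynomial.aeval s p = _ at h1
          rw [h1]
          exact (Polynomial.aeval (⟨s, hsL⟩ : L) p).2
        have h3 := h i
        rw [path_eval] at h3
        have hne : x * Polynomial.aeval s w ≠ 0 := mul_ne_zero hx0 hws
        have h4 : θ (Sum.inl i) = (aeval v (tv y i) - Polynomial.aeval s (base i) -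
            x * Polynomial.aeval s (corr i) - x * (1 - x) * θ (Sum.inr i)) /
            (x * Polynomial.aeval s w) - θ (Sum.inr i) * s := by
          rw [eq_sub_iff_add_eq, eq_div_iff hne, h3]
          ring
        rw [h4]
        exact L.sub_mem (L.div_mem (L.sub_mem (L.sub_mem (L.sub_mem htv (hpol _))
          (L.mul_mem hxL (hpol _))) (L.mul_mem (L.mul_mem hxL (L.sub_mem L.one_mem hxL)) (hbL i)))
          (L.mul_mem hxL (hpol _))) (L.mul_mem (hbL i) hsL)
    obtain ⟨h', hh1, hh2⟩ : ∃ h' : G, h' ≠ 1 ∧ h' ≠ g := by
      have h1 : ({1, g} : Finset G).card < (Finset.univ : Finset G).card := by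
        rw [Finset.card_univ]
        exact lt_of_le_of_lt Finset.card_le_two (by omega)
      obtain ⟨r, -, hr⟩ := Finset.exists_mem_notMem_of_card_lt_card h1
      simp only [Finset.mem_insert, Finset.mem_singleton, not_or] at hr
      exact ⟨r, hr.1, hr.2⟩
    have h1 : g * h' ≠ g := by
      intro h
      apply hh1
      exact mul_eq_left.1 h
    have h2 : X (Sum.inr (Sum.inl ⟨g * h', h1⟩)) = X (Sum.inr (Sum.inl ⟨h', hh2⟩)) := hvg h'
    have h3 := hX.injective h2
    have h4 : g * h' = h' := by
      have h5 := Sum.inl_injective (Sum.inr_injective h3)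
      exact congrArg Subtype.val h5
    apply hg1
    exact mul_eq_right.1 h4

end path

end Pool.Agent.H391R2.T4
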