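import Mathlib
import Pool.Agent.H84.L.S8_H391R2_T4_Abs
import Pool.Agent.H84.L.S8_H391R2_T4_Bc
import Pool.Agent.H84.L.S8_H391R2_T4_NtD
import Pool.Agent.H84.L.S8_H391R2_T4_NtE
import Pool.Agent.H84.L.S8_H391R2_T4_NtF
import Pool.Agent.H84.L.S8_H391R2_T4_NtS
import Pool.Agent.H84.L.S8_H391R2_T4_Phi
import Pool.Agent.H84.L.S8_H391R2_T4_Sol
import Pool.Agent.H84.L.S8_H391R2_WrSol
import Pool.Agent.H84.L.S8_H391R2_WrSym

namespace Pool.Agent.H391R2
end Pool.Agent.H391R2
namespace Pool.Agent.H391R2.T4
end Pool.Agent.H391R2.T4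


/-!
# Polynomials with a given group of symmetries
-/

set_option autoImplicit false

namespace Pool.Agent.N600.NS

open MvPolynomial
open Pool.Agent.H391R2
open Pool.Agent.H391R2.T4

set_option linter.unusedSectionVars false

/- A polynomial whose symmetry group is exactly `G₀` acting by left translations. -/
structure YD {k G : Type} [Field k] [Group G] (G₀ : Subgroup G) (y : MvPolynomial G k) : Prop where
  inv : ∀ g : G₀, rename (Equiv.mulLeft (g : G)) y = y
  stab : ∀ π : Equiv.Perm G, rename π y = y → ∃ g : G₀, π = Equiv.mulLeft (g : G)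

section

variable {k : Type} [Field k] {G : Type} [Group G] [Fintype G] {G₀ : Subgroup G}
  {y : MvPolynomial G k} (hY : YD G₀ y)

include hY

theorem aeval_mulLeft {E : Type} [CommRing E] [Algebra k E] (v : G → E) (g : G₀) :
    aeval (v ∘ Equiv.mulLeft (g : G)) y = aeval v y := by
  rw [← aeval_mem_orb, hY.inv]

theorem tv_mulLeft {E : Type} [CommRing E] [Algebra k E] (v : G → E) (g : G₀)
    (i : Option (Fin (Fintype.card G))) :
    aeval (v ∘ Equiv.mulLeft (g : G)) (tv y i) = aeval v (tv y i) := by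
  cases i with
  | none => exact aeval_mulLeft hY v g
  | some i => exact aeval_esymm_comp k G v _ _

theorem Sol_mulLeft (base : Option (Fin (Fintype.card G)) → Polynomial k) (w : Polynomial k)
    {E : Type} [CommRing E] [Algebra k E]
    (θ : Option (Fin (Fintype.card G)) ⊕ Option (Fin (Fintype.card G)) → E) (s : E)
    (v : G → E) (g : G₀) (h : Sol y base w θ s v) :
    Sol y base w θ s (v ∘ Equiv.mulLeft (g : G)) :=
  ⟨h.1, fun i => by rw [tv_mulLeft hY]; exact h.2 i⟩

theorem unique_v (base : Option (Fin (Fintype.card G)) → Polynomial k) (w : Polynomial k)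
    {E : Type} [Field E] [Algebra k E]
    (θ : Option (Fin (Fintype.card G)) ⊕ Option (Fin (Fintype.card G)) → E) (s : E)
    (v u : G → E) (hv : AlgebraicIndependent k v) (h : Sol y base w θ s v)
    (h' : Sol y base w θ s u) : ∃ g : G₀, u = v ∘ Equiv.mulLeft (g : G) := by
  obtain ⟨π, rfl⟩ := exists_perm_of_esymm (k := k) v u (fun i => (h.2 (some i)).trans
    (h'.2 (some i)).symm)
  have h1 : aeval v (rename π y) = aeval v y := by
    rw [aeval_mem_orb]
    exact (h'.2 none).trans (h.2 none).symm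
  obtain ⟨g, rfl⟩ := hY.stab π (algebraicIndependent_iff_injective_aeval.1 hv h1)
  exact ⟨g, rfl⟩


/- Base change. -/
theorem YD.bc {k₁ : Type} [Field k₁] [Algebra k k₁] : YD G₀ (bcy k₁ y) := by
  refine ⟨fun g => ?_, fun π h => ?_⟩
  · unfold bcy
    rw [← MvPolynomial.map_rename, hY.inv]
  · unfold bcy at h
    rw [← MvPolynomial.map_rename] at h
    exact hY.stab π (bc_inj G h)

end

end Pool.Agent.N600.NS
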