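import Mathlib
import Pool.Agent.H84.L.A3_N600_NS_NtD
import Pool.Agent.H84.L.A3_N600_NS_NtE
import Pool.Agent.H84.L.A3_N600_NS_Sol
import Pool.Agent.H84.L.S8_H391R2_NtB
import Pool.Agent.H84.L.S8_H391R2_NtS
import Pool.Agent.H84.L.S8_H391R2_T4_Abs
import Pool.Agent.H84.L.S8_H391R2_T4_Nod
import Pool.Agent.H84.L.S8_H391R2_T4_NtD
import Pool.Agent.H84.L.S8_H391R2_T4_NtS
import Pool.Agent.H84.L.S8_H391R2_T4_Phi
import Pool.Agent.H84.L.S8_H391R2_T4_Sem
import Pool.Agent.H84.L.S8_H391R2_T4_Sol
import Pool.Agent.H84.L.S8_H391R2_WrSol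
import Pool.Agent.H84.L.S8_H391R2_WrSym

namespace Pool.Agent.H391R2
end Pool.Agent.H391R2
namespace Pool.Agent.H391R2.T4
end Pool.Agent.H391R2.T4


/-!
# The class equation
-/

set_option autoImplicit false

namespace Pool.Agent.N600.NS

open MvPolynomial
open Pool.Agent.H391R2
open Pool.Agent.H391R2.T4

set_option linter.unusedSectionVars false

section ntf

variable {k : Type} [Field k] {G : Type} [Group G] [Fintype G] {G₀ : Subgroup G}
  {y : MvPolynomial G k}

/- Uniqueness of solutions from the first coordinate. -/
theorem uniq_of_y0 {K : Type} [Field K] [Algebra k K]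
    (P : Option (Fin (Fintype.card G)) → Polynomial K) (s : K) (v w : G → K)
    (hv : SolP y P s v) (hw : SolP y P s w)
    (hy : ∀ π : Equiv.Perm G, aeval (v ∘ π) y = aeval v y →
      ∃ g : G₀, π = Equiv.mulLeft (g : G)) : ∃ g : G₀, w = v ∘ Equiv.mulLeft (g : G) := by
  obtain ⟨π, rfl⟩ := exists_perm_of_esymm (k := k) v w (fun i => (hv (some i)).trans
    (hw (some i)).symm)
  obtain ⟨g, rfl⟩ := hy π ((hw none).trans (hv none).symm)
  exact ⟨g, rfl⟩

theorem class_eq [CharZero k] (hY : YD G₀ y) (hm3 : 3 ≤ Fintype.card G)
    (Ψ : Polynomial (MvPolynomial (Fin (Fintype.card G)) k))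
    (hΨ : Ψ.map ((aeval fun i : Fin (Fintype.card G) => esymm G k (i + 1) :
      MvPolynomial (Fin (Fintype.card G)) k →ₐ[k] MvPolynomial G k) :
      MvPolynomial (Fin (Fintype.card G)) k →+* MvPolynomial G k) =
      ∏ q ∈ orb y, (Polynomial.X - Polynomial.C q))
    (base corr : Option (Fin (Fintype.card G)) → Polynomial k) (w : Polynomial k) {n J : ℕ}
    (c₀ : k) (hc₀ : c₀ ≠ 0)
    (hdeg : ∀ (E : Type) [Field E] [Algebra k E]
      (θ : Option (Fin (Fintype.card G)) ⊕ Option (Fin (Fintype.card G)) → E) (x : E),
      (PhiP Ψ (path base corr w θ x)).natDegree = n + J ∧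
        (PhiP Ψ (path base corr w θ x)).leadingCoeff = algebraMap k E c₀)
    (z : Fin J → k) (hz : Function.Injective z) (hwz : ∀ a, Polynomial.aeval (z a) w = 0)
    (hw : ∀ (E : Type) [Field E] [Algebra k E] (s : E), Polynomial.aeval s w = 0 →
      ∃ a, s = algebraMap k E (z a))
    (l : G → k) (hl : Function.Injective l)
    (hbase : ∀ i : Fin (Fintype.card G), base (some i) =
      Polynomial.C (aeval l (esymm G k (i + 1))))
    {N : Type} [Field N] [Algebra k N]
    (θ : Option (Fin (Fintype.card G)) ⊕ Option (Fin (Fintype.card G)) → N)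
    (hθ : AlgebraicIndependent k θ) (hn : 2 ≤ n)
    (r : Fin n → N) (hr : Function.Injective r) (vv : Fin n → G → N)
    (hsol : ∀ i, Sol y (fun i => base i + corr i) w θ (r i) (vv i))
    (ν : Fin J → G → N) (hν : ∀ a, SolP y (fun i => (base i + corr i).map (algebraMap k N))
      (algebraMap k N (z a)) (ν a))
    (hνinj : ∀ a, Function.Injective (ν a))
    (hνy : ∀ a (π : Equiv.Perm G), aeval (ν a ∘ π) y = aeval (ν a) y →
      ∃ g : G₀, π = Equiv.mulLeft (g : G))
    (γ : N →ₐ[k] N) (hγθ : ∀ i, γ (θ i) = θ i) (σ : Equiv.Perm (Fin n)) (f : Fin n → G₀)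
    (hγ : ∀ i g, γ (vv i g) = vv (σ i) (f i * g))
    (e : Fin J → G₀) (hγν : ∀ a y, γ (ν a y) = ν a (e a * y)) :
    (∏ i, Abelianization.of (f i)) * ∏ a, Abelianization.of (e a) = 1 := by
  classical
  have hcN : CharZero N := charZero_of_injective_algebraMap (algebraMap k N).injective
  let K := AlgebraicClosure N
  have hcK : CharZero K := charZero_of_injective_algebraMap (algebraMap N K).injective
  -- extension of the automorphism
  obtain ⟨γK', hγK'⟩ := exists_ext (F := N) (E := K) ((algebraMap N K).comp (γ : N →+* N))
  have hγK'' : ∀ x : N, γK' (algebraMap N K x) = algebraMap N K (γ x) := hγK'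
  let γK : K →ₐ[k] K :=
    { γK' with
      commutes' := fun c => by
        change γK' (algebraMap k K c) = _
        rw [IsScalarTower.algebraMap_apply k N K, hγK'', γ.commutes] }
  have hγK : ∀ x : N, γK (algebraMap N K x) = algebraMap N K (γ x) := hγK'
  let ι : N →ₐ[k] K := IsScalarTower.toAlgHom k N K
  have hι : ∀ x, ι x = algebraMap N K x := fun x => rfl
  have hιinj : Function.Injective ι := ι.injective
  let θK : Option (Fin (Fintype.card G)) ⊕ Option (Fin (Fintype.card G)) → K := fun i => ι (θ i)
  have hθK : AlgebraicIndependent k θK := hθ.map' hιinj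
  let P : Option (Fin (Fintype.card G)) → Polynomial (Polynomial K) := fun i =>
    path base corr w (fun i => Polynomial.C (θK i)) Polynomial.X i
  have hPe : ∀ x : K, (fun i => (P i).map (Polynomial.evalRingHom x)) =
      path base corr w θK x := by
    intro x
    funext i
    let ev : Polynomial K →ₐ[k] K := (Polynomial.aeval (x : K)).restrictScalars k
    have h4 : (ev : Polynomial K →+* K) = Polynomial.evalRingHom x := by
      apply RingHom.ext
      intro p
      change Polynomial.aeval x p = _
      rw [Polynomial.coe_aeval_eq_eval]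
      rfl
    have h1 := path_map base corr w ev (fun i => Polynomial.C (θK i)) Polynomial.X i
    rw [h4] at h1
    rw [h1]
    have h5 : (ev ∘ fun i => Polynomial.C (θK i)) = θK := by
      funext i
      change Polynomial.aeval x (Polynomial.C (θK i)) = _
      simp
    have h6 : ev Polynomial.X = x := by
      change Polynomial.aeval x Polynomial.X = x
      simp
    rw [h5, h6]
  -- degree
  have hdegP : (PhiP Ψ P).natDegree = n + J ∧
      (PhiP Ψ P).leadingCoeff = Polynomial.C (algebraMap k K c₀) := by
    let R := FractionRing (Polynomial K)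
    have hinj : Function.Injective (algebraMap (Polynomial K) R) :=
      IsFractionRing.injective (Polynomial K) R
    let iR : Polynomial K →ₐ[k] R := IsScalarTower.toAlgHom k (Polynomial K) R
    have h1 := PhiP_map Ψ iR P
    have h2 : (fun i => (P i).map (iR : Polynomial K →+* R)) =
        path base corr w (fun i => iR (Polynomial.C (θK i))) (iR Polynomial.X) := by
      funext i
      exact path_map base corr w iR _ _ i
    rw [h2] at h1
    obtain ⟨h3, h4⟩ := hdeg R (fun i => iR (Polynomial.C (θK i))) (iR Polynomial.X)
    rw [← h1] at h3 h4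
    have hinj' : Function.Injective (iR : Polynomial K →+* R) := hinj
    refine ⟨?_, ?_⟩
    · rwa [Polynomial.natDegree_map_eq_of_injective hinj'] at h3
    · rw [Polynomial.leadingCoeff_map_of_injective hinj'] at h4
      apply hinj'
      rw [h4]
      exact (iR.commutes c₀).symm
  -- base solutions
  have hbaseK : ∀ (s : K) (v : G → K), SolP y (fun i => (base i).map (algebraMap k K)) s v →
      ∃ π : Equiv.Perm G, v = fun g => algebraMap k K (l (π g)) := by
    intro s v h
    obtain ⟨π, hπ⟩ := exists_perm_of_esymm (k := k) (fun g => algebraMap k K (l g)) v (fun i => by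
      have h3 := h (some i)
      change aeval v (esymm G k (i + 1)) =
        Polynomial.eval s ((base (some i)).map (algebraMap k K)) at h3
      rw [h3, hbase, Polynomial.map_C, Polynomial.eval_C]
      have h2 := comp_aeval_apply (f := l) (φ := Algebra.ofId k K) (esymm G k (i + 1))
      exact h2.symm)
    exact ⟨π, hπ⟩
  have hbaseinj : ∀ (s : K) (v : G → K), SolP y (fun i => (base i).map (algebraMap k K)) s v →
      Function.Injective v := by
    intro s v h
    obtain ⟨π, rfl⟩ := hbaseK s v h
    exact (algebraMap k K).injective.comp (hl.comp π.injective)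
  -- base points at one
  have hνK : ∀ a, SolP y (fun i => (base i + corr i).map (algebraMap k K))
      (algebraMap k K (z a)) (fun g => ι (ν a g)) := by
    intro a
    have h1 := SolP_map y ι _ _ _ (hν a)
    have h2 : (fun i => ((base i + corr i).map (algebraMap k N)).map (ι : N →+* K)) =
        fun i => (base i + corr i).map (algebraMap k K) := by
      funext i
      rw [Polynomial.map_map]
      congr 1
    rw [h2] at h1
    have h3 : ι (algebraMap k N (z a)) = algebraMap k K (z a) := ι.commutes _
    rw [h3] at h1
    exact h1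
  have hνKy : ∀ a (π : Equiv.Perm G), aeval ((fun g => ι (ν a g)) ∘ π) y =
      aeval (fun g => ι (ν a g)) y → ∃ g : G₀, π = Equiv.mulLeft (g : G) := by
    intro a π h
    apply hνy a π
    apply hιinj
    have h1 := comp_aeval_apply (f := ν a ∘ π) (φ := ι) y
    have h2 := comp_aeval_apply (f := ν a) (φ := ι) y
    rw [h1, h2]
    exact h
  have hstabw : ∀ (s : K) (v : G → K), Polynomial.aeval s w = 0 →
      SolP y (fun i => (base i + corr i).map (algebraMap k K)) s v → Function.Injective v := by
    intro s v hs h
    obtain ⟨a, rfl⟩ := hw K s hs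
    obtain ⟨g, rfl⟩ := uniq_of_y0 _ _ _ _ (hνK a) h (hνKy a)
    exact (hιinj.comp (hνinj a)).comp (Equiv.mulLeft (g : G)).injective
  -- enumeration
  let E := (finSumFinEquiv : Fin n ⊕ Fin J ≃ Fin (n + J))
  let t : Fin (n + J) → K := fun a => Sum.elim (fun i => ι (r i)) (fun a => algebraMap k K (z a))
    (E.symm a)
  let u : Fin (n + J) → G → K := fun a => Sum.elim (fun i g => ι (vv i g)) (fun a g => ι (ν a g))
    (E.symm a)
  let f' : Fin (n + J) → G₀ := fun a => Sum.elim f e (E.symm a)
  let σ' : Equiv.Perm (Fin (n + J)) := E.symm.trans ((Equiv.sumCongr σ (Equiv.refl _)).trans E)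
  have hpath1 : path base corr w θK 1 = fun i => fam G (fun i => base i + corr i) w θK i := by
    funext i
    exact path_one base corr w θK i
  have hsolK : ∀ i, Sol y (fun i => base i + corr i) w θK (ι (r i)) (fun g => ι (vv i g)) := by
    intro i
    exact (Sol_map y (fun i => base i + corr i) w ι hιinj θ (r i) (vv i)).2 (hsol i)
  have hrz : ∀ i a, ι (r i) ≠ algebraMap k K (z a) := by
    intro i a h
    apply (hsolK i).1
    rw [h, Polynomial.aeval_algebraMap_apply, hwz, map_zero]
  have hE : ∀ a, ∃ b, a = E b := fun a => ⟨E.symm a, (E.apply_symm_apply a).symm⟩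
  have htE : ∀ b, t (E b) = Sum.elim (fun i => ι (r i)) (fun a => algebraMap k K (z a)) b := by
    intro b
    simp only [t, Equiv.symm_apply_apply]
  have huE : ∀ b, u (E b) = Sum.elim (fun i g => ι (vv i g)) (fun a g => ι (ν a g)) b := by
    intro b
    simp only [u, Equiv.symm_apply_apply]
  have hfE : ∀ b, f' (E b) = Sum.elim f e b := by
    intro b
    simp only [f', Equiv.symm_apply_apply]
  have hσE : ∀ b, σ' (E b) = E (Equiv.sumCongr σ (Equiv.refl _) b) := by
    intro b
    simp only [σ', Equiv.trans_apply, Equiv.symm_apply_apply]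
  have hvind : ∀ i, AlgebraicIndependent k (fun g => ι (vv i g)) := by
    intro i
    obtain ⟨j, hj⟩ : ∃ j : Fin n, j ≠ i := by
      have : Nontrivial (Fin n) := Fin.nontrivial_iff_two_le.2 hn
      exact exists_ne i
    exact indep_v y (fun i => base i + corr i) w θK hθK (ι (r i)) _ (ι (r j)) _ (hsolK i) (hsolK j)
      (fun h => hj (hr (hιinj h)).symm)
  have hmain := norm_theorem G₀ y Ψ hΨ P (D := n + J) (algebraMap k K c₀)
    ((map_ne_zero_iff _ (algebraMap k K).injective).2 hc₀) hdegP.1 hdegP.2
    (fun x s v h g hg => by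
      rw [hPe x] at h
      refine Subtype.ext (stab_path y hm3 base corr w θK hθK (fun s hs => by
        obtain ⟨a, ha⟩ := hw K s hs
        exact ⟨z a, ha⟩) hbaseinj hstabw x s v h g hg))
    γK (fun i => by
      let mγ : Polynomial K →ₐ[k] Polynomial K := Polynomial.mapAlgHom γK
      have h1 := path_map base corr w mγ (fun i => Polynomial.C (θK i)) Polynomial.X i
      have h2 : (mγ : Polynomial K →+* Polynomial K) = Polynomial.mapRingHom (γK : K →+* K) := rfl
      rw [h2] at h1
      change (path base corr w (fun i => Polynomial.C (θK i)) Polynomial.X i).map _ = _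
      rw [h1]
      have h3 : (mγ ∘ fun i => Polynomial.C (θK i)) = fun i => Polynomial.C (θK i) := by
        funext i
        change (Polynomial.C (θK i)).map (γK : K →+* K) = _
        rw [Polynomial.map_C]
        congr 1
        change γK (algebraMap N K (θ i)) = _
        rw [hγK, hγθ]
        rfl
      have h4 : mγ Polynomial.X = Polynomial.X := by
        change (Polynomial.X).map (γK : K →+* K) = _
        rw [Polynomial.map_X]
      rw [h3, h4])
    (fun s v h g => by
      rw [hPe 0] at h
      have h1 : path base corr w θK 0 = fun i => (base i).map (algebraMap k K) :=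
        funext fun i => path_zero base corr w θK i
      rw [h1] at h
      obtain ⟨π, rfl⟩ := hbaseK s v h
      exact γK.commutes _)
    t (by
      intro a b hab
      obtain ⟨a, rfl⟩ := hE a
      obtain ⟨b, rfl⟩ := hE b
      rw [htE, htE] at hab
      congr 1
      rcases a with a | a <;> rcases b with b | b
      · exact congrArg _ (hr (hιinj hab))
      · exact absurd hab (hrz a b)
      · exact absurd hab.symm (hrz b a)
      · exact congrArg _ (hz ((algebraMap k K).injective hab)))
    u (by
      intro a
      obtain ⟨a, rfl⟩ := hE a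
      rw [htE, huE, hPe 1, hpath1]
      rcases a with a | a
      · exact (hsolK a).2
      · intro i
        rw [Sum.elim_inr, Sum.elim_inr, hνK a i, fam_eval, Polynomial.aeval_algebraMap_apply _ _ w,
          hwz, map_zero, zero_mul, add_zero]
        rw [Polynomial.eval_map_algebraMap])
    (by
      intro a
      obtain ⟨a, rfl⟩ := hE a
      rw [huE]
      rcases a with a | a
      · exact (hvind a).injective
      · exact hιinj.comp (hνinj a))
    (by
      intro a v h
      obtain ⟨a, rfl⟩ := hE a
      rw [htE, hPe 1, hpath1] at h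
      rw [huE]
      rcases a with a | a
      · exact unique_v hY (fun i => base i + corr i) w θK (ι (r a)) _ v (hvind a) (hsolK a)
          ⟨(hsolK a).1, h⟩
      · refine uniq_of_y0 (fun i => (base i + corr i).map (algebraMap k K))
          (algebraMap k K (z a)) _ v (hνK a) ?_ (hνKy a)
        intro i
        have h1 := h i
        rw [Sum.elim_inr, fam_eval, Polynomial.aeval_algebraMap_apply _ _ w,
          hwz, map_zero, zero_mul, add_zero] at h1
        rw [h1, Polynomial.eval_map_algebraMap])
    σ' f' (by
      intro a g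
      obtain ⟨a, rfl⟩ := hE a
      rw [hσE, huE, huE, hfE]
      rcases a with a | a
      · change γK (algebraMap N K (vv a g)) = algebraMap N K (vv (σ a) (f a * g))
        rw [hγK, hγ]
      · change γK (algebraMap N K (ν a g)) = algebraMap N K (ν a (e a * g))
        rw [hγK, hγν])
  rw [← Equiv.prod_comp E, Fintype.prod_sum_type] at hmain
  simp only [hfE, Sum.elim_inl, Sum.elim_inr] at hmain
  exact hmain

end ntf


end Pool.Agent.N600.NS
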