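import Mathlib
import Pool.Agent.H84.L.A3_N600_NS_NtD
import Pool.Agent.H84.L.A3_N600_NS_NtE
import Pool.Agent.H84.L.A3_N600_NS_NtF
import Pool.Agent.H84.L.S8_H391R2_T4_Abs
import Pool.Agent.H84.L.S8_H391R2_T4_Cfg
import Pool.Agent.H84.L.S8_H391R2_T4_Deg
import Pool.Agent.H84.L.S8_H391R2_T4_NtD
import Pool.Agent.H84.L.S8_H391R2_T4_NtE
import Pool.Agent.H84.L.S8_H391R2_T4_NtF
import Pool.Agent.H84.L.S8_H391R2_T4_NtS
import Pool.Agent.H84.L.S8_H391R2_T4_Phi
import Pool.Agent.H84.L.S8_H391R2_T4_Sol
import Pool.Agent.H84.L.S8_H391R2_WrSol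

namespace Pool.Agent.H391R2
end Pool.Agent.H391R2
namespace Pool.Agent.H391R2.T4
end Pool.Agent.H391R2.T4


/-!
# Tuples with given values at the nodes
-/

set_option autoImplicit false

namespace Pool.Agent.N600.NS

open MvPolynomial
open Pool.Agent.H391R2
open Pool.Agent.H391R2.T4

set_option linter.unusedSectionVars false

section pa

variable {k : Type} [Field k] {G : Type} [Group G] [Fintype G] (y : MvPolynomial G k)
variable {A : Type} [Fintype A] [DecidableEq A]

/- The numerical data of the construction. -/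
structure DB (k G A : Type) [Field k] where
  l : G → k
  c : k
  R : Polynomial k
  nd : A → k
  w : Polynomial k

/- The properties of the data. -/
structure DG (y : MvPolynomial G k) (d : DB k G A) : Prop where
  hl : Function.Injective d.l
  hδ : ∀ q ∈ orb y, q ≠ y → aeval d.l q - aeval d.l y ≠ 0
  hc : d.c ≠ 0
  hR : d.R.Monic
  hR0 : d.R.eval 0 ≠ 0
  hnd : Function.Injective d.nd
  hndR : ∀ a, d.R.eval (d.nd a) = 0
  hw : d.w = ∏ a, (Polynomial.X - Polynomial.C (d.nd a))

/- The tuple of polynomials, over any algebra. -/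
noncomputable def PA (d : DB k G A) {E : Type} [CommRing E] [Algebra k E] (ν : A → G → E) (t : E)
    (θ : Option (Fin (Fintype.card G)) ⊕ Option (Fin (Fintype.card G)) → E)
    (i : Option (Fin (Fintype.card G))) : Polynomial E :=
  bsT y d.l (Polynomial.C (algebraMap k E d.c) *
    ((Polynomial.X ^ 2 - Polynomial.C t) * d.R.map (algebraMap k E))) i +
  (∑ a : A, Polynomial.C (aeval (ν a) (tv y i) - algebraMap k E (aeval d.l (tv y i))) *
    (Lagrange.basis Finset.univ d.nd a).map (algebraMap k E)) +
  d.w.map (algebraMap k E) *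
    (Polynomial.C (θ (Sum.inl i)) + Polynomial.C (θ (Sum.inr i)) * Polynomial.X)

theorem PA_map (d : DB k G A) {E E' : Type} [CommRing E] [Algebra k E] [CommRing E']
    [Algebra k E'] (f : E →ₐ[k] E') (ν : A → G → E) (t : E)
    (θ : Option (Fin (Fintype.card G)) ⊕ Option (Fin (Fintype.card G)) → E)
    (i : Option (Fin (Fintype.card G))) :
    (PA y d ν t θ i).map (f : E →+* E') =
      PA y d (fun a x => f (ν a x)) (f t) (fun j => f (θ j)) i := by
  have h : (f : E →+* E').comp (algebraMap k E) = algebraMap k E' := f.comp_algebraMap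
  have h' : ∀ x, (f : E →+* E') (algebraMap k E x) = algebraMap k E' x := f.commutes
  unfold PA
  rw [Polynomial.map_add, Polynomial.map_add, bsT_map, Polynomial.map_sum]
  simp only [Polynomial.map_mul, Polynomial.map_sub, Polynomial.map_pow, Polynomial.map_X,
    Polynomial.map_C, Polynomial.map_map, Polynomial.map_add, h, h', map_sub]
  congr 2
  refine Finset.sum_congr rfl fun a _ => ?_
  have h3 : (f : E →+* E') (aeval (ν a) (tv y i)) = aeval (fun x => f (ν a x)) (tv y i) :=
    comp_aeval_apply (f := ν a) (φ := f) (tv y i)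
  rw [h3]

variable {y} {d : DB k G A}

theorem DG.nd0 (h : DG y d) (a : A) : d.nd a ≠ 0 := by
  intro h0
  apply h.hR0
  have := h.hndR a
  rwa [h0] at this

theorem w_evalA (h : DG y d) {E : Type} [CommRing E] [Algebra k E] (a : A) :
    (d.w.map (algebraMap k E)).eval (algebraMap k E (d.nd a)) = 0 := by
  rw [Polynomial.eval_map_apply, h.hw, Polynomial.eval_prod,
    Finset.prod_eq_zero (Finset.mem_univ a) (by simp), map_zero]

theorem w_rootA (h : DG y d) {E : Type} [Field E] [Algebra k E] (s : E)
    (hs : Polynomial.aeval s d.w = 0) : ∃ a, s = algebraMap k E (d.nd a) := by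
  rw [h.hw, map_prod, Finset.prod_eq_zero_iff] at hs
  obtain ⟨a, -, ha⟩ := hs
  refine ⟨a, ?_⟩
  simpa [sub_eq_zero] using ha

theorem bsT_nodeA (h : DG y d) {E : Type} [CommRing E] [Algebra k E] (t : E)
    (i : Option (Fin (Fintype.card G))) (a : A) :
    (bsT y d.l (Polynomial.C (algebraMap k E d.c) *
    ((Polynomial.X ^ 2 - Polynomial.C t) * d.R.map (algebraMap k E))) i).eval
      (algebraMap k E (d.nd a)) = algebraMap k E (aeval d.l (tv y i)) := by
  have h1 : (d.R.map (algebraMap k E)).eval (algebraMap k E (d.nd a)) = 0 := by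
    rw [Polynomial.eval_map_apply, h.hndR, map_zero]
  cases i with
  | none =>
    simp only [bsT, tv, Polynomial.eval_add, Polynomial.eval_mul, Polynomial.eval_C, h1, mul_zero,
      add_zero]
  | some i => simp only [bsT, tv, Polynomial.eval_C]

theorem corr_nodeA (h : DG y d) {E : Type} [CommRing E] [Algebra k E] (z : A → E)
    (a : A) : (∑ q : A, Polynomial.C (z q) *
    (Lagrange.basis Finset.univ d.nd q).map (algebraMap k E)).eval
      (algebraMap k E (d.nd a)) = z a := by
  rw [Polynomial.eval_finsetSum, Finset.sum_eq_single a]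
  · rw [Polynomial.eval_mul, Polynomial.eval_C, Polynomial.eval_map_apply,
      Lagrange.eval_basis_self h.hnd.injOn (Finset.mem_univ _), map_one, mul_one]
  · intro q _ hq
    rw [Polynomial.eval_mul, Polynomial.eval_C, Polynomial.eval_map_apply,
      Lagrange.eval_basis_of_ne hq (Finset.mem_univ _), map_zero, mul_zero]
  · intro h0
    exact absurd (Finset.mem_univ a) h0

theorem PA_node (h : DG y d) {E : Type} [CommRing E] [Algebra k E] (ν : A → G → E) (t : E)
    (θ : Option (Fin (Fintype.card G)) ⊕ Option (Fin (Fintype.card G)) → E) (a : A) :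
    SolP y (PA y d ν t θ) (algebraMap k E (d.nd a)) (ν a) := by
  intro i
  unfold PA
  rw [Polynomial.eval_add, Polynomial.eval_add, bsT_nodeA h, corr_nodeA h,
    Polynomial.eval_mul, w_evalA h, zero_mul, add_zero]
  ring

theorem lagrangeA_natDegree (h : DG y d) (a : A) :
    (Lagrange.basis Finset.univ d.nd a).natDegree ≤ Fintype.card A := by
  have h1 := Lagrange.degree_basis (h.hnd.injOn) (Finset.mem_univ a)
  rw [Polynomial.natDegree_eq_of_degree_eq_some h1, Finset.card_univ]
  omega

theorem w_natDegreeA (h : DG y d) : d.w.natDegree ≤ Fintype.card A := by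
  rw [h.hw]
  refine (Polynomial.natDegree_prod_le _ _).trans ?_
  simp

theorem mv_natDegreeA {J : ℕ} {E : Type} [CommRing E] (w : Polynomial E) (hw : w.natDegree ≤ J)
    (a b : E) :
    (w * (Polynomial.C a + Polynomial.C b * Polynomial.X)).natDegree ≤ J + 1 := by
  refine Polynomial.natDegree_mul_le.trans (Nat.add_le_add hw ?_)
  compute_degree

theorem PA_deg (h : DG y d) {E : Type} [CommRing E] [IsDomain E] [Algebra k E]
    (ν : A → G → E) (t : E)
    (θ : Option (Fin (Fintype.card G)) ⊕ Option (Fin (Fintype.card G)) → E)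
    (M : ℕ) (hM : 2 + d.R.natDegree = M) (hJ : Fintype.card A + 1 < M) :
    (∀ i, (PA y d ν t θ (some i)).natDegree ≤ Fintype.card A + 1) ∧
    (PA y d ν t θ none).natDegree = M ∧
    (PA y d ν t θ none).leadingCoeff = algebraMap k E d.c := by
  have hsum : ∀ i, (∑ a : A, Polynomial.C (aeval (ν a) (tv y i) -
      algebraMap k E (aeval d.l (tv y i))) *
      (Lagrange.basis Finset.univ d.nd a).map (algebraMap k E)).natDegree ≤
      Fintype.card A + 1 := by
    intro i
    apply Polynomial.natDegree_sum_le_of_forall_le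
    intro q _
    refine (Polynomial.natDegree_C_mul_le _ _).trans (Polynomial.natDegree_map_le.trans ?_)
    exact (lagrangeA_natDegree h _).trans (Nat.le_succ _)
  have hmv : ∀ i, (d.w.map (algebraMap k E) *
      (Polynomial.C (θ (Sum.inl i)) + Polynomial.C (θ (Sum.inr i)) * Polynomial.X)).natDegree ≤
      Fintype.card A + 1 := fun i => mv_natDegreeA _
        (Polynomial.natDegree_map_le.trans (w_natDegreeA h)) _ _
  obtain ⟨h1, h2⟩ := Qt_deg (E := E) d.c h.hc d.R h.hR M hM t
  refine ⟨fun i => ?_, ?_⟩
  · unfold PA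
    refine (Polynomial.natDegree_add_le _ _).trans (max_le ((Polynomial.natDegree_add_le _ _).trans
      (max_le ?_ (hsum _))) (hmv _))
    simp only [bsT, Polynomial.natDegree_C]
    exact Nat.zero_le _
  · have h3 : PA y d ν t θ none = (Polynomial.C (algebraMap k E (aeval d.l y)) +
        (∑ a : A, Polynomial.C (aeval (ν a) (tv y none) -
          algebraMap k E (aeval d.l (tv y none))) *
        (Lagrange.basis Finset.univ d.nd a).map (algebraMap k E)) +
        d.w.map (algebraMap k E) *
        (Polynomial.C (θ (Sum.inl none)) + Polynomial.C (θ (Sum.inr none)) * Polynomial.X)) +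
        Polynomial.C (algebraMap k E d.c) * ((Polynomial.X ^ 2 - Polynomial.C t) *
        d.R.map (algebraMap k E)) := by
      unfold PA
      simp only [bsT]
      ring
    have h4 : (Polynomial.C (algebraMap k E (aeval d.l y)) +
        (∑ a : A, Polynomial.C (aeval (ν a) (tv y none) -
          algebraMap k E (aeval d.l (tv y none))) *
        (Lagrange.basis Finset.univ d.nd a).map (algebraMap k E)) +
        d.w.map (algebraMap k E) *
        (Polynomial.C (θ (Sum.inl none)) + Polynomial.C (θ (Sum.inr none)) *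
          Polynomial.X)).natDegree < M := by
      refine lt_of_le_of_lt ?_ hJ
      refine (Polynomial.natDegree_add_le _ _).trans
        (max_le ((Polynomial.natDegree_add_le _ _).trans
        (max_le ?_ (hsum _))) (hmv _))
      rw [Polynomial.natDegree_C]
      exact Nat.zero_le _
    obtain ⟨h5, h6⟩ := lead_aux _ _ M h1 h4
    rw [h3]
    exact ⟨h5, h6.trans h2⟩

end pa

section fam

variable {k : Type} [Field k] {G : Type} [Group G] [Fintype G]
variable (y : MvPolynomial G k) {A : Type} [Fintype A] [DecidableEq A]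

/- The correction over the field of the parameters. -/
noncomputable def corrA (d : DB k G A) {k₁ : Type} [Field k₁] [Algebra k k₁]
    (kc : A → Option (Fin (Fintype.card G)) → k₁) (i : Option (Fin (Fintype.card G))) :
    Polynomial k₁ :=
  ∑ a : A, Polynomial.C (kc a i - algebraMap k k₁ (aeval d.l (tv y i))) *
    (Lagrange.basis Finset.univ d.nd a).map (algebraMap k k₁)

/- The base over the field of the parameters. -/
noncomputable def baseA (d : DB k G A) {k₁ : Type} [Field k₁] [Algebra k k₁] (t : k₁)
    (i : Option (Fin (Fintype.card G))) : Polynomial k₁ :=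
  bsT y d.l (Polynomial.C (algebraMap k k₁ d.c) *
    ((Polynomial.X ^ 2 - Polynomial.C t) * d.R.map (algebraMap k k₁))) i

theorem fam_PA (d : DB k G A) {k₁ : Type} [Field k₁] [Algebra k k₁] (t : k₁)
    (kc : A → Option (Fin (Fintype.card G)) → k₁) {E : Type} [Field E] [Algebra k E]
    [Algebra k₁ E] [IsScalarTower k k₁ E] (ν : A → G → E)
    (hY : ∀ a i, algebraMap k₁ E (kc a i) = aeval (ν a) (tv y i))
    (θ : Option (Fin (Fintype.card G)) ⊕ Option (Fin (Fintype.card G)) → E)
    (i : Option (Fin (Fintype.card G))) :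
    fam G (fun i => baseA y d t i + corrA y d kc i) (d.w.map (algebraMap k k₁)) θ i =
      PA y d ν (algebraMap k₁ E t) θ i := by
  have hT : (algebraMap k₁ E).comp (algebraMap k k₁) = algebraMap k E :=
    (IsScalarTower.algebraMap_eq k k₁ E).symm
  have hT' : ∀ x, algebraMap k₁ E (algebraMap k k₁ x) = algebraMap k E x := fun x =>
    (IsScalarTower.algebraMap_apply k k₁ E x).symm
  unfold fam PA baseA corrA
  have h1 := bsT_map y (IsScalarTower.toAlgHom k k₁ E) d.l (Polynomial.C (algebraMap k k₁ d.c) *
    ((Polynomial.X ^ 2 - Polynomial.C t) * d.R.map (algebraMap k k₁))) i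
  have h2 : ((IsScalarTower.toAlgHom k k₁ E : k₁ →ₐ[k] E) : k₁ →+* E) = algebraMap k₁ E := rfl
  rw [h2] at h1
  rw [Polynomial.map_add, h1, Polynomial.map_sum]
  simp only [Polynomial.map_mul, Polynomial.map_sub, Polynomial.map_pow, Polynomial.map_X,
    Polynomial.map_C, Polynomial.map_map, hT, hT', hY, map_sub]

theorem corrA_natDegree {d : DB k G A} (h : DG y d) {k₁ : Type} [Field k₁] [Algebra k k₁]
    (kc : A → Option (Fin (Fintype.card G)) → k₁) (i : Option (Fin (Fintype.card G))) :
    (corrA y d kc i).natDegree ≤ Fintype.card A := by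
  unfold corrA
  apply Polynomial.natDegree_sum_le_of_forall_le
  intro q _
  refine (Polynomial.natDegree_C_mul_le _ _).trans
    (Polynomial.natDegree_map_le.trans ?_)
  exact lagrangeA_natDegree h _

end fam

end Pool.Agent.N600.NS
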