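import Mathlib
import Pool.Agent.H84.L.A3_N600_NS_NtD
import Pool.Agent.H84.L.A3_N600_NS_NtE
import Pool.Agent.H84.L.A3_N600_NS_NtF
import Pool.Agent.H84.L.A3_N600_NS_Sol
import Pool.Agent.H84.L.S8_H391R2_T4_NtD
import Pool.Agent.H84.L.S8_H391R2_T4_NtE
import Pool.Agent.H84.L.S8_H391R2_T4_NtF
import Pool.Agent.H84.L.S8_H391R2_T4_NtS
import Pool.Agent.H84.L.S8_H391R2_T4_Phi
import Pool.Agent.H84.L.S8_H391R2_T4_Sem
import Pool.Agent.H84.L.S8_H391R2_T4_Sol
import Pool.Agent.H84.L.S8_H391R2_WrGrp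

namespace Pool.Agent.H391R2
end Pool.Agent.H391R2
namespace Pool.Agent.H391R2.T4
end Pool.Agent.H391R2.T4


/-!
# The group of a family
-/

set_option autoImplicit false

namespace Pool.Agent.N600.NS

open MvPolynomial
open Pool.Agent.H391R2
open Pool.Agent.H391R2.T4

set_option linter.unusedSectionVars false

section abs

variable {k : Type} [Field k] {G : Type} [Group G] [Fintype G] {G₀ : Subgroup G}
  {y : MvPolynomial G k} (hY : YD G₀ y)
variable (base : Option (Fin (Fintype.card G)) → Polynomial k) (w : Polynomial k)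

include hY in
theorem main_abs {F N : Type} [Field F] [Field N] [Algebra k F] [Algebra k N]
    [Algebra (MvPolynomial
      (Option (Fin (Fintype.card G)) ⊕ Option (Fin (Fintype.card G))) k) F]
    [IsScalarTower k (MvPolynomial
      (Option (Fin (Fintype.card G)) ⊕ Option (Fin (Fintype.card G))) k) F]
    [IsFractionRing (MvPolynomial
      (Option (Fin (Fintype.card G)) ⊕ Option (Fin (Fintype.card G))) k) F]
    [Algebra F N] [IsScalarTower k F N] [Normal F N]
    (θ : Option (Fin (Fintype.card G)) ⊕ Option (Fin (Fintype.card G)) → N)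
    (hθ : AlgebraicIndependent k θ)
    (hθF : ∀ i, θ i = algebraMap F N (algebraMap (MvPolynomial
      (Option (Fin (Fintype.card G)) ⊕ Option (Fin (Fintype.card G))) k) F (MvPolynomial.X i)))
    (n : ℕ) (hn : 3 ≤ n) (r : Fin n → N) (hr : Function.Injective r) (vv : Fin n → G → N)
    (hsol : ∀ i, Sol y base w θ (r i) (vv i))
    (hall : ∀ s v, Sol y base w θ s v → ∃ i, s = r i)
    (τ : N ≃ₐ[F] N) (k₁ k₂ : Fin n) (hk : k₁ ≠ k₂) (hτ1 : τ (r k₁) = r k₂) (hτ2 : τ (r k₂) = r k₁)
    (hτv : ∀ g, τ (τ (vv k₁ g)) = vv k₁ g)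
    (hτr : ∀ i, i ≠ k₁ → i ≠ k₂ → τ (r i) = r i ∧ ∀ g, τ (vv i g) = vv i g) :
    ∃ π : (N ≃ₐ[F] N) →* Wr G₀ n, (∀ x : Wr G₀ n, ∏ i, Abelianization.of (x.left i) = 1 →
      x ∈ π.range) ∧ ∀ γ i, γ (r i) = r ((π γ).right i) ∧
        ∀ g, γ (vv i g) = vv ((π γ).right i) ((π γ).left ((π γ).right i) * g) := by
  classical
  have hn1 : Nontrivial (Fin n) := Fin.nontrivial_iff_two_le.2 (by omega)
  have hvind : ∀ i, AlgebraicIndependent k (vv i) := by
    intro i
    obtain ⟨j, hj⟩ := exists_ne i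
    exact indep_v y base w θ hθ (r i) (vv i) (r j) (vv j) (hsol i) (hsol j)
      (fun h => hj (hr h).symm)
  have hvinj : ∀ i, Function.Injective (vv i) := fun i => (hvind i).injective
  have hsolmap : ∀ (γ : N ≃ₐ[F] N) s v, Sol y base w θ s v → Sol y base w θ (γ s) (γ ∘ v) := by
    intro γ s v h
    have h1 := (Sol_map y base w ((γ : N →ₐ[F] N).restrictScalars k)
      (γ.injective) θ s v).2 h
    have h2 : ((γ : N →ₐ[F] N).restrictScalars k) ∘ θ = θ := by
      funext i
      change γ (θ i) = θ i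
      rw [hθF, AlgEquiv.commutes]
    rw [h2] at h1
    exact h1
  -- the relation
  let Rel : (N ≃ₐ[F] N) → Wr G₀ n → Prop := fun γ x =>
    ∀ i, γ (r i) = r (x.right i) ∧ ∀ g, γ (vv i g) = vv (x.right i) (x.left (x.right i) * g)
  have hex : ∀ γ, ∃ x, Rel γ x := by
    intro γ
    have h1 : ∀ i, ∃ j : Fin n, ∃ g : G₀, γ (r i) = r j ∧ ∀ h, γ (vv i h) = vv j (g * h) := by
      intro i
      have h2 := hsolmap γ _ _ (hsol i)
      obtain ⟨j, hj⟩ := hall _ _ h2
      have h3 := hsol j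
      rw [← hj] at h3
      obtain ⟨g, hg⟩ := unique_v hY base w θ (γ (r i)) (vv j) (γ ∘ vv i) (hvind j) h3 h2
      exact ⟨j, g, hj, fun h => congrFun hg h⟩
    choose σ g h2 h3 using h1
    have hσ : Function.Injective σ := by
      intro i j hij
      apply hr
      apply γ.injective
      rw [h2, h2, hij]
    let σ' : Equiv.Perm (Fin n) := Equiv.ofBijective σ (Finite.injective_iff_bijective.1 hσ)
    refine ⟨⟨fun j => g (σ'.symm j), σ'⟩, fun i => ⟨h2 i, fun h => ?_⟩⟩
    change γ (vv i h) = vv (σ' i) (g (σ'.symm (σ' i)) * h)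
    rw [Equiv.symm_apply_apply]
    exact h3 i h
  have huniq : ∀ γ x y, Rel γ x → Rel γ y → x = y := by
    intro γ x y hx hy
    have h1 : x.right = y.right := by
      apply Equiv.ext
      intro i
      apply hr
      rw [← (hx i).1, ← (hy i).1]
    apply SemidirectProduct.ext _ h1
    funext j
    obtain ⟨i, rfl⟩ := x.right.surjective j
    have h2 := (hx i).2 1
    have h3 := (hy i).2 1
    rw [h2, ← h1, mul_one, mul_one] at h3
    exact Subtype.ext (hvinj _ h3)
  have hmul : ∀ γ γ' x x', Rel γ x → Rel γ' x' → Rel (γ' * γ) (x' * x) := by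
    intro γ γ' x x' hx hx' i
    refine ⟨?_, fun g => ?_⟩
    · rw [AlgEquiv.mul_apply, (hx i).1, (hx' _).1]
      rfl
    · rw [AlgEquiv.mul_apply, (hx i).2, (hx' _).2, wr_mul_left, wr_mul_right]
      change _ = vv (x'.right (x.right i)) (x'.left (x'.right (x.right i)) *
        x.left (x'.right⁻¹ (x'.right (x.right i))) * g)
      have h1 : x'.right⁻¹ (x'.right (x.right i)) = x.right i := by simp
      rw [h1, mul_assoc]
  choose Pf hPf using hex
  let π : (N ≃ₐ[F] N) →* Wr G₀ n := MonoidHom.mk' Pf (fun γ' γ =>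
    huniq _ _ _ (hPf _) (hmul γ γ' _ _ (hPf γ) (hPf γ')))
  have hπ : ∀ γ, Rel γ (π γ) := hPf
  refine ⟨π, ?_, hπ⟩
  have h2 : ∀ a b a' b' : Fin n, a ≠ b → a' ≠ b' → ∀ g h : G₀, ∃ x ∈ π.range,
      x.right a = a' ∧ x.right b = b' ∧ x.left a' = g ∧ x.left b' = h := by
    intro a b a' b' hab hab' g h
    obtain ⟨γ, e1, e2, e3, e4⟩ := pair_aut y base w θ hθ hθF (r a) (vv a) (r b) (vv b)
      (hsol a) (hsol b) (fun h => hab (hr h)) (r a') (vv a' ∘ Equiv.mulLeft (g : G)) (r b')
      (vv b' ∘ Equiv.mulLeft (h : G)) (Sol_mulLeft hY base w θ _ _ g (hsol a'))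
      (Sol_mulLeft hY base w θ _ _ h (hsol b')) (fun h => hab' (hr h))
    have h5 : (π γ).right a = a' := hr (by rw [← (hπ γ a).1, e1])
    have h6 : (π γ).right b = b' := hr (by rw [← (hπ γ b).1, e3])
    refine ⟨π γ, ⟨γ, rfl⟩, h5, h6, ?_, ?_⟩
    · have h7 := (hπ γ a).2 1
      rw [e2, h5] at h7
      have h8 := hvinj _ h7
      simpa using h8.symm
    · have h7 := (hπ γ b).2 1
      rw [e4, h6] at h7
      have h8 := hvinj _ h7
      simpa using h8.symm
  have hτright : (π τ).right = Equiv.swap k₁ k₂ := by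
    apply Equiv.ext
    intro i
    by_cases hi1 : i = k₁
    · subst hi1
      rw [Equiv.swap_apply_left]
      exact hr (by rw [← (hπ τ _).1, hτ1])
    · by_cases hi2 : i = k₂
      · subst hi2
        rw [Equiv.swap_apply_right]
        exact hr (by rw [← (hπ τ _).1, hτ2])
      · rw [Equiv.swap_apply_of_ne_of_ne hi1 hi2]
        exact hr (by rw [← (hπ τ _).1, (hτr i hi1 hi2).1])
  have hτleft : ∀ i, i ≠ k₁ → i ≠ k₂ → (π τ).left i = 1 := by
    intro i hi1 hi2
    have h3 := (hπ τ i).2 1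
    rw [(hτr i hi1 hi2).2, hτright, Equiv.swap_apply_of_ne_of_ne hi1 hi2] at h3
    have h4 := hvinj _ h3
    simpa using h4.symm
  have hτa : (π τ).left k₁ * (π τ).left k₂ = 1 := by
    have h3 := hτv 1
    rw [(hπ τ k₁).2 1, hτright, Equiv.swap_apply_left, (hπ τ k₂).2, hτright,
      Equiv.swap_apply_right] at h3
    have h4 := hvinj _ h3
    apply Subtype.ext
    simpa using h4
  have hτsq : π τ * π τ = 1 := by
    apply SemidirectProduct.ext
    · funext i
      rw [wr_mul_left, hτright, Equiv.swap_inv]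
      change _ = (1 : G₀)
      by_cases hi1 : i = k₁
      · subst hi1
        rw [Equiv.swap_apply_left, hτa]
      · by_cases hi2 : i = k₂
        · subst hi2
          rw [Equiv.swap_apply_right]
          exact mul_eq_one_comm.1 hτa
        · rw [Equiv.swap_apply_of_ne_of_ne hi1 hi2, hτleft i hi1 hi2, mul_one]
    · rw [wr_mul_right, hτright, Equiv.swap_mul_self]
      rfl
  exact fun x hx => wr_gen hn π.range (fun a b hab u => wr_conj π.range h2 k₁ k₂ hk (π τ)
    ⟨τ, rfl⟩ hτright hτleft hτsq a b hab u) x hx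

end abs


end Pool.Agent.N600.NS
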