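import Mathlib
import Pool.Agent.H84.L.A3_N600_NS_Sol
import Pool.Agent.H84.L.S8_H391R2_T4_Abs
import Pool.Agent.H84.L.S8_H391R2_T4_Dft
import Pool.Agent.H84.L.S8_H391R2_T4_Fam
import Pool.Agent.H84.L.S8_H391R2_T4_Nod
import Pool.Agent.H84.L.S8_H391R2_T4_NtD
import Pool.Agent.H84.L.S8_H391R2_T4_NtE
import Pool.Agent.H84.L.S8_H391R2_T4_NtF
import Pool.Agent.H84.L.S8_H391R2_T4_NtS
import Pool.Agent.H84.L.S8_H391R2_T4_Phi
import Pool.Agent.H84.L.S8_H391R2_T4_Sem
import Pool.Agent.H84.L.S8_H391R2_T4_Sol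

namespace Pool.Agent.H391R2
end Pool.Agent.H391R2
namespace Pool.Agent.H391R2.T4
end Pool.Agent.H391R2.T4


/-!
# Twisted vectors with generic coefficients
-/

set_option autoImplicit false

namespace Pool.Agent.N600.NS

open MvPolynomial
open Pool.Agent.H391R2
open Pool.Agent.H391R2.T4

set_option linter.unusedSectionVars false

section nv

variable {k : Type} [Field k] [CharZero k] {G : Type} [Group G]

/- The twisted vector. -/
noncomputable def nv {E : Type} [CommRing E] [Algebra k E] (lam : G → E) (h : G) (ζ : k) (e : ℕ)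
    (Y : E) (x : G) : E :=
  ∑ b ∈ Finset.range e, (∑ a ∈ Finset.range e,
    algebraMap k E ((e : k)⁻¹ * (ζ⁻¹) ^ (a * b)) * lam (h ^ a * x)) * Y ^ b

theorem nv_semi {E E' : Type} [CommRing E] [Algebra k E] [CommRing E'] [Algebra k E']
    (f : k →+* k) (σ : E →+* E') (hσ : ∀ a, σ (algebraMap k E a) = algebraMap k E' (f a))
    (lam : G → E) (h : G) (ζ : k) (e : ℕ) (Y : E) (x : G) :
    σ (nv lam h ζ e Y x) = nv (fun s => σ (lam s)) h (f ζ) e (σ Y) x := by
  unfold nv
  simp only [map_sum, map_mul, map_pow, hσ, map_inv₀, map_natCast]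

theorem nv_map {E E' : Type} [CommRing E] [Algebra k E] [CommRing E'] [Algebra k E']
    (f : E →ₐ[k] E') (lam : G → E) (h : G) (ζ : k) (e : ℕ) (Y : E) (x : G) :
    f (nv lam h ζ e Y x) = nv (fun s => f (lam s)) h ζ e (f Y) x :=
  nv_semi (RingHom.id k) (f : E →+* E') (fun a => f.commutes a) lam h ζ e Y x

theorem nv_twist {E : Type} [CommRing E] [Algebra k E] (lam : G → E) (h : G) (ζ : k) (e : ℕ)
    (he : h ^ e = 1) (hζ : ζ ^ e = 1) (hζ0 : ζ ≠ 0) (Y : E) (x : G) :
    nv lam h ζ e (algebraMap k E ζ * Y) x = nv lam h ζ e Y (h * x) := by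
  unfold nv
  refine Finset.sum_congr rfl fun b _ => ?_
  have h1 := sum_shift (fun a => algebraMap k E ((e : k)⁻¹ * (ζ⁻¹) ^ (a * b)) * lam (h ^ a * x)) e
    (by
      simp only [he, pow_zero, one_mul, zero_mul]
      rw [pow_mul, inv_pow, hζ, inv_one, one_pow])
  rw [← h1, mul_pow, ← mul_assoc, ← map_pow, Finset.sum_mul]
  congr 1
  refine Finset.sum_congr rfl fun a _ => ?_
  have h2 : (ζ⁻¹ : k) ^ ((a + 1) * b) = (ζ⁻¹) ^ (a * b) * (ζ⁻¹) ^ b := by
    rw [add_mul, one_mul, pow_add]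
  have h3 : h ^ (a + 1) * x = h ^ a * (h * x) := by rw [pow_succ, mul_assoc]
  have h4 : (ζ⁻¹ : k) ^ b * ζ ^ b = 1 := by
    rw [← mul_pow, inv_mul_cancel₀ hζ0, one_pow]
  rw [h2, h3, mul_right_comm, ← map_mul]
  have h5 : (e : k)⁻¹ * (ζ⁻¹ ^ (a * b) * ζ⁻¹ ^ b) * ζ ^ b = (e : k)⁻¹ * ζ⁻¹ ^ (a * b) := by
    rw [mul_assoc, mul_assoc, h4, mul_one]
  rw [h5]

theorem nv_twist_pow {E : Type} [CommRing E] [Algebra k E] (lam : G → E) (h : G) (ζ : k) (e : ℕ)
    (he : h ^ e = 1) (hζ : ζ ^ e = 1) (hζ0 : ζ ≠ 0) (j : ℕ) (Y : E) (x : G) :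
    nv lam h ζ e (algebraMap k E ζ ^ j * Y) x = nv lam h ζ e Y (h ^ j * x) := by
  induction j generalizing x with
  | zero => simp
  | succ j ih =>
    have h1 : algebraMap k E ζ ^ (j + 1) * Y = algebraMap k E ζ * (algebraMap k E ζ ^ j * Y) := by
      ring
    rw [h1, nv_twist lam h ζ e he hζ hζ0, ih, pow_succ, mul_assoc]

theorem nv_one {E : Type} [CommRing E] [Algebra k E] (lam : G → E) (h : G) (ζ : k) (e : ℕ)
    (he0 : 0 < e) (hζ : IsPrimitiveRoot ζ e) (x : G) : nv lam h ζ e 1 x = lam x := by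
  unfold nv
  simp only [one_pow, mul_one]
  rw [Finset.sum_comm]
  have he : (e : k) ≠ 0 := Nat.cast_ne_zero.2 he0.ne'
  have hζ' : IsPrimitiveRoot (ζ⁻¹) e := hζ.inv
  rw [Finset.sum_eq_single 0]
  · simp only [zero_mul, pow_zero, mul_one, one_mul, Finset.sum_const, Finset.card_range,
      nsmul_eq_mul]
    rw [← mul_assoc, ← map_natCast (algebraMap k E) e, ← map_mul, mul_inv_cancel₀ he, map_one,
      one_mul]
  · intro a ha ha0
    have h1 : ∑ b ∈ Finset.range e, (ζ⁻¹ ^ a) ^ b = 0 := by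
      have h2 := geom_sum_mul (ζ⁻¹ ^ a) e
      rw [← pow_mul, mul_comm a e, pow_mul, hζ'.pow_eq_one, one_pow, sub_self] at h2
      refine (mul_eq_zero.1 h2).resolve_right ?_
      exact sub_ne_zero.2 <| hζ'.pow_ne_one_of_pos_of_lt ha0 (Finset.mem_range.1 ha)
    rw [← Finset.sum_mul, ← map_sum, ← Finset.mul_sum]
    simp only [pow_mul]
    rw [h1, mul_zero, map_zero, zero_mul]
  · intro h
    exact absurd (Finset.mem_range.2 he0) h

theorem nv_conj {E : Type} [CommRing E] [Algebra k E] (lam : G → E) (h b : G) (ζ : k) (e : ℕ)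
    (Y : E) (x : G) : nv (fun s => lam (b * s)) h ζ e Y x = nv lam (b * h * b⁻¹) ζ e Y (b * x) := by
  unfold nv
  have h1 : ∀ a : ℕ, b * (h ^ a * x) = (b * h * b⁻¹) ^ a * (b * x) := by
    intro a
    rw [conj_pow]
    group
  simp only [h1]

end nv

section ind

variable {k : Type} [Field k] [CharZero k] {G : Type} [Group G]

/- Generic twisted vectors are algebraically independent. -/
theorem nv_indep {N : Type} [Field N] [Algebra k N] (lam : G → N) (Y : N)
    (hi : AlgebraicIndependent k (Sum.elim lam (fun _ : Unit => Y))) (h : G) (ζ : k) (e : ℕ)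
    (he0 : 0 < e) (hζ : IsPrimitiveRoot ζ e) : AlgebraicIndependent k (nv lam h ζ e Y) := by
  let ν : G → MvPolynomial (G ⊕ Unit) k := nv (fun s => X (Sum.inl s)) h ζ e (X (Sum.inr ()))
  let f : MvPolynomial (G ⊕ Unit) k →ₐ[k] MvPolynomial G k :=
    aeval (Sum.elim (fun s => X s) (fun _ => 1))
  have hν : AlgebraicIndependent k ν := by
    refine AlgebraicIndependent.of_comp f ?_
    have h1 : f ∘ ν = X := by
      funext x
      change f (nv _ h ζ e _ x) = _
      rw [nv_map]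
      simp only [f, aeval_X, Sum.elim_inl, Sum.elim_inr]
      exact nv_one _ h ζ e he0 hζ x
    rw [h1]
    exact algebraicIndependent_X _ _
  have h2 := hν.map' (f := (aeval (Sum.elim lam (fun _ : Unit => Y)) :
    MvPolynomial (G ⊕ Unit) k →ₐ[k] N)) (algebraicIndependent_iff_injective_aeval.1 hi)
  have h3 : (aeval (Sum.elim lam (fun _ : Unit => Y)) : MvPolynomial (G ⊕ Unit) k →ₐ[k] N) ∘ ν =
      nv lam h ζ e Y := by
    funext x
    change (aeval (Sum.elim lam (fun _ : Unit => Y)) : MvPolynomial (G ⊕ Unit) k →ₐ[k] N)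
      (nv _ h ζ e _ x) = _
    rw [nv_map]
    simp only [aeval_X, Sum.elim_inl, Sum.elim_inr]
  rw [h3] at h2
  exact h2

/- The values of invariant polynomials at twisted vectors. -/
theorem nv_mem [Fintype G] {G₀ : Subgroup G} {y : MvPolynomial G k} (hY : YD G₀ y)
    {N : Type} [Field N] [Algebra k N] (K₁ : IntermediateField k N) (lam : G → N)
    (hlam : ∀ s, lam s ∈ K₁) (h : G) (hh : h ∈ G₀) (ζ : k) (e : ℕ)
    (he : h ^ e = 1) (hζ : IsPrimitiveRoot ζ e) (he0 : 0 < e) (Y : N) (hYe : Y ^ e ∈ K₁)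
    (i : Option (Fin (Fintype.card G))) : aeval (nv lam h ζ e Y) (tv y i) ∈ K₁ := by
  let lam' : G → Polynomial K₁ := fun s => Polynomial.C ⟨lam s, hlam s⟩
  let νp : G → Polynomial K₁ := nv lam' h ζ e Polynomial.X
  let p : Polynomial K₁ := aeval νp (tv y i)
  have hζ0 : ζ ≠ 0 := hζ.ne_zero he0.ne'
  have hζ1 : IsPrimitiveRoot (algebraMap k K₁ ζ) e :=
    hζ.map_of_injective (algebraMap k K₁).injective
  have hp : Polynomial.aeval (algebraMap K₁ (Polynomial K₁) (algebraMap k K₁ ζ) * Polynomial.X) p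
      = p := by
    let g : Polynomial K₁ →ₐ[k] Polynomial K₁ := (Polynomial.aeval
      (algebraMap K₁ (Polynomial K₁) (algebraMap k K₁ ζ) * Polynomial.X)).restrictScalars k
    change g p = p
    simp only [p]
    rw [comp_aeval_apply]
    have h1 : (fun x => g (νp x)) = νp ∘ Equiv.mulLeft ((⟨h, hh⟩ : G₀) : G) := by
      funext x
      change g (nv lam' h ζ e Polynomial.X x) = nv lam' h ζ e Polynomial.X (h * x)
      rw [nv_map, ← nv_twist lam' h ζ e he hζ.pow_eq_one hζ0]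
      congr 1
      · funext s
        change Polynomial.aeval _ (Polynomial.C _) = _
        rw [Polynomial.aeval_C]
        rfl
      · change Polynomial.aeval _ Polynomial.X = _
        rw [Polynomial.aeval_X]
        rfl
    rw [h1]
    exact tv_mulLeft hY νp ⟨h, hh⟩ i
  have h2 : Polynomial.aeval Y p ∈ (⊥ : IntermediateField K₁ N) :=
    mem_of_twist (algebraMap k K₁ ζ) e hζ1 p hp Y ⊥
      (IntermediateField.mem_bot.2 ⟨⟨_, hYe⟩, rfl⟩)
  have h3 : Polynomial.aeval Y p = aeval (nv lam h ζ e Y) (tv y i) := by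
    let g : Polynomial K₁ →ₐ[k] N := (Polynomial.aeval Y).restrictScalars k
    change g p = _
    simp only [p]
    rw [comp_aeval_apply]
    congr 2
    funext x
    change g (nv lam' h ζ e Polynomial.X x) = _
    rw [nv_map]
    congr 1
    · funext s
      change Polynomial.aeval Y (Polynomial.C _) = _
      rw [Polynomial.aeval_C]
      rfl
    · change Polynomial.aeval Y Polynomial.X = _
      rw [Polynomial.aeval_X]
  rw [h3] at h2
  obtain ⟨z, hz⟩ := IntermediateField.mem_bot.1 h2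
  rw [← hz]
  exact z.2

end ind

end Pool.Agent.N600.NS
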