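import Mathlib
import Pool.Agent.H84.L.A3_N600_NS_NtD
import Pool.Agent.H84.L.A3_N600_NS_NtE
import Pool.Agent.H84.L.A3_N600_NS_NtF
import Pool.Agent.H84.L.A3_N600_NS_Nv
import Pool.Agent.H84.L.A3_N600_NS_Pa
import Pool.Agent.H84.L.S8_H391R2_NtB
import Pool.Agent.H84.L.S8_H391R2_T4_Abs
import Pool.Agent.H84.L.S8_H391R2_T4_Cfg
import Pool.Agent.H84.L.S8_H391R2_T4_Hens
import Pool.Agent.H84.L.S8_H391R2_T4_NtD
import Pool.Agent.H84.L.S8_H391R2_T4_NtE
import Pool.Agent.H84.L.S8_H391R2_T4_NtF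
import Pool.Agent.H84.L.S8_H391R2_T4_NtS
import Pool.Agent.H84.L.S8_H391R2_T4_Phi
import Pool.Agent.H84.L.S8_H391R2_T4_Sol

namespace Pool.Agent.H391R2
end Pool.Agent.H391R2
namespace Pool.Agent.H391R2.T4
end Pool.Agent.H391R2.T4


/-!
# The tuples over the power series ring
-/

set_option autoImplicit false

namespace Pool.Agent.N600.NS

open MvPolynomial
open Pool.Agent.H391R2
open Pool.Agent.H391R2.T4

set_option linter.unusedSectionVars false

section nodes

/- The data of the nodes with inertia. -/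
structure ND (k G Q : Type) where
  hh : Q → G
  ζ : Q → k
  e : ℕ

/- Their properties. -/
structure NG {k G Q : Type} [Field k] [Group G] (G₀ : Subgroup G) (m : ND k G Q) : Prop where
  he0 : 0 < m.e
  hhe : ∀ q, m.hh q ^ m.e = 1
  hζ : ∀ q, IsPrimitiveRoot (m.ζ q) m.e
  hmem : ∀ q, m.hh q ∈ G₀
  hsurj : ∀ g : G₀, ∃ q, m.hh q = g

variable {k : Type} [Field k] [CharZero k] {G : Type} [Group G] {Q P : Type}

/- The values at the nodes. -/
noncomputable def nuA (m : ND k G Q) {E : Type} [CommRing E] [Algebra k E]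
    (Λ : Q ⊕ P → G → E) (Y : Q → E) : Q ⊕ P → G → E
  | Sum.inl q => nv (Λ (Sum.inl q)) (m.hh q) (m.ζ q) m.e (Y q)
  | Sum.inr p => Λ (Sum.inr p)

theorem nuA_map (m : ND k G Q) {E E' : Type} [CommRing E] [Algebra k E]
    [CommRing E'] [Algebra k E'] (f : E →ₐ[k] E') (Λ : Q ⊕ P → G → E) (Y : Q → E) (a : Q ⊕ P)
    (x : G) : f (nuA m Λ Y a x) = nuA m (fun a s => f (Λ a s)) (fun q => f (Y q)) a x := by
  rcases a with q | p
  · exact nv_map f _ _ _ _ _ _
  · rfl

theorem nuA_one {G₀ : Subgroup G} (m : ND k G Q) (hm : NG G₀ m) {E : Type} [CommRing E]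
    [Algebra k E] (Λ : Q ⊕ P → G → E) (a : Q ⊕ P) (x : G) : nuA m Λ (fun _ => 1) a x = Λ a x := by
  rcases a with q | p
  · exact nv_one _ _ _ _ hm.he0 (hm.hζ q) x
  · rfl

end nodes

section ser

variable {k : Type} [Field k] [CharZero k] {G : Type} [Group G] [Fintype G] {G₀ : Subgroup G}
variable (y : MvPolynomial G k) {Q P : Type} [Fintype Q] [Fintype P] [DecidableEq (Q ⊕ P)]
variable {κ : Type} [Field κ] [Algebra k κ]

/- The tuple attached to a family of parameters. -/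
noncomputable def PXA (d : DB k G (Q ⊕ P)) (m : ND k G Q) {E : Type} [CommRing E] [Algebra k E]
    (ξ : (Q ⊕ ((Q ⊕ P) × G)) ⊕ (Unit ⊕ (Option (Fin (Fintype.card G)) ⊕
      Option (Fin (Fintype.card G)))) → E)
    (i : Option (Fin (Fintype.card G))) : Polynomial E :=
  PA y d (nuA m (fun a s => ξ (Sum.inl (Sum.inr (a, s)))) (fun q => ξ (Sum.inl (Sum.inl q))))
    (ξ (Sum.inr (Sum.inl ()))) (fun i => ξ (Sum.inr (Sum.inr i))) i

theorem PXA_map (d : DB k G (Q ⊕ P)) (m : ND k G Q) {E E' : Type} [CommRing E] [Algebra k E]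
    [CommRing E'] [Algebra k E'] (f : E →ₐ[k] E')
    (ξ : (Q ⊕ ((Q ⊕ P) × G)) ⊕ (Unit ⊕ (Option (Fin (Fintype.card G)) ⊕
      Option (Fin (Fintype.card G)))) → E)
    (i : Option (Fin (Fintype.card G))) :
    (PXA y d m ξ i).map (f : E →+* E') = PXA y d m (fun v => f (ξ v)) i := by
  unfold PXA
  rw [PA_map]
  congr 1
  funext a x
  exact nuA_map m f _ _ a x

theorem PXA_node {d : DB k G (Q ⊕ P)} (h : DG y d) (m : ND k G Q) {E : Type} [CommRing E]
    [Algebra k E]
    (ξ : (Q ⊕ ((Q ⊕ P) × G)) ⊕ (Unit ⊕ (Option (Fin (Fintype.card G)) ⊕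
      Option (Fin (Fintype.card G)))) → E) (a : Q ⊕ P) :
    SolP y (PXA y d m ξ) (algebraMap k E (d.nd a))
      (nuA m (fun a s => ξ (Sum.inl (Sum.inr (a, s)))) (fun q => ξ (Sum.inl (Sum.inl q))) a) := by
  intro i
  unfold PXA
  exact PA_node h _ _ _ a i

/- The specialised parameters. -/
noncomputable def spec (l : G → k) (x : (Q ⊕ ((Q ⊕ P) × G)) ⊕ (Option (Fin (Fintype.card G)) ⊕
      Option (Fin (Fintype.card G))) → κ) :
    (Q ⊕ ((Q ⊕ P) × G)) ⊕ (Unit ⊕ (Option (Fin (Fintype.card G)) ⊕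
      Option (Fin (Fintype.card G)))) → PowerSeries κ
  | Sum.inl (Sum.inl q) => 1 + PowerSeries.X ^ 4 * PowerSeries.C (x (Sum.inl (Sum.inl q)))
  | Sum.inl (Sum.inr p) => algebraMap k (PowerSeries κ) (l p.2) +
      PowerSeries.X ^ 4 * PowerSeries.C (x (Sum.inl (Sum.inr p)))
  | Sum.inr (Sum.inl _) => PowerSeries.X ^ 2
  | Sum.inr (Sum.inr i) => PowerSeries.X ^ 4 * PowerSeries.C (x (Sum.inr i))

theorem tau_X4 : tau κ (PowerSeries.X ^ 4) = PowerSeries.X ^ 4 := by
  have : (PowerSeries.X ^ 4 : PowerSeries κ) = (PowerSeries.X ^ 2) ^ 2 := by ring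
  rw [this, map_pow, tau_X_sq]

theorem spec_tau (l : G → k) (x : (Q ⊕ ((Q ⊕ P) × G)) ⊕ (Option (Fin (Fintype.card G)) ⊕
      Option (Fin (Fintype.card G))) → κ) (v) : tau κ (spec (k := k) l x v) = spec l x v := by
  rcases v with (q | p) | (u | i)
  · simp only [spec, map_add, map_one, map_mul, tau_X4, tau_C]
  · simp only [spec, map_add, map_mul, tau_X4, tau_C]
    have := (tauA k κ).commutes (l p.2)
    change tau κ _ = _ at this
    rw [this]
  · simp only [spec, tau_X_sq]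
  · simp only [spec, map_mul, tau_X4, tau_C]

/- The tuple over the power series ring. -/
noncomputable def POA (d : DB k G (Q ⊕ P)) (m : ND k G Q)
    (x : (Q ⊕ ((Q ⊕ P) × G)) ⊕ (Option (Fin (Fintype.card G)) ⊕
      Option (Fin (Fintype.card G))) → κ)
    (i : Option (Fin (Fintype.card G))) : Polynomial (PowerSeries κ) :=
  PXA y d m (spec d.l x) i

theorem POA_tau (d : DB k G (Q ⊕ P)) (m : ND k G Q)
    (x : (Q ⊕ ((Q ⊕ P) × G)) ⊕ (Option (Fin (Fintype.card G)) ⊕
      Option (Fin (Fintype.card G))) → κ)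
    (i : Option (Fin (Fintype.card G))) : (POA y d m x i).map (tau κ) = POA y d m x i := by
  have h1 := PXA_map y d m (tauA k κ) (spec d.l x) i
  have h3 : ((tauA k κ : PowerSeries κ →ₐ[k] PowerSeries κ) : PowerSeries κ →+* PowerSeries κ) =
    tau κ := rfl
  rw [h3] at h1
  unfold POA
  rw [h1]
  congr 1
  funext v
  exact spec_tau d.l x v

theorem POA_dec (d : DB k G (Q ⊕ P)) {m : ND k G Q} (hm : NG G₀ m)
    (x : (Q ⊕ ((Q ⊕ P) × G)) ⊕ (Option (Fin (Fintype.card G)) ⊕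
      Option (Fin (Fintype.card G))) → κ) :
    ∃ D : Option (Fin (Fintype.card G)) → Polynomial (PowerSeries κ),
    ∀ i, POA y d m x i = bsT y d.l (Polynomial.C (algebraMap k (PowerSeries κ) d.c) *
      ((Polynomial.X ^ 2 - Polynomial.C (PowerSeries.X ^ 2)) * d.R.map (algebraMap k _))) i +
      Polynomial.C (PowerSeries.X ^ 4) * D i := by
  let Λ : Q ⊕ P → G → PowerSeries κ := fun a s => spec (k := k) d.l x (Sum.inl (Sum.inr (a, s)))
  let Y : Q → PowerSeries κ := fun q => spec (k := k) d.l x (Sum.inl (Sum.inl q))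
  let mk : PowerSeries κ →ₐ[k] PowerSeries κ ⧸ Ideal.span {(PowerSeries.X ^ 4 : PowerSeries κ)} :=
    Ideal.Quotient.mkₐ k _
  have hmk4 : mk (PowerSeries.X ^ 4) = 0 :=
    Ideal.Quotient.eq_zero_iff_mem.2 (Ideal.mem_span_singleton_self _)
  have h1 : ∀ (a : Q ⊕ P) i, ∃ z : PowerSeries κ, aeval (nuA m Λ Y a) (tv y i) -
      algebraMap k (PowerSeries κ) (aeval d.l (tv y i)) = PowerSeries.X ^ 4 * z := by
    intro a i
    have h2 : mk (aeval (nuA m Λ Y a) (tv y i) -
      algebraMap k (PowerSeries κ) (aeval d.l (tv y i))) = 0 := by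
      rw [map_sub, comp_aeval_apply, mk.commutes, sub_eq_zero]
      have h3 : (fun x => mk (nuA m Λ Y a x)) = fun x => algebraMap k _ (d.l x) := by
        funext x'
        rw [nuA_map]
        have h4 : (fun q => mk (Y q)) = fun _ => 1 := by
          funext q
          simp only [Y, spec, map_add, map_one, map_mul, hmk4, zero_mul, add_zero]
        rw [h4, nuA_one m hm]
        simp only [Λ, spec, map_add, map_mul, hmk4, zero_mul, add_zero]
        exact mk.commutes _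
      rw [h3]
      have h5 := comp_aeval_apply (f := d.l)
        (φ := Algebra.ofId k (PowerSeries κ ⧸ Ideal.span {(PowerSeries.X ^ 4 : PowerSeries κ)}))
        (tv y i)
      exact h5.symm
    obtain ⟨z, hz⟩ := Ideal.mem_span_singleton.1 (Ideal.Quotient.eq_zero_iff_mem.1 h2)
    exact ⟨z, hz⟩
  choose z hz using h1
  refine ⟨fun i => (∑ a : Q ⊕ P, Polynomial.C (z a i) *
    (Lagrange.basis Finset.univ d.nd a).map (algebraMap k _)) +
    d.w.map (algebraMap k _) * (Polynomial.C (PowerSeries.C (x (Sum.inr (Sum.inl i)))) +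
      Polynomial.C (PowerSeries.C (x (Sum.inr (Sum.inr i)))) * Polynomial.X), fun i => ?_⟩
  have hs : (∑ a : Q ⊕ P, Polynomial.C (aeval (nuA m Λ Y a) (tv y i) -
      algebraMap k (PowerSeries κ) (aeval d.l (tv y i))) *
      (Lagrange.basis Finset.univ d.nd a).map (algebraMap k (PowerSeries κ))) =
      Polynomial.C (PowerSeries.X ^ 4) * ∑ a : Q ⊕ P, Polynomial.C (z a i) *
    (Lagrange.basis Finset.univ d.nd a).map (algebraMap k _) := by
    rw [Finset.mul_sum]
    refine Finset.sum_congr rfl fun q _ => ?_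
    rw [hz, Polynomial.C_mul, mul_assoc]
  unfold POA PXA PA
  change _ + (∑ a : Q ⊕ P, Polynomial.C (aeval (nuA m Λ Y a) (tv y i) -
      algebraMap k (PowerSeries κ) (aeval d.l (tv y i))) *
      (Lagrange.basis Finset.univ d.nd a).map (algebraMap k (PowerSeries κ))) + _ = _
  rw [hs]
  simp only [spec, Polynomial.C_mul]
  ring

open Classical in
/- The roots over the power series ring. -/
theorem ser_rootsA [IsAlgClosed κ] [CharZero κ] {d : DB k G (Q ⊕ P)} (h : DG y d)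
    {m : ND k G Q} (hm : NG G₀ m)
    (Ψ : Polynomial (MvPolynomial (Fin (Fintype.card G)) k)) (hΨm : Ψ.Monic)
    (hΨ : Ψ.map ((aeval fun i : Fin (Fintype.card G) => esymm G k (i + 1) :
      MvPolynomial (Fin (Fintype.card G)) k →ₐ[k] MvPolynomial G k) :
      MvPolynomial (Fin (Fintype.card G)) k →+* MvPolynomial G k) =
      ∏ q ∈ orb y, (Polynomial.X - Polynomial.C q))
    (T : ℕ) (hT : ∀ e, (Ψ.coeff e).totalDegree ≤ T)
    (hsep : (Polynomial.C d.c * d.R * ∏ q ∈ (orb y).erase y,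
      (Polynomial.C d.c * (Polynomial.X ^ 2 * d.R) -
      Polynomial.C (aeval d.l q - aeval d.l y))).Separable)
    (M : ℕ) (hJM : Fintype.card (Q ⊕ P) + 1 < M) (hB : T * (Fintype.card (Q ⊕ P) + 1) < M)
    (hM : 2 + d.R.natDegree = M) (n' : ℕ)
    (hdeg : Ψ.natDegree * M = n' + 2)
    (x : (Q ⊕ ((Q ⊕ P) × G)) ⊕ (Option (Fin (Fintype.card G)) ⊕
      Option (Fin (Fintype.card G))) → κ) :
    ∃ (α : Fin n' → PowerSeries κ) (z z' : PowerSeries κ),
      Function.Injective (fun i => PowerSeries.constantCoeff (α i)) ∧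
      (∀ i, PowerSeries.constantCoeff (α i) ≠ 0) ∧
      (∀ i, tau κ (α i) = α i) ∧ PowerSeries.constantCoeff z = 0 ∧
      PowerSeries.constantCoeff z' = 0 ∧ z ≠ z' ∧
      tau κ z = z' ∧ tau κ z' = z ∧
      PhiP Ψ (POA y d m x) = Polynomial.C (algebraMap k (PowerSeries κ) (d.c ^ Ψ.natDegree)) *
        ((Polynomial.X - Polynomial.C z) * (Polynomial.X - Polynomial.C z') *
        ∏ i, (Polynomial.X - Polynomial.C (α i))) := by
  obtain ⟨h1, h2, h3⟩ := PA_deg h (E := PowerSeries κ) (nuA m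
    (fun a s => spec (k := k) d.l x (Sum.inl (Sum.inr (a, s))))
    (fun q => spec (k := k) d.l x (Sum.inl (Sum.inl q))))
    (spec (k := k) d.l x (Sum.inr (Sum.inl ())))
    (fun i => spec (k := k) d.l x (Sum.inr (Sum.inr i))) M hM hJM
  obtain ⟨D, hD⟩ := POA_dec y d hm x
  exact config_roots y Ψ hΨm hΨ T hT d.l d.c h.hc d.R h.hR0 h.hδ hsep
    (Fintype.card (Q ⊕ P) + 1) M hB hM n' hdeg
    (POA y d m x) h1 h2 h3 (POA_tau y d m x) D hD

/- Fibres. -/
theorem ser_fibreA {d : DB k G (Q ⊕ P)} (h : DG y d) {m : ND k G Q} (hm : NG G₀ m)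
    (x : (Q ⊕ ((Q ⊕ P) × G)) ⊕ (Option (Fin (Fintype.card G)) ⊕
      Option (Fin (Fintype.card G))) → κ)
    {Ω : Type} [Field Ω] [Algebra k Ω] (ι : PowerSeries κ →ₐ[k] Ω) (s : PowerSeries κ)
    (v : G → Ω) (hv : ∀ i : Fin (Fintype.card G), aeval v (esymm G k (i + 1)) =
      ι ((POA y d m x (some i)).eval s)) :
    ∃ v' : G → PowerSeries κ, (∀ g, v g = ι (v' g)) ∧
      (tau κ s = s → ∀ g, tau κ (v' g) = v' g) := by
  obtain ⟨D, hD⟩ := POA_dec y d hm x
  obtain ⟨v', h1, h2⟩ := fibre_coords d.l h.hl ι (fun i => (POA y d m x (some i)).eval s) (by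
    intro i
    have h5 : (PowerSeries.constantCoeff : PowerSeries κ →+* κ) (PowerSeries.X ^ 4) = 0 := by simp
    simp only [hD, bsT, Polynomial.eval_add, Polynomial.eval_mul, Polynomial.eval_C]
    rw [map_add, map_mul, h5, zero_mul, add_zero, PowerSeries.algebraMap_apply,
      PowerSeries.constantCoeff_C]) v hv
  refine ⟨v', h1, fun hs => h2 fun i => ?_⟩
  rw [← Polynomial.eval_map_apply, POA_tau, hs]

end ser

end Pool.Agent.N600.NS
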