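import Mathlib
import Pool.Agent.H84.L.S8_H391R2_WrGrp



namespace Pool.Agent.H391R2

open Filter Topology MvPolynomial

/- The class of an element of the wreath product. -/
noncomputable def wcls (G : Type) [Group G] (n : ℕ) : Wr G n →* Abelianization G :=
  MonoidHom.mk' (fun x => ∏ i, Abelianization.of (x.left i)) (fun a b => by
    simp only [wr_mul_left, map_mul, Finset.prod_mul_distrib]
    congr 1
    exact Equiv.prod_comp a.right⁻¹ (fun i => Abelianization.of (b.left i)))

theorem wcls_apply (G : Type) [Group G] (n : ℕ) (x : Wr G n) :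
    wcls G n x = ∏ i, Abelianization.of (x.left i) := rfl

/- From characters to the full group. -/
theorem range_top {H G : Type} [Group H] [Group G] {n : ℕ} (π : H →* Wr G n)
    (h0 : ∀ x : Wr G n, ∏ i, Abelianization.of (x.left i) = 1 → x ∈ π.range)
    (h1 : ∀ g : G, ∃ γ : H, wcls G n (π γ) * Abelianization.of g = 1) :
    Function.Surjective π := by
  intro x
  obtain ⟨g, hg⟩ : ∃ g : G, Abelianization.of g = (wcls G n x)⁻¹ :=
    QuotientGroup.mk_surjective _
  obtain ⟨γ, hγ⟩ := h1 g
  rw [hg, mul_inv_eq_one] at hγ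
  have h2 : x * (π γ)⁻¹ ∈ π.range := by
    apply h0
    rw [← wcls_apply, map_mul, map_inv, hγ, mul_inv_cancel]
  have h3 : x ∈ π.range := by
    have h4 := π.range.mul_mem h2 ⟨γ, rfl⟩
    rwa [inv_mul_cancel_right] at h4
  exact h3


end Pool.Agent.H391R2
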