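import Mathlib
import Pool.Agent.H84.L.S8_H391R2_T4_Fam
import Pool.Agent.H84.L.S8_H391R2_WrTrd



set_option autoImplicit false

namespace Pool.Agent.H391R2.T4

open MvPolynomial

/- The equalizer of two embeddings of fields. -/
def eqF {k N Ω : Type} [Field k] [Field N] [Field Ω] [Algebra k N] [Algebra k Ω]
    (f g : N →ₐ[k] Ω) : IntermediateField k N :=
  { AlgHom.equalizer f g with
    inv_mem' := fun x hx => by
      have h1 : f x = g x := hx
      change f x⁻¹ = g x⁻¹
      rw [map_inv₀, map_inv₀, h1] }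

theorem mem_eqF {k N Ω : Type} [Field k] [Field N] [Field Ω] [Algebra k N] [Algebra k Ω]
    (f g : N →ₐ[k] Ω) (x : N) : x ∈ eqF f g ↔ f x = g x := Iff.rfl

theorem eq_on_adjoin {k N Ω : Type} [Field k] [Field N] [Field Ω] [Algebra k N] [Algebra k Ω]
    (f g : N →ₐ[k] Ω) (S : Set N) (h : ∀ s ∈ S, f s = g s) (x : N)
    (hx : x ∈ IntermediateField.adjoin k S) : f x = g x := by
  have h1 : IntermediateField.adjoin k S ≤ eqF f g :=
    IntermediateField.adjoin_le_iff.2 fun s hs => h s hs
  exact h1 hx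

/- Elements of the field of rational functions lie in the field generated by the parameters. -/
theorem field_le {k₁ F N J : Type} [Field k₁] [Field F] [Field N] [Algebra k₁ F]
    [Algebra (MvPolynomial J k₁) F] [IsScalarTower k₁ (MvPolynomial J k₁) F]
    [IsFractionRing (MvPolynomial J k₁) F] [Algebra k₁ N] [Algebra F N] [IsScalarTower k₁ F N]
    (θ : J → N) (hθ : ∀ i, θ i = algebraMap F N (algebraMap (MvPolynomial J k₁) F (X i)))
    (x : F) : algebraMap F N x ∈ IntermediateField.adjoin k₁ (Set.range θ) := by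
  obtain ⟨u, v, hv, rfl⟩ := IsFractionRing.div_surjective (A := MvPolynomial J k₁) x
  have h1 : ∀ q : MvPolynomial J k₁, algebraMap F N (algebraMap (MvPolynomial J k₁) F q) ∈
      IntermediateField.adjoin k₁ (Set.range θ) := by
    intro q
    induction q using MvPolynomial.induction_on with
    | C a =>
      have h2 : algebraMap F N (algebraMap (MvPolynomial J k₁) F (C a)) = algebraMap k₁ N a := by
        rw [IsScalarTower.algebraMap_apply k₁ F N, IsScalarTower.algebraMap_apply k₁
          (MvPolynomial J k₁) F]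
        rfl
      rw [h2]
      exact IntermediateField.algebraMap_mem _ _
    | add p q hp hq =>
      rw [map_add, map_add]
      exact add_mem hp hq
    | mul_X p i hp =>
      rw [map_mul, map_mul, ← hθ]
      exact mul_mem hp (IntermediateField.subset_adjoin _ _ ⟨i, rfl⟩)
  rw [map_div₀]
  exact div_mem (h1 u) (h1 v)

theorem alg_of_range {k V F N : Type} [Field k] [Field F] [Field N] [Algebra k F] [Algebra k N]
    [Algebra F N] [IsScalarTower k F N] (ξ : V → N) (hξ : IsTranscendenceBasis k ξ)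
    (h : ∀ v, ∃ f : F, algebraMap F N f = ξ v) : Algebra.IsAlgebraic F N := by
  have h1 := hξ.isAlgebraic_field
  refine ⟨fun x => ?_⟩
  let φ : F →ₐ[k] N := IsScalarTower.toAlgHom k F N
  have h2 : IsAlgebraic (IntermediateField.adjoin k (Set.range ξ)) x := h1.isAlgebraic x
  have h3 : IntermediateField.adjoin k (Set.range ξ) ≤ φ.fieldRange := by
    rw [IntermediateField.adjoin_le_iff]
    rintro _ ⟨v, rfl⟩
    exact h v
  have h4 : IsAlgebraic φ.fieldRange x := by
    obtain ⟨p, hp, hp0⟩ := h2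
    refine ⟨p.map (IntermediateField.inclusion h3 : _ →+* _), ?_, ?_⟩
    · exact (Polynomial.map_ne_zero_iff (IntermediateField.inclusion h3).injective).2 hp
    · rw [Polynomial.aeval_def, Polynomial.eval₂_map]
      exact hp0
  obtain ⟨p, hp, hp0⟩ := h4
  let e : F ≃ₐ[k] φ.fieldRange := AlgEquiv.ofInjectiveField φ
  refine ⟨p.map (e.symm : φ.fieldRange →+* F), ?_, ?_⟩
  · exact (Polynomial.map_ne_zero_iff e.symm.injective).2 hp
  · rw [Polynomial.aeval_def, Polynomial.eval₂_map]
    have h5 : (algebraMap F N).comp (e.symm : φ.fieldRange →+* F) =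
        algebraMap φ.fieldRange N := by
      apply RingHom.ext
      intro z
      exact congrArg Subtype.val (e.apply_symm_apply z)
    rw [h5]
    exact hp0

theorem alg_pow {k N Q W : Type} [Field k] [Field N] [Algebra k N] (ξ : Q ⊕ W → N) (e : ℕ)
    (he : 0 < e) (v : Q ⊕ W) : IsAlgebraic (Algebra.adjoin k (Set.range (Sum.elim
      (fun q => ξ (Sum.inl q) ^ e) (fun w => ξ (Sum.inr w))))) (ξ v) := by
  have hmem : ∀ v, Sum.elim (fun q => ξ (Sum.inl q) ^ e) (fun w => ξ (Sum.inr w)) v ∈
      Algebra.adjoin k (Set.range (Sum.elim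
      (fun q => ξ (Sum.inl q) ^ e) (fun w => ξ (Sum.inr w)))) := fun v =>
    Algebra.subset_adjoin ⟨v, rfl⟩
  rcases v with q | w
  · have h1 := hmem (Sum.inl q)
    have h2 : IsAlgebraic (Algebra.adjoin k (Set.range (Sum.elim
      (fun q => ξ (Sum.inl q) ^ e) (fun w => ξ (Sum.inr w))))) (ξ (Sum.inl q) ^ e) :=
      isAlgebraic_algebraMap (⟨_, h1⟩ : Algebra.adjoin k (Set.range (Sum.elim
      (fun q => ξ (Sum.inl q) ^ e) (fun w => ξ (Sum.inr w)))))
    exact h2.of_pow he
  · exact isAlgebraic_algebraMap (⟨_, hmem (Sum.inr w)⟩ : Algebra.adjoin k (Set.range (Sum.elim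
      (fun q => ξ (Sum.inl q) ^ e) (fun w => ξ (Sum.inr w)))))

theorem basis_pow {k N Q W : Type} [Field k] [Field N] [Algebra k N] [Finite Q] [Finite W]
    (ξ : Q ⊕ W → N) (hξ : IsTranscendenceBasis k ξ) (e : ℕ)
    (he : 0 < e) : IsTranscendenceBasis k (Sum.elim
      (fun q => ξ (Sum.inl q) ^ e) (fun w => ξ (Sum.inr w))) :=
  basis_of_alg le_rfl ξ hξ _ (alg_pow ξ e he)

/- Splitting an independent family. -/
theorem indep_split {k N Q W : Type} [Field k] [Field N] [Algebra k N]
    (η : Q ⊕ (Unit ⊕ W) → N) (hη : AlgebraicIndependent k η) :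
    AlgebraicIndependent (IntermediateField.adjoin k (Set.range
      (Sum.elim (fun q => η (Sum.inl q)) (fun _ : Unit => η (Sum.inr (Sum.inl ()))))))
      (fun w => η (Sum.inr (Sum.inr w))) := by
  rw [IntermediateField.algebraicIndependent_adjoin_iff]
  let e : W ⊕ (Q ⊕ Unit) → Q ⊕ (Unit ⊕ W) :=
    Sum.elim (fun w => Sum.inr (Sum.inr w)) (Sum.elim Sum.inl (fun u => Sum.inr (Sum.inl u)))
  have he : Function.Injective e := by
    rintro (a | a | a) (b | b | b) hab <;> simp_all [e]
  have h1 := hη.comp e he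
  have h2 : η ∘ e = Sum.elim (fun w => η (Sum.inr (Sum.inr w)))
      (Sum.elim (fun q => η (Sum.inl q)) (fun _ : Unit => η (Sum.inr (Sum.inl ())))) := by
    funext v
    rcases v with a | a | a <;> rfl
  rw [h2] at h1
  exact (AlgebraicIndependent.sumElim_iff.1 h1).2

/- Restriction of an automorphism of a bigger field. -/
theorem exists_restrict {F N Ω : Type} [Field F] [Field N] [Field Ω] [Algebra F N] [Normal F N]
    (j : N →+* Ω) (τ : Ω ≃+* Ω) (h : ∀ x : F, τ (j (algebraMap F N x)) = j (algebraMap F N x)) :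
    ∃ σ : N ≃ₐ[F] N, ∀ x, j (σ x) = τ (j x) := by
  let _ : Algebra N Ω := j.toAlgebra
  let _ : Algebra F Ω := (j.comp (algebraMap F N)).toAlgebra
  have hT : IsScalarTower F N Ω := IsScalarTower.of_algebraMap_eq fun x => rfl
  let τF : Ω ≃ₐ[F] Ω := AlgEquiv.ofRingEquiv (f := τ) (fun x => h x)
  exact ⟨τF.restrictNormal N, fun x => AlgEquiv.restrictNormal_commutes τF N x⟩

/- Powers of roots of unity as twists. -/
theorem exists_twist {k V N : Type} [Field k] [Field N] [Algebra k N] [IsAlgClosed N] [Finite V]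
    (ξ : V → N) (hξ : IsTranscendenceBasis k ξ) (c : V → k) (hc : ∀ v, c v ≠ 0) :
    ∃ γ : N →ₐ[k] N, ∀ v, γ (ξ v) = algebraMap k N (c v) * ξ v := by
  have h1 : AlgebraicIndependent k (fun v => algebraMap k N (c v) * ξ v) := by
    refine indep_of_mem le_rfl ξ hξ.1 _ fun v => ?_
    have h2 : ξ v = algebraMap k N (c v)⁻¹ * (algebraMap k N (c v) * ξ v) := by
      rw [← mul_assoc, ← map_mul, inv_mul_cancel₀ (hc v), map_one, one_mul]
    rw [h2]
    exact mul_mem (IntermediateField.algebraMap_mem _ _)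
      (IntermediateField.subset_adjoin _ _ ⟨v, rfl⟩)
  exact lift_family ξ hξ _ h1

end Pool.Agent.H391R2.T4
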