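import Mathlib
import Pool.Agent.H84.L.S8_Y793_Stm



set_option autoImplicit false
set_option linter.unusedSectionVars false
set_option linter.unusedSimpArgs false

namespace Pool.Agent.Y793

open Polynomial

section adr

variable {K : Type} [Field K] {E : Type} [CommRing E] [Algebra K E]

theorem coeff_adr_zero (p : E[X]) : (adr K p).coeff 0 = 0 := by
  unfold adr
  rw [Polynomial.sum_def, finsetSum_coeff]
  refine Finset.sum_eq_zero fun n _ => ?_
  rw [coeff_monomial, if_neg (Nat.succ_ne_zero n)]

theorem coeff_adr_succ (p : E[X]) (n : ℕ) :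
    (adr K p).coeff (n + 1) = algebraMap K E ((n : K) + 1)⁻¹ * p.coeff n := by
  classical
  unfold adr
  rw [Polynomial.sum_def, finsetSum_coeff]
  simp only [coeff_monomial, add_left_inj]
  rw [Finset.sum_ite_eq' p.support n]
  split_ifs with h
  · rfl
  · rw [notMem_support_iff.1 h, mul_zero]

theorem adr_add (p q : E[X]) : adr K (p + q) = adr K p + adr K q := by
  ext n
  rcases n with _ | n
  · simp only [coeff_add, coeff_adr_zero, add_zero]
  · simp only [coeff_add, coeff_adr_succ, mul_add]

theorem adr_C_mul (a : E) (p : E[X]) : adr K (C a * p) = C a * adr K p := by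
  ext n
  rcases n with _ | n
  · simp only [coeff_C_mul, coeff_adr_zero, mul_zero]
  · simp only [coeff_C_mul, coeff_adr_succ]
    ring


theorem adr_map {E' : Type} [CommRing E'] [Algebra K E'] (f : E →ₐ[K] E') (p : E[X]) :
    (adr K p).map (f : E →+* E') = adr K (p.map (f : E →+* E')) := by
  ext n
  rcases n with _ | n
  · rw [coeff_map, coeff_adr_zero, coeff_adr_zero, map_zero]
  · rw [coeff_map, coeff_adr_succ, coeff_adr_succ, coeff_map, map_mul]
    congr 1
    exact f.commutes _

theorem derivative_adr [CharZero K] (p : E[X]) : derivative (adr K p) = p := by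
  ext n
  rw [coeff_derivative, coeff_adr_succ]
  have h1 : ((n : E) + 1) = algebraMap K E ((n : K) + 1) := by
    rw [map_add, map_natCast, map_one]
  have h2 : ((n : K) + 1) ≠ 0 := by exact_mod_cast Nat.succ_ne_zero n
  rw [h1, mul_comm, ← mul_assoc, ← map_mul, mul_inv_cancel₀ h2, map_one, one_mul]

end adr


end Pool.Agent.Y793
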