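import Mathlib
import Pool.Agent.H84.L.S8_H391R2_WrSol
import Pool.Agent.H84.L.S8_Y793_Fam
import Pool.Agent.H84.L.S8_Y793_Stm

namespace Pool.Agent.Y793
end Pool.Agent.Y793


/-!
The quadratic family of functions on a point.
-/

set_option autoImplicit false
set_option linter.unusedSectionVars false
set_option linter.unusedSimpArgs false

namespace Pool.Agent.N70.AW

open Polynomial Pool.Agent.Y793

section fam

variable {K J : Type} [Field K] [Fintype J] (κ : J → K[X])

/- A linear combination of the polynomials of a family. -/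
noncomputable def lk {E : Type} [CommRing E] [Algebra K E] (a : J → E) : E[X] :=
  ∑ j, C (a j) * (κ j).map (algebraMap K E)

variable {E : Type} [CommRing E] [Algebra K E]

theorem lk_add (a b : J → E) : lk κ (a + b) = lk κ a + lk κ b := by
  unfold lk
  rw [← Finset.sum_add_distrib]
  refine Finset.sum_congr rfl fun i _ => ?_
  rw [Pi.add_apply, C_add, add_mul]

theorem lk_smul (t : E) (a : J → E) : lk κ (t • a) = C t * lk κ a := by
  unfold lk
  rw [Finset.mul_sum]
  refine Finset.sum_congr rfl fun i _ => ?_
  rw [Pi.smul_apply, smul_eq_mul, C_mul, mul_assoc]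

theorem lk_map {E' : Type} [CommRing E'] [Algebra K E'] (φ : E →ₐ[K] E') (a : J → E) :
    (lk κ a).map (φ : E →+* E') = lk κ (fun i => φ (a i)) := by
  unfold lk
  rw [Polynomial.map_sum]
  refine Finset.sum_congr rfl fun i _ => ?_
  rw [Polynomial.map_mul, map_C, Polynomial.map_map]
  congr 2
  exact φ.comp_algebraMap

/- The bilinear form attached to a point. -/
noncomputable def BF (a b : J → E) (w : E) (X : J → J → E) : E :=
  (adr K (lk κ a * lk κ b)).eval w + ∑ i, ∑ j, a i * b j * X i j

theorem BF_comm (a b : J → E) (w : E) (X : J → J → E) (hX : ∀ i j, X i j = X j i) :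
    BF κ a b w X = BF κ b a w X := by
  unfold BF
  rw [mul_comm (lk κ a)]
  congr 1
  rw [Finset.sum_comm]
  refine Finset.sum_congr rfl fun i _ => Finset.sum_congr rfl fun j _ => ?_
  rw [hX j i]
  ring

theorem BF_add (a b c : J → E) (w : E) (X : J → J → E) :
    BF κ a (b + c) w X = BF κ a b w X + BF κ a c w X := by
  unfold BF
  rw [lk_add, mul_add, adr_add, eval_add]
  have h1 : ∑ i, ∑ j, a i * (b + c) j * X i j =
      ∑ i, ∑ j, a i * b j * X i j + ∑ i, ∑ j, a i * c j * X i j := by
    rw [← Finset.sum_add_distrib]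
    refine Finset.sum_congr rfl fun i _ => ?_
    rw [← Finset.sum_add_distrib]
    refine Finset.sum_congr rfl fun j _ => ?_
    rw [Pi.add_apply]
    ring
  rw [h1]
  ring

theorem BF_smul (t : E) (a b : J → E) (w : E) (X : J → J → E) :
    BF κ a (t • b) w X = t * BF κ a b w X := by
  unfold BF
  have h0 : lk κ a * lk κ (t • b) = C t * (lk κ a * lk κ b) := by
    rw [lk_smul]
    ring
  rw [h0, adr_C_mul, eval_mul, eval_C, mul_add]
  congr 1
  rw [Finset.mul_sum]
  refine Finset.sum_congr rfl fun i _ => ?_
  rw [Finset.mul_sum]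
  refine Finset.sum_congr rfl fun j _ => ?_
  rw [Pi.smul_apply, smul_eq_mul]
  ring

theorem BF_map {E' : Type} [CommRing E'] [Algebra K E'] (φ : E →ₐ[K] E')
    (a b : J → E) (w : E) (X : J → J → E) :
    φ (BF κ a b w X) = BF κ (fun i => φ (a i)) (fun i => φ (b i)) (φ w) (fun i j => φ (X i j)) := by
  have h2 : ∀ (p : E[X]) (x : E), φ (p.eval x) = (p.map (φ : E →+* E')).eval (φ x) := by
    intro p x
    exact (eval_map_apply (f := (φ : E →+* E')) (p := p) (x := x)).symm
  unfold BF
  rw [map_add, h2, adr_map, Polynomial.map_mul, lk_map, lk_map, map_sum]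
  congr 1
  refine Finset.sum_congr rfl fun i _ => ?_
  rw [map_sum]
  refine Finset.sum_congr rfl fun j _ => ?_
  rw [map_mul, map_mul]

end fam

section opt

variable {K ι : Type} [Field K] [Fintype ι] (κ : Option ι → K[X])

variable {E : Type} [CommRing E] [Algebra K E]

theorem BF_some (a : ι → E) (w : E) (X : Option ι → Option ι → E)
    (hX : ∀ i j : ι, X (some i) (some j) = 0) :
    BF κ (fun j => j.elim 0 a) (fun j => j.elim 0 a) w X =
      (adr K ((∑ i, C (a i) * (κ (some i)).map (algebraMap K E)) ^ 2)).eval w := by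
  unfold BF
  have h1 : lk κ (fun j => Option.elim j 0 a) = ∑ i, C (a i) * (κ (some i)).map (algebraMap K E) := by
    unfold lk
    rw [Fintype.sum_option]
    simp
  have h2 : ∑ i, ∑ j, Option.elim i 0 a * Option.elim j 0 a * X i j = 0 := by
    rw [Fintype.sum_option]
    simp only [Option.elim_none, zero_mul, Finset.sum_const_zero, zero_add]
    refine Finset.sum_eq_zero fun i _ => ?_
    rw [Fintype.sum_option]
    simp [hX]
  rw [h1, h2, add_zero, sq]

theorem BF_none_some [DecidableEq ι] (i : ι) (w : E) (X : Option ι → Option ι → E) :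
    BF κ (Pi.single none 1) (Pi.single (some i) 1) w X =
      (adr K ((κ none * κ (some i)).map (algebraMap K E))).eval w + X none (some i) := by
  unfold BF
  have h1 : ∀ j : Option ι, lk κ (Pi.single j (1 : E)) = (κ j).map (algebraMap K E) := by
    intro j
    unfold lk
    rw [Finset.sum_eq_single j]
    · simp
    · intro b _ hb
      simp [hb]
    · intro h
      exact absurd (Finset.mem_univ _) h
  rw [h1, h1, ← Polynomial.map_mul]
  congr 1
  rw [Finset.sum_eq_single none, Finset.sum_eq_single (some i)]
  · simp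
  · intro b _ hb
    simp [hb]
  · intro h
    exact absurd (Finset.mem_univ _) h
  · intro b _ hb
    simp [hb]
  · intro h
    exact absurd (Finset.mem_univ _) h

end opt

end Pool.Agent.N70.AW
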