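import Mathlib
import Pool.Agent.H84.L.A3_N70_AW_Fa
import Pool.Agent.H84.L.S8_H391R2_T4_Nod
import Pool.Agent.H84.L.S8_H391R2_T4_Sem
import Pool.Agent.H84.L.S8_H391R2_WrSol
import Pool.Agent.H84.L.S8_Y793_Fam
import Pool.Agent.H84.L.S8_Y793_Stm

namespace Pool.Agent.Y793
end Pool.Agent.Y793


/-!
The matrix of polynomials attached to the data.
-/

set_option autoImplicit false
set_option linter.unusedSectionVars false
set_option linter.unusedSimpArgs false

namespace Pool.Agent.N70.AW

open Polynomial Pool.Agent.Y793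

section gen

/- The top coefficient of the determinant of a matrix of polynomials. -/
theorem coeff_det {R : Type} [CommRing R] {m : ℕ} (Q : Matrix (Fin m) (Fin m) R[X]) (b : ℕ)
    (hQ : ∀ l l', (Q l l').natDegree ≤ b) :
    Q.det.natDegree ≤ m * b ∧ Q.det.coeff (m * b) = (Q.map fun p => p.coeff b).det := by
  constructor
  · rw [Matrix.det_apply]
    refine natDegree_sum_le_of_forall_le _ _ fun σ _ => ?_
    refine (natDegree_smul_le _ _).trans ?_
    refine (natDegree_prod_le _ _).trans ?_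
    refine (Finset.sum_le_sum fun i _ => hQ (σ i) i).trans ?_
    simp
  · rw [Matrix.det_apply, Matrix.det_apply, finsetSum_coeff]
    refine Finset.sum_congr rfl fun σ _ => ?_
    have h1 := coeff_prod_of_natDegree_le (s := Finset.univ) (fun i => Q (σ i) i) b
      (fun i _ => hQ (σ i) i)
    rw [Finset.card_univ, Fintype.card_fin] at h1
    have h2 : ∀ (z : ℤˣ) (p : R[X]) (j : ℕ), (z • p).coeff j = z • p.coeff j := by
      intro z p j
      rcases Int.units_eq_one_or z with rfl | rfl <;> simp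
    rw [h2, h1]
    rfl

end gen

section fam

variable {K J : Type} [Field K] [Fintype J] (κ : J → K[X]) {m : ℕ}
  (M : J → J → Matrix (Fin m) (Fin m) K[X])
variable {E : Type} [CommRing E] [Algebra K E]

/- The polynomial part. -/
noncomputable def AA (c : J → E) : E[X] := adr K (lk κ c * lk κ c)

/- The matrix part. -/
noncomputable def MM (c : J → E) : Matrix (Fin m) (Fin m) E[X] := fun l l' =>
  ∑ i, ∑ j, C (c i * c j) * (M i j l l').map (algebraMap K E)

/- The matrix. -/
noncomputable def PM (c : J → E) (T : E) : Matrix (Fin m) (Fin m) E[X] :=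
  (C T - AA κ c) • (1 : Matrix (Fin m) (Fin m) E[X]) - MM M c

theorem AA_map {E' : Type} [CommRing E'] [Algebra K E'] (φ : E →ₐ[K] E') (c : J → E) :
    (AA κ c).map (φ : E →+* E') = AA κ (fun i => φ (c i)) := by
  unfold AA
  rw [adr_map, Polynomial.map_mul, lk_map]

theorem MM_map {E' : Type} [CommRing E'] [Algebra K E'] (φ : E →ₐ[K] E') (c : J → E)
    (l l' : Fin m) :
    (MM M c l l').map (φ : E →+* E') = MM M (fun i => φ (c i)) l l' := by
  unfold MM
  rw [Polynomial.map_sum]
  refine Finset.sum_congr rfl fun i _ => ?_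
  rw [Polynomial.map_sum]
  refine Finset.sum_congr rfl fun j _ => ?_
  rw [Polynomial.map_mul, map_C, Polynomial.map_map]
  congr 2
  · exact map_mul φ _ _
  · exact φ.comp_algebraMap

theorem PM_apply (c : J → E) (T : E) (l l' : Fin m) :
    PM κ M c T l l' = (C T - AA κ c) * (1 : Matrix (Fin m) (Fin m) E[X]) l l' - MM M c l l' := by
  rfl

theorem PM_map {E' : Type} [CommRing E'] [Algebra K E'] (φ : E →ₐ[K] E') (c : J → E) (T : E)
    (l l' : Fin m) :
    (PM κ M c T l l').map (φ : E →+* E') = PM κ M (fun i => φ (c i)) (φ T) l l' := by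
  rw [PM_apply, PM_apply, Polynomial.map_sub, Polynomial.map_mul, Polynomial.map_sub, map_C,
    AA_map, MM_map]
  congr 2
  by_cases h : l = l'
  · subst h
    simp
  · simp [Matrix.one_apply_ne h]

theorem det_PM_map {E' : Type} [CommRing E'] [Algebra K E'] (φ : E →ₐ[K] E') (c : J → E) (T : E) :
    (PM κ M c T).det.map (φ : E →+* E') = (PM κ M (fun i => φ (c i)) (φ T)).det := by
  have h1 := (Polynomial.mapRingHom (φ : E →+* E')).map_det (PM κ M c T)
  rw [coe_mapRingHom] at h1
  rw [h1]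
  congr 1
  funext l l'
  exact PM_map κ M φ c T l l'

theorem MM_fac (L : J → J → Matrix (Fin m) (Fin m) K[X]) (S : Matrix (Fin m) (Fin m) K[X])
    (h : ∀ i j, M i j = L i j * S) (c : J → E) :
    MM M c = MM L c * S.map (Polynomial.map (algebraMap K E)) := by
  funext l l'
  rw [Matrix.mul_apply]
  unfold MM
  have h1 : ∀ i j, (M i j l l').map (algebraMap K E) = ∑ t, (L i j l t).map (algebraMap K E) *
      (S t l').map (algebraMap K E) := by
    intro i j
    rw [h, Matrix.mul_apply, Polynomial.map_sum]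
    refine Finset.sum_congr rfl fun t _ => ?_
    rw [Polynomial.map_mul]
  simp only [h1, Finset.mul_sum, Finset.sum_mul, Matrix.map_apply]
  symm
  rw [Finset.sum_comm]
  refine Finset.sum_congr rfl fun i _ => ?_
  rw [Finset.sum_comm]
  refine Finset.sum_congr rfl fun j _ => ?_
  refine Finset.sum_congr rfl fun t _ => ?_
  ring

theorem MM_deg {d : ℕ} (h : ∀ i j l l', (M i j l l').natDegree ≤ d) (c : J → E) (l l' : Fin m) :
    (MM M c l l').natDegree ≤ d := by
  unfold MM
  refine natDegree_sum_le_of_forall_le _ _ fun i _ => ?_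
  refine natDegree_sum_le_of_forall_le _ _ fun j _ => ?_
  refine (natDegree_C_mul_le _ _).trans ?_
  exact natDegree_map_le.trans (h i j l l')

theorem lk_deg {k : ℕ} (h : ∀ j, (κ j).natDegree ≤ k) (c : J → E) :
    (lk κ c).natDegree ≤ k := by
  unfold lk
  refine natDegree_sum_le_of_forall_le _ _ fun j _ => ?_
  refine (natDegree_C_mul_le _ _).trans ?_
  exact natDegree_map_le.trans (h j)

theorem adr_deg {p : E[X]} {n : ℕ} (h : p.natDegree ≤ n) : (adr K p).natDegree ≤ n + 1 := by
  rw [natDegree_le_iff_coeff_eq_zero]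
  intro j hj
  obtain ⟨j, rfl⟩ : ∃ i, j = i + 1 := ⟨j - 1, by omega⟩
  rw [coeff_adr_succ, coeff_eq_zero_of_natDegree_lt (by omega), mul_zero]

theorem AA_deg {k : ℕ} (h : ∀ j, (κ j).natDegree ≤ k) (c : J → E) :
    (AA κ c).natDegree ≤ 2 * k + 1 := by
  unfold AA
  refine adr_deg ?_
  refine natDegree_mul_le.trans ?_
  have h1 := lk_deg κ h c
  omega

theorem AA_coeff {k : ℕ} (h : ∀ j, (κ j).natDegree ≤ k) (c : J → E) :
    (AA κ c).coeff (2 * k + 1) =
      algebraMap K E (((2 * k : ℕ) : K) + 1)⁻¹ * ((lk κ c).coeff k) ^ 2 := by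
  unfold AA
  have h1 := lk_deg κ h c
  rw [coeff_adr_succ, two_mul, coeff_mul_add_eq_of_natDegree_le h1 h1, sq]

theorem lk_coeff (k : ℕ) (c : J → E) :
    (lk κ c).coeff k = ∑ j, c j * algebraMap K E ((κ j).coeff k) := by
  unfold lk
  rw [finsetSum_coeff]
  refine Finset.sum_congr rfl fun j _ => ?_
  rw [coeff_C_mul, coeff_map]

theorem PM_deg {k d : ℕ} (h : ∀ j, (κ j).natDegree ≤ k)
    (hM : ∀ i j l l', (M i j l l').natDegree ≤ d) (hd : d ≤ 2 * k) (c : J → E) (T : E) :
    (PM κ M c T).det.natDegree ≤ m * (2 * k + 1) ∧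
    (PM κ M c T).det.coeff (m * (2 * k + 1)) = (-(AA κ c).coeff (2 * k + 1)) ^ m := by
  have h1 : ∀ l l', (MM M c l l').natDegree ≤ 2 * k := fun l l' => (MM_deg M hM c l l').trans hd
  have hA := AA_deg κ h c
  obtain ⟨h2, h3⟩ := coeff_det (PM κ M c T) (2 * k + 1) (fun l l' => by
    rw [PM_apply]
    refine (natDegree_sub_le _ _).trans (max_le ?_ ((h1 l l').trans (by omega)))
    by_cases hl : l = l'
    · subst hl
      rw [Matrix.one_apply_eq, mul_one]
      refine (natDegree_sub_le _ _).trans (max_le ?_ hA)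
      rw [natDegree_C]
      omega
    · rw [Matrix.one_apply_ne hl, mul_zero, natDegree_zero]
      omega)
  refine ⟨h2, ?_⟩
  rw [h3]
  have h4 : ((PM κ M c T).map fun p => p.coeff (2 * k + 1)) =
      (-(AA κ c).coeff (2 * k + 1)) • (1 : Matrix (Fin m) (Fin m) E) := by
    funext l l'
    rw [Matrix.map_apply, PM_apply, coeff_sub, coeff_eq_zero_of_natDegree_lt
      (lt_of_le_of_lt (h1 l l') (Nat.lt_succ_self _)), sub_zero, Matrix.smul_apply, smul_eq_mul]
    by_cases hl : l = l'
    · subst hl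
      rw [Matrix.one_apply_eq, Matrix.one_apply_eq, mul_one, mul_one, coeff_sub,
        coeff_C_succ, zero_sub]
    · rw [Matrix.one_apply_ne hl, Matrix.one_apply_ne hl, mul_zero, mul_zero, coeff_zero]
  rw [h4, Matrix.det_smul, Matrix.det_one, mul_one, Fintype.card_fin]

theorem PM_deg' [IsDomain E] {k d : ℕ} (h : ∀ j, (κ j).natDegree ≤ k)
    (hM : ∀ i j l l', (M i j l l').natDegree ≤ d) (hd : d ≤ 2 * k) (c : J → E) (T : E)
    (ha : (AA κ c).coeff (2 * k + 1) ≠ 0) :
    (PM κ M c T).det.natDegree = m * (2 * k + 1) ∧ (PM κ M c T).det ≠ 0 := by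
  obtain ⟨h1, h2⟩ := PM_deg κ M h hM hd c T
  have h3 : (PM κ M c T).det.coeff (m * (2 * k + 1)) ≠ 0 := by
    rw [h2]
    exact pow_ne_zero _ (neg_ne_zero.2 ha)
  refine ⟨le_antisymm h1 (le_natDegree_of_ne_zero h3), fun h0 => ?_⟩
  rw [h0, coeff_zero] at h3
  exact h3 rfl

theorem AA_natDegree {k : ℕ} (h : ∀ j, (κ j).natDegree ≤ k) (c : J → E)
    (ha : (AA κ c).coeff (2 * k + 1) ≠ 0) : (AA κ c).natDegree = 2 * k + 1 :=
  le_antisymm (AA_deg κ h c) (le_natDegree_of_ne_zero ha)

theorem BF_AA (c : J → E) (w : E) (X : J → J → E) :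
    BF κ c c w X = (AA κ c).eval w + ∑ i, ∑ j, c i * c j * X i j := rfl

end fam

section cof

variable {K J : Type} [Field K] [CharZero K] [Fintype J] {κ : J → K[X]} {k : ℕ}
variable {k₀ N : Type} [Field k₀] [Field N] [Algebra K k₀] [Algebra K N] [Algebra k₀ N]
  [IsScalarTower K k₀ N]

theorem AA_ne (h : ∀ j, (κ j).natDegree ≤ k) (hk : ∃ j, (κ j).coeff k ≠ 0) (c : J → N)
    (hc : AlgebraicIndependent k₀ c) : (AA κ c).coeff (2 * k + 1) ≠ 0 := by
  obtain ⟨i, hi⟩ := hk
  rw [AA_coeff κ h]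
  refine mul_ne_zero ?_ (pow_ne_zero 2 fun h0 => ?_)
  · rw [Ne, FaithfulSMul.algebraMap_eq_zero_iff]
    exact inv_ne_zero (by exact_mod_cast Nat.succ_ne_zero (2 * k))
  · have hl : LinearIndependent k₀ c := hc.linearIndependent
    rw [Fintype.linearIndependent_iff] at hl
    have h1 := hl (fun i => algebraMap K k₀ ((κ i).coeff k)) (by
      rw [← h0, lk_coeff]
      refine Finset.sum_congr rfl fun j _ => ?_
      rw [Algebra.smul_def, ← IsScalarTower.algebraMap_apply, mul_comm]) i
    rw [FaithfulSMul.algebraMap_eq_zero_iff] at h1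
    exact hi h1

end cof

end Pool.Agent.N70.AW
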