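import Mathlib
import Pool.Agent.H84.L.S8_H391R2_T4_Nod
import Pool.Agent.H84.L.S8_H391R2_T4_Red
import Pool.Agent.H84.L.S8_H391R2_T4_Sem

namespace Pool.Agent.H391R2.T4
end Pool.Agent.H391R2.T4


/-!
Lifting regular solutions along an extension of the constants: fibre products.
-/

set_option autoImplicit false

namespace Pool.Agent.TH59.WX

open Polynomial
open Pool.Agent.H391R2.T4 (RegSol)

set_option linter.unusedSectionVars false

section lin

variable {L₀ L F₀ F : Type} [Field L₀] [Field L] [Field F₀] [Field F] [Algebra L₀ L]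
  [Algebra L₀ F₀] [Algebra F₀ F] [Algebra L F] [Algebra L₀ F] [IsScalarTower L₀ L F]
  [IsScalarTower L₀ F₀ F] [FiniteDimensional L₀ L] [IsGalois L₀ L] [FiniteDimensional F₀ F]
  [IsGalois F₀ F]

/- Restriction of automorphisms over `F₀` to `L`. -/
noncomputable def rr (σ : F ≃ₐ[F₀] F) : L ≃ₐ[L₀] L := (σ.restrictScalars L₀).restrictNormal L

theorem rr_spec (σ : F ≃ₐ[F₀] F) (x : L) :
    algebraMap L F (rr (L₀ := L₀) σ x) = σ (algebraMap L F x) :=
  AlgEquiv.restrictNormal_commutes (σ.restrictScalars L₀) L x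

noncomputable def rrHom (L₀ L F₀ F : Type) [Field L₀] [Field L] [Field F₀] [Field F] [Algebra L₀ L]
    [Algebra L₀ F₀] [Algebra F₀ F] [Algebra L F] [Algebra L₀ F] [IsScalarTower L₀ L F]
    [IsScalarTower L₀ F₀ F] [FiniteDimensional L₀ L] [IsGalois L₀ L] [FiniteDimensional F₀ F]
    [IsGalois F₀ F] : (F ≃ₐ[F₀] F) →* (L ≃ₐ[L₀] L) where
  toFun σ := rr σ
  map_one' := by
    apply AlgEquiv.ext
    intro x
    apply (algebraMap L F).injective
    rw [rr_spec]
    rfl
  map_mul' σ τ := by
    apply AlgEquiv.ext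
    intro x
    apply (algebraMap L F).injective
    rw [rr_spec]
    change σ (τ (algebraMap L F x)) = algebraMap L F (rr (L₀ := L₀) σ (rr (L₀ := L₀) τ x))
    rw [rr_spec, rr_spec]

/- The restriction is surjective when `L₀` is algebraically closed in `F₀`. -/
theorem rr_surj (hreg : ∀ y : F₀, IsAlgebraic L₀ y → y ∈ Set.range (algebraMap L₀ F₀)) :
    Function.Surjective (rr (L₀ := L₀) (L := L) (F₀ := F₀) (F := F)) := by
  let H : Subgroup (L ≃ₐ[L₀] L) := (rrHom L₀ L F₀ F).range
  have hfix : IntermediateField.fixedField H = ⊥ := by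
    rw [eq_bot_iff]
    intro x hx
    have h1 : ∀ σ : F ≃ₐ[F₀] F, σ (algebraMap L F x) = algebraMap L F x := by
      intro σ
      rw [← rr_spec (L₀ := L₀)]
      congr 1
      exact hx ⟨rrHom L₀ L F₀ F σ, σ, rfl⟩
    obtain ⟨y, hy⟩ := (IsGalois.mem_range_algebraMap_iff_fixed (F := F₀) (E := F) _).2 h1
    have h2 : IsAlgebraic L₀ (algebraMap L F x) :=
      (Algebra.IsAlgebraic.isAlgebraic (R := L₀) x).algebraMap
    rw [← hy, isAlgebraic_algebraMap_iff (algebraMap F₀ F).injective] at h2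
    obtain ⟨z, hz⟩ := hreg y h2
    rw [IntermediateField.mem_bot]
    refine ⟨z, ?_⟩
    apply (algebraMap L F).injective
    rw [← IsScalarTower.algebraMap_apply L₀ L F, IsScalarTower.algebraMap_apply L₀ F₀ F, hz, hy]
  have hH : H = ⊤ := by
    rw [← IntermediateField.fixingSubgroup_fixedField H, hfix, IntermediateField.fixingSubgroup_bot]
  intro τ
  have : τ ∈ H := by rw [hH]; trivial
  obtain ⟨σ, hσ⟩ := this
  exact ⟨σ, hσ⟩

/- If `F` is generated by `L` over `F₀`, then `L` is algebraically closed in `F`. -/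
theorem alg_closed_lift
    (hreg : ∀ y : F₀, IsAlgebraic L₀ y → y ∈ Set.range (algebraMap L₀ F₀))
    (hgen : ∀ σ : F ≃ₐ[F₀] F, (∀ x : L, σ (algebraMap L F x) = algebraMap L F x) → σ = 1)
    (y : F) (hy : IsAlgebraic L y) : y ∈ Set.range (algebraMap L F) := by
  classical
  let A := algebraicClosure L₀ F
  have hAmem : ∀ z : F, z ∈ A ↔ IsAlgebraic L₀ z := fun z => mem_algebraicClosure_iff
  have hLA : ∀ x : L, algebraMap L F x ∈ A := fun x =>
    (hAmem _).2 (Algebra.IsAlgebraic.isAlgebraic (R := L₀) x).algebraMap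
  have hyA : y ∈ A := by
    rw [hAmem]
    exact hy.restrictScalars L₀
  have hstab : ∀ (σ : F ≃ₐ[F₀] F) (a : F), a ∈ A → σ a ∈ A := by
    intro σ a ha
    rw [hAmem] at ha ⊢
    exact IsAlgebraic.algHom (σ.restrictScalars L₀ : F →ₐ[L₀] F) ha
  let act : MulSemiringAction (F ≃ₐ[F₀] F) A :=
    { smul := fun σ a => ⟨σ a.1, hstab σ a.1 a.2⟩
      one_smul := fun a => rfl
      mul_smul := fun σ τ a => rfl
      smul_zero := fun σ => Subtype.ext (map_zero σ)
      smul_add := fun σ a b => Subtype.ext (map_add σ a.1 b.1)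
      smul_one := fun σ => Subtype.ext (map_one σ)
      smul_mul := fun σ a b => Subtype.ext (map_mul σ a.1 b.1) }
  have hsmul : ∀ (σ : F ≃ₐ[F₀] F) (a : A), ((σ • a : A) : F) = σ (a : F) := fun σ a => rfl
  have hfaith : FaithfulSMul (F ≃ₐ[F₀] F) A := ⟨fun {σ τ} h => by
    have h1 : τ⁻¹ * σ = 1 := by
      apply hgen
      intro x
      have h2 := congrArg (fun a : A => (a : F)) (h ⟨algebraMap L F x, hLA x⟩)
      simp only [hsmul] at h2
      change τ.symm (σ (algebraMap L F x)) = _
      rw [h2, AlgEquiv.symm_apply_apply]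
    exact (inv_mul_eq_one.1 h1).symm⟩
  have hft : Fintype (F ≃ₐ[F₀] F) := Fintype.ofFinite _
  have hcard := FixedPoints.finrank_eq_card (F ≃ₐ[F₀] F) A
  -- the fixed field is `L₀`
  have hfixed : ∀ a : A, (∀ σ : F ≃ₐ[F₀] F, σ • a = a) → ∃ z : L₀, algebraMap L₀ A z = a := by
    intro a ha
    have h1 : ∀ σ : F ≃ₐ[F₀] F, σ (a : F) = a := fun σ => by
      have := congrArg (fun a : A => (a : F)) (ha σ)
      exact this
    obtain ⟨w, hw⟩ := (IsGalois.mem_range_algebraMap_iff_fixed (F := F₀) (E := F) _).2 h1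
    have h2 : IsAlgebraic L₀ (a : F) := (hAmem _).1 a.2
    rw [← hw, isAlgebraic_algebraMap_iff (algebraMap F₀ F).injective] at h2
    obtain ⟨z, hz⟩ := hreg w h2
    refine ⟨z, Subtype.ext ?_⟩
    rw [← hw, ← hz, ← IsScalarTower.algebraMap_apply L₀ F₀ F]
    rfl
  let S := FixedPoints.subfield (F ≃ₐ[F₀] F) A
  have hmemS : ∀ z : L₀, algebraMap L₀ A z ∈ S := by
    intro z σ
    apply Subtype.ext
    change σ (algebraMap L₀ F z) = algebraMap L₀ F z
    rw [IsScalarTower.algebraMap_apply L₀ F₀ F, AlgEquiv.commutes]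
  let i : L₀ ≃+* S := RingEquiv.ofBijective ((algebraMap L₀ A).codRestrict S hmemS)
    ⟨(algebraMap L₀ A).injective.codRestrict hmemS |> fun h => h, fun s => by
      obtain ⟨z, hz⟩ := hfixed s.1 s.2
      exact ⟨z, Subtype.ext hz⟩⟩
  have hfr : Module.finrank L₀ A = Fintype.card (F ≃ₐ[F₀] F) := by
    rw [← hcard]
    exact Algebra.finrank_eq_of_equiv_equiv i (RingEquiv.refl A) (by
      apply RingHom.ext
      intro z
      rfl)
  have hpos : 0 < Module.finrank L₀ A := by
    rw [hfr]
    exact Fintype.card_pos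
  have hfdA : FiniteDimensional L₀ A := Module.finite_of_finrank_pos hpos
  -- cardinality
  have hinj : Function.Injective (rrHom L₀ L F₀ F) := by
    rw [injective_iff_map_eq_one]
    intro σ hσ
    apply hgen
    intro x
    rw [← rr_spec (L₀ := L₀)]
    congr 1
    exact congrArg (fun f : L ≃ₐ[L₀] L => f x) hσ
  have hle : Module.finrank L₀ A ≤ Module.finrank L₀ L := by
    rw [hfr, ← IsGalois.card_aut_eq_finrank, ← Nat.card_eq_fintype_card]
    exact Nat.card_le_card_of_injective _ hinj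
  let jl : L →ₗ[L₀] A :=
    { toFun := fun x => ⟨algebraMap L F x, hLA x⟩
      map_add' := fun a b => Subtype.ext (map_add _ a b)
      map_smul' := fun c a => Subtype.ext (by
        change algebraMap L F (c • a) = c • algebraMap L F a
        rw [Algebra.smul_def, map_mul, ← IsScalarTower.algebraMap_apply L₀ L F, Algebra.smul_def]) }
  have hjl : Function.Injective jl := fun a b h =>
    (algebraMap L F).injective (congrArg Subtype.val h)
  have heq : Module.finrank L₀ L = Module.finrank L₀ A :=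
    le_antisymm (LinearMap.finrank_le_finrank_of_injective hjl) hle
  have hsurj : Function.Surjective jl :=
    (LinearMap.injective_iff_surjective_of_finrank_eq_finrank heq).1 hjl
  obtain ⟨x, hx⟩ := hsurj ⟨y, hyA⟩
  exact ⟨x, congrArg Subtype.val hx⟩

end lin

end Pool.Agent.TH59.WX
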