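import Mathlib
import Pool.Agent.H84.L.S8_H391R2_HitOne
import Pool.Agent.H84.L.S8_H391R2_HitSq



namespace Pool.Agent.H391R2

open Polynomial

/- Root form of Hilbert irreducibility, one integer parameter, over a `ℚ`-algebra. -/
def HP (A : Type) [CommRing A] : Prop :=
  ∀ f : A[X][X], f.Monic → (∀ g : A[X], f.eval g ≠ 0) → ∀ B : ℤ,
    ∃ t : ℤ, B < t ∧ ∀ x : A, f.evalEval (t : A) x ≠ 0

theorem hp_rat : HP ℚ := by
  intro f hf hroot B
  classical
  set φ : ℤ[X] →+* ℚ[X] := mapRingHom (Int.castRingHom ℚ) with hφ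
  have hφinj : Function.Injective φ := map_injective _ Int.cast_injective
  have hclear : ∀ i, ∃ c : ℤ, c ≠ 0 ∧ C (c : ℚ) * f.coeff i ∈ φ.range := by
    intro i
    obtain ⟨c, P, hc, hP⟩ := exists_clear (R := ℤ) (f.coeff i)
    refine ⟨c, hc, P, ?_⟩
    rw [hφ, coe_mapRingHom]
    simpa using hP
  choose c hc0 hc using hclear
  set δ : ℤ := ∏ i ∈ Finset.range (f.natDegree), c i with hδ
  have hδ0 : δ ≠ 0 := Finset.prod_ne_zero_iff.2 fun i _ => hc0 i
  have hδQ : (δ : ℚ) ≠ 0 := by exact_mod_cast hδ0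
  have hCint : ∀ m : ℤ, C (m : ℚ) ∈ φ.range := fun m => ⟨C m, by simp [hφ]⟩
  have hlift : scaleRoots f (C (δ : ℚ)) ∈ lifts φ := by
    rw [lifts_iff_coeff_lifts]
    intro i
    rw [coeff_scaleRoots]
    change _ ∈ φ.range
    rcases lt_trichotomy i f.natDegree with hi | hi | hi
    · have h1 : f.coeff i * C (δ : ℚ) ^ (f.natDegree - i) =
        (C ((∏ k ∈ (Finset.range f.natDegree).erase i, c k : ℤ) : ℚ)) * (C (c i : ℚ) * f.coeff i) *
          C (δ : ℚ) ^ (f.natDegree - i - 1) := by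
        have h2 : (δ : ℚ) = ((∏ k ∈ (Finset.range f.natDegree).erase i, c k : ℤ) : ℚ) * c i := by
          rw [hδ, ← Finset.prod_erase_mul _ _ (Finset.mem_range.2 hi)]
          push_cast; rfl
        have h3 : C (δ : ℚ) ^ (f.natDegree - i) =
            C (δ : ℚ) * C (δ : ℚ) ^ (f.natDegree - i - 1) := by
          rw [← pow_succ']; congr 1; omega
        have h4 : C (δ : ℚ) = C ((∏ k ∈ (Finset.range f.natDegree).erase i, c k : ℤ) : ℚ) *
            C (c i : ℚ) := by rw [← C_mul, ← h2]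
        rw [h3]
        nth_rewrite 1 [h4]
        ring
      rw [h1]
      exact φ.range.mul_mem (φ.range.mul_mem (hCint _) (hc i)) (φ.range.pow_mem (hCint δ) _)
    · rw [hi, hf.coeff_natDegree, Nat.sub_self, pow_zero, mul_one]
      exact φ.range.one_mem
    · rw [coeff_eq_zero_of_natDegree_lt hi, zero_mul]
      exact φ.range.zero_mem
  obtain ⟨F, hF, -, hFm⟩ := lifts_and_natDegree_eq_and_monic hlift
    ((monic_scaleRoots_iff _).2 hf)
  have hFroot : ∀ g : ℤ[X], F.eval g ≠ 0 := by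
    intro g hg
    apply hroot (C (δ : ℚ)⁻¹ * φ g)
    have h1 : (scaleRoots f (C (δ : ℚ))).eval (φ g) = 0 := by
      rw [← hF, eval_map_apply, hg, map_zero]
    have h2 : φ g = C (δ : ℚ) * (C (δ : ℚ)⁻¹ * φ g) := by
      rw [← mul_assoc, ← C_mul, mul_inv_cancel₀ hδQ, C_1, one_mul]
    rw [h2, scaleRoots_eval_mul] at h1
    have h3 : (C (δ : ℚ)) ^ f.natDegree ≠ 0 := pow_ne_zero _ (C_ne_zero.2 hδQ)
    exact (mul_eq_zero.1 h1).resolve_left h3
  obtain ⟨t, ht, hroot'⟩ := hit_int F hFm hFroot B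
  refine ⟨t, ht, fun x hx => ?_⟩
  -- `δ x` is an integer root of `F(t, X)`
  have h1 : ((F.map (evalRingHom t)).map (Int.castRingHom ℚ)).eval ((δ : ℚ) * x) = 0 := by
    have h2 : (F.map (evalRingHom t)).map (Int.castRingHom ℚ) =
        (scaleRoots f (C (δ : ℚ))).map (evalRingHom (t : ℚ)) := by
      rw [← hF, Polynomial.map_map, Polynomial.map_map]
      congr 1
      ext q
      · simp [hφ]
      · simp [hφ]
    rw [h2, eval_map]
    have h3 := scaleRoots_eval₂_mul (p := f) (evalRingHom (t : ℚ)) x (C (δ : ℚ))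
    rw [coe_evalRingHom, eval_C] at h3
    rw [h3, eval₂_evalRingHom, hx, mul_zero]
  have h4 : IsIntegral ℤ ((δ : ℚ) * x) := by
    refine ⟨F.map (evalRingHom t), hFm.map _, ?_⟩
    rw [← eval_map]
    exact h1
  obtain ⟨y, hy⟩ := IsIntegrallyClosed.isIntegral_iff.1 h4
  apply hroot' y
  rw [← hy] at h1
  have h5 : (Int.castRingHom ℚ) y = algebraMap ℤ ℚ y := rfl
  rw [← h5, eval_map_apply] at h1
  rw [← map_evalRingHom_eval]
  simpa using h1

/- Degree bound for a polynomial root. -/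
theorem natDegree_root_le {A : Type} [CommRing A] [IsDomain A] (p : A[X][X]) (hp : p.Monic)
    (D : ℕ) (hD : ∀ i, (p.coeff i).natDegree ≤ D) (g : A[X]) (hg : p.eval g = 0) :
    g.natDegree ≤ D := by
  by_contra hcon
  push Not at hcon
  set d := p.natDegree with hd
  rcases Nat.eq_zero_or_pos d with h0 | hpos
  · have h1 : p = 1 := hp.natDegree_eq_zero.1 h0
    rw [h1, eval_one] at hg
    exact one_ne_zero hg
  · rw [eval_eq_sum_range, Finset.sum_range_succ, hp.coeff_natDegree, one_mul, ← hd] at hg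
    have h1 : g ^ d = -∑ i ∈ Finset.range d, p.coeff i * g ^ i := by
      linear_combination hg
    have h2 : (g ^ d).natDegree ≤ D + (d - 1) * g.natDegree := by
      rw [h1, natDegree_neg]
      apply natDegree_sum_le_of_forall_le
      intro i hi
      have hi' := Finset.mem_range.1 hi
      refine natDegree_mul_le.trans (Nat.add_le_add (hD i) ?_)
      refine natDegree_pow_le.trans (Nat.mul_le_mul_right _ (by omega))
    rw [natDegree_pow] at h2
    have h3 : d * g.natDegree = (d - 1) * g.natDegree + g.natDegree := by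
      obtain ⟨e, he⟩ : ∃ e, d = e + 1 := ⟨d - 1, by omega⟩
      rw [he, Nat.add_sub_cancel]; ring
    omega


end Pool.Agent.H391R2
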