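import Mathlib
import Pool.Agent.H84.L.S8_W200_IG_HA
import Pool.Agent.H84.L.S8_W200_IG_HB



/-! # Hilbert irreducibility over `κ[X]`, `κ` finite: families of separable polynomials -/

namespace Pool.Agent.W200.IG

open Polynomial

theorem exists_PL (κ : Type) [Field κ] [Fintype κ] (n : ℕ) :
    ∃ S : Finset κ[X], (∀ f, f ∈ S ↔ f.degree < n) ∧ S.card = Fintype.card κ ^ n := by
  classical
  let F : (Fin n → κ) ↪ κ[X] :=
    ⟨fun v => (((degreeLTEquiv κ n).symm v : degreeLT κ n) : κ[X]), fun v w h => by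
      have := Subtype.ext h
      exact (degreeLTEquiv κ n).symm.injective this⟩
  refine ⟨Finset.univ.map F, fun f => ?_, ?_⟩
  · rw [Finset.mem_map]
    constructor
    · rintro ⟨v, -, rfl⟩
      exact mem_degreeLT.1 ((degreeLTEquiv κ n).symm v).2
    · intro hf
      refine ⟨degreeLTEquiv κ n ⟨f, mem_degreeLT.2 hf⟩, Finset.mem_univ _, ?_⟩
      change (((degreeLTEquiv κ n).symm (degreeLTEquiv κ n ⟨f, mem_degreeLT.2 hf⟩) :
        degreeLT κ n) : κ[X]) = f
      rw [LinearEquiv.symm_apply_apply]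
  · rw [Finset.card_map, Finset.card_univ, Fintype.card_pi]
    simp

theorem exists_prime_not_dvd {κ : Type} [Field κ] (c : κ[X]) (hc : c ≠ 0) :
    ∃ p : κ[X], Prime p ∧ ¬ p ∣ c := by
  have h1 : (X * c + 1).natDegree = c.natDegree + 1 := by
    rw [← C_1, natDegree_add_C, natDegree_X_mul hc]
  have h2 : ¬ IsUnit (X * c + 1) := by
    intro h
    have := natDegree_eq_zero_of_isUnit h
    omega
  have h3 : X * c + 1 ≠ 0 := by
    intro h
    rw [h, natDegree_zero] at h1
    omega
  obtain ⟨p, hp, hpd⟩ := WfDvdMonoid.exists_irreducible_factor h2 h3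
  refine ⟨p, hp.prime, fun h => ?_⟩
  have h4 : p ∣ 1 := by
    have := dvd_sub hpd (Dvd.dvd.mul_left h X)
    simpa using this
  exact hp.not_isUnit (isUnit_of_dvd_one h4)

/- Hilbert's irreducibility theorem over `κ[X]`, one parameter, root form, for finite families of
separable polynomials. -/
theorem hit_fam {κ : Type} [Field κ] [Finite κ] {ι : Type} [Finite ι] (f : ι → κ[X][X][X])
    (hf : ∀ i, (f i).Monic) (hs : ∀ i, RSep (f i)) (hroot : ∀ i g, (f i).eval g ≠ 0)
    (Fs : Finset κ[X]) :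
    ∃ t, t ∉ Fs ∧ ∀ i (x : κ[X]), (f i).evalEval t x ≠ 0 := by
  classical
  cases nonempty_fintype κ
  cases nonempty_fintype ι
  choose U V r hr hUV using hs
  have hDex : ∀ i, ∃ D : ℕ, ∀ j, ((f i).coeff j).natDegree ≤ D := by
    intro i
    refine ⟨(Finset.range ((f i).natDegree + 1)).sup fun j => ((f i).coeff j).natDegree,
      fun j => ?_⟩
    by_cases hj : j ≤ (f i).natDegree
    · exact Finset.le_sup (f := fun j => ((f i).coeff j).natDegree)
        (Finset.mem_range.2 (Nat.lt_succ_of_le hj))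
    · rw [coeff_eq_zero_of_natDegree_lt (not_le.1 hj), natDegree_zero]
      exact Nat.zero_le _
  choose D hD using hDex
  choose C0 hC0 using fun i => root_bound (f i) (hf i) (D i) (hD i)
  -- choose `a₀` with `r(a₀) ≠ 0`
  have hr0 : (∏ i, r i) ≠ 0 := Finset.prod_ne_zero_iff.2 fun i _ => hr i
  obtain ⟨a₀, ha₀⟩ : ∃ a : κ[X], (∏ i, r i).eval a ≠ 0 := by
    by_contra hcon
    push Not at hcon
    exact hr0 (Polynomial.funext fun a => by rw [hcon a, eval_zero])
  obtain ⟨p, hp, hpr⟩ := exists_prime_not_dvd _ ha₀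
  have hpri : ∀ i, ¬ p ∣ (r i).eval a₀ := by
    intro i h
    apply hpr
    rw [eval_prod]
    exact h.trans (Finset.dvd_prod_of_mem _ (Finset.mem_univ i))
  set δ : ℕ := p.natDegree with hδ
  have hδ1 : 1 ≤ δ := by
    rw [Nat.one_le_iff_ne_zero, hδ]
    intro h
    exact hp.not_isUnit (by
      rw [eq_C_of_natDegree_eq_zero h]
      refine isUnit_C.2 (isUnit_iff_ne_zero.2 fun h0 => hp.ne_zero ?_)
      rw [eq_C_of_natDegree_eq_zero h, h0, C_0])
  set q : ℕ := Fintype.card κ with hq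
  have hq1 : 1 < q := Fintype.one_lt_card
  let N : ι → ℕ := fun i => D i + (f i).natDegree * (3 * D i)
  set k : ℕ := (∑ i, (C0 i + 4 * D i * a₀.natDegree)) + q ^ δ * (∑ i, N i) + Fs.card + 1 with hk
  have hk1 : 1 ≤ k := by omega
  set z : κ[X] := p ^ k with hz
  have hz0 : z ≠ 0 := pow_ne_zero _ hp.ne_zero
  set Z : ℕ := z.natDegree with hZ
  have hZk : Z = k * δ := by rw [hZ, hz, natDegree_pow]
  have hZk' : k ≤ Z := by rw [hZk]; exact Nat.le_mul_of_pos_right _ hδ1
  have hcond1 : ∀ i, C0 i + 4 * D i * a₀.natDegree < 2 * Z := by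
    intro i
    have h : C0 i + 4 * D i * a₀.natDegree ≤ ∑ i, (C0 i + 4 * D i * a₀.natDegree) :=
      Finset.single_le_sum (f := fun i => C0 i + 4 * D i * a₀.natDegree)
      (fun i _ => Nat.zero_le _) (Finset.mem_univ i)
    omega
  have hcond2 : q ^ δ * (∑ i, N i) + Fs.card < q ^ Z := by
    have : Z < q ^ Z := Nat.lt_pow_self hq1
    omega
  obtain ⟨PZ, hPZ, hPZc⟩ := exists_PL κ Z
  obtain ⟨Pd, hPd, hPdc⟩ := exists_PL κ δ
  have hPZdeg : ∀ u ∈ PZ, u.natDegree ≤ Z := by
    intro u hu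
    exact natDegree_le_iff_degree_le.2 ((hPZ u).1 hu).le
  -- bad parameters
  let Bad : ι × κ[X] → Finset κ[X] := fun ix => PZ.filter fun u =>
    ∃ x : κ[X], p ∣ x - ix.2 ∧ (f ix.1).evalEval (a₀ + z ^ 2 * u) x = 0
  have hBad : ∀ ix, (Bad ix).card ≤ N ix.1 := by
    rintro ⟨i, x₀⟩
    by_cases hx0 : p ∣ (f i).evalEval a₀ x₀
    · have hx1 : ¬ p ∣ (derivative (f i)).evalEval a₀ x₀ := by
        intro hx1
        apply hpri i
        have h1 := congrArg (evalEval a₀ x₀) (hUV i)
        rw [evalEval_add, evalEval_mul, evalEval_mul, evalEval_C] at h1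
        rw [← h1]
        exact dvd_add (Dvd.dvd.mul_left hx0 _) (Dvd.dvd.mul_left hx1 _)
      apply bad_card (f i) (hf i) (hroot i) (D i) (hD i) (C0 i) (hC0 i) p hp a₀ x₀ hx1 hx0 k hk1
        (hcond1 i)
      intro u hu
      obtain ⟨h1, h2⟩ := Finset.mem_filter.1 hu
      exact ⟨hPZdeg u h1, h2⟩
    · have : Bad (i, x₀) = ∅ := by
        apply Finset.filter_eq_empty_iff.2
        rintro u - ⟨x, hx, hxu⟩
        apply hx0
        have h1 := evalEval_congr (f i) p a₀ x₀ (z ^ 2 * u) x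
          (Dvd.dvd.mul_right ((dvd_pow_self _ (by omega)).trans (dvd_pow_self z (by norm_num))) _) hx
        rw [hxu, zero_sub, dvd_neg] at h1
        exact h1
      rw [this, Finset.card_empty]
      exact Nat.zero_le _
  have hinj : Function.Injective (fun u : κ[X] => a₀ + z ^ 2 * u) := by
    intro u v huv
    have h1 : z ^ 2 ≠ 0 := pow_ne_zero _ hz0
    have h2 : z ^ 2 * u = z ^ 2 * v := add_left_cancel huv
    exact mul_left_cancel₀ h1 h2
  let BF : Finset κ[X] := PZ.filter fun u => a₀ + z ^ 2 * u ∈ Fs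
  have hBF : BF.card ≤ Fs.card := by
    apply Finset.card_le_card_of_injOn (fun u : κ[X] => a₀ + z ^ 2 * u)
    · intro u hu
      exact (Finset.mem_filter.1 hu).2
    · exact hinj.injOn
  have hunion : (((Finset.univ ×ˢ Pd).biUnion Bad) ∪ BF).card < PZ.card := by
    refine (Finset.card_union_le _ _).trans_lt ?_
    rw [hPZc]
    refine lt_of_le_of_lt ?_ hcond2
    refine Nat.add_le_add ?_ hBF
    refine Finset.card_biUnion_le.trans ?_
    refine (Finset.sum_le_sum fun ix _ => hBad ix).trans ?_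
    rw [Finset.sum_product]
    simp only [Finset.sum_const, smul_eq_mul]
    rw [← Finset.mul_sum, hPdc]
  obtain ⟨u, hu, hunot⟩ := Finset.exists_mem_notMem_of_card_lt_card hunion
  refine ⟨a₀ + z ^ 2 * u, ?_, ?_⟩
  · intro h
    apply hunot
    exact Finset.mem_union_right _ (Finset.mem_filter.2 ⟨hu, h⟩)
  · intro i x hx
    apply hunot
    apply Finset.mem_union_left
    rw [Finset.mem_biUnion]
    refine ⟨(i, x % p), ?_, ?_⟩
    · rw [Finset.mem_product]
      refine ⟨Finset.mem_univ _, ?_⟩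
      rw [hPd]
      have := EuclideanDomain.mod_lt x hp.ne_zero
      refine lt_of_lt_of_le this degree_le_natDegree
    · refine Finset.mem_filter.2 ⟨hu, x, ?_, hx⟩
      refine ⟨x / p, ?_⟩
      have := EuclideanDomain.div_add_mod x p
      linear_combination (-1) * this

end Pool.Agent.W200.IG
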