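import Mathlib
import Pool.Agent.H84.L.S8_H391R2_HitSq
import Pool.Agent.H84.L.S8_W200_IG_HB
import Pool.Agent.H84.L.S8_W200_IG_HC



/-! # Hilbert irreducibility over `κ(X)`, `κ` finite: one parameter, root form -/

namespace Pool.Agent.W200.IG

open Polynomial

theorem sep_scaleRoots {L : Type*} [Field L] (f : L[X]) (s : L) (hs : s ≠ 0)
    (h : f.Separable) : (scaleRoots f s).Separable := by
  have e : scaleRoots f s = C (s ^ f.natDegree) * f.comp (C s⁻¹ * X) := by
    ext i
    rw [coeff_scaleRoots, coeff_C_mul, comp_C_mul_X_coeff]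
    by_cases hi : i ≤ f.natDegree
    · have h1 : s ^ f.natDegree = s ^ (f.natDegree - i) * s ^ i := by
        rw [← pow_add, Nat.sub_add_cancel hi]
      rw [h1, inv_pow]
      field_simp
    · rw [coeff_eq_zero_of_natDegree_lt (not_le.1 hi)]
      simp
  obtain ⟨a, b, hab⟩ := h
  have h1 := congrArg (fun p : L[X] => p.comp (C s⁻¹ * X)) hab
  simp only [add_comp, mul_comp, one_comp] at h1
  have hs' : s ^ f.natDegree ≠ 0 := pow_ne_zero _ hs
  have hd : derivative (scaleRoots f s) =
      C (s ^ f.natDegree) * (C s⁻¹ * (derivative f).comp (C s⁻¹ * X)) := by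
    rw [e, derivative_C_mul, derivative_comp]
    simp
  refine ⟨C (s ^ f.natDegree)⁻¹ * a.comp (C s⁻¹ * X),
    C (s ^ f.natDegree)⁻¹ * C s * b.comp (C s⁻¹ * X), ?_⟩
  rw [hd, e]
  have h2 : C (s ^ f.natDegree)⁻¹ * C (s ^ f.natDegree) = (1 : L[X]) := by
    rw [← C_mul, inv_mul_cancel₀ hs', C_1]
  have h3 : C s * C s⁻¹ = (1 : L[X]) := by
    rw [← C_mul, mul_inv_cancel₀ hs, C_1]
  calc C (s ^ f.natDegree)⁻¹ * a.comp (C s⁻¹ * X) * (C (s ^ f.natDegree) * f.comp (C s⁻¹ * X)) +
        C (s ^ f.natDegree)⁻¹ * C s * b.comp (C s⁻¹ * X) *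
          (C (s ^ f.natDegree) * (C s⁻¹ * (derivative f).comp (C s⁻¹ * X)))
      = (C (s ^ f.natDegree)⁻¹ * C (s ^ f.natDegree)) *
        (a.comp (C s⁻¹ * X) * f.comp (C s⁻¹ * X) +
          (C s * C s⁻¹) * (b.comp (C s⁻¹ * X) * (derivative f).comp (C s⁻¹ * X))) := by ring
    _ = 1 := by rw [h2, h3, one_mul, one_mul, h1]

/- Root form of Hilbert irreducibility over the `K`-algebra `A`, with parameter in `K`, for finite
families of separable polynomials. -/
def HP (K A : Type) [Field K] [CommRing A] [Algebra K A] : Prop :=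
  ∀ (ι : Type) [Finite ι] (f : ι → A[X][X]), (∀ i, (f i).Monic) → (∀ i, RSep (f i)) →
    (∀ i g, (f i).eval g ≠ 0) → ∀ Fs : Finset K,
    ∃ t, t ∉ Fs ∧ ∀ i (x : A), (f i).evalEval (algebraMap K A t) x ≠ 0

theorem hp_base {κ : Type} [Field κ] [Finite κ] (K : Type) [Field K] [Algebra κ[X] K]
    [IsFractionRing κ[X] K] : HP K K := by
  classical
  intro ι _ f hf hs hroot Fs
  set α : κ[X] →+* K := algebraMap κ[X] K with hαdef
  have hα : Function.Injective α := IsFractionRing.injective _ _
  set φ : κ[X][X] →+* K[X] := mapRingHom α with hφ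
  have hφinj : Function.Injective φ := map_injective _ hα
  have key : ∀ i, ∃ (δ : κ[X]) (F : κ[X][X][X]), δ ≠ 0 ∧ F.Monic ∧
      F.map φ = scaleRoots (f i) (C (α δ)) := by
    intro i
    have hclear : ∀ j, ∃ c : κ[X], c ≠ 0 ∧ C (α c) * (f i).coeff j ∈ φ.range := by
      intro j
      obtain ⟨c, P, hc, hP⟩ := H391R2.exists_clear (R := κ[X]) ((f i).coeff j)
      refine ⟨c, hc, P, ?_⟩
      rw [hφ, coe_mapRingHom]
      exact hP
    choose c hc0 hc using hclear
    set δ : κ[X] := ∏ j ∈ Finset.range ((f i).natDegree), c j with hδ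
    have hδ0 : δ ≠ 0 := Finset.prod_ne_zero_iff.2 fun j _ => hc0 j
    have hCint : ∀ m : κ[X], C (α m) ∈ φ.range := fun m => ⟨C m, by simp [hφ]⟩
    have hlift : scaleRoots (f i) (C (α δ)) ∈ lifts φ := by
      rw [lifts_iff_coeff_lifts]
      intro j
      rw [coeff_scaleRoots]
      change _ ∈ φ.range
      rcases lt_trichotomy j (f i).natDegree with hj | hj | hj
      · have h1 : (f i).coeff j * C (α δ) ^ ((f i).natDegree - j) =
          (C (α (∏ k ∈ (Finset.range (f i).natDegree).erase j, c k))) *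
            (C (α (c j)) * (f i).coeff j) * C (α δ) ^ ((f i).natDegree - j - 1) := by
          have h2 : α δ = α (∏ k ∈ (Finset.range (f i).natDegree).erase j, c k) * α (c j) := by
            rw [hδ, ← Finset.prod_erase_mul _ _ (Finset.mem_range.2 hj), map_mul]
          have h3 : C (α δ) ^ ((f i).natDegree - j) =
              C (α δ) * C (α δ) ^ ((f i).natDegree - j - 1) := by
            rw [← pow_succ']; congr 1; omega
          have h4 : C (α δ) = C (α (∏ k ∈ (Finset.range (f i).natDegree).erase j, c k)) *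
              C (α (c j)) := by rw [← C_mul, ← h2]
          rw [h3]
          nth_rewrite 1 [h4]
          ring
        rw [h1]
        exact φ.range.mul_mem (φ.range.mul_mem (hCint _) (hc j)) (φ.range.pow_mem (hCint δ) _)
      · rw [hj, (hf i).coeff_natDegree, Nat.sub_self, pow_zero, mul_one]
        exact φ.range.one_mem
      · rw [coeff_eq_zero_of_natDegree_lt hj, zero_mul]
        exact φ.range.zero_mem
    obtain ⟨F, hF, -, hFm⟩ := lifts_and_natDegree_eq_and_monic hlift
      ((monic_scaleRoots_iff _).2 (hf i))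
    exact ⟨δ, F, hδ0, hFm, hF⟩
  choose δ F hδ0 hFm hF using key
  have hδK : ∀ i, α (δ i) ≠ 0 := fun i => by
    rw [Ne, map_eq_zero_iff α hα]; exact hδ0 i
  have hFroot : ∀ i (g : κ[X][X]), (F i).eval g ≠ 0 := by
    intro i g hg
    apply hroot i (C (α (δ i))⁻¹ * φ g)
    have h1 : (scaleRoots (f i) (C (α (δ i)))).eval (φ g) = 0 := by
      rw [← hF, eval_map_apply, hg, map_zero]
    have h2 : φ g = C (α (δ i)) * (C (α (δ i))⁻¹ * φ g) := by
      rw [← mul_assoc, ← C_mul, mul_inv_cancel₀ (hδK i), C_1, one_mul]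
    rw [h2, scaleRoots_eval_mul] at h1
    have h3 : (C (α (δ i))) ^ (f i).natDegree ≠ 0 := pow_ne_zero _ (C_ne_zero.2 (hδK i))
    exact (mul_eq_zero.1 h1).resolve_left h3
  have hFs : ∀ i, RSep (F i) := by
    intro i
    let L := FractionRing K[X]
    let ψ : K[X] →+* L := algebraMap K[X] L
    have hψ : Function.Injective ψ := IsFractionRing.injective _ _
    apply rsep_of_sep (ψ.comp φ) (hψ.comp hφinj)
    rw [← Polynomial.map_map, hF, map_scaleRoots _ _ _ (by
      rw [(hf i).leadingCoeff, map_one]; exact one_ne_zero)]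
    apply sep_scaleRoots
    · rw [Ne, map_eq_zero_iff ψ hψ]
      exact C_ne_zero.2 (hδK i)
    · exact (hs i).sep ψ hψ
  obtain ⟨t, ht, hroot'⟩ := hit_fam F hFm hFs hFroot (Fs.preimage α hα.injOn)
  refine ⟨α t, fun h => ht (Finset.mem_preimage.2 h), fun i x hx => ?_⟩
  rw [Algebra.algebraMap_self_apply] at hx
  -- `δ x` is an integral root of `F(t, X)`
  have h1 : (((F i).map (evalRingHom t)).map α).eval (α (δ i) * x) = 0 := by
    have h2 : ((F i).map (evalRingHom t)).map α =
        (scaleRoots (f i) (C (α (δ i)))).map (evalRingHom (α t)) := by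
      rw [← hF, Polynomial.map_map, Polynomial.map_map]
      congr 1
      ext q
      · simp [hφ]
      · simp [hφ]
      · simp [hφ]
    rw [h2, eval_map]
    have h3 := scaleRoots_eval₂_mul (p := f i) (evalRingHom (α t)) x (C (α (δ i)))
    rw [coe_evalRingHom, eval_C] at h3
    rw [h3, eval₂_evalRingHom, hx, mul_zero]
  have h4 : IsIntegral κ[X] (α (δ i) * x) := by
    refine ⟨(F i).map (evalRingHom t), (hFm i).map _, ?_⟩
    rw [← eval_map]
    exact h1
  obtain ⟨y, hy⟩ := IsIntegrallyClosed.isIntegral_iff.1 h4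
  apply hroot' i y
  rw [← hy] at h1
  rw [← hαdef, eval_map_apply] at h1
  rw [← map_evalRingHom_eval]
  exact (map_eq_zero_iff α hα).1 h1

end Pool.Agent.W200.IG
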