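import Mathlib
import Pool.Agent.H84.L.A3_N600_NS_Abs
import Pool.Agent.H84.L.A3_N600_NS_NtD
import Pool.Agent.H84.L.A3_N600_NS_NtE
import Pool.Agent.H84.L.A3_N600_NS_NtF
import Pool.Agent.H84.L.A3_N600_NS_SemA
import Pool.Agent.H84.L.A3_N600_NS_SerA
import Pool.Agent.H84.L.A3_N600_NS_Sol
import Pool.Agent.H84.L.S8_H391R2_NtD
import Pool.Agent.H84.L.S8_H391R2_T4_Abs
import Pool.Agent.H84.L.S8_H391R2_T4_Fam
import Pool.Agent.H84.L.S8_H391R2_T4_NtD
import Pool.Agent.H84.L.S8_H391R2_T4_NtE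
import Pool.Agent.H84.L.S8_H391R2_T4_NtF
import Pool.Agent.H84.L.S8_H391R2_T4_NtS
import Pool.Agent.H84.L.S8_H391R2_T4_Phi
import Pool.Agent.H84.L.S8_H391R2_T4_Sem
import Pool.Agent.H84.L.S8_H391R2_T4_Sol
import Pool.Agent.H84.L.S8_TH59_WX_UC
import Pool.Agent.H84.L.S8_W200_IG_HF

namespace Pool.Agent.H391R2
end Pool.Agent.H391R2
namespace Pool.Agent.H391R2.T4
end Pool.Agent.H391R2.T4


/-!
# Weak solutions over extensions, as cocycles
-/

set_option autoImplicit false

namespace Pool.Agent.N600.NS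

open MvPolynomial
open Pool.Agent.H391R2
open Pool.Agent.H391R2.T4

set_option linter.unusedSectionVars false

/- The embedding problem `α` has a weak solution over the extension `K'` of `K`. -/
def WeakOver (K L B : Type) [Field K] [Field L] [Algebra K L] [Group B]
    (α : B →* (L ≃ₐ[K] L)) (K' : Type) [Field K'] [Algebra K K'] : Prop :=
  ∃ (M : Type) (_ : Field M) (_ : Algebra K' M) (_ : Algebra L M) (_ : Algebra K M)
    (_ : IsScalarTower K K' M) (_ : IsScalarTower K L M) (_ : FiniteDimensional K' M)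
    (_ : IsGalois K' M) (s : (M ≃ₐ[K'] M) →* B),
    ∀ (σ : M ≃ₐ[K'] M) (x : L), σ (algebraMap L M x) = algebraMap L M (α (s σ) x)

/- The degrees of the finite extensions of `K` over which `α` has a weak solution. -/
def Degs (K L B : Type) [Field K] [Field L] [Algebra K L] [Group B]
    (α : B →* (L ≃ₐ[K] L)) : Set ℕ :=
  {m | ∃ (K' : Type) (_ : Field K') (_ : Algebra K K'), FiniteDimensional K K' ∧
    Module.finrank K K' = m ∧ WeakOver K L B α K'}

section cocycle

/- Cocycles on a coset space. -/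
theorem exists_cocycle {Γ' Γ B : Type} [Group Γ'] [Group Γ] [Group B] (res : Γ' →* Γ) (α : B →* Γ)
    (sec : Γ → B) (hsec : ∀ ρ, α (sec ρ) = ρ) (H : Subgroup Γ') (s : H →* B)
    (hs : ∀ h : H, α (s h) = res h) :
    ∃ (π : Γ' →* Equiv.Perm (Γ' ⧸ H)) (β : Γ' → Γ' ⧸ H → B),
      (∀ ρ ρ' z, β (ρ * ρ') z = β ρ (π ρ' z) * β ρ' z) ∧ ∀ ρ z, α (β ρ z) = res ρ := by
  let τ : Γ' ⧸ H → Γ' := Quotient.out
  have hτ : ∀ z, (QuotientGroup.mk (τ z) : Γ' ⧸ H) = z := fun z => QuotientGroup.out_eq' z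
  have hmem : ∀ (ρ : Γ') (z : Γ' ⧸ H), (τ (ρ • z))⁻¹ * (ρ * τ z) ∈ H := by
    intro ρ z
    rw [← QuotientGroup.eq, hτ]
    rw [← smul_eq_mul, ← MulAction.Quotient.smul_mk, hτ]
  let h : Γ' → Γ' ⧸ H → H := fun ρ z => ⟨_, hmem ρ z⟩
  have hh : ∀ ρ ρ' z, h (ρ * ρ') z = h ρ (ρ' • z) * h ρ' z := by
    intro ρ ρ' z
    apply Subtype.ext
    change (τ ((ρ * ρ') • z))⁻¹ * (ρ * ρ' * τ z) =
      ((τ (ρ • (ρ' • z)))⁻¹ * (ρ * τ (ρ' • z))) * ((τ (ρ' • z))⁻¹ * (ρ' * τ z))
    rw [mul_smul]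
    group
  let b : Γ' ⧸ H → B := fun z => sec (res (τ z))
  refine ⟨MulAction.toPermHom Γ' (Γ' ⧸ H), fun ρ z => b (ρ • z) * s (h ρ z) * (b z)⁻¹, ?_, ?_⟩
  · intro ρ ρ' z
    change b ((ρ * ρ') • z) * s (h (ρ * ρ') z) * (b z)⁻¹ =
      b (ρ • (ρ' • z)) * s (h ρ (ρ' • z)) * (b (ρ' • z))⁻¹ * (b (ρ' • z) * s (h ρ' z) * (b z)⁻¹)
    rw [hh, map_mul, mul_smul]
    group
  · intro ρ z
    change α (b (ρ • z) * s (h ρ z) * (b z)⁻¹) = res ρ
    rw [map_mul, map_mul, map_inv, hs]
    simp only [b, hsec]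
    change res (τ (ρ • z)) * res ((τ (ρ • z))⁻¹ * (ρ * τ z)) * (res (τ z))⁻¹ = res ρ
    rw [map_mul, map_mul, map_inv]
    group

end cocycle

section pack

variable {K L : Type} [Field K] [CharZero K] [Field L] [Algebra K L]
  [FiniteDimensional K L] [IsGalois K L]

/- A weak solution over an extension gives a cocycle. -/
theorem pack_one {L' B : Type} [Field L'] [Algebra K L'] [FiniteDimensional K L'] [IsGalois K L']
    [Algebra L L'] [IsScalarTower K L L'] [Group B] (α : B →* (L ≃ₐ[K] L))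
    (hα : Function.Surjective α) (K' M : Type) [Field K'] [Algebra K K'] [FiniteDimensional K K']
    [Field M] [Algebra K' M] [Algebra L M] [Algebra K M] [IsScalarTower K K' M]
    [IsScalarTower K L M] [IsGalois K' M] (s : (M ≃ₐ[K'] M) →* B)
    (hs : ∀ (σ : M ≃ₐ[K'] M) (x : L), σ (algebraMap L M x) = algebraMap L M (α (s σ) x))
    (ψ : M →ₐ[K] L') (hψ : ∀ x : L, ψ (algebraMap L M x) = algebraMap L L' x) :
    ∃ (Z : Type) (_ : Finite Z) (π : (L' ≃ₐ[K] L') →* Equiv.Perm Z)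
      (β : (L' ≃ₐ[K] L') → Z → B), (∀ ρ ρ' z, β (ρ * ρ') z = β ρ (π ρ' z) * β ρ' z) ∧
      (∀ ρ z, α (β ρ z) = ρ.restrictNormal L) ∧ Nat.card Z = Module.finrank K K' := by
  let _ : Algebra M L' := ψ.toRingHom.toAlgebra
  let _ : Algebra K' L' := ((algebraMap M L').comp (algebraMap K' M)).toAlgebra
  have hT : IsScalarTower K' M L' := IsScalarTower.of_algebraMap_eq fun x => rfl
  have hψinj : Function.Injective ψ := ψ.toRingHom.injective
  let F₀ : IntermediateField K L' := (ψ.comp (IsScalarTower.toAlgHom K K' M)).fieldRange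
  let H : Subgroup (L' ≃ₐ[K] L') := F₀.fixingSubgroup
  have hfix : ∀ (ρ : H) (x : K'), (ρ : L' ≃ₐ[K] L') (algebraMap K' L' x) = algebraMap K' L' x := by
    intro ρ x
    exact (IntermediateField.mem_fixingSubgroup_iff F₀ _).1 ρ.2 _ ⟨x, rfl⟩
  let up : H → (L' ≃ₐ[K'] L') := fun ρ =>
    AlgEquiv.ofRingEquiv (f := ((ρ : L' ≃ₐ[K] L') : L' ≃+* L')) (fun x => hfix ρ x)
  have hup : ∀ (ρ : H) (x : M), ψ ((up ρ).restrictNormal M x) = (ρ : L' ≃ₐ[K] L') (ψ x) :=
    fun ρ x => AlgEquiv.restrictNormal_commutes (up ρ) M x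
  let t : H →* (M ≃ₐ[K'] M) :=
    { toFun := fun ρ => (up ρ).restrictNormal M
      map_one' := by
        apply AlgEquiv.ext
        intro x
        apply hψinj
        rw [hup]
        rfl
      map_mul' := fun ρ ρ' => by
        apply AlgEquiv.ext
        intro x
        apply hψinj
        rw [hup]
        change (ρ : L' ≃ₐ[K] L') ((ρ' : L' ≃ₐ[K] L') (ψ x)) =
          ψ ((up ρ).restrictNormal M ((up ρ').restrictNormal M x))
        rw [hup, hup] }
  have ht : ∀ (ρ : H) (x : M), ψ (t ρ x) = (ρ : L' ≃ₐ[K] L') (ψ x) := hup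
  choose sec hsec using hα
  have hst : ∀ h : H, α ((s.comp t) h) = (AlgEquiv.restrictNormalHom L : (L' ≃ₐ[K] L') →* _) h := by
    intro h
    apply AlgEquiv.ext
    intro x
    apply (algebraMap L L').injective
    change algebraMap L L' (α (s (t h)) x) = algebraMap L L' ((h : L' ≃ₐ[K] L').restrictNormal L x)
    rw [AlgEquiv.restrictNormal_commutes, ← hψ, ← hs, ht, hψ]
  obtain ⟨π, β, h1, h2⟩ := exists_cocycle (AlgEquiv.restrictNormalHom L) α sec hsec H (s.comp t) hst
  refine ⟨(L' ≃ₐ[K] L') ⧸ H, inferInstance, π, β, h1, h2, ?_⟩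
  have h3 : Nat.card ((L' ≃ₐ[K] L') ⧸ H) = H.index := rfl
  have h4 : Module.finrank K F₀ = H.index := IntermediateField.finrank_eq_fixingSubgroup_index _ F₀
  rw [h3, ← h4]
  exact (AlgEquiv.ofInjectiveField
    (ψ.comp (IsScalarTower.toAlgHom K K' M))).toLinearEquiv.finrank_eq.symm

/- Weak solutions over extensions give cocycles, for every large Galois extension. -/
theorem pack_degs {B : Type} [Group B] (α : B →* (L ≃ₐ[K] L)) (hα : Function.Surjective α) (m : ℕ)
    (hm : m ∈ Degs K L B α) : ∃ S : Finset (AlgebraicClosure L), (∀ x ∈ S, IsIntegral K x) ∧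
    ∀ (L' : Type) [Field L'] [Algebra K L'] [FiniteDimensional K L'] [IsGalois K L']
      [Algebra L L'] [IsScalarTower K L L'] (j : L' →ₐ[L] AlgebraicClosure L),
      (∀ x ∈ S, ∃ z, j z = x) →
    ∃ (Z : Type) (_ : Finite Z) (π : (L' ≃ₐ[K] L') →* Equiv.Perm Z)
      (β : (L' ≃ₐ[K] L') → Z → B), (∀ ρ ρ' z, β (ρ * ρ') z = β ρ (π ρ' z) * β ρ' z) ∧
      (∀ ρ z, α (β ρ z) = ρ.restrictNormal L) ∧ Nat.card Z = m := by
  classical
  obtain ⟨K', i1, i2, i3, rfl, M, j1, j2, j3, j4, j5, j6, j7, j8, s, hs⟩ := hm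
  have hfd : FiniteDimensional K M := FiniteDimensional.trans K K' M
  have hfdL : FiniteDimensional L M := Module.Finite.of_restrictScalars_finite K L M
  let φ : M →ₐ[L] AlgebraicClosure L := IsAlgClosed.lift
  let b := Module.finBasis K M
  let S : Finset (AlgebraicClosure L) := Finset.univ.image fun q => φ (b q)
  refine ⟨S, fun x hx => ?_, ?_⟩
  · obtain ⟨q, -, rfl⟩ := Finset.mem_image.1 hx
    have h1 : IsIntegral K (b q) := Algebra.IsIntegral.isIntegral _
    exact h1.map (φ.restrictScalars K)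
  · intro L' k1 k2 k3 k4 k5 k6 j hj
    let jK : L' →ₐ[K] AlgebraicClosure L := j.restrictScalars K
    have hr : ∀ x : M, φ x ∈ jK.range := by
      intro x
      rw [← b.sum_repr x, map_sum]
      refine Subalgebra.sum_mem _ fun q _ => ?_
      have h1 : φ ((b.repr x) q • b q) = (b.repr x) q • φ (b q) :=
        map_smul (φ.restrictScalars K) _ _
      rw [h1]
      refine Subalgebra.smul_mem _ ?_ _
      obtain ⟨z, hz⟩ := hj (φ (b q)) (Finset.mem_image_of_mem _ (Finset.mem_univ q))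
      exact ⟨z, hz⟩
    let ψ : M →ₐ[K] L' := ((AlgEquiv.ofInjective jK jK.injective).symm : jK.range →ₐ[K] L').comp
      ((φ.restrictScalars K).codRestrict jK.range hr)
    have hψ : ∀ x, j (ψ x) = φ x := by
      intro x
      exact congrArg Subtype.val ((AlgEquiv.ofInjective jK jK.injective).apply_symm_apply
        ⟨φ x, hr x⟩)
    refine pack_one α hα K' M s hs ψ fun x => ?_
    apply j.toRingHom.injective
    change j (ψ (algebraMap L M x)) = j (algebraMap L L' x)
    rw [hψ, φ.commutes, j.commutes]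

/- Large Galois extensions. -/
theorem exists_big_gal (S : Finset (AlgebraicClosure L)) :
    ∃ (L' : Type) (_ : Field L') (_ : Algebra K L') (_ : FiniteDimensional K L')
      (_ : IsGalois K L') (_ : Algebra L L') (_ : IsScalarTower K L L')
      (j : L' →ₐ[L] AlgebraicClosure L), ∀ x ∈ S, ∃ z, j z = x := by
  classical
  let Ω := AlgebraicClosure L
  let b := Module.finBasis K L
  let S' : Finset Ω := S ∪ (Finset.univ.image fun q => algebraMap L Ω (b q))
  have hΩ : Algebra.IsAlgebraic K Ω := Algebra.IsAlgebraic.trans K L Ω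
  obtain ⟨L', i1, i2, i3, i4, j, hj⟩ := exists_galois' (F := K) S'
    (fun x _ => (hΩ.isAlgebraic x).isIntegral)
  have hLr : ∀ x : L, algebraMap L Ω x ∈ j.range := by
    intro x
    rw [← b.sum_repr x, map_sum]
    refine Subalgebra.sum_mem _ fun q _ => ?_
    rw [Algebra.smul_def, map_mul]
    refine mul_mem ?_ ?_
    · rw [← IsScalarTower.algebraMap_apply K L Ω]
      exact Subalgebra.algebraMap_mem _ _
    · obtain ⟨z, hz⟩ := hj (algebraMap L Ω (b q)) (Finset.mem_union_right _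
        (Finset.mem_image_of_mem (fun q => algebraMap L Ω (b q)) (Finset.mem_univ q)))
      exact ⟨z, hz⟩
  let ι : L →ₐ[K] L' := ((AlgEquiv.ofInjective j j.injective).symm : j.range →ₐ[K] L').comp
    ((IsScalarTower.toAlgHom K L Ω).codRestrict j.range hLr)
  have hι : ∀ x, j (ι x) = algebraMap L Ω x := by
    intro x
    exact congrArg Subtype.val ((AlgEquiv.ofInjective j j.injective).apply_symm_apply
      ⟨algebraMap L Ω x, hLr x⟩)
  let _ : Algebra L L' := ι.toRingHom.toAlgebra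
  have hT : IsScalarTower K L L' := IsScalarTower.of_algebraMap_eq fun x => (ι.commutes x).symm
  refine ⟨L', i1, i2, i3, i4, inferInstance, hT, { (j : L' →+* Ω) with commutes' := hι },
    fun x hx => hj x (Finset.mem_union_left _ hx)⟩

end pack

end Pool.Agent.N600.NS
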