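import Mathlib



set_option autoImplicit false
set_option linter.unusedSectionVars false
set_option linter.unusedSimpArgs false

namespace Pool.Agent.Y793

open Polynomial

section span

variable {F N I : Type} [Field F] [Field N] [Algebra F N] [Fintype I]

/- Vectors satisfying relations over `F` are in the span of the solutions over `F`. -/
theorem mem_span_ker {J : Type} (L : J → ((I → F) →ₗ[F] F)) (LN : J → ((I → N) →ₗ[N] N))
    (hL : ∀ j c, LN j (fun i => algebraMap F N (c i)) = algebraMap F N (L j c)) (v : I → N)
    (hv : ∀ j, LN j v = 0) :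
    v ∈ Submodule.span N ((fun (c : I → F) (i : I) => algebraMap F N (c i)) ''
      ((⨅ j, LinearMap.ker (L j) : Submodule F (I → F)) : Set (I → F))) := by
  classical
  let b := Module.Basis.ofVectorSpace F N
  let S : Finset _ := Finset.univ.biUnion fun i : I => (b.repr (v i)).support
  let c : _ → (I → F) := fun s i => b.repr (v i) s
  have hvi : ∀ i, v i = ∑ s ∈ S, b s * algebraMap F N (c s i) := by
    intro i
    conv_lhs => rw [← b.linearCombination_repr (v i)]
    rw [Finsupp.linearCombination_apply, Finsupp.sum]
    refine Finset.sum_subset_zero_on_sdiff (fun s hs => Finset.mem_biUnion.2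
      ⟨i, Finset.mem_univ _, hs⟩) (fun s hs => ?_) (fun s _ => ?_)
    · have h1 : c s i = 0 := Finsupp.notMem_support_iff.1 (Finset.mem_sdiff.1 hs).2
      rw [h1, map_zero, mul_zero]
    · rw [Algebra.smul_def, mul_comm]
  have hv' : v = ∑ s ∈ S, b s • (fun i => algebraMap F N (c s i)) := by
    funext i
    rw [Finset.sum_apply]
    exact hvi i
  have hker : ∀ s, c s ∈ (⨅ j, LinearMap.ker (L j) : Submodule F (I → F)) := by
    intro s
    rw [Submodule.mem_iInf]
    intro j
    rw [LinearMap.mem_ker]
    have h1 := hv j
    rw [hv', map_sum] at h1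
    simp only [map_smul, hL, smul_eq_mul] at h1
    by_cases hs : s ∈ S
    · have h2 : ∑ s ∈ S, (L j (c s)) • b s = 0 := by
        rw [← h1]
        refine Finset.sum_congr rfl fun s _ => ?_
        rw [Algebra.smul_def, mul_comm]
      exact (linearIndependent_iff'.1 b.linearIndependent) S (fun s => L j (c s)) h2 s hs
    · have h2 : c s = 0 := by
        funext i
        by_contra h3
        exact hs (Finset.mem_biUnion.2 ⟨i, Finset.mem_univ _, Finsupp.mem_support_iff.2 h3⟩)
      rw [h2, map_zero]
  rw [hv']
  refine Submodule.sum_mem _ fun s _ => Submodule.smul_mem _ _ (Submodule.subset_span ⟨c s, hker s, rfl⟩)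

theorem mem_span_top (v : I → N) :
    v ∈ Submodule.span N ((fun (c : I → F) (i : I) => algebraMap F N (c i)) ''
      ((⊤ : Submodule F (I → F)) : Set (I → F))) := by
  have h1 := mem_span_ker (F := F) (N := N) (I := I) (J := Empty) (fun j => j.elim)
    (fun j => j.elim) (fun j => j.elim) v (fun j => j.elim)
  rwa [iInf_of_empty] at h1

end span


end Pool.Agent.Y793
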