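import Mathlib



set_option autoImplicit false
set_option linter.unusedSectionVars false
set_option linter.unusedSimpArgs false

namespace Pool.Agent.Y793

open Polynomial

section la


theorem exists_isotropic {F V : Type} [Field F] [IsAlgClosed F] [CharZero F] [AddCommGroup V]
    [Module F V] [FiniteDimensional F V] (B : V → V → F)
    (hc : ∀ a b, B a b = B b a) (ha : ∀ a b c, B a (b + c) = B a b + B a c)
    (hs : ∀ (a : V) (t : F) (b : V), B a (t • b) = t * B a b)
    (hB : ∀ U : Submodule F V, (∀ a ∈ U, B a a = 0) → Module.finrank F U + 1 < Module.finrank F V) :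
    ∃ e, B e e = 0 ∧ ∃ v, B e v ≠ 0 := by
  obtain ⟨v, hv⟩ : ∃ v, B v v ≠ 0 := by
    by_contra hcon
    push Not at hcon
    have h1 := hB ⊤ (fun a _ => hcon a)
    rw [finrank_top] at h1
    omega
  let f : V →ₗ[F] F :=
    { toFun := fun b => B v b
      map_add' := fun b c => ha v b c
      map_smul' := fun t b => hs v t b }
  obtain ⟨v', hv'0, hv'⟩ : ∃ v', B v v' = 0 ∧ B v' v' ≠ 0 := by
    by_contra hcon
    push Not at hcon
    have h1 := hB (LinearMap.ker f) (fun a h => hcon a (LinearMap.mem_ker.1 h))
    have h2 := f.finrank_range_add_finrank_ker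
    have h3 : Module.finrank F (LinearMap.range f) ≤ 1 := by
      refine (Submodule.finrank_le _).trans ?_
      simp
    omega
  obtain ⟨c, hc2⟩ := IsAlgClosed.exists_pow_nat_eq (-(B v v) / B v' v') (n := 2) (by norm_num)
  have e1 : ∀ a b c, B (b + c) a = B b a + B c a := by
    intro a b c
    rw [hc, ha, hc a b, hc a c]
  have e2 : ∀ (a : V) (t : F) (b : V), B (t • b) a = t * B b a := by
    intro a t b
    rw [hc, hs, hc]
  refine ⟨v + c • v', ?_, v, ?_⟩
  · rw [ha, e1, e1, hs, hs, e2, e2, hc v' v, hv'0]
    have h5 : c * (c * B v' v') = - B v v := by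
      rw [← mul_assoc, ← sq, hc2, div_mul_cancel₀ _ hv']
    linear_combination h5
  · rw [e1, e2, hc v' v, hv'0, mul_zero, add_zero]
    exact hv

end la


end Pool.Agent.Y793
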