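import Mathlib



set_option autoImplicit false
set_option linter.unusedSectionVars false
set_option linter.unusedSimpArgs false

namespace Pool.Agent.Y793

open Polynomial


section sb

variable {K ι : Type} [Field K] [CharZero K] [Fintype ι] {D : K[X]} {κ g u : ι → K[X]} {k : ℕ}


variable {k₀ N : Type} [Field k₀] [Field N] [Algebra K k₀] [Algebra K N] [Algebra k₀ N]
  [IsScalarTower K k₀ N]

instance towI (F : IntermediateField k₀ N) : IsScalarTower K F N :=
  IsScalarTower.of_algebraMap_eq fun _ => rfl

end sb

end Pool.Agent.Y793
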