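import Mathlib
import Pool.Agent.H84.L.S8_Y793_TrD



set_option autoImplicit false
set_option linter.unusedSectionVars false
set_option linter.unusedSimpArgs false

namespace Pool.Agent.Y793

open Polynomial

theorem basis_of_cl {k N : Type} [Field k] [Field N] [Algebra k N] {J : Type} [Finite J]
    (z : J → N) (hall : ∀ x, x ∈ cl k (Set.range z))
    (hle : (Nat.card J : Cardinal) ≤ Algebra.trdeg k N) : IsTranscendenceBasis k z := by
  have h1 : Algebra.IsAlgebraic (Algebra.adjoin k (Set.range z)) N := by
    rw [← IntermediateField.isAlgebraic_adjoin_iff_top]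
    exact ⟨fun x => mem_cl.1 (hall x)⟩
  refine Algebra.IsAlgebraic.isTranscendenceBasis_of_le_trdeg_of_finite k z ?_
  rw [← Nat.cast_card (α := J)]
  exact hle


end Pool.Agent.Y793
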