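import Mathlib
import Pool.Agent.H84.L.A3_N70_AW_Fa
import Pool.Agent.H84.L.A3_N70_AW_Rl
import Pool.Agent.H84.L.A3_N70_AW_Sa
import Pool.Agent.H84.L.S8_Y793_Lin
import Pool.Agent.H84.L.S8_Y793_Rel
import Pool.Agent.H84.L.S8_Y793_Sb
import Pool.Agent.H84.L.S8_Y793_Sd
import Pool.Agent.H84.L.S8_Y793_Stm
import Pool.Agent.H84.L.S8_Y793_TrD

namespace Pool.Agent.Y793
end Pool.Agent.Y793


set_option autoImplicit false
set_option linter.unusedSectionVars false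
set_option linter.unusedSimpArgs false

namespace Pool.Agent.N70.AW

open Polynomial Pool.Agent.Y793

section sc

variable {K ι : Type} [Field K] [CharZero K] [Fintype ι] {κ : Option ι → K[X]} {k : ℕ}
variable {k₀ N : Type} [Field k₀] [Field N] [Algebra K k₀] [Algebra K N] [Algebra k₀ N]
  [IsScalarTower K k₀ N]

theorem exists_e (h : Fm κ k) (hiso : St_iso) {F : Type} [Field F] [Algebra K F]
    [IsAlgClosed F] (w₁ w₂ : F) (X₁ X₂ : Option ι → Option ι → F)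
    (z₁ : ∀ i j : ι, X₁ (some i) (some j) = 0) (z₂ : ∀ i j : ι, X₂ (some i) (some j) = 0)
    (s₁ : ∀ i j, X₁ i j = X₁ j i) (s₂ : ∀ i j, X₂ i j = X₂ j i) (hne : w₁ ≠ w₂) :
    ∃ (e : Option ι → F) (i₀ : Option ι), e i₀ = 1 ∧ BB κ w₁ X₁ w₂ X₂ e e = 0 ∧
      ∃ b, BB κ w₁ X₁ w₂ X₂ e b ≠ 0 := by
  have hF : CharZero F := charZero_of_injective_algebraMap (algebraMap K F).injective
  obtain ⟨e, he, b, hb⟩ := exists_isotropic (BB κ w₁ X₁ w₂ X₂)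
    (BB_comm κ w₁ X₁ w₂ X₂ s₁ s₂) (BB_add κ w₁ X₁ w₂ X₂) (BB_smul κ w₁ X₁ w₂ X₂)
    (fun U hU => by
      have h1 := iso2 h hiso w₁ w₂ X₁ X₂ z₁ z₂ hne U (fun a ha => by
        have h2 := hU a ha
        unfold BB at h2
        rwa [sub_eq_zero] at h2)
      rw [Module.finrank_fintype_fun_eq_card, Fintype.card_option]
      omega)
  have he0 : ∃ i₀, e i₀ ≠ 0 := by
    by_contra hcon
    push Not at hcon
    have h1 : e = 0 := funext hcon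
    have h2 : BB κ w₁ X₁ w₂ X₂ e b = 0 := by
      rw [BB_comm κ w₁ X₁ w₂ X₂ s₁ s₂, h1]
      have h3 := BB_smul κ w₁ X₁ w₂ X₂ b 0 (0 : Option ι → F)
      rwa [zero_smul, zero_mul] at h3
    exact hb h2
  obtain ⟨i₀, hi₀⟩ := he0
  refine ⟨(e i₀)⁻¹ • e, i₀, ?_, ?_, b, ?_⟩
  · rw [Pi.smul_apply, smul_eq_mul, inv_mul_cancel₀ hi₀]
  · rw [BB_smul, BB_comm κ w₁ X₁ w₂ X₂ s₁ s₂, BB_smul, he, mul_zero, mul_zero]
  · rw [BB_comm κ w₁ X₁ w₂ X₂ s₁ s₂, BB_smul, BB_comm κ w₁ X₁ w₂ X₂ s₁ s₂]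
    exact mul_ne_zero (inv_ne_zero hi₀) hb

variable (η : Ix ι → N) (hη : IsTranscendenceBasis k₀ η) (h : Fm κ k)
include hη h

/- The isotropic vector is not orthogonal to the parameters. -/
theorem BB_ne (hgen : St_gen) (hiso : St_iso) {w₁ w₂ : N} {X₁ X₂ : Option ι → Option ι → N}
    (p₁ : Pt κ k₀ (fun i => η (Sum.inl i)) (η (Sum.inr ())) w₁ X₁)
    (p₂ : Pt κ k₀ (fun i => η (Sum.inl i)) (η (Sum.inr ())) w₂ X₂)
    (F : IntermediateField k₀ N) (hF : F = cl k₀ (Set.range ![w₁, w₂]))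
    (hw₁ : w₁ ∈ F) (hX₁ : ∀ i j, X₁ i j ∈ F) (hw₂ : w₂ ∈ F) (hX₂ : ∀ i j, X₂ i j ∈ F)
    (hne : (⟨w₁, hw₁⟩ : F) ≠ ⟨w₂, hw₂⟩)
    (e b : Option ι → F) (hb : BB κ (⟨w₁, hw₁⟩ : F) (fun i j => ⟨X₁ i j, hX₁ i j⟩) ⟨w₂, hw₂⟩
      (fun i j => ⟨X₂ i j, hX₂ i j⟩) e b ≠ 0) :
    BB κ w₁ X₁ w₂ X₂ (fun i => (e i : N)) (fun i => η (Sum.inl i)) ≠ 0 := by
  intro h0
  have halg := alg_over η hη F hw₁ hX₁ p₁
  let Y₁ : Option ι → Option ι → F := fun i j => ⟨X₁ i j, hX₁ i j⟩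
  let Y₂ : Option ι → Option ι → F := fun i j => ⟨X₂ i j, hX₂ i j⟩
  have hz₁ : ∀ i j : ι, Y₁ (some i) (some j) = 0 := fun i j => Subtype.ext (p₁.zero i j)
  have hz₂ : ∀ i j : ι, Y₂ (some i) (some j) = 0 := fun i j => Subtype.ext (p₂.zero i j)
  have hrel : BF κ (fun i => η (Sum.inl i)) (fun i => η (Sum.inl i)) (algebraMap F N ⟨w₁, hw₁⟩)
      (fun i j => algebraMap F N (Y₁ i j)) =
      BF κ (fun i => η (Sum.inl i)) (fun i => η (Sum.inl i)) (algebraMap F N ⟨w₂, hw₂⟩)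
      (fun i j => algebraMap F N (Y₂ i j)) :=
    p₁.hT.trans p₂.hT.symm
  let L : (Option ι → F) →ₗ[F] F :=
    { toFun := BB κ (⟨w₁, hw₁⟩ : F) Y₁ ⟨w₂, hw₂⟩ Y₂ e
      map_add' := BB_add κ _ _ _ _ e
      map_smul' := BB_smul κ _ _ _ _ e }
  let LN : (Option ι → N) →ₗ[N] N :=
    { toFun := BB κ w₁ X₁ w₂ X₂ (fun i => (e i : N))
      map_add' := BB_add κ _ _ _ _ _
      map_smul' := BB_smul κ _ _ _ _ _ }
  have hLN : ∀ c : Option ι → F, LN (fun i => (c i : N)) = ((L c : F) : N) := fun c =>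
    (BB_map κ (⟨w₁, hw₁⟩ : F) Y₁ (⟨w₂, hw₂⟩ : F) Y₂ (F.val.restrictScalars K) e c).symm
  have hmem := mem_span_ker (F := F) (N := N) (I := Option ι) (J := Unit) (fun _ => L)
    (fun _ => LN) (fun _ c => hLN c)
    (fun i => η (Sum.inl i)) (fun _ => h0)
  rw [ciInf_const] at hmem
  have hr := L.finrank_range_add_finrank_ker
  rw [Module.finrank_fintype_fun_eq_card, Fintype.card_option] at hr
  have hr1 : Module.finrank F (LinearMap.range L) ≤ 1 := by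
    refine (Submodule.finrank_le _).trans ?_
    simp
  have hr2 : 0 < Module.finrank F (LinearMap.range L) := by
    rw [Module.finrank_pos_iff_exists_ne_zero]
    exact ⟨⟨L b, ⟨b, rfl⟩⟩, fun h1 => hb (congrArg Subtype.val h1)⟩
  refine rel_contra h hgen hiso (fun i => η (Sum.inl i)) halg (LinearMap.ker L) hmem ?_ ?_ _ _
    Y₁ Y₂ hz₁ hz₂ hne hrel
  · subst hF
    refine le_trdeg_cl η hη ![w₁, w₂] _ ?_
    rw [card_Ix η hη]
    simp
    omega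
  · omega

end sc

section sd

variable {K ι : Type} [Field K] [CharZero K] [Fintype ι] {κ : Option ι → K[X]} {k : ℕ}
variable {k₀ N : Type} [Field k₀] [Field N] [Algebra K k₀] [Algebra K N] [Algebra k₀ N]
  [IsScalarTower K k₀ N]

theorem BB_mem (F : IntermediateField k₀ N) (a b : Option ι → N) (ha : ∀ i, a i ∈ F)
    (hb : ∀ i, b i ∈ F) {w₁ w₂ : N} {X₁ X₂ : Option ι → Option ι → N} (h1 : w₁ ∈ F)
    (h2 : ∀ i j, X₁ i j ∈ F) (h3 : w₂ ∈ F) (h4 : ∀ i j, X₂ i j ∈ F) :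
    BB κ w₁ X₁ w₂ X₂ a b ∈ F :=
  sub_mem (BF_mem F a b ha hb h1 X₁ h2) (BF_mem F a b ha hb h3 X₂ h4)

/- The formula for the coordinate `i₀`. -/
theorem coord [CharZero N] {w₁ w₂ : N} {X₁ X₂ : Option ι → Option ι → N} {v : Option ι → N}
    {T : N} (p₁ : Pt κ k₀ v T w₁ X₁) (p₂ : Pt κ k₀ v T w₂ X₂) (e : Option ι → N) (i₀ : Option ι)
    (hee : BB κ w₁ X₁ w₂ X₂ e e = 0) (hev : BB κ w₁ X₁ w₂ X₂ e v ≠ 0) :
    v i₀ = BB κ w₁ X₁ w₂ X₂ (v + (-(v i₀)) • e) (v + (-(v i₀)) • e) /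
      (-2 * BB κ w₁ X₁ w₂ X₂ e (v + (-(v i₀)) • e)) := by
  have hvv : BB κ w₁ X₁ w₂ X₂ v v = 0 := by
    unfold BB
    rw [p₁.hT, p₂.hT, sub_self]
  obtain ⟨h1, h2⟩ := BB_tilde κ w₁ X₁ w₂ X₂ p₁.sym p₂.sym e v (v i₀) hee hvv
  rw [h1, h2, eq_div_iff (mul_ne_zero (by norm_num) hev)]
  ring

variable (η : Ix ι → N) (hη : IsTranscendenceBasis k₀ η)
include hη

theorem mem_all [CharZero N] {w₁ w₂ : N} {X₁ X₂ : Option ι → Option ι → N}
    (p₁ : Pt κ k₀ (fun i => η (Sum.inl i)) (η (Sum.inr ())) w₁ X₁)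
    (p₂ : Pt κ k₀ (fun i => η (Sum.inl i)) (η (Sum.inr ())) w₂ X₂)
    (e : Option ι → N) (i₀ : Option ι) (he1 : e i₀ = 1)
    (hee : BB κ w₁ X₁ w₂ X₂ e e = 0)
    (hev : BB κ w₁ X₁ w₂ X₂ e (fun i => η (Sum.inl i)) ≠ 0)
    (L : IntermediateField k₀ N) (hL : ∀ x, IsAlgebraic L x → x ∈ L) (hw₁ : w₁ ∈ L)
    (hw₂ : w₂ ∈ L) (he : ∀ i, e i ∈ L)
    (hz : ∀ i, i ≠ i₀ → η (Sum.inl i) - η (Sum.inl i₀) * e i ∈ L) (x : N) : x ∈ L := by
  have hX₁ := p₁.X_mem L hL hw₁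
  have hX₂ := p₂.X_mem L hL hw₂
  have hct : ∀ i, ((fun i => η (Sum.inl i)) + (-(η (Sum.inl i₀))) • e) i ∈ L := by
    intro i
    change η (Sum.inl i) + -(η (Sum.inl i₀)) * e i ∈ L
    by_cases hi : i = i₀
    · subst hi
      rw [he1, mul_one, add_neg_cancel]
      exact L.zero_mem
    · have h1 := hz i hi
      have h2 : η (Sum.inl i) + -(η (Sum.inl i₀)) * e i =
        η (Sum.inl i) - η (Sum.inl i₀) * e i := by ring
      rw [h2]
      exact h1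
  have hc := coord p₁ p₂ e i₀ hee hev
  have h0 : η (Sum.inl i₀) ∈ L := by
    rw [hc]
    refine div_mem (BB_mem L _ _ hct hct hw₁ hX₁ hw₂ hX₂) (mul_mem ?_
      (BB_mem L _ _ he hct hw₁ hX₁ hw₂ hX₂))
    exact neg_mem (by exact_mod_cast L.natCast_mem 2)
  have hv : ∀ i, η (Sum.inl i) ∈ L := by
    intro i
    by_cases hi : i = i₀
    · rw [hi]
      exact h0
    · have h1 := add_mem (hz i hi) (mul_mem h0 (he i))
      rwa [sub_add_cancel] at h1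
  refine basis_top η hη L (fun x => L.algebraMap_mem x) (fun j => ?_) hL x
  rcases j with i | ⟨⟩
  · exact hv i
  · have h1 := BF_mem (κ := κ) L (fun i => η (Sum.inl i)) (fun i => η (Sum.inl i)) hv hv hw₁ X₁
      hX₁
    rw [p₁.hT] at h1
    exact h1

theorem card_sub [DecidableEq ι] (i₀ : Option ι) :
    Nat.card {i // i ≠ i₀} = Fintype.card ι := by
  rw [Nat.card_eq_fintype_card, Fintype.card_subtype_compl, Fintype.card_option,
    Fintype.card_subtype_eq]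
  omega

theorem basis₂ [CharZero N] {w₁ w₂ : N} {X₁ X₂ : Option ι → Option ι → N}
    (p₁ : Pt κ k₀ (fun i => η (Sum.inl i)) (η (Sum.inr ())) w₁ X₁)
    (p₂ : Pt κ k₀ (fun i => η (Sum.inl i)) (η (Sum.inr ())) w₂ X₂)
    (F : IntermediateField k₀ N) (hF : F = cl k₀ (Set.range ![w₁, w₂]))
    (e : Option ι → F) (i₀ : Option ι) (he1 : e i₀ = 1)
    (hee : BB κ w₁ X₁ w₂ X₂ (fun i => (e i : N)) (fun i => (e i : N)) = 0)
    (hev : BB κ w₁ X₁ w₂ X₂ (fun i => (e i : N)) (fun i => η (Sum.inl i)) ≠ 0) :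
    IsTranscendenceBasis F (fun i : {i // i ≠ i₀} =>
      η (Sum.inl i.1) - η (Sum.inl i₀) * (e i.1 : N)) ∧
    IsTranscendenceBasis k₀ (Sum.elim ![w₁, w₂] (fun i : {i // i ≠ i₀} =>
      η (Sum.inl i.1) - η (Sum.inl i₀) * (e i.1 : N))) := by
  classical
  have hw₁ : w₁ ∈ F := by
    rw [hF]
    exact sub_cl _ ⟨0, rfl⟩
  have hw₂ : w₂ ∈ F := by
    rw [hF]
    exact sub_cl _ ⟨1, rfl⟩
  constructor
  · refine basis_of_cl _ (fun x => ?_) ?_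
    · set S := Set.range fun i : {i // i ≠ i₀} =>
        η (Sum.inl i.1) - η (Sum.inl i₀) * (e i.1 : N) with hS
      have hmem : ∀ y ∈ F, y ∈ cl F S := fun y hy => (cl F S).algebraMap_mem (⟨y, hy⟩ : F)
      have hk : ∀ z : k₀, algebraMap k₀ N z ∈ (cl F S).toSubfield := fun z =>
        hmem _ (F.algebraMap_mem z)
      have hc : ∀ y, IsAlgebraic ((cl F S).toSubfield.toIntermediateField hk) y →
          y ∈ (cl F S).toSubfield.toIntermediateField hk := fun y hy => cl_closed (k := F) hy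
      exact mem_all η hη p₁ p₂ (fun i => (e i : N)) i₀ (by rw [he1]; rfl) hee hev
        ((cl F S).toSubfield.toIntermediateField hk) hc (hmem _ hw₁) (hmem _ hw₂)
        (fun i => hmem _ (e i).2) (fun i hi => sub_cl (k := F) S ⟨⟨i, hi⟩, rfl⟩) x
    · rw [card_sub η hη]
      subst hF
      refine le_trdeg_cl η hη ![w₁, w₂] _ ?_
      rw [card_Ix η hη]
      simp
  · refine basis_of_cl _ (fun x => ?_) ?_
    · have hsub : ∀ y ∈ F, y ∈ cl k₀ (Set.range (Sum.elim ![w₁, w₂] (fun i : {i // i ≠ i₀} =>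
          η (Sum.inl i.1) - η (Sum.inl i₀) * (e i.1 : N)))) := by
        intro y hy
        rw [hF] at hy
        refine cl_le ?_ (fun x hx => cl_closed hx) hy
        rintro _ ⟨j, rfl⟩
        exact sub_cl _ ⟨Sum.inl j, rfl⟩
      refine mem_all η hη p₁ p₂ (fun i => (e i : N)) i₀ (by rw [he1]; rfl) hee hev _
        (fun y hy => cl_closed hy) (hsub _ hw₁) (hsub _ hw₂) (fun i => hsub _ (e i).2)
        (fun i hi => sub_cl _ ⟨Sum.inr ⟨i, hi⟩, rfl⟩) x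
    · rw [← hη.cardinalMk_eq_trdeg, ← Nat.cast_card (α := Ix ι), card_Ix η hη, Nat.card_sum,
        card_sub η hη]
      simp
      norm_cast
      omega

end sd

section mv

variable {K ι : Type} [Field K] [CharZero K] [Fintype ι] {κ : Option ι → K[X]} {k : ℕ}
variable {k₀ N : Type} [Field k₀] [Field N] [Algebra K k₀] [Algebra K N] [Algebra k₀ N]
  [IsScalarTower K k₀ N] [IsAlgClosed N] (h : Fm κ k)

include h

/- The data of two distinct points. -/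
theorem two_pts (hgen : St_gen) (hiso : St_iso) (η : Ix ι → N) (hη : IsTranscendenceBasis k₀ η)
    {w₁ w₂ : N} {X₁ X₂ : Option ι → Option ι → N}
    (p₁ : Pt κ k₀ (fun i => η (Sum.inl i)) (η (Sum.inr ())) w₁ X₁)
    (p₂ : Pt κ k₀ (fun i => η (Sum.inl i)) (η (Sum.inr ())) w₂ X₂) (hne : w₂ ≠ w₁) :
    ∃ (e : Option ι → cl k₀ (Set.range ![w₁, w₂])) (i₀ : Option ι), e i₀ = 1 ∧
      BB κ w₁ X₁ w₂ X₂ (fun i => (e i : N)) (fun i => (e i : N)) = 0 ∧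
      ∀ (η' : Ix ι → N), IsTranscendenceBasis k₀ η' →
      Pt κ k₀ (fun i => η' (Sum.inl i)) (η' (Sum.inr ())) w₁ X₁ →
      Pt κ k₀ (fun i => η' (Sum.inl i)) (η' (Sum.inr ())) w₂ X₂ →
      BB κ w₁ X₁ w₂ X₂ (fun i => (e i : N)) (fun i => η' (Sum.inl i)) ≠ 0 := by
  have hcN : CharZero N := charZero_of_injective_algebraMap (algebraMap K N).injective
  set F := cl k₀ (Set.range ![w₁, w₂]) with hF
  have hFc : IsAlgClosed F := cl_isAlgClosed _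
  have hcl : ∀ x, IsAlgebraic F x → x ∈ F := fun x hx => cl_closed hx
  have hw₁ : w₁ ∈ F := sub_cl _ ⟨0, rfl⟩
  have hw₂ : w₂ ∈ F := sub_cl _ ⟨1, rfl⟩
  have hX₁ := p₁.X_mem F hcl hw₁
  have hX₂ := p₂.X_mem F hcl hw₂
  have hne' : (⟨w₁, hw₁⟩ : F) ≠ ⟨w₂, hw₂⟩ := fun h1 => hne (congrArg Subtype.val h1).symm
  obtain ⟨e, i₀, he1, hee, b, hb⟩ := exists_e h hiso (⟨w₁, hw₁⟩ : F) (⟨w₂, hw₂⟩ : F)
    (fun i j => ⟨X₁ i j, hX₁ i j⟩) (fun i j => ⟨X₂ i j, hX₂ i j⟩)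
    (fun i j => Subtype.ext (p₁.zero i j)) (fun i j => Subtype.ext (p₂.zero i j))
    (fun i j => Subtype.ext (p₁.sym i j)) (fun i j => Subtype.ext (p₂.sym i j)) hne'
  refine ⟨e, i₀, he1, ?_, ?_⟩
  · have h1 := BB_map κ (⟨w₁, hw₁⟩ : F) (fun i j => ⟨X₁ i j, hX₁ i j⟩) (⟨w₂, hw₂⟩ : F)
      (fun i j => ⟨X₂ i j, hX₂ i j⟩) (F.val.restrictScalars K) e e
    rw [hee, map_zero] at h1
    exact h1.symm
  · intro η' hη' p₁' p₂'
    exact BB_ne η' hη' h hgen hiso p₁' p₂' F hF hw₁ hX₁ hw₂ hX₂ hne' e b hb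

/- Two systems of parameters with two common points are conjugate. -/
theorem move (hgen : St_gen) (hiso : St_iso) (η η' : Ix ι → N)
    (hη : IsTranscendenceBasis k₀ η) (hη' : IsTranscendenceBasis k₀ η') {w₁ w₂ : N}
    {X₁ X₂ : Option ι → Option ι → N}
    (p₁ : Pt κ k₀ (fun i => η (Sum.inl i)) (η (Sum.inr ())) w₁ X₁)
    (p₂ : Pt κ k₀ (fun i => η (Sum.inl i)) (η (Sum.inr ())) w₂ X₂)
    (p₁' : Pt κ k₀ (fun i => η' (Sum.inl i)) (η' (Sum.inr ())) w₁ X₁)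
    (p₂' : Pt κ k₀ (fun i => η' (Sum.inl i)) (η' (Sum.inr ())) w₂ X₂) (hne : w₂ ≠ w₁) :
    ∃ τ : N ≃ₐ[cl k₀ (Set.range ![w₁, w₂])] N, ∀ i, τ (η i) = η' i := by
  have hcN : CharZero N := charZero_of_injective_algebraMap (algebraMap K N).injective
  obtain ⟨e, i₀, he1, hee, hev⟩ := two_pts h hgen hiso η hη p₁ p₂ hne
  have hb := basis₂ η hη p₁ p₂ _ rfl e i₀ he1 hee (hev η hη p₁ p₂)
  have hb' := basis₂ η' hη' p₁' p₂' _ rfl e i₀ he1 hee (hev η' hη' p₁' p₂')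
  obtain ⟨τ, hτ⟩ := exists_equiv_basis _ _ hb.1 hb'.1
  have hfix : ∀ x ∈ cl k₀ (Set.range ![w₁, w₂]), τ x = x := fun x hx =>
    τ.commutes (⟨x, hx⟩ : cl k₀ (Set.range ![w₁, w₂]))
  have hcl : ∀ x, IsAlgebraic (cl k₀ (Set.range ![w₁, w₂])) x →
    x ∈ cl k₀ (Set.range ![w₁, w₂]) := fun x hx => cl_closed hx
  have hw₁ : w₁ ∈ cl k₀ (Set.range ![w₁, w₂]) := sub_cl _ ⟨0, rfl⟩
  have hw₂ : w₂ ∈ cl k₀ (Set.range ![w₁, w₂]) := sub_cl _ ⟨1, rfl⟩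
  have hX₁ := p₁.X_mem _ hcl hw₁
  have hX₂ := p₂.X_mem _ hcl hw₂
  set e' : Option ι → N := fun i => (e i : N) with he'
  have he0 : e' i₀ = 1 := by
    rw [he']
    simp only [he1]
    rfl
  have hct : ∀ i, τ (((fun i => η (Sum.inl i)) + (-(η (Sum.inl i₀))) • e') i) =
      ((fun i => η' (Sum.inl i)) + (-(η' (Sum.inl i₀))) • e') i := by
    intro i
    change τ (η (Sum.inl i) + -(η (Sum.inl i₀)) * e' i) =
      η' (Sum.inl i) + -(η' (Sum.inl i₀)) * e' i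
    by_cases hi : i = i₀
    · rw [hi, he0, mul_one, mul_one, add_neg_cancel, add_neg_cancel, map_zero]
    · have h1 : ∀ a b : N, a + -b * e' i = a - b * e' i := fun a b => by ring
      rw [h1, h1]
      exact hτ ⟨i, hi⟩
  have hBB : ∀ a b : Option ι → N, τ (BB κ w₁ X₁ w₂ X₂ a b) =
      BB κ w₁ X₁ w₂ X₂ (fun i => τ (a i)) (fun i => τ (b i)) := by
    intro a b
    have h1 := BB_map κ w₁ X₁ w₂ X₂
      ((τ : N →ₐ[cl k₀ (Set.range ![w₁, w₂])] N).restrictScalars K) a b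
    have e1 : (fun i j => τ (X₁ i j)) = X₁ := by
      funext i j
      exact hfix _ (hX₁ i j)
    have e2 : (fun i j => τ (X₂ i j)) = X₂ := by
      funext i j
      exact hfix _ (hX₂ i j)
    change τ _ = BB κ (τ w₁) (fun i j => τ (X₁ i j)) (τ w₂) (fun i j => τ (X₂ i j)) _ _ at h1
    rwa [hfix _ hw₁, hfix _ hw₂, e1, e2] at h1
  have hfe : (fun i => τ (e' i)) = e' := funext fun i => hfix _ (e i).2
  have h0 : τ (η (Sum.inl i₀)) = η' (Sum.inl i₀) := by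
    rw [coord p₁ p₂ e' i₀ hee (hev η hη p₁ p₂), coord p₁' p₂' e' i₀ hee (hev η' hη' p₁' p₂'),
      map_div₀, map_mul, map_neg, map_ofNat, hBB, hBB, hfe]
    simp only [hct]
  have hv : ∀ i, τ (η (Sum.inl i)) = η' (Sum.inl i) := by
    intro i
    have h1 := hct i
    change τ (η (Sum.inl i) + -(η (Sum.inl i₀)) * e' i) =
      η' (Sum.inl i) + -(η' (Sum.inl i₀)) * e' i at h1
    rw [map_add, map_mul, map_neg, h0, congrFun hfe i] at h1
    exact add_right_cancel h1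
  refine ⟨τ, fun j => ?_⟩
  rcases j with i | ⟨⟩
  · exact hv i
  · have h1 := BF_map κ ((τ : N →ₐ[cl k₀ (Set.range ![w₁, w₂])] N).restrictScalars K)
      (fun i => η (Sum.inl i)) (fun i => η (Sum.inl i)) w₁ X₁
    change τ _ = BF κ (fun i => τ (η (Sum.inl i))) (fun i => τ (η (Sum.inl i))) (τ w₁)
      (fun i j => τ (X₁ i j)) at h1
    have e1 : (fun i j => τ (X₁ i j)) = X₁ := by
      funext i j
      exact hfix _ (hX₁ i j)
    rw [hfix _ hw₁, e1, p₁.hT, funext hv, p₁'.hT] at h1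
    exact h1

end mv

end Pool.Agent.N70.AW
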