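import Mathlib



set_option autoImplicit false
set_option linter.unusedSectionVars false
set_option linter.unusedSimpArgs false

namespace Pool.Agent.Y793

open Polynomial


section sa

variable {K ι : Type} [Field K] [CharZero K] [Fintype ι] {D : K[X]} {κ g u : ι → K[X]} {k : ℕ}
variable {k₀ N : Type} [Field k₀] [Field N] [Algebra K k₀] [Algebra K N] [Algebra k₀ N]
  [IsScalarTower K k₀ N]

/- Elements of an intermediate field. -/
theorem aeval_mem' (F : IntermediateField k₀ N) {x : N} (hx : x ∈ F) (p : K[X]) :
    aeval x p ∈ F := by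
  have h1 := Polynomial.aeval_algHom_apply (F.val.restrictScalars K) (⟨x, hx⟩ : F) p
  change aeval x p = _ at h1
  rw [h1]
  exact (aeval (⟨x, hx⟩ : F) p).2

end sa

end Pool.Agent.Y793
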