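import Mathlib



set_option autoImplicit false
set_option linter.unusedSectionVars false
set_option linter.unusedSimpArgs false

namespace Pool.Agent.Y793

open Polynomial

section gal

variable {K Z N : Type} [Field K] [Field Z] [Algebra (RatFunc K) Z] [Algebra K Z]
  [IsScalarTower K (RatFunc K) Z] [Field N] [Algebra K N]

/- A function field generator. -/
noncomputable def tz (K Z : Type) [Field K] [Field Z] [Algebra (RatFunc K) Z] (t₀ : K) : Z :=
  algebraMap (RatFunc K) Z (RatFunc.X - RatFunc.C t₀)


end gal


end Pool.Agent.Y793
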