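import Mathlib



/-!
# Evenness: division by the pencil (part 2 of the proof of `St_even`)
-/

set_option autoImplicit false

namespace Pool.Agent.N558.AW

open Polynomial Matrix

/-! ## Division with remainder -/

lemma division {R : Type} [CommRing R] (m b : ℕ) (Q : Matrix (Fin m) (Fin m) R[X]) (a : Rˣ)
    (hdeg : ∀ l l', (Q l l').natDegree ≤ b)
    (hc : ∀ l l', (Q l l').coeff b = if l = l' then (a : R) else 0) :
    ∀ (n : ℕ) (v : Fin m → R[X]), (∀ l, (v l).degree < n) →
      ∃ h ρ : Fin m → R[X], (∀ l, v l = ∑ k, Q l k * h k + ρ l) ∧ ∀ l, (ρ l).degree < b := by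
  intro n
  induction n with
  | zero =>
    intro v hv
    refine ⟨0, v, fun l => by simp, fun l => (hv l).trans_le ?_⟩
    exact_mod_cast Nat.zero_le b
  | succ n ih =>
    intro v hv
    by_cases hnb : n + 1 ≤ b
    · refine ⟨0, v, fun l => by simp, fun l => (hv l).trans_le ?_⟩
      exact_mod_cast hnb
    · have hbn : b ≤ n := by omega
      set h0 : Fin m → R[X] := fun k => C ((a⁻¹ : Rˣ) * (v k).coeff n) * X ^ (n - b) with hh0
      have hv' : ∀ l, (v l - ∑ k, Q l k * h0 k).degree < n := by
        intro l
        rw [Polynomial.degree_lt_iff_coeff_zero]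
        intro t ht
        rw [Polynomial.coeff_sub, Polynomial.finsetSum_coeff]
        have h1 : ∀ k, (Q l k * h0 k).coeff t =
            (Q l k).coeff (t - (n - b)) * ((a⁻¹ : Rˣ) * (v k).coeff n) := by
          intro k
          rw [hh0]
          show (Q l k * (C ((a⁻¹ : Rˣ) * (v k).coeff n) * X ^ (n - b))).coeff t = _
          rw [← mul_assoc, Polynomial.coeff_mul_X_pow', if_pos (by omega), Polynomial.coeff_mul_C]
        rw [Finset.sum_congr rfl fun k _ => h1 k]
        rcases Nat.eq_or_lt_of_le ht with rfl | ht'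
        · have h2 : n - (n - b) = b := by omega
          rw [h2]
          simp only [hc]
          rw [Finset.sum_eq_single l]
          · rw [if_pos rfl, ← mul_assoc, Units.mul_inv, one_mul, sub_self]
          · intro k _ hk
            rw [if_neg (Ne.symm hk), zero_mul]
          · intro h
            exact absurd (Finset.mem_univ l) h
        · rw [Finset.sum_eq_zero, sub_zero]
          · apply Polynomial.coeff_eq_zero_of_degree_lt
            refine (hv l).trans_le ?_
            exact_mod_cast ht'
          · intro k _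
            rw [Polynomial.coeff_eq_zero_of_natDegree_lt, zero_mul]
            have := hdeg l k
            omega
      obtain ⟨h, ρ, hh, hρ⟩ := ih _ hv'
      refine ⟨h0 + h, ρ, fun l => ?_, hρ⟩
      have := hh l
      simp only [Pi.add_apply, mul_add, Finset.sum_add_distrib]
      rw [add_assoc, ← this]
      ring

lemma eq_sum_fin {R : Type} [CommRing R] (b : ℕ) (p : R[X]) (hp : p.degree < b) :
    p = ∑ j : Fin b, C (p.coeff j) * X ^ (j : ℕ) := by
  ext t
  rw [Polynomial.finsetSum_coeff]
  simp only [Polynomial.coeff_C_mul, Polynomial.coeff_X_pow, mul_ite, mul_one, mul_zero]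
  by_cases ht : t < b
  · rw [Finset.sum_eq_single (⟨t, ht⟩ : Fin b)]
    · simp
    · intro j _ hj
      rw [if_neg]
      intro h
      exact hj (Fin.ext h.symm)
    · intro h
      exact absurd (Finset.mem_univ _) h
  · rw [Finset.sum_eq_zero]
    · apply Polynomial.coeff_eq_zero_of_degree_lt
      refine hp.trans_le ?_
      exact_mod_cast not_lt.1 ht
    · intro j _
      rw [if_neg]
      have := j.isLt
      omega

variable {N : Type} [Field N]

/- Division of the columns `X ^ j S` by the pencil. -/
def DivRel (m b : ℕ) (T : N) (A : N[X]) (S L : Matrix (Fin m) (Fin m) N[X]) (z : N)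
    (S' : Matrix (Fin b × Fin m) (Fin b × Fin m) N) : Prop :=
  ∃ h : Fin b × Fin m → Fin m → N[X], ∀ x l', X ^ (x.1 : ℕ) * S l' x.2 =
    ∑ k, ((C T - A) * (if l' = k then 1 else 0) - C z * (S * L) l' k) * h x k +
      ∑ j' : Fin b, C (S' (j', l') x) * X ^ (j' : ℕ)

lemma exists_family (m b : ℕ) (hb : 0 < b) (T : N) (A : N[X]) (S L : Matrix (Fin m) (Fin m) N[X])
    (hA : A.natDegree = b) (hLS : ∀ l l', ((S * L) l l').natDegree < b) :
    ∃ SZ : Matrix (Fin b × Fin m) (Fin b × Fin m) N[X], ∀ z : N,
      DivRel m b T A S L z (SZ.map (Polynomial.eval z)) := by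
  classical
  have hA0 : A.coeff b ≠ 0 := by
    rw [← hA, Polynomial.coeff_natDegree, Polynomial.leadingCoeff_ne_zero]
    rintro rfl
    simp at hA
    omega
  -- the pencil over `N[z]`
  set Q : Matrix (Fin m) (Fin m) N[X][X] := fun l k =>
    (C (C T) - A.map C) * (if l = k then 1 else 0) - C X * ((S * L) l k).map C with hQ
  let a : (N[X])ˣ := Units.map (C : N →+* N[X]).toMonoidHom (Units.mk0 (-(A.coeff b)) (neg_ne_zero.2 hA0))
  have ha : (a : N[X]) = C (-(A.coeff b)) := rfl
  have hdeg : ∀ l k, (Q l k).natDegree ≤ b := by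
    intro l k
    rw [hQ]
    refine (Polynomial.natDegree_sub_le _ _).trans (max_le ?_ ?_)
    · split_ifs
      · rw [mul_one]
        refine (Polynomial.natDegree_sub_le _ _).trans (max_le ?_ ?_)
        · rw [Polynomial.natDegree_C]; exact Nat.zero_le _
        · exact (Polynomial.natDegree_map_le).trans hA.le
      · simp
    · refine (Polynomial.natDegree_C_mul_le _ _).trans ?_
      exact (Polynomial.natDegree_map_le).trans (hLS l k).le
  have hc : ∀ l k, (Q l k).coeff b = if l = k then (a : N[X]) else 0 := by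
    intro l k
    rw [hQ, ha]
    show ((C (C T) - A.map C) * (if l = k then 1 else 0) - C X * ((S * L) l k).map C).coeff b = _
    rw [Polynomial.coeff_sub, Polynomial.coeff_C_mul, Polynomial.coeff_map,
      Polynomial.coeff_eq_zero_of_natDegree_lt (hLS l k), map_zero, mul_zero, sub_zero]
    split_ifs
    · rw [mul_one, Polynomial.coeff_sub, Polynomial.coeff_map, Polynomial.coeff_C, if_neg hb.ne',
        zero_sub, map_neg]
    · simp
  have hdiv : ∀ x : Fin b × Fin m, ∃ h ρ : Fin m → N[X][X],
      (∀ l, X ^ (x.1 : ℕ) * (S l x.2).map C = ∑ k, Q l k * h k + ρ l) ∧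
        ∀ l, (ρ l).degree < b := by
    intro x
    obtain ⟨n, hn⟩ : ∃ n : ℕ, ∀ l, (X ^ (x.1 : ℕ) * (S l x.2).map C : N[X][X]).degree < n := by
      refine ⟨(Finset.univ.sup fun l => (X ^ (x.1 : ℕ) * (S l x.2).map C : N[X][X]).natDegree) + 1,
        fun l => ?_⟩
      refine lt_of_le_of_lt Polynomial.degree_le_natDegree ?_
      have := Finset.le_sup (f := fun l =>
        (X ^ (x.1 : ℕ) * (S l x.2).map C : N[X][X]).natDegree) (Finset.mem_univ l)
      exact_mod_cast Nat.lt_succ_of_le this
    exact division m b Q a hdeg hc n _ hn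
  choose h ρ hh hρ using hdiv
  refine ⟨fun y x => (ρ x y.2).coeff y.1, fun z => ⟨fun x k => (h x k).map (Polynomial.evalRingHom z),
    fun x l' => ?_⟩⟩
  have h1 := hh x l'
  rw [eq_sum_fin b _ (hρ x l')] at h1
  have h2 := congrArg (Polynomial.mapRingHom (Polynomial.evalRingHom z)) h1
  have h3 : (Polynomial.evalRingHom z).comp (C : N →+* N[X]) = RingHom.id N := by
    ext y
    simp
  have h4 : ∀ p : N[X], (p.map C).map (Polynomial.evalRingHom z) = p := by
    intro p
    rw [Polynomial.map_map, h3, Polynomial.map_id]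
  simp only [map_mul, map_pow, map_add, map_sum, Polynomial.coe_mapRingHom, Polynomial.map_X,
    Polynomial.map_C, h4] at h2
  rw [h2]
  congr 1
  · refine Finset.sum_congr rfl fun k _ => ?_
    congr 1
    rw [hQ]
    show ((C (C T) - A.map C) * (if l' = k then 1 else 0) -
      C X * ((S * L) l' k).map C : N[X][X]).map (Polynomial.evalRingHom z) = _
    rw [Polynomial.map_sub, Polynomial.map_mul, Polynomial.map_mul, Polynomial.map_sub, h4, h4,
      Polynomial.map_C, Polynomial.map_C]
    congr 2
    · simp
    · split_ifs <;> simp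
    · simp

end Pool.Agent.N558.AW
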