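import Mathlib
import Pool.Agent.H84.L.S8_H391R2_WrGrp
import Pool.Agent.H84.L.S8_TH59_WX_GT1

namespace Pool.Agent.H391R2
end Pool.Agent.H391R2
namespace Pool.Agent.H391R2.T4
end Pool.Agent.H391R2.T4
namespace Pool.Agent.TH59.WX
end Pool.Agent.TH59.WX


/-!
# The inner automorphisms of `G ≀ S_m` have a complement if `|Out G|` divides `m`
-/

set_option autoImplicit false

namespace Pool.Agent.N600.UK

open Pool.Agent.H391R2 Pool.Agent.H391R2.T4 Pool.Agent.TH59.WX

set_option linter.unusedSectionVars false

/- The group of inner automorphisms. -/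
abbrev Inn (G : Type) [Group G] : Subgroup (MulAut G) := (MulAut.conj : G →* MulAut G).range

theorem aut_conj {G : Type} [Group G] (a : MulAut G) (g : G) :
    a * MulAut.conj g = MulAut.conj (a g) * a := by
  apply MulEquiv.ext
  intro x
  simp only [MulAut.mul_apply, MulAut.conj_apply, map_mul, map_inv]

instance inn_normal (G : Type) [Group G] : (Inn G).Normal := by
  refine ⟨?_⟩
  rintro _ ⟨g, rfl⟩ a
  exact ⟨a g, by rw [aut_conj, mul_inv_cancel_right]⟩

/- The group of outer automorphisms. -/
abbrev Out (G : Type) [Group G] : Type := MulAut G ⧸ Inn G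

/- The class of an automorphism. -/
abbrev cls (G : Type) [Group G] : MulAut G →* Out G := QuotientGroup.mk' (Inn G)

theorem cls_eq_one {G : Type} [Group G] (a : MulAut G) :
    cls G a = 1 ↔ ∃ g : G, MulAut.conj g = a := QuotientGroup.eq_one_iff a

theorem cls_conj {G : Type} [Group G] (g : G) : cls G (MulAut.conj g) = 1 :=
  (cls_eq_one _).2 ⟨g, rfl⟩

theorem conj_inj {G : Type} [Group G] (hZ : ∀ z : G, (∀ g : G, z * g = g * z) → z = 1) :
    Function.Injective (MulAut.conj : G →* MulAut G) := by
  rw [injective_iff_map_eq_one]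
  intro z hz
  apply hZ
  intro g
  have h1 : MulAut.conj z g = g := by rw [hz]; rfl
  rw [MulAut.conj_apply, mul_inv_eq_iff_eq_mul] at h1
  exact h1

section aut

variable {G : Type} [Group G] {m : ℕ}

/- `G ≀ S_m` inside `Aut G ≀ S_m`. -/
def cm (G : Type) [Group G] (m : ℕ) : Wr G m →* Wr (MulAut G) m :=
  MonoidHom.mk' (fun x => ⟨fun i => MulAut.conj (x.left i), x.right⟩) (fun x y => by
    refine SemidirectProduct.ext (funext fun i => ?_) rfl
    change MulAut.conj ((x * y).left i) = _
    rw [wr_mul_left, map_mul, wr_mul_left])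

theorem cm_left (x : Wr G m) (i : Fin m) : (cm G m x).left i = MulAut.conj (x.left i) := rfl

theorem cm_right (x : Wr G m) : (cm G m x).right = x.right := rfl

theorem cm_inj (hZ : ∀ z : G, (∀ g : G, z * g = g * z) → z = 1) :
    Function.Injective (cm G m) := by
  intro x y h
  refine wr_ext (fun i => ?_) ?_
  · apply conj_inj hZ
    exact congrArg (fun z : Wr (MulAut G) m => z.left i) h
  · exact congrArg (fun z : Wr (MulAut G) m => z.right) h

theorem mem_cm (e : Wr (MulAut G) m) : e ∈ (cm G m).range ↔ ∀ i, cls G (e.left i) = 1 := by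
  constructor
  · rintro ⟨x, rfl⟩ i
    exact cls_conj _
  · intro h
    have h1 : ∀ i, ∃ g : G, MulAut.conj g = e.left i := fun i => (cls_eq_one _).1 (h i)
    choose g hg using h1
    exact ⟨⟨g, e.right⟩, SemidirectProduct.ext (funext fun i => hg i) rfl⟩


end aut

section sec

variable {G : Type} [Group G] {m : ℕ}


/- The wreath product has trivial centre. -/
theorem center_wr [Nontrivial G] (hZ : ∀ z : G, (∀ g : G, z * g = g * z) → z = 1) (x : Wr G m)
    (hx : ∀ y, x * y = y * x) : x = 1 := by
  obtain ⟨g₀, hg₀⟩ := exists_ne (1 : G)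
  have hr : x.right = 1 := by
    apply Equiv.ext
    intro k
    exact fix_of_comm _ k g₀ hg₀ (hx _)
  refine wr_ext (fun k => ?_) hr
  refine hZ _ fun g => ?_
  have h4 := congrArg (fun y : Wr G m => y.left k) (hx (sgl k g))
  simpa only [base_mul_left _ _ hr, base_mul_left _ _ (sgl_right k g), sgl_left_self] using h4

end sec

end Pool.Agent.N600.UK
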