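import Mathlib

namespace Pool.Agent.H391R2
end Pool.Agent.H391R2
namespace Pool.Agent.H391R2.T4
end Pool.Agent.H391R2.T4
namespace Pool.Agent.Y793
end Pool.Agent.Y793


/-!
Further statements (NOT results) of the project `G ≀ A_n` over `K(t)` (helper70).
-/

set_option autoImplicit false

namespace Pool.Agent.N70.AW

open Polynomial Pool.Agent.H391R2 Pool.Agent.H391R2.T4 Pool.Agent.Y793


/- DEG: the degrees of the values of a linear differential operator. -/
def St_deg : Prop :=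
  ∀ (K : Type) [Field K] [CharZero K] (m : ℕ) (p : Fin (m + 1) → K[X]), p (Fin.last m) ≠ 0 →
    ∃ (μ : ℤ) (t₀ : ℕ), ∀ t : ℕ, t₀ ≤ t →
      (∑ l : Fin (m + 1), (-1 : K[X]) ^ (l : ℕ) * derivative^[(l : ℕ)] (p l * X ^ t)) ≠ 0 ∧
      ((∑ l : Fin (m + 1), (-1 : K[X]) ^ (l : ℕ) * derivative^[(l : ℕ)] (p l * X ^ t)).natDegree : ℤ) = t + μ


end Pool.Agent.N70.AW
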