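import Mathlib
import Pool.Agent.H84.L.S8_H391R2_T4_Gp
import Pool.Agent.H84.L.S8_H391R2_T4_Red
import Pool.Agent.H84.L.S8_H391R2_T4_Utl

namespace Pool.Agent.H391R2.T4
end Pool.Agent.H391R2.T4


/-!
# Base change of regular solutions
-/

set_option autoImplicit false

namespace Pool.Agent.TH377.IG

open Polynomial
open Pool.Agent.H391R2.T4 (eqF exists_equiv_of_ker RegSol)

/- The fibre product. -/
def FP {H Γ Γ' : Type} [Group H] [Group Γ] [Group Γ'] (α : H →* Γ) (r : Γ' →* Γ) :
    Subgroup (H × Γ') :=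
  (α.comp (MonoidHom.fst H Γ')).eqLocus (r.comp (MonoidHom.snd H Γ'))


/- The projection of the fibre product. -/
def prFP {H Γ Γ' : Type} [Group H] [Group Γ] [Group Γ'] (α : H →* Γ) (r : Γ' →* Γ) :
    FP α r →* Γ' := (MonoidHom.snd H Γ').comp (FP α r).subtype


end Pool.Agent.TH377.IG
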