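import Mathlib



/-! Task statements (NOT results): copy the statement you claim into your own file and prove it. -/

set_option autoImplicit false

namespace Pool.Agent.H391R2.T4

/- Hilbertian field, as in the frozen statement S03429. -/
def HilbField (K : Type) [Field K] : Prop :=
  ∀ (f : Polynomial (Polynomial K)), f.Monic → Irreducible f →
    (f.map (algebraMap (Polynomial K) (FractionRing (Polynomial K)))).Separable →
    ∀ g : Polynomial K, g ≠ 0 →
      ∃ a : K, g.eval a ≠ 0 ∧ Irreducible (f.map (Polynomial.evalRingHom a))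

/- TASK A (Bertini / one variable). A regular solution over `K(x_i : i ∈ ι)` of an embedding
problem gives a regular solution over `K(t)`. -/
def TaskA : Prop :=
  ∀ (K L : Type) [Field K] [CharZero K] [Field L] [Algebra K L] [FiniteDimensional K L]
    [IsGalois K L] (G : Type) [Group G] [Finite G] (α : G →* (L ≃ₐ[K] L)) (ι : Type) [Finite ι]
    (E : Type) [Field E] [Algebra (MvPolynomial ι K) E] [IsFractionRing (MvPolynomial ι K) E]
    [Algebra K E] [IsScalarTower K (MvPolynomial ι K) E]
    (F : Type) [Field F] [Algebra E F] [Algebra L F] [Algebra K F] [IsScalarTower K E F]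
    [IsScalarTower K L F] [FiniteDimensional E F] [IsGalois E F] (γ : (F ≃ₐ[E] F) ≃* G),
    (∀ (σ : F ≃ₐ[E] F) (x : L), σ (algebraMap L F x) = algebraMap L F (α (γ σ) x)) →
    (∀ y : F, IsAlgebraic L y → y ∈ Set.range (algebraMap L F)) →
    ∃ (F : Type) (_ : Field F) (_ : Algebra (RatFunc K) F) (_ : Algebra L F)
      (_ : Algebra K F) (_ : IsScalarTower K (RatFunc K) F) (_ : IsScalarTower K L F)
      (_ : FiniteDimensional (RatFunc K) F) (_ : IsGalois (RatFunc K) F)
      (γ : (F ≃ₐ[RatFunc K] F) ≃* G),
      (∀ (σ : F ≃ₐ[RatFunc K] F) (x : L),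
        σ (algebraMap L F x) = algebraMap L F (α (γ σ) x)) ∧
      ∀ y : F, IsAlgebraic L y → y ∈ Set.range (algebraMap L F)

/- TASK E1. -/
def TaskE1 : Prop := HilbField ℚ

/- TASK E2. -/
def TaskE2 : Prop :=
  ∀ (K K' : Type) [Field K] [CharZero K] [Field K'] [Algebra K K'] [FiniteDimensional K K'],
    HilbField K → HilbField K'


end Pool.Agent.H391R2.T4
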