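import Mathlib
import Pool.Agent.H84.L.S8_W200_IG_HF



/-! # Specialisation of Galois extensions of `K(t_1, …, t_r)` (any characteristic) -/

namespace Pool.Agent.W200.IG

open Polynomial
open scoped Pointwise

/- Restriction to the separable closure is an isomorphism for a normal extension. -/
theorem restrict_sep_bij (k M : Type*) [Field k] [Field M] [Algebra k M] [Normal k M] :
    Function.Bijective
      (AlgEquiv.restrictNormalHom (F := k) (K₁ := M) (separableClosure k M)) := by
  refine ⟨?_, AlgEquiv.restrictNormalHom_surjective _⟩
  rw [injective_iff_map_eq_one]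
  intro γ hγ
  obtain ⟨q, hq⟩ := ExpChar.exists k
  have hq' : ExpChar M q := expChar_of_injective_algebraMap (algebraMap k M).injective q
  have hq'' : ExpChar (separableClosure k M) q :=
    expChar_of_injective_algebraMap (algebraMap k (separableClosure k M)).injective q
  ext x
  obtain ⟨n, y, hy⟩ := IsPurelyInseparable.pow_mem (separableClosure k M) q x
  have h1 : γ (algebraMap (separableClosure k M) M y) = algebraMap (separableClosure k M) M y := by
    have h2 := AlgEquiv.restrictNormal_commutes γ (separableClosure k M) y
    have h3 : γ.restrictNormal (separableClosure k M) = 1 := hγ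
    rw [h3] at h2
    exact h2.symm
  rw [hy, map_pow] at h1
  exact iterateFrobenius_inj M q n h1

theorem sep_of_eq {A L : Type*} [CommRing A] [Field L] {f U V : A[X]} {r : A}
    (h : U * f + V * derivative f = C r) (φ : A →+* L) (hr' : φ r ≠ 0) :
    (f.map φ).Separable := by
  refine ⟨C (φ r)⁻¹ * U.map φ, C (φ r)⁻¹ * V.map φ, ?_⟩
  have h1 := congrArg (Polynomial.map φ) h
  rw [Polynomial.map_add, Polynomial.map_mul, Polynomial.map_mul, map_C, ← derivative_map] at h1
  have h2 : C (φ r)⁻¹ * C (φ r) = (1 : L[X]) := by
    rw [← C_mul, inv_mul_cancel₀ hr', C_1]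
  linear_combination (C (φ r)⁻¹) * h1 + h2


end Pool.Agent.W200.IG
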