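import Mathlib
import Pool.Agent.H84.L.S8_W200_IG_HF
import Pool.Agent.H84.L.S8_W200_IJ_BA



/-!
Independence of a regular Galois extension of a field of rational functions from algebraically
closed fields of constants; arbitrary characteristic.
-/

set_option autoImplicit false

namespace Pool.Agent.TH15.IGP

open MvPolynomial

/- Two embeddings of a normal extension which agree on the base differ by an automorphism. -/
theorem emb_unique {E F N : Type} [Field E] [Field F] [Field N] [Algebra E F] [Normal E F]
    (φ φ' : F →+* N) (h : ∀ e : E, φ' (algebraMap E F e) = φ (algebraMap E F e)) :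
    ∃ b : F ≃ₐ[E] F, ∀ y, φ' y = φ (b y) := by
  let _ : Algebra F N := φ.toAlgebra
  let _ : Algebra E N := (φ.comp (algebraMap E F)).toAlgebra
  have : IsScalarTower E F N := IsScalarTower.of_algebraMap_eq fun x => rfl
  let ψ : F →ₐ[E] N := { φ' with commutes' := h }
  refine ⟨ψ.restrictNormal' F, fun y => ?_⟩
  have := AlgHom.restrictNormal_commutes ψ F y
  exact this.symm

/- A point of a finitely generated algebra over an algebraically closed field. -/
theorem exists_point {C D : Type} [Field C] [IsAlgClosed C] [Field D] [Algebra C D]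
    (S : Finset D) : Nonempty (Algebra.adjoin C (S : Set D) →ₐ[C] C) := by
  have hft : Algebra.FiniteType C (Algebra.adjoin C (S : Set D)) :=
    Subalgebra.fg_iff_finiteType _ |>.1 (Subalgebra.fg_adjoin_finset S)
  obtain ⟨I, hI⟩ := Ideal.exists_maximal (Algebra.adjoin C (S : Set D))
  let _ : Field (Algebra.adjoin C (S : Set D) ⧸ I) := Ideal.Quotient.field I
  have hft2 : Algebra.FiniteType C (Algebra.adjoin C (S : Set D) ⧸ I) :=
    hft.of_surjective (Ideal.Quotient.mkₐ C I) (Ideal.Quotient.mkₐ_surjective C I)
  have hfin : Module.Finite C (Algebra.adjoin C (S : Set D) ⧸ I) :=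
    finite_of_finite_type_of_isJacobsonRing C _
  have hbij : Function.Bijective (algebraMap C (Algebra.adjoin C (S : Set D) ⧸ I)) :=
    IsAlgClosed.algebraMap_bijective_of_isIntegral
  let e : C ≃ₐ[C] (Algebra.adjoin C (S : Set D) ⧸ I) :=
    AlgEquiv.ofBijective (Algebra.ofId C _) hbij
  exact ⟨(e.symm : _ →ₐ[C] C).comp (Ideal.Quotient.mkₐ C I)⟩

/- Roots in polynomial rings over extensions of an algebraically closed field. -/
theorem root_descend {ι C D : Type} [Field C] [IsAlgClosed C] [Field D] [Algebra C D]
    (m : Polynomial (MvPolynomial ι C)) (P : MvPolynomial ι D)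
    (h : (m.map (MvPolynomial.map (algebraMap C D))).eval P = 0) :
    ∃ P' : MvPolynomial ι C, m.eval P' = 0 := by
  classical
  let S : Finset D := P.support.image fun q => P.coeff q
  obtain ⟨ε⟩ := exists_point (C := C) S
  let A := Algebra.adjoin C (S : Set D)
  have hP : P ∈ Set.range (MvPolynomial.map (σ := ι) (A.val : A →+* D)) := by
    rw [MvPolynomial.mem_range_map_iff_coeffs_subset]
    intro c hc
    rw [Finset.mem_coe, MvPolynomial.mem_coeffs_iff] at hc
    obtain ⟨q, hq, rfl⟩ := hc
    exact ⟨⟨P.coeff q, Algebra.subset_adjoin (Finset.mem_coe.2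
      (Finset.mem_image.2 ⟨q, hq, rfl⟩))⟩, rfl⟩
  obtain ⟨PA, hPA⟩ := hP
  have hinj : Function.Injective (MvPolynomial.map (A.val : A →+* D) :
      MvPolynomial ι A →+* MvPolynomial ι D) :=
    MvPolynomial.map_injective _ Subtype.val_injective
  have h1 : (m.map (MvPolynomial.map (algebraMap C A))).eval PA = 0 := by
    apply hinj
    rw [map_zero, ← h, ← hPA, ← Polynomial.eval_map_apply, Polynomial.map_map]
    congr 2
    apply RingHom.ext
    intro r
    exact MvPolynomial.map_map _ _ r
  refine ⟨MvPolynomial.map (ε : A →+* C) PA, ?_⟩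
  have h2 := congrArg (MvPolynomial.map (ε : A →+* C)) h1
  rw [map_zero, ← Polynomial.eval_map_apply, Polynomial.map_map] at h2
  rw [← h2]
  congr 1
  have h3 : (MvPolynomial.map (ε : A →+* C)).comp (MvPolynomial.map (algebraMap C A)) =
      RingHom.id (MvPolynomial ι C) := by
    apply MvPolynomial.ringHom_ext
    · intro c
      simp only [RingHom.comp_apply, MvPolynomial.map_C, RingHom.id_apply]
      congr 1
      exact ε.commutes c
    · intro i
      simp
  rw [h3, Polynomial.map_id]

/- A separable element with a `q`-power power in the base is in the base. -/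
theorem mem_of_pow_mem {E F : Type} [Field E] [Field F] [Algebra E F] (q : ℕ) [ExpChar E q]
    (n : ℕ) {y : F} (hs : IsSeparable E y) (h : y ^ q ^ n ∈ Set.range (algebraMap E F)) :
    y ∈ Set.range (algebraMap E F) := by
  have h1 : y ∈ IntermediateField.adjoin E {y} := IntermediateField.mem_adjoin_simple_self E y
  rw [IntermediateField.adjoin_simple_eq_adjoin_pow_expChar_pow_of_isSeparable E F hs q n] at h1
  obtain ⟨e, he⟩ := h
  have h2 : IntermediateField.adjoin E {y ^ q ^ n} = ⊥ := by
    rw [IntermediateField.adjoin_simple_eq_bot_iff, IntermediateField.mem_bot]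
    exact ⟨e, he⟩
  rw [h2, IntermediateField.mem_bot] at h1
  exact h1

section base

variable {k ι E F N D : Type} [Field k] [Field E]
  [Algebra (MvPolynomial ι k) E] [IsFractionRing (MvPolynomial ι k) E]
  [Algebra k E] [IsScalarTower k (MvPolynomial ι k) E] [Field F] [Algebra E F] [Algebra k F]
  [IsScalarTower k E F] [FiniteDimensional E F] [IsGalois E F]
  [Field N] [Algebra k N] [Field D] [IsAlgClosed D] [Algebra k D] [Algebra D N]
  [IsScalarTower k D N]

/- An embedding of a regular extension maps only elements of the base into a field of rational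
functions over an algebraically closed field of constants. -/
theorem mem_base (hreg : ∀ y : F, IsAlgebraic k y → y ∈ Set.range (algebraMap k F))
    (x : ι → N) (hx : AlgebraicIndependent D x) (φ : F →ₐ[k] N)
    (hφ : ∀ i, φ (algebraMap E F (algebraMap (MvPolynomial ι k) E (X i))) = x i)
    (y : F) (hy : φ y ∈ IntermediateField.adjoin D (Set.range x)) :
    y ∈ Set.range (algebraMap E F) := by
  classical
  by_contra hne
  let iR : Algebra (MvPolynomial ι k) F :=
    ((algebraMap E F).comp (algebraMap (MvPolynomial ι k) E)).toAlgebra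
  have tR : IsScalarTower (MvPolynomial ι k) E F := IsScalarTower.of_algebraMap_eq fun _ => rfl
  have halg : Algebra.IsAlgebraic (MvPolynomial ι k) F :=
    IsFractionRing.comap_isAlgebraic_iff.2 (Algebra.IsAlgebraic.of_finite E F)
  obtain ⟨d, hd, hint⟩ := (halg.isAlgebraic y).exists_integral_multiple
  obtain ⟨θ, hθ⟩ : ∃ θ, θ = d • y := ⟨_, rfl⟩
  rw [← hθ] at hint
  have hdE : (algebraMap (MvPolynomial ι k) E d) ≠ 0 := fun h0 =>
    hd (IsFractionRing.injective (MvPolynomial ι k) E (by rw [h0, map_zero]))
  have hθy : θ = algebraMap E F (algebraMap (MvPolynomial ι k) E d) * y := by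
    rw [hθ, Algebra.smul_def]
    rfl
  have hθne : θ ∉ Set.range (algebraMap E F) := by
    rintro ⟨e, he⟩
    apply hne
    refine ⟨(algebraMap (MvPolynomial ι k) E d)⁻¹ * e, ?_⟩
    rw [map_mul, he, hθy, map_inv₀, ← mul_assoc, inv_mul_cancel₀, one_mul]
    exact (map_ne_zero _).2 hdE
  obtain ⟨w, hw⟩ : ∃ w : F ≃ₐ[E] F, w θ ≠ θ := by
    by_contra hall
    push Not at hall
    exact hθne ((IsGalois.mem_range_algebraMap_iff_fixed θ).2 hall)
  obtain ⟨m, hm⟩ : ∃ m, m = minpoly (MvPolynomial ι k) θ := ⟨_, rfl⟩
  have hmθ : m.map (algebraMap (MvPolynomial ι k) E) = minpoly E θ := by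
    rw [hm]
    exact (minpoly.isIntegrallyClosed_eq_field_fractions' E hint).symm
  -- the value of polynomials
  have hφR : ∀ r : MvPolynomial ι k, φ (algebraMap E F (algebraMap (MvPolynomial ι k) E r)) =
      aeval x (MvPolynomial.map (algebraMap k D) r) := by
    intro r
    have h1 : ((φ : F →+* N).comp ((algebraMap E F).comp (algebraMap (MvPolynomial ι k) E))) =
        ((aeval x : MvPolynomial ι D →ₐ[D] N) : MvPolynomial ι D →+* N).comp
          (MvPolynomial.map (algebraMap k D)) := by
      apply MvPolynomial.ringHom_ext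
      · intro c
        simp only [RingHom.comp_apply, MvPolynomial.map_C, RingHom.coe_coe, algHom_C]
        rw [← MvPolynomial.algebraMap_eq, ← IsScalarTower.algebraMap_apply k (MvPolynomial ι k) E,
          ← IsScalarTower.algebraMap_apply k E F, AlgHom.commutes,
          ← IsScalarTower.algebraMap_apply k D N]
      · intro i
        simp only [RingHom.comp_apply, MvPolynomial.map_X, RingHom.coe_coe, aeval_X]
        exact hφ i
    exact congrArg (fun f : MvPolynomial ι k →+* N => f r) h1
  have hA : ∀ r : MvPolynomial ι D, aeval x r ∈ IntermediateField.adjoin D (Set.range x) := by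
    intro r
    apply IntermediateField.algebra_adjoin_le_adjoin
    rw [Algebra.adjoin_range_eq_range_aeval]
    exact ⟨r, rfl⟩
  have hθD : φ θ ∈ IntermediateField.adjoin D (Set.range x) := by
    rw [hθy, map_mul]
    refine mul_mem ?_ hy
    rw [hφR]
    exact hA _
  -- integrality
  let Q := FractionRing (MvPolynomial ι D)
  have hxinj : Function.Injective (aeval x : MvPolynomial ι D →ₐ[D] N) :=
    algebraicIndependent_iff_injective_aeval.1 hx
  let g : Q →ₐ[D] N := IsFractionRing.liftAlgHom (K := Q) hxinj
  have hg : ∀ r : MvPolynomial ι D, g (algebraMap _ Q r) = aeval x r := fun r =>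
    IsFractionRing.lift_algebraMap hxinj r
  obtain ⟨r, s, hrs⟩ := (IntermediateField.mem_adjoin_range_iff D x (φ θ)).1 hθD
  have hgq : g (algebraMap _ Q r / algebraMap _ Q s) = φ θ := by
    rw [map_div₀, hg, hg, hrs]
  let iN : Algebra (MvPolynomial ι D) N :=
    ((aeval x : MvPolynomial ι D →ₐ[D] N) : MvPolynomial ι D →+* N).toAlgebra
  let g' : Q →ₐ[MvPolynomial ι D] N := { g with commutes' := hg }
  have hint2 : IsIntegral (MvPolynomial ι D) (φ θ) := by
    obtain ⟨p, hp, hp0⟩ := hint
    refine ⟨p.map (MvPolynomial.map (algebraMap k D)), hp.map _, ?_⟩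
    rw [Polynomial.eval₂_map]
    have h1 := congrArg φ hp0
    rw [map_zero] at h1
    rw [← h1]
    have h2 := Polynomial.hom_eval₂ p (algebraMap (MvPolynomial ι k) F) (φ : F →+* N) θ
    refine Eq.trans ?_ h2.symm
    congr 1
    apply RingHom.ext
    intro r
    exact (hφR r).symm
  have hint3 : IsIntegral (MvPolynomial ι D) (algebraMap _ Q r / algebraMap _ Q s) := by
    rw [← isIntegral_algHom_iff g' g'.toRingHom.injective]
    have h1 : g' (algebraMap _ Q r / algebraMap _ Q s) = φ θ := hgq
    rw [h1]
    exact hint2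
  obtain ⟨P, hP⟩ := IsIntegrallyClosed.isIntegral_iff.1 hint3
  have hPθ : aeval x P = φ θ := by
    rw [← hg, hP, hgq]
  -- a root of the minimal polynomial
  have hroot : (m.map (MvPolynomial.map (algebraMap k D))).eval P = 0 := by
    apply hxinj
    rw [map_zero]
    have h1 : m.eval₂ (algebraMap (MvPolynomial ι k) F) θ = 0 := by
      rw [hm]
      exact minpoly.aeval _ _
    have h2 := congrArg φ h1
    rw [map_zero] at h2
    rw [← h2, Polynomial.eval_map]
    have h3 := Polynomial.hom_eval₂ m (algebraMap (MvPolynomial ι k) F) (φ : F →+* N) θ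
    refine Eq.trans ?_ h3.symm
    have h4 := Polynomial.hom_eval₂ m (MvPolynomial.map (algebraMap k D))
      ((aeval x : MvPolynomial ι D →ₐ[D] N) : MvPolynomial ι D →+* N) P
    refine Eq.trans h4 ?_
    have h5 : ((aeval x : MvPolynomial ι D →ₐ[D] N) : MvPolynomial ι D →+* N).comp
        (MvPolynomial.map (algebraMap k D)) =
        (φ : F →+* N).comp (algebraMap (MvPolynomial ι k) F) := by
      apply RingHom.ext
      intro r
      exact (hφR r).symm
    rw [h5]
    congr 1
  let jC : AlgebraicClosure k →ₐ[k] D := IsAlgClosed.lift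
  let _ : Algebra (AlgebraicClosure k) D := jC.toRingHom.toAlgebra
  have hT : IsScalarTower k (AlgebraicClosure k) D :=
    IsScalarTower.of_algebraMap_eq fun c => (jC.commutes c).symm
  obtain ⟨P', hP'⟩ := root_descend (C := AlgebraicClosure k) (D := D)
    (m.map (MvPolynomial.map (algebraMap k (AlgebraicClosure k)))) P (by
      rw [Polynomial.map_map]
      rw [← hroot]
      congr 2
      apply RingHom.ext
      intro r
      rw [RingHom.comp_apply, MvPolynomial.map_map, ← IsScalarTower.algebraMap_eq])
  exact Pool.Agent.W200.IJ.noroot (K := k) (L := k) (E := E) (F := F) hreg ⊤ inferInstance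
    (fun w _ c => by
      rw [IsScalarTower.algebraMap_apply k E F, AlgEquiv.commutes]) θ w (Subgroup.mem_top w) hw
    m hmθ P' hP'

/- Every automorphism of a regular extension extends to an automorphism which fixes an
algebraically closed field of constants and the variables. -/
theorem exists_aut (hreg : ∀ y : F, IsAlgebraic k y → y ∈ Set.range (algebraMap k F))
    [IsAlgClosed N] (x : ι → N) (hx : IsTranscendenceBasis D x) (φ : F →ₐ[k] N)
    (hφ : ∀ i, φ (algebraMap E F (algebraMap (MvPolynomial ι k) E (X i))) = x i)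
    (b : F ≃ₐ[E] F) : ∃ σ : N ≃ₐ[D] N, (∀ i, σ (x i) = x i) ∧ ∀ y, σ (φ y) = φ (b y) := by
  classical
  let Dx := IntermediateField.adjoin D (Set.range x)
  have halg : Algebra.IsAlgebraic Dx N := hx.isAlgebraic_field
  have hcl : IsAlgClosure Dx N := ⟨inferInstance, halg⟩
  have hnorm : Normal Dx N := IsAlgClosure.normal Dx N
  have hxm : ∀ i, x i ∈ Dx := fun i => IntermediateField.subset_adjoin D _ ⟨i, rfl⟩
  -- values on the base
  have hA : ∀ r : MvPolynomial ι k,
      φ (algebraMap E F (algebraMap (MvPolynomial ι k) E r)) ∈ Dx := by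
    intro r
    induction r using MvPolynomial.induction_on with
    | C c =>
      rw [← MvPolynomial.algebraMap_eq, ← IsScalarTower.algebraMap_apply k (MvPolynomial ι k) E,
          ← IsScalarTower.algebraMap_apply k E F, AlgHom.commutes,
          IsScalarTower.algebraMap_apply k D N]
      exact Dx.algebraMap_mem _
    | add p q hp hq =>
      rw [map_add, map_add, map_add]
      exact add_mem hp hq
    | mul_X p i hp =>
      rw [map_mul, map_mul, map_mul, hφ]
      exact mul_mem hp (hxm i)
  have hE : ∀ e : E, φ (algebraMap E F e) ∈ Dx := by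
    intro e
    obtain ⟨r, s, _, rfl⟩ := IsFractionRing.div_surjective (MvPolynomial ι k) e
    rw [map_div₀, map_div₀]
    exact div_mem (hA r) (hA s)
  have hfixE : ∀ (σ : N ≃ₐ[Dx] N) (e : E), σ (φ (algebraMap E F e)) = φ (algebraMap E F e) :=
    fun σ e => σ.commutes (⟨_, hE e⟩ : Dx)
  have hex : ∀ σ : N ≃ₐ[Dx] N, ∃ b : F ≃ₐ[E] F, ∀ y, σ (φ y) = φ (b y) := by
    intro σ
    exact emb_unique (φ : F →+* N) ((σ : N →+* N).comp (φ : F →+* N)) (hfixE σ)
  choose β hβ using hex
  have hφinj : Function.Injective φ := φ.toRingHom.injective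
  let π : (N ≃ₐ[Dx] N) →* (F ≃ₐ[E] F) := MonoidHom.mk' β (fun σ τ => by
    apply AlgEquiv.ext
    intro y
    apply hφinj
    rw [← hβ, AlgEquiv.mul_apply, AlgEquiv.mul_apply, hβ τ, hβ σ])
  have hfix : IntermediateField.fixedField π.range = ⊥ := by
    rw [eq_bot_iff]
    intro y hy
    rw [IntermediateField.mem_fixedField_iff] at hy
    obtain ⟨q, hq⟩ := ExpChar.exists E
    have hqF : ExpChar F q := expChar_of_injective_algebraMap (algebraMap E F).injective q
    have hqN : ExpChar N q := expChar_of_injective_ringHom hφinj q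
    have hqD : ExpChar Dx q := (algebraMap Dx N).expChar (algebraMap Dx N).injective q
    obtain ⟨n, hn⟩ := Pool.Agent.W200.IJ.pi_of_fixed (F := Dx) q (φ y) (fun τ => by
      rw [hβ]
      exact congrArg φ (hy _ ⟨τ, rfl⟩))
    have h1 : φ (y ^ q ^ n) ∈ Dx := by
      rw [map_pow]
      obtain ⟨z, hz⟩ := hn
      rw [← hz]
      exact z.2
    have h2 : y ^ q ^ n ∈ Set.range (algebraMap E F) := mem_base hreg x hx.1 φ hφ _ h1
    rw [IntermediateField.mem_bot]
    have h3 : IsSeparable E y := Algebra.IsSeparable.isSeparable E y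
    exact mem_of_pow_mem q n h3 h2
  have hπ : π.range = ⊤ := by
    have h1 := congrArg IntermediateField.fixingSubgroup hfix
    rw [IntermediateField.fixingSubgroup_fixedField, IntermediateField.fixingSubgroup_bot] at h1
    exact h1
  obtain ⟨σ, hσ⟩ : b ∈ π.range := by rw [hπ]; exact Subgroup.mem_top _
  refine ⟨σ.restrictScalars D, fun i => ?_, fun y => ?_⟩
  · exact σ.commutes (⟨_, hxm i⟩ : Dx)
  · rw [← hσ]
    exact hβ σ y

end base

end Pool.Agent.TH15.IGP
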