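import Mathlib



/-!
An involution of the ring of power series over a field of arbitrary characteristic:
`X ↦ -X / (1 + X)`.
-/

set_option autoImplicit false

namespace Pool.Agent.W200.IG

open PowerSeries

section tau

variable {κ : Type} [Field κ]

/- `-X / (1 + X)` -/
noncomputable def sg (κ : Type) [Field κ] : κ⟦X⟧ := -X * (1 + X)⁻¹

/- `X ^ 2 / (1 + X)` -/
noncomputable def T0 (κ : Type) [Field κ] : κ⟦X⟧ := X ^ 2 * (1 + X)⁻¹

theorem one_add_X_mul_inv : (1 + X : κ⟦X⟧) * (1 + X)⁻¹ = 1 :=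
  PowerSeries.mul_inv_cancel _ (by simp)

theorem one_add_X_ne : (1 + X : κ⟦X⟧) ≠ 0 := by
  intro h
  have h1 := congrArg constantCoeff h
  simp at h1

theorem inv_ne : ((1 + X : κ⟦X⟧)⁻¹) ≠ 0 := by
  intro h
  have h1 := one_add_X_mul_inv (κ := κ)
  rw [h, mul_zero] at h1
  exact zero_ne_one h1

theorem sg_mul : sg κ * (1 + X) = -X := by
  unfold sg
  rw [mul_assoc, mul_comm _ (1 + X : κ⟦X⟧), one_add_X_mul_inv, mul_one]

theorem sg_constantCoeff : constantCoeff (sg κ) = 0 := by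
  unfold sg
  simp

theorem hasSubst_sg : HasSubst (sg κ) := HasSubst.of_constantCoeff_zero' sg_constantCoeff

/- The involution `X ↦ -X / (1 + X)`. -/
noncomputable def tau (κ : Type) [Field κ] : κ⟦X⟧ →+* κ⟦X⟧ :=
  ((substAlgHom (R := κ) (hasSubst_sg (κ := κ)) : κ⟦X⟧ →ₐ[κ] κ⟦X⟧) : κ⟦X⟧ →+* κ⟦X⟧)

theorem tau_apply (f : κ⟦X⟧) : tau κ f = subst (sg κ) f := by
  change (substAlgHom (R := κ) (hasSubst_sg (κ := κ))) f = _
  rw [coe_substAlgHom]

theorem tau_X : tau κ X = sg κ := by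
  rw [tau_apply, subst_X hasSubst_sg]

theorem tau_C (a : κ) : tau κ (C a) = C a := by
  change (substAlgHom (R := κ) (hasSubst_sg (κ := κ))) (algebraMap κ κ⟦X⟧ a) = algebraMap κ κ⟦X⟧ a
  exact AlgHom.commutes _ a

theorem tau_sg : tau κ (sg κ) = X := by
  have h1 : tau κ (sg κ) * tau κ (1 + X) = - tau κ X := by
    rw [← map_mul, sg_mul, map_neg]
  rw [map_add, map_one, tau_X] at h1
  have h2 : (1 + sg κ) * (1 + X) = 1 := by
    rw [add_mul, sg_mul]; ring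
  have h3 : tau κ (sg κ) * ((1 + sg κ) * (1 + X)) = - (sg κ * (1 + X)) := by
    rw [← mul_assoc, h1]; ring
  rw [h2, mul_one, sg_mul, neg_neg] at h3
  exact h3

theorem tau_tau (f : κ⟦X⟧) : tau κ (tau κ f) = f := by
  rw [tau_apply, tau_apply, subst_comp_subst_apply hasSubst_sg hasSubst_sg]
  have h1 : subst (sg κ) (sg κ) = (X : κ⟦X⟧) := by
    rw [← tau_apply, tau_sg]
  rw [h1, X_subst]

theorem tau_constantCoeff (f : κ⟦X⟧) : constantCoeff (tau κ f) = constantCoeff f := by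
  obtain ⟨g, hg⟩ : (X : κ⟦X⟧) ∣ f - C (constantCoeff f) := by
    rw [X_dvd_iff]; simp
  have h1 : f = C (constantCoeff f) + X * g := by rw [← hg]; ring
  have h2 : constantCoeff (tau κ (X * g)) = 0 := by
    rw [map_mul, tau_X, map_mul, sg_constantCoeff, zero_mul]
  rw [h1, map_add, tau_C, map_add, map_add, h2]
  simp

theorem T0_mul : T0 κ * (1 + X) = X ^ 2 := by
  unfold T0
  rw [mul_assoc, mul_comm _ (1 + X : κ⟦X⟧), one_add_X_mul_inv, mul_one]


theorem X_add_sg : X + sg κ = T0 κ := by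
  apply mul_right_cancel₀ (one_add_X_ne (κ := κ))
  rw [add_mul, sg_mul, T0_mul]; ring

theorem tau_T0 : tau κ (T0 κ) = T0 κ := by
  rw [← X_add_sg, map_add, tau_X, tau_sg, add_comm]

theorem T0_constantCoeff : constantCoeff (T0 κ) = 0 := by
  unfold T0; simp

theorem T0_ne : T0 κ ≠ 0 := by
  unfold T0
  exact mul_ne_zero (pow_ne_zero _ X_ne_zero) inv_ne

/- `X` is a root of `s ^ 2 - T s - T`. -/
theorem X_root : (X : κ⟦X⟧) ^ 2 - T0 κ * X - T0 κ = 0 := by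
  have h := T0_mul (κ := κ)
  linear_combination -h

/- `X - sg` divides `X ^ 2`. -/
theorem exists_dvd : ∃ h : κ⟦X⟧, X ^ 2 = (X - sg κ) * h := by
  have h1 : (X - sg κ) * (1 + X) = X * (2 + X) := by
    rw [sub_mul, sg_mul]; ring
  by_cases h2 : (2 : κ) = 0
  · have h3 : (2 : κ⟦X⟧) = 0 := by
      have h4 : (2 : κ⟦X⟧) = C 2 := (map_ofNat C 2).symm
      rw [h4, h2, map_zero]
    refine ⟨1 + X, ?_⟩
    rw [h1, h3]; ring
  · have h3 : (2 + X : κ⟦X⟧) * (2 + X)⁻¹ = 1 := PowerSeries.mul_inv_cancel _ (by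
      rw [map_add, constantCoeff_X, add_zero]
      have : (constantCoeff : κ⟦X⟧ →+* κ) 2 = 2 := map_ofNat _ 2
      rw [this]; exact h2)
    refine ⟨X * (1 + X) * (2 + X)⁻¹, ?_⟩
    calc (X : κ⟦X⟧) ^ 2 = X ^ 2 * ((2 + X) * (2 + X)⁻¹) := by rw [h3, mul_one]
      _ = (X * (2 + X)) * (X * (2 + X)⁻¹) := by ring
      _ = ((X - sg κ) * (1 + X)) * (X * (2 + X)⁻¹) := by rw [h1]
      _ = _ := by ring

theorem X_sub_sg_ne : (X - sg κ : κ⟦X⟧) ≠ 0 := by
  intro h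
  obtain ⟨g, hg⟩ := exists_dvd (κ := κ)
  rw [h, zero_mul] at hg
  exact pow_ne_zero 2 (X_ne_zero (R := κ)) hg

end tau

end Pool.Agent.W200.IG
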