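import Mathlib
import Pool.Agent.H84.L.S8_H391R2_T4_Hens
import Pool.Agent.H84.L.S8_W200_IG_Tau

namespace Pool.Agent.H391R2.T4
end Pool.Agent.H391R2.T4


/-!
Structure of the roots of a polynomial over `κ⟦X⟧` that is invariant under the involution
`X ↦ -X / (1 + X)` and has exactly one double root modulo `X`. Arbitrary characteristic.
-/

set_option autoImplicit false

namespace Pool.Agent.W200.IG

open PowerSeries
open Pool.Agent.H391R2.T4 (hensel hensel_unique)

section hens

variable {κ : Type} [Field κ]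

/- Splitting of the quadratic factor. -/
theorem quad_split (b d : κ⟦X⟧) (hb : tau κ b = b) (hd : tau κ d = d)
    (h0 : T0 κ ^ 3 ∣ X ^ 2 + b * X + d) :
    ∃ z z' : κ⟦X⟧, constantCoeff z = 0 ∧ constantCoeff z' = 0 ∧ z ≠ z' ∧
      tau κ z = z' ∧ tau κ z' = z ∧ b = -(z + z') ∧ d = z * z' := by
  obtain ⟨e, he⟩ := h0
  obtain ⟨h, hh⟩ := exists_dvd (κ := κ)
  have hne := X_sub_sg_ne (κ := κ)
  -- apply the involution
  have he' : sg κ ^ 2 + b * sg κ + d = T0 κ ^ 3 * tau κ e := by
    have h1 := congrArg (tau κ) he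
    simp only [map_add, map_mul, map_pow, tau_X, hb, hd, tau_T0] at h1
    exact h1
  have hT : T0 κ = X ^ 2 * (1 + X)⁻¹ := rfl
  -- `T + b`
  obtain ⟨m, hm⟩ : ∃ m, T0 κ + b = X ^ 4 * m := by
    refine ⟨h * ((1 + X)⁻¹) ^ 3 * (e - tau κ e), ?_⟩
    apply mul_left_cancel₀ hne
    have h1 : (X - sg κ) * (T0 κ + b) = T0 κ ^ 3 * (e - tau κ e) := by
      have h2 := X_add_sg (κ := κ)
      linear_combination he - he' - (X - sg κ) * h2
    rw [h1, hT]
    calc (X ^ 2 * (1 + X)⁻¹) ^ 3 * (e - tau κ e) =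
        X ^ 2 * (X ^ 4 * ((1 + X)⁻¹) ^ 3 * (e - tau κ e)) := by ring
      _ = ((X - sg κ) * h) * (X ^ 4 * ((1 + X)⁻¹) ^ 3 * (e - tau κ e)) := by rw [hh]
      _ = _ := by ring
  -- `δ = 2 X + b = (X - σ) ε`
  set ε : κ⟦X⟧ := 1 + X ^ 2 * (h * m) with hε
  have hδ : 2 * X + b = (X - sg κ) * ε := by
    have h2 := X_add_sg (κ := κ)
    have h3 : b = X ^ 4 * m - T0 κ := by linear_combination hm
    rw [h3, hε]
    linear_combination (X ^ 2 * m) * hh + h2
  have hεc : constantCoeff ε = 1 := by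
    rw [hε]; simp
  have hεi : ε * ε⁻¹ = 1 := PowerSeries.mul_inv_cancel _ (by rw [hεc]; exact one_ne_zero)
  -- `γ`
  obtain ⟨γ, hγ, hγ0⟩ : ∃ γ : κ⟦X⟧, T0 κ ^ 3 * e = ((X - sg κ) * ε) ^ 2 * γ ∧
      constantCoeff γ = 0 := by
    refine ⟨X ^ 2 * (h ^ 2 * ((1 + X)⁻¹) ^ 3 * (ε⁻¹) ^ 2 * e), ?_, by simp⟩
    rw [hT]
    calc (X ^ 2 * (1 + X)⁻¹) ^ 3 * e = (X ^ 2) ^ 2 * X ^ 2 * ((1 + X)⁻¹) ^ 3 * e := by ring
      _ = ((X - sg κ) * h) ^ 2 * X ^ 2 * ((1 + X)⁻¹) ^ 3 * e * (ε * ε⁻¹) ^ 2 := by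
        rw [hh, hεi, one_pow, mul_one]
      _ = _ := by ring
  -- Hensel
  have hmap : (Polynomial.X ^ 2 + Polynomial.X + Polynomial.C γ : Polynomial κ⟦X⟧).map
      constantCoeff = Polynomial.X ^ 2 + Polynomial.X := by
    simp [hγ0]
  obtain ⟨w, hw, hw0⟩ := hensel (Polynomial.X ^ 2 + Polynomial.X + Polynomial.C γ)
    (by monicity!) 0 (by rw [hmap]; simp) (by rw [hmap]; simp)
  have hw' : w ^ 2 + w + γ = 0 := by simpa using hw
  set z : κ⟦X⟧ := X + (X - sg κ) * ε * w with hz
  have hgz : z ^ 2 + b * z + d = 0 := by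
    have h1 : z ^ 2 + b * z + d = (X ^ 2 + b * X + d) + (X - sg κ) * ε * w * (2 * X + b) +
        ((X - sg κ) * ε) ^ 2 * w ^ 2 := by
      rw [hz]; ring
    rw [h1, he, hδ, hγ]
    linear_combination ((X - sg κ) * ε) ^ 2 * hw'
  have hgz' : (tau κ z) ^ 2 + b * tau κ z + d = 0 := by
    have h1 := congrArg (tau κ) hgz
    simpa only [map_add, map_mul, map_pow, hb, hd, map_zero] using h1
  have hzc : constantCoeff z = 0 := by
    rw [hz, map_add, map_mul, hw0, mul_zero, constantCoeff_X, add_zero]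
  have hzz : z - tau κ z = (X - sg κ) * (1 + ε * w + tau κ ε * tau κ w) := by
    rw [hz]
    simp only [map_add, map_mul, map_sub, tau_X, tau_sg]
    ring
  have hne' : z ≠ tau κ z := by
    intro h1
    rw [← sub_eq_zero, hzz, mul_eq_zero] at h1
    rcases h1 with h1 | h1
    · exact hne h1
    · have h2 := congrArg constantCoeff h1
      rw [map_add, map_add, map_mul, map_mul, tau_constantCoeff w, hw0] at h2
      simp at h2
  have hsum : b = -(z + tau κ z) := by
    have h1 : (z - tau κ z) * (z + tau κ z + b) = 0 := by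
      linear_combination hgz - hgz'
    have h2 := (mul_eq_zero.1 h1).resolve_left (sub_ne_zero.2 hne')
    linear_combination h2
  refine ⟨z, tau κ z, hzc, by rw [tau_constantCoeff, hzc], hne', rfl, tau_tau z, hsum, ?_⟩
  have h1 := hgz
  rw [hsum] at h1
  linear_combination h1

/- The structure of the roots. -/
theorem root_structure [IsAlgClosed κ] (f : Polynomial κ⟦X⟧) (u : κ) (hu : u ≠ 0)
    {D : ℕ} (hD : f.natDegree = D + 2) (hlc : f.leadingCoeff = C u)
    (hτ : f.map (tau κ) = f) (a : Fin D → κ) (ha : Function.Injective a) (ha0 : ∀ i, a i ≠ 0)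
    (hres : f.map constantCoeff = Polynomial.C u * (Polynomial.X ^ 2 *
      ∏ i, (Polynomial.X - Polynomial.C (a i))))
    (h0 : T0 κ ^ 3 ∣ f.eval X) :
    ∃ (α : Fin D → κ⟦X⟧) (z z' : κ⟦X⟧), (∀ i, constantCoeff (α i) = a i) ∧
      (∀ i, tau κ (α i) = α i) ∧ constantCoeff z = 0 ∧ constantCoeff z' = 0 ∧ z ≠ z' ∧
      tau κ z = z' ∧ tau κ z' = z ∧
      f = Polynomial.C (C u) * ((Polynomial.X - Polynomial.C z) * (Polynomial.X - Polynomial.C z') *
        ∏ i, (Polynomial.X - Polynomial.C (α i))) := by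
  classical
  have huC : (C u : κ⟦X⟧) ≠ 0 := by
    intro h
    apply hu
    have := congrArg constantCoeff h
    simpa using this
  have hunit : IsUnit (C u : κ⟦X⟧) := (isUnit_iff_ne_zero.2 hu).map C
  -- the monic version
  let f₁ : Polynomial κ⟦X⟧ := Polynomial.C (C u⁻¹) * f
  have hf₁m : f₁.Monic := by
    rw [Polynomial.Monic, Polynomial.leadingCoeff_mul, Polynomial.leadingCoeff_C, hlc, ← map_mul,
      inv_mul_cancel₀ hu, map_one]
  have hff₁ : f = Polynomial.C (C u) * f₁ := by
    simp only [f₁]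
    rw [← mul_assoc, ← Polynomial.C_mul, ← map_mul, mul_inv_cancel₀ hu, map_one, map_one, one_mul]
  have hres₁ : f₁.map constantCoeff = Polynomial.X ^ 2 *
      ∏ i, (Polynomial.X - Polynomial.C (a i)) := by
    simp only [f₁]
    rw [Polynomial.map_mul, Polynomial.map_C, constantCoeff_C, hres, ← mul_assoc,
      ← Polynomial.C_mul, inv_mul_cancel₀ hu, Polynomial.C_1, one_mul]
  have hτ₁ : f₁.map (tau κ) = f₁ := by
    simp only [f₁]
    rw [Polynomial.map_mul, Polynomial.map_C, tau_C, hτ]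
  have hder : ∀ i, (f₁.map constantCoeff).derivative.eval (a i) ≠ 0 := by
    intro i
    have hsplit : Polynomial.X ^ 2 * ∏ i, (Polynomial.X - Polynomial.C (a i)) =
        (Polynomial.X - Polynomial.C (a i)) * (Polynomial.X ^ 2 *
          ∏ j ∈ Finset.univ.erase i, (Polynomial.X - Polynomial.C (a j))) := by
      rw [← Finset.mul_prod_erase Finset.univ _ (Finset.mem_univ i)]
      ring
    rw [hres₁, hsplit, Polynomial.derivative_mul]
    simp only [Polynomial.derivative_sub, Polynomial.derivative_X, Polynomial.derivative_C,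
      sub_zero, one_mul, Polynomial.eval_add, Polynomial.eval_mul, Polynomial.eval_sub,
      Polynomial.eval_X, Polynomial.eval_C, sub_self, zero_mul, add_zero, Polynomial.eval_pow]
    refine mul_ne_zero (pow_ne_zero _ (ha0 i)) ?_
    rw [Polynomial.eval_prod]
    refine Finset.prod_ne_zero_iff.2 fun j hj => ?_
    rw [Polynomial.eval_sub, Polynomial.eval_X, Polynomial.eval_C]
    exact sub_ne_zero.2 fun h => (Finset.ne_of_mem_erase hj) (ha h).symm
  have hex : ∀ i, ∃ α : κ⟦X⟧, f₁.eval α = 0 ∧ constantCoeff α = a i := by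
    intro i
    refine hensel f₁ hf₁m (a i) ?_ (hder i)
    rw [hres₁, Polynomial.eval_mul, Polynomial.eval_prod,
      Finset.prod_eq_zero (Finset.mem_univ i) (by simp), mul_zero]
  choose α hα hαa using hex
  have hτα : ∀ i, tau κ (α i) = α i := by
    intro i
    refine hensel_unique f₁ _ _ ?_ (hα i) (tau_constantCoeff _) (by rw [hαa]; exact hder i)
    rw [← hτ₁, Polynomial.eval_map_apply, hα, map_zero]
  have hαinj : Function.Injective α := fun i j h => ha (by rw [← hαa, ← hαa, h])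
  -- division
  obtain ⟨g, hg⟩ : (∏ i, (Polynomial.X - Polynomial.C (α i))) ∣ f₁ := by
    have h1 := Polynomial.prod_multiset_X_sub_C_dvd f₁
    have h2 : (Finset.univ.val.map α) ≤ f₁.roots := by
      rw [Multiset.le_iff_subset]
      · intro x hx
        obtain ⟨i, -, rfl⟩ := Multiset.mem_map.1 hx
        rw [Polynomial.mem_roots hf₁m.ne_zero]
        exact hα i
      · exact Multiset.Nodup.map hαinj Finset.univ.nodup
    have h3 := Multiset.prod_dvd_prod_of_le (Multiset.map_le_map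
      (f := fun a : κ⟦X⟧ => Polynomial.X - Polynomial.C a) h2)
    rw [Multiset.map_map] at h3
    exact h3.trans h1
  have hPm : (∏ i, (Polynomial.X - Polynomial.C (α i))).Monic :=
    Polynomial.monic_prod_of_monic _ _ fun i _ => Polynomial.monic_X_sub_C _
  have hPd : (∏ i, (Polynomial.X - Polynomial.C (α i))).natDegree = D := by
    rw [Polynomial.natDegree_prod_of_monic _ _ fun i _ => Polynomial.monic_X_sub_C _]
    simp
  have hf₁d : f₁.natDegree = D + 2 := by
    have h1 : f.natDegree = f₁.natDegree := by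
      rw [hff₁, Polynomial.natDegree_C_mul huC]
    rw [← h1, hD]
  have hgm : g.Monic := by
    have := hf₁m
    rw [hg] at this
    exact hPm.of_mul_monic_left this
  have hgd : g.natDegree = 2 := by
    have h1 := hPm.natDegree_mul hgm
    rw [← hg, hPd, hf₁d] at h1
    omega
  have hgX : g = Polynomial.X ^ 2 + Polynomial.C (g.coeff 1) * Polynomial.X +
      Polynomial.C (g.coeff 0) := by
    have h1 := Polynomial.as_sum_range_C_mul_X_pow' g (show g.natDegree < 3 by omega)
    have h2 : g.coeff 2 = 1 := by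
      have := hgm.coeff_natDegree
      rwa [hgd] at this
    nth_rewrite 1 [h1]
    simp [Finset.sum_range_succ, h2]
    ring
  set b := g.coeff 1 with hb
  set d := g.coeff 0 with hd
  have hgτ : g.map (tau κ) = g := by
    have h1 := hτ₁
    rw [hg, Polynomial.map_mul, Polynomial.map_prod] at h1
    simp only [Polynomial.map_sub, Polynomial.map_X, Polynomial.map_C, hτα] at h1
    exact mul_left_cancel₀ hPm.ne_zero h1
  have hτb : tau κ b = b := by
    have h1 := congrArg (fun q : Polynomial κ⟦X⟧ => q.coeff 1) hgτ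
    simpa [Polynomial.coeff_map] using h1
  have hτd : tau κ d = d := by
    have h1 := congrArg (fun q : Polynomial κ⟦X⟧ => q.coeff 0) hgτ
    simpa [Polynomial.coeff_map] using h1
  -- the value at `X`
  have hgX0 : T0 κ ^ 3 ∣ X ^ 2 + b * X + d := by
    obtain ⟨v, hv⟩ := h0
    have h2 : g.eval X = X ^ 2 + b * X + d := by
      rw [hgX]
      simp
    rw [hff₁, hg, Polynomial.eval_mul, Polynomial.eval_mul, Polynomial.eval_C,
      Polynomial.eval_prod, h2] at hv
    set q : κ⟦X⟧ := C u * ∏ i, (Polynomial.X - Polynomial.C (α i)).eval X with hq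
    have hqc : constantCoeff q ≠ 0 := by
      rw [hq, map_mul, map_prod, constantCoeff_C]
      refine mul_ne_zero hu (Finset.prod_ne_zero_iff.2 fun i _ => ?_)
      rw [Polynomial.eval_sub, Polynomial.eval_X, Polynomial.eval_C, map_sub, constantCoeff_X,
        hαa, zero_sub]
      exact neg_ne_zero.2 (ha0 i)
    have hqi : q * q⁻¹ = 1 := PowerSeries.mul_inv_cancel _ hqc
    refine ⟨v * q⁻¹, ?_⟩
    calc X ^ 2 + b * X + d = (C u * ((∏ i, (Polynomial.X - Polynomial.C (α i)).eval X) *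
        (X ^ 2 + b * X + d))) * q⁻¹ := by
          rw [← mul_assoc, ← hq, mul_comm q, mul_assoc, hqi, mul_one]
      _ = _ := by rw [hv]; ring
  obtain ⟨z, z', hz, hz', hzz', hτz, hτz', hbz, hdz⟩ := quad_split b d hτb hτd hgX0
  have hgz : g = (Polynomial.X - Polynomial.C z) * (Polynomial.X - Polynomial.C z') := by
    rw [hgX, hbz, hdz]
    simp only [Polynomial.C_neg, Polynomial.C_add, Polynomial.C_mul]
    ring
  refine ⟨α, z, z', hαa, hτα, hz, hz', hzz', hτz, hτz', ?_⟩
  rw [hff₁, hg, hgz]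
  ring

end hens

end Pool.Agent.W200.IG
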