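import Mathlib
import Pool.Agent.H84.L.S8_H391R2_T4_Cfg
import Pool.Agent.H84.L.S8_H391R2_T4_Deg
import Pool.Agent.H84.L.S8_H391R2_T4_Lau
import Pool.Agent.H84.L.S8_H391R2_T4_Phi
import Pool.Agent.H84.L.S8_H391R2_T4_Sol
import Pool.Agent.H84.L.S8_H391R2_WrSol
import Pool.Agent.H84.L.S8_H391R2_WrTrd
import Pool.Agent.H84.L.S8_W200_IG_Cfg
import Pool.Agent.H84.L.S8_W200_IG_Tau

namespace Pool.Agent.H391R2
end Pool.Agent.H391R2
namespace Pool.Agent.H391R2.T4
end Pool.Agent.H391R2.T4


/-!
The family of tuples and the power series setting, arbitrary characteristic.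
-/

set_option autoImplicit false

namespace Pool.Agent.W200.IG

open MvPolynomial
open Pool.Agent.H391R2 (fam indep_of_mem)
open Pool.Agent.H391R2.T4 (orb bsT bsT_map tv SolP mv_natDegree lead_aux tau_transcendental)

set_option linter.unusedSectionVars false

section pp

/- The numerical data. -/
structure Dt (k G : Type) [Field k] (J : ℕ) where
  l : G → k
  c : k
  R : Polynomial k
  nd : Fin J → k

variable {k : Type} [Field k] {G : Type} [Group G] [Fintype G] (y : MvPolynomial G k) {J : ℕ}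

/- The polynomial of the nodes. -/
noncomputable def Dt.w (d : Dt k G J) : Polynomial k :=
  ∏ a, (Polynomial.X - Polynomial.C (d.nd a))

/- The properties of the data. -/
structure GD (y : MvPolynomial G k) (d : Dt k G J) : Prop where
  hl : Function.Injective d.l
  hδ : ∀ q ∈ orb y, q ≠ y → aeval d.l q - aeval d.l y ≠ 0
  hc : d.c ≠ 0
  hR : d.R.Monic
  hR0 : d.R.eval 0 ≠ 0
  hnd : Function.Injective d.nd
  hndR : ∀ a, d.R.eval (d.nd a) = 0


theorem w_natDegree (d : Dt k G J) : d.w.natDegree ≤ J := by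
  unfold Dt.w
  refine (Polynomial.natDegree_prod_le _ _).trans ?_
  simp

theorem Qt_deg {E : Type} [CommRing E] [IsDomain E] [Algebra k E] (c : k) (hc : c ≠ 0)
    (R : Polynomial k) (hR : R.Monic) (M : ℕ) (hM : 2 + R.natDegree = M) (t : E) :
    (Qt c R t).natDegree = M ∧ (Qt c R t).leadingCoeff = algebraMap k E c := by
  have hinj : Function.Injective (algebraMap k E) := FaithfulSMul.algebraMap_injective k E
  have hc' : algebraMap k E c ≠ 0 := (map_ne_zero_iff _ hinj).2 hc
  have h0 : (Polynomial.C t * Polynomial.X + Polynomial.C t : Polynomial E).degree < 2 := by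
    refine lt_of_le_of_lt (Polynomial.degree_add_le _ _) (max_lt ?_ ?_)
    · exact lt_of_le_of_lt (Polynomial.degree_C_mul_X_le t) (by norm_num)
    · exact lt_of_le_of_lt Polynomial.degree_C_le (by norm_num)
  have h1' : (Polynomial.X ^ 2 - Polynomial.C t * Polynomial.X - Polynomial.C t : Polynomial E) =
      Polynomial.X ^ 2 - (Polynomial.C t * Polynomial.X + Polynomial.C t) := by ring
  have h1 : (Polynomial.X ^ 2 - Polynomial.C t * Polynomial.X - Polynomial.C t :
      Polynomial E).Monic := by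
    rw [h1']
    exact Polynomial.monic_X_pow_sub h0
  have h1d : (Polynomial.X ^ 2 - Polynomial.C t * Polynomial.X - Polynomial.C t :
      Polynomial E).natDegree = 2 := by
    rw [h1']
    have h3 : (Polynomial.C t * Polynomial.X + Polynomial.C t : Polynomial E).degree <
        (Polynomial.X ^ 2 : Polynomial E).degree := by
      rw [Polynomial.degree_X_pow]
      exact_mod_cast h0
    rw [Polynomial.natDegree_eq_of_degree_eq (Polynomial.degree_sub_eq_left_of_degree_lt h3),
      Polynomial.natDegree_X_pow]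
  have h2 : (R.map (algebraMap k E)).Monic := hR.map _
  unfold Qt
  refine ⟨?_, ?_⟩
  · rw [Polynomial.natDegree_C_mul hc', h1.natDegree_mul h2, h1d, hR.natDegree_map, hM]
  · rw [Polynomial.leadingCoeff_mul, Polynomial.leadingCoeff_C, (h1.mul h2).leadingCoeff, mul_one]


theorem GD.nd0 {y : MvPolynomial G k} {d : Dt k G J} (h : GD y d) (a : Fin J) : d.nd a ≠ 0 := by
  intro h0
  apply h.hR0
  have := h.hndR a
  rwa [h0] at this

theorem w_eval (d : Dt k G J) {E : Type} [CommRing E] [Algebra k E] (a : Fin J) :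
    (d.w.map (algebraMap k E)).eval (algebraMap k E (d.nd a)) = 0 := by
  rw [Polynomial.eval_map_apply]
  unfold Dt.w
  rw [Polynomial.eval_prod, Finset.prod_eq_zero (Finset.mem_univ a) (by simp), map_zero]

theorem w_root (d : Dt k G J) {E : Type} [Field E] [Algebra k E] (s : E)
    (hs : Polynomial.aeval s d.w = 0) : ∃ a, s = algebraMap k E (d.nd a) := by
  unfold Dt.w at hs
  rw [map_prod, Finset.prod_eq_zero_iff] at hs
  obtain ⟨a, -, ha⟩ := hs
  refine ⟨a, ?_⟩
  simpa [sub_eq_zero] using ha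


end pp

section lau

open PowerSeries

/- The field containing the power series, with the extended involution. -/
theorem exists_setting (k : Type) [Field k] (I : Type) [Finite I] :
    ∃ (κ Ω : Type) (_ : Field κ) (_ : IsAlgClosed κ) (_ : Algebra k κ)
      (_ : Field Ω) (_ : IsAlgClosed Ω) (_ : Algebra k Ω) (ι : κ⟦X⟧ →ₐ[k] Ω)
      (τ : Ω ≃ₐ[k] Ω) (x : I → κ), Function.Injective ι ∧ (∀ f, τ (ι f) = ι (tau κ f)) ∧
      AlgebraicIndependent k (fun v : Unit ⊕ I => ι (Sum.elim (fun _ => T0 κ)
        (fun i => T0 κ ^ 3 * PowerSeries.C (x i)) v)) := by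
  classical
  let κ := AlgebraicClosure (FractionRing (MvPolynomial I k))
  let Ω := AlgebraicClosure (LaurentSeries κ)
  let τΛ : LaurentSeries κ ≃+* LaurentSeries κ :=
    IsFractionRing.ringEquivOfRingEquiv (A := κ⟦X⟧) (B := κ⟦X⟧)
      (RingEquiv.ofRingHom (tau κ) (tau κ) (by ext1 f; exact tau_tau f)
        (by ext1 f; exact tau_tau f))
  have hτΛ : ∀ f : κ⟦X⟧, τΛ (algebraMap κ⟦X⟧ (LaurentSeries κ) f) =
      algebraMap κ⟦X⟧ (LaurentSeries κ) (tau κ f) := by
    intro f
    exact IsFractionRing.ringEquivOfRingEquiv_algebraMap _ _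
  let τ' : Ω ≃+* Ω := IsAlgClosure.equivOfEquiv Ω Ω τΛ
  let algO : Algebra k κ⟦X⟧ := inferInstance
  let i0 : κ⟦X⟧ →+* Ω := (algebraMap (LaurentSeries κ) Ω).comp (algebraMap κ⟦X⟧ (LaurentSeries κ))
  have hi0 : Function.Injective i0 :=
    (algebraMap (LaurentSeries κ) Ω).injective.comp (IsFractionRing.injective κ⟦X⟧ (LaurentSeries κ))
  have hτ' : ∀ f : κ⟦X⟧, τ' (i0 f) = i0 (tau κ f) := by
    intro f
    change τ' (algebraMap (LaurentSeries κ) Ω _) = _
    rw [IsAlgClosure.equivOfEquiv_algebraMap, hτΛ]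
    rfl
  let algk : Algebra k Ω := (i0.comp (algebraMap k κ⟦X⟧)).toAlgebra
  let ι : κ⟦X⟧ →ₐ[k] Ω := { i0 with commutes' := fun c => rfl }
  have hι : ∀ f, ι f = i0 f := fun f => rfl
  let τ : Ω ≃ₐ[k] Ω := AlgEquiv.ofRingEquiv (f := τ') (fun c => by
    change τ' (i0 (algebraMap k κ⟦X⟧ c)) = i0 (algebraMap k κ⟦X⟧ c)
    rw [hτ', PowerSeries.algebraMap_apply, tau_C])
  let x : I → κ := fun v => algebraMap (FractionRing (MvPolynomial I k)) κ
    (algebraMap (MvPolynomial I k) _ (MvPolynomial.X v))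
  have hx : AlgebraicIndependent k x := by
    have h1 : AlgebraicIndependent k (MvPolynomial.X : I → MvPolynomial I k) :=
      MvPolynomial.algebraicIndependent_X _ _
    have h2 := h1.map' (f := IsScalarTower.toAlgHom k (MvPolynomial I k)
      (FractionRing (MvPolynomial I k)))
      (IsFractionRing.injective (MvPolynomial I k) _)
    have h3 := h2.map' (f := IsScalarTower.toAlgHom k (FractionRing (MvPolynomial I k)) κ)
      (algebraMap (FractionRing (MvPolynomial I k)) κ).injective
    exact h3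
  refine ⟨κ, Ω, inferInstance, inferInstance, inferInstance, inferInstance, inferInstance,
    algk, ι, τ, x, hi0, hτ', ?_⟩
  -- the reference family
  let algκ : Algebra κ Ω := (i0.comp (PowerSeries.C : κ →+* κ⟦X⟧)).toAlgebra
  have hT : IsScalarTower k κ Ω := IsScalarTower.of_algebraMap_eq fun c => by
    change i0 (algebraMap k κ⟦X⟧ c) = i0 (C (algebraMap k κ c))
    rw [PowerSeries.algebraMap_apply]
  let iκ : κ⟦X⟧ →ₐ[κ] Ω := { i0 with commutes' := fun c => rfl }
  have hiκ : Function.Injective iκ := hi0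
  have htr : Transcendental κ (i0 (T0 κ)) := by
    intro h2
    -- `X` is algebraic over `κ(T)`
    have h1 : Transcendental κ (X : κ⟦X⟧) := tau_transcendental κ
    let S := IntermediateField.adjoin κ {i0 (T0 κ)}
    have h3 : IsAlgebraic S (iκ X) := by
      let t : S := ⟨i0 (T0 κ), IntermediateField.mem_adjoin_simple_self _ _⟩
      refine ⟨Polynomial.X ^ 2 - (Polynomial.C t * Polynomial.X + Polynomial.C t), ?_, ?_⟩
      · apply Polynomial.Monic.ne_zero
        apply Polynomial.monic_X_pow_sub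
        refine lt_of_le_of_lt (Polynomial.degree_add_le _ _) (max_lt ?_ ?_)
        · exact lt_of_le_of_lt (Polynomial.degree_C_mul_X_le t) (by norm_num)
        · exact lt_of_le_of_lt Polynomial.degree_C_le (by norm_num)
      · have h4 := congrArg i0 (X_root (κ := κ))
        rw [map_sub, map_sub, map_mul, map_pow, map_zero] at h4
        simp only [map_sub, map_pow, Polynomial.aeval_X, map_add, map_mul, Polynomial.aeval_C]
        have h5 : algebraMap S Ω t = i0 (T0 κ) := rfl
        have h6 : iκ X = i0 X := rfl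
        rw [h5, h6]
        linear_combination h4
    have h4 : Algebra.IsAlgebraic κ S := by
      have h7 := IntermediateField.isAlgebraic_adjoin_simple h2.isIntegral
      exact h7
    have h5 : IsAlgebraic κ (iκ X) := h3.restrictScalars κ
    exact h1 ((isAlgebraic_algHom_iff iκ hiκ).1 h5)
  have hy : AlgebraicIndependent κ (fun _ : Unit => i0 (T0 κ)) :=
    algebraicIndependent_unique_type_iff.2 htr
  have hρ0 := AlgebraicIndependent.sumElim_comp (R := k) (S := κ) (A := Ω) hx hy
  refine indep_of_mem (ι := Unit ⊕ I) le_rfl _ hρ0 _ ?_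
  set S := IntermediateField.adjoin k (Set.range fun v : Unit ⊕ I => ι (Sum.elim
      (fun _ => T0 κ) (fun i => T0 κ ^ 3 * PowerSeries.C (x i)) v)) with hS
  have hX2 : i0 (T0 κ) ∈ S := IntermediateField.subset_adjoin _ _ ⟨Sum.inl (), rfl⟩
  have hX4 : i0 (T0 κ ^ 3) ∈ S := by
    rw [map_pow]
    exact pow_mem hX2 3
  have hX40 : i0 (T0 κ ^ 3) ≠ 0 := by
    rw [map_ne_zero_iff _ hi0]
    exact pow_ne_zero _ T0_ne
  rintro (u | i)
  · exact hX2
  · change i0 (PowerSeries.C (x i)) ∈ S
    have h1 : i0 (T0 κ ^ 3 * PowerSeries.C (x i)) ∈ S :=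
      IntermediateField.subset_adjoin _ _ ⟨Sum.inr i, rfl⟩
    have h2 : i0 (PowerSeries.C (x i)) = i0 (T0 κ ^ 3 * PowerSeries.C (x i)) / i0 (T0 κ ^ 3) := by
      rw [eq_div_iff hX40, map_mul]
      ring
    rw [h2]
    exact S.div_mem h1 hX4

end lau

end Pool.Agent.W200.IG
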