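import Mathlib
import Pool.Agent.H84.L.S8_H391R2_T4_Cfg
import Pool.Agent.H84.L.S8_H391R2_T4_Deg
import Pool.Agent.H84.L.S8_H391R2_T4_Phi
import Pool.Agent.H84.L.S8_H391R2_T4_Sol
import Pool.Agent.H84.L.S8_H391R2_WrSol
import Pool.Agent.H84.L.S8_H391R2_WrTrd
import Pool.Agent.H84.L.S8_W200_IG_Cfg
import Pool.Agent.H84.L.S8_W200_IG_Fam

namespace Pool.Agent.H391R2
end Pool.Agent.H391R2
namespace Pool.Agent.H391R2.T4
end Pool.Agent.H391R2.T4
namespace Pool.Agent.W200.IG
end Pool.Agent.W200.IG


/-!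
The family of tuples with `m` parameters per coordinate.
-/

set_option autoImplicit false

namespace Pool.Agent.W200.IH

open MvPolynomial
open Pool.Agent.H391R2 (fam indep_of_mem)
open Pool.Agent.H391R2.T4 (orb bsT bsT_map tv SolP lead_aux)
open Pool.Agent.W200.IG (Dt GD Qt Qt_map Qt_deg w_natDegree w_eval w_root)

set_option linter.unusedSectionVars false

/- Index set of the parameters. -/
abbrev Ix (G : Type) [Fintype G] (m : ℕ) : Type := Option (Fin (Fintype.card G)) × Fin m

section pp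

variable {k : Type} [Field k] {G : Type} [Group G] [Fintype G] (y : MvPolynomial G k) {J m : ℕ}

/- The tuple of polynomials. -/
noncomputable def PP (d : Dt k G J) {E : Type} [CommRing E] [Algebra k E] (t : E)
    (θ : Ix G m → E) (i : Option (Fin (Fintype.card G))) : Polynomial E :=
  bsT y d.l (Qt d.c d.R t) i +
  d.w.map (algebraMap k E) * ∑ j : Fin m, Polynomial.C (θ (i, j)) * Polynomial.X ^ (j : ℕ)

theorem PP_map (d : Dt k G J) {E E' : Type} [CommRing E] [Algebra k E] [CommRing E']
    [Algebra k E'] (f : E →ₐ[k] E') (t : E) (θ : Ix G m → E)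
    (i : Option (Fin (Fintype.card G))) :
    (PP y d t θ i).map (f : E →+* E') = PP y d (f t) (fun j => f (θ j)) i := by
  have h : (f : E →+* E').comp (algebraMap k E) = algebraMap k E' := f.comp_algebraMap
  unfold PP
  rw [Polynomial.map_add, bsT_map, Qt_map]
  simp only [Polynomial.map_mul, Polynomial.map_X, Polynomial.map_C, Polynomial.map_map,
    Polynomial.map_sum, Polynomial.map_pow, h]
  rfl

theorem mv_deg (d : Dt k G J) {E : Type} [CommRing E] [Algebra k E] (θ : Ix G m → E)
    (i : Option (Fin (Fintype.card G))) :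
    (d.w.map (algebraMap k E) * ∑ j : Fin m, Polynomial.C (θ (i, j)) *
      Polynomial.X ^ (j : ℕ)).natDegree ≤ J + m := by
  refine Polynomial.natDegree_mul_le.trans (Nat.add_le_add
    (Polynomial.natDegree_map_le.trans (w_natDegree d)) ?_)
  apply Polynomial.natDegree_sum_le_of_forall_le
  intro j _
  exact (Polynomial.natDegree_C_mul_X_pow_le _ _).trans j.2.le

theorem PP_deg (d : Dt k G J) {E : Type} [CommRing E] [IsDomain E] [Algebra k E] (t : E)
    (θ : Ix G m → E) (hc : d.c ≠ 0) (hR : d.R.Monic)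
    (M : ℕ) (hM : 2 + d.R.natDegree = M) (hJ : J + m < M) :
    (∀ i, (PP y d t θ (some i)).natDegree ≤ J + m) ∧
    (PP y d t θ none).natDegree = M ∧
    (PP y d t θ none).leadingCoeff = algebraMap k E d.c := by
  have hmv := mv_deg d θ
  obtain ⟨h1, h2⟩ := Qt_deg (E := E) d.c hc d.R hR M hM t
  refine ⟨fun i => ?_, ?_⟩
  · unfold PP
    refine (Polynomial.natDegree_add_le _ _).trans (max_le ?_ (hmv _))
    simp only [bsT, Polynomial.natDegree_C]
    exact Nat.zero_le _
  · have h3 : PP y d t θ none = (Polynomial.C (algebraMap k E (aeval d.l y)) +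
        d.w.map (algebraMap k E) * ∑ j : Fin m, Polynomial.C (θ (none, j)) *
          Polynomial.X ^ (j : ℕ)) + Qt d.c d.R t := by
      unfold PP
      simp only [bsT]
      ring
    have h4 : (Polynomial.C (algebraMap k E (aeval d.l y)) +
        d.w.map (algebraMap k E) * ∑ j : Fin m, Polynomial.C (θ (none, j)) *
          Polynomial.X ^ (j : ℕ)).natDegree < M := by
      refine lt_of_le_of_lt ?_ hJ
      refine (Polynomial.natDegree_add_le _ _).trans (max_le ?_ (hmv _))
      rw [Polynomial.natDegree_C]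
      exact Nat.zero_le _
    obtain ⟨h5, h6⟩ := lead_aux _ _ M h1 h4
    rw [h3]
    exact ⟨h5, h6.trans h2⟩

theorem PP_node {y : MvPolynomial G k} {d : Dt k G J} (h : GD y d) {E : Type} [CommRing E]
    [Algebra k E] (t : E) (θ : Ix G m → E) (a : Fin J) :
    SolP y (PP y d t θ) (algebraMap k E (d.nd a)) (fun g => algebraMap k E (d.l g)) := by
  intro i
  have h2 := comp_aeval_apply (f := d.l) (φ := Algebra.ofId k E) (tv y i)
  rw [Algebra.ofId_apply] at h2
  have h1 : (d.R.map (algebraMap k E)).eval (algebraMap k E (d.nd a)) = 0 := by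
    rw [Polynomial.eval_map_apply, h.hndR, map_zero]
  have h3 : (Qt d.c d.R t).eval (algebraMap k E (d.nd a)) = 0 := by
    unfold Qt
    rw [Polynomial.eval_mul, Polynomial.eval_mul, h1, mul_zero, mul_zero]
  unfold PP
  rw [Polynomial.eval_add, Polynomial.eval_mul, w_eval, zero_mul, add_zero]
  refine h2.symm.trans ?_
  cases i with
  | none =>
    simp only [bsT, tv, Polynomial.eval_add, Polynomial.eval_C, h3, add_zero]
  | some i => simp only [bsT, tv, Polynomial.eval_C]

/- The base over the field of the parameter and of the parameters of index at least two. -/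
noncomputable def base2 (d : Dt k G J) {k₁ : Type} [Field k₁] [Algebra k k₁] (t : k₁)
    (θ : Ix G m → k₁) (i : Option (Fin (Fintype.card G))) : Polynomial k₁ :=
  bsT y d.l (Qt d.c d.R t) i +
  d.w.map (algebraMap k k₁) * ∑ j : Fin m, Polynomial.C (θ (i, j)) * Polynomial.X ^ ((j : ℕ) + 2)

theorem fam_PP (d : Dt k G J) {k₁ : Type} [Field k₁] [Algebra k k₁] (t : k₁) (θ₂ : Ix G m → k₁)
    {E : Type} [Field E] [Algebra k E]
    [Algebra k₁ E] [IsScalarTower k k₁ E]
    (θ : Ix G (m + 2) → E) (hθ : ∀ i (j : Fin m), algebraMap k₁ E (θ₂ (i, j)) = θ (i, j.succ.succ))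
    (i : Option (Fin (Fintype.card G))) :
    fam G (base2 y d t θ₂) (d.w.map (algebraMap k k₁))
      (Sum.elim (fun i => θ (i, 0)) (fun i => θ (i, 1))) i =
      PP y d (algebraMap k₁ E t) θ i := by
  have hT : (algebraMap k₁ E).comp (algebraMap k k₁) = algebraMap k E :=
    (IsScalarTower.algebraMap_eq k k₁ E).symm
  unfold fam PP base2
  have h1 := bsT_map y (IsScalarTower.toAlgHom k k₁ E) d.l (Qt d.c d.R t) i
  have h3 := Qt_map (IsScalarTower.toAlgHom k k₁ E) d.c d.R t
  have h2 : ((IsScalarTower.toAlgHom k k₁ E : k₁ →ₐ[k] E) : k₁ →+* E) = algebraMap k₁ E := rfl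
  rw [h2] at h1 h3
  have h4 : (IsScalarTower.toAlgHom k k₁ E) t = algebraMap k₁ E t := rfl
  rw [Polynomial.map_add, h1, h3, h4, Polynomial.map_mul, Polynomial.map_map, hT,
    Fin.sum_univ_succ, Fin.sum_univ_succ]
  simp only [Polynomial.map_sum, Polynomial.map_mul, Polynomial.map_C, Polynomial.map_pow,
    Polynomial.map_X, hθ, Sum.elim_inl, Sum.elim_inr]
  have h5 : ∀ j : Fin m, ((j.succ.succ : Fin (m + 2)) : ℕ) = (j : ℕ) + 2 := fun j => rfl
  simp only [h5]
  have h6 : ((0 : Fin (m + 2)) : ℕ) = 0 := rfl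
  have h7 : (((0 : Fin (m + 1)).succ : Fin (m + 2)) : ℕ) = 1 := rfl
  have h8 : ((0 : Fin (m + 1)).succ : Fin (m + 2)) = 1 := rfl
  rw [h6, h7, h8]
  ring

end pp

end Pool.Agent.W200.IH
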