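import Mathlib
import Pool.Agent.H84.L.S8_H391R2_NtB
import Pool.Agent.H84.L.S8_H391R2_T4_Cfg
import Pool.Agent.H84.L.S8_H391R2_T4_Fam
import Pool.Agent.H84.L.S8_H391R2_T4_Phi
import Pool.Agent.H84.L.S8_H391R2_T4_Sol
import Pool.Agent.H84.L.S8_W200_IG_Cfg
import Pool.Agent.H84.L.S8_W200_IG_Fam
import Pool.Agent.H84.L.S8_W200_IG_Tau
import Pool.Agent.H84.L.S8_W200_IH_PA

namespace Pool.Agent.H391R2
end Pool.Agent.H391R2
namespace Pool.Agent.H391R2.T4
end Pool.Agent.H391R2.T4
namespace Pool.Agent.W200.IG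
end Pool.Agent.W200.IG


/-!
The roots over the power series ring and the transposition, with `m` parameters per coordinate;
the data are defined over a subfield `k` of the base field `K`.
-/

set_option autoImplicit false

namespace Pool.Agent.W200.IH

open MvPolynomial
open Pool.Agent.H391R2 (PhiP PhiP_map exists_enum)
open Pool.Agent.H391R2.T4 (orb bsT bsT_map tv SolP SolP_root exists_SolP lift_family)
open Pool.Agent.W200.IG (Dt GD Qt T0 tau tauA tau_T0 tau_C tau_tau T0_constantCoeff T0_ne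
  config_roots fibre_coords exists_setting w_eval w_root)

set_option linter.unusedSectionVars false

section ser

variable {k : Type} [Field k] {G : Type} [Group G] [Fintype G]
variable (y : MvPolynomial G k) {J m : ℕ}
variable {κ : Type} [Field κ] [Algebra k κ]

/- The tuple over the power series ring. -/
noncomputable def PO (d : Dt k G J)
    (x : Ix G m → κ)
    (i : Option (Fin (Fintype.card G))) : Polynomial (PowerSeries κ) :=
  PP y d (T0 κ) (fun i => T0 κ ^ 3 * PowerSeries.C (x i)) i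

theorem PO_tau (d : Dt k G J)
    (x : Ix G m → κ)
    (i : Option (Fin (Fintype.card G))) : (PO y d x i).map (tau κ) = PO y d x i := by
  have h1 := PP_map y d (tauA k κ) (T0 κ) (fun i => T0 κ ^ 3 * PowerSeries.C (x i)) i
  have h2 : ∀ f : PowerSeries κ, tauA k κ f = tau κ f := fun f => rfl
  have h3 : ((tauA k κ : PowerSeries κ →ₐ[k] PowerSeries κ) : PowerSeries κ →+* PowerSeries κ) =
    tau κ := rfl
  rw [h3] at h1
  unfold PO
  rw [h1]
  simp only [h2, map_mul, map_pow, tau_T0, tau_C]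

theorem PO_dec (d : Dt k G J)
    (x : Ix G m → κ) :
    ∃ D : Option (Fin (Fintype.card G)) → Polynomial (PowerSeries κ),
    ∀ i, PO y d x i = bsT y d.l (Qt d.c d.R (T0 κ)) i + Polynomial.C (T0 κ ^ 3) * D i := by
  refine ⟨fun i => d.w.map (algebraMap k _) * ∑ j : Fin m, Polynomial.C (PowerSeries.C (x (i, j))) *
      Polynomial.X ^ (j : ℕ), fun i => ?_⟩
  unfold PO PP
  simp only [Polynomial.C_mul, mul_assoc]
  rw [← Finset.mul_sum]
  ring

open Classical in
/- The roots over the power series ring. -/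
theorem ser_roots [IsAlgClosed κ] (d : Dt k G J) (h : GD y d)
    (Ψ : Polynomial (MvPolynomial (Fin (Fintype.card G)) k)) (hm : Ψ.Monic)
    (hΨ : Ψ.map ((aeval fun i : Fin (Fintype.card G) => esymm G k (i + 1) :
      MvPolynomial (Fin (Fintype.card G)) k →ₐ[k] MvPolynomial G k) :
      MvPolynomial (Fin (Fintype.card G)) k →+* MvPolynomial G k) =
      ∏ q ∈ orb y, (Polynomial.X - Polynomial.C q))
    (T : ℕ) (hT : ∀ e, (Ψ.coeff e).totalDegree ≤ T)
    (hsep : (Polynomial.C d.c * d.R * ∏ q ∈ (orb y).erase y,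
      (Polynomial.C d.c * (Polynomial.X ^ 2 * d.R) -
      Polynomial.C (aeval d.l q - aeval d.l y))).Separable)
    (M : ℕ) (hJM : J + m < M) (hB : T * (J + m) < M) (hM : 2 + d.R.natDegree = M) (n' : ℕ)
    (hdeg : Ψ.natDegree * M = n' + 2)
    (x : Ix G m → κ) :
    ∃ (α : Fin n' → PowerSeries κ) (z z' : PowerSeries κ),
      Function.Injective (fun i => PowerSeries.constantCoeff (α i)) ∧
      (∀ i, PowerSeries.constantCoeff (α i) ≠ 0) ∧
      (∀ i, tau κ (α i) = α i) ∧ PowerSeries.constantCoeff z = 0 ∧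
      PowerSeries.constantCoeff z' = 0 ∧ z ≠ z' ∧
      tau κ z = z' ∧ tau κ z' = z ∧
      PhiP Ψ (PO y d x) = Polynomial.C (algebraMap k (PowerSeries κ) (d.c ^ Ψ.natDegree)) *
        ((Polynomial.X - Polynomial.C z) * (Polynomial.X - Polynomial.C z') *
        ∏ i, (Polynomial.X - Polynomial.C (α i))) := by
  obtain ⟨h1, h2, h3⟩ := PP_deg y d (E := PowerSeries κ) (T0 κ)
    (fun i => T0 κ ^ 3 * PowerSeries.C (x i)) h.hc h.hR M hM hJM
  obtain ⟨D, hD⟩ := PO_dec y d x
  exact config_roots y Ψ hm hΨ T hT d.l d.c h.hc d.R h.hR0 h.hδ hsep (J + m) M hB hM n' hdeg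
    (PO y d x) h1 h2 h3 (PO_tau y d x) D hD

/- Fibres. -/
theorem ser_fibre (d : Dt k G J) (h : GD y d)
    (x : Ix G m → κ)
    {Ω : Type} [Field Ω] [Algebra k Ω] (ι : PowerSeries κ →ₐ[k] Ω) (s : PowerSeries κ)
    (v : G → Ω) (hv : ∀ i : Fin (Fintype.card G), aeval v (esymm G k (i + 1)) =
      ι ((PO y d x (some i)).eval s)) :
    ∃ v' : G → PowerSeries κ, (∀ g, v g = ι (v' g)) ∧
      (tau κ s = s → ∀ g, tau κ (v' g) = v' g) := by
  obtain ⟨D, hD⟩ := PO_dec y d x
  obtain ⟨v', h1, h2⟩ := fibre_coords d.l h.hl ι (fun i => (PO y d x (some i)).eval s) (by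
    intro i
    have h5 : (PowerSeries.constantCoeff : PowerSeries κ →+* κ) (T0 κ ^ 3) = 0 := by
      rw [map_pow, T0_constantCoeff]; simp
    simp only [hD, bsT, Polynomial.eval_add, Polynomial.eval_mul, Polynomial.eval_C]
    rw [map_add, map_mul, h5, zero_mul, add_zero, PowerSeries.algebraMap_apply,
      PowerSeries.constantCoeff_C]) v hv
  refine ⟨v', h1, fun hs => h2 fun i => ?_⟩
  rw [← Polynomial.eval_map_apply, PO_tau, hs]

end ser

section geoa

variable {k : Type} [Field k] {G : Type} [Group G] [Fintype G]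
variable (y : MvPolynomial G k) {J m : ℕ}

/- The tuple attached to a family of parameters. -/
noncomputable def PX (d : Dt k G J) {E : Type} [CommRing E] [Algebra k E]
    (ξ : Unit ⊕ Ix G m → E)
    (i : Option (Fin (Fintype.card G))) : Polynomial E :=
  PP y d (ξ (Sum.inl ())) (fun i => ξ (Sum.inr i)) i

theorem PX_map (d : Dt k G J) {E E' : Type} [CommRing E] [Algebra k E] [CommRing E']
    [Algebra k E'] (f : E →ₐ[k] E')
    (ξ : Unit ⊕ Ix G m → E)
    (i : Option (Fin (Fintype.card G))) :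
    (PX y d ξ i).map (f : E →+* E') = PX y d (fun v => f (ξ v)) i :=
  PP_map y d f _ _ i

theorem PX_node (d : Dt k G J) (h : GD y d) {E : Type} [CommRing E] [Algebra k E]
    (ξ : Unit ⊕ Ix G m → E)
    (a : Fin J) :
    SolP y (PX y d ξ) (algebraMap k E (d.nd a)) (fun g => algebraMap k E (d.l g)) := by
  intro i
  unfold PX
  exact PP_node h (ξ (Sum.inl ())) (fun i => ξ (Sum.inr i)) a i

open Classical in
theorem geo1 (d : Dt k G J) (h : GD y d)
    (Ψ : Polynomial (MvPolynomial (Fin (Fintype.card G)) k)) (hm : Ψ.Monic)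
    (hΨ : Ψ.map ((aeval fun i : Fin (Fintype.card G) => esymm G k (i + 1) :
      MvPolynomial (Fin (Fintype.card G)) k →ₐ[k] MvPolynomial G k) :
      MvPolynomial (Fin (Fintype.card G)) k →+* MvPolynomial G k) =
      ∏ q ∈ orb y, (Polynomial.X - Polynomial.C q))
    (T : ℕ) (hT : ∀ e, (Ψ.coeff e).totalDegree ≤ T)
    (hsep : (Polynomial.C d.c * d.R * ∏ q ∈ (orb y).erase y,
      (Polynomial.C d.c * (Polynomial.X ^ 2 * d.R) -
      Polynomial.C (aeval d.l q - aeval d.l y))).Separable)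
    (M : ℕ) (hJM : J + m < M) (hB : T * (J + m) < M) (hM : 2 + d.R.natDegree = M) (n : ℕ)
    (hn : 3 ≤ n) (hdeg : Ψ.natDegree * M = n + J)
    {K : Type} [Field K] [Algebra k K]
    {N : Type} [Field N] [Algebra K N] [Algebra k N] [IsScalarTower k K N] [IsAlgClosed N]
    (ξ : Unit ⊕ Ix G m → N) (hξ : IsTranscendenceBasis K ξ) :
    ∃ (r : Fin n → N) (vv : Fin n → G → N), Function.Injective r ∧
      (∀ i, Polynomial.aeval (r i) d.w ≠ 0) ∧ (∀ i, SolP y (PX y d ξ) (r i) (vv i)) ∧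
      (∀ s v, SolP y (PX y d ξ) s v → Polynomial.aeval s d.w ≠ 0 → ∃ i, s = r i) ∧
      ∃ (Ω : Type) (_ : Field Ω) (_ : Algebra K Ω) (j : N →ₐ[K] Ω) (τ : Ω ≃ₐ[K] Ω),
        (∀ v, τ (j (ξ v)) = j (ξ v)) ∧ ∃ k₁ k₂ : Fin n, k₁ ≠ k₂ ∧ τ (j (r k₁)) = j (r k₂) ∧
          τ (j (r k₂)) = j (r k₁) ∧ (∀ g, τ (τ (j (vv k₁ g))) = j (vv k₁ g)) ∧
          ∀ i, i ≠ k₁ → i ≠ k₂ → τ (j (r i)) = j (r i) ∧ ∀ g, τ (j (vv i g)) = j (vv i g) := by
  obtain ⟨κ, Ω, i1, i2, i4, i5, i6, i7, ιK, τ, x, hι', hτ', hind⟩ := exists_setting K (Ix G m)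
  obtain ⟨jK, hjK⟩ := lift_family ξ hξ _ hind
  let _ : Algebra k κ := ((algebraMap K κ).comp (algebraMap k K)).toAlgebra
  have hTκ : IsScalarTower k K κ := IsScalarTower.of_algebraMap_eq fun x => rfl
  let _ : Algebra k Ω := ((algebraMap K Ω).comp (algebraMap k K)).toAlgebra
  have hTΩ : IsScalarTower k K Ω := IsScalarTower.of_algebraMap_eq fun x => rfl
  have hTP : IsScalarTower k K (PowerSeries κ) := IsScalarTower.of_algebraMap_eq fun x => by
    rw [PowerSeries.algebraMap_apply, PowerSeries.algebraMap_apply]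
    rfl
  obtain ⟨ι, hιdef⟩ : ∃ ι : PowerSeries κ →ₐ[k] Ω, ι = ιK.restrictScalars k := ⟨_, rfl⟩
  obtain ⟨j, hjdef⟩ : ∃ j : N →ₐ[k] Ω, j = jK.restrictScalars k := ⟨_, rfl⟩
  have hι : Function.Injective ι := by rw [hιdef]; exact hι'
  have hτ : ∀ f, τ (ι f) = ι (tau κ f) := by rw [hιdef]; exact hτ'
  have hj : ∀ v, j (ξ v) = ι (Sum.elim (fun _ => T0 κ)
      (fun i => T0 κ ^ 3 * PowerSeries.C (x i)) v) := by rw [hιdef, hjdef]; exact hjK
  have hjj : ∀ x, jK x = j x := fun x => by rw [hjdef]; rfl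
  have hjinj : Function.Injective j := j.toRingHom.injective
  obtain ⟨P, hPdef⟩ : ∃ P, P = PX y d ξ := ⟨_, rfl⟩
  rw [← hPdef]
  have hjt : j (ξ (Sum.inl ())) = ι (T0 κ) := hj (Sum.inl ())
  have hjθ : ∀ i, j (ξ (Sum.inr i)) = ι (T0 κ ^ 3 * PowerSeries.C (x i)) :=
    fun i => hj (Sum.inr i)
  have hP : ∀ i, (P i).map (j : N →+* Ω) = (PO y d x i).map (ι : PowerSeries κ →+* Ω) := by
    intro i
    rw [hPdef, PX_map y d j ξ i]
    unfold PO
    rw [PP_map y d ι]
    unfold PX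
    simp only [hjt, hjθ]
  have hPf : (fun i => (P i).map (j : N →+* Ω)) =
      fun i => (PO y d x i).map (ι : PowerSeries κ →+* Ω) := funext hP
  have hΦ : (PhiP Ψ P).map (j : N →+* Ω) = (PhiP Ψ (PO y d x)).map (ι : PowerSeries κ →+* Ω) := by
    rw [PhiP_map Ψ j P, PhiP_map Ψ ι (PO y d x), hPf]
  obtain ⟨n', hn'⟩ : ∃ n', n + J = n' + 2 := ⟨n + J - 2, by omega⟩
  obtain ⟨α, z, z', hα1, hα2, hα3, hz, hz', hzz', hτz, hτz', hfac⟩ := ser_roots y d h Ψ hm hΨ T hT
    hsep M hJM hB hM n' (hdeg.trans hn') x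
  let ρ : Option (Option (Fin n')) → PowerSeries κ := fun o => o.elim z (fun o => o.elim z' α)
  have hρinj : Function.Injective ρ := by
    intro a b hab
    have hα0 : ∀ i, α i ≠ z ∧ α i ≠ z' := by
      intro i
      refine ⟨fun e => hα2 i (by rw [e, hz]), fun e => hα2 i (by rw [e, hz'])⟩
    rcases a with _ | _ | a <;> rcases b with _ | _ | b
    · rfl
    · exact absurd hab hzz'
    · exact absurd hab.symm (hα0 b).1
    · exact absurd hab.symm hzz'
    · rfl
    · exact absurd hab.symm (hα0 b).2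
    · exact absurd hab (hα0 a).1
    · exact absurd hab (hα0 a).2
    · have : a = b := hα1 (congrArg PowerSeries.constantCoeff hab)
      rw [this]
  have hfac' : PhiP Ψ (PO y d x) = Polynomial.C (algebraMap k (PowerSeries κ)
      (d.c ^ Ψ.natDegree)) * ∏ o, (Polynomial.X - Polynomial.C (ρ o)) := by
    rw [hfac, Fintype.prod_option, Fintype.prod_option, mul_assoc]
    rfl
  have hc0 : algebraMap k Ω (d.c ^ Ψ.natDegree) ≠ 0 :=
    (_root_.map_ne_zero _).2 (pow_ne_zero _ h.hc)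
  have hfacΩ : (PhiP Ψ P).map (j : N →+* Ω) = Polynomial.C (algebraMap k Ω (d.c ^ Ψ.natDegree)) *
      ∏ o, (Polynomial.X - Polynomial.C (ι (ρ o))) := by
    rw [hΦ, hfac', Polynomial.map_mul, Polynomial.map_prod, Polynomial.map_C]
    simp only [Polynomial.map_sub, Polynomial.map_X, Polynomial.map_C]
    congr 2
    exact ι.commutes _
  have hΦ0 : PhiP Ψ P ≠ 0 := by
    intro h0
    rw [h0, Polynomial.map_zero] at hfacΩ
    have h1 : (Polynomial.C (algebraMap k Ω (d.c ^ Ψ.natDegree)) *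
      ∏ o, (Polynomial.X - Polynomial.C (ι (ρ o)))) ≠ 0 := mul_ne_zero
        (Polynomial.C_ne_zero.2 hc0) (Finset.prod_ne_zero_iff.2 fun o _ =>
        Polynomial.X_sub_C_ne_zero _)
    exact h1 hfacΩ.symm
  have hrootΩ : ∀ s : N, (PhiP Ψ P).eval s = 0 ↔ ∃ o, j s = ι (ρ o) := by
    intro s
    have h1 : ((PhiP Ψ P).map (j : N →+* Ω)).eval (j s) = j ((PhiP Ψ P).eval s) :=
      Polynomial.eval_map_apply (f := (j : N →+* Ω)) ..
    rw [hfacΩ, Polynomial.eval_mul, Polynomial.eval_C, Polynomial.eval_prod] at h1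
    simp only [Polynomial.eval_sub, Polynomial.eval_X, Polynomial.eval_C] at h1
    constructor
    · intro h2
      rw [h2, map_zero, mul_eq_zero] at h1
      obtain ⟨o, -, ho⟩ := Finset.prod_eq_zero_iff.1 (h1.resolve_left hc0)
      exact ⟨o, sub_eq_zero.1 ho⟩
    · rintro ⟨o, ho⟩
      rw [Finset.prod_eq_zero (Finset.mem_univ o) (sub_eq_zero.2 ho), mul_zero] at h1
      exact (map_eq_zero_iff j hjinj).1 h1.symm
  have hlift : ∀ o, ∃ s : N, j s = ι (ρ o) := by
    intro o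
    obtain ⟨a, ha⟩ := exists_enum (PhiP Ψ P) _ rfl
    have h1 : ((PhiP Ψ P).map (j : N →+* Ω)).eval (ι (ρ o)) = 0 := by
      rw [hfacΩ, Polynomial.eval_mul, Polynomial.eval_prod,
        Finset.prod_eq_zero (Finset.mem_univ o) (by simp), mul_zero]
    rw [ha, Polynomial.map_mul, Polynomial.map_prod, Polynomial.map_C, Polynomial.eval_mul,
      Polynomial.eval_C, Polynomial.eval_prod, mul_eq_zero] at h1
    rcases h1 with h1 | h1
    · exfalso
      exact hΦ0 (Polynomial.leadingCoeff_eq_zero.1 ((map_eq_zero_iff j hjinj).1 h1))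
    · obtain ⟨b, -, hb⟩ := Finset.prod_eq_zero_iff.1 h1
      refine ⟨a b, ?_⟩
      simp only [Polynomial.map_sub, Polynomial.map_X, Polynomial.map_C, Polynomial.eval_sub,
        Polynomial.eval_X, Polynomial.eval_C] at hb
      exact (sub_eq_zero.1 hb).symm
  choose s hs using hlift
  have hsinj : Function.Injective s := by
    intro a b hab
    apply hρinj
    apply hι
    rw [← hs, ← hs, hab]
  have hsroot : ∀ t : N, (PhiP Ψ P).eval t = 0 ↔ ∃ o, t = s o := by
    intro t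
    rw [hrootΩ]
    constructor
    · rintro ⟨o, ho⟩
      exact ⟨o, hjinj (by rw [ho, hs])⟩
    · rintro ⟨o, rfl⟩
      exact ⟨o, hs o⟩
  let S : Finset N := Finset.univ.image s
  have hScard : S.card = n + J := by
    simp only [S]
    rw [Finset.card_image_of_injective _ hsinj, Finset.card_univ, Fintype.card_option,
      Fintype.card_option, Fintype.card_fin, hn']
  have hSroot : ∀ t : N, (PhiP Ψ P).eval t = 0 ↔ t ∈ S := by
    intro t
    rw [hsroot]
    simp only [S, Finset.mem_image, Finset.mem_univ, true_and]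
    exact ⟨fun ⟨o, ho⟩ => ⟨o, ho.symm⟩, fun ⟨o, ho⟩ => ⟨o, ho.symm⟩⟩
  let W : Finset N := Finset.univ.image fun a => algebraMap k N (d.nd a)
  have hWcard : W.card = J := by
    simp only [W]
    rw [Finset.card_image_of_injective _ (fun a b hab => h.hnd ((algebraMap k N).injective hab)),
      Finset.card_univ, Fintype.card_fin]
  have hWS : W ⊆ S := by
    intro t ht
    obtain ⟨a, -, rfl⟩ := Finset.mem_image.1 ht
    rw [← hSroot]
    rw [hPdef]
    exact SolP_root y Ψ hΨ _ _ _ (PX_node y d h ξ a)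
  have hWw : ∀ t : N, Polynomial.aeval t d.w ≠ 0 ↔ t ∉ W := by
    intro t
    rw [not_iff_not]
    constructor
    · intro h0
      obtain ⟨a, rfl⟩ := w_root d t h0
      exact Finset.mem_image_of_mem _ (Finset.mem_univ a)
    · intro h0
      obtain ⟨a, -, rfl⟩ := Finset.mem_image.1 h0
      have h1 := w_eval d (E := N) a
      rwa [Polynomial.eval_map_algebraMap] at h1
  let B : Finset N := S \ W
  have hBcard : B.card = n := by
    simp only [B]
    rw [Finset.card_sdiff_of_subset hWS, hScard, hWcard, Nat.add_sub_cancel]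
  let e : Fin n ≃ B := (Finset.equivFinOfCardEq hBcard).symm
  have heB : ∀ i, (PhiP Ψ P).eval (e i : N) = 0 ∧ Polynomial.aeval (e i : N) d.w ≠ 0 := by
    intro i
    have h1 := (Finset.mem_sdiff.1 (e i).2)
    exact ⟨(hSroot _).2 h1.1, (hWw _).2 h1.2⟩
  have hex : ∀ i : Fin n, ∃ v : G → N, SolP y P (e i : N) v := fun i =>
    exists_SolP y Ψ hΨ P _ (heB i).1
  choose vv hvv using hex
  have hsB : ∀ o, PowerSeries.constantCoeff (ρ o) = 0 → s o ∈ B := by
    intro o ho
    refine Finset.mem_sdiff.2 ⟨Finset.mem_image_of_mem _ (Finset.mem_univ o), fun h0 => ?_⟩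
    obtain ⟨a, -, ha⟩ := Finset.mem_image.1 h0
    have h1 := congrArg j ha
    rw [hs, j.commutes, ← ι.commutes] at h1
    have h2 := congrArg PowerSeries.constantCoeff (hι h1)
    rw [ho, PowerSeries.algebraMap_apply, PowerSeries.constantCoeff_C] at h2
    exact h.nd0 a ((map_eq_zero_iff _ (algebraMap k κ).injective).1 h2)
  have hes : ∀ i, ∃ o, (e i : N) = s o := fun i => (hsroot _).1 (heB i).1
  have hfib : ∀ i o, (e i : N) = s o → ∃ v' : G → PowerSeries κ, (∀ g, j (vv i g) = ι (v' g)) ∧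
      (tau κ (ρ o) = ρ o → ∀ g, tau κ (v' g) = v' g) := by
    intro i o hio
    refine ser_fibre y d h x ι (ρ o) (fun g => j (vv i g)) fun i' => ?_
    have h1 := comp_aeval_apply (f := vv i) (φ := j) (esymm G k (i' + 1))
    have h2 := hvv i (some i')
    change aeval (vv i) (esymm G k (i' + 1)) = _ at h2
    rw [h2] at h1
    rw [← h1]
    have h3 : j ((P (some i')).eval (e i : N)) =
        ((P (some i')).map (j : N →+* Ω)).eval (j (e i : N)) :=
      (Polynomial.eval_map_apply (f := (j : N →+* Ω)) ..).symm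
    rw [h3, hP, hio, hs]
    exact Polynomial.eval_map_apply (f := (ι : PowerSeries κ →+* Ω)) ..
  obtain ⟨k₁, hk₁⟩ : ∃ k₁ : Fin n, (e k₁ : N) = s none :=
    ⟨e.symm ⟨s none, hsB none hz⟩, by rw [Equiv.apply_symm_apply]⟩
  obtain ⟨k₂, hk₂⟩ : ∃ k₂ : Fin n, (e k₂ : N) = s (some none) :=
    ⟨e.symm ⟨s (some none), hsB (some none) hz'⟩, by rw [Equiv.apply_symm_apply]⟩
  refine ⟨fun i => (e i : N), vv, fun a b hab => e.injective (Subtype.ext hab), fun i => (heB i).2,
    hvv, ?_, Ω, i5, inferInstance, jK, τ, ?_, k₁, k₂, ?_, ?_, ?_, ?_, ?_⟩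
  · intro t v ht htw
    have h1 : t ∈ B := Finset.mem_sdiff.2 ⟨(hSroot t).1 (SolP_root y Ψ hΨ P t v ht), (hWw t).1 htw⟩
    refine ⟨e.symm ⟨t, h1⟩, ?_⟩
    change t = (e (e.symm ⟨t, h1⟩) : N)
    rw [Equiv.apply_symm_apply]
  · rintro (u | i)
    · rw [hjj, hjt, hτ, tau_T0]
    · rw [hjj, hjθ, hτ]
      congr 1
      rw [map_mul, map_pow, tau_T0, tau_C]
  · rintro rfl
    rw [hk₁] at hk₂
    exact absurd (hsinj hk₂) (by simp)
  · rw [hjj, hjj]
    change τ (j (e k₁ : N)) = j (e k₂ : N)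
    rw [hk₁, hk₂, hs, hs, hτ]
    exact congrArg ι hτz
  · rw [hjj, hjj]
    change τ (j (e k₂ : N)) = j (e k₁ : N)
    rw [hk₁, hk₂, hs, hs, hτ]
    exact congrArg ι hτz'
  · intro g
    obtain ⟨v', hv', -⟩ := hfib k₁ none hk₁
    rw [hjj, hv', hτ, hτ, tau_tau]
  · intro i hi1 hi2
    obtain ⟨o, ho⟩ := hes i
    have hoτ : tau κ (ρ o) = ρ o := by
      rcases o with _ | _ | o
      · exact absurd (e.injective (Subtype.ext (ho.trans hk₁.symm))) hi1
      · exact absurd (e.injective (Subtype.ext (ho.trans hk₂.symm))) hi2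
      · exact hα3 o
    obtain ⟨v', hv', hv''⟩ := hfib i o ho
    refine ⟨?_, fun g => ?_⟩
    · rw [hjj]
      change τ (j (e i : N)) = j (e i : N)
      rw [ho, hs, hτ, hoτ]
    · rw [hjj, hv', hτ, hv'' hoτ]

end geoa

end Pool.Agent.W200.IH
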