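import Mathlib
import Pool.Agent.H84.L.S8_H391R2_T4_Cfg
import Pool.Agent.H84.L.S8_H391R2_T4_Phi
import Pool.Agent.H84.L.S8_H391R2_T4_Sol
import Pool.Agent.H84.L.S8_H391R2_WrGrp
import Pool.Agent.H84.L.S8_W200_IG_Cfg
import Pool.Agent.H84.L.S8_W200_IG_Fam
import Pool.Agent.H84.L.S8_W200_IH_PA
import Pool.Agent.H84.L.S8_W200_IH_PB

namespace Pool.Agent.H391R2
end Pool.Agent.H391R2
namespace Pool.Agent.H391R2.T4
end Pool.Agent.H391R2.T4
namespace Pool.Agent.W200.IG
end Pool.Agent.W200.IG


/-!
Helper lemmas for the twisting argument.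
-/

set_option autoImplicit false

namespace Pool.Agent.W200.IH

open MvPolynomial
open Pool.Agent.H391R2 (Wr wr_mul_left wr_mul_right)
open Pool.Agent.H391R2.T4 (tv SolP YData bsT tv_mulLeft)
open Pool.Agent.W200.IG (Dt GD Qt)

set_option linter.unusedSectionVars false

section grp

variable {G : Type} [Group G] {n m : ℕ}

/- The product of the coordinates in the abelianisation. -/
def bh (G : Type) [Group G] (n : ℕ) : Wr G n →* Abelianization G :=
  MonoidHom.mk' (fun x => ∏ i, Abelianization.of (x.left i)) (fun x y => by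
    simp only [wr_mul_left, map_mul]
    rw [Finset.prod_mul_distrib]
    congr 1
    exact Fintype.prod_equiv x.right⁻¹ _ _ fun i => rfl)

theorem bh_apply (x : Wr G n) : bh G n x = ∏ i, Abelianization.of (x.left i) := rfl

/- The element of `G ≀ S_{n+m}` extending an element of `G ≀ S_n` by the given coordinates. -/
def extW (x : Wr G n) (m : ℕ) : Wr G (n + m) :=
  ⟨Fin.addCases x.left (fun _ => 1),
    finSumFinEquiv.symm.trans ((Equiv.sumCongr x.right (Equiv.refl (Fin m))).trans finSumFinEquiv)⟩

theorem extW_right_castAdd (x : Wr G n) (i : Fin n) :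
    (extW x m).right (Fin.castAdd m i) = Fin.castAdd m (x.right i) := by
  simp [extW]

theorem extW_right_natAdd (x : Wr G n) (a : Fin m) :
    (extW x m).right (Fin.natAdd n a) = Fin.natAdd n a := by
  simp [extW]

theorem extW_left_castAdd (x : Wr G n) (i : Fin n) :
    (extW x m).left (Fin.castAdd m i) = x.left i := by
  simp [extW]

theorem extW_left_natAdd (x : Wr G n) (a : Fin m) : (extW x m).left (Fin.natAdd n a) = 1 := by
  simp [extW]

theorem bh_split (x : Wr G (n + m)) : bh G (n + m) x =
    (∏ i : Fin n, Abelianization.of (x.left (Fin.castAdd m i))) *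
      ∏ a : Fin m, Abelianization.of (x.left (Fin.natAdd n a)) := by
  rw [bh_apply, Fin.prod_univ_add]

theorem bh_extW (x : Wr G n) : bh G (n + m) (extW x m) = bh G n x := by
  rw [bh_split]
  simp only [extW_left_castAdd, extW_left_natAdd, map_one, Finset.prod_const_one, mul_one]
  rfl


end grp

section fld

/- Enlarging the base of an algebraic extension. -/
theorem alg_mono {k E : Type} [Field k] [Field E] [Algebra k E] {S S' : IntermediateField k E}
    (h : S ≤ S') (hS : Algebra.IsAlgebraic S E) : Algebra.IsAlgebraic S' E := by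
  refine ⟨fun e => ?_⟩
  obtain ⟨p, hp, hp0⟩ := hS.isAlgebraic e
  refine ⟨p.map (IntermediateField.inclusion h : _ →+* _), ?_, ?_⟩
  · exact (Polynomial.map_ne_zero_iff (IntermediateField.inclusion h).injective).2 hp
  · rw [Polynomial.aeval_def, Polynomial.eval₂_map]
    exact hp0

/- Adding algebraic elements. -/
theorem alg_of_alg {k E : Type} [Field k] [Field E] [Algebra k E] (S : IntermediateField k E)
    (T : Set E) (hT : ∀ t ∈ T, IsAlgebraic S t)
    (h : Algebra.IsAlgebraic (IntermediateField.adjoin k T) E) : Algebra.IsAlgebraic S E := by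
  let E₁ := algebraicClosure S E
  have h1 : IntermediateField.adjoin k T ≤ IntermediateField.restrictScalars k E₁ := by
    rw [IntermediateField.adjoin_le_iff]
    intro t ht
    exact mem_algebraicClosure_iff.2 (hT t ht)
  have h2 : Algebra.IsAlgebraic (IntermediateField.restrictScalars k E₁) E := alg_mono h1 h
  have h3 : Algebra.IsAlgebraic E₁ E := h2
  exact Algebra.IsAlgebraic.trans S E₁ E

/- The coefficients of a polynomial of small degree with values in a subfield. -/
theorem coeff_mem {k E : Type} [Field k] [Field E] [Algebra k E] (S : IntermediateField k E)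
    {m : ℕ} (p : Polynomial E) (hp : p.degree < m) (r : Fin m → E) (hr : Function.Injective r)
    (hrS : ∀ a, r a ∈ S) (hpS : ∀ a, p.eval (r a) ∈ S) (j : ℕ) : p.coeff j ∈ S := by
  classical
  have h1 : p = Lagrange.interpolate Finset.univ r (fun a => p.eval (r a)) := by
    apply Lagrange.eq_interpolate hr.injOn
    rw [Finset.card_univ, Fintype.card_fin]
    exact hp
  have hC : ∀ a ∈ S, Polynomial.C a ∈ Polynomial.lifts (algebraMap S E) := fun a ha =>
    Polynomial.C'_mem_lifts ⟨⟨a, ha⟩, rfl⟩
  have h2 : p ∈ Polynomial.lifts (algebraMap S E) := by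
    rw [h1]
    simp only [Lagrange.interpolate, LinearMap.coe_mk, AddHom.coe_mk]
    refine Subsemiring.sum_mem _ fun a _ => Subsemiring.mul_mem _ (hC _ (hpS a)) ?_
    unfold Lagrange.basis
    refine Subsemiring.prod_mem _ fun b _ => ?_
    unfold Lagrange.basisDivisor
    refine Subsemiring.mul_mem _ (hC _ (S.inv_mem (S.sub_mem (hrS a) (hrS b)))) ?_
    rw [sub_eq_add_neg, ← Polynomial.C_neg]
    exact Subsemiring.add_mem _ (Polynomial.X_mem_lifts _) (hC _ (S.neg_mem (hrS b)))
  obtain ⟨q, hq⟩ := (Polynomial.lifts_iff_coeff_lifts p).1 h2 j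
  rw [← hq]
  exact q.2

end fld

section theta

variable {k : Type} [Field k] {G : Type} [Group G] [Fintype G]
variable (y : MvPolynomial G k) {J m : ℕ}

/- The parameters are determined by the values at `m` points. -/
theorem theta_mem (d : Dt k G J) {N : Type} [Field N] [Algebra k N] (ξ : Unit ⊕ Ix G m → N)
    (S : IntermediateField k N) (ht : ξ (Sum.inl ()) ∈ S) (r : Fin m → N)
    (hr : Function.Injective r) (hrS : ∀ a, r a ∈ S) (hw : ∀ a, Polynomial.aeval (r a) d.w ≠ 0)
    (vv : Fin m → G → N) (hsol : ∀ a, SolP y (PX y d ξ) (r a) (vv a))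
    (hvS : ∀ a i, aeval (vv a) (tv y i) ∈ S) (v : Unit ⊕ Ix G m) : ξ v ∈ S := by
  rcases v with u | ⟨i, j⟩
  · exact ht
  · let p : Polynomial N := ∑ j : Fin m, Polynomial.C (ξ (Sum.inr (i, j))) * Polynomial.X ^ (j : ℕ)
    have hpdeg : p.degree < m := by
      refine (Polynomial.degree_sum_le _ _).trans_lt ?_
      rw [Finset.sup_lt_iff (WithBot.bot_lt_coe _)]
      intro j _
      refine (Polynomial.degree_C_mul_X_pow_le _ _).trans_lt ?_
      exact_mod_cast j.2
    have hcoeff : p.coeff j = ξ (Sum.inr (i, j)) := by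
      simp only [p, Polynomial.finsetSum_coeff, Polynomial.coeff_C_mul, Polynomial.coeff_X_pow]
      rw [Finset.sum_eq_single j]
      · simp
      · intro j' _ hne
        rw [if_neg, mul_zero]
        intro h
        exact hne (Fin.ext h.symm)
      · simp
    rw [← hcoeff]
    refine coeff_mem S p hpdeg r hr hrS (fun a => ?_) j
    -- values
    have hk : ∀ q : Polynomial k, Polynomial.aeval (r a) q ∈ S := by
      intro q
      rw [Polynomial.aeval_eq_sum_range]
      exact S.sum_mem fun l _ => S.smul_mem (_root_.pow_mem (hrS a) l)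
    have hQ : (Qt d.c d.R (ξ (Sum.inl ()))).eval (r a) ∈ S := by
      unfold Qt
      simp only [Polynomial.eval_mul, Polynomial.eval_C, Polynomial.eval_sub, Polynomial.eval_pow,
        Polynomial.eval_X, Polynomial.eval_map_algebraMap]
      exact S.mul_mem (S.algebraMap_mem _) (S.mul_mem (S.sub_mem (S.sub_mem (_root_.pow_mem (hrS a) 2)
        (S.mul_mem ht (hrS a))) ht) (hk _))
    have hb : (bsT y d.l (Qt d.c d.R (ξ (Sum.inl ()))) i).eval (r a) ∈ S := by
      cases i with
      | none =>
        simp only [bsT, Polynomial.eval_add, Polynomial.eval_C]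
        exact S.add_mem (S.algebraMap_mem _) hQ
      | some i =>
        simp only [bsT, Polynomial.eval_C]
        exact S.algebraMap_mem _
    have h1 := hsol a i
    unfold PX PP at h1
    rw [Polynomial.eval_add, Polynomial.eval_mul, Polynomial.eval_map_algebraMap] at h1
    have h2 : p.eval (r a) = (aeval (vv a) (tv y i) -
        (bsT y d.l (Qt d.c d.R (ξ (Sum.inl ()))) i).eval (r a)) / Polynomial.aeval (r a) d.w := by
      rw [eq_div_iff (hw a), h1]
      ring
    rw [h2]
    exact S.div_mem (S.sub_mem (hvS a i) hb) (hk _)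

end theta

end Pool.Agent.W200.IH
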