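import Mathlib
import Pool.Agent.H84.L.S8_H391R2_T4_Phi
import Pool.Agent.H84.L.S8_H391R2_T4_Sol
import Pool.Agent.H84.L.S8_H391R2_T4_Utl
import Pool.Agent.H84.L.S8_H391R2_WrGrp
import Pool.Agent.H84.L.S8_W200_IG_Fam
import Pool.Agent.H84.L.S8_W200_IH_TC

namespace Pool.Agent.H391R2
end Pool.Agent.H391R2
namespace Pool.Agent.H391R2.T4
end Pool.Agent.H391R2.T4
namespace Pool.Agent.W200.IG
end Pool.Agent.W200.IG


/-!
The twisting argument: the full wreath product over a purely transcendental extension.
-/

set_option autoImplicit false

namespace Pool.Agent.W200.IH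

open MvPolynomial
open Pool.Agent.H391R2 (Wr)
open Pool.Agent.H391R2.T4 (orb tv SolP YData tv_mulLeft eqF mem_eqF)
open Pool.Agent.W200.IG (Dt GD)

set_option linter.unusedSectionVars false

section twist

variable {k : Type} [Field k] {G : Type} [Group G] [Fintype G]
variable (y : MvPolynomial G k) {J m n : ℕ}

/- Transcendence bases over the field generated by a part of them. -/
theorem basis_over {K N ι W : Type} [Field K] [Field N] [Algebra K N] (x : ι → N) (w : W → N)
    (h : IsTranscendenceBasis K (Sum.elim x w)) :
    IsTranscendenceBasis (IntermediateField.adjoin K (Set.range x)) w := by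
  have h1 : AlgebraicIndependent (IntermediateField.adjoin K (Set.range x)) w := by
    rw [IntermediateField.algebraicIndependent_adjoin_iff]
    have h1 := h.1.comp Sum.swap Sum.swap_leftInverse.injective
    have h2 : (Sum.elim x w) ∘ Sum.swap = Sum.elim w x := by
      funext v
      rcases v with a | a <;> rfl
    rw [h2] at h1
    exact (AlgebraicIndependent.sumElim_iff.1 h1).2
  rw [h1.isTranscendenceBasis_iff_isAlgebraic, ← IntermediateField.isAlgebraic_adjoin_iff_top]
  have h2 : IntermediateField.adjoin K (Set.range (Sum.elim x w)) ≤
      IntermediateField.restrictScalars K (IntermediateField.adjoin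
        (IntermediateField.adjoin K (Set.range x)) (Set.range w)) := by
    rw [IntermediateField.adjoin_le_iff]
    rintro _ ⟨v | v, rfl⟩
    · exact (IntermediateField.adjoin (IntermediateField.adjoin K (Set.range x))
        (Set.range w)).algebraMap_mem
        (⟨x v, IntermediateField.subset_adjoin _ _ ⟨v, rfl⟩⟩ :
          IntermediateField.adjoin K (Set.range x))
    · exact IntermediateField.subset_adjoin (IntermediateField.adjoin K (Set.range x)) _ ⟨v, rfl⟩
  have h3 : Algebra.IsAlgebraic (IntermediateField.restrictScalars K (IntermediateField.adjoin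
        (IntermediateField.adjoin K (Set.range x)) (Set.range w))) N :=
    alg_mono h2 h.isAlgebraic_field
  exact h3


end twist

end Pool.Agent.W200.IH
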