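import Mathlib
import Pool.Agent.H84.L.S8_H391R2_T4_Fam
import Pool.Agent.H84.L.S8_W200_IH_TA
import Pool.Agent.H84.L.S8_W200_IH_TC

namespace Pool.Agent.W200.IH
end Pool.Agent.W200.IH


/-!
Semilinear automorphisms and Galois descent of transcendence bases.
-/

set_option autoImplicit false

namespace Pool.Agent.W200.IJ

open MvPolynomial
open Pool.Agent.W200.IH (basis_of_card alg_mono alg_of_alg)

set_option linter.unusedSectionVars false

section semi

theorem semi_aux {M N Ω V : Type} [Field M] [Field N] [Field Ω] [Algebra M N] [Algebra M Ω]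
    [IsAlgClosed Ω] (ρ : M ≃+* M) (e : N ≃+* Ω)
    (he : ∀ a, e (algebraMap M N (ρ a)) = algebraMap M Ω a) (Y Y' : V → N)
    (hY : IsTranscendenceBasis M Y) (hY' : AlgebraicIndependent M Y') :
    ∃ j : N →+* Ω, (∀ a, j (algebraMap M N a) = algebraMap M Ω a) ∧ ∀ v, j (Y v) = e (Y' v) := by
  have hind : AlgebraicIndependent M (fun v => e (Y' v)) := by
    rw [algebraicIndependent_iff_injective_aeval]
    have h1 : ∀ q : MvPolynomial V M, aeval (fun v => e (Y' v)) q =
        e (aeval Y' (MvPolynomial.map (ρ : M →+* M) q)) := by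
      intro q
      rw [MvPolynomial.aeval_def, MvPolynomial.aeval_def, MvPolynomial.eval₂_map]
      have h2 := MvPolynomial.hom_eval₂ q ((algebraMap M N).comp (ρ : M →+* M)) (e : N →+* Ω) Y'
      refine Eq.trans ?_ h2.symm
      congr 1
      apply RingHom.ext
      intro a
      exact (he a).symm
    intro a b hab
    rw [h1, h1] at hab
    have h3 := algebraicIndependent_iff_injective_aeval.1 hY' (e.injective hab)
    exact MvPolynomial.map_injective (ρ : M →+* M) ρ.injective h3
  obtain ⟨j, hj⟩ := Pool.Agent.H391R2.T4.lift_family Y hY (fun v => e (Y' v)) hind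
  exact ⟨j, fun a => j.commutes a, hj⟩

/- Semilinear automorphisms given by two transcendence bases. -/
theorem exists_semi_auto {k M N V : Type} [Field k] [Field M] [Algebra k M] [Field N]
    [Algebra M N] [Algebra k N] [IsScalarTower k M N] [IsAlgClosed N] {Y Y' : V → N}
    (hY : IsTranscendenceBasis M Y) (hY' : IsTranscendenceBasis M Y') (ρ : M ≃ₐ[k] M) :
    ∃ σ : N ≃ₐ[k] N, (∀ a : M, σ (algebraMap M N a) = algebraMap M N (ρ a)) ∧
      ∀ v, σ (Y v) = Y' v := by
  obtain ⟨j', hjM, hjY⟩ : ∃ j' : N →+* N, (∀ a : M, j' (algebraMap M N a) =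
      algebraMap M N (ρ a)) ∧ ∀ v, j' (Y v) = Y' v :=
    @semi_aux M N N V _ _ _ _
      (((algebraMap M N).comp (ρ : M →+* M)).toAlgebra) _ (ρ : M ≃+* M) (RingEquiv.refl N)
      (fun a => rfl) Y Y' hY hY'.1
  let i : N →ₐ[k] N := { j' with
    commutes' := fun c => by
      change j' (algebraMap k N c) = algebraMap k N c
      rw [IsScalarTower.algebraMap_apply k M N, hjM, ρ.commutes] }
  have hi : ∀ z, i z = j' z := fun z => rfl
  have hinj : Function.Injective i := i.toRingHom.injective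
  have hsurj : Function.Surjective i := by
    intro e
    have h1 : Algebra.IsAlgebraic (IntermediateField.adjoin M (Set.range Y')) N :=
      hY'.isAlgebraic_field
    have h2 : IntermediateField.restrictScalars k (IntermediateField.adjoin M (Set.range Y')) ≤
        i.fieldRange := by
      intro z hz
      have hz' : z ∈ IntermediateField.adjoin M (Set.range Y') := hz
      induction hz' using IntermediateField.adjoin_induction with
      | mem a ha => obtain ⟨v, rfl⟩ := ha; exact ⟨Y v, hjY v⟩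
      | algebraMap a =>
        refine ⟨algebraMap M N (ρ.symm a), ?_⟩
        change j' _ = _
        rw [hjM, AlgEquiv.apply_symm_apply]
      | add a b ha hb h1 h2 => exact add_mem (h1 ha) (h2 hb)
      | inv a ha h1 => exact inv_mem (h1 ha)
      | mul a b ha hb h1 h2 => exact mul_mem (h1 ha) (h2 hb)
    have h3 : Algebra.IsAlgebraic i.fieldRange N := alg_mono h2 h1
    have h4 : IsAlgClosed i.fieldRange :=
      IsAlgClosed.of_ringEquiv N i.fieldRange (AlgEquiv.ofInjectiveField i).toRingEquiv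
    have h5 : Algebra.IsIntegral i.fieldRange N := ⟨fun e => (h3.isAlgebraic e).isIntegral⟩
    obtain ⟨z, hz⟩ := (IsAlgClosed.algebraMap_bijective_of_isIntegral
      (k := i.fieldRange) (K := N)).2 e
    obtain ⟨x, hx⟩ := z.2
    exact ⟨x, hx.trans hz⟩
  exact ⟨AlgEquiv.ofBijective i ⟨hinj, hsurj⟩, hjM, hjY⟩

end semi

section dual

/- Dual bases of a Galois extension. -/
theorem exists_dual (K L : Type) [Field K] [Field L] [Algebra K L]
    [FiniteDimensional K L] [IsGalois K L] [Fintype (L ≃ₐ[K] L)] [DecidableEq (L ≃ₐ[K] L)] :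
    ∃ ω ω' : (L ≃ₐ[K] L) → L, ∀ γ γ' : L ≃ₐ[K] L,
      ∑ i, γ (ω i) * γ' (ω' i) = if γ = γ' then 1 else 0 := by
  have hcard : Fintype.card (Fin (Module.finrank K L)) = Fintype.card (L ≃ₐ[K] L) := by
    rw [Fintype.card_fin, ← Nat.card_eq_fintype_card, IsGalois.card_aut_eq_finrank]
  let b := (Module.finBasis K L).reindex (Fintype.equivOfCardEq hcard)
  let b' := (Algebra.traceForm K L).dualBasis (traceForm_nondegenerate K L) b
  have h1 : ∀ i j, Algebra.trace K L (b' i * b j) = if j = i then 1 else 0 := by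
    intro i j
    exact LinearMap.BilinForm.apply_dualBasis_left (traceForm_nondegenerate K L) b i j
  let A : Matrix (L ≃ₐ[K] L) (L ≃ₐ[K] L) L := Matrix.of fun γ j => γ (b j)
  let B : Matrix (L ≃ₐ[K] L) (L ≃ₐ[K] L) L := Matrix.of fun i γ => γ (b' i)
  have hBA : B * A = 1 := by
    ext i j
    rw [Matrix.mul_apply, Matrix.one_apply]
    have h2 := trace_eq_sum_automorphisms (K := K) (L := L) (b' i * b j)
    rw [h1] at h2
    simp only [map_mul] at h2
    have h3 : ∑ γ, B i γ * A γ j = ∑ γ : L ≃ₐ[K] L, γ (b' i) * γ (b j) := rfl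
    have h4 : (∑ γ : L ≃ₐ[K] L, γ (b' i) * γ (b j)) = algebraMap K L (if j = i then 1 else 0) := by
      rw [h2]
      refine Finset.sum_congr ?_ fun _ _ => rfl
      ext x
      simp only [Finset.mem_univ]
    rw [h3, h4]
    by_cases hij : i = j
    · subst hij
      simp
    · rw [if_neg hij, if_neg (fun e => hij e.symm), map_zero]
  have hAB : A * B = 1 := mul_eq_one_comm.1 hBA
  refine ⟨b, b', fun γ γ' => ?_⟩
  have h2 := congrFun (congrFun hAB γ) γ'
  rw [Matrix.mul_apply, Matrix.one_apply] at h2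
  exact h2

end dual

section desc

variable {k M N J : Type} [Field k] [Field M] [Algebra k M] [Fintype (M ≃ₐ[k] M)]
  [DecidableEq (M ≃ₐ[k] M)] [Field N] [Algebra M N]
  (ω ω' : (M ≃ₐ[k] M) → M)
  (hω : ∀ γ γ' : M ≃ₐ[k] M, ∑ i, γ (ω i) * γ' (ω' i) = if γ = γ' then 1 else 0)
  (Z : Unit ⊕ ((M ≃ₐ[k] M) × J) → N)

/- The descended family. -/
def desc : Unit ⊕ ((M ≃ₐ[k] M) × J) → N
  | Sum.inl u => Z (Sum.inl u)
  | Sum.inr (s, j) => ∑ γ : M ≃ₐ[k] M, algebraMap M N (γ (ω s)) * Z (Sum.inr (γ, j))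

include hω in
theorem desc_inv (γ : M ≃ₐ[k] M) (j : J) :
    Z (Sum.inr (γ, j)) = ∑ s, algebraMap M N (γ (ω' s)) * desc ω Z (Sum.inr (s, j)) := by
  simp only [desc, Finset.mul_sum]
  rw [Finset.sum_comm]
  have h1 : ∀ δ : M ≃ₐ[k] M, ∑ s, algebraMap M N (γ (ω' s)) * (algebraMap M N (δ (ω s)) *
      Z (Sum.inr (δ, j))) = (if δ = γ then 1 else 0) * Z (Sum.inr (δ, j)) := by
    intro δ
    have h2 := congrArg (algebraMap M N) (hω δ γ)
    rw [map_sum] at h2
    have h3 : algebraMap M N (if δ = γ then 1 else 0) = if δ = γ then 1 else 0 := by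
      split_ifs
      · exact map_one _
      · exact map_zero _
    rw [h3] at h2
    rw [← h2, Finset.sum_mul]
    refine Finset.sum_congr rfl fun s _ => ?_
    rw [map_mul]
    ring
  simp only [h1]
  rw [Finset.sum_eq_single γ]
  · rw [if_pos rfl, one_mul]
  · intro δ _ hne
    rw [if_neg hne, zero_mul]
  · intro h
    exact absurd (Finset.mem_univ _) h

include hω in
theorem desc_iff (σ : N →+* N) (ρ : M ≃ₐ[k] M)
    (hσ : ∀ a : M, σ (algebraMap M N a) = algebraMap M N (ρ a)) :
    (∀ v, σ (desc ω Z v) = desc ω Z v) ↔ σ (Z (Sum.inl ())) = Z (Sum.inl ()) ∧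
      ∀ γ j, σ (Z (Sum.inr (γ, j))) = Z (Sum.inr (ρ * γ, j)) := by
  constructor
  · intro h
    refine ⟨h (Sum.inl ()), fun γ j => ?_⟩
    rw [desc_inv ω ω' hω Z γ j, desc_inv ω ω' hω Z (ρ * γ) j, map_sum]
    refine Finset.sum_congr rfl fun s _ => ?_
    rw [map_mul, h, hσ]
    rfl
  · rintro ⟨h1, h2⟩ (u | ⟨s, j⟩)
    · exact h1
    · simp only [desc, map_sum, map_mul, hσ, h2]
      exact Fintype.sum_bijective (fun γ => ρ * γ) (Group.mulLeft_bijective ρ) _ _ fun γ => rfl

include hω in
theorem desc_basis [Finite J] {K : Type} [Field K] [Algebra M K] [Algebra K N]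
    [IsScalarTower M K N] (hZ : IsTranscendenceBasis K Z) :
    IsTranscendenceBasis K (desc ω Z) := by
  refine basis_of_card le_rfl Z hZ.1 _ (alg_mono ?_ hZ.isAlgebraic_field)
  rw [IntermediateField.adjoin_le_iff]
  have hmem : ∀ v, desc ω Z v ∈ IntermediateField.adjoin K (Set.range (desc ω Z)) := fun v =>
    IntermediateField.subset_adjoin _ _ ⟨v, rfl⟩
  rintro _ ⟨v | ⟨γ, j⟩, rfl⟩
  · exact hmem (Sum.inl v)
  · change Z (Sum.inr (γ, j)) ∈ IntermediateField.adjoin K (Set.range (desc ω Z))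
    rw [desc_inv ω ω' hω Z γ j]
    refine sum_mem fun s _ => mul_mem ?_ (hmem _)
    rw [IsScalarTower.algebraMap_apply M K N]
    exact IntermediateField.algebraMap_mem _ _

end desc

end Pool.Agent.W200.IJ
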