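import Mathlib
import Pool.Agent.H84.L.S8_H391R2_T4_Gp
import Pool.Agent.H84.L.S8_H391R2_WrGrp
import Pool.Agent.H84.L.S8_W200_IH_TA
import Pool.Agent.H84.L.S8_W200_IH_TC
import Pool.Agent.H84.L.S8_W200_IJ_SA

namespace Pool.Agent.H391R2
end Pool.Agent.H391R2
namespace Pool.Agent.H391R2.T4
end Pool.Agent.H391R2.T4
namespace Pool.Agent.W200.IH
end Pool.Agent.W200.IH


/-!
Helper lemmas for the semilinear twisting argument.
-/

set_option autoImplicit false

namespace Pool.Agent.W200.IJ

open MvPolynomial
open Pool.Agent.H391R2 (Wr wr_mul_left wr_mul_right)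
open Pool.Agent.H391R2.T4 (EG)
open Pool.Agent.W200.IH (alg_mono alg_of_alg)

set_option linter.unusedSectionVars false

section grp

variable {G : Type} [Group G] {n m : ℕ}

/- Restriction of an element permuting the last points. -/
theorem exists_restr' (x : Wr G (n + m))
    (hx : ∀ a : Fin m, ∃ b : Fin m, x.right (Fin.natAdd n a) = Fin.natAdd n b) :
    ∃ x' : Wr G n, (∀ i, x.right (Fin.castAdd m i) = Fin.castAdd m (x'.right i)) ∧
      ∀ i, x'.left i = x.left (Fin.castAdd m i) := by
  choose b hb using hx
  have hbinj : Function.Injective b := by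
    intro a a' haa
    have h2 : x.right (Fin.natAdd n a) = x.right (Fin.natAdd n a') := by rw [hb, hb, haa]
    exact Fin.natAdd_injective m n (x.right.injective h2)
  have hbs := Finite.surjective_of_injective hbinj
  have h1 : ∀ i : Fin n, ∃ j : Fin n, x.right (Fin.castAdd m i) = Fin.castAdd m j := by
    intro i
    obtain ⟨s, hs⟩ : ∃ s, s = x.right (Fin.castAdd m i) := ⟨_, rfl⟩
    rw [← hs]
    revert hs
    refine Fin.addCases (fun j _ => ⟨j, rfl⟩) (fun a hs => ?_) s
    exfalso
    obtain ⟨a', rfl⟩ := hbs a
    have h2 := x.right.injective ((hb a').trans hs)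
    have h3 := congrArg Fin.val h2
    simp only [Fin.val_natAdd, Fin.val_castAdd] at h3
    have := i.2
    omega
  choose σ hσ using h1
  have hinj : Function.Injective σ := by
    intro i j hij
    have h2 : x.right (Fin.castAdd m i) = x.right (Fin.castAdd m j) := by rw [hσ, hσ, hij]
    exact Fin.castAdd_injective n m (x.right.injective h2)
  exact ⟨⟨fun i => x.left (Fin.castAdd m i),
    Equiv.ofBijective σ (Finite.injective_iff_bijective.1 hinj)⟩, hσ, fun i => rfl⟩

end grp

section rel

variable {k M N G : Type} [Field k] [Field M] [Algebra k M] [Field N] [Algebra M N] [Group G]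
  (φ : (M ≃ₐ[k] M) →* MulAut G) {n : ℕ} (r : Fin n → N) (vv : Fin n → G → N)

theorem relS_one_iff (f : N → N) (X : Wr G n) : RelS φ r vv f ⟨X, 1⟩ ↔
    (∀ a : M, f (algebraMap M N a) = algebraMap M N a) ∧ IH.Rel r vv f X := by
  unfold RelS IH.Rel
  have h1 : ∀ g : G, (φ 1) g = g := fun g => by rw [map_one]; rfl
  simp only [h1]
  rfl

end rel

section base

/- A transcendence basis over an algebraic extension is one over the base. -/
theorem basis_down {M K N V : Type} [Field M] [Field K] [Field N] [Algebra M K] [Algebra K N]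
    [Algebra M N] [IsScalarTower M K N] [Algebra.IsAlgebraic M K] (Y : V → N)
    (hY : IsTranscendenceBasis K Y) : IsTranscendenceBasis M Y := by
  have h1 : AlgebraicIndependent M Y := hY.1.restrictScalars (algebraMap M K).injective
  rw [h1.isTranscendenceBasis_iff_isAlgebraic, ← IntermediateField.isAlgebraic_adjoin_iff_top]
  refine alg_of_alg _ (Set.range (algebraMap K N) ∪ Set.range Y) ?_ ?_
  · rintro t (⟨a, rfl⟩ | ⟨v, rfl⟩)
    · have h2 : IsAlgebraic M (algebraMap K N a) :=
        (Algebra.IsAlgebraic.isAlgebraic (R := M) a).algebraMap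
      exact h2.tower_top _
    · exact isAlgebraic_algebraMap (⟨Y v, IntermediateField.subset_adjoin M _ ⟨v, rfl⟩⟩ :
        IntermediateField.adjoin M (Set.range Y))
  · have h2 : IntermediateField.restrictScalars M (IntermediateField.adjoin K (Set.range Y)) ≤
        IntermediateField.adjoin M (Set.range (algebraMap K N) ∪ Set.range Y) := by
      intro z hz
      have hz' : z ∈ IntermediateField.adjoin K (Set.range Y) := hz
      induction hz' using IntermediateField.adjoin_induction with
      | mem a ha => exact IntermediateField.subset_adjoin _ _ (Or.inr ha)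
      | algebraMap a => exact IntermediateField.subset_adjoin _ _ (Or.inl ⟨a, rfl⟩)
      | add a b ha hb h1 h2 => exact add_mem (h1 ha) (h2 hb)
      | inv a ha h1 => exact inv_mem (h1 ha)
      | mul a b ha hb h1 h2 => exact mul_mem (h1 ha) (h2 hb)
    exact alg_mono h2 hY.isAlgebraic_field

end base

end Pool.Agent.W200.IJ
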