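import Mathlib
import Pool.Agent.H84.L.S8_TH15_IGP_Ext
import Pool.Agent.H84.L.S8_W200_IG_HF
import Pool.Agent.H84.L.S8_W200_IH_TA
import Pool.Agent.H84.L.S8_W200_IH_TC
import Pool.Agent.H84.L.S8_W200_IH_TD
import Pool.Agent.H84.L.S8_W200_IJ_SC
import Pool.Agent.H84.L.S8_W200_IJ_SD

namespace Pool.Agent.W200.IH
end Pool.Agent.W200.IH
namespace Pool.Agent.W200.IJ
end Pool.Agent.W200.IJ


/-!
Weil restriction of a regular realisation: the field theoretic core.
-/

set_option autoImplicit false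

namespace Pool.Agent.TH15.IGP

open MvPolynomial
open Pool.Agent.W200.IJ (desc desc_iff desc_basis exists_dual exists_semi_auto basis_down)
open Pool.Agent.W200.IH (alg_mono alg_of_alg basis_of_card basis_over)

set_option linter.unusedSectionVars false

section xv

variable {Γ Ω N : Type} [Group Γ] [Fintype Γ] [MulAction Γ Ω] [Field N]

/- The variable attached to a point. -/
noncomputable def xv (Z : Unit ⊕ (Γ × Ω) → N) (w : Ω) : N := ∑ γ : Γ, Z (Sum.inr (γ, γ⁻¹ • w))

theorem xv_move (Z : Unit ⊕ (Γ × Ω) → N) (σ : N →+* N) (ρ : Γ)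
    (hσ : ∀ γ j, σ (Z (Sum.inr (γ, j))) = Z (Sum.inr (ρ * γ, j))) (w : Ω) :
    σ (xv Z w) = xv Z (ρ • w) := by
  unfold xv
  rw [map_sum]
  refine Fintype.sum_bijective (fun γ => ρ * γ) (Group.mulLeft_bijective ρ) _ _ fun γ => ?_
  rw [hσ]
  congr 3
  rw [mul_inv_rev, mul_smul, inv_smul_smul]

theorem xv_split [DecidableEq Γ] (Z : Unit ⊕ (Γ × Ω) → N) (w : Ω) :
    xv Z w = Z (Sum.inr (1, w)) + ∑ γ ∈ Finset.univ.erase (1 : Γ), Z (Sum.inr (γ, γ⁻¹ • w)) := by
  unfold xv
  rw [← Finset.add_sum_erase _ _ (Finset.mem_univ (1 : Γ)), inv_one, one_smul]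

end xv

section dw

variable {Γ Ω K N : Type} [Group Γ] [Fintype Γ] [MulAction Γ Ω] [Finite Ω] [Field K] [Field N]
  [Algebra K N] [IsAlgClosed N]

/- A field of constants over which only the variable at `w` is transcendental. -/
theorem exists_D (Z : Unit ⊕ (Γ × Ω) → N) (hZ : IsTranscendenceBasis K Z) (w : Ω) :
    ∃ (D : Type) (_ : Field D) (_ : IsAlgClosed D) (_ : Algebra K D) (_ : Algebra D N)
      (_ : IsScalarTower K D N), IsTranscendenceBasis D (fun _ : Unit => xv Z w) ∧
      ∀ v, v ≠ Sum.inr (1, w) → Z v ∈ Set.range (algebraMap D N) := by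
  classical
  obtain ⟨v₀, hv₀⟩ : ∃ v₀ : Unit ⊕ (Γ × Ω), v₀ = Sum.inr (1, w) := ⟨_, rfl⟩
  rw [← hv₀]
  let x' : {v // v ≠ v₀} → N := fun v => Z v
  let w' : {v // ¬ v ≠ v₀} → N := fun v => Z v
  let e : ({v // v ≠ v₀} ⊕ {v // ¬ v ≠ v₀}) ≃ (Unit ⊕ (Γ × Ω)) := Equiv.sumCompl _
  have he : Z ∘ e = Sum.elim x' w' := by
    funext v
    rcases v with a | a
    · rfl
    · rfl
  have h1 : IsTranscendenceBasis K (Sum.elim x' w') := by
    rw [← he]
    exact (isTranscendenceBasis_equiv e).2 hZ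
  have h2 := basis_over x' w' h1
  let F₀ := IntermediateField.adjoin K (Set.range x')
  let D := algebraicClosure F₀ N
  have hD : IsAlgClosed D := (algebraicClosure.isAlgClosure F₀ N).isAlgClosed
  have hmem : ∀ v, v ≠ v₀ → Z v ∈ Set.range (algebraMap D N) := by
    intro v hv
    have h3 : Z v ∈ F₀ := IntermediateField.subset_adjoin _ _ ⟨⟨v, hv⟩, rfl⟩
    exact ⟨algebraMap F₀ D ⟨Z v, h3⟩, rfl⟩
  have hne : ∀ γ : Γ, γ ≠ 1 → (Sum.inr (γ, γ⁻¹ • w) : Unit ⊕ (Γ × Ω)) ≠ v₀ := by
    intro γ hγ h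
    rw [hv₀] at h
    exact hγ (congrArg Prod.fst (Sum.inr_injective h))
  let aKD : Algebra K D := ((algebraMap F₀ D).comp (algebraMap K F₀)).toAlgebra
  have tKD : IsScalarTower K D N := IsScalarTower.of_algebraMap_eq fun x => rfl
  refine ⟨D, inferInstance, hD, aKD, inferInstance, tKD, ?_, hmem⟩
  have hind : AlgebraicIndependent D w' := h2.1.extendScalars D
  have hcard : Nat.card Unit ≤ Nat.card {v // ¬ v ≠ v₀} := by
    have : Nonempty {v // ¬ v ≠ v₀} := ⟨⟨v₀, fun h => h rfl⟩⟩
    have h3 : 0 < Nat.card {v // ¬ v ≠ v₀} := Nat.card_pos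
    rw [Nat.card_unique]
    exact h3
  refine basis_of_card hcard w' hind _ ?_
  have h3 : IntermediateField.adjoin F₀ (Set.range w') ≤
      IntermediateField.restrictScalars F₀
        (IntermediateField.adjoin D (Set.range fun _ : Unit => xv Z w)) := by
    rw [IntermediateField.adjoin_le_iff]
    rintro _ ⟨⟨v, hv⟩, rfl⟩
    have hv' : v = v₀ := by
      by_contra h
      exact hv h
    subst hv'
    change Z v ∈ IntermediateField.adjoin D (Set.range fun _ : Unit => xv Z w)
    have h4 : Z v = xv Z w - ∑ γ ∈ Finset.univ.erase (1 : Γ), Z (Sum.inr (γ, γ⁻¹ • w)) := by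
      rw [xv_split, hv₀, add_sub_cancel_right]
    rw [h4]
    refine sub_mem (IntermediateField.subset_adjoin _ _ ⟨(), rfl⟩) (sum_mem fun γ hγ => ?_)
    obtain ⟨d, hd⟩ := hmem _ (hne γ (Finset.ne_of_mem_erase hγ))
    rw [← hd]
    exact IntermediateField.algebraMap_mem _ _
  have h5 : Algebra.IsAlgebraic (IntermediateField.restrictScalars F₀
      (IntermediateField.adjoin D (Set.range fun _ : Unit => xv Z w))) N :=
    alg_mono h3 h2.isAlgebraic_field
  exact h5

end dw

section core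

variable {k₀ k M K N Ω : Type} [Field k₀] [Field k] [Algebra k₀ k] [Field M] [Algebra k M]
  [Fintype (M ≃ₐ[k] M)]
  [Field K] [Algebra M K] [Field N]
  [IsAlgClosed N] [Algebra K N] [Algebra M N] [IsScalarTower M K N] [Algebra k N]
  [IsScalarTower k M N] [Algebra k₀ N] [IsScalarTower k₀ k N]
  [Finite Ω] [MulAction (M ≃ₐ[k] M) Ω]
  {E F : Type} [Field E] [Algebra (MvPolynomial Unit k₀) E]
  [IsFractionRing (MvPolynomial Unit k₀) E]
  [Algebra k₀ E] [IsScalarTower k₀ (MvPolynomial Unit k₀) E] [Field F] [Algebra E F]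
  [Algebra k₀ F]
  [IsScalarTower k₀ E F] [FiniteDimensional E F] [IsGalois E F]

/- Automorphisms acting on one embedding only. -/
theorem geo_one (hreg : ∀ y : F, IsAlgebraic k₀ y → y ∈ Set.range (algebraMap k₀ F))
    (Z : Unit ⊕ ((M ≃ₐ[k] M) × Ω) → N) (hZ : IsTranscendenceBasis K Z)
    (φ : Ω → F →ₐ[k₀] N)
    (hφ : ∀ w, φ w (algebraMap E F (algebraMap (MvPolynomial Unit k₀) E (X ()))) = xv Z w)
    (w : Ω) (b : F ≃ₐ[E] F) :
    ∃ σ : N ≃ₐ[K] N, (∀ v, σ (Z v) = Z v) ∧ (∀ y, σ (φ w y) = φ w (b y)) ∧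
      ∀ w', w' ≠ w → ∀ y, σ (φ w' y) = φ w' y := by
  classical
  obtain ⟨D, iD1, iD2, iD3, iD4, iD5, hx, hD⟩ := exists_D Z hZ w
  let _ : Algebra k₀ D := ((algebraMap K D).comp ((algebraMap M K).comp
    ((algebraMap k M).comp (algebraMap k₀ k)))).toAlgebra
  have hT : IsScalarTower k₀ D N := IsScalarTower.of_algebraMap_eq fun c => by
    change _ = algebraMap D N (algebraMap K D (algebraMap M K (algebraMap k M
      (algebraMap k₀ k c))))
    rw [← IsScalarTower.algebraMap_apply K D N, ← IsScalarTower.algebraMap_apply M K N,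
      ← IsScalarTower.algebraMap_apply k M N, ← IsScalarTower.algebraMap_apply k₀ k N]
  obtain ⟨σ, hσx, hσ⟩ := exists_aut (k := k₀) (ι := Unit) (E := E) (F := F) (N := N) (D := D) hreg
    (fun _ => xv Z w) hx (φ w) (fun _ => hφ w) b
  have hσD : ∀ z ∈ Set.range (algebraMap D N), σ z = z := by
    rintro _ ⟨d, rfl⟩
    exact σ.commutes d
  have hne : ∀ γ : M ≃ₐ[k] M, γ ≠ 1 →
      (Sum.inr (γ, γ⁻¹ • w) : Unit ⊕ ((M ≃ₐ[k] M) × Ω)) ≠ Sum.inr (1, w) := by
    intro γ hγ h
    exact hγ (congrArg Prod.fst (Sum.inr_injective h))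
  refine ⟨σ.restrictScalars K, ?_, hσ, ?_⟩
  · intro v
    change σ (Z v) = Z v
    by_cases hv : v = Sum.inr (1, w)
    · have h1 := hσx ()
      rw [xv_split, map_add, map_sum, Finset.sum_congr rfl (fun γ hγ =>
        hσD _ (hD _ (hne γ (Finset.ne_of_mem_erase hγ))))] at h1
      rw [hv]
      exact add_right_cancel h1
    · exact hσD _ (hD v hv)
  · intro w' hw' y
    change σ (φ w' y) = φ w' y
    apply hσD
    -- the variable at `w'` is in `D`
    have hxD : xv Z w' ∈ (IsScalarTower.toAlgHom k₀ D N).fieldRange := by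
      unfold xv
      refine sum_mem fun γ _ => ?_
      obtain ⟨d, hd⟩ := hD (Sum.inr (γ, γ⁻¹ • w')) (by
        intro h
        have h1 := Sum.inr_injective h
        have h2 : γ = 1 := congrArg Prod.fst h1
        have h3 : γ⁻¹ • w' = w := congrArg Prod.snd h1
        rw [h2, inv_one, one_smul] at h3
        exact hw' h3)
      exact ⟨d, hd⟩
    have hA : ∀ r : MvPolynomial Unit k₀,
        φ w' (algebraMap E F (algebraMap (MvPolynomial Unit k₀) E r)) ∈
        (IsScalarTower.toAlgHom k₀ D N).fieldRange := by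
      intro r
      induction r using MvPolynomial.induction_on with
      | C c =>
        rw [← MvPolynomial.algebraMap_eq, ← IsScalarTower.algebraMap_apply k₀ (MvPolynomial Unit k₀) E,
            ← IsScalarTower.algebraMap_apply k₀ E F, AlgHom.commutes]
        exact IntermediateField.algebraMap_mem _ _
      | add p q hp hq =>
        rw [map_add, map_add, map_add]
        exact add_mem hp hq
      | mul_X p i hp =>
        rw [map_mul, map_mul, map_mul, hφ]
        exact mul_mem hp hxD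
    have hE : ∀ e : E, φ w' (algebraMap E F e) ∈ (IsScalarTower.toAlgHom k₀ D N).fieldRange := by
      intro e
      obtain ⟨r, s, _, rfl⟩ := IsFractionRing.div_surjective (MvPolynomial Unit k₀) e
      rw [map_div₀, map_div₀]
      exact div_mem (hA r) (hA s)
    -- hence the image of `F` is algebraic over `D`
    have halg : IsAlgebraic D (φ w' y) := by
      have h1 : IsIntegral E y := Algebra.IsIntegral.isIntegral y
      let g : E →+* D := RingHom.comp (AlgEquiv.ofInjectiveField
        (IsScalarTower.toAlgHom k₀ D N)).symm.toRingEquiv.toRingHom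
        (((φ w' : F →+* N).comp (algebraMap E F)).codRestrict
          (IsScalarTower.toAlgHom k₀ D N).fieldRange hE)
      have hg : ∀ e, algebraMap D N (g e) = φ w' (algebraMap E F e) := by
        intro e
        have h2 := AlgEquiv.apply_symm_apply (AlgEquiv.ofInjectiveField
          (IsScalarTower.toAlgHom k₀ D N)) (⟨φ w' (algebraMap E F e), hE e⟩ :
          (IsScalarTower.toAlgHom k₀ D N).fieldRange)
        exact congrArg Subtype.val h2
      obtain ⟨p, hp, hp0⟩ := h1
      refine IsIntegral.isAlgebraic ⟨p.map g, hp.map _, ?_⟩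
      rw [Polynomial.eval₂_map]
      have h2 := congrArg (φ w') hp0
      rw [map_zero] at h2
      rw [← h2]
      have h3 := Polynomial.hom_eval₂ p (algebraMap E F) (φ w' : F →+* N) y
      refine Eq.trans ?_ h3.symm
      congr 1
      apply RingHom.ext
      intro e
      exact hg e
    obtain ⟨d, hd⟩ := minpoly.mem_range_of_degree_eq_one D (φ w' y)
      (IsAlgClosed.degree_eq_one_of_irreducible D (minpoly.irreducible halg.isIntegral))
    exact ⟨d, hd⟩

end core

end Pool.Agent.TH15.IGP
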