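import Mathlib
import Pool.Agent.H84.L.S8_H391R2_NtC
import Pool.Agent.H84.L.S8_H391R2_T4_Utl
import Pool.Agent.H84.L.S8_H391R2_WrTrd
import Pool.Agent.H84.L.S8_W200_IG_Fam
import Pool.Agent.H84.L.S8_W200_IG_HF
import Pool.Agent.H84.L.S8_W200_IJ_SA
import Pool.Agent.H84.L.S8_W200_IJ_SD
import Pool.Agent.H84.L.S8_W200_IJ_SG

namespace Pool.Agent.H391R2
end Pool.Agent.H391R2
namespace Pool.Agent.H391R2.T4
end Pool.Agent.H391R2.T4
namespace Pool.Agent.W200.IJ
end Pool.Agent.W200.IJ


/-!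
Descent of an abstract semilinear realisation to a finite Galois extension of a field of rational
functions.
-/

set_option autoImplicit false

namespace Pool.Agent.TH15.IGP

open Pool.Agent.H391R2 (exists_field)
open Pool.Agent.H391R2.T4 (eq_on_adjoin field_le)
open Pool.Agent.W200.IJ (finite_descent2 reg_of_inv const_frac basis_down)

set_option linter.unusedSectionVars false

section arith

variable {k M K N : Type} [Field k] [Field M] [Algebra k M] [FiniteDimensional k M]
  [IsGalois k M] [Field K] [IsAlgClosed K] [Algebra M K] [Algebra.IsAlgebraic M K] [Field N]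
  [IsAlgClosed N] [Algebra K N] [Algebra M N] [IsScalarTower M K N] [Algebra k N]
  [IsScalarTower k M N]

/- Passage to a finite Galois extension of a field of rational functions. -/
theorem arith_gen (W : Type) [Group W] (α : W →* (M ≃ₐ[k] M))
    {V : Type} (Z : V → N) (hZ : IsTranscendenceBasis K Z)
    (Rl : (N → N) → W → Prop) (S : Set N) (hSf : S.Finite)
    (huniq : ∀ f x y, Rl f x → Rl f y → x = y)
    (hmul : ∀ f g x y, Rl f x → Rl g y → Rl (f ∘ g) (x * y))
    (hM : ∀ f x, Rl f x → ∀ a : M, f (algebraMap M N a) = algebraMap M N (α x a))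
    (h1 : ∀ σ : N ≃ₐ[k] N, (∀ v, σ (Z v) = Z v) → ∃ x : W, Rl σ x)
    (h2 : ∀ x : W, α x = 1 → ∃ γ : N ≃ₐ[K] N, (∀ v, γ (Z v) = Z v) ∧ Rl γ x)
    (h3 : ∀ ρ : M ≃ₐ[k] M, ∃ σ : N ≃ₐ[k] N, (∀ v, σ (Z v) = Z v) ∧
        ∀ a : M, σ (algebraMap M N a) = algebraMap M N (ρ a))
    (h4 : ∀ σ : N ≃ₐ[k] N, (∀ v, σ (Z v) = Z v) → (∀ s ∈ S, σ s = s) →
      (∀ a : M, σ (algebraMap M N a) = algebraMap M N a) → Rl σ 1) :
    ∃ (E : Type) (_ : Field E) (_ : Algebra (MvPolynomial V k) E)
      (_ : IsFractionRing (MvPolynomial V k) E) (_ : Algebra k E)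
      (_ : IsScalarTower k (MvPolynomial V k) E)
      (F : Type) (_ : Field F) (_ : Algebra E F) (_ : Algebra M F) (_ : Algebra k F)
      (_ : IsScalarTower k E F) (_ : IsScalarTower k M F) (_ : FiniteDimensional E F)
      (_ : IsGalois E F) (γ : (F ≃ₐ[E] F) ≃* W),
      (∀ (σ : F ≃ₐ[E] F) (x : M), σ (algebraMap M F x) = algebraMap M F (α (γ σ) x)) ∧
      (∀ y : F, IsAlgebraic M y → y ∈ Set.range (algebraMap M F)) := by
  have hZM : IsTranscendenceBasis M Z := basis_down Z hZ
  have hZk : IsTranscendenceBasis k Z := basis_down Z hZM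
  obtain ⟨E, iE1, iE2, iE3, iE4, iE5, ψ, hψ⟩ := exists_field hZk.1
  let _ : Algebra E N := ψ.toRingHom.toAlgebra
  have hTE : IsScalarTower k E N := IsScalarTower.of_algebraMap_eq fun x => (ψ.commutes x).symm
  have hZE : ∀ v, Z v = algebraMap E N (algebraMap (MvPolynomial V k) E (MvPolynomial.X v)) := by
    intro i
    change _ = ψ _
    rw [hψ, MvPolynomial.aeval_X]
  have halg : Algebra.IsAlgebraic E N :=
    Pool.Agent.H391R2.T4.alg_of_range Z hZk fun v => ⟨_, (hZE v).symm⟩
  have hcl : IsAlgClosure E N := ⟨inferInstance, halg⟩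
  have hnorm : Normal E N := IsAlgClosure.normal E N
  have hfix : ∀ γ : N ≃ₐ[E] N, ∀ v, (γ.restrictScalars k) (Z v) = Z v := by
    intro γ v
    rw [hZE]
    exact γ.commutes _
  -- automorphisms over `E`
  have hEfix : ∀ σ : N ≃ₐ[k] N, (∀ v, σ (Z v) = Z v) → ∀ x : E, σ (algebraMap E N x) =
      algebraMap E N x := by
    intro σ hσ x
    exact eq_on_adjoin (σ : N →ₐ[k] N) (AlgHom.id k N) (Set.range Z) (by
      rintro _ ⟨v, rfl⟩
      exact hσ v) _ (field_le Z hZE x)
  have h1' := fun γ : N ≃ₐ[E] N => h1 (γ.restrictScalars k) (hfix γ)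
  choose X hX using h1'
  let π : (N ≃ₐ[E] N) →* W := MonoidHom.mk' X (fun γ γ' => by
    have h4 : Rl (⇑(γ.restrictScalars k) ∘ ⇑(γ'.restrictScalars k)) (X γ * X γ') :=
      hmul _ _ _ _ (hX γ) (hX γ')
    exact huniq _ _ _ (hX (γ * γ')) h4)
  have hπ : ∀ γ : N ≃ₐ[E] N, Rl γ (π γ) := fun γ => hX γ
  have hgeo : ∀ x : W, α x = 1 → ∃ γ : N ≃ₐ[E] N, π γ = x ∧
      ∀ c : K, γ (algebraMap K N c) = algebraMap K N c := by
    intro x hx
    obtain ⟨γ, hγZ, hγ⟩ := h2 x hx
    let γ' : N ≃ₐ[E] N := AlgEquiv.ofRingEquiv (f := (γ : N ≃+* N))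
      (hEfix ((γ.restrictScalars M).restrictScalars k) hγZ)
    exact ⟨γ', huniq _ _ _ (hπ γ') hγ, fun c => γ.commutes c⟩
  have hsurj : Function.Surjective π := by
    intro z
    obtain ⟨σ₀, hσ₀, hσ₀M⟩ := h3 (α z)
    let σ : N ≃ₐ[E] N := AlgEquiv.ofRingEquiv (f := (σ₀ : N ≃+* N)) (hEfix σ₀ hσ₀)
    have h4 : α (π σ) = α z := by
      apply AlgEquiv.ext
      intro a
      apply (algebraMap M N).injective
      rw [← hM _ _ (hπ σ)]
      exact hσ₀M a
    obtain ⟨σ₁, hσ₁, -⟩ := hgeo (z * (π σ)⁻¹) (by rw [map_mul, map_inv, h4, mul_inv_cancel])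
    refine ⟨σ₁ * σ, ?_⟩
    rw [map_mul, hσ₁, inv_mul_cancel_right]
  let b := Module.finBasis k M
  let S' : Set N := (Set.range fun q => algebraMap M N (b q)) ∪ S
  have hSf' : S'.Finite := (Set.finite_range _).union hSf
  have hbM : ∀ γ : N ≃ₐ[E] N, (∀ q, γ (algebraMap M N (b q)) = algebraMap M N (b q)) →
      ∀ a : M, γ (algebraMap M N a) = algebraMap M N a := by
    intro γ hγ a
    rw [← b.sum_repr a, map_sum, map_sum]
    refine Finset.sum_congr rfl fun q _ => ?_
    rw [Algebra.smul_def, map_mul, map_mul, hγ]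
    congr 1
    rw [← IsScalarTower.algebraMap_apply k M N]
    exact (γ.restrictScalars k).commutes _
  have hS : ∀ γ : N ≃ₐ[E] N, (∀ s ∈ S', γ s = s) → π γ = 1 := by
    intro γ hγ
    refine huniq _ _ _ (hπ γ) (h4 (γ.restrictScalars k) (hfix γ) (fun s hs => hγ s (Or.inr hs))
      (hbM γ (fun q => hγ _ (Or.inl ⟨q, rfl⟩))))
  obtain ⟨F, iF1, iF2, iF3, iF4, iF5, iF6, e, he1, he2⟩ := finite_descent2 π hsurj S' hSf' hS
  have hMF : ∀ a : M, algebraMap M N a ∈ (algebraMap F N).range := by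
    intro a
    refine he2 _ ?_ (fun γ hγ => ?_)
    · have h4 : IsSeparable k a := Algebra.IsSeparable.isSeparable k a
      have h5 : IsSeparable k (algebraMap M N a) := by
        have h6 := h4.map (IsScalarTower.toAlgHom k M N) (algebraMap M N).injective
        exact h6
      exact h5.tower_top E
    · have h4 := hM _ _ (hπ γ) a
      rw [hγ, map_one] at h4
      exact h4
  have hjinj : Function.Injective (algebraMap F N) := (algebraMap F N).injective
  let j₀ : F ≃+* (algebraMap F N).range := RingEquiv.ofBijective (algebraMap F N).rangeRestrict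
    ⟨fun a b hab => hjinj (congrArg Subtype.val hab), (algebraMap F N).rangeRestrict_surjective⟩
  let f : M →+* F := (j₀.symm : (algebraMap F N).range →+* F).comp
    ((algebraMap M N).codRestrict (algebraMap F N).range hMF)
  have hf : ∀ a, algebraMap F N (f a) = algebraMap M N a := by
    intro a
    have h4 : j₀ (f a) = (algebraMap M N).codRestrict (algebraMap F N).range hMF a :=
      j₀.apply_symm_apply _
    exact congrArg Subtype.val h4
  let _ : Algebra M F := f.toAlgebra
  have hf' : ∀ a, algebraMap F N (algebraMap M F a) = algebraMap M N a := hf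
  let _ : Algebra k F := ((algebraMap E F).comp (algebraMap k E)).toAlgebra
  have hT1 : IsScalarTower k E F := IsScalarTower.of_algebraMap_eq fun x => rfl
  have hT2 : IsScalarTower k M F := IsScalarTower.of_algebraMap_eq fun x => by
    apply hjinj
    rw [hf', ← IsScalarTower.algebraMap_apply k M N]
    change algebraMap F N (algebraMap E F (algebraMap k E x)) = _
    rw [← IsScalarTower.algebraMap_apply E F N, ← IsScalarTower.algebraMap_apply k E N]
  have hact : ∀ (σ : F ≃ₐ[E] F) (x : M), σ (algebraMap M F x) =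
      algebraMap M F (α (e σ) x) := by
    intro σ x
    obtain ⟨γ, hγ⟩ := hsurj (e σ)
    have h4 := he1 γ (algebraMap M F x)
    rw [hγ, MulEquiv.symm_apply_apply, hf', hM _ _ (hπ γ), hγ, ← hf'] at h4
    exact (hjinj h4).symm
  refine ⟨E, iE1, iE3, iE5, iE2, iE4, F, inferInstance, inferInstance, inferInstance,
    inferInstance, hT1, hT2, inferInstance, inferInstance, e, hact, fun y hy => ?_⟩
  have hTMFN : IsScalarTower M F N := IsScalarTower.of_algebraMap_eq fun x => (hf' x).symm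
  refine reg_of_inv (k := k) (E := E) (const_frac (V := V)) (fun ρ => ?_) y hy (fun σ hσ => ?_)
  · obtain ⟨σ₀, hσ₀, hσ₀M⟩ := h3 ρ
    let σ : N ≃ₐ[E] N := AlgEquiv.ofRingEquiv (f := (σ₀ : N ≃+* N)) (hEfix σ₀ hσ₀)
    refine ⟨e.symm (π σ), fun a => ?_⟩
    rw [hact, MulEquiv.apply_symm_apply]
    apply hjinj
    rw [hf', hf', ← hM _ _ (hπ σ)]
    exact hσ₀M a
  · have h4 : IsAlgebraic M (algebraMap F N y) := hy.algebraMap
    have h5 : IsAlgebraic K (algebraMap F N y) := h4.tower_top K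
    obtain ⟨c, hc⟩ := minpoly.mem_range_of_degree_eq_one K (algebraMap F N y)
      (IsAlgClosed.degree_eq_one_of_irreducible K (minpoly.irreducible h5.isIntegral))
    have h6 : α (e σ) = 1 := by
      apply AlgEquiv.ext
      intro a
      apply (algebraMap M F).injective
      rw [← hact, hσ]
      rfl
    obtain ⟨γ, hγ, hγK⟩ := hgeo (e σ) h6
    have h8 := he1 γ y
    rw [hγ, MulEquiv.symm_apply_apply, ← hc, hγK, hc] at h8
    exact (hjinj h8).symm

end arith

end Pool.Agent.TH15.IGP
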