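import Mathlib
import Pool.Agent.H84.L.S8_H391R2_T4_Fam
import Pool.Agent.H84.L.S8_TH15_IGP_Ari
import Pool.Agent.H84.L.S8_TH15_IGP_Ext
import Pool.Agent.H84.L.S8_TH15_IGP_WrA
import Pool.Agent.H84.L.S8_W200_IH_TA
import Pool.Agent.H84.L.S8_W200_IH_TC
import Pool.Agent.H84.L.S8_W200_IH_TD
import Pool.Agent.H84.L.S8_W200_IJ_SA
import Pool.Agent.H84.L.S8_W200_IJ_SC
import Pool.Agent.H84.L.S8_W200_IJ_SD

namespace Pool.Agent.W200.IH
end Pool.Agent.W200.IH
namespace Pool.Agent.W200.IJ
end Pool.Agent.W200.IJ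


/-!
Weil restriction of a regular realisation: permutational wreath products over the Galois group of
a constant extension, over a field of rational functions in several variables.
-/

set_option autoImplicit false

namespace Pool.Agent.TH15.IGP

open MvPolynomial
open Pool.Agent.W200.IJ (desc desc_iff desc_basis exists_dual exists_semi_auto basis_down)
open Pool.Agent.W200.IH (alg_mono alg_of_alg basis_of_card basis_over)

set_option linter.unusedSectionVars false

/- The permutational wreath product of `B` with a group acting on `Ω`. -/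
abbrev PW (B Ω H : Type) [Group B] [Group H] [MulAction H Ω] : Type :=
  (Ω → B) ⋊[mulAutArrow] H

theorem pw_mul_left {B Ω H : Type} [Group B] [Group H] [MulAction H Ω] (x y : PW B Ω H) (w : Ω) :
    (x * y).left w = x.left w * y.left (x.right⁻¹ • w) := rfl

section emb

variable {k E F N : Type} [Field k] [Field E] [Algebra (MvPolynomial Unit k) E]
  [IsFractionRing (MvPolynomial Unit k) E]
  [Algebra k E] [IsScalarTower k (MvPolynomial Unit k) E] [Field F] [Algebra E F] [Algebra k F]
  [IsScalarTower k E F] [FiniteDimensional E F] [IsGalois E F] [Field N] [IsAlgClosed N]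
  [Algebra k N]

/- Embeddings with a given value of the variable. -/
theorem exists_emb (x : N) (hx : AlgebraicIndependent k (fun _ : Unit => x)) :
    ∃ φ : F →ₐ[k] N, φ (algebraMap E F (algebraMap (MvPolynomial Unit k) E (X ()))) = x := by
  have hinj : Function.Injective (aeval (fun _ : Unit => x) : MvPolynomial Unit k →ₐ[k] N) :=
    algebraicIndependent_iff_injective_aeval.1 hx
  let g : E →ₐ[k] N := IsFractionRing.liftAlgHom (K := E) hinj
  have hg : ∀ r : MvPolynomial Unit k, g (algebraMap _ E r) = aeval (fun _ : Unit => x) r :=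
    fun r => IsFractionRing.lift_algebraMap hinj r
  let _ : Algebra E N := g.toRingHom.toAlgebra
  have hT : IsScalarTower k E N := IsScalarTower.of_algebraMap_eq fun c => (g.commutes c).symm
  let φ₀ : F →ₐ[E] N := IsAlgClosed.lift
  refine ⟨φ₀.restrictScalars k, ?_⟩
  change φ₀ _ = x
  rw [AlgHom.commutes]
  change g _ = x
  rw [hg, aeval_X]

/- Homomorphisms agreeing on the variable agree on the field of rational functions. -/
theorem hom_ext_E (f g : E →+* N)
    (hC : ∀ c : k, f (algebraMap k E c) = g (algebraMap k E c))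
    (hX : f (algebraMap (MvPolynomial Unit k) E (X ())) =
      g (algebraMap (MvPolynomial Unit k) E (X ()))) : ∀ e, f e = g e := by
  have h1 : f.comp (algebraMap (MvPolynomial Unit k) E) =
      g.comp (algebraMap (MvPolynomial Unit k) E) := by
    apply MvPolynomial.ringHom_ext
    · intro c
      have h2 := hC c
      rw [IsScalarTower.algebraMap_apply k (MvPolynomial Unit k) E] at h2
      exact h2
    · intro i
      exact hX
  intro e
  obtain ⟨r, s, _, rfl⟩ := IsFractionRing.div_surjective (MvPolynomial Unit k) e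
  rw [map_div₀, map_div₀]
  have h2 := fun r => congrArg (fun h : MvPolynomial Unit k →+* N => h r) h1
  simp only [RingHom.comp_apply] at h2
  rw [h2, h2]

end emb

section core

variable {k₀ k M K N Ω B : Type} [Field k₀] [Field k] [Algebra k₀ k] [Field M] [Algebra k M]
  [FiniteDimensional k M]
  [IsGalois k M]
  [Field K] [IsAlgClosed K] [Algebra M K] [Algebra.IsAlgebraic M K] [Field N]
  [IsAlgClosed N] [Algebra K N] [Algebra M N] [IsScalarTower M K N] [Algebra k N]
  [IsScalarTower k M N] [Algebra k₀ N] [IsScalarTower k₀ k N] [Finite Ω]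
  [MulAction (M ≃ₐ[k] M) Ω] [Group B]
  {E F : Type} [Field E] [Algebra (MvPolynomial Unit k₀) E]
  [IsFractionRing (MvPolynomial Unit k₀) E]
  [Algebra k₀ E] [IsScalarTower k₀ (MvPolynomial Unit k₀) E] [Field F] [Algebra E F]
  [Algebra k₀ F] [IsScalarTower k₀ E F] [FiniteDimensional E F] [IsGalois E F]

/- The relation between automorphisms and elements of the wreath product. -/
def RlW (φ : Ω → F →ₐ[k₀] N) (β : (F ≃ₐ[E] F) ≃* B) (f : N → N) (x : PW B Ω (M ≃ₐ[k] M)) : Prop :=
  (∀ a : M, f (algebraMap M N a) = algebraMap M N (x.right a)) ∧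
  ∀ w y, f (φ w y) = φ (x.right • w) (β.symm (x.left (x.right • w)) y)

theorem RlW.uniq (φ : Ω → F →ₐ[k₀] N) (β : (F ≃ₐ[E] F) ≃* B) (f : N → N)
    (x y : PW B Ω (M ≃ₐ[k] M)) (hx : RlW φ β f x) (hy : RlW φ β f y) : x = y := by
  have h1 : x.right = y.right := by
    apply AlgEquiv.ext
    intro a
    apply (algebraMap M N).injective
    rw [← hx.1, hy.1]
  apply SemidirectProduct.ext
  · funext w
    obtain ⟨w', rfl⟩ : ∃ w', w = x.right • w' := ⟨x.right⁻¹ • w, (smul_inv_smul _ _).symm⟩
    apply β.symm.injective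
    apply AlgEquiv.ext
    intro z
    apply (φ (x.right • w')).toRingHom.injective
    have h2 := hx.2 w' z
    have h3 := hy.2 w' z
    rw [← h1] at h3
    exact h2.symm.trans h3
  · exact h1

theorem RlW.mul (φ : Ω → F →ₐ[k₀] N) (β : (F ≃ₐ[E] F) ≃* B) (f g : N → N)
    (x y : PW B Ω (M ≃ₐ[k] M)) (hx : RlW φ β f x) (hy : RlW φ β g y) :
    RlW φ β (f ∘ g) (x * y) := by
  refine ⟨fun a => ?_, fun w z => ?_⟩
  · change f (g _) = _
    rw [hy.1, hx.1]
    rfl
  · change f (g _) = _
    rw [hy.2, hx.2]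
    have h1 : (x * y).right • w = x.right • y.right • w := by
      rw [SemidirectProduct.mul_right, mul_smul]
    have h2 : (x * y).left (x.right • y.right • w) =
        x.left (x.right • y.right • w) * y.left (y.right • w) := by
      rw [pw_mul_left, inv_smul_smul]
    rw [h1, h2, map_mul]
    rfl

/- The realisation over a field of rational functions. -/
theorem wr_core (hreg : ∀ y : F, IsAlgebraic k₀ y → y ∈ Set.range (algebraMap k₀ F))
    (β : (F ≃ₐ[E] F) ≃* B)
    (Z : Unit ⊕ ((M ≃ₐ[k] M) × Ω) → N) (hZ : IsTranscendenceBasis K Z) :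
    ∃ (E' : Type) (_ : Field E') (_ : Algebra (MvPolynomial (Unit ⊕ ((M ≃ₐ[k] M) × Ω)) k) E')
      (_ : IsFractionRing (MvPolynomial (Unit ⊕ ((M ≃ₐ[k] M) × Ω)) k) E') (_ : Algebra k E')
      (_ : IsScalarTower k (MvPolynomial (Unit ⊕ ((M ≃ₐ[k] M) × Ω)) k) E')
      (F' : Type) (_ : Field F') (_ : Algebra E' F') (_ : Algebra M F') (_ : Algebra k F')
      (_ : IsScalarTower k E' F') (_ : IsScalarTower k M F') (_ : FiniteDimensional E' F')
      (_ : IsGalois E' F') (γ : (F' ≃ₐ[E'] F') ≃* PW B Ω (M ≃ₐ[k] M)),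
      (∀ (σ : F' ≃ₐ[E'] F') (x : M), σ (algebraMap M F' x) = algebraMap M F' ((γ σ).right x)) ∧
      (∀ y : F', IsAlgebraic M y → y ∈ Set.range (algebraMap M F')) := by
  classical
  have := Fintype.ofFinite (M ≃ₐ[k] M)
  obtain ⟨ω, ω', hω⟩ := exists_dual k M
  -- embeddings
  have hind : ∀ w : Ω, AlgebraicIndependent k₀ (fun _ : Unit => xv Z w) := by
    intro w
    obtain ⟨D, iD1, iD2, iD3, iD4, iD5, hx, hD⟩ := exists_D Z hZ w
    have h1 : AlgebraicIndependent K (fun _ : Unit => xv Z w) :=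
      hx.1.restrictScalars (algebraMap K D).injective
    have h2 : AlgebraicIndependent M (fun _ : Unit => xv Z w) :=
      h1.restrictScalars (algebraMap M K).injective
    have h3 : AlgebraicIndependent k (fun _ : Unit => xv Z w) :=
      h2.restrictScalars (algebraMap k M).injective
    exact h3.restrictScalars (algebraMap k₀ k).injective
  choose φ hφ using fun w => exists_emb (k := k₀) (E := E) (F := F) (N := N) (xv Z w) (hind w)
  have hmove : ∀ (σ : N ≃ₐ[k] N) (ρ : M ≃ₐ[k] M),
      (∀ a : M, σ (algebraMap M N a) = algebraMap M N (ρ a)) →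
      (∀ v, σ (desc ω Z v) = desc ω Z v) →
      ∀ (w : Ω) (e : E), σ (φ w (algebraMap E F e)) = φ (ρ • w) (algebraMap E F e) := by
    intro σ ρ hρ hσ w
    have h1 := (desc_iff ω ω' hω Z (σ : N →+* N) ρ hρ).1 hσ
    refine hom_ext_E (k := k₀) ((σ : N →+* N).comp ((φ w : F →+* N).comp (algebraMap E F)))
      ((φ (ρ • w) : F →+* N).comp (algebraMap E F)) (fun c => ?_) ?_
    · change σ (φ w (algebraMap E F (algebraMap k₀ E c))) =
        φ (ρ • w) (algebraMap E F (algebraMap k₀ E c))
      rw [← IsScalarTower.algebraMap_apply k₀ E F, AlgHom.commutes, AlgHom.commutes,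
        IsScalarTower.algebraMap_apply k₀ k N, AlgEquiv.commutes]
    · change σ (φ w _) = φ (ρ • w) _
      rw [hφ, hφ]
      exact xv_move Z (σ : N →+* N) ρ h1.2 w
  -- a basis of `F`
  let bF := Module.finBasis E F
  let S : Set N := ⋃ w : Ω, Set.range fun i => φ w (bF i)
  have hSf : S.Finite := Set.finite_iUnion fun w => Set.finite_range _
  have hdesc : IsTranscendenceBasis K (desc ω Z) := desc_basis ω ω' hω Z hZ
  refine arith_gen (k := k) (M := M) (K := K) (N := N) (PW B Ω (M ≃ₐ[k] M))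
    SemidirectProduct.rightHom (desc ω Z) hdesc (RlW φ β) S hSf (RlW.uniq φ β)
    (RlW.mul φ β) (fun f x h => h.1) ?_ ?_ ?_ ?_
  · -- existence
    intro σ hσ
    obtain ⟨ρ, hρ⟩ : ∃ ρ : M ≃ₐ[k] M, ∀ a : M, σ (algebraMap M N a) = algebraMap M N (ρ a) :=
      ⟨σ.restrictNormal M, fun a => (AlgEquiv.restrictNormal_commutes σ M a).symm⟩
    have h1 : ∀ w, ∃ b : F ≃ₐ[E] F, ∀ y, σ (φ w y) = φ (ρ • w) (b y) := fun w =>
      emb_unique (φ (ρ • w) : F →+* N) ((σ : N →+* N).comp (φ w : F →+* N)) (hmove σ ρ hρ hσ w)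
    choose b hb using h1
    refine ⟨⟨fun w => β (b (ρ⁻¹ • w)), ρ⟩, hρ, fun w y => ?_⟩
    change σ (φ w y) = φ (ρ • w) (β.symm (β (b (ρ⁻¹ • ρ • w))) y)
    rw [inv_smul_smul, MulEquiv.symm_apply_apply]
    exact hb w y
  · -- geometric automorphisms
    intro x hx
    let T : Subgroup (Ω → B) :=
      { carrier := {c | ∃ γ : N ≃ₐ[K] N, (∀ v, γ (Z v) = Z v) ∧
          ∀ w y, γ (φ w y) = φ w (β.symm (c w) y)}
        one_mem' := ⟨1, fun v => rfl, fun w y => by
          rw [Pi.one_apply, map_one]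
          rfl⟩
        mul_mem' := by
          rintro a b ⟨γ, h1, h2⟩ ⟨δ, h3, h4⟩
          refine ⟨γ * δ, fun v => ?_, fun w y => ?_⟩
          · rw [AlgEquiv.mul_apply, h3, h1]
          · rw [AlgEquiv.mul_apply, h4, h2, Pi.mul_apply, map_mul]
            rfl
        inv_mem' := by
          rintro a ⟨γ, h1, h2⟩
          refine ⟨γ⁻¹, fun v => ?_, fun w y => ?_⟩
          · change γ.symm _ = _
            rw [AlgEquiv.symm_apply_eq, h1]
          · change γ.symm _ = _
            rw [AlgEquiv.symm_apply_eq, h2, Pi.inv_apply, map_inv]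
            congr 1
            exact (AlgEquiv.apply_symm_apply (β.symm (a w)) y).symm }
    have hT : x.left ∈ T := by
      refine Subgroup.pi_mem_of_mulSingle_mem _ fun w => ?_
      obtain ⟨σ, h1, h2, h3⟩ := geo_one (k₀ := k₀) (k := k) (M := M) (K := K) hreg Z hZ φ hφ w
        (β.symm (x.left w))
      refine ⟨σ, h1, fun w' y => ?_⟩
      by_cases hw : w' = w
      · subst hw
        rw [Pi.mulSingle_eq_same]
        exact h2 y
      · rw [Pi.mulSingle_eq_of_ne hw, map_one]
        exact h3 w' hw y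
    obtain ⟨γ, h1, h2⟩ := hT
    have hx1 : x.right = 1 := hx
    have hγM : ∀ a : M, γ (algebraMap M N a) = algebraMap M N a := fun a => by
      rw [IsScalarTower.algebraMap_apply M K N]
      exact γ.commutes _
    refine ⟨γ, ?_, ?_, ?_⟩
    · refine (desc_iff ω ω' hω Z (γ : N →+* N) 1 hγM).2 ⟨h1 _, fun δ j => ?_⟩
      rw [one_mul]
      exact h1 _
    · intro a
      rw [hx1]
      exact hγM a
    · intro w y
      rw [hx1, one_smul]
      exact h2 w y
  · -- arithmetic automorphisms
    intro ρ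
    let e : Unit ⊕ ((M ≃ₐ[k] M) × Ω) ≃ Unit ⊕ ((M ≃ₐ[k] M) × Ω) :=
      Equiv.sumCongr (Equiv.refl _) (Equiv.prodCongr (Equiv.mulLeft ρ) (Equiv.refl _))
    have hZM : IsTranscendenceBasis M Z := basis_down Z hZ
    obtain ⟨σ, hσ, hσZ⟩ := exists_semi_auto hZM (hZM.comp_equiv e) ρ
    refine ⟨σ, (desc_iff ω ω' hω Z (σ : N →+* N) ρ hσ).2 ⟨hσZ (Sum.inl ()), fun γ j => ?_⟩, hσ⟩
    exact hσZ (Sum.inr (γ, j))
  · -- finiteness
    intro σ hσ hS hσM
    refine ⟨fun a => hσM a, fun w y => ?_⟩
    change σ (φ w y) = φ ((1 : M ≃ₐ[k] M) • w) (β.symm (1 : B) y)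
    rw [one_smul, map_one]
    change σ (φ w y) = φ w y
    have h1 := hmove σ 1 (fun a => hσM a) hσ w
    rw [one_smul] at h1
    have h2 : ∀ i, σ (φ w (bF i)) = φ w (bF i) := fun i =>
      hS _ (Set.mem_iUnion.2 ⟨w, ⟨i, rfl⟩⟩)
    rw [← bF.sum_repr y, map_sum, map_sum]
    refine Finset.sum_congr rfl fun i _ => ?_
    rw [Algebra.smul_def, map_mul, map_mul, h1, h2]

end core

end Pool.Agent.TH15.IGP
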