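import Mathlib
import Pool.Agent.H84.L.S8_H391R2_NtC
import Pool.Agent.H84.L.S8_H391R2_T4_Par
import Pool.Agent.H84.L.S8_TH15_IGP_Ext
import Pool.Agent.H84.L.S8_TH15_IGP_WrA
import Pool.Agent.H84.L.S8_TH15_IGP_WrB
import Pool.Agent.H84.L.S8_W200_IG_HF
import Pool.Agent.H84.L.S8_W200_IH_TA
import Pool.Agent.H84.L.S8_W200_IH_TC
import Pool.Agent.H84.L.S8_W200_IH_TD
import Pool.Agent.H84.L.S8_W200_IJ_SC
import Pool.Agent.H84.L.S8_W200_IJ_SD

namespace Pool.Agent.W200.IH
end Pool.Agent.W200.IH
namespace Pool.Agent.W200.IJ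
end Pool.Agent.W200.IJ


/-!
Weil restriction of embedding problems: the geometric automorphisms.
-/

set_option autoImplicit false

namespace Pool.Agent.TH15.IGP

open MvPolynomial
open Pool.Agent.W200.IJ (desc desc_iff desc_basis exists_dual exists_semi_auto basis_down)
open Pool.Agent.W200.IH (alg_mono alg_of_alg basis_of_card basis_over)

set_option linter.unusedSectionVars false

section geo

variable {k₀ Γ K N Ω : Type} [Field k₀] [Group Γ] [Fintype Γ]
  [Field K] [Field N] [IsAlgClosed N] [Algebra K N]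
  [Finite Ω] [MulAction Γ Ω]
  {E F : Type} [Field E] [Algebra (MvPolynomial Unit k₀) E]
  [IsFractionRing (MvPolynomial Unit k₀) E]
  [Algebra k₀ E] [IsScalarTower k₀ (MvPolynomial Unit k₀) E] [Field F] [Algebra E F]
  [Algebra k₀ F]
  [IsScalarTower k₀ E F] [FiniteDimensional E F] [IsGalois E F]

/- Automorphisms acting on the embeddings over one point only. -/
theorem geo_tw (hreg : ∀ y : F, IsAlgebraic k₀ y → y ∈ Set.range (algebraMap k₀ F))
    (Z : Unit ⊕ (Γ × Ω) → N) (hZ : IsTranscendenceBasis K Z) (w : Ω)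
    (ι : k₀ →+* K) (φ : F →+* N)
    (hφc : ∀ c : k₀, φ (algebraMap k₀ F c) = algebraMap K N (ι c))
    (hφ : φ (algebraMap E F (algebraMap (MvPolynomial Unit k₀) E (X ()))) = xv Z w)
    (b : F ≃ₐ[E] F) :
    ∃ σ : N ≃ₐ[K] N, (∀ v, σ (Z v) = Z v) ∧ (∀ y, σ (φ y) = φ (b y)) ∧
      ∀ (w' : Ω) (φ' : F →+* N), w' ≠ w →
        (∀ c : k₀, φ' (algebraMap k₀ F c) ∈ Set.range (algebraMap K N)) →
        φ' (algebraMap E F (algebraMap (MvPolynomial Unit k₀) E (X ()))) = xv Z w' →
        ∀ y, σ (φ' y) = φ' y := by
  classical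
  obtain ⟨D, iD1, iD2, iD3, iD4, iD5, hx, hD⟩ := exists_D Z hZ w
  let _ : Algebra k₀ D := ((algebraMap K D).comp ι).toAlgebra
  let _ : Algebra k₀ N := ((algebraMap K N).comp ι).toAlgebra
  have hT : IsScalarTower k₀ D N := IsScalarTower.of_algebraMap_eq fun c => by
    change algebraMap K N (ι c) = algebraMap D N (algebraMap K D (ι c))
    rw [← IsScalarTower.algebraMap_apply K D N]
  let φ₀ : F →ₐ[k₀] N := { φ with commutes' := hφc }
  obtain ⟨σ, hσx, hσ⟩ := exists_aut (k := k₀) (ι := Unit) (E := E) (F := F) (N := N) (D := D) hreg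
    (fun _ => xv Z w) hx φ₀ (fun _ => hφ) b
  have hσD : ∀ z ∈ Set.range (algebraMap D N), σ z = z := by
    rintro _ ⟨d, rfl⟩
    exact σ.commutes d
  have hne : ∀ γ : Γ, γ ≠ 1 →
      (Sum.inr (γ, γ⁻¹ • w) : Unit ⊕ (Γ × Ω)) ≠ Sum.inr (1, w) := by
    intro γ hγ h
    exact hγ (congrArg Prod.fst (Sum.inr_injective h))
  refine ⟨σ.restrictScalars K, ?_, hσ, ?_⟩
  · intro v
    change σ (Z v) = Z v
    by_cases hv : v = Sum.inr (1, w)
    · have h1 := hσx ()
      rw [xv_split, map_add, map_sum, Finset.sum_congr rfl (fun γ hγ =>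
        hσD _ (hD _ (hne γ (Finset.ne_of_mem_erase hγ))))] at h1
      rw [hv]
      exact add_right_cancel h1
    · exact hσD _ (hD v hv)
  · intro w' φ' hw' hφ'c hφ' y
    change σ (φ' y) = φ' y
    apply hσD
    -- the variable at `w'` is in `D`
    have hxD : xv Z w' ∈ (algebraMap D N).fieldRange := by
      unfold xv
      refine sum_mem fun γ _ => ?_
      obtain ⟨d, hd⟩ := hD (Sum.inr (γ, γ⁻¹ • w')) (by
        intro h
        have h1 := Sum.inr_injective h
        have h2 : γ = 1 := congrArg Prod.fst h1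
        have h3 : γ⁻¹ • w' = w := congrArg Prod.snd h1
        rw [h2, inv_one, one_smul] at h3
        exact hw' h3)
      exact ⟨d, hd⟩
    have hA : ∀ r : MvPolynomial Unit k₀,
        φ' (algebraMap E F (algebraMap (MvPolynomial Unit k₀) E r)) ∈
        (algebraMap D N).fieldRange := by
      intro r
      induction r using MvPolynomial.induction_on with
      | C c =>
        rw [← MvPolynomial.algebraMap_eq, ← IsScalarTower.algebraMap_apply k₀ (MvPolynomial Unit k₀) E,
            ← IsScalarTower.algebraMap_apply k₀ E F]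
        obtain ⟨z, hz⟩ := hφ'c c
        rw [← hz, IsScalarTower.algebraMap_apply K D N]
        exact ⟨_, rfl⟩
      | add p q hp hq =>
        rw [map_add, map_add, map_add]
        exact add_mem hp hq
      | mul_X p i hp =>
        rw [map_mul, map_mul, map_mul, hφ']
        exact mul_mem hp hxD
    have hE : ∀ e : E, φ' (algebraMap E F e) ∈ (algebraMap D N).fieldRange := by
      intro e
      obtain ⟨r, s, _, rfl⟩ := IsFractionRing.div_surjective (MvPolynomial Unit k₀) e
      rw [map_div₀, map_div₀]
      exact div_mem (hA r) (hA s)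
    -- hence the image of `F` is algebraic over `D`
    have halg : IsAlgebraic D (φ' y) := by
      have h1 : IsIntegral E y := Algebra.IsIntegral.isIntegral y
      choose g₀ hg₀ using hE
      let g : E →+* D :=
        { toFun := g₀
          map_one' := by
            apply (algebraMap D N).injective
            rw [hg₀, map_one, map_one, map_one]
          map_mul' := fun a b => by
            apply (algebraMap D N).injective
            rw [hg₀, map_mul, map_mul, map_mul, hg₀, hg₀]
          map_zero' := by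
            apply (algebraMap D N).injective
            rw [hg₀, map_zero, map_zero, map_zero]
          map_add' := fun a b => by
            apply (algebraMap D N).injective
            rw [hg₀, map_add, map_add, map_add, hg₀, hg₀] }
      have hg : ∀ e, algebraMap D N (g e) = φ' (algebraMap E F e) := hg₀
      obtain ⟨p, hp, hp0⟩ := h1
      refine IsIntegral.isAlgebraic ⟨p.map g, hp.map _, ?_⟩
      rw [Polynomial.eval₂_map]
      have h2 := congrArg φ' hp0
      rw [map_zero] at h2
      rw [← h2]
      have h3 := Polynomial.hom_eval₂ p (algebraMap E F) φ' y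
      refine Eq.trans ?_ h3.symm
      congr 1
      apply RingHom.ext
      intro e
      exact hg e
    obtain ⟨d, hd⟩ := minpoly.mem_range_of_degree_eq_one D (φ' y)
      (IsAlgClosed.degree_eq_one_of_irreducible D (minpoly.irreducible halg.isIntegral))
    exact ⟨d, hd⟩

/- Embeddings with given values. -/
theorem exists_emb' (ι : k₀ →+* K) (x : N) (hx : AlgebraicIndependent K (fun _ : Unit => x)) :
    ∃ φ : F →+* N, (∀ c : k₀, φ (algebraMap k₀ F c) = algebraMap K N (ι c)) ∧
      φ (algebraMap E F (algebraMap (MvPolynomial Unit k₀) E (X ()))) = x := by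
  let _ : Algebra k₀ K := ι.toAlgebra
  let _ : Algebra k₀ N := ((algebraMap K N).comp ι).toAlgebra
  have hT : IsScalarTower k₀ K N := IsScalarTower.of_algebraMap_eq fun c => rfl
  have h1 : AlgebraicIndependent k₀ (fun _ : Unit => x) :=
    hx.restrictScalars (algebraMap k₀ K).injective
  obtain ⟨φ, hφ⟩ := exists_emb (k := k₀) (E := E) (F := F) (N := N) x h1
  exact ⟨φ, fun c => φ.commutes c, hφ⟩

end geo

end Pool.Agent.TH15.IGP
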