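import Mathlib
import Pool.Agent.H84.L.S8_H391R2_T4_Nod
import Pool.Agent.H84.L.S8_H391R2_T4_Par
import Pool.Agent.H84.L.S8_H391R2_T4_Sem
import Pool.Agent.H84.L.S8_TH15_IGP_TwA
import Pool.Agent.H84.L.S8_TH15_IGP_WrA
import Pool.Agent.H84.L.S8_W200_IG_Fam
import Pool.Agent.H84.L.S8_W200_IH_TA
import Pool.Agent.H84.L.S8_W200_IH_TB
import Pool.Agent.H84.L.S8_W200_IH_TC
import Pool.Agent.H84.L.S8_W200_IH_TD
import Pool.Agent.H84.L.S8_W200_IJ_SA
import Pool.Agent.H84.L.S8_W200_IJ_SC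
import Pool.Agent.H84.L.S8_W200_IJ_SD

namespace Pool.Agent.W200.IH
end Pool.Agent.W200.IH
namespace Pool.Agent.W200.IJ
end Pool.Agent.W200.IJ


/-!
Weil restriction of embedding problems: the core.
-/

set_option autoImplicit false

namespace Pool.Agent.TH15.IGP

open MvPolynomial
open Pool.Agent.W200.IJ (desc desc_iff desc_basis exists_dual exists_semi_auto basis_down)
open Pool.Agent.W200.IH (alg_mono alg_of_alg basis_of_card basis_over)

set_option linter.unusedSectionVars false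

/- Group theoretic data of an induced embedding problem. -/
structure IndData (Γ E E₀ : Type) [Group Γ] [Group E] [Group E₀] (Δ : Subgroup Γ)
    (α : E₀ →* Γ) (π : E →* Γ) where
  /- the map to the small group, of interest on the preimage of `Δ` -/
  q : E → E₀
  mul : ∀ d d', π d ∈ Δ → π d' ∈ Δ → q (d * d') = q d * q d'
  comp : ∀ d, π d ∈ Δ → α (q d) = π d
  inj : ∀ a, π a = 1 → (∀ f, q (f⁻¹ * a * f) = 1) → a = 1
  surj : ∀ b, α b = 1 → ∃ a, π a = 1 ∧ q a = b ∧ ∀ f, π f ∉ Δ → q (f⁻¹ * a * f) = 1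

section grp

variable {Γ E E₀ : Type} [Group Γ] [Group E] [Group E₀] {Δ : Subgroup Γ}
    {α : E₀ →* Γ} {π : E →* Γ} (D : IndData Γ E E₀ Δ α π)

theorem IndData.one : D.q 1 = 1 := by
  have h1 := D.mul 1 1 (by rw [map_one]; exact Δ.one_mem) (by rw [map_one]; exact Δ.one_mem)
  rw [mul_one] at h1
  exact left_eq_mul.1 h1

theorem IndData.inv (d : E) (hd : π d ∈ Δ) : D.q d⁻¹ = (D.q d)⁻¹ := by
  have h1 := D.mul d⁻¹ d (by rw [map_inv]; exact Δ.inv_mem hd) hd
  rw [inv_mul_cancel, D.one] at h1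
  exact eq_inv_of_mul_eq_one_left h1.symm

theorem IndData.conj_mem (a f : E) (ha : π a = 1) : π (f⁻¹ * a * f) = 1 := by
  rw [map_mul, map_mul, map_inv, ha, mul_one, inv_mul_cancel]

theorem IndData.conj (a d : E) (ha : π a ∈ Δ) (hd : π d ∈ Δ) :
    D.q (d⁻¹ * a * d) = (D.q d)⁻¹ * D.q a * D.q d := by
  have hd' : π d⁻¹ ∈ Δ := by rw [map_inv]; exact Δ.inv_mem hd
  rw [D.mul _ _ (by rw [map_mul]; exact Δ.mul_mem hd' ha) hd, D.mul _ _ hd' ha, D.inv d hd]

end grp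

section core

variable {k M K N : Type} [Field k] [Field M] [Algebra k M] [FiniteDimensional k M]
  [IsGalois k M]
  [Field K] [IsAlgClosed K] [Algebra M K] [Algebra.IsAlgebraic M K] [Field N]
  [IsAlgClosed N] [Algebra K N] [Algebra M N] [IsScalarTower M K N] [Algebra k N]
  [IsScalarTower k M N] (Δ : Subgroup (M ≃ₐ[k] M))
  {E₁ F : Type} [Field E₁] [Algebra (MvPolynomial Unit M) E₁]
  [IsFractionRing (MvPolynomial Unit M) E₁]
  [Algebra M E₁] [IsScalarTower M (MvPolynomial Unit M) E₁] [Field F] [Algebra E₁ F]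
  [Algebra M F] [IsScalarTower M E₁ F] [FiniteDimensional E₁ F] [IsGalois E₁ F]
  {E E₀ : Type} [Group E] [Finite E] [Group E₀] {α : E₀ →* (M ≃ₐ[k] M)}
  {π : E →* (M ≃ₐ[k] M)} (D : IndData (M ≃ₐ[k] M) E E₀ Δ α π)
  (act : E₀ →* (F ≃+* F))

include D in
/- The family of embeddings. -/
theorem exists_fam [Fintype (M ≃ₐ[k] M)] (hπ : Function.Surjective π)
    (hc : ∀ g (c : M), act g (algebraMap M F c) = algebraMap M F (α g c))
    (ht : ∀ g, act g (algebraMap E₁ F (algebraMap (MvPolynomial Unit M) E₁ (X ()))) =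
      algebraMap E₁ F (algebraMap (MvPolynomial Unit M) E₁ (X ())))
    (Z : Unit ⊕ ((M ≃ₐ[k] M) × ((M ≃ₐ[k] M) ⧸ Δ)) → N) (hZ : IsTranscendenceBasis K Z) :
    ∃ φ : E → (F →+* N),
      (∀ e (c : M), φ e (algebraMap M F c) = algebraMap M N (π e c)) ∧
      (∀ e, φ e (algebraMap E₁ F (algebraMap (MvPolynomial Unit M) E₁ (X ()))) =
        xv Z (QuotientGroup.mk (π e))) ∧
      ∀ e d, π d ∈ Δ → ∀ y, φ (e * d) y = φ e (act (D.q d) y) := by
  classical
  have hs : ∀ w : (M ≃ₐ[k] M) ⧸ Δ, ∃ s : E, QuotientGroup.mk (π s) = w := by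
    intro w
    obtain ⟨γ, rfl⟩ := QuotientGroup.mk_surjective w
    obtain ⟨s, rfl⟩ := hπ γ
    exact ⟨s, rfl⟩
  choose s hs using hs
  have hind : ∀ w, AlgebraicIndependent K (fun _ : Unit => xv Z w) := by
    intro w
    obtain ⟨D', iD1, iD2, iD3, iD4, iD5, hx, hD⟩ := exists_D Z hZ w
    exact hx.1.restrictScalars (algebraMap K D').injective
  have hemb := fun w => exists_emb' (k₀ := M) (K := K) (N := N) (E := E₁) (F := F)
    ((algebraMap M K).comp ((π (s w) : M ≃ₐ[k] M) : M →+* M)) (xv Z w) (hind w)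
  choose φ₀ hφ₀c hφ₀t using hemb
  have hφ₀c' : ∀ w (c : M), φ₀ w (algebraMap M F c) = algebraMap M N (π (s w) c) := by
    intro w c
    rw [hφ₀c, IsScalarTower.algebraMap_apply M K N]
    rfl
  let φ : E → (F →+* N) := fun e => (φ₀ (QuotientGroup.mk (π e))).comp
    ((act (D.q ((s (QuotientGroup.mk (π e)))⁻¹ * e)) : F ≃+* F) : F →+* F)
  have hmem : ∀ e, π ((s (QuotientGroup.mk (π e)))⁻¹ * e) ∈ Δ := by
    intro e
    have h1 : (QuotientGroup.mk (π (s (QuotientGroup.mk (π e)))) : (M ≃ₐ[k] M) ⧸ Δ) =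
      QuotientGroup.mk (π e) := hs _
    rw [QuotientGroup.eq] at h1
    rw [map_mul, map_inv]
    exact h1
  refine ⟨φ, ?_, ?_, ?_⟩
  · intro e c
    change φ₀ _ (act _ (algebraMap M F c)) = _
    rw [hc, hφ₀c', D.comp _ (hmem e), ← AlgEquiv.mul_apply, ← map_mul, mul_inv_cancel_left]
  · intro e
    change φ₀ _ (act _ _) = _
    rw [ht, hφ₀t]
  · intro e d hd y
    have h1 : (QuotientGroup.mk (π (e * d)) : (M ≃ₐ[k] M) ⧸ Δ) = QuotientGroup.mk (π e) := by
      rw [map_mul]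
      exact QuotientGroup.mk_mul_of_mem _ hd
    change φ₀ (QuotientGroup.mk (π (e * d)))
      (act (D.q ((s (QuotientGroup.mk (π (e * d))))⁻¹ * (e * d))) y) =
      φ₀ (QuotientGroup.mk (π e)) (act (D.q ((s (QuotientGroup.mk (π e)))⁻¹ * e))
        (act (D.q d) y))
    rw [h1, ← mul_assoc, D.mul _ _ (hmem e) hd, map_mul]
    rfl

/- Combination of automorphisms. -/
theorem comb [Fintype (M ≃ₐ[k] M)] (hπ : Function.Surjective π)
    (hreg : ∀ y : F, IsAlgebraic M y → y ∈ Set.range (algebraMap M F))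
    (hlift : ∀ g, α g = 1 → ∃ b : F ≃ₐ[E₁] F, ∀ y, b y = act g y)
    (Z : Unit ⊕ ((M ≃ₐ[k] M) × ((M ≃ₐ[k] M) ⧸ Δ)) → N) (hZ : IsTranscendenceBasis K Z)
    (φ : E → (F →+* N))
    (hφc : ∀ e (c : M), φ e (algebraMap M F c) = algebraMap M N (π e c))
    (hφt : ∀ e, φ e (algebraMap E₁ F (algebraMap (MvPolynomial Unit M) E₁ (X ()))) =
        xv Z (QuotientGroup.mk (π e)))
    (hφd : ∀ e d, π d ∈ Δ → ∀ y, φ (e * d) y = φ e (act (D.q d) y))
    (c : E → E₀) (hc1 : ∀ f, α (c f) = 1)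
    (hc2 : ∀ f d, π d ∈ Δ → c (f * d) = (D.q d)⁻¹ * c f * D.q d)
    (T : Finset ((M ≃ₐ[k] M) ⧸ Δ)) :
    ∃ (a : E) (γ : N ≃ₐ[K] N), π a = 1 ∧ (∀ v, γ (Z v) = Z v) ∧
      (∀ f, QuotientGroup.mk (π f) ∈ T → D.q (f⁻¹ * a * f) = c f ∧
        ∀ y, γ (φ f y) = φ f (act (c f) y)) ∧
      (∀ f, QuotientGroup.mk (π f) ∉ T → D.q (f⁻¹ * a * f) = 1 ∧
        ∀ y, γ (φ f y) = φ f y) := by
  classical
  induction T using Finset.induction_on with
  | empty =>
    refine ⟨1, 1, map_one π, fun v => rfl, fun f hf => absurd hf (Finset.notMem_empty _),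
      fun f _ => ⟨?_, fun y => rfl⟩⟩
    rw [mul_one, inv_mul_cancel, D.one]
  | insert w T hwT ih =>
    obtain ⟨a, γ, ha, hγZ, h1, h2⟩ := ih
    obtain ⟨s, hs⟩ : ∃ s : E, QuotientGroup.mk (π s) = w := by
      obtain ⟨g, rfl⟩ := QuotientGroup.mk_surjective w
      obtain ⟨s, rfl⟩ := hπ g
      exact ⟨s, rfl⟩
    obtain ⟨a₀, ha₀, ha₀q, ha₀n⟩ := D.surj (c s) (hc1 s)
    obtain ⟨b, hb⟩ := hlift (c s) (hc1 s)
    obtain ⟨γw, hγwZ, hγw, hγw'⟩ := geo_tw (k₀ := M) (K := K) (N := N) (E := E₁) (F := F) hreg Z hZ w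
      ((algebraMap M K).comp ((π s : M ≃ₐ[k] M) : M →+* M)) (φ s)
      (fun c => by
        rw [hφc, IsScalarTower.algebraMap_apply M K N]
        rfl)
      (by rw [hφt, hs]) b
    have hγw2 : ∀ f, (QuotientGroup.mk (π f) : (M ≃ₐ[k] M) ⧸ Δ) ≠ w → ∀ y, γw (φ f y) = φ f y := by
      intro f hf
      refine hγw' _ (φ f) hf (fun c => ?_) (hφt f)
      rw [hφc, IsScalarTower.algebraMap_apply M K N]
      exact ⟨_, rfl⟩
    have haw : π (s * a₀ * s⁻¹) = 1 := by
      rw [map_mul, map_mul, map_inv, ha₀, mul_one, mul_inv_cancel]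
    have hin : ∀ f, QuotientGroup.mk (π f) = w → π (s⁻¹ * f) ∈ Δ := by
      intro f hf
      rw [← hs] at hf
      have h3 := QuotientGroup.eq.1 hf.symm
      rw [map_mul, map_inv]
      exact h3
    have hout : ∀ f, QuotientGroup.mk (π f) ≠ w → D.q (f⁻¹ * (s * a₀ * s⁻¹) * f) = 1 := by
      intro f hf
      have h3 : f⁻¹ * (s * a₀ * s⁻¹) * f = (s⁻¹ * f)⁻¹ * a₀ * (s⁻¹ * f) := by group
      rw [h3]
      apply ha₀n
      intro h4
      apply hf
      rw [← hs]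
      refine (QuotientGroup.eq.2 ?_).symm
      rw [map_mul, map_inv] at h4
      exact h4
    have hprod : ∀ f, D.q (f⁻¹ * (a * (s * a₀ * s⁻¹)) * f) =
        D.q (f⁻¹ * a * f) * D.q (f⁻¹ * (s * a₀ * s⁻¹) * f) := by
      intro f
      rw [← D.mul _ _ (by rw [IndData.conj_mem a f ha]; exact Δ.one_mem)
        (by rw [IndData.conj_mem _ f haw]; exact Δ.one_mem)]
      congr 1
      group
    refine ⟨a * (s * a₀ * s⁻¹), γ * γw, by rw [map_mul, ha, haw, mul_one], fun v => ?_,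
      fun f hf => ?_, fun f hf => ?_⟩
    · rw [AlgEquiv.mul_apply, hγwZ, hγZ]
    · by_cases hfw : (QuotientGroup.mk (π f) : (M ≃ₐ[k] M) ⧸ Δ) = w
      · have hd := hin f hfw
        obtain ⟨d, hfd⟩ : ∃ d, d = s⁻¹ * f := ⟨_, rfl⟩
        rw [← hfd] at hd
        have hf' : f = s * d := by rw [hfd, mul_inv_cancel_left]
        have h3 := h2 f (by rw [hfw]; exact hwT)
        have hcf : c f = (D.q d)⁻¹ * c s * D.q d := by rw [hf', hc2 s d hd]
        constructor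
        · rw [hprod, h3.1, one_mul, hcf]
          have h4 : f⁻¹ * (s * a₀ * s⁻¹) * f = d⁻¹ * a₀ * d := by rw [hf']; group
          rw [h4, D.conj a₀ d (by rw [ha₀]; exact Δ.one_mem) hd, ha₀q]
        · intro y
          rw [AlgEquiv.mul_apply]
          have h4 : γw (φ f y) = φ f (act (c f) y) := by
            rw [hf', hφd s d hd, hγw, hb, hφd s d hd, ← hf']
            congr 1
            rw [← RingAut.mul_apply, ← RingAut.mul_apply, ← map_mul, ← map_mul]
            congr 2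
            rw [hcf]
            group
          rw [h4, h3.2]
      · have hfT : QuotientGroup.mk (π f) ∈ T := Finset.mem_of_mem_insert_of_ne hf hfw
        have h3 := h1 f hfT
        refine ⟨by rw [hprod, h3.1, hout f hfw, mul_one], fun y => ?_⟩
        rw [AlgEquiv.mul_apply, hγw2 f hfw, h3.2]
    · have hfw : (QuotientGroup.mk (π f) : (M ≃ₐ[k] M) ⧸ Δ) ≠ w := fun h => hf (by
        rw [h]; exact Finset.mem_insert_self _ _)
      have hfT : QuotientGroup.mk (π f) ∉ T := fun h => hf (Finset.mem_insert_of_mem h)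
      have h3 := h2 f hfT
      refine ⟨by rw [hprod, h3.1, hout f hfw, mul_one], fun y => ?_⟩
      rw [AlgEquiv.mul_apply, hγw2 f hfw, h3.2]

end core

end Pool.Agent.TH15.IGP
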