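import Mathlib



set_option autoImplicit false

namespace Pool.Agent.H391R2.T4

set_option linter.unusedSectionVars false

/- A (proper) solution over the extension `T` of `K` of the embedding problem given by a finite
Galois extension `L/K` and `α : E → Gal(L/K)`: a finite Galois extension `F/T` containing `L`
with an isomorphism `γ : Gal(F/T) → E` such that `α ∘ γ` is the restriction to `L`; if `reg`
holds, `L` is required to be algebraically closed in `F`. -/
def SolOver (K L E : Type) [Field K] [Field L] [Algebra K L] [Group E]
    (α : E →* (L ≃ₐ[K] L)) (T : Type) [Field T] [Algebra K T] (reg : Prop) : Prop :=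
  ∃ (F : Type) (_ : Field F) (_ : Algebra T F) (_ : Algebra L F)
    (_ : Algebra K F) (_ : IsScalarTower K T F) (_ : IsScalarTower K L F)
    (_ : FiniteDimensional T F) (_ : IsGalois T F)
    (γ : (F ≃ₐ[T] F) ≃* E),
    (∀ (σ : F ≃ₐ[T] F) (x : L),
        σ (algebraMap L F x) = algebraMap L F (α (γ σ) x)) ∧
    (reg → ∀ y : F, IsAlgebraic L y → y ∈ Set.range (algebraMap L F))


end Pool.Agent.H391R2.T4
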