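import Mathlib



set_option autoImplicit false

namespace Pool.Agent.H81R2.BT

open Polynomial

theorem ratFunc_alg {K : Type} [Field K] (r : RatFunc K) (hr : IsAlgebraic K r) :
    ∃ k : K, algebraMap K (RatFunc K) k = r := by
  by_contra hcon
  push Not at hcon
  exact (r.transcendental_of_ne_C (fun ⟨c, hc⟩ => hcon c hc.symm)) hr

theorem exists_aux_poly {K L : Type} [Field K] [CharZero K] [Field L] [Algebra K L]
    [FiniteDimensional K L] :
    ∃ (l : L) (q : L[X]), (∀ σ : L ≃ₐ[K] L, σ l = l → σ = 1) ∧ q.eval l ≠ 0 ∧
      ∀ σ : L ≃ₐ[K] L, σ ≠ 1 → q.eval (σ l) = 0 := by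
  obtain ⟨l, hl⟩ := Field.exists_primitive_element K L
  have hgen : ∀ σ : L ≃ₐ[K] L, σ l = l → σ = 1 := by
    intro σ hσ
    have h1 : ∀ x ∈ (IntermediateField.adjoin K {l} : IntermediateField K L), σ x = x := by
      intro x hx
      induction hx using IntermediateField.adjoin_induction with
      | mem x hx => rw [Set.mem_singleton_iff.1 hx]; exact hσ
      | algebraMap x => exact σ.commutes x
      | add x y _ _ hx hy => rw [map_add, hx, hy]
      | inv x _ hx => rw [map_inv₀, hx]
      | mul x y _ _ hx hy => rw [map_mul, hx, hy]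
    ext x
    exact h1 x (by rw [hl]; trivial)
  have hroot : ((minpoly K l).map (algebraMap K L)).eval l = 0 := by
    rw [eval_map_algebraMap, minpoly.aeval]
  obtain ⟨q, hq⟩ := dvd_iff_isRoot.2 hroot
  have hder : (aeval l) (derivative (minpoly K l)) ≠ 0 :=
    (Algebra.IsSeparable.isSeparable K l).aeval_derivative_ne_zero (minpoly.aeval K l)
  refine ⟨l, q, hgen, ?_, ?_⟩
  · intro h
    apply hder
    rw [← eval_map_algebraMap, ← derivative_map, hq, derivative_mul]
    simp [h]
  · intro σ hσ
    have h1 : ((minpoly K l).map (algebraMap K L)).eval (σ l) = 0 := by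
      rw [eval_map_algebraMap]
      have := congrArg σ (minpoly.aeval K l)
      rw [map_zero, ← AlgEquiv.coe_toAlgHom, ← aeval_algHom_apply] at this
      exact this
    rw [hq, eval_mul, eval_sub, eval_X, eval_C] at h1
    rcases mul_eq_zero.1 h1 with h2 | h2
    · exact absurd (hgen σ (sub_eq_zero.1 h2)) hσ
    · exact h2

theorem reg_aux {K L F G : Type} [Field K] [CharZero K] [Field L] [Algebra K L]
    [FiniteDimensional K L] [Field F] [Algebra L F] [Algebra K F] [IsScalarTower K L F]
    [Group G] [Finite G] [MulSemiringAction G F] (α : G →* (L ≃ₐ[K] L))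
    (hact : ∀ (g : G) (x : L), g • algebraMap L F x = algebraMap L F (α g x))
    (hfix : ∀ z : F, (∀ g : G, g • z = z) → IsAlgebraic K z → ∃ k : K, algebraMap K F k = z)
    (y : F) (hy : IsAlgebraic K y) (hyW : ∀ g : G, α g = 1 → g • y = y) :
    y ∈ Set.range (algebraMap L F) := by
  classical
  cases nonempty_fintype G
  obtain ⟨l, q, hl, hq1, hq0⟩ := exists_aux_poly (K := K) (L := L)
  have hchar : CharZero F := charZero_of_injective_algebraMap (algebraMap K F).injective
  -- the action is `K`-linear
  have hactK : ∀ (g : G) (k : K), g • algebraMap K F k = algebraMap K F k := by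
    intro g k
    rw [IsScalarTower.algebraMap_apply K L F, hact, AlgEquiv.commutes]
  let T : G → F →ₐ[K] F := fun g =>
    { MulSemiringAction.toRingHom G F g with commutes' := fun k => hactK g k }
  have halgsmul : ∀ (g : G) (z : F), IsAlgebraic K z → IsAlgebraic K (g • z) := by
    intro g z hz
    exact hz.algHom (T g)
  have hc : ∀ j : ℕ, ∃ k : K, algebraMap K F k = ∑ g : G, g • (y * algebraMap L F (l ^ j)) := by
    intro j
    apply hfix
    · intro h
      rw [Finset.smul_sum]
      simp only [smul_smul]
      exact Fintype.sum_bijective (fun g => h * g) (Group.mulLeft_bijective h) _ _ fun _ => rfl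
    · rw [← mem_algebraicClosure_iff]
      apply sum_mem
      intro g _
      rw [mem_algebraicClosure_iff]
      apply halgsmul
      apply hy.mul
      exact (Algebra.IsAlgebraic.isAlgebraic (R := K) (l ^ j)).algebraMap
  choose k hk using hc
  have h1 : ∑ g : G, (g • y) * algebraMap L F (q.eval (α g l)) =
      algebraMap L F (∑ j ∈ q.support, q.coeff j * algebraMap K L (k j)) := by
    rw [map_sum]
    have : ∀ j, algebraMap L F (q.coeff j * algebraMap K L (k j)) =
        ∑ g : G, algebraMap L F (q.coeff j) * ((g • y) * algebraMap L F ((α g l) ^ j)) := by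
      intro j
      rw [map_mul, ← IsScalarTower.algebraMap_apply K L F, hk, ← Finset.mul_sum]
      congr 1
      apply Finset.sum_congr rfl
      intro g _
      rw [smul_mul', hact, map_pow (α g)]
    simp only [this]
    rw [Finset.sum_comm]
    apply Finset.sum_congr rfl
    intro g _
    rw [eval_eq_sum, Polynomial.sum_def, map_sum, Finset.mul_sum]
    apply Finset.sum_congr rfl
    intro j _
    rw [map_mul]
    ring
  have h2 : ∑ g : G, (g • y) * algebraMap L F (q.eval (α g l)) =
      ((Finset.univ.filter (fun g : G => α g = 1)).card : F) * (y * algebraMap L F (q.eval l)) := by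
    have : ∀ g : G, (g • y) * algebraMap L F (q.eval (α g l)) =
        if α g = 1 then y * algebraMap L F (q.eval l) else 0 := by
      intro g
      split_ifs with h
      · rw [hyW g h, h]; rfl
      · rw [hq0 _ h, map_zero, mul_zero]
    simp only [this]
    rw [← Finset.sum_filter, Finset.sum_const, nsmul_eq_mul]
  have hcard : ((Finset.univ.filter (fun g : G => α g = 1)).card : F) ≠ 0 := by
    rw [Nat.cast_ne_zero, ← Nat.pos_iff_ne_zero, Finset.card_pos]
    exact ⟨1, by simp⟩
  have hq1' : algebraMap L F (q.eval l) ≠ 0 := by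
    rw [_root_.map_ne_zero]
    exact hq1
  refine ⟨(∑ j ∈ q.support, q.coeff j * algebraMap K L (k j)) /
    (((Finset.univ.filter (fun g : G => α g = 1)).card : L) * q.eval l), ?_⟩
  rw [map_div₀, ← h1, h2, map_mul, map_natCast]
  field_simp

end Pool.Agent.H81R2.BT
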