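import Mathlib
import Pool.Agent.H84.L.S8_W200_IG_HF



/-! # Compositum with a finite field and degrees of constants -/

set_option autoImplicit false

namespace Pool.Agent.W200.IJ

open Polynomial

/- Compositum of a finite Galois extension with a finite field of constants. -/
theorem exists_comp {κ₀ L κ' E F : Type} [Field κ₀] [Field L] [Algebra κ₀ L] [Field κ']
    [Algebra L κ'] [Algebra κ₀ κ'] [IsScalarTower κ₀ L κ'] [Finite κ'] [Field E] [Field F]
    [Algebra E F] [FiniteDimensional E F] [IsGalois E F] [Algebra L F] [Algebra κ₀ E]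
    [Algebra κ₀ F] [IsScalarTower κ₀ E F] [IsScalarTower κ₀ L F] :
    ∃ (N : Type) (_ : Field N) (_ : Algebra E N) (_ : Algebra F N) (_ : IsScalarTower E F N)
      (_ : Algebra κ' N) (_ : FiniteDimensional E N) (_ : IsGalois E N),
      ∀ x : L, algebraMap κ' N (algebraMap L κ' x) = algebraMap F N (algebraMap L F x) := by
  classical
  let Ω := AlgebraicClosure F
  have hLκ : Algebra.IsAlgebraic L κ' := by
    have : Module.Finite L κ' := Module.Finite.of_finite
    exact Algebra.IsAlgebraic.of_finite L κ'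
  let j : κ' →ₐ[L] Ω := IsAlgClosed.lift
  have halg : Algebra.IsAlgebraic E Ω := Algebra.IsAlgebraic.trans E F Ω
  have hcl : IsAlgClosure E Ω := ⟨inferInstance, halg⟩
  have hnorm : Normal E Ω := IsAlgClosure.normal E Ω
  let Es := separableClosure E Ω
  have hTΩ : IsScalarTower κ₀ L Ω := inferInstance
  have hTΩ' : IsScalarTower κ₀ E Ω := inferInstance
  have hjs : ∀ x : κ', (j : κ' →+* Ω) x ∈ Es := by
    intro x
    rw [mem_separableClosure_iff]
    have h4 : IsSeparable κ₀ x := Algebra.IsSeparable.isSeparable κ₀ x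
    have h5 : IsSeparable κ₀ (j x) := h4.map (j.restrictScalars κ₀) (j : κ' →+* Ω).injective
    exact h5.tower_top E
  let jκ : κ' →+* Es := (j : κ' →+* Ω).codRestrict Es hjs
  have hFs : ∀ x : F, algebraMap F Ω x ∈ Es := by
    intro x
    rw [mem_separableClosure_iff]
    have h4 : IsSeparable E x := Algebra.IsSeparable.isSeparable E x
    exact h4.map (IsScalarTower.toAlgHom E F Ω) (algebraMap F Ω).injective
  let jF : F →+* Es := (algebraMap F Ω).codRestrict Es hFs
  have hjF : ∀ x : E, jF (algebraMap E F x) = algebraMap E Es x := by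
    intro x
    apply Subtype.ext
    change algebraMap F Ω (algebraMap E F x) = algebraMap E Ω x
    rw [← IsScalarTower.algebraMap_apply E F Ω]
  let b := Module.finBasis E F
  let S : Set Es := (Set.range fun q => jF (b q)) ∪ Set.range jκ
  have hSf : Finite S := ((Set.finite_range _).union (Set.finite_range _)).to_subtype
  let N : FiniteGaloisIntermediateField E Es := FiniteGaloisIntermediateField.adjoin E S
  have hSN : S ⊆ (N : IntermediateField E Es) := FiniteGaloisIntermediateField.subset_adjoin E S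
  have hFN : ∀ x : F, jF x ∈ (N : IntermediateField E Es) := by
    intro x
    rw [← b.sum_repr x, map_sum]
    refine sum_mem fun q _ => ?_
    rw [Algebra.smul_def, map_mul, hjF]
    exact mul_mem (IntermediateField.algebraMap_mem _ _) (hSN (Or.inl ⟨q, rfl⟩))
  have hκN : ∀ x : κ', jκ x ∈ (N : IntermediateField E Es) := fun x => hSN (Or.inr ⟨x, rfl⟩)
  let _ : Algebra F N := (jF.codRestrict (N : IntermediateField E Es) hFN).toAlgebra
  let _ : Algebra κ' N := (jκ.codRestrict (N : IntermediateField E Es) hκN).toAlgebra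
  have hT : IsScalarTower E F N := IsScalarTower.of_algebraMap_eq fun x => by
    apply Subtype.ext
    exact (hjF x).symm
  refine ⟨N, inferInstance, inferInstance, inferInstance, hT, inferInstance, inferInstance,
    inferInstance, fun x => ?_⟩
  apply Subtype.ext
  apply Subtype.ext
  change j (algebraMap L κ' x) = algebraMap F Ω (algebraMap L F x)
  rw [j.commutes, ← IsScalarTower.algebraMap_apply L F Ω]

/- Elements of small degree lie in a large finite field. -/
theorem fin_const {κ₀ κ' Λ : Type} [Field κ₀] [Finite κ₀] [Field κ'] [Field Λ]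
    [Algebra κ₀ Λ] (ψ : κ' →+* Λ) (B : ℕ)
    (hB : (X ^ (Nat.card κ₀) ^ B.factorial - X : κ'[X]).Splits) (y : Λ)
    (hy : IsAlgebraic κ₀ y) (hd : (minpoly κ₀ y).natDegree ≤ B) : y ∈ ψ.range := by
  cases nonempty_fintype κ₀
  have hint : IsIntegral κ₀ y := hy.isIntegral
  have hfd : FiniteDimensional κ₀ (IntermediateField.adjoin κ₀ {y}) :=
    IntermediateField.adjoin.finiteDimensional hint
  have hfin : Finite (IntermediateField.adjoin κ₀ {y}) :=
    Module.finite_of_finite κ₀
  have := Fintype.ofFinite (IntermediateField.adjoin κ₀ {y})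
  have hcard : Fintype.card (IntermediateField.adjoin κ₀ {y}) =
      Fintype.card κ₀ ^ (minpoly κ₀ y).natDegree := by
    rw [Module.card_eq_pow_finrank (K := κ₀), IntermediateField.adjoin.finrank hint]
  have h1 : y ^ (Nat.card κ₀) ^ B.factorial = y := by
    have h2 : (minpoly κ₀ y).natDegree ∣ B.factorial :=
      Nat.dvd_factorial (minpoly.natDegree_pos hint) hd
    obtain ⟨c, hc⟩ := h2
    have h3 := FiniteField.pow_card_pow c
      (⟨y, IntermediateField.mem_adjoin_simple_self κ₀ y⟩ : IntermediateField.adjoin κ₀ {y})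
    rw [hcard, ← pow_mul, ← hc] at h3
    have h4 := congrArg Subtype.val h3
    rw [Nat.card_eq_fintype_card]
    exact h4
  have hq : 1 < (Nat.card κ₀) ^ B.factorial :=
    Nat.one_lt_pow (Nat.factorial_ne_zero B) Finite.one_lt_card
  refine hB.mem_range_of_isRoot ?_ ?_
  · exact (monic_X_pow_sub (by rw [degree_X]; exact_mod_cast hq)).ne_zero
  · rw [Polynomial.map_sub, Polynomial.map_pow, map_X, IsRoot.def, eval_sub, eval_pow, eval_X, h1,
      sub_self]

/- Degrees of constants are bounded by the order of the Galois group. -/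
theorem deg_bound {κ₀ k F : Type} [Field κ₀] [Field k] [Field F] [Algebra κ₀ k] [Algebra k F]
    [Algebra κ₀ F] [IsScalarTower κ₀ k F] [FiniteDimensional k F] [IsGalois k F]
    (hk : ∀ e : k, IsAlgebraic κ₀ e → e ∈ Set.range (algebraMap κ₀ k)) (y : F)
    (hy : IsAlgebraic κ₀ y) : (minpoly κ₀ y).natDegree ≤ Nat.card (F ≃ₐ[k] F) := by
  classical
  have := Fintype.ofFinite (F ≃ₐ[k] F)
  have hyS : ∀ σ : F ≃ₐ[k] F, σ y ∈ algebraicClosure κ₀ F := fun σ => by
    rw [mem_algebraicClosure_iff]
    exact hy.algHom ((σ : F →ₐ[k] F).restrictScalars κ₀)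
  let f : F[X] := ∏ σ : F ≃ₐ[k] F, (X - C (σ y))
  let fS : (algebraicClosure κ₀ F)[X] := ∏ σ : F ≃ₐ[k] F, (X - C ⟨σ y, hyS σ⟩)
  have hfS : fS.map (algebraMap (algebraicClosure κ₀ F) F) = f := by
    simp only [fS, f]
    rw [Polynomial.map_prod]
    refine Finset.prod_congr rfl fun σ _ => ?_
    rw [Polynomial.map_sub, map_X, map_C]
    rfl
  have hfm : f.Monic := monic_prod_of_monic _ _ fun σ _ => monic_X_sub_C _
  have hinv : ∀ τ : F ≃ₐ[k] F, f.map (τ : F →+* F) = f := by
    intro τ
    simp only [f]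
    rw [Polynomial.map_prod]
    refine Fintype.prod_bijective (fun σ => τ * σ) (Group.mulLeft_bijective τ) _ _ fun σ => ?_
    rw [Polynomial.map_sub, map_X, map_C]
    rfl
  have hlift : f ∈ lifts (algebraMap κ₀ F) := by
    rw [lifts_iff_coeff_lifts]
    intro i
    have h1 : ∀ τ : F ≃ₐ[k] F, τ (f.coeff i) = f.coeff i := by
      intro τ
      nth_rewrite 2 [← hinv τ]
      rw [coeff_map]
      rfl
    obtain ⟨e, he⟩ := IsGalois.mem_bot_iff_fixed (F := k) (E := F) _ |>.2 h1
    have he' : algebraMap k F e = f.coeff i := he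
    have halg : IsAlgebraic κ₀ (f.coeff i) := by
      rw [← hfS, coeff_map]
      exact mem_algebraicClosure_iff.1 (fS.coeff i).2
    rw [← he', isAlgebraic_algebraMap_iff (algebraMap k F).injective] at halg
    obtain ⟨c, rfl⟩ := hk e halg
    exact ⟨c, by rw [← he', ← IsScalarTower.algebraMap_apply]⟩
  obtain ⟨f₀, hf₀, hf₀d, hf₀m⟩ := lifts_and_natDegree_eq_and_monic hlift hfm
  have hroot : aeval y f₀ = 0 := by
    rw [← eval_map_algebraMap, hf₀]
    simp only [f]
    rw [eval_prod]
    refine Finset.prod_eq_zero (Finset.mem_univ 1) ?_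
    rw [eval_sub, eval_X, eval_C]
    exact sub_self y
  have hle := natDegree_le_of_dvd (minpoly.dvd κ₀ y hroot) hf₀m.ne_zero
  refine hle.trans ?_
  rw [hf₀d, Nat.card_eq_fintype_card]
  simp only [f]
  rw [natDegree_prod_of_monic _ _ fun σ _ => monic_X_sub_C _]
  simp

end Pool.Agent.W200.IJ
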