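import Mathlib
import Pool.Agent.H84.L.S8_H391R2_T4_Nod
import Pool.Agent.H84.L.S8_H391R2_T4_Sem
import Pool.Agent.H84.L.S8_TH15_IGP_Ari
import Pool.Agent.H84.L.S8_TH15_IGP_Ext
import Pool.Agent.H84.L.S8_TH15_IGP_TwB
import Pool.Agent.H84.L.S8_TH15_IGP_WrA
import Pool.Agent.H84.L.S8_TH15_IGP_WrB
import Pool.Agent.H84.L.S8_W200_IG_Fam
import Pool.Agent.H84.L.S8_W200_IH_TA
import Pool.Agent.H84.L.S8_W200_IH_TB
import Pool.Agent.H84.L.S8_W200_IH_TC
import Pool.Agent.H84.L.S8_W200_IH_TD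
import Pool.Agent.H84.L.S8_W200_IJ_SA
import Pool.Agent.H84.L.S8_W200_IJ_SC
import Pool.Agent.H84.L.S8_W200_IJ_SD

namespace Pool.Agent.W200.IH
end Pool.Agent.W200.IH
namespace Pool.Agent.W200.IJ
end Pool.Agent.W200.IJ


/-!
Weil restriction of embedding problems: solutions over a field of rational functions.
-/

set_option autoImplicit false

namespace Pool.Agent.TH15.IGP

open MvPolynomial
open Pool.Agent.W200.IJ (desc desc_iff desc_basis exists_dual exists_semi_auto basis_down)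
open Pool.Agent.W200.IH (alg_mono alg_of_alg basis_of_card basis_over)

set_option linter.unusedSectionVars false

section core

variable {k M K N : Type} [Field k] [Field M] [Algebra k M] [FiniteDimensional k M]
  [IsGalois k M]
  [Field K] [IsAlgClosed K] [Algebra M K] [Algebra.IsAlgebraic M K] [Field N]
  [IsAlgClosed N] [Algebra K N] [Algebra M N] [IsScalarTower M K N] [Algebra k N]
  [IsScalarTower k M N] (Δ : Subgroup (M ≃ₐ[k] M))
  {E₁ F : Type} [Field E₁] [Algebra (MvPolynomial Unit M) E₁]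
  [IsFractionRing (MvPolynomial Unit M) E₁]
  [Algebra M E₁] [IsScalarTower M (MvPolynomial Unit M) E₁] [Field F] [Algebra E₁ F]
  [Algebra M F] [IsScalarTower M E₁ F] [FiniteDimensional E₁ F] [IsGalois E₁ F]
  {E E₀ : Type} [Group E] [Finite E] [Group E₀] {α : E₀ →* (M ≃ₐ[k] M)}
  {π : E →* (M ≃ₐ[k] M)} (D : IndData (M ≃ₐ[k] M) E E₀ Δ α π)
  (act : E₀ →* (F ≃+* F))

/- The relation between automorphisms and elements of the group. -/
def RlI (π : E →* (M ≃ₐ[k] M)) (φ : E → (F →+* N)) (f : N → N) (x : E) : Prop :=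
  (∀ a : M, f (algebraMap M N a) = algebraMap M N (π x a)) ∧
  ∀ e y, f (φ e y) = φ (x * e) y

include D in
/- The realisation over a field of rational functions. -/
theorem ind_core (hπ : Function.Surjective π)
    (hreg : ∀ y : F, IsAlgebraic M y → y ∈ Set.range (algebraMap M F))
    (hact : Function.Injective act)
    (hc : ∀ g (c : M), act g (algebraMap M F c) = algebraMap M F (α g c))
    (ht : ∀ g, act g (algebraMap E₁ F (algebraMap (MvPolynomial Unit M) E₁ (X ()))) =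
      algebraMap E₁ F (algebraMap (MvPolynomial Unit M) E₁ (X ())))
    (hlift : ∀ g, α g = 1 → ∃ b : F ≃ₐ[E₁] F, ∀ y, b y = act g y)
    (hlift' : ∀ b : F ≃ₐ[E₁] F, ∃ g, α g = 1 ∧ ∀ y, b y = act g y)
    (Z : Unit ⊕ ((M ≃ₐ[k] M) × ((M ≃ₐ[k] M) ⧸ Δ)) → N) (hZ : IsTranscendenceBasis K Z) :
    ∃ (E' : Type) (_ : Field E')
      (_ : Algebra (MvPolynomial (Unit ⊕ ((M ≃ₐ[k] M) × ((M ≃ₐ[k] M) ⧸ Δ))) k) E')
      (_ : IsFractionRing (MvPolynomial (Unit ⊕ ((M ≃ₐ[k] M) × ((M ≃ₐ[k] M) ⧸ Δ))) k) E')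
      (_ : Algebra k E')
      (_ : IsScalarTower k (MvPolynomial (Unit ⊕ ((M ≃ₐ[k] M) × ((M ≃ₐ[k] M) ⧸ Δ))) k) E')
      (F' : Type) (_ : Field F') (_ : Algebra E' F') (_ : Algebra M F') (_ : Algebra k F')
      (_ : IsScalarTower k E' F') (_ : IsScalarTower k M F') (_ : FiniteDimensional E' F')
      (_ : IsGalois E' F') (γ : (F' ≃ₐ[E'] F') ≃* E),
      (∀ (σ : F' ≃ₐ[E'] F') (x : M), σ (algebraMap M F' x) = algebraMap M F' (π (γ σ) x)) ∧
      (∀ y : F', IsAlgebraic M y → y ∈ Set.range (algebraMap M F')) := by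
  classical
  have := Fintype.ofFinite (M ≃ₐ[k] M)
  obtain ⟨ω, ω', hω⟩ := exists_dual k M
  obtain ⟨φ, hφc, hφt, hφd⟩ := exists_fam (K := K) (N := N) (E₁ := E₁) Δ D act hπ hc ht Z hZ
  have hcomb := comb (K := K) (N := N) (E₁ := E₁) Δ D act hπ hreg hlift Z hZ φ hφc hφt hφd
  have hactx : ∀ g g' : E₀, (∀ y, act g y = act g' y) → g = g' := fun g g' h =>
    hact (RingEquiv.ext h)
  -- values on the base
  have hmove : ∀ (σ : N ≃ₐ[k] N) (ρ : M ≃ₐ[k] M),
      (∀ a : M, σ (algebraMap M N a) = algebraMap M N (ρ a)) →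
      (∀ v, σ (desc ω Z v) = desc ω Z v) →
      ∀ (x : E), π x = ρ → ∀ (f : E) (e : E₁), σ (φ f (algebraMap E₁ F e)) =
        φ (x * f) (algebraMap E₁ F e) := by
    intro σ ρ hρ hσ x hx f
    have h1 := (desc_iff ω ω' hω Z (σ : N →+* N) ρ hρ).1 hσ
    refine hom_ext_E (k := M) ((σ : N →+* N).comp ((φ f).comp (algebraMap E₁ F)))
      ((φ (x * f)).comp (algebraMap E₁ F)) (fun c => ?_) ?_
    · change σ (φ f (algebraMap E₁ F (algebraMap M E₁ c))) =
        φ (x * f) (algebraMap E₁ F (algebraMap M E₁ c))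
      rw [← IsScalarTower.algebraMap_apply M E₁ F, hφc, hφc, hρ, map_mul, hx]
      rfl
    · change σ (φ f _) = φ (x * f) _
      rw [hφt, hφt]
      have h2 := xv_move Z (σ : N →+* N) ρ h1.2 (QuotientGroup.mk (π f))
      refine h2.trans ?_
      rw [map_mul, hx]
      rfl
  -- a basis of `F`
  let bF := Module.finBasis E₁ F
  let S : Set N := ⋃ e : E, Set.range fun i => φ e (bF i)
  have hSf : S.Finite := Set.finite_iUnion fun w => Set.finite_range _
  have hdesc : IsTranscendenceBasis K (desc ω Z) := desc_basis ω ω' hω Z hZ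
  refine arith_gen (k := k) (M := M) (K := K) (N := N) E π (desc ω Z) hdesc (RlI π φ) S hSf
    ?_ ?_ (fun f x h => h.1) ?_ ?_ ?_ ?_
  · -- uniqueness
    intro f x y hx hy
    have hxy : π x = π y := by
      apply AlgEquiv.ext
      intro a
      apply (algebraMap M N).injective
      rw [← hx.1, hy.1]
    have ha : π (y * x⁻¹) = 1 := by rw [map_mul, map_inv, hxy, mul_inv_cancel]
    have h1 : y * x⁻¹ = 1 := by
      refine D.inj _ ha (fun g => ?_)
      have hd : π (g⁻¹ * (y * x⁻¹) * g) ∈ Δ := by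
        rw [IndData.conj_mem _ g ha]
        exact Δ.one_mem
      apply hactx
      intro z
      have h2 := hx.2 (x⁻¹ * g) z
      rw [hy.2 (x⁻¹ * g) z, mul_inv_cancel_left] at h2
      have h3 : y * (x⁻¹ * g) = g * (g⁻¹ * (y * x⁻¹) * g) := by group
      rw [h3, hφd g _ hd] at h2
      rw [map_one]
      exact (φ g).injective h2
    exact (mul_inv_eq_one.1 h1).symm
  · -- products
    intro f g x y hx hy
    refine ⟨fun a => ?_, fun e z => ?_⟩
    · change f (g _) = _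
      rw [hy.1, hx.1, map_mul]
      rfl
    · change f (g _) = _
      rw [hy.2, hx.2, mul_assoc]
  · -- existence
    intro σ hσ
    obtain ⟨ρ, hρ⟩ : ∃ ρ : M ≃ₐ[k] M, ∀ a : M, σ (algebraMap M N a) = algebraMap M N (ρ a) :=
      ⟨σ.restrictNormal M, fun a => (AlgEquiv.restrictNormal_commutes σ M a).symm⟩
    obtain ⟨e₁, he₁⟩ := hπ ρ
    have h1 : ∀ f : E, ∃ g : E₀, α g = 1 ∧ ∀ y, σ (φ (e₁⁻¹ * f) y) = φ f (act g y) := by
      intro f
      obtain ⟨b, hb⟩ := emb_unique (E := E₁) (φ f) ((σ : N →+* N).comp (φ (e₁⁻¹ * f)))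
        (fun e => by
          have h2 := hmove σ ρ hρ hσ e₁ he₁ (e₁⁻¹ * f) e
          rw [mul_inv_cancel_left] at h2
          exact h2)
      obtain ⟨g, hg, hg'⟩ := hlift' b
      exact ⟨g, hg, fun y => by rw [← hg']; exact hb y⟩
    choose c hc1 hc2 using h1
    have hc3 : ∀ f d, π d ∈ Δ → c (f * d) = (D.q d)⁻¹ * c f * D.q d := by
      intro f d hd
      have h2 : D.q d * c (f * d) = c f * D.q d := by
        apply hactx
        intro y
        apply (φ f).injective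
        rw [map_mul, map_mul]
        change φ f (act (D.q d) (act (c (f * d)) y)) = φ f (act (c f) (act (D.q d) y))
        rw [← hφd f d hd, ← hc2, ← hc2, ← mul_assoc, hφd _ d hd]
      rw [mul_assoc, ← h2, inv_mul_cancel_left]
    obtain ⟨a, γ, ha, -, h2, -⟩ := hcomb c hc1 hc3 Finset.univ
    refine ⟨a * e₁, fun z => ?_, fun e y => ?_⟩
    · rw [hρ, map_mul, ha, one_mul, he₁]
    · have h3 := (h2 (e₁ * e) (Finset.mem_univ _)).1
      have h4 := hc2 (e₁ * e) y
      rw [inv_mul_cancel_left] at h4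
      rw [h4, ← h3, ← hφd (e₁ * e) _ (by
        rw [IndData.conj_mem a (e₁ * e) ha]
        exact Δ.one_mem)]
      congr 1
      group
  · -- geometric automorphisms
    intro x hx
    have hmem : ∀ f : E, π (f⁻¹ * x * f) ∈ Δ := fun f => by
      rw [IndData.conj_mem x f hx]
      exact Δ.one_mem
    obtain ⟨a, γ, ha, hγ, h2, -⟩ := hcomb (fun f => D.q (f⁻¹ * x * f))
      (fun f => by rw [D.comp _ (hmem f), IndData.conj_mem x f hx])
      (fun f d hd => by
        rw [← D.conj _ d (hmem f) hd]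
        congr 1
        group) Finset.univ
    have hγM : ∀ a : M, γ (algebraMap M N a) = algebraMap M N a := fun a => by
      rw [IsScalarTower.algebraMap_apply M K N]
      exact γ.commutes _
    refine ⟨γ, (desc_iff ω ω' hω Z (γ : N →+* N) 1 hγM).2 ⟨hγ _, fun δ j => ?_⟩,
      fun z => ?_, fun e y => ?_⟩
    · rw [one_mul]
      exact hγ _
    · rw [hx]
      exact hγM z
    · rw [(h2 e (Finset.mem_univ _)).2, ← hφd e _ (hmem e)]
      congr 1
      group
  · -- arithmetic automorphisms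
    intro ρ
    let e : Unit ⊕ ((M ≃ₐ[k] M) × ((M ≃ₐ[k] M) ⧸ Δ)) ≃
        Unit ⊕ ((M ≃ₐ[k] M) × ((M ≃ₐ[k] M) ⧸ Δ)) :=
      Equiv.sumCongr (Equiv.refl _) (Equiv.prodCongr (Equiv.mulLeft ρ) (Equiv.refl _))
    have hZM : IsTranscendenceBasis M Z := basis_down Z hZ
    obtain ⟨σ, hσ, hσZ⟩ := exists_semi_auto hZM (hZM.comp_equiv e) ρ
    refine ⟨σ, (desc_iff ω ω' hω Z (σ : N →+* N) ρ hσ).2 ⟨hσZ (Sum.inl ()), fun γ j => ?_⟩, hσ⟩
    exact hσZ (Sum.inr (γ, j))
  · -- finiteness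
    intro σ hσ hS hσM
    refine ⟨fun a => by rw [map_one]; exact hσM a, fun e y => ?_⟩
    rw [one_mul]
    have h1 := hmove σ 1 (fun a => hσM a) hσ 1 (map_one π) e
    rw [one_mul] at h1
    have h2 : ∀ i, σ (φ e (bF i)) = φ e (bF i) := fun i =>
      hS _ (Set.mem_iUnion.2 ⟨e, ⟨i, rfl⟩⟩)
    rw [← bF.sum_repr y, map_sum, map_sum]
    refine Finset.sum_congr rfl fun i _ => ?_
    rw [Algebra.smul_def, map_mul, map_mul, h1, h2]

end core

end Pool.Agent.TH15.IGP
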