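import Mathlib
import Pool.Agent.H84.L.S8_H391R2_T4_Blueprint
import Pool.Agent.H84.L.S8_H391R2_T4_DegN
import Pool.Agent.H84.L.S8_H391R2_T4_Red
import Pool.Agent.H84.L.S8_TH15_IGP_WrB
import Pool.Agent.H84.L.S8_W200_IG_HF
import Pool.Agent.H84.L.S8_W200_IJ_BC

namespace Pool.Agent.H391R2.T4
end Pool.Agent.H391R2.T4
namespace Pool.Agent.W200.IJ
end Pool.Agent.W200.IJ


/-!
Regular solutions of permutational wreath product embedding problems.
-/

set_option autoImplicit false

namespace Pool.Agent.TH15.IGP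

open MvPolynomial
open Pool.Agent.H391R2.T4 (RegSol SolOver HilbField)
open Pool.Agent.W200.IJ (taskA)

set_option linter.unusedSectionVars false

instance finite_pw (B Ω H : Type) [Group B] [Group H] [MulAction H Ω] [Finite B] [Finite Ω]
    [Finite H] : Finite (PW B Ω H) :=
  Finite.of_equiv _ SemidirectProduct.equivProd.symm

/- The field `k(t)` as the field of rational functions in one variable. -/
theorem frac_unit (k E : Type) [Field k] [Field E] [Algebra (Polynomial k) E]
    [IsFractionRing (Polynomial k) E] [Algebra k E] [IsScalarTower k (Polynomial k) E] :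
    ∃ (_ : Algebra (MvPolynomial Unit k) E) (_ : IsFractionRing (MvPolynomial Unit k) E),
      IsScalarTower k (MvPolynomial Unit k) E := by
  let e : Polynomial k ≃+* MvPolynomial Unit k :=
    (MvPolynomial.uniqueAlgEquiv k Unit).symm.toRingEquiv
  have h1 := IsLocalization.isLocalization_of_base_ringEquiv (nonZeroDivisors (Polynomial k)) E e
  rw [MulEquivClass.map_nonZeroDivisors] at h1
  refine ⟨((algebraMap (Polynomial k) E).comp (e.symm : _ →+* _)).toAlgebra, h1, ?_⟩
  refine @IsScalarTower.of_algebraMap_eq _ _ _ _ _ _ _ (_) _ fun c => ?_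
  change _ = algebraMap (Polynomial k) E (e.symm (algebraMap k _ c))
  have h2 : e.symm (algebraMap k (MvPolynomial Unit k) c) = algebraMap k (Polynomial k) c :=
    (MvPolynomial.uniqueAlgEquiv k Unit).commutes c
  rw [h2]
  exact IsScalarTower.algebraMap_apply k (Polynomial k) E c

theorem ratFunc_unit (k : Type) [Field k] :
    ∃ (_ : Algebra (MvPolynomial Unit k) (RatFunc k))
      (_ : IsFractionRing (MvPolynomial Unit k) (RatFunc k)),
      IsScalarTower k (MvPolynomial Unit k) (RatFunc k) :=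
  frac_unit k (RatFunc k)

/- The wreath product over a field of rational functions. -/
theorem pw_gen (k₀ k M B Ω : Type) [Field k₀] [Field k] [Algebra k₀ k] [Field M] [Algebra k M]
    [FiniteDimensional k M]
    [IsGalois k M] [Group B] [Finite Ω] [MulAction (M ≃ₐ[k] M) Ω]
    (hB : RegSol k₀ k₀ B 1) :
    ∃ (E' : Type) (_ : Field E') (_ : Algebra (MvPolynomial (Unit ⊕ ((M ≃ₐ[k] M) × Ω)) k) E')
      (_ : IsFractionRing (MvPolynomial (Unit ⊕ ((M ≃ₐ[k] M) × Ω)) k) E') (_ : Algebra k E')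
      (_ : IsScalarTower k (MvPolynomial (Unit ⊕ ((M ≃ₐ[k] M) × Ω)) k) E')
      (F' : Type) (_ : Field F') (_ : Algebra E' F') (_ : Algebra M F') (_ : Algebra k F')
      (_ : IsScalarTower k E' F') (_ : IsScalarTower k M F') (_ : FiniteDimensional E' F')
      (_ : IsGalois E' F') (γ : (F' ≃ₐ[E'] F') ≃* PW B Ω (M ≃ₐ[k] M)),
      (∀ (σ : F' ≃ₐ[E'] F') (x : M), σ (algebraMap M F' x) = algebraMap M F' ((γ σ).right x)) ∧
      (∀ y : F', IsAlgebraic M y → y ∈ Set.range (algebraMap M F')) := by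
  classical
  obtain ⟨F, iF, iA, iL, iK, t1, t2, fd, gal, β, -, hreg⟩ := hB
  have hLK : iL = iK := Algebra.algebra_ext iL iK (fun x => by
    have h4 := @IsScalarTower.algebraMap_apply k₀ k₀ F _ _ _ _ iL iK t2 x
    exact h4.symm)
  subst hLK
  obtain ⟨aR, hfr, hT⟩ := ratFunc_unit k₀
  let V := Unit ⊕ ((M ≃ₐ[k] M) × Ω)
  let K := AlgebraicClosure M
  let Q := FractionRing (MvPolynomial V K)
  let N := AlgebraicClosure Q
  have hZ0 : IsTranscendenceBasis K (MvPolynomial.X : V → MvPolynomial V K) :=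
    IsTranscendenceBasis.mvPolynomial' V K
  have hZ1 : IsTranscendenceBasis K (algebraMap (MvPolynomial V K) Q ∘ MvPolynomial.X) := by
    have : Algebra.IsAlgebraic (MvPolynomial V K) Q := IsFractionRing.comap_isAlgebraic_iff.2
      (Algebra.IsAlgebraic.of_finite Q Q)
    exact hZ0.algebraMap_comp
  have hZ2 : IsTranscendenceBasis K (algebraMap Q N ∘ (algebraMap (MvPolynomial V K) Q ∘
      MvPolynomial.X)) := hZ1.algebraMap_comp
  let _ : Algebra k₀ N := ((algebraMap k N).comp (algebraMap k₀ k)).toAlgebra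
  have hT2 : IsScalarTower k₀ k N := IsScalarTower.of_algebraMap_eq fun x => rfl
  exact wr_core (k₀ := k₀) (k := k) (M := M) (K := K) (N := N) (E := RatFunc k₀) (F := F)
    hreg β _ hZ2

/- Regular solutions over `K(t)`. -/
theorem pw_reg (k₀ k M B Ω : Type) [Field k₀] [Field k] [Algebra k₀ k] [Infinite k] [Field M]
    [Algebra k M] [FiniteDimensional k M] [IsGalois k M] [Group B] [Finite B] [Finite Ω]
    [MulAction (M ≃ₐ[k] M) Ω] (hB : RegSol k₀ k₀ B 1) :
    RegSol k M (PW B Ω (M ≃ₐ[k] M)) SemidirectProduct.rightHom := by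
  obtain ⟨E, a1, a2, a3, a4, a5, F, b1, b2, b3, b4, b5, b6, b7, b8, γ, hγ1, hγ2⟩ :=
    pw_gen k₀ k M B Ω hB
  exact taskA k M (PW B Ω (M ≃ₐ[k] M)) SemidirectProduct.rightHom
    (Unit ⊕ ((M ≃ₐ[k] M) × Ω)) E F γ hγ1 hγ2


end Pool.Agent.TH15.IGP
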