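import Mathlib
import Pool.Agent.H84.L.S8_H391R2_T4_Blueprint
import Pool.Agent.H84.L.S8_H391R2_T4_DegN
import Pool.Agent.H84.L.S8_H391R2_T4_Nod
import Pool.Agent.H84.L.S8_H391R2_T4_Red
import Pool.Agent.H84.L.S8_H391R2_T4_Sem
import Pool.Agent.H84.L.S8_TH15_IGP_Fin
import Pool.Agent.H84.L.S8_TH15_IGP_TwB
import Pool.Agent.H84.L.S8_TH15_IGP_TwC
import Pool.Agent.H84.L.S8_TH15_IGP_WrC
import Pool.Agent.H84.L.S8_W200_IG_Fam
import Pool.Agent.H84.L.S8_W200_IH_TB
import Pool.Agent.H84.L.S8_W200_IJ_BC
import Pool.Agent.H84.L.S8_W200_IJ_SA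

namespace Pool.Agent.H391R2.T4
end Pool.Agent.H391R2.T4
namespace Pool.Agent.W200.IJ
end Pool.Agent.W200.IJ


/-!
Weil restriction of embedding problems.
-/

set_option autoImplicit false

namespace Pool.Agent.TH15.IGP

open MvPolynomial
open Pool.Agent.H391R2.T4 (RegSol SolOver HilbField)
open Pool.Agent.W200.IJ (taskA taskA_empty)

set_option linter.unusedSectionVars false

/- The homomorphism to the large Galois group. -/
noncomputable def bigHom {K L : Type} [Field K] [Field L] [Algebra K L]
    (K₁ : IntermediateField K L) {E₀ : Type} [Group E₀] (α : E₀ →* (L ≃ₐ[K₁] L)) :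
    E₀ →* (L ≃ₐ[K] L) :=
  (AlgEquiv.restrictScalarsHom K).comp α


/- Homomorphisms agreeing on the variable agree on the field of rational functions. -/
theorem hom_ext_any {k E N : Type} [Field k] [Field E] [Algebra (MvPolynomial Unit k) E]
    [IsFractionRing (MvPolynomial Unit k) E] [Algebra k E] [IsScalarTower k (MvPolynomial Unit k) E]
    [Field N] (f g : E →+* N)
    (hC : ∀ c : k, f (algebraMap k E c) = g (algebraMap k E c))
    (hX : f (algebraMap (MvPolynomial Unit k) E (X ())) =
      g (algebraMap (MvPolynomial Unit k) E (X ()))) : ∀ e, f e = g e := by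
  have h1 : f.comp (algebraMap (MvPolynomial Unit k) E) =
      g.comp (algebraMap (MvPolynomial Unit k) E) := by
    apply MvPolynomial.ringHom_ext
    · intro c
      have h2 := hC c
      rw [IsScalarTower.algebraMap_apply k (MvPolynomial Unit k) E] at h2
      exact h2
    · intro i
      exact hX
  intro e
  obtain ⟨r, s, _, rfl⟩ := IsFractionRing.div_surjective (MvPolynomial Unit k) e
  rw [map_div₀, map_div₀]
  have h2 := fun r => congrArg (fun h : MvPolynomial Unit k →+* N => h r) h1
  simp only [RingHom.comp_apply] at h2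
  rw [h2, h2]

/- The field of rational functions over `L` inside a regular extension of `K₁(t)`. -/
theorem exists_E₁ (K₁ L Q F : Type) [Field K₁] [Field L] [Algebra K₁ L] [Algebra.IsAlgebraic K₁ L]
    [Field Q] [Algebra (Polynomial K₁) Q] [IsFractionRing (Polynomial K₁) Q] [Algebra K₁ Q]
    [IsScalarTower K₁ (Polynomial K₁) Q]
    [Field F] [Algebra Q F] [Algebra L F] [Algebra K₁ F] [IsScalarTower K₁ Q F]
    [IsScalarTower K₁ L F] [FiniteDimensional Q F] [IsGalois Q F] :
    ∃ (E₁ : Type) (_ : Field E₁) (_ : Algebra (MvPolynomial Unit L) E₁)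
      (_ : IsFractionRing (MvPolynomial Unit L) E₁) (_ : Algebra L E₁)
      (_ : IsScalarTower L (MvPolynomial Unit L) E₁) (_ : Algebra E₁ F) (_ : IsScalarTower L E₁ F)
      (_ : Algebra Q E₁) (_ : IsScalarTower Q E₁ F) (_ : FiniteDimensional E₁ F)
      (_ : IsGalois E₁ F),
      algebraMap E₁ F (algebraMap (MvPolynomial Unit L) E₁ (X ())) =
        algebraMap Q F (algebraMap (Polynomial K₁) Q Polynomial.X) := by
  classical
  obtain ⟨tF, htF⟩ : ∃ tF, tF = algebraMap Q F (algebraMap (Polynomial K₁) Q Polynomial.X) :=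
    ⟨_, rfl⟩
  rw [← htF]
  have h1 : Transcendental K₁ (algebraMap (Polynomial K₁) Q Polynomial.X) :=
    (transcendental_algebraMap_iff (IsFractionRing.injective (Polynomial K₁) Q)).2
      (Polynomial.transcendental_X K₁)
  have h2 : Transcendental K₁ tF := by
    rw [htF]
    exact (transcendental_algebraMap_iff (algebraMap Q F).injective).2 h1
  have h3 : AlgebraicIndependent K₁ (fun _ : Unit => tF) :=
    algebraicIndependent_unique_type_iff.2 h2
  have h4 : AlgebraicIndependent L (fun _ : Unit => tF) := h3.extendScalars L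
  have hinj : Function.Injective (aeval (fun _ : Unit => tF) : MvPolynomial Unit L →ₐ[L] F) :=
    algebraicIndependent_iff_injective_aeval.1 h4
  let E₁ := FractionRing (MvPolynomial Unit L)
  let g : E₁ →ₐ[L] F := IsFractionRing.liftAlgHom (K := E₁) hinj
  have hg : ∀ r : MvPolynomial Unit L, g (algebraMap _ E₁ r) = aeval (fun _ : Unit => tF) r :=
    fun r => IsFractionRing.lift_algebraMap hinj r
  let aEF : Algebra E₁ F := g.toRingHom.toAlgebra
  have hLEF : IsScalarTower L E₁ F := IsScalarTower.of_algebraMap_eq fun c => (g.commutes c).symm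
  -- the map from `K₁(t)`
  let pK : Polynomial K₁ →+* E₁ := Polynomial.eval₂RingHom
    ((algebraMap L E₁).comp (algebraMap K₁ L)) (algebraMap (MvPolynomial Unit L) E₁ (X ()))
  have hpK : (algebraMap E₁ F).comp pK = (algebraMap Q F).comp (algebraMap (Polynomial K₁) Q) := by
    apply Polynomial.ringHom_ext
    · intro c
      change g (pK (Polynomial.C c)) = algebraMap Q F (algebraMap (Polynomial K₁) Q (Polynomial.C c))
      have h5 : pK (Polynomial.C c) = algebraMap L E₁ (algebraMap K₁ L c) :=
        Polynomial.eval₂_C _ _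
      rw [h5, g.commutes, ← IsScalarTower.algebraMap_apply K₁ L F,
        IsScalarTower.algebraMap_apply K₁ Q F, IsScalarTower.algebraMap_apply K₁ (Polynomial K₁) Q]
      rfl
    · change g (pK Polynomial.X) = _
      have h5 : pK Polynomial.X = algebraMap (MvPolynomial Unit L) E₁ (X ()) :=
        Polynomial.eval₂_X _ _
      rw [h5, hg, aeval_X, htF]
      rfl
  have hpKinj : Function.Injective pK := by
    have h5 : Function.Injective ((algebraMap E₁ F).comp pK) := by
      rw [hpK]
      exact (algebraMap Q F).injective.comp (IsFractionRing.injective (Polynomial K₁) Q)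
    exact fun a b hab => h5 (congrArg (algebraMap E₁ F) hab)
  let κ : Q →+* E₁ := IsFractionRing.lift hpKinj
  have hκ : ∀ p : Polynomial K₁, κ (algebraMap (Polynomial K₁) Q p) = pK p := fun p =>
    IsFractionRing.lift_algebraMap hpKinj p
  let aQE : Algebra Q E₁ := κ.toAlgebra
  have hT : IsScalarTower Q E₁ F := IsScalarTower.of_algebraMap_eq fun x => by
    obtain ⟨a, b, _, rfl⟩ := IsFractionRing.div_surjective (Polynomial K₁) x
    change algebraMap Q F _ = algebraMap E₁ F (κ _)
    rw [map_div₀, map_div₀, map_div₀, hκ, hκ]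
    have h5 := fun p => congrArg (fun h : Polynomial K₁ →+* F => h p) hpK
    simp only [RingHom.comp_apply] at h5
    rw [h5, h5]
  exact ⟨E₁, inferInstance, inferInstance, inferInstance, inferInstance, inferInstance, aEF, hLEF,
    aQE, hT, FiniteDimensional.right Q E₁ F, IsGalois.tower_top_of_isGalois Q E₁ F, by
      change g _ = _
      rw [hg, aeval_X]⟩

section ind

variable (K L : Type) [Field K] [Field L] [Algebra K L] [FiniteDimensional K L] [IsGalois K L]
  (K₁ : IntermediateField K L) (E₀ : Type) [Group E₀] (α : E₀ →* (L ≃ₐ[K₁] L))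
  (E : Type) [Group E] [Finite E] (π : E →* (L ≃ₐ[K] L))

/- Weil restriction over a field of rational functions in several variables. -/
theorem ind_gen (hπ : Function.Surjective π)
    (D : IndData (L ≃ₐ[K] L) E E₀ K₁.fixingSubgroup (bigHom K₁ α) π) (h : RegSol K₁ L E₀ α) :
    ∃ (V : Type) (_ : Finite V) (E' : Type) (_ : Field E') (_ : Algebra (MvPolynomial V K) E')
      (_ : IsFractionRing (MvPolynomial V K) E') (_ : Algebra K E')
      (_ : IsScalarTower K (MvPolynomial V K) E')
      (F' : Type) (_ : Field F') (_ : Algebra E' F') (_ : Algebra L F') (_ : Algebra K F')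
      (_ : IsScalarTower K E' F') (_ : IsScalarTower K L F') (_ : FiniteDimensional E' F')
      (_ : IsGalois E' F') (γ : (F' ≃ₐ[E'] F') ≃* E),
      (∀ (σ : F' ≃ₐ[E'] F') (x : L), σ (algebraMap L F' x) = algebraMap L F' (π (γ σ) x)) ∧
      (∀ y : F', IsAlgebraic L y → y ∈ Set.range (algebraMap L F')) := by
  classical
  obtain ⟨F, iF, iA, iL, iK, t1, t2, fd, gal, β, hβ, hreg⟩ := h
  obtain ⟨E₁, j1, j2, j3, j4, j5, j6, j7, j8, j9, j10, j11, ht⟩ :=
    exists_E₁ K₁ L (RatFunc K₁) F
  let act : E₀ →* (F ≃+* F) := MonoidHom.mk' (fun g => ((β.symm g : F ≃ₐ[RatFunc K₁] F) : F ≃+* F))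
    (fun a b => by
      apply RingEquiv.ext
      intro y
      rw [map_mul]
      rfl)
  have hact : ∀ g y, act g y = β.symm g y := fun g y => rfl
  have hext : ∀ (f : F →+* F), (∀ c : L, f (algebraMap L F c) = algebraMap L F c) →
      f (algebraMap E₁ F (algebraMap (MvPolynomial Unit L) E₁ (X ()))) =
        algebraMap E₁ F (algebraMap (MvPolynomial Unit L) E₁ (X ())) →
      ∀ e : E₁, f (algebraMap E₁ F e) = algebraMap E₁ F e := by
    intro f hf1 hf2
    refine hom_ext_any (k := L) (f.comp (algebraMap E₁ F)) (algebraMap E₁ F) (fun c => ?_) hf2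
    rw [RingHom.comp_apply, ← IsScalarTower.algebraMap_apply L E₁ F, hf1]
  have htt : ∀ g, act g (algebraMap E₁ F (algebraMap (MvPolynomial Unit L) E₁ (X ()))) =
      algebraMap E₁ F (algebraMap (MvPolynomial Unit L) E₁ (X ())) := by
    intro g
    rw [ht, hact, AlgEquiv.commutes]
  have hc : ∀ g (c : L), act g (algebraMap L F c) = algebraMap L F (bigHom K₁ α g c) := by
    intro g c
    rw [hact, hβ, MulEquiv.apply_symm_apply]
    rfl
  let V := Unit ⊕ ((L ≃ₐ[K] L) × ((L ≃ₐ[K] L) ⧸ K₁.fixingSubgroup))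
  let K' := AlgebraicClosure L
  let Q := FractionRing (MvPolynomial V K')
  let N := AlgebraicClosure Q
  have hZ0 : IsTranscendenceBasis K' (MvPolynomial.X : V → MvPolynomial V K') :=
    IsTranscendenceBasis.mvPolynomial' V K'
  have hZ1 : IsTranscendenceBasis K' (algebraMap (MvPolynomial V K') Q ∘ MvPolynomial.X) := by
    have : Algebra.IsAlgebraic (MvPolynomial V K') Q := IsFractionRing.comap_isAlgebraic_iff.2
      (Algebra.IsAlgebraic.of_finite Q Q)
    exact hZ0.algebraMap_comp
  have hZ2 : IsTranscendenceBasis K' (algebraMap Q N ∘ (algebraMap (MvPolynomial V K') Q ∘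
      MvPolynomial.X)) := hZ1.algebraMap_comp
  obtain ⟨E', a1, a2, a3, a4, a5, F', b1, b2, b3, b4, b5, b6, b7, b8, γ, hγ1, hγ2⟩ :=
    ind_core (k := K) (M := L) (K := K') (N := N) K₁.fixingSubgroup (E₁ := E₁) (F := F) D act hπ
      hreg (fun g g' hgg => by
        apply β.symm.injective
        apply AlgEquiv.ext
        intro y
        exact congrArg (fun f : F ≃+* F => f y) hgg) hc htt
      (fun g hg => by
        refine ⟨AlgEquiv.ofRingEquiv (f := act g) (hext (act g : F →+* F) (fun c => ?_) (htt g)),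
          fun y => rfl⟩
        change act g _ = _
        rw [hc, hg]
        rfl)
      (fun b => by
        refine ⟨β (b.restrictScalars (RatFunc K₁)), ?_, fun y => ?_⟩
        · apply AlgEquiv.ext
          intro x
          apply (algebraMap L F).injective
          have h1 := hβ (b.restrictScalars (RatFunc K₁)) x
          have h2 : b (algebraMap L F x) = algebraMap L F x := by
            rw [IsScalarTower.algebraMap_apply L E₁ F, b.commutes]
          exact h1.symm.trans h2
        · rw [hact, MulEquiv.symm_apply_apply]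
          rfl) _ hZ2
  exact ⟨V, inferInstance, E', a1, a2, a3, a4, a5, F', b1, b2, b3, b4, b5, b6, b7, b8, γ, hγ1, hγ2⟩

/- Weil restriction for regular solutions over infinite fields. -/
theorem ind_reg [Infinite K] (hπ : Function.Surjective π)
    (D : IndData (L ≃ₐ[K] L) E E₀ K₁.fixingSubgroup (bigHom K₁ α) π) (h : RegSol K₁ L E₀ α) :
    RegSol K L E π := by
  obtain ⟨V, hV, E', a1, a2, a3, a4, a5, F', b1, b2, b3, b4, b5, b6, b7, b8, γ, hγ1, hγ2⟩ :=
    ind_gen K L K₁ E₀ α E π hπ D h
  exact taskA K L E π V E' F' γ hγ1 hγ2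

end ind

/- Over a finite field `κ` it is enough to solve the problem over `κ(s)`. -/
theorem fin_of_inf (κ L E : Type) [Field κ] [Finite κ] [Field L] [Algebra κ L]
    [FiniteDimensional κ L] [IsGalois κ L] [Group E] [Finite E] (π : E →* (L ≃ₐ[κ] L))
    (H : ∀ (M : Type) [Field M] [Algebra (RatFunc κ) M] [FiniteDimensional (RatFunc κ) M]
      [IsGalois (RatFunc κ) M] (γM : (M ≃ₐ[RatFunc κ] M) ≃* (L ≃ₐ[κ] L)),
      RegSol (RatFunc κ) M E (γM.symm.toMonoidHom.comp π)) : RegSol κ L E π := by
  classical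
  obtain ⟨M, m1, m2, m3, m4, m5, m6, m7, m8, γM, hγM, hregM⟩ := taskA_empty κ L (L ≃ₐ[κ] L)
    (MonoidHom.id _) (fun a b h => h) (fun x hx => by
      rw [IsGalois.mem_range_algebraMap_iff_fixed]
      exact hx)
  obtain ⟨F, i1, i2, i3, i4, i5, i6, i7, i8, γ, hγ1, hγ2⟩ := H M γM
  obtain ⟨aR, hfr, hT⟩ := ratFunc_unit (RatFunc κ)
  exact fin_red κ L E π M γM hγM hregM Unit (RatFunc (RatFunc κ)) F γ (fun σ x => hγ1 σ x) hγ2

end Pool.Agent.TH15.IGP
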