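import Mathlib



set_option autoImplicit false
set_option linter.unusedSectionVars false

open Finset

namespace H33

namespace RP

variable {κ : Type} [Field κ]


theorem aa_C (r : κ) : (algebraMap (Polynomial κ) (RatFunc κ)) (Polynomial.C r) = algebraMap κ (RatFunc κ) r := by
  rw [IsScalarTower.algebraMap_apply κ (Polynomial κ) (RatFunc κ)]
  rfl

/- rational functions regular at `c` -/
def Oc (c : κ) : Subalgebra κ (RatFunc κ) where
  carrier := {f | ∃ p q : Polynomial κ, q.eval c ≠ 0 ∧ f * (algebraMap (Polynomial κ) (RatFunc κ)) q = (algebraMap (Polynomial κ) (RatFunc κ)) p}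
  mul_mem' := by
    rintro f g ⟨p, q, h, e⟩ ⟨p', q', h', e'⟩
    refine ⟨p * p', q * q', by rw [Polynomial.eval_mul]; exact mul_ne_zero h h', ?_⟩
    rw [map_mul, map_mul, ← e, ← e']; ring
  add_mem' := by
    rintro f g ⟨p, q, h, e⟩ ⟨p', q', h', e'⟩
    refine ⟨p * q' + p' * q, q * q', by rw [Polynomial.eval_mul]; exact mul_ne_zero h h', ?_⟩
    rw [map_add, map_mul, map_mul, map_mul, ← e, ← e']; ring
  algebraMap_mem' := by
    intro r
    exact ⟨Polynomial.C r, 1, by simp, by rw [map_one, mul_one, aa_C]⟩


theorem poly_mem_Oc (c : κ) (p : Polynomial κ) : (algebraMap (Polynomial κ) (RatFunc κ)) p ∈ Oc c :=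
  ⟨p, 1, by simp, by rw [map_one, mul_one]⟩

theorem val_unique {c : κ} {f : RatFunc κ} {p q p' q' : Polynomial κ} (h : q.eval c ≠ 0)
    (e : f * (algebraMap (Polynomial κ) (RatFunc κ)) q = (algebraMap (Polynomial κ) (RatFunc κ)) p) (h' : q'.eval c ≠ 0) (e' : f * (algebraMap (Polynomial κ) (RatFunc κ)) q' = (algebraMap (Polynomial κ) (RatFunc κ)) p') :
    p.eval c / q.eval c = p'.eval c / q'.eval c := by
  have h1 : (algebraMap (Polynomial κ) (RatFunc κ)) (p * q') = (algebraMap (Polynomial κ) (RatFunc κ)) (p' * q) := by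
    rw [map_mul, map_mul, ← e, ← e']; ring
  have h2 := RatFunc.algebraMap_injective κ h1
  have h3 := congrArg (Polynomial.eval c) h2
  rw [Polynomial.eval_mul, Polynomial.eval_mul] at h3
  rw [div_eq_div_iff h h', h3]

theorem frac_mul {f g : RatFunc κ} {p q p' q' : Polynomial κ} (e : f * (algebraMap (Polynomial κ) (RatFunc κ)) q = (algebraMap (Polynomial κ) (RatFunc κ)) p)
    (e' : g * (algebraMap (Polynomial κ) (RatFunc κ)) q' = (algebraMap (Polynomial κ) (RatFunc κ)) p') : (f * g) * (algebraMap (Polynomial κ) (RatFunc κ)) (q * q') = (algebraMap (Polynomial κ) (RatFunc κ)) (p * p') := by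
  rw [map_mul, map_mul, ← e, ← e']; ring

theorem frac_add {f g : RatFunc κ} {p q p' q' : Polynomial κ} (e : f * (algebraMap (Polynomial κ) (RatFunc κ)) q = (algebraMap (Polynomial κ) (RatFunc κ)) p)
    (e' : g * (algebraMap (Polynomial κ) (RatFunc κ)) q' = (algebraMap (Polynomial κ) (RatFunc κ)) p') : (f + g) * (algebraMap (Polynomial κ) (RatFunc κ)) (q * q') = (algebraMap (Polynomial κ) (RatFunc κ)) (p * q' + p' * q) := by
  rw [map_add, map_mul, map_mul, map_mul, ← e, ← e']; ring

/- value at `c` -/
noncomputable def resc (c : κ) : Oc c →+* κ where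
  toFun f := (f.2.choose).eval c / (f.2.choose_spec.choose).eval c
  map_one' := by
    have h := (1 : Oc c).2.choose_spec.choose_spec
    rw [val_unique h.1 h.2 (p' := 1) (q' := 1) (by simp) (by simp)]
    simp
  map_zero' := by
    have h := (0 : Oc c).2.choose_spec.choose_spec
    rw [val_unique h.1 h.2 (p' := 0) (q' := 1) (by simp) (by simp)]
    simp
  map_mul' := by
    intro x y
    have h := (x * y).2.choose_spec.choose_spec
    have hx := x.2.choose_spec.choose_spec
    have hy := y.2.choose_spec.choose_spec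
    rw [val_unique h.1 h.2 (p' := x.2.choose * y.2.choose)
      (q' := x.2.choose_spec.choose * y.2.choose_spec.choose)
      (by rw [Polynomial.eval_mul]; exact mul_ne_zero hx.1 hy.1)
      (frac_mul hx.2 hy.2)]
    rw [Polynomial.eval_mul, Polynomial.eval_mul, mul_div_mul_comm]
  map_add' := by
    intro x y
    have h := (x + y).2.choose_spec.choose_spec
    have hx := x.2.choose_spec.choose_spec
    have hy := y.2.choose_spec.choose_spec
    rw [val_unique h.1 h.2 (p' := x.2.choose * y.2.choose_spec.choose +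
        y.2.choose * x.2.choose_spec.choose)
      (q' := x.2.choose_spec.choose * y.2.choose_spec.choose)
      (by rw [Polynomial.eval_mul]; exact mul_ne_zero hx.1 hy.1)
      (frac_add hx.2 hy.2)]
    rw [Polynomial.eval_mul, Polynomial.eval_add, Polynomial.eval_mul, Polynomial.eval_mul]
    have h1 := hx.1
    have h2 := hy.1
    field_simp

theorem resc_eq {c : κ} (f : Oc c) {p q : Polynomial κ} (h : q.eval c ≠ 0)
    (e : (f : RatFunc κ) * (algebraMap (Polynomial κ) (RatFunc κ)) q = (algebraMap (Polynomial κ) (RatFunc κ)) p) : resc c f = p.eval c / q.eval c :=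
  val_unique f.2.choose_spec.choose_spec.1 f.2.choose_spec.choose_spec.2 h e

variable {I : Type} [Fintype I] (c : I → κ)


variable {c}


end RP

end H33
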