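import Mathlib
import Pool.Agent.H84.L.S8_H33R2_V3
import Pool.Agent.H84.L.S8_H391R2_T4_Blueprint
import Pool.Agent.H84.L.S8_H391R2_T4_Red
import Pool.Agent.H84.L.S8_TH15_IGP_TwB

namespace Pool.Agent.H391R2.T4
end Pool.Agent.H391R2.T4


/-!
Infinite towers with arbitrary solvable steps.
-/

set_option autoImplicit false

namespace Pool.Agent.TH15.IGP

open IntermediateField AlgEquiv
open Pool.Agent.H391R2.T4 (RegSol HilbField)

/- Every embedding problem over `K` given by the epimorphism `p : W' → W` and a finite Galois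
extension with group `W` has a proper solution. -/
def StepSol (K : Type) [Field K] {W W' : Type} [Group W] [Group W'] (p : W' →* W) : Prop :=
  ∀ (L : Type) [Field L] [Algebra K L] [FiniteDimensional K L] [IsGalois K L]
    (ε : (L ≃ₐ[K] L) ≃* W),
    ∃ (F : Type) (_ : Field F) (_ : Algebra K F) (_ : Algebra L F) (_ : IsScalarTower K L F),
      FiniteDimensional K F ∧ IsGalois K F ∧
      ∃ γ : (F ≃ₐ[K] F) ≃* W', ∀ σ : F ≃ₐ[K] F, p (γ σ) = ε (σ.restrictNormal L)


/- Steps over Hilbertian fields from regular solutions. -/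
theorem stepSol_of_reg (K : Type) [Field K] (hK : HilbField K) {W W' : Type} [Group W] [Group W']
    [Finite W'] (p : W' →* W)
    (h : ∀ (L : Type) [Field L] [Algebra K L] [FiniteDimensional K L] [IsGalois K L]
      (ε : (L ≃ₐ[K] L) ≃* W), RegSol K L W' (ε.symm.toMonoidHom.comp p)) : StepSol K p := by
  intro L _ _ _ _ ε
  obtain ⟨F, i1, i2, i3, i4, i5, i6, i7, i8, γ, hγ, -⟩ := h L ε
  obtain ⟨F', j1, j2, j3, j4, j5, j6, γ', hγ'⟩ := H33.hilbert_spec K hK L W'
    (ε.symm.toMonoidHom.comp p) ⟨F, i1, i2, i3, i4, i5, i6, i7, i8, γ, hγ⟩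
  refine ⟨F', j1, j2, j3, j4, j5, j6, γ', fun σ => ?_⟩
  rw [← hγ' σ]
  exact (ε.apply_symm_apply _).symm


end Pool.Agent.TH15.IGP
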