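import Mathlib



/-!
# Automorphisms acting on one factor
-/

set_option autoImplicit false

open Polynomial

namespace Pool.Agent.TH444.WC

/- Two embeddings of a normal extension which agree on the base differ by an automorphism. -/
theorem differ {K₀ F U : Type} [Field K₀] [Field F] [Field U] [Algebra K₀ F] [Normal K₀ F]
    (j j' : F →+* U) (h : ∀ x : K₀, j (algebraMap K₀ F x) = j' (algebraMap K₀ F x)) :
    ∃ a : F ≃ₐ[K₀] F, ∀ x, j x = j' (a x) := by
  let _ : Algebra F U := j'.toAlgebra
  let _ : Algebra K₀ U := (j'.comp (algebraMap K₀ F)).toAlgebra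
  have : IsScalarTower K₀ F U := IsScalarTower.of_algebraMap_eq fun _ => rfl
  let J : F →ₐ[K₀] U := { j with commutes' := h }
  refine ⟨J.restrictNormal' F, fun x => ?_⟩
  have h1 := AlgHom.restrictNormal_commutes J F x
  exact h1.symm


/- Extension of embeddings of the base to an algebraic extension. -/
theorem exists_extend {K₀ F U : Type} [Field K₀] [Field F] [Field U] [Algebra K₀ F]
    [Algebra.IsAlgebraic K₀ F] [IsAlgClosed U] (φ : K₀ →+* U) :
    ∃ j : F →+* U, ∀ x, j (algebraMap K₀ F x) = φ x := by
  let _ : Algebra K₀ U := φ.toAlgebra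
  let J : F →ₐ[K₀] U := IsAlgClosed.lift
  exact ⟨J, fun x => J.commutes x⟩


end Pool.Agent.TH444.WC
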