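import Mathlib
import Pool.Agent.H84.L.S8_TH444_WC_Gen
import Pool.Agent.H84.L.S8_TH444_WC_Star



/-!
# The Galois group of the generic extension
-/

set_option autoImplicit false

open Polynomial

namespace Pool.Agent.TH444.WC

/- homomorphisms from `K(X)` are determined by `K` and `X` -/
theorem ratFunc_hom_ext {K U : Type} [Field K] [Field U] (f g : RatFunc K →+* U)
    (hC : ∀ k, f (algebraMap K (RatFunc K) k) = g (algebraMap K (RatFunc K) k))
    (hX : f RatFunc.X = g RatFunc.X) : f = g := by
  apply IsLocalization.ringHom_ext (nonZeroDivisors K[X])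
  apply Polynomial.ringHom_ext
  · intro k
    simp only [RingHom.comp_apply]
    exact hC k
  · simp only [RingHom.comp_apply, RatFunc.algebraMap_X]
    exact hX

theorem exists_j {K U F : Type} [Field K] [Field U] [Field F] [Algebra K U] [IsAlgClosed U]
    [Algebra (RatFunc K) F] [Algebra K F] [IsScalarTower K (RatFunc K) F]
    [Algebra.IsAlgebraic (RatFunc K) F] (t : U) (ht : Transcendental K t) :
    ∃ j : F →+* U, (∀ k : K, j (algebraMap K F k) = algebraMap K U k) ∧
      j (algebraMap (RatFunc K) F RatFunc.X) = t := by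
  let ev : K[X] →+* U := ((Polynomial.aeval t : K[X] →ₐ[K] U) : K[X] →+* U)
  have hev : Function.Injective ev := transcendental_iff_injective.1 ht
  let φ : RatFunc K →+* U := IsFractionRing.lift (A := K[X]) hev
  have hφ : ∀ p, φ (algebraMap K[X] (RatFunc K) p) = ev p := fun p =>
    IsFractionRing.lift_algebraMap hev p
  obtain ⟨j, hj⟩ := exists_extend (F := F) φ
  refine ⟨j, fun k => ?_, ?_⟩
  · rw [IsScalarTower.algebraMap_apply K (RatFunc K) F, hj]
    have h1 : algebraMap K (RatFunc K) k = algebraMap K[X] (RatFunc K) (Polynomial.C k) := rfl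
    rw [h1, hφ]
    change Polynomial.aeval t (Polynomial.C k) = _
    rw [Polynomial.aeval_C]
  · rw [hj, ← RatFunc.algebraMap_X, hφ]
    change Polynomial.aeval t Polynomial.X = _
    rw [Polynomial.aeval_X]

section gal

variable {K L Ω Q U : Type} [Field K] [Field L] [Algebra K L] [FiniteDimensional K L] [IsGalois K L]
  [Fintype Ω] [DecidableEq Ω] [MulAction (L ≃ₐ[K] L) Ω]
  [Field Q] [Algebra (MvPolynomial Ω K) Q] [IsFractionRing (MvPolynomial Ω K) Q]
  [Algebra K Q] [IsScalarTower K (MvPolynomial Ω K) Q] [Field U] [Algebra Q U] [IsAlgClosure Q U]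
  [Algebra K U] [IsScalarTower K Q U] [Algebra L U] [IsScalarTower K L U]

variable (K L Q U) in
/- restriction to `L` -/
noncomputable def res : (U ≃ₐ[Q] U) →* (L ≃ₐ[K] L) :=
  (AlgEquiv.restrictNormalHom L).comp (AlgEquiv.restrictScalarsHom K)

theorem res_spec (σ : U ≃ₐ[Q] U) (x : L) :
    algebraMap L U (res K L Q U σ x) = σ (algebraMap L U x) :=
  AlgEquiv.restrictNormal_commutes (σ.restrictScalars K) L x

theorem sigma_tt (c : Ω → Ω → L) (hc : ∀ i (ρ : L ≃ₐ[K] L) ω, c i (ρ • ω) = ρ (c i ω))
    (σ : U ≃ₐ[Q] U) (ω : Ω) :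
    σ (tt K Q U c ω) = tt K Q U c (res K L Q U σ • ω) := by
  unfold tt
  rw [map_sum]
  apply Finset.sum_congr rfl
  intro i _
  rw [map_mul, hc, res_spec]
  congr 1
  unfold yy
  exact AlgEquiv.commutes σ _

end gal

/- every automorphism of `L` is a restriction -/
theorem res_surjective {K L Q U : Type} (Ω : Type) [Field K] [Field L] [Algebra K L]
    [FiniteDimensional K L] [IsGalois K L]
    [Field Q] [Algebra (MvPolynomial Ω K) Q] [IsFractionRing (MvPolynomial Ω K) Q]
    [Algebra K Q] [IsScalarTower K (MvPolynomial Ω K) Q] [Field U] [Algebra Q U]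
    [IsAlgClosure Q U] [Algebra K U] [IsScalarTower K Q U] [Algebra L U] [IsScalarTower K L U] :
    Function.Surjective (res K L Q U) := by
  intro ρ
  have hacU : IsAlgClosed U := IsAlgClosure.isAlgClosed Q
  have halgQ : Algebra.IsAlgebraic Q U := IsAlgClosure.isAlgebraic
  let PL := MvPolynomial Ω L
  let QL := FractionRing PL
  let ev : PL →+* U := ((MvPolynomial.aeval (yy K Ω Q U) : PL →ₐ[L] U) : PL →+* U)
  have hev : Function.Injective ev := algebraicIndependent_iff_injective_aeval.1 indep_yy_L
  let mρ : PL →+* PL := MvPolynomial.map ((ρ : L →+* L))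
  have hmρ : Function.Injective mρ := MvPolynomial.map_injective _ ρ.injective
  have hev' : Function.Injective (ev.comp mρ) := by
    rw [RingHom.coe_comp]; exact hev.comp hmρ
  let e : QL →+* U := IsFractionRing.lift (A := PL) hev
  have he : ∀ p, e (algebraMap PL QL p) = ev p := fun p => IsFractionRing.lift_algebraMap hev p
  let e' : QL →+* U := IsFractionRing.lift (A := PL) hev'
  have he' : ∀ p, e' (algebraMap PL QL p) = ev (mρ p) := fun p =>
    IsFractionRing.lift_algebraMap hev' p
  -- the map from `Q`
  let bc : MvPolynomial Ω K →+* QL := (algebraMap PL QL).comp (MvPolynomial.map (algebraMap K L))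
  have hbc : Function.Injective bc := by
    rw [RingHom.coe_comp]
    exact (IsFractionRing.injective PL QL).comp
      (MvPolynomial.map_injective _ (algebraMap K L).injective)
  let κ : Q →+* QL := IsFractionRing.lift (A := MvPolynomial Ω K) hbc
  have hκ : ∀ p, κ (algebraMap (MvPolynomial Ω K) Q p) = bc p := fun p =>
    IsFractionRing.lift_algebraMap hbc p
  have hevK : ∀ p : MvPolynomial Ω K, ev (MvPolynomial.map (algebraMap K L) p) =
      algebraMap Q U (algebraMap (MvPolynomial Ω K) Q p) := by
    intro p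
    change MvPolynomial.aeval (yy K Ω Q U) (MvPolynomial.map (algebraMap K L) p) = _
    rw [MvPolynomial.aeval_map_algebraMap, aeval_yy]
  have heκ : e.comp κ = algebraMap Q U := by
    apply IsLocalization.ringHom_ext (nonZeroDivisors (MvPolynomial Ω K))
    apply RingHom.ext
    intro p
    rw [RingHom.comp_apply, RingHom.comp_apply, RingHom.comp_apply, hκ]
    change e (algebraMap PL QL (MvPolynomial.map (algebraMap K L) p)) = _
    rw [he, hevK]
  have hmK : ∀ p : MvPolynomial Ω K, mρ (MvPolynomial.map (algebraMap K L) p) =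
      MvPolynomial.map (algebraMap K L) p := by
    intro p
    change MvPolynomial.map _ (MvPolynomial.map _ p) = _
    rw [MvPolynomial.map_map]
    have hρK : (ρ : L →+* L).comp (algebraMap K L) = algebraMap K L := by
      ext k
      simp
    rw [hρK]
  have he'κ : e'.comp κ = algebraMap Q U := by
    apply IsLocalization.ringHom_ext (nonZeroDivisors (MvPolynomial Ω K))
    apply RingHom.ext
    intro p
    rw [RingHom.comp_apply, RingHom.comp_apply, RingHom.comp_apply, hκ]
    change e' (algebraMap PL QL (MvPolynomial.map (algebraMap K L) p)) = _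
    rw [he', hmK, hevK]
  let _ : Algebra QL U := e.toAlgebra
  have halg : Algebra.IsAlgebraic QL U := by
    constructor
    intro z
    obtain ⟨g, hg0, hg⟩ := halgQ.isAlgebraic z
    refine ⟨g.map κ, ?_, ?_⟩
    · rwa [Ne, Polynomial.map_eq_zero]
    · rw [Polynomial.aeval_def, Polynomial.eval₂_map]
      change Polynomial.eval₂ (e.comp κ) z g = 0
      rw [heκ]
      exact hg
  obtain ⟨s, hs⟩ := exists_extend (K₀ := QL) (F := U) e'
  have hsQ : ∀ q : Q, s (algebraMap Q U q) = algebraMap Q U q := by
    intro q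
    have h1 : algebraMap Q U q = algebraMap QL U (κ q) := (RingHom.congr_fun heκ q).symm
    rw [h1, hs]
    have h2 := RingHom.congr_fun he'κ q
    rw [← h1]
    exact h2
  let s' : U →ₐ[Q] U := { s with commutes' := hsQ }
  let σ : U ≃ₐ[Q] U := AlgEquiv.ofBijective s' (Algebra.IsAlgebraic.algHom_bijective s')
  refine ⟨σ, ?_⟩
  ext x
  apply (algebraMap L U).injective
  rw [res_spec]
  change s (algebraMap L U x) = _
  have h1 : algebraMap L U x = algebraMap QL U (algebraMap PL QL (MvPolynomial.C x)) := by
    change _ = e _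
    rw [he]
    change _ = MvPolynomial.aeval (yy K Ω Q U) (MvPolynomial.C x)
    rw [MvPolynomial.algHom_C]
  rw [h1, hs, he']
  change MvPolynomial.aeval (yy K Ω Q U) (MvPolynomial.map _ (MvPolynomial.C x)) = _
  rw [MvPolynomial.map_C, MvPolynomial.algHom_C]
  rfl

end Pool.Agent.TH444.WC
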