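import Mathlib
import Pool.Agent.H84.L.S8_H391R2_T4_Fam
import Pool.Agent.H84.L.S8_H391R2_T4_Red
import Pool.Agent.H84.L.S8_H391R2_T4_Sem
import Pool.Agent.H84.L.S8_TH444_WC_Gal

namespace Pool.Agent.H391R2.T4
end Pool.Agent.H391R2.T4
namespace Pool.Agent.TH444.WC
end Pool.Agent.TH444.WC


/-!
# The extension of `L(X)` attached to a regular solution over `K(X)`
-/

set_option autoImplicit false

open Polynomial

namespace Pool.Agent.TH444.TW

open Pool.Agent.TH444.WC Pool.Agent.H391R2.T4

/- automorphisms as ring automorphisms -/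
def toRA {R F : Type} [CommSemiring R] [Semiring F] [Algebra R F] : (F ≃ₐ[R] F) →* RingAut F where
  toFun := fun σ => σ.toRingEquiv
  map_one' := rfl
  map_mul' := fun _ _ => rfl

theorem exists_data {K L H : Type} [Field K] [Field L] [Algebra K L] [FiniteDimensional K L]
    [Group H] (αH : H →* (L ≃ₐ[K] L)) (h : RegSol K L H αH) :
    ∃ (F : Type) (_ : Field F) (_ : Algebra (RatFunc L) F) (_ : Algebra L F)
      (_ : IsScalarTower L (RatFunc L) F) (_ : FiniteDimensional (RatFunc L) F)
      (_ : IsGalois (RatFunc L) F) (s : H →* RingAut F),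
      (∀ y : F, IsAlgebraic L y → y ∈ Set.range (algebraMap L F)) ∧
      (∀ h l, s h (algebraMap L F l) = algebraMap L F (αH h l)) ∧
      (∀ h, s h (algebraMap (RatFunc L) F RatFunc.X) = algebraMap (RatFunc L) F RatFunc.X) ∧
      (∀ b : F ≃ₐ[RatFunc L] F, ∃ h, αH h = 1 ∧ ∀ x, s h x = b x) ∧
      Function.Injective s := by
  obtain ⟨F, i1, i2, i3, i4, i5, i6, i7, i8, γ, hγ, hreg⟩ := h
  let TX : F := algebraMap (RatFunc K) F RatFunc.X
  have hTXK : Transcendental K TX := by
    have h1 : Transcendental K (RatFunc.X : RatFunc K) := by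
      rw [← RatFunc.algebraMap_X]
      exact (transcendental_algebraMap_iff (IsFractionRing.injective K[X] (RatFunc K))).2
        (Polynomial.transcendental_X K)
    exact (transcendental_algebraMap_iff (algebraMap (RatFunc K) F).injective).2 h1
  have hTX : Transcendental L TX := hTXK.extendScalars L
  let ev : L[X] →+* F := ((Polynomial.aeval TX : L[X] →ₐ[L] F) : L[X] →+* F)
  have hev : Function.Injective ev := transcendental_iff_injective.1 hTX
  let φ : RatFunc L →+* F := IsFractionRing.lift (A := L[X]) hev
  have hφ : ∀ p, φ (algebraMap L[X] (RatFunc L) p) = ev p := fun p =>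
    IsFractionRing.lift_algebraMap hev p
  have hφC : ∀ l : L, φ (algebraMap L (RatFunc L) l) = algebraMap L F l := by
    intro l
    have h1 : algebraMap L (RatFunc L) l = algebraMap L[X] (RatFunc L) (Polynomial.C l) := rfl
    rw [h1, hφ]
    change Polynomial.aeval TX (Polynomial.C l) = _
    rw [Polynomial.aeval_C]
  have hφX : φ RatFunc.X = TX := by
    rw [← RatFunc.algebraMap_X, hφ]
    change Polynomial.aeval TX Polynomial.X = _
    rw [Polynomial.aeval_X]
  -- the inclusion of `K(X)` in `L(X)`
  let bc : K[X] →+* RatFunc L := (algebraMap L[X] (RatFunc L)).comp (mapRingHom (algebraMap K L))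
  have hbc : Function.Injective bc := by
    rw [RingHom.coe_comp]
    exact (IsFractionRing.injective L[X] (RatFunc L)).comp
      (Polynomial.map_injective _ (algebraMap K L).injective)
  let κ : RatFunc K →+* RatFunc L := IsFractionRing.lift (A := K[X]) hbc
  have hκ : ∀ p, κ (algebraMap K[X] (RatFunc K) p) = bc p := fun p =>
    IsFractionRing.lift_algebraMap hbc p
  have hφκ : φ.comp κ = algebraMap (RatFunc K) F := by
    apply ratFunc_hom_ext
    · intro k
      simp only [RingHom.comp_apply]
      have h1 : algebraMap K (RatFunc K) k = algebraMap K[X] (RatFunc K) (Polynomial.C k) := rfl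
      rw [h1, hκ]
      change φ (algebraMap L[X] (RatFunc L) (mapRingHom (algebraMap K L) (Polynomial.C k))) = _
      rw [coe_mapRingHom, Polynomial.map_C, hφ]
      change Polynomial.aeval TX (Polynomial.C (algebraMap K L k)) = _
      rw [Polynomial.aeval_C, ← h1, ← IsScalarTower.algebraMap_apply K (RatFunc K) F,
        ← IsScalarTower.algebraMap_apply K L F]
    · simp only [RingHom.comp_apply]
      rw [← RatFunc.algebraMap_X, hκ]
      change φ (algebraMap L[X] (RatFunc L) (mapRingHom (algebraMap K L) Polynomial.X)) = _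
      rw [coe_mapRingHom, Polynomial.map_X, RatFunc.algebraMap_X, hφX, RatFunc.algebraMap_X]
  let _ : Algebra (RatFunc L) F := φ.toAlgebra
  let _ : Algebra (RatFunc K) (RatFunc L) := κ.toAlgebra
  have t1 : IsScalarTower L (RatFunc L) F := IsScalarTower.of_algebraMap_eq fun l => (hφC l).symm
  have t2 : IsScalarTower (RatFunc K) (RatFunc L) F := IsScalarTower.of_algebraMap_eq fun y =>
    (RingHom.congr_fun hφκ y).symm
  have hfd : FiniteDimensional (RatFunc L) F := FiniteDimensional.right (RatFunc K) (RatFunc L) F
  have hgal : IsGalois (RatFunc L) F := IsGalois.tower_top_of_isGalois (RatFunc K) (RatFunc L) F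
  refine ⟨F, i1, inferInstance, i3, t1, hfd, hgal, toRA.comp γ.symm.toMonoidHom, hreg, ?_, ?_, ?_,
    ?_⟩
  · intro h l
    change γ.symm h (algebraMap L F l) = _
    rw [hγ, MulEquiv.apply_symm_apply]
  · intro h
    change γ.symm h (φ RatFunc.X) = φ RatFunc.X
    rw [hφX]
    exact (γ.symm h).commutes _
  · intro b
    refine ⟨γ (b.restrictScalars (RatFunc K)), ?_, ?_⟩
    · ext l
      apply (algebraMap L F).injective
      rw [← hγ]
      change b (algebraMap L F l) = algebraMap L F l
      rw [IsScalarTower.algebraMap_apply L (RatFunc L) F]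
      exact b.commutes _
    · intro x
      change γ.symm (γ (b.restrictScalars (RatFunc K))) x = b x
      rw [MulEquiv.symm_apply_apply]
      rfl
  · intro h h' hh
    apply γ.symm.injective
    ext x
    exact RingEquiv.congr_fun hh x

end Pool.Agent.TH444.TW
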