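import Mathlib



/-!
# Regular extensions of `K(t)` and algebraically closed fields of constants

Let `F` be a finite extension of `K(t)` in which `K` is algebraically closed, embedded in an
algebraically closed field `U`.  If `C` is an intermediate field of `U/K` containing all elements of
`U` which are algebraic over `K`, and `t` is transcendental over `C`, then `F ∩ C(t) = K(t)`.
-/

set_option autoImplicit false

open Polynomial

namespace Pool.Agent.TH444.WC

attribute [local instance] Polynomial.algebra in
theorem coeff_integral {K C : Type} [Field K] [Field C] [Algebra K C] (p : C[X])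
    (hp : (mapRingHom (algebraMap K C)).IsIntegralElem p) (n : ℕ) :
    IsIntegral K (p.coeff n) :=
  IsIntegral.coeff (R := K) (S := C) (p := p) hp n

/- An element of `C(t)` integral over `C[t]` is in `C[t]`. -/
theorem mem_poly {C U : Type} [Field C] [Field U] (ev : C[X] →+* U)
    (hev : Function.Injective ev) (u : U) (r s : C[X]) (hs : s ≠ 0) (hu : u * ev s = ev r)
    (hint : ev.IsIntegralElem u) : ∃ p : C[X], ev p = u := by
  let _ : Algebra C[X] U := ev.toAlgebra
  let Fr := FractionRing C[X]
  let ι : Fr →+* U := IsFractionRing.lift (A := C[X]) hev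
  have hι : ∀ a : C[X], ι (algebraMap C[X] Fr a) = ev a := fun a =>
    IsFractionRing.lift_algebraMap hev a
  let ι' : Fr →ₐ[C[X]] U := { ι with commutes' := hι }
  let z : Fr := algebraMap C[X] Fr r / algebraMap C[X] Fr s
  have hs0 : ev s ≠ 0 := fun h => hs (hev (by rw [h, map_zero]))
  have hz : ι z = u := by
    simp only [z]
    rw [map_div₀, hι, hι, ← hu, mul_div_assoc, div_self hs0, mul_one]
  have hzi : IsIntegral C[X] z := by
    have h1 : IsIntegral C[X] (ι' z) := by
      change IsIntegral C[X] (ι z)
      rw [hz]; exact hint
    exact (isIntegral_algHom_iff ι' ι'.toRingHom.injective).1 h1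
  obtain ⟨p, hp⟩ := IsIntegrallyClosed.isIntegral_iff.1 hzi
  exact ⟨p, by rw [← hι, hp, hz]⟩


end Pool.Agent.TH444.WC
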