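import Mathlib
import Pool.Agent.H84.L.S8_TH444_TW_Desc
import Pool.Agent.H84.L.S8_TH444_WC_Star
import Pool.Agent.H84.L.S8_W200_IJ_BA

namespace Pool.Agent.TH444.WC
end Pool.Agent.TH444.WC


/-!
# Automorphisms acting on one factor, arbitrary characteristic
-/

set_option autoImplicit false

open Polynomial

namespace Pool.Agent.TH444.TW

open Pool.Agent.TH444.WC (differ exists_extend)

theorem star {K Q U F : Type} [Field K] [Field Q] [Field U] [Field F]
    [Algebra Q U] [Algebra K U] [IsAlgClosed U] [Normal Q U]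
    [Algebra (RatFunc K) F] [Algebra K F] [IsScalarTower K (RatFunc K) F]
    [FiniteDimensional (RatFunc K) F] [IsGalois (RatFunc K) F]
    (hreg : ∀ y : F, IsAlgebraic K y → y ∈ Set.range (algebraMap K F))
    (C : IntermediateField K U) (hC : ∀ z : U, IsAlgebraic K z → z ∈ C) (t : U)
    (ht : Transcendental C t)
    (hQ : ∀ q : Q, algebraMap Q U q ∈ IntermediateField.adjoin C {t})
    (htQ : t ∈ IntermediateField.adjoin Q (C : Set U))
    (j : F →+* U) (hjK : ∀ k : K, j (algebraMap K F k) = algebraMap K U k)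
    (hjt : j (algebraMap (RatFunc K) F RatFunc.X) = t)
    (a : F ≃ₐ[RatFunc K] F) :
    ∃ σ : U ≃ₐ[Q] U, (∀ z ∈ C, σ z = z) ∧ ∀ x, σ (j x) = j (a x) := by
  classical
  obtain ⟨e, he⟩ := ExpChar.exists U
  let M : IntermediateField Q U := IntermediateField.adjoin Q (C : Set U)
  have hCM : ∀ z ∈ C, z ∈ M := fun z hz => IntermediateField.subset_adjoin Q _ hz
  have hM : ∀ z ∈ M, z ∈ IntermediateField.adjoin C {t} := by
    intro z hz
    refine IntermediateField.adjoin_induction (F := Q) (s := (C : Set U))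
      (p := fun z _ => z ∈ IntermediateField.adjoin C {t}) ?_ ?_ ?_ ?_ ?_ hz
    · intro x hx
      exact (IntermediateField.adjoin C {t}).algebraMap_mem ⟨x, hx⟩
    · intro x
      exact hQ x
    · intro x y _ _ hx hy
      exact add_mem hx hy
    · intro x _ hx
      exact inv_mem hx
    · intro x y _ _ hx hy
      exact mul_mem hx hy
  let H : Subgroup (F ≃ₐ[RatFunc K] F) :=
    { carrier := {a | ∃ σ : U ≃ₐ[Q] U, (∀ z ∈ C, σ z = z) ∧ ∀ x, σ (j x) = j (a x)}
      mul_mem' := by
        rintro a b ⟨σ, h1, h2⟩ ⟨τ, h3, h4⟩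
        refine ⟨σ * τ, fun z hz => ?_, fun x => ?_⟩
        · rw [AlgEquiv.mul_apply, h3 z hz, h1 z hz]
        · rw [AlgEquiv.mul_apply, h4, h2, AlgEquiv.mul_apply]
      one_mem' := ⟨1, fun _ _ => rfl, fun _ => rfl⟩
      inv_mem' := by
        rintro a ⟨σ, h1, h2⟩
        refine ⟨σ⁻¹, fun z hz => ?_, fun x => ?_⟩
        · have := h1 z hz
          rw [AlgEquiv.aut_inv, AlgEquiv.symm_apply_eq]
          exact this.symm
        · rw [AlgEquiv.aut_inv, AlgEquiv.symm_apply_eq, h2, AlgEquiv.aut_inv,
            AlgEquiv.apply_symm_apply] }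
  have hφ : ∀ σ : U ≃ₐ[Q] U, (∀ z ∈ C, σ z = z) → σ t = t →
      ∀ y : RatFunc K, σ (j (algebraMap (RatFunc K) F y)) = j (algebraMap (RatFunc K) F y) := by
    intro σ hσC hσt y
    have e : (((σ : U →+* U).comp j).comp (algebraMap (RatFunc K) F)).comp
        (algebraMap K[X] (RatFunc K)) = (j.comp (algebraMap (RatFunc K) F)).comp
        (algebraMap K[X] (RatFunc K)) := by
      apply Polynomial.ringHom_ext
      · intro k
        simp only [RingHom.comp_apply]
        have h1 : algebraMap K[X] (RatFunc K) (Polynomial.C k) = algebraMap K (RatFunc K) k := rfl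
        rw [h1, ← IsScalarTower.algebraMap_apply K (RatFunc K) F, hjK]
        exact hσC _ (hC _ (isAlgebraic_algebraMap k))
      · simp only [RingHom.comp_apply]
        rw [RatFunc.algebraMap_X, hjt]
        exact hσt
    have e2 := IsLocalization.ringHom_ext (nonZeroDivisors K[X]) e
    exact RingHom.congr_fun e2 y
  have hbot : IntermediateField.fixedField H = ⊥ := by
    rw [eq_bot_iff]
    intro x hx
    rw [IntermediateField.mem_fixedField_iff] at hx
    have hjx : ∃ m : ℕ, j x ^ e ^ m ∈ M := by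
      have hnM : Normal M U := Normal.tower_top_of_normal Q M U
      have hExp : ExpChar M e := (algebraMap M U).expChar (algebraMap M U).injective e
      obtain ⟨m, y, hy⟩ := Pool.Agent.W200.IJ.pi_of_fixed (F := M) (Ω := U) e (j x) (by
        intro τ
        let σ : U ≃ₐ[Q] U := τ.restrictScalars Q
        have hσM : ∀ z ∈ M, σ z = z := fun z hz => τ.commutes ⟨z, hz⟩
        have hσC : ∀ z ∈ C, σ z = z := fun z hz => hσM z (hCM z hz)
        obtain ⟨b, hb⟩ := differ (K₀ := RatFunc K) ((σ : U →+* U).comp j) j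
          (hφ σ hσC (hσM t htQ))
        have hbH : b ∈ H := ⟨σ, hσC, hb⟩
        have h2 := hb x
        rw [hx b hbH] at h2
        exact h2)
      exact ⟨m, hy ▸ y.2⟩
    obtain ⟨m, hm⟩ := hjx
    have h3 := descend e hreg C hC t ht j hjK hjt m x (hM _ hm)
    obtain ⟨y, hy⟩ := h3
    rw [← hy]
    exact IntermediateField.algebraMap_mem ⊥ y
  have htop : H = ⊤ := by
    rw [← IntermediateField.fixingSubgroup_fixedField H, hbot,
      IntermediateField.fixingSubgroup_bot]
  have ha : a ∈ H := by rw [htop]; trivial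
  exact ha

end Pool.Agent.TH444.TW
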