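import Mathlib
import Pool.Agent.H84.L.S8_TH444_TW_Star
import Pool.Agent.H84.L.S8_TH444_WC_Gal
import Pool.Agent.H84.L.S8_TH444_WC_Star
import Pool.Agent.H84.L.S8_W200_IG_HF



/-!
# Twisted constants
-/

set_option autoImplicit false

open Polynomial

namespace Pool.Agent.TH444.TW

theorem transc_congr {U A B : Type} [Field U] [Field A] [Field B] [Algebra A U] [Algebra B U]
    (f : A →+* B) (hf : ∀ a, algebraMap B U (f a) = algebraMap A U a) (t : U)
    (ht : Transcendental B t) : Transcendental A t := by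
  rintro ⟨p, hp0, hp⟩
  refine ht ⟨p.map f, (Polynomial.map_ne_zero_iff f.injective).2 hp0, ?_⟩
  rw [aeval_def, eval₂_map]
  have h1 : (algebraMap B U).comp f = algebraMap A U := RingHom.ext hf
  rw [h1]
  exact hp

theorem alg_congr {U A B : Type} [Field U] [Field A] [Field B] [Algebra A U] [Algebra B U]
    (f : A →+* B) (hf : ∀ a, algebraMap B U (f a) = algebraMap A U a) (t : U)
    (ht : IsAlgebraic A t) : IsAlgebraic B t := by
  by_contra h
  exact transc_congr f hf t h ht

theorem adjoin_congr {U A B : Type} [Field U] [Field A] [Field B] [Algebra A U] [Algebra B U]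
    (f : A →+* B) (hf : ∀ a, algebraMap B U (f a) = algebraMap A U a) (t z : U)
    (hz : z ∈ IntermediateField.adjoin A {t}) : z ∈ IntermediateField.adjoin B {t} := by
  rw [IntermediateField.mem_adjoin_simple_iff] at hz ⊢
  obtain ⟨r, s, hrs⟩ := hz
  have h1 : (algebraMap B U).comp f = algebraMap A U := RingHom.ext hf
  refine ⟨r.map f, s.map f, ?_⟩
  rw [hrs]
  simp only [aeval_def, eval₂_map, h1]

/- `star` with an arbitrary embedding of the constants -/
theorem star_hom {k K Q U F : Type} [Field k] [Field K] [Field Q] [Field U] [Field F]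
    [Algebra Q U] [Algebra K U] [IsAlgClosed U] [Normal Q U]
    [Algebra (RatFunc k) F] [Algebra k F] [IsScalarTower k (RatFunc k) F]
    [FiniteDimensional (RatFunc k) F] [IsGalois (RatFunc k) F]
    (hreg : ∀ y : F, IsAlgebraic k y → y ∈ Set.range (algebraMap k F))
    (C : IntermediateField K U) (ι : k →+* U) (hι : ∀ x, ι x ∈ C)
    (hC : ∀ z : U, IsAlgebraic C z → z ∈ C) (t : U)
    (ht : Transcendental C t)
    (hQ : ∀ q : Q, algebraMap Q U q ∈ IntermediateField.adjoin C {t})
    (htQ : t ∈ IntermediateField.adjoin Q (C : Set U))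
    (j : F →+* U) (hjk : ∀ x : k, j (algebraMap k F x) = ι x)
    (hjt : j (algebraMap (RatFunc k) F RatFunc.X) = t)
    (a : F ≃ₐ[RatFunc k] F) :
    ∃ σ : U ≃ₐ[Q] U, (∀ z ∈ C, σ z = z) ∧ ∀ x, σ (j x) = j (a x) := by
  let _ : Algebra k U := ι.toAlgebra
  let C' : IntermediateField k U := { C.toSubfield with algebraMap_mem' := hι }
  let f : C →+* C' :=
    { toFun := fun x => ⟨x.1, x.2⟩
      map_one' := rfl
      map_mul' := fun _ _ => rfl
      map_zero' := rfl
      map_add' := fun _ _ => rfl }
  let f' : C' →+* C :=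
    { toFun := fun x => ⟨x.1, x.2⟩
      map_one' := rfl
      map_mul' := fun _ _ => rfl
      map_zero' := rfl
      map_add' := fun _ _ => rfl }
  have hf : ∀ a, algebraMap C' U (f a) = algebraMap C U a := fun _ => rfl
  have hf' : ∀ a, algebraMap C U (f' a) = algebraMap C' U a := fun _ => rfl
  exact star (K := k) hreg C'
    (fun z hz => hC z (alg_congr f' hf' z (hz.tower_top C'))) t
    (transc_congr f' hf' t ht) (fun q => adjoin_congr f hf t _ (hQ q)) htQ j hjk hjt a

/- `exists_j` with an arbitrary embedding of the constants -/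
theorem exists_j_hom {k U F : Type} [Field k] [Field U] [Field F] [IsAlgClosed U]
    [Algebra (RatFunc k) F] [Algebra k F] [IsScalarTower k (RatFunc k) F]
    [Algebra.IsAlgebraic (RatFunc k) F] (ι : k →+* U) (t : U)
    (ht : ∀ p : k[X], p.eval₂ ι t = 0 → p = 0) :
    ∃ j : F →+* U, (∀ x : k, j (algebraMap k F x) = ι x) ∧
      j (algebraMap (RatFunc k) F RatFunc.X) = t := by
  let _ : Algebra k U := ι.toAlgebra
  refine Pool.Agent.TH444.WC.exists_j (K := k) t ?_
  rintro ⟨p, hp0, hp⟩
  exact hp0 (ht p hp)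

/- embeddings which agree on the constants and at `X` differ by an automorphism -/
theorem differ_hom {k U F : Type} [Field k] [Field U] [Field F]
    [Algebra (RatFunc k) F] [Algebra k F] [IsScalarTower k (RatFunc k) F]
    [Normal (RatFunc k) F] (j j' : F →+* U)
    (h1 : ∀ x : k, j (algebraMap k F x) = j' (algebraMap k F x))
    (h2 : j (algebraMap (RatFunc k) F RatFunc.X) = j' (algebraMap (RatFunc k) F RatFunc.X)) :
    ∃ a : F ≃ₐ[RatFunc k] F, ∀ x, j x = j' (a x) := by
  refine Pool.Agent.TH444.WC.differ j j' ?_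
  intro x
  have h := Pool.Agent.TH444.WC.ratFunc_hom_ext (j.comp (algebraMap (RatFunc k) F))
    (j'.comp (algebraMap (RatFunc k) F)) ?_ ?_
  · exact RingHom.congr_fun h x
  · intro x
    simp only [RingHom.comp_apply]
    rw [← IsScalarTower.algebraMap_apply k (RatFunc k) F]
    exact h1 x
  · simp only [RingHom.comp_apply]
    exact h2

end Pool.Agent.TH444.TW
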