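import Mathlib



/-!
# Big constant fields
-/

set_option autoImplicit false

namespace Pool.Agent.TH444.WC

/- the elements algebraic over `K(t ω : ω ≠ ω₀)` -/
noncomputable def cc (K : Type) {U Ω : Type} [Field K] [Field U] [Algebra K U] (t : Ω → U)
    (ω₀ : Ω) : IntermediateField K U :=
  (algebraicClosure (IntermediateField.adjoin K (t '' {ω₀}ᶜ)) U).restrictScalars K

section
variable {K U Ω : Type} [Field K] [Field U] [Algebra K U] (t : Ω → U) (ω₀ : Ω)

theorem mem_cc {z : U} : z ∈ cc K t ω₀ ↔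
    IsAlgebraic (IntermediateField.adjoin K (t '' {ω₀}ᶜ)) z := by
  change z ∈ algebraicClosure (IntermediateField.adjoin K (t '' {ω₀}ᶜ)) U ↔ _
  exact mem_algebraicClosure_iff

theorem mem_cc_of_isAlgebraic (z : U) (hz : IsAlgebraic K z) : z ∈ cc K t ω₀ :=
  (mem_cc t ω₀).2 (hz.tower_top _)

theorem mem_cc_of_ne (ω : Ω) (h : ω ≠ ω₀) : t ω ∈ cc K t ω₀ := by
  rw [mem_cc]
  exact isAlgebraic_algebraMap
    (⟨t ω, IntermediateField.subset_adjoin K _ ⟨ω, h, rfl⟩⟩ :
      IntermediateField.adjoin K (t '' {ω₀}ᶜ))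

theorem mem_cc_of_isAlgebraic_cc (z : U) (hz : IsAlgebraic (cc K t ω₀) z) : z ∈ cc K t ω₀ := by
  rw [mem_cc]
  have h1 : IsAlgebraic (algebraicClosure (IntermediateField.adjoin K (t '' {ω₀}ᶜ)) U) z := hz
  exact h1.restrictScalars _

theorem transcendental_cc (ht : AlgebraicIndependent K t) : Transcendental (cc K t ω₀) (t ω₀) := by
  have h1 : Transcendental (IntermediateField.adjoin K (t '' {ω₀}ᶜ)) (t ω₀) :=
    IntermediateField.transcendental_adjoin_iff.2 (ht.transcendental_adjoin (by simp))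
  exact h1.algebraicClosure

end


end Pool.Agent.TH444.WC
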