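import Mathlib
import Pool.Agent.H84.L.S8_TH444_WC_Const
import Pool.Agent.H84.L.S8_TH444_WC_Gen



/-!
# The homomorphism to the wreath product
-/

set_option autoImplicit false

open Polynomial

namespace Pool.Agent.TH444.WC

section phi

variable {K L Ω Q U : Type} [Field K] [Field L] [Algebra K L] [FiniteDimensional K L] [IsGalois K L]
  [Fintype Ω] [DecidableEq Ω] [MulAction (L ≃ₐ[K] L) Ω]
  [Field Q] [Algebra (MvPolynomial Ω K) Q] [IsFractionRing (MvPolynomial Ω K) Q]
  [Algebra K Q] [IsScalarTower K (MvPolynomial Ω K) Q] [Field U] [Algebra Q U] [IsAlgClosure Q U]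
  [Algebra K U] [IsScalarTower K Q U] [Algebra L U] [IsScalarTower K L U]

omit [IsAlgClosure Q U] [IsGalois K L] [MulAction (L ≃ₐ[K] L) Ω] in
theorem L_mem_cc (t : Ω → U) (ω₀ : Ω) (x : L) : algebraMap L U x ∈ cc K t ω₀ :=
  mem_cc_of_isAlgebraic t ω₀ _ ((Algebra.IsAlgebraic.isAlgebraic (R := K) x).algebraMap)

omit [IsAlgClosure Q U] [IsGalois K L] [MulAction (L ≃ₐ[K] L) Ω] in
theorem Q_mem_adjoin (c d : Ω → Ω → L)
    (hd : ∀ i j, ∑ ω, d i ω * c j ω = if i = j then 1 else 0) (ω₀ : Ω) (q : Q) :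
    algebraMap Q U q ∈ IntermediateField.adjoin (cc K (tt K Q U c) ω₀) {tt K Q U c ω₀} := by
  have hcc : ∀ z ∈ cc K (tt K Q U c) ω₀,
      z ∈ IntermediateField.adjoin (cc K (tt K Q U c) ω₀) {tt K Q U c ω₀} := fun z hz =>
    (IntermediateField.adjoin (cc K (tt K Q U c) ω₀) {tt K Q U c ω₀}).algebraMap_mem ⟨z, hz⟩
  have htt : ∀ ω, tt K Q U c ω ∈
      IntermediateField.adjoin (cc K (tt K Q U c) ω₀) {tt K Q U c ω₀} := by
    intro ω
    by_cases h : ω = ω₀
    · subst h
      exact IntermediateField.subset_adjoin _ _ rfl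
    · exact hcc _ (mem_cc_of_ne _ _ ω h)
  have hyy : ∀ i, yy K Ω Q U i ∈
      IntermediateField.adjoin (cc K (tt K Q U c) ω₀) {tt K Q U c ω₀} := by
    intro i
    rw [yy_eq (K := K) (L := L) c d hd i]
    refine sum_mem fun ω _ => mul_mem (hcc _ (L_mem_cc _ _ _)) (htt ω)
  have hp : ∀ p : MvPolynomial Ω K, algebraMap Q U (algebraMap (MvPolynomial Ω K) Q p) ∈
      IntermediateField.adjoin (cc K (tt K Q U c) ω₀) {tt K Q U c ω₀} := by
    intro p
    induction p using MvPolynomial.induction_on with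
    | C a =>
      have h1 : (MvPolynomial.C a : MvPolynomial Ω K) = algebraMap K (MvPolynomial Ω K) a := rfl
      rw [h1, ← IsScalarTower.algebraMap_apply K (MvPolynomial Ω K) Q,
        ← IsScalarTower.algebraMap_apply K Q U]
      exact hcc _ ((cc K (tt K Q U c) ω₀).algebraMap_mem a)
    | add p q hp hq =>
      rw [map_add, map_add]; exact add_mem hp hq
    | mul_X p i hp =>
      rw [map_mul, map_mul]; exact mul_mem hp (hyy i)
  obtain ⟨p, r, -, rfl⟩ := IsFractionRing.div_surjective (A := MvPolynomial Ω K) q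
  rw [map_div₀]
  exact div_mem (hp p) (hp r)

omit [IsAlgClosure Q U] [IsGalois K L] [MulAction (L ≃ₐ[K] L) Ω] in
theorem tt_mem_adjoin (c : Ω → Ω → L) (ω₀ : Ω) :
    tt K Q U c ω₀ ∈ IntermediateField.adjoin Q (cc K (tt K Q U c) ω₀ : Set U) := by
  unfold tt
  refine sum_mem fun i _ => mul_mem ?_ ?_
  · exact IntermediateField.subset_adjoin _ _ (L_mem_cc (tt K Q U c) ω₀ (c i ω₀))
  · exact IntermediateField.algebraMap_mem _ _


end phi


end Pool.Agent.TH444.WC
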