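import Mathlib



/-!
# Equivariant functions on a finite set with an action of a Galois group

For a finite Galois extension `L/K` and a finite set `Ω` on which `Gal(L/K)` acts, the `L`-space of
all functions `Ω → L` has a basis of equivariant functions.
-/

set_option autoImplicit false

namespace Pool.Agent.TH444.WC

section
variable (K L : Type) [Field K] [Field L] [Algebra K L] [FiniteDimensional K L] [IsGalois K L]
variable (Ω : Type) [MulAction (L ≃ₐ[K] L) Ω]

/- the equivariant functions -/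
def eqv : Submonoid (Ω → L) where
  carrier := {f | ∀ (ρ : L ≃ₐ[K] L) (ω : Ω), f (ρ • ω) = ρ (f ω)}
  mul_mem' := by
    intro f g hf hg ρ ω
    simp only [Pi.mul_apply]
    rw [hf ρ ω, hg ρ ω, map_mul]
  one_mem' := by
    intro ρ ω
    simp

open scoped Classical in
/- equivariant functions separate points -/
theorem eqv_separates (ω ω' : Ω) (hne : ω ≠ ω') : ∃ f ∈ eqv K L Ω, f ω ≠ f ω' := by
  by_cases horb : ∃ τ : L ≃ₐ[K] L, τ • ω = ω'
  · obtain ⟨τ, hτ⟩ := horb
    -- an element fixed by the stabiliser and not by `τ`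
    have hτs : τ ∉ MulAction.stabilizer (L ≃ₐ[K] L) ω := by
      rw [MulAction.mem_stabilizer_iff, hτ]
      exact fun h => hne h.symm
    obtain ⟨x, hx, hxτ⟩ : ∃ x ∈ IntermediateField.fixedField
        (MulAction.stabilizer (L ≃ₐ[K] L) ω), τ x ≠ x := by
      by_contra hcon
      push Not at hcon
      apply hτs
      rw [← IntermediateField.fixingSubgroup_fixedField (MulAction.stabilizer (L ≃ₐ[K] L) ω)]
      rw [IntermediateField.mem_fixingSubgroup_iff]
      exact hcon
    have hx' : ∀ ρ : L ≃ₐ[K] L, ρ • ω = ω → ρ x = x := by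
      intro ρ hρ
      rw [IntermediateField.mem_fixedField_iff] at hx
      exact hx ρ (MulAction.mem_stabilizer_iff.2 hρ)
    let f : Ω → L := fun ω'' => if h : ∃ ρ : L ≃ₐ[K] L, ρ • ω = ω'' then h.choose x else 0
    have hf : ∀ ρ : L ≃ₐ[K] L, f (ρ • ω) = ρ x := by
      intro ρ
      have h : ∃ ρ' : L ≃ₐ[K] L, ρ' • ω = ρ • ω := ⟨ρ, rfl⟩
      simp only [f, dif_pos h]
      have h2 := h.choose_spec
      have h3 := hx' (ρ⁻¹ * h.choose) (by rw [mul_smul, h2, inv_smul_smul])
      have h4 := congrArg ρ h3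
      rw [← AlgEquiv.mul_apply, mul_inv_cancel_left] at h4
      exact h4
    refine ⟨f, ?_, ?_⟩
    · intro ρ ω''
      by_cases h : ∃ ρ' : L ≃ₐ[K] L, ρ' • ω = ω''
      · obtain ⟨ρ', rfl⟩ := h
        rw [← mul_smul, hf, hf, AlgEquiv.mul_apply]
      · have h' : ¬ ∃ ρ' : L ≃ₐ[K] L, ρ' • ω = ρ • ω'' := by
          rintro ⟨ρ', hρ'⟩
          apply h
          exact ⟨ρ⁻¹ * ρ', by rw [mul_smul, hρ', inv_smul_smul]⟩
        simp only [f, dif_neg h, dif_neg h', map_zero]
    · rw [← hτ, hf]
      have := hf 1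
      rw [one_smul] at this
      rw [this]
      intro h
      apply hxτ
      rw [← h]; rfl
  · refine ⟨fun ω'' => if ∃ ρ : L ≃ₐ[K] L, ρ • ω = ω'' then 1 else 0, ?_, ?_⟩
    · intro ρ ω''
      by_cases h : ∃ ρ' : L ≃ₐ[K] L, ρ' • ω = ω''
      · have h' : ∃ ρ' : L ≃ₐ[K] L, ρ' • ω = ρ • ω'' := by
          obtain ⟨ρ', rfl⟩ := h
          exact ⟨ρ * ρ', mul_smul _ _ _⟩
        simp only [if_pos h, if_pos h', map_one]
      · have h' : ¬ ∃ ρ' : L ≃ₐ[K] L, ρ' • ω = ρ • ω'' := by
          rintro ⟨ρ', hρ'⟩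
          apply h
          exact ⟨ρ⁻¹ * ρ', by rw [mul_smul, hρ', inv_smul_smul]⟩
        simp only [if_neg h, if_neg h', map_zero]
    · have h1 : ∃ ρ : L ≃ₐ[K] L, ρ • ω = ω := ⟨1, one_smul _ _⟩
      simp only [if_pos h1, if_neg horb]
      exact one_ne_zero

variable [Finite Ω]

theorem eqv_span : Submodule.span L (eqv K L Ω : Set (Ω → L)) = ⊤ := by
  classical
  have := Fintype.ofFinite Ω
  by_contra hne
  obtain ⟨φ, hφ0, hφ⟩ := Submodule.exists_le_ker_of_lt_top _ (lt_top_iff_ne_top.2 hne)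
  apply hφ0
  -- the evaluations are linearly independent
  let χ : Ω → (eqv K L Ω →* L) := fun ω =>
    { toFun := fun f => f.1 ω, map_one' := rfl, map_mul' := fun _ _ => rfl }
  have hχ : Function.Injective χ := by
    intro ω ω' h
    by_contra hne
    obtain ⟨f, hf, hfne⟩ := eqv_separates K L Ω ω ω' hne
    exact hfne (congrArg (fun g : eqv K L Ω →* L => g ⟨f, hf⟩) h)
  have hli := (linearIndependent_monoidHom (eqv K L Ω) L).comp χ hχ
  rw [Fintype.linearIndependent_iff] at hli
  have h0 := hli (fun ω => φ (Pi.single ω 1)) (by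
    funext f
    have h1 : φ f.1 = 0 := by
      have := hφ (Submodule.subset_span f.2)
      rwa [LinearMap.mem_ker] at this
    rw [Finset.sum_apply]
    simp only [Pi.smul_apply, Function.comp_apply, smul_eq_mul, Pi.zero_apply]
    rw [← h1]
    conv_rhs => rw [pi_eq_sum_univ f.1, map_sum]
    apply Finset.sum_congr rfl
    intro ω _
    rw [map_smul, smul_eq_mul, mul_comm]
    change f.1 ω * _ = _
    congr 2
    funext ω'
    by_cases h : ω = ω'
    · subst h; simp
    · simp [h, Pi.single_apply, Ne.symm h])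
  apply LinearMap.pi_ext'
  intro ω
  apply LinearMap.ext_ring
  simp only [LinearMap.coe_comp, Function.comp_apply, LinearMap.coe_single, LinearMap.zero_apply]
  exact h0 ω

theorem exists_eqv_basis [Fintype Ω] [DecidableEq Ω] : ∃ c d : Ω → Ω → L,
    (∀ i (ρ : L ≃ₐ[K] L) ω, c i (ρ • ω) = ρ (c i ω)) ∧
    (∀ i j, ∑ ω, d i ω * c j ω = if i = j then 1 else 0) ∧
    (∀ ω ω', ∑ i, c i ω * d i ω' = if ω = ω' then 1 else 0) := by
  classical
  obtain ⟨s, hs, hsp, hli⟩ := exists_linearIndependent L (eqv K L Ω : Set (Ω → L))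
  rw [eqv_span K L Ω] at hsp
  let B : Module.Basis s L (Ω → L) := Module.Basis.mk hli (by
    rw [Subtype.range_coe_subtype, Set.setOf_mem_eq, hsp])
  have hfin : Finite s := Module.Finite.finite_basis B
  have := Fintype.ofFinite s
  have hcard : Fintype.card s = Fintype.card Ω := by
    rw [← Module.finrank_eq_card_basis B, Module.finrank_fintype_fun_eq_card]
  let e : s ≃ Ω := Fintype.equivOfCardEq hcard
  let B' : Module.Basis Ω L (Ω → L) := B.reindex e
  have hB' : ∀ i, B' i ∈ eqv K L Ω := by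
    intro i
    have : B' i = ((e.symm i : s) : Ω → L) := by
      simp only [B', Module.Basis.reindex_apply, B, Module.Basis.mk_apply]
    rw [this]
    exact hs (e.symm i).2
  have h1 : ∀ i j, ∑ ω, B'.repr (Pi.single ω 1) i * B' j ω = if i = j then 1 else 0 := by
    intro i j
    have h2 : (B'.repr (B' j)) i = if i = j then 1 else 0 := by
      rw [Module.Basis.repr_self, Finsupp.single_apply]
      simp only [eq_comm]
    rw [← h2]
    conv_rhs => rw [pi_eq_sum_univ (B' j)]
    rw [map_sum, Finsupp.finset_sum_apply]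
    apply Finset.sum_congr rfl
    intro ω _
    rw [map_smul, Finsupp.smul_apply, smul_eq_mul, mul_comm]
    congr 3
    funext ω'
    by_cases h : ω = ω'
    · subst h; simp
    · simp [h, Pi.single_apply, Ne.symm h]
  refine ⟨fun i => B' i, fun i ω => B'.repr (Pi.single ω 1) i, fun i ρ ω => hB' i ρ ω, h1, ?_⟩
  let M : Matrix Ω Ω L := Matrix.of fun i ω => B'.repr (Pi.single ω 1) i
  let N : Matrix Ω Ω L := Matrix.of fun ω j => B' j ω
  have hMN : M * N = 1 := by
    ext i j
    rw [Matrix.mul_apply, Matrix.one_apply]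
    exact h1 i j
  have hNM : N * M = 1 := mul_eq_one_comm.1 hMN
  intro ω ω'
  have := congrFun (congrFun hNM ω) ω'
  rw [Matrix.mul_apply, Matrix.one_apply] at this
  exact this

end

end Pool.Agent.TH444.WC
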