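import Mathlib
import Pool.Agent.H84.L.S8_H391R2_T4_DegN
import Pool.Agent.H84.L.S8_H391R2_T4_Nod
import Pool.Agent.H84.L.S8_H391R2_T4_Sem
import Pool.Agent.H84.L.S8_TH444_TW_Core
import Pool.Agent.H84.L.S8_TH444_WC_Eq
import Pool.Agent.H84.L.S8_TH444_WC_Gal
import Pool.Agent.H84.L.S8_TH444_WC_Gen
import Pool.Agent.H84.L.S8_W200_IG_Fam
import Pool.Agent.H84.L.S8_W200_IJ_SA
import Pool.Agent.H84.L.S8_W200_IJ_SG

namespace Pool.Agent.H391R2.T4
end Pool.Agent.H391R2.T4
namespace Pool.Agent.TH444.WC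
end Pool.Agent.TH444.WC


/-!
# Induced embedding problems

Weil restriction of regular solutions: `L/K` finite Galois, `α : X → Gal(L/K)` surjective, `Δ` a
subgroup of `Gal(L/K)`, `q : α⁻¹(Δ) → H` a homomorphism over `Gal(L/L^Δ)`.  If `X` is determined
by the conjugates of `q` (injectivity and counting), a regular solution of `H → Gal(L/L^Δ)` over
`L^Δ(t)` gives a regular solution of `α` over a field of rational functions over `K`, and over
`K(t)` when `K` is infinite.
-/

set_option autoImplicit false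

open Polynomial

namespace Pool.Agent.TH444.TW

open Pool.Agent.TH444.WC Pool.Agent.H391R2.T4

/- Independent prescription of the local components. -/
theorem crt {Γ Ω X H : Type} [Group Γ] [MulAction Γ Ω] [Finite Ω] [Group X] [Group H] [Finite H]
    (α : X →* Γ) (o : Ω) (r : Ω → X) (hr : ∀ ω, α (r ω) • o = ω)
    (X₁ : Subgroup X) (hX₁ : ∀ x, x ∈ X₁ ↔ α x • o = o) (q : X₁ →* H)
    {Γ' : Type} [Group Γ'] (αH : H →* Γ')
    (hq : ∀ x : X₁, α x = 1 → αH (q x) = 1)
    (hinj : ∀ n : X, α n = 1 → (∀ ω (y : X₁), (y : X) = (r ω)⁻¹ * n * r ω → q y = 1) → n = 1)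
    (hcard : Nat.card αH.ker ^ Nat.card Ω ≤ Nat.card α.ker)
    (f : Ω → H) (hf : ∀ ω, αH (f ω) = 1) :
    ∃ n : X, α n = 1 ∧ ∀ ω (y : X₁), (y : X) = (r ω)⁻¹ * n * r ω → q y = f ω := by
  classical
  have hconj : ∀ (x n : X), α n = 1 → x⁻¹ * n * x ∈ X₁ := by
    intro x n hn
    rw [hX₁, map_mul, map_mul, hn, mul_one, ← map_mul, inv_mul_cancel, map_one, one_smul]
  have hconj1 : ∀ (x n : X), α n = 1 → α (x⁻¹ * n * x) = 1 := by
    intro x n hn
    rw [map_mul, map_mul, hn, mul_one, ← map_mul, inv_mul_cancel, map_one]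
  let E : α.ker → (Ω → αH.ker) := fun n ω =>
    ⟨q ⟨(r ω)⁻¹ * n * r ω, hconj (r ω) n n.2⟩, hq _ (hconj1 (r ω) n n.2)⟩
  have hE : Function.Injective E := by
    intro n m hnm
    have h1 : (m : X)⁻¹ * n = 1 := by
      apply hinj
      · rw [map_mul, map_inv, (n.2 : α n = 1), (m.2 : α m = 1), inv_one, mul_one]
      · intro ω y hy
        have h2 := congrArg Subtype.val (congrFun hnm ω)
        have h3 : q ⟨(r ω)⁻¹ * n * r ω, hconj (r ω) n n.2⟩ =
          q ⟨(r ω)⁻¹ * m * r ω, hconj (r ω) m m.2⟩ := h2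
        have h4 : y = (⟨(r ω)⁻¹ * m * r ω, hconj (r ω) m m.2⟩ : X₁)⁻¹ *
            ⟨(r ω)⁻¹ * n * r ω, hconj (r ω) n n.2⟩ := by
          apply Subtype.ext
          rw [hy]
          change _ = ((r ω)⁻¹ * m * r ω)⁻¹ * ((r ω)⁻¹ * n * r ω)
          group
        rw [h4, map_mul, map_inv, h3, inv_mul_cancel]
    exact Subtype.ext (inv_mul_eq_one.1 h1).symm
  have hbij := hE.bijective_of_nat_card_le (by
    rw [Nat.card_fun]
    exact hcard)
  obtain ⟨n, hn⟩ := hbij.2 fun ω => ⟨f ω, hf ω⟩
  refine ⟨n, n.2, fun ω y hy => ?_⟩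
  have h1 := congrArg Subtype.val (congrFun hn ω)
  have h2 : y = ⟨(r ω)⁻¹ * n * r ω, hconj (r ω) n n.2⟩ := Subtype.ext hy
  rw [h2]
  exact h1

/- The generic form of the induction theorem. -/
theorem induce_gen {K L Ω X H : Type} [Field K] [Field L] [Algebra K L] [FiniteDimensional K L]
    [IsGalois K L] [Finite Ω] [MulAction (L ≃ₐ[K] L) Ω] [Group X] [Group H] [Finite X]
    (α : X →* (L ≃ₐ[K] L)) (hα : Function.Surjective α) (o : Ω) (r : Ω → X)
    (hr : ∀ ω, α (r ω) • o = ω)
    (X₁ : Subgroup X) (hX₁ : ∀ x, x ∈ X₁ ↔ α x • o = o) (q : X₁ →* H)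
    (αH : H →* (L ≃ₐ[K] L)) (hq : ∀ x : X₁, αH (q x) = α x)
    (hinj : ∀ n : X, α n = 1 → (∀ ω (y : X₁), (y : X) = (r ω)⁻¹ * n * r ω → q y = 1) → n = 1)
    (hcrt : ∀ f : Ω → H, (∀ ω, αH (f ω) = 1) → ∃ n : X, α n = 1 ∧
      ∀ ω (y : X₁), (y : X) = (r ω)⁻¹ * n * r ω → q y = f ω)
    {F : Type} [Field F] [Algebra (RatFunc L) F] [Algebra L F] [IsScalarTower L (RatFunc L) F]
    [FiniteDimensional (RatFunc L) F] [IsGalois (RatFunc L) F] (s : H →* RingAut F)
    (hreg : ∀ y : F, IsAlgebraic L y → y ∈ Set.range (algebraMap L F))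
    (hs1 : ∀ h l, s h (algebraMap L F l) = algebraMap L F (αH h l))
    (hs2 : ∀ h, s h (algebraMap (RatFunc L) F RatFunc.X) =
      algebraMap (RatFunc L) F RatFunc.X)
    (hs3 : ∀ b : F ≃ₐ[RatFunc L] F, ∃ h, αH h = 1 ∧ ∀ x, s h x = b x)
    (hs4 : Function.Injective s) :
    SolOver K L X α (FractionRing (MvPolynomial Ω K)) True := by
  classical
  have : Fintype Ω := Fintype.ofFinite Ω
  let Q := FractionRing (MvPolynomial Ω K)
  let U := AlgebraicClosure Q
  let φ : L →ₐ[K] U := IsAlgClosed.lift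
  let _ : Algebra L U := φ.toRingHom.toAlgebra
  have t1 : IsScalarTower K L U := IsScalarTower.of_algebraMap_eq fun k => (φ.commutes k).symm
  obtain ⟨c, d, hc, hd, hd'⟩ := exists_eqv_basis K L Ω
  obtain ⟨j, Φ, hj1, hj2, hsurj, hres, hker, hone⟩ :=
    exists_hom (K := K) (Q := Q) (U := U) hreg c d hc hd hd' α hα o r hr X₁ hX₁ q αH hq s
      hs1 hs2 hs3 hs4 hinj hcrt
  have hnorm : Normal Q U := IsAlgClosure.normal Q U
  -- a finite set of generators
  let b := Module.finBasis (RatFunc L) F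
  let bL := Module.finBasis K L
  let S : Set U := (Set.range fun p : Ω × Fin (Module.finrank (RatFunc L) F) => j p.1 (b p.2)) ∪
    Set.range fun i => algebraMap L U (bL i)
  have hSf : S.Finite := (Set.finite_range _).union (Set.finite_range _)
  have hS : ∀ σ : U ≃ₐ[Q] U, (∀ x ∈ S, σ x = x) → Φ σ = 1 := by
    intro σ hσS
    have hL : ∀ x : L, σ (algebraMap L U x) = algebraMap L U x := by
      intro x
      rw [← bL.sum_repr x, map_sum, map_sum]
      apply Finset.sum_congr rfl
      intro i _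
      rw [Algebra.smul_def, map_mul, map_mul, hσS _ (Or.inr ⟨i, rfl⟩),
        ← IsScalarTower.algebraMap_apply K L U, IsScalarTower.algebraMap_apply K Q U,
        AlgEquiv.commutes]
    refine hone σ (fun ω x => ?_) hL
    have hbase : ((σ : U →+* U).comp (j ω)).comp (algebraMap (RatFunc L) F) =
        (j ω).comp (algebraMap (RatFunc L) F) := by
      apply ratFunc_hom_ext
      · intro l
        simp only [RingHom.comp_apply]
        rw [← IsScalarTower.algebraMap_apply L (RatFunc L) F, hj1]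
        exact hL _
      · simp only [RingHom.comp_apply]
        rw [hj2]
        change σ (tt K Q U c ω) = _
        unfold tt
        rw [map_sum]
        apply Finset.sum_congr rfl
        intro i _
        rw [map_mul, hL]
        congr 1
        exact σ.commutes _
    rw [← b.sum_repr x, map_sum, map_sum]
    apply Finset.sum_congr rfl
    intro i _
    rw [Algebra.smul_def, map_mul, map_mul, hσS _ (Or.inl ⟨(ω, i), rfl⟩)]
    congr 1
    exact RingHom.congr_fun hbase _
  obtain ⟨E, e1, e2, e3, e4, e5, e6, e, he, hsep⟩ :=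
    Pool.Agent.W200.IJ.finite_descent2 (F := Q) (N := U) Φ hsurj S hSf hS
  -- the embedding of `L`
  have hLE : ∀ l : L, ∃ x : E, algebraMap E U x = algebraMap L U l := by
    intro l
    apply hsep
    · have h1 : IsSeparable K l := Algebra.IsSeparable.isSeparable K l
      have h2 : IsSeparable K (algebraMap L U l) := by
        unfold IsSeparable at h1 ⊢
        rwa [minpoly.algebraMap_eq (algebraMap L U).injective]
      exact h2.tower_top Q
    · intro σ hσ
      rw [← res_spec (K := K) (L := L) (Q := Q) (U := U), ← hres, hσ, map_one]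
      rfl
  choose g hg using hLE
  let G : L →+* E :=
    { toFun := g
      map_one' := (algebraMap E U).injective (by rw [hg, map_one, map_one])
      map_mul' := fun a b => (algebraMap E U).injective (by rw [hg, map_mul, map_mul, hg, hg])
      map_zero' := (algebraMap E U).injective (by rw [hg, map_zero, map_zero])
      map_add' := fun a b => (algebraMap E U).injective (by rw [hg, map_add, map_add, hg, hg]) }
  let _ : Algebra L E := G.toAlgebra
  have hLEU : ∀ l : L, algebraMap E U (algebraMap L E l) = algebraMap L U l := hg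
  let _ : Algebra K E := ((algebraMap Q E).comp (algebraMap K Q)).toAlgebra
  have t2 : IsScalarTower K Q E := IsScalarTower.of_algebraMap_eq fun _ => rfl
  have t3 : IsScalarTower K E U := IsScalarTower.of_algebraMap_eq fun k => by
    change _ = algebraMap E U (algebraMap Q E (algebraMap K Q k))
    rw [← IsScalarTower.algebraMap_apply Q E U, ← IsScalarTower.algebraMap_apply K Q U]
  have t4 : IsScalarTower K L E := IsScalarTower.of_algebraMap_eq fun k => by
    apply (algebraMap E U).injective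
    rw [hLEU, ← IsScalarTower.algebraMap_apply K L U, ← IsScalarTower.algebraMap_apply K E U]
  have hcompat : ∀ (τ : E ≃ₐ[Q] E) (l : L), τ (algebraMap L E l) =
      algebraMap L E (α (e τ) l) := by
    intro τ l
    obtain ⟨σ, hσ⟩ := hsurj (e τ)
    have h1 := he σ (algebraMap L E l)
    rw [hσ, MulEquiv.symm_apply_apply, hLEU, ← res_spec (K := K) (L := L) (Q := Q) (U := U),
      ← hres, hσ] at h1
    apply (algebraMap E U).injective
    rw [hLEU]
    exact h1.symm
  refine ⟨E, e1, e2, inferInstance, inferInstance, t2, t4, e5, e6, e, hcompat, fun _ => ?_⟩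
  intro y hy
  apply Pool.Agent.W200.IJ.reg_of_inv (k := K) (M := L) (E := Q) (F := E)
    (fun z hz => Pool.Agent.W200.IJ.const_frac (V := Ω) z hz) _ y hy
  · intro τ hτ
    have h1 : α (e τ) = 1 := by
      ext l
      apply (algebraMap L E).injective
      rw [← hcompat, hτ]
      rfl
    obtain ⟨σ, h2, h3⟩ := hker _ h1
    have h4 := he σ y
    rw [h3, MulEquiv.symm_apply_apply] at h4
    apply (algebraMap E U).injective
    rw [← h4]
    apply h2
    have h5 : IsAlgebraic K y := hy.restrictScalars K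
    exact h5.algebraMap
  · intro ρ
    obtain ⟨x, hx⟩ := hα ρ
    refine ⟨e.symm x, fun a => ?_⟩
    rw [hcompat, MulEquiv.apply_symm_apply, hx]

end Pool.Agent.TH444.TW
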