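import Mathlib
import Pool.Agent.H84.L.S8_H391R2_T4_Sem
import Pool.Agent.H84.L.S8_H391R2_WrGrp
import Pool.Agent.H84.L.S8_TH15_IGP_TwB
import Pool.Agent.H84.L.S8_W200_IJ_SA

namespace Pool.Agent.H391R2
end Pool.Agent.H391R2
namespace Pool.Agent.H391R2.T4
end Pool.Agent.H391R2.T4


/-!
# Semidirect products `A^k ⋊ Γ` for homomorphisms `Γ → B ≀ S_k`
-/

set_option autoImplicit false

namespace Pool.Agent.TH444.TW

open Pool.Agent.H391R2 Pool.Agent.H391R2.T4

theorem perm_inv_self {α : Type} (e : Equiv.Perm α) (x : α) : e⁻¹ (e x) = x :=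
  e.symm_apply_apply x

theorem perm_self_inv {α : Type} (e : Equiv.Perm α) (x : α) : e (e⁻¹ x) = x :=
  e.apply_symm_apply x

section defs

variable {Γ B A : Type} [Group Γ] [Group B] [Group A] {k : ℕ}

/- For a group `B` acting on `A`, the wreath product `B ≀ S_k` acts on `A^k`. -/
def powAct (θ : B →* MulAut A) (k : ℕ) : Wr B k →* MulAut (Fin k → A) where
  toFun w :=
    { toFun := fun f i => θ (w.left i) (f (w.right⁻¹ i))
      invFun := fun f i => (θ (w.left (w.right i)))⁻¹ (f (w.right i))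
      left_inv := fun f => by
        funext i
        change (θ (w.left (w.right i)))⁻¹ (θ (w.left (w.right i)) (f (w.right⁻¹ (w.right i)))) = f i
        rw [perm_inv_self, MulAut.inv_apply_self]
      right_inv := fun f => by
        funext i
        change θ (w.left i) ((θ (w.left (w.right (w.right⁻¹ i))))⁻¹
          (f (w.right (w.right⁻¹ i)))) = f i
        rw [perm_self_inv, MulAut.apply_inv_self]
      map_mul' := fun f g => by
        funext i
        change θ (w.left i) (f (w.right⁻¹ i) * g (w.right⁻¹ i)) = _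
        rw [map_mul]
        rfl }
  map_one' := by
    apply MulEquiv.ext
    intro f
    funext i
    change θ ((1 : Wr B k).left i) (f ((1 : Wr B k).right⁻¹ i)) = f i
    rw [SemidirectProduct.one_left, SemidirectProduct.one_right, Pi.one_apply, map_one, inv_one]
    rfl
  map_mul' w w' := by
    apply MulEquiv.ext
    intro f
    funext i
    change θ ((w * w').left i) (f ((w * w').right⁻¹ i)) =
      θ (w.left i) (θ (w'.left (w.right⁻¹ i)) (f (w'.right⁻¹ (w.right⁻¹ i))))
    rw [wr_mul_left, wr_mul_right, map_mul, mul_inv_rev]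
    rfl

/- The group `A^k ⋊ Γ`, where `Γ` acts through `ψ : Γ → B ≀ S_k`. -/
abbrev PowSd (θ : B →* MulAut A) (ψ : Γ →* Wr B k) : Type :=
  (Fin k → A) ⋊[(powAct θ k).comp ψ] Γ

variable (θ : B →* MulAut A) (ψ : Γ →* Wr B k)

theorem pow_mul_left (x y : PowSd θ ψ) (i : Fin k) :
    (x * y).left i = x.left i * θ ((ψ x.right).left i) (y.left ((ψ x.right).right⁻¹ i)) := rfl

/- The invariant sets of coordinates. -/
def Inv (S : Finset (Fin k)) : Prop := ∀ (γ : Γ) (i : Fin k), (ψ γ).right i ∈ S ↔ i ∈ S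

variable {ψ} in
theorem Inv.symm' {S : Finset (Fin k)} (hS : Inv ψ S) (γ : Γ) (i : Fin k) :
    (ψ γ).right⁻¹ i ∈ S ↔ i ∈ S := by
  rw [← hS γ, perm_self_inv]

/- The elements with trivial coordinates outside `S`. -/
def XS (S : Finset (Fin k)) (hS : Inv ψ S) : Subgroup (PowSd θ ψ) where
  carrier := {x | ∀ i ∉ S, x.left i = 1}
  mul_mem' := fun {x y} hx hy i hi => by
    rw [pow_mul_left, hx i hi, hy _ (by rwa [hS.symm']), map_one, mul_one]
  one_mem' := fun i _ => rfl
  inv_mem' := fun {x} hx i hi => by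
    have h1 := congrArg (fun z : PowSd θ ψ => z.left ((ψ x.right).right i)) (mul_inv_cancel x)
    change (x * x⁻¹).left ((ψ x.right).right i) = 1 at h1
    rw [pow_mul_left, perm_inv_self, hx _ (by rwa [hS]), one_mul] at h1
    exact (map_eq_one_iff _ (MulEquiv.injective _)).1 h1

/- The projection to `Γ`. -/
def rt (S : Finset (Fin k)) (hS : Inv ψ S) : XS θ ψ S hS →* Γ :=
  SemidirectProduct.rightHom.comp (XS θ ψ S hS).subtype

/- The projection to fewer coordinates. -/
def pr (S S₀ : Finset (Fin k)) (hS : Inv ψ S) (hS₀ : Inv ψ S₀) :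
    XS θ ψ S hS →* XS θ ψ S₀ hS₀ := MonoidHom.mk'
  (fun x => ⟨⟨fun i => if i ∈ S₀ then x.1.left i else 1, x.1.right⟩, fun i hi => if_neg hi⟩) (by
    intro x y
    apply Subtype.ext
    apply SemidirectProduct.ext
    · funext i
      change (if i ∈ S₀ then (x.1 * y.1).left i else 1) =
        (if i ∈ S₀ then x.1.left i else 1) * θ ((ψ x.1.right).left i)
          (if (ψ x.1.right).right⁻¹ i ∈ S₀ then y.1.left ((ψ x.1.right).right⁻¹ i) else 1)
      by_cases hi : i ∈ S₀
      · rw [if_pos hi, if_pos hi, if_pos ((hS₀.symm' _ _).2 hi), pow_mul_left]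
      · rw [if_neg hi, if_neg hi, if_neg (fun h => hi ((hS₀.symm' _ _).1 h)), map_one, one_mul]
    · rfl)

theorem rt_pr (S S₀ : Finset (Fin k)) (hS : Inv ψ S) (hS₀ : Inv ψ S₀) :
    (rt θ ψ S₀ hS₀).comp (pr θ ψ S S₀ hS hS₀) = rt θ ψ S hS := rfl

end defs

end Pool.Agent.TH444.TW
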