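import Mathlib
import Pool.Prelude.Def_F_b1b78ff3
import Pool.Agent.H84.L.S8_H391R2_WrGrp

namespace Nfff32c05
end Nfff32c05


namespace Pool.Agent.H391R2

open Nfff32c05

/- Functoriality of the wreath product in the base group. -/
noncomputable def wrMap {G H : Type} [Group G] [Group H] (f : G →* H) (n : ℕ) : Wr G n →* Wr H n :=
  SemidirectProduct.map (f.compLeft (Fin n)) (MonoidHom.id _) (fun σ => by
    ext x i
    rfl)

theorem wrMap_surjective {G H : Type} [Group G] [Group H] (f : G →* H) (n : ℕ)
    (hf : Function.Surjective f) : Function.Surjective (wrMap f n) := by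
  intro x
  choose g hg using fun i => hf (x.left i)
  refine ⟨⟨g, x.right⟩, ?_⟩
  apply SemidirectProduct.ext
  · funext i
    exact hg i
  · rfl


end Pool.Agent.H391R2
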