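import Mathlib
import Pool.Agent.H84.L.S8_H391R2_T4_Dt1
import Pool.Agent.H84.L.S8_H391R2_T4_Nod
import Pool.Agent.H84.L.S8_H391R2_T4_Par
import Pool.Agent.H84.L.S8_H391R2_T4_Sem



set_option autoImplicit false

namespace Pool.Agent.H391R2.T4

open MvPolynomial

set_option linter.unusedSectionVars false

theorem exists_nat_avoid (K : Type) [Infinite K] (S : Set K) (hS : S.Finite) :
    ∃ c : ℕ → K, Function.Injective c ∧ ∀ m, c m ∉ S := by
  have : Infinite {x : K // x ∉ S} := by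
    have h1 : (Sᶜ).Infinite := hS.infinite_compl
    exact h1.to_subtype
  let e := Infinite.natEmbedding {x : K // x ∉ S}
  exact ⟨fun m => (e m : K), fun a b h => e.injective (Subtype.ext h), fun m => (e m).2⟩

section nodes

variable (K L : Type) [Field K] [CharZero K] [Field L] [Algebra K L]
  [FiniteDimensional K L] [IsGalois K L]

theorem exists_nodes (G : Type) [Finite G] : ∃ nod : ((L ≃ₐ[K] L) × G) ⊕ ℕ → L,
    Function.Injective nod ∧ (∀ v, nod v ≠ 0) ∧
    (∀ (ρ γ : L ≃ₐ[K] L) (g : G), ρ (nod (Sum.inl (γ, g))) = nod (Sum.inl (ρ * γ, g))) ∧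
    ∀ (ρ : L ≃ₐ[K] L) (m : ℕ), ρ (nod (Sum.inr m)) = nod (Sum.inr m) := by
  classical
  obtain ⟨θ, hθ⟩ := exists_prim K L
  have hinj := (algebraMap K L).injective
  have hinf : Infinite K := inferInstance
  have hS1 : {c : K | ∃ γ : L ≃ₐ[K] L, γ θ + algebraMap K L c = 0}.Finite := by
    have h1 : {c : K | ∃ γ : L ≃ₐ[K] L, γ θ + algebraMap K L c = 0} ⊆
        (algebraMap K L) ⁻¹' (Set.range fun γ : L ≃ₐ[K] L => -γ θ) := by
      rintro c ⟨γ, hγ⟩
      exact ⟨γ, by
        change -γ θ = algebraMap K L c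
        linear_combination -hγ⟩
    exact ((Set.finite_range _).preimage hinj.injOn).subset h1
  obtain ⟨c, hc, hcS⟩ := exists_nat_avoid K _ hS1
  obtain ⟨e⟩ : Nonempty (G ↪ ℕ) := by
    have := Fintype.ofFinite G
    exact ⟨(Fintype.equivFin G).toEmbedding.trans Fin.valEmbedding⟩
  have hS2 : {x : K | x = 0 ∨ ∃ p : (L ≃ₐ[K] L) × G, algebraMap K L x =
      p.1 θ + algebraMap K L (c (e p.2))}.Finite := by
    have h1 : {x : K | x = 0 ∨ ∃ p : (L ≃ₐ[K] L) × G, algebraMap K L x =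
      p.1 θ + algebraMap K L (c (e p.2))} ⊆ {0} ∪ (algebraMap K L) ⁻¹' (Set.range
        fun p : (L ≃ₐ[K] L) × G => p.1 θ + algebraMap K L (c (e p.2))) := by
      rintro x (hx | ⟨p, hp⟩)
      · exact Or.inl hx
      · exact Or.inr ⟨p, hp.symm⟩
    exact ((Set.finite_singleton _).union ((Set.finite_range _).preimage hinj.injOn)).subset h1
  obtain ⟨c', hc', hcS'⟩ := exists_nat_avoid K _ hS2
  refine ⟨Sum.elim (fun p => p.1 θ + algebraMap K L (c (e p.2))) (fun m => algebraMap K L (c' m)),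
    ?_, ?_, ?_, ?_⟩
  · rintro (p | m) (p' | m') h
    · change p.1 θ + algebraMap K L (c (e p.2)) = p'.1 θ + algebraMap K L (c (e p'.2)) at h
      have h1 : p.1 = p'.1 := hθ _ _ ⟨c (e p'.2) - c (e p.2), by
        rw [map_sub]
        linear_combination h⟩
      have h2 : p.2 = p'.2 := by
        rw [h1] at h
        exact e.injective (hc (hinj (add_left_cancel h)))
      rw [Prod.ext h1 h2]
    · exact absurd (show c' m' ∈ _ from Or.inr ⟨p, h.symm⟩) (hcS' m')
    · exact absurd (show c' m ∈ _ from Or.inr ⟨p', h⟩) (hcS' m)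
    · exact congrArg _ (hc' (hinj h))
  · rintro (p | m)
    · exact fun h => hcS _ ⟨p.1, h⟩
    · intro h
      exact hcS' m (Or.inl ((map_eq_zero_iff _ hinj).1 h))
  · intro ρ γ g
    change ρ (γ θ + algebraMap K L (c (e g))) = (ρ * γ) θ + algebraMap K L (c (e g))
    rw [map_add, ρ.commutes]
    rfl
  · intro ρ m
    exact ρ.commutes _

end nodes

section den

variable {K L K₀ : Type} [Field K] [CharZero K] [Field L] [Algebra K L]
  [FiniteDimensional K L] [IsGalois K L]
  [Field K₀] [Algebra K K₀] [Algebra L K₀] [IsScalarTower K L K₀]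
  {G : Type} [Group G] [Finite G]

theorem exists_l (φ : (L ≃ₐ[K] L) →* MulAut G) (P : MvPolynomial G K₀) (hP : P ≠ 0) :
    ∃ l : G → L, (∀ (ρ : L ≃ₐ[K] L) (g : G), ρ (l g) = l (φ ρ g)) ∧
      aeval (fun g => algebraMap L K₀ (l g)) P ≠ 0 := by
  classical
  have := Fintype.ofFinite (L ≃ₐ[K] L)
  have := Fintype.ofFinite G
  obtain ⟨ω, ω', hω⟩ := exists_dual K L
  have hinfK : Infinite K := inferInstance
  have hinjK₀ : Function.Injective (algebraMap K K₀) := (algebraMap K K₀).injective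
  have hinf : Infinite K₀ := Infinite.of_injective _ hinjK₀
  let Λ : G → MvPolynomial ((L ≃ₐ[K] L) × G) K₀ := fun g =>
    ∑ ρ : L ≃ₐ[K] L, ∑ i : L ≃ₐ[K] L, C (algebraMap L K₀ (ρ (ω i))) * X (i, (φ ρ)⁻¹ g)
  have hΛ : ∀ (a : (L ≃ₐ[K] L) × G → K₀) (g : G), aeval a (Λ g) =
      ∑ ρ : L ≃ₐ[K] L, ∑ i : L ≃ₐ[K] L, algebraMap L K₀ (ρ (ω i)) * a (i, (φ ρ)⁻¹ g) := by
    intro a g
    simp only [Λ, map_sum, map_mul, aeval_X]
    refine Finset.sum_congr rfl fun ρ _ => Finset.sum_congr rfl fun i _ => ?_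
    rw [aeval_C]
    rfl
  obtain ⟨x, hx⟩ : ∃ x : G → K₀, aeval x P ≠ 0 := by
    by_contra hne
    push Not at hne
    apply hP
    apply MvPolynomial.funext
    intro x
    rw [map_zero]
    exact hne x
  have h1 : aeval Λ P ≠ 0 := by
    intro h0
    apply hx
    have h2 := congrArg (aeval (fun p : (L ≃ₐ[K] L) × G => algebraMap L K₀ (ω' p.1) * x p.2) :
      MvPolynomial ((L ≃ₐ[K] L) × G) K₀ → K₀) h0
    rw [map_zero, comp_aeval_apply] at h2
    rw [← h2]
    congr 2
    funext g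
    rw [hΛ, Finset.sum_eq_single 1]
    · have h3 : ∀ i : L ≃ₐ[K] L, algebraMap L K₀ ((1 : L ≃ₐ[K] L) (ω i)) *
          (algebraMap L K₀ (ω' i) * x ((φ 1)⁻¹ g)) =
          algebraMap L K₀ ((1 : L ≃ₐ[K] L) (ω i) * (1 : L ≃ₐ[K] L) (ω' i)) * x g := by
        intro i
        rw [map_one, inv_one, map_mul, ← mul_assoc]
        rfl
      simp only [h3]
      rw [← Finset.sum_mul, ← map_sum, hω, if_pos rfl, map_one, one_mul]
    · intro ρ _ hρ
      have h3 : ∀ i : L ≃ₐ[K] L, algebraMap L K₀ (ρ (ω i)) *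
          (algebraMap L K₀ (ω' i) * x ((φ ρ)⁻¹ g)) =
          algebraMap L K₀ (ρ (ω i) * (1 : L ≃ₐ[K] L) (ω' i)) * x ((φ ρ)⁻¹ g) := by
        intro i
        rw [map_mul, ← mul_assoc]
        rfl
      simp only [h3]
      rw [← Finset.sum_mul, ← map_sum, hω, if_neg hρ, map_zero, zero_mul]
    · intro h
      exact absurd (Finset.mem_univ _) h
  obtain ⟨a, ha, ha0⟩ : ∃ a ∈ Set.pi Set.univ
      (fun _ : (L ≃ₐ[K] L) × G => Set.range (algebraMap K K₀)), eval a (aeval Λ P) ≠ 0 := by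
    by_contra hne
    push Not at hne
    apply h1
    refine MvPolynomial.funext_set _ (fun _ => Set.infinite_range_of_injective hinjK₀)
      fun a ha => ?_
    rw [hne a ha, map_zero]
  choose a' ha' using fun p => ha p (Set.mem_univ p)
  let l : G → L := fun g =>
    ∑ ρ : L ≃ₐ[K] L, ∑ i : L ≃ₐ[K] L, ρ (ω i) * algebraMap K L (a' (i, (φ ρ)⁻¹ g))
  refine ⟨l, fun ρ' g => ?_, ?_⟩
  · simp only [l, map_sum, map_mul, AlgEquiv.commutes]
    conv_rhs => rw [← Equiv.sum_comp (Equiv.mulLeft ρ')]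
    refine Finset.sum_congr rfl fun ρ _ => Finset.sum_congr rfl fun i _ => ?_
    have h2 : (φ (Equiv.mulLeft ρ' ρ))⁻¹ (φ ρ' g) = (φ ρ)⁻¹ g := by
      rw [Equiv.coe_mulLeft, map_mul, mul_inv_rev, MulAut.mul_apply, MulAut.inv_apply_self]
    rw [h2]
    rfl
  · have h2 : (fun g => algebraMap L K₀ (l g)) = fun g => aeval a (Λ g) := by
      funext g
      rw [hΛ]
      simp only [l, map_sum, map_mul, ← IsScalarTower.algebraMap_apply, ha']
    rw [h2, ← comp_aeval_apply]
    exact ha0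

end den

section sep

theorem cop_unit {R : Type} [CommRing R] {a b : R} (h : IsUnit a) : IsCoprime a b := by
  obtain ⟨c, hc⟩ := h.exists_left_inv
  exact ⟨c, 0, by rw [hc, zero_mul, add_zero]⟩

open Classical in
theorem sep_c {k : Type} [Field k] [IsAlgClosed k] [CharZero k] {ι : Type} (s : Finset ι)
    (δ : ι → k) (hδ0 : ∀ q ∈ s, δ q ≠ 0) (hδ : ∀ q ∈ s, ∀ q' ∈ s, q ≠ q' → δ q ≠ δ q')
    (R : Polynomial k) (hR : R.Separable) (hR0 : R ≠ 0) :
    ∃ B : Set k, B.Finite ∧ ∀ c, c ≠ 0 → c ∉ B →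
      (Polynomial.C c * R * ∏ q ∈ s, (Polynomial.C c * (Polynomial.X ^ 2 * R) -
        Polynomial.C (δ q))).Separable := by
  set g : Polynomial k := Polynomial.X ^ 2 * R with hg
  have hg0 : g ≠ 0 := mul_ne_zero (pow_ne_zero _ Polynomial.X_ne_zero) hR0
  have hgd : 0 < g.natDegree := by
    rw [hg, Polynomial.natDegree_mul (pow_ne_zero _ Polynomial.X_ne_zero) hR0,
      Polynomial.natDegree_X_pow]
    omega
  have hg' : g.derivative ≠ 0 := by
    intro h
    have := Polynomial.derivative_eq_zero.1 h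
    omega
  refine ⟨⋃ q ∈ s, (fun x => δ q / g.eval x) '' (g.derivative.roots.toFinset : Set k),
    Set.Finite.biUnion s.finite_toSet fun q _ => (Finset.finite_toSet _).image _, ?_⟩
  intro c hc hcB
  have hc' : IsUnit (Polynomial.C c) := Polynomial.isUnit_C.2 (isUnit_iff_ne_zero.2 hc)
  refine Polynomial.Separable.mul (Polynomial.Separable.mul ?_ hR ?_) ?_ ?_
  · rw [Polynomial.separable_C]
    exact isUnit_iff_ne_zero.2 hc
  · exact cop_unit hc'
  · refine Polynomial.separable_prod' ?_ ?_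
    · intro q hq q' hq' hne
      have h1 : δ q' - δ q ≠ 0 := sub_ne_zero.2 (hδ q hq q' hq' hne).symm
      refine ⟨Polynomial.C (δ q' - δ q)⁻¹, -Polynomial.C (δ q' - δ q)⁻¹, ?_⟩
      have h2 : Polynomial.C (δ q' - δ q)⁻¹ * (Polynomial.C (δ q') - Polynomial.C (δ q)) = 1 := by
        rw [← Polynomial.C_sub, ← Polynomial.C_mul, inv_mul_cancel₀ h1, Polynomial.C_1]
      linear_combination h2
    · intro q hq
      rw [Polynomial.separable_def,
        Polynomial.isCoprime_iff_aeval_ne_zero_of_isAlgClosed k k]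
      intro a
      by_contra hne
      push Not at hne
      obtain ⟨h1, h2⟩ := hne
      simp only [Polynomial.coe_aeval_eq_eval, Polynomial.derivative_sub, Polynomial.derivative_mul,
        Polynomial.derivative_C, zero_mul, zero_add, sub_zero, Polynomial.eval_sub,
        Polynomial.eval_mul, Polynomial.eval_C] at h1 h2
      have h3 : g.derivative.eval a = 0 := (mul_eq_zero.1 h2).resolve_left hc
      have h4 : g.eval a ≠ 0 := by
        intro h5
        rw [h5, mul_zero, zero_sub, neg_eq_zero] at h1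
        exact hδ0 q hq h1
      apply hcB
      simp only [Set.mem_iUnion, Set.mem_image, SetLike.mem_coe, Multiset.mem_toFinset]
      refine ⟨q, hq, a, ?_, ?_⟩
      · rw [Polynomial.mem_roots hg']
        exact h3
      · rw [div_eq_iff h4]
        linear_combination -h1
  · refine IsCoprime.prod_right fun q hq => ?_
    refine IsCoprime.mul_left (cop_unit hc') ?_
    have h1 := hδ0 q hq
    refine ⟨Polynomial.C (δ q)⁻¹ * Polynomial.C c * Polynomial.X ^ 2,
      -Polynomial.C (δ q)⁻¹, ?_⟩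
    have h2 : Polynomial.C (δ q)⁻¹ * Polynomial.C (δ q) = 1 := by
      rw [← Polynomial.C_mul, inv_mul_cancel₀ h1, Polynomial.C_1]
    rw [hg]
    linear_combination h2

end sep


end Pool.Agent.H391R2.T4
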