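import Mathlib



set_option autoImplicit false

namespace Pool.Agent.H391R2.T4

open MvPolynomial

set_option linter.unusedSectionVars false

/- Existence of the big algebraically closed field. -/
theorem exists_big (K₀ V : Type) [Field K₀] : ∃ (N : Type) (_ : Field N) (_ : IsAlgClosed N)
    (_ : Algebra K₀ N) (ξ : V → N), IsTranscendenceBasis K₀ ξ := by
  classical
  let Fr := FractionRing (MvPolynomial V K₀)
  let N := AlgebraicClosure Fr
  let ξ : V → N := fun v => algebraMap Fr N (algebraMap (MvPolynomial V K₀) Fr (X v))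
  have hξ : AlgebraicIndependent K₀ ξ := by
    have h1 : AlgebraicIndependent K₀ (X : V → MvPolynomial V K₀) :=
      algebraicIndependent_X _ _
    have h2 := h1.map' (f := IsScalarTower.toAlgHom K₀ (MvPolynomial V K₀) Fr)
      (IsFractionRing.injective (MvPolynomial V K₀) _)
    exact h2.map' (f := IsScalarTower.toAlgHom K₀ Fr N) (algebraMap Fr N).injective
  refine ⟨N, inferInstance, inferInstance, inferInstance, ξ, ?_⟩
  rw [hξ.isTranscendenceBasis_iff_isAlgebraic]
  refine ⟨fun z => ?_⟩
  have h1 : IsAlgebraic Fr z := Algebra.IsAlgebraic.isAlgebraic z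
  have h2 : IsAlgebraic (MvPolynomial V K₀) z :=
    (IsFractionRing.isAlgebraic_iff (MvPolynomial V K₀) Fr N).2 h1
  obtain ⟨p, hp, hpz⟩ := h2
  have hmem : ∀ q : MvPolynomial V K₀, aeval ξ q ∈ Algebra.adjoin K₀ (Set.range ξ) := by
    intro q
    rw [Algebra.adjoin_range_eq_range_aeval]
    exact ⟨q, rfl⟩
  let ψ : MvPolynomial V K₀ →+* Algebra.adjoin K₀ (Set.range ξ) :=
    ((aeval ξ : MvPolynomial V K₀ →ₐ[K₀] N) : MvPolynomial V K₀ →+* N).codRestrict _ hmem
  have hψ : Function.Injective ψ := by
    intro a b hab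
    exact algebraicIndependent_iff_injective_aeval.1 hξ (congrArg Subtype.val hab)
  refine ⟨p.map ψ, (Polynomial.map_ne_zero_iff hψ).2 hp, ?_⟩
  rw [Polynomial.aeval_def, Polynomial.eval₂_map]
  rw [Polynomial.aeval_def] at hpz
  rw [← hpz]
  congr 1
  apply MvPolynomial.ringHom_ext
  · intro c
    change aeval ξ (C c) = algebraMap (MvPolynomial V K₀) N (C c)
    rw [aeval_C]
    exact IsScalarTower.algebraMap_apply K₀ (MvPolynomial V K₀) N c
  · intro v
    change aeval ξ (X v) = algebraMap (MvPolynomial V K₀) N (X v)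
    rw [aeval_X]
    rfl


end Pool.Agent.H391R2.T4
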