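import Mathlib
import Pool.Agent.H84.L.S8_H391R2_T4_Sol
import Pool.Agent.H84.L.S8_W200_IG_Fam

namespace Pool.Agent.H391R2.T4
end Pool.Agent.H391R2.T4


/-!
Existence of the numerical data over an infinite field of arbitrary characteristic.
-/

set_option autoImplicit false

namespace Pool.Agent.W200.IG

open MvPolynomial
open Pool.Agent.H391R2.T4 (orb mem_orb y_mem_orb)

set_option linter.unusedSectionVars false

theorem cop_unit {R : Type} [CommRing R] {a b : R} (h : IsUnit a) : IsCoprime a b := by
  obtain ⟨c, hc⟩ := h.exists_left_inv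
  exact ⟨c, 0, by rw [hc, zero_mul, add_zero]⟩

open Classical in
theorem sep_c {k : Type} [Field k] [IsAlgClosed k] {ι : Type} (s : Finset ι)
    (δ : ι → k) (hδ0 : ∀ q ∈ s, δ q ≠ 0) (hδ : ∀ q ∈ s, ∀ q' ∈ s, q ≠ q' → δ q ≠ δ q')
    (R : Polynomial k) (hR : R.Separable) (b : k) (hb : b ≠ 0) (hRb : R.eval b = 0) :
    ∃ B : Set k, B.Finite ∧ ∀ c, c ≠ 0 → c ∉ B →
      (Polynomial.C c * R * ∏ q ∈ s, (Polynomial.C c * (Polynomial.X ^ 2 * R) -
        Polynomial.C (δ q))).Separable := by
  set g : Polynomial k := Polynomial.X ^ 2 * R with hg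
  have hg' : g.derivative ≠ 0 := by
    intro h
    have h1 := congrArg (Polynomial.eval b) h
    rw [hg, Polynomial.derivative_mul] at h1
    simp only [Polynomial.eval_add, Polynomial.eval_mul, hRb, mul_zero, zero_add,
      Polynomial.eval_pow, Polynomial.eval_X, Polynomial.eval_zero] at h1
    have h2 : R.derivative.eval b ≠ 0 := by
      have h3 := hR.eval₂_derivative_ne_zero (RingHom.id k) (x := b) (by
        rw [Polynomial.eval₂_id]; exact hRb)
      rwa [Polynomial.eval₂_id] at h3
    exact mul_ne_zero (pow_ne_zero 2 hb) h2 h1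
  refine ⟨⋃ q ∈ s, (fun x => δ q / g.eval x) '' (g.derivative.roots.toFinset : Set k),
    Set.Finite.biUnion s.finite_toSet fun q _ => (Finset.finite_toSet _).image _, ?_⟩
  intro c hc hcB
  have hc' : IsUnit (Polynomial.C c) := Polynomial.isUnit_C.2 (isUnit_iff_ne_zero.2 hc)
  refine Polynomial.Separable.mul (Polynomial.Separable.mul ?_ hR ?_) ?_ ?_
  · rw [Polynomial.separable_C]
    exact isUnit_iff_ne_zero.2 hc
  · exact cop_unit hc'
  · refine Polynomial.separable_prod' ?_ ?_
    · intro q hq q' hq' hne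
      have h1 : δ q' - δ q ≠ 0 := sub_ne_zero.2 (hδ q hq q' hq' hne).symm
      refine ⟨Polynomial.C (δ q' - δ q)⁻¹, -Polynomial.C (δ q' - δ q)⁻¹, ?_⟩
      have h2 : Polynomial.C (δ q' - δ q)⁻¹ * (Polynomial.C (δ q') - Polynomial.C (δ q)) = 1 := by
        rw [← Polynomial.C_sub, ← Polynomial.C_mul, inv_mul_cancel₀ h1, Polynomial.C_1]
      linear_combination h2
    · intro q hq
      rw [Polynomial.separable_def,
        Polynomial.isCoprime_iff_aeval_ne_zero_of_isAlgClosed k k]
      intro a
      by_contra hne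
      push Not at hne
      obtain ⟨h1, h2⟩ := hne
      simp only [Polynomial.coe_aeval_eq_eval, Polynomial.derivative_sub, Polynomial.derivative_mul,
        Polynomial.derivative_C, zero_mul, zero_add, sub_zero, Polynomial.eval_sub,
        Polynomial.eval_mul, Polynomial.eval_C] at h1 h2
      have h3 : g.derivative.eval a = 0 := (mul_eq_zero.1 h2).resolve_left hc
      have h4 : g.eval a ≠ 0 := by
        intro h5
        rw [h5, mul_zero, zero_sub, neg_eq_zero] at h1
        exact hδ0 q hq h1
      apply hcB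
      simp only [Set.mem_iUnion, Set.mem_image, SetLike.mem_coe, Multiset.mem_toFinset]
      refine ⟨q, hq, a, ?_, ?_⟩
      · rw [Polynomial.mem_roots hg']
        exact h3
      · rw [div_eq_iff h4]
        linear_combination -h1
  · refine IsCoprime.prod_right fun q hq => ?_
    refine IsCoprime.mul_left (cop_unit hc') ?_
    have h1 := hδ0 q hq
    refine ⟨Polynomial.C (δ q)⁻¹ * Polynomial.C c * Polynomial.X ^ 2,
      -Polynomial.C (δ q)⁻¹, ?_⟩
    have h2 : Polynomial.C (δ q)⁻¹ * Polynomial.C (δ q) = 1 := by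
      rw [← Polynomial.C_mul, inv_mul_cancel₀ h1, Polynomial.C_1]
    rw [hg]
    linear_combination h2


end Pool.Agent.W200.IG
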