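import Mathlib
import Pool.Agent.H84.L.S8_H391R2_T4_Dt1
import Pool.Agent.H84.L.S8_H391R2_T4_Nod
import Pool.Agent.H84.L.S8_H391R2_T4_Sol
import Pool.Agent.H84.L.S8_H391R2_T4_Utl
import Pool.Agent.H84.L.S8_W200_IG_Dat
import Pool.Agent.H84.L.S8_W200_IG_Fam
import Pool.Agent.H84.L.S8_W200_IJ_SA
import Pool.Agent.H84.L.S8_W200_IJ_SC

namespace Pool.Agent.H391R2.T4
end Pool.Agent.H391R2.T4
namespace Pool.Agent.W200.IG
end Pool.Agent.W200.IG


/-!
Existence of semi-invariant numerical data over an infinite field of arbitrary characteristic.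
-/

set_option autoImplicit false

namespace Pool.Agent.W200.IJ

open MvPolynomial
open Pool.Agent.H391R2.T4 (orb mem_orb y_mem_orb YData mu mu_inj eqF)
open Pool.Agent.W200.IG (Dt GD sep_c)

set_option linter.unusedSectionVars false

section elts

variable (k M : Type) [Field k] [Field M] [Algebra k M] [FiniteDimensional k M] [IsGalois k M]

/- An element whose stabiliser is the kernel of a homomorphism. -/
theorem exists_ker_elt {A : Type} [Group A] (φ : (M ≃ₐ[k] M) →* A) :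
    ∃ b : M, b ≠ 0 ∧ ∀ ρ : M ≃ₐ[k] M, ρ b = b ↔ φ ρ = 1 := by
  obtain ⟨b, hb⟩ := Field.exists_primitive_element k (IntermediateField.fixedField φ.ker)
  have h1 : ∀ ρ : M ≃ₐ[k] M, ρ (b : M) = b ↔ φ ρ = 1 := by
    intro ρ
    constructor
    · intro h
      have h2 : ρ ∈ (IntermediateField.fixedField φ.ker).fixingSubgroup := by
        rw [IntermediateField.mem_fixingSubgroup_iff]
        intro x hx
        let E := IntermediateField.fixedField φ.ker
        have h3 : (⊤ : IntermediateField k E) ≤ eqF ((ρ : M →ₐ[k] M).comp E.val) E.val := by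
          rw [← hb, IntermediateField.adjoin_le_iff]
          rintro _ rfl
          exact h
        exact h3 (IntermediateField.mem_top (x := (⟨x, hx⟩ : E)))
      rw [IntermediateField.fixingSubgroup_fixedField] at h2
      exact h2
    · intro h
      exact b.2 ⟨ρ, h⟩
  by_cases hb0 : (b : M) = 0
  · refine ⟨1, one_ne_zero, fun ρ => ⟨fun _ => (h1 ρ).1 (by rw [hb0, map_zero]), fun _ =>
      map_one ρ⟩⟩
  · exact ⟨b, hb0, h1⟩

open Classical in
/- Elements with given trace to the fixed field of the kernel. -/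
theorem exists_ker_sum [Fintype (M ≃ₐ[k] M)] {A : Type} [Group A] (φ : (M ≃ₐ[k] M) →* A) (b₀ : M)
    (hb₀ : ∀ ρ : M ≃ₐ[k] M, φ ρ = 1 → ρ b₀ = b₀) :
    ∃ b : M, (∑ ρ : M ≃ₐ[k] M, if φ ρ = 1 then ρ b else 0) = b₀ := by
  obtain ⟨ω, ω', hω⟩ := exists_dual k M
  obtain ⟨i, hi⟩ : ∃ i, (∑ ρ : M ≃ₐ[k] M, if φ ρ = 1 then ρ (ω i) else 0) ≠ 0 := by
    by_contra hne
    push Not at hne
    have h1 : ∑ i, (∑ ρ : M ≃ₐ[k] M, if φ ρ = 1 then ρ (ω i) else 0) * (1 : M ≃ₐ[k] M) (ω' i) =
        1 := by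
      simp only [Finset.sum_mul]
      rw [Finset.sum_comm, Finset.sum_eq_single 1]
      · rw [map_one]
        simp only [if_true]
        rw [hω, if_pos rfl]
      · intro ρ _ hρ
        by_cases h2 : φ ρ = 1
        · simp only [if_pos h2]
          rw [hω, if_neg hρ]
        · simp only [if_neg h2, zero_mul, Finset.sum_const_zero]
      · intro h
        exact absurd (Finset.mem_univ _) h
    simp only [hne, zero_mul, Finset.sum_const_zero] at h1
    exact zero_ne_one h1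
  set s : M := ∑ ρ : M ≃ₐ[k] M, if φ ρ = 1 then ρ (ω i) else 0 with hs
  have hsfix : ∀ ρ : M ≃ₐ[k] M, φ ρ = 1 → ρ s = s := by
    intro ρ hρ
    rw [hs, map_sum]
    refine Fintype.sum_bijective (fun ρ' => ρ * ρ') (Group.mulLeft_bijective ρ) _ _ fun ρ' => ?_
    have h1 : φ (ρ * ρ') = 1 ↔ φ ρ' = 1 := by rw [map_mul, hρ, one_mul]
    by_cases h2 : φ ρ' = 1
    · rw [if_pos h2, if_pos (h1.2 h2)]
      rfl
    · rw [if_neg h2, if_neg (fun h => h2 (h1.1 h)), map_zero]
  refine ⟨b₀ * s⁻¹ * ω i, ?_⟩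
  have h1 : ∀ ρ : M ≃ₐ[k] M, (if φ ρ = 1 then ρ (b₀ * s⁻¹ * ω i) else 0) =
      b₀ * s⁻¹ * (if φ ρ = 1 then ρ (ω i) else 0) := by
    intro ρ
    by_cases h2 : φ ρ = 1
    · rw [if_pos h2, if_pos h2, map_mul, map_mul, hb₀ ρ h2, map_inv₀, hsfix ρ h2]
    · rw [if_neg h2, if_neg h2, mul_zero]
  simp only [h1]
  rw [← Finset.mul_sum, ← hs, inv_mul_cancel_right₀ hi]

end elts

section ypoly

variable {k M : Type} [Field k] [Field M] [Algebra k M]
  [FiniteDimensional k M] [IsGalois k M] [Fintype (M ≃ₐ[k] M)]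
  {G : Type} [Group G] [Fintype G]

/- The polynomial. -/
noncomputable def yp (φ : (M ≃ₐ[k] M) →* MulAut G) (b : M) : MvPolynomial G M :=
  ∑ ρ : M ≃ₐ[k] M, ∑ g : G, C (ρ b) *
    rename (fun x => g * φ ρ x) (monomial (mu G) (1 : M))

theorem yp_si (φ : (M ≃ₐ[k] M) →* MulAut G) (b : M) (ρ : M ≃ₐ[k] M) :
    rename (φ ρ) (MvPolynomial.map (ρ : M →+* M) (yp φ b)) = yp φ b := by
  unfold yp
  rw [map_sum, map_sum]
  conv_rhs => rw [← Equiv.sum_comp (Equiv.mulLeft ρ)]
  refine Finset.sum_congr rfl fun ρ' _ => ?_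
  rw [map_sum, map_sum]
  conv_rhs => rw [← Equiv.sum_comp (φ ρ).toEquiv]
  refine Finset.sum_congr rfl fun g _ => ?_
  rw [map_mul, map_C, map_mul, rename_C, MvPolynomial.map_rename, rename_rename, map_monomial,
    map_one]
  congr 3
  funext x
  change φ ρ (g * φ ρ' x) = φ ρ g * φ (ρ * ρ') x
  rw [map_mul, map_mul]
  rfl

theorem yp_inv (φ : (M ≃ₐ[k] M) →* MulAut G) (b : M) (h : G) :
    rename (Equiv.mulLeft h) (yp φ b) = yp φ b := by
  unfold yp
  rw [map_sum]
  refine Finset.sum_congr rfl fun ρ' _ => ?_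
  rw [map_sum]
  conv_rhs => rw [← Equiv.sum_comp (Equiv.mulLeft h)]
  refine Finset.sum_congr rfl fun g _ => ?_
  rw [map_mul, rename_C, rename_rename]
  congr 3
  funext x
  change h * (g * φ ρ' x) = h * g * φ ρ' x
  rw [mul_assoc]

open Classical in
theorem yp_coeff (φ : (M ≃ₐ[k] M) →* MulAut G) (b : M) (π : Equiv.Perm G) :
    coeff (Finsupp.mapDomain π (mu G)) (yp φ b) =
      ∑ ρ : M ≃ₐ[k] M, ∑ g : G, if (fun x => g * φ ρ x) = π then ρ b else 0 := by
  unfold yp
  rw [coeff_sum]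
  refine Finset.sum_congr rfl fun ρ _ => ?_
  rw [coeff_sum]
  refine Finset.sum_congr rfl fun g _ => ?_
  rw [coeff_C_mul, rename_monomial, coeff_monomial]
  by_cases h : (fun x => g * φ ρ x) = π
  · rw [if_pos h, if_pos (by rw [h]), mul_one]
  · rw [if_neg h, if_neg, mul_zero]
    intro h1
    apply h
    have hinj : Function.Injective (fun x => g * φ ρ x) := fun a c hac =>
      (φ ρ).injective (mul_left_cancel hac)
    funext x
    have h2 := DFunLike.congr_fun h1 (g * φ ρ x)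
    have h3 : Finsupp.mapDomain (fun x => g * φ ρ x) (mu G) (g * φ ρ x) = mu G x :=
      Finsupp.mapDomain_apply hinj _ x
    rw [h3] at h2
    obtain ⟨z, hz⟩ := π.surjective (g * φ ρ x)
    rw [← hz, Finsupp.mapDomain_apply π.injective] at h2
    have h4 : x = z := mu_inj G h2
    change g * φ ρ x = π x
    rw [← hz, h4]

open Classical in
theorem yp_stab (φ : (M ≃ₐ[k] M) →* MulAut G) (b b₀ : M) (hb0 : b₀ ≠ 0)
    (hb₀ : ∀ ρ : M ≃ₐ[k] M, ρ b₀ = b₀ ↔ φ ρ = 1)
    (hb : (∑ ρ : M ≃ₐ[k] M, if φ ρ = 1 then ρ b else 0) = b₀) (π : Equiv.Perm G)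
    (h : rename π (yp φ b) = yp φ b) : ∃ g : G, π = Equiv.mulLeft g := by
  have h1 : coeff (mu G) (yp φ b) = coeff (Finsupp.mapDomain π (mu G)) (yp φ b) := by
    nth_rewrite 2 [← h]
    exact (coeff_rename_mapDomain π π.injective _ _).symm
  -- the general coefficient
  have h2 : ∀ (ρ₀ : M ≃ₐ[k] M) (g₀ : G) (σ : Equiv.Perm G), (fun x => g₀ * φ ρ₀ x) = σ →
      coeff (Finsupp.mapDomain σ (mu G)) (yp φ b) = ρ₀ b₀ := by
    intro ρ₀ g₀ σ hσ
    rw [yp_coeff]
    have h3 : ∀ (ρ : M ≃ₐ[k] M) (g : G), (fun x => g * φ ρ x) = σ ↔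
        g = g₀ ∧ φ (ρ₀⁻¹ * ρ) = 1 := by
      intro ρ g
      rw [← hσ]
      constructor
      · intro h4
        have h5 := congrFun h4 1
        simp only [map_one, mul_one] at h5
        refine ⟨h5, ?_⟩
        rw [map_mul, map_inv, inv_mul_eq_one]
        apply MulEquiv.ext
        intro x
        have h6 := congrFun h4 x
        simp only [h5] at h6
        exact (mul_left_cancel h6).symm
      · rintro ⟨rfl, h4⟩
        rw [map_mul, map_inv, inv_mul_eq_one] at h4
        rw [h4]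
    have h4 : ∀ ρ : M ≃ₐ[k] M, (∑ g : G, if (fun x => g * φ ρ x) = σ then
        ρ b else 0) = if φ (ρ₀⁻¹ * ρ) = 1 then ρ b else 0 := by
      intro ρ
      rw [Finset.sum_eq_single g₀]
      · by_cases h5 : φ (ρ₀⁻¹ * ρ) = 1
        · rw [if_pos ((h3 ρ g₀).2 ⟨rfl, h5⟩), if_pos h5]
        · rw [if_neg (fun h6 => h5 ((h3 ρ g₀).1 h6).2), if_neg h5]
      · intro g _ hg
        rw [if_neg (fun h6 => hg ((h3 ρ g).1 h6).1)]
      · intro h5
        exact absurd (Finset.mem_univ _) h5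
    simp only [h4]
    rw [← hb, map_sum]
    refine (Fintype.sum_bijective (fun ρ' => ρ₀ * ρ') (Group.mulLeft_bijective ρ₀) _ _
      fun ρ' => ?_).symm
    have h6 : φ (ρ₀⁻¹ * (ρ₀ * ρ')) = φ ρ' := by rw [inv_mul_cancel_left]
    by_cases h5 : φ ρ' = 1
    · rw [if_pos h5, if_pos (h6.trans h5)]
      rfl
    · rw [if_neg h5, if_neg (fun h => h5 (h6.symm.trans h)), map_zero]
  have h3 := h2 1 1 1 (by
    funext x
    simp)
  have h4 : Finsupp.mapDomain (1 : Equiv.Perm G) (mu G) = mu G := by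
    rw [Equiv.Perm.coe_one]
    exact Finsupp.mapDomain_id
  rw [h4] at h3
  have h5 : coeff (mu G) (yp φ b) ≠ 0 := by
    rw [h3]
    exact hb0
  -- a representative
  have h6 : ∃ (ρ : M ≃ₐ[k] M) (g : G), (fun x => g * φ ρ x) = π := by
    by_contra hne
    push Not at hne
    apply h5
    rw [h1, yp_coeff]
    exact Finset.sum_eq_zero fun ρ _ => Finset.sum_eq_zero fun g _ => if_neg (hne ρ g)
  obtain ⟨ρ, g, hρg⟩ := h6
  have h7 := h2 ρ g π hρg
  rw [← h1, h3] at h7
  have h9 : φ ρ = 1 := (hb₀ ρ).1 h7.symm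
  refine ⟨g, ?_⟩
  apply Equiv.ext
  intro x
  have h10 := congrFun hρg x
  rw [← h10, h9]
  rfl


end ypoly

section den

variable {k M : Type} [Field k] [Infinite k] [Field M] [Algebra k M]
  [FiniteDimensional k M] [IsGalois k M] {G : Type} [Group G] [Finite G]

theorem exists_l (φ : (M ≃ₐ[k] M) →* MulAut G) (P : MvPolynomial G M) (hP : P ≠ 0) :
    ∃ l : G → M, (∀ (ρ : M ≃ₐ[k] M) (g : G), ρ (l g) = l (φ ρ g)) ∧ aeval l P ≠ 0 := by
  classical
  have := Fintype.ofFinite (M ≃ₐ[k] M)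
  have := Fintype.ofFinite G
  obtain ⟨ω, ω', hω⟩ := exists_dual k M
  have hinj : Function.Injective (algebraMap k M) := (algebraMap k M).injective
  have hinf : Infinite M := Infinite.of_injective _ hinj
  let Λ : G → MvPolynomial ((M ≃ₐ[k] M) × G) M := fun g =>
    ∑ ρ : M ≃ₐ[k] M, ∑ i : M ≃ₐ[k] M, C (ρ (ω i)) * X (i, (φ ρ)⁻¹ g)
  have hΛ : ∀ (a : (M ≃ₐ[k] M) × G → M) (g : G), aeval a (Λ g) =
      ∑ ρ : M ≃ₐ[k] M, ∑ i : M ≃ₐ[k] M, ρ (ω i) * a (i, (φ ρ)⁻¹ g) := by
    intro a g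
    simp only [Λ, map_sum, map_mul, aeval_X]
    refine Finset.sum_congr rfl fun ρ _ => Finset.sum_congr rfl fun i _ => ?_
    rw [aeval_C]
    rfl
  obtain ⟨x, hx⟩ : ∃ x : G → M, aeval x P ≠ 0 := by
    by_contra hne
    push Not at hne
    apply hP
    apply MvPolynomial.funext
    intro x
    rw [map_zero]
    exact hne x
  have h1 : aeval Λ P ≠ 0 := by
    intro h0
    apply hx
    have h2 := congrArg (aeval (fun p : (M ≃ₐ[k] M) × G => ω' p.1 * x p.2) :
      MvPolynomial ((M ≃ₐ[k] M) × G) M → M) h0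
    rw [map_zero, comp_aeval_apply] at h2
    rw [← h2]
    congr 2
    funext g
    rw [hΛ, Finset.sum_eq_single 1]
    · have h3 : ∀ i : M ≃ₐ[k] M, (1 : M ≃ₐ[k] M) (ω i) *
          (ω' i * x ((φ 1)⁻¹ g)) =
          (1 : M ≃ₐ[k] M) (ω i) * (1 : M ≃ₐ[k] M) (ω' i) * x g := by
        intro i
        rw [map_one, inv_one, ← mul_assoc]
        rfl
      simp only [h3]
      rw [← Finset.sum_mul, hω, if_pos rfl, one_mul]
    · intro ρ _ hρ
      have h3 : ∀ i : M ≃ₐ[k] M, ρ (ω i) * (ω' i * x ((φ ρ)⁻¹ g)) =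
          ρ (ω i) * (1 : M ≃ₐ[k] M) (ω' i) * x ((φ ρ)⁻¹ g) := by
        intro i
        rw [← mul_assoc]
        rfl
      simp only [h3]
      rw [← Finset.sum_mul, hω, if_neg hρ, zero_mul]
    · intro h
      exact absurd (Finset.mem_univ _) h
  obtain ⟨a, ha, ha0⟩ : ∃ a ∈ Set.pi Set.univ
      (fun _ : (M ≃ₐ[k] M) × G => Set.range (algebraMap k M)), eval a (aeval Λ P) ≠ 0 := by
    by_contra hne
    push Not at hne
    apply h1
    refine MvPolynomial.funext_set _ (fun _ => Set.infinite_range_of_injective hinj)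
      fun a ha => ?_
    rw [hne a ha, map_zero]
  choose a' ha' using fun p => ha p (Set.mem_univ p)
  let l : G → M := fun g =>
    ∑ ρ : M ≃ₐ[k] M, ∑ i : M ≃ₐ[k] M, ρ (ω i) * algebraMap k M (a' (i, (φ ρ)⁻¹ g))
  refine ⟨l, fun ρ' g => ?_, ?_⟩
  · simp only [l, map_sum, map_mul, AlgEquiv.commutes]
    conv_rhs => rw [← Equiv.sum_comp (Equiv.mulLeft ρ')]
    refine Finset.sum_congr rfl fun ρ _ => Finset.sum_congr rfl fun i _ => ?_
    have h2 : (φ (Equiv.mulLeft ρ' ρ))⁻¹ (φ ρ' g) = (φ ρ)⁻¹ g := by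
      rw [Equiv.coe_mulLeft, map_mul, mul_inv_rev, MulAut.mul_apply, MulAut.inv_apply_self]
    rw [h2]
    rfl
  · have h2 : l = fun g => aeval a (Λ g) := by
      funext g
      rw [hΛ]
      simp only [l, ha']
    rw [h2, ← comp_aeval_apply]
    exact ha0

end den

open Classical in
/- Existence of the data. -/
theorem exists_data_semi {k M : Type} [Field k] [Infinite k] [Field M] [Algebra k M]
    [FiniteDimensional k M] [IsGalois k M] {G : Type} [Group G] [Fintype G]
    (φ : (M ≃ₐ[k] M) →* MulAut G) (y : MvPolynomial G M)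
    (hy : ∀ ρ : M ≃ₐ[k] M, rename (φ ρ) (MvPolynomial.map (ρ : M →+* M) y) = y)
    (J D : ℕ) (hJ : J + 1 < D) (hD : 3 ≤ D) :
    ∃ d : Dt M G J, GD y d ∧ (∀ ρ : M ≃ₐ[k] M, SI (ρ : M →+* M) (φ ρ) y d) ∧
      2 + d.R.natDegree = D ∧
      (Polynomial.C d.c * d.R * ∏ q ∈ (orb y).erase y,
        (Polynomial.C d.c * (Polynomial.X ^ 2 * d.R) -
        Polynomial.C (aeval d.l q - aeval d.l y))).Separable := by
  -- the point `l`
  obtain ⟨l, hl0, hl1, hl2⟩ : ∃ l : G → M, (∀ (ρ : M ≃ₐ[k] M) (g : G), ρ (l g) = l (φ ρ g)) ∧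
      Function.Injective l ∧
      ∀ q ∈ orb y, ∀ q' ∈ orb y, q ≠ q' → aeval l q ≠ aeval l q' := by
    let P : MvPolynomial G M :=
      (∏ p ∈ (Finset.univ : Finset (G × G)).filter (fun p => p.1 ≠ p.2), (X p.1 - X p.2)) *
      ∏ p ∈ ((orb y) ×ˢ (orb y)).filter (fun p => p.1 ≠ p.2), (p.1 - p.2)
    have hP : P ≠ 0 := by
      refine mul_ne_zero (Finset.prod_ne_zero_iff.2 fun p hp => ?_)
        (Finset.prod_ne_zero_iff.2 fun p hp => ?_)
      · rw [sub_ne_zero]
        intro h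
        exact (Finset.mem_filter.1 hp).2 (X_injective h)
      · exact sub_ne_zero.2 (Finset.mem_filter.1 hp).2
    obtain ⟨l, hl0, hl⟩ := exists_l φ P hP
    simp only [P, map_mul, map_prod] at hl
    obtain ⟨h1, h2⟩ := mul_ne_zero_iff.1 hl
    rw [Finset.prod_ne_zero_iff] at h1 h2
    refine ⟨l, hl0, ?_, ?_⟩
    · intro a b hab
      by_contra hne
      apply h1 (a, b) (Finset.mem_filter.2 ⟨Finset.mem_univ _, hne⟩)
      rw [map_sub, aeval_X, aeval_X, hab, sub_self]
    · intro q hq q' hq' hne h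
      apply h2 (q, q') (Finset.mem_filter.2 ⟨Finset.mem_product.2 ⟨hq, hq'⟩, hne⟩)
      rw [map_sub, h, sub_self]
  -- the roots of `R`
  obtain ⟨m, rfl⟩ : ∃ m, D = m + 2 := ⟨D - 2, by omega⟩
  have hinf : Infinite {x : k // x ≠ 0} := by
    have h1 : ({x : k | x ≠ 0}).Infinite := by
      have h2 : ({x : k | x ≠ 0}) = ({0} : Set k)ᶜ := by ext; simp
      rw [h2]
      exact (Set.finite_singleton 0).infinite_compl
    exact h1.to_subtype
  let em := Infinite.natEmbedding {x : k // x ≠ 0}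
  let e : Fin m → M := fun i => algebraMap k M (em i).1
  have he : Function.Injective e := by
    intro a b hab
    exact Fin.ext (em.injective (Subtype.ext ((algebraMap k M).injective hab)))
  have he0 : ∀ i, e i ≠ 0 := fun i => (_root_.map_ne_zero _).2 (em i).2
  have hefix : ∀ (ρ : M ≃ₐ[k] M) i, ρ (e i) = e i := fun ρ i => ρ.commutes _
  let R : Polynomial M := ∏ i, (Polynomial.X - Polynomial.C (e i))
  have hRm : R.Monic := Polynomial.monic_prod_of_monic _ _ fun i _ => Polynomial.monic_X_sub_C _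
  have hRd : R.natDegree = m := by
    rw [Polynomial.natDegree_prod_of_monic _ _ fun i _ => Polynomial.monic_X_sub_C _]
    simp
  have hRs : R.Separable := Polynomial.separable_prod_X_sub_C_iff.2 he
  have hRr : ∀ i, R.eval (e i) = 0 := by
    intro i
    simp only [R]
    rw [Polynomial.eval_prod]
    exact Finset.prod_eq_zero (Finset.mem_univ i) (by simp)
  have hR0 : R.eval 0 ≠ 0 := by
    simp only [R]
    rw [Polynomial.eval_prod]
    exact Finset.prod_ne_zero_iff.2 fun i _ => by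
      rw [Polynomial.eval_sub, Polynomial.eval_X, Polynomial.eval_C, zero_sub]
      exact neg_ne_zero.2 (he0 i)
  have hRfix : ∀ ρ : M ≃ₐ[k] M, R.map (ρ : M →+* M) = R := by
    intro ρ
    simp only [R]
    rw [Polynomial.map_prod]
    refine Finset.prod_congr rfl fun i _ => ?_
    rw [Polynomial.map_sub, Polynomial.map_X, Polynomial.map_C]
    have h1 : (ρ : M →+* M) (e i) = e i := hefix ρ i
    rw [h1]
  -- the constant `c`
  let K := AlgebraicClosure M
  let i0 : Fin m := ⟨0, by omega⟩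
  obtain ⟨B, hB, hBc⟩ := sep_c (k := K) ((orb y).erase y)
    (fun q => algebraMap M K (aeval l q - aeval l y)) (by
      intro q hq
      rw [ne_eq, _root_.map_eq_zero, sub_eq_zero]
      exact hl2 q (Finset.mem_of_mem_erase hq) y (y_mem_orb y) (Finset.ne_of_mem_erase hq)) (by
      intro q hq q' hq' hne h
      have h1 := (algebraMap M K).injective h
      exact hl2 q (Finset.mem_of_mem_erase hq) q' (Finset.mem_of_mem_erase hq') hne
        (sub_left_injective h1)) (R.map (algebraMap M K)) hRs.map (algebraMap M K (e i0))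
      ((_root_.map_ne_zero _).2 (he0 i0)) (by
        rw [Polynomial.eval_map_apply, hRr, map_zero])
  obtain ⟨c, hc0, hcB⟩ : ∃ c : k, c ≠ 0 ∧ algebraMap M K (algebraMap k M c) ∉ B := by
    have h1 : (insert (0 : K) B).Finite := hB.insert 0
    have h2 : (Set.range ((algebraMap M K).comp (algebraMap k M))).Infinite :=
      Set.infinite_range_of_injective ((algebraMap M K).comp (algebraMap k M)).injective
    obtain ⟨_, ⟨c, rfl⟩, hc⟩ := h2.exists_notMem_finite h1
    rw [Set.mem_insert_iff, not_or] at hc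
    exact ⟨c, fun h => hc.1 (by rw [h, map_zero]), hc.2⟩
  have hc0' : algebraMap k M c ≠ 0 := (_root_.map_ne_zero _).2 hc0
  let d : Dt M G J :=
    { l := l, c := algebraMap k M c, R := R, nd := fun a => e (Fin.castLE (by omega) a) }
  refine ⟨d, ⟨hl1, ?_, hc0', hRm, hR0, ?_, fun a => hRr _⟩,
    fun ρ => ⟨hy ρ, hl0 ρ, ρ.commutes c, hRfix ρ, fun a => hefix ρ _⟩, ?_, ?_⟩
  · intro q hq hne
    exact sub_ne_zero.2 (hl2 q hq y (y_mem_orb y) hne)
  · intro a b hab
    exact Fin.castLE_injective _ (he hab)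
  · change 2 + R.natDegree = m + 2
    rw [hRd, add_comm]
  · have h1 := hBc (algebraMap M K (algebraMap k M c)) ((_root_.map_ne_zero _).2 hc0') hcB
    rw [← Polynomial.separable_map (algebraMap M K)]
    simp only [Polynomial.map_mul, Polynomial.map_prod, Polynomial.map_sub, Polynomial.map_pow,
      Polynomial.map_X, Polynomial.map_C]
    exact h1

end Pool.Agent.W200.IJ
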