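import Mathlib
import Pool.Agent.H84.L.S8_H391R2_T4_Dt1
import Pool.Agent.H84.L.S8_H391R2_T4_Sol
import Pool.Agent.H84.L.S8_W200_IJ_SF
import Pool.Agent.H84.L.S8_W200_IK_DA

namespace Pool.Agent.H391R2.T4
end Pool.Agent.H391R2.T4
namespace Pool.Agent.W200.IJ
end Pool.Agent.W200.IJ


/-!
Explicit bounds for the numbers entering the construction.
-/

set_option autoImplicit false

namespace Pool.Agent.W200.IK

open MvPolynomial
open Pool.Agent.H391R2.T4 (orb mem_orb y_mem_orb YData mu mu_inj)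
open Pool.Agent.W200.IJ (yp yp_inv yp_stab yp_si exists_ker_elt exists_ker_sum)

set_option linter.unusedSectionVars false

section bounds

variable {k : Type} [Field k] {G : Type} [Group G] [Fintype G] (y : MvPolynomial G k)

theorem card_orb_le : (orb y).card ≤ (Fintype.card G).factorial := by
  classical
  unfold orb
  refine Finset.card_image_le.trans ?_
  rw [Finset.card_univ, Fintype.card_perm]

theorem orb_deg (d : ℕ) (hd : y.totalDegree ≤ d) (q : MvPolynomial G k) (hq : q ∈ orb y) :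
    q.totalDegree ≤ d := by
  obtain ⟨π, rfl⟩ := (mem_orb y).1 hq
  exact (totalDegree_rename_le _ _).trans hd

theorem psi_deg (d : ℕ) (hd : y.totalDegree ≤ d)
    {Ψ : Polynomial (MvPolynomial (Fin (Fintype.card G)) k)}
    (hΨ : Ψ.map ((aeval fun i : Fin (Fintype.card G) => esymm G k (i + 1) :
      MvPolynomial (Fin (Fintype.card G)) k →ₐ[k] MvPolynomial G k) :
      MvPolynomial (Fin (Fintype.card G)) k →+* MvPolynomial G k) =
      ∏ q ∈ orb y, (Polynomial.X - Polynomial.C q)) (e : ℕ) :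
    (Ψ.coeff e).totalDegree ≤ (Fintype.card G).factorial * d := by
  classical
  refine (totalDegree_le_phi (σ := G) (Ψ.coeff e)).trans ?_
  have h1 : Φ k G (Fintype.card G) (Ψ.coeff e) =
      (∏ q ∈ orb y, (Polynomial.X - Polynomial.C q)).coeff e := by
    rw [← hΨ, Polynomial.coeff_map]
    rfl
  rw [h1]
  exact (coeff_prod_le (orb y) d (orb_deg y d hd) e).trans
    (Nat.mul_le_mul_right _ (card_orb_le y))

end bounds

section ypoly

variable {k M : Type} [Field k] [Field M] [Algebra k M]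
  [FiniteDimensional k M] [IsGalois k M] [Fintype (M ≃ₐ[k] M)]
  {G : Type} [Group G] [Fintype G]

theorem mu_sum_le : ((mu G).sum fun _ a => a) ≤ (Fintype.card G) ^ 2 := by
  rw [Finsupp.sum_fintype _ _ (fun _ => rfl)]
  have h1 : ∀ g : G, mu G g ≤ Fintype.card G := fun g => (Fintype.equivFin G g).2.le
  refine (Finset.sum_le_sum fun g _ => h1 g).trans ?_
  rw [Finset.sum_const, Finset.card_univ, smul_eq_mul, sq]

theorem yp_deg (φ : (M ≃ₐ[k] M) →* MulAut G) (b : M) :
    (yp φ b).totalDegree ≤ (Fintype.card G) ^ 2 := by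
  unfold yp
  refine totalDegree_finsetSum_le fun ρ _ => totalDegree_finsetSum_le fun g _ => ?_
  refine (totalDegree_mul _ _).trans ?_
  rw [totalDegree_C, zero_add]
  refine (totalDegree_rename_le _ _).trans ?_
  refine (totalDegree_monomial_le _ _).trans ?_
  exact mu_sum_le

open Classical in
/- Existence of the semi-invariant polynomial, with a bound for its degree. -/
theorem exists_yp' (φ : (M ≃ₐ[k] M) →* MulAut G) :
    ∃ y : MvPolynomial G M, YData y ∧ (∀ ρ : M ≃ₐ[k] M,
      rename (φ ρ) (MvPolynomial.map (ρ : M →+* M) y) = y) ∧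
      y.totalDegree ≤ (Fintype.card G) ^ 2 := by
  obtain ⟨b₀, hb0, hb₀⟩ := exists_ker_elt k M φ
  obtain ⟨b, hb'⟩ := exists_ker_sum k M φ b₀ (fun ρ hρ => (hb₀ ρ).2 hρ)
  have hb : (∑ ρ : M ≃ₐ[k] M, if φ ρ = 1 then ρ b else 0) = b₀ := by
    rw [← hb']
    refine Finset.sum_congr rfl fun ρ _ => ?_
    by_cases h : φ ρ = 1
    · rw [if_pos h, if_pos h]
    · rw [if_neg h, if_neg h]
  exact ⟨yp φ b, ⟨yp_inv φ b, yp_stab φ b b₀ hb0 hb₀ hb⟩, yp_si φ b, yp_deg φ b⟩

end ypoly

/- The bound: it depends on the order `g` of the group and on the order `c` of the Galois group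
of the constant extension. -/
def bd (g c : ℕ) : ℕ :=
  3 + g.factorial * ((g.factorial * g ^ 2 + 1) * (g.factorial + c * (g + 2)) + 2)

/- The numbers. -/
theorem numbers3 (g c D T m : ℕ) (hD : 0 < D) (hDg : D ≤ g.factorial)
    (hT : T ≤ g.factorial * g ^ 2) (hm : m ≤ c * (g + 2)) (n : ℕ) (hn : bd g c ≤ n) :
    3 ≤ n ∧ ∃ j M : ℕ,
    j + m < M ∧ j + 1 < M ∧ 3 ≤ M ∧ T * (j + m) < M ∧ D * M = n + m + j := by
  have hn1 : 3 + D * ((T + 1) * (D + m) + 2) ≤ n := by
    refine le_trans ?_ hn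
    unfold bd
    have h1 : (T + 1) * (D + m) ≤ (g.factorial * g ^ 2 + 1) * (g.factorial + c * (g + 2)) :=
      Nat.mul_le_mul (by omega) (by omega)
    have h2 : D * ((T + 1) * (D + m) + 2) ≤
        g.factorial * ((g.factorial * g ^ 2 + 1) * (g.factorial + c * (g + 2)) + 2) :=
      Nat.mul_le_mul hDg (by omega)
    omega
  refine ⟨by omega, ?_⟩
  obtain ⟨j, M, hj, hM⟩ : ∃ j M, j < D ∧ D * M = n + m + j := by
    have h1 := Nat.div_add_mod (n + m) D
    have h2 := Nat.mod_lt (n + m) hD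
    by_cases h0 : (n + m) % D = 0
    · exact ⟨0, (n + m) / D, hD, by omega⟩
    · refine ⟨D - (n + m) % D, (n + m) / D + 1, by omega, ?_⟩
      rw [mul_add, mul_one]
      omega
  have h1 : D * ((T + 1) * (D + m) + 2) < D * M := by omega
  have h2 : (T + 1) * (D + m) + 2 < M := Nat.lt_of_mul_lt_mul_left h1
  refine ⟨j, M, ?_, ?_, ?_, ?_, hM⟩
  · nlinarith
  · nlinarith
  · nlinarith
  · nlinarith


end Pool.Agent.W200.IK
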