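import Mathlib
import Pool.Agent.H84.L.S8_H391R2_T4_Dt1
import Pool.Agent.H84.L.S8_H391R2_T4_Dt2
import Pool.Agent.H84.L.S8_H391R2_T4_Dt3
import Pool.Agent.H84.L.S8_H391R2_T4_Fam
import Pool.Agent.H84.L.S8_H391R2_T4_Gp
import Pool.Agent.H84.L.S8_H391R2_T4_Nod
import Pool.Agent.H84.L.S8_H391R2_T4_Par
import Pool.Agent.H84.L.S8_H391R2_T4_Sem
import Pool.Agent.H84.L.S8_H391R2_T4_Sol
import Pool.Agent.H84.L.S8_H391R2_WrGrp
import Pool.Agent.H84.L.S8_W200_IK_DB

namespace Pool.Agent.H391R2.T4
end Pool.Agent.H391R2.T4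


/-!
The generic solutions in characteristic zero with an explicit bound, uniform in the field.
(The proof follows `Pool.Agent.H391R2.T4.wreath_many`, keeping track of the numbers.)
-/

set_option autoImplicit false

namespace Pool.Agent.TH59.WX

open MvPolynomial
open Pool.Agent.H391R2.T4

set_option linter.unusedSectionVars false

/- The bound in characteristic zero. -/
def nb (g c : ℕ) : ℕ :=
  3 + g.factorial * ((g.factorial * g ^ 2 + 1) * (c * g + g.factorial + 1) + 2)

theorem numbers5 (g c D T q : ℕ) (hD : 0 < D) (hDg : D ≤ g.factorial)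
    (hT : T ≤ g.factorial * g ^ 2) (hq : q ≤ c * g) (n : ℕ) (hn : nb g c ≤ n) : 3 ≤ n ∧
    ∃ j M : ℕ, q + j + 1 < M ∧ T * (q + j + 1) < M ∧ D * M = n + (q + j) := by
  have hn : 3 + D * ((T + 1) * (q + D + 1) + 2) ≤ n := by
    refine le_trans ?_ hn
    unfold nb
    have h1 : (T + 1) * (q + D + 1) ≤ (g.factorial * g ^ 2 + 1) * (c * g + g.factorial + 1) :=
      Nat.mul_le_mul (by omega) (by omega)
    have h2 : D * ((T + 1) * (q + D + 1) + 2) ≤
        g.factorial * ((g.factorial * g ^ 2 + 1) * (c * g + g.factorial + 1) + 2) :=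
      Nat.mul_le_mul hDg (by omega)
    omega
  refine ⟨by omega, ?_⟩
  obtain ⟨j, M, hj, hM⟩ : ∃ j M, j < D ∧ D * M = n + (q + j) := by
    have h1 := Nat.div_add_mod (n + q) D
    have h2 := Nat.mod_lt (n + q) hD
    by_cases h0 : (n + q) % D = 0
    · exact ⟨0, (n + q) / D, hD, by omega⟩
    · refine ⟨D - (n + q) % D, (n + q) / D + 1, by omega, ?_⟩
      rw [mul_add, mul_one]
      omega
  refine ⟨j, M, ?_, ?_, hM⟩
  · have h1 : D * ((T + 1) * (q + D + 1) + 2) < D * M := by omega
    have h2 : (T + 1) * (q + D + 1) + 2 < M := Nat.lt_of_mul_lt_mul_left h1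
    nlinarith
  · have h1 : D * ((T + 1) * (q + D + 1) + 2) < D * M := by omega
    have h2 : (T + 1) * (q + D + 1) + 2 < M := Nat.lt_of_mul_lt_mul_left h1
    nlinarith

section ypoly

variable {K L : Type} [Field K] [Field L] [Algebra K L] [Fintype (L ≃ₐ[K] L)]
  {G : Type} [Group G] [Fintype G]

theorem yp_deg0 {K₀ : Type} [Field K₀] [Algebra L K₀] (φ : (L ≃ₐ[K] L) →* MulAut G) (b : L) :
    (yp K₀ φ b).totalDegree ≤ (Fintype.card G) ^ 2 := by
  unfold yp
  refine totalDegree_finsetSum_le fun ρ _ => totalDegree_finsetSum_le fun g _ => ?_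
  refine (totalDegree_mul _ _).trans ?_
  rw [totalDegree_C, zero_add]
  refine (totalDegree_rename_le _ _).trans ?_
  refine (totalDegree_monomial_le _ _).trans ?_
  exact Pool.Agent.W200.IK.mu_sum_le

end ypoly

section fin

variable (K L : Type) [Field K] [CharZero K] [Field L] [Algebra K L]
  [FiniteDimensional K L] [IsGalois K L]

open Classical in
theorem wreath_many_bd (G : Type) [Group G] [Fintype G] (hG3 : 3 ≤ Fintype.card G)
    (φ : (L ≃ₐ[K] L) →* MulAut G) (e : ℕ) (he : 0 < e) (hge : ∀ g : G, g ^ e = 1) (ζ : L)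
    (hζ : IsPrimitiveRoot ζ e) :
    ∀ n ≥ nb (Fintype.card G) (Nat.card (L ≃ₐ[K] L)), 3 ≤ n ∧
    ∃ (ι : Type) (_ : Finite ι) (E : Type) (_ : Field E) (_ : Algebra (MvPolynomial ι K) E)
      (_ : IsFractionRing (MvPolynomial ι K) E) (_ : Algebra K E)
      (_ : IsScalarTower K (MvPolynomial ι K) E)
      (F : Type) (_ : Field F) (_ : Algebra E F) (_ : Algebra L F) (_ : Algebra K F)
      (_ : IsScalarTower K E F) (_ : IsScalarTower K L F) (_ : FiniteDimensional E F)
      (_ : IsGalois E F) (γ : (F ≃ₐ[E] F) ≃* EG φ n),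
      (∀ (σ : F ≃ₐ[E] F) (x : L), σ (algebraMap L F x) = algebraMap L F ((γ σ).right x)) ∧
      (∀ y : F, IsAlgebraic L y → y ∈ Set.range (algebraMap L F)) := by
  have := Fintype.ofFinite (L ≃ₐ[K] L)
  let K₀ := AlgebraicClosure L
  have hcL : CharZero L := charZero_of_injective_algebraMap (algebraMap K L).injective
  have hcK₀ : CharZero K₀ := charZero_of_injective_algebraMap (algebraMap L K₀).injective
  have hinj₀ : Function.Injective (algebraMap L K₀) := (algebraMap L K₀).injective
  have hinjK : Function.Injective (algebraMap K K₀) := (algebraMap K K₀).injective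
  obtain ⟨b, hb0, hb⟩ := exists_ker_elt K L φ
  obtain ⟨y, hy⟩ : ∃ y : MvPolynomial G K₀, y = yp K₀ φ b := ⟨_, rfl⟩
  have hYD : YData y := by
    rw [hy]
    exact yp_data φ b hb0 hb
  obtain ⟨Ψ, hm, hdeg, hΨ⟩ := exists_psi y
  have hyd : y.totalDegree ≤ (Fintype.card G) ^ 2 := by
    rw [hy]
    exact yp_deg0 φ b
  obtain ⟨T, hTdef⟩ : ∃ T : ℕ, T = (Fintype.card G).factorial * (Fintype.card G) ^ 2 := ⟨_, rfl⟩
  have hT : ∀ e, (Ψ.coeff e).totalDegree ≤ T := fun e => by
    rw [hTdef]
    exact Pool.Agent.W200.IK.psi_deg y _ hyd hΨ e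
  have hd0 : 0 < (orb y).card := Finset.card_pos.2 ⟨_, y_mem_orb y⟩
  -- the constants
  let P : MvPolynomial G K₀ := (∏ p : G × G, if p.1 = p.2 then 1 else X p.1 - X p.2) *
    ∏ p ∈ (orb y) ×ˢ (orb y), if p.1 = p.2 then 1 else p.1 - p.2
  have hP : P ≠ 0 := by
    refine mul_ne_zero (Finset.prod_ne_zero_iff.2 fun p _ => ?_)
      (Finset.prod_ne_zero_iff.2 fun p _ => ?_)
    · by_cases h : p.1 = p.2
      · rw [if_pos h]
        exact one_ne_zero
      · rw [if_neg h]
        exact sub_ne_zero.2 fun h' => h (X_injective h')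
    · by_cases h : p.1 = p.2
      · rw [if_pos h]
        exact one_ne_zero
      · rw [if_neg h]
        exact sub_ne_zero.2 h
  obtain ⟨l, hl1, hl2⟩ := exists_l φ P hP
  obtain ⟨lK, hlK⟩ : ∃ lK : G → K₀, lK = fun g => algebraMap L K₀ (l g) := ⟨_, rfl⟩
  rw [← hlK] at hl2
  have hlinj : Function.Injective lK := by
    intro g g' hgg
    by_contra hne
    apply hl2
    rw [map_mul, map_prod, Finset.prod_eq_zero (Finset.mem_univ (g, g')), zero_mul]
    simp only [if_neg hne, map_sub, aeval_X, hgg, sub_self]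
  have hlδ : ∀ q ∈ orb y, ∀ q' ∈ orb y, q ≠ q' → aeval lK q ≠ aeval lK q' := by
    intro q hq q' hq' hne h
    apply hl2
    rw [map_mul, map_prod, map_prod, Finset.prod_eq_zero
      (Finset.mem_product.2 ⟨hq, hq'⟩ : (q, q') ∈ (orb y) ×ˢ (orb y)), mul_zero]
    simp only [if_neg hne, map_sub, h, sub_self]
  obtain ⟨nod, hnod1, hnod2, hnod3, hnod4⟩ := exists_nodes K L G
  let Q := (L ≃ₐ[K] L) × G
  intro n hn
  obtain ⟨hn3, j, M, hJM, hTM, hDM⟩ := numbers5 (Fintype.card G) (Nat.card (L ≃ₐ[K] L))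
    (orb y).card T (Fintype.card Q) hd0 (Pool.Agent.W200.IK.card_orb_le y) (by rw [hTdef])
    (by rw [Fintype.card_prod, Nat.card_eq_fintype_card]) n hn
  refine ⟨hn3, ?_⟩
  obtain ⟨j', hj'⟩ : ∃ j', 2 + (Fintype.card Q + (j + j')) = M :=
    ⟨M - 2 - (Fintype.card Q + j), by omega⟩
  let eqv : Q ⊕ Fin j ≃ Fin (Fintype.card Q + j) :=
    (Equiv.sumCongr (Fintype.equivFin Q) (Equiv.refl _)).trans finSumFinEquiv
  let nK : Q ⊕ ℕ → K₀ := fun v => algebraMap L K₀ (nod v)
  have hnKinj : Function.Injective nK := hinj₀.comp hnod1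
  have hnK0 : ∀ v, nK v ≠ 0 := fun v => (map_ne_zero_iff _ hinj₀).2 (hnod2 v)
  let nd : Fin (Fintype.card Q + j) → K₀ := fun a => nK (Sum.map id Fin.val (eqv.symm a))
  let R : Polynomial K₀ := ∏ v : Q ⊕ Fin (j + j'),
    (Polynomial.X - Polynomial.C (nK (Sum.map id Fin.val v)))
  have hmapinj : ∀ m : ℕ, Function.Injective (Sum.map id Fin.val : Q ⊕ Fin m → Q ⊕ ℕ) := fun m =>
    Sum.map_injective.2 ⟨Function.injective_id, Fin.val_injective⟩
  have hRm : R.Monic := Polynomial.monic_prod_of_monic _ _ fun v _ => Polynomial.monic_X_sub_C _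
  have hRd : R.natDegree = Fintype.card Q + (j + j') := by
    rw [Polynomial.natDegree_prod_of_monic _ _ fun v _ => Polynomial.monic_X_sub_C _]
    simp
  have hRs : R.Separable :=
    Polynomial.separable_prod_X_sub_C_iff.2 (hnKinj.comp (hmapinj _))
  obtain ⟨B, hB, hBc⟩ := sep_c ((orb y).erase y) (fun q => aeval lK q - aeval lK y)
    (fun q hq => sub_ne_zero.2 (hlδ q (Finset.mem_of_mem_erase hq) y (y_mem_orb y)
      (Finset.ne_of_mem_erase hq)))
    (fun q hq q' hq' hne h => hlδ q (Finset.mem_of_mem_erase hq) q' (Finset.mem_of_mem_erase hq')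
      hne (sub_left_injective h)) R hRs hRm.ne_zero
  obtain ⟨c, hc0, hcB⟩ : ∃ c : K, c ≠ 0 ∧ algebraMap K K₀ c ∉ B := by
    have hinf : Infinite K := inferInstance
    obtain ⟨cc, -, hcc⟩ := exists_nat_avoid K ({0} ∪ (algebraMap K K₀) ⁻¹' B)
      ((Set.finite_singleton _).union (hB.preimage hinjK.injOn))
    exact ⟨cc 0, fun h => hcc 0 (Or.inl h), fun h => hcc 0 (Or.inr h)⟩
  let d : Dat K₀ G Q (Fin (Fintype.card Q + j)) :=
    { l := lK
      c := algebraMap K K₀ c
      R := R
      nd := nd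
      w := ∏ a, (Polynomial.X - Polynomial.C (nd a))
      hh := fun q => φ q.1 q.2
      ζ := fun q => algebraMap L K₀ (q.1 ζ)
      e := e
      emb := fun q => eqv (Sum.inl q) }
  have hGD : GD y d :=
    { hl := hlinj
      hδ := fun q hq hne => sub_ne_zero.2 (hlδ q hq y (y_mem_orb y) hne)
      hc := (_root_.map_ne_zero _).2 hc0
      hR := hRm
      hR0 := by
        change R.eval 0 ≠ 0
        rw [Polynomial.eval_prod]
        refine Finset.prod_ne_zero_iff.2 fun v _ => ?_
        simp only [Polynomial.eval_sub, Polynomial.eval_X, Polynomial.eval_C, zero_sub,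
          neg_ne_zero]
        exact hnK0 _
      hnd := hnKinj.comp ((hmapinj _).comp eqv.symm.injective)
      hndR := fun a => by
        change R.eval (nd a) = 0
        rw [Polynomial.eval_prod]
        refine Finset.prod_eq_zero (Finset.mem_univ (Sum.map id (Fin.castAdd j') (eqv.symm a))) ?_
        rw [Polynomial.eval_sub, Polynomial.eval_X, Polynomial.eval_C, sub_eq_zero]
        change nK _ = nK _
        congr 1
        rcases eqv.symm a with q | m <;> rfl
      hw := rfl
      he0 := he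
      hhe := fun q => by
        change (φ q.1 q.2) ^ e = 1
        rw [← map_pow, hge, map_one]
      hζ := fun q => (hζ.map_of_injective (f := q.1) q.1.injective).map_of_injective hinj₀
      hemb := fun q q' h => Sum.inl_injective (eqv.injective h)
      hsurj := fun g => ⟨(1, g), by
        change φ 1 g = g
        rw [map_one]
        rfl⟩ }
  have hSI : ∀ (f : K₀ ≃ₐ[K] K₀) (ρ : L ≃ₐ[K] L),
      (∀ a, f (algebraMap L K₀ a) = algebraMap L K₀ (ρ a)) →
      SI (f : K₀ →+* K₀) (φ ρ) (Equiv.prodCongr (Equiv.mulLeft ρ) (Equiv.refl G)) y d := by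
    intro f ρ hf
    have hfn : ∀ v : Q ⊕ ℕ, f (nK v) =
        nK (Sum.map (Equiv.prodCongr (Equiv.mulLeft ρ) (Equiv.refl G)) id v) := by
      intro v
      change f (algebraMap L K₀ (nod v)) = _
      rw [hf]
      rcases v with ⟨γ, g⟩ | m
      · rw [hnod3]
        rfl
      · rw [hnod4]
        rfl
    exact
      { hy := by
          rw [hy]
          exact yp_si φ b (f : K₀ →+* K₀) ρ hf
        hl := fun g => by
          change f (lK g) = lK (φ ρ g)
          rw [hlK, hf, hl1]
        hc := f.commutes c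
        hR := by
          change R.map (f : K₀ →+* K₀) = R
          simp only [R]
          rw [Polynomial.map_prod]
          conv_rhs => rw [← Equiv.prod_comp (Equiv.sumCongr
            (Equiv.prodCongr (Equiv.mulLeft ρ) (Equiv.refl G)) (Equiv.refl _))]
          refine Finset.prod_congr rfl fun v _ => ?_
          rw [Polynomial.map_sub, Polynomial.map_X, Polynomial.map_C]
          congr 2
          change f (nK _) = _
          rw [hfn]
          congr 1
          rcases v with q | m <;> rfl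
        hnd := by
          refine ⟨eqv.symm.trans ((Equiv.sumCongr
            (Equiv.prodCongr (Equiv.mulLeft ρ) (Equiv.refl G)) (Equiv.refl _)).trans eqv),
            fun a => ?_, fun q => ?_⟩
          · change f (nK _) = nK _
            rw [hfn]
            congr 1
            simp only [Equiv.trans_apply, Equiv.symm_apply_apply]
            rcases eqv.symm a with q | m <;> rfl
          · change _ = eqv (Sum.inl _)
            simp only [Equiv.trans_apply]
            change eqv ((Equiv.sumCongr _ _) (eqv.symm (eqv (Sum.inl q)))) = _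
            rw [Equiv.symm_apply_apply]
            rfl
        hh := fun q => by
          change φ ρ (φ q.1 q.2) = φ (ρ * q.1) q.2
          rw [map_mul]
          rfl
        hζ := fun q => by
          change f (algebraMap L K₀ (q.1 ζ)) = algebraMap L K₀ ((ρ * q.1) ζ)
          rw [hf]
          rfl }
  obtain ⟨N, i1, i2, i3, ξ, hξ⟩ := exists_big K₀ (((L ≃ₐ[K] L) × G) ⊕ (Unit ⊕
    (Option (Fin (Fintype.card G)) ⊕ Option (Fin (Fintype.card G)))))
  let _ : Algebra K N := ((algebraMap K₀ N).comp (algebraMap K K₀)).toAlgebra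
  let _ : Algebra L N := ((algebraMap K₀ N).comp (algebraMap L K₀)).toAlgebra
  have hT1 : IsScalarTower K K₀ N := IsScalarTower.of_algebraMap_eq fun x => rfl
  have hT2 : IsScalarTower L K₀ N := IsScalarTower.of_algebraMap_eq fun x => rfl
  have hT3 : IsScalarTower K L N := IsScalarTower.of_algebraMap_eq fun x => by
    change algebraMap K₀ N (algebraMap K K₀ x) = algebraMap K₀ N (algebraMap L K₀ _)
    rw [← IsScalarTower.algebraMap_apply K L K₀]
  obtain ⟨E, a1, a2, a3, a4, a5, F, b1, b2, b3, b4, b5, b6, b7, b8, γ, hγ1, hγ2⟩ :=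
    wreath_core (K := K) (L := L) (K₀ := K₀) (N := N) φ y hG3 d hGD Ψ hm hΨ T hT
      (hBc _ ((_root_.map_ne_zero _).2 hc0) hcB) M (by omega) hTM
      (by change 2 + R.natDegree = M; rw [hRd]; exact hj') n hn3
      (by rw [hdeg]; exact hDM) hSI ξ hξ
  exact ⟨_, inferInstance, E, a1, a2, a3, a4, a5, F, b1, b2, b3, b4, b5, b6, b7, b8, γ, hγ1, hγ2⟩

end fin

end Pool.Agent.TH59.WX
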