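import Mathlib
import Pool.Agent.H84.L.S8_H391R2_WrGrp



set_option autoImplicit false

namespace Pool.Agent.H391R2.T4

section sym

variable {Γ E₀ : Type} [Group Γ] [Group E₀]

/- The symmetric fibre power of a homomorphism `α : E₀ → Γ`. -/
def SymEP (α : E₀ →* Γ) (n : ℕ) : Subgroup (Wr E₀ n × Γ) where
  carrier := {p | ∀ i, α (p.1.left i) = p.2}
  one_mem' := fun i => map_one α
  mul_mem' := by
    intro a b ha hb i
    change α ((a.1 * b.1).left i) = a.2 * b.2
    rw [wr_mul_left, map_mul, ha, hb]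
  inv_mem' := by
    intro a ha i
    change α ((a.1⁻¹).left i) = a.2⁻¹
    rw [wr_inv_left, map_inv, ha]

/- The projection. -/
def symProj (α : E₀ →* Γ) (n : ℕ) : SymEP α n →* Γ :=
  (MonoidHom.snd (Wr E₀ n) Γ).comp (SymEP α n).subtype

variable {Γ' : Type} [Group Γ'] (α : E₀ →* Γ) (res : Γ' →* Γ) (s : Γ' →* E₀)


end sym


end Pool.Agent.H391R2.T4
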