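import Mathlib
import Pool.Agent.H84.L.S8_H391R2_NtB
import Pool.Agent.H84.L.S8_H391R2_T4_Abs
import Pool.Agent.H84.L.S8_H391R2_T4_Bc
import Pool.Agent.H84.L.S8_H391R2_T4_Phi
import Pool.Agent.H84.L.S8_H391R2_T4_Sol
import Pool.Agent.H84.L.S8_H391R2_T4_Utl
import Pool.Agent.H84.L.S8_H391R2_WrGrp
import Pool.Agent.H84.L.S8_H391R2_WrSol
import Pool.Agent.H84.L.S8_H391R2_WrTrd

namespace Pool.Agent.H391R2
end Pool.Agent.H391R2
namespace Pool.Agent.H391R2.T4
end Pool.Agent.H391R2.T4


/-!
The generic Galois group contains the kernel of `G ≀ S_n → G^ab`, arbitrary characteristic.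
-/

set_option autoImplicit false

namespace Pool.Agent.W200.IG

open MvPolynomial
open Pool.Agent.H391R2 (PhiP fam exists_field Wr)
open Pool.Agent.H391R2.T4 (orb tv SolP YData Sol bcy aeval_tv_bcy eq_on_adjoin field_le
  exists_restrict main_abs bcYData)

set_option linter.unusedSectionVars false

section geob

variable {k : Type} [Field k] {G : Type} [Group G] [Fintype G]
variable (y : MvPolynomial G k) {J : ℕ}

/- The images of the variables form a transcendence basis. -/
theorem basis_vars {V F N : Type} [Field F] [Field N]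
    [Algebra k F] [Algebra (MvPolynomial V k) F] [IsScalarTower k (MvPolynomial V k) F]
    [IsFractionRing (MvPolynomial V k) F] [Algebra F N] [Algebra.IsAlgebraic F N]
    [Algebra k N] [IsScalarTower k F N] :
    IsTranscendenceBasis k (fun v : V => algebraMap F N (algebraMap (MvPolynomial V k) F (X v))) := by
  classical
  let ξ : V → N := fun v => algebraMap F N (algebraMap (MvPolynomial V k) F (X v))
  have hξ : AlgebraicIndependent k ξ := by
    have h1 : AlgebraicIndependent k (X : V → MvPolynomial V k) :=
      algebraicIndependent_X _ _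
    have h2 := h1.map' (f := IsScalarTower.toAlgHom k (MvPolynomial V k) F)
      (IsFractionRing.injective (MvPolynomial V k) _)
    exact h2.map' (f := IsScalarTower.toAlgHom k F N) (algebraMap F N).injective
  change IsTranscendenceBasis k ξ
  rw [hξ.isTranscendenceBasis_iff_isAlgebraic]
  refine ⟨fun z => ?_⟩
  have h1 : IsAlgebraic F z := Algebra.IsAlgebraic.isAlgebraic z
  let algN : Algebra (MvPolynomial V k) N :=
    ((algebraMap F N).comp (algebraMap (MvPolynomial V k) F)).toAlgebra
  have hTN : IsScalarTower (MvPolynomial V k) F N := IsScalarTower.of_algebraMap_eq fun x => rfl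
  have h2 : IsAlgebraic (MvPolynomial V k) z :=
    (IsFractionRing.isAlgebraic_iff (MvPolynomial V k) F N).2 h1
  obtain ⟨p, hp, hpz⟩ := h2
  have hmem : ∀ q : MvPolynomial V k, aeval ξ q ∈ Algebra.adjoin k (Set.range ξ) := by
    intro q
    rw [Algebra.adjoin_range_eq_range_aeval]
    exact ⟨q, rfl⟩
  let ψ : MvPolynomial V k →+* Algebra.adjoin k (Set.range ξ) :=
    ((aeval ξ : MvPolynomial V k →ₐ[k] N) : MvPolynomial V k →+* N).codRestrict _ hmem
  have hψ : Function.Injective ψ := by
    intro a b hab
    exact algebraicIndependent_iff_injective_aeval.1 hξ (congrArg Subtype.val hab)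
  refine ⟨p.map ψ, (Polynomial.map_ne_zero_iff hψ).2 hp, ?_⟩
  rw [Polynomial.aeval_def, Polynomial.eval₂_map]
  rw [Polynomial.aeval_def] at hpz
  rw [← hpz]
  congr 1
  apply MvPolynomial.ringHom_ext
  · intro c
    change aeval ξ (C c) = algebraMap F N (algebraMap (MvPolynomial V k) F (C c))
    rw [aeval_C, IsScalarTower.algebraMap_apply k F N,
      IsScalarTower.algebraMap_apply k (MvPolynomial V k) F]
    rfl
  · intro v
    change aeval ξ (X v) = algebraMap F N (algebraMap (MvPolynomial V k) F (X v))
    rw [aeval_X]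


end geob

end Pool.Agent.W200.IG
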