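import Mathlib



/-!
A finite commutative algebra over the prime field whose unit group has enough characters.
-/

set_option autoImplicit false

namespace Pool.Agent.W200.IH

/- Characters of a finite commutative group are prescribed on an element of maximal order. -/
theorem exists_char {U G : Type} [CommGroup U] [Finite U] [Group G] (σ : U)
    (hσ : orderOf σ = Monoid.exponent U) (g : G) (hg : orderOf g ∣ Monoid.exponent U) :
    ∃ χ : U →* G, χ σ = g := by
  have hE0 : Monoid.exponent U ≠ 0 := Monoid.exponent_ne_zero_of_finite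
  obtain ⟨ζ, hζ⟩ : ∃ ζ : ℂˣ, IsPrimitiveRoot ζ (Monoid.exponent U) := by
    have h1 := Complex.isPrimitiveRoot_exp (Monoid.exponent U) hE0
    exact ⟨_, h1.isUnit_unit hE0⟩
  have hζo : orderOf ζ = Monoid.exponent U := hζ.eq_orderOf.symm
  let s : Subgroup.zpowers σ := ⟨σ, Subgroup.mem_zpowers σ⟩
  have hs : ∀ x, x ∈ Subgroup.zpowers s := by
    rintro ⟨x, n, rfl⟩
    exact ⟨n, Subtype.ext rfl⟩
  have hso : orderOf s = Monoid.exponent U := by
    rw [← hσ]
    exact Subgroup.orderOf_mk σ _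
  obtain ⟨φ, hφ⟩ := MonoidHom.domRestrict_surjective ℂ (Subgroup.zpowers σ)
    (monoidHomOfForallMemZpowers hs (g' := ζ) (by rw [hζo, hso]))
  have hφσ : φ σ = ζ := by
    have h1 := DFunLike.congr_fun hφ s
    rw [monoidHomOfForallMemZpowers_apply_gen] at h1
    exact h1
  let t : Subgroup.zpowers ζ := ⟨ζ, Subgroup.mem_zpowers ζ⟩
  have ht : ∀ x, x ∈ Subgroup.zpowers t := by
    rintro ⟨x, n, rfl⟩
    exact ⟨n, Subtype.ext rfl⟩
  have hto : orderOf t = Monoid.exponent U := by
    rw [← hζo]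
    exact Subgroup.orderOf_mk ζ _
  have hmem : ∀ u, φ u ∈ Subgroup.zpowers ζ := by
    intro u
    have : NeZero (Monoid.exponent U) := ⟨hE0⟩
    rw [hζ.zpowers_eq, mem_rootsOfUnity, ← map_pow, Monoid.pow_exponent_eq_one, map_one]
  refine ⟨(monoidHomOfForallMemZpowers ht (g' := g) (by rw [hto]; exact hg)).comp
    (φ.codRestrict (Subgroup.zpowers ζ) hmem), ?_⟩
  have h1 : φ.codRestrict (Subgroup.zpowers ζ) hmem σ = t := Subtype.ext hφσ
  rw [MonoidHom.comp_apply, h1, monoidHomOfForallMemZpowers_apply_gen]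


end Pool.Agent.W200.IH
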