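import Mathlib
import Pool.Agent.H84.L.S8_W200_IH_TB
import Pool.Agent.H84.L.S8_W200_IH_TE
import Pool.Agent.H84.L.S8_W200_IH_TF

namespace Pool.Agent.W200.IH
end Pool.Agent.W200.IH


/-!
The Lang torsor, semilinear form.
-/

set_option autoImplicit false

namespace Pool.Agent.W200.IJ

open scoped Matrix
open Pool.Agent.W200.IH (LL LL_apply LL_comm LL_mul LL_map LL_repr Mu Mu_apply act mulVec_cancel
  alg_of_frob)

set_option linter.unusedSectionVars false

section lang

variable {p : ℕ} [Fact p.Prime] {A : Type} [CommRing A] [Algebra (ZMod p) A] {ι : Type}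
  [Fintype ι] [DecidableEq ι] (bA : Module.Basis ι (ZMod p) A)
variable {M N : Type} [Field M] [Field N] [Algebra M N] [CharP N p] (fM : ZMod p →+* M)

/- The coordinates of `Frob(X) X⁻¹`. -/
noncomputable def UU (x : ι → N) : ι → N :=
  (LL bA ((algebraMap M N).comp fM) x)⁻¹ *ᵥ (frobenius N p ∘ x)

theorem act_Mu (c : Aˣ) (v : ι → N) : act (Mu bA M fM c) v =
    LL bA ((algebraMap M N).comp fM)
      (fun i => ((algebraMap M N).comp fM) (bA.repr (c : A) i)) *ᵥ v := by
  rw [LL_repr]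
  rfl

theorem map_vec (g : N →+* N) (a b : ι → N) :
    g ∘ (LL bA ((algebraMap M N).comp fM) a *ᵥ b) =
      LL bA ((algebraMap M N).comp fM) (g ∘ a) *ᵥ (g ∘ b) := by
  have h1 : g.comp ((algebraMap M N).comp fM) = (algebraMap M N).comp fM := Subsingleton.elim _ _
  have h2 := LL_map bA ((algebraMap M N).comp fM) g a
  rw [h1] at h2
  rw [← h2]
  funext i
  exact RingHom.map_mulVec g _ _ i

theorem map_cst (g : N →+* N) (c : A) :
    g ∘ (fun i => ((algebraMap M N).comp fM) (bA.repr c i)) =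
      fun i => ((algebraMap M N).comp fM) (bA.repr c i) := by
  have h1 : g.comp ((algebraMap M N).comp fM) = (algebraMap M N).comp fM := Subsingleton.elim _ _
  funext i
  exact congrArg (fun h : ZMod p →+* N => h (bA.repr c i)) h1

/- The action commutes with ring homomorphisms. -/
theorem map_actMu (g : N →+* N) (c : Aˣ) (v : ι → N) :
    g ∘ act (Mu bA M fM c) v = act (Mu bA M fM c) (g ∘ v) := by
  rw [act_Mu, act_Mu, map_vec, map_cst]

theorem det_map (g : N →+* N) (x : ι → N) (hx : (LL bA ((algebraMap M N).comp fM) x).det ≠ 0) :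
    (LL bA ((algebraMap M N).comp fM) (g ∘ x)).det ≠ 0 := by
  have h1 : g.comp ((algebraMap M N).comp fM) = (algebraMap M N).comp fM := Subsingleton.elim _ _
  have h2 := LL_map bA ((algebraMap M N).comp fM) g x
  rw [h1] at h2
  have h3 : (LL bA ((algebraMap M N).comp fM) (g ∘ x)).det =
      g (LL bA ((algebraMap M N).comp fM) x).det := by
    rw [← h2]
    exact (RingHom.map_det g _).symm
  rw [h3]
  exact (map_ne_zero g).2 hx

theorem UU_spec (x : ι → N) (hx : (LL bA ((algebraMap M N).comp fM) x).det ≠ 0) :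
    LL bA ((algebraMap M N).comp fM) x *ᵥ UU bA fM x = frobenius N p ∘ x := by
  unfold UU
  rw [Matrix.mulVec_mulVec, Matrix.mul_nonsing_inv _ (isUnit_iff_ne_zero.2 hx), Matrix.one_mulVec]

theorem fr_map (g : N →+* N) (x : ι → N) : g ∘ (frobenius N p ∘ x) = frobenius N p ∘ (g ∘ x) := by
  funext i
  exact map_pow g (x i) p

theorem UU_inv (g : N →+* N) (x x' : ι → N) (c : Aˣ)
    (hx : (LL bA ((algebraMap M N).comp fM) x).det ≠ 0)
    (hx' : (LL bA ((algebraMap M N).comp fM) x').det ≠ 0)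
    (hc : g ∘ x = act (Mu bA M fM c) x') : g ∘ UU bA fM x = UU bA fM x' := by
  rw [act_Mu] at hc
  obtain ⟨cc, hcc⟩ : ∃ cc : ι → N, cc = fun i => ((algebraMap M N).comp fM) (bA.repr (c : A) i) :=
    ⟨_, rfl⟩
  rw [← hcc] at hc
  have h2 : LL bA ((algebraMap M N).comp fM) (g ∘ x) *ᵥ (g ∘ UU bA fM x) =
      frobenius N p ∘ (g ∘ x) := by
    rw [← map_vec, UU_spec bA fM x hx, fr_map]
  have h3 : frobenius N p ∘ (g ∘ x) =
      LL bA ((algebraMap M N).comp fM) (g ∘ x) *ᵥ UU bA fM x' := by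
    have h4 : frobenius N p ∘ (LL bA ((algebraMap M N).comp fM) cc *ᵥ x') =
        LL bA ((algebraMap M N).comp fM) (frobenius N p ∘ cc) *ᵥ (frobenius N p ∘ x') :=
      map_vec bA fM (frobenius N p) _ _
    have h5 : frobenius N p ∘ cc = cc := by rw [hcc]; exact map_cst bA fM _ _
    rw [hc, h4, h5, ← UU_spec bA fM x' hx', Matrix.mulVec_mulVec, LL_mul]
  rw [h3] at h2
  exact mulVec_cancel (det_map bA fM g x hx) h2

theorem UU_tors (g : N →+* N) (x x' : ι → N)
    (hx : (LL bA ((algebraMap M N).comp fM) x).det ≠ 0)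
    (hx' : (LL bA ((algebraMap M N).comp fM) x').det ≠ 0)
    (hg : g ∘ UU bA fM x = UU bA fM x') : ∃ c : Aˣ, g ∘ x = act (Mu bA M fM c) x' := by
  have hunit' : IsUnit (LL bA ((algebraMap M N).comp fM) x').det := isUnit_iff_ne_zero.2 hx'
  obtain ⟨c, hc⟩ : ∃ c : ι → N, LL bA ((algebraMap M N).comp fM) x' *ᵥ c = g ∘ x := by
    refine ⟨(LL bA ((algebraMap M N).comp fM) x')⁻¹ *ᵥ (g ∘ x), ?_⟩
    rw [Matrix.mulVec_mulVec, Matrix.mul_nonsing_inv _ hunit', Matrix.one_mulVec]
  have h1 : LL bA ((algebraMap M N).comp fM) (g ∘ x) *ᵥ UU bA fM x' =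
      frobenius N p ∘ (g ∘ x) := by
    rw [← hg, ← map_vec, UU_spec bA fM x hx, fr_map]
  have h2 : LL bA ((algebraMap M N).comp fM) (frobenius N p ∘ x') *ᵥ (frobenius N p ∘ c) =
      LL bA ((algebraMap M N).comp fM) (frobenius N p ∘ x') *ᵥ c := by
    have h3 : frobenius N p ∘ (g ∘ x) =
        LL bA ((algebraMap M N).comp fM) (frobenius N p ∘ x') *ᵥ (frobenius N p ∘ c) := by
      rw [← hc]
      exact map_vec bA fM (frobenius N p) _ _
    rw [← h3, ← h1, ← hc, LL_mul, ← Matrix.mulVec_mulVec,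
      LL_comm bA ((algebraMap M N).comp fM) c (UU bA fM x'),
      Matrix.mulVec_mulVec, ← LL_mul, UU_spec bA fM x' hx']
  have h3 : frobenius N p ∘ c = c := mulVec_cancel (det_map bA fM _ x' hx') h2
  have h4 : ∀ i, ∃ a : ZMod p, ((algebraMap M N).comp fM) a = c i := by
    intro i
    have h5 : c i ^ p = c i := congrFun h3 i
    have h6 := (Subfield.mem_bot_iff_pow_eq_self N p).2 h5
    obtain ⟨n, hn⟩ := (mem_bot_iff_intCast p N).1 h6
    exact ⟨n, by rw [map_intCast]; exact hn⟩
  choose a ha using h4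
  let cA : A := bA.equivFun.symm a
  have hcA : ∀ i, bA.repr cA i = a i := by
    intro i
    have h5 : bA.equivFun cA = a := LinearEquiv.apply_symm_apply _ _
    exact congrFun h5 i
  have hcc : c = fun i => ((algebraMap M N).comp fM) (bA.repr cA i) := by
    funext i
    rw [hcA, ha]
  have hγx : g ∘ x = LL bA ((algebraMap M N).comp fM)
      (fun i => ((algebraMap M N).comp fM) (bA.repr cA i)) *ᵥ x' := by
    rw [← hc, LL_comm, hcc]
  have hdA : (Algebra.leftMulMatrix bA cA).det ≠ 0 := by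
    intro h0
    have h5 : (LL bA ((algebraMap M N).comp fM) (g ∘ x)).det = 0 := by
      rw [hγx, LL_mul, Matrix.det_mul, LL_repr]
      have h6 : ((Algebra.leftMulMatrix bA cA).map ((algebraMap M N).comp fM)).det =
          ((algebraMap M N).comp fM) (Algebra.leftMulMatrix bA cA).det :=
        (RingHom.map_det _ _).symm
      rw [h6, h0, map_zero, zero_mul]
    exact det_map bA fM g x hx h5
  have hcu : IsUnit cA := by
    rw [isUnit_iff_exists_inv]
    refine ⟨bA.equivFun.symm ((Algebra.leftMulMatrix bA cA)⁻¹ *ᵥ (fun i => bA.repr 1 i)), ?_⟩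
    apply bA.repr.injective
    apply Finsupp.ext
    intro i
    have h5 := Algebra.leftMulMatrix_mulVec_repr bA cA
      (bA.equivFun.symm ((Algebra.leftMulMatrix bA cA)⁻¹ *ᵥ (fun i => bA.repr 1 i)))
    have h6 : ⇑(bA.repr (bA.equivFun.symm
        ((Algebra.leftMulMatrix bA cA)⁻¹ *ᵥ (fun i => bA.repr 1 i)))) =
        (Algebra.leftMulMatrix bA cA)⁻¹ *ᵥ (fun i => bA.repr 1 i) :=
      LinearEquiv.apply_symm_apply bA.equivFun _
    rw [h6, Matrix.mulVec_mulVec, Matrix.mul_nonsing_inv _ (isUnit_iff_ne_zero.2 hdA),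
      Matrix.one_mulVec] at h5
    exact (congrFun h5 i).symm
  obtain ⟨cu, hcu'⟩ := hcu
  refine ⟨cu, ?_⟩
  rw [act_Mu, hcu', ← hγx]

theorem UU_alg (x : ι → N) (hx : (LL bA ((algebraMap M N).comp fM) x).det ≠ 0)
    (S : IntermediateField M N) (hS : ∀ i, UU bA fM x i ∈ S) (i : ι) : IsAlgebraic S (x i) := by
  have h1 : frobenius N p ∘ x = LL bA ((algebraMap M N).comp fM) (UU bA fM x) *ᵥ x := by
    rw [LL_comm, UU_spec bA fM x hx]
  refine alg_of_frob (p := p) x (fun i => ?_) i
  have h2 : x i ^ p = (LL bA ((algebraMap M N).comp fM) (UU bA fM x) *ᵥ x) i := congrFun h1 i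
  rw [h2]
  refine Submodule.sum_mem _ fun j _ => ?_
  have h3 : LL bA ((algebraMap M N).comp fM) (UU bA fM x) i j ∈ S := by
    rw [LL_apply]
    refine sum_mem fun l _ => mul_mem (hS l) ?_
    exact S.algebraMap_mem _
  exact Submodule.smul_mem _ (⟨_, h3⟩ : S) (Submodule.subset_span ⟨j, rfl⟩)

end lang

/- The algebra used for the torsor. -/
theorem exists_torsor1 (p : ℕ) [Fact p.Prime] (G : Type) [Group G] [Finite G] :
    ∃ (A : Type) (_ : CommRing A) (_ : Algebra (ZMod p) A) (ι : Type) (_ : Fintype ι)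
      (_ : DecidableEq ι) (_ : Module.Basis ι (ZMod p) A) (_ : Finite Aˣ) (σ : Aˣ),
      ∀ h : G, ∃ χ : Aˣ →* G, χ σ = h := by
  classical
  let e := Nat.card G
  have he : NeZero e := ⟨Nat.card_pos.ne'⟩
  let A₀ := MonoidAlgebra (ZMod p) (Multiplicative (ZMod e))
  have hfin : Finite A₀ := Module.finite_of_finite (ZMod p)
  have hfu : Finite A₀ˣ := inferInstance
  obtain ⟨σ₀, hσ₀⟩ := Monoid.exists_orderOf_eq_exponent
    (Monoid.ExponentExists.of_finite (G := A₀ˣ))
  have hdvd : e ∣ Monoid.exponent A₀ˣ := by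
    let τ : A₀ˣ := Units.map (MonoidAlgebra.of (ZMod p) (Multiplicative (ZMod e)))
      (toUnits (Multiplicative.ofAdd (1 : ZMod e)))
    have h1 : orderOf τ = e := by
      have h2 : Function.Injective (Units.map (MonoidAlgebra.of (ZMod p) (Multiplicative (ZMod e)))) :=
        Units.map_injective MonoidAlgebra.of_injective
      rw [orderOf_injective _ h2]
      have h3 := orderOf_injective (toUnits (G := Multiplicative (ZMod e))).toMonoidHom
        (MulEquiv.injective _) (Multiplicative.ofAdd (1 : ZMod e))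
      refine Eq.trans h3 ?_
      rw [orderOf_ofAdd_eq_addOrderOf, ZMod.addOrderOf_one]
    exact h1.symm.dvd.trans (Monoid.order_dvd_exponent τ)
  exact ⟨A₀, inferInstance, inferInstance, _, inferInstance, inferInstance,
    Module.finBasis (ZMod p) A₀, hfu, σ₀, fun h =>
      Pool.Agent.W200.IH.exists_char σ₀ hσ₀ h ((orderOf_dvd_natCard h).trans hdvd)⟩

end Pool.Agent.W200.IJ
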