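import Mathlib
import Pool.Agent.H84.L.S8_H391R2_NtB
import Pool.Agent.H84.L.S8_H391R2_T4_Abs
import Pool.Agent.H84.L.S8_H391R2_T4_Bc
import Pool.Agent.H84.L.S8_H391R2_T4_Phi
import Pool.Agent.H84.L.S8_H391R2_T4_Sol
import Pool.Agent.H84.L.S8_H391R2_T4_Utl
import Pool.Agent.H84.L.S8_H391R2_WrGrp
import Pool.Agent.H84.L.S8_H391R2_WrSol
import Pool.Agent.H84.L.S8_H391R2_WrTrd
import Pool.Agent.H84.L.S8_W200_IG_Fam
import Pool.Agent.H84.L.S8_W200_IH_PA
import Pool.Agent.H84.L.S8_W200_IH_PB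

namespace Pool.Agent.H391R2
end Pool.Agent.H391R2
namespace Pool.Agent.H391R2.T4
end Pool.Agent.H391R2.T4
namespace Pool.Agent.W200.IG
end Pool.Agent.W200.IG


/-!
Automorphisms realising the kernel of `G ≀ S_n → G^ab`, arbitrary characteristic, `m + 2`
parameters per coordinate, data over a subfield of the base field.
-/

set_option autoImplicit false

namespace Pool.Agent.W200.IH

open MvPolynomial
open Pool.Agent.H391R2 (PhiP fam exists_field Wr)
open Pool.Agent.H391R2.T4 (orb tv SolP YData Sol bcy aeval_tv_bcy eq_on_adjoin field_le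
  exists_restrict main_abs bcYData)
open Pool.Agent.W200.IG (Dt GD)

set_option linter.unusedSectionVars false

section geoc

variable {k : Type} [Field k] {G : Type} [Group G] [Fintype G]
variable (y : MvPolynomial G k) {J m : ℕ}

/- Decomposition of the index set. -/
def dec (G : Type) [Fintype G] (m : ℕ) :
    (Option (Fin (Fintype.card G)) ⊕ Option (Fin (Fintype.card G))) ⊕ (Unit ⊕ Ix G m) →
      Unit ⊕ Ix G (m + 2)
  | Sum.inl (Sum.inl i) => Sum.inr (i, 0)
  | Sum.inl (Sum.inr i) => Sum.inr (i, 1)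
  | Sum.inr (Sum.inl u) => Sum.inl u
  | Sum.inr (Sum.inr (i, j)) => Sum.inr (i, j.succ.succ)

theorem dec_injective (G : Type) [Fintype G] (m : ℕ) : Function.Injective (dec G m) := by
  have h01 : (0 : Fin (m + 2)) ≠ 1 := by
    intro h
    have := congrArg Fin.val h
    simp at this
  have h0 : ∀ j : Fin m, (0 : Fin (m + 2)) ≠ j.succ.succ := fun j => (Fin.succ_ne_zero _).symm
  have h1 : ∀ j : Fin m, (1 : Fin (m + 2)) ≠ j.succ.succ := by
    intro j h
    have h2 : (0 : Fin (m + 1)).succ = j.succ.succ := h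
    exact (Fin.succ_ne_zero j).symm (Fin.succ_injective _ h2)
  rintro ((a | a) | (a | ⟨a, j⟩)) ((b | b) | (b | ⟨b, l⟩)) hab <;>
    simp only [dec, Sum.inr.injEq, Prod.mk.injEq, reduceCtorEq] at hab
  · rw [hab.1]
  · exact absurd hab.2 h01
  · exact absurd hab.2 (h0 l)
  · exact absurd hab.2.symm h01
  · rw [hab.1]
  · exact absurd hab.2 (h1 l)
  · rfl
  · exact absurd hab.2.symm (h0 j)
  · exact absurd hab.2.symm (h1 j)
  · rw [hab.1, Fin.succ_injective _ (Fin.succ_injective _ hab.2)]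

theorem dec_surjective (G : Type) [Fintype G] (m : ℕ) : Function.Surjective (dec G m) := by
  rintro (u | ⟨i, j⟩)
  · exact ⟨Sum.inr (Sum.inl u), rfl⟩
  · refine Fin.cases ?_ (fun j => ?_) j
    · exact ⟨Sum.inl (Sum.inl i), rfl⟩
    · refine Fin.cases ?_ (fun j => ?_) j
      · exact ⟨Sum.inl (Sum.inr i), rfl⟩
      · exact ⟨Sum.inr (Sum.inr (i, j)), rfl⟩

open Classical in
theorem geo3 [YData y] (d : Dt k G J) (h : GD y d)
    (Ψ : Polynomial (MvPolynomial (Fin (Fintype.card G)) k)) (hm : Ψ.Monic)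
    (hΨ : Ψ.map ((aeval fun i : Fin (Fintype.card G) => esymm G k (i + 1) :
      MvPolynomial (Fin (Fintype.card G)) k →ₐ[k] MvPolynomial G k) :
      MvPolynomial (Fin (Fintype.card G)) k →+* MvPolynomial G k) =
      ∏ q ∈ orb y, (Polynomial.X - Polynomial.C q))
    (T : ℕ) (hT : ∀ e, (Ψ.coeff e).totalDegree ≤ T)
    (hsep : (Polynomial.C d.c * d.R * ∏ q ∈ (orb y).erase y,
      (Polynomial.C d.c * (Polynomial.X ^ 2 * d.R) -
      Polynomial.C (aeval d.l q - aeval d.l y))).Separable)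
    (M : ℕ) (hJM : J + (m + 2) < M) (hB : T * (J + (m + 2)) < M) (hM : 2 + d.R.natDegree = M)
    (n : ℕ) (hn : 3 ≤ n) (hdeg : Ψ.natDegree * M = n + J)
    {K : Type} [Field K] [Algebra k K]
    {N : Type} [Field N] [Algebra K N] [Algebra k N] [IsScalarTower k K N] [IsAlgClosed N]
    (ξ : Unit ⊕ Ix G (m + 2) → N) (hξ : IsTranscendenceBasis K ξ) :
    ∃ (r : Fin n → N) (vv : Fin n → G → N), Function.Injective r ∧
      (∀ i, Polynomial.aeval (r i) d.w ≠ 0) ∧ (∀ i, SolP y (PX y d ξ) (r i) (vv i)) ∧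
      (∀ s v, SolP y (PX y d ξ) s v → Polynomial.aeval s d.w ≠ 0 → ∃ i, s = r i) ∧
      (∀ i, AlgebraicIndependent K (vv i)) ∧
      ∀ x : Wr G n, ∏ i, Abelianization.of (x.left i) = 1 → ∃ γ : N ≃ₐ[K] N,
        (∀ v, γ (ξ v) = ξ v) ∧ ∀ i, γ (r i) = r (x.right i) ∧
          ∀ g, γ (vv i g) = vv (x.right i) (x.left (x.right i) * g) := by
  obtain ⟨r, vv, hr, hrw, hsol, hall, Ω, i1, i2, j, τ, hτξ, c₁, c₂, hcc, hτ1, hτ2, hτ3, hτ4⟩ :=
    geo1 y d h Ψ hm hΨ T hT hsep M hJM hB hM n hn hdeg ξ hξ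
  obtain ⟨θ, hθdef⟩ : ∃ θ : Option (Fin (Fintype.card G)) ⊕ Option (Fin (Fintype.card G)) → N,
    θ = Sum.elim (fun i => ξ (Sum.inr (i, 0))) (fun i => ξ (Sum.inr (i, 1))) := ⟨_, rfl⟩
  have hθdec : ∀ i, θ i = ξ (dec G m (Sum.inl i)) := by
    rw [hθdef]
    rintro (i | i) <;> rfl
  have hjinj : Function.Injective j := j.toRingHom.injective
  -- the field of the parameter
  obtain ⟨k₁, hk₁def⟩ : ∃ K₁ : IntermediateField K N, K₁ = IntermediateField.adjoin K
      (Set.range (fun w : Unit ⊕ Ix G m => ξ (dec G m (Sum.inr w)))) := ⟨_, rfl⟩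
  have hmem : ∀ w : Unit ⊕ Ix G m, ξ (dec G m (Sum.inr w)) ∈ k₁ := by
    intro w
    rw [hk₁def]
    exact IntermediateField.subset_adjoin _ _ ⟨w, rfl⟩
  have hθ : AlgebraicIndependent k₁ θ := by
    rw [hk₁def, IntermediateField.algebraicIndependent_adjoin_iff]
    have h1 := hξ.1.comp (dec G m) (dec_injective G m)
    have h2 : ξ ∘ dec G m = Sum.elim θ (fun w => ξ (dec G m (Sum.inr w))) := by
      funext v
      rcases v with a | a
      · exact (hθdec a).symm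
      · rfl
    rw [h2] at h1
    exact (AlgebraicIndependent.sumElim_iff.1 h1).2
  have hTkk : IsScalarTower k k₁ N := IsScalarTower.of_algebraMap_eq fun x => by
    have h1 : algebraMap k k₁ x = algebraMap K k₁ (algebraMap k K x) :=
      IsScalarTower.algebraMap_apply k K k₁ x
    rw [h1, ← IsScalarTower.algebraMap_apply K k₁ N, IsScalarTower.algebraMap_apply k K N]
  let t₁ : k₁ := ⟨_, hmem (Sum.inl ())⟩
  have ht₁ : algebraMap k₁ N t₁ = ξ (Sum.inl ()) := rfl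
  let θ₂ : Ix G m → k₁ := fun i => ⟨_, hmem (Sum.inr i)⟩
  have hθ₂ : ∀ i (j : Fin m), algebraMap k₁ N (θ₂ (i, j)) = ξ (Sum.inr (i, j.succ.succ)) :=
    fun i j => rfl
  obtain ⟨F₁, iF1, iF2, iF3, iF4, iF5, φ, hφ⟩ := exists_field hθ
  let _ : Algebra F₁ N := φ.toRingHom.toAlgebra
  have hTF : IsScalarTower k₁ F₁ N := IsScalarTower.of_algebraMap_eq fun x => (φ.commutes x).symm
  have hθF : ∀ i, θ i = algebraMap F₁ N (algebraMap (MvPolynomial
      (Option (Fin (Fintype.card G)) ⊕ Option (Fin (Fintype.card G))) k₁) F₁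
      (MvPolynomial.X i)) := by
    intro i
    change _ = φ _
    rw [hφ, aeval_X]
  let _ : Algebra K F₁ := ((algebraMap k₁ F₁).comp (algebraMap K k₁)).toAlgebra
  have hTkF : IsScalarTower K k₁ F₁ := IsScalarTower.of_algebraMap_eq fun x => rfl
  have hTkN : IsScalarTower K F₁ N := IsScalarTower.of_algebraMap_eq fun x => by
    rw [IsScalarTower.algebraMap_apply K k₁ N, IsScalarTower.algebraMap_apply k₁ F₁ N]
    rfl
  have hξF : ∀ v, ∃ f : F₁, algebraMap F₁ N f = ξ v := by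
    intro v
    obtain ⟨v', rfl⟩ := dec_surjective G m v
    rcases v' with i | w
    · exact ⟨_, by rw [← hθF, hθdec]⟩
    · exact ⟨algebraMap k₁ F₁ ⟨_, hmem w⟩, by
        rw [← IsScalarTower.algebraMap_apply k₁ F₁ N]
        rfl⟩
  -- N is algebraic over F₁
  have halg : Algebra.IsAlgebraic F₁ N := Pool.Agent.H391R2.T4.alg_of_range ξ hξ hξF
  have hcl : IsAlgClosure F₁ N := ⟨inferInstance, halg⟩
  have hnorm : Normal F₁ N := IsAlgClosure.normal F₁ N
  -- equality on F₁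
  have heqF : ∀ {Ω' : Type} [Field Ω'] [Algebra K Ω'] (f g : N →ₐ[K] Ω'),
      (∀ v, f (ξ v) = g (ξ v)) →
      ∀ x : F₁, f (algebraMap F₁ N x) = g (algebraMap F₁ N x) := by
    intro Ω' _ _ f g h2 x
    have h3 : ∀ x : k₁, f (algebraMap k₁ N x) = g (algebraMap k₁ N x) := by
      intro x
      have hx : (x : N) ∈ IntermediateField.adjoin K
          (Set.range (fun w : Unit ⊕ Ix G m => ξ (dec G m (Sum.inr w)))) := by
        rw [← hk₁def]; exact x.2
      refine eq_on_adjoin f g _ ?_ _ hx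
      rintro _ ⟨v, rfl⟩
      exact h2 _
    let _ : Algebra k₁ Ω' := ((f : N →+* Ω').comp (algebraMap k₁ N)).toAlgebra
    let f' : N →ₐ[k₁] Ω' := { (f : N →+* Ω') with commutes' := fun c => rfl }
    let g' : N →ₐ[k₁] Ω' := { (g : N →+* Ω') with commutes' := fun c => (h3 c).symm }
    have h4 := eq_on_adjoin f' g' (Set.range θ) (by
      rintro _ ⟨i, rfl⟩
      rw [hθdec]
      exact h2 _) _ (field_le θ hθF x)
    exact h4
  -- the transposition
  obtain ⟨τN, hτN⟩ := exists_restrict (F := F₁) (N := N) (j : N →+* Ω) (τ : Ω ≃+* Ω) (fun x => by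
    refine heqF ((τ : Ω →ₐ[K] Ω).comp j) j (fun v => ?_) x
    exact hτξ _)
  have hτN' : ∀ x, j (τN x) = τ (j x) := hτN
  -- solutions
  have hfam : ∀ i, fam G (base2 y d t₁ θ₂) (d.w.map (algebraMap k k₁)) θ i = PX y d ξ i := by
    intro i
    rw [hθdef, fam_PP y d t₁ θ₂ (fun i => ξ (Sum.inr i)) hθ₂ i, ht₁]
    rfl
  have hw1 : ∀ s : N, Polynomial.aeval s (d.w.map (algebraMap k k₁)) = Polynomial.aeval s d.w :=
    fun s => Polynomial.aeval_map_algebraMap _ _ _
  have hSolP : ∀ s v, Sol (bcy k₁ y) (base2 y d t₁ θ₂)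
      (d.w.map (algebraMap k k₁)) θ s v ↔ Polynomial.aeval s d.w ≠ 0 ∧ SolP y (PX y d ξ) s v := by
    intro s v
    unfold Sol SolP
    simp only [hfam, hw1, aeval_tv_bcy]
  obtain ⟨π, hπ1, hπ2⟩ := main_abs (bcy k₁ y) (base2 y d t₁ θ₂)
    (d.w.map (algebraMap k k₁)) θ hθ hθF n hn r hr vv
    (fun i => (hSolP _ _).2 ⟨hrw i, hsol i⟩)
    (fun s v hsv => hall s v ((hSolP _ _).1 hsv).2 ((hSolP _ _).1 hsv).1) τN c₁ c₂ hcc
    (hjinj (by rw [hτN', hτ1])) (hjinj (by rw [hτN', hτ2]))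
    (fun g => hjinj (by rw [hτN', hτN', hτ3]))
    (fun i hi1 hi2 => ⟨hjinj (by rw [hτN', (hτ4 i hi1 hi2).1]),
      fun g => hjinj (by rw [hτN', (hτ4 i hi1 hi2).2])⟩)
  have hvind : ∀ i, AlgebraicIndependent K (vv i) := by
    intro i
    have : Nontrivial (Fin n) := Fin.nontrivial_iff_two_le.2 (by omega)
    obtain ⟨i', hi'⟩ := exists_ne i
    have h1 := (Pool.Agent.H391R2.T4.indep_v (bcy k₁ y) _ _ θ hθ (r i) (vv i) (r i') (vv i')
      ((hSolP _ _).2 ⟨hrw i, hsol i⟩) ((hSolP _ _).2 ⟨hrw i', hsol i'⟩)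
      (fun h => hi' (hr h).symm))
    exact h1.restrictScalars (algebraMap K k₁).injective
  refine ⟨r, vv, hr, hrw, hsol, hall, hvind, fun x hx => ?_⟩
  obtain ⟨γ, hγ⟩ := hπ1 x hx
  refine ⟨γ.restrictScalars K, fun v => ?_, fun i => ?_⟩
  · obtain ⟨f, hf⟩ := hξF v
    rw [← hf]
    exact γ.commutes f
  · rw [← hγ]
    exact hπ2 γ i

end geoc

end Pool.Agent.W200.IH
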