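import Mathlib
import Pool.Agent.H84.L.S8_H391R2_T4_DegN
import Pool.Agent.H84.L.S8_H391R2_T4_Gp
import Pool.Agent.H84.L.S8_H391R2_T4_Nod
import Pool.Agent.H84.L.S8_H391R2_T4_Red
import Pool.Agent.H84.L.S8_H391R2_T4_Sem
import Pool.Agent.H84.L.S8_H391R2_T4_Sym
import Pool.Agent.H84.L.S8_H391R2_WrGrp
import Pool.Agent.H84.L.S8_H81R2_BT_Trace
import Pool.Agent.H84.L.S8_W200_IG_Fam
import Pool.Agent.H84.L.S8_W200_IG_HD
import Pool.Agent.H84.L.S8_W200_IG_HF
import Pool.Agent.H84.L.S8_W200_IJ_BC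
import Pool.Agent.H84.L.S8_W200_IJ_CC
import Pool.Agent.H84.L.S8_W200_IJ_CD
import Pool.Agent.H84.L.S8_W200_IJ_SA
import Pool.Agent.H84.L.S8_W200_IK_DB
import Pool.Agent.H84.L.S8_W200_IK_DC

namespace Pool.Agent.H391R2
end Pool.Agent.H391R2
namespace Pool.Agent.H391R2.T4
end Pool.Agent.H391R2.T4
namespace Pool.Agent.H81R2.BT
end Pool.Agent.H81R2.BT
namespace Pool.Agent.W200.IG
end Pool.Agent.W200.IG
namespace Pool.Agent.W200.IJ
end Pool.Agent.W200.IJ


/-! # Regular solutions over `κ(t)` with an explicit bound -/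

set_option autoImplicit false

namespace Pool.Agent.W200.IK

open Polynomial
open Pool.Agent.H391R2 (Wr)
open Pool.Agent.H391R2.T4 (EG RegSol exists_equiv_of_ker finite_wr finite_eg SymEP symProj SolOver)
open Pool.Agent.H81R2.BT (ratFunc_alg)
open Pool.Agent.W200.IG (HP hp_base sp_mvPolynomial)
open Pool.Agent.W200.IJ

set_option linter.unusedSectionVars false

theorem reg_wreath_fin_bd (κ L : Type) [Field κ] [Finite κ]
    [Field L] [Algebra κ L] [FiniteDimensional κ L] [IsGalois κ L] (G : Type) [Group G]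
    [Finite G] (φ : (L ≃ₐ[κ] L) →* MulAut G) :
    ∀ n ≥ bd (Nat.card G) (Nat.card (L ≃ₐ[κ] L)), 3 ≤ n ∧
      RegSol κ L (EG φ n) SemidirectProduct.rightHom := by
  classical
  have hinf : Infinite (RatFunc κ) :=
    Infinite.of_injective _ (IsFractionRing.injective (Polynomial κ) (RatFunc κ))
  obtain ⟨p, hp⟩ := CharP.exists κ
  have hp' : Fact p.Prime := ⟨(CharP.char_is_prime_or_zero κ p).resolve_right
    (CharP.char_ne_zero_of_finite κ p)⟩
  have hcR : CharP (RatFunc κ) p :=
    charP_of_injective_algebraMap (algebraMap κ (RatFunc κ)).injective p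
  -- the constant extension `M = L(t)`
  obtain ⟨M, m1, m2, m3, m4, m5, m6, m7, m8, γM, hγM, hregM⟩ := taskA_empty κ L (L ≃ₐ[κ] L)
    (MonoidHom.id _) (fun a b h => h) (fun x hx => by
      rw [IsGalois.mem_range_algebraMap_iff_fixed]
      exact hx)
  let φM : (M ≃ₐ[RatFunc κ] M) →* MulAut G := φ.comp γM.toMonoidHom
  have hn₀ := gen_eg_bd p (RatFunc κ) M G φM
  rw [Nat.card_congr γM.toEquiv] at hn₀
  intro n hn
  obtain ⟨hn3, V, hV, E, a1, a2, a3, a4, a5, F, b1, b2, b3, b4, b5, b6, b7, b8, γ, hγ1, hγ2⟩ :=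
    hn₀ n hn
  refine ⟨hn3, ?_⟩
  -- algebra structures over `κ` and `L`
  let _ : Algebra κ E := ((algebraMap (RatFunc κ) E).comp (algebraMap κ (RatFunc κ))).toAlgebra
  have t1 : IsScalarTower κ (RatFunc κ) E := IsScalarTower.of_algebraMap_eq fun x => rfl
  let _ : Algebra κ F := ((algebraMap E F).comp (algebraMap κ E)).toAlgebra
  have t2 : IsScalarTower κ E F := IsScalarTower.of_algebraMap_eq fun x => rfl
  let _ : Algebra L F := ((algebraMap M F).comp (algebraMap L M)).toAlgebra
  have t3 : IsScalarTower L M F := IsScalarTower.of_algebraMap_eq fun x => rfl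
  have hκF : ∀ x : κ, algebraMap κ F x = algebraMap M F (algebraMap κ M x) := by
    intro x
    rw [IsScalarTower.algebraMap_apply κ (RatFunc κ) M,
      ← IsScalarTower.algebraMap_apply (RatFunc κ) M F,
      IsScalarTower.algebraMap_apply (RatFunc κ) E F]
    rfl
  have t4 : IsScalarTower κ L F := IsScalarTower.of_algebraMap_eq fun x => by
    rw [hκF, IsScalarTower.algebraMap_apply κ L M]
    rfl
  have t5 : IsScalarTower κ M F := IsScalarTower.of_algebraMap_eq hκF
  -- the large finite field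
  obtain ⟨B, hBdef⟩ : ∃ B : ℕ, B = Nat.card (EG φM n) := ⟨_, rfl⟩
  have hfinL : Finite L := Module.finite_of_finite κ
  let P : L[X] := X ^ (Nat.card κ) ^ B.factorial - X
  let κ' := P.SplittingField
  have hfinκ' : Finite κ' := Module.finite_of_finite L
  have t6 : IsScalarTower κ L κ' := inferInstance
  have hsplit : (X ^ (Nat.card κ) ^ B.factorial - X : κ'[X]).Splits := by
    have h1 : (P.map (algebraMap L κ')).Splits := SplittingField.splits P
    have h2 : P.map (algebraMap L κ') = X ^ (Nat.card κ) ^ B.factorial - X := by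
      simp only [P]
      rw [Polynomial.map_sub, Polynomial.map_pow, map_X]
    rwa [h2] at h1
  -- the compositum
  obtain ⟨N, c1, c2, c3, c4, c5, c6, c7, hN⟩ := exists_comp (κ₀ := κ) (L := L) (κ' := κ')
    (E := E) (F := F)
  let _ : Algebra κ N := ((algebraMap E N).comp (algebraMap κ E)).toAlgebra
  have t7 : IsScalarTower κ E N := IsScalarTower.of_algebraMap_eq fun x => rfl
  have t8 : IsScalarTower κ F N := IsScalarTower.of_algebraMap_eq fun x => by
    rw [IsScalarTower.algebraMap_apply κ E F, ← IsScalarTower.algebraMap_apply E F N]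
    rfl
  have t9 : IsScalarTower κ κ' N := IsScalarTower.of_algebraMap_eq fun x => by
    rw [IsScalarTower.algebraMap_apply κ L κ', hN, ← IsScalarTower.algebraMap_apply κ L F,
      ← IsScalarTower.algebraMap_apply κ F N]
  have hconst : ∀ c : κ, algebraMap κ' N (algebraMap κ κ' c) =
      algebraMap E N (algebraMap (MvPolynomial V (RatFunc κ)) E
        (algebraMap (RatFunc κ) (MvPolynomial V (RatFunc κ)) (algebraMap κ (RatFunc κ) c))) := by
    intro c
    rw [← IsScalarTower.algebraMap_apply κ κ' N,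
      ← IsScalarTower.algebraMap_apply (RatFunc κ) (MvPolynomial V (RatFunc κ)) E]
    rfl
  -- specialisation
  obtain ⟨Λ, l1, l2, l3, l4, e, ψ', he1, he2⟩ := galois_spec2 (K := RatFunc κ)
    (A := MvPolynomial V (RatFunc κ)) (F := E) (N := N)
    (sp_mvPolynomial (RatFunc κ) (hp_base (κ := κ) (RatFunc κ)) V) (k₀ := κ) (M := κ') hconst
  let _ : Algebra κ Λ := ((algebraMap (RatFunc κ) Λ).comp (algebraMap κ (RatFunc κ))).toAlgebra
  have t10 : IsScalarTower κ (RatFunc κ) Λ := IsScalarTower.of_algebraMap_eq fun x => rfl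
  have hψκ : ∀ c : κ, ψ' (algebraMap κ κ' c) = algebraMap κ Λ c := he1
  -- the group
  let resF : (N ≃ₐ[E] N) →* (F ≃ₐ[E] F) := AlgEquiv.restrictNormalHom F
  have hresF : ∀ (σ : N ≃ₐ[E] N) (x : F), algebraMap F N (resF σ x) = σ (algebraMap F N x) :=
    fun σ x => AlgEquiv.restrictNormal_commutes σ F x
  have hressurj : Function.Surjective resF := AlgEquiv.restrictNormalHom_surjective N
  let ε : EG φM n ≃* EG φ n := SemidirectProduct.congr (MulEquiv.refl (Wr G n)) γM (fun ρ =>
    MulEquiv.ext fun x => SemidirectProduct.ext (funext fun i => rfl) rfl)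
  have hε : ∀ x : EG φM n, (ε x).right = γM x.right := fun x => rfl
  let π : (Λ ≃ₐ[RatFunc κ] Λ) →* EG φ n :=
    ((ε.toMonoidHom.comp γ.toMonoidHom).comp resF).comp e.symm.toMonoidHom
  have hπ : ∀ σ : N ≃ₐ[E] N, π (e σ) = ε (γ (resF σ)) := by
    intro σ
    change ε (γ (resF (e.symm (e σ)))) = _
    rw [MulEquiv.symm_apply_apply]
  have hπsurj : Function.Surjective π := by
    intro z
    obtain ⟨σ, hσ⟩ := hressurj (γ.symm (ε.symm z))
    refine ⟨e σ, ?_⟩
    rw [hπ, hσ, MulEquiv.apply_symm_apply, MulEquiv.apply_symm_apply]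
  have hπker : ∀ σ : N ≃ₐ[E] N, π (e σ) = 1 ↔ resF σ = 1 := by
    intro σ
    rw [hπ, map_eq_one_iff ε ε.injective, map_eq_one_iff γ γ.injective]
  -- elements of `L`
  have hσL : ∀ (σ : N ≃ₐ[E] N) (x : L), σ (algebraMap κ' N (algebraMap L κ' x)) =
      algebraMap κ' N (algebraMap L κ' ((ε (γ (resF σ))).right x)) := by
    intro σ x
    rw [hN, hN, ← hresF]
    congr 1
    rw [IsScalarTower.algebraMap_apply L M F, IsScalarTower.algebraMap_apply L M F, hγ1, hγM]
    rfl
  let F₁ := IntermediateField.fixedField π.ker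
  have hgal : IsGalois (RatFunc κ) F₁ := IsGalois.of_fixedField_normal_subgroup π.ker
  have hker : (AlgEquiv.restrictNormalHom (F := RatFunc κ) (K₁ := Λ) F₁).ker = π.ker := by
    ext σ
    rw [MonoidHom.mem_ker]
    constructor
    · intro h
      have h1 : σ ∈ F₁.fixingSubgroup := by
        rw [IntermediateField.mem_fixingSubgroup_iff]
        intro x hx
        have h2 := AlgEquiv.restrictNormal_commutes σ F₁ (⟨x, hx⟩ : F₁)
        have h3 : σ.restrictNormal F₁ = 1 := h
        rw [h3] at h2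
        exact h2.symm
      rw [IntermediateField.fixingSubgroup_fixedField] at h1
      exact h1
    · intro h
      apply AlgEquiv.ext
      intro x
      apply Subtype.ext
      have h1 := AlgEquiv.restrictNormal_commutes σ F₁ x
      exact h1.trans (x.2 ⟨σ, h⟩)
  obtain ⟨γ₁, hγ₁⟩ := exists_equiv_of_ker
    (AlgEquiv.restrictNormalHom (F := RatFunc κ) (K₁ := Λ) F₁) π
    (AlgEquiv.restrictNormalHom_surjective Λ) hπsurj hker
  have hLF : ∀ x : L, (ψ'.comp (algebraMap L κ')) x ∈ F₁ := by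
    rintro x ⟨τ, hτ⟩
    obtain ⟨σ, rfl⟩ := e.surjective τ
    have h1 : π (e σ) = 1 := hτ
    change e σ (ψ' (algebraMap L κ' x)) = ψ' (algebraMap L κ' x)
    refine he2 σ _ _ ?_
    rw [hσL, ← hπ, h1]
    rfl
  let aLF : Algebra L F₁ := ((ψ'.comp (algebraMap L κ')).codRestrict F₁ hLF).toAlgebra
  have hLFv : ∀ x : L, ((algebraMap L F₁ x : F₁) : Λ) = ψ' (algebraMap L κ' x) := fun _ => rfl
  let aKF : Algebra κ F₁ :=
    ((algebraMap (RatFunc κ) F₁).comp (algebraMap κ (RatFunc κ))).toAlgebra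
  have s1 : IsScalarTower κ (RatFunc κ) F₁ := IsScalarTower.of_algebraMap_eq fun x => rfl
  have s2 : IsScalarTower κ L F₁ := IsScalarTower.of_algebraMap_eq fun x => by
    apply Subtype.ext
    rw [hLFv, ← IsScalarTower.algebraMap_apply κ L κ', hψκ]
    rfl
  have s3 : IsScalarTower κ F₁ Λ := IsScalarTower.of_algebraMap_eq fun x => rfl
  refine ⟨F₁, inferInstance, inferInstance, aLF, aKF, s1, s2, inferInstance, hgal, γ₁, ?_, ?_⟩
  · intro τ' x
    obtain ⟨τ, rfl⟩ := AlgEquiv.restrictNormalHom_surjective (F := RatFunc κ) (K₁ := F₁) Λ τ'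
    obtain ⟨σ, rfl⟩ := e.surjective τ
    rw [hγ₁]
    apply Subtype.ext
    have h1 := AlgEquiv.restrictNormal_commutes (e σ) F₁ (algebraMap L F₁ x)
    refine h1.trans ?_
    change e σ (ψ' (algebraMap L κ' x)) = ψ' (algebraMap L κ' ((π (e σ)).right x))
    refine he2 σ _ _ ?_
    rw [hσL, hπ]
  · intro y hy
    have hyκ : IsAlgebraic κ y := hy.restrictScalars κ
    have hcard : Nat.card (F₁ ≃ₐ[RatFunc κ] F₁) = B := by
      rw [hBdef, Nat.card_congr ε.toEquiv]
      exact Nat.card_congr γ₁.toEquiv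
    have hd := deg_bound (κ₀ := κ) (k := RatFunc κ) (F := F₁) (fun e he => by
      obtain ⟨c, hc⟩ := ratFunc_alg e he
      exact ⟨c, hc⟩) y hyκ
    rw [hcard] at hd
    have hyΛ : IsAlgebraic κ (y : Λ) := hyκ.algebraMap (A := Λ)
    have hdΛ : (minpoly κ (y : Λ)).natDegree ≤ B := by
      have h1 : minpoly κ (y : Λ) = minpoly κ y := minpoly.algebraMap_eq
        (B := F₁) (B' := Λ) (algebraMap F₁ Λ).injective y
      rw [h1]
      exact hd
    obtain ⟨z, hz⟩ := fin_const ψ' B hsplit (y : Λ) hyΛ hdΛ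
    -- `z` lies in `F`
    have hnκ : Normal κ κ' := inferInstance
    have hzfix : ∀ τ : N ≃ₐ[F] N, τ (algebraMap κ' N z) = algebraMap κ' N z := by
      intro τ
      let σ : N ≃ₐ[E] N := τ.restrictScalars E
      have hσ1 : resF σ = 1 := by
        apply AlgEquiv.ext
        intro x
        apply (algebraMap F N).injective
        rw [hresF]
        exact τ.commutes x
      have h1 : σ (algebraMap κ' N z) = algebraMap κ' N
          ((σ.restrictScalars κ).restrictNormal κ' z) :=
        (AlgEquiv.restrictNormal_commutes (σ.restrictScalars κ) κ' z).symm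
      have h2 := he2 σ z _ h1
      have h3 : e σ (ψ' z) = ψ' z := by
        rw [hz]
        exact y.2 ⟨e σ, (hπker σ).2 hσ1⟩
      rw [h3] at h2
      have h4 := ψ'.injective h2
      change σ (algebraMap κ' N z) = _
      rw [h1, ← h4]
    have hgalFN : IsGalois F N := IsGalois.tower_top_of_isGalois E F N
    have hfdFN : FiniteDimensional F N := FiniteDimensional.right E F N
    obtain ⟨w, hw⟩ := (IsGalois.mem_range_algebraMap_iff_fixed (F := F) (E := N) _).2 hzfix
    have hwκ : IsAlgebraic κ w := by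
      have h1 : IsAlgebraic κ (algebraMap κ' N z) :=
        (Algebra.IsAlgebraic.isAlgebraic (R := κ) z).algebraMap
      rw [← hw, isAlgebraic_algebraMap_iff (algebraMap F N).injective] at h1
      exact h1
    obtain ⟨w', hw'⟩ := hγ2 w (hwκ.extendScalars (algebraMap κ M).injective)
    have hw'κ : IsAlgebraic κ w' := by
      rw [← hw', isAlgebraic_algebraMap_iff (algebraMap M F).injective] at hwκ
      exact hwκ
    obtain ⟨x, hx⟩ := hregM w' (hw'κ.extendScalars (algebraMap κ L).injective)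
    refine ⟨x, ?_⟩
    apply Subtype.ext
    rw [hLFv, ← hz]
    congr 1
    apply (algebraMap κ' N).injective
    rw [hN, ← hw, ← hw', ← hx]
    rfl


/- Regular solutions for infinite fields of positive characteristic. -/
theorem reg_wreath_inf_bd (p : ℕ) [Fact p.Prime] (K L : Type) [Field K] [Infinite K] [CharP K p]
    [Field L] [Algebra K L] [FiniteDimensional K L] [IsGalois K L] (G : Type) [Group G]
    [Finite G] (φ : (L ≃ₐ[K] L) →* MulAut G) :
    ∀ n ≥ bd (Nat.card G) (Nat.card (L ≃ₐ[K] L)), 3 ≤ n ∧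
      RegSol K L (EG φ n) SemidirectProduct.rightHom := by
  intro n hn
  obtain ⟨hn3, ι, hι, E, a1, a2, a3, a4, a5, F, b1, b2, b3, b4, b5, b6, b7, b8, γ, hγ1, hγ2⟩ :=
    gen_eg_bd p K L G φ n hn
  have hfin : Finite (EG φ n) := finite_eg φ n
  exact ⟨hn3, taskA K L (EG φ n) SemidirectProduct.rightHom ι E F γ hγ1 hγ2⟩

end Pool.Agent.W200.IK
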