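import Mathlib
import Pool.Agent.H84.L.S8_H391R2_T4_Gp
import Pool.Agent.H84.L.S8_H391R2_WrGrp
import Pool.Agent.H84.L.S8_TH59_WX_GT1

namespace Pool.Agent.H391R2
end Pool.Agent.H391R2
namespace Pool.Agent.H391R2.T4
end Pool.Agent.H391R2.T4


/-!
# Extensions by wreath products `G ≀ S_n`

`G` is a finite group with trivial centre such that the group of inner automorphisms has a
complement in `Aut G`. Every extension of a group `Γ` by `G ≀ S_n`, `n` large, is a semidirect
product in which `Γ` acts diagonally through a homomorphism `Γ → Aut G`.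
-/

set_option autoImplicit false

namespace Pool.Agent.TH59.WX

open Pool.Agent.H391R2 Pool.Agent.H391R2.T4

open scoped Pointwise

section gt

variable {G : Type} [Group G] {n : ℕ}

/- `d` describes the action of `a` on the factors of the base group. -/
def Rel (a : MulAut (Wr G n)) (d : Wr (MulAut G) n) : Prop :=
  ∀ i g, a (sgl i g) = sgl (d.right i) (d.left (d.right i) g)

theorem exists_rel [Finite G] [Nontrivial G] (hn : 2 * (Nat.card G + 2) ≤ n)
    (hZ : ∀ z : G, (∀ g : G, z * g = g * z) → z = 1) (a : MulAut (Wr G n)) : ∃ d, Rel a d := by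
  classical
  obtain ⟨g₀, hg₀⟩ := exists_ne (1 : G)
  have hr : ∀ i g, (a (sgl i g)).right = 1 := fun i g => base_map hn a _ rfl
  have h1 : ∀ i, ∃ k, (a (sgl i g₀)).left k ≠ 1 := by
    intro i
    by_contra hcon
    push Not at hcon
    have h2 : a (sgl i g₀) = a 1 := by
      rw [map_one]
      exact wr_ext hcon (hr i g₀)
    have h3 := a.injective h2
    rw [← sgl_one i] at h3
    exact hg₀ (sgl_inj h3)
  choose p hp using h1
  have h2 : ∀ i g, a (sgl i g) = sgl (p i) ((a (sgl i g)).left (p i)) := by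
    intro i g
    refine wr_ext (fun j => ?_) (hr i g)
    by_cases hj : j = p i
    · rw [hj, sgl_left_self]
    · rw [sgl_left_ne hj]
      exact one_comp hn hZ a i (p i) j (Ne.symm hj) g₀ g (hp i)
  let δ : Fin n → (G →* G) := fun i => MonoidHom.mk' (fun g => (a (sgl i g)).left (p i))
    (fun g h => by rw [sgl_mul, map_mul, base_mul_left _ _ (hr i g)])
  have hδ : ∀ i g, a (sgl i g) = sgl (p i) (δ i g) := h2
  have hinj : ∀ i, Function.Injective (δ i) := by
    intro i g h hgh
    have h3 : a (sgl i g) = a (sgl i h) := by rw [hδ, hδ, hgh]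
    exact sgl_inj (a.injective h3)
  have hbij : ∀ i, Function.Bijective (δ i) := fun i => Finite.injective_iff_bijective.1 (hinj i)
  have hpinj : Function.Injective p := by
    intro i j hij
    by_contra hne
    obtain ⟨g', hg'⟩ := (hbij j).2 (δ i g₀)
    have h3 : a (sgl j g') = a (sgl i g₀) := by rw [hδ, hδ, hg', hij]
    have h4 := congrArg (fun x : Wr G n => x.left i) (a.injective h3)
    simp only [sgl_left_self, sgl_left_ne hne] at h4
    exact hg₀ h4.symm
  let π : Equiv.Perm (Fin n) := Equiv.ofBijective p (Finite.injective_iff_bijective.1 hpinj)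
  refine ⟨⟨fun k => MulEquiv.ofBijective (δ (π.symm k)) (hbij _), π⟩, fun i g => ?_⟩
  rw [hδ]
  change sgl (p i) (δ i g) = sgl (π i) (δ (π.symm (π i)) g)
  rw [Equiv.symm_apply_apply]
  rfl

theorem rel_unique [Nontrivial G] (a : MulAut (Wr G n)) (d e : Wr (MulAut G) n) (hd : Rel a d)
    (he : Rel a e) : d = e := by
  obtain ⟨g₀, hg₀⟩ := exists_ne (1 : G)
  have h1 : ∀ i, d.right i = e.right i := by
    intro i
    by_contra hne
    have h2 := (hd i g₀).symm.trans (he i g₀)
    have h3 := congrArg (fun x : Wr G n => x.left (d.right i)) h2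
    simp only [sgl_left_self, sgl_left_ne hne] at h3
    exact hg₀ ((map_eq_one_iff _ (d.left (d.right i)).injective).1 h3)
  have h1' : d.right = e.right := Equiv.ext h1
  refine SemidirectProduct.ext (funext fun k => ?_) h1'
  obtain ⟨i, rfl⟩ := d.right.surjective k
  apply MulEquiv.ext
  intro g
  have h2 := (hd i g).symm.trans (he i g)
  rw [← h1'] at h2
  exact sgl_inj h2

theorem rel_mul (a b : MulAut (Wr G n)) (d e : Wr (MulAut G) n) (hd : Rel a d) (he : Rel b e) :
    Rel (a * b) (d * e) := by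
  intro i g
  rw [MulAut.mul_apply, he i g, hd, wr_mul_left, wr_mul_right]
  have h1 : d.right⁻¹ ((d.right * e.right) i) = e.right i := by simp
  rw [h1]
  rfl

theorem rel_conj (w : Wr G n) :
    Rel (MulAut.conj w) ⟨fun i => MulAut.conj (w.left i), w.right⟩ := by
  intro i g
  change w * sgl i g * w⁻¹ = sgl (w.right i) (w.left (w.right i) * g * (w.left (w.right i))⁻¹)
  rw [mul_inv_eq_iff_eq_mul]
  refine wr_ext (fun j => ?_) ?_
  · rw [wr_mul_left, base_mul_left _ _ (sgl_right _ _)]
    by_cases hj : j = w.right i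
    · subst hj
      have h1 : w.right⁻¹ (w.right i) = i := by simp
      rw [h1, sgl_left_self, sgl_left_self, inv_mul_cancel_right]
    · have h1 : w.right⁻¹ j ≠ i := by
        intro h
        rw [Equiv.Perm.inv_eq_iff_eq] at h
        exact hj h
      rw [sgl_left_ne h1, sgl_left_ne hj, mul_one, one_mul]
  · rw [wr_mul_right, wr_mul_right, sgl_right, sgl_right, mul_one, one_mul]

/- The homomorphism to the wreath product with `Aut G`. -/
theorem exists_D [Finite G] [Nontrivial G] (hn : 2 * (Nat.card G + 2) ≤ n)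
    (hZ : ∀ z : G, (∀ g : G, z * g = g * z) → z = 1) :
    ∃ D : MulAut (Wr G n) →* Wr (MulAut G) n, (∀ a, Rel a (D a)) ∧
      (∀ w : Wr G n, D (MulAut.conj w) = ⟨fun i => MulAut.conj (w.left i), w.right⟩) ∧
      ∀ a j k, ∃ u : G, (D a).left j = MulAut.conj u * (D a).left k := by
  classical
  choose f hf using exists_rel (G := G) (n := n) hn hZ
  let D : MulAut (Wr G n) →* Wr (MulAut G) n := MonoidHom.mk' f (fun a b =>
    rel_unique (a * b) _ _ (hf _) (rel_mul a b _ _ (hf a) (hf b)))
  have hD : ∀ a, Rel a (D a) := hf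
  have hDc : ∀ w : Wr G n, D (MulAut.conj w) = ⟨fun i => MulAut.conj (w.left i), w.right⟩ :=
    fun w => rel_unique _ _ _ (hD _) (rel_conj w)
  refine ⟨D, hD, hDc, fun a j k => ?_⟩
  let σ : Equiv.Perm (Fin n) := Equiv.swap ((D a).right⁻¹ j) ((D a).right⁻¹ k)
  let w : Wr G n := SemidirectProduct.inr σ
  have h1 : a * MulAut.conj w * a⁻¹ = MulAut.conj (a w) := by
    apply MulEquiv.ext
    intro x
    rw [MulAut.mul_apply, MulAut.mul_apply, MulAut.conj_apply, MulAut.conj_apply, map_mul,
      map_mul, MulAut.apply_inv_self, map_inv]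
  have h2 := congrArg D h1
  rw [map_mul, map_mul, map_inv, hDc, hDc] at h2
  have h3 := congrArg (fun x : Wr (MulAut G) n => x.left j) h2
  simp only [wr_mul_left, wr_inv_left, wr_mul_right] at h3
  have h4 : (D a).right (((D a).right * w.right)⁻¹ j) = k := by
    change (D a).right (((D a).right * σ)⁻¹ j) = k
    rw [mul_inv_rev, Equiv.Perm.mul_apply]
    change (D a).right (σ⁻¹ ((D a).right⁻¹ j)) = k
    rw [Equiv.swap_inv, Equiv.swap_apply_left]
    simp
  have h5 : (MulAut.conj (w.left ((D a).right⁻¹ j)) : MulAut G) = 1 := by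
    have : w.left ((D a).right⁻¹ j) = 1 := rfl
    rw [this, map_one]
  rw [h4, h5, mul_one] at h3
  refine ⟨(a w).left j, ?_⟩
  rw [← h3, inv_mul_cancel_right]

/- The retraction of `Aut G` to a complement of `Inn G`. -/
theorem exists_retr (T : Subgroup (MulAut G))
    (hT : IsCompl T (MulAut.conj : G →* MulAut G).range) :
    ∃ r : MulAut G →* MulAut G, (∀ a, ∃ g : G, a = MulAut.conj g * r a) ∧
      ∀ g a, r (MulAut.conj g * a) = r a := by
  have hconj : ∀ (a : MulAut G) (g : G), a * MulAut.conj g = MulAut.conj (a g) * a := by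
    intro a g
    apply MulEquiv.ext
    intro x
    simp only [MulAut.mul_apply, MulAut.conj_apply, map_mul, map_inv]
  have hnorm : (MulAut.conj : G →* MulAut G).range.Normal := by
    refine ⟨?_⟩
    rintro _ ⟨g, rfl⟩ a
    exact ⟨a g, by rw [hconj, mul_inv_cancel_right]⟩
  have hex : ∀ a : MulAut G, ∃ t ∈ T, ∃ g : G, a = MulAut.conj g * t := by
    intro a
    have h1 : a⁻¹ ∈ (T ⊔ (MulAut.conj : G →* MulAut G).range : Subgroup (MulAut G)) := by
      rw [hT.sup_eq_top]
      trivial
    have h2 := Subgroup.mul_normal T (MulAut.conj : G →* MulAut G).range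
    have h3 : a⁻¹ ∈ (T : Set (MulAut G)) * ((MulAut.conj : G →* MulAut G).range : Set (MulAut G)) := by
      rw [← h2]
      exact h1
    obtain ⟨t, ht, _, ⟨g, rfl⟩, h4⟩ := h3
    refine ⟨t⁻¹, T.inv_mem ht, g⁻¹, ?_⟩
    rw [map_inv, ← mul_inv_rev]
    exact (inv_eq_iff_eq_inv.2 (by rw [← h4])).symm ▸ rfl
  have huniq : ∀ (t s : MulAut G) (g h : G), t ∈ T → s ∈ T →
      MulAut.conj g * t = MulAut.conj h * s → t = s := by
    intro t s g h ht hs heq
    have h1 : t * s⁻¹ = MulAut.conj (g⁻¹ * h) := by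
      rw [map_mul, map_inv, eq_inv_mul_iff_mul_eq, ← mul_assoc, heq, mul_inv_cancel_right]
    have h2 : t * s⁻¹ ∈ (T ⊓ (MulAut.conj : G →* MulAut G).range : Subgroup (MulAut G)) :=
      ⟨T.mul_mem ht (T.inv_mem hs), ⟨_, h1.symm⟩⟩
    rw [hT.inf_eq_bot, Subgroup.mem_bot] at h2
    exact mul_inv_eq_one.1 h2
  choose f hf g hg using hex
  let r : MulAut G →* MulAut G := MonoidHom.mk' f (fun a b => by
    refine huniq _ _ (g (a * b)) (g a * (f a) (g b)) (hf _) (T.mul_mem (hf a) (hf b)) ?_
    rw [← hg (a * b), map_mul, mul_assoc, ← mul_assoc (MulAut.conj ((f a) (g b))), ← hconj,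
      mul_assoc, ← hg b, ← mul_assoc, ← hg a])
  refine ⟨r, fun a => ⟨g a, hg a⟩, fun u a => ?_⟩
  refine huniq _ _ (g (MulAut.conj u * a)) (u * g a) (hf _) (hf _) ?_
  change MulAut.conj (g (MulAut.conj u * a)) * f (MulAut.conj u * a) =
    MulAut.conj (u * g a) * f a
  rw [← hg, map_mul, mul_assoc, ← hg a]

/- **Classification of the extensions by `G ≀ S_n`.** -/
theorem ext_classify [Finite G] [Nontrivial G] (hn : 2 * (Nat.card G + 2) ≤ n)
    (hZ : ∀ z : G, (∀ g : G, z * g = g * z) → z = 1) (T : Subgroup (MulAut G))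
    (hT : IsCompl T (MulAut.conj : G →* MulAut G).range) {X Γ : Type} [Group X] [Group Γ]
    (β : X →* Γ) (hβ : Function.Surjective β) (ι : Wr G n ≃* β.ker) :
    ∃ (φ : Γ →* MulAut G) (Θ : X ≃* EG φ n), ∀ x, (Θ x).right = β x := by
  classical
  obtain ⟨D, -, hDc, hDin⟩ := exists_D (G := G) (n := n) hn hZ
  obtain ⟨r, hr1, hr2⟩ := exists_retr T hT
  have hr3 : ∀ g, r (MulAut.conj g) = 1 := by
    intro g
    have h1 := hr2 g 1
    rwa [mul_one, map_one] at h1
  have hcinj : Function.Injective (MulAut.conj : G →* MulAut G) := by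
    rw [injective_iff_map_eq_one]
    intro z hz
    apply hZ
    intro g
    have h1 : MulAut.conj z g = g := by rw [hz]; rfl
    rw [MulAut.conj_apply, mul_inv_eq_iff_eq_mul] at h1
    exact h1
  have hn0 : 0 < n := by
    have := Nat.card_pos (α := G)
    omega
  let j₀ : Fin n := ⟨0, hn0⟩
  let c : X →* MulAut (Wr G n) := (MulAut.congr ι.symm).toMonoidHom.comp MulAut.conjNormal
  have hc : ∀ w : Wr G n, c (ι w) = MulAut.conj w := by
    intro w
    apply MulEquiv.ext
    intro x
    change ι.symm (MulAut.conjNormal (ι w : X) (ι x)) = w * x * w⁻¹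
    rw [MulEquiv.symm_apply_eq]
    apply Subtype.ext
    rw [MulAut.conjNormal_apply]
    simp only [map_mul, map_inv, Subgroup.coe_mul, Subgroup.coe_inv]
  let d : X →* Wr (MulAut G) n := D.comp c
  have hd : ∀ w : Wr G n, d (ι w) = ⟨fun i => MulAut.conj (w.left i), w.right⟩ := by
    intro w
    change D (c (ι w)) = _
    rw [hc, hDc]
  have hrj : ∀ x j k, r ((d x).left j) = r ((d x).left k) := by
    intro x j k
    obtain ⟨u, hu⟩ := hDin (c x) j k
    change r ((D (c x)).left j) = r ((D (c x)).left k)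
    rw [hu, hr2]
  let ψ : X →* MulAut G := MonoidHom.mk' (fun x => r ((d x).left j₀)) (fun x y => by
    rw [map_mul, wr_mul_left, map_mul, hrj y _ j₀])
  have hψ : ∀ x j, r ((d x).left j) = ψ x := fun x j => hrj x j j₀
  have hker : β.ker ≤ ψ.ker := by
    intro x hx
    obtain ⟨w, hw⟩ := ι.surjective ⟨x, hx⟩
    have h1 : (ι w : X) = x := congrArg Subtype.val hw
    rw [MonoidHom.mem_ker, ← hψ x j₀, ← h1, hd, hr3]
  let φ : Γ →* MulAut G := β.liftOfSurjective hβ ⟨ψ, hker⟩
  have hφ : ∀ x, φ (β x) = ψ x := fun x =>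
    MonoidHom.liftOfRightInverse_comp_apply β _ (Function.rightInverse_surjInv hβ) ⟨ψ, hker⟩ x
  have hex : ∀ x, ∃ w : Wr G n, (∀ j, (d x).left j = MulAut.conj (w.left j) * φ (β x)) ∧
      w.right = (d x).right := by
    intro x
    have h1 : ∀ j, ∃ g : G, (d x).left j = MulAut.conj g * φ (β x) := by
      intro j
      obtain ⟨g, hg⟩ := hr1 ((d x).left j)
      rw [hψ x j, ← hφ] at hg
      exact ⟨g, hg⟩
    choose g hg using h1
    exact ⟨⟨g, (d x).right⟩, hg, rfl⟩
  have huniq : ∀ x (w v : Wr G n), (∀ j, (d x).left j = MulAut.conj (w.left j) * φ (β x)) →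
      w.right = (d x).right → (∀ j, (d x).left j = MulAut.conj (v.left j) * φ (β x)) →
      v.right = (d x).right → w = v := by
    intro x w v h1 h2 h3 h4
    refine wr_ext (fun j => ?_) (h2.trans h4.symm)
    apply hcinj
    exact mul_right_cancel ((h1 j).symm.trans (h3 j))
  choose W hW1 hW2 using hex
  have hWmul : ∀ x y, W (x * y) = W x * wrAct φ n (β x) (W y) := by
    intro x y
    refine huniq (x * y) _ _ (hW1 _) (hW2 _) (fun j => ?_) ?_
    · rw [wr_mul_left, wrAct_left, map_mul, map_mul, wr_mul_left, hW1 x j, hW2 x,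
        hW1 y, map_mul]
      have h1 : ∀ (a : MulAut G) (g : G), a * MulAut.conj g = MulAut.conj (a g) * a := by
        intro a g
        apply MulEquiv.ext
        intro x
        simp only [MulAut.mul_apply, MulAut.conj_apply, map_mul, map_inv]
      rw [map_mul, mul_assoc, ← mul_assoc (φ (β x)), h1]
      simp only [mul_assoc]
    · rw [wr_mul_right, wrAct_right, hW2, hW2, map_mul, wr_mul_right]
  have hWι : ∀ w, W (ι w) = w := by
    intro w
    have h1 : β (ι w : X) = 1 := (ι w).2
    refine huniq (ι w) _ _ (hW1 _) (hW2 _) (fun j => ?_) ?_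
    · rw [hd, h1, map_one, mul_one]
    · rw [hd]
  let Θ : X →* EG φ n := MonoidHom.mk' (fun x => ⟨W x, β x⟩) (fun x y => by
    refine SemidirectProduct.ext ?_ ?_
    · rw [eg_mul_left]
      exact hWmul x y
    · rw [eg_mul_right]
      exact map_mul β x y)
  have hΘ : Function.Bijective Θ := by
    constructor
    · rw [injective_iff_map_eq_one]
      intro x hx
      have h1 : β x = 1 := congrArg (fun z : EG φ n => z.right) hx
      have h2 : W x = 1 := congrArg (fun z : EG φ n => z.left) hx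
      obtain ⟨w, hw⟩ := ι.surjective ⟨x, h1⟩
      have h3 : (ι w : X) = x := congrArg Subtype.val hw
      rw [← h3, hWι] at h2
      rw [← h3, h2, map_one]
      rfl
    · rintro ⟨w, ρ⟩
      obtain ⟨x₀, rfl⟩ := hβ ρ
      refine ⟨(ι (w * (W x₀)⁻¹) : X) * x₀, ?_⟩
      have h1 : β (ι (w * (W x₀)⁻¹) : X) = 1 := (ι (w * (W x₀)⁻¹)).2
      refine SemidirectProduct.ext ?_ ?_
      · change W (_ * _) = w
        rw [hWmul, hWι, h1, map_one, MulAut.one_apply, inv_mul_cancel_right]
      · change β (_ * _) = β x₀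
        rw [map_mul, h1, one_mul]
  exact ⟨φ, MulEquiv.ofBijective Θ hΘ, fun x => rfl⟩

end gt

end Pool.Agent.TH59.WX
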