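import Mathlib
import Pool.Agent.H84.L.S8_H391R2_T4_Red
import Pool.Agent.H84.L.S8_H391R2_T4_Sym
import Pool.Agent.H84.L.S8_H391R2_WrGrp



set_option autoImplicit false

namespace Pool.Agent.H391R2.T4

set_option linter.unusedSectionVars false


section hil

variable (K L E : Type) [Field K] [CharZero K] [Field L] [Algebra K L]
    [FiniteDimensional K L] [IsGalois K L] [Group E] [Finite E]
    (α : E →* (L ≃ₐ[K] L))


instance finite_sym (n : ℕ) : Finite (SymEP α n) := by
  have h1 : Finite (Wr E n) := finite_wr E n
  have h2 : Finite (L ≃ₐ[K] L) := inferInstance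
  exact inferInstance


end hil

end Pool.Agent.H391R2.T4
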