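import Mathlib
import Pool.Agent.H84.L.S8_H391R2_T4_Gp
import Pool.Agent.H84.L.S8_H391R2_T4_Red
import Pool.Agent.H84.L.S8_H391R2_T4_Sem
import Pool.Agent.H84.L.S8_H391R2_WrGrp
import Pool.Agent.H84.L.S8_W200_IJ_SA

namespace Pool.Agent.H391R2
end Pool.Agent.H391R2
namespace Pool.Agent.H391R2.T4
end Pool.Agent.H391R2.T4


/-!
Regular solutions over `K(t)` for infinite `K` of positive characteristic.
-/

set_option autoImplicit false

namespace Pool.Agent.W200.IJ

open Pool.Agent.H391R2 (Wr)
open Pool.Agent.H391R2.T4 (EG RegSol exists_equiv_of_ker finite_wr finite_eg)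

set_option linter.unusedSectionVars false

section quot

variable {K L L' G G' : Type} [Field K] [Field L] [Algebra K L]
  [FiniteDimensional K L] [IsGalois K L] [Field L'] [Algebra K L'] [FiniteDimensional K L']
  [IsGalois K L'] [Algebra L L'] [IsScalarTower K L L'] [Group G] [Group G']

/- Quotients of regular solutions. -/
theorem regSol_quot (α : G →* (L ≃ₐ[K] L)) (α' : G' →* (L' ≃ₐ[K] L')) (f : G' →* G)
    (hf : Function.Surjective f)
    (hα : ∀ g', α (f g') = (α' g').restrictNormal L)
    (hk : ∀ ρ : L' ≃ₐ[K] L', ρ.restrictNormal L = 1 → ∃ g', f g' = 1 ∧ α' g' = ρ)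
    (h : RegSol K L' G' α') : RegSol K L G α := by
  obtain ⟨F', i1, i2, i3, i4, i5, i6, i7, i8, γ', hγ1, hγ2⟩ := h
  let Nf : Subgroup (F' ≃ₐ[RatFunc K] F') := (f.comp γ'.toMonoidHom).ker
  let F := IntermediateField.fixedField Nf
  have hgal : IsGalois (RatFunc K) F := IsGalois.of_fixedField_normal_subgroup Nf
  have hLF : ∀ x : L, algebraMap L' F' (algebraMap L L' x) ∈ F := by
    rintro x ⟨σ, hσ⟩
    change σ (algebraMap L' F' (algebraMap L L' x)) = _
    rw [hγ1]
    congr 1
    have h1 := AlgEquiv.restrictNormal_commutes (α' (γ' σ)) L x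
    rw [← h1, ← hα]
    have h2 : f (γ' σ) = 1 := hσ
    rw [h2, map_one]
    rfl
  let _ : Algebra L F := (((algebraMap L' F').comp (algebraMap L L')).codRestrict F hLF).toAlgebra
  let _ : Algebra K F := ((algebraMap (RatFunc K) F).comp (algebraMap K (RatFunc K))).toAlgebra
  have hT1 : IsScalarTower K (RatFunc K) F := IsScalarTower.of_algebraMap_eq fun x => rfl
  have hT2 : IsScalarTower K L F := IsScalarTower.of_algebraMap_eq fun x => by
    apply Subtype.ext
    change algebraMap (RatFunc K) F' (algebraMap K (RatFunc K) x) =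
      algebraMap L' F' (algebraMap L L' (algebraMap K L x))
    rw [← IsScalarTower.algebraMap_apply K (RatFunc K) F', ← IsScalarTower.algebraMap_apply K L L',
      ← IsScalarTower.algebraMap_apply K L' F']
  have hker : (AlgEquiv.restrictNormalHom (F := RatFunc K) (K₁ := F') F).ker =
      (f.comp γ'.toMonoidHom).ker := by
    ext σ
    rw [MonoidHom.mem_ker]
    constructor
    · intro h
      have h1 : σ ∈ F.fixingSubgroup := by
        rw [IntermediateField.mem_fixingSubgroup_iff]
        intro x hx
        have h2 := AlgEquiv.restrictNormal_commutes σ F (⟨x, hx⟩ : F)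
        have h3 : σ.restrictNormal F = 1 := h
        rw [h3] at h2
        exact h2.symm
      rw [IntermediateField.fixingSubgroup_fixedField] at h1
      exact h1
    · intro h
      apply AlgEquiv.ext
      intro x
      apply Subtype.ext
      have h1 := AlgEquiv.restrictNormal_commutes σ F x
      exact h1.trans (x.2 ⟨σ, h⟩)
  obtain ⟨γ, hγ⟩ := exists_equiv_of_ker (AlgEquiv.restrictNormalHom (F := RatFunc K) (K₁ := F') F)
    (f.comp γ'.toMonoidHom) (AlgEquiv.restrictNormalHom_surjective F')
    (hf.comp γ'.surjective) hker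
  refine ⟨F, inferInstance, inferInstance, inferInstance, inferInstance, hT1, hT2, inferInstance,
    hgal, γ, ?_, ?_⟩
  · intro σ' x
    obtain ⟨σ, rfl⟩ := AlgEquiv.restrictNormalHom_surjective (F := RatFunc K) (K₁ := F) F' σ'
    rw [hγ]
    apply Subtype.ext
    have h1 := AlgEquiv.restrictNormal_commutes σ F (algebraMap L F x)
    refine h1.trans ?_
    change σ (algebraMap L' F' (algebraMap L L' x)) = algebraMap L' F' (algebraMap L L'
      (α (f (γ' σ)) x))
    rw [hγ1, hα, AlgEquiv.restrictNormal_commutes]
  · intro y hy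
    let _ : Algebra L F' := ((algebraMap L' F').comp (algebraMap L L')).toAlgebra
    have hT3 : IsScalarTower L F F' := IsScalarTower.of_algebraMap_eq fun x => rfl
    have hT4 : IsScalarTower L L' F' := IsScalarTower.of_algebraMap_eq fun x => rfl
    have h1 : IsAlgebraic L (y : F') := hy.algebraMap (A := F')
    have h2 : IsAlgebraic L' (y : F') := h1.tower_top L'
    obtain ⟨z, hz⟩ := hγ2 _ h2
    have hfd : FiniteDimensional L L' := Module.Finite.of_restrictScalars_finite K L L'
    have hgal' : IsGalois L L' := IsGalois.tower_top_of_isGalois K L L'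
    have hzbot : z ∈ (⊥ : IntermediateField L L') := by
      rw [IsGalois.mem_bot_iff_fixed]
      intro g
      obtain ⟨g', hg1, hg2⟩ := hk (g.restrictScalars K) (by
        apply AlgEquiv.ext
        intro x
        apply (algebraMap L L').injective
        rw [AlgEquiv.restrictNormal_commutes]
        exact g.commutes x)
      have h3 : γ'.symm g' ∈ Nf := by
        rw [MonoidHom.mem_ker]
        change f (γ' (γ'.symm g')) = 1
        rw [MulEquiv.apply_symm_apply, hg1]
      have h4 : (γ'.symm g') (y : F') = y := y.2 ⟨_, h3⟩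
      rw [← hz, hγ1, MulEquiv.apply_symm_apply, hg2] at h4
      exact (algebraMap L' F').injective h4
    obtain ⟨x, hx⟩ := IntermediateField.mem_bot.1 hzbot
    refine ⟨x, ?_⟩
    apply Subtype.ext
    change algebraMap L' F' (algebraMap L L' x) = y
    rw [hx, hz]

end quot


end Pool.Agent.W200.IJ
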