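import Mathlib
import Pool.Agent.H84.L.S8_H391R2_T4_Blueprint
import Pool.Agent.H84.L.S8_H391R2_T4_DegN
import Pool.Agent.H84.L.S8_H391R2_T4_Gp
import Pool.Agent.H84.L.S8_H391R2_T4_Hil
import Pool.Agent.H84.L.S8_H391R2_T4_Red
import Pool.Agent.H84.L.S8_H391R2_T4_Sym
import Pool.Agent.H84.L.S8_H391R2_WrGrp
import Pool.Agent.H84.L.S8_TH59_WX_UB
import Pool.Agent.H84.L.S8_TH59_WX_UF
import Pool.Agent.H84.L.S8_W200_IJ_CA

namespace Pool.Agent.H391R2
end Pool.Agent.H391R2
namespace Pool.Agent.H391R2.T4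
end Pool.Agent.H391R2.T4
namespace Pool.Agent.W200.IJ
end Pool.Agent.W200.IJ


/-!
Symmetric fibre powers of weakly solvable embedding problems, with a bound that depends only on the
order of the kernel.
-/

set_option autoImplicit false

namespace Pool.Agent.TH59.WX

open Pool.Agent.H391R2 (Wr)
open Pool.Agent.H391R2.T4 (EG RegSol SymEP symProj SolOver finite_sym HilbField)
open Pool.Agent.W200.IJ (regSol_quot)

set_option linter.unusedSectionVars false

theorem ub_le_fac (g : ℕ) (hg : 1 ≤ g) : ub g (g ^ g) ≤ ((3 * g + 2).factorial) ^ 3 :=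
  le_trans (le_max_right _ _) (fac_bound g hg)


end Pool.Agent.TH59.WX
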