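import Mathlib
import Pool.Agent.H84.L.S8_H391R2_T4_Blueprint
import Pool.Agent.H84.L.S8_H391R2_T4_DegN
import Pool.Agent.H84.L.S8_H391R2_T4_Gp
import Pool.Agent.H84.L.S8_H391R2_T4_Hil
import Pool.Agent.H84.L.S8_H391R2_T4_Red
import Pool.Agent.H84.L.S8_H391R2_T4_Sym
import Pool.Agent.H84.L.S8_H391R2_WrGrp

namespace Pool.Agent.H391R2
end Pool.Agent.H391R2
namespace Pool.Agent.H391R2.T4
end Pool.Agent.H391R2.T4


/-!
Symmetric fibre powers of embedding problems: reduction to wreath products with action.
-/

set_option autoImplicit false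

namespace Pool.Agent.W200.IJ

open Pool.Agent.H391R2 (Wr)
open Pool.Agent.H391R2.T4 (EG RegSol SymEP symProj SolOver finite_sym HilbField)

set_option linter.unusedSectionVars false


/- Hilbertian fields are infinite. -/
theorem infinite_of_hilb (K : Type) [Field K] (hK : HilbField K) : Infinite K := by
  by_contra hfin
  have hf : Finite K := not_infinite_iff_finite.1 hfin
  cases nonempty_fintype K
  obtain ⟨a, ha, -⟩ := hK Polynomial.X Polynomial.monic_X Polynomial.irreducible_X
    (by rw [Polynomial.map_X]; exact Polynomial.separable_X)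
    (∏ b : K, (Polynomial.X - Polynomial.C b))
    (Finset.prod_ne_zero_iff.2 fun b _ => Polynomial.X_sub_C_ne_zero b)
  apply ha
  rw [Polynomial.eval_prod]
  exact Finset.prod_eq_zero (Finset.mem_univ a) (by simp)


end Pool.Agent.W200.IJ
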