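import Mathlib
import Pool.Agent.H84.L.S8_H391R2_T4_Blueprint
import Pool.Agent.H84.L.S8_H391R2_T4_Gp
import Pool.Agent.H84.L.S8_H391R2_T4_Red
import Pool.Agent.H84.L.S8_H391R2_WrGrp
import Pool.Agent.H84.L.S8_TH15_IGP_TwB
import Pool.Agent.H84.L.S8_TH15_IGP_TwT
import Pool.Agent.H84.L.S8_TH444_TW_Orb
import Pool.Agent.H84.L.S8_TH59_WX_UB
import Pool.Agent.H84.L.S8_TH59_WX_UE
import Pool.Agent.H84.L.S8_TH59_WX_UH
import Pool.Agent.H84.L.S8_W200_IJ_CB

namespace Pool.Agent.H391R2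
end Pool.Agent.H391R2
namespace Pool.Agent.H391R2.T4
end Pool.Agent.H391R2.T4
namespace Pool.Agent.TH15.IGP
end Pool.Agent.TH15.IGP


/-!
# Wreath products `G ≀ S_n` as kernels
-/

set_option autoImplicit false

namespace Pool.Agent.TH444.TW

open Pool.Agent.H391R2 Pool.Agent.H391R2.T4
open Pool.Agent.TH15.IGP (StepSol)

/- The action of `Aut G` on `G ≀ S_n`. -/
def wAct (G : Type) [Group G] (n : ℕ) : MulAut G →* MulAut (Wr G n) :=
  wrAct (MonoidHom.id (MulAut G)) n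


theorem wAct_comp (G : Type) [Group G] (n : ℕ) {Γ : Type} [Group Γ] (β : Γ →* MulAut G) :
    (wAct G n).comp β = wrAct β n := by
  apply MonoidHom.ext
  intro γ
  apply MulEquiv.ext
  intro x
  rfl

theorem loc_wr (G : Type) [Group G] [Finite G] (n : ℕ)
    (hn : ((3 * Nat.card G + 2).factorial) ^ 3 ≤ n) : Loc (wAct G n) := by
  intro K' M' _ _ _ _ _ _ β
  rw [wAct_comp]
  exact Pool.Agent.TH59.WX.reg_eg K' M' G β n
    ((Pool.Agent.TH59.WX.ub_le_fac _ Nat.card_pos).trans hn)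

theorem infinite_of_hilb {K : Type} [Field K] (hK : HilbField K) : Infinite K :=
  Pool.Agent.W200.IJ.infinite_of_hilb K hK


end Pool.Agent.TH444.TW
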