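import Mathlib
import Pool.Agent.H84.L.S8_H391R2_T4_Nod
import Pool.Agent.H84.L.S8_H391R2_T4_Sem
import Pool.Agent.H84.L.S8_TH15_IGP_TwT
import Pool.Agent.H84.L.S8_W200_IG_Fam
import Pool.Agent.H84.L.S8_W200_IJ_SA

namespace Pool.Agent.H391R2
end Pool.Agent.H391R2
namespace Pool.Agent.H391R2.T4
end Pool.Agent.H391R2.T4
namespace Pool.Agent.TH15.IGP
end Pool.Agent.TH15.IGP


/-!
# Internal semidirect products
-/

set_option autoImplicit false

namespace Pool.Agent.TH444.TW

open Pool.Agent.H391R2 Pool.Agent.H391R2.T4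
open Pool.Agent.TH15.IGP (StepSol)

/- An internal semidirect product is a semidirect product. -/
theorem exists_sdEquiv {W W' N : Type} [Group W] [Group W'] [Group N] (φ : W →* MulAut N)
    (p : W' →* W) (ι : N →* W') (s : W →* W') (hι : Function.Injective ι)
    (hr : ι.range = p.ker) (hs : ∀ w, p (s w) = w) (hc : ∀ w x, s w * ι x = ι (φ w x) * s w) :
    ∃ e : W' ≃* N ⋊[φ] W, ∀ x, SemidirectProduct.rightHom (e x) = p x := by
  have hpι : ∀ x, p (ι x) = 1 := fun x => by
    rw [← MonoidHom.mem_ker, ← hr]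
    exact ⟨x, rfl⟩
  let f : N ⋊[φ] W →* W' := SemidirectProduct.lift ι s (by
    intro w
    apply MonoidHom.ext
    intro x
    change ι (φ w x) = s w * ι x * (s w)⁻¹
    rw [hc, mul_inv_cancel_right])
  have hf : ∀ y : N ⋊[φ] W, f y = ι y.left * s y.right := fun _ => rfl
  have hpf : ∀ y : N ⋊[φ] W, p (f y) = y.right := fun y => by
    rw [hf, map_mul, hpι, hs, one_mul]
  have hbij : Function.Bijective f := by
    constructor
    · rw [injective_iff_map_eq_one]
      intro y hy
      have h1 : y.right = 1 := by rw [← hpf, hy, map_one]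
      apply SemidirectProduct.ext
      · rw [hf, h1, map_one, mul_one] at hy
        exact (map_eq_one_iff ι hι).1 hy
      · exact h1
    · intro w'
      have h1 : w' * (s (p w'))⁻¹ ∈ ι.range := by
        rw [hr, MonoidHom.mem_ker, map_mul, map_inv, hs, mul_inv_cancel]
      obtain ⟨x, hx⟩ := h1
      refine ⟨⟨x, p w'⟩, ?_⟩
      rw [hf]
      change ι x * s (p w') = w'
      rw [hx, inv_mul_cancel_right]
  refine ⟨(MulEquiv.ofBijective f hbij).symm, fun x => ?_⟩
  have h1 := hpf ((MulEquiv.ofBijective f hbij).symm x)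
  have h2 : f ((MulEquiv.ofBijective f hbij).symm x) = x :=
    (MulEquiv.ofBijective f hbij).apply_symm_apply x
  rw [h2] at h1
  exact h1.symm

theorem finite_of_sd {W W' N : Type} [Group W] [Group W'] [Finite W] [Finite N]
    (p : W' →* W) (ι : N → W') (hr : ∀ w', p w' = 1 → ∃ x, ι x = w') : Finite W' := by
  have h1 : Finite p.ker := by
    choose f hf using hr
    refine Finite.of_injective (fun x : p.ker => f x.1 x.2) ?_
    intro x y hxy
    apply Subtype.ext
    rw [← hf x.1 x.2, ← hf y.1 y.2]
    exact congrArg ι hxy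
  have h2 : Finite (W' ⧸ p.ker) := Finite.of_injective _ (QuotientGroup.kerLift_injective p)
  exact Finite.of_subgroup_quotient p.ker


end Pool.Agent.TH444.TW
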