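import Mathlib
import Pool.Agent.H84.L.S8_H391R2_T4_Nod
import Pool.Agent.H84.L.S8_H391R2_T4_Red
import Pool.Agent.H84.L.S8_H391R2_T4_Sem
import Pool.Agent.H84.L.S8_H391R2_WrGrp
import Pool.Agent.H84.L.S8_TH15_IGP_TwD
import Pool.Agent.H84.L.S8_TH15_IGP_TwT
import Pool.Agent.H84.L.S8_TH444_TW_Loc
import Pool.Agent.H84.L.S8_TH444_TW_Orb
import Pool.Agent.H84.L.S8_TH444_TW_Pow
import Pool.Agent.H84.L.S8_TH444_TW_RComp
import Pool.Agent.H84.L.S8_TH444_TW_Split
import Pool.Agent.H84.L.S8_TH444_TW_Step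
import Pool.Agent.H84.L.S8_W200_IG_Fam
import Pool.Agent.H84.L.S8_W200_IJ_BC
import Pool.Agent.H84.L.S8_W200_IJ_CA
import Pool.Agent.H84.L.S8_W200_IJ_SA

namespace Pool.Agent.H391R2
end Pool.Agent.H391R2
namespace Pool.Agent.H391R2.T4
end Pool.Agent.H391R2.T4
namespace Pool.Agent.TH15.IGP
end Pool.Agent.TH15.IGP


/-!
# Regular steps
-/

set_option autoImplicit false

namespace Pool.Agent.TH444.TW

open Pool.Agent.H391R2 Pool.Agent.H391R2.T4
open Pool.Agent.TH15.IGP (StepSol)

/- Every embedding problem given by the epimorphism `p : W' → W` over an infinite field has a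
regular solution. -/
def RS {W W' : Type} [Group W] [Group W'] (p : W' →* W) : Prop :=
  ∀ (K M : Type) [Field K] [Infinite K] [Field M] [Algebra K M] [FiniteDimensional K M]
    [IsGalois K M] (ε : (M ≃ₐ[K] M) ≃* W), RegSol K M W' (ε.symm.toMonoidHom.comp p)

theorem infinite_ratFunc (K : Type) [Field K] : Infinite (RatFunc K) :=
  Infinite.of_injective _ (IsFractionRing.injective (Polynomial K) (RatFunc K))

section basic

variable {W W' W'' : Type} [Group W] [Group W'] [Group W'']

theorem RS.comp [Finite W''] {p : W' →* W} {p' : W'' →* W'} (h : RS p) (h' : RS p') :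
    RS (p.comp p') := by
  intro K M _ _ _ _ _ _ ε
  have := infinite_ratFunc K
  exact reg_comp K M W' W'' (ε.symm.toMonoidHom.comp p) p' (h K M ε)
    (fun M' _ _ _ _ γ₁ => h' (RatFunc K) M' γ₁)

theorem restrictNormal_self {K M : Type} [Field K] [Field M] [Algebra K M] [Normal K M]
    (σ : M ≃ₐ[K] M) : σ.restrictNormal M = σ := by
  apply AlgEquiv.ext
  intro x
  exact AlgEquiv.restrictNormal_commutes σ M x

theorem RS.quot {p : W' →* W} {p'' : W'' →* W} (q : W'' →* W') (hq : Function.Surjective q)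
    (hpq : ∀ x, p (q x) = p'' x) (h : RS p'') : RS p := by
  intro K M _ _ _ _ _ _ ε
  refine Pool.Agent.W200.IJ.regSol_quot (L' := M) (ε.symm.toMonoidHom.comp p)
    (ε.symm.toMonoidHom.comp p'') q hq ?_ ?_ (h K M ε)
  · intro g
    rw [restrictNormal_self]
    change ε.symm (p (q g)) = ε.symm (p'' g)
    rw [hpq]
  · intro ρ hρ
    rw [restrictNormal_self] at hρ
    exact ⟨1, map_one _, by rw [map_one, hρ]⟩

theorem RS.of_equiv [Finite W] (e : W' ≃* W) : RS (e : W' →* W) := by
  intro K M _ _ _ _ _ _ ε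
  have hfin : Finite W' := Finite.of_equiv _ e.symm.toEquiv
  refine Pool.Agent.W200.IJ.taskA_empty K M W' _ ?_ ?_
  · exact ε.symm.injective.comp e.injective
  · intro x hx
    rw [IsGalois.mem_range_algebraMap_iff_fixed]
    intro σ
    have h1 := hx (e.symm (ε σ))
    change (ε.symm (e (e.symm (ε σ)))) x = x at h1
    rwa [MulEquiv.apply_symm_apply, MulEquiv.symm_apply_apply] at h1

theorem RS.congr {p : W' →* W} {q : W'' →* W} (h : RS p) (e : W' ≃* W'')
    (hq : ∀ x, q (e x) = p x) : RS q :=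
  RS.quot (e : W' →* W'') e.surjective hq h


/- Regular solutions over all fields. -/
theorem RS.all [Finite W'] {p : W' →* W} (h : RS p) (K M : Type) [Field K] [Field M] [Algebra K M]
    [FiniteDimensional K M] [IsGalois K M] (ε : (M ≃ₐ[K] M) ≃* W) :
    RegSol K M W' (ε.symm.toMonoidHom.comp p) := by
  rcases finite_or_infinite K with hfin | hinf
  · refine Pool.Agent.TH15.IGP.fin_of_inf K M W' _ ?_
    intro M' _ _ _ _ γM
    have := infinite_ratFunc K
    exact h (RatFunc K) M' (γM.trans ε)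
  · exact h K M ε

end basic

section pow

variable {Γ B A : Type} [Group Γ] [Group B] [Group A] [Finite Γ] [Finite A]
    {k : ℕ} (θ : B →* MulAut A) (ψ : Γ →* Wr B k) (hloc : Loc θ)

include hloc in
theorem xs_rs : ∀ (m : ℕ) (S : Finset (Fin k)) (hS : Inv ψ S), S.card = m →
    RS (rt θ ψ S hS) := by
  classical
  have hfin0 : Finite (PowSd θ ψ) := Finite.of_equiv _ SemidirectProduct.equivProd.symm
  intro m
  induction m using Nat.strong_induction_on with
  | _ m ih =>
    intro S hS hm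
    rcases S.eq_empty_or_nonempty with h | ⟨o, ho⟩
    · subst h
      exact RS.of_equiv (rtEmpty θ ψ hS)
    · obtain ⟨S₀, hS₀, hlt, ho₀, horb⟩ := orbit_step ψ S hS o ho
      have h1 := ih S₀.card (by rw [← hm]; exact Finset.card_lt_card hlt) S₀ hS₀ rfl
      rw [← rt_pr θ ψ S S₀ hS hS₀]
      refine RS.comp h1 ?_
      intro K L _ _ _ _ _ _ ε
      exact orbit_reg θ ψ S S₀ hS hS₀ hlt.1 o ho ho₀ horb ε hloc

include hloc in
/- **Embedding problems with kernel `A^k`** have regular solutions over all infinite fields. -/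
theorem pow_rs : RS (SemidirectProduct.rightHom : PowSd θ ψ →* Γ) := by
  have hS : Inv ψ Finset.univ := fun γ i => by
    simp only [Finset.mem_univ]
  exact RS.congr (xs_rs θ ψ hloc _ Finset.univ hS rfl) (xsUniv θ ψ hS).symm fun x => by
    obtain ⟨y, rfl⟩ := (xsUniv θ ψ hS).surjective x
    rw [MulEquiv.symm_apply_apply]
    rfl

end pow

/- The wreath product case, internal form. -/
theorem wr_rs (G : Type) [Group G] [Finite G] (n : ℕ)
    (hn : ((3 * Nat.card G + 2).factorial) ^ 3 ≤ n) {W W' : Type} [Group W] [Finite W]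
    [Group W'] {k : ℕ}
    (ψ : W →* Wr (MulAut G) k) (p : W' →* W) (ι : (Fin k → Wr G n) →* W') (s : W →* W')
    (hι : Function.Injective ι) (hr : ι.range = p.ker) (hs : ∀ w, p (s w) = w)
    (hc : ∀ w x, s w * ι x =
      ι (fun i => ⟨fun j => (ψ w).left i ((x ((ψ w).right⁻¹ i)).left j),
        (x ((ψ w).right⁻¹ i)).right⟩) * s w) :
    RS p := by
  obtain ⟨e, he⟩ := exists_sdEquiv ((powAct (wAct G n) k).comp ψ) p ι s hι hr hs hc
  refine RS.congr (pow_rs (wAct G n) ψ (loc_wr G n hn)) e.symm fun x => ?_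
  obtain ⟨y, rfl⟩ := e.surjective x
  rw [MulEquiv.symm_apply_apply]
  exact (he y).symm

end Pool.Agent.TH444.TW
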