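import Mathlib
import Pool.Agent.H84.L.S8_H391R2_T4_Red
import Pool.Agent.H84.L.S8_H391R2_T4_Sem
import Pool.Agent.H84.L.S8_H81R2_BT_Trace
import Pool.Agent.H84.L.S8_TH15_IGP_WrC
import Pool.Agent.H84.L.S8_TH444_TW_RS
import Pool.Agent.H84.L.S8_W200_IG_HF
import Pool.Agent.H84.L.S8_W200_IJ_BC
import Pool.Agent.H84.L.S8_W200_IJ_CA
import Pool.Agent.H84.L.S8_W200_IJ_SA

namespace Pool.Agent.H391R2.T4
end Pool.Agent.H391R2.T4


/-!
# Groups acting on a rational function field in one variable
-/

set_option autoImplicit false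

namespace Pool.Agent.TH444.TW

open Pool.Agent.H391R2.T4 (RegSol)

/- Transport to an isomorphic group. -/
theorem regSol_equiv {K L G G' : Type} [Field K] [Field L] [Algebra K L] [FiniteDimensional K L]
    [IsGalois K L] [Group G] [Group G'] (e : G' ≃* G) (α : G →* (L ≃ₐ[K] L))
    (α' : G' →* (L ≃ₐ[K] L)) (h : ∀ g, α (e g) = α' g) (hr : RegSol K L G' α') :
    RegSol K L G α := by
  refine Pool.Agent.W200.IJ.regSol_quot (L' := L) α α' (e : G' →* G) e.surjective ?_ ?_ hr
  · intro g
    rw [restrictNormal_self]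
    exact h g
  · intro ρ hρ
    rw [restrictNormal_self] at hρ
    exact ⟨1, map_one _, by rw [map_one, hρ]⟩

/- A finite group of `K`-automorphisms of `K(X)` is the group of a regular extension of `K(t)`
(Lüroth's theorem). -/
theorem reg_of_subgroup (K : Type) [Field K] [Infinite K]
    (G : Subgroup (RatFunc K ≃ₐ[K] RatFunc K)) [Finite G] : RegSol K K G 1 := by
  classical
  let F := RatFunc K
  let E₁ : Subfield F := FixedPoints.subfield G F
  let E : IntermediateField K F := IntermediateField.fixedField G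
  have hmem : ∀ x : F, x ∈ E ↔ x ∈ E₁ := fun x => Iff.rfl
  have hE : E ≠ ⊥ := by
    intro h
    have h1 : IsIntegral E₁ (RatFunc.X : F) := FixedPoints.isIntegral G F _
    have h2 : Transcendental K (RatFunc.X : F) := RatFunc.transcendental_X
    apply h2
    have h3 : ∀ x : E₁, ∃ k : K, algebraMap K F k = x := by
      intro x
      have h4 : (x : F) ∈ E := (hmem x).2 x.2
      rw [h, IntermediateField.mem_bot] at h4
      exact h4
    obtain ⟨P, hP, hP0⟩ := h1
    obtain ⟨Q, hQ⟩ : ∃ Q : Polynomial K, Q.map (algebraMap K F) = P.map (algebraMap E₁ F) := by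
      have h4 : P.map (algebraMap E₁ F) ∈ Polynomial.lifts (algebraMap K F) := by
        rw [Polynomial.lifts_iff_coeff_lifts]
        intro n
        rw [Polynomial.coeff_map]
        exact h3 _
      exact h4
    refine ⟨Q, ?_, ?_⟩
    · rintro rfl
      rw [Polynomial.map_zero] at hQ
      exact (hP.map (algebraMap E₁ F)).ne_zero hQ.symm
    · rw [Polynomial.aeval_def, Polynomial.eval₂_eq_eval_map, hQ, ← Polynomial.eval₂_eq_eval_map]
      exact hP0
  let e₀ : RatFunc K ≃ₐ[K] E := RatFunc.Luroth.algEquiv hE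
  let e₁ : E ≃+* E₁ := RingEquiv.refl _
  let aKE : Algebra K E₁ := ((e₁ : E →+* E₁).comp (algebraMap K E)).toAlgebra
  obtain ⟨a1, h1, t1⟩ := Pool.Agent.TH15.IGP.ratFunc_unit K
  let Φ : MvPolynomial Unit K →+* E₁ :=
    (e₁ : E →+* E₁).comp ((e₀ : RatFunc K →+* E).comp (algebraMap (MvPolynomial Unit K) (RatFunc K)))
  let aME : Algebra (MvPolynomial Unit K) E₁ := Φ.toAlgebra
  have hfr : IsFractionRing (MvPolynomial Unit K) E₁ := by
    let e₂ : RatFunc K ≃ₐ[MvPolynomial Unit K] E₁ :=
      AlgEquiv.ofRingEquiv (f := (e₀.toRingEquiv).trans e₁) (fun x => rfl)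
    exact IsLocalization.isLocalization_of_algEquiv _ e₂
  have t2 : IsScalarTower K (MvPolynomial Unit K) E₁ := IsScalarTower.of_algebraMap_eq fun x => by
    change e₁ (algebraMap K E x) = e₁ (e₀ (algebraMap (MvPolynomial Unit K) (RatFunc K)
      (algebraMap K (MvPolynomial Unit K) x)))
    rw [← IsScalarTower.algebraMap_apply, e₀.commutes]
  have t3 : IsScalarTower K E₁ F := IsScalarTower.of_algebraMap_eq fun x => rfl
  have t4 : IsScalarTower K K F := inferInstance
  have hfd : FiniteDimensional E₁ F := inferInstance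
  have hgal : IsGalois E₁ F := ⟨⟩
  refine Pool.Agent.W200.IJ.taskA K K G 1 Unit E₁ F (FixedPoints.toAlgAutMulEquiv G F).symm ?_ ?_
  · intro σ x
    rw [IsScalarTower.algebraMap_apply K E₁ F, AlgEquiv.commutes]
    rfl
  · intro y hy
    exact Pool.Agent.H81R2.BT.ratFunc_alg y hy

end Pool.Agent.TH444.TW
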