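import Mathlib
import Pool.Agent.H84.L.S8_H391R2_T4_Nod
import Pool.Agent.H84.L.S8_H391R2_T4_Red
import Pool.Agent.H84.L.S8_TH444_TW_IndD
import Pool.Agent.H84.L.S8_W200_IG_Fam
import Pool.Agent.H84.L.S8_W200_IG_HF

namespace Pool.Agent.H391R2.T4
end Pool.Agent.H391R2.T4
namespace Pool.Agent.TH444.WC
end Pool.Agent.TH444.WC


/-!
# Twisted wreath products
-/

set_option autoImplicit false

namespace Pool.Agent.TH444.TW

open Pool.Agent.TH444.WC Pool.Agent.H391R2.T4

section defs

variable {Γ A : Type} [Group Γ] [Group A] {Δ : Subgroup Γ}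

/- The functions `f : Γ → A` with `f (g δ) = δ⁻¹ (f g)` for all `δ` in `Δ`. -/
def Coind (φ : Δ →* MulAut A) : Subgroup (Γ → A) where
  carrier := {f | ∀ (g : Γ) (δ : Δ), f (g * δ) = (φ δ)⁻¹ (f g)}
  mul_mem' := fun {f f'} hf hf' g δ => by
    rw [Pi.mul_apply, Pi.mul_apply, hf g δ, hf' g δ, map_mul]
  one_mem' := fun g δ => by
    rw [Pi.one_apply, Pi.one_apply, map_one]
  inv_mem' := fun {f} hf g δ => by
    rw [Pi.inv_apply, Pi.inv_apply, hf g δ, map_inv]

/- `Γ` acts on `Coind φ` by `(γ f)(g) = f (γ⁻¹ g)`. -/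
def translate (φ : Δ →* MulAut A) : Γ →* MulAut (Coind φ) where
  toFun γ :=
    { toFun := fun f => ⟨fun g => f.1 (γ⁻¹ * g), fun g δ => by
        change f.1 (γ⁻¹ * (g * δ)) = (φ δ)⁻¹ (f.1 (γ⁻¹ * g))
        rw [← mul_assoc, f.2]⟩
      invFun := fun f => ⟨fun g => f.1 (γ * g), fun g δ => by
        change f.1 (γ * (g * δ)) = (φ δ)⁻¹ (f.1 (γ * g))
        rw [← mul_assoc, f.2]⟩
      left_inv := fun f => Subtype.ext (funext fun g => by
        change f.1 (γ⁻¹ * (γ * g)) = _
        rw [inv_mul_cancel_left])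
      right_inv := fun f => Subtype.ext (funext fun g => by
        change f.1 (γ * (γ⁻¹ * g)) = _
        rw [mul_inv_cancel_left])
      map_mul' := fun f f' => rfl }
  map_one' := by
    apply MulEquiv.ext
    intro f
    apply Subtype.ext
    funext g
    change f.1 (1⁻¹ * g) = _
    rw [inv_one, one_mul]
    rfl
  map_mul' γ γ' := by
    apply MulEquiv.ext
    intro f
    apply Subtype.ext
    funext g
    change f.1 ((γ * γ')⁻¹ * g) = f.1 (γ'⁻¹ * (γ⁻¹ * g))
    rw [mul_inv_rev, mul_assoc]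

/- The twisted wreath product. -/
abbrev TwistedWreath (φ : Δ →* MulAut A) : Type := Coind φ ⋊[translate φ] Γ

theorem tw_mul_left (φ : Δ →* MulAut A) (x y : TwistedWreath φ) (g : Γ) :
    (x * y).left.1 g = x.left.1 g * y.left.1 (x.right⁻¹ * g) := rfl

/- an element of `Coind φ` is determined by its values on representatives -/
noncomputable def coindEquiv (φ : Δ →* MulAut A) : Coind φ ≃ ((Γ ⧸ Δ) → A) :=
  let D : Γ → Δ := fun g => ⟨(QuotientGroup.mk (s := Δ) g).out⁻¹ * g, by
    rw [← QuotientGroup.eq, QuotientGroup.out_eq']⟩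
  have hD : ∀ (g : Γ), (QuotientGroup.mk (s := Δ) g).out * D g = g := fun g =>
    mul_inv_cancel_left _ _
  have hmk : ∀ (g : Γ) (δ : Δ), QuotientGroup.mk (s := Δ) (g * δ) = QuotientGroup.mk g := by
    intro g δ
    rw [QuotientGroup.eq, mul_inv_rev, mul_assoc, inv_mul_cancel, mul_one]
    exact inv_mem δ.2
  have hD2 : ∀ (g : Γ) (δ : Δ), D (g * δ) = D g * δ := by
    intro g δ
    apply Subtype.ext
    change (QuotientGroup.mk (s := Δ) (g * δ)).out⁻¹ * (g * δ) =
      (QuotientGroup.mk (s := Δ) g).out⁻¹ * g * δ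
    rw [hmk, mul_assoc]
  { toFun := fun f ω => f.1 ω.out
    invFun := fun F => ⟨fun g => (φ (D g))⁻¹ (F (QuotientGroup.mk g)), fun g δ => by
      change (φ (D (g * δ)))⁻¹ (F (QuotientGroup.mk (g * δ))) =
        (φ δ)⁻¹ ((φ (D g))⁻¹ (F (QuotientGroup.mk g)))
      rw [hD2, hmk, map_mul, mul_inv_rev]
      rfl⟩
    left_inv := fun f => by
      apply Subtype.ext
      funext g
      change (φ (D g))⁻¹ (f.1 (QuotientGroup.mk (s := Δ) g).out) = f.1 g
      rw [← f.2, hD]
    right_inv := fun F => by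
      funext ω
      change (φ (D ω.out))⁻¹ (F (QuotientGroup.mk (s := Δ) ω.out)) = F ω
      have h1 : D ω.out = 1 := by
        apply Subtype.ext
        change (QuotientGroup.mk (s := Δ) ω.out).out⁻¹ * ω.out = 1
        rw [QuotientGroup.out_eq', inv_mul_cancel]
      rw [h1, map_one, inv_one, QuotientGroup.out_eq']
      rfl }

theorem card_coind (φ : Δ →* MulAut A) [Finite Γ] :
    Nat.card (Coind φ) = Nat.card A ^ Δ.index := by
  rw [Nat.card_congr (coindEquiv φ), Nat.card_fun]
  rfl

end defs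

section tw

variable {K L Γ A : Type} [Field K] [Field L] [Algebra K L] [FiniteDimensional K L] [IsGalois K L]
  [Group Γ] [Group A]

/- The Galois group of `L` over the fixed field of `Δ` acts through `Δ`. -/
noncomputable def iot (e : Γ ≃* (L ≃ₐ[K] L)) (Δ : Subgroup Γ) :
    (L ≃ₐ[IntermediateField.fixedField (Δ.map (e : Γ →* (L ≃ₐ[K] L)))] L) →* Δ :=
  MonoidHom.codRestrict ((e.symm : (L ≃ₐ[K] L) →* Γ).comp (AlgEquiv.restrictScalarsHom K)) Δ (by
    intro g
    have h1 : (AlgEquiv.restrictScalarsHom K g : L ≃ₐ[K] L) ∈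
        (IntermediateField.fixedField (Δ.map (e : Γ →* (L ≃ₐ[K] L)))).fixingSubgroup := by
      rw [IntermediateField.mem_fixingSubgroup_iff]
      intro x hx
      exact g.commutes ⟨x, hx⟩
    rw [IntermediateField.fixingSubgroup_fixedField] at h1
    obtain ⟨δ, hδ, h2⟩ := h1
    change e.symm (AlgEquiv.restrictScalarsHom K g) ∈ Δ
    rw [← h2]
    change e.symm (e δ) ∈ Δ
    rw [MulEquiv.symm_apply_apply]
    exact hδ)

omit [FiniteDimensional K L] in
theorem mem_fixing (e : Γ ≃* (L ≃ₐ[K] L)) (Δ : Subgroup Γ) (δ : Δ) :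
    e δ ∈ (IntermediateField.fixedField (Δ.map (e : Γ →* (L ≃ₐ[K] L)))).fixingSubgroup := by
  rw [IntermediateField.mem_fixingSubgroup_iff]
  intro x hx
  rw [IntermediateField.mem_fixedField_iff] at hx
  exact hx _ ⟨δ, δ.2, rfl⟩

/- The inverse of `iot`. -/
noncomputable def ati (e : Γ ≃* (L ≃ₐ[K] L)) (Δ : Subgroup Γ) :
    Δ →* (L ≃ₐ[IntermediateField.fixedField (Δ.map (e : Γ →* (L ≃ₐ[K] L)))] L) :=
  (IntermediateField.fixingSubgroupEquiv
    (IntermediateField.fixedField (Δ.map (e : Γ →* (L ≃ₐ[K] L))))).toMonoidHom.comp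
    (MonoidHom.codRestrict ((e : Γ →* (L ≃ₐ[K] L)).comp Δ.subtype) _ (mem_fixing e Δ))


theorem iot_ati (e : Γ ≃* (L ≃ₐ[K] L)) (Δ : Subgroup Γ) (δ : Δ) : iot e Δ (ati e Δ δ) = δ := by
  apply Subtype.ext
  change e.symm (AlgEquiv.restrictScalarsHom K (ati e Δ δ)) = δ
  rw [MulEquiv.symm_apply_eq]
  ext x
  rfl

/- Induction of regular solutions to twisted wreath products. -/
theorem twisted_reg [Infinite K] [Finite A] (e : Γ ≃* (L ≃ₐ[K] L)) {Δ : Subgroup Γ}
    (φ : Δ →* MulAut A)
    (hsol : RegSol (IntermediateField.fixedField (Δ.map (e : Γ →* (L ≃ₐ[K] L)))) L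
      (A ⋊[φ.comp (iot e Δ)]
        (L ≃ₐ[IntermediateField.fixedField (Δ.map (e : Γ →* (L ≃ₐ[K] L)))] L))
      SemidirectProduct.rightHom) :
    RegSol K L (TwistedWreath φ) ((e : Γ →* (L ≃ₐ[K] L)).comp SemidirectProduct.rightHom) := by
  classical
  have hfinΓ : Finite Γ := Finite.of_equiv _ e.symm.toEquiv
  have hfin1 : Finite (TwistedWreath φ) := Finite.of_equiv _ SemidirectProduct.equivProd.symm
  have hfin2 : Finite (A ⋊[φ.comp (iot e Δ)]
      (L ≃ₐ[IntermediateField.fixedField (Δ.map (e : Γ →* (L ≃ₐ[K] L)))] L)) :=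
    Finite.of_equiv _ SemidirectProduct.equivProd.symm
  let α : TwistedWreath φ →* (L ≃ₐ[K] L) :=
    (e : Γ →* (L ≃ₐ[K] L)).comp SemidirectProduct.rightHom
  have hα : ∀ x, α x = e x.right := fun _ => rfl
  have hmem : ∀ x : TwistedWreath φ, x ∈ (Δ.map (e : Γ →* (L ≃ₐ[K] L))).comap α ↔ x.right ∈ Δ := by
    intro x
    rw [Subgroup.mem_comap, hα]
    constructor
    · rintro ⟨δ, hδ, h⟩
      have h2 : δ = x.right := e.injective h
      exact h2 ▸ hδ
    · intro h
      exact ⟨_, h, rfl⟩
  let q : (Δ.map (e : Γ →* (L ≃ₐ[K] L))).comap α →*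
      (A ⋊[φ.comp (iot e Δ)]
        (L ≃ₐ[IntermediateField.fixedField (Δ.map (e : Γ →* (L ≃ₐ[K] L)))] L)) :=
    MonoidHom.mk' (fun x => ⟨x.1.left.1 1, ati e Δ ⟨x.1.right, (hmem x).1 x.2⟩⟩) (by
      intro x y
      apply SemidirectProduct.ext
      · rw [SemidirectProduct.mul_left]
        change (x.1 * y.1).left.1 1 = x.1.left.1 1 *
          (φ (iot e Δ (ati e Δ ⟨x.1.right, (hmem x).1 x.2⟩))) (y.1.left.1 1)
        rw [iot_ati, tw_mul_left]
        congr 1
        have h1 := y.1.left.2 1 (⟨x.1.right, (hmem x).1 x.2⟩ : Δ)⁻¹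
        rw [map_inv, inv_inv, one_mul] at h1
        rw [mul_one]
        exact h1
      · rw [SemidirectProduct.mul_right, ← map_mul]
        rfl)
  refine induce (Δ.map (e : Γ →* (L ≃ₐ[K] L))) α ?_ q SemidirectProduct.rightHom ?_ ?_ ?_ hsol
  · intro g
    exact ⟨SemidirectProduct.inr (e.symm g), by rw [hα, SemidirectProduct.right_inr,
      MulEquiv.apply_symm_apply]⟩
  · intro x l
    rfl
  · intro n hn h
    have hn1 : n.right = 1 := by
      rw [hα] at hn
      exact (map_eq_one_iff e e.injective).1 hn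
    apply SemidirectProduct.ext
    · apply Subtype.ext
      funext g
      have h1 : ((SemidirectProduct.inr g : TwistedWreath φ)⁻¹ * n *
          SemidirectProduct.inr g) ∈ (Δ.map (e : Γ →* (L ≃ₐ[K] L))).comap α := by
        rw [hmem]
        rw [SemidirectProduct.mul_right, SemidirectProduct.mul_right, hn1, mul_one,
          SemidirectProduct.inv_right, SemidirectProduct.right_inr, inv_mul_cancel]
        exact one_mem _
      have h2 := h (SemidirectProduct.inr g) ⟨_, h1⟩ rfl
      have h3 : ((SemidirectProduct.inr g : TwistedWreath φ)⁻¹ * n *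
          SemidirectProduct.inr g).left.1 1 = 1 :=
        congrArg SemidirectProduct.left h2
      rw [tw_mul_left, tw_mul_left] at h3
      rw [SemidirectProduct.mul_right, SemidirectProduct.inv_right, SemidirectProduct.right_inr,
        hn1, mul_one, inv_inv, mul_one] at h3
      have h4 : (SemidirectProduct.inr g : TwistedWreath φ)⁻¹.left = 1 := by
        rw [← map_inv, SemidirectProduct.left_inr]
      rw [h4, SemidirectProduct.left_inr] at h3
      change 1 * n.left.1 g * 1 = 1 at h3
      rw [one_mul, mul_one] at h3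
      exact h3
    · exact hn1
  · have h1 : Nat.card α.ker = Nat.card (Coind φ) := by
      apply Nat.card_congr
      exact
        { toFun := fun x => x.1.left
          invFun := fun f => ⟨SemidirectProduct.inl f, by
            rw [MonoidHom.mem_ker, hα, SemidirectProduct.right_inl, map_one]⟩
          left_inv := fun x => by
            apply Subtype.ext
            apply SemidirectProduct.ext
            · rfl
            · have h2 : α x.1 = 1 := x.2
              rw [hα] at h2
              exact ((map_eq_one_iff e e.injective).1 h2).symm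
          right_inv := fun f => rfl }
    have h2 : Nat.card (SemidirectProduct.rightHom : (A ⋊[φ.comp (iot e Δ)]
        (L ≃ₐ[IntermediateField.fixedField (Δ.map (e : Γ →* (L ≃ₐ[K] L)))] L)) →* _).ker =
        Nat.card A := by
      apply Nat.card_congr
      exact
        { toFun := fun x => x.1.left
          invFun := fun f => ⟨SemidirectProduct.inl f, by
            rw [MonoidHom.mem_ker, SemidirectProduct.rightHom_inl]⟩
          left_inv := fun x => by
            apply Subtype.ext
            apply SemidirectProduct.ext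
            · rfl
            · exact (x.2 : x.1.right = 1).symm
          right_inv := fun f => rfl }
    rw [h1, h2, card_coind, Subgroup.index_map_equiv]

end tw

end Pool.Agent.TH444.TW
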