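import Mathlib
import Pool.Agent.H84.L.S8_H391R2_T4_Nod
import Pool.Agent.H84.L.S8_H391R2_T4_Red
import Pool.Agent.H84.L.S8_H391R2_T4_Sem
import Pool.Agent.H84.L.S8_TH15_IGP_TwB
import Pool.Agent.H84.L.S8_TH444_TW_Kum
import Pool.Agent.H84.L.S8_TH444_TW_RS
import Pool.Agent.H84.L.S8_TH444_TW_Tw
import Pool.Agent.H84.L.S8_TH59_WX_UD
import Pool.Agent.H84.L.S8_W200_IG_HF
import Pool.Agent.H84.L.S8_W200_IJ_CA

namespace Pool.Agent.H391R2.T4
end Pool.Agent.H391R2.T4


/-!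
# Cyclic groups of order prime to the characteristic
-/

set_option autoImplicit false

namespace Pool.Agent.TH444.TW

open Pool.Agent.H391R2.T4 (RegSol)

/- Direct products with the Galois group of the constants. -/
theorem reg_prod {K L C : Type} [Field K] [Field L] [Algebra K L] [FiniteDimensional K L]
    [IsGalois K L] [Group C] (φ : (L ≃ₐ[K] L) →* MulAut C) (hφ : ∀ g, φ g = 1)
    (h : RegSol K K C 1) :
    RegSol K L (C ⋊[φ] (L ≃ₐ[K] L)) SemidirectProduct.rightHom := by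
  let p : C ⋊[φ] (L ≃ₐ[K] L) →* C := MonoidHom.mk' (fun x => x.left) (by
    intro x y
    rw [SemidirectProduct.mul_left, hφ]
    rfl)
  have hK : ∀ σ τ : K ≃ₐ[K] K, σ = τ := fun σ τ => AlgEquiv.ext fun x => by
    have h1 : ∀ ρ : K ≃ₐ[K] K, ρ x = x := fun ρ => ρ.commutes x
    rw [h1, h1]
  refine Pool.Agent.TH59.WX.reg_lift (L₀ := K) (1 : C →* (K ≃ₐ[K] K)) SemidirectProduct.rightHom p
    ?_ ?_ ?_ h
  · intro e
    exact hK _ _
  · intro e h1 h2
    exact SemidirectProduct.ext h1 h2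
  · intro e₀ σ _
    exact ⟨⟨e₀, σ⟩, rfl, rfl⟩

theorem cycReg_unit (K : Type) [Field K] [Infinite K] (m : ℕ) (hm : (m : K) ≠ 0) :
    CycReg K m := by
  classical
  have hm0 : m ≠ 0 := by rintro rfl; exact hm Nat.cast_zero
  have hne : NeZero m := ⟨hm0⟩
  have hne' : NeZero ((m : ℕ) : K) := ⟨hm⟩
  let L := CyclotomicField m K
  have hcyc : IsCyclotomicExtension {m} K L := CyclotomicField.isCyclotomicExtension m K
  have hfd : FiniteDimensional K L := IsCyclotomicExtension.finiteDimensional {m} K L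
  have hgal : IsGalois K L := IsCyclotomicExtension.isGalois {m} K L
  let ζ : L := IsCyclotomicExtension.zeta m K L
  have hζ : IsPrimitiveRoot ζ m := IsCyclotomicExtension.zeta_spec m K L
  let C := Multiplicative (ZMod m)
  have hC : Nat.card C = m := by
    change Nat.card (ZMod m) = m
    exact Nat.card_zmod m
  let Γ := L ≃ₐ[K] L
  let φ : (⊥ : Subgroup Γ) →* MulAut C := 1
  let e : Γ ≃* (L ≃ₐ[K] L) := MulEquiv.refl _
  let K₁ := IntermediateField.fixedField ((⊥ : Subgroup Γ).map (e : Γ →* (L ≃ₐ[K] L)))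
  have hinf : Infinite K₁ := Infinite.of_injective _ (algebraMap K K₁).injective
  have hζmem : ζ ∈ K₁ := by
    rw [IntermediateField.mem_fixedField_iff]
    rintro _ ⟨g, hg, rfl⟩
    have h1 : g = 1 := hg
    rw [h1]
    rfl
  have hζ' : IsPrimitiveRoot (⟨ζ, hζmem⟩ : K₁) m := by
    rw [← IsPrimitiveRoot.coe_submonoidClass_iff] 
    exact hζ
  have h1 : RegSol K₁ K₁ C 1 := cycReg_kummer K₁ m (Nat.pos_of_ne_zero hm0) _ hζ' C hC
  have h2 := twisted_reg (A := C) e φ (reg_prod (φ.comp (iot e ⊥)) (fun g => rfl) h1)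
  have hfinΓ : Finite Γ := inferInstance
  have : Fintype Γ := Fintype.ofFinite Γ
  let f : TwistedWreath φ →* C := MonoidHom.mk' (fun x => ∏ g : Γ, x.left.1 g) (by
    intro x y
    have h3 : ∀ g : Γ, (x * y).left.1 g = x.left.1 g * y.left.1 (x.right⁻¹ * g) := fun g => rfl
    simp only [h3]
    rw [Finset.prod_mul_distrib]
    congr 1
    exact Equiv.prod_comp (Equiv.mulLeft x.right⁻¹) (fun g => y.left.1 g))
  have hf : Function.Surjective f := by
    intro c
    refine ⟨⟨⟨Pi.mulSingle 1 c, fun g δ => ?_⟩, 1⟩, ?_⟩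
    · have h3 : (δ : Γ) = 1 := δ.2
      rw [h3, mul_one]
      rfl
    · change ∏ g : Γ, (Pi.mulSingle 1 c : Γ → C) g = c
      rw [Fintype.prod_eq_single (1 : Γ) (fun g hg => Pi.mulSingle_eq_of_ne hg _),
        Pi.mulSingle_eq_same]
  have hK : ∀ σ τ : K ≃ₐ[K] K, σ = τ := fun σ τ => AlgEquiv.ext fun x => by
    have h1 : ∀ ρ : K ≃ₐ[K] K, ρ x = x := fun ρ => ρ.commutes x
    rw [h1, h1]
  refine cycReg_of_reg C hC ?_
  refine Pool.Agent.W200.IJ.regSol_quot (L' := L) (1 : C →* (K ≃ₐ[K] K))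
    ((e : Γ →* (L ≃ₐ[K] L)).comp SemidirectProduct.rightHom) f hf (fun g => hK _ _) ?_ h2
  intro ρ _
  refine ⟨SemidirectProduct.inr ρ, ?_, rfl⟩
  change ∏ g : Γ, ((SemidirectProduct.inr ρ : TwistedWreath φ).left).1 g = 1
  rw [SemidirectProduct.left_inr]
  exact Finset.prod_eq_one fun g _ => rfl

end Pool.Agent.TH444.TW
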