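import Mathlib
import Pool.Agent.H84.L.S8_H391R2_WrGrp
import Pool.Agent.H84.L.S8_TH15_IGP_TwT
import Pool.Agent.H84.L.S8_TH444_TW_Pow

namespace Pool.Agent.H391R2
end Pool.Agent.H391R2
namespace Pool.Agent.H391R2.T4
end Pool.Agent.H391R2.T4
namespace Pool.Agent.TH15.IGP
end Pool.Agent.TH15.IGP


/-!
# Steps: embedding problems with kernel `A^k`, over all fields with the specialisation property
-/

set_option autoImplicit false

namespace Pool.Agent.TH444.TW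

open Pool.Agent.H391R2 Pool.Agent.H391R2.T4
open Pool.Agent.TH15.IGP (StepSol)


/- Removing an orbit. -/
theorem orbit_step {Γ B : Type} [Group Γ] [Group B] {k : ℕ} (ψ : Γ →* Wr B k)
    (S : Finset (Fin k)) (hS : Inv ψ S) (o : Fin k) (ho : o ∈ S) :
    ∃ S₀ : Finset (Fin k), Inv ψ S₀ ∧ S₀ ⊂ S ∧ o ∉ S₀ ∧
      ∀ i, i ∈ S → i ∉ S₀ → ∃ γ, (ψ γ).right o = i := by
  classical
  let S₀ : Finset (Fin k) := S.filter fun i => ¬ ∃ γ, (ψ γ).right o = i
  have hmem : ∀ i, i ∈ S₀ ↔ i ∈ S ∧ ¬ ∃ γ, (ψ γ).right o = i := fun i => Finset.mem_filter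
  refine ⟨S₀, ?_, ?_, ?_, ?_⟩
  · intro γ i
    rw [hmem, hmem, hS]
    refine and_congr_right fun _ => not_congr ⟨?_, ?_⟩
    · rintro ⟨δ, h⟩
      refine ⟨γ⁻¹ * δ, ?_⟩
      rw [map_mul, wr_mul_right, map_inv, SemidirectProduct.inv_right]
      change (ψ γ).right⁻¹ ((ψ δ).right o) = i
      rw [h, perm_inv_self]
    · rintro ⟨δ, h⟩
      refine ⟨γ * δ, ?_⟩
      rw [map_mul, wr_mul_right]
      change (ψ γ).right ((ψ δ).right o) = _
      rw [h]
  · rw [Finset.ssubset_iff_of_subset (Finset.filter_subset _ _)]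
    refine ⟨o, ho, ?_⟩
    rw [hmem]
    rintro ⟨-, h⟩
    refine h ⟨1, ?_⟩
    rw [map_one]
    rfl
  · rw [hmem]
    rintro ⟨-, h⟩
    refine h ⟨1, ?_⟩
    rw [map_one]
    rfl
  · intro i hi hi₀
    by_contra h
    exact hi₀ ((hmem i).2 ⟨hi, h⟩)

/- The trivial set of coordinates. -/
noncomputable def rtEmpty {Γ B A : Type} [Group Γ] [Group B] [Group A] {k : ℕ}
    (θ : B →* MulAut A) (ψ : Γ →* Wr B k) (h : Inv ψ ∅) : XS θ ψ ∅ h ≃* Γ :=
  MulEquiv.ofBijective (rt θ ψ ∅ h) ⟨fun x y hxy => by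
    apply Subtype.ext
    apply SemidirectProduct.ext
    · funext i
      rw [x.2 i (Finset.notMem_empty i), y.2 i (Finset.notMem_empty i)]
    · exact hxy, fun γ => ⟨⟨SemidirectProduct.inr γ, fun i _ => by
      rw [SemidirectProduct.left_inr]; rfl⟩, rfl⟩⟩

/- All coordinates. -/
noncomputable def xsUniv {Γ B A : Type} [Group Γ] [Group B] [Group A] {k : ℕ}
    (θ : B →* MulAut A) (ψ : Γ →* Wr B k) (h : Inv ψ Finset.univ) :
    PowSd θ ψ ≃* XS θ ψ Finset.univ h :=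
  MulEquiv.ofBijective (MonoidHom.codRestrict (MonoidHom.id _) _ fun x i hi =>
    absurd (Finset.mem_univ i) hi)
  ⟨fun x y hxy => congrArg Subtype.val hxy, fun x => ⟨x.1, rfl⟩⟩


end Pool.Agent.TH444.TW
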