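import Mathlib
import Pool.Agent.H84.L.S8_H391R2_T4_Sym
import Pool.Agent.H84.L.S8_H391R2_WrGrp
import Pool.Agent.H84.L.S8_TH15_IGP_TwB
import Pool.Agent.H84.L.S8_TH59_WX_PD

namespace Pool.Agent.H391R2
end Pool.Agent.H391R2
namespace Pool.Agent.H391R2.T4
end Pool.Agent.H391R2.T4


set_option autoImplicit false
set_option linter.unusedSectionVars false
set_option linter.unusedSimpArgs false

namespace Pool.Agent.Y793

open Polynomial Pool.Agent.H391R2 Pool.Agent.H391R2.T4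

section tw

variable {Γ E₀ : Type} [Group Γ] [Group E₀]

/- The fibre power of `α : E₀ → Γ` twisted by the character `χ` of `Γ`: the group of all
`(x, ρ)` with `x` in `E₀ ≀ S_n`, `ρ` in `Γ`, `α (x.left i) = ρ` for all `i` and
`sign x.right = χ ρ`. For `χ = 1` it is the alternating fibre power. -/
def AltTw (α : E₀ →* Γ) (χ : Γ →* ℤˣ) (n : ℕ) : Subgroup (Wr E₀ n × Γ) :=
  SymEP α n ⊓ ((Equiv.Perm.sign.comp SemidirectProduct.rightHom).comp
    (MonoidHom.fst (Wr E₀ n) Γ)).eqLocus (χ.comp (MonoidHom.snd (Wr E₀ n) Γ))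

/- The projection `(x, ρ) ↦ ρ`. -/
def twProj (α : E₀ →* Γ) (χ : Γ →* ℤˣ) (n : ℕ) : AltTw α χ n →* Γ :=
  (MonoidHom.snd (Wr E₀ n) Γ).comp (AltTw α χ n).subtype

variable (α : E₀ →* Γ) (χ : Γ →* ℤˣ) (n : ℕ)


variable {n}


end tw


end Pool.Agent.Y793
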