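import Mathlib
import Pool.Agent.H84.L.A3_N600_UK_Compl
import Pool.Agent.H84.L.A3_N70_AW_Stm
import Pool.Agent.H84.L.A3_N70_AW_Stm2
import Pool.Agent.H84.L.S8_H391R2_T4_Red
import Pool.Agent.H84.L.S8_H391R2_WrGrp
import Pool.Agent.H84.L.S8_TH377_IG_Bc2
import Pool.Agent.H84.L.S8_TH444_TW_RSK
import Pool.Agent.H84.L.S8_W200_IG_HF
import Pool.Agent.H84.L.S8_Y793_E_App
import Pool.Agent.H84.L.S8_Y793_Stm

namespace Pool.Agent.H391R2
end Pool.Agent.H391R2
namespace Pool.Agent.H391R2.T4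
end Pool.Agent.H391R2.T4
namespace Pool.Agent.N600.UK
end Pool.Agent.N600.UK
namespace Pool.Agent.N70.AW
end Pool.Agent.N70.AW
namespace Pool.Agent.Y793
end Pool.Agent.Y793


/-!
Statements (NOT results) of the pieces of the project EP (helper70, problems MP_6e3ed7_al and
MP_e9d732_al): embedding problems over fields of characteristic zero whose kernel is a single wreath
product `G ≀ A_n`, `G` a finite perfect group.
-/

set_option autoImplicit false

namespace Pool.Agent.N70.EP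

open Polynomial Pool.Agent.H391R2 Pool.Agent.H391R2.T4 Pool.Agent.Y793 Pool.Agent.N70.AW
open Pool.Agent.N600.UK (Out cls)

/- The action of `Γ` on the cosets of `P`, a set with `m` elements, has sign `ψ`. -/
def SgnIndex (Γ : Type) [Group Γ] (P : Subgroup Γ) (m : ℕ) (ψ : Γ →* ℤˣ) : Prop :=
  ∃ g : Fin m → Γ, Function.Bijective (fun t => (g t : Γ ⧸ P)) ∧
    ∀ (γ : Γ) (π : Equiv.Perm (Fin m)), (∀ t, ((γ * g t : Γ) : Γ ⧸ P) = (g (π t) : Γ ⧸ P)) →
      Equiv.Perm.sign π = ψ γ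

/- The data (see `Pool.Agent.N70.AW.Dt`), without the condition on the determinant of `S`. -/
structure Dt0 {K Z ι : Type} [Field K] [Field Z] [Algebra (RatFunc K) Z] [Fintype ι]
    (P : Subgroup (Z ≃ₐ[RatFunc K] Z)) (m k d : ℕ) (κ : Option ι → K[X]) (v : Option ι → Z)
    (x : Option ι → Option ι → Z) (e es : Fin m → Z) (S : Matrix (Fin m) (Fin m) K[X])
    (M L : Option ι → Option ι → Matrix (Fin m) (Fin m) K[X]) : Prop where
  fix_e : ∀ l, ∀ γ ∈ P, γ (e l) = e l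
  fix_es : ∀ l, ∀ γ ∈ P, γ (es l) = es l
  fix_v : ∀ j, ∀ γ ∈ P, γ (v j) = v j
  fix_x : ∀ i j, ∀ γ ∈ P, γ (x i j) = x i j
  dual1 : ∑ l, e l * es l = 1
  dual0 : ∀ γ : Z ≃ₐ[RatFunc K] Z, γ ∉ P → ∑ l, e l * γ (es l) = 0
  e_es : ∀ l, e l = ∑ l', pz Z (S l l') * es l'
  symS : S.transpose = S
  mul_e : ∀ i j l', x i j * e l' = ∑ l, pz Z (M i j l l') * e l
  mul_es : ∀ i j l, x i j * es l = ∑ l', pz Z (M i j l l') * es l'
  fac : ∀ i j, M i j = L i j * S
  symL : ∀ i j, (L i j).transpose = L i j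
  deg : ∀ i j l l', (M i j l l').natDegree ≤ d
  symx : ∀ i j, x i j = x j i
  symM : ∀ i j, L i j = L j i
  zero : ∀ i j : ι, x (some i) (some j) = 0
  zeroM : ∀ i j : ι, L (some i) (some j) = 0
  der : ∀ i j, v i * v j = pz Z (κ i * κ j) +
    ∑ l, ∑ l', e l * pz Z (derivative (M i j l l')) * es l'
  v_some : ∀ i : ι, v (some i) = pz Z (κ (some i))
  stab : ∀ γ : Z ≃ₐ[RatFunc K] Z, (∀ i : ι, γ (x (some i) none) = x (some i) none) → γ ∈ P
  lin : LinearIndependent K (fun i : ι => κ (some i))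
  kdeg : ∀ j, (κ j).natDegree ≤ k
  ktop : ∃ i : ι, (κ (some i)).natDegree = k
  dk : d ≤ 2 * k
  card : k + 3 < 2 * Fintype.card ι

/- `D` is the derivation `d/dt` of `Z`. -/
structure IsDt0 {K Z : Type} [Field K] [Field Z] [Algebra (RatFunc K) Z] [Algebra K Z]
    (D : Derivation K Z Z) : Prop where
  poly : ∀ p : K[X], D (pz Z p) = pz Z (derivative p)
  comm : ∀ (γ : Z ≃ₐ[RatFunc K] Z) (z : Z), D (γ z) = γ (D z)

/- CVT: existence of the derivation and of a cyclic vector `g₀` in the fixed field of `P`. -/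
def St_cvT : Prop :=
  ∀ (K L Z : Type) [Field K] [CharZero K] [Field L] [Algebra K L] [FiniteDimensional K L]
    [IsGalois K L] [Field Z] [Algebra (RatFunc K) Z] [Algebra L Z] [Algebra K Z]
    [IsScalarTower K (RatFunc K) Z] [IsScalarTower K L Z] [FiniteDimensional (RatFunc K) Z]
    [IsGalois (RatFunc K) Z] (π : (Z ≃ₐ[RatFunc K] Z) →* (L ≃ₐ[K] L)),
    (∀ (σ : Z ≃ₐ[RatFunc K] Z) (x : L), σ (algebraMap L Z x) = algebraMap L Z (π σ x)) →
    (∀ y : Z, IsAlgebraic L y → y ∈ Set.range (algebraMap L Z)) →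
    ∀ (P : Subgroup (Z ≃ₐ[RatFunc K] Z)) (m : ℕ) (g : Fin m → (Z ≃ₐ[RatFunc K] Z)),
      P.map π = ⊤ → Function.Bijective (fun t => (g t : (Z ≃ₐ[RatFunc K] Z) ⧸ P)) →
      ∃ D : Derivation K Z Z, IsDt0 D ∧ ∃ g₀ : Z,
        (∀ γ : Z ≃ₐ[RatFunc K] Z, γ g₀ = g₀ ↔ γ ∈ P) ∧
        (Matrix.of fun t l : Fin m => g t ((D^[(l : ℕ)]) g₀)).det ≠ 0

/- DAT: existence of the data, over `K`, for a Galois extension `Z` of `K(t)` with field of
constants `L`, and a subgroup `P` such that `K` is the field of constants of its fixed field. -/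
def St_datT : Prop :=
  ∀ (K L Z : Type) [Field K] [CharZero K] [Field L] [Algebra K L] [FiniteDimensional K L]
    [IsGalois K L] [Field Z] [Algebra (RatFunc K) Z] [Algebra L Z] [Algebra K Z]
    [IsScalarTower K (RatFunc K) Z] [IsScalarTower K L Z] [FiniteDimensional (RatFunc K) Z]
    [IsGalois (RatFunc K) Z] (π : (Z ≃ₐ[RatFunc K] Z) →* (L ≃ₐ[K] L)),
    (∀ (σ : Z ≃ₐ[RatFunc K] Z) (x : L), σ (algebraMap L Z x) = algebraMap L Z (π σ x)) →
    (∀ y : Z, IsAlgebraic L y → y ∈ Set.range (algebraMap L Z)) →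
    ∀ (P : Subgroup (Z ≃ₐ[RatFunc K] Z)) (m : ℕ) (χ : (L ≃ₐ[K] L) →* ℤˣ), P.map π = ⊤ →
    SgnIndex (Z ≃ₐ[RatFunc K] Z) P m (χ.comp π) →
    ∀ (ρ : L) (δ : K), ρ ≠ 0 → algebraMap K L δ = ρ ^ 2 →
    (∀ h : L ≃ₐ[K] L, h ρ = ((χ h : ℤˣ) : ℤ) • ρ) →
    ∃ k₀ : ℕ, ∀ k ≥ k₀, ∃ (p d : ℕ) (κ : Option (Option (Fin p)) → K[X])
      (v : Option (Option (Fin p)) → Z)
      (x : Option (Option (Fin p)) → Option (Option (Fin p)) → Z) (e es : Fin m → Z)
      (S : Matrix (Fin m) (Fin m) K[X]) (q : K[X])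
      (M L : Option (Option (Fin p)) → Option (Option (Fin p)) → Matrix (Fin m) (Fin m) K[X]),
      S.det = C δ * q ^ 2 ∧ q ≠ 0 ∧
      Dt0 P m (k + 2) d κ v x e es S M L ∧ (κ (some none)).natDegree = k + 2 ∧
      Dt0 P m k d (fun j : Option (Fin p) => κ (j.map some))
        (fun j : Option (Fin p) => v (j.map some))
        (fun i j : Option (Fin p) => x (i.map some) (j.map some)) e es S
        (fun i j : Option (Fin p) => M (i.map some) (j.map some))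
        (fun i j : Option (Fin p) => L (i.map some) (j.map some))

/- DATO: existence of the data, from CVT and DEG. -/
def St_datTOf : Prop := St_cvT → St_deg → St_datT


/- The pair of fields `(K₁, L₁)` is an extension of the pair `(K, L)`, `f` is the restriction. -/
structure Ext2 (K L K₁ L₁ : Type) [Field K] [Field L] [Algebra K L] [Field K₁] [Field L₁]
    [Algebra K₁ L₁] [Algebra K K₁] [Algebra L L₁] (f : (L₁ ≃ₐ[K₁] L₁) ≃* (L ≃ₐ[K] L)) : Prop where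
  comm : ∀ x : K, algebraMap K₁ L₁ (algebraMap K K₁ x) = algebraMap L L₁ (algebraMap K L x)
  res : ∀ (σ : L₁ ≃ₐ[K₁] L₁) (x : L), σ (algebraMap L L₁ x) = algebraMap L L₁ (f σ x)

/- BCH: base change of regular solutions. -/
def St_bch : Prop :=
  ∀ (K L K₁ L₁ : Type) [Field K] [CharZero K] [Field L] [Algebra K L] [FiniteDimensional K L]
    [IsGalois K L] [Field K₁] [Field L₁] [Algebra K₁ L₁] [FiniteDimensional K₁ L₁]
    [IsGalois K₁ L₁] [Algebra K K₁] [Algebra L L₁] (f : (L₁ ≃ₐ[K₁] L₁) ≃* (L ≃ₐ[K] L)),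
    Ext2 K L K₁ L₁ f → ∀ (E : Type) [Group E] [Finite E] (α : E →* (L ≃ₐ[K] L)),
    RegSol K L E α → RegSol K₁ L₁ E ((f.symm : (L ≃ₐ[K] L) →* (L₁ ≃ₐ[K₁] L₁)).comp α)

/- Regular solutions over the pair `(K₁, L₁)` give regular solutions over the pair `(K, L)`. -/
def Desc (K L K₁ L₁ : Type) [Field K] [Field L] [Algebra K L] [Field K₁] [Field L₁]
    [Algebra K₁ L₁] (f : (L₁ ≃ₐ[K₁] L₁) ≃* (L ≃ₐ[K] L)) : Prop :=
  ∀ (E : Type) [Group E] [Finite E] (α : E →* (L ≃ₐ[K] L)),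
    RegSol K₁ L₁ E ((f.symm : (L ≃ₐ[K] L) →* (L₁ ≃ₐ[K₁] L₁)).comp α) → RegSol K L E α

/- ONE: descent of regular solutions from `K(t)` to `K`. -/
def St_one : Prop :=
  ∀ (K L : Type) [Field K] [CharZero K] [Field L] [Algebra K L] [FiniteDimensional K L]
    [IsGalois K L], ∃ (_ : Algebra (RatFunc K) (RatFunc L))
    (_ : FiniteDimensional (RatFunc K) (RatFunc L)) (_ : IsGalois (RatFunc K) (RatFunc L))
    (f : (RatFunc L ≃ₐ[RatFunc K] RatFunc L) ≃* (L ≃ₐ[K] L)),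
    Ext2 K L (RatFunc K) (RatFunc L) f ∧ Desc K L (RatFunc K) (RatFunc L) f

/- UNI: for every finite group `H` there is an `H`-extension `L₀ / K₀` of fields of characteristic
zero such that every `H`-extension `L / K` of fields of characteristic zero becomes an extension of
it after a purely transcendental extension of `K`. -/
def St_uni : Prop :=
  ∀ (H : Type) [Group H] [Finite H], ∃ (K₀ L₀ : Type) (_ : Field K₀) (_ : CharZero K₀)
    (_ : Field L₀) (_ : Algebra K₀ L₀) (_ : FiniteDimensional K₀ L₀) (_ : IsGalois K₀ L₀)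
    (e₀ : (L₀ ≃ₐ[K₀] L₀) ≃* H), ∀ (K L : Type) [Field K] [CharZero K] [Field L] [Algebra K L]
    [FiniteDimensional K L] [IsGalois K L] (ε : (L ≃ₐ[K] L) ≃* H),
    ∃ (K₁ L₁ : Type) (_ : Field K₁) (_ : Field L₁) (_ : Algebra K₁ L₁)
      (_ : FiniteDimensional K₁ L₁) (_ : IsGalois K₁ L₁) (_ : Algebra K K₁) (_ : Algebra L L₁)
      (_ : Algebra K₀ K₁) (_ : Algebra L₀ L₁) (f : (L₁ ≃ₐ[K₁] L₁) ≃* (L ≃ₐ[K] L))
      (f₀ : (L₁ ≃ₐ[K₁] L₁) ≃* (L₀ ≃ₐ[K₀] L₀)),
      Ext2 K L K₁ L₁ f ∧ Ext2 K₀ L₀ K₁ L₁ f₀ ∧ (∀ σ, ε (f σ) = e₀ (f₀ σ)) ∧ Desc K L K₁ L₁ f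

/- The fibre product of `Aut G` and `Γ` over `Out G`. -/
def FB {G Γ : Type} [Group G] [Group Γ] (o : Γ →* Out G) : Subgroup (MulAut G × Γ) :=
  ((cls G).comp (MonoidHom.fst (MulAut G) Γ)).eqLocus (o.comp (MonoidHom.snd (MulAut G) Γ))

/- Its projection to `Γ`. -/
def pB {G Γ : Type} [Group G] [Group Γ] (o : Γ →* Out G) : FB o →* Γ :=
  (MonoidHom.snd (MulAut G) Γ).comp (FB o).subtype

/- AUT: every extension with kernel `G ≀ A_n`, `G` without centre, is a twisted fibre power. -/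
def St_aut : Prop :=
  ∀ (G : Type) [Group G] [Finite G] [Nontrivial G], (∀ z : G, (∀ g : G, z * g = g * z) → z = 1) →
    ∀ n : ℕ, 2 * (Nat.card G + 4) ≤ n →
    ∀ (X Γ : Type) [Group X] [Group Γ] (p : X →* Γ), Function.Surjective p →
    Nonempty (p.ker ≃* AWr G n) →
    ∃ (o : Γ →* Out G) (χ : Γ →* ℤˣ) (e : X ≃* AltTw (pB o) χ n),
      ∀ x, twProj (pB o) χ n (e x) = p x

/- PUL: pull-back of regular steps. -/
def St_pul : Prop :=
  ∀ (k₀ : Type) [Field k₀] (W W' Γ : Type) [Group W] [Group W'] [Group Γ] [Finite W'] [Finite Γ]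
    (p : W' →* W) (r : Γ →* W), Function.Surjective r →
    Pool.Agent.TH444.TW.RSK k₀ p →
    Pool.Agent.TH444.TW.RSK k₀ (Pool.Agent.TH377.IG.prFP p r)

end Pool.Agent.N70.EP
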