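import Mathlib
import Pool.Agent.H84.L.S8_Y793_Stm



set_option autoImplicit false
set_option linter.unusedSectionVars false
set_option linter.unusedSimpArgs false

namespace Pool.Agent.Y793

open Polynomial


section linall

variable {F N I : Type} [Field F] [Field N] [Algebra F N] [Fintype I]

/- A generic point of `U` is a zero of a linear form only if the form vanishes on `U`. -/
theorem lin_all (hgen : St_gen) (v : I → N)
    (halg : Algebra.IsAlgebraic (IntermediateField.adjoin F (Set.range v)) N)
    (U : Submodule F (I → F))
    (hvU : v ∈ Submodule.span N ((fun (c : I → F) (i : I) => algebraMap F N (c i)) ''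
      (U : Set (I → F))))
    (htr : (Module.finrank F U : Cardinal) ≤ Algebra.trdeg F N) (L : (I → F) →ₗ[F] F)
    (LN : (I → N) →ₗ[N] N)
    (hL : ∀ c : I → F, LN (fun i => algebraMap F N (c i)) = algebraMap F N (L c))
    (h0 : LN v = 0) (a : I → F) (ha : a ∈ U) : L a = 0 := by
  classical
  let f : MvPolynomial I F := ∑ i, MvPolynomial.C (L (Pi.single i 1)) * MvPolynomial.X i
  have h1 : ∀ b : I → F, b = ∑ i, b i • (Pi.single i 1 : I → F) := by
    intro b
    funext j
    simp [Finset.sum_apply, Pi.single_apply]
  have h2 : MvPolynomial.eval a f = L a := by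
    conv_rhs => rw [h1 a]
    rw [map_sum, map_sum]
    refine Finset.sum_congr rfl fun i _ => ?_
    rw [map_mul, MvPolynomial.eval_C, MvPolynomial.eval_X, map_smul, smul_eq_mul, mul_comm]
  have h3 : MvPolynomial.aeval v f = LN v := by
    have h4 : v = ∑ i, v i • (fun j => algebraMap F N ((Pi.single i 1 : I → F) j)) := by
      funext j
      simp only [Finset.sum_apply, Pi.smul_apply, smul_eq_mul]
      rw [Finset.sum_eq_single j]
      · simp
      · intro i _ hi
        rw [Pi.single_eq_of_ne hi.symm, map_zero, mul_zero]
      · intro h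
        exact absurd (Finset.mem_univ _) h
    conv_rhs => rw [h4]
    rw [map_sum, map_sum]
    refine Finset.sum_congr rfl fun i _ => ?_
    rw [map_mul, MvPolynomial.aeval_C, MvPolynomial.aeval_X, map_smul, hL, smul_eq_mul, mul_comm]
  rw [← h2]
  exact hgen F N I v halg U hvU htr f (h3.trans h0) a ha

end linall


end Pool.Agent.Y793
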