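import Mathlib
import Pool.Agent.H84.L.S8_H391R2_T4_Fam
import Pool.Agent.H84.L.S8_H391R2_WrGrp
import Pool.Agent.H84.L.S8_Y793_Se

namespace Pool.Agent.H391R2
end Pool.Agent.H391R2


set_option autoImplicit false
set_option linter.unusedSectionVars false
set_option linter.unusedSimpArgs false

namespace Pool.Agent.Y793

open Polynomial Pool.Agent.H391R2

section emb

variable {K Z N : Type} [Field K] [Field Z] [Algebra (RatFunc K) Z] [Algebra K Z]
  [IsScalarTower K (RatFunc K) Z] [Field N] [Algebra K N] [IsAlgClosed N]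
  [FiniteDimensional (RatFunc K) Z]

theorem exists_emb (t₀ : K) (w : N) (hw : Transcendental K w) :
    ∃ φ : Z →ₐ[K] N, w ^ 2 = φ (tz K Z t₀) := by
  have hs : Transcendental K (w ^ 2 + algebraMap K N t₀) := by
    intro h1
    apply hw
    have h2 : IsAlgebraic K (w ^ 2) := by
      have h3 := h1.sub (isAlgebraic_algebraMap t₀)
      rwa [add_sub_cancel_right] at h3
    exact h2.of_pow (by norm_num)
  let ψ : RatFunc K →ₐ[K] N := (IntermediateField.adjoin K {w ^ 2 + algebraMap K N t₀}).val.comp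
    (RatFunc.algEquivOfTranscendental _ hs : RatFunc K →ₐ[K] _)
  have hψ : ψ RatFunc.X = w ^ 2 + algebraMap K N t₀ := by
    change ((RatFunc.algEquivOfTranscendental _ hs RatFunc.X :
      IntermediateField.adjoin K {w ^ 2 + algebraMap K N t₀}) : N) = _
    simp
  let _ : Algebra (RatFunc K) N := (ψ : RatFunc K →+* N).toAlgebra
  have t1 : IsScalarTower K (RatFunc K) N := .of_algebraMap_eq fun x => (ψ.commutes x).symm
  let φ : Z →ₐ[RatFunc K] N := IsAlgClosed.lift
  refine ⟨φ.restrictScalars K, ?_⟩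
  change _ = φ (tz K Z t₀)
  rw [tz, φ.commutes]
  change _ = ψ (RatFunc.X - RatFunc.C t₀)
  rw [map_sub, hψ, ← RatFunc.algebraMap_eq_C, ψ.commutes, add_sub_cancel_right]

end emb


/- The action of an automorphism on the labelled solutions. -/
def Rl {K Z N : Type} [Field K] [Field Z] [Algebra (RatFunc K) Z] [Algebra K Z] [Field N]
    [Algebra K N] {P : Subgroup (Z ≃ₐ[RatFunc K] Z)} {n : ℕ} (r : Fin n → N)
    (φ : Fin n → (Z →ₐ[K] N)) (σ : N → N) (x : Wr P n) : Prop :=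
  ∀ i, σ (r i) = r (x.right i) ∧
    ∀ z, σ (φ i z) = φ (x.right i) ((x.left (x.right i) : Z ≃ₐ[RatFunc K] Z) z)

section rl

variable {K Z N : Type} [Field K] [Field Z] [Algebra (RatFunc K) Z] [Algebra K Z] [Field N]
    [Algebra K N] {P : Subgroup (Z ≃ₐ[RatFunc K] Z)} {n : ℕ} {r : Fin n → N}
    {φ : Fin n → (Z →ₐ[K] N)}

theorem Rl.mul {σ τ : N → N} {x y : Wr P n} (h1 : Rl r φ σ x) (h2 : Rl r φ τ y) :
    Rl r φ (fun a => σ (τ a)) (x * y) := by
  intro i
  refine ⟨?_, fun z => ?_⟩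
  · change σ (τ (r i)) = _
    rw [(h2 i).1, (h1 _).1]
    rfl
  · change σ (τ (φ i z)) = _
    rw [(h2 i).2, (h1 _).2, wr_mul_left, wr_mul_right]
    have h3 : x.right⁻¹ ((x.right * y.right) i) = y.right i := by simp
    rw [h3]
    rfl

theorem Rl.inv {σ τ : N → N} (hστ : ∀ a, τ (σ a) = a) {x : Wr P n} (h1 : Rl r φ σ x) :
    Rl r φ τ x⁻¹ := by
  intro i
  obtain ⟨j, rfl⟩ := x.right.surjective i
  have h3 : x⁻¹.right (x.right j) = j := by simp
  refine ⟨?_, fun z => ?_⟩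
  · rw [h3, ← (h1 j).1, hστ]
  · rw [h3, wr_inv_left]
    have h2 := (h1 j).2 (((x.left (x.right j) : Z ≃ₐ[RatFunc K] Z))⁻¹ z)
    have h4 : ((x.left (x.right j) : Z ≃ₐ[RatFunc K] Z))
        (((x.left (x.right j) : Z ≃ₐ[RatFunc K] Z))⁻¹ z) = z := by
      change (((x.left (x.right j) : Z ≃ₐ[RatFunc K] Z)) *
        ((x.left (x.right j) : Z ≃ₐ[RatFunc K] Z))⁻¹) z = z
      rw [mul_inv_cancel]
      rfl
    rw [h4] at h2
    rw [← h2, hστ]
    rfl

theorem Rl.one : Rl r φ (fun a : N => a) (1 : Wr P n) := fun _ => ⟨rfl, fun _ => rfl⟩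

end rl


end Pool.Agent.Y793
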