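import Mathlib
import Pool.Agent.H84.L.A3_N70_AW_Rl
import Pool.Agent.H84.L.A3_N70_AW_Sa
import Pool.Agent.H84.L.A3_N70_AW_Sc
import Pool.Agent.H84.L.A3_N70_AW_Sd
import Pool.Agent.H84.L.A3_N70_AW_Stm
import Pool.Agent.H84.L.A3_N70_EP_Se
import Pool.Agent.H84.L.A3_N70_EP_Stm
import Pool.Agent.H84.L.S8_H391R2_T4_Nod
import Pool.Agent.H84.L.S8_H391R2_T4_Sem
import Pool.Agent.H84.L.S8_TH15_IGP_TwB
import Pool.Agent.H84.L.S8_TH444_TW_RS
import Pool.Agent.H84.L.S8_TH444_TW_RSK
import Pool.Agent.H84.L.S8_W200_IG_Fam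
import Pool.Agent.H84.L.S8_W200_IG_HF
import Pool.Agent.H84.L.S8_W200_IJ_SA
import Pool.Agent.H84.L.S8_Y793_Fam
import Pool.Agent.H84.L.S8_Y793_Fo
import Pool.Agent.H84.L.S8_Y793_Gr
import Pool.Agent.H84.L.S8_Y793_Rel
import Pool.Agent.H84.L.S8_Y793_Sb
import Pool.Agent.H84.L.S8_Y793_Se
import Pool.Agent.H84.L.S8_Y793_Stm
import Pool.Agent.H84.L.S8_Y793_TrD

namespace Pool.Agent.H391R2
end Pool.Agent.H391R2
namespace Pool.Agent.H391R2.T4
end Pool.Agent.H391R2.T4
namespace Pool.Agent.N70.EP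
end Pool.Agent.N70.EP
namespace Pool.Agent.Y793
end Pool.Agent.Y793


/-!
The roots of the determinant.
-/

set_option autoImplicit false
set_option linter.unusedSectionVars false
set_option linter.unusedSimpArgs false

namespace Pool.Agent.N70.AW.EPc

open Polynomial Pool.Agent.H391R2 Pool.Agent.H391R2.T4
open Pool.Agent.N70.EP (Dt0)
open Pool.Agent.Y793 (cl sub_cl cl_closed cl_le derivative_adr St_gen St_iso tz mem_span_top
  le_trdeg_cl lin_all basis_top)

section cg

variable {K Z N : Type} [Field K] [Field Z] [Algebra (RatFunc K) Z] [Algebra K Z]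
  [IsScalarTower K (RatFunc K) Z] [Field N] [Algebra K N]

/- The composition of an embedding with an automorphism. -/
noncomputable def cg (φ : Z →ₐ[K] N) (γ : Z ≃ₐ[RatFunc K] Z) : Z →ₐ[K] N :=
  φ.comp ((γ : Z →ₐ[RatFunc K] Z).restrictScalars K)

theorem cg_apply (φ : Z →ₐ[K] N) (γ : Z ≃ₐ[RatFunc K] Z) (z : Z) : cg φ γ z = φ (γ z) := rfl

theorem cg_tv (φ : Z →ₐ[K] N) (γ : Z ≃ₐ[RatFunc K] Z) : cg φ γ (tv K Z) = φ (tv K Z) := by
  rw [cg_apply]
  unfold tv pz
  rw [γ.commutes]

end cg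

section pts

variable {K Z N ι : Type} [Field K] [CharZero K] [Field Z] [Algebra (RatFunc K) Z] [Algebra K Z]
  [IsScalarTower K (RatFunc K) Z] [Fintype ι] [Field N] [Algebra K N]
  {P : Subgroup (Z ≃ₐ[RatFunc K] Z)} {m k d : ℕ} {κ : Option ι → K[X]} {v : Option ι → Z}
  {x : Option ι → Option ι → Z} {e es : Fin m → Z} {S : Matrix (Fin m) (Fin m) K[X]}
  {M L : Option ι → Option ι → Matrix (Fin m) (Fin m) K[X]}
  (D : Dt0 P m k d κ v x e es S M L) (φ : Z →ₐ[K] N) (c : Option ι → N) (T : N)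
  (g : Fin m → (Z ≃ₐ[RatFunc K] Z))
  (hg : Function.Injective (fun t => (g t : (Z ≃ₐ[RatFunc K] Z) ⧸ P)))

include D hg

theorem dual (t t' : Fin m) : ∑ l, cg φ (g t) (e l) * cg φ (g t') (es l) =
    (1 : Matrix (Fin m) (Fin m) N) t t' := by
  by_cases h : t = t'
  · subst h
    rw [Matrix.one_apply_eq]
    exact dual1' D (cg φ (g t))
  · rw [Matrix.one_apply_ne h]
    have h1 : (g t)⁻¹ * g t' ∉ P := by
      intro h2
      exact h (hg (QuotientGroup.eq.2 h2))
    have h2 := congrArg (cg φ (g t)) (D.dual0 _ h1)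
    rw [map_zero, map_sum] at h2
    rw [← h2]
    refine Finset.sum_congr rfl fun l _ => ?_
    rw [map_mul]
    congr 1
    rw [cg_apply, cg_apply]
    congr 1
    change g t' (es l) = (g t * ((g t)⁻¹ * g t')) (es l)
    rw [mul_inv_cancel_left]

theorem UV : (Matrix.of fun t l => cg φ (g t) (e l)) * (Matrix.of fun l t => cg φ (g t) (es l)) =
    (1 : Matrix (Fin m) (Fin m) N) := by
  funext t t'
  rw [Matrix.mul_apply]
  exact dual D φ g hg t t'

theorem det_ev : (PM κ M c T).det.eval (φ (tv K Z)) = ∏ t, (T - FF κ x c (cg φ (g t))) := by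
  have h1 := UV D φ g hg
  set U : Matrix (Fin m) (Fin m) N := Matrix.of fun t l => cg φ (g t) (e l) with hU
  have h2 : U * ((PM κ M c T).map (eval (φ (tv K Z)))) =
      Matrix.diagonal (fun t => T - FF κ x c (cg φ (g t))) * U := by
    funext t l'
    rw [Matrix.mul_apply, Matrix.diagonal_mul]
    have h3 := row D (cg φ (g t)) c T l'
    rw [cg_tv] at h3
    exact h3
  have h3 := congrArg Matrix.det h2
  rw [Matrix.det_mul, Matrix.det_mul, Matrix.det_diagonal, mul_comm] at h3
  have h4 : U.det ≠ 0 := by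
    intro h5
    have h6 := congrArg Matrix.det h1
    rw [Matrix.det_mul, h5, zero_mul, Matrix.det_one] at h6
    exact zero_ne_one h6
  have h5 := mul_right_cancel₀ h4 h3
  rw [← h5]
  have h6 := (evalRingHom (φ (tv K Z))).map_det (PM κ M c T)
  rw [coe_evalRingHom] at h6
  rw [h6]
  rfl

theorem der_det_ev (t₀ : Fin m) (h0 : FF κ x c (cg φ (g t₀)) = T) :
    (derivative (PM κ M c T).det).eval (φ (tv K Z)) =
      (∏ t ∈ Finset.univ.erase t₀, (T - FF κ x c (cg φ (g t)))) *
        -(∑ j, c j * φ (g t₀ (v j))) ^ 2 := by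
  have h1 := UV D φ g hg
  set U : Matrix (Fin m) (Fin m) N := Matrix.of fun t l => cg φ (g t) (e l) with hU
  set V : Matrix (Fin m) (Fin m) N := Matrix.of fun l t => cg φ (g t) (es l) with hV
  let Q : Matrix (Fin m) (Fin m) N[X] := U.map C * PM κ M c T * V.map C
  have hQ : Q.det = (PM κ M c T).det := by
    have h2 : (U.map C).det * (V.map (C : N →+* N[X])).det = 1 := by
      have h3 := congrArg Matrix.det h1
      rw [Matrix.det_mul, Matrix.det_one] at h3
      have h4 := (C : N →+* N[X]).map_det U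
      have h5 := (C : N →+* N[X]).map_det V
      rw [RingHom.mapMatrix_apply] at h4 h5
      rw [← h4, ← h5, ← map_mul, h3, map_one]
    change (U.map C * PM κ M c T * V.map C).det = _
    rw [Matrix.det_mul, Matrix.det_mul]
    linear_combination (PM κ M c T).det * h2
  have hQa : ∀ t t', Q t t' = ∑ l', ∑ l, C (U t l) * PM κ M c T l l' * C (V l' t') := by
    intro t t'
    change (U.map C * PM κ M c T * V.map C) t t' = _
    rw [Matrix.mul_apply]
    refine Finset.sum_congr rfl fun l' _ => ?_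
    rw [Matrix.mul_apply, Finset.sum_mul]
    rfl
  have h2 := der_det Q (φ (tv K Z)) (fun t => T - FF κ x c (cg φ (g t))) (fun t t' => by
    rw [hQa, eval_finsetSum]
    have h3 : ∀ l', (∑ l, C (U t l) * PM κ M c T l l' * C (V l' t')).eval (φ (tv K Z)) =
        (T - FF κ x c (cg φ (g t))) * (U t l' * V l' t') := by
      intro l'
      rw [eval_finsetSum]
      simp only [eval_mul, eval_C]
      rw [← Finset.sum_mul]
      have h3 := row D (cg φ (g t)) c T l'
      rw [cg_tv] at h3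
      change (∑ l, cg φ (g t) (e l) * (PM κ M c T l l').eval (φ (tv K Z))) * V l' t' = _
      rw [h3, mul_assoc]
      rfl
    simp only [h3]
    rw [← Finset.mul_sum]
    have h4 : ∑ l', U t l' * V l' t' = (1 : Matrix (Fin m) (Fin m) N) t t' := by
      rw [← h1, Matrix.mul_apply]
    rw [h4]
    by_cases ht : t = t'
    · subst ht
      rw [Matrix.one_apply_eq, Matrix.diagonal_apply_eq, mul_one]
    · rw [Matrix.one_apply_ne ht, Matrix.diagonal_apply_ne _ ht, mul_zero]) t₀
    (by rw [h0, sub_self])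
  rw [← hQ, h2]
  congr 1
  have h3 := der' D (cg φ (g t₀)) c T
  rw [cg_tv] at h3
  change _ = -(∑ j, c j * cg φ (g t₀) (v j)) ^ 2
  rw [← h3, hQa, derivative_sum, eval_finsetSum, Finset.sum_comm]
  refine Finset.sum_congr rfl fun l' _ => ?_
  rw [derivative_sum, eval_finsetSum]
  refine Finset.sum_congr rfl fun l _ => ?_
  rw [derivative_mul, derivative_C, mul_zero, add_zero, derivative_mul, derivative_C, zero_mul,
    zero_add, eval_mul, eval_mul, eval_C, eval_C]
  rfl

end pts

section sols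

variable {K Z N ι : Type} [Field K] [CharZero K] [Field Z] [Algebra (RatFunc K) Z] [Algebra K Z]
  [IsScalarTower K (RatFunc K) Z] [FiniteDimensional (RatFunc K) Z] [IsGalois (RatFunc K) Z]
  [Fintype ι] [Field N] [Algebra K N] [IsAlgClosed N]
  {P : Subgroup (Z ≃ₐ[RatFunc K] Z)} {m k d : ℕ} {κ : Option ι → K[X]} {v : Option ι → Z}
  {x : Option ι → Option ι → Z} {e es : Fin m → Z} {S : Matrix (Fin m) (Fin m) K[X]}
  {M L : Option ι → Option ι → Matrix (Fin m) (Fin m) K[X]}
  (D : Dt0 P m k d κ v x e es S M L)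
  {k₀ : Type} [Field k₀] [Algebra K k₀] [Algebra k₀ N] [IsScalarTower K k₀ N]

include D

theorem _root_.Pool.Agent.N70.EP.Dt0.fm : Fm κ k := ⟨D.lin, fun i => D.kdeg _, D.card⟩

theorem lpt_of {φ : Z →ₐ[K] N} {c : Option ι → N} {T : N} (h : FF κ x c φ = T) :
    LPt κ k₀ x c T φ :=
  ⟨h, fun i j => by rw [D.symx], fun i j => by rw [D.zero, map_zero], fun i j =>
    emb_mem φ _ (fun _ hx => cl_closed hx)
      (sub_cl (Set.range fun _ : Unit => φ (tv K Z)) ⟨(), rfl⟩) _⟩

variable (η : Ix ι → N) (hη : IsTranscendenceBasis k₀ η)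

include hη

/- A root of the determinant is not algebraic over the parameters `c`. -/
theorem root_not_mem {r : N}
    (hr : (PM κ M (fun i => η (Sum.inl i)) (η (Sum.inr ()))).det.eval r = 0) :
    r ∉ cl k₀ (Set.range fun i => η (Sum.inl i)) := by
  intro hmem
  set F := cl k₀ (Set.range fun i => η (Sum.inl i)) with hF
  have hcl : ∀ x, IsAlgebraic F x → x ∈ F := fun x hx => cl_closed hx
  have hc : ∀ i, η (Sum.inl i) ∈ F := fun i => sub_cl _ ⟨i, rfl⟩
  have hK : ∀ a : K, algebraMap K N a ∈ F := by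
    intro a
    rw [IsScalarTower.algebraMap_apply K k₀ N]
    exact F.algebraMap_mem _
  -- the matrix `B` with entries in `F`
  let c' : Option ι → F := fun i => ⟨η (Sum.inl i), hc i⟩
  let r' : F := ⟨r, hmem⟩
  let B : Matrix (Fin m) (Fin m) F := fun l l' =>
    (AA κ c').eval r' * (1 : Matrix (Fin m) (Fin m) F) l l' + (MM M c' l l').eval r'
  have hB : (PM κ M (fun i => η (Sum.inl i)) (η (Sum.inr ()))).det.eval r =
      (B.charpoly.map (algebraMap F N)).eval (η (Sum.inr ())) := by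
    have h6 := (evalRingHom r).map_det (PM κ M (fun i => η (Sum.inl i)) (η (Sum.inr ())))
    rw [coe_evalRingHom] at h6
    rw [h6, ← Matrix.charpoly_map, Matrix.eval_charpoly]
    congr 1
    funext l l'
    rw [RingHom.mapMatrix_apply, Matrix.map_apply, coe_evalRingHom, PM_apply, eval_sub, eval_mul,
      eval_sub, eval_C, Matrix.sub_apply, Matrix.map_apply]
    have h7 : algebraMap F N (B l l') = (AA κ (fun i => η (Sum.inl i))).eval r *
        (1 : Matrix (Fin m) (Fin m) N) l l' + (MM M (fun i => η (Sum.inl i)) l l').eval r := by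
      have h8 : ∀ p : F[X], algebraMap F N (p.eval r') = (p.map (algebraMap F N)).eval r := by
        intro p
        exact (eval_map_apply (f := algebraMap F N) (p := p) (x := r')).symm
      have h9 : (algebraMap F N) = ((F.val.restrictScalars K : F →ₐ[K] N) : F →+* N) := rfl
      change algebraMap F N ((AA κ c').eval r' * (1 : Matrix (Fin m) (Fin m) F) l l' +
        (MM M c' l l').eval r') = _
      rw [map_add, map_mul, h8, h8, h9, AA_map, MM_map]
      congr 2
      by_cases h : l = l'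
      · subst h
        simp
      · simp [Matrix.one_apply_ne h]
    rw [h7]
    by_cases h : l = l'
    · subst h
      simp
      ring
    · simp [Matrix.one_apply_ne h, h]
  rw [hB] at hr
  have hT : η (Sum.inr ()) ∈ F := by
    refine hcl _ ⟨B.charpoly, B.charpoly_monic.ne_zero, ?_⟩
    rw [eval_map_algebraMap] at hr
    exact hr
  -- contradiction
  have h1 := le_trdeg_cl η hη (fun i => η (Sum.inl i)) 1 (by
    rw [card_Ix η hη]
    simp [Nat.card_eq_fintype_card]
    omega)
  have h2 : Algebra.IsAlgebraic (cl k₀ (Set.range fun i => η (Sum.inl i))) N := by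
    refine ⟨fun y => ?_⟩
    have h3 : y ∈ cl k₀ (Set.range fun i => η (Sum.inl i)) := by
      refine basis_top η hη _ (fun z => IntermediateField.algebraMap_mem _ z) (fun j => ?_) hcl y
      rcases j with j | j
      · exact hc j
      · exact hT
    exact isAlgebraic_algebraMap (⟨y, h3⟩ : cl k₀ (Set.range fun i => η (Sum.inl i)))
  have h4 : Algebra.trdeg (cl k₀ (Set.range fun i => η (Sum.inl i))) N = 0 :=
    _root_.trdeg_eq_zero
  rw [h4] at h1
  simp at h1

/- Every root is a labelled point. -/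
theorem root_lpt (g : Fin m → (Z ≃ₐ[RatFunc K] Z))
    (hg : Function.Injective (fun t => (g t : (Z ≃ₐ[RatFunc K] Z) ⧸ P))) {r : N}
    (hr : (PM κ M (fun i => η (Sum.inl i)) (η (Sum.inr ()))).det.eval r = 0) :
    ∃ φ : Z →ₐ[K] N, φ (tv K Z) = r ∧
      LPt κ k₀ x (fun i => η (Sum.inl i)) (η (Sum.inr ())) φ := by
  have htr : Transcendental K r := by
    intro h1
    exact root_not_mem D η hη hr (cl_closed ((h1.tower_top k₀).tower_top _))
  obtain ⟨w, hw⟩ := IsAlgClosed.exists_pow_nat_eq r (n := 2) (by norm_num)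
  have hw' : Transcendental K w := by
    intro h1
    apply htr
    rw [← hw]
    exact h1.pow 2
  obtain ⟨φ, hφ⟩ := Y793.exists_emb (Z := Z) (0 : K) w hw'
  have hφ2 : φ (tv K Z) = r := by
    rw [← hw, hφ]
    congr 1
    unfold tv pz tz
    rw [RatFunc.algebraMap_X, map_zero, sub_zero]
  rw [← hφ2, det_ev D φ _ _ g hg] at hr
  obtain ⟨t, -, ht⟩ := Finset.prod_eq_zero_iff.1 hr
  refine ⟨cg φ (g t), by rw [cg_tv, hφ2], lpt_of D (sub_eq_zero.1 ht).symm⟩

/- Two labelled points with the same coordinate. -/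
theorem lpt_gal (hgen : St_gen) (hiso : St_iso) {φ φ' : Z →ₐ[K] N}
    (l : LPt κ k₀ x (fun i => η (Sum.inl i)) (η (Sum.inr ())) φ)
    (l' : LPt κ k₀ x (fun i => η (Sum.inl i)) (η (Sum.inr ())) φ')
    (h : φ (tv K Z) = φ' (tv K Z)) : ∃ γ ∈ P, ∀ z, φ' z = φ (γ z) := by
  obtain ⟨γ, hγ⟩ := comp_gal φ φ' h
  refine ⟨γ, ?_, hγ⟩
  obtain ⟨-, h1⟩ := sep η hη D.fm hgen hiso l l' (by
    rw [← h]
    exact sub_cl _ ⟨(), rfl⟩)
  refine D.stab γ fun i => ?_
  apply φ.injective
  change φ (γ (x (some i) none)) = φ (x (some i) none)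
  rw [← hγ, D.symx, ← h1 i]

/- The linear form does not vanish. -/
theorem s_ne (hgen : St_gen) {φ : Z →ₐ[K] N}
    (l : LPt κ k₀ x (fun i => η (Sum.inl i)) (η (Sum.inr ())) φ) :
    ∑ j, η (Sum.inl j) * φ (v j) ≠ 0 := by
  classical
  intro h0
  set w := φ (tv K Z) with hwdef
  set F := cl k₀ (Set.range fun _ : Unit => w) with hF
  have hcl : ∀ x, IsAlgebraic F x → x ∈ F := fun x hx => cl_closed hx
  have hw : w ∈ F := sub_cl _ ⟨(), rfl⟩
  have hmem : ∀ z, φ z ∈ F := emb_mem φ F hcl hw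
  have hX := l.X_mem F hcl hw
  have halg := alg_over η hη F hw hX l
  have htr : (Module.finrank F (⊤ : Submodule F (Option ι → F)) : Cardinal) ≤
      Algebra.trdeg F N := by
    rw [finrank_top, Module.finrank_fintype_fun_eq_card, Fintype.card_option]
    refine le_trdeg_cl η hη (fun _ : Unit => w) _ ?_
    rw [card_Ix η hη]
    simp
  let L₁ : (Option ι → F) →ₗ[F] F :=
    { toFun := fun c => ∑ j, c j * ⟨φ (v j), hmem _⟩
      map_add' := fun a b => by
        rw [← Finset.sum_add_distrib]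
        exact Finset.sum_congr rfl fun j _ => by rw [Pi.add_apply, add_mul]
      map_smul' := fun a b => by
        rw [smul_eq_mul, Finset.mul_sum]
        exact Finset.sum_congr rfl fun j _ => by
          rw [Pi.smul_apply, smul_eq_mul, RingHom.id_apply, mul_assoc] }
  let L₂ : (Option ι → N) →ₗ[N] N :=
    { toFun := fun c => ∑ j, c j * φ (v j)
      map_add' := fun a b => by
        rw [← Finset.sum_add_distrib]
        exact Finset.sum_congr rfl fun j _ => by rw [Pi.add_apply, add_mul]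
      map_smul' := fun a b => by
        rw [smul_eq_mul, Finset.mul_sum]
        exact Finset.sum_congr rfl fun j _ => by
          rw [Pi.smul_apply, smul_eq_mul, RingHom.id_apply, mul_assoc] }
  have hL : ∀ c : Option ι → F, L₂ (fun i => algebraMap F N (c i)) = algebraMap F N (L₁ c) := by
    intro c
    change ∑ j, algebraMap F N (c j) * φ (v j) =
      algebraMap F N (∑ j, c j * (⟨φ (v j), hmem _⟩ : F))
    rw [map_sum]
    refine Finset.sum_congr rfl fun j _ => ?_
    rw [map_mul]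
    rfl
  have hall := lin_all hgen (fun i => η (Sum.inl i)) halg ⊤ (mem_span_top _) htr L₁ L₂ hL h0
  obtain ⟨i⟩ : Nonempty ι := Fintype.card_pos_iff.1 D.fm.pos
  have h1 := hall (Pi.single (some i) 1) trivial
  have h2 : φ (v (some i)) = 0 := by
    change ∑ j, (Pi.single (some i) (1 : F) : Option ι → F) j * (⟨φ (v j), hmem _⟩ : F) = 0 at h1
    rw [Finset.sum_eq_single (some i), Pi.single_eq_same, one_mul] at h1
    · exact congrArg Subtype.val h1
    · intro b _ hb
      rw [Pi.single_eq_of_ne hb, zero_mul]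
    · intro h
      exact absurd (Finset.mem_univ _) h
  rw [D.v_some] at h2
  have h3 : (pz Z (κ (some i)) : Z) = 0 := φ.injective (by
    change φ (pz Z (κ (some i))) = φ 0
    rw [h2, map_zero])
  unfold pz at h3
  have h4 : algebraMap K[X] (RatFunc K) (κ (some i)) = 0 := by
    apply (algebraMap (RatFunc K) Z).injective
    rw [h3, map_zero]
  exact D.lin.ne_zero i (RatFunc.algebraMap_injective K (by rw [h4, map_zero]))

/- The roots are simple. -/
theorem der_ne (hgen : St_gen) (hiso : St_iso) (g : Fin m → (Z ≃ₐ[RatFunc K] Z))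
    (hg : Function.Injective (fun t => (g t : (Z ≃ₐ[RatFunc K] Z) ⧸ P))) {r : N}
    (hr : (PM κ M (fun i => η (Sum.inl i)) (η (Sum.inr ()))).det.eval r = 0) :
    (derivative (PM κ M (fun i => η (Sum.inl i)) (η (Sum.inr ()))).det).eval r ≠ 0 := by
  obtain ⟨φ, rfl, l⟩ := root_lpt (k₀ := k₀) D η hη g hg hr
  have hr2 := hr
  rw [det_ev D φ _ _ g hg] at hr2
  obtain ⟨t₀, -, ht₀⟩ := Finset.prod_eq_zero_iff.1 hr2
  have l₀ : LPt κ k₀ x (fun i => η (Sum.inl i)) (η (Sum.inr ())) (cg φ (g t₀)) :=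
    lpt_of D (sub_eq_zero.1 ht₀).symm
  rw [der_det_ev D φ _ _ g hg t₀ (sub_eq_zero.1 ht₀).symm]
  refine mul_ne_zero ?_ (neg_ne_zero.2 (pow_ne_zero 2 (s_ne D η hη hgen l₀)))
  rw [Finset.prod_ne_zero_iff]
  intro t ht h1
  have l₁ : LPt κ k₀ x (fun i => η (Sum.inl i)) (η (Sum.inr ())) (cg φ (g t)) :=
    lpt_of D (sub_eq_zero.1 h1).symm
  obtain ⟨γ, hγ, h2⟩ := lpt_gal D η hη hgen hiso l₀ l₁ (by rw [cg_tv, cg_tv])
  have h3 : g t = g t₀ * γ := by
    apply AlgEquiv.ext
    intro z
    apply φ.injective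
    exact h2 z
  apply Finset.ne_of_mem_erase ht
  apply hg
  change (g t : (Z ≃ₐ[RatFunc K] Z) ⧸ P) = g t₀
  rw [h3]
  exact QuotientGroup.mk_mul_of_mem _ hγ

end sols

end Pool.Agent.N70.AW.EPc
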