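import Mathlib



set_option autoImplicit false
set_option linter.unusedSectionVars false
set_option linter.unusedSimpArgs false

namespace Pool.Agent.Y793

open Polynomial

section fac

variable {F : Type} [Field F] [IsAlgClosed F]


theorem fac_simple (f : F[X]) (hf : f ≠ 0) (n : ℕ) (hn : f.natDegree = n)
    (hs : ∀ x, f.eval x = 0 → (derivative f).eval x ≠ 0) :
    ∃ (a : Fin n → F), Function.Injective a ∧ f = C f.leadingCoeff * ∏ i, (X - C (a i)) := by
  classical
  have h1 : C f.leadingCoeff * (f.roots.map fun a => X - C a).prod = f :=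
    C_leadingCoeff_mul_prod_multiset_X_sub_C IsAlgClosed.card_roots_eq_natDegree
  have hnd : f.roots.Nodup := by
    rw [Multiset.nodup_iff_count_le_one]
    intro x
    rw [count_roots]
    by_contra hcon
    have h4 : 1 < f.rootMultiplicity x := by omega
    have h5 := (one_lt_rootMultiplicity_iff_isRoot hf).1 h4
    exact hs x h5.1 h5.2
  let s : Finset F := ⟨f.roots, hnd⟩
  have hs : s.card = n := by
    rw [← hn, ← IsAlgClosed.card_roots_eq_natDegree (p := f)]
    rfl
  let ε := (s.equivFinOfCardEq hs).symm
  refine ⟨fun i => (ε i : F), fun i j hij => ε.injective (Subtype.ext hij), ?_⟩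
  have h3 : ∏ i, (X - C ((ε i : F))) = ∏ a ∈ s, (X - C a) := by
    rw [Equiv.prod_comp ε (fun a : s => X - C (a : F))]
    exact Finset.prod_coe_sort s (fun a => X - C a)
  rw [h3]
  exact h1.symm


end fac

end Pool.Agent.Y793
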