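import Mathlib
import Pool.Agent.H84.L.A3_N70_AW_Fa
import Pool.Agent.H84.L.A3_N70_AW_Sa
import Pool.Agent.H84.L.A3_N70_AW_Sc
import Pool.Agent.H84.L.A3_N70_AW_Sd
import Pool.Agent.H84.L.A3_N70_AW_Stm
import Pool.Agent.H84.L.A3_N70_EP_Even
import Pool.Agent.H84.L.A3_N70_EP_Se
import Pool.Agent.H84.L.A3_N70_EP_Sf
import Pool.Agent.H84.L.A3_N70_EP_Stm
import Pool.Agent.H84.L.S8_H391R2_T4_Nod
import Pool.Agent.H84.L.S8_H391R2_T4_Sem
import Pool.Agent.H84.L.S8_H391R2_WrGrp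
import Pool.Agent.H84.L.S8_TH15_IGP_TwB
import Pool.Agent.H84.L.S8_TH444_TW_RS
import Pool.Agent.H84.L.S8_TH444_TW_RSK
import Pool.Agent.H84.L.S8_W200_IG_Fam
import Pool.Agent.H84.L.S8_W200_IG_HF
import Pool.Agent.H84.L.S8_W200_IJ_SA
import Pool.Agent.H84.L.S8_Y793_Fac
import Pool.Agent.H84.L.S8_Y793_Gr
import Pool.Agent.H84.L.S8_Y793_Sb
import Pool.Agent.H84.L.S8_Y793_Se
import Pool.Agent.H84.L.S8_Y793_Stm
import Pool.Agent.H84.L.S8_Y793_TrD

namespace Pool.Agent.H391R2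
end Pool.Agent.H391R2
namespace Pool.Agent.H391R2.T4
end Pool.Agent.H391R2.T4
namespace Pool.Agent.N70.EP
end Pool.Agent.N70.EP
namespace Pool.Agent.Y793
end Pool.Agent.Y793


/-!
The action on the solutions.
-/

set_option autoImplicit false
set_option linter.unusedSectionVars false
set_option linter.unusedSimpArgs false

namespace Pool.Agent.N70.AW.EPc

open Polynomial Pool.Agent.H391R2 Pool.Agent.H391R2.T4
open Pool.Agent.N70.EP (Dt0 evenT)
open Pool.Agent.Y793 (cl sub_cl cl_closed cl_le St_gen St_iso St_ext tz fac_simple Rl AWr)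

section tn

variable {ι k₀ N : Type} [Fintype ι] [Field k₀] [Field N] [Algebra k₀ N]

/- The last parameter is not algebraic over the others. -/
theorem T_not_mem (η : Ix ι → N) (hη : IsTranscendenceBasis k₀ η) :
    η (Sum.inr ()) ∉ cl k₀ (Set.range fun i => η (Sum.inl i)) := by
  intro hT
  have hc : ∀ i, η (Sum.inl i) ∈ cl k₀ (Set.range fun i => η (Sum.inl i)) :=
    fun i => sub_cl _ ⟨i, rfl⟩
  have h1 := Y793.le_trdeg_cl η hη (fun i => η (Sum.inl i)) 1 (by
    simp [Nat.card_eq_fintype_card]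
    omega)
  have h2 : Algebra.IsAlgebraic (cl k₀ (Set.range fun i => η (Sum.inl i))) N := by
    refine ⟨fun y => ?_⟩
    have h3 : y ∈ cl k₀ (Set.range fun i => η (Sum.inl i)) := by
      refine Y793.basis_top η hη _ (fun z => IntermediateField.algebraMap_mem _ z) (fun j => ?_)
        (fun x hx => cl_closed hx) y
      rcases j with j | j
      · exact hc j
      · exact hT
    exact isAlgebraic_algebraMap (⟨y, h3⟩ : cl k₀ (Set.range fun i => η (Sum.inl i)))
  have h4 : Algebra.trdeg (cl k₀ (Set.range fun i => η (Sum.inl i))) N = 0 :=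
    _root_.trdeg_eq_zero
  rw [h4] at h1
  simp at h1

end tn

section fml

variable {K Z N ι : Type} [Field K] [CharZero K] [Field Z] [Algebra (RatFunc K) Z] [Algebra K Z]
  [IsScalarTower K (RatFunc K) Z] [Fintype ι] [Field N] [Algebra K N]

theorem FF_map (κ : Option ι → K[X]) (x : Option ι → Option ι → Z) (c : Option ι → N)
    (φ : Z →ₐ[K] N) (σ : N →ₐ[K] N) :
    σ (FF κ x c φ) = FF κ x (fun i => σ (c i)) (σ.comp φ) := by
  unfold FF
  rw [BF_map]
  rfl

end fml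

section sols

variable {K Z N ι : Type} [Field K] [CharZero K] [Field Z] [Algebra (RatFunc K) Z] [Algebra K Z]
  [IsScalarTower K (RatFunc K) Z] [FiniteDimensional (RatFunc K) Z] [IsGalois (RatFunc K) Z]
  [Fintype ι] [Field N] [Algebra K N] [IsAlgClosed N]
  {P : Subgroup (Z ≃ₐ[RatFunc K] Z)} {m k d : ℕ} {κ : Option ι → K[X]} {v : Option ι → Z}
  {x : Option ι → Option ι → Z} {e es : Fin m → Z} {S : Matrix (Fin m) (Fin m) K[X]}
  {M L : Option ι → Option ι → Matrix (Fin m) (Fin m) K[X]}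
  (D : Dt0 P m k d κ v x e es S M L)
  {k₀ : Type} [Field k₀] [Algebra K k₀] [Algebra k₀ N] [IsScalarTower K k₀ N]
  (η : Ix ι → N) (hη : IsTranscendenceBasis k₀ η)

/- The labelled solutions. -/
structure Sy (κ : Option ι → K[X]) (x : Option ι → Option ι → Z)
    (M : Option ι → Option ι → Matrix (Fin m) (Fin m) K[X]) (k₀ : Type) [Field k₀]
    [Algebra k₀ N] (c : Option ι → N) (T : N) (n : ℕ) (r : Fin n → N)
    (φ : Fin n → (Z →ₐ[K] N)) : Prop where
  inj : Function.Injective r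
  val : ∀ i, φ i (tv K Z) = r i
  lp : ∀ i, LPt κ k₀ x c T (φ i)
  root : ∀ i, (PM κ M c T).det.eval (r i) = 0
  all : ∀ y : N, (PM κ M c T).det.eval y = 0 → ∃ i, y = r i

include D hη

theorem AAne : (AA κ (fun i => η (Sum.inl i))).coeff (2 * k + 1) ≠ 0 := by
  refine AA_ne (k₀ := k₀) D.kdeg ?_ _ (hη.1.comp Sum.inl Sum.inl_injective)
  obtain ⟨i, hi⟩ := D.ktop
  refine ⟨some i, ?_⟩
  rw [← hi]
  exact leadingCoeff_ne_zero.2 (D.lin.ne_zero i)

theorem deg_ne : (PM κ M (fun i => η (Sum.inl i)) (η (Sum.inr ()))).det.natDegree =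
    m * (2 * k + 1) ∧ (PM κ M (fun i => η (Sum.inl i)) (η (Sum.inr ()))).det ≠ 0 :=
  PM_deg' κ M D.kdeg D.deg D.dk (fun i => η (Sum.inl i)) (η (Sum.inr ())) (AAne D η hη)

theorem exists_sy (hgen : St_gen) (hiso : St_iso) (g : Fin m → (Z ≃ₐ[RatFunc K] Z))
    (hg : Function.Injective (fun t => (g t : (Z ≃ₐ[RatFunc K] Z) ⧸ P))) :
    ∃ (r : Fin (m * (2 * k + 1)) → N) (φ : Fin (m * (2 * k + 1)) → (Z →ₐ[K] N)),
      Sy κ x M k₀ (fun i => η (Sum.inl i)) (η (Sum.inr ())) _ r φ := by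
  obtain ⟨hd, hne⟩ := deg_ne D η hη
  obtain ⟨r, hr, hp⟩ := fac_simple _ hne _ hd (fun y hy => der_ne D η hη hgen hiso g hg hy)
  have hroot : ∀ i, (PM κ M (fun i => η (Sum.inl i)) (η (Sum.inr ()))).det.eval (r i) = 0 := by
    intro i
    rw [hp, eval_mul, eval_prod]
    apply mul_eq_zero_of_right
    exact Finset.prod_eq_zero (Finset.mem_univ i) (by simp)
  have hex := fun i => root_lpt (k₀ := k₀) D η hη g hg (hroot i)
  choose φ h1 h2 using hex
  refine ⟨r, φ, hr, h1, h2, hroot, fun y hy => ?_⟩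
  rw [hp, eval_mul, eval_prod, eval_C] at hy
  have h3 := (mul_eq_zero.1 hy).resolve_left (leadingCoeff_ne_zero.2 hne)
  obtain ⟨j, -, hj⟩ := Finset.prod_eq_zero_iff.1 h3
  exact ⟨j, by simpa [sub_eq_zero] using hj⟩

theorem exists_x0 (hgen : St_gen) (hiso : St_iso) {n : ℕ} {r : Fin n → N}
    {φ : Fin n → (Z →ₐ[K] N)}
    (Y : Sy κ x M k₀ (fun i => η (Sum.inl i)) (η (Sum.inr ())) n r φ) (σ : N ≃ₐ[K] N)
    (hσ : ∀ i, σ (η i) = η i) : ∃ y : Wr P n, Rl r φ σ y := by
  have hstep : ∀ i, ∃ j, σ (r i) = r j ∧ ∃ γ : P,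
      ∀ z, σ (φ i z) = φ j ((γ : Z ≃ₐ[RatFunc K] Z) z) := by
    intro i
    have hF : FF κ x (fun i => η (Sum.inl i)) ((σ : N →ₐ[K] N).comp (φ i)) =
        η (Sum.inr ()) := by
      have h1 := FF_map κ x (fun i => η (Sum.inl i)) (φ i) (σ : N →ₐ[K] N)
      have h2 : FF κ x (fun i => η (Sum.inl i)) (φ i) = η (Sum.inr ()) := (Y.lp i).hT
      rw [h2] at h1
      have h3 : (fun i => (σ : N →ₐ[K] N) (η (Sum.inl i))) = fun i : Option ι => η (Sum.inl i) :=
        funext fun i => hσ _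
      rw [h3] at h1
      rw [← h1]
      exact hσ _
    have hroot : (PM κ M (fun i => η (Sum.inl i)) (η (Sum.inr ()))).det.eval (σ (r i)) = 0 := by
      have h1 := det_PM_map κ M (σ : N →ₐ[K] N) (fun i => η (Sum.inl i)) (η (Sum.inr ()))
      have h3 : (fun i => (σ : N →ₐ[K] N) (η (Sum.inl i))) = fun i : Option ι => η (Sum.inl i) :=
        funext fun i => hσ _
      have h4 : (σ : N →ₐ[K] N) (η (Sum.inr ())) = η (Sum.inr ()) := hσ _
      rw [h3, h4] at h1
      rw [← h1]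
      have h5 := eval_map_apply (f := ((σ : N →ₐ[K] N) : N →+* N))
        (p := (PM κ M (fun i => η (Sum.inl i)) (η (Sum.inr ()))).det) (x := r i)
      have h6 : ((σ : N →ₐ[K] N) : N →+* N) (r i) = σ (r i) := rfl
      rw [h6] at h5
      rw [h5, Y.root i, map_zero]
    obtain ⟨j, hj⟩ := Y.all _ hroot
    obtain ⟨γ, hγ, h2⟩ := lpt_gal D η hη hgen hiso (Y.lp j) (lpt_of D hF) (by
      rw [Y.val]
      change r j = σ (φ i (tv K Z))
      rw [Y.val, hj])
    exact ⟨j, hj, ⟨γ, hγ⟩, h2⟩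
  choose π hπ γ hγ using hstep
  have hπinj : Function.Injective π := by
    intro i j hij
    apply Y.inj
    apply σ.injective
    rw [hπ, hπ, hij]
  let π' : Equiv.Perm (Fin n) := Equiv.ofBijective π (Finite.injective_iff_bijective.1 hπinj)
  have hπ' : ∀ i, π' i = π i := fun i => rfl
  refine ⟨⟨fun j => γ (π'.symm j), π'⟩, fun i => ⟨hπ i, fun z => ?_⟩⟩
  change σ (φ i z) = φ (π i) ((γ (π'.symm (π' i)) : Z ≃ₐ[RatFunc K] Z) z)
  rw [Equiv.symm_apply_apply]
  exact hγ i z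

/- The sign of the action of the automorphisms on the points. -/
theorem exists_xT (hgen : St_gen) (hiso : St_iso) (hm : Even m) (hm0 : 0 < m)
    {q : K[X]} {δ : K} (hdet : S.det = C δ * q ^ 2) (hq : q ≠ 0) {ρ : N} (hρ0 : ρ ≠ 0)
    (hρ : ρ ^ 2 = algebraMap K N δ)
    {r : Fin (m * (2 * k + 1)) → N} {φ : Fin (m * (2 * k + 1)) → (Z →ₐ[K] N)}
    (Y : Sy κ x M k₀ (fun i => η (Sum.inl i)) (η (Sum.inr ())) _ r φ) (σ : N ≃ₐ[K] N)
    (hσ : ∀ i, σ (η i) = η i) (ε : ℤˣ) (hε : σ ρ = (((ε : ℤˣ) : ℤ) : N) * ρ) :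
    ∃ y : Wr P (m * (2 * k + 1)), Equiv.Perm.sign y.right = ε ∧ Rl r φ σ y := by
  have hcN : CharZero N := charZero_of_injective_algebraMap (algebraMap K N).injective
  obtain ⟨y, hy⟩ := exists_x0 D η hη hgen hiso Y σ hσ
  refine ⟨y, ?_, hy⟩
  have hc3 : (fun i => (σ : N →ₐ[K] N) (η (Sum.inl i))) = fun i : Option ι => η (Sum.inl i) :=
    funext fun i => hσ _
  have hKσ : ((σ : N →ₐ[K] N) : N →+* N).comp (algebraMap K N) = algebraMap K N :=
    (σ : N →ₐ[K] N).comp_algebraMap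
  have hP : ∀ (z : Z), (∀ γ ∈ P, γ z = z) → ∀ i, σ (φ i z) = φ (y.right i) z := by
    intro z hz i
    rw [(hy i).2, hz _ (y.left (y.right i)).2]
  have hLP : ∀ i, FF κ x (fun i => η (Sum.inl i)) (φ i) = η (Sum.inr ()) := fun i => (Y.lp i).hT
  refine evenT N σ.toRingEquiv m (2 * k + 1) (η (Sum.inr ())) (AA κ fun i => η (Sum.inl i))
    (C ρ * q.map (algebraMap K N)) (S.map (Polynomial.map (algebraMap K N)))
    (MM L fun i => η (Sum.inl i)) (PM κ M (fun i => η (Sum.inl i)) (η (Sum.inr ()))) r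
    (fun i l => φ i (e l)) (fun i l => φ i (es l))
    (fun i => ∑ j, η (Sum.inl j) * φ i (v j)) y.right ε hm hm0 (by omega) ⟨k, rfl⟩
    (AA_natDegree κ D.kdeg _ (AAne D η hη)) ?_ ?_ ?_ ?_ ?_ ?_ (hσ _) ?_ ?_ Y.inj ?_ ?_ ?_ ?_
    ?_ ?_ ?_ ?_
  · have h1 := (Polynomial.mapRingHom (algebraMap K N)).map_det S
    rw [coe_mapRingHom, hdet, Polynomial.map_mul, map_C, Polynomial.map_pow, ← hρ] at h1
    have h2 : (S.map (Polynomial.map (algebraMap K N))).det =
        ((Polynomial.mapRingHom (algebraMap K N)).mapMatrix S).det := rfl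
    rw [h2, ← h1, mul_pow, ← C_pow]
  · rw [← Matrix.transpose_map, D.symS]
  · funext l l'
    rw [Matrix.transpose_apply]
    unfold MM
    refine Finset.sum_congr rfl fun i _ => ?_
    refine Finset.sum_congr rfl fun j _ => ?_
    have h1 : L i j l' l = L i j l l' := by
      rw [← Matrix.transpose_apply (L i j) l l', D.symL]
    rw [h1]
  · intro l l'
    rw [← MM_fac M L S D.fac]
    exact lt_of_le_of_lt (MM_deg M D.deg _ l l') (by
      have := D.dk
      omega)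
  · -- coprime
    rw [isCoprime_iff_aeval_ne_zero_of_isAlgClosed N N]
    intro a
    by_contra hcon
    push Not at hcon
    obtain ⟨h1, h2⟩ := hcon
    rw [coe_aeval_eq_eval] at h1 h2
    have ha : IsAlgebraic K a := by
      refine ⟨q, hq, ?_⟩
      rw [← eval_map_algebraMap]
      rw [eval_mul, eval_C] at h2
      exact (mul_eq_zero.1 h2).resolve_left hρ0
    have hmem : a ∈ cl k₀ (Set.range fun i => η (Sum.inl i)) :=
      cl_closed ((ha.tower_top k₀).tower_top _)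
    apply T_not_mem η hη
    have h3 : η (Sum.inr ()) = (AA κ fun i => η (Sum.inl i)).eval a := by
      rw [eval_sub, eval_C] at h1
      linear_combination h1
    rw [h3]
    have h4 := BF_mem (κ := κ) (cl k₀ (Set.range fun i => η (Sum.inl i)))
      (fun i => η (Sum.inl i)) (fun i => η (Sum.inl i)) (fun i => sub_cl _ ⟨i, rfl⟩)
      (fun i => sub_cl _ ⟨i, rfl⟩) hmem (fun _ _ => 0) (fun _ _ => IntermediateField.zero_mem _)
    rw [BF_AA] at h4
    simpa using h4
  · unfold PM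
    rw [← MM_fac M L S D.fac]
  · have h1 := AA_map κ (σ : N →ₐ[K] N) (fun i => η (Sum.inl i))
    rw [hc3] at h1
    exact h1
  · have h1 : (q.map (algebraMap K N)).map ((σ.toRingEquiv : N ≃+* N) : N →+* N) =
        q.map (algebraMap K N) := by
      rw [Polynomial.map_map]
      congr 1
    rw [Polynomial.map_mul, map_C, h1, ← mul_assoc, ← C_mul]
    congr 2
  · intro i
    exact s_ne D η hη hgen (Y.lp i)
  · intro i l'
    have h1 := row D (φ i) (fun i => η (Sum.inl i)) (η (Sum.inr ())) l'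
    rw [hLP, sub_self, zero_mul, Y.val] at h1
    exact h1
  · intro i l
    have h1 := col D (φ i) (fun i => η (Sum.inl i)) (η (Sum.inr ())) l
    rw [hLP, sub_self, zero_mul, Y.val] at h1
    exact h1
  · intro i
    have h1 := der' D (φ i) (fun i => η (Sum.inl i)) (η (Sum.inr ()))
    rw [Y.val] at h1
    exact h1
  · intro i l
    have h1 := congrArg (φ i) (D.e_es l)
    rw [map_sum] at h1
    rw [h1]
    refine Finset.sum_congr rfl fun l' _ => ?_
    rw [map_mul, ev_pz, Y.val]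
    rfl
  · intro i
    exact (hy i).1
  · intro i l
    exact hP _ (D.fix_e l) i
  · intro i
    change σ (∑ j, η (Sum.inl j) * φ i (v j)) = _
    rw [map_sum]
    refine Finset.sum_congr rfl fun j _ => ?_
    rw [map_mul, hσ, hP _ (D.fix_v j)]

end sols

end Pool.Agent.N70.AW.EPc
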