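import Mathlib
import Pool.Agent.H84.L.A3_N600_NS_Pack
import Pool.Agent.H84.L.A3_N70_AW_Rl
import Pool.Agent.H84.L.A3_N70_AW_Sa
import Pool.Agent.H84.L.A3_N70_AW_Sd
import Pool.Agent.H84.L.A3_N70_AW_Stm
import Pool.Agent.H84.L.A3_N70_EP_Sg
import Pool.Agent.H84.L.A3_N70_EP_Stm
import Pool.Agent.H84.L.S8_H391R2_T4_Fam
import Pool.Agent.H84.L.S8_H391R2_T4_Red
import Pool.Agent.H84.L.S8_H391R2_T4_Sym
import Pool.Agent.H84.L.S8_H391R2_WrGrp
import Pool.Agent.H84.L.S8_TH15_IGP_TwB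
import Pool.Agent.H84.L.S8_TH444_TW_RS
import Pool.Agent.H84.L.S8_TH444_TW_RSK
import Pool.Agent.H84.L.S8_W200_IG_HF
import Pool.Agent.H84.L.S8_W200_IH_PA
import Pool.Agent.H84.L.S8_Y793_E_App
import Pool.Agent.H84.L.S8_Y793_Gr

namespace Pool.Agent.H391R2
end Pool.Agent.H391R2
namespace Pool.Agent.H391R2.T4
end Pool.Agent.H391R2.T4
namespace Pool.Agent.N600.NS
end Pool.Agent.N600.NS
namespace Pool.Agent.N70.AW
end Pool.Agent.N70.AW
namespace Pool.Agent.N70.AW.EPc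
end Pool.Agent.N70.AW.EPc
namespace Pool.Agent.N70.EP
end Pool.Agent.N70.EP
namespace Pool.Agent.Y793
end Pool.Agent.Y793


/-!
Statements (NOT results) of the pieces of the project EQ (helper70, problems MP_6e3ed7_al,
MP_e9d732_al, MP_dadaab_nt): alternating fibre powers of embedding problems with ARBITRARY kernel
(the project EP with the hypothesis that the kernel is perfect removed).
-/

set_option autoImplicit false

namespace Pool.Agent.N70.EQ

open Polynomial Pool.Agent.H391R2 Pool.Agent.H391R2.T4 Pool.Agent.Y793 Pool.Agent.N70.AW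
open Pool.Agent.N70.EP (SgnIndex Dt0)
open Pool.Agent.N600.NS (Degs)

/-! ### Group theory -/

/- GS: even subgroups of `G ≀ S_n` which are transitive on labelled pairs and contain an element
over a three-cycle. -/
def St_gs : Prop :=
  ∀ (G : Type) [Group G] [Finite G], ∃ n₀ : ℕ, ∀ n ≥ n₀, ∀ H : Subgroup (Wr G n),
    (∀ x ∈ H, Equiv.Perm.sign x.right = 1) →
    (∀ a b a' b' : Fin n, a ≠ b → a' ≠ b' → ∀ g h : G, ∃ x ∈ H,
      x.right a = a' ∧ x.right b = b' ∧ x.left a' = g ∧ x.left b' = h) →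
    (∃ x ∈ H, x.right.IsThreeCycle) →
    ∀ w : Wr G n, Equiv.Perm.sign w.right = 1 →
      (∏ i, Abelianization.of (w.left i)) = 1 → w ∈ H

/- GC: the characters detect the abelianization. -/
def St_gc : Prop :=
  ∀ (G C : Type) [Group G] [Finite G] [Field C] [HasEnoughRootsOfUnity C (Nat.card G)] (n : ℕ)
    (H : Subgroup (Wr G n)),
    (∀ w : Wr G n, Equiv.Perm.sign w.right = 1 →
      (∏ i, Abelianization.of (w.left i)) = 1 → w ∈ H) →
    (∀ θ : G →* Cˣ, θ ≠ 1 → ∃ x ∈ H, Equiv.Perm.sign x.right = 1 ∧ ∏ i, θ (x.left i) ≠ 1) →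
    ∀ w : Wr G n, Equiv.Perm.sign w.right = 1 → w ∈ H

/- Elements of `X` which act trivially on `X / P` and have exactly one nontrivial label. -/
def Trn {X B Γ : Type} [Group X] [Group B] [Group Γ] (π : X →* Γ) (P : Subgroup X) (β : P →* B)
    (a : B →* Γ) : Prop :=
  ∀ ν : B, a ν = 1 → ∃ (γ : X) (h : ∀ g : X, g⁻¹ * γ * g ∈ P), π γ = 1 ∧
    (∀ g, g ∉ P → β ⟨g⁻¹ * γ * g, h g⟩ = 1) ∧ ∀ p : γ ∈ P, β ⟨γ, p⟩ = ν

/- GW: the group `X`, a symmetric fibre power of an alternating fibre power. -/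
def St_gw : Prop :=
  ∀ (H B : Type) [Group H] [Group B] (a : B →* H), Function.Surjective a →
    ∀ (χ ψ : H →* ℤˣ) (q r : ℕ), Even q → 4 ≤ q → 0 < r → (∀ h, ψ h = χ h ^ r) →
    ∃ (P : Subgroup (SymEP (twProj a χ q) r)) (β : P →* B), Function.Surjective β ∧
      (∀ p : P, a (β p) = symProj (twProj a χ q) r p) ∧
      SgnIndex (SymEP (twProj a χ q) r) P (q * r) (ψ.comp (symProj (twProj a χ q) r)) ∧
      Trn (symProj (twProj a χ q) r) P β a

/-! ### Kummer theory -/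

/- KA: a Kummer generator. -/
def St_ka : Prop :=
  ∀ (K Z : Type) [Field K] [Field Z] [Algebra (RatFunc K) Z] [Algebra K Z]
    [IsScalarTower K (RatFunc K) Z] [FiniteDimensional (RatFunc K) Z]
    (P : Subgroup (Z ≃ₐ[RatFunc K] Z)) (θ : P →* Kˣ), ∃ z : Z, z ≠ 0 ∧
      ∀ γ : P, (γ : Z ≃ₐ[RatFunc K] Z) z = algebraMap K Z (θ γ : K) * z

/- KB: the matrix of a multiplication. -/
def St_kb : Prop :=
  ∀ (K Z : Type) [Field K] [Field Z] [Algebra (RatFunc K) Z]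
    [FiniteDimensional (RatFunc K) Z] [IsGalois (RatFunc K) Z]
    (P : Subgroup (Z ≃ₐ[RatFunc K] Z)) (m : ℕ) (e es : Fin m → Z),
    (∀ l, ∀ γ ∈ P, γ (e l) = e l) → (∀ l, ∀ γ ∈ P, γ (es l) = es l) → ∑ l, e l * es l = 1 →
    (∀ γ : Z ≃ₐ[RatFunc K] Z, γ ∉ P → ∑ l, e l * γ (es l) = 0) →
    ∀ f : Z, (∀ γ ∈ P, γ f = f) → ∃ (q : K[X]) (F : Matrix (Fin m) (Fin m) K[X]), q ≠ 0 ∧
      ∀ l', pz Z q * f * e l' = ∑ l, pz Z (F l l') * e l

/- KC: the determinant of the matrix of a multiplication. -/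
def St_kc : Prop :=
  ∀ (K Z : Type) [Field K] [Field Z] [Algebra (RatFunc K) Z]
    (P : Subgroup (Z ≃ₐ[RatFunc K] Z)) (m : ℕ) (g : Fin m → (Z ≃ₐ[RatFunc K] Z)),
    Function.Injective (fun t => (g t : (Z ≃ₐ[RatFunc K] Z) ⧸ P)) → ∀ (e es : Fin m → Z),
    (∀ l, ∀ γ ∈ P, γ (e l) = e l) → (∀ l, ∀ γ ∈ P, γ (es l) = es l) → ∑ l, e l * es l = 1 →
    (∀ γ : Z ≃ₐ[RatFunc K] Z, γ ∉ P → ∑ l, e l * γ (es l) = 0) →
    ∀ (f : Z) (F : Matrix (Fin m) (Fin m) K[X]),
      (∀ l', f * e l' = ∑ l, pz Z (F l l') * e l) → pz Z F.det = ∏ t, g t f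

/-! ### The specialization of a norm -/

/- The result of the division of the columns `X ^ j F` by the pencil `PP`. -/
def DivF {R : Type} [CommRing R] (m b : ℕ) (PP F : Matrix (Fin m) (Fin m) R[X]) (a : R)
    (Ft : Matrix (Fin b × Fin m) (Fin b × Fin m) R) : Prop :=
  ∃ h : Fin b × Fin m → Fin m → R[X], ∀ (x : Fin b × Fin m) (l' : Fin m),
    C a * (X ^ (x.1 : ℕ) * F l' x.2) =
      ∑ k, PP l' k * h x k + ∑ j' : Fin b, C (Ft (j', l') x) * X ^ (j' : ℕ)

/- PD: pseudo-division. -/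
def St_pd : Prop :=
  ∀ (R : Type) [CommRing R] (m b : ℕ) (PP F : Matrix (Fin m) (Fin m) R[X]) (a : R),
    (∀ l l', (PP l l').natDegree ≤ b) → (∀ l l', (PP l l').coeff b = if l = l' then a else 0) →
    ∃ E₀ : ℕ, ∀ E ≥ E₀, ∃ Ft : Matrix (Fin b × Fin m) (Fin b × Fin m) R,
      DivF m b PP F (a ^ E) Ft

/- HA: the determinant, when the pencil has `m * b` different roots. -/
def St_ha : Prop :=
  ∀ (N : Type) [Field N] (m b : ℕ) (PP F : Matrix (Fin m) (Fin m) N[X]) (a : N) (E : ℕ)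
    (Ft : Matrix (Fin b × Fin m) (Fin b × Fin m) N) (r : Fin (m * b) → N)
    (e : Fin (m * b) → Fin m → N) (f : Fin (m * b) → N), a ≠ 0 →
    (∀ l l', (PP l l').natDegree ≤ b) → (∀ l l', (PP l l').coeff b = if l = l' then a else 0) →
    DivF m b PP F (a ^ E) Ft → Function.Injective r → (∀ i, e i ≠ 0) →
    (∀ i k, ∑ l, e i l * (PP l k).eval (r i) = 0) →
    (∀ i l', ∑ l, e i l * (F l l').eval (r i) = f i * e i l') →
    Ft.det = a ^ (E * (m * b)) * ∏ i, f i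

/- HB: the determinant, when the pencil is scalar. -/
def St_hb : Prop :=
  ∀ (N : Type) [Field N] [IsAlgClosed N] (m b : ℕ) (PP F : Matrix (Fin m) (Fin m) N[X]) (g : N[X])
    (a : N) (E : ℕ) (Ft : Matrix (Fin b × Fin m) (Fin b × Fin m) N), 0 < b → a ≠ 0 →
    (∀ l l', PP l l' = if l = l' then g else 0) → g.natDegree = b → g.leadingCoeff = a →
    DivF m b PP F (a ^ E) Ft →
    Ft.det = a ^ (E * (m * b)) * (F.det.leadingCoeff ^ b *
      (F.det.roots.map fun c => (-1) ^ b * (g.eval c / a)).prod)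

/- PW: a polynomial in algebraically independent elements which is a power in the field. -/
def St_pw : Prop :=
  ∀ (k N I : Type) [Field k] [Field N] [Algebra k N] [Finite I] (η : I → N),
    AlgebraicIndependent k η → ∀ (t : N) (d : ℕ) (D : MvPolynomial I k), 0 < d →
      t ∈ IntermediateField.adjoin k (Set.range η) → t ^ d = MvPolynomial.aeval η D →
      ∃ t' : MvPolynomial I k, t' ^ d = D

/- CU: a choice of parameters. -/
def St_cu : Prop :=
  ∀ (K F ι : Type) [Field K] [CharZero K] [Field F] [Algebra K F] [Fintype ι]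
    (κ : Option ι → K[X]) (k : ℕ), Fm κ k → (∀ j, (κ j).natDegree ≤ k) →
    (∃ i : ι, (κ (some i)).natDegree = k) → ∀ S : Finset F, ∃ u : Option ι → F, u none = 0 ∧ (AA κ u).coeff (2 * k + 1) ≠ 0 ∧
      ∀ c ∈ S, ∀ c' ∈ S, (AA κ u).eval c = (AA κ u).eval c' → c = c'

/- FX: the fixed field. -/
def St_fx : Prop :=
  ∀ (k N I : Type) [Field k] [CharZero k] [Field N] [IsAlgClosed N] [Algebra k N] (η : I → N),
    IsTranscendenceBasis k η → ∀ t : N,
      (∀ σ : N ≃ₐ[k] N, (∀ i, σ (η i) = η i) → σ t = t) →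
      t ∈ IntermediateField.adjoin k (Set.range η)

/- MU: the multiplicities of the roots. -/
def St_mu : Prop :=
  ∀ (k : Type) [Field k] [IsAlgClosed k] (G : k[X]) (A : k → k) (t : k[X]) (c₀ : k) (d : ℕ),
    G ≠ 0 → c₀ ≠ 0 → 0 < d → (∀ c ∈ G.roots, ∀ c' ∈ G.roots, A c = A c' → c = c') →
    t ^ d = C c₀ * (G.roots.map fun c => X - C (A c)).prod →
    ∃ h : k[X], h.Monic ∧ G = C G.leadingCoeff * h ^ d

/- DE: descent of a power. -/
def St_de : Prop :=
  ∀ (K k : Type) [Field K] [CharZero K] [Field k] [Algebra K k] [IsAlgClosed k]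
    [Algebra.IsAlgebraic K k] (G : K[X]) (h : k[X]) (d : ℕ), G ≠ 0 → 0 < d → h.Monic →
    G.map (algebraMap K k) = C (algebraMap K k G.leadingCoeff) * h ^ d →
    ∃ h' : K[X], h'.Monic ∧ G = C G.leadingCoeff * h' ^ d

open Pool.Agent.N70.AW.EPc (Sy) in
/- KD: the norm of a function with matrix `F` is a power only if `det F` is one. -/
def St_kd : Prop :=
  ∀ (K Z N ι : Type) [Field K] [CharZero K] [Field Z] [Algebra (RatFunc K) Z] [Algebra K Z]
    [IsScalarTower K (RatFunc K) Z] [FiniteDimensional (RatFunc K) Z] [IsGalois (RatFunc K) Z]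
    [Fintype ι] [Field N] [Algebra K N] [IsAlgClosed N] (P : Subgroup (Z ≃ₐ[RatFunc K] Z))
    (m k d : ℕ) (κ : Option ι → K[X]) (v : Option ι → Z) (x : Option ι → Option ι → Z)
    (e es : Fin m → Z) (S : Matrix (Fin m) (Fin m) K[X])
    (M L : Option ι → Option ι → Matrix (Fin m) (Fin m) K[X]),
    Dt0 P m k d κ v x e es S M L → 0 < m →
    ∀ (k₀ : Type) [Field k₀] [Algebra K k₀] [Algebra k₀ N] [IsScalarTower K k₀ N]
      [IsAlgClosed k₀] (η : Pool.Agent.N70.AW.Ix ι → N), IsTranscendenceBasis k₀ η →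
    ∀ (r : Fin (m * (2 * k + 1)) → N) (φ : Fin (m * (2 * k + 1)) → (Z →ₐ[K] N)),
      Sy κ x M k₀ (fun i => η (Sum.inl i)) (η (Sum.inr ())) (m * (2 * k + 1)) r φ →
    ∀ (f : Z) (F : Matrix (Fin m) (Fin m) K[X]) (Θ : N) (dd : ℕ),
      (∀ l', f * e l' = ∑ l, pz Z (F l l') * e l) → F.det ≠ 0 → 0 < dd →
      Θ ^ dd = ∏ i, φ i f →
      (∀ σ : N ≃ₐ[k₀] N, (∀ i, σ (η i) = η i) → σ Θ = Θ) →
      ∃ h : k₀[X], h.Monic ∧
        F.det.map (algebraMap K k₀) = C (algebraMap K k₀ F.det.leadingCoeff) * h ^ dd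

/- KDO: assembly of KD. -/
def St_kdOf : Prop :=
  St_pd → St_ha → St_hb → St_pw → St_cu → St_fx → St_mu → St_kd

/- Elements which act trivially on `X / P` and have exactly one nontrivial label. -/
def TrnG {X G : Type} [Group X] [Group G] (P : Subgroup X) (β : P →* G) : Prop :=
  ∀ ν : G, ∃ (γ : X) (h : ∀ g : X, g⁻¹ * γ * g ∈ P),
    (∀ g, g ∉ P → β ⟨g⁻¹ * γ * g, h g⟩ = 1) ∧ ∀ p : γ ∈ P, β ⟨γ, p⟩ = ν

open Pool.Agent.N70.AW.EPc (Sy) in
/- KUM: every nontrivial character `θ` of `G` is detected by an automorphism. -/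
def St_kum : Prop :=
  ∀ (K Z N ι : Type) [Field K] [CharZero K] [Field Z] [Algebra (RatFunc K) Z] [Algebra K Z]
    [IsScalarTower K (RatFunc K) Z] [FiniteDimensional (RatFunc K) Z] [IsGalois (RatFunc K) Z]
    [Fintype ι] [Field N] [Algebra K N] [IsAlgClosed N] (P : Subgroup (Z ≃ₐ[RatFunc K] Z))
    (m k d : ℕ) (κ : Option ι → K[X]) (v : Option ι → Z) (x : Option ι → Option ι → Z)
    (e es : Fin m → Z) (S : Matrix (Fin m) (Fin m) K[X])
    (M L : Option ι → Option ι → Matrix (Fin m) (Fin m) K[X]),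
    Dt0 P m k d κ v x e es S M L → 0 < m →
    (∀ y : Z, IsAlgebraic K y → y ∈ Set.range (algebraMap K Z)) →
    ∀ (g : Fin m → (Z ≃ₐ[RatFunc K] Z)),
      Function.Bijective (fun t => (g t : (Z ≃ₐ[RatFunc K] Z) ⧸ P)) →
    ∀ (k₀ : Type) [Field k₀] [Algebra K k₀] [Algebra k₀ N] [IsScalarTower K k₀ N]
      [IsAlgClosed k₀] [Algebra.IsAlgebraic K k₀] (η : Pool.Agent.N70.AW.Ix ι → N), IsTranscendenceBasis k₀ η →
    ∀ (r : Fin (m * (2 * k + 1)) → N) (φ : Fin (m * (2 * k + 1)) → (Z →ₐ[K] N)),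
      Sy κ x M k₀ (fun i => η (Sum.inl i)) (η (Sum.inr ())) (m * (2 * k + 1)) r φ →
    ∀ (G : Type) [Group G] [Finite G] (β : P →* G), TrnG P β → ∀ θ : G →* Kˣ, θ ≠ 1 →
      ∃ (σ : N ≃ₐ[k₀] N) (y : Wr P (m * (2 * k + 1))), (∀ i, σ (η i) = η i) ∧ Rl r φ σ y ∧
        ∏ i, θ (β (y.left i)) ≠ 1

/- KUMO: assembly of KUM. -/
def St_kumOf : Prop := St_ka → St_kb → St_kc → St_kd → St_de → St_kum

/-! ### Enlarging `L` -/

/- The fibre product of `B` and `Γ'` over `Γ`. -/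
def FPk {B Γ Γ' : Type} [Group B] [Group Γ] [Group Γ'] (a : B →* Γ) (ρ : Γ' →* Γ) :
    Subgroup (B × Γ') :=
  (a.comp (MonoidHom.fst B Γ')).eqLocus (ρ.comp (MonoidHom.snd B Γ'))

/- Its projection. -/
def fpk {B Γ Γ' : Type} [Group B] [Group Γ] [Group Γ'] (a : B →* Γ) (ρ : Γ' →* Γ) :
    FPk a ρ →* Γ' :=
  (MonoidHom.snd B Γ').comp (FPk a ρ).subtype

/- RU: adjunction of roots of unity. -/
def St_ru : Prop :=
  ∀ (K L : Type) [Field K] [CharZero K] [Field L] [Algebra K L] [FiniteDimensional K L]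
    [IsGalois K L] (e : ℕ), 0 < e →
    ∃ (L' : Type) (_ : Field L') (_ : Algebra K L') (_ : Algebra L L')
      (_ : IsScalarTower K L L') (_ : FiniteDimensional K L') (_ : IsGalois K L'),
      HasEnoughRootsOfUnity L' e

/- RT: from `L'` to `L`. -/
def St_rt : Prop :=
  ∀ (K L L' : Type) [Field K] [CharZero K] [Field L] [Algebra K L] [FiniteDimensional K L]
    [IsGalois K L] [Field L'] [Algebra K L'] [Algebra L L'] [IsScalarTower K L L']
    [FiniteDimensional K L'] [IsGalois K L'] (B : Type) [Group B] (a : B →* (L ≃ₐ[K] L))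
    (χ : (L ≃ₐ[K] L) →* ℤˣ) (n : ℕ),
    RegSol K L' (AltTw (fpk a (AlgEquiv.restrictNormalHom (F := K) (K₁ := L') L))
      (χ.comp (AlgEquiv.restrictNormalHom (F := K) (K₁ := L') L)) n)
      (twProj (fpk a (AlgEquiv.restrictNormalHom (F := K) (K₁ := L') L))
      (χ.comp (AlgEquiv.restrictNormalHom (F := K) (K₁ := L') L)) n) →
    RegSol K L (AltTw a χ n) (twProj a χ n)

/- RI: the index does not become larger. -/
def St_ri : Prop :=
  ∀ (K L L' : Type) [Field K] [CharZero K] [Field L] [Algebra K L] [FiniteDimensional K L]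
    [IsGalois K L] [Field L'] [Algebra K L'] [Algebra L L'] [IsScalarTower K L L']
    [FiniteDimensional K L'] [IsGalois K L'] (B : Type) [Group B] (a : B →* (L ≃ₐ[K] L))
    (m : ℕ), m ∈ Degs K L B a →
    m ∈ Degs K L' (FPk a (AlgEquiv.restrictNormalHom (F := K) (K₁ := L') L))
      (fpk a (AlgEquiv.restrictNormalHom (F := K) (K₁ := L') L))

end Pool.Agent.N70.EQ
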