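import Mathlib
import Pool.Agent.H84.L.A3_N600_NS_Pa
import Pool.Agent.H84.L.A3_N600_NS_SemA
import Pool.Agent.H84.L.A3_N70_AW_Fa
import Pool.Agent.H84.L.A3_N70_AW_Rl
import Pool.Agent.H84.L.A3_N70_AW_Sd
import Pool.Agent.H84.L.A3_N70_EQ_Stm
import Pool.Agent.H84.L.S8_H391R2_T4_Nod
import Pool.Agent.H84.L.S8_H391R2_T4_Sem
import Pool.Agent.H84.L.S8_TH444_TW_RS
import Pool.Agent.H84.L.S8_TH444_TW_RSK
import Pool.Agent.H84.L.S8_W200_IG_Fam
import Pool.Agent.H84.L.S8_W200_IG_HF
import Pool.Agent.H84.L.S8_W200_IJ_SA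
import Pool.Agent.H84.L.S8_W200_IJ_SE
import Pool.Agent.H84.L.S8_Y203_J_Iso
import Pool.Agent.H84.L.S8_Y793_Stm

namespace Pool.Agent.N70.AW
end Pool.Agent.N70.AW
namespace Pool.Agent.Y793
end Pool.Agent.Y793


/-!
EQ/CU: a choice of generic parameters.
-/

set_option autoImplicit false
set_option linter.unusedSectionVars false
set_option linter.unusedSimpArgs false

namespace Pool.Agent.N160.EQ

open Polynomial Pool.Agent.Y793 Pool.Agent.N70.AW

section

variable {K ι : Type} [Field K] [Fintype ι] (κ : Option ι → K[X])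

/- Extension by zero. -/
def ext0 {E : Type} [CommRing E] (u : ι → E) : Option ι → E := fun j => j.elim 0 u

theorem ext0_map {E E' : Type} [CommRing E] [CommRing E'] [Algebra K E] [Algebra K E'] (φ : E →ₐ[K] E')
    (u : ι → E) : (fun i => φ (ext0 u i)) = ext0 (fun i => φ (u i)) := by
  funext i
  rcases i with _ | i
  · exact map_zero φ
  · rfl

theorem lk_ext0 {E : Type} [CommRing E] [Algebra K E] (u : ι → E) :
    lk κ (ext0 u) = ∑ i, C (u i) * (κ (some i)).map (algebraMap K E) := by
  unfold lk ext0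
  rw [Fintype.sum_option]
  simp

variable (F : Type) [Field F] [Algebra K F]

/- The generic polynomial. -/
noncomputable def gen : (MvPolynomial ι F)[X] := AA κ (ext0 (MvPolynomial.X : ι → MvPolynomial ι F))

theorem gen_map (u : ι → F) :
    (gen κ F).map (((MvPolynomial.aeval u : MvPolynomial ι F →ₐ[F] F).restrictScalars K :
      MvPolynomial ι F →ₐ[K] F) : MvPolynomial ι F →+* F) = AA κ (ext0 u) := by
  unfold gen
  rw [AA_map, ext0_map]
  congr 2
  funext i
  simp

/- The first condition. -/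
noncomputable def p0 (k : ℕ) : MvPolynomial ι F := (gen κ F).coeff (2 * k + 1)

/- The other conditions. -/
noncomputable def p1 (c c' : F) : MvPolynomial ι F :=
  (gen κ F).eval (MvPolynomial.C c) - (gen κ F).eval (MvPolynomial.C c')

theorem eval_p0 (k : ℕ) (u : ι → F) : MvPolynomial.eval u (p0 κ F k) = (AA κ (ext0 u)).coeff (2 * k + 1) := by
  rw [← gen_map, coeff_map]
  unfold p0
  simp [MvPolynomial.aeval_eq_eval]

theorem eval_p1 (c c' : F) (u : ι → F) : MvPolynomial.eval u (p1 κ F c c') =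
    (AA κ (ext0 u)).eval c - (AA κ (ext0 u)).eval c' := by
  rw [← gen_map]
  unfold p1
  have h : ∀ (p : (MvPolynomial ι F)[X]) (c : F), MvPolynomial.eval u (p.eval (MvPolynomial.C c)) =
      (p.map (((MvPolynomial.aeval u : MvPolynomial ι F →ₐ[F] F).restrictScalars K :
      MvPolynomial ι F →ₐ[K] F) : MvPolynomial ι F →+* F)).eval c := by
    intro p c
    have h1 := eval_map_apply (f := (((MvPolynomial.aeval u : MvPolynomial ι F →ₐ[F] F).restrictScalars K :
      MvPolynomial ι F →ₐ[K] F) : MvPolynomial ι F →+* F)) (p := p) (x := MvPolynomial.C c)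
    have h2 : (((MvPolynomial.aeval u : MvPolynomial ι F →ₐ[F] F).restrictScalars K :
      MvPolynomial ι F →ₐ[K] F) : MvPolynomial ι F →+* F) (MvPolynomial.C c) = c := by
      simp
    rw [h2] at h1
    rw [h1]
    simp [MvPolynomial.aeval_eq_eval]
  rw [map_sub, h, h]

end

theorem t_cu : Pool.Agent.N70.EQ.St_cu := by
  classical
  intro K F ι _ _ _ _ _ κ k hF hdeg htop S
  have : CharZero F := charZero_of_injective_algebraMap (algebraMap K F).injective
  have : Infinite F := inferInstance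
  have hp0 : p0 κ F k ≠ 0 := by
    obtain ⟨i, hi⟩ := htop
    intro h0
    have h1 := eval_p0 κ F k (Pi.single i 1)
    rw [h0, map_zero, AA_coeff κ hdeg] at h1
    have h2 : (lk κ (ext0 (Pi.single i (1 : F)))).coeff k = algebraMap K F ((κ (some i)).coeff k) := by
      rw [lk_ext0, finsetSum_coeff, Finset.sum_eq_single i]
      · rw [Pi.single_eq_same, coeff_C_mul, one_mul, coeff_map]
      · intro b _ hb
        rw [Pi.single_eq_of_ne hb, C_0, zero_mul, coeff_zero]
      · intro h
        exact absurd (Finset.mem_univ _) h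
    rw [h2] at h1
    have h3 : (κ (some i)).coeff k ≠ 0 := by
      rw [← hi]
      exact leadingCoeff_ne_zero.2 (hF.lin.ne_zero i)
    have h4 : algebraMap K F (((2 * k : ℕ) : K) + 1)⁻¹ * (algebraMap K F ((κ (some i)).coeff k)) ^ 2 ≠ 0 := by
      refine mul_ne_zero ?_ (pow_ne_zero 2 ?_)
      · rw [Ne, FaithfulSMul.algebraMap_eq_zero_iff]
        exact inv_ne_zero (by exact_mod_cast Nat.succ_ne_zero (2 * k))
      · rw [Ne, FaithfulSMul.algebraMap_eq_zero_iff]
        exact h3
    exact h4 h1.symm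
  have hp1 : ∀ c c' : F, c ≠ c' → p1 κ F c c' ≠ 0 := by
    intro c c' hcc h0
    have h1 := Pool.Agent.Y203.J.t_iso K F ι (fun i => κ (some i)) k hF.lin hF.kdeg c c' hcc ⊤ (by
      intro u _
      have h2 := eval_p1 κ F c c' u
      rw [h0, map_zero] at h2
      have h3 : AA κ (ext0 u) = adr K ((∑ i, C (u i) * (κ (some i)).map (algebraMap K F)) ^ 2) := by
        unfold AA
        rw [lk_ext0, sq]
      rw [h3] at h2
      exact sub_eq_zero.1 h2.symm)
    rw [finrank_top, Module.finrank_fintype_fun_eq_card] at h1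
    have := hF.card
    omega
  -- the product of all the conditions
  have hprod : p0 κ F k * ∏ x ∈ S.offDiag, p1 κ F x.1 x.2 ≠ 0 := by
    refine mul_ne_zero hp0 (Finset.prod_ne_zero_iff.2 ?_)
    intro x hx
    exact hp1 _ _ (Finset.mem_offDiag.1 hx).2.2
  obtain ⟨u, hu⟩ : ∃ u : ι → F, MvPolynomial.eval u (p0 κ F k * ∏ x ∈ S.offDiag, p1 κ F x.1 x.2) ≠ 0 := by
    by_contra hcon
    push Not at hcon
    exact hprod (MvPolynomial.funext fun u => by rw [hcon u, map_zero])
  rw [map_mul, map_prod] at hu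
  obtain ⟨hu0, hu1⟩ := mul_ne_zero_iff.1 hu
  rw [Finset.prod_ne_zero_iff] at hu1
  refine ⟨ext0 u, rfl, ?_, ?_⟩
  · rwa [eval_p0] at hu0
  · intro c hc c' hc' he
    by_contra hne
    have := hu1 (c, c') (Finset.mem_offDiag.2 ⟨hc, hc', hne⟩)
    rw [eval_p1] at this
    exact this (sub_eq_zero.2 he)

end Pool.Agent.N160.EQ
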