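import Mathlib
import Pool.Agent.H84.L.S8_H391R2_WrGrp

namespace Pool.Agent.H391R2
end Pool.Agent.H391R2


/-!
Signs of actions of wreath products; the action of `S_4` on the two-element subsets.
-/

set_option autoImplicit false

namespace Pool.Agent.N342.EP

open Pool.Agent.H391R2 Equiv


section wr

variable {E S : Type} [Group E]

/- the imprimitive action of the wreath product -/
def wact (L : E →* Perm S) (r : ℕ) : Wr E r →* Perm (Fin r × S) where
  toFun x := (Equiv.prodCongrLeft fun _ => x.right) *
    (Equiv.prodCongrRight fun i => L (x.left (x.right i)))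
  map_one' := by
    ext ⟨i, s⟩ <;> simp [Equiv.prodCongrLeft, Equiv.prodCongrRight]
  map_mul' x y := by
    apply Equiv.ext
    rintro ⟨i, s⟩
    have h : x.right⁻¹ (x.right (y.right i)) = y.right i := x.right.symm_apply_apply _
    simp only [Perm.mul_apply, Equiv.prodCongrLeft, Equiv.prodCongrRight, Equiv.coe_fn_mk,
      wr_mul_left, wr_mul_right, h, map_mul]


theorem sign_wact [Fintype S] [DecidableEq S] (L : E →* Perm S) (r : ℕ) (x : Wr E r)
    (hS : Even (Fintype.card S)) :
    Perm.sign (wact L r x) = ∏ i, Perm.sign (L (x.left i)) := by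
  show Perm.sign ((Equiv.prodCongrLeft fun _ => x.right) *
    (Equiv.prodCongrRight fun i => L (x.left (x.right i)))) = _
  rw [Perm.sign_mul, Perm.sign_prodCongrLeft, Perm.sign_prodCongrRight]
  rw [Finset.prod_const, Finset.card_univ]
  obtain ⟨m, hm⟩ := hS
  rw [hm, ← two_mul, pow_mul, Int.units_sq, one_pow, one_mul]
  exact Equiv.prod_comp x.right fun i => Perm.sign (L (x.left i))

end wr

end Pool.Agent.N342.EP
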