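import Mathlib
import Pool.Agent.H84.L.A3_N70_EP_Stm

namespace Pool.Agent.H391R2
end Pool.Agent.H391R2
namespace Pool.Agent.H391R2.T4
end Pool.Agent.H391R2.T4
namespace Pool.Agent.N70.EP
end Pool.Agent.N70.EP


/-!
The statement `St_grp1` of the project EP (helper70).
-/

set_option autoImplicit false

namespace Pool.Agent.N342.EP

open Pool.Agent.H391R2 Pool.Agent.H391R2.T4 Pool.Agent.N70.EP Equiv

section

variable {X Ω : Type} [Group X] [Fintype Ω] [DecidableEq Ω]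

/- the stabilizer of a point -/
def stabP (Φ : X →* Perm Ω) (ω : Ω) : Subgroup X where
  carrier := {x | Φ x ω = ω}
  one_mem' := by
    show Φ 1 ω = ω
    rw [map_one]; rfl
  mul_mem' := by
    intro a b ha hb
    show Φ (a * b) ω = ω
    rw [map_mul, Perm.mul_apply, (hb : Φ b ω = ω), (ha : Φ a ω = ω)]
  inv_mem' := by
    intro a ha
    show Φ a⁻¹ ω = ω
    rw [map_inv]
    exact (Equiv.symm_apply_eq (Φ a)).2 (ha : Φ a ω = ω).symm

omit [Fintype Ω] [DecidableEq Ω] in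
theorem mem_stabP (Φ : X →* Perm Ω) (ω : Ω) (x : X) : x ∈ stabP Φ ω ↔ Φ x ω = ω := Iff.rfl

theorem sgnIndex_of (Φ : X →* Perm Ω) (ω : Ω) (ht : ∀ ω', ∃ x, Φ x ω = ω') (m : ℕ)
    (hm : Fintype.card Ω = m) (ψ : X →* ℤˣ) (hψ : ∀ x, Perm.sign (Φ x) = ψ x) :
    SgnIndex X (stabP Φ ω) m ψ := by
  let e : Fin m ≃ Ω := (Fintype.equivFinOfCardEq hm).symm
  choose g hg using fun t : Fin m => ht (e t)
  have heq : ∀ x y : X, ((x : X ⧸ stabP Φ ω) = (y : X ⧸ stabP Φ ω)) ↔ Φ x ω = Φ y ω := by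
    intro x y
    rw [QuotientGroup.eq, mem_stabP, map_mul, map_inv, Perm.mul_apply]
    constructor
    · intro h
      exact ((Equiv.symm_apply_eq (Φ x)).1 h).symm
    · intro h
      exact (Equiv.symm_apply_eq (Φ x)).2 h.symm
  refine ⟨g, ⟨?_, ?_⟩, ?_⟩
  · intro t s hts
    have h1 := (heq (g t) (g s)).1 hts
    rw [hg, hg] at h1
    exact e.injective h1
  · intro q
    obtain ⟨x, rfl⟩ := QuotientGroup.mk_surjective q
    refine ⟨e.symm (Φ x ω), ?_⟩
    show ((g (e.symm (Φ x ω)) : X) : X ⧸ stabP Φ ω) = (x : X ⧸ stabP Φ ω)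
    rw [heq, hg, Equiv.apply_symm_apply]
  · intro γ π hπ
    have h1 : ∀ t, Φ γ (e t) = e (π t) := by
      intro t
      have h2 := (heq _ _).1 (hπ t)
      rw [map_mul, Perm.mul_apply, hg, hg] at h2
      exact h2
    rw [← hψ]
    exact (Perm.sign_eq_sign_of_equiv (Φ γ) π e.symm fun x => by
      obtain ⟨t, rfl⟩ := e.surjective x
      rw [h1, Equiv.symm_apply_apply, Equiv.symm_apply_apply]).symm

end


end Pool.Agent.N342.EP
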