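import Mathlib
import Pool.Agent.H84.L.A3_N70_AW_Stm
import Pool.Agent.H84.L.S8_H391R2_T4_Fam
import Pool.Agent.H84.L.S8_H391R2_T4_Nod
import Pool.Agent.H84.L.S8_H391R2_T4_Sem
import Pool.Agent.H84.L.S8_H391R2_WrGrp

namespace Pool.Agent.H391R2
end Pool.Agent.H391R2
namespace Pool.Agent.N70.AW
end Pool.Agent.N70.AW


/-!
The statement `St_small` of the project of helper70: a doubly transitive permutation group of degree
`n` with an element `≠ 1` which moves at most `b` points, `b ^ 2 < n`, contains a three-cycle.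
-/

set_option autoImplicit false

namespace Pool.Agent.N24.AW

open Equiv Pool.Agent.H391R2 Pool.Agent.N70.AW

/- Double counting: a doubly transitive group contains an element `y` such that `B` and `y B` meet
in exactly one point, if `|B| ^ 2 < n`. -/
theorem exists_meet_one {n : ℕ} (X : Subgroup (Perm (Fin n)))
    (h2 : ∀ a c a' c' : Fin n, a ≠ c → a' ≠ c' → ∃ x ∈ X, x a = a' ∧ x c = c')
    (B : Finset (Fin n)) (hB : 2 ≤ B.card) (hBn : B.card * B.card < n) :
    ∃ y ∈ X, (B.filter (fun a => y a ∈ B)).card = 1 := by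
  classical
  obtain ⟨a0, ha0, c0, hc0, h0⟩ := Finset.one_lt_card.1 (by omega : 1 < B.card)
  let XX : Finset (Perm (Fin n)) := Finset.univ.filter (fun y => y ∈ X)
  have hXX : ∀ y, y ∈ XX ↔ y ∈ X := by intro y; simp [XX]
  let c : ℕ := (XX.filter (fun y => y a0 = a0 ∧ y c0 = c0)).card
  have hc : 0 < c := by
    apply Finset.card_pos.2
    exact ⟨1, by simp [hXX, X.one_mem]⟩
  have key : ∀ a a' d d' : Fin n, a ≠ a' → d ≠ d' →
      (XX.filter (fun y => y a = d ∧ y a' = d')).card = c := by
    intro a a' d d' ha hd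
    obtain ⟨g, hg, g1, g2⟩ := h2 a0 c0 a a' h0 ha
    obtain ⟨h, hh, h3, h4⟩ := h2 d d' a0 c0 hd h0
    refine Finset.card_nbij' (fun y => h * y * g) (fun z => h⁻¹ * z * g⁻¹) ?_ ?_ ?_ ?_
    · intro y hy
      simp only [Finset.coe_filter, hXX, Set.mem_ofPred_eq] at hy ⊢
      refine ⟨X.mul_mem (X.mul_mem hh hy.1) hg, ?_, ?_⟩
      · simp [Perm.mul_apply, g1, hy.2.1, h3]
      · simp [Perm.mul_apply, g2, hy.2.2, h4]
    · intro y hy
      simp only [Finset.coe_filter, hXX, Set.mem_ofPred_eq] at hy ⊢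
      refine ⟨X.mul_mem (X.mul_mem (X.inv_mem hh) hy.1) (X.inv_mem hg), ?_, ?_⟩
      · have : g⁻¹ a = a0 := by rw [Perm.inv_eq_iff_eq, g1]
        simp only [Perm.mul_apply, this, hy.2.1]
        rw [Perm.inv_eq_iff_eq, h3]
      · have : g⁻¹ a' = c0 := by rw [Perm.inv_eq_iff_eq, g2]
        simp only [Perm.mul_apply, this, hy.2.2]
        rw [Perm.inv_eq_iff_eq, h4]
    · intro y _
      simp [mul_assoc]
    · intro y _
      simp [mul_assoc]
  have key1 : ∀ a d : Fin n, (XX.filter (fun y => y a = d)).card = (n - 1) * c := by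
    intro a d
    obtain ⟨a', ha'⟩ : ∃ a' : Fin n, a' ≠ a := by
      by_cases h : a = a0
      · exact ⟨c0, by rw [h]; exact fun h' => h0 h'.symm⟩
      · exact ⟨a0, fun h' => h h'.symm⟩
    have h1 : (XX.filter (fun y => y a = d)).card =
        ∑ d' ∈ Finset.univ.filter (fun d' : Fin n => d' ≠ d),
          ((XX.filter (fun y => y a = d)).filter (fun y => y a' = d')).card := by
      apply Finset.card_eq_sum_card_fiberwise
      intro y hy
      simp only [Finset.coe_filter, hXX, Set.mem_ofPred_eq, Finset.mem_univ, true_and] at hy ⊢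
      intro h
      exact ha' (y.injective (h.trans hy.2.symm))
    rw [h1, Finset.sum_congr rfl (g := fun _ => c)]
    · rw [Finset.sum_const, Finset.filter_ne', Finset.card_erase_of_mem (Finset.mem_univ _),
        Finset.card_univ, Fintype.card_fin, smul_eq_mul]
    · intro d' hd'
      rw [Finset.filter_filter]
      exact key a a' d d' (fun h => ha' h.symm) (fun h => (Finset.mem_filter.1 hd').2 h.symm)
  -- first moment
  have m1 : ∑ y ∈ XX, (B.filter (fun a => y a ∈ B)).card = B.card * (B.card * ((n - 1) * c)) := by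
    have : ∀ y ∈ XX, (B.filter (fun a => y a ∈ B)).card =
        ∑ a ∈ B, ∑ d ∈ B, if y a = d then 1 else 0 := by
      intro y _
      rw [Finset.card_filter]
      refine Finset.sum_congr rfl (fun a _ => ?_)
      rw [Finset.sum_ite_eq]
    rw [Finset.sum_congr rfl this, Finset.sum_comm]
    have h3 : ∀ a ∈ B, ∑ y ∈ XX, ∑ d ∈ B, (if y a = d then 1 else 0) =
        B.card * ((n - 1) * c) := by
      intro a _
      rw [Finset.sum_comm, Finset.sum_congr rfl (g := fun _ => (n - 1) * c)]
      · rw [Finset.sum_const, smul_eq_mul]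
      · intro d _
        rw [← key1 a d, Finset.card_filter]
    rw [Finset.sum_congr rfl h3, Finset.sum_const, smul_eq_mul]
  -- second moment
  have m2 : ∑ y ∈ XX, ((B.filter (fun a => y a ∈ B)).offDiag).card =
      B.offDiag.card * (B.offDiag.card * c) := by
    have : ∀ y ∈ XX, ((B.filter (fun a => y a ∈ B)).offDiag).card =
        ∑ p ∈ B.offDiag, ∑ q ∈ B.offDiag, if y p.1 = q.1 ∧ y p.2 = q.2 then 1 else 0 := by
      intro y _
      have h5 : (B.filter (fun a => y a ∈ B)).offDiag =
          B.offDiag.filter (fun p => (y p.1, y p.2) ∈ B.offDiag) := by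
        ext p
        simp only [Finset.mem_offDiag, Finset.mem_filter]
        constructor
        · rintro ⟨⟨h1, h2⟩, ⟨h3, h4⟩, h5⟩
          exact ⟨⟨h1, h3, h5⟩, h2, h4, fun h => h5 (y.injective h)⟩
        · rintro ⟨⟨h1, h3, h5⟩, h2, h4, _⟩
          exact ⟨⟨h1, h2⟩, ⟨h3, h4⟩, h5⟩
      rw [h5, Finset.card_filter]
      refine Finset.sum_congr rfl (fun p _ => ?_)
      have h6 : ∀ q ∈ B.offDiag, (if y p.1 = q.1 ∧ y p.2 = q.2 then 1 else 0) =
          if (y p.1, y p.2) = q then 1 else 0 := by
        intro q _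
        congr 1
        rw [Prod.ext_iff]
      rw [Finset.sum_congr rfl h6, Finset.sum_ite_eq]
    rw [Finset.sum_congr rfl this, Finset.sum_comm]
    have h3 : ∀ p ∈ B.offDiag, ∑ y ∈ XX, ∑ q ∈ B.offDiag,
        (if y p.1 = q.1 ∧ y p.2 = q.2 then 1 else 0) = B.offDiag.card * c := by
      intro p hp
      rw [Finset.sum_comm, Finset.sum_congr rfl (g := fun _ => c)]
      · rw [Finset.sum_const, smul_eq_mul]
      · intro q hq
        rw [← key p.1 p.2 q.1 q.2 (Finset.mem_offDiag.1 hp).2.2 (Finset.mem_offDiag.1 hq).2.2,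
          Finset.card_filter]
    rw [Finset.sum_congr rfl h3, Finset.sum_const, smul_eq_mul]
  by_contra hcon
  push Not at hcon
  have hle : ∑ y ∈ XX, (B.filter (fun a => y a ∈ B)).card ≤
      ∑ y ∈ XX, ((B.filter (fun a => y a ∈ B)).offDiag).card := by
    apply Finset.sum_le_sum
    intro y hy
    have h1 := hcon y ((hXX y).1 hy)
    rw [Finset.offDiag_card]
    generalize (B.filter (fun a => y a ∈ B)).card = k at h1
    rcases k with _ | _ | k
    · simp
    · exact absurd rfl h1
    · have : (k + 1 + 1) * (k + 1 + 1) = (k + 1 + 1) * (k + 1) + (k + 1 + 1) := by ring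
      rw [this, Nat.add_sub_cancel]
      nlinarith
  rw [m1, m2, Finset.offDiag_card] at hle
  obtain ⟨β, hβ⟩ : ∃ β, B.card = β + 2 := ⟨B.card - 2, by omega⟩
  obtain ⟨N, hN⟩ : ∃ N, n = N + 1 := ⟨n - 1, by omega⟩
  rw [hβ] at hle hBn
  subst hN
  have e1 : (β + 2) * (β + 2) - (β + 2) = (β + 2) * (β + 1) := by
    have : (β + 2) * (β + 2) = (β + 2) * (β + 1) + (β + 2) := by ring
    rw [this, Nat.add_sub_cancel]
  rw [e1, Nat.add_sub_cancel] at hle
  have e2 : (β + 2) * ((β + 2) * (N * c)) = ((β + 2) * (β + 2) * c) * N := by ring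
  have e3 : (β + 2) * (β + 1) * ((β + 2) * (β + 1) * c) =
      ((β + 2) * (β + 2) * c) * ((β + 1) * (β + 1)) := by ring
  rw [e2, e3] at hle
  have h7 : N ≤ (β + 1) * (β + 1) := Nat.le_of_mul_le_mul_left hle (by positivity)
  nlinarith

/- The commutator of two permutations whose supports meet in exactly one point is a
three-cycle. -/
theorem comm_three_cycle {α : Type*} [Fintype α] [DecidableEq α] (s t : Perm α) (z : α)
    (hz : z ∈ s.support) (hz' : z ∈ t.support)
    (h : ∀ x, x ∈ s.support → x ∈ t.support → x = z) :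
    (s * t * s⁻¹ * t⁻¹).IsThreeCycle := by
  have hs : s z ≠ z := Perm.mem_support.1 hz
  have ht : t z ≠ z := Perm.mem_support.1 hz'
  have hsf : ∀ x, x ≠ z → t x ≠ x → s x = x := by
    intro x hx h1
    by_contra h2
    exact hx (h x (Perm.mem_support.2 h2) (Perm.mem_support.2 h1))
  have htf : ∀ x, x ≠ z → s x ≠ x → t x = x := by
    intro x hx h1
    by_contra h2
    exact hx (h x (Perm.mem_support.2 h1) (Perm.mem_support.2 h2))
  have hts : t (s z) = s z := htf _ hs (fun h' => hs (s.injective h'))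
  have hst : s (t z) = t z := hsf _ ht (fun h' => ht (t.injective h'))
  have hne : s z ≠ t z := by
    intro h'
    rw [h'] at hts
    exact ht (t.injective hts)
  have e : s * t * s⁻¹ * t⁻¹ = swap z (t z) * swap z (s z) := by
    rw [mul_inv_eq_iff_eq_mul, mul_inv_eq_iff_eq_mul]
    ext x
    simp only [Perm.mul_apply]
    by_cases h1 : x = z
    · subst h1
      rw [hst, hts, swap_apply_right, swap_apply_left]
    by_cases h2 : t x = x
    · rw [h2]
      by_cases h3 : s x = z
      · rw [h3, swap_apply_of_ne_of_ne ht (Ne.symm hne), swap_apply_right]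
      · have h4 : t (s x) = s x := by
          by_cases h5 : s x = x
          · rw [h5, h2]
          · exact htf _ h3 (fun h' => h5 (s.injective h'))
        rw [h4, swap_apply_of_ne_of_ne h3 (fun h' => h1 (s.injective h')),
          swap_apply_of_ne_of_ne h3]
        intro h5
        have h6 : x = t z := s.injective (h5.trans hst.symm)
        rw [h6] at h2
        exact ht (t.injective h2)
    · have h3 : s x = x := hsf x h1 h2
      rw [h3]
      by_cases h4 : t x = z
      · rw [h4, swap_apply_left, swap_apply_of_ne_of_ne hs hne]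
      · rw [hsf _ h4 (fun h' => h2 (t.injective h')), swap_apply_of_ne_of_ne h4,
          swap_apply_of_ne_of_ne h4 (fun h' => h1 (t.injective h'))]
        intro h5
        have h6 : x = s z := t.injective (h5.trans hts.symm)
        rw [h6, hts] at h2
        exact h2 rfl
  rw [e]
  exact Perm.isThreeCycle_swap_mul_swap_same (Ne.symm ht) (Ne.symm hs) (Ne.symm hne)

theorem small : St_small := by
  intro G _ _ n b H hbn h2 hx
  obtain ⟨x, hx, hx1, hxb⟩ := hx
  have ia : ∀ (g : Perm (Fin n)) (z : Fin n), g⁻¹ (g z) = z := fun g z => by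
    rw [← Perm.mul_apply, inv_mul_cancel, Perm.one_apply]
  have ai : ∀ (g : Perm (Fin n)) (z : Fin n), g (g⁻¹ z) = z := fun g z => by
    rw [← Perm.mul_apply, mul_inv_cancel, Perm.one_apply]
  let φ : Wr G n →* Perm (Fin n) := SemidirectProduct.rightHom
  let X : Subgroup (Perm (Fin n)) := H.map φ
  have h2' : ∀ a c a' c' : Fin n, a ≠ c → a' ≠ c' → ∃ y ∈ X, y a = a' ∧ y c = c' := by
    intro a c a' c' h h'
    obtain ⟨y, hy, hy1⟩ := h2 a c a' c' h h'
    exact ⟨y.right, ⟨y, hy, rfl⟩, hy1⟩
  have hB : 2 ≤ x.right.support.card := by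
    have := Perm.two_le_card_support_of_ne_one hx1
    omega
  obtain ⟨y, ⟨h, hh, rfl⟩, hy⟩ := exists_meet_one X h2' x.right.support hB
    (lt_of_le_of_lt (Nat.mul_le_mul hxb hxb) hbn)
  obtain ⟨a, ha⟩ := Finset.card_eq_one.1 hy
  refine ⟨x * (h * x * h⁻¹) * x⁻¹ * (h * x * h⁻¹)⁻¹, ?_, ?_⟩
  · have h3 : h * x * h⁻¹ ∈ H := H.mul_mem (H.mul_mem hh hx) (H.inv_mem hh)
    exact H.mul_mem (H.mul_mem (H.mul_mem hx h3) (H.inv_mem hx)) (H.inv_mem h3)
  · have hr : (x * (h * x * h⁻¹) * x⁻¹ * (h * x * h⁻¹)⁻¹).right =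
        x.right * (h.right * x.right * h.right⁻¹) * x.right⁻¹ *
          (h.right * x.right * h.right⁻¹)⁻¹ := by
      simp only [wr_mul_right, SemidirectProduct.inv_right]
    rw [hr]
    have ha' : a ∈ x.right.support.filter (fun a => φ h a ∈ x.right.support) := by
      rw [ha]; simp
    rw [Finset.mem_filter] at ha'
    refine comm_three_cycle _ _ (h.right a) ha'.2 ?_ ?_
    · rw [Perm.mem_support]
      simp only [Perm.mul_apply, ia]
      intro h4
      exact (Perm.mem_support.1 ha'.1) (h.right.injective h4)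
    · intro z hz hz'
      have h5 : h.right⁻¹ z ∈ x.right.support := by
        rw [Perm.mem_support] at hz' ⊢
        intro h6
        apply hz'
        simp only [Perm.mul_apply, h6, ai]
      have h6 : h.right⁻¹ z ∈ x.right.support.filter (fun a => φ h a ∈ x.right.support) := by
        rw [Finset.mem_filter]
        refine ⟨h5, ?_⟩
        change h.right (h.right⁻¹ z) ∈ _
        rw [ai]
        exact hz
      rw [ha, Finset.mem_singleton] at h6
      rw [← h6, ai]

end Pool.Agent.N24.AW
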