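import Mathlib
import Pool.Agent.H84.L.A3_N70_EQ_Stm
import Pool.Agent.H84.L.S8_Y793_Sb



/-!
Project EQ (helper70), part FX (helper27): the fixed field of the automorphisms which fix a
transcendence basis.
-/

set_option autoImplicit false

namespace Pool.Agent.N27.EQ.FX

/- An element which is fixed by all automorphisms which fix a transcendence basis. -/
theorem fx (k N I : Type) [Field k] [CharZero k] [Field N] [IsAlgClosed N] [Algebra k N]
    (η : I → N) (hη : IsTranscendenceBasis k η) (t : N)
    (ht : ∀ σ : N ≃ₐ[k] N, (∀ i, σ (η i) = η i) → σ t = t) :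
    t ∈ IntermediateField.adjoin k (Set.range η) := by
  set E := IntermediateField.adjoin k (Set.range η) with hE
  have : CharZero E := charZero_of_injective_algebraMap (algebraMap k E).injective
  have : Algebra.IsAlgebraic E N := hη.isAlgebraic_field
  have : IsAlgClosure E N := ⟨inferInstance, inferInstance⟩
  have : Normal E N := IsAlgClosure.normal E N
  have : IsGalois E N := {}
  have h1 : t ∈ (⊥ : IntermediateField E N) := by
    rw [InfiniteGalois.mem_bot_iff_fixed]
    intro f
    refine ht (f.restrictScalars k) fun i => ?_
    exact f.commutes ⟨η i, IntermediateField.subset_adjoin k _ ⟨i, rfl⟩⟩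
  rw [IntermediateField.mem_bot] at h1
  obtain ⟨x, rfl⟩ := h1
  exact x.2

theorem t_fx : Pool.Agent.N70.EQ.St_fx := by
  intro k N I _ _ _ _ _ η hη t ht
  exact fx k N I η hη t ht

end Pool.Agent.N27.EQ.FX
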