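import Mathlib
import Pool.Agent.H84.L.A3_N70_AW_Stm2
import Pool.Agent.H84.L.S8_H391R2_T4_Nod
import Pool.Agent.H84.L.S8_H391R2_T4_Sem



set_option autoImplicit false

/-!
# Degrees of the values of a linear differential operator (task DEG of `Pool.Agent.N70.AW.Stm2`)
-/

namespace Pool.Agent.N455.AW

open Polynomial

lemma coeff_term {K : Type} [Field K] (p : K[X]) (l t j : ℕ) :
    ((-1 : K[X]) ^ l * derivative^[l] (p * X ^ t)).coeff j =
      (-1) ^ l * (((j + l).descFactorial l : ℕ) : K) * (if t ≤ j + l then p.coeff (j + l - t) else 0) := by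
  have h1 : (-1 : K[X]) ^ l = C ((-1) ^ l) := by simp
  rw [h1, coeff_C_mul, coeff_iterate_derivative, coeff_mul_X_pow', nsmul_eq_mul, mul_assoc]

/- The polynomial giving the coefficient. -/
noncomputable def Th {K : Type} [Field K] (m : ℕ) (c : Fin (m + 1) → K) : K[X] :=
  ∑ l : Fin (m + 1), C ((-1) ^ (l : ℕ) * c l) * (descPochhammer K l).comp (X + C (l : K))

lemma Th_eval {K : Type} [Field K] (m : ℕ) (c : Fin (m + 1) → K) (n : ℕ) :
    (Th m c).eval (n : K) = ∑ l : Fin (m + 1),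
      (-1) ^ (l : ℕ) * (((n + l).descFactorial l : ℕ) : K) * c l := by
  unfold Th
  rw [eval_finsetSum]
  refine Finset.sum_congr rfl fun l _ => ?_
  rw [eval_mul, eval_C, eval_comp, eval_add, eval_X, eval_C]
  have h1 : ((n : K) + (l : ℕ)) = ((n + (l : ℕ) : ℕ) : K) := by push_cast; ring
  rw [h1, descPochhammer_eval_eq_descFactorial]
  ring

lemma Th_ne {K : Type} [Field K] (m : ℕ) (c : Fin (m + 1) → K) (hc : ∃ l, c l ≠ 0) : Th m c ≠ 0 := by
  classical
  obtain ⟨l', hl'⟩ := hc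
  obtain ⟨l1, hl1, hmax⟩ := Finset.exists_max_image (Finset.univ.filter fun l : Fin (m + 1) => c l ≠ 0)
    (fun l => l) ⟨l', by simpa using hl'⟩
  rw [Finset.mem_filter] at hl1
  have hq : ∀ l : Fin (m + 1), ((descPochhammer K l).comp (X + C (l : K))).Monic := by
    intro l
    exact (monic_descPochhammer K l).comp_X_add_C _
  have hd : ∀ l : Fin (m + 1), ((descPochhammer K l).comp (X + C (l : K))).natDegree = l := by
    intro l
    rw [natDegree_comp, natDegree_X_add_C, mul_one, descPochhammer_natDegree]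
  intro h0
  have h1 : (Th m c).coeff l1 = (-1) ^ (l1 : ℕ) * c l1 := by
    unfold Th
    rw [finsetSum_coeff, Finset.sum_eq_single l1]
    · rw [coeff_C_mul]
      have h2 := (hq l1).coeff_natDegree
      rw [hd l1] at h2
      rw [h2, mul_one]
    · intro l _ hne
      rw [coeff_C_mul]
      by_cases hcl : c l = 0
      · rw [hcl]; simp
      · have h3 : l ≤ l1 := hmax l (by simpa using hcl)
        have h4 : l < l1 := lt_of_le_of_ne h3 hne
        rw [coeff_eq_zero_of_natDegree_lt (by rw [hd l]; exact h4), mul_zero]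
    · intro h; exact absurd (Finset.mem_univ _) h
  rw [h0, coeff_zero] at h1
  have h5 : (-1 : K) ^ (l1 : ℕ) ≠ 0 := pow_ne_zero _ (by simp)
  exact (mul_ne_zero h5 hl1.2) h1.symm

theorem deg0 (K : Type) [Field K] [CharZero K] (m : ℕ) (p : Fin (m + 1) → K[X])
    (hp : p (Fin.last m) ≠ 0) :
    ∃ (μ : ℤ) (t₀ : ℕ), ∀ t : ℕ, t₀ ≤ t →
      (∑ l : Fin (m + 1), (-1 : K[X]) ^ (l : ℕ) * derivative^[(l : ℕ)] (p l * X ^ t)) ≠ 0 ∧
      ((∑ l : Fin (m + 1), (-1 : K[X]) ^ (l : ℕ) *
        derivative^[(l : ℕ)] (p l * X ^ t)).natDegree : ℤ) = t + μ := by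
  classical
  obtain ⟨l0, hl0, hmax⟩ := Finset.exists_max_image (Finset.univ.filter fun l : Fin (m + 1) => p l ≠ 0)
    (fun l => ((p l).natDegree : ℤ) - (l : ℕ)) ⟨Fin.last m, by simpa using hp⟩
  rw [Finset.mem_filter] at hl0
  set μ : ℤ := ((p l0).natDegree : ℤ) - (l0 : ℕ) with hμ
  have hmax' : ∀ l, p l ≠ 0 → ((p l).natDegree : ℤ) ≤ μ + (l : ℕ) := by
    intro l hl
    have := hmax l (by simpa using hl)
    linarith
  have hμm : -(m : ℤ) ≤ μ := by
    have h1 : ((l0 : ℕ) : ℤ) ≤ m := by exact_mod_cast Nat.lt_succ_iff.1 l0.2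
    have h2 : (0 : ℤ) ≤ ((p l0).natDegree : ℤ) := by positivity
    linarith
  set c : Fin (m + 1) → K := fun l => if 0 ≤ μ + (l : ℕ) then (p l).coeff (μ + (l : ℕ)).toNat else 0
    with hc
  have hcne : Th m c ≠ 0 := by
    refine Th_ne m c ⟨l0, ?_⟩
    have h1 : μ + (l0 : ℕ) = ((p l0).natDegree : ℤ) := by rw [hμ]; ring
    have h2 : (0 : ℤ) ≤ μ + (l0 : ℕ) := by rw [h1]; positivity
    simp only [hc]
    rw [if_pos h2, h1, Int.toNat_natCast]
    exact leadingCoeff_ne_zero.2 hl0.2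
  have hfin : {n : ℕ | (Th m c).eval (n : K) = 0}.Finite := by
    have h1 : {x : K | (Th m c).IsRoot x}.Finite := (Th m c).finite_setOfPred_isRoot hcne
    exact h1.preimage (Nat.cast_injective.injOn) 
  obtain ⟨B, hB⟩ := hfin.bddAbove
  refine ⟨μ, m + B + 1 + m, fun t ht => ?_⟩
  obtain ⟨n, hn⟩ : ∃ n : ℕ, (n : ℤ) = t + μ := ⟨(t + μ).toNat, Int.toNat_of_nonneg (by omega)⟩
  have hnB : B < n := by omega
  set F : K[X] := ∑ l : Fin (m + 1), (-1 : K[X]) ^ (l : ℕ) * derivative^[(l : ℕ)] (p l * X ^ t) with hF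
  have hcn : F.coeff n = (Th m c).eval (n : K) := by
    rw [Th_eval, hF, finsetSum_coeff]
    refine Finset.sum_congr rfl fun l _ => ?_
    rw [coeff_term]
    congr 1
    simp only [hc]
    by_cases h : t ≤ n + (l : ℕ)
    · rw [if_pos h, if_pos (by omega)]
      congr 1
      omega
    · rw [if_neg h, if_neg (by omega)]
  have hne : F.coeff n ≠ 0 := by
    rw [hcn]
    intro h0
    have := hB (show n ∈ {n : ℕ | (Th m c).eval (n : K) = 0} from h0)
    omega
  have hle : F.natDegree ≤ n := by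
    rw [natDegree_le_iff_coeff_eq_zero]
    intro j hj
    rw [hF, finsetSum_coeff]
    refine Finset.sum_eq_zero fun l _ => ?_
    rw [coeff_term]
    by_cases h : t ≤ j + (l : ℕ)
    · rw [if_pos h]
      by_cases hl : p l = 0
      · rw [hl]; simp
      · rw [coeff_eq_zero_of_natDegree_lt, mul_zero]
        have := hmax' l hl
        omega
    · rw [if_neg h, mul_zero]
  refine ⟨fun h0 => hne (by rw [h0, coeff_zero]), ?_⟩
  rw [← hn]
  have := le_natDegree_of_ne_zero hne
  exact_mod_cast le_antisymm hle this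

theorem deg : Pool.Agent.N70.AW.St_deg := by
  intro K _ _ m p hp
  exact deg0 K m p hp

end Pool.Agent.N455.AW
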