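import Mathlib
import Pool.Agent.H84.L.S8_Y241_WR_Ext

namespace Pool.Agent.TH444.WC
end Pool.Agent.TH444.WC


set_option autoImplicit false
set_option linter.unusedSectionVars false

namespace Pool.Agent.N455.EP

open Polynomial Pool.Agent.TH444.WC

/- Rational functions evaluated at a transcendental element. -/
theorem ratHom {A M : Type} [Field A] [Field M] (ι : A →+* M) (s : M)
    (hs : ∀ p : A[X], eval₂ ι s p = 0 → p = 0) :
    ∃ Φ : RatFunc A →+* M, (∀ a, Φ (algebraMap A (RatFunc A) a) = ι a) ∧ Φ RatFunc.X = s := by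
  let ev : A[X] →+* M := eval₂RingHom ι s
  have hev : Function.Injective ev := by
    rw [injective_iff_map_eq_zero]
    intro p hp
    exact hs p hp
  let φ : RatFunc A →+* M := IsFractionRing.lift (A := A[X]) hev
  have hφ : ∀ p, φ (algebraMap A[X] (RatFunc A) p) = ev p := fun p =>
    IsFractionRing.lift_algebraMap hev p
  refine ⟨φ, fun a => ?_, ?_⟩
  · have h1 : algebraMap A (RatFunc A) a = algebraMap A[X] (RatFunc A) (Polynomial.C a) := rfl
    rw [h1, hφ]
    change eval₂ ι s (C a) = _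
    rw [eval₂_C]
  · rw [← RatFunc.algebraMap_X, hφ]
    change eval₂ ι s X = _
    rw [eval₂_X]

theorem ratFunc_alg {A : Type} [Field A] (y : RatFunc A) (hy : IsAlgebraic A y) :
    y ∈ Set.range (algebraMap A (RatFunc A)) := by
  by_contra hcon
  refine RatFunc.transcendental_of_ne_C y ?_ hy
  rintro ⟨c, hc⟩
  exact hcon ⟨c, hc.symm⟩

theorem geo {L L₁ F N : Type} [Field L] [CharZero L] [Field L₁] [Algebra L L₁] [Field F]
    [Algebra (RatFunc L) F] [Algebra L F] [IsScalarTower L (RatFunc L) F]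
    [FiniteDimensional (RatFunc L) F] [IsGalois (RatFunc L) F] [Field N] [IsAlgClosed N]
    [Algebra L₁ N] [Algebra L N] [IsScalarTower L L₁ N] [Algebra (RatFunc L) N]
    [IsScalarTower L (RatFunc L) N] [Algebra F N] [IsScalarTower (RatFunc L) F N]
    (hreg : ∀ y : F, IsAlgebraic L y → y ∈ Set.range (algebraMap L F))
    (hs : Transcendental L₁ (algebraMap (RatFunc L) N RatFunc.X))
    (γ : F ≃ₐ[RatFunc L] F) :
    ∃ τ : N ≃ₐ[L₁] N, (∀ x : N, IsAlgebraic L₁ x → τ x = x) ∧
      ∀ z, τ (algebraMap F N z) = algebraMap F N (γ z) := by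
  let C : IntermediateField L N := (algebraicClosure L₁ N).restrictScalars L
  have hmem : ∀ x : N, IsAlgebraic L₁ x → x ∈ C := by
    intro x hx
    change x ∈ algebraicClosure L₁ N
    exact mem_algebraicClosure_iff.2 hx
  have hsC : Transcendental C (algebraMap (RatFunc L) N RatFunc.X) := hs.algebraicClosure
  obtain ⟨τ, hτ⟩ := Pool.Agent.Y241.WR.ext_gal (K := L) (N := N) (L := F) hreg C
    (algebraMap (RatFunc L) N RatFunc.X) rfl hsC γ
  have hfix : ∀ x : N, IsAlgebraic L₁ x → τ x = x := fun x hx =>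
    τ.commutes (⟨x, hmem x hx⟩ : C)
  refine ⟨AlgEquiv.ofRingEquiv (f := (τ : N ≃+* N)) (fun r => ?_), ?_, ?_⟩
  · exact hfix _ (isAlgebraic_algebraMap r)
  · exact hfix
  · exact hτ

end Pool.Agent.N455.EP
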