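import Mathlib
import Pool.Agent.H84.L.S8_Y241_WR_Ext

namespace Pool.Agent.TH444.WC
end Pool.Agent.TH444.WC


set_option autoImplicit false
set_option maxHeartbeats 400000
set_option linter.unusedSectionVars false

namespace Pool.Agent.N455.EP

open Polynomial Pool.Agent.TH444.WC

section gen

variable {k k₁ F N : Type} [Field k] [CharZero k] [Field F] [Algebra k F]
  [FiniteDimensional k F] [IsGalois k F] [Field k₁] [Algebra k k₁] [Field N] [IsAlgClosed N]
  [Algebra k N] [Algebra F N] [IsScalarTower k F N] [Algebra k₁ N] [IsScalarTower k k₁ N]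

/- Automorphisms restrict to normal extensions. -/
theorem res1 (τ : N ≃ₐ[k₁] N) : ∃ g : F ≃ₐ[k] F, ∀ z, τ (algebraMap F N z) =
    algebraMap F N (g z) := by
  refine ⟨(τ.restrictScalars k).restrictNormal F, fun z => ?_⟩
  exact (AlgEquiv.restrictNormal_commutes (τ.restrictScalars k) F z).symm

variable (k₁ F N) in
/- The field generated by `k₁` and `F`. -/
noncomputable def F1 : IntermediateField k₁ N :=
  IntermediateField.adjoin k₁ (Set.range (algebraMap F N))

theorem mem_F1 (z : F) : algebraMap F N z ∈ F1 k₁ F N :=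
  IntermediateField.subset_adjoin k₁ _ ⟨z, rfl⟩

theorem eq_F1 {τ τ' : N ≃ₐ[k₁] N} (h : ∀ z : F, τ (algebraMap F N z) = τ' (algebraMap F N z))
    (y : N) (hy : y ∈ F1 k₁ F N) : τ y = τ' y := by
  unfold F1 at hy
  induction hy using IntermediateField.adjoin_induction with
  | mem x hx =>
    obtain ⟨z, rfl⟩ := hx
    exact h z
  | algebraMap x => rw [τ.commutes, τ'.commutes]
  | add x y _ _ hx hy => rw [map_add, map_add, hx, hy]
  | inv x _ hx => rw [map_inv₀, map_inv₀, hx]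
  | mul x y _ _ hx hy => rw [map_mul, map_mul, hx, hy]

include k in
theorem act_F1 (τ : N ≃ₐ[k₁] N) (y : N) (hy : y ∈ F1 k₁ F N) : τ y ∈ F1 k₁ F N := by
  have h1 : F1 k₁ F N ≤ (F1 k₁ F N).comap (τ : N →ₐ[k₁] N) := by
    refine IntermediateField.adjoin_le_iff.2 ?_
    rintro _ ⟨z, rfl⟩
    obtain ⟨g, hg⟩ := res1 (k := k) (F := F) τ
    change τ (algebraMap F N z) ∈ F1 k₁ F N
    rw [hg]
    exact mem_F1 _
  exact h1 hy

include k in
theorem fd_F1 : FiniteDimensional k₁ (F1 k₁ F N) := by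
  obtain ⟨θ, hθ⟩ := Field.exists_primitive_element k F
  have h1 : F1 k₁ F N ≤ IntermediateField.adjoin k₁ {algebraMap F N θ} := by
    refine IntermediateField.adjoin_le_iff.2 ?_
    rintro _ ⟨z, rfl⟩
    let S : IntermediateField k F :=
      ((IntermediateField.adjoin k₁ {algebraMap F N θ}).restrictScalars k).comap
        (IsScalarTower.toAlgHom k F N)
    have h2 : (⊤ : IntermediateField k F) ≤ S := by
      rw [← hθ]
      refine IntermediateField.adjoin_le_iff.2 ?_
      rintro _ rfl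
      exact IntermediateField.mem_adjoin_simple_self k₁ (algebraMap F N _)
    exact h2 (IntermediateField.mem_top (x := z))
  have h3 : IsIntegral k₁ (algebraMap F N θ) := by
    have h4 : IsIntegral k (algebraMap F N θ) := (Algebra.IsIntegral.isIntegral (R := k) θ).algebraMap
    exact h4.tower_top
  have h5 := IntermediateField.adjoin.finiteDimensional h3
  exact FiniteDimensional.of_injective (IntermediateField.inclusion h1).toLinearMap
    (IntermediateField.inclusion h1).injective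

include k in
theorem norm_F1 : Normal k₁ (F1 k₁ F N) := by
  have hfd : FiniteDimensional k₁ (F1 k₁ F N) := fd_F1 (k := k)
  rw [normal_iff]
  intro x
  have hx : IsIntegral k₁ x := Algebra.IsIntegral.isIntegral x
  refine ⟨hx, Splits.of_splits_map (algebraMap (F1 k₁ F N) N) (IsAlgClosed.splits _)
    fun y hy => ?_⟩
  have hyr : aeval y (minpoly k₁ x) = 0 := by
    rw [mem_roots', IsRoot.def, Polynomial.map_map,
      ← IsScalarTower.algebraMap_eq, eval_map_algebraMap] at hy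
    exact hy.2
  have hxr : aeval (algebraMap (F1 k₁ F N) N x) (minpoly k₁ x) = 0 := by
    rw [aeval_algebraMap_apply, minpoly.aeval, map_zero]
  obtain ⟨τ, hτ⟩ := Pool.Agent.Y241.WR.conj_root _ (minpoly.irreducible hx) hxr hyr
  exact ⟨⟨τ (x : N), act_F1 (k := k) τ x x.2⟩, hτ⟩

include k in
theorem char_F1 : CharZero (F1 k₁ F N) := by
  have h1 : CharZero k₁ := charZero_of_injective_algebraMap (algebraMap k k₁).injective
  exact charZero_of_injective_algebraMap (algebraMap k₁ (F1 k₁ F N)).injective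

include k in
theorem gal_F1 : IsGalois k₁ (F1 k₁ F N) := by
  have hfd : FiniteDimensional k₁ (F1 k₁ F N) := fd_F1 (k := k)
  have hn : Normal k₁ (F1 k₁ F N) := norm_F1 (k := k)
  have h1 : CharZero k₁ := charZero_of_injective_algebraMap (algebraMap k k₁).injective
  exact ⟨⟩

include k in
theorem lift_F1 (σ : F1 k₁ F N ≃ₐ[k₁] F1 k₁ F N) : ∃ τ : N ≃ₐ[k₁] N, ∀ x : F1 k₁ F N,
    τ (x : N) = (σ x : N) := by
  have hfd : FiniteDimensional k₁ (F1 k₁ F N) := fd_F1 (k := k)
  obtain ⟨τ, hτ⟩ := Pool.Agent.Y241.WR.surj ((F1 k₁ F N).val)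
    ((F1 k₁ F N).val.comp (σ : F1 k₁ F N →ₐ[k₁] F1 k₁ F N))
  exact ⟨τ, hτ⟩

include k in
theorem res_F1 (τ : N ≃ₐ[k₁] N) : ∃ σ : F1 k₁ F N ≃ₐ[k₁] F1 k₁ F N, ∀ x : F1 k₁ F N,
    τ (x : N) = (σ x : N) := by
  have hn : Normal k₁ (F1 k₁ F N) := norm_F1 (k := k)
  refine ⟨τ.restrictNormal (F1 k₁ F N), fun x => ?_⟩
  exact (AlgEquiv.restrictNormal_commutes τ (F1 k₁ F N) x).symm

theorem exists_rho : ∃ ρ : (F1 k₁ F N ≃ₐ[k₁] F1 k₁ F N) →* (F ≃ₐ[k] F),
    Function.Injective ρ ∧ ∀ σ (z : F), ((σ ⟨algebraMap F N z, mem_F1 z⟩ : F1 k₁ F N) : N) =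
      algebraMap F N (ρ σ z) := by
  have hex : ∀ σ : F1 k₁ F N ≃ₐ[k₁] F1 k₁ F N, ∃ g : F ≃ₐ[k] F, ∀ z : F,
      ((σ ⟨algebraMap F N z, mem_F1 z⟩ : F1 k₁ F N) : N) = algebraMap F N (g z) := by
    intro σ
    obtain ⟨τ, hτ⟩ := lift_F1 (k := k) σ
    obtain ⟨g, hg⟩ := res1 (k := k) (F := F) τ
    exact ⟨g, fun z => by rw [← hτ, ← hg]⟩
  choose ρ hρ using hex
  refine ⟨MonoidHom.mk' ρ fun a b => ?_, ?_, hρ⟩
  · apply AlgEquiv.ext
    intro z
    apply (algebraMap F N).injective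
    rw [← hρ, AlgEquiv.mul_apply, AlgEquiv.mul_apply, ← hρ]
    congr 2
    apply Subtype.ext
    exact hρ b z
  · intro a b hab
    have hab' : ρ a = ρ b := hab
    obtain ⟨τ, hτ⟩ := lift_F1 (k := k) a
    obtain ⟨τ', hτ'⟩ := lift_F1 (k := k) b
    apply AlgEquiv.ext
    intro y
    apply Subtype.ext
    rw [← hτ, ← hτ']
    refine eq_F1 (k₁ := k₁) (F := F) (N := N) (τ := τ) (τ' := τ') (fun z => ?_) (y : N) y.2
    have h1 := hτ ⟨algebraMap F N z, mem_F1 z⟩
    have h2 := hτ' ⟨algebraMap F N z, mem_F1 z⟩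
    rw [hρ] at h1 h2
    rw [hab'] at h1
    exact h1.trans h2.symm

end gen

end Pool.Agent.N455.EP
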