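import Mathlib
import Pool.Agent.H84.L.A3_N455_EP_Bch0
import Pool.Agent.H84.L.A3_N455_EP_Bch1
import Pool.Agent.H84.L.A3_N70_EP_Stm
import Pool.Agent.H84.L.S8_H391R2_T4_Fam
import Pool.Agent.H84.L.S8_H391R2_T4_Nod
import Pool.Agent.H84.L.S8_H391R2_T4_Red
import Pool.Agent.H84.L.S8_H391R2_T4_Sem
import Pool.Agent.H84.L.S8_TH15_IGP_TwB
import Pool.Agent.H84.L.S8_TH444_TW_RS
import Pool.Agent.H84.L.S8_TH444_TW_RSK
import Pool.Agent.H84.L.S8_TH444_WC_Gal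
import Pool.Agent.H84.L.S8_W200_IG_Fam
import Pool.Agent.H84.L.S8_W200_IG_HF
import Pool.Agent.H84.L.S8_W200_IJ_SA
import Pool.Agent.H84.L.S8_Y241_WR_Ext
import Pool.Agent.H84.L.S8_Y793_Sb

namespace Pool.Agent.H391R2.T4
end Pool.Agent.H391R2.T4
namespace Pool.Agent.N70.EP
end Pool.Agent.N70.EP
namespace Pool.Agent.TH444.WC
end Pool.Agent.TH444.WC


set_option autoImplicit false
set_option maxHeartbeats 1000000
set_option linter.unusedSectionVars false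

namespace Pool.Agent.N455.EP

open Polynomial Pool.Agent.TH444.WC Pool.Agent.N70.EP Pool.Agent.H391R2.T4

/- An automorphism fixing `L₁` and the variable is an automorphism over `K₁(t)`. -/
theorem up {K₁ L₁ N : Type} [Field K₁] [Field L₁] [Field N] [Algebra K₁ L₁]
    [Algebra (RatFunc K₁) N] [Algebra K₁ N] [IsScalarTower K₁ (RatFunc K₁) N] [Algebra L₁ N]
    [IsScalarTower K₁ L₁ N] (τ : N ≃ₐ[L₁] N)
    (h : τ (algebraMap (RatFunc K₁) N RatFunc.X) = algebraMap (RatFunc K₁) N RatFunc.X) :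
    ∃ τ' : N ≃ₐ[RatFunc K₁] N, ∀ x, τ' x = τ x := by
  have h1 : (τ : N →+* N).comp (algebraMap (RatFunc K₁) N) = algebraMap (RatFunc K₁) N := by
    apply ratFunc_hom_ext
    · intro k
      simp only [RingHom.comp_apply]
      rw [← IsScalarTower.algebraMap_apply K₁ (RatFunc K₁) N,
        IsScalarTower.algebraMap_apply K₁ L₁ N]
      exact τ.commutes _
    · exact h
  exact ⟨AlgEquiv.ofRingEquiv (f := (τ : N ≃+* N)) (fun r => RingHom.congr_fun h1 r), fun _ => rfl⟩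

/- Automorphisms of the constants extend. -/
theorem ari {K₁ L₁ N : Type} [Field K₁] [Field L₁] [Field N] [IsAlgClosed N] [Algebra K₁ L₁]
    [Algebra (RatFunc K₁) N] [Algebra K₁ N] [IsScalarTower K₁ (RatFunc K₁) N] [Algebra L₁ N]
    [IsScalarTower K₁ L₁ N] [Algebra (RatFunc L₁) N] [IsScalarTower L₁ (RatFunc L₁) N]
    (hX : algebraMap (RatFunc K₁) N RatFunc.X = algebraMap (RatFunc L₁) N RatFunc.X)
    (h : L₁ ≃ₐ[K₁] L₁) :
    ∃ τ : N ≃ₐ[RatFunc K₁] N, ∀ x, τ (algebraMap L₁ N x) = algebraMap L₁ N (h x) := by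
  have hex : ∀ g : L₁ ≃ₐ[K₁] L₁, ∃ Φ : RatFunc L₁ →+* RatFunc L₁,
      (∀ a, Φ (algebraMap L₁ (RatFunc L₁) a) = algebraMap L₁ (RatFunc L₁) (g a)) ∧
      Φ RatFunc.X = RatFunc.X := by
    intro g
    refine ratHom ((algebraMap L₁ (RatFunc L₁)).comp (g : L₁ →+* L₁)) RatFunc.X ?_
    intro p hp
    rw [← eval₂_map] at hp
    have h1 : aeval (RatFunc.X : RatFunc L₁) (p.map (g : L₁ →+* L₁)) = 0 := hp
    have h2 : Transcendental L₁ (RatFunc.X : RatFunc L₁) := by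
      rw [← RatFunc.algebraMap_X]
      exact (transcendental_algebraMap_iff (IsFractionRing.injective L₁[X] (RatFunc L₁))).2
        (Polynomial.transcendental_X L₁)
    have h3 : p.map (g : L₁ →+* L₁) = 0 := (transcendental_iff.1 h2) _ h1
    exact (Polynomial.map_eq_zero_iff (f := (g : L₁ →+* L₁)) g.injective).1 h3
  obtain ⟨Φ, hΦ, hΦX⟩ := hex h
  obtain ⟨Ψ, hΨ, hΨX⟩ := hex h.symm
  have e1 : Φ.comp Ψ = RingHom.id _ := by
    apply ratFunc_hom_ext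
    · intro k
      rw [RingHom.comp_apply, hΨ, hΦ, h.apply_symm_apply, RingHom.id_apply]
    · rw [RingHom.comp_apply, hΨX, hΦX, RingHom.id_apply]
  have e2 : Ψ.comp Φ = RingHom.id _ := by
    apply ratFunc_hom_ext
    · intro k
      rw [RingHom.comp_apply, hΦ, hΨ, h.symm_apply_apply, RingHom.id_apply]
    · rw [RingHom.comp_apply, hΦX, hΨX, RingHom.id_apply]
  obtain ⟨τ, hτ⟩ := Pool.Agent.Y241.WR.ext_ring (N := N) (RingEquiv.ofRingHom Φ Ψ e1 e2)
  have hτ' : ∀ x : RatFunc L₁, τ (algebraMap (RatFunc L₁) N x) = algebraMap (RatFunc L₁) N (Φ x) :=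
    hτ
  have hτL : ∀ x : L₁, τ (algebraMap L₁ N x) = algebraMap L₁ N (h x) := by
    intro x
    rw [IsScalarTower.algebraMap_apply L₁ (RatFunc L₁) N, hτ', hΦ,
      ← IsScalarTower.algebraMap_apply L₁ (RatFunc L₁) N]
  have h1 : (τ : N →+* N).comp (algebraMap (RatFunc K₁) N) = algebraMap (RatFunc K₁) N := by
    apply ratFunc_hom_ext
    · intro k
      simp only [RingHom.comp_apply]
      rw [← IsScalarTower.algebraMap_apply K₁ (RatFunc K₁) N,
        IsScalarTower.algebraMap_apply K₁ L₁ N]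
      change τ (algebraMap L₁ N (algebraMap K₁ L₁ k)) = _
      rw [hτL, h.commutes]
    · simp only [RingHom.comp_apply]
      rw [hX]
      change τ (algebraMap (RatFunc L₁) N RatFunc.X) = _
      rw [hτ', hΦX]
  exact ⟨AlgEquiv.ofRingEquiv (f := τ) (fun r => RingHom.congr_fun h1 r), hτL⟩

/- Elements algebraic over `L₁` fixed by the automorphisms over `L₁(t)`. -/
theorem fixL {L₁ N : Type} [Field L₁] [CharZero L₁] [Field N] [IsAlgClosed N]
    [Algebra L₁ N] [Algebra (RatFunc L₁) N] [IsScalarTower L₁ (RatFunc L₁) N] (x : N)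
    (hx : IsAlgebraic L₁ x)
    (h : ∀ τ : N ≃ₐ[L₁] N, τ (algebraMap (RatFunc L₁) N RatFunc.X) =
      algebraMap (RatFunc L₁) N RatFunc.X → τ x = x) : x ∈ Set.range (algebraMap L₁ N) := by
  have hc : CharZero (RatFunc L₁) :=
    charZero_of_injective_algebraMap (algebraMap L₁ (RatFunc L₁)).injective
  obtain ⟨y, rfl⟩ := Pool.Agent.Y241.WR.fixed (k := RatFunc L₁) x (hx.tower_top (RatFunc L₁)) (fun τ => by
    refine h (τ.restrictScalars L₁) ?_
    exact τ.commutes _)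
  have h1 : IsAlgebraic L₁ y :=
    (isAlgebraic_algebraMap_iff (algebraMap (RatFunc L₁) N).injective).1 hx
  obtain ⟨a, rfl⟩ := ratFunc_alg y h1
  exact ⟨a, IsScalarTower.algebraMap_apply L₁ (RatFunc L₁) N a⟩

theorem core {K L K₁ L₁ F N : Type} [Field K] [CharZero K] [Field L] [Algebra K L]
    [Field K₁] [Field L₁] [Algebra K₁ L₁] [FiniteDimensional K₁ L₁]
    [IsGalois K₁ L₁] [Algebra K K₁] [Algebra L L₁] (f : (L₁ ≃ₐ[K₁] L₁) ≃* (L ≃ₐ[K] L))
    (hE : Ext2 K L K₁ L₁ f) [Field F] [Algebra (RatFunc K) F] [Algebra L F]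
    [FiniteDimensional (RatFunc K) F] [IsGalois (RatFunc K) F] {E : Type} [Group E]
    (α : E →* (L ≃ₐ[K] L)) (γ : (F ≃ₐ[RatFunc K] F) ≃* E)
    (hγ : ∀ (σ : F ≃ₐ[RatFunc K] F) (x : L), σ (algebraMap L F x) =
      algebraMap L F (α (γ σ) x))
    [Field N] [IsAlgClosed N] [Algebra (RatFunc K) (RatFunc K₁)] [Algebra (RatFunc K) N]
    [Algebra F N] [IsScalarTower (RatFunc K) F N] [Algebra (RatFunc K₁) N]
    [IsScalarTower (RatFunc K) (RatFunc K₁) N] [Algebra K₁ N] [IsScalarTower K₁ (RatFunc K₁) N]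
    [Algebra L₁ N] [IsScalarTower K₁ L₁ N] [Algebra (RatFunc L₁) N]
    [IsScalarTower L₁ (RatFunc L₁) N]
    (c1 : ∀ x : L, algebraMap F N (algebraMap L F x) = algebraMap L₁ N (algebraMap L L₁ x))
    (c2 : algebraMap (RatFunc K₁) N RatFunc.X = algebraMap F N (algebraMap (RatFunc K) F RatFunc.X))
    (c3 : algebraMap (RatFunc K₁) N RatFunc.X = algebraMap (RatFunc L₁) N RatFunc.X)
    (hgeo : ∀ g : F ≃ₐ[RatFunc K] F, α (γ g) = 1 → ∃ τ : N ≃ₐ[L₁] N,
      (∀ x : N, IsAlgebraic L₁ x → τ x = x) ∧ ∀ z : F, τ (algebraMap F N z) =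
        algebraMap F N (g z)) :
    RegSol K₁ L₁ E ((f.symm : (L ≃ₐ[K] L) →* (L₁ ≃ₐ[K₁] L₁)).comp α) := by
  have hcK : CharZero (RatFunc K) :=
    charZero_of_injective_algebraMap (algebraMap K (RatFunc K)).injective
  have hcK₁ : CharZero K₁ := charZero_of_injective_algebraMap (algebraMap K K₁).injective
  have hcL₁ : CharZero L₁ := charZero_of_injective_algebraMap (algebraMap K₁ L₁).injective
  -- T2
  have T2 : ∀ τ : N ≃ₐ[RatFunc K₁] N, ∃ h : L₁ ≃ₐ[K₁] L₁, ∀ x, τ (algebraMap L₁ N x) =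
      algebraMap L₁ N (h x) := fun τ => res1 (k := K₁) (F := L₁) τ
  have T1 : ∀ τ : N ≃ₐ[RatFunc K₁] N, ∃ g : F ≃ₐ[RatFunc K] F, ∀ z, τ (algebraMap F N z) =
      algebraMap F N (g z) := fun τ => res1 (k := RatFunc K) (F := F) τ
  have T3 : ∀ (τ : N → N) (g : F ≃ₐ[RatFunc K] F) (h : L₁ ≃ₐ[K₁] L₁),
      (∀ z, τ (algebraMap F N z) = algebraMap F N (g z)) →
      (∀ x, τ (algebraMap L₁ N x) = algebraMap L₁ N (h x)) → f h = α (γ g) := by
    intro τ g h hg hh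
    apply AlgEquiv.ext
    intro x
    apply (algebraMap L L₁).injective
    apply (algebraMap L₁ N).injective
    rw [← hE.res, ← hh, ← c1, hg, hγ, c1]
  have hs : ∀ (τ : N ≃ₐ[L₁] N) (g : F ≃ₐ[RatFunc K] F),
      (∀ z, τ (algebraMap F N z) = algebraMap F N (g z)) →
      τ (algebraMap (RatFunc K₁) N RatFunc.X) = algebraMap (RatFunc K₁) N RatFunc.X := by
    intro τ g hg
    rw [c2, hg, g.commutes]
  -- T4
  have T4 : ∀ g : F ≃ₐ[RatFunc K] F, ∃ τ : N ≃ₐ[RatFunc K₁] N, ∀ z, τ (algebraMap F N z) =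
      algebraMap F N (g z) := by
    intro g
    obtain ⟨τ₀, hτ₀⟩ := ari (N := N) c3 (f.symm (α (γ g)))
    obtain ⟨g₀, hg₀⟩ := T1 τ₀
    have h1 := T3 τ₀ g₀ _ hg₀ hτ₀
    rw [MulEquiv.apply_symm_apply] at h1
    have h2 : α (γ (g₀⁻¹ * g)) = 1 := by
      rw [map_mul, map_mul, h1, ← map_mul, ← map_mul, inv_mul_cancel, map_one, map_one]
    obtain ⟨τ₁, -, hτ₁⟩ := hgeo _ h2
    obtain ⟨τ₂, hτ₂⟩ := up (K₁ := K₁) τ₁ (hs τ₁ _ hτ₁)
    refine ⟨τ₀ * τ₂, fun z => ?_⟩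
    rw [AlgEquiv.mul_apply, hτ₂, hτ₁, hg₀, ← AlgEquiv.mul_apply, mul_inv_cancel_left]
  obtain ⟨ρ, hρi, hρ⟩ := exists_rho (k := RatFunc K) (k₁ := RatFunc K₁) (F := F) (N := N)
  have hρs : Function.Surjective ρ := by
    intro g
    obtain ⟨τ, hτ⟩ := T4 g
    obtain ⟨σ, hσ⟩ := res_F1 (k := RatFunc K) (F := F) τ
    refine ⟨σ, ?_⟩
    apply AlgEquiv.ext
    intro z
    apply (algebraMap F N).injective
    rw [← hρ, ← hσ]
    exact hτ z
  have hcF : CharZero (F1 (RatFunc K₁) F N) := char_F1 (k := RatFunc K)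
  -- the constants
  have hmemL : ∀ l : L₁, algebraMap L₁ N l ∈ F1 (RatFunc K₁) F N := by
    intro l
    have halg : IsAlgebraic (F1 (RatFunc K₁) F N) (algebraMap L₁ N l) := by
      have h1 : IsAlgebraic K₁ (algebraMap L₁ N l) :=
        (Algebra.IsAlgebraic.isAlgebraic (R := K₁) l).algebraMap
      have h2 : IsAlgebraic (RatFunc K₁) (algebraMap L₁ N l) := h1.tower_top (RatFunc K₁)
      exact h2.tower_top (F1 (RatFunc K₁) F N)
    obtain ⟨z, hz⟩ := Pool.Agent.Y241.WR.fixed (k := F1 (RatFunc K₁) F N) _ halg (fun τ => by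
      let τ' : N ≃ₐ[RatFunc K₁] N := τ.restrictScalars (RatFunc K₁)
      obtain ⟨h, hh⟩ := T2 τ'
      have h1 := T3 τ' 1 h (fun z => τ.commutes (⟨_, mem_F1 z⟩ : F1 (RatFunc K₁) F N)) hh
      rw [map_one, map_one] at h1
      have h2 : h = 1 := (map_eq_one_iff f f.injective).1 h1
      have h3 := hh l
      rw [h2] at h3
      exact h3)
    rw [← hz]
    exact z.2
  let iL : Algebra L₁ (F1 (RatFunc K₁) F N) :=
    ((algebraMap L₁ N).codRestrict (F1 (RatFunc K₁) F N) hmemL).toAlgebra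
  have hiL : ∀ l : L₁, ((algebraMap L₁ (F1 (RatFunc K₁) F N) l : F1 (RatFunc K₁) F N) : N) =
      algebraMap L₁ N l := fun _ => rfl
  have tL : IsScalarTower L₁ (F1 (RatFunc K₁) F N) N := .of_algebraMap_eq fun _ => rfl
  have tK : IsScalarTower K₁ L₁ (F1 (RatFunc K₁) F N) := by
    refine .of_algebraMap_eq fun x => ?_
    apply Subtype.ext
    rw [hiL, ← IsScalarTower.algebraMap_apply K₁ L₁ N]
    rfl
  have hfd : FiniteDimensional (RatFunc K₁) (F1 (RatFunc K₁) F N) := fd_F1 (k := RatFunc K)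
  have hgal : IsGalois (RatFunc K₁) (F1 (RatFunc K₁) F N) := gal_F1 (k := RatFunc K)
  refine ⟨F1 (RatFunc K₁) F N, inferInstance, inferInstance, iL, inferInstance, inferInstance, tK,
    hfd, hgal, (MulEquiv.ofBijective ρ ⟨hρi, hρs⟩).trans γ, ?_, ?_⟩
  · intro σ x
    obtain ⟨τ, hτ⟩ := lift_F1 (k := RatFunc K) σ
    obtain ⟨h, hh⟩ := T2 τ
    have h1 := T3 τ (ρ σ) h (fun z => by rw [← hρ, ← hτ]) hh
    have h2 : h = f.symm (α (γ (ρ σ))) := by rw [← h1, MulEquiv.symm_apply_apply]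
    apply Subtype.ext
    rw [← hτ, hiL, hh, hiL, h2]
    rfl
  · intro y hy
    have hy1 : IsAlgebraic L₁ (y : N) := hy.algebraMap
    obtain ⟨l, hl⟩ := fixL (y : N) hy1 (fun τ hτ => by
      rw [← c3] at hτ
      obtain ⟨τ', hτ'⟩ := up (K₁ := K₁) τ hτ
      obtain ⟨g, hg⟩ := T1 τ'
      have h1 := T3 τ' g 1 hg (fun x => by
        rw [hτ']
        exact τ.commutes x)
      rw [map_one] at h1
      obtain ⟨τ₁, hτ₁a, hτ₁⟩ := hgeo g h1.symm
      obtain ⟨τ₂, hτ₂⟩ := up (K₁ := K₁) τ₁ (hs τ₁ _ hτ₁)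
      have h2 := eq_F1 (k₁ := RatFunc K₁) (F := F) (N := N) (τ := τ') (τ' := τ₂)
        (fun z => by rw [hg, hτ₂, hτ₁]) (y : N) y.2
      rw [← hτ', h2, hτ₂]
      exact hτ₁a _ hy1)
    exact ⟨l, Subtype.ext hl⟩

end Pool.Agent.N455.EP
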