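import Mathlib
import Pool.Agent.H84.L.S8_TH444_WC_Gal

namespace Pool.Agent.H391R2
end Pool.Agent.H391R2
namespace Pool.Agent.H391R2.T4
end Pool.Agent.H391R2.T4
namespace Pool.Agent.TH444.WC
end Pool.Agent.TH444.WC


set_option autoImplicit false
set_option linter.unusedSectionVars false
set_option linter.unusedSimpArgs false

namespace Pool.Agent.Y793

open Polynomial Pool.Agent.H391R2 Pool.Agent.H391R2.T4 Pool.Agent.TH444.WC

section gal

variable {K L Z : Type} [Field K] [Field L] [Algebra K L] [Field Z]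
  [Algebra (RatFunc K) Z] [Algebra L Z] [Algebra K Z] [IsScalarTower K (RatFunc K) Z]
  [IsScalarTower K L Z] [Algebra (RatFunc K) (RatFunc L)] [Algebra (RatFunc L) Z]
  [IsScalarTower (RatFunc K) (RatFunc L) Z] [IsScalarTower L (RatFunc L) Z]
  (hp : ∀ p : K[X], algebraMap (RatFunc K) (RatFunc L) (algebraMap K[X] (RatFunc K) p) =
        algebraMap L[X] (RatFunc L) (p.map (algebraMap K L)))
  (π : (Z ≃ₐ[RatFunc K] Z) →* (L ≃ₐ[K] L))
  (hπ : ∀ (σ : Z ≃ₐ[RatFunc K] Z) (x : L), σ (algebraMap L Z x) = algebraMap L Z (π σ x))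

include hp hπ

theorem lift_ker (γ : Z ≃ₐ[RatFunc K] Z) (hγ : π γ = 1) :
    ∃ γ' : Z ≃ₐ[RatFunc L] Z, ∀ z, γ' z = γ z := by
  have h1 : ((γ : Z →+* Z).comp (algebraMap (RatFunc L) Z)) = algebraMap (RatFunc L) Z := by
    apply ratFunc_hom_ext
    · intro l
      simp only [RingHom.comp_apply]
      rw [← IsScalarTower.algebraMap_apply L (RatFunc L) Z]
      change γ (algebraMap L Z l) = _
      rw [hπ, hγ]
      rfl
    · simp only [RingHom.comp_apply]
      have h2 : (RatFunc.X : RatFunc L) = algebraMap (RatFunc K) (RatFunc L) RatFunc.X := by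
        rw [← RatFunc.algebraMap_X, ← RatFunc.algebraMap_X, hp, map_X]
      rw [h2, ← IsScalarTower.algebraMap_apply]
      exact γ.commutes _
  exact ⟨AlgEquiv.ofRingEquiv (f := γ.toRingEquiv) (fun q => RingHom.congr_fun h1 q),
    fun _ => rfl⟩

omit hp in
theorem ker_restrict (γ' : Z ≃ₐ[RatFunc L] Z) : π (γ'.restrictScalars (RatFunc K)) = 1 := by
  apply AlgEquiv.ext
  intro l
  apply (algebraMap L Z).injective
  rw [← hπ]
  change γ' (algebraMap L Z l) = algebraMap L Z l
  rw [IsScalarTower.algebraMap_apply L (RatFunc L) Z]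
  exact γ'.commutes _


end gal


end Pool.Agent.Y793
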