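import Mathlib
import Pool.Agent.H84.L.S8_Y793_Fam
import Pool.Agent.H84.L.S8_Y793_Stm

namespace Pool.Agent.H391R2
end Pool.Agent.H391R2


/-!
Change of the base field in the family of functions (project of helper793).
-/

set_option autoImplicit false
set_option linter.unusedSectionVars false
set_option linter.unusedSimpArgs false

namespace Pool.Agent.Y793

open Polynomial Pool.Agent.H391R2

section bc

variable {K L : Type} [Field K] [CharZero K] [Field L] [Algebra K L]
variable {E : Type} [CommRing E] [Algebra K E] [Algebra L E] [IsScalarTower K L E]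

theorem bc_inv (n : ℕ) : algebraMap L E ((n : L) + 1)⁻¹ = algebraMap K E ((n : K) + 1)⁻¹ := by
  rw [IsScalarTower.algebraMap_apply K L E, map_inv₀ (algebraMap K L), map_add, map_natCast,
    map_one]

theorem adr_bc (p : E[X]) : adr L p = adr K p := by
  ext n
  rcases n with _ | n
  · rw [coeff_adr_zero, coeff_adr_zero]
  · rw [coeff_adr_succ, coeff_adr_succ, bc_inv (K := K)]

/- The family over `L`. -/
noncomputable abbrev mpL (K L : Type) [Field K] [Field L] [Algebra K L] (p : K[X]) : L[X] :=
  p.map (algebraMap K L)

theorem mpL_map (p : K[X]) : (mpL K L p).map (algebraMap L E) = p.map (algebraMap K E) := by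
  rw [mpL, Polynomial.map_map, ← IsScalarTower.algebraMap_eq]

variable {ι : Type} [Fintype ι] (D : K[X]) (κ g u : ι → K[X])


end bc


end Pool.Agent.Y793
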