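import Mathlib
import Pool.Agent.H84.L.A3_N455_EP_Bch0
import Pool.Agent.H84.L.A3_N455_EP_Bch2
import Pool.Agent.H84.L.A3_N70_EP_Stm
import Pool.Agent.H84.L.S8_H391R2_T4_Red
import Pool.Agent.H84.L.S8_TH15_IGP_TwB
import Pool.Agent.H84.L.S8_TH444_TW_RS
import Pool.Agent.H84.L.S8_TH444_TW_RSK
import Pool.Agent.H84.L.S8_TH444_WC_Gal
import Pool.Agent.H84.L.S8_W200_IG_HF
import Pool.Agent.H84.L.S8_Y793_E_Core
import Pool.Agent.H84.L.S8_Y793_E_Rl

namespace Pool.Agent.H391R2.T4
end Pool.Agent.H391R2.T4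
namespace Pool.Agent.N70.EP
end Pool.Agent.N70.EP
namespace Pool.Agent.TH444.WC
end Pool.Agent.TH444.WC
namespace Pool.Agent.Y793
end Pool.Agent.Y793


set_option autoImplicit false
set_option maxHeartbeats 1000000
set_option linter.unusedSectionVars false

namespace Pool.Agent.N455.EP

open Polynomial Pool.Agent.TH444.WC Pool.Agent.N70.EP Pool.Agent.H391R2.T4 Pool.Agent.Y793

theorem eval_inj {A L₁ N : Type} [Field A] [Field L₁] [Field N] [Algebra A L₁] [Algebra L₁ N]
    {s : N} (hs : Transcendental L₁ s) (p : A[X])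
    (hp : eval₂ ((algebraMap L₁ N).comp (algebraMap A L₁)) s p = 0) : p = 0 := by
  rw [← eval₂_map] at hp
  have h1 : aeval s (p.map (algebraMap A L₁)) = 0 := hp
  have h3 := (transcendental_iff.1 hs) _ h1
  exact (Polynomial.map_eq_zero_iff (algebraMap A L₁).injective).1 h3

theorem fin {K L K₁ L₁ F N : Type} [Field K] [CharZero K] [Field L] [Algebra K L]
    [FiniteDimensional K L] [Field K₁] [Field L₁] [Algebra K₁ L₁] [FiniteDimensional K₁ L₁]
    [IsGalois K₁ L₁] [Algebra K K₁] [Algebra L L₁] (f : (L₁ ≃ₐ[K₁] L₁) ≃* (L ≃ₐ[K] L))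
    (hE : Ext2 K L K₁ L₁ f) [Field F] [Algebra (RatFunc K) F] [Algebra L F] [Algebra K F]
    [IsScalarTower K (RatFunc K) F] [IsScalarTower K L F]
    [FiniteDimensional (RatFunc K) F] [IsGalois (RatFunc K) F] {E : Type} [Group E]
    (α : E →* (L ≃ₐ[K] L)) (γ : (F ≃ₐ[RatFunc K] F) ≃* E)
    (hγ : ∀ (σ : F ≃ₐ[RatFunc K] F) (x : L), σ (algebraMap L F x) =
      algebraMap L F (α (γ σ) x))
    (hregF : ∀ y : F, IsAlgebraic L y → y ∈ Set.range (algebraMap L F))
    [Field N] [IsAlgClosed N] [Algebra L₁ N] [Algebra (RatFunc L₁) N]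
    [IsScalarTower L₁ (RatFunc L₁) N] :
    RegSol K₁ L₁ E ((f.symm : (L ≃ₐ[K] L) →* (L₁ ≃ₐ[K₁] L₁)).comp α) := by
  have hcL : CharZero L := charZero_of_injective_algebraMap (algebraMap K L).injective
  obtain ⟨iKL, iLF', t1, t2, fd', gal', hp⟩ := exists_ratL (K := K) (L := L) (F := F)
  have hs : Transcendental L₁ (algebraMap (RatFunc L₁) N RatFunc.X) := by
    have h2 : Transcendental L₁ (RatFunc.X : RatFunc L₁) := by
      rw [← RatFunc.algebraMap_X]
      exact (transcendental_algebraMap_iff (IsFractionRing.injective L₁[X] (RatFunc L₁))).2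
        (Polynomial.transcendental_X L₁)
    exact (transcendental_algebraMap_iff (algebraMap (RatFunc L₁) N).injective).2 h2
  obtain ⟨ΦK₁, hK₁a, hK₁X⟩ := ratHom ((algebraMap L₁ N).comp (algebraMap K₁ L₁)) _
    (fun p hp => eval_inj hs p hp)
  obtain ⟨ΦL, hLa, hLX⟩ := ratHom ((algebraMap L₁ N).comp (algebraMap L L₁)) _
    (fun p hp => eval_inj hs p hp)
  have hXK₁ : Transcendental K₁ (RatFunc.X : RatFunc K₁) := by
    rw [← RatFunc.algebraMap_X]
    exact (transcendental_algebraMap_iff (IsFractionRing.injective K₁[X] (RatFunc K₁))).2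
      (Polynomial.transcendental_X K₁)
  obtain ⟨j, hja, hjX⟩ := ratHom ((algebraMap K₁ (RatFunc K₁)).comp (algebraMap K K₁)) _
    (fun p hp => eval_inj hXK₁ p hp)
  let a1 : Algebra (RatFunc L) N := ΦL.toAlgebra
  let φ : F →ₐ[RatFunc L] N := IsAlgClosed.lift
  let a2 : Algebra F N := φ.toRingHom.toAlgebra
  have s1 : IsScalarTower (RatFunc L) F N := .of_algebraMap_eq fun x => (φ.commutes x).symm
  let a3 : Algebra L N := ((algebraMap L₁ N).comp (algebraMap L L₁)).toAlgebra
  have s2 : IsScalarTower L L₁ N := .of_algebraMap_eq fun _ => rfl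
  have s3 : IsScalarTower L (RatFunc L) N := .of_algebraMap_eq fun x => (hLa x).symm
  let a4 : Algebra (RatFunc K₁) N := ΦK₁.toAlgebra
  let a5 : Algebra K₁ N := ((algebraMap L₁ N).comp (algebraMap K₁ L₁)).toAlgebra
  have s4 : IsScalarTower K₁ L₁ N := .of_algebraMap_eq fun _ => rfl
  have s5 : IsScalarTower K₁ (RatFunc K₁) N := .of_algebraMap_eq fun x => (hK₁a x).symm
  let a6 : Algebra (RatFunc K) (RatFunc K₁) := j.toAlgebra
  let a7 : Algebra (RatFunc K) N := (ΦK₁.comp j).toAlgebra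
  have s6 : IsScalarTower (RatFunc K) (RatFunc K₁) N := .of_algebraMap_eq fun _ => rfl
  have c1 : ∀ x : L, algebraMap F N (algebraMap L F x) = algebraMap L₁ N (algebraMap L L₁ x) := by
    intro x
    rw [IsScalarTower.algebraMap_apply L (RatFunc L) F,
      ← IsScalarTower.algebraMap_apply (RatFunc L) F N]
    exact hLa x
  have hXF : algebraMap (RatFunc K) F RatFunc.X = algebraMap (RatFunc L) F RatFunc.X := by
    have h2 : (RatFunc.X : RatFunc L) = algebraMap (RatFunc K) (RatFunc L) RatFunc.X := by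
      rw [← RatFunc.algebraMap_X, ← RatFunc.algebraMap_X, hp, map_X]
    rw [h2, ← IsScalarTower.algebraMap_apply]
  have c2' : algebraMap F N (algebraMap (RatFunc K) F RatFunc.X) =
      algebraMap (RatFunc L₁) N RatFunc.X := by
    rw [hXF, ← IsScalarTower.algebraMap_apply (RatFunc L) F N]
    exact hLX
  have c3 : algebraMap (RatFunc K₁) N RatFunc.X = algebraMap (RatFunc L₁) N RatFunc.X := hK₁X
  have s7 : IsScalarTower (RatFunc K) F N := by
    have h1 : (algebraMap F N).comp (algebraMap (RatFunc K) F) = ΦK₁.comp j := by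
      apply ratFunc_hom_ext
      · intro k
        rw [RingHom.comp_apply, RingHom.comp_apply, hja,
          ← IsScalarTower.algebraMap_apply K (RatFunc K) F,
          IsScalarTower.algebraMap_apply K L F, c1, RingHom.comp_apply, hK₁a, RingHom.comp_apply,
          hE.comm]
      · rw [RingHom.comp_apply, RingHom.comp_apply, hjX, hK₁X, c2']
    exact .of_algebraMap_eq fun x => (RingHom.congr_fun h1 x).symm
  refine core (N := N) f hE α γ hγ c1 (c3.trans c2'.symm) c3 ?_
  intro g hg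
  obtain ⟨g', hg'⟩ := lift_ker hp (α.comp (γ : (F ≃ₐ[RatFunc K] F) →* E)) hγ g hg
  have hsL : Transcendental L₁ (algebraMap (RatFunc L) N RatFunc.X) := by
    have h1 : algebraMap (RatFunc L) N RatFunc.X = algebraMap (RatFunc L₁) N RatFunc.X := hLX
    rw [h1]
    exact hs
  obtain ⟨τ, hτa, hτ⟩ := geo (L := L) (L₁ := L₁) (F := F) (N := N) hregF hsL g'
  exact ⟨τ, hτa, fun z => by rw [hτ, hg']⟩

/- Base change of regular solutions. -/
theorem t_bch : St_bch := by
  intro K L K₁ L₁ _ _ _ _ _ _ _ _ _ _ _ _ _ f hE E _ _ α hreg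
  obtain ⟨F, iF, iRF, iLF, iKF, tKRF, tKLF, fdF, galF, γ, hγ, hregF⟩ := hreg
  exact fin (N := AlgebraicClosure (RatFunc L₁)) f hE α γ hγ hregF

end Pool.Agent.N455.EP
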