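import Mathlib
import Pool.Agent.H84.L.A3_N600_UK_Compl
import Pool.Agent.H84.L.A3_N70_EP_Stm
import Pool.Agent.H84.L.S8_H391R2_T4_Nod
import Pool.Agent.H84.L.S8_H391R2_T4_Sem
import Pool.Agent.H84.L.S8_H391R2_T4_Sym
import Pool.Agent.H84.L.S8_H391R2_WrGrp
import Pool.Agent.H84.L.S8_TH15_IGP_TwB
import Pool.Agent.H84.L.S8_TH444_TW_RS
import Pool.Agent.H84.L.S8_TH444_TW_RSK
import Pool.Agent.H84.L.S8_TH59_WX_GT1
import Pool.Agent.H84.L.S8_TH59_WX_GT2
import Pool.Agent.H84.L.S8_W200_IG_Fam
import Pool.Agent.H84.L.S8_W200_IG_HF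
import Pool.Agent.H84.L.S8_W200_IJ_SA
import Pool.Agent.H84.L.S8_Y793_E_App
import Pool.Agent.H84.L.S8_Y793_Stm

namespace Pool.Agent.H391R2
end Pool.Agent.H391R2
namespace Pool.Agent.H391R2.T4
end Pool.Agent.H391R2.T4
namespace Pool.Agent.TH59.WX
end Pool.Agent.TH59.WX
namespace Pool.Agent.Y793
end Pool.Agent.Y793


/-!
# Extensions by alternating wreath products `G ≀ A_n` (project EP, part AUT)

Exported: `t_aut : St_aut`. The arguments for `G ≀ S_n` are in `TH59.WX.GT1`, `TH59.WX.GT2` and
`N600.UK.Compl`.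
-/

set_option autoImplicit false

namespace Pool.Agent.N891.EP

open Pool.Agent.H391R2 Pool.Agent.H391R2.T4 Pool.Agent.TH59.WX Pool.Agent.Y793
  Pool.Agent.N600.UK Pool.Agent.N70.EP

section gt

variable {G : Type} [Group G] {n : ℕ}


/- The element `g` in the `i`-th factor of the base group. -/
def sg (i : Fin n) (g : G) : AWr G n := ⟨sgl i g, by
  change Equiv.Perm.sign (1 : Equiv.Perm (Fin n)) = 1
  exact map_one _⟩

/- The even permutations. -/
def evn (σ : Equiv.Perm (Fin n)) (hσ : Equiv.Perm.sign σ = 1) : AWr G n :=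
  ⟨SemidirectProduct.inr σ, hσ⟩

theorem sg_right (i : Fin n) (g : G) : (sg i g : AWr G n).1.right = 1 := rfl

theorem aw_ext {x y : AWr G n} (h1 : ∀ i, x.1.left i = y.1.left i) (h2 : x.1.right = y.1.right) :
    x = y := Subtype.ext (wr_ext h1 h2)

theorem sg_mul (i : Fin n) (g h : G) : (sg i (g * h) : AWr G n) = sg i g * sg i h :=
  Subtype.ext (sgl_mul i g h)

theorem sg_inj {i : Fin n} {g h : G} (e : (sg i g : AWr G n) = sg i h) : g = h :=
  sgl_inj (congrArg Subtype.val e)

theorem sg_one (i : Fin n) : (sg i (1 : G) : AWr G n) = 1 := Subtype.ext (sgl_one i)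

/- An even permutation with a given value. -/
theorem exists_even (hn : 4 ≤ n) (i j : Fin n) :
    ∃ σ : Equiv.Perm (Fin n), Equiv.Perm.sign σ = 1 ∧ σ i = j := by
  classical
  by_cases hij : i = j
  · exact ⟨1, map_one _, hij⟩
  · obtain ⟨m, hm⟩ : ∃ m : Fin n, m ∉ ({i, j} : Finset (Fin n)) := by
      by_contra hcon
      push Not at hcon
      have h6 : (Finset.univ : Finset (Fin n)) ⊆ {i, j} := fun m _ => hcon m
      have h7 := Finset.card_le_card h6
      rw [Finset.card_univ, Fintype.card_fin] at h7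
      have h8 := Finset.card_le_two (a := i) (b := j)
      omega
    simp only [Finset.mem_insert, Finset.mem_singleton, not_or] at hm
    refine ⟨Equiv.swap i j * Equiv.swap j m, ?_, ?_⟩
    · rw [map_mul, Equiv.Perm.sign_swap hij, Equiv.Perm.sign_swap (Ne.symm hm.2)]
      rfl
    · rw [Equiv.Perm.mul_apply, Equiv.swap_apply_of_ne_of_ne hij (Ne.symm hm.1),
        Equiv.swap_apply_left]

/- The projection to the alternating group. -/
def pr (G : Type) [Group G] (n : ℕ) : AWr G n →* alternatingGroup (Fin n) :=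
  ((SemidirectProduct.rightHom : Wr G n →* Equiv.Perm (Fin n)).comp (AWr G n).subtype).codRestrict
    (alternatingGroup (Fin n)) (fun x => x.2)

theorem pr_surj : Function.Surjective (pr G n) := fun σ => ⟨evn σ.1 σ.2, rfl⟩

theorem mem_ker_pr (x : AWr G n) : x ∈ (pr G n).ker ↔ x.1.right = 1 := by
  rw [MonoidHom.mem_ker]
  exact ⟨fun h => congrArg Subtype.val h, fun h => Subtype.ext h⟩

/- Normal subgroups of the order of the base group are equal to it. -/
theorem base_le' [Finite G] (hn : 2 * (Nat.card G + 4) ≤ n) (M : Subgroup (AWr G n))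
    (hM : M.Normal) (hc : Nat.card M = Nat.card G ^ n) (x : AWr G n) (hx : x ∈ M) :
    x.1.right = 1 := by
  classical
  have h5 : 5 ≤ Nat.card (Fin n) := by
    rw [Nat.card_eq_fintype_card, Fintype.card_fin]
    omega
  have hnn : Nontrivial (Fin n) := Fin.nontrivial_iff_two_le.2 (by omega)
  have hnorm : (M.map (pr G n)).Normal := hM.map _ pr_surj
  rcases alternatingGroup.normal_subgroup_eq_bot_or_eq_top h5 (N := M.map (pr G n)) with h | h
  · have h1 : pr G n x ∈ M.map (pr G n) := ⟨x, hx, rfl⟩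
    rw [h, Subgroup.mem_bot] at h1
    exact congrArg Subtype.val h1
  · exfalso
    have h2 : Nat.card (alternatingGroup (Fin n)) ∣ Nat.card G ^ n := by
      rw [← hc]
      have h1 : Nat.card (M.map (pr G n)) ∣ Nat.card M := Subgroup.card_map_dvd _ _
      rwa [h, Subgroup.card_top] at h1
    obtain ⟨p, hp, hp1, hp2⟩ := Nat.exists_prime_lt_and_le_two_mul (Nat.card G + 2) (by omega)
    have h3 : p ∣ Nat.card (alternatingGroup (Fin n)) := by
      have h4 : p ∣ 2 * Nat.card (alternatingGroup (Fin n)) := by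
        rw [two_mul_nat_card_alternatingGroup, Nat.card_perm, Nat.card_eq_fintype_card,
          Fintype.card_fin]
        exact (Nat.Prime.dvd_factorial hp).2 (hp2.trans (by omega))
      rcases (Nat.Prime.dvd_mul hp).1 h4 with h | h
      · have := Nat.le_of_dvd (by norm_num) h
        omega
      · exact h
    have h6 := hp.dvd_of_dvd_pow (h3.trans h2)
    have := Nat.le_of_dvd Nat.card_pos h6
    omega

theorem card_base' [Finite G] : Nat.card (pr G n).ker = Nat.card G ^ n := by
  have h1 : Nat.card (pr G n).ker = Nat.card (Fin n → G) := by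
    refine Nat.card_congr ⟨fun x => x.1.1.left,
      fun f => ⟨⟨⟨f, 1⟩, by
        change Equiv.Perm.sign (1 : Equiv.Perm (Fin n)) = 1
        exact map_one _⟩, rfl⟩, fun x => ?_, fun f => rfl⟩
    apply Subtype.ext
    refine aw_ext (fun i => rfl) ?_
    exact ((mem_ker_pr x.1).1 x.2).symm
  rw [h1, Nat.card_fun, Nat.card_eq_fintype_card (α := Fin n), Fintype.card_fin]

theorem base_map' [Finite G] (hn : 2 * (Nat.card G + 4) ≤ n) (a : MulAut (AWr G n))
    (x : AWr G n) (hx : x.1.right = 1) : (a x).1.right = 1 := by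
  have hinj : Function.Injective (a : AWr G n →* AWr G n) := a.injective
  refine base_le' hn ((pr G n).ker.map (a : AWr G n →* AWr G n))
    ((MonoidHom.normal_ker _).map _ a.surjective) ?_ (a x) ⟨x, (mem_ker_pr x).2 hx, rfl⟩
  rw [← card_base' (G := G) (n := n)]
  exact (Nat.card_congr (Subgroup.equivMapOfInjective _ _ hinj).toEquiv).symm

theorem base_iff' [Finite G] (hn : 2 * (Nat.card G + 4) ≤ n) (a : MulAut (AWr G n))
    (x : AWr G n) : (a x).1.right = 1 ↔ x.1.right = 1 := by
  refine ⟨fun h => ?_, base_map' hn a x⟩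
  have h1 := base_map' hn a⁻¹ (a x) h
  rwa [MulAut.inv_apply_self] at h1

theorem eq_sg (hZ : ∀ z : G, (∀ g : G, z * g = g * z) → z = 1) (i : Fin n) (x : AWr G n)
    (hx : x.1.right = 1) (h : ∀ j, j ≠ i → ∀ g : G, x * sg j g = sg j g * x) :
    x = sg i (x.1.left i) :=
  Subtype.ext (eq_sgl hZ i x.1 hx fun j hj g => congrArg Subtype.val (h j hj g))

theorem sg_comm {i j : Fin n} (hij : j ≠ i) (g h : G) :
    (sg i g : AWr G n) * sg j h = sg j h * sg i g := Subtype.ext (sgl_comm hij g h)

theorem bml (x y : AWr G n) (hx : x.1.right = 1) (i : Fin n) :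
    (x * y).1.left i = x.1.left i * y.1.left i := base_mul_left x.1 y.1 hx i

/- The image of a factor contains its components. -/
theorem comp_mem' [Finite G] (hn : 2 * (Nat.card G + 4) ≤ n)
    (hZ : ∀ z : G, (∀ g : G, z * g = g * z) → z = 1) (a : MulAut (AWr G n)) (i k : Fin n)
    (g : G) : ∃ u : G, a (sg i u) = sg k ((a (sg i g)).1.left k) := by
  set c := (a (sg i g)).1.left k with hc
  set b := a⁻¹ (sg k c) with hb
  have hb1 : b.1.right = 1 := base_map' hn a⁻¹ _ rfl
  have hab : a b = sg k c := by rw [hb, MulAut.apply_inv_self]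
  have hcomm : ∀ j, j ≠ i → ∀ g' : G, b * sg j g' = sg j g' * b := by
    intro j hj g'
    apply a.injective
    rw [map_mul, map_mul, hab]
    have hy : (a (sg j g')).1.right = 1 := base_map' hn a _ rfl
    have hx : (a (sg i g)).1.right = 1 := base_map' hn a _ rfl
    have h1 : a (sg i g) * a (sg j g') = a (sg j g') * a (sg i g) := by
      rw [← map_mul, ← map_mul, sg_comm hj]
    have h2 := congrArg (fun y : AWr G n => y.1.left k) h1
    simp only [bml _ _ hx, bml _ _ hy] at h2
    refine aw_ext (fun l => ?_) ?_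
    · rw [bml _ _ (sg_right k c), bml _ _ hy]
      by_cases hl : l = k
      · subst hl
        change (sgl l c).left l * _ = _ * (sgl l c).left l
        rw [sgl_left_self]
        exact h2
      · change (sgl k c).left l * _ = _ * (sgl k c).left l
        rw [sgl_left_ne hl, one_mul, mul_one]
    · change (sgl k c * (a (sg j g')).1).right = ((a (sg j g')).1 * sgl k c).right
      rw [wr_mul_right, wr_mul_right, hy, sgl_right]
  refine ⟨b.1.left i, ?_⟩
  rw [← eq_sg hZ i b hb1 hcomm, hab]

theorem fix_of_comm' (x : AWr G n) (k : Fin n) (c : G) (hc : c ≠ 1)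
    (h : x * sg k c = sg k c * x) : x.1.right k = k :=
  fix_of_comm x.1 k c hc (congrArg Subtype.val h)

theorem evn_comm (i : Fin n) (g : G) (σ : Equiv.Perm (Fin n)) (h : Equiv.Perm.sign σ = 1)
    (hσ : σ i = i) : (evn σ h : AWr G n) * sg i g = sg i g * evn σ h :=
  Subtype.ext (inr_comm i g σ hσ)

/- The image of a factor has at most one nontrivial component. -/
theorem one_comp' [Finite G] (hn : 2 * (Nat.card G + 4) ≤ n)
    (hZ : ∀ z : G, (∀ g : G, z * g = g * z) → z = 1) (a : MulAut (AWr G n)) (i k l : Fin n)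
    (hkl : k ≠ l) (g₁ g₂ : G) (h1 : (a (sg i g₁)).1.left k ≠ 1) :
    (a (sg i g₂)).1.left l = 1 := by
  classical
  by_contra h2
  obtain ⟨u, hu⟩ := comp_mem' hn hZ a i k g₁
  obtain ⟨v, hv⟩ := comp_mem' hn hZ a i l g₂
  have hfix : ∀ (σ : Equiv.Perm (Fin n)) (h : Equiv.Perm.sign σ = 1), σ i = i →
      (a (evn σ h)).1.right k = k ∧ (a (evn σ h)).1.right l = l := by
    intro σ h hσ
    constructor
    · refine fix_of_comm' _ k _ h1 ?_
      rw [← hu, ← map_mul, ← map_mul, evn_comm i u σ h hσ]
    · refine fix_of_comm' _ l _ h2 ?_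
      rw [← hv, ← map_mul, ← map_mul, evn_comm i v σ h hσ]
  let S : Fin n → Finset (Equiv.Perm (Fin n)) := fun j =>
    Finset.univ.filter fun σ => Equiv.Perm.sign σ = 1 ∧ σ j = j
  have hcard : (S i).card = (S k).card := by
    refine Finset.card_bij (fun σ _ => Equiv.swap i k * σ * Equiv.swap i k) ?_ ?_ ?_
    · intro σ hσ
      simp only [S, Finset.mem_filter, Finset.mem_univ, true_and] at hσ ⊢
      refine ⟨?_, by simp [hσ.2]⟩
      rw [map_mul, map_mul, hσ.1, mul_one, ← map_mul, Equiv.swap_mul_self, map_one]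
    · intro σ _ τ _ h
      simpa using h
    · intro σ hσ
      simp only [S, Finset.mem_filter, Finset.mem_univ, true_and] at hσ
      refine ⟨Equiv.swap i k * σ * Equiv.swap i k, ?_, ?_⟩
      · simp only [S, Finset.mem_filter, Finset.mem_univ, true_and]
        refine ⟨?_, by simp [hσ.2]⟩
        rw [map_mul, map_mul, hσ.1, mul_one, ← map_mul, Equiv.swap_mul_self, map_one]
      · simp only [← mul_assoc, Equiv.swap_mul_self, one_mul]
        rw [mul_assoc, Equiv.swap_mul_self, mul_one]
  have hle : (S i).card ≤ ((S k) ∩ (S l)).card := by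
    have hS : ∀ σ ∈ S i, Equiv.Perm.sign σ = 1 ∧ σ i = i := by
      intro σ hσ
      simpa only [S, Finset.mem_filter, Finset.mem_univ, true_and] using hσ
    let f : Equiv.Perm (Fin n) → Equiv.Perm (Fin n) := fun σ =>
      if h : Equiv.Perm.sign σ = 1 then (a (evn σ h)).1.right else 1
    have hf : ∀ (σ : Equiv.Perm (Fin n)) (h : Equiv.Perm.sign σ = 1),
        f σ = (a (evn σ h)).1.right := fun σ h => dif_pos h
    refine Finset.card_le_card_of_injOn f ?_ ?_
    · intro σ hσ
      obtain ⟨h3, h4⟩ := hS σ hσ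
      simp only [S, Finset.coe_inter, Finset.coe_filter, Finset.mem_univ, true_and,
        Set.mem_inter_iff, Set.mem_ofPred_eq]
      rw [hf σ h3]
      exact ⟨⟨(a (evn σ h3)).2, (hfix σ h3 h4).1⟩, ⟨(a (evn σ h3)).2, (hfix σ h3 h4).2⟩⟩
    · intro σ hσ τ hτ h
      obtain ⟨h3, _⟩ := hS σ hσ
      obtain ⟨h4, _⟩ := hS τ hτ
      rw [hf σ h3, hf τ h4] at h
      have h5 : (a (evn σ h3 * (evn τ h4)⁻¹)).1.right = 1 := by
        rw [map_mul, map_inv]
        change ((a (evn σ h3)).1 * (a (evn τ h4)).1⁻¹).right = 1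
        rw [wr_mul_right, SemidirectProduct.inv_right, h, mul_inv_cancel]
      rw [base_iff' hn] at h5
      have h6 : σ * τ⁻¹ = 1 := h5
      exact mul_inv_eq_one.1 h6
  have hlt : ((S k) ∩ (S l)).card < (S k).card := by
    refine Finset.card_lt_card ?_
    rw [Finset.ssubset_iff_of_subset Finset.inter_subset_left]
    obtain ⟨m, hm⟩ : ∃ m : Fin n, m ∉ ({k, l} : Finset (Fin n)) := by
      by_contra hcon
      push Not at hcon
      have h6 : (Finset.univ : Finset (Fin n)) ⊆ {k, l} := fun m _ => hcon m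
      have h7 := Finset.card_le_card h6
      rw [Finset.card_univ, Fintype.card_fin] at h7
      have h8 := Finset.card_le_two (a := k) (b := l)
      omega
    obtain ⟨m', hm'⟩ : ∃ m' : Fin n, m' ∉ ({k, l, m} : Finset (Fin n)) := by
      by_contra hcon
      push Not at hcon
      have h6 : (Finset.univ : Finset (Fin n)) ⊆ {k, l, m} := fun m _ => hcon m
      have h7 := Finset.card_le_card h6
      rw [Finset.card_univ, Fintype.card_fin] at h7
      have h8 := Finset.card_le_three (a := k) (b := l) (c := m)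
      omega
    simp only [Finset.mem_insert, Finset.mem_singleton, not_or] at hm hm'
    refine ⟨Equiv.swap l m * Equiv.swap l m', ?_, ?_⟩
    · simp only [S, Finset.mem_filter, Finset.mem_univ, true_and]
      constructor
      · rw [map_mul, Equiv.Perm.sign_swap (Ne.symm hm.2), Equiv.Perm.sign_swap (Ne.symm hm'.2.1)]
        rfl
      · rw [Equiv.Perm.mul_apply, Equiv.swap_apply_of_ne_of_ne hkl (Ne.symm hm'.1),
          Equiv.swap_apply_of_ne_of_ne hkl (Ne.symm hm.1)]
    · simp only [S, Finset.mem_inter, Finset.mem_filter, Finset.mem_univ, true_and, not_and]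
      intro _ _
      rw [Equiv.Perm.mul_apply, Equiv.swap_apply_left,
        Equiv.swap_apply_of_ne_of_ne hm'.2.1 hm'.2.2]
      exact hm'.2.1
  omega

/- `d` describes the action of `a` on the factors of the base group. -/
def Rel' (a : MulAut (AWr G n)) (d : Wr (MulAut G) n) : Prop :=
  ∀ i g, a (sg i g) = sg (d.right i) (d.left (d.right i) g)

theorem exists_rel' [Finite G] [Nontrivial G] (hn : 2 * (Nat.card G + 4) ≤ n)
    (hZ : ∀ z : G, (∀ g : G, z * g = g * z) → z = 1) (a : MulAut (AWr G n)) :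
    ∃ d, Rel' a d := by
  classical
  obtain ⟨g₀, hg₀⟩ := exists_ne (1 : G)
  have hr : ∀ i g, (a (sg i g)).1.right = 1 := fun i g => base_map' hn a _ rfl
  have h1 : ∀ i, ∃ k, (a (sg i g₀)).1.left k ≠ 1 := by
    intro i
    by_contra hcon
    push Not at hcon
    have h2 : a (sg i g₀) = a 1 := by
      rw [map_one]
      exact aw_ext hcon (hr i g₀)
    have h3 := a.injective h2
    rw [← sg_one i] at h3
    exact hg₀ (sg_inj h3)
  choose p hp using h1
  have h2 : ∀ i g, a (sg i g) = sg (p i) ((a (sg i g)).1.left (p i)) := by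
    intro i g
    refine aw_ext (fun j => ?_) (hr i g)
    change _ = (sgl (p i) ((a (sg i g)).1.left (p i))).left j
    by_cases hj : j = p i
    · rw [hj, sgl_left_self]
    · rw [sgl_left_ne hj]
      exact one_comp' hn hZ a i (p i) j (Ne.symm hj) g₀ g (hp i)
  let δ : Fin n → (G →* G) := fun i => MonoidHom.mk' (fun g => (a (sg i g)).1.left (p i))
    (fun g h => by rw [sg_mul, map_mul, bml _ _ (hr i g)])
  have hδ : ∀ i g, a (sg i g) = sg (p i) (δ i g) := h2
  have hinj : ∀ i, Function.Injective (δ i) := by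
    intro i g h hgh
    have h3 : a (sg i g) = a (sg i h) := by rw [hδ, hδ, hgh]
    exact sg_inj (a.injective h3)
  have hbij : ∀ i, Function.Bijective (δ i) := fun i => Finite.injective_iff_bijective.1 (hinj i)
  have hpinj : Function.Injective p := by
    intro i j hij
    by_contra hne
    obtain ⟨g', hg'⟩ := (hbij j).2 (δ i g₀)
    have h3 : a (sg j g') = a (sg i g₀) := by rw [hδ, hδ, hg', hij]
    have h4 := congrArg (fun x : AWr G n => x.1.left i) (a.injective h3)
    change (sgl j g').left i = (sgl i g₀).left i at h4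
    simp only [sgl_left_self, sgl_left_ne hne] at h4
    exact hg₀ h4.symm
  let π : Equiv.Perm (Fin n) := Equiv.ofBijective p (Finite.injective_iff_bijective.1 hpinj)
  refine ⟨⟨fun k => MulEquiv.ofBijective (δ (π.symm k)) (hbij _), π⟩, fun i g => ?_⟩
  rw [hδ]
  change sg (p i) (δ i g) = sg (π i) (δ (π.symm (π i)) g)
  rw [Equiv.symm_apply_apply]
  rfl

theorem rel_unique' [Nontrivial G] (a : MulAut (AWr G n)) (d e : Wr (MulAut G) n)
    (hd : Rel' a d) (he : Rel' a e) : d = e := by
  obtain ⟨g₀, hg₀⟩ := exists_ne (1 : G)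
  have h1 : ∀ i, d.right i = e.right i := by
    intro i
    by_contra hne
    have h2 := (hd i g₀).symm.trans (he i g₀)
    have h3 := congrArg (fun x : AWr G n => x.1.left (d.right i)) h2
    change (sgl (d.right i) (d.left (d.right i) g₀)).left (d.right i) =
      (sgl (e.right i) (e.left (e.right i) g₀)).left (d.right i) at h3
    simp only [sgl_left_self, sgl_left_ne hne] at h3
    exact hg₀ ((map_eq_one_iff _ (d.left (d.right i)).injective).1 h3)
  have h1' : d.right = e.right := Equiv.ext h1
  refine SemidirectProduct.ext (funext fun k => ?_) h1'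
  obtain ⟨i, rfl⟩ := d.right.surjective k
  apply MulEquiv.ext
  intro g
  have h2 := (hd i g).symm.trans (he i g)
  rw [← h1'] at h2
  exact sg_inj h2

theorem rel_mul' (a b : MulAut (AWr G n)) (d e : Wr (MulAut G) n) (hd : Rel' a d)
    (he : Rel' b e) : Rel' (a * b) (d * e) := by
  intro i g
  rw [MulAut.mul_apply, he i g, hd, wr_mul_left, wr_mul_right]
  have h1 : d.right⁻¹ ((d.right * e.right) i) = e.right i := by simp
  rw [h1]
  rfl

theorem rel_conj' (w : AWr G n) : Rel' (MulAut.conj w) (cm G n w.1) := by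
  intro i g
  apply Subtype.ext
  exact rel_conj w.1 i g

/- The homomorphism to the wreath product with `Aut G`. -/
theorem exists_D' [Finite G] [Nontrivial G] (hn : 2 * (Nat.card G + 4) ≤ n)
    (hZ : ∀ z : G, (∀ g : G, z * g = g * z) → z = 1) :
    ∃ D : MulAut (AWr G n) →* Wr (MulAut G) n,
      (∀ w : AWr G n, D (MulAut.conj w) = cm G n w.1) ∧
      ∀ a j k, cls G ((D a).left j) = cls G ((D a).left k) := by
  classical
  choose f hf using exists_rel' (G := G) (n := n) hn hZ
  let D : MulAut (AWr G n) →* Wr (MulAut G) n := MonoidHom.mk' f (fun a b =>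
    rel_unique' (a * b) _ _ (hf _) (rel_mul' a b _ _ (hf a) (hf b)))
  have hD : ∀ a, Rel' a (D a) := hf
  have hDc : ∀ w : AWr G n, D (MulAut.conj w) = cm G n w.1 :=
    fun w => rel_unique' _ _ _ (hD _) (rel_conj' w)
  refine ⟨D, hDc, fun a j k => ?_⟩
  obtain ⟨σ, hσ, hσ2⟩ := exists_even (by omega) ((D a).right⁻¹ k) ((D a).right⁻¹ j)
  let w : AWr G n := evn σ hσ
  have h1 : a * MulAut.conj w * a⁻¹ = MulAut.conj (a w) := by
    apply MulEquiv.ext
    intro x
    rw [MulAut.mul_apply, MulAut.mul_apply, MulAut.conj_apply, MulAut.conj_apply, map_mul,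
      map_mul, MulAut.apply_inv_self, map_inv]
  have h2 := congrArg D h1
  rw [map_mul, map_mul, map_inv, hDc, hDc] at h2
  have h3 := congrArg (fun x : Wr (MulAut G) n => cls G (x.left j)) h2
  simp only [wr_mul_left, wr_inv_left, wr_mul_right, map_mul, map_inv, cm_left, cm_right,
    cls_conj, mul_one] at h3
  have h4 : (D a).right (((D a).right * w.1.right)⁻¹ j) = k := by
    change (D a).right (((D a).right * σ)⁻¹ j) = k
    rw [mul_inv_rev, Equiv.Perm.mul_apply]
    change (D a).right (σ⁻¹ ((D a).right⁻¹ j)) = k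
    rw [← hσ2]
    simp
  rw [h4] at h3
  exact mul_inv_eq_one.1 h3

end gt

/- **The extensions by `G ≀ A_n` are twisted fibre powers.** -/
theorem t_aut : St_aut := by
  intro G _ _ _ hZ n hn X Γ _ _ p hp ⟨ι'⟩
  classical
  set ι : AWr G n ≃* p.ker := ι'.symm with hι
  obtain ⟨D, hDc, hDcl⟩ := exists_D' (G := G) (n := n) hn hZ
  have hn0 : 0 < n := by omega
  let j₀ : Fin n := ⟨0, hn0⟩
  let c : X →* MulAut (AWr G n) := (MulAut.congr ι.symm).toMonoidHom.comp MulAut.conjNormal
  have hc : ∀ w : AWr G n, c (ι w) = MulAut.conj w := by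
    intro w
    apply MulEquiv.ext
    intro x
    change ι.symm (MulAut.conjNormal (ι w : X) (ι x)) = w * x * w⁻¹
    rw [MulEquiv.symm_apply_eq]
    apply Subtype.ext
    rw [MulAut.conjNormal_apply]
    simp only [map_mul, map_inv, Subgroup.coe_mul, Subgroup.coe_inv]
  let d : X →* Wr (MulAut G) n := D.comp c
  have hd : ∀ w : AWr G n, d (ι w) = cm G n w.1 := by
    intro w
    change D (c (ι w)) = _
    rw [hc, hDc]
  have hcl : ∀ x j k, cls G ((d x).left j) = cls G ((d x).left k) := fun x j k => hDcl (c x) j k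
  let ψ : X →* Out G := MonoidHom.mk' (fun x => cls G ((d x).left j₀)) (fun x y => by
    rw [map_mul, wr_mul_left, map_mul, hcl y _ j₀])
  have hψ : ∀ x j, cls G ((d x).left j) = ψ x := fun x j => hcl x j j₀
  have hker : p.ker ≤ ψ.ker := by
    intro x hx
    obtain ⟨w, hw⟩ := ι.surjective ⟨x, hx⟩
    have h1 : (ι w : X) = x := congrArg Subtype.val hw
    rw [MonoidHom.mem_ker, ← hψ x j₀, ← h1, hd, cm_left, cls_conj]
  let o : Γ →* Out G := p.liftOfSurjective hp ⟨ψ, hker⟩
  have ho : ∀ x, o (p x) = ψ x := fun x =>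
    MonoidHom.liftOfRightInverse_comp_apply p _ (Function.rightInverse_surjInv hp) ⟨ψ, hker⟩ x
  let s : X →* ℤˣ := (Equiv.Perm.sign.comp SemidirectProduct.rightHom).comp d
  have hs : ∀ x, s x = Equiv.Perm.sign (d x).right := fun x => rfl
  have hker2 : p.ker ≤ s.ker := by
    intro x hx
    obtain ⟨w, hw⟩ := ι.surjective ⟨x, hx⟩
    have h1 : (ι w : X) = x := congrArg Subtype.val hw
    rw [MonoidHom.mem_ker, hs, ← h1, hd, cm_right]
    exact w.2
  let χ : Γ →* ℤˣ := p.liftOfSurjective hp ⟨s, hker2⟩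
  have hχ : ∀ x, χ (p x) = s x := fun x =>
    MonoidHom.liftOfRightInverse_comp_apply p _ (Function.rightInverse_surjInv hp) ⟨s, hker2⟩ x
  -- the isomorphism
  have hmem : ∀ x j, ((d x).left j, p x) ∈ FB o := by
    intro x j
    change cls G ((d x).left j) = o (p x)
    rw [ho, hψ]
  let E : X → AltTw (pB o) χ n := fun x =>
    ⟨(⟨fun j => ⟨((d x).left j, p x), hmem x j⟩, (d x).right⟩, p x),
      Subgroup.mem_inf.2 ⟨fun j => rfl, by
        change Equiv.Perm.sign (d x).right = χ (p x)
        rw [hχ, hs]⟩⟩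
  let Eh : X →* AltTw (pB o) χ n := MonoidHom.mk' E (fun x y => by
    apply Subtype.ext
    refine Prod.ext ?_ (map_mul p x y)
    refine SemidirectProduct.ext (funext fun j => ?_) ?_
    · apply Subtype.ext
      refine Prod.ext ?_ (map_mul p x y)
      change (d (x * y)).left j = (d x).left j * (d y).left ((d x).right⁻¹ j)
      rw [map_mul, wr_mul_left]
    · change (d (x * y)).right = (d x).right * (d y).right
      rw [map_mul, wr_mul_right])
  have hE : Function.Bijective Eh := by
    constructor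
    · rw [injective_iff_map_eq_one]
      intro x hx
      have h1 : p x = 1 := congrArg (fun z : AltTw (pB o) χ n => z.1.2) hx
      obtain ⟨w, hw⟩ := ι.surjective ⟨x, h1⟩
      have h3 : (ι w : X) = x := congrArg Subtype.val hw
      have h4 : d x = 1 := by
        refine SemidirectProduct.ext (funext fun j => ?_) ?_
        · have h5 := congrArg (fun z : AltTw (pB o) χ n => ((z.1.1.left j : FB o) :
            MulAut G × Γ).1) hx
          exact h5
        · exact congrArg (fun z : AltTw (pB o) χ n => z.1.1.right) hx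
      rw [← h3, hd] at h4
      have h6 : w.1 = 1 := cm_inj hZ (h4.trans (map_one (cm G n)).symm)
      have h7 : w = 1 := Subtype.ext h6
      rw [← h3, h7, map_one]
      rfl
    · rintro ⟨⟨z, γ⟩, hz⟩
      obtain ⟨hz1, hz2⟩ := Subgroup.mem_inf.1 hz
      have hz1' : ∀ j, ((z.left j : FB o) : MulAut G × Γ).2 = γ := hz1
      have hz2' : Equiv.Perm.sign z.right = χ γ := hz2
      obtain ⟨x₀, rfl⟩ := hp γ
      let z' : Wr (MulAut G) n := ⟨fun j => ((z.left j : FB o) : MulAut G × Γ).1, z.right⟩
      have hz3 : ∀ j, cls G (z'.left j) = ψ x₀ := by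
        intro j
        have h1 : cls G ((z.left j : FB o) : MulAut G × Γ).1
          = o ((z.left j : FB o) : MulAut G × Γ).2 := (z.left j).2
        change cls G ((z.left j : FB o) : MulAut G × Γ).1 = _
        rw [h1, hz1', ho]
      have h2 : (d x₀)⁻¹ * z' ∈ (cm G n).range := by
        rw [mem_cm]
        intro i
        rw [wr_mul_left, wr_inv_left, map_mul, map_inv, hz3, hψ, inv_mul_cancel]
      obtain ⟨y, hy⟩ := h2
      have hy2 : Equiv.Perm.sign y.right = 1 := by
        have h3 : y.right = ((d x₀)⁻¹ * z').right := by rw [← hy, cm_right]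
        rw [h3, wr_mul_right, SemidirectProduct.inv_right, map_mul, map_inv]
        change (Equiv.Perm.sign (d x₀).right)⁻¹ * Equiv.Perm.sign z.right = 1
        rw [hz2', hχ, hs, inv_mul_cancel]
      let w : AWr G n := ⟨y, hy2⟩
      have hdw : d (x₀ * (ι w : X)) = z' := by
        rw [map_mul, hd]
        change d x₀ * cm G n y = z'
        rw [hy, mul_inv_cancel_left]
      have hpw : p (x₀ * (ι w : X)) = p x₀ := by
        rw [map_mul]
        have : p (ι w : X) = 1 := (ι w).2
        rw [this, mul_one]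
      refine ⟨x₀ * (ι w : X), ?_⟩
      apply Subtype.ext
      refine Prod.ext ?_ hpw
      refine SemidirectProduct.ext (funext fun j => ?_) ?_
      · apply Subtype.ext
        refine Prod.ext ?_ ?_
        · change (d (x₀ * (ι w : X))).left j = _
          rw [hdw]
        · change p (x₀ * (ι w : X)) = _
          rw [hpw]
          exact (hz1' j).symm
      · change (d (x₀ * (ι w : X))).right = _
        rw [hdw]
  exact ⟨o, χ, MulEquiv.ofBijective Eh hE, fun x => rfl⟩

end Pool.Agent.N891.EP
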