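import Mathlib
import Pool.Agent.H84.L.S8_TH59_WX_PA



/-!
# Automorphisms of direct products of indecomposable groups permute the factors
-/

set_option autoImplicit false

namespace Pool.Agent.TH59.WX

set_option linter.unusedSectionVars false

section perm

variable {ι : Type} [Finite ι] [DecidableEq ι] {T : ι → Type} [∀ i, Group (T i)]

theorem single_comm (i : ι) (t : T i) (x : ∀ i, T i) (hx : x i = 1) :
    Pi.mulSingle i t * x = x * Pi.mulSingle i t := by
  funext k
  by_cases hk : k = i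
  · subst hk
    simp [hx]
  · simp [Pi.mulSingle_eq_of_ne hk]

theorem single_split (i : ι) (x : ∀ i, T i) :
    ∃ y : ∀ i, T i, y i = 1 ∧ x = Pi.mulSingle i (x i) * y := by
  refine ⟨(Pi.mulSingle i (x i))⁻¹ * x, ?_, ?_⟩
  · simp
  · rw [mul_inv_cancel_left]

/- An element all of whose components have trivial `j`-th image has trivial `j`-th image. -/
theorem one_of_comp (f : MulAut (∀ i, T i)) (j : ι)
    (h : ∀ i (t : T i), f (Pi.mulSingle i t) j = 1) (x : ∀ i, T i) : f x j = 1 := by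
  classical
  cases nonempty_fintype ι
  let g : (∀ i, T i) →* T j := (Pi.evalMonoidHom T j).comp f.toMonoidHom
  have hg : ∀ y, g y = f y j := fun y => rfl
  rw [← hg]
  have h1 : x ∈ g.ker := by
    refine Subgroup.pi_mem_of_mulSingle_mem (H := g.ker) x fun i => ?_
    rw [MonoidHom.mem_ker, hg]
    exact h i _
  exact h1

theorem exists_sigma (hI : ∀ i, Indec (T i)) (hN : ∀ i, Nontrivial (T i))
    (f : MulAut (∀ i, T i)) (j : ι) :
    ∃ i, (∀ x : ∀ i, T i, x i = 1 → f x j = 1) ∧ ∃ t : T i, f (Pi.mulSingle i t) j ≠ 1 := by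
  obtain ⟨i, t, ht⟩ : ∃ (i : ι) (t : T i), f (Pi.mulSingle i t) j ≠ 1 := by
    by_contra hcon
    push Not at hcon
    obtain ⟨s, hs⟩ := exists_ne (1 : T j)
    apply hs
    have h1 := one_of_comp f j hcon (f⁻¹ (Pi.mulSingle j s))
    rw [MulAut.apply_inv_self, Pi.mulSingle_eq_same] at h1
    exact h1
  refine ⟨i, ?_, t, ht⟩
  let g : (∀ i, T i) →* T j := (Pi.evalMonoidHom T j).comp f.toMonoidHom
  have hg : ∀ y, g y = f y j := fun y => rfl
  let A : Subgroup (T j) := (g.comp (MonoidHom.mulSingle T i)).range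
  let B : Subgroup (T j) := (Pi.evalMonoidHom T i).ker.map g
  have h1 : A = ⊥ ∨ B = ⊥ := by
    refine hI j A B ?_ ?_
    · rintro _ ⟨t, rfl⟩ _ ⟨x, hx, rfl⟩
      change g (Pi.mulSingle i t) * g x = g x * g (Pi.mulSingle i t)
      rw [← map_mul, ← map_mul, single_comm i t x hx]
    · intro s
      obtain ⟨y, hy, hxy⟩ := single_split i (f⁻¹ (Pi.mulSingle j s))
      refine ⟨g (Pi.mulSingle i ((f⁻¹ (Pi.mulSingle j s)) i)), ⟨_, rfl⟩, g y, ⟨y, hy, rfl⟩, ?_⟩
      rw [← map_mul, ← hxy, hg, MulAut.apply_inv_self, Pi.mulSingle_eq_same]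
  rcases h1 with h | h
  · exfalso
    apply ht
    have h2 : g (Pi.mulSingle i t) ∈ A := ⟨t, rfl⟩
    rw [h] at h2
    exact h2
  · intro x hx
    have h2 : g x ∈ B := ⟨x, hx, rfl⟩
    rw [h] at h2
    exact h2

/- The index on which the `j`-th component of `f` depends. -/
noncomputable def sg (hI : ∀ i, Indec (T i)) (hN : ∀ i, Nontrivial (T i))
    (f : MulAut (∀ i, T i)) (j : ι) : ι := (exists_sigma hI hN f j).choose

theorem sg_spec (hI : ∀ i, Indec (T i)) (hN : ∀ i, Nontrivial (T i))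
    (f : MulAut (∀ i, T i)) (j : ι) (x : ∀ i, T i) (hx : x (sg hI hN f j) = 1) : f x j = 1 :=
  (exists_sigma hI hN f j).choose_spec.1 x hx

theorem sg_unique (hI : ∀ i, Indec (T i)) (hN : ∀ i, Nontrivial (T i))
    (f : MulAut (∀ i, T i)) (j i : ι) (h : ∀ x : ∀ i, T i, x i = 1 → f x j = 1) :
    sg hI hN f j = i := by
  by_contra hne
  obtain ⟨t, ht⟩ := (exists_sigma hI hN f j).choose_spec.2
  apply ht
  refine h _ ?_
  exact Pi.mulSingle_eq_of_ne (fun h' => hne h'.symm) _

theorem sg_mul (hI : ∀ i, Indec (T i)) (hN : ∀ i, Nontrivial (T i))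
    (f g : MulAut (∀ i, T i)) (j : ι) : sg hI hN (f * g) j = sg hI hN g (sg hI hN f j) := by
  refine sg_unique hI hN _ _ _ fun x hx => ?_
  rw [MulAut.mul_apply]
  exact sg_spec hI hN f j _ (sg_spec hI hN g _ x hx)

theorem sg_one (hI : ∀ i, Indec (T i)) (hN : ∀ i, Nontrivial (T i)) (j : ι) :
    sg hI hN (1 : MulAut (∀ i, T i)) j = j :=
  sg_unique hI hN _ _ _ fun x hx => hx

/- The permutation of the factors. -/
noncomputable def perm (hI : ∀ i, Indec (T i)) (hN : ∀ i, Nontrivial (T i)) :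
    MulAut (∀ i, T i) →* Equiv.Perm ι where
  toFun f :=
    { toFun := sg hI hN f⁻¹
      invFun := sg hI hN f
      left_inv := fun j => by rw [← sg_mul, inv_mul_cancel, sg_one]
      right_inv := fun j => by rw [← sg_mul, mul_inv_cancel, sg_one] }
  map_one' := by
    apply Equiv.ext
    intro j
    change sg hI hN 1⁻¹ j = j
    rw [inv_one, sg_one]
  map_mul' f g := by
    apply Equiv.ext
    intro j
    change sg hI hN (f * g)⁻¹ j = sg hI hN f⁻¹ (sg hI hN g⁻¹ j)
    rw [mul_inv_rev, sg_mul]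

theorem perm_spec (hI : ∀ i, Indec (T i)) (hN : ∀ i, Nontrivial (T i))
    (f : MulAut (∀ i, T i)) (i : ι) (x : ∀ i, T i) (hx : x i = 1) : f x (perm hI hN f i) = 1 := by
  refine sg_spec hI hN f _ x ?_
  have h1 : sg hI hN f (perm hI hN f i) = i := (perm hI hN f).symm_apply_apply i
  rw [h1]
  exact hx

theorem perm_unique (hI : ∀ i, Indec (T i)) (hN : ∀ i, Nontrivial (T i))
    (f : MulAut (∀ i, T i)) (π : Equiv.Perm ι)
    (h : ∀ (i : ι) (x : ∀ i, T i), x i = 1 → f x (π i) = 1) : perm hI hN f = π := by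
  apply Equiv.ext
  intro i
  have h1 : sg hI hN f (π i) = i := sg_unique hI hN f _ _ (h i)
  have h2 : (perm hI hN f).symm (π i) = i := h1
  rw [Equiv.symm_apply_eq] at h2
  exact h2.symm

theorem perm_iff (hI : ∀ i, Indec (T i)) (hN : ∀ i, Nontrivial (T i))
    (f : MulAut (∀ i, T i)) (i : ι) (x : ∀ i, T i) : f x (perm hI hN f i) = 1 ↔ x i = 1 := by
  refine ⟨fun h => ?_, perm_spec hI hN f i x⟩
  have h1 := perm_spec hI hN f⁻¹ _ (f x) h
  have h2 : (perm hI hN f)⁻¹ (perm hI hN f i) = i := (perm hI hN f).symm_apply_apply i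
  rw [map_inv, MulAut.inv_apply_self, h2] at h1
  exact h1

end perm

end Pool.Agent.TH59.WX
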