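import Mathlib
import Pool.Agent.H84.L.A3_N891_EP_Aut
import Pool.Agent.H84.L.S8_H391R2_WrGrp
import Pool.Agent.H84.L.S8_TH59_WX_GT1
import Pool.Agent.H84.L.S8_TH59_WX_PB
import Pool.Agent.H84.L.S8_Y793_Stm

namespace Pool.Agent.H391R2
end Pool.Agent.H391R2
namespace Pool.Agent.H391R2.T4
end Pool.Agent.H391R2.T4
namespace Pool.Agent.TH59.WX
end Pool.Agent.TH59.WX
namespace Pool.Agent.Y793
end Pool.Agent.Y793


/-!
# EP/CMP: the inner automorphisms of `G ≀ A_n` have a complement
-/

set_option autoImplicit false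

namespace Pool.Agent.N478.EP

open Pool.Agent.H391R2 Pool.Agent.H391R2.T4 Pool.Agent.Y793
  Pool.Agent.N600.UK Pool.Agent.N70.EP Pool.Agent.N891.EP
open Pool.Agent.TH59.WX hiding sg

section

variable {G : Type} [Group G] {n : ℕ}

/- an element which commutes with the base group is trivial -/
theorem triv_of_comm [Nontrivial G] (hZ : ∀ z : G, (∀ g : G, z * g = g * z) → z = 1)
    (y : AWr G n) (h : ∀ k g, y * sg k g = sg k g * y) : y = 1 := by
  obtain ⟨g₀, hg₀⟩ := exists_ne (1 : G)
  have hr : y.1.right = 1 := by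
    apply Equiv.ext
    intro k
    exact fix_of_comm' _ k g₀ hg₀ (h k g₀)
  refine aw_ext (fun k => ?_) hr
  refine hZ _ fun g => ?_
  have h4 := congrArg (fun y : AWr G n => y.1.left k) (h k g)
  simp only [bml _ _ hr, bml _ _ (sg_right k g)] at h4
  have h5 : (sg k g : AWr G n).1.left k = g := sgl_left_self k g
  rw [h5] at h4
  exact h4


end


end Pool.Agent.N478.EP

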