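import Mathlib
import Pool.Agent.H84.L.S8_H391R2_WrGrp

namespace Pool.Agent.H391R2
end Pool.Agent.H391R2
namespace Pool.Agent.Y793
end Pool.Agent.Y793


/-!
# Group theory of alternating wreath products (St_grp, St_perf)
-/

set_option autoImplicit false

namespace Pool.Agent.Y241.WR

open Pool.Agent.H391R2 Pool.Agent.Y793 Equiv

open scoped commutatorElement

variable {G : Type} [Group G] {n : ℕ}


theorem inv_fix {σ : Perm (Fin n)} {a : Fin n} (h : σ a = a) : σ⁻¹ a = a := by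
  rw [Perm.inv_eq_iff_eq, h]


section

variable (H : Subgroup (Wr G n))

theorem alt_le (h2 : ∀ a b a' b' : Fin n, a ≠ b → a' ≠ b' → ∀ g h : G, ∃ x ∈ H,
      x.right a = a' ∧ x.right b = b' ∧ x.left a' = g ∧ x.left b' = h)
    (h3 : ∃ x ∈ H, x.right.IsThreeCycle) (σ : Perm (Fin n)) (hσ : Perm.sign σ = 1) :
    ∃ x ∈ H, x.right = σ := by
  have hP : MulAction.IsPreprimitive (H.map SemidirectProduct.rightHom) (Fin n) := by
    refine MulAction.isPreprimitive_of_is_two_pretransitive ?_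
    rw [MulAction.is_two_pretransitive_iff]
    intro a b c d hab hcd
    obtain ⟨x, hx, h4, h5, -, -⟩ := h2 a b c d hab hcd 1 1
    exact ⟨⟨x.right, ⟨x, hx, rfl⟩⟩, h4, h5⟩
  obtain ⟨x, hx, hx3⟩ := h3
  have hle := Perm.alternatingGroup_le_of_isPreprimitive_of_isThreeCycle_mem hP hx3
    ⟨x, hx, rfl⟩
  obtain ⟨y, hy, hyσ⟩ := hle (Perm.mem_alternatingGroup.2 hσ)
  exact ⟨y, hy, hyσ⟩


/- The part of `H` inside the base group. -/
def Bs : Subgroup (Fin n → G) := H.comap SemidirectProduct.inl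

theorem mem_Bs {f : Fin n → G} : f ∈ Bs H ↔ (SemidirectProduct.inl f : Wr G n) ∈ H := Iff.rfl


end


end Pool.Agent.Y241.WR
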