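import Mathlib
import Pool.Agent.H84.L.A3_N600_NS_SemA
import Pool.Agent.H84.L.A3_N70_AW_Sa
import Pool.Agent.H84.L.A3_N70_AW_Sc
import Pool.Agent.H84.L.A3_N70_AW_Stm
import Pool.Agent.H84.L.A3_N70_EP_Sg
import Pool.Agent.H84.L.A3_N70_EP_Stm
import Pool.Agent.H84.L.A3_N70_EQ_Stm
import Pool.Agent.H84.L.S8_H391R2_T4_Sem
import Pool.Agent.H84.L.S8_H391R2_WrGrp
import Pool.Agent.H84.L.S8_TH15_IGP_TwB
import Pool.Agent.H84.L.S8_TH444_TW_RS
import Pool.Agent.H84.L.S8_TH444_TW_RSK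
import Pool.Agent.H84.L.S8_W200_IJ_SA
import Pool.Agent.H84.L.S8_Y203_J_Iso
import Pool.Agent.H84.L.S8_Y793_Gr

namespace Pool.Agent.H391R2
end Pool.Agent.H391R2
namespace Pool.Agent.N70.AW
end Pool.Agent.N70.AW
namespace Pool.Agent.N70.EP
end Pool.Agent.N70.EP
namespace Pool.Agent.N70.EQ
end Pool.Agent.N70.EQ
namespace Pool.Agent.Y793
end Pool.Agent.Y793


/-!
EQ/KUMO: every nontrivial character is detected by an automorphism (Kummer theory), assembly.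
-/

set_option autoImplicit false

namespace Pool.Agent.N568.EQ

open Polynomial Pool.Agent.H391R2 Pool.Agent.N70.AW Pool.Agent.N70.EQ
open Pool.Agent.N70.EP (Dt0)
open Pool.Agent.Y793 (Rl)

section basic

variable {K Z : Type} [Field K] [Field Z] [Algebra (RatFunc K) Z]

/- `pz` as a ring homomorphism -/
noncomputable def pzR (K Z : Type) [Field K] [Field Z] [Algebra (RatFunc K) Z] : K[X] →+* Z :=
  (algebraMap (RatFunc K) Z).comp (algebraMap K[X] (RatFunc K))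

theorem pz_eq (p : K[X]) : pz Z p = pzR K Z p := rfl

theorem pz_fix (γ : Z ≃ₐ[RatFunc K] Z) (p : K[X]) : γ (pz Z p) = pz Z p := γ.commutes _

theorem pz_ne {p : K[X]} (h : p ≠ 0) : pz Z p ≠ 0 := by
  intro h1
  apply h
  have h2 : algebraMap K[X] (RatFunc K) p = 0 := by
    apply (algebraMap (RatFunc K) Z).injective
    rw [map_zero]
    exact h1
  exact (RatFunc.algebraMap_injective K) (by rw [h2, map_zero])

theorem emb_K [Algebra K Z] [IsScalarTower K (RatFunc K) Z] (γ : Z ≃ₐ[RatFunc K] Z) (a : K) :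
    γ (algebraMap K Z a) = algebraMap K Z a := by
  rw [← pz_C]
  exact pz_fix γ _

/- an element whose power is a polynomial power is fixed by the Galois group -/
theorem fixed_of_pow [Algebra K Z] [IsScalarTower K (RatFunc K) Z]
    (hreg : ∀ y : Z, IsAlgebraic K y → y ∈ Set.range (algebraMap K Z)) {W : Z} {dd : ℕ}
    (hdd : 0 < dd) {G h' : K[X]} (h0 : h' ≠ 0) (c : K) (hG : G = C c * h' ^ dd)
    (hW : pz Z G = W ^ dd) (γ : Z ≃ₐ[RatFunc K] Z) : γ W = W := by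
  have hp := pz_ne (Z := Z) h0
  have h1 : (W / pz Z h') ^ dd = algebraMap K Z c := by
    rw [div_pow, ← hW, hG, pz_eq, map_mul, map_pow, ← pz_eq, ← pz_eq, pz_C,
      mul_div_cancel_right₀ _ (pow_ne_zero _ hp)]
  have h2 : IsAlgebraic K (W / pz Z h') := by
    have h3 : IsAlgebraic K ((W / pz Z h') ^ dd) := by
      rw [h1]
      exact isAlgebraic_algebraMap c
    exact h3.of_pow hdd
  obtain ⟨a, ha⟩ := hreg _ h2
  have h4 : W = algebraMap K Z a * pz Z h' := by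
    rw [ha, div_mul_cancel₀ _ hp]
  rw [h4, map_mul, emb_K, pz_fix]

end basic

section trn

variable {K Z : Type} [Field K] [Field Z] [Algebra (RatFunc K) Z] [Algebra K Z]
  [IsScalarTower K (RatFunc K) Z]

/- the product over the cosets is multiplied by a root of unity -/
theorem trn_prod {P : Subgroup (Z ≃ₐ[RatFunc K] Z)} {G : Type} [Group G] (β : P →* G)
    (θ : G →* Kˣ) {z : Z} (hz : ∀ γ : P, (γ : Z ≃ₐ[RatFunc K] Z) z = algebraMap K Z (θ (β γ) : K) * z)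
    {m : ℕ} (g : Fin m → (Z ≃ₐ[RatFunc K] Z))
    (hg : Function.Bijective (fun t => (g t : (Z ≃ₐ[RatFunc K] Z) ⧸ P))) (ν : G)
    (γ : Z ≃ₐ[RatFunc K] Z) (h : ∀ g : Z ≃ₐ[RatFunc K] Z, g⁻¹ * γ * g ∈ P)
    (h1 : ∀ g, g ∉ P → β ⟨g⁻¹ * γ * g, h g⟩ = 1) (h2 : ∀ p : γ ∈ P, β ⟨γ, p⟩ = ν) :
    γ (∏ t, g t z) = algebraMap K Z (θ ν : K) * ∏ t, g t z := by
  have hstep : ∀ t, γ (g t z) =
      algebraMap K Z (θ (β ⟨(g t)⁻¹ * γ * g t, h (g t)⟩) : K) * g t z := by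
    intro t
    have e1 : γ (g t z) = g t (((g t)⁻¹ * γ * g t) z) := by
      rw [AlgEquiv.mul_apply, AlgEquiv.mul_apply, ← AlgEquiv.mul_apply (g t), mul_inv_cancel,
        AlgEquiv.one_apply]
    have e2 := hz ⟨(g t)⁻¹ * γ * g t, h (g t)⟩
    change ((g t)⁻¹ * γ * g t) z = _ at e2
    rw [e1, e2, map_mul, emb_K]
  have hγ : γ ∈ P := by
    have := h 1
    rwa [inv_one, one_mul, mul_one] at this
  obtain ⟨t0, ht0⟩ := hg.2 ((1 : Z ≃ₐ[RatFunc K] Z) : (Z ≃ₐ[RatFunc K] Z) ⧸ P)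
  have ht0' : g t0 ∈ P := by
    have h3 : ((g t0 : Z ≃ₐ[RatFunc K] Z) : (Z ≃ₐ[RatFunc K] Z) ⧸ P) =
        ((1 : Z ≃ₐ[RatFunc K] Z) : (Z ≃ₐ[RatFunc K] Z) ⧸ P) := ht0
    rw [QuotientGroup.eq] at h3
    rw [mul_one] at h3
    exact inv_mem_iff.1 h3
  have hother : ∀ t, t ≠ t0 → g t ∉ P := by
    intro t ht hP
    apply ht
    apply hg.1
    change ((g t : Z ≃ₐ[RatFunc K] Z) : (Z ≃ₐ[RatFunc K] Z) ⧸ P) = _
    change _ = ((g t0 : Z ≃ₐ[RatFunc K] Z) : (Z ≃ₐ[RatFunc K] Z) ⧸ P)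
    rw [QuotientGroup.eq]
    exact P.mul_mem (P.inv_mem hP) ht0'
  have h4 : θ (β ⟨(g t0)⁻¹ * γ * g t0, h (g t0)⟩) = θ ν := by
    have e1 : (⟨(g t0)⁻¹ * γ * g t0, h (g t0)⟩ : P) = (⟨g t0, ht0'⟩ : P)⁻¹ * ⟨γ, hγ⟩ * ⟨g t0, ht0'⟩ :=
      Subtype.ext rfl
    rw [e1, map_mul, map_mul, map_mul, map_mul, map_inv, map_inv, h2 hγ, mul_comm, ← mul_assoc,
      mul_inv_cancel, one_mul]
  rw [map_prod, Finset.prod_congr rfl fun t _ => hstep t, Finset.prod_mul_distrib]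
  congr 1
  rw [Finset.prod_eq_single t0]
  · rw [h4]
  · intro t _ ht
    rw [h1 _ (hother t ht), map_one, Units.val_one, map_one]
  · intro h5
    exact absurd (Finset.mem_univ _) h5

end trn

/- the norm is fixed -/
theorem norm_fix {K Z N : Type} [Field K] [Field Z] [Algebra (RatFunc K) Z] [Algebra K Z]
    [Field N] [Algebra K N]
    {P : Subgroup (Z ≃ₐ[RatFunc K] Z)} {n : ℕ} {r : Fin n → N} {φ : Fin n → (Z →ₐ[K] N)}
    {G : Type} [Group G] (β : P →* G) (θ : G →* Kˣ) {z : Z}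
    (hz : ∀ γ : P, (γ : Z ≃ₐ[RatFunc K] Z) z = algebraMap K Z (θ (β γ) : K) * z) (σ : N →+* N)
    {y : Wr P n} (hy : Rl r φ σ y) (h1 : ∏ i, θ (β (y.left i)) = 1) :
    σ (∏ i, φ i z) = ∏ i, φ i z := by
  rw [map_prod]
  have h2 : ∀ i, σ (φ i z) =
      (fun j => algebraMap K N (θ (β (y.left j)) : K) * φ j z) (y.right i) := by
    intro i
    rw [(hy i).2, hz, map_mul, AlgHom.commutes]
  rw [Finset.prod_congr rfl fun i _ => h2 i, Equiv.prod_comp y.right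
    (fun j => algebraMap K N (θ (β (y.left j)) : K) * φ j z), Finset.prod_mul_distrib]
  have h3 : ∏ j, algebraMap K N (θ (β (y.left j)) : K) = 1 := by
    rw [← map_prod, ← Units.coe_prod, h1, Units.val_one, map_one]
  rw [h3, one_mul]

/- **KUMO.** -/
theorem t_kumo : St_kumOf := by
  intro ka kb kc kd de K Z N ι _ _ _ _ _ _ _ _ _ _ _ _ P m k d κ v x e es S M L D hm hreg g hg k₀
    _ _ _ _ _ _ η hη r φ Y G _ _ β hT θ hθ
  by_contra hcon
  push Not at hcon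
  have hdd : 0 < Nat.card G := Nat.card_pos
  obtain ⟨dd, hdd'⟩ : ∃ dd, dd = Nat.card G := ⟨_, rfl⟩
  rw [← hdd'] at hdd
  have hpow : ∀ a : G, (θ a : K) ^ dd = 1 := by
    intro a
    rw [← Units.val_pow_eq_pow_val, ← map_pow, hdd', pow_card_eq_one', map_one, Units.val_one]
  obtain ⟨z0, hz0, hz0'⟩ := ka K Z P (θ.comp β)
  have hf0 : ∀ γ ∈ P, γ (z0 ^ dd) = z0 ^ dd := by
    intro γ hγ
    have h1 := hz0' ⟨γ, hγ⟩
    change γ z0 = algebraMap K Z (θ (β ⟨γ, hγ⟩) : K) * z0 at h1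
    rw [map_pow, h1, mul_pow, ← map_pow, hpow, map_one, one_mul]
  obtain ⟨q, F0, hq, hF0⟩ := kb K Z P m e es D.fix_e D.fix_es D.dual1 D.dual0 (z0 ^ dd) hf0
  have hpq := pz_ne (Z := Z) hq
  obtain ⟨z, hz⟩ : ∃ z, z = pz Z q * z0 := ⟨_, rfl⟩
  have hzne : z ≠ 0 := by rw [hz]; exact mul_ne_zero hpq hz0
  have hzP : ∀ γ : P, (γ : Z ≃ₐ[RatFunc K] Z) z = algebraMap K Z (θ (β γ) : K) * z := by
    intro γ
    have h1 := hz0' γ
    change (γ : Z ≃ₐ[RatFunc K] Z) z0 = algebraMap K Z (θ (β γ) : K) * z0 at h1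
    rw [hz, map_mul, pz_fix, h1]
    ring
  obtain ⟨n, hn⟩ : ∃ n, dd = n + 1 := ⟨dd - 1, by omega⟩
  obtain ⟨F, hF⟩ : ∃ F : Matrix (Fin m) (Fin m) K[X], F = fun l l' => q ^ n * F0 l l' := ⟨_, rfl⟩
  have hmul : ∀ l', z ^ dd * e l' = ∑ l, pz Z (F l l') * e l := by
    intro l'
    have h1 : z ^ dd * e l' = pz Z q ^ n * (pz Z q * z0 ^ dd * e l') := by
      rw [hz, mul_pow]
      nth_rewrite 1 [hn]
      rw [pow_succ]
      ring
    rw [h1, hF0, Finset.mul_sum]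
    refine Finset.sum_congr rfl fun l _ => ?_
    rw [hF]
    simp only [pz_eq, map_mul, map_pow]
    ring
  have hdet := kc K Z P m g hg.1 e es D.fix_e D.fix_es D.dual1 D.dual0 (z ^ dd) F hmul
  obtain ⟨W, hW⟩ : ∃ W, W = ∏ t, g t z := ⟨_, rfl⟩
  have hWne : W ≠ 0 := by
    rw [hW]
    exact Finset.prod_ne_zero_iff.2 fun t _ => (map_ne_zero_iff _ (g t).injective).2 hzne
  have hdet' : pz Z F.det = W ^ dd := by
    rw [hdet, hW, ← Finset.prod_pow]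
    exact Finset.prod_congr rfl fun t _ => map_pow _ _ _
  have hdetne : F.det ≠ 0 := by
    intro h1
    rw [h1, pz_eq, map_zero] at hdet'
    exact pow_ne_zero _ hWne hdet'.symm
  have hΘ : (∏ i, φ i z) ^ dd = ∏ i, φ i (z ^ dd) := by
    rw [← Finset.prod_pow]
    exact Finset.prod_congr rfl fun t _ => (map_pow _ _ _).symm
  have hfix : ∀ σ : N ≃ₐ[k₀] N, (∀ i, σ (η i) = η i) → σ (∏ i, φ i z) = ∏ i, φ i z := by
    intro σ hσ
    obtain ⟨y, hy⟩ := Pool.Agent.N70.AW.EPc.exists_x0 D η hη Pool.Agent.Y203.J.t_gen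
      Pool.Agent.Y203.J.t_iso Y (σ.restrictScalars K) hσ
    exact norm_fix β θ hzP (σ : N →+* N) hy (hcon σ y hσ hy)
  obtain ⟨h, hh1, hh2⟩ := kd K Z N ι P m k d κ v x e es S M L D hm k₀ η hη r φ Y (z ^ dd) F
    (∏ i, φ i z) dd hmul hdetne hdd hΘ hfix
  obtain ⟨h', hh1', hh2'⟩ := de K k₀ F.det h dd hdetne hdd hh1 hh2
  have hWfix := fixed_of_pow hreg hdd hh1'.ne_zero F.det.leadingCoeff hh2' hdet'
  obtain ⟨ν, hν⟩ : ∃ ν, θ ν ≠ 1 := by
    by_contra h1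
    push Not at h1
    exact hθ (MonoidHom.ext h1)
  obtain ⟨γ, hγ1, hγ2, hγ3⟩ := hT ν
  have h1 := trn_prod β θ hzP g hg ν γ hγ1 hγ2 hγ3
  rw [← hW, hWfix γ] at h1
  have h2 : algebraMap K Z (θ ν : K) = 1 := by
    have h3 : (algebraMap K Z (θ ν : K) - 1) * W = 0 := by rw [sub_mul, one_mul, ← h1, sub_self]
    rcases mul_eq_zero.1 h3 with h4 | h4
    · exact sub_eq_zero.1 h4
    · exact absurd h4 hWne
  apply hν
  apply Units.ext
  apply (algebraMap K Z).injective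
  rw [h2, Units.val_one, map_one]

end Pool.Agent.N568.EQ
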