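import Mathlib
import Pool.Agent.H84.L.A3_N600_NS_Abs
import Pool.Agent.H84.L.A3_N600_NS_AriA
import Pool.Agent.H84.L.A3_N600_NS_Desc
import Pool.Agent.H84.L.A3_N600_NS_GeoB
import Pool.Agent.H84.L.A3_N600_NS_NtD
import Pool.Agent.H84.L.A3_N600_NS_NtE
import Pool.Agent.H84.L.A3_N600_NS_NtF
import Pool.Agent.H84.L.A3_N600_NS_Pa
import Pool.Agent.H84.L.A3_N600_NS_SemA
import Pool.Agent.H84.L.A3_N600_NS_SerA
import Pool.Agent.H84.L.A3_N600_NS_Sol
import Pool.Agent.H84.L.S8_H391R2_T4_Abs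
import Pool.Agent.H84.L.S8_H391R2_T4_NtD
import Pool.Agent.H84.L.S8_H391R2_T4_NtE
import Pool.Agent.H84.L.S8_H391R2_T4_NtF
import Pool.Agent.H84.L.S8_H391R2_T4_NtS
import Pool.Agent.H84.L.S8_H391R2_T4_Phi
import Pool.Agent.H84.L.S8_H391R2_T4_Sol
import Pool.Agent.H84.L.S8_H391R2_T4_Sym
import Pool.Agent.H84.L.S8_H391R2_WrGrp

namespace Pool.Agent.H391R2
end Pool.Agent.H391R2
namespace Pool.Agent.H391R2.T4
end Pool.Agent.H391R2.T4


/-!
# The core theorem
-/

set_option autoImplicit false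

namespace Pool.Agent.N600.NS

open MvPolynomial
open Pool.Agent.H391R2
open Pool.Agent.H391R2.T4

set_option linter.unusedSectionVars false

section act

variable {Γ G Q Z W : Type} [Group Γ] [Group G]

/- The action on the parameters, given by a cocycle. -/
def actV (sq : Γ →* Equiv.Perm Q) (πA : Γ →* Equiv.Perm (Q ⊕ Z)) (β : Γ → Q ⊕ Z → G)
    (hβ : ∀ ρ ρ' a, β (ρ * ρ') a = β ρ (πA ρ' a) * β ρ' a) :
    Γ →* Equiv.Perm ((Q ⊕ ((Q ⊕ Z) × G)) ⊕ W) where
  toFun ρ := Equiv.sumCongr (Equiv.sumCongr (sq ρ)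
    { toFun := fun p => (πA ρ p.1, β ρ p.1 * p.2)
      invFun := fun p => ((πA ρ).symm p.1, (β ρ ((πA ρ).symm p.1))⁻¹ * p.2)
      left_inv := fun p => by
        refine Prod.ext ?_ ?_
        · exact Equiv.symm_apply_apply _ _
        · change (β ρ ((πA ρ).symm (πA ρ p.1)))⁻¹ * (β ρ p.1 * p.2) = p.2
          rw [Equiv.symm_apply_apply, inv_mul_cancel_left]
      right_inv := fun p => by
        refine Prod.ext ?_ ?_
        · exact Equiv.apply_symm_apply _ _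
        · change β ρ ((πA ρ).symm p.1) * ((β ρ ((πA ρ).symm p.1))⁻¹ * p.2) = p.2
          rw [mul_inv_cancel_left] }) (Equiv.refl W)
  map_one' := by
    have h1 : ∀ a, β 1 a = 1 := by
      intro a
      have h := hβ 1 1 a
      rw [map_one, mul_one] at h
      change β 1 a = β 1 a * β 1 a at h
      exact left_eq_mul.1 h
    apply Equiv.ext
    rintro ((q | p) | w)
    · change Sum.inl (Sum.inl (sq 1 q)) = _
      rw [map_one]
      rfl
    · change Sum.inl (Sum.inr (πA 1 p.1, β 1 p.1 * p.2)) = _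
      rw [map_one, h1, one_mul]
      rfl
    · rfl
  map_mul' ρ ρ' := by
    apply Equiv.ext
    rintro ((q | p) | w)
    · change Sum.inl (Sum.inl (sq (ρ * ρ') q)) = _
      rw [map_mul]
      rfl
    · change Sum.inl (Sum.inr (πA (ρ * ρ') p.1, β (ρ * ρ') p.1 * p.2)) =
        Sum.inl (Sum.inr (πA ρ (πA ρ' p.1), β ρ (πA ρ' p.1) * (β ρ' p.1 * p.2)))
      rw [map_mul, hβ, mul_assoc]
      rfl
    · rfl

end act

section par

variable {K L L' K₀ N : Type} [Field K] [CharZero K] [Field L] [Algebra K L]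
  [FiniteDimensional K L] [IsGalois K L] [Field L'] [Algebra K L'] [FiniteDimensional K L']
  [IsGalois K L'] [Field K₀] [Algebra K K₀] [Algebra L K₀] [Algebra L' K₀]
  [IsScalarTower K L K₀] [IsScalarTower K L' K₀] [IsAlgClosed K₀] [Algebra.IsAlgebraic L K₀]
  [Field N] [IsAlgClosed N] [Algebra K₀ N] [Algebra K N] [Algebra L N] [Algebra L' N]
  [IsScalarTower K K₀ N] [IsScalarTower L K₀ N] [IsScalarTower K L N] [IsScalarTower L' K₀ N]
  [IsScalarTower K L' N]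

open Classical in
/- The core theorem: regular solutions over a field of rational functions. -/
theorem sym_core {G : Type} [Group G] [Fintype G] (α : G →* (L ≃ₐ[K] L))
    (hα : Function.Surjective α) {Q Z : Type} [Fintype Q] [Fintype Z] [DecidableEq (Q ⊕ Z)]
    [Nonempty (Q ⊕ Z)]
    {y : MvPolynomial G K₀} (hY : YD α.ker y) (hG3 : 3 ≤ Fintype.card G)
    {d : DB K₀ G (Q ⊕ Z)} (h : DG y d) {m : ND K₀ G Q} (hm : NG α.ker m)
    (Ψ : Polynomial (MvPolynomial (Fin (Fintype.card G)) K₀)) (hΨm : Ψ.Monic)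
    (hΨ : Ψ.map ((aeval fun i : Fin (Fintype.card G) => esymm G K₀ (i + 1) :
      MvPolynomial (Fin (Fintype.card G)) K₀ →ₐ[K₀] MvPolynomial G K₀) :
      MvPolynomial (Fin (Fintype.card G)) K₀ →+* MvPolynomial G K₀) =
      ∏ q ∈ orb y, (Polynomial.X - Polynomial.C q))
    (T : ℕ) (hT : ∀ e, (Ψ.coeff e).totalDegree ≤ T)
    (hsep : (Polynomial.C d.c * d.R * ∏ q ∈ (orb y).erase y,
      (Polynomial.C d.c * (Polynomial.X ^ 2 * d.R) -
      Polynomial.C (aeval d.l q - aeval d.l y))).Separable)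
    (M : ℕ) (hJM : Fintype.card (Q ⊕ Z) + 1 < M) (hB : T * (Fintype.card (Q ⊕ Z) + 1) < M)
    (hM : 2 + d.R.natDegree = M) (n : ℕ)
    (hn : 3 ≤ n) (hdeg : Ψ.natDegree * M = n + Fintype.card (Q ⊕ Z))
    (sq : (L' ≃ₐ[K] L') →* Equiv.Perm Q) (πA : (L' ≃ₐ[K] L') →* Equiv.Perm (Q ⊕ Z))
    (β : (L' ≃ₐ[K] L') → Q ⊕ Z → G)
    (hβ : ∀ ρ ρ' a, β (ρ * ρ') a = β ρ (πA ρ' a) * β ρ' a)
    (hSI : ∀ (f : K₀ ≃ₐ[K] K₀) (ρ : L' ≃ₐ[K] L'),
      (∀ a, f (algebraMap L' K₀ a) = algebraMap L' K₀ (ρ a)) →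
      SIA (f : K₀ →+* K₀) (πA ρ) (sq ρ) (β ρ) y d m)
    (hy0 : ∀ (f : K₀ ≃ₐ[K] K₀) (β : G),
      (∀ a : L, f (algebraMap L K₀ a) = algebraMap L K₀ (α β a)) →
      rename (Equiv.mulLeft β) (MvPolynomial.map (f : K₀ →+* K₀) y) = y)
    (ξ : (Q ⊕ ((Q ⊕ Z) × G)) ⊕ (Unit ⊕ (Option (Fin (Fintype.card G)) ⊕
      Option (Fin (Fintype.card G)))) → N)
    (hξ : IsTranscendenceBasis K₀ ξ) :
    ∃ (E : Type) (_ : Field E) (_ : Algebra (MvPolynomial ((Q ⊕ ((Q ⊕ Z) × G)) ⊕ (Unit ⊕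
        (Option (Fin (Fintype.card G)) ⊕ Option (Fin (Fintype.card G))))) K) E)
      (_ : IsFractionRing (MvPolynomial ((Q ⊕ ((Q ⊕ Z) × G)) ⊕ (Unit ⊕
        (Option (Fin (Fintype.card G)) ⊕ Option (Fin (Fintype.card G))))) K) E) (_ : Algebra K E)
      (_ : IsScalarTower K (MvPolynomial ((Q ⊕ ((Q ⊕ Z) × G)) ⊕ (Unit ⊕
        (Option (Fin (Fintype.card G)) ⊕ Option (Fin (Fintype.card G))))) K) E)
      (F : Type) (_ : Field F) (_ : Algebra E F) (_ : Algebra L F) (_ : Algebra K F)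
      (_ : IsScalarTower K E F) (_ : IsScalarTower K L F) (_ : FiniteDimensional E F)
      (_ : IsGalois E F) (γ : (F ≃ₐ[E] F) ≃* SymEP α n),
      (∀ (σ : F ≃ₐ[E] F) (x : L),
        σ (algebraMap L F x) = algebraMap L F (symProj α n (γ σ) x)) ∧
      (∀ y : F, IsAlgebraic L y → y ∈ Set.range (algebraMap L F)) := by
  have hcK₀ : CharZero K₀ := charZero_of_injective_algebraMap (algebraMap K K₀).injective
  obtain ⟨r, vv, hr, hrw, hsol, hvinj, hall, hgeo⟩ := geo3A hY hG3 h hm Ψ hΨm hΨ T hT hsep M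
    hJM hB hM n hn hdeg ξ hξ
  obtain ⟨A, A', hA, hA'⟩ := exists_desc K L' ((Q ⊕ ((Q ⊕ Z) × G)) ⊕ (Unit ⊕
        (Option (Fin (Fintype.card G)) ⊕ Option (Fin (Fintype.card G))))) (actV sq πA β hβ)
  have halgKK₀ : Algebra.IsAlgebraic K K₀ := Algebra.IsAlgebraic.trans K L K₀
  have hnK₀ : Normal K K₀ := by
    have : IsAlgClosure K K₀ := ⟨inferInstance, halgKK₀⟩
    exact IsAlgClosure.normal K K₀
  have hξ0 : ∀ q, ξ (Sum.inl (Sum.inl q)) ≠ 0 := fun q h0 =>
    hξ.1.transcendental (Sum.inl (Sum.inl q)) (by rw [h0]; exact isAlgebraic_zero)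
  obtain ⟨x, hxdef⟩ : ∃ x : (Q ⊕ ((Q ⊕ Z) × G)) ⊕ (Unit ⊕ (Option (Fin (Fintype.card G)) ⊕
      Option (Fin (Fintype.card G)))) → N, x = Sum.elim (Sum.elim
      (fun q => ξ (Sum.inl (Sum.inl q)) ^ m.e) (fun s => ξ (Sum.inl (Sum.inr s))))
      (fun w => ξ (Sum.inr w)) := ⟨_, rfl⟩
  have hx : IsTranscendenceBasis K₀ x := by
    rw [hxdef]
    exact basis_powA ξ hξ m.e hm.he0
  refine arith_absA _ (etaD A x) (etaD_basis hA' x hx) G α n r hr vv hvinj ?_ ?_
  · intro σ ρL hσ1 hσ2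
    let f : K₀ ≃ₐ[K] K₀ := σ.restrictNormal K₀
    have hf : ∀ a : K₀, σ (algebraMap K₀ N a) = algebraMap K₀ N (f a) := fun a =>
      (AlgEquiv.restrictNormal_commutes σ K₀ a).symm
    let ρ : L' ≃ₐ[K] L' := σ.restrictNormal L'
    have hρ : ∀ a : L', σ (algebraMap L' N a) = algebraMap L' N (ρ a) := fun a =>
      (AlgEquiv.restrictNormal_commutes σ L' a).symm
    have hfρ : ∀ a, f (algebraMap L' K₀ a) = algebraMap L' K₀ (ρ a) := by
      intro a
      apply (algebraMap K₀ N).injective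
      rw [← hf, ← IsScalarTower.algebraMap_apply L' K₀ N, hρ, ← IsScalarTower.algebraMap_apply]
    obtain ⟨β₀, hβ₀⟩ := hα ρL
    have hfβ : ∀ a : L, f (algebraMap L K₀ a) = algebraMap L K₀ (α β₀ a) := by
      intro a
      apply (algebraMap K₀ N).injective
      rw [← hf, ← IsScalarTower.algebraMap_apply L K₀ N, hσ2, hβ₀,
        ← IsScalarTower.algebraMap_apply]
    have hxact : ∀ v, σ (x v) = x (actV sq πA β hβ ρ v) := fun v =>
      etaD_act (actV sq πA β hβ) hA hA' x (σ : N →+* N) ρ hσ1 hρ v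
    have h1 : ∀ i, ∃ i', σ (r i) = r i' ∧ ∃ g : α.ker, (fun x => σ (vv i (β₀⁻¹ * x))) =
        vv i' ∘ Equiv.mulLeft (g : G) := by
      intro i
      obtain ⟨h2, h3⟩ := SolP_siA hY (hSI f ρ hfρ) h hm (σ : N →+* N) hf ξ hξ0
        (fun q => by
          have h4 := hxact (Sum.inl (Sum.inl q))
          rw [hxdef] at h4
          change σ (ξ (Sum.inl (Sum.inl q)) ^ m.e) = ξ (Sum.inl (Sum.inl (sq ρ q))) ^ m.e at h4
          rw [map_pow] at h4
          exact h4)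
        (fun a s => by
          have h4 := hxact (Sum.inl (Sum.inr (a, s)))
          rw [hxdef] at h4
          exact h4)
        (fun v => by
          have h4 := hxact (Sum.inr v)
          rw [hxdef] at h4
          exact h4) β₀ (hy0 f β₀ hfβ) (r i) (vv i) (hsol i) (hrw i)
      exact hall _ _ h2 h3
    choose p hp g hg using h1
    have hpinj : Function.Injective p := by
      intro i j hij
      apply hr
      apply σ.injective
      rw [hp, hp, hij]
    let π : Equiv.Perm (Fin n) := Equiv.ofBijective p (Finite.injective_iff_bijective.1 hpinj)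
    refine ⟨⟨fun j => (g (π.symm j) : G) * β₀, π⟩, fun j => ?_, fun i => ⟨hp i, fun z => ?_⟩⟩
    · change α ((g (π.symm j) : G) * β₀) = ρL
      have h5 : α (g (π.symm j) : G) = 1 := (g (π.symm j)).2
      rw [map_mul, h5, one_mul, hβ₀]
    · change σ (vv i z) = vv (π i) ((g (π.symm (π i)) : G) * β₀ * z)
      rw [Equiv.symm_apply_apply]
      have h2 := congrFun (hg i) (β₀ * z)
      simp only [inv_mul_cancel_left] at h2
      rw [h2, mul_assoc]
      rfl
  · intro z hz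
    obtain ⟨σ, hσ1, hσ2, hσ3, hσ4⟩ := hgeo ⟨fun i => ⟨z.left i, hz i⟩, z.right⟩
    refine ⟨σ, fun v => etaD_fix x σ (fun v => ?_) v, hσ4⟩
    rw [hxdef]
    rcases v with (q | p) | w
    · exact hσ1 q
    · exact hσ2 p
    · exact hσ3 w

end par

end Pool.Agent.N600.NS
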