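import Mathlib
import Pool.Agent.H84.L.A3_N600_NS_Abs
import Pool.Agent.H84.L.A3_N600_NS_DatA
import Pool.Agent.H84.L.A3_N600_NS_FinA
import Pool.Agent.H84.L.A3_N600_NS_NtD
import Pool.Agent.H84.L.A3_N600_NS_NtE
import Pool.Agent.H84.L.A3_N600_NS_NtF
import Pool.Agent.H84.L.A3_N600_NS_SemA
import Pool.Agent.H84.L.A3_N600_NS_SerA
import Pool.Agent.H84.L.A3_N600_NS_Sol
import Pool.Agent.H84.L.S8_H391R2_FnD
import Pool.Agent.H84.L.S8_H391R2_T4_Abs
import Pool.Agent.H84.L.S8_H391R2_T4_Hil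
import Pool.Agent.H84.L.S8_H391R2_T4_Nod
import Pool.Agent.H84.L.S8_H391R2_T4_NtD
import Pool.Agent.H84.L.S8_H391R2_T4_NtE
import Pool.Agent.H84.L.S8_H391R2_T4_NtF
import Pool.Agent.H84.L.S8_H391R2_T4_NtS
import Pool.Agent.H84.L.S8_H391R2_T4_Phi
import Pool.Agent.H84.L.S8_H391R2_T4_Red
import Pool.Agent.H84.L.S8_H391R2_T4_Sem
import Pool.Agent.H84.L.S8_H391R2_T4_Sol
import Pool.Agent.H84.L.S8_H391R2_T4_Sym
import Pool.Agent.H84.L.S8_H391R2_WrGrp
import Pool.Agent.H84.L.S8_H81R2_BT_TaskA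
import Pool.Agent.H84.L.S8_TH59_WX_UA
import Pool.Agent.H84.L.S8_TH59_WX_UB
import Pool.Agent.H84.L.S8_TH59_WX_UC

namespace Pool.Agent.H391R2
end Pool.Agent.H391R2
namespace Pool.Agent.H391R2.T4
end Pool.Agent.H391R2.T4


/-!
# Regular solutions over `K(t)`
-/

set_option autoImplicit false

namespace Pool.Agent.N600.NS

open MvPolynomial
open Pool.Agent.H391R2
open Pool.Agent.H391R2.T4

set_option linter.unusedSectionVars false

section quot

variable {Γ G C : Type} [Group Γ] [Group G] [Group C]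

/- Forgetting a direct factor. -/
noncomputable def symFst (α : G →* Γ) (C : Type) [Group C] (n : ℕ) :
    SymEP (α.comp (MonoidHom.fst G C)) n →* SymEP α n where
  toFun z := ⟨(wrMap (MonoidHom.fst G C) n z.1.1, z.1.2), fun i => z.2 i⟩
  map_one' := by
    apply Subtype.ext
    exact Prod.ext (map_one (wrMap (MonoidHom.fst G C) n)) rfl
  map_mul' z z' := by
    apply Subtype.ext
    exact Prod.ext (map_mul (wrMap (MonoidHom.fst G C) n) z.1.1 z'.1.1) rfl

theorem symFst_surjective (α : G →* Γ) (n : ℕ) : Function.Surjective (symFst α C n) := by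
  intro z
  obtain ⟨x, hx⟩ := wrMap_surjective (MonoidHom.fst G C) n Prod.fst_surjective z.1.1
  refine ⟨⟨(x, z.1.2), fun i => ?_⟩, ?_⟩
  · have h1 : (x.left i).1 = z.1.1.left i := congrArg (fun w : Wr G n => w.left i) hx
    change α (x.left i).1 = z.1.2
    rw [h1]
    exact z.2 i
  · apply Subtype.ext
    exact Prod.ext hx rfl

theorem card_ker_fst (α : G →* Γ) (C : Type) [Group C] :
    Nat.card (α.comp (MonoidHom.fst G C)).ker = Nat.card C * Nat.card α.ker := by
  rw [mul_comm, ← Nat.card_prod]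
  refine Nat.card_congr
    { toFun := fun x => (⟨x.1.1, x.2⟩, x.1.2)
      invFun := fun x => ⟨(x.1.1, x.2), x.1.2⟩
      left_inv := fun x => rfl
      right_inv := fun x => rfl }

end quot

section triv

variable {K L : Type} [Field K] [Field L] [Algebra K L] [Normal K L]

theorem restrict_self (ρ : L ≃ₐ[K] L) : ρ.restrictNormal L = ρ := by
  apply AlgEquiv.ext
  intro x
  exact AlgEquiv.restrictNormal_commutes ρ L x

end triv

section reg

variable (K L L' : Type) [Field K] [CharZero K] [Field L] [Algebra K L]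
  [FiniteDimensional K L] [IsGalois K L] [Field L'] [Algebra K L']
  [FiniteDimensional K L'] [IsGalois K L'] [Algebra L L'] [IsScalarTower K L L']

open Classical in
theorem reg_one (G : Type) [Group G] [Finite G]
    (α : G →* (L ≃ₐ[K] L)) (hα : Function.Surjective α)
    (ζ : L') (hζ : IsPrimitiveRoot ζ (3 * Nat.card α.ker))
    (Z : Type) [Finite Z] (πZ : (L' ≃ₐ[K] L') →* Equiv.Perm Z) (βZ : (L' ≃ₐ[K] L') → Z → G)
    (hβZ : ∀ ρ ρ' z, βZ (ρ * ρ') z = βZ ρ (πZ ρ' z) * βZ ρ' z)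
    (hαβ : ∀ ρ z, α (βZ ρ z) = ρ.restrictNormal L) (n M : ℕ) (hn3 : 3 ≤ n)
    (hJM : Nat.card (L' ≃ₐ[K] L') * (3 * Nat.card α.ker) + Nat.card Z + 1 < M)
    (hTM : tg (3 * Nat.card G) *
      (Nat.card (L' ≃ₐ[K] L') * (3 * Nat.card α.ker) + Nat.card Z + 1) < M)
    (hDM : dg (3 * Nat.card G) (3 * Nat.card α.ker) * M =
      n + (Nat.card (L' ≃ₐ[K] L') * (3 * Nat.card α.ker) + Nat.card Z)) :
    RegSol K L (SymEP α n) (symProj α n) := by
  have := Fintype.ofFinite G
  have := Fintype.ofFinite Z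
  let C := Multiplicative (ZMod 3)
  have hC : Nat.card C = 3 := by
    rw [Nat.card_eq_fintype_card, Fintype.card_multiplicative, ZMod.card]
  let α' : G × C →* (L ≃ₐ[K] L) := α.comp (MonoidHom.fst G C)
  have hα' : Function.Surjective α' := hα.comp Prod.fst_surjective
  have hcard0 : Fintype.card (G × C) = 3 * Nat.card G := by
    rw [← Nat.card_eq_fintype_card, Nat.card_prod, hC, mul_comm]
  have hG0 : 0 < Nat.card G := Nat.card_pos
  have hcard : 3 ≤ Fintype.card (G × C) := by omega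
  have hker : Nat.card α'.ker = 3 * Nat.card α.ker := by
    have h := card_ker_fst α C
    rw [hC] at h
    exact h
  have hker0 : 0 < Nat.card α.ker := Nat.card_pos
  obtain ⟨ι, hι, E, a1, a2, a3, a4, a5, F, b1, b2, b3, b4, b5, b6, b7, b8, γ, hγ1, hγ2⟩ :=
    sym_one K L L' (G × C) hcard α' hα' (3 * Nat.card α.ker) (by omega)
      (fun g => by
        rw [← hker]
        exact pow_card_eq_one') ζ hζ Z πZ (fun ρ z => (βZ ρ z, 1))
      (fun ρ ρ' z => Prod.ext (hβZ ρ ρ' z) (mul_one (1 : C)).symm)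
      (fun ρ z => hαβ ρ z) n M hn3
      (by rw [hker, ← Nat.card_eq_fintype_card]; exact hJM)
      (by rw [hker, hcard0, ← Nat.card_eq_fintype_card]; exact hTM)
      (by rw [hker, hcard0, ← Nat.card_eq_fintype_card]; exact hDM)
  have hreg : RegSol K L (SymEP α' n) (symProj α' n) :=
    Pool.Agent.H81R2.BT.taskA K L (SymEP α' n) (symProj α' n) ι E F γ hγ1 hγ2
  refine hreg.quot (symProj α n) (symProj α' n) (symFst α C n) (symFst_surjective α n) ?_ ?_
  · intro g'
    rw [restrict_self]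
    rfl
  · intro ρ hρ
    rw [restrict_self] at hρ
    exact ⟨1, map_one _, by rw [map_one, hρ]⟩

/- The nodes over `L`. -/
def permZ {Γ' Γ T : Type} [Group Γ'] [Group Γ] (res : Γ' →* Γ) : Γ' →* Equiv.Perm (Γ × T) where
  toFun ρ := Equiv.prodCongr (Equiv.mulLeft (res ρ)) (Equiv.refl T)
  map_one' := by
    apply Equiv.ext
    intro p
    change (res 1 * p.1, p.2) = _
    rw [map_one, one_mul]
    rfl
  map_mul' ρ ρ' := by
    apply Equiv.ext
    intro p
    change (res (ρ * ρ') * p.1, p.2) = (res ρ * (res ρ' * p.1), p.2)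
    rw [map_mul, mul_assoc]

theorem dvd_dg (g s k : ℕ) (hk : 0 < k) (hs : 0 < s) (hg : g = s * k) : s ∣ dg (3 * g) (3 * k) := by
  unfold dg
  have h1 : 3 * g = (3 * g - 1) + 1 := by
    have : 0 < g := by rw [hg]; exact Nat.mul_pos hs hk
    omega
  refine ⟨(3 * g - 1).factorial, ?_⟩
  apply Nat.div_eq_of_eq_mul_left (by omega)
  rw [h1, Nat.factorial_succ, ← h1, hg]
  ring_nf

theorem dg_pos (g k : ℕ) (hk : 0 < k) (hg : k ≤ g) : 0 < dg g k :=
  Nat.div_pos (le_trans hg (Nat.self_le_factorial g)) hk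

theorem dg_le (g k : ℕ) : dg g k ≤ g.factorial := Nat.div_le_self _ _

/- **Symmetric fibre powers of arbitrary embedding problems**, in characteristic zero. -/
theorem reg_dvd (K L : Type) [Field K] [CharZero K] [Field L] [Algebra K L]
    [FiniteDimensional K L] [IsGalois K L] (G : Type) [Group G] [Finite G]
    (α : G →* (L ≃ₐ[K] L)) (hα : Function.Surjective α) (n : ℕ)
    (hn : Pool.Agent.TH59.WX.nb (3 * Nat.card G) (3 * Nat.card G * Nat.card (L ≃ₐ[K] L)) ≤ n)
    (hsn : Nat.card (L ≃ₐ[K] L) ∣ n) : RegSol K L (SymEP α n) (symProj α n) := by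
  classical
  have hk0 : 0 < Nat.card α.ker := Nat.card_pos
  have hs0 : 0 < Nat.card (L ≃ₐ[K] L) := Nat.card_pos
  obtain ⟨L', i1, i2, i3, i4, i5, i6, ζ, hζ, hL'⟩ := Pool.Agent.TH59.WX.exists_root_ext_bd K L
    (3 * Nat.card α.ker) (by omega)
  have hg : Nat.card G = Nat.card (L ≃ₐ[K] L) * Nat.card α.ker := by
    rw [Subgroup.card_eq_card_quotient_mul_card_subgroup α.ker,
      Nat.card_congr (QuotientGroup.quotientKerEquivOfSurjective α hα).toEquiv]
  have hkg : Nat.card α.ker ≤ Nat.card G := by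
    rw [hg]
    exact Nat.le_mul_of_pos_left _ hs0
  let res : (L' ≃ₐ[K] L') →* (L ≃ₐ[K] L) := AlgEquiv.restrictNormalHom L
  have hres : Function.Surjective res := AlgEquiv.restrictNormalHom_surjective L'
  have hsdvd : Nat.card (L ≃ₐ[K] L) ∣ Nat.card (L' ≃ₐ[K] L') :=
    Subgroup.card_dvd_of_surjective res hres
  obtain ⟨hn3, j, M, hJM, hTM, hDM⟩ := numbers6 (3 * Nat.card G)
    (3 * Nat.card G * Nat.card (L ≃ₐ[K] L))
    (Nat.card (L ≃ₐ[K] L)) (dg (3 * Nat.card G) (3 * Nat.card α.ker)) (tg (3 * Nat.card G))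
    (Nat.card (L' ≃ₐ[K] L') * (3 * Nat.card α.ker)) (dg_pos _ _ (by omega) (by omega))
    (dg_le _ _) (by unfold tg; exact le_rfl)
    (Nat.mul_le_mul (hL'.trans (Nat.mul_le_mul_right _ (by omega))) (by omega))
    (dvd_dg _ _ _ hk0 hs0 hg) (hsdvd.mul_right _) n hn hsn
  choose sec hsec using hα
  have hZ : Nat.card ((L ≃ₐ[K] L) × Fin j) = Nat.card (L ≃ₐ[K] L) * j := by
    rw [Nat.card_prod, Nat.card_eq_fintype_card (α := Fin j), Fintype.card_fin]
  refine reg_one K L L' G α (fun ρ => ⟨sec ρ, hsec ρ⟩) ζ hζ ((L ≃ₐ[K] L) × Fin j) (permZ res)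
    (fun ρ z => sec (res ρ * z.1) * (sec z.1)⁻¹) ?_ ?_ n M hn3 ?_ ?_ ?_
  · intro ρ ρ' z
    change sec (res (ρ * ρ') * z.1) * (sec z.1)⁻¹ =
      sec (res ρ * (res ρ' * z.1)) * (sec (res ρ' * z.1))⁻¹ * (sec (res ρ' * z.1) * (sec z.1)⁻¹)
    rw [map_mul, mul_assoc (res ρ)]
    group
  · intro ρ z
    rw [map_mul, map_inv, hsec, hsec, mul_inv_cancel_right]
    rfl
  · rw [hZ]
    exact hJM
  · rw [hZ]
    exact hTM
  · rw [hZ]
    exact hDM

end reg

end Pool.Agent.N600.NS
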