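import Mathlib
import Pool.Prelude.Def_F_b1b78ff3

namespace Nfff32c05
end Nfff32c05


namespace Pool.Agent.H391R2

open Nfff32c05


theorem isRealizable_of {K G : Type} [Field K] [Group G] (L : Type) [Field L] [Algebra K L]
    [IsGalois K L] (e : G ≃* (L ≃ₐ[K] L)) : IsRealizable K G :=
  ⟨⟨⟨L, inferInstance, inferInstance, inferInstance, e⟩⟩⟩

/- Quotients of Galois groups. -/
theorem isRealizable_quotient {K G : Type} [Field K] [Group G] (L : Type) [Field L] [Algebra K L]
    [FiniteDimensional K L] [IsGalois K L] (χ : (L ≃ₐ[K] L) →* G) (hχ : Function.Surjective χ) :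
    IsRealizable K G :=
  isRealizable_of (IntermediateField.fixedField χ.ker)
    ((QuotientGroup.quotientKerEquivOfSurjective χ hχ).symm.trans
      (IsGalois.normalAutEquivQuotient χ.ker))


end Pool.Agent.H391R2
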