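import Mathlib
import Pool.Agent.H84.L.S8_H391R2_HitMulti
import Pool.Agent.H84.L.S8_H391R2_T4_Blueprint
import Pool.Agent.H84.L.S8_H391R2_T4_Gp
import Pool.Agent.H84.L.S8_H391R2_T4_Red
import Pool.Agent.H84.L.S8_H391R2_WrGrp
import Pool.Agent.H84.L.S8_H391R2_WrRes
import Pool.Agent.H84.L.S8_W200_IG_HD
import Pool.Agent.H84.L.S8_W200_IG_HF

namespace Nfff32c05
end Nfff32c05
namespace Pool.Agent.H391R2
end Pool.Agent.H391R2
namespace Pool.Agent.H391R2.T4
end Pool.Agent.H391R2.T4
namespace Pool.Agent.W200.IG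
end Pool.Agent.W200.IG


/-!
Realizability of extensions by wreath products.
-/

set_option autoImplicit false

namespace Pool.Agent.TH59.WX

open Nfff32c05
open Pool.Agent.H391R2 (Wr isRealizable_of isRealizable_quotient)
open Pool.Agent.H391R2.T4 (EG RegSol finite_wr finite_eg HilbField)
open Pool.Agent.W200.IG (HP SP hp_base sp_base sp_poly)

set_option linter.unusedSectionVars false

/- A realization of a finite group. -/
theorem exists_gal_of (K X : Type) [Field K] [Group X] [Finite X] (h : IsRealizable K X) :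
    ∃ (L : Type) (_ : Field L) (_ : Algebra K L) (_ : FiniteDimensional K L) (_ : IsGalois K L),
      Nonempty (X ≃* (L ≃ₐ[K] L)) := by
  obtain ⟨⟨⟨L, i1, i2, i3, e⟩⟩⟩ := h
  have hfin : Finite (L ≃ₐ[K] L) := Finite.of_equiv _ e.toEquiv
  exact ⟨L, i1, i2, IsGalois.finiteDimensional_of_finite K L, i3, ⟨e⟩⟩


end Pool.Agent.TH59.WX
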