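import Mathlib
import Pool.Agent.H84.L.S8_H391R2_T4_Gp
import Pool.Agent.H84.L.S8_H391R2_T4_Red
import Pool.Agent.H84.L.S8_H391R2_WrGrp
import Pool.Agent.H84.L.S8_TH444_TW_RS
import Pool.Agent.H84.L.S8_TH59_WX_PA
import Pool.Agent.H84.L.S8_W200_IJ_CA

namespace Pool.Agent.H391R2
end Pool.Agent.H391R2
namespace Pool.Agent.H391R2.T4
end Pool.Agent.H391R2.T4
namespace Pool.Agent.TH59.WX
end Pool.Agent.TH59.WX


/-!
# Groups which are kernels of regularly solvable embedding problems only: closure properties
-/

set_option autoImplicit false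

namespace Pool.Agent.N600.UK

open Pool.Agent.H391R2 (Wr wr_mul_left wr_mul_right wr_inv_left)
open Pool.Agent.H391R2.T4 (RegSol exists_equiv_of_ker finite_wr)
open Pool.Agent.TH59.WX

set_option linter.unusedSectionVars false

/- Trivial centre. -/
def CL (T : Type) [Group T] : Prop := ∀ z : T, (∀ g : T, z * g = g * z) → z = 1


/- Quotients of regular solutions (over the same field). -/
theorem reg_quot {K L X Y : Type} [Field K] [Field L] [Algebra K L] [FiniteDimensional K L]
    [IsGalois K L] [Group X] [Group Y] (α : X →* (L ≃ₐ[K] L)) (β : Y →* (L ≃ₐ[K] L))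
    (q : Y →* X) (hq : Function.Surjective q) (h : ∀ y, α (q y) = β y) (hr : RegSol K L Y β) :
    RegSol K L X α := by
  refine Pool.Agent.W200.IJ.regSol_quot (L' := L) α β q hq ?_ ?_ hr
  · intro g
    rw [Pool.Agent.TH444.TW.restrictNormal_self]
    exact h g
  · intro ρ hρ
    rw [Pool.Agent.TH444.TW.restrictNormal_self] at hρ
    exact ⟨1, map_one _, by rw [map_one, hρ]⟩


/- Decomposition in indecomposable factors. -/
theorem exists_decomp (N : ℕ) : ∀ (T : Type) [Group T] [Finite T], CL T → Nat.card T = N →
    ∃ (J : Type) (_ : Finite J) (U : J → Type) (_ : ∀ j, Group (U j)) (_ : ∀ j, Finite (U j)),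
      (∀ j, Indec (U j)) ∧ (∀ j, Nontrivial (U j)) ∧ Nonempty (T ≃* ∀ j, U j) := by
  induction N using Nat.strong_induction_on with
  | _ N ih =>
  intro T _ _ hT hcard
  by_cases htriv : Subsingleton T
  · refine ⟨Empty, inferInstance, fun _ => Unit, fun j => j.elim, fun j => j.elim,
      fun j => j.elim, fun j => j.elim, ⟨?_⟩⟩
    let _ : ∀ j : Empty, Group ((fun _ => Unit) j) := fun j => j.elim
    exact
      { toFun := fun _ j => j.elim
        invFun := fun _ => 1
        left_inv := fun t => Subsingleton.elim _ _
        right_inv := fun f => by funext j; exact j.elim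
        map_mul' := fun a b => by funext j; exact j.elim }
  · have hnt : Nontrivial T := not_subsingleton_iff_nontrivial.1 htriv
    by_cases hI : Indec T
    · refine ⟨Unit, inferInstance, fun _ => T, fun _ => inferInstance, fun _ => inferInstance,
        fun _ => hI, fun _ => hnt, ⟨?_⟩⟩
      exact (MulEquiv.funUnique Unit T).symm
    · unfold Indec at hI
      push Not at hI
      obtain ⟨A, B, hcomm, hgen, hA, hB⟩ := hI
      have hdisj : ∀ t : T, t ∈ A → t ∈ B → t = 1 := by
        intro t ht1 ht2
        apply hT
        intro g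
        obtain ⟨a, ha, b, hb, rfl⟩ := hgen g
        rw [← mul_assoc, ← hcomm a ha t ht2, mul_assoc, hcomm t ht1 b hb, mul_assoc]
      let f : A × B →* T := MonoidHom.mk' (fun p => (p.1 : T) * p.2) (fun p q => by
        change ((p.1 : T) * q.1) * (p.2 * q.2) = p.1 * p.2 * (q.1 * q.2)
        have h1 := hcomm q.1 q.1.2 p.2 p.2.2
        calc ((p.1 : T) * q.1) * (p.2 * q.2) = p.1 * (q.1 * p.2) * q.2 := by group
          _ = p.1 * p.2 * (q.1 * q.2) := by rw [h1]; group)
      have hf : Function.Bijective f := by
        constructor
        · rw [injective_iff_map_eq_one]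
          rintro ⟨a, b⟩ hab
          change (a : T) * b = 1 at hab
          have h1 : (a : T) = (b : T)⁻¹ := eq_inv_of_mul_eq_one_left hab
          have h2 : (a : T) = 1 := hdisj _ a.2 (by rw [h1]; exact inv_mem b.2)
          have h3 : (b : T) = 1 := by rw [h2, one_mul] at hab; exact hab
          exact Prod.ext (Subtype.ext h2) (Subtype.ext h3)
        · intro t
          obtain ⟨a, ha, b, hb, rfl⟩ := hgen t
          exact ⟨(⟨a, ha⟩, ⟨b, hb⟩), rfl⟩
      let E : A × B ≃* T := MulEquiv.ofBijective f hf
      have hcard2 : Nat.card A * Nat.card B = Nat.card T := by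
        rw [← Nat.card_prod]
        exact Nat.card_congr E.toEquiv
      have hA1 : 1 < Nat.card A := by
        have := (Subgroup.nontrivial_iff_ne_bot A).2 hA
        exact Finite.one_lt_card
      have hB1 : 1 < Nat.card B := by
        have := (Subgroup.nontrivial_iff_ne_bot B).2 hB
        exact Finite.one_lt_card
      have hCA : CL A := by
        intro z hz
        apply Subtype.ext
        apply hT
        intro g
        obtain ⟨a, ha, b, hb, rfl⟩ := hgen g
        have h1 : (z : T) * a = a * z := congrArg Subtype.val (hz ⟨a, ha⟩)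
        rw [← mul_assoc, h1, mul_assoc, hcomm z z.2 b hb, mul_assoc]
      have hCB : CL B := by
        intro z hz
        apply Subtype.ext
        apply hT
        intro g
        obtain ⟨a, ha, b, hb, rfl⟩ := hgen g
        have h1 : (z : T) * b = b * z := congrArg Subtype.val (hz ⟨b, hb⟩)
        rw [← mul_assoc, ← hcomm a ha z z.2, mul_assoc, h1, mul_assoc]
      obtain ⟨J₁, j1, U₁, j2, j3, j4, j5, ⟨e₁⟩⟩ := ih (Nat.card A) (by nlinarith) A hCA rfl
      obtain ⟨J₂, k1, U₂, k2, k3, k4, k5, ⟨e₂⟩⟩ := ih (Nat.card B) (by nlinarith) B hCB rfl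
      let U : J₁ ⊕ J₂ → Type := Sum.elim U₁ U₂
      let g : ∀ j, Group (U j) := fun j => match j with
        | Sum.inl j => j2 j
        | Sum.inr j => k2 j
      refine ⟨J₁ ⊕ J₂, inferInstance, U, g, ?_, ?_, ?_, ⟨?_⟩⟩
      · rintro (j | j)
        · exact j3 j
        · exact k3 j
      · rintro (j | j)
        · exact j4 j
        · exact k4 j
      · rintro (j | j)
        · exact j5 j
        · exact k5 j
      · refine E.symm.trans ((MulEquiv.prodCongr e₁ e₂).trans ?_)
        exact
          { toFun := fun p j => match j with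
              | Sum.inl j => p.1 j
              | Sum.inr j => p.2 j
            invFun := fun f => (fun j => f (Sum.inl j), fun j => f (Sum.inr j))
            left_inv := fun p => rfl
            right_inv := fun f => by
              funext j
              rcases j with j | j <;> rfl
            map_mul' := fun p q => by
              funext j
              rcases j with j | j <;> rfl }


end Pool.Agent.N600.UK
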