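import Mathlib
import Pool.Agent.H84.L.S8_H391R2_T4_Red

namespace Pool.Agent.H391R2.T4
end Pool.Agent.H391R2.T4


/-!
# Cyclic groups of order a power of the characteristic: Albert's theorem
-/

set_option autoImplicit false

namespace Pool.Agent.TH444.TW

open Pool.Agent.H391R2.T4 (RegSol)
open Finset

section hilb

variable {K M : Type} [Field K] [Field M] [Algebra K M] [FiniteDimensional K M] [IsGalois K M]

theorem trace_sum (σ : M ≃ₐ[K] M) (hσ : ∀ τ, τ ∈ Subgroup.zpowers σ) (x : M) :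
    algebraMap K M (Algebra.trace K M x) = ∑ i ∈ range (orderOf σ), (σ ^ i) x := by
  classical
  rw [trace_eq_sum_automorphisms, ← IsCyclic.image_range_orderOf hσ, Finset.sum_image]
  intro i hi j hj hij
  have hi' : i < orderOf σ := Finset.mem_range.1 hi
  have hj' : j < orderOf σ := Finset.mem_range.1 hj
  exact pow_injOn_Iio_orderOf hi' hj' hij

theorem exists_alb (p : ℕ) [hp : Fact p.Prime] [CharP M p] (σ : M ≃ₐ[K] M)
    (hσ : ∀ τ, τ ∈ Subgroup.zpowers σ) :
    ∃ α β : M, σ α = α + (β ^ p - β) ∧ ∑ i ∈ range (orderOf σ), (σ ^ i) β = 1 := by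
  classical
  obtain ⟨β, hβ⟩ := Algebra.trace_surjective K M 1
  have hβ' : ∑ i ∈ range (orderOf σ), (σ ^ i) β = 1 := by
    rw [← trace_sum σ hσ, hβ, map_one]
  let q := orderOf σ
  have hq : σ ^ q = 1 := pow_orderOf_eq_one σ
  let γ : M := β ^ p - β
  let S : ℕ → M := fun i => ∑ j ∈ range i, (σ ^ j) γ
  have hSσ : ∀ i, σ (S i) = S (i + 1) - γ := by
    intro i
    change σ (∑ j ∈ range i, (σ ^ j) γ) = ∑ j ∈ range (i + 1), (σ ^ j) γ - γ
    rw [map_sum, Finset.sum_range_succ', pow_zero, AlgEquiv.one_apply, add_sub_cancel_right]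
    refine Finset.sum_congr rfl fun j _ => ?_
    rw [pow_succ', AlgEquiv.mul_apply]
  have hSq : S q = 0 := by
    change ∑ j ∈ range q, (σ ^ j) γ = 0
    have h1 : ∀ j, (σ ^ j) γ = ((σ ^ j) β) ^ p - (σ ^ j) β := by
      intro j
      change (σ ^ j) (β ^ p - β) = _
      rw [map_sub, map_pow]
    simp only [h1]
    rw [Finset.sum_sub_distrib, ← sum_pow_char p, hβ', one_pow, sub_self]
  let f : ℕ → M := fun i => S i * (σ ^ i) β
  have hf0 : f 0 = 0 := by
    change (∑ j ∈ range 0, (σ ^ j) γ) * _ = 0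
    rw [Finset.sum_range_zero, zero_mul]
  have hfq : f q = 0 := by
    change S q * _ = 0
    rw [hSq, zero_mul]
  let T : M := ∑ i ∈ range q, f i
  have h2 : ∑ i ∈ range q, f (i + 1) = T := by
    have h3 := Finset.sum_range_succ f q
    have h4 := Finset.sum_range_succ' f q
    rw [h3, hfq, hf0, add_zero, add_zero] at h4
    exact h4.symm
  have h5 : ∑ i ∈ range q, (σ ^ (i + 1)) β = 1 := by
    have h3 := Finset.sum_range_succ (fun i => (σ ^ i) β) q
    have h4 := Finset.sum_range_succ' (fun i => (σ ^ i) β) q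
    rw [h3, hq, pow_zero] at h4
    have h6 := add_right_cancel h4
    rw [← h6]
    exact hβ'
  have hT : σ T = T - γ := by
    change σ (∑ i ∈ range q, S i * (σ ^ i) β) = _
    rw [map_sum]
    have h3 : ∀ i, σ (S i * (σ ^ i) β) = f (i + 1) - γ * (σ ^ (i + 1)) β := by
      intro i
      rw [map_mul, hSσ, pow_succ', AlgEquiv.mul_apply, sub_mul]
      change S (i + 1) * _ - _ = S (i + 1) * (σ ^ (i + 1)) β - _
      rw [pow_succ', AlgEquiv.mul_apply]
    simp only [h3]
    rw [Finset.sum_sub_distrib, h2, ← Finset.mul_sum, h5, mul_one]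
  refine ⟨-T, β, ?_, hβ'⟩
  rw [map_neg, hT]
  change -(T - γ) = -T + γ
  ring

end hilb

end Pool.Agent.TH444.TW
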