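import Mathlib
import Pool.Agent.H84.L.S8_H391R2_T4_Red
import Pool.Agent.H84.L.S8_H391R2_T4_Sem
import Pool.Agent.H84.L.S8_H793R2_HilbFin
import Pool.Agent.H84.L.S8_H81R2_BT_Trace
import Pool.Agent.H84.L.S8_TH15_IGP_WrC
import Pool.Agent.H84.L.S8_TH444_TW_AlbA
import Pool.Agent.H84.L.S8_TH444_TW_AlbB
import Pool.Agent.H84.L.S8_TH444_TW_AlbC
import Pool.Agent.H84.L.S8_TH444_TW_Kum
import Pool.Agent.H84.L.S8_TH444_TW_RComp
import Pool.Agent.H84.L.S8_TH444_TW_RS
import Pool.Agent.H84.L.S8_W200_IJ_BC
import Pool.Agent.H84.L.S8_W200_IJ_SA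

namespace Pool.Agent.H391R2.T4
end Pool.Agent.H391R2.T4


/-!
# Albert's theorem, regular version
-/

set_option autoImplicit false

namespace Pool.Agent.TH444.TW

open Pool.Agent.H391R2.T4 (RegSol)
open Finset

/- Regular solutions from groups of automorphisms with a rational fixed field. -/
theorem reg_fixed (K M N : Type) [Field K] [Infinite K] [Field M] [Algebra K M]
    [FiniteDimensional K M] [IsGalois K M] [Field N] [Algebra K N] [Algebra M N]
    [IsScalarTower K M N] (G : Subgroup (N ≃ₐ[K] N)) [Finite G]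
    (e₀ : RatFunc K ≃ₐ[K] (IntermediateField.fixedField G))
    (hreg : ∀ y : N, IsAlgebraic M y → y ∈ Set.range (algebraMap M N)) :
    RegSol K M G ((AlgEquiv.restrictNormalHom M).comp G.subtype) := by
  classical
  let E₁ : Subfield N := FixedPoints.subfield G N
  let E : IntermediateField K N := IntermediateField.fixedField G
  let e₁ : E ≃+* E₁ := RingEquiv.refl _
  let aKE : Algebra K E₁ := ((e₁ : E →+* E₁).comp (algebraMap K E)).toAlgebra
  obtain ⟨a1, h1, t1⟩ := Pool.Agent.TH15.IGP.ratFunc_unit K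
  let Φ : MvPolynomial Unit K →+* E₁ :=
    (e₁ : E →+* E₁).comp ((e₀ : RatFunc K →+* E).comp (algebraMap (MvPolynomial Unit K) (RatFunc K)))
  let aME : Algebra (MvPolynomial Unit K) E₁ := Φ.toAlgebra
  have hfr : IsFractionRing (MvPolynomial Unit K) E₁ := by
    let e₂ : RatFunc K ≃ₐ[MvPolynomial Unit K] E₁ :=
      AlgEquiv.ofRingEquiv (f := (e₀.toRingEquiv).trans e₁) (fun x => rfl)
    exact IsLocalization.isLocalization_of_algEquiv _ e₂
  have t2 : IsScalarTower K (MvPolynomial Unit K) E₁ := IsScalarTower.of_algebraMap_eq fun x => by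
    change e₁ (algebraMap K E x) = e₁ (e₀ (algebraMap (MvPolynomial Unit K) (RatFunc K)
      (algebraMap K (MvPolynomial Unit K) x)))
    rw [← IsScalarTower.algebraMap_apply, e₀.commutes]
  have t3 : IsScalarTower K E₁ N := IsScalarTower.of_algebraMap_eq fun x => rfl
  have hfd : FiniteDimensional E₁ N := inferInstance
  have hgal : IsGalois E₁ N := ⟨⟩
  refine Pool.Agent.W200.IJ.taskA K M G _ Unit E₁ N (FixedPoints.toAlgAutMulEquiv G N).symm ?_ hreg
  intro σ x
  obtain ⟨g, rfl⟩ := (FixedPoints.toAlgAutMulEquiv G N).surjective σ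
  rw [MulEquiv.symm_apply_apply]
  exact (AlgEquiv.restrictNormal_commutes g.1 M x).symm

theorem alb_reg (K M : Type) [Field K] [Infinite K] [Field M] [Algebra K M]
    [FiniteDimensional K M] [IsGalois K M] (p : ℕ) [hp : Fact p.Prime] [CharP M p]
    (σ : M ≃ₐ[K] M) (hσ : ∀ τ, τ ∈ Subgroup.zpowers σ) :
    ∃ (C : Type) (_ : Group C) (_ : IsCyclic C) (_ : Finite C) (π : C →* (M ≃ₐ[K] M)),
      Nat.card C = Module.finrank K M * p ∧ RegSol K M C π := by
  classical
  obtain ⟨α, β, h1, h2⟩ := exists_alb p σ hσ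
  have hord0 : 0 < orderOf σ := orderOf_pos σ
  have hfr : orderOf σ = Module.finrank K M := by
    rw [← IsGalois.card_aut_eq_finrank K M]
    exact orderOf_eq_card_of_forall_mem_zpowers hσ
  have hord := affAut_order σ β p hord0 h2
  have hfo : IsOfFinOrder (affAut σ β) := orderOf_pos_iff.1 (by
    rw [hord]; exact Nat.mul_pos hord0 hp.out.pos)
  let G := Subgroup.zpowers (affAut σ β)
  have hfin : Finite G := hfo.finite_zpowers
  have : Fintype G := Fintype.ofFinite G
  have hcard : Nat.card G = Module.finrank K M * p := by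
    rw [Nat.card_zpowers, hord, hfr]
  obtain ⟨hfd, hdeg⟩ := alb_deg (K := K) p α
  have hle : IntermediateField.adjoin K {albU p α} ≤ IntermediateField.fixedField G := by
    rw [IntermediateField.adjoin_simple_le_iff, IntermediateField.mem_fixedField_iff]
    have h3 : G ≤ MulAction.stabilizer (RatFunc M ≃ₐ[K] RatFunc M) (albU p α) := by
      rw [Subgroup.zpowers_le]
      exact affAut_albU σ β p α h1
    intro g hg
    exact h3 hg
  have hfr2 : Module.finrank (IntermediateField.fixedField G) (RatFunc M) = Nat.card G := by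
    rw [Nat.card_eq_fintype_card]
    exact FixedPoints.finrank_eq_card G (RatFunc M)
  have heq : IntermediateField.adjoin K {albU p α} = IntermediateField.fixedField G := by
    refine IntermediateField.eq_of_le_of_finrank_le' hle ?_
    rw [hfr2, hcard]
    exact hdeg
  have htr : Transcendental K (albU p α) := (albU_trans p α).restrictScalars
    (algebraMap K M).injective
  let e₀ : RatFunc K ≃ₐ[K] (IntermediateField.fixedField G) :=
    (RatFunc.algEquivOfTranscendental (albU p α) htr).trans (IntermediateField.equivOfEq heq)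
  exact ⟨G, inferInstance, inferInstance, hfin, _, hcard,
    reg_fixed K M (RatFunc M) G e₀ fun y hy => Pool.Agent.H81R2.BT.ratFunc_alg y hy⟩

/- Cyclic groups of order a power of the characteristic. -/
theorem cycReg_charP (p : ℕ) [hp : Fact p.Prime] (r : ℕ) :
    ∀ (K : Type) [Field K] [Infinite K] [CharP K p], CycReg K (p ^ r) := by
  induction r with
  | zero =>
    intro K _ _ _ C _ _ _ hC
    rw [pow_zero] at hC
    have hs : Subsingleton C := (Nat.card_eq_one_iff_unique.1 hC).1
    refine Pool.Agent.W200.IJ.taskA_empty K K C 1 (fun a b _ => Subsingleton.elim a b) ?_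
    intro x _
    exact ⟨x, rfl⟩
  | succ r ih =>
    intro K _ _ _
    obtain ⟨M, i1, i2, i3, i4, i5, i6, i7, i8, γ₁, hγ₁, hreg₁⟩ :=
      ih K (Multiplicative (ZMod (p ^ r))) (by
        change Nat.card (ZMod (p ^ r)) = p ^ r
        exact Nat.card_zmod _)
    have hLK : i3 = i4 := Algebra.algebra_ext i3 i4 (fun x =>
      (@IsScalarTower.algebraMap_apply K K M _ _ _ _ i3 i4 i6 x).symm)
    subst hLK
    have hinf := infinite_ratFunc K
    have hcM : CharP M p := by
      have h1 : CharP (RatFunc K) p := charP_of_injective_algebraMap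
        (algebraMap K (RatFunc K)).injective p
      exact charP_of_injective_algebraMap (algebraMap (RatFunc K) M).injective p
    obtain ⟨g, hg⟩ := IsCyclic.exists_generator (α := Multiplicative (ZMod (p ^ r)))
    have hσ : ∀ τ, τ ∈ Subgroup.zpowers (γ₁.symm g) := by
      intro τ
      obtain ⟨n, hn⟩ := Subgroup.mem_zpowers_iff.1 (hg (γ₁ τ))
      rw [Subgroup.mem_zpowers_iff]
      refine ⟨n, γ₁.injective ?_⟩
      rw [map_zpow, MulEquiv.apply_symm_apply, hn]
    obtain ⟨C, j1, j2, j3, π, hC, F, k1, k2, k3, k4, k5, k6, k7, k8, γ, hγ, hreg⟩ :=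
      alb_reg (RatFunc K) M p (γ₁.symm g) hσ
    have hfr : Module.finrank (RatFunc K) M = p ^ r := by
      rw [← IsGalois.card_aut_eq_finrank (RatFunc K) M, Nat.card_congr γ₁.toEquiv]
      change Nat.card (ZMod (p ^ r)) = p ^ r
      exact Nat.card_zmod _
    rw [hfr, ← pow_succ] at hC
    refine cycReg_of_reg C hC ?_
    obtain ⟨a1, h1, t1⟩ := Pool.Agent.TH15.IGP.ratFunc_unit K
    refine reg_comp_aux K K (RatFunc K) (RatFunc (RatFunc K)) M F C 1 γ ?_ ?_ hreg
    · intro σ x
      have h2 : algebraMap K M x = algebraMap (RatFunc K) M (algebraMap K (RatFunc K) x) := by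
        rw [← IsScalarTower.algebraMap_apply K (RatFunc K) M]
      rw [hγ]
      congr 1
      change π (γ σ) (algebraMap K M x) = algebraMap K M x
      rw [h2, AlgEquiv.commutes]
    · exact hreg₁

end Pool.Agent.TH444.TW
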