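import Mathlib
import Pool.Agent.H84.L.S8_H391R2_T4_Red
import Pool.Agent.H84.L.S8_TH15_IGP_WrC
import Pool.Agent.H84.L.S8_TH444_TW_AlbD
import Pool.Agent.H84.L.S8_TH444_TW_Cyc
import Pool.Agent.H84.L.S8_TH444_TW_Kum
import Pool.Agent.H84.L.S8_TH444_TW_Luro
import Pool.Agent.H84.L.S8_TH444_TW_RComp
import Pool.Agent.H84.L.S8_TH444_TW_RS

namespace Pool.Agent.H391R2.T4
end Pool.Agent.H391R2.T4


/-!
# All cyclic groups over all infinite fields
-/

set_option autoImplicit false

namespace Pool.Agent.TH444.TW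

open Pool.Agent.H391R2.T4 (RegSol)

theorem reg_prod2 (K A B : Type) [Field K] [Infinite K] [Group A] [Group B] [Finite A] [Finite B]
    (hA : RegSol K K A 1) (hB : RegSol (RatFunc K) (RatFunc K) B 1) : RegSol K K (A × B) 1 := by
  obtain ⟨M, i1, i2, i3, i4, i5, i6, i7, i8, γ₁, hγ₁, hreg₁⟩ := hA
  have hLK : i3 = i4 := Algebra.algebra_ext i3 i4 (fun x =>
    (@IsScalarTower.algebraMap_apply K K M _ _ _ _ i3 i4 i6 x).symm)
  subst hLK
  have hinf := infinite_ratFunc K
  have hfinG : Finite (M ≃ₐ[RatFunc K] M) := inferInstance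
  let P := B ⋊[(1 : (M ≃ₐ[RatFunc K] M) →* MulAut B)] (M ≃ₐ[RatFunc K] M)
  have hfinP : Finite P := Finite.of_equiv _ SemidirectProduct.equivProd.symm
  obtain ⟨F, k1, k2, k3, k4, k5, k6, k7, k8, γ, hγ, hreg⟩ :=
    reg_prod (K := RatFunc K) (L := M) (C := B) (1 : (M ≃ₐ[RatFunc K] M) →* MulAut B)
      (fun g => rfl) hB
  obtain ⟨a1, h1, t1⟩ := Pool.Agent.TH15.IGP.ratFunc_unit K
  have h3 : RegSol K K P 1 := by
    refine reg_comp_aux K K (RatFunc K) (RatFunc (RatFunc K)) M F P 1 γ ?_ ?_ hreg
    · intro σ x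
      rw [hγ]
      congr 1
      change (SemidirectProduct.rightHom (γ σ)) (algebraMap K M x) = algebraMap K M x
      rw [IsScalarTower.algebraMap_apply K (RatFunc K) M, AlgEquiv.commutes]
    · exact hreg₁
  let e : P ≃* A × B :=
    { toFun := fun x => (γ₁ x.right, x.left)
      invFun := fun y => ⟨y.2, γ₁.symm y.1⟩
      left_inv := fun x => by
        apply SemidirectProduct.ext
        · rfl
        · exact γ₁.symm_apply_apply _
      right_inv := fun y => by
        apply Prod.ext
        · exact γ₁.apply_symm_apply _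
        · rfl
      map_mul' := fun x y => by
        apply Prod.ext
        · exact map_mul γ₁ _ _
        · rfl }
  exact regSol_equiv e 1 1 (fun g => rfl) h3

theorem cycReg_mul (K : Type) [Field K] [Infinite K] (m n : ℕ) (hm : 0 < m) (hn : 0 < n)
    (hmn : m.Coprime n) (h1 : CycReg K m) (h2 : CycReg (RatFunc K) n) : CycReg K (m * n) := by
  have : NeZero m := ⟨hm.ne'⟩
  have : NeZero n := ⟨hn.ne'⟩
  have : NeZero (m * n) := ⟨(Nat.mul_pos hm hn).ne'⟩
  refine cycReg_of_reg (Multiplicative (ZMod (m * n))) (by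
    change Nat.card (ZMod (m * n)) = m * n
    exact Nat.card_zmod _) ?_
  have h3 := reg_prod2 K (Multiplicative (ZMod m)) (Multiplicative (ZMod n))
    (h1 _ (by change Nat.card (ZMod m) = m; exact Nat.card_zmod _))
    (h2 _ (by change Nat.card (ZMod n) = n; exact Nat.card_zmod _))
  let e : Multiplicative (ZMod m) × Multiplicative (ZMod n) ≃* Multiplicative (ZMod (m * n)) :=
    { toFun := fun x => Multiplicative.ofAdd ((ZMod.chineseRemainder hmn).symm
        (Multiplicative.toAdd x.1, Multiplicative.toAdd x.2))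
      invFun := fun y => (Multiplicative.ofAdd ((ZMod.chineseRemainder hmn)
        (Multiplicative.toAdd y)).1, Multiplicative.ofAdd ((ZMod.chineseRemainder hmn)
        (Multiplicative.toAdd y)).2)
      left_inv := fun x => by simp
      right_inv := fun y => by simp
      map_mul' := fun x y => by
        rw [← ofAdd_add, ← map_add]
        rfl }
  exact regSol_equiv e 1 1 (fun g => rfl) h3

/- Every finite cyclic group is the group of a regular extension of `K(t)`. -/
theorem cycReg_all (K : Type) [Field K] [Infinite K] (m : ℕ) (hm : 0 < m) : CycReg K m := by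
  by_cases h : (m : K) ≠ 0
  · exact cycReg_unit K m h
  · rw [not_not] at h
    obtain ⟨p, hp⟩ := CharP.exists K
    have hpm : p ∣ m := (CharP.cast_eq_zero_iff K p m).1 h
    have hp0 : p ≠ 0 := by
      rintro rfl
      exact hm.ne' (Nat.eq_zero_of_zero_dvd hpm)
    have hpp : Fact p.Prime := ⟨(CharP.char_is_prime_or_zero K p).resolve_right hp0⟩
    obtain ⟨r, m', hm', hmm⟩ := Nat.exists_eq_pow_mul_and_not_dvd hm.ne' p hpp.out.ne_one
    have hm'0 : 0 < m' := by
      rcases Nat.eq_zero_or_pos m' with h0 | h0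
      · exact absurd (h0 ▸ dvd_zero p) hm'
      · exact h0
    have hinf := infinite_ratFunc K
    have hcR : CharP (RatFunc K) p := charP_of_injective_algebraMap
      (algebraMap K (RatFunc K)).injective p
    rw [hmm]
    refine cycReg_mul K (p ^ r) m' (pow_pos hpp.out.pos r) hm'0
      (Nat.Coprime.pow_left r ((Nat.Prime.coprime_iff_not_dvd hpp.out).2 hm'))
      (cycReg_charP p r K) (cycReg_unit (RatFunc K) m' ?_)
    intro h0
    exact hm' ((CharP.cast_eq_zero_iff (RatFunc K) p m').1 h0)

end Pool.Agent.TH444.TW
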