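import Mathlib
import Pool.Agent.H84.L.S8_H391R2_WrGrp

namespace Pool.Agent.H391R2
end Pool.Agent.H391R2


/-!
# A class of epimorphisms

`Wr B k` is the wreath product `B ≀ S_k = (Fin k → B) ⋊ Perm (Fin k)`; its elements are pairs
`(c, π)`, with `(c, π) (d, ρ) = (i ↦ c_i d_(π⁻¹ i), π ρ)`.

`Cls K` is the smallest class of homomorphisms `p : W' → W` of groups which
* contains all `p` which have a homomorphic section and a finite abelian kernel
  (the projections `A ⋊ W → W` with `A` finite abelian, with any action),
* contains the projections `A^k ⋊ W → W`, where `A` is the Galois group of a finite Galois extension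
  of `K(t)` in which `K` is algebraically closed, and `W` acts through a homomorphism
  `W → A ≀ S_k`,
* contains the projections `(G ≀ S_n)^k ⋊ W → W`, where `G` is any finite group,
  `n ≥ ((3 |G| + 2)!)^3`, and `W` acts through a homomorphism `W → Aut(G) ≀ S_k`,
* contains all epimorphisms (split or not) whose kernel is isomorphic to a finite direct product of
  groups `G_i ≀ S_(n_i)`, where `G_i` is a nontrivial finite group with trivial centre whose inner
  automorphisms have a complement in `Aut G_i`, and `n_i ≥ ((3 |G_i| + 2)!)^3`,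
* is closed under composition, and under quotients (if `p ∘ q` is in the class and `q` is
  surjective, then `p` is in the class).
-/

set_option autoImplicit false

open Pool.Agent.H391R2 (Wr)

namespace Pool.Agent.TH444.TW

/- `A` is the Galois group of a finite Galois extension `F` of `K(t)` such that `K` is
algebraically closed in `F`. -/
def RegularOver (K : Type) [Field K] (A : Type) [Group A] : Prop :=
  ∃ (F : Type) (_ : Field F) (_ : Algebra (RatFunc K) F) (_ : Algebra K F)
    (_ : IsScalarTower K (RatFunc K) F) (_ : FiniteDimensional (RatFunc K) F)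
    (_ : IsGalois (RatFunc K) F),
    Nonempty ((F ≃ₐ[RatFunc K] F) ≃* A) ∧
    ∀ y : F, IsAlgebraic K y → y ∈ Set.range (algebraMap K F)

/- `p : W' → W` is the projection of a semidirect product `A^k ⋊ W`, where `W` acts through a
homomorphism `ψ : W → A ≀ S_k`: there are an isomorphism `ι` of `A^k` onto the kernel of `p` and a
homomorphic section `s` of `p`, and `s w` acts on the kernel by
`x ↦ (c_i x_(π⁻¹ i) c_i⁻¹)_i`, where `ψ w = (c, π)`. -/
def IsInnerPower (A : Type) [Group A] {W W' : Type} [Group W] [Group W'] (p : W' →* W) : Prop :=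
  ∃ (k : ℕ) (ψ : W →* Wr A k) (ι : (Fin k → A) →* W') (s : W →* W'),
    Function.Injective ι ∧ ι.range = p.ker ∧ (∀ w, p (s w) = w) ∧
    ∀ w x, s w * ι x =
      ι (fun i => (ψ w).left i * x ((ψ w).right⁻¹ i) * ((ψ w).left i)⁻¹) * s w

/- An automorphism `c` of `G` is applied to the `n` entries in `G` of an element of `G ≀ S_n`. -/
def twist {G : Type} [Group G] {n : ℕ} (c : MulAut G) (y : Wr G n) : Wr G n :=
  ⟨fun j => c (y.left j), y.right⟩

/- `p : W' → W` is the projection of a semidirect product `(G ≀ S_n)^k ⋊ W`, where `W` acts through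
a homomorphism `ψ : W → Aut(G) ≀ S_k`: there are an isomorphism `ι` of `(G ≀ S_n)^k` onto the kernel
of `p` and a homomorphic section `s` of `p`, and `s w` acts on the kernel by
`x ↦ (c_i (x_(π⁻¹ i)))_i`, where `ψ w = (c, π)`. -/
def IsTwistedPower (G : Type) [Group G] (n : ℕ) {W W' : Type} [Group W] [Group W']
    (p : W' →* W) : Prop :=
  ∃ (k : ℕ) (ψ : W →* Wr (MulAut G) k) (ι : (Fin k → Wr G n) →* W') (s : W →* W'),
    Function.Injective ι ∧ ι.range = p.ker ∧ (∀ w, p (s w) = w) ∧
    ∀ w x, s w * ι x = ι (fun i => twist ((ψ w).left i) (x ((ψ w).right⁻¹ i))) * s w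

/- The class of homomorphisms. -/
inductive Cls (K : Type) [Field K] : ∀ {W W' : Type} [Group W] [Group W'], (W' →* W) → Prop
  /- split, with finite abelian kernel -/
  | abelian {W W' : Type} [Group W] [Group W'] (p : W' →* W) (s : W →* W')
      (hs : ∀ w, p (s w) = w) (hfin : Finite p.ker)
      (hcomm : ∀ x y, p x = 1 → p y = 1 → x * y = y * x) : Cls K p
  /- `A^k ⋊ W → W` -/
  | inner {W W' : Type} [Group W] [Group W'] (p : W' →* W) (A : Type) [Group A] [Finite A]
      (hA : RegularOver K A) (hp : IsInnerPower A p) : Cls K p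
  /- `(G ≀ S_n)^k ⋊ W → W` -/
  | wreath {W W' : Type} [Group W] [Group W'] (p : W' →* W) (G : Type) [Group G] [Finite G] (n : ℕ)
      (hn : ((3 * Nat.card G + 2).factorial) ^ 3 ≤ n) (hp : IsTwistedPower G n p) : Cls K p
  /- kernel `∏ G_i ≀ S_(n_i)`, any extension -/
  | kernel {W W' : Type} [Group W] [Group W'] (p : W' →* W) (hs : Function.Surjective p)
      (I : Type) [Finite I] (G : I → Type) [∀ i, Group (G i)] [∀ i, Finite (G i)]
      [∀ i, Nontrivial (G i)] (hZ : ∀ i, Subgroup.center (G i) = ⊥)
      (hT : ∀ i, ∃ T : Subgroup (MulAut (G i)),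
        IsCompl T (MulAut.conj : G i →* MulAut (G i)).range)
      (n : I → ℕ) (hn : ∀ i, ((3 * Nat.card (G i) + 2).factorial) ^ 3 ≤ n i)
      (hN : Nonempty (p.ker ≃* (∀ i, Wr (G i) (n i)))) : Cls K p
  /- compositions -/
  | comp {W W' W'' : Type} [Group W] [Group W'] [Group W''] (p : W' →* W) (q : W'' →* W')
      (hp : Cls K p) (hq : Cls K q) : Cls K (p.comp q)
  /- quotients -/
  | quot {W W' W'' : Type} [Group W] [Group W'] [Group W''] (p : W' →* W) (q : W'' →* W')
      (hq : Function.Surjective q) (hpq : Cls K (p.comp q)) : Cls K p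

end Pool.Agent.TH444.TW
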