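import Mathlib
import Pool.Agent.H84.L.A3_N600_UK_Good
import Pool.Agent.H84.L.S8_H391R2_T4_Blueprint
import Pool.Agent.H84.L.S8_H391R2_T4_Gp
import Pool.Agent.H84.L.S8_H391R2_T4_Red
import Pool.Agent.H84.L.S8_H391R2_WrGrp
import Pool.Agent.H84.L.S8_H391R2_WrRes
import Pool.Agent.H84.L.S8_TH444_TW_Cls
import Pool.Agent.H84.L.S8_TH444_TW_ClsDef
import Pool.Agent.H84.L.S8_TH444_TW_RSK

namespace Nfff32c05
end Nfff32c05
namespace Pool.Agent.H391R2
end Pool.Agent.H391R2
namespace Pool.Agent.H391R2.T4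
end Pool.Agent.H391R2.T4
namespace Pool.Agent.TH444.TW
end Pool.Agent.TH444.TW
namespace Pool.Agent.TH59.WX
end Pool.Agent.TH59.WX


/-!
# The groups of the class are kernels of regularly solvable embedding problems only
-/

set_option autoImplicit false

namespace Pool.Agent.N600.UK

open Nfff32c05
open Pool.Agent.H391R2 (Wr isRealizable_of isRealizable_quotient)
open Pool.Agent.H391R2.T4 (RegSol exists_equiv_of_ker finite_wr HilbField)
open Pool.Agent.TH59.WX
open Pool.Agent.TH444.TW (IsInnerPower RSK inner_rsk RegularOver)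

set_option linter.unusedSectionVars false

theorem cl_of_center {T : Type} [Group T] (h : Subgroup.center T = ⊥) : CL T := by
  intro z hz
  have h1 : z ∈ Subgroup.center T := Subgroup.mem_center_iff.2 fun g => (hz g).symm
  rw [h] at h1
  exact h1


theorem cl_iso {T T' : Type} [Group T] [Group T'] (e : T ≃* T') (h : CL T) : CL T' := by
  intro z hz
  have h1 : e.symm z = 1 := by
    apply h
    intro g
    apply e.injective
    rw [map_mul, map_mul, e.apply_symm_apply]
    exact hz _
  rw [← e.apply_symm_apply z, h1, map_one]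

theorem bound_ge (g : ℕ) : 2 * (g + 2) ≤ ((3 * g + 2).factorial) ^ 3 := by
  have h1 : 3 * g + 2 ≤ (3 * g + 2).factorial := Nat.self_le_factorial _
  generalize (3 * g + 2).factorial = f at h1 ⊢
  have h2 : 2 ≤ f := by omega
  have h3 : 4 * f ≤ f ^ 3 := by
    calc 4 * f = (2 * 2) * f := by ring
      _ ≤ (f * f) * f := Nat.mul_le_mul_right _ (Nat.mul_le_mul h2 h2)
      _ = f ^ 3 := by ring
  omega


theorem regularOver_of_regSol {K A : Type} [Field K] [Group A]
    (h : RegSol K K A 1) : RegularOver K A := by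
  obtain ⟨F, i1, i2, i3, i4, i5, i6, i7, i8, γ, -, h2⟩ := h
  have h34 : i3 = i4 := by
    refine Algebra.algebra_ext _ _ fun x => ?_
    exact (@IsScalarTower.algebraMap_apply K K F _ _ _ _ i3 i4 i6 x).symm
  subst h34
  exact ⟨F, i1, i2, i3, i5, i7, i8, ⟨γ⟩, h2⟩

theorem triv_aut {K : Type} [Field K] (σ τ : K ≃ₐ[K] K) : σ = τ := AlgEquiv.ext fun x => by
  have h1 : ∀ ρ : K ≃ₐ[K] K, ρ x = x := fun ρ => ρ.commutes x
  rw [h1, h1]


end Pool.Agent.N600.UK
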