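import Mathlib
import Pool.Agent.H84.L.A3_N600_NS_FinB
import Pool.Agent.H84.L.A3_N600_NS_KerA
import Pool.Agent.H84.L.A3_N600_UK_Compl
import Pool.Agent.H84.L.A3_N600_UK_Good
import Pool.Agent.H84.L.A3_N600_UK_Main
import Pool.Agent.H84.L.S8_H391R2_T4_Blueprint
import Pool.Agent.H84.L.S8_H391R2_T4_Red
import Pool.Agent.H84.L.S8_H391R2_T4_Sym
import Pool.Agent.H84.L.S8_H391R2_WrGrp
import Pool.Agent.H84.L.S8_H391R2_WrRes
import Pool.Agent.H84.L.S8_TH444_TW_ClsDef
import Pool.Agent.H84.L.S8_TH59_WX_UA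
import Pool.Agent.H84.L.S8_TH59_WX_UE
import Pool.Agent.H84.L.S8_TH59_WX_UF
import Pool.Agent.H84.L.S8_TH59_WX_UG

namespace Nfff32c05
end Nfff32c05
namespace Pool.Agent.H391R2
end Pool.Agent.H391R2
namespace Pool.Agent.H391R2.T4
end Pool.Agent.H391R2.T4
namespace Pool.Agent.N600.UK
end Pool.Agent.N600.UK
namespace Pool.Agent.TH444.TW
end Pool.Agent.TH444.TW
namespace Pool.Agent.TH59.WX
end Pool.Agent.TH59.WX


/-!
# Nonsplit symmetric fibre powers: final forms
-/

set_option autoImplicit false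

namespace Pool.Agent.N600.NS

open Nfff32c05
open Pool.Agent.H391R2 (Wr isRealizable_of isRealizable_quotient)
open Pool.Agent.H391R2.T4 (RegSol SymEP symProj finite_wr HilbField)
open Pool.Agent.TH59.WX (hil_of_reg exists_gal_of finite_of_kernel card_mulAut_le)
open Pool.Agent.N600.UK (CL Out Inn cl_of_center center_wr regularOver_of_regSol)
open Pool.Agent.TH444.TW (RegularOver)

set_option linter.unusedSectionVars false


/- The uniform form. -/
theorem uniform_main (K L : Type) [Field K] [CharZero K] [Field L] [Algebra K L]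
    [FiniteDimensional K L] [IsGalois K L] (B : Type) [Group B] [Finite B] (α : B →* (L ≃ₐ[K] L))
    (hα : Function.Surjective α) (n : ℕ) (hn : ((3 * Nat.card B + 2).factorial) ^ 3 ≤ n)
    (hd : Nat.card (L ≃ₐ[K] L) ∣ n) : RegSol K L (SymEP α n) (symProj α n) := by
  refine reg_dvd K L B α hα n (le_trans ?_ hn) hd
  exact nb_le_fac _ _ _ Nat.card_pos le_rfl (Nat.card_le_card_of_surjective α hα)


end Pool.Agent.N600.NS
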