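import Mathlib
import Pool.Agent.H84.L.S8_H391R2_T4_Gp
import Pool.Agent.H84.L.S8_H391R2_T4_Red
import Pool.Agent.H84.L.S8_H391R2_WrGrp
import Pool.Agent.H84.L.S8_TH444_TW_Cls
import Pool.Agent.H84.L.S8_TH444_TW_ClsDef
import Pool.Agent.H84.L.S8_TH444_TW_RSK

namespace Pool.Agent.H391R2
end Pool.Agent.H391R2
namespace Pool.Agent.H391R2.T4
end Pool.Agent.H391R2.T4
namespace Pool.Agent.TH444.TW
end Pool.Agent.TH444.TW
namespace Pool.Agent.TH59.WX
end Pool.Agent.TH59.WX


/-!
# Wreath products of groups which are kernels of regularly solvable embedding problems only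
-/

set_option autoImplicit false

namespace Pool.Agent.N600.UK

open Pool.Agent.H391R2 (Wr wr_mul_left wr_mul_right wr_inv_left)
open Pool.Agent.H391R2.T4 (RegSol exists_equiv_of_ker finite_wr)
open Pool.Agent.TH59.WX
open Pool.Agent.TH444.TW (IsInnerPower RSK inner_rsk RegularOver)

set_option linter.unusedSectionVars false

/- The product with the group of a regular extension. -/
theorem snd_rsk (K A : Type) [Field K] [Group A] [Finite A] (hA : RegularOver K A)
    (Γ : Type) [Group Γ] [Finite Γ] : RSK K (MonoidHom.snd A Γ) := by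
  refine inner_rsk (A := A) hA _ ?_
  refine ⟨1, 1, (MonoidHom.inl _ _).comp (Pi.evalMonoidHom _ 0), MonoidHom.inr _ _, ?_, ?_,
    fun w => rfl, ?_⟩
  · intro x y hxy
    funext i
    have h1 := congrArg Prod.fst hxy
    rw [Subsingleton.elim i 0]
    exact h1
  · ext ⟨p, w⟩
    rw [MonoidHom.mem_ker]
    constructor
    · rintro ⟨x, hx⟩
      exact (congrArg Prod.snd hx).symm
    · intro h
      change w = 1 at h
      subst h
      exact ⟨fun _ => p, rfl⟩
  · intro w x
    refine Prod.ext ?_ ?_
    · change 1 * x 0 = 1 * x _ * 1⁻¹ * 1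
      rw [one_mul, one_mul, inv_one, mul_one, mul_one]
      exact congrArg x (Subsingleton.elim _ _)
    · change w * 1 = 1 * w
      rw [mul_one, one_mul]


end Pool.Agent.N600.UK
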