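import Mathlib
import Pool.Agent.H84.L.S8_H391R2_T4_Sem
import Pool.Agent.H84.L.S8_TH444_TW_ClsDef
import Pool.Agent.H84.L.S8_TH444_TW_RS
import Pool.Agent.H84.L.S8_TH444_TW_RSK
import Pool.Agent.H84.L.S8_W200_IJ_BC
import Pool.Agent.H84.L.S8_W200_IJ_SA

namespace Pool.Agent.TH444.TW
end Pool.Agent.TH444.TW


/-!
# The symmetric groups are regular Galois groups over all infinite fields
-/

set_option autoImplicit false

namespace Pool.Agent.N600.UK

open MvPolynomial

set_option linter.unusedSectionVars false

section alg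

variable {K : Type} [Field K]

theorem alg_poly (p : Polynomial K) (hp : IsAlgebraic K p) : p = Polynomial.C (p.coeff 0) := by
  obtain ⟨q, hq, h⟩ := hp
  have h1 : q.comp p = 0 := by
    rw [← h, Polynomial.aeval_def, Polynomial.comp]
    rfl
  rcases Polynomial.comp_eq_zero_iff.1 h1 with h2 | h2
  · exact absurd h2 hq
  · exact h2.2

theorem alg_mv [Infinite K] {σ : Type} (b : MvPolynomial σ K) (hb : IsAlgebraic K b) :
    ∃ c : K, b = C c := by
  refine ⟨aeval (fun _ => (0 : K)) b, ?_⟩
  apply MvPolynomial.funext
  intro a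
  let φ : MvPolynomial σ K →ₐ[K] Polynomial K := aeval fun i => Polynomial.C (a i) * Polynomial.X
  have h1 : IsAlgebraic K (φ b) := hb.algHom φ
  have h2 := alg_poly _ h1
  have h3 : ∀ x : K, (φ b).eval x = aeval (fun i => a i * x) b := by
    intro x
    have h4 := comp_aeval_apply (f := fun i => Polynomial.C (a i) * Polynomial.X)
      (φ := Polynomial.aeval x) b
    rw [Polynomial.coe_aeval_eq_eval] at h4
    change Polynomial.eval x (φ b) = _ at h4
    rw [h4]
    congr 2
    funext i
    simp
  have h5 : (φ b).eval 1 = (φ b).eval 0 := by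
    rw [h2, Polynomial.eval_C, Polynomial.eval_C]
  rw [h3, h3] at h5
  simp only [mul_one, mul_zero] at h5
  rw [eval_C, ← h5]
  rfl

theorem alg_frac [Infinite K] {σ : Type} (y : FractionRing (MvPolynomial σ K))
    (hy : IsAlgebraic K y) :
    y ∈ Set.range (algebraMap K (FractionRing (MvPolynomial σ K))) := by
  have h1 : IsIntegral K y := hy.isIntegral
  have h2 : IsIntegral (MvPolynomial σ K) y := h1.tower_top
  obtain ⟨b, rfl⟩ := IsIntegrallyClosed.isIntegral_iff.1 h2
  have h3 : IsAlgebraic K b :=
    (isAlgebraic_algebraMap_iff (IsFractionRing.injective (MvPolynomial σ K)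
      (FractionRing (MvPolynomial σ K)))).1 hy
  obtain ⟨c, rfl⟩ := alg_mv b h3
  exact ⟨c, rfl⟩

end alg

section sym

variable (K : Type) [Field K] (n : ℕ)

/- The polynomials in the elementary symmetric polynomials. -/
abbrev PA : Type := MvPolynomial (Fin n × Unit) K

/- The polynomials in the roots. -/
abbrev PB : Type := MvPolynomial (Fin n) K

/- The elementary symmetric polynomials. -/
noncomputable def es : PA K n →ₐ[K] PB K n := aeval fun i => esymm (Fin n) K (i.1 + 1)

theorem es_eq (p : PA K n) : es K n p =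
    (esymmAlgHom (Fin n) K n (rename Prod.fst p) : PB K n) := by
  rw [esymmAlgHom_apply, aeval_rename]
  rfl

theorem es_inj : Function.Injective (es K n) := by
  intro p q h
  rw [es_eq, es_eq] at h
  have h1 := esymmAlgHom_injective (σ := Fin n) (R := K) (n := n) (by rw [Fintype.card_fin])
    (Subtype.ext h)
  exact rename_injective _ (fun a b hab => Prod.ext hab rfl) h1

theorem es_surj (p : PB K n) (hp : ∀ σ : Equiv.Perm (Fin n), rename σ p = p) :
    ∃ a, es K n a = p := by
  obtain ⟨q, hq⟩ := esymmAlgHom_surjective K (σ := Fin n) (n := n) (by rw [Fintype.card_fin])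
    ⟨p, hp⟩
  refine ⟨rename (fun i => (i, ())) q, ?_⟩
  rw [es_eq, rename_rename]
  have h1 : (Prod.fst ∘ fun i : Fin n => (i, ())) = id := rfl
  rw [h1, rename_id_apply, hq]

theorem es_symm (σ : Equiv.Perm (Fin n)) (a : PA K n) : rename σ (es K n a) = es K n a := by
  rw [es_eq]
  exact (esymmAlgHom (Fin n) K n (rename Prod.fst a)).2 σ

/- The action on the roots. -/
@[reducible] noncomputable def actB : MulSemiringAction (Equiv.Perm (Fin n)) (PB K n) where
  smul σ p := rename σ p
  one_smul p := by
    change rename _ p = p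
    exact rename_id_apply p
  mul_smul σ τ p := by
    change rename _ p = rename _ (rename _ p)
    rw [rename_rename]
    rfl
  smul_zero σ := map_zero (rename σ)
  smul_add σ := map_add (rename σ)
  smul_one σ := map_one (rename σ)
  smul_mul σ := map_mul (rename σ)

open Pool.Agent.TH444.TW (RegularOver) in
/- **The symmetric group.** -/
theorem regularOver_perm [Infinite K] : RegularOver K (Equiv.Perm (Fin n)) := by
  classical
  let _ : Algebra (PA K n) (PB K n) := (es K n : PA K n →+* PB K n).toAlgebra
  let _ := actB K n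
  have hs : ∀ (σ : Equiv.Perm (Fin n)) (p : PB K n), σ • p = rename σ p := fun _ _ => rfl
  have hmap : ∀ a : PA K n, algebraMap (PA K n) (PB K n) a = es K n a := fun _ => rfl
  have hgg : IsGaloisGroup (Equiv.Perm (Fin n)) (PA K n) (PB K n) :=
    { faithful := ⟨fun {σ τ} h => by
        apply Equiv.ext
        intro i
        have h1 := h (X i : PB K n)
        rw [hs, hs, rename_X, rename_X] at h1
        exact X_injective h1⟩
      commutes := ⟨fun σ a b => by
        rw [Algebra.smul_def, Algebra.smul_def, hs, hs, map_mul, hmap, es_symm]⟩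
      isInvariant := ⟨fun b hb => es_surj K n b hb⟩ }
  let E := FractionRing (PA K n)
  let F := FractionRing (PB K n)
  have hfs : FaithfulSMul (PA K n) (PB K n) :=
    (faithfulSMul_iff_algebraMap_injective _ _).2 (es_inj K n)
  have hfs2 : FaithfulSMul (PA K n) F := by
    rw [faithfulSMul_iff_algebraMap_injective, IsScalarTower.algebraMap_eq (PA K n) (PB K n) F]
    exact (IsFractionRing.injective (PB K n) F).comp (es_inj K n)
  let _ : Algebra E F := FractionRing.liftAlgebra (PA K n) F
  have hT : IsScalarTower (PA K n) E F := FractionRing.isScalarTower_liftAlgebra _ _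
  let _ := IsFractionRing.mulSemiringAction (Equiv.Perm (Fin n)) (PB K n) F
  have hg2 : IsGaloisGroup (Equiv.Perm (Fin n)) E F := IsGaloisGroup.toFractionRing _ _ _
  have hfd : FiniteDimensional E F := IsGaloisGroup.finiteDimensional (Equiv.Perm (Fin n)) E F
  have hgal : IsGalois E F := IsGaloisGroup.isGalois (Equiv.Perm (Fin n)) E F
  have hTK : IsScalarTower K E F := by
    refine IsScalarTower.of_algebraMap_eq fun x => ?_
    have h1 : algebraMap K E x = algebraMap (PA K n) E (C x) := rfl
    rw [h1, ← IsScalarTower.algebraMap_apply (PA K n) E F,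
      IsScalarTower.algebraMap_apply (PA K n) (PB K n) F, hmap]
    have h2 : es K n (C x) = C x := by
      unfold es
      rw [aeval_C]
      rfl
    rw [h2]
    rfl
  let γ : (F ≃ₐ[E] F) ≃* Equiv.Perm (Fin n) :=
    (IsGaloisGroup.mulEquivAlgEquiv (Equiv.Perm (Fin n)) E F).symm
  obtain ⟨F', i1, i2, i3, i4, i5, i6, i7, i8, γ', h1, h2⟩ :=
    Pool.Agent.W200.IJ.taskA K K (Equiv.Perm (Fin n)) 1 (Fin n × Unit) E F γ
      (fun σ x => by
        change σ (algebraMap K F x) = algebraMap K F x
        rw [IsScalarTower.algebraMap_apply K E F, AlgEquiv.commutes])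
      (fun y hy => alg_frac y hy)
  have halg : i3 = i4 := by
    apply Algebra.algebra_ext
    intro x
    have h3 := @IsScalarTower.algebraMap_apply K K F' _ _ _ _ i3 i4 i6 x
    exact h3.symm
  subst halg
  exact ⟨F', i1, i2, i3, i5, i7, i8, ⟨γ'⟩, h2⟩

end sym

end Pool.Agent.N600.UK
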