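import Mathlib



/-!
# Coprime action on a `p`-group and a cyclic quotient
-/

set_option autoImplicit false

namespace Pool.Agent.N600.ZQ

set_option linter.unusedSectionVars false

section frat

variable {T : Type} [Group T] [Finite T] {p : ℕ} [hp : Fact p.Prime]

/- Maximal subgroups of `p`-groups. -/
theorem coatom_facts (hT : IsPGroup p T) (M : Subgroup T) (hM : IsCoatom M) :
    (∀ x : T, x ^ p ∈ M) ∧ ∀ x y : T, x * y * x⁻¹ * y⁻¹ ∈ M := by
  have hnil : Group.IsNilpotent T := hT.isNilpotent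
  have hnorm : M.Normal := Subgroup.NormalizerCondition.normal_of_coatom M
    (Group.normalizerCondition_of_isNilpotent) hM
  have hsub : ∀ S : Subgroup (T ⧸ M), S = ⊥ ∨ S = ⊤ := by
    intro S
    have h1 : M ≤ S.comap (QuotientGroup.mk' M) := by
      intro x hx
      rw [Subgroup.mem_comap]
      have h2 : QuotientGroup.mk' M x = 1 := (QuotientGroup.eq_one_iff x).2 hx
      rw [h2]
      exact one_mem _
    rcases eq_or_lt_of_le h1 with h2 | h2
    · left
      rw [eq_bot_iff]
      intro x hx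
      obtain ⟨x, rfl⟩ := QuotientGroup.mk'_surjective M x
      have h3 : x ∈ S.comap (QuotientGroup.mk' M) := hx
      rw [← h2] at h3
      exact (QuotientGroup.eq_one_iff x).2 h3
    · right
      have h3 := hM.2 _ h2
      rw [eq_top_iff]
      intro x _
      obtain ⟨x, rfl⟩ := QuotientGroup.mk'_surjective M x
      have h4 : x ∈ S.comap (QuotientGroup.mk' M) := by rw [h3]; trivial
      exact h4
  have hnt : Nontrivial (T ⧸ M) := by
    rw [← not_subsingleton_iff_nontrivial]
    intro h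
    apply hM.1
    rw [eq_top_iff]
    intro x _
    exact (QuotientGroup.eq_one_iff x).1 (Subsingleton.elim _ _)
  have hP : IsPGroup p (T ⧸ M) := hT.to_quotient M
  have hdvd : p ∣ Nat.card (T ⧸ M) := by
    obtain ⟨k, hk⟩ := IsPGroup.iff_card.1 hP
    have h1 : 1 < Nat.card (T ⧸ M) := Finite.one_lt_card
    rw [hk] at h1 ⊢
    refine dvd_pow_self p ?_
    rintro rfl
    rw [pow_zero] at h1
    exact lt_irrefl _ h1
  obtain ⟨c, hc⟩ := exists_prime_orderOf_dvd_card' p hdvd
  have hc1 : c ≠ 1 := by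
    intro h
    rw [h, orderOf_one] at hc
    exact hp.1.one_lt.ne hc
  have htop : Subgroup.zpowers c = ⊤ := by
    rcases hsub (Subgroup.zpowers c) with h | h
    · exact absurd (Subgroup.zpowers_eq_bot.1 h) hc1
    · exact h
  have hmem : ∀ x : T ⧸ M, ∃ k : ℤ, c ^ k = x := by
    intro x
    have h1 : x ∈ Subgroup.zpowers c := by rw [htop]; trivial
    exact h1
  constructor
  · intro x
    rw [← QuotientGroup.eq_one_iff]
    obtain ⟨k, hk⟩ := hmem (x : T ⧸ M)
    have h1 : ((x ^ p : T) : T ⧸ M) = (x : T ⧸ M) ^ p := rfl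
    rw [h1, ← hk, ← zpow_natCast, ← zpow_mul, mul_comm, zpow_mul, zpow_natCast, ← hc,
      pow_orderOf_eq_one, one_zpow]
  · intro x y
    rw [← QuotientGroup.eq_one_iff]
    obtain ⟨k, hk⟩ := hmem (x : T ⧸ M)
    obtain ⟨l, hl⟩ := hmem (y : T ⧸ M)
    have h1 : ((x * y * x⁻¹ * y⁻¹ : T) : T ⧸ M) =
        (x : T ⧸ M) * (y : T ⧸ M) * (x : T ⧸ M)⁻¹ * (y : T ⧸ M)⁻¹ := rfl
    rw [h1, ← hk, ← hl, ← zpow_neg, ← zpow_neg, ← zpow_add, ← zpow_add, ← zpow_add]
    have h2 : k + l + -k + -l = 0 := by ring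
    rw [h2, zpow_zero]

theorem mem_frattini (x : T) : x ∈ frattini T ↔ ∀ M : Subgroup T, IsCoatom M → x ∈ M := by
  unfold frattini Order.radical
  simp only [Subgroup.mem_iInf]
  rfl

theorem frat_pow (hT : IsPGroup p T) (x : T) : x ^ p ∈ frattini T :=
  (mem_frattini _).2 fun M hM => (coatom_facts hT M hM).1 x

theorem frat_comm (hT : IsPGroup p T) (x y : T) : x * y * x⁻¹ * y⁻¹ ∈ frattini T :=
  (mem_frattini _).2 fun M hM => (coatom_facts hT M hM).2 x y

end frat

/- **Coprime action.** -/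
theorem cyclic_of_minimal {T P H : Type} [Group T] [Finite T] [Group P] [Finite P] [IsCyclic P]
    [Group H] [Finite H] {p : ℕ} [hp : Fact p.Prime] (hT : IsPGroup p T)
    (hH : ¬ p ∣ Nat.card H) (σ : H →* MulAut T) (τ : H →* MulAut P) (f : T →* P)
    (hf : Function.Surjective f) (hστ : ∀ h t, f (σ h t) = τ h (f t))
    (hmin : ∀ T' : Subgroup T, (∀ h, ∀ t ∈ T', σ h t ∈ T') → T'.map f = ⊤ → T' = ⊤) :
    IsCyclic T := by
  classical
  cases nonempty_fintype H
  rcases subsingleton_or_nontrivial P with hP | hP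
  · have h1 : (⊥ : Subgroup T) = ⊤ := by
      apply hmin
      · intro h t ht
        rw [Subgroup.mem_bot] at ht ⊢
        rw [ht, map_one]
      · exact Subsingleton.elim _ _
    have h2 : Subsingleton T := Subgroup.subsingleton_iff.1 (subsingleton_of_bot_eq_top h1)
    infer_instance
  have hPp : IsPGroup p P := hT.of_surjective f hf
  obtain ⟨a, ha⟩ := IsCyclic.exists_generator (α := P)
  obtain ⟨v, hv⟩ := hf a
  have hpa : p ∣ orderOf a := by
    obtain ⟨k, hk⟩ := (hPp a)
    have h1 : orderOf a ∣ p ^ k := orderOf_dvd_of_pow_eq_one hk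
    obtain ⟨l, -, hl⟩ := (Nat.dvd_prime_pow hp.1).1 h1
    rw [hl]
    refine dvd_pow_self p ?_
    rintro rfl
    rw [pow_zero, orderOf_eq_one_iff] at hl
    subst hl
    obtain ⟨y, hy⟩ := exists_ne (1 : P)
    have := ha y
    rw [Subgroup.zpowers_one_eq_bot, Subgroup.mem_bot] at this
    exact hy this
  -- exponents
  have hr : ∀ h : H, ∃ r : ℤ, τ h a = a ^ r := fun h => by
    obtain ⟨r, hr⟩ := ha (τ h a)
    exact ⟨r, hr.symm⟩
  choose r hr using hr
  have hrmul : ∀ h z : H, (p : ℤ) ∣ r (h * z) - r h * r z := by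
    intro h z
    have h1 : a ^ r (h * z) = a ^ (r h * r z) := by
      rw [← hr, map_mul, MulAut.mul_apply, hr z, map_zpow, hr h, ← zpow_mul]
    have h2 : a ^ (r (h * z) - r h * r z) = 1 := by
      rw [zpow_sub, h1, mul_inv_cancel]
    exact (Int.natCast_dvd_natCast.2 hpa).trans (orderOf_dvd_iff_zpow_eq_one.2 h2)
  have hr1 : (p : ℤ) ∣ r 1 - 1 := by
    have h2 : a ^ (r 1 - 1) = 1 := by
      rw [zpow_sub, ← hr, map_one, MulAut.one_apply, zpow_one, mul_inv_cancel]
    exact (Int.natCast_dvd_natCast.2 hpa).trans (orderOf_dvd_iff_zpow_eq_one.2 h2)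
  -- the quotient
  let Φ := frattini T
  let V := T ⧸ Φ
  let π : T →* V := QuotientGroup.mk' Φ
  have hπ : Function.Surjective π := QuotientGroup.mk'_surjective Φ
  have hπ1 : ∀ x, π x = 1 ↔ x ∈ Φ := fun x => QuotientGroup.eq_one_iff x
  let _ : CommGroup V :=
    { (inferInstance : Group V) with
      mul_comm := fun x y => by
        obtain ⟨x, rfl⟩ := hπ x
        obtain ⟨y, rfl⟩ := hπ y
        have h1 := (hπ1 _).2 (frat_comm hT x y)
        rw [map_mul, map_mul, map_mul, map_inv, map_inv, mul_inv_eq_one, mul_inv_eq_iff_eq_mul] at h1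
        exact h1 }
  have hVp : ∀ x : V, x ^ p = 1 := by
    intro x
    obtain ⟨x, rfl⟩ := hπ x
    rw [← map_pow]
    exact (hπ1 _).2 (frat_pow hT x)
  have hVz : ∀ (x : V) (k l : ℤ), (p : ℤ) ∣ k - l → x ^ k = x ^ l := by
    rintro x k l ⟨m, hm⟩
    have h1 : k = l + p * m := by rw [← hm]; ring
    rw [h1, zpow_add, zpow_mul, zpow_natCast, hVp, one_zpow, mul_one]
  have hσΦ : ∀ h, Φ ≤ Φ.comap (σ h).toMonoidHom := by
    intro h
    have h1 : Φ.comap (σ h).toMonoidHom = Φ := (frattini_characteristic (G := T)).fixed (σ h)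
    rw [h1]
  let s : H → V →* V := fun h => QuotientGroup.map Φ Φ (σ h).toMonoidHom (hσΦ h)
  have hs : ∀ h x, s h (π x) = π (σ h x) := fun h x => rfl
  have hsmul : ∀ h z x, s h (s z x) = s (h * z) x := by
    intro h z x
    obtain ⟨x, rfl⟩ := hπ x
    rw [hs, hs, hs, map_mul]
    rfl
  -- the eigenvector
  let v' : V := ∏ h : H, (s h⁻¹ (π v)) ^ (r h)
  have hv' : ∀ z, s z v' = v' ^ (r z) := by
    intro z
    change s z (∏ h : H, (s h⁻¹ (π v)) ^ (r h)) = (∏ h : H, (s h⁻¹ (π v)) ^ (r h)) ^ (r z)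
    rw [map_prod, ← Finset.prod_zpow]
    refine (Fintype.prod_bijective (fun h => h * z) (Group.mulRight_bijective z) _ _ ?_).symm
    intro h
    rw [map_zpow, hsmul, ← zpow_mul]
    have h1 : z * (h * z)⁻¹ = h⁻¹ := by group
    rw [h1]
    apply hVz
    have h2 := hrmul h z
    have h3 : r h * r z - r (h * z) = -(r (h * z) - r h * r z) := by ring
    rw [h3]
    exact (dvd_neg).2 h2
  obtain ⟨w, hw⟩ := hπ v'
  let T' : Subgroup T := (Subgroup.zpowers v').comap π
  have hT'1 : ∀ h, ∀ t ∈ T', σ h t ∈ T' := by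
    intro h t ht
    obtain ⟨k, hk⟩ := (ht : π t ∈ Subgroup.zpowers v')
    have hk' : v' ^ k = π t := hk
    change π (σ h t) ∈ Subgroup.zpowers v'
    rw [← hs, ← hk', map_zpow, hv', ← zpow_mul]
    exact ⟨_, rfl⟩
  -- the image in `P`
  have hfΦ : ∀ x ∈ Φ, f x ∈ frattini P := fun x hx =>
    frattini_le_comap_frattini_of_surjective hf hx
  let PΦ := P ⧸ frattini P
  let πP : P →* PΦ := QuotientGroup.mk' (frattini P)
  have hπP1 : ∀ x, πP x = 1 ↔ x ∈ frattini P := fun x => QuotientGroup.eq_one_iff x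
  let fV : V →* PΦ := QuotientGroup.lift Φ (πP.comp f) (fun x hx => (hπP1 _).2 (hfΦ x hx))
  have hfV : ∀ x, fV (π x) = πP (f x) := fun x => rfl
  let _ : CommGroup PΦ :=
    { (inferInstance : Group PΦ) with
      mul_comm := fun x y => by
        obtain ⟨x, rfl⟩ := QuotientGroup.mk'_surjective (frattini P) x
        obtain ⟨y, rfl⟩ := QuotientGroup.mk'_surjective (frattini P) y
        have h1 := (hπP1 _).2 (frat_comm hPp x y)
        rw [map_mul, map_mul, map_mul, map_inv, map_inv, mul_inv_eq_one, mul_inv_eq_iff_eq_mul] at h1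
        exact h1 }
  have hPz : ∀ (x : PΦ) (k l : ℤ), (p : ℤ) ∣ k - l → x ^ k = x ^ l := by
    rintro x k l ⟨m, hm⟩
    obtain ⟨x, rfl⟩ := QuotientGroup.mk'_surjective (frattini P) x
    have h1 : k = l + p * m := by rw [← hm]; ring
    have h2 : (πP x) ^ p = 1 := by
      rw [← map_pow]
      exact (hπP1 _).2 (frat_pow hPp x)
    change (πP x) ^ k = (πP x) ^ l
    rw [h1, zpow_add, zpow_mul, zpow_natCast, h2, one_zpow, mul_one]
  have hfv' : fV v' = (πP a) ^ (Fintype.card H : ℤ) := by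
    change fV (∏ h : H, (s h⁻¹ (π v)) ^ (r h)) = _
    rw [map_prod]
    have h1 : ∀ h : H, fV ((s h⁻¹ (π v)) ^ (r h)) = πP a := by
      intro h
      rw [map_zpow, hs, hfV, hστ, hv, hr, map_zpow, ← zpow_mul]
      have h2 : (πP a) ^ (r h⁻¹ * r h) = (πP a) ^ (1 : ℤ) := by
        apply hPz
        have h3 := hrmul h⁻¹ h
        rw [inv_mul_cancel] at h3
        have h4 : r h⁻¹ * r h - 1 = (r 1 - 1) - (r 1 - r h⁻¹ * r h) := by ring
        rw [h4]
        exact dvd_sub hr1 h3
      rw [h2, zpow_one]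
    rw [Finset.prod_congr rfl (fun h _ => h1 h), Finset.prod_const, Finset.card_univ, zpow_natCast]
  have hT'2 : T'.map f = ⊤ := by
    apply frattini_nongenerating
    rw [eq_top_iff]
    intro y _
    have hamem : a ∈ T'.map f ⊔ frattini P := by
      have hwT : w ∈ T' := by
        change π w ∈ Subgroup.zpowers v'
        rw [hw]
        exact Subgroup.mem_zpowers _
      have h1 : πP (f w) = πP (a ^ (Fintype.card H)) := by
        rw [← hfV, hw, hfv', map_pow, zpow_natCast]
      have h2 : (f w)⁻¹ * a ^ (Fintype.card H) ∈ frattini P := by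
        rw [← hπP1, map_mul, map_inv, h1, inv_mul_cancel]
      have h3 : a ^ (Fintype.card H) ∈ T'.map f ⊔ frattini P := by
        have h4 : a ^ (Fintype.card H) = f w * ((f w)⁻¹ * a ^ (Fintype.card H)) := by group
        rw [h4]
        exact mul_mem (Subgroup.mem_sup_left ⟨w, hwT, rfl⟩) (Subgroup.mem_sup_right h2)
      have h4 : a ^ p ∈ T'.map f ⊔ frattini P := Subgroup.mem_sup_right (frat_pow hPp a)
      have hcop : Nat.Coprime (Fintype.card H) p := by
        rw [← Nat.card_eq_fintype_card]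
        exact ((Nat.Prime.coprime_iff_not_dvd hp.1).2 hH).symm
      have h5 := Nat.gcd_eq_gcd_ab (Fintype.card H) p
      rw [hcop, Nat.cast_one] at h5
      have h6 : a = (a ^ (Fintype.card H)) ^ (Nat.gcdA (Fintype.card H) p) *
          (a ^ p) ^ (Nat.gcdB (Fintype.card H) p) := by
        rw [← zpow_natCast a (Fintype.card H), ← zpow_natCast a p, ← zpow_mul, ← zpow_mul,
          ← zpow_add, ← h5, zpow_one]
      rw [h6]
      exact mul_mem (Subgroup.zpow_mem _ h3 _) (Subgroup.zpow_mem _ h4 _)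
    obtain ⟨k, rfl⟩ := ha y
    exact Subgroup.zpow_mem _ hamem k
  have htop := hmin T' hT'1 hT'2
  have hz : Subgroup.zpowers w = ⊤ := by
    apply frattini_nongenerating
    rw [eq_top_iff]
    intro t _
    have h1 : t ∈ T' := by rw [htop]; trivial
    obtain ⟨k, hk⟩ := (h1 : π t ∈ Subgroup.zpowers v')
    have hk' : v' ^ k = π t := hk
    have h2 : (w ^ k)⁻¹ * t ∈ Φ := by
      rw [← hπ1, map_mul, map_inv, map_zpow, hw, hk', inv_mul_cancel]
    have h3 : t = w ^ k * ((w ^ k)⁻¹ * t) := by group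
    rw [h3]
    exact mul_mem (Subgroup.mem_sup_left ⟨k, rfl⟩) (Subgroup.mem_sup_right h2)
  exact isCyclic_iff_exists_zpowers_eq_top.2 ⟨w, hz⟩

end Pool.Agent.N600.ZQ
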