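import Mathlib
import Pool.Agent.H84.L.A3_N600_ZQ_S1
import Pool.Agent.H84.L.S8_H391R2_T4_Fam
import Pool.Agent.H84.L.S8_H391R2_T4_Nod
import Pool.Agent.H84.L.S8_H391R2_T4_Red
import Pool.Agent.H84.L.S8_H391R2_T4_Sem
import Pool.Agent.H84.L.S8_H391R2_T4_Sol
import Pool.Agent.H84.L.S8_H391R2_WrGrp
import Pool.Agent.H84.L.S8_TH15_IGP_TwB
import Pool.Agent.H84.L.S8_TH15_IGP_TwD
import Pool.Agent.H84.L.S8_TH59_WX_GT1
import Pool.Agent.H84.L.S8_TH59_WX_PA
import Pool.Agent.H84.L.S8_TH59_WX_PC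
import Pool.Agent.H84.L.S8_W200_IJ_SA

namespace Pool.Agent.H391R2
end Pool.Agent.H391R2
namespace Pool.Agent.H391R2.T4
end Pool.Agent.H391R2.T4
namespace Pool.Agent.TH15.IGP
end Pool.Agent.TH15.IGP
namespace Pool.Agent.TH59.WX
end Pool.Agent.TH59.WX


/-!
# Kernels which are direct products of wreath products, transitively permuted factors
-/

set_option autoImplicit false

namespace Pool.Agent.N600.ZQ

open Pool.Agent.H391R2 (Wr wr_mul_left wr_mul_right wr_inv_left)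
open Pool.Agent.H391R2.T4 (RegSol)
open Pool.Agent.TH59.WX
open Pool.Agent.TH15.IGP (IndData bigHom ind_reg fin_of_inf)

set_option linter.unusedSectionVars false

section stab

variable {X Γ : Type} [Group X] [Group Γ] (α : X →* Γ) {ι : Type} [Finite ι] [DecidableEq ι]
  {T : ι → Type} [∀ i, Group (T i)] (e : α.ker ≃* ∀ i, T i)
  (hI : ∀ i, Indec (T i)) (hN : ∀ i, Nontrivial (T i)) (hα : Function.Surjective α) (i₀ : ι)

/- The kernel of the induced map on `X₁ / M`. -/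
theorem quot_data' (Δ : Subgroup Γ) (hΔ : Δ = stb α e hI hN hα i₀) :
    ∃ (H : Type) (_ : Group H) (q : Δ.comap α →* H) (aH : H →* Δ),
      Function.Surjective q ∧ Function.Surjective aH ∧ (∀ x, (aH (q x) : Γ) = α x) ∧
      (∀ x, q x = 1 ↔ ∃ h : (x : X) ∈ α.ker, e ⟨x, h⟩ i₀ = 1) ∧
      ∃ E : aH.ker ≃* T i₀, ∀ (x : Δ.comap α) (hx : (x : X) ∈ α.ker) (h : q x ∈ aH.ker),
        E ⟨q x, h⟩ = e ⟨x, hx⟩ i₀ := by
  subst hΔ
  have hn := kr_normal α e hI hN hα i₀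
  let Δ := stb α e hI hN hα i₀
  let q : Δ.comap α →* (Δ.comap α ⧸ kr α e i₀ Δ) := QuotientGroup.mk' _
  have hq : Function.Surjective q := QuotientGroup.mk'_surjective _
  let a₁ : Δ.comap α →* Δ := (α.comp (Δ.comap α).subtype).codRestrict Δ (fun x => x.2)
  let aH : (Δ.comap α ⧸ kr α e i₀ Δ) →* Δ := QuotientGroup.lift _ a₁ (by
    rintro x ⟨hx, -⟩
    exact Subtype.ext hx)
  have haq : ∀ x, (aH (q x) : Γ) = α x := fun x => rfl
  have hq1 : ∀ x, q x = 1 ↔ ∃ h : (x : X) ∈ α.ker, e ⟨x, h⟩ i₀ = 1 := by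
    intro x
    rw [← mem_kr]
    exact QuotientGroup.eq_one_iff x
  refine ⟨_, inferInstance, q, aH, hq, ?_, haq, hq1, ?_⟩
  · intro γ
    obtain ⟨x, hx⟩ := hα γ
    refine ⟨q ⟨x, ?_⟩, ?_⟩
    · rw [Subgroup.mem_comap, hx]
      exact γ.2
    · exact Subtype.ext hx
  · have hmem : ∀ t : T i₀, sn α e i₀ t ∈ Δ.comap α := by
      intro t
      have h1 : α (sn α e i₀ t) = 1 := sn_mem α e i₀ t
      rw [Subgroup.mem_comap, h1]
      exact one_mem _
    let u : T i₀ →* aH.ker := MonoidHom.mk' (fun t => ⟨q ⟨sn α e i₀ t, hmem t⟩, by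
      rw [MonoidHom.mem_ker]
      exact Subtype.ext (sn_mem α e i₀ t)⟩) (fun s t => by
      apply Subtype.ext
      change q _ = q _ * q _
      rw [← map_mul]
      congr 1
      exact Subtype.ext (sn_mul α e i₀ s t))
    have hu : Function.Injective u := by
      rw [injective_iff_map_eq_one]
      intro t ht
      have h1 : q ⟨sn α e i₀ t, hmem t⟩ = 1 := congrArg Subtype.val ht
      rw [hq1] at h1
      obtain ⟨h, h2⟩ := h1
      have h3 := e_sn α e i₀ t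
      have h4 : e ⟨sn α e i₀ t, h⟩ i₀ = t := by
        rw [h3, Pi.mulSingle_eq_same]
      rw [← h4]
      exact h2
    have hue : ∀ (x : Δ.comap α) (hx : (x : X) ∈ α.ker) (h : q x ∈ aH.ker),
        u (e ⟨x, hx⟩ i₀) = ⟨q x, h⟩ := by
      intro x hx h
      apply Subtype.ext
      change q _ = q x
      rw [← inv_mul_eq_one, ← map_inv, ← map_mul, hq1]
      refine ⟨mul_mem (inv_mem (sn_mem α e i₀ _)) hx, ?_⟩
      have h1 : (⟨_, mul_mem (inv_mem (sn_mem α e i₀ (e ⟨x, hx⟩ i₀))) hx⟩ : α.ker) =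
        ⟨sn α e i₀ (e ⟨x, hx⟩ i₀), sn_mem α e i₀ _⟩⁻¹ * ⟨x, hx⟩ := rfl
      change e ⟨_, mul_mem (inv_mem (sn_mem α e i₀ (e ⟨x, hx⟩ i₀))) hx⟩ i₀ = 1
      rw [h1, map_mul, map_inv, e_sn]
      change (Pi.mulSingle i₀ (e ⟨x, hx⟩ i₀) i₀)⁻¹ * e ⟨x, hx⟩ i₀ = 1
      rw [Pi.mulSingle_eq_same, inv_mul_cancel]
    have hus : Function.Surjective u := by
      rintro ⟨h, hh⟩
      obtain ⟨x, rfl⟩ := hq h
      have hx : (x : X) ∈ α.ker := congrArg Subtype.val hh
      exact ⟨e ⟨x, hx⟩ i₀, hue x hx hh⟩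
    refine ⟨(MulEquiv.ofBijective u ⟨hu, hus⟩).symm, fun x hx h => ?_⟩
    rw [MulEquiv.symm_apply_eq]
    exact (hue x hx h).symm

end stab

section typ

variable {X Γ : Type} [Group X] [Group Γ] (α : X →* Γ) {ι : Type} [Finite ι] [DecidableEq ι]
  {G : ι → Type} [∀ i, Group (G i)] {n : ι → ℕ} (e : α.ker ≃* ∀ i, Wr (G i) (n i))
  (hI : ∀ i, Indec (Wr (G i) (n i))) (hN : ∀ i, Nontrivial (Wr (G i) (n i)))

/- The elements which fix the factor `i`. -/
noncomputable def Xi (i : ι) : Subgroup X :=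
  (MulAction.stabilizer (Equiv.Perm ι) i).comap (pX α e hI hN)

theorem mem_Xi (i : ι) (x : X) : x ∈ Xi α e hI hN i ↔ pX α e hI hN x i = i := Iff.rfl

/- The outer action on the factor `G i` is given by a homomorphism to `Aut (G i)`. -/
def TypeHom (p : ∀ i, Fin (n i)) (i : ι) : Prop :=
  ∃ φ : Xi α e hI hN i →* MulAut (G i), (∀ x : Xi α e hI hN i, (x : X) ∈ α.ker → φ x = 1) ∧
    ∀ x : Xi α e hI hN i, ∃ w : Wr (G i) (n i), ∀ (g : G i) (m : X) (hm : m ∈ α.ker),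
      e ⟨m, hm⟩ i = sgl (p i) g →
      e ⟨x * m * (x : X)⁻¹, conj_mem_ker α x hm⟩ i = w * sgl (p i) (φ x g) * w⁻¹

end typ

section one

variable (K L : Type) [Field K] [Infinite K] [Field L] [Algebra K L] [FiniteDimensional K L]
  [IsGalois K L] {X : Type} [Group X] [Finite X] (α : X →* (L ≃ₐ[K] L))
  (hα : Function.Surjective α) {ι : Type} [Finite ι] [DecidableEq ι]
  {G : ι → Type} [∀ i, Group (G i)] {n : ι → ℕ} (e : α.ker ≃* ∀ i, Wr (G i) (n i))
  (hI : ∀ i, Indec (Wr (G i) (n i))) (hN : ∀ i, Nontrivial (Wr (G i) (n i)))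

include hα in
theorem one_orbit' (i₀ : ι) (hfin : Finite (G i₀)) (hnt : Nontrivial (G i₀))
    (hZ : ∀ z : G i₀, (∀ g : G i₀, z * g = g * z) → z = 1)
    (hn : ((3 * Nat.card (G i₀) + 2).factorial) ^ 3 ≤ n i₀) (p : ∀ i, Fin (n i))
    (hTy : TypeHom α e hI hN p i₀)
    (htrans : ∀ i, ∃ x, pX α e hI hN x i₀ = i) : RegSol K L X α := by
  classical
  let K₁ := IntermediateField.fixedField (stb α e hI hN hα i₀)
  have hΔ : K₁.fixingSubgroup = stb α e hI hN hα i₀ :=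
    IntermediateField.fixingSubgroup_fixedField _
  obtain ⟨H, iH, q, aH, hq, haH, haq, hq1, eH, heH⟩ :=
    quot_data' α e hI hN hα i₀ K₁.fixingSubgroup hΔ
  let αH : H →* (L ≃ₐ[K₁] L) := (IntermediateField.fixingSubgroupEquiv K₁).toMonoidHom.comp aH
  have hαH : Function.Surjective αH :=
    (IntermediateField.fixingSubgroupEquiv K₁).surjective.comp haH
  have hker : αH.ker = aH.ker := by
    ext h
    rw [MonoidHom.mem_ker, MonoidHom.mem_ker]
    change IntermediateField.fixingSubgroupEquiv K₁ (aH h) = 1 ↔ aH h = 1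
    rw [map_eq_one_iff _ (IntermediateField.fixingSubgroupEquiv K₁).injective]
  have hbig : ∀ h : H, bigHom K₁ αH h = (aH h : L ≃ₐ[K] L) := by
    intro h
    apply AlgEquiv.ext
    intro x
    rfl
  have hinfK₁ : Infinite K₁ := Infinite.of_injective _ (algebraMap K K₁).injective
  have hXi : ∀ x : X, α x ∈ K₁.fixingSubgroup ↔ x ∈ Xi α e hI hN i₀ := by
    intro x
    rw [hΔ]
    exact mem_stb α e hI hN hα i₀ x
  obtain ⟨φ, hφ1, hφ2⟩ := hTy
  let φ' : K₁.fixingSubgroup.comap α →* MulAut (G i₀) :=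
    φ.comp (Subgroup.inclusion (fun x hx => (hXi x).1 hx))
  have hφ' : ∀ (x : X) (h : x ∈ K₁.fixingSubgroup.comap α), φ' ⟨x, h⟩ = φ ⟨x, (hXi x).1 h⟩ :=
    fun x h => rfl
  let ψ : H →* MulAut (G i₀) := q.liftOfSurjective hq ⟨φ', fun x hx => by
    obtain ⟨h1, -⟩ := (hq1 x).1 hx
    rw [MonoidHom.mem_ker]
    exact hφ1 ⟨x, (hXi x).1 x.2⟩ h1⟩
  have hψ : ∀ x, ψ (q x) = φ' x := fun x =>
    MonoidHom.liftOfRightInverse_comp_apply q _ (Function.rightInverse_surjInv hq) _ x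
  let ιH : Wr (G i₀) (n i₀) ≃* αH.ker := eH.symm.trans (MulEquiv.subgroupCongr hker).symm
  have hιH : ∀ (t : Wr (G i₀) (n i₀)), ((ιH t : αH.ker) : H) = ((eH.symm t : aH.ker) : H) :=
    fun t => rfl
  have heq : ∀ (x : K₁.fixingSubgroup.comap α) (hx : (x : X) ∈ α.ker),
      ((eH.symm (e ⟨x, hx⟩ i₀) : aH.ker) : H) = q x := by
    intro x hx
    have h1 : q x ∈ aH.ker := by
      rw [MonoidHom.mem_ker]
      apply Subtype.ext
      rw [haq]
      exact hx
    rw [← heH x hx h1, MulEquiv.symm_apply_apply]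
  have hreg : RegSol K₁ L H αH := by
    refine reg_type K₁ L (G i₀) hZ (n i₀) hn H αH hαH ιH (p i₀) ψ ?_ ?_
    · intro h hh
      obtain ⟨x, rfl⟩ := hq h
      have h1 : aH (q x) = 1 := by
        rw [hker] at hh
        exact hh
      have h2 : (x : X) ∈ α.ker := by
        rw [MonoidHom.mem_ker, ← haq, h1]
        rfl
      rw [MonoidHom.mem_ker, hψ]
      exact hφ1 ⟨x, (hXi x).1 x.2⟩ h2
    · intro h
      obtain ⟨x, rfl⟩ := hq h
      obtain ⟨w, hw⟩ := hφ2 ⟨x, (hXi x).1 x.2⟩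
      refine ⟨w, fun g => ?_⟩
      have hmem : ∀ y : X, y ∈ α.ker → y ∈ K₁.fixingSubgroup.comap α := by
        intro y hy
        have h2 : α y = 1 := hy
        rw [Subgroup.mem_comap, h2]
        exact one_mem _
      have h3 := e_sn α e i₀ (sgl (p i₀) g)
      have h4 : e ⟨sn α e i₀ (sgl (p i₀) g), sn_mem α e i₀ _⟩ i₀ = sgl (p i₀) g := by
        rw [h3, Pi.mulSingle_eq_same]
      have h5 := hw g _ (sn_mem α e i₀ (sgl (p i₀) g)) h4
      have h6 := heq ⟨_, hmem _ (sn_mem α e i₀ (sgl (p i₀) g))⟩ (sn_mem α e i₀ _)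
      rw [h4] at h6
      have h7 := heq ⟨_, hmem _ (conj_mem_ker α (x : X) (sn_mem α e i₀ (sgl (p i₀) g)))⟩
        (conj_mem_ker α (x : X) (sn_mem α e i₀ (sgl (p i₀) g)))
      rw [hψ, hιH, hιH, h6, hφ' x x.2]
      rw [h5] at h7
      rw [h7, ← map_mul, ← map_inv, ← map_mul]
      rfl
  -- the data
  have hmem : ∀ x : X, α x ∈ K₁.fixingSubgroup ↔ pX α e hI hN x i₀ = i₀ := by
    intro x
    rw [hΔ]
    exact mem_stb α e hI hN hα i₀ x
  let Q : X → H := fun x => if h : α x ∈ K₁.fixingSubgroup then q ⟨x, h⟩ else 1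
  have hQ : ∀ (x : X) (h : α x ∈ K₁.fixingSubgroup), Q x = q ⟨x, h⟩ := fun x h => dif_pos h
  have hQ1 : ∀ (n : X) (hn : n ∈ α.ker), Q n = 1 ↔ e ⟨n, hn⟩ i₀ = 1 := by
    intro n hn
    have h1 : α n ∈ K₁.fixingSubgroup := by
      have h2 : α n = 1 := hn
      rw [h2]
      exact one_mem _
    rw [hQ n h1, hq1]
    exact ⟨fun ⟨_, h⟩ => h, fun h => ⟨hn, h⟩⟩
  let D : IndData (L ≃ₐ[K] L) X H K₁.fixingSubgroup (bigHom K₁ αH) α :=
    { q := Q
      mul := by
        intro d d' hd hd'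
        have h1 : α (d * d') ∈ K₁.fixingSubgroup := by
          rw [map_mul]
          exact mul_mem hd hd'
        rw [hQ d hd, hQ d' hd', hQ _ h1, ← map_mul]
        rfl
      comp := by
        intro d hd
        rw [hbig, hQ d hd, haq]
      inj := by
        intro a ha h
        have h1 : e ⟨a, ha⟩ = 1 := by
          funext i
          obtain ⟨x, rfl⟩ := htrans i
          have ha' : x⁻¹ * a * x ∈ α.ker := by
            have h2 := conj_mem_ker α x⁻¹ (n := a) ha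
            rwa [inv_inv] at h2
          have h3 := (hQ1 _ ha').1 (h x)
          have h4 := (pX_iff α e hI hN x i₀ (x⁻¹ * a * x) ha').2 h3
          have h5 : (⟨x * (x⁻¹ * a * x) * x⁻¹, conj_mem_ker α x ha'⟩ : α.ker) = ⟨a, ha⟩ :=
            Subtype.ext (by group)
          rw [h5] at h4
          exact h4
        have h2 : (⟨a, ha⟩ : α.ker) = 1 := by
          apply e.injective
          rw [h1, map_one]
        exact congrArg Subtype.val h2
      surj := by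
        intro b hb
        rw [hbig] at hb
        have hb1 : aH b = 1 := Subtype.ext hb
        obtain ⟨⟨x, hx⟩, rfl⟩ := hq b
        have hxk : x ∈ α.ker := by
          have h1 := haq ⟨x, hx⟩
          rw [hb1] at h1
          exact h1.symm
        refine ⟨sn α e i₀ (e ⟨x, hxk⟩ i₀), sn_mem α e i₀ _, ?_, ?_⟩
        · have h1 : α (sn α e i₀ (e ⟨x, hxk⟩ i₀)) ∈ K₁.fixingSubgroup := by
            have h2 : α (sn α e i₀ (e ⟨x, hxk⟩ i₀)) = 1 := sn_mem α e i₀ _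
            rw [h2]
            exact one_mem _
          rw [hQ _ h1, ← inv_mul_eq_one, ← map_inv, ← map_mul, hq1]
          refine ⟨mul_mem (inv_mem (sn_mem α e i₀ _)) hxk, ?_⟩
          have h3 : (⟨_, mul_mem (inv_mem (sn_mem α e i₀ (e ⟨x, hxk⟩ i₀))) hxk⟩ : α.ker) =
            ⟨sn α e i₀ (e ⟨x, hxk⟩ i₀), sn_mem α e i₀ _⟩⁻¹ * ⟨x, hxk⟩ := rfl
          change e ⟨_, mul_mem (inv_mem (sn_mem α e i₀ (e ⟨x, hxk⟩ i₀))) hxk⟩ i₀ = 1
          rw [h3, map_mul, map_inv, e_sn]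
          change (Pi.mulSingle (M := fun i => Wr (G i) (n i)) i₀ (e ⟨x, hxk⟩ i₀) i₀)⁻¹ * e ⟨x, hxk⟩ i₀ = 1
          rw [Pi.mulSingle_eq_same, inv_mul_cancel]
        · intro f hf
          have hf' : pX α e hI hN f i₀ ≠ i₀ := fun h => hf ((hmem f).2 h)
          have ha' : f⁻¹ * sn α e i₀ (e ⟨x, hxk⟩ i₀) * f ∈ α.ker := by
            have h2 := conj_mem_ker α f⁻¹ (n := sn α e i₀ (e ⟨x, hxk⟩ i₀)) (sn_mem α e i₀ _)
            rwa [inv_inv] at h2
          rw [hQ1 _ ha', ← pX_iff α e hI hN f i₀ _ ha']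
          have h5 : (⟨f * (f⁻¹ * sn α e i₀ (e ⟨x, hxk⟩ i₀) * f) * f⁻¹,
              conj_mem_ker α f ha'⟩ : α.ker) = ⟨sn α e i₀ (e ⟨x, hxk⟩ i₀), sn_mem α e i₀ _⟩ :=
            Subtype.ext (by group)
          rw [h5, e_sn]
          exact Pi.mulSingle_eq_of_ne hf' _ }
  exact ind_reg K L K₁ H αH X α hα D hreg

end one

end Pool.Agent.N600.ZQ
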