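import Mathlib
import Pool.Agent.H84.L.S8_TH59_WX_PA
import Pool.Agent.H84.L.S8_TH59_WX_PB



/-!
# Extensions with kernel a direct product of indecomposable groups
-/

set_option autoImplicit false

namespace Pool.Agent.TH59.WX

set_option linter.unusedSectionVars false

section act

variable {X Γ : Type} [Group X] [Group Γ] (α : X →* Γ) {ι : Type} [Finite ι] [DecidableEq ι]
  {T : ι → Type} [∀ i, Group (T i)] (e : α.ker ≃* ∀ i, T i)

/- The conjugation action on the product. -/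
noncomputable def cj : X →* MulAut (∀ i, T i) :=
  (MulAut.congr e).toMonoidHom.comp MulAut.conjNormal

theorem conj_mem_ker (x : X) {n : X} (hn : n ∈ α.ker) : x * n * x⁻¹ ∈ α.ker :=
  (MonoidHom.normal_ker α).conj_mem n hn x

theorem cj_apply (x : X) (n : X) (hn : n ∈ α.ker) :
    cj α e x (e ⟨n, hn⟩) = e ⟨x * n * x⁻¹, conj_mem_ker α x hn⟩ := by
  change e (MulAut.conjNormal x (e.symm (e ⟨n, hn⟩))) = _
  rw [MulEquiv.symm_apply_apply]
  congr 1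

variable (hI : ∀ i, Indec (T i)) (hN : ∀ i, Nontrivial (T i))

/- The permutation of the factors. -/
noncomputable def pX : X →* Equiv.Perm ι := (perm hI hN).comp (cj α e)

theorem pX_iff (x : X) (i : ι) (n : X) (hn : n ∈ α.ker) :
    e ⟨x * n * x⁻¹, conj_mem_ker α x hn⟩ (pX α e hI hN x i) = 1 ↔ e ⟨n, hn⟩ i = 1 := by
  rw [← cj_apply]
  exact perm_iff hI hN (cj α e x) i _

theorem pX_unique (x : X) (π : Equiv.Perm ι)
    (h : ∀ (i : ι) (n : X) (hn : n ∈ α.ker), e ⟨n, hn⟩ i = 1 →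
      e ⟨x * n * x⁻¹, conj_mem_ker α x hn⟩ (π i) = 1) : pX α e hI hN x = π := by
  refine perm_unique hI hN _ _ fun i y hy => ?_
  obtain ⟨⟨n, hn⟩, rfl⟩ := e.surjective y
  rw [cj_apply]
  exact h i n hn hy

theorem pX_ker (x : X) (hx : x ∈ α.ker) : pX α e hI hN x = 1 := by
  refine pX_unique α e hI hN x 1 fun i n hn h => ?_
  have h1 : (⟨x * n * x⁻¹, conj_mem_ker α x hn⟩ : α.ker) = ⟨x, hx⟩ * ⟨n, hn⟩ * ⟨x, hx⟩⁻¹ := rfl
  rw [h1, map_mul, map_mul, map_inv]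
  change e ⟨x, hx⟩ i * e ⟨n, hn⟩ i * (e ⟨x, hx⟩ i)⁻¹ = 1
  rw [h, mul_one, mul_inv_cancel]

/- The action of the quotient on the factors. -/
noncomputable def pG (hα : Function.Surjective α) : Γ →* Equiv.Perm ι :=
  α.liftOfSurjective hα ⟨pX α e hI hN, fun x hx => pX_ker α e hI hN x hx⟩

theorem pG_apply (hα : Function.Surjective α) (x : X) :
    pG α e hI hN hα (α x) = pX α e hI hN x :=
  MonoidHom.liftOfRightInverse_comp_apply α _ (Function.rightInverse_surjInv hα)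
    ⟨pX α e hI hN, fun x hx => pX_ker α e hI hN x hx⟩ x

end act

section stab

variable {X Γ : Type} [Group X] [Group Γ] (α : X →* Γ) {ι : Type} [Finite ι] [DecidableEq ι]
  {T : ι → Type} [∀ i, Group (T i)] (e : α.ker ≃* ∀ i, T i)
  (hI : ∀ i, Indec (T i)) (hN : ∀ i, Nontrivial (T i)) (hα : Function.Surjective α) (i₀ : ι)

/- The stabiliser of a factor. -/
noncomputable def stb : Subgroup Γ :=
  (MulAction.stabilizer (Equiv.Perm ι) i₀).comap (pG α e hI hN hα)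

theorem mem_stb (x : X) : α x ∈ stb α e hI hN hα i₀ ↔ pX α e hI hN x i₀ = i₀ := by
  change pG α e hI hN hα (α x) i₀ = i₀ ↔ _
  rw [pG_apply]

/- The elements of the kernel without component at `i₀`, as a subgroup of the preimage of the
stabiliser. -/
def kr (Δ : Subgroup Γ) : Subgroup (Δ.comap α) where
  carrier := {x | ∃ h : (x : X) ∈ α.ker, e ⟨x, h⟩ i₀ = 1}
  one_mem' := ⟨one_mem _, by
    have h1 : (⟨((1 : Δ.comap α) : X), one_mem _⟩ : α.ker) = 1 := rfl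
    rw [h1, map_one]
    rfl⟩
  mul_mem' := by
    rintro x y ⟨hx, h1⟩ ⟨hy, h2⟩
    refine ⟨mul_mem hx hy, ?_⟩
    have h3 : (⟨((x * y : Δ.comap α) : X), mul_mem hx hy⟩ : α.ker) = ⟨x, hx⟩ * ⟨y, hy⟩ := rfl
    rw [h3, map_mul]
    change e ⟨x, hx⟩ i₀ * e ⟨y, hy⟩ i₀ = 1
    rw [h1, h2, mul_one]
  inv_mem' := by
    rintro x ⟨hx, h1⟩
    refine ⟨inv_mem hx, ?_⟩
    have h3 : (⟨((x⁻¹ : Δ.comap α) : X), inv_mem hx⟩ : α.ker) = ⟨x, hx⟩⁻¹ := rfl
    rw [h3, map_inv]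
    change (e ⟨x, hx⟩ i₀)⁻¹ = 1
    rw [h1, inv_one]

theorem mem_kr (Δ : Subgroup Γ) (x : Δ.comap α) :
    x ∈ kr α e i₀ Δ ↔ ∃ h : (x : X) ∈ α.ker, e ⟨x, h⟩ i₀ = 1 := Iff.rfl

theorem kr_normal : (kr α e i₀ (stb α e hI hN hα i₀)).Normal := by
  refine ⟨?_⟩
  rintro x ⟨hx, h1⟩ y
  refine ⟨conj_mem_ker α y hx, ?_⟩
  have h2 : pX α e hI hN (y : X) i₀ = i₀ := (mem_stb α e hI hN hα i₀ _).1 y.2
  have h3 := (pX_iff α e hI hN (y : X) i₀ x hx).2 h1
  rw [h2] at h3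
  exact h3

/- The elements supported at `i₀`. -/
noncomputable def sn (t : T i₀) : X := (e.symm (Pi.mulSingle i₀ t) : α.ker)

theorem sn_mem (t : T i₀) : sn α e i₀ t ∈ α.ker := (e.symm (Pi.mulSingle i₀ t)).2

theorem e_sn (t : T i₀) : e ⟨sn α e i₀ t, sn_mem α e i₀ t⟩ = Pi.mulSingle i₀ t := by
  have h1 : (⟨sn α e i₀ t, sn_mem α e i₀ t⟩ : α.ker) = e.symm (Pi.mulSingle i₀ t) := rfl
  rw [h1, MulEquiv.apply_symm_apply]

theorem sn_mul (s t : T i₀) : sn α e i₀ (s * t) = sn α e i₀ s * sn α e i₀ t := by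
  unfold sn
  rw [Pi.mulSingle_mul, map_mul]
  rfl

/- The kernel of the induced map on `X₁ / M`. -/
theorem quot_data (Δ : Subgroup Γ) (hΔ : Δ = stb α e hI hN hα i₀) :
    ∃ (H : Type) (_ : Group H) (q : Δ.comap α →* H) (aH : H →* Δ),
      Function.Surjective q ∧ Function.Surjective aH ∧ (∀ x, (aH (q x) : Γ) = α x) ∧
      (∀ x, q x = 1 ↔ ∃ h : (x : X) ∈ α.ker, e ⟨x, h⟩ i₀ = 1) ∧
      Nonempty (aH.ker ≃* T i₀) := by
  subst hΔ
  have hn := kr_normal α e hI hN hα i₀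
  let Δ := stb α e hI hN hα i₀
  let q : Δ.comap α →* (Δ.comap α ⧸ kr α e i₀ Δ) := QuotientGroup.mk' _
  have hq : Function.Surjective q := QuotientGroup.mk'_surjective _
  let a₁ : Δ.comap α →* Δ := (α.comp (Δ.comap α).subtype).codRestrict Δ (fun x => x.2)
  let aH : (Δ.comap α ⧸ kr α e i₀ Δ) →* Δ := QuotientGroup.lift _ a₁ (by
    rintro x ⟨hx, -⟩
    exact Subtype.ext hx)
  have haq : ∀ x, (aH (q x) : Γ) = α x := fun x => rfl
  have hq1 : ∀ x, q x = 1 ↔ ∃ h : (x : X) ∈ α.ker, e ⟨x, h⟩ i₀ = 1 := by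
    intro x
    rw [← mem_kr]
    exact QuotientGroup.eq_one_iff x
  refine ⟨_, inferInstance, q, aH, hq, ?_, haq, hq1, ?_⟩
  · intro γ
    obtain ⟨x, hx⟩ := hα γ
    refine ⟨q ⟨x, ?_⟩, ?_⟩
    · rw [Subgroup.mem_comap, hx]
      exact γ.2
    · exact Subtype.ext hx
  · have hmem : ∀ t : T i₀, sn α e i₀ t ∈ Δ.comap α := by
      intro t
      have h1 : α (sn α e i₀ t) = 1 := sn_mem α e i₀ t
      rw [Subgroup.mem_comap, h1]
      exact one_mem _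
    let u : T i₀ →* aH.ker := MonoidHom.mk' (fun t => ⟨q ⟨sn α e i₀ t, hmem t⟩, by
      rw [MonoidHom.mem_ker]
      exact Subtype.ext (sn_mem α e i₀ t)⟩) (fun s t => by
      apply Subtype.ext
      change q _ = q _ * q _
      rw [← map_mul]
      congr 1
      exact Subtype.ext (sn_mul α e i₀ s t))
    refine ⟨(MulEquiv.ofBijective u ⟨?_, ?_⟩).symm⟩
    · rw [injective_iff_map_eq_one]
      intro t ht
      have h1 : q ⟨sn α e i₀ t, hmem t⟩ = 1 := congrArg Subtype.val ht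
      rw [hq1] at h1
      obtain ⟨h, h2⟩ := h1
      have h3 := e_sn α e i₀ t
      have h4 : e ⟨sn α e i₀ t, h⟩ i₀ = t := by
        rw [h3, Pi.mulSingle_eq_same]
      rw [← h4]
      exact h2
    · rintro ⟨h, hh⟩
      obtain ⟨x, rfl⟩ := hq h
      have hx : (x : X) ∈ α.ker := congrArg Subtype.val hh
      refine ⟨e ⟨x, hx⟩ i₀, ?_⟩
      apply Subtype.ext
      change q _ = q x
      rw [← inv_mul_eq_one, ← map_inv, ← map_mul, hq1]
      refine ⟨mul_mem (inv_mem (sn_mem α e i₀ _)) hx, ?_⟩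
      have h1 : (⟨_, mul_mem (inv_mem (sn_mem α e i₀ (e ⟨x, hx⟩ i₀))) hx⟩ : α.ker) =
        ⟨sn α e i₀ (e ⟨x, hx⟩ i₀), sn_mem α e i₀ _⟩⁻¹ * ⟨x, hx⟩ := rfl
      change e ⟨_, mul_mem (inv_mem (sn_mem α e i₀ (e ⟨x, hx⟩ i₀))) hx⟩ i₀ = 1
      rw [h1, map_mul, map_inv, e_sn]
      change (Pi.mulSingle i₀ (e ⟨x, hx⟩ i₀) i₀)⁻¹ * e ⟨x, hx⟩ i₀ = 1
      rw [Pi.mulSingle_eq_same, inv_mul_cancel]

end stab

end Pool.Agent.TH59.WX
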