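import Mathlib
import Pool.Agent.H84.L.A3_N600_ZQ_S2
import Pool.Agent.H84.L.S8_H391R2_T4_Gp
import Pool.Agent.H84.L.S8_H391R2_T4_Nod
import Pool.Agent.H84.L.S8_H391R2_T4_Red
import Pool.Agent.H84.L.S8_H391R2_T4_Sem
import Pool.Agent.H84.L.S8_H391R2_WrGrp
import Pool.Agent.H84.L.S8_TH15_IGP_TwB
import Pool.Agent.H84.L.S8_TH59_WX_GT1
import Pool.Agent.H84.L.S8_TH59_WX_PA
import Pool.Agent.H84.L.S8_TH59_WX_PC
import Pool.Agent.H84.L.S8_TH59_WX_PD
import Pool.Agent.H84.L.S8_TH59_WX_PF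
import Pool.Agent.H84.L.S8_TH59_WX_UF
import Pool.Agent.H84.L.S8_W200_IG_Fam
import Pool.Agent.H84.L.S8_W200_IJ_BC
import Pool.Agent.H84.L.S8_W200_IJ_SA

namespace Pool.Agent.H391R2
end Pool.Agent.H391R2
namespace Pool.Agent.H391R2.T4
end Pool.Agent.H391R2.T4
namespace Pool.Agent.TH59.WX
end Pool.Agent.TH59.WX


/-!
# Kernels which are direct products of wreath products: all orbits
-/

set_option autoImplicit false

namespace Pool.Agent.N600.ZQ

open Pool.Agent.H391R2 (Wr wr_mul_left wr_mul_right wr_inv_left)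
open Pool.Agent.H391R2.T4 (RegSol exists_equiv_of_ker finite_wr)
open Pool.Agent.TH59.WX hiding quot_equiv

set_option linter.unusedSectionVars false

section sub

variable {X Γ : Type} [Group X] [Group Γ] (α : X →* Γ) {ι : Type} [Finite ι] [DecidableEq ι]
  {T : ι → Type} [∀ i, Group (T i)] (e : α.ker ≃* ∀ i, T i)

theorem quot_equiv' {X' : Type} [Group X'] (r : X →* X') (hr : Function.Surjective r)
    (δ : X' →* Γ) (hδ : ∀ x, δ (r x) = α x) (S : Set ι)
    (hrk : ∀ x, r x = 1 ↔ ∃ h : x ∈ α.ker, ∀ i, i ∉ S → e ⟨x, h⟩ i = 1) :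
    ∃ E : δ.ker ≃* (∀ i : (Sᶜ : Set ι), T i), ∀ (x : X) (hx : x ∈ α.ker) (h : r x ∈ δ.ker) i,
      E ⟨r x, h⟩ i = e ⟨x, hx⟩ i := by
  classical
  let f : α.ker →* δ.ker := (r.comp α.ker.subtype).codRestrict δ.ker (fun n => by
    rw [MonoidHom.mem_ker]
    change δ (r n) = 1
    rw [hδ]
    exact n.2)
  have hf : Function.Surjective f := by
    rintro ⟨x', hx'⟩
    obtain ⟨x, rfl⟩ := hr x'
    rw [MonoidHom.mem_ker, hδ] at hx'
    exact ⟨⟨x, hx'⟩, rfl⟩
  let g : α.ker →* (∀ i : (Sᶜ : Set ι), T i) := MonoidHom.mk' (fun n i => e n i) (fun a b => by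
    funext i
    rw [map_mul]
    rfl)
  have hg : Function.Surjective g := by
    intro y
    let z : ∀ i, T i := fun i => if h : i ∈ Sᶜ then y ⟨i, h⟩ else 1
    have hz1 : ∀ i (h : i ∈ Sᶜ), z i = y ⟨i, h⟩ := fun i h => dif_pos h
    refine ⟨e.symm z, ?_⟩
    funext i
    change e (e.symm z) i = y i
    rw [MulEquiv.apply_symm_apply, hz1 i i.2]
  have hker : f.ker = g.ker := by
    ext n
    rw [MonoidHom.mem_ker, MonoidHom.mem_ker]
    constructor
    · intro h
      have h1 : r n = 1 := congrArg Subtype.val h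
      obtain ⟨h2, h3⟩ := (hrk n).1 h1
      funext i
      exact h3 i i.2
    · intro h
      apply Subtype.ext
      change r n = 1
      rw [hrk]
      exact ⟨n.2, fun i hi => congrFun h ⟨i, hi⟩⟩
  obtain ⟨E, hE⟩ := exists_equiv_of_ker f g hf hg hker
  refine ⟨E, fun x hx h i => ?_⟩
  exact congrFun (hE ⟨x, hx⟩) i

end sub

theorem prod_aux (N : ℕ) : ∀ (ι : Type) [Finite ι] [DecidableEq ι] (G : ι → Type)
    [∀ i, Group (G i)] [∀ i, Finite (G i)] [∀ i, Nontrivial (G i)] (n : ι → ℕ)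
    (hI : ∀ i, Indec (Wr (G i) (n i))) (hN : ∀ i, Nontrivial (Wr (G i) (n i))),
    (∀ i, ∀ z : G i, (∀ g : G i, z * g = g * z) → z = 1) →
    (∀ i, ((3 * Nat.card (G i) + 2).factorial) ^ 3 ≤ n i) → ∀ (p : ∀ i, Fin (n i)),
    Nat.card ι = N →
    ∀ (K L X : Type) [Field K] [Infinite K] [Field L] [Algebra K L] [FiniteDimensional K L]
      [IsGalois K L] [Group X] (α : X →* (L ≃ₐ[K] L)), Function.Surjective α →
      ∀ e : α.ker ≃* ∀ i, Wr (G i) (n i), (∀ i, TypeHom α e hI hN p i) → RegSol K L X α := by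
  classical
  induction N using Nat.strong_induction_on with
  | _ N ih =>
  intro ι _ _ G _ _ _ n hI hN hZ hn p hcard K L X _ _ _ _ _ _ _ α hα e hTy
  have hfinT : ∀ i, Finite (Wr (G i) (n i)) := fun i => finite_wr (G i) (n i)
  have hfinX : Finite X := finite_of_kernel α e.symm
  rcases isEmpty_or_nonempty ι with hem | ⟨⟨i₀⟩⟩
  · -- trivial kernel
    have hinj : Function.Injective α := by
      rw [injective_iff_map_eq_one]
      intro x hx
      have h1 : (⟨x, hx⟩ : α.ker) = 1 := e.injective (Subsingleton.elim _ _)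
      exact congrArg Subtype.val h1
    exact Pool.Agent.W200.IJ.taskA_empty K L X α hinj (fun x hx => by
      rw [IsGalois.mem_range_algebraMap_iff_fixed]
      intro σ
      obtain ⟨g, rfl⟩ := hα σ
      exact hx g)
  · let π := pX α e hI hN
    let S : Set ι := {i | ∃ x, π x i₀ = i}
    have hi₀ : i₀ ∈ S := ⟨1, by rw [map_one]; rfl⟩
    have hS : ∀ x i, π x i ∈ S ↔ i ∈ S := by
      intro x i
      constructor
      · rintro ⟨y, hy⟩
        refine ⟨x⁻¹ * y, ?_⟩
        rw [map_mul, Equiv.Perm.mul_apply, hy, map_inv]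
        exact (π x).symm_apply_apply i
      · rintro ⟨y, rfl⟩
        exact ⟨x * y, by rw [map_mul]; rfl⟩
    let NS : Subgroup X :=
      { carrier := {x | ∃ h : x ∈ α.ker, ∀ i, i ∉ S → e ⟨x, h⟩ i = 1}
        one_mem' := ⟨one_mem _, fun i _ => by
          have h1 : (⟨(1 : X), one_mem _⟩ : α.ker) = 1 := rfl
          rw [h1, map_one]
          rfl⟩
        mul_mem' := by
          rintro x y ⟨hx, h1⟩ ⟨hy, h2⟩
          refine ⟨mul_mem hx hy, fun i hi => ?_⟩
          have h3 : (⟨x * y, mul_mem hx hy⟩ : α.ker) = ⟨x, hx⟩ * ⟨y, hy⟩ := rfl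
          rw [h3, map_mul]
          change e ⟨x, hx⟩ i * e ⟨y, hy⟩ i = 1
          rw [h1 i hi, h2 i hi, mul_one]
        inv_mem' := by
          rintro x ⟨hx, h1⟩
          refine ⟨inv_mem hx, fun i hi => ?_⟩
          have h3 : (⟨x⁻¹, inv_mem hx⟩ : α.ker) = ⟨x, hx⟩⁻¹ := rfl
          rw [h3, map_inv]
          change (e ⟨x, hx⟩ i)⁻¹ = 1
          rw [h1 i hi, inv_one] }
    have hNS : ∀ x, x ∈ NS ↔ ∃ h : x ∈ α.ker, ∀ i, i ∉ S → e ⟨x, h⟩ i = 1 := fun x => Iff.rfl
    have hnorm : NS.Normal := by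
      refine ⟨?_⟩
      rintro n ⟨hn, h1⟩ x
      refine ⟨conj_mem_ker α x hn, fun j hj => ?_⟩
      obtain ⟨i, rfl⟩ := (π x).surjective j
      rw [hS] at hj
      exact (pX_iff α e hI hN x i n hn).2 (h1 i hj)
    let r : X →* X ⧸ NS := QuotientGroup.mk' NS
    have hr : Function.Surjective r := QuotientGroup.mk'_surjective NS
    have hrk : ∀ x, r x = 1 ↔ ∃ h : x ∈ α.ker, ∀ i, i ∉ S → e ⟨x, h⟩ i = 1 := by
      intro x
      rw [← hNS]
      exact QuotientGroup.eq_one_iff x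
    let δ : X ⧸ NS →* (L ≃ₐ[K] L) := QuotientGroup.lift NS α (fun x hx => hx.1)
    have hδ : ∀ x, δ (r x) = α x := fun x => rfl
    have hδs : Function.Surjective δ := fun τ => by
      obtain ⟨x, hx⟩ := hα τ
      exact ⟨r x, hx⟩
    -- the quotient
    have hlt : Nat.card (Sᶜ : Set ι) < N := by
      rw [← hcard]
      exact Finite.card_subtype_lt (p := fun i => i ∈ (Sᶜ : Set ι)) (x := i₀) (fun h => h hi₀)
    obtain ⟨E, hE⟩ := quot_equiv' α e r hr δ hδ S hrk
    have hSc : ∀ x i, π x i ∈ Sᶜ ↔ i ∈ Sᶜ := fun x i => not_congr (hS x i)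
    have hδmem : ∀ x, x ∈ α.ker → r x ∈ δ.ker := fun x hx => by
      rw [MonoidHom.mem_ker, hδ]
      exact hx
    have hIc : ∀ i : (Sᶜ : Set ι), Indec (Wr (G i) (n i)) := fun i => hI i
    have hNc : ∀ i : (Sᶜ : Set ι), Nontrivial (Wr (G i) (n i)) := fun i => hN i
    have hπδ : ∀ x, pX δ E hIc hNc (r x) = (π x).subtypePerm (hSc x) := by
      intro x
      refine pX_unique δ E hIc hNc (r x) _ ?_
      intro i n' hn' h
      obtain ⟨m, rfl⟩ := hr n'
      have hmα : m ∈ α.ker := by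
        rw [MonoidHom.mem_ker, hδ] at hn'
        exact hn'
      rw [hE m hmα] at h
      have h1 := (pX_iff α e hI hN x i m hmα).2 h
      have h2 := hE (x * m * x⁻¹) (conj_mem_ker α x hmα) (hδmem _ (conj_mem_ker α x hmα))
        ((π x).subtypePerm (hSc x) i)
      have h3 : (⟨r x * r m * (r x)⁻¹, conj_mem_ker δ (r x) hn'⟩ : δ.ker) =
          ⟨r (x * m * x⁻¹), hδmem _ (conj_mem_ker α x hmα)⟩ := Subtype.ext (by simp only [map_mul, map_inv])
      rw [h3, h2]
      exact h1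
    have hTyδ : ∀ i : (Sᶜ : Set ι), TypeHom (G := fun i : (Sᶜ : Set ι) => G i)
        (n := fun i : (Sᶜ : Set ι) => n i) δ E hIc hNc (fun i => p i) i := by
      intro i
      obtain ⟨φ, hφ1, hφ2⟩ := hTy i
      have hmemX : ∀ x, r x ∈ Xi (G := fun i : (Sᶜ : Set ι) => G i)
          (n := fun i : (Sᶜ : Set ι) => n i) δ E hIc hNc i ↔ x ∈ Xi α e hI hN i := by
        intro x
        rw [mem_Xi, mem_Xi, hπδ]
        constructor
        · intro h
          exact congrArg Subtype.val h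
        · intro h
          exact Subtype.ext h
      let r' : Xi α e hI hN i →* Xi (G := fun i : (Sᶜ : Set ι) => G i)
          (n := fun i : (Sᶜ : Set ι) => n i) δ E hIc hNc i :=
        (r.comp (Xi α e hI hN i).subtype).codRestrict _ (fun x => (hmemX x).2 x.2)
      have hr' : Function.Surjective r' := by
        rintro ⟨x', hx'⟩
        obtain ⟨x, rfl⟩ := hr x'
        exact ⟨⟨x, (hmemX x).1 hx'⟩, rfl⟩
      have hker' : r'.ker ≤ φ.ker := by
        intro x hx
        have h1 : r (x : X) = 1 := congrArg Subtype.val hx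
        obtain ⟨h2, -⟩ := (hrk x).1 h1
        exact hφ1 x h2
      refine ⟨r'.liftOfSurjective hr' ⟨φ, hker'⟩, ?_, ?_⟩
      · intro x' hx'
        obtain ⟨x, rfl⟩ := hr' x'
        have h1 := MonoidHom.liftOfRightInverse_comp_apply r' _
          (Function.rightInverse_surjInv hr') ⟨φ, hker'⟩ x
        refine h1.trans (hφ1 x ?_)
        have h2 : δ (r (x : X)) = 1 := hx'
        rw [hδ] at h2
        exact h2
      · intro x'
        obtain ⟨x, rfl⟩ := hr' x'
        obtain ⟨w, hw⟩ := hφ2 x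
        refine ⟨w, fun g m' hm' h => ?_⟩
        obtain ⟨m, rfl⟩ := hr m'
        have hmα : m ∈ α.ker := by
          rw [MonoidHom.mem_ker, hδ] at hm'
          exact hm'
        rw [hE m hmα] at h
        have h1 := hw g m hmα h
        have h2 := hE (x * m * (x : X)⁻¹) (conj_mem_ker α x hmα)
          (hδmem _ (conj_mem_ker α x hmα)) i
        have h3 : (⟨(r' x : X ⧸ NS) * r m * (r' x : X ⧸ NS)⁻¹,
            conj_mem_ker δ (r' x : X ⧸ NS) hm'⟩ : δ.ker) =
            ⟨r (x * m * (x : X)⁻¹), hδmem _ (conj_mem_ker α x hmα)⟩ :=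
          Subtype.ext (by simp only [map_mul, map_inv]; rfl)
        have h4 := MonoidHom.liftOfRightInverse_comp_apply r' _
          (Function.rightInverse_surjInv hr') ⟨φ, hker'⟩ x
        rw [h3, h2, h1]
        congr 3
        exact congrArg (fun f : MulAut (G i) => f g) h4.symm
    have hreg : RegSol K L (X ⧸ NS) δ := ih _ hlt (Sᶜ : Set ι) (fun i => G i) (fun i => n i)
      hIc hNc (fun i => hZ i) (fun i => hn i) (fun i => p i) rfl K L (X ⧸ NS) δ hδs E hTyδ
    obtain ⟨F', i1, i2, i3, i4, i5, i6, i7, i8, γ', hγ1, hγ2⟩ := hreg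
    let β : X →* (F' ≃ₐ[RatFunc K] F') := γ'.symm.toMonoidHom.comp r
    have hβ : ∀ x, β x = 1 ↔ ∃ h : x ∈ α.ker, ∀ i, i ∉ S → e ⟨x, h⟩ i = 1 := by
      intro x
      rw [← hrk]
      change γ'.symm (r x) = 1 ↔ r x = 1
      rw [map_eq_one_iff _ γ'.symm.injective]
    have hβs : Function.Surjective β := γ'.symm.surjective.comp hr
    obtain ⟨eβ, heβ⟩ := sub_equiv α e β S hβ
    have hIS : ∀ i : S, Indec (Wr (G i) (n i)) := fun i => hI i
    have hNtS : ∀ i : S, Nontrivial (Wr (G i) (n i)) := fun i => hN i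
    have hπβ : ∀ x, pX β eβ hIS hNtS x = (π x).subtypePerm (hS x) := by
      intro x
      refine pX_unique β eβ hIS hNtS x _ ?_
      intro i n hn h
      have hnα : n ∈ α.ker := ((hβ n).1 hn).1
      rw [heβ n hn hnα] at h
      rw [heβ _ _ (conj_mem_ker α x hnα)]
      exact (pX_iff α e hI hN x i n hnα).2 h
    have hinf : Infinite (RatFunc K) := Infinite.of_injective _ (algebraMap K (RatFunc K)).injective
    have hTyβ : TypeHom (G := fun i : S => G i) (n := fun i : S => n i) β eβ hIS hNtS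
        (fun i => p i) ⟨i₀, hi₀⟩ := by
      obtain ⟨φ, hφ1, hφ2⟩ := hTy i₀
      have hmemX : ∀ x, x ∈ Xi (G := fun i : S => G i) (n := fun i : S => n i) β eβ hIS hNtS
          ⟨i₀, hi₀⟩ → x ∈ Xi α e hI hN i₀ := by
        intro x h
        rw [mem_Xi, hπβ] at h
        exact congrArg Subtype.val h
      refine ⟨φ.comp (Subgroup.inclusion hmemX), ?_, ?_⟩
      · intro x hx
        exact hφ1 _ ((hβ x).1 hx).1
      · intro x
        obtain ⟨w, hw⟩ := hφ2 ⟨x, hmemX x x.2⟩
        refine ⟨w, fun g m hm h => ?_⟩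
        have hmα : m ∈ α.ker := ((hβ m).1 hm).1
        rw [heβ m hm hmα] at h
        rw [heβ _ _ (conj_mem_ker α x hmα)]
        exact hw g m hmα h
    have hreg2 : RegSol (RatFunc K) F' X β := by
      refine one_orbit' (G := fun i : S => G i) (n := fun i : S => n i) (RatFunc K) F' β hβs eβ
        hIS hNtS ⟨i₀, hi₀⟩ (inferInstanceAs (Finite (G i₀))) (inferInstanceAs (Nontrivial (G i₀)))
        (hZ i₀) (hn i₀) (fun i => p i) hTyβ ?_
      rintro ⟨i, x, hx⟩
      refine ⟨x, ?_⟩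
      rw [hπβ]
      exact Subtype.ext hx
    exact collapse K L α δ r hδ F' γ' hγ1 hγ2 hreg2

end Pool.Agent.N600.ZQ
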