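import Mathlib
import Pool.Agent.H84.L.S8_H391R2_T4_Gp
import Pool.Agent.H84.L.S8_H391R2_T4_Nod
import Pool.Agent.H84.L.S8_H391R2_T4_Red
import Pool.Agent.H84.L.S8_H391R2_T4_Sem
import Pool.Agent.H84.L.S8_TH15_IGP_TwB
import Pool.Agent.H84.L.S8_TH15_IGP_TwD
import Pool.Agent.H84.L.S8_TH59_WX_PA
import Pool.Agent.H84.L.S8_TH59_WX_PC
import Pool.Agent.H84.L.S8_TH59_WX_PD
import Pool.Agent.H84.L.S8_TH59_WX_PE
import Pool.Agent.H84.L.S8_TH59_WX_UF
import Pool.Agent.H84.L.S8_W200_IG_Fam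
import Pool.Agent.H84.L.S8_W200_IJ_BC
import Pool.Agent.H84.L.S8_W200_IJ_SA

namespace Pool.Agent.H391R2.T4
end Pool.Agent.H391R2.T4
namespace Pool.Agent.TH15.IGP
end Pool.Agent.TH15.IGP


/-!
# Embedding problems whose kernel is a direct product of indecomposable groups
-/

set_option autoImplicit false

namespace Pool.Agent.TH59.WX

open Pool.Agent.H391R2.T4 (RegSol exists_equiv_of_ker)
open Pool.Agent.TH15.IGP (fin_of_inf)

set_option linter.unusedSectionVars false

section sub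

variable {X Γ : Type} [Group X] [Group Γ] (α : X →* Γ) {ι : Type} [Finite ι] [DecidableEq ι]
  {T : ι → Type} [∀ i, Group (T i)] (e : α.ker ≃* ∀ i, T i)

theorem sub_equiv {Γ' : Type} [Group Γ'] (β : X →* Γ') (S : Set ι)
    (hβ : ∀ x, β x = 1 ↔ ∃ h : x ∈ α.ker, ∀ i, i ∉ S → e ⟨x, h⟩ i = 1) :
    ∃ eβ : β.ker ≃* (∀ i : S, T i), ∀ (n : X) (h1 : n ∈ β.ker) (h2 : n ∈ α.ker) (i : S),
      eβ ⟨n, h1⟩ i = e ⟨n, h2⟩ i := by
  classical
  have hmem : ∀ n : β.ker, (n : X) ∈ α.ker := fun n => ((hβ n).1 n.2).1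
  let v : β.ker →* (∀ i : S, T i) := MonoidHom.mk' (fun n i => e ⟨n, hmem n⟩ i) (fun a b => by
    funext i
    have h1 : (⟨((a * b : β.ker) : X), hmem (a * b)⟩ : α.ker) = ⟨a, hmem a⟩ * ⟨b, hmem b⟩ := rfl
    rw [h1, map_mul]
    rfl)
  have hv : Function.Bijective v := by
    constructor
    · rw [injective_iff_map_eq_one]
      intro n hn
      obtain ⟨h1, h2⟩ := (hβ n).1 n.2
      have h3 : e ⟨n, h1⟩ = 1 := by
        funext i
        by_cases hi : i ∈ S
        · exact congrFun hn ⟨i, hi⟩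
        · exact h2 i hi
      have h4 : (⟨n, h1⟩ : α.ker) = 1 := by
        apply e.injective
        rw [h3, map_one]
      have h5 : (n : X) = 1 := congrArg Subtype.val h4
      exact Subtype.ext h5
    · intro y
      let z : ∀ i, T i := fun i => if h : i ∈ S then y ⟨i, h⟩ else 1
      have hz1 : ∀ i (h : i ∈ S), z i = y ⟨i, h⟩ := fun i h => dif_pos h
      have hz2 : ∀ i, i ∉ S → z i = 1 := fun i h => dif_neg h
      have hk : ((e.symm z : α.ker) : X) ∈ β.ker := by
        rw [MonoidHom.mem_ker, hβ]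
        refine ⟨(e.symm z).2, fun i hi => ?_⟩
        have h1 : (⟨((e.symm z : α.ker) : X), (e.symm z).2⟩ : α.ker) = e.symm z := rfl
        rw [h1, MulEquiv.apply_symm_apply, hz2 i hi]
      refine ⟨⟨_, hk⟩, ?_⟩
      funext i
      change e ⟨((e.symm z : α.ker) : X), _⟩ i = y i
      have h1 : (⟨((e.symm z : α.ker) : X), (e.symm z).2⟩ : α.ker) = e.symm z := rfl
      rw [h1, MulEquiv.apply_symm_apply, hz1 i i.2]
  exact ⟨MulEquiv.ofBijective v hv, fun n h1 h2 i => rfl⟩

theorem quot_equiv {X' : Type} [Group X'] (r : X →* X') (hr : Function.Surjective r)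
    (δ : X' →* Γ) (hδ : ∀ x, δ (r x) = α x) (S : Set ι)
    (hrk : ∀ x, r x = 1 ↔ ∃ h : x ∈ α.ker, ∀ i, i ∉ S → e ⟨x, h⟩ i = 1) :
    Nonempty (δ.ker ≃* (∀ i : (Sᶜ : Set ι), T i)) := by
  classical
  let f : α.ker →* δ.ker := (r.comp α.ker.subtype).codRestrict δ.ker (fun n => by
    rw [MonoidHom.mem_ker]
    change δ (r n) = 1
    rw [hδ]
    exact n.2)
  have hf : Function.Surjective f := by
    rintro ⟨x', hx'⟩
    obtain ⟨x, rfl⟩ := hr x'
    rw [MonoidHom.mem_ker, hδ] at hx'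
    exact ⟨⟨x, hx'⟩, rfl⟩
  let g : α.ker →* (∀ i : (Sᶜ : Set ι), T i) := MonoidHom.mk' (fun n i => e n i) (fun a b => by
    funext i
    rw [map_mul]
    rfl)
  have hg : Function.Surjective g := by
    intro y
    let z : ∀ i, T i := fun i => if h : i ∈ Sᶜ then y ⟨i, h⟩ else 1
    have hz1 : ∀ i (h : i ∈ Sᶜ), z i = y ⟨i, h⟩ := fun i h => dif_pos h
    refine ⟨e.symm z, ?_⟩
    funext i
    change e (e.symm z) i = y i
    rw [MulEquiv.apply_symm_apply, hz1 i i.2]
  have hker : f.ker = g.ker := by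
    ext n
    rw [MonoidHom.mem_ker, MonoidHom.mem_ker]
    constructor
    · intro h
      have h1 : r n = 1 := congrArg Subtype.val h
      obtain ⟨h2, h3⟩ := (hrk n).1 h1
      funext i
      exact h3 i i.2
    · intro h
      apply Subtype.ext
      change r n = 1
      rw [hrk]
      exact ⟨n.2, fun i hi => congrFun h ⟨i, hi⟩⟩
  obtain ⟨E, -⟩ := exists_equiv_of_ker f g hf hg hker
  exact ⟨E⟩

end sub

theorem prod_good_aux (N : ℕ) : ∀ (ι : Type) [Finite ι] (T : ι → Type) [∀ i, Group (T i)]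
    [∀ i, Finite (T i)], (∀ i, Indec (T i)) → (∀ i, Nontrivial (T i)) → (∀ i, GoodKer (T i)) →
    Nat.card ι = N → GoodKer (∀ i, T i) := by
  classical
  induction N using Nat.strong_induction_on with
  | _ N ih =>
  intro ι _ T _ _ hI hN hG hcard K L X _ _ _ _ _ _ _ α hα ⟨e⟩
  have hfinX : Finite X := finite_of_kernel α e.symm
  rcases isEmpty_or_nonempty ι with hem | ⟨⟨i₀⟩⟩
  · -- trivial kernel
    have hinj : Function.Injective α := by
      rw [injective_iff_map_eq_one]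
      intro x hx
      have h1 : (⟨x, hx⟩ : α.ker) = 1 := e.injective (Subsingleton.elim _ _)
      exact congrArg Subtype.val h1
    exact Pool.Agent.W200.IJ.taskA_empty K L X α hinj (fun x hx => by
      rw [IsGalois.mem_range_algebraMap_iff_fixed]
      intro σ
      obtain ⟨g, rfl⟩ := hα σ
      exact hx g)
  · let π := pX α e hI hN
    let S : Set ι := {i | ∃ x, π x i₀ = i}
    have hi₀ : i₀ ∈ S := ⟨1, by rw [map_one]; rfl⟩
    have hS : ∀ x i, π x i ∈ S ↔ i ∈ S := by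
      intro x i
      constructor
      · rintro ⟨y, hy⟩
        refine ⟨x⁻¹ * y, ?_⟩
        rw [map_mul, Equiv.Perm.mul_apply, hy, map_inv]
        exact (π x).symm_apply_apply i
      · rintro ⟨y, rfl⟩
        exact ⟨x * y, by rw [map_mul]; rfl⟩
    let NS : Subgroup X :=
      { carrier := {x | ∃ h : x ∈ α.ker, ∀ i, i ∉ S → e ⟨x, h⟩ i = 1}
        one_mem' := ⟨one_mem _, fun i _ => by
          have h1 : (⟨(1 : X), one_mem _⟩ : α.ker) = 1 := rfl
          rw [h1, map_one]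
          rfl⟩
        mul_mem' := by
          rintro x y ⟨hx, h1⟩ ⟨hy, h2⟩
          refine ⟨mul_mem hx hy, fun i hi => ?_⟩
          have h3 : (⟨x * y, mul_mem hx hy⟩ : α.ker) = ⟨x, hx⟩ * ⟨y, hy⟩ := rfl
          rw [h3, map_mul]
          change e ⟨x, hx⟩ i * e ⟨y, hy⟩ i = 1
          rw [h1 i hi, h2 i hi, mul_one]
        inv_mem' := by
          rintro x ⟨hx, h1⟩
          refine ⟨inv_mem hx, fun i hi => ?_⟩
          have h3 : (⟨x⁻¹, inv_mem hx⟩ : α.ker) = ⟨x, hx⟩⁻¹ := rfl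
          rw [h3, map_inv]
          change (e ⟨x, hx⟩ i)⁻¹ = 1
          rw [h1 i hi, inv_one] }
    have hNS : ∀ x, x ∈ NS ↔ ∃ h : x ∈ α.ker, ∀ i, i ∉ S → e ⟨x, h⟩ i = 1 := fun x => Iff.rfl
    have hnorm : NS.Normal := by
      refine ⟨?_⟩
      rintro n ⟨hn, h1⟩ x
      refine ⟨conj_mem_ker α x hn, fun j hj => ?_⟩
      obtain ⟨i, rfl⟩ := (π x).surjective j
      rw [hS] at hj
      exact (pX_iff α e hI hN x i n hn).2 (h1 i hj)
    let r : X →* X ⧸ NS := QuotientGroup.mk' NS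
    have hr : Function.Surjective r := QuotientGroup.mk'_surjective NS
    have hrk : ∀ x, r x = 1 ↔ ∃ h : x ∈ α.ker, ∀ i, i ∉ S → e ⟨x, h⟩ i = 1 := by
      intro x
      rw [← hNS]
      exact QuotientGroup.eq_one_iff x
    let δ : X ⧸ NS →* (L ≃ₐ[K] L) := QuotientGroup.lift NS α (fun x hx => hx.1)
    have hδ : ∀ x, δ (r x) = α x := fun x => rfl
    have hδs : Function.Surjective δ := fun τ => by
      obtain ⟨x, hx⟩ := hα τ
      exact ⟨r x, hx⟩
    -- the quotient
    have hlt : Nat.card (Sᶜ : Set ι) < N := by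
      rw [← hcard]
      exact Finite.card_subtype_lt (p := fun i => i ∈ (Sᶜ : Set ι)) (x := i₀) (fun h => h hi₀)
    have hreg : RegSol K L (X ⧸ NS) δ := ih _ hlt (Sᶜ : Set ι) (fun i => T i)
      (fun i => hI i) (fun i => hN i) (fun i => hG i) rfl K L (X ⧸ NS) δ hδs
      (quot_equiv α e r hr δ hδ S hrk)
    obtain ⟨F', i1, i2, i3, i4, i5, i6, i7, i8, γ', hγ1, hγ2⟩ := hreg
    let β : X →* (F' ≃ₐ[RatFunc K] F') := γ'.symm.toMonoidHom.comp r
    have hβ : ∀ x, β x = 1 ↔ ∃ h : x ∈ α.ker, ∀ i, i ∉ S → e ⟨x, h⟩ i = 1 := by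
      intro x
      rw [← hrk]
      change γ'.symm (r x) = 1 ↔ r x = 1
      rw [map_eq_one_iff _ γ'.symm.injective]
    have hβs : Function.Surjective β := γ'.symm.surjective.comp hr
    obtain ⟨eβ, heβ⟩ := sub_equiv α e β S hβ
    have hIS : ∀ i : S, Indec (T i) := fun i => hI i
    have hNtS : ∀ i : S, Nontrivial (T i) := fun i => hN i
    have hπβ : ∀ x, pX β eβ hIS hNtS x = (π x).subtypePerm (hS x) := by
      intro x
      refine pX_unique β eβ hIS hNtS x _ ?_
      intro i n hn h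
      have hnα : n ∈ α.ker := ((hβ n).1 hn).1
      rw [heβ n hn hnα] at h
      rw [heβ _ _ (conj_mem_ker α x hnα)]
      exact (pX_iff α e hI hN x i n hnα).2 h
    have hinf : Infinite (RatFunc K) := Infinite.of_injective _ (algebraMap K (RatFunc K)).injective
    have hreg2 : RegSol (RatFunc K) F' X β := by
      refine one_orbit (RatFunc K) F' β hβs eβ hIS hNtS ⟨i₀, hi₀⟩ (hG i₀) ?_
      rintro ⟨i, x, hx⟩
      refine ⟨x, ?_⟩
      rw [hπβ]
      exact Subtype.ext hx
    exact collapse K L α δ r hδ F' γ' hγ1 hγ2 hreg2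

theorem prod_good (ι : Type) [Finite ι] (T : ι → Type) [∀ i, Group (T i)]
    [∀ i, Finite (T i)] (hI : ∀ i, Indec (T i)) (hN : ∀ i, Nontrivial (T i))
    (hG : ∀ i, GoodKer (T i)) : GoodKer (∀ i, T i) :=
  prod_good_aux _ ι T hI hN hG rfl

/- All fields. -/
theorem good_all {T : Type} [Group T] [Finite T] (hT : GoodKer T)
    (K L X : Type) [Field K] [Field L] [Algebra K L] [FiniteDimensional K L]
    [IsGalois K L] [Group X] (α : X →* (L ≃ₐ[K] L)) (hα : Function.Surjective α)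
    (hι : Nonempty (α.ker ≃* T)) : RegSol K L X α := by
  have hfinX : Finite X := finite_of_kernel α hι.some.symm
  rcases finite_or_infinite K with h | h
  · refine fin_of_inf K L X α ?_
    intro M _ _ _ _ γM
    have hinf : Infinite (RatFunc K) := Infinite.of_injective _
      (IsFractionRing.injective (Polynomial K) (RatFunc K))
    refine hT (RatFunc K) M X _ (γM.symm.surjective.comp hα) ?_
    have hker : (γM.symm.toMonoidHom.comp α).ker = α.ker := by
      ext x
      rw [MonoidHom.mem_ker, MonoidHom.mem_ker]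
      change γM.symm (α x) = 1 ↔ α x = 1
      rw [map_eq_one_iff _ γM.symm.injective]
    exact ⟨(MulEquiv.subgroupCongr hker).trans hι.some⟩
  · exact hT K L X α hα hι

end Pool.Agent.TH59.WX
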