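import Mathlib
import Pool.Agent.H84.L.A3_N600_ZQ_T1
import Pool.Agent.H84.L.S8_H391R2_T4_Gp
import Pool.Agent.H84.L.S8_H391R2_T4_Nod
import Pool.Agent.H84.L.S8_H391R2_T4_Red
import Pool.Agent.H84.L.S8_H391R2_T4_Sem
import Pool.Agent.H84.L.S8_H391R2_WrGrp
import Pool.Agent.H84.L.S8_TH15_IGP_TwB
import Pool.Agent.H84.L.S8_TH59_WX_GT1
import Pool.Agent.H84.L.S8_TH59_WX_GT2
import Pool.Agent.H84.L.S8_TH59_WX_PA
import Pool.Agent.H84.L.S8_TH59_WX_PB
import Pool.Agent.H84.L.S8_TH59_WX_PC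
import Pool.Agent.H84.L.S8_TH59_WX_PF
import Pool.Agent.H84.L.S8_W200_IJ_SA

namespace Pool.Agent.H391R2
end Pool.Agent.H391R2
namespace Pool.Agent.H391R2.T4
end Pool.Agent.H391R2.T4
namespace Pool.Agent.TH59.WX
end Pool.Agent.TH59.WX


/-!
# The type group of an extension
-/

set_option autoImplicit false

namespace Pool.Agent.N600.ZQ

open Pool.Agent.H391R2 (Wr wr_mul_left wr_mul_right wr_inv_left)
open Pool.Agent.H391R2.T4 (RegSol exists_equiv_of_ker finite_wr)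
open Pool.Agent.TH59.WX hiding quot_equiv

set_option linter.unusedSectionVars false

section ex

variable {J : Type} {G₀ : J → Type} [∀ j, Group (G₀ j)] {n₀ : J → ℕ} (p₀ : ∀ j, Fin (n₀ j))

/- Isomorphisms between equal wreath products. -/
theorem iso_desc (j j' : J) (h : j = j') [Finite (G₀ j)] [Nontrivial (G₀ j)]
    (hn : 2 * (Nat.card (G₀ j) + 2) ≤ n₀ j)
    (hZ : ∀ z : G₀ j, (∀ g : G₀ j, z * g = g * z) → z = 1)
    (f : Wr (G₀ j) (n₀ j) ≃* Wr (G₀ j') (n₀ j')) :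
    ∃ (φ : G₀ j ≃* G₀ j') (w : Wr (G₀ j') (n₀ j')),
      ∀ g, f (sgl (p₀ j) g) = w * sgl (p₀ j') (φ g) * w⁻¹ := by
  subst h
  obtain ⟨d, hd⟩ := exists_rel hn hZ f
  let w : Wr (G₀ j) (n₀ j) := SemidirectProduct.inr (Equiv.swap (p₀ j) (d.right (p₀ j)))
  refine ⟨d.left (d.right (p₀ j)), w, fun g => ?_⟩
  have h1 := rel_conj w (p₀ j) (d.left (d.right (p₀ j)) g)
  have h2 : w.right (p₀ j) = d.right (p₀ j) := Equiv.swap_apply_left _ _
  have h3 : ∀ k, w.left k = 1 := fun k => rfl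
  change f (sgl (p₀ j) g) = _
  rw [hd (p₀ j) g]
  refine Eq.trans ?_ h1.symm
  change _ = sgl (w.right (p₀ j)) ((MulAut.conj (w.left (w.right (p₀ j))))
    (d.left (d.right (p₀ j)) g))
  rw [h2, h3, map_one, MulAut.one_apply]

variable [∀ j, Finite (G₀ j)] [∀ j, Nontrivial (G₀ j)]
  (hZ : ∀ j, ∀ z : G₀ j, (∀ g : G₀ j, z * g = g * z) → z = 1)
  (hn : ∀ j, 2 * (Nat.card (G₀ j) + 2) ≤ n₀ j)
  (hstd : ∀ j j', Nonempty (Wr (G₀ j) (n₀ j) ≃* Wr (G₀ j') (n₀ j')) → j = j')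
  {ι : Type} [Finite ι] [DecidableEq ι] (rep : ι → J)

include hZ hn hstd in
theorem exists_desc (A : MulAut (∀ i, Wr (G₀ (rep i)) (n₀ (rep i)))) :
    ∃ (a : MulAut (∀ i, G₀ (rep i))) (w : ∀ i, Wr (G₀ (rep i)) (n₀ (rep i))),
      ∀ g : ∀ i, G₀ (rep i), A (fun i => sgl (p₀ (rep i)) (g i)) =
        w * (fun i => sgl (p₀ (rep i)) (a g i)) * w⁻¹ := by
  have hn2 : ∀ j, 2 ≤ n₀ j := fun j => by
    have := hn j
    omega
  have hI : ∀ i, Indec (Wr (G₀ (rep i)) (n₀ (rep i))) := fun i => wr_indec (hZ _) (hn2 _)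
  have hN : ∀ i, Nontrivial (Wr (G₀ (rep i)) (n₀ (rep i))) := by
    intro i
    obtain ⟨g, hg⟩ := exists_ne (1 : G₀ (rep i))
    exact ⟨⟨sgl (p₀ _) g, 1, fun h => hg (sgl_inj (h.trans (sgl_one _).symm))⟩⟩
  let T : ι → Type := fun i => Wr (G₀ (rep i)) (n₀ (rep i))
  let π := perm hI hN A
  have hπ : ∀ (i : ι) (x : ∀ i, T i), A x (π i) = 1 ↔ x i = 1 := fun i x => perm_iff hI hN A i x
  -- the components of the automorphism
  let Ai : ∀ i, T i →* T (π i) := fun i =>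
    MonoidHom.mk' (fun t => A (Pi.mulSingle i t) (π i)) (fun s t => by
      rw [Pi.mulSingle_mul, map_mul, Pi.mul_apply])
  have hAi : ∀ i t, Ai i t = A (Pi.mulSingle i t) (π i) := fun i t => rfl
  have hAix : ∀ (i : ι) (x : ∀ i, T i), A x (π i) = Ai i (x i) := by
    intro i x
    have h1 : ((Pi.mulSingle i (x i))⁻¹ * x : ∀ i, T i) i = 1 := by
      rw [Pi.mul_apply, Pi.inv_apply, Pi.mulSingle_eq_same, inv_mul_cancel]
    have h2 := (hπ i _).2 h1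
    rw [map_mul, map_inv, Pi.mul_apply, Pi.inv_apply, inv_mul_eq_one] at h2
    exact h2.symm
  have hbij : ∀ i, Function.Bijective (Ai i) := by
    intro i
    constructor
    · rw [injective_iff_map_eq_one]
      intro t ht
      have h1 := (hπ i (Pi.mulSingle i t)).1 ht
      rwa [Pi.mulSingle_eq_same] at h1
    · intro s
      refine ⟨(A⁻¹ (Pi.mulSingle (π i) s)) i, ?_⟩
      rw [← hAix, MulAut.apply_inv_self, Pi.mulSingle_eq_same]
  have hex : ∀ i, ∃ (φ : G₀ (rep i) ≃* G₀ (rep (π i))) (w : Wr (G₀ (rep (π i))) (n₀ (rep (π i)))),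
      ∀ g, Ai i (sgl (p₀ (rep i)) g) = w * sgl (p₀ (rep (π i))) (φ g) * w⁻¹ := by
    intro i
    have h1 : rep i = rep (π i) := hstd _ _ ⟨MulEquiv.ofBijective (Ai i) (hbij i)⟩
    exact iso_desc p₀ (rep i) (rep (π i)) h1 (hn _) (hZ _) (MulEquiv.ofBijective (Ai i) (hbij i))
  choose φ w hw using hex
  let E : (∀ i, G₀ (rep i)) ≃ (∀ i, G₀ (rep i)) := π.piCongr (fun i => (φ i).toEquiv)
  have hE : ∀ (g : ∀ i, G₀ (rep i)) (i : ι), E g (π i) = φ i (g i) := fun g i => by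
    have h1 := Equiv.piCongr_apply_apply (W := fun i => G₀ (rep i)) (Z := fun i => G₀ (rep i)) π
      (fun i => (φ i).toEquiv) g i
    exact h1
  let a : MulAut (∀ i, G₀ (rep i)) :=
    { E with
      map_mul' := fun g h => by
        funext k
        obtain ⟨i, rfl⟩ := π.surjective k
        change E (g * h) (π i) = E g (π i) * E h (π i)
        rw [hE, hE, hE, Pi.mul_apply, map_mul] }
  have ha : ∀ (g : ∀ i, G₀ (rep i)) (i : ι), a g (π i) = φ i (g i) := hE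
  let W : ∀ i, T i := (Equiv.piCongrLeft T π) w
  have hW : ∀ i, W (π i) = w i := fun i => Equiv.piCongrLeft_apply_apply T π w i
  refine ⟨a, W, fun g => ?_⟩
  funext k
  obtain ⟨i, rfl⟩ := π.surjective k
  change A _ (π i) = W (π i) * sgl (p₀ (rep (π i))) (a g (π i)) * (W (π i))⁻¹
  rw [hAix, hw, hW, ha]

end ex

section tb

variable {X Γ : Type} [Group X] [Group Γ] (α : X →* Γ) {ι : Type} [Finite ι] [DecidableEq ι]
  {G : ι → Type} [∀ i, Group (G i)] {n : ι → ℕ} (e : α.ker ≃* ∀ i, Wr (G i) (n i))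
  (p : ∀ i, Fin (n i))


theorem desc_of_ker (x : X) (hx : x ∈ α.ker) : Desc α e p x 1 := ⟨⟨x, hx⟩, fun _ => rfl⟩

theorem desc_mul {x y : X} {a b : MulAut (∀ i, G i)} (hx : Desc α e p x a)
    (hy : Desc α e p y b) : Desc α e p (x * y) (a * b) := by
  obtain ⟨w, hw⟩ := hx
  obtain ⟨v, hv⟩ := hy
  refine ⟨⟨x * v * x⁻¹, conj_mem_ker α x v.2⟩ * w, fun g => ?_⟩
  have h1 : x * y * (mu α e p g : X) * (x * y)⁻¹ =
      x * (y * (mu α e p g : X) * y⁻¹) * x⁻¹ := by group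
  have h2 : x * ((v : X) * (mu α e p (b g) : X) * (v : X)⁻¹) * x⁻¹ =
      (x * v * x⁻¹) * (x * (mu α e p (b g) : X) * x⁻¹) * (x * v * x⁻¹)⁻¹ := by group
  rw [h1, hv, h2, hw, MulAut.mul_apply]
  simp only [Subgroup.coe_mul]
  group

theorem desc_inv {x : X} {a : MulAut (∀ i, G i)} (hx : Desc α e p x a) :
    Desc α e p x⁻¹ a⁻¹ := by
  obtain ⟨w, hw⟩ := hx
  refine ⟨⟨x⁻¹ * (w⁻¹ : α.ker) * x, by
    have h1 := conj_mem_ker α x⁻¹ (w⁻¹ : α.ker).2
    rwa [inv_inv] at h1⟩, fun g => ?_⟩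
  have h1 := hw (a⁻¹ g)
  rw [MulAut.apply_inv_self] at h1
  have h2 : (mu α e p g : X) = (w : X)⁻¹ * (x * (mu α e p (a⁻¹ g) : X) * x⁻¹) * w := by
    rw [h1]
    group
  rw [h2]
  simp only [Subgroup.coe_inv]
  group

/- The type group. -/
def TB : Subgroup (MulAut (∀ i, G i) × Γ) where
  carrier := {b | ∃ x, α x = b.2 ∧ Desc α e p x b.1}
  one_mem' := ⟨1, map_one α, desc_of_ker α e p 1 (one_mem _)⟩
  mul_mem' := by
    rintro b c ⟨x, hx, h1⟩ ⟨y, hy, h2⟩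
    exact ⟨x * y, by rw [map_mul, hx, hy]; rfl, desc_mul α e p h1 h2⟩
  inv_mem' := by
    rintro b ⟨x, hx, h1⟩
    exact ⟨x⁻¹, by rw [map_inv, hx]; rfl, desc_inv α e p h1⟩


/- All elements over `α x` describe the action of `x`. -/
theorem desc_of_mem {x : X} {a : MulAut (∀ i, G i)} (h : (a, α x) ∈ TB α e p) :
    Desc α e p x a := by
  obtain ⟨y, hy, h1⟩ := h
  have hk : x * y⁻¹ ∈ α.ker := by
    rw [MonoidHom.mem_ker, map_mul, map_inv]
    change α x * (α y)⁻¹ = 1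
    rw [hy]
    exact mul_inv_cancel _
  have h2 := desc_mul α e p (desc_of_ker α e p _ hk) h1
  rwa [inv_mul_cancel_right, one_mul] at h2


end tb

end Pool.Agent.N600.ZQ
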