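import Mathlib
import Pool.Agent.H84.L.A3_N600_UK_Compl
import Pool.Agent.H84.L.A3_N600_UK_Main
import Pool.Agent.H84.L.A3_N600_ZQ_L2
import Pool.Agent.H84.L.A3_N600_ZQ_T1
import Pool.Agent.H84.L.A3_N600_ZQ_T2
import Pool.Agent.H84.L.A3_N600_ZQ_T3
import Pool.Agent.H84.L.S8_H391R2_T4_Blueprint
import Pool.Agent.H84.L.S8_H391R2_T4_Fam
import Pool.Agent.H84.L.S8_H391R2_T4_Gp
import Pool.Agent.H84.L.S8_H391R2_T4_Red
import Pool.Agent.H84.L.S8_H391R2_T4_Sem
import Pool.Agent.H84.L.S8_H391R2_WrGrp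
import Pool.Agent.H84.L.S8_H391R2_WrRes
import Pool.Agent.H84.L.S8_TH444_TW_Ab
import Pool.Agent.H84.L.S8_TH444_TW_ClsDef
import Pool.Agent.H84.L.S8_TH444_TW_RS
import Pool.Agent.H84.L.S8_TH59_WX_GT1
import Pool.Agent.H84.L.S8_TH59_WX_PC
import Pool.Agent.H84.L.S8_TH59_WX_PF

namespace Nfff32c05
end Nfff32c05
namespace Pool.Agent.H391R2
end Pool.Agent.H391R2
namespace Pool.Agent.H391R2.T4
end Pool.Agent.H391R2.T4
namespace Pool.Agent.N600.UK
end Pool.Agent.N600.UK
namespace Pool.Agent.TH444.TW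
end Pool.Agent.TH444.TW
namespace Pool.Agent.TH59.WX
end Pool.Agent.TH59.WX


/-!
# The main theorems on extensions by products of wreath products
-/

set_option autoImplicit false

namespace Pool.Agent.N600.ZQ

open Nfff32c05
open Pool.Agent.H391R2 (Wr wr_mul_left wr_mul_right wr_inv_left isRealizable_of
  isRealizable_quotient)
open Pool.Agent.H391R2.T4 (RegSol HilbField exists_equiv_of_ker finite_wr)
open Pool.Agent.TH59.WX hiding quot_equiv
open Pool.Agent.TH444.TW (RS ab_rs RegularOver restrictNormal_self)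
open Pool.Agent.N600.UK (cl_of_center triv_aut regularOver_of_regSol inn_normal)

set_option linter.unusedSectionVars false

/- The data of a standardised product. -/
theorem exists_std {I : Type} (G : I → Type) [∀ i, Group (G i)] (n : I → ℕ) (N : Type) [Group N]
    (e : N ≃* ∀ i, Wr (G i) (n i)) :
    ∃ (J : Type) (f : J → I) (rep : I → J),
      (∀ j j', Nonempty (Wr (G (f j)) (n (f j)) ≃* Wr (G (f j')) (n (f j'))) → j = j') ∧
      Nonempty (N ≃* ∀ i, Wr (G (f (rep i))) (n (f (rep i)))) := by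
  classical
  let s : Setoid I :=
    { r := fun i i' => Nonempty (Wr (G i) (n i) ≃* Wr (G i') (n i'))
      iseqv := ⟨fun i => ⟨MulEquiv.refl _⟩, fun ⟨h⟩ => ⟨h.symm⟩, fun ⟨h⟩ ⟨h'⟩ => ⟨h.trans h'⟩⟩ }
  refine ⟨Quotient s, Quotient.out, Quotient.mk s, ?_, ?_⟩
  · intro j j' h
    have h1 : Quotient.mk s (Quotient.out j) = Quotient.mk s (Quotient.out j') := Quotient.sound h
    rwa [Quotient.out_eq, Quotient.out_eq] at h1
  · have h1 : ∀ i, Nonempty (Wr (G i) (n i) ≃*
        Wr (G (Quotient.out (Quotient.mk s i))) (n (Quotient.out (Quotient.mk s i)))) := by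
      intro i
      obtain ⟨f⟩ := (Quotient.mk_out (s := s) i : Nonempty _)
      exact ⟨f.symm⟩
    exact ⟨e.trans (MulEquiv.piCongrRight fun i => (h1 i).some)⟩

section std

variable {X Γ : Type} [Group X] [Group Γ] (α : X →* Γ) (hα : Function.Surjective α)
  {I J : Type} [Finite I] [DecidableEq I] {G₀ : J → Type} [∀ j, Group (G₀ j)]
  [∀ j, Finite (G₀ j)] [∀ j, Nontrivial (G₀ j)] {n₀ : J → ℕ} (p₀ : ∀ j, Fin (n₀ j))
  (hZ : ∀ j, ∀ z : G₀ j, (∀ g : G₀ j, z * g = g * z) → z = 1)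
  (hn : ∀ j, ((3 * Nat.card (G₀ j) + 2).factorial) ^ 3 ≤ n₀ j)
  (hstd : ∀ j j', Nonempty (Wr (G₀ j) (n₀ j) ≃* Wr (G₀ j') (n₀ j')) → j = j')
  (rep : I → J) (e : α.ker ≃* ∀ i, Wr (G₀ (rep i)) (n₀ (rep i)))

include hZ hn hstd in
theorem desc_exists (x : X) : ∃ a, Desc (G := fun i => G₀ (rep i)) (n := fun i => n₀ (rep i)) α e
    (fun i => p₀ (rep i)) x a := by
  have hn2 : ∀ j, 2 * (Nat.card (G₀ j) + 2) ≤ n₀ j := fun j =>
    (Pool.Agent.N600.UK.bound_ge _).trans (hn j)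
  obtain ⟨a, w, h⟩ := exists_desc p₀ hZ hn2 hstd rep (cj α e x)
  refine ⟨a, e.symm w, fun g => ?_⟩
  have h1 : (⟨x * (mu (G := fun i => G₀ (rep i)) (n := fun i => n₀ (rep i)) α e
      (fun i => p₀ (rep i)) g : X) * x⁻¹, conj_mem_ker α x (mu (G := fun i => G₀ (rep i))
      (n := fun i => n₀ (rep i)) α e (fun i => p₀ (rep i)) g).2⟩ : α.ker) =
      e.symm w * mu (G := fun i => G₀ (rep i)) (n := fun i => n₀ (rep i)) α e
      (fun i => p₀ (rep i)) (a g) * (e.symm w)⁻¹ := by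
    apply e.injective
    rw [← cj_apply]
    have h2 : ∀ g, e (mu (G := fun i => G₀ (rep i)) (n := fun i => n₀ (rep i)) α e
      (fun i => p₀ (rep i)) g) = fun i => sgl (p₀ (rep i)) (g i) := by
      intro g
      funext i
      exact e_mu (G := fun i => G₀ (rep i)) (n := fun i => n₀ (rep i)) α e
        (fun i => p₀ (rep i)) g i
    have h3 : (⟨(mu (G := fun i => G₀ (rep i)) (n := fun i => n₀ (rep i)) α e
      (fun i => p₀ (rep i)) g : X), (mu (G := fun i => G₀ (rep i))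
      (n := fun i => n₀ (rep i)) α e (fun i => p₀ (rep i)) g).2⟩ : α.ker) =
      mu (G := fun i => G₀ (rep i)) (n := fun i => n₀ (rep i)) α e (fun i => p₀ (rep i)) g := rfl
    rw [h3, h2, h, map_mul, map_mul, map_inv, MulEquiv.apply_symm_apply, h2]
    exact (mu (G := fun i => G₀ (rep i)) (n := fun i => n₀ (rep i)) α e
      (fun i => p₀ (rep i)) g).2
  exact congrArg Subtype.val h1

/- The projection of the type group. -/
def bTB : TB (G := fun i => G₀ (rep i)) (n := fun i => n₀ (rep i)) α e (fun i => p₀ (rep i)) →* Γ :=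
  (MonoidHom.snd _ _).comp (Subgroup.subtype _)

include hα hZ hn hstd in
theorem bTB_surj : Function.Surjective (bTB α p₀ rep e) := by
  intro γ
  obtain ⟨x, rfl⟩ := hα γ
  obtain ⟨a, ha⟩ := desc_exists α p₀ hZ hn hstd rep e x
  exact ⟨⟨(a, α x), x, rfl, ha⟩, rfl⟩


include hα p₀ hZ hn hstd rep e in
/- **Z-groups as quotients.** -/
theorem rs_z [Finite X] [Finite Γ] [IsZGroup Γ] : RS (1 : X →* Unit) := by
  have hfA : Finite (MulAut (∀ i, G₀ (rep i))) :=
    Finite.of_injective (fun f : MulAut (∀ i, G₀ (rep i)) => (f : (∀ i, G₀ (rep i)) → _))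
      DFunLike.coe_injective
  have hfB : Finite (TB (G := fun i => G₀ (rep i)) (n := fun i => n₀ (rep i)) α e
    (fun i => p₀ (rep i))) := inferInstance
  obtain ⟨H, hH, hHQ⟩ := zlift Γ _ (bTB α p₀ rep e) (bTB_surj α hα p₀ hZ hn hstd rep e)
  have h1 := rs_pull (G := fun i => G₀ (rep i)) (n := fun i => n₀ (rep i)) α e
    (fun i => p₀ (rep i)) hα (fun i => hZ _) (fun i => hn _) H.subtype
  have hfin : Finite (FP α ((MonoidHom.snd _ _).comp ((TB (G := fun i => G₀ (rep i))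
    (n := fun i => n₀ (rep i)) α e (fun i => p₀ (rep i))).subtype.comp H.subtype))) := by
    have : Finite H := inferInstance
    exact inferInstance
  have h2 := RS.comp (rs_zgroup H) h1
  refine RS.quot (fpl α _) (fpl_surj α _ ?_) (fun y => rfl) h2
  intro q
  obtain ⟨h, hh, hhq⟩ := hHQ q
  exact ⟨⟨h, hh⟩, hhq⟩


end std

end Pool.Agent.N600.ZQ
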