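import Mathlib
import Pool.Agent.H84.L.S8_H391R2_T4_Blueprint
import Pool.Agent.H84.L.S8_H793R2_HilbFin
import Pool.Agent.H84.L.S8_H880R2_Hilb_E1



set_option autoImplicit false

namespace Pool.Agent.H391R2.T4

set_option linter.unusedSectionVars false

theorem hilb_rat : HilbField ℚ := Pool.Agent.H880R2.Hilb.taskE1


theorem hilb_numberField (K : Type) [Field K] [NumberField K] : HilbField K :=
  Pool.Agent.H793R2.HilbFin.taskE2 ℚ K hilb_rat


end Pool.Agent.H391R2.T4
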