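import Mathlib
import Pool.Agent.H84.L.A3_N600_NS_Pa
import Pool.Agent.H84.L.A3_N600_NS_SemA
import Pool.Agent.H84.L.A3_N600_UK_Compl
import Pool.Agent.H84.L.A3_N600_UK_GoodWr
import Pool.Agent.H84.L.A3_N600_UK_Main
import Pool.Agent.H84.L.A3_N600_ZQ_T2
import Pool.Agent.H84.L.A3_N600_ZQ_T3
import Pool.Agent.H84.L.A3_N600_ZQ_T4
import Pool.Agent.H84.L.A3_N600_ZQ_T5
import Pool.Agent.H84.L.S8_H391R2_T4_Abl
import Pool.Agent.H84.L.S8_H391R2_T4_Blueprint
import Pool.Agent.H84.L.S8_H391R2_T4_Gp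
import Pool.Agent.H84.L.S8_H391R2_T4_Nod
import Pool.Agent.H84.L.S8_H391R2_T4_Red
import Pool.Agent.H84.L.S8_H391R2_T4_Sem
import Pool.Agent.H84.L.S8_H391R2_WrGrp
import Pool.Agent.H84.L.S8_H391R2_WrRes
import Pool.Agent.H84.L.S8_H793R2_HilbFin
import Pool.Agent.H84.L.S8_TH444_TW_Ab
import Pool.Agent.H84.L.S8_TH444_TW_Cls
import Pool.Agent.H84.L.S8_TH444_TW_ClsDef
import Pool.Agent.H84.L.S8_TH444_TW_RS
import Pool.Agent.H84.L.S8_TH444_TW_RSK
import Pool.Agent.H84.L.S8_TH59_WX_PF
import Pool.Agent.H84.L.S8_W200_IG_Fam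
import Pool.Agent.H84.L.S8_W200_IJ_SA

namespace Nfff32c05
end Nfff32c05
namespace Pool.Agent.H391R2
end Pool.Agent.H391R2
namespace Pool.Agent.H391R2.T4
end Pool.Agent.H391R2.T4
namespace Pool.Agent.N600.UK
end Pool.Agent.N600.UK
namespace Pool.Agent.TH444.TW
end Pool.Agent.TH444.TW
namespace Pool.Agent.TH59.WX
end Pool.Agent.TH59.WX


/-!
# Groups with a normal subgroup which is a product of wreath products
-/

set_option autoImplicit false

namespace Pool.Agent.N600.ZQ

open Nfff32c05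
open Pool.Agent.H391R2 (Wr wr_mul_left wr_mul_right wr_inv_left isRealizable_of
  isRealizable_quotient)
open Pool.Agent.H391R2.T4 (RegSol HilbField hilb_numberField exists_equiv_of_ker finite_wr)
open Pool.Agent.TH59.WX hiding quot_equiv
open Pool.Agent.TH444.TW (RS RSK ab_rs RegularOver restrictNormal_self)
open Pool.Agent.N600.UK (cl_of_center triv_aut regularOver_of_regSol inn_normal snd_rsk)

set_option linter.unusedSectionVars false

section std

variable {X Γ : Type} [Group X] [Group Γ] (α : X →* Γ) (hα : Function.Surjective α)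
  {I J : Type} [Finite I] [DecidableEq I] {G₀ : J → Type} [∀ j, Group (G₀ j)]
  [∀ j, Finite (G₀ j)] [∀ j, Nontrivial (G₀ j)] {n₀ : J → ℕ} (p₀ : ∀ j, Fin (n₀ j))
  (hZ : ∀ j, ∀ z : G₀ j, (∀ g : G₀ j, z * g = g * z) → z = 1)
  (hn : ∀ j, ((3 * Nat.card (G₀ j) + 2).factorial) ^ 3 ≤ n₀ j)
  (hstd : ∀ j j', Nonempty (Wr (G₀ j) (n₀ j) ≃* Wr (G₀ j') (n₀ j')) → j = j')
  (rep : I → J) (e : α.ker ≃* ∀ i, Wr (G₀ (rep i)) (n₀ (rep i)))

include hα p₀ hZ hn hstd rep e in
/- **The reduction to Frattini covers.** -/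
theorem frat_std [Finite X] [Finite Γ] :
    ∃ (Q : Type) (_ : Group Q) (_ : Finite Q) (π : Q →* Γ), FratCover π ∧ Reduces Q X := by
  have hfA : Finite (MulAut (∀ i, G₀ (rep i))) :=
    Finite.of_injective (fun f : MulAut (∀ i, G₀ (rep i)) => (f : (∀ i, G₀ (rep i)) → _))
      DFunLike.coe_injective
  have hfB : Finite (TB (G := fun i => G₀ (rep i)) (n := fun i => n₀ (rep i)) α e
    (fun i => p₀ (rep i))) := inferInstance
  obtain ⟨H, hH⟩ := exists_frat (bTB α p₀ rep e) (bTB_surj α hα p₀ hZ hn hstd rep e)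
  have h1 := rs_pull (G := fun i => G₀ (rep i)) (n := fun i => n₀ (rep i)) α e
    (fun i => p₀ (rep i)) hα (fun i => hZ _) (fun i => hn _) H.subtype
  have hfH : Finite H := inferInstance
  have hfin : Finite (FP α ((MonoidHom.snd _ _).comp ((TB (G := fun i => G₀ (rep i))
    (n := fun i => n₀ (rep i)) α e (fun i => p₀ (rep i))).subtype.comp H.subtype))) :=
    inferInstance
  refine ⟨H, inferInstance, inferInstance, (bTB α p₀ rep e).comp H.subtype, hH, ?_⟩
  exact reduces_of_rs _ h1 (fpl α _) (fpl_surj α _ hH.1)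

end std

section main

variable {I : Type} [Finite I] {G : I → Type} [∀ i, Group (G i)] [∀ i, Finite (G i)]
  [∀ i, Nontrivial (G i)] {n : I → ℕ} (hZ : ∀ i, Subgroup.center (G i) = ⊥)
  (hn : ∀ i, ((3 * Nat.card (G i) + 2).factorial) ^ 3 ≤ n i)
  (X : Type) [Group X] (N : Subgroup X) [N.Normal]
  (hN : Nonempty (N ≃* ∀ i, Wr (G i) (n i))) (hfin : Finite (X ⧸ N))

include hZ hn hN hfin

theorem fin_main : Finite X := by
  have hfinT : ∀ i, Finite (Wr (G i) (n i)) := fun i => finite_wr (G i) (n i)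
  have hfinN : Finite N := Finite.of_equiv _ hN.some.symm.toEquiv
  exact Finite.of_subgroup_quotient N

/- **The reduction to Frattini covers.** -/
theorem frat_main :
    ∃ (Q : Type) (_ : Group Q) (_ : Finite Q) (π : Q →* X ⧸ N), FratCover π ∧ Reduces Q X := by
  classical
  have hfinX : Finite X := fin_main hZ hn X N hN hfin
  have hk : (QuotientGroup.mk' N).ker = N := QuotientGroup.ker_mk' N
  obtain ⟨J, f, rep, hstd, ⟨e⟩⟩ := exists_std G n (QuotientGroup.mk' N).ker
    ((MulEquiv.subgroupCongr hk).trans hN.some)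
  have hpos : ∀ i, 0 < n i := fun i =>
    lt_of_lt_of_le (pow_pos (Nat.factorial_pos _) 3) (hn i)
  exact frat_std (QuotientGroup.mk' N) (QuotientGroup.mk'_surjective N)
    (G₀ := fun j => G (f j)) (n₀ := fun j => n (f j)) (fun j => ⟨0, hpos _⟩)
    (fun j => cl_of_center (hZ _)) (fun j => hn _) hstd rep e

/- **Z-groups as quotients.** -/
theorem z_main [IsZGroup (X ⧸ N)] : Realized X := by
  classical
  have hfinX : Finite X := fin_main hZ hn X N hN hfin
  have hk : (QuotientGroup.mk' N).ker = N := QuotientGroup.ker_mk' N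
  obtain ⟨J, f, rep, hstd, ⟨e⟩⟩ := exists_std G n (QuotientGroup.mk' N).ker
    ((MulEquiv.subgroupCongr hk).trans hN.some)
  have hpos : ∀ i, 0 < n i := fun i =>
    lt_of_lt_of_le (pow_pos (Nat.factorial_pos _) 3) (hn i)
  have h1 : RS (1 : X →* Unit) := rs_z (QuotientGroup.mk' N) (QuotientGroup.mk'_surjective N)
    (G₀ := fun j => G (f j)) (n₀ := fun j => n (f j)) (fun j => ⟨0, hpos _⟩)
    (fun j => cl_of_center (hZ _)) (fun j => hn _) hstd rep e
  obtain ⟨h2, h3, h4⟩ := reduces_of_rs (1 : X →* Unit) h1 (MonoidHom.id X)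
    Function.surjective_id
  have hU : ∀ (K : Type) [Field K], IsRealizable K Unit := by
    intro K _
    have ε : (K ≃ₐ[K] K) ≃* Unit :=
      { toFun := fun _ => ()
        invFun := fun _ => 1
        left_inv := fun σ => triv_aut _ _
        right_inv := fun _ => rfl
        map_mul' := fun _ _ => rfl }
    exact isRealizable_of K ε.symm
  have hR : ∀ (K : Type) [Field K], RegularOver K Unit := by
    intro K _
    have h5 : RS (MulEquiv.refl Unit : Unit →* Unit) := RS.of_equiv (MulEquiv.refl Unit)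
    let ε : (K ≃ₐ[K] K) ≃* Unit :=
      { toFun := fun _ => ()
        invFun := fun _ => 1
        left_inv := fun σ => triv_aut _ _
        right_inv := fun _ => rfl
        map_mul' := fun _ _ => rfl }
    have h4 := h5.all K K ε
    have h6 : ε.symm.toMonoidHom.comp (MulEquiv.refl Unit : Unit →* Unit) = 1 := by
      ext x
      rfl
    rw [h6] at h4
    exact regularOver_of_regSol h4
  exact ⟨fun K _ _ => h2 K (hU K), fun K _ hK => h3 K hK (hU K), fun K _ => h4 K (hR K)⟩

end main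

end Pool.Agent.N600.ZQ
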