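import Mathlib
import Pool.Agent.H84.L.A3_N600_NS_Pack
import Pool.Agent.H84.L.A3_N600_NS_SerA
import Pool.Agent.H84.L.A3_N70_EQ_Stm
import Pool.Agent.H84.L.S8_TH15_IGP_TwB
import Pool.Agent.H84.L.S8_TH444_TW_RS
import Pool.Agent.H84.L.S8_TH444_TW_RSK
import Pool.Agent.H84.L.S8_W200_IG_HF
import Pool.Agent.H84.L.S8_W200_IH_TA
import Pool.Agent.H84.L.S8_Y793_Gr

namespace Pool.Agent.N600.NS
end Pool.Agent.N600.NS
namespace Pool.Agent.N70.EQ
end Pool.Agent.N70.EQ


/-!
Project EQ: weak solutions of a pulled back embedding problem.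
-/

set_option autoImplicit false

namespace Pool.Agent.N607.EQ

open Polynomial Pool.Agent.N70.EQ
open Pool.Agent.N600.NS (Degs WeakOver)

/- normal extensions are splitting fields of non-zero polynomials -/
theorem exists_split (F E : Type) [Field F] [Field E] [Algebra F E] [FiniteDimensional F E]
    [Normal F E] : ∃ p : F[X], p ≠ 0 ∧ IsSplittingField F E p := by
  obtain ⟨p, hp⟩ := Normal.exists_isSplittingField F E
  by_cases h0 : p = 0
  · refine ⟨1, one_ne_zero, ⟨?_, ?_⟩⟩
    · rw [Polynomial.map_one]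
      exact Splits.one
    · have h1 := hp.adjoin_rootSet'
      rw [h0, rootSet_zero] at h1
      rw [rootSet_one]
      exact h1
  · exact ⟨p, h0, hp⟩

/- the weak solution over `K'` of the pulled back problem -/
theorem weak (K L L' : Type) [Field K] [CharZero K] [Field L] [Algebra K L]
    [FiniteDimensional K L] [IsGalois K L] [Field L'] [Algebra K L'] [Algebra L L']
    [IsScalarTower K L L'] [FiniteDimensional K L'] [IsGalois K L'] (B : Type) [Group B]
    (a : B →* (L ≃ₐ[K] L)) (K' : Type) [Field K'] [Algebra K K'] (h : WeakOver K L B a K') :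
    WeakOver K L' (FPk a (AlgEquiv.restrictNormalHom (F := K) (K₁ := L') L))
      (fpk a (AlgEquiv.restrictNormalHom (F := K) (K₁ := L') L)) K' := by
  obtain ⟨M, j1, j2, j3, j4, j5, j6, j7, j8, s, hs⟩ := h
  have c0 : CharZero K' := charZero_of_injective_algebraMap (algebraMap K K').injective
  obtain ⟨p, hp0, hp⟩ := exists_split K L'
  obtain ⟨q, hq0, hq⟩ := exists_split K' M
  have hp0' : p.map (algebraMap K K') ≠ 0 :=
    (Polynomial.map_ne_zero_iff (algebraMap K K').injective).2 hp0
  set P : K'[X] := p.map (algebraMap K K') * q with hP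
  have hP0 : P ≠ 0 := mul_ne_zero hp0' hq0
  let M' := SplittingField P
  have hsp : Splits (P.map (algebraMap K' M')) := SplittingField.splits P
  have hPM0 : P.map (algebraMap K' M') ≠ 0 :=
    (Polynomial.map_ne_zero_iff (algebraMap K' M').injective).2 hP0
  have hspq : Splits (q.map (algebraMap K' M')) :=
    hsp.of_dvd hPM0 (Polynomial.map_dvd _ (dvd_mul_left q _))
  have hspp : Splits (p.map (algebraMap K M')) := by
    have h1 : Splits ((p.map (algebraMap K K')).map (algebraMap K' M')) :=
      hsp.of_dvd hPM0 (Polynomial.map_dvd _ (dvd_mul_right _ q))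
    rwa [Polynomial.map_map, ← IsScalarTower.algebraMap_eq] at h1
  -- the embedding of `M`
  let j : M →ₐ[K'] M' := IsSplittingField.lift M q hspq
  let _ : Algebra M M' := j.toRingHom.toAlgebra
  have t1 : IsScalarTower K' M M' := IsScalarTower.of_algebraMap_eq fun x => (j.commutes x).symm
  -- the embedding of `L'`
  let _ : Algebra L M' := ((algebraMap M M').comp (algebraMap L M)).toAlgebra
  have t2 : IsScalarTower L M M' := IsScalarTower.of_algebraMap_eq fun x => rfl
  have t3 : IsScalarTower K L M' := by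
    refine IsScalarTower.of_algebraMap_eq fun x => ?_
    rw [IsScalarTower.algebraMap_apply L M M', ← IsScalarTower.algebraMap_apply K L M,
      IsScalarTower.algebraMap_apply K K' M, ← IsScalarTower.algebraMap_apply K' M M',
      ← IsScalarTower.algebraMap_apply K K' M']
  have hspL : Splits ((p.map (algebraMap K L)).map (algebraMap L M')) := by
    rw [Polynomial.map_map, ← IsScalarTower.algebraMap_eq]
    exact hspp
  have hsL : IsSplittingField L L' (p.map (algebraMap K L)) := inferInstance
  let ψ : L' →ₐ[L] M' := IsSplittingField.lift L' (p.map (algebraMap K L)) hspL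
  let _ : Algebra L' M' := ψ.toRingHom.toAlgebra
  have t4 : IsScalarTower L L' M' := IsScalarTower.of_algebraMap_eq fun x => (ψ.commutes x).symm
  have t5 : IsScalarTower K L' M' := by
    refine IsScalarTower.of_algebraMap_eq fun x => ?_
    rw [IsScalarTower.algebraMap_apply K L L', ← IsScalarTower.algebraMap_apply L L' M',
      ← IsScalarTower.algebraMap_apply K L M']
  have n1 : Normal K' M' := Normal.of_isSplittingField P
  have g1 : IsGalois K' M' := ⟨⟩
  -- the restrictions
  let r1 : (M' ≃ₐ[K'] M') →* (M ≃ₐ[K'] M) := AlgEquiv.restrictNormalHom M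
  let r2 : (M' ≃ₐ[K'] M') →* (L' ≃ₐ[K] L') :=
    (AlgEquiv.restrictNormalHom L').comp
      { toFun := fun σ => σ.restrictScalars K
        map_one' := rfl
        map_mul' := fun _ _ => rfl }
  have hr1 : ∀ (σ : M' ≃ₐ[K'] M') (x : M), algebraMap M M' (r1 σ x) = σ (algebraMap M M' x) :=
    fun σ x => AlgEquiv.restrictNormal_commutes σ M x
  have hr2 : ∀ (σ : M' ≃ₐ[K'] M') (x : L'), algebraMap L' M' (r2 σ x) = σ (algebraMap L' M' x) :=
    fun σ x => AlgEquiv.restrictNormal_commutes (σ.restrictScalars K) L' x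
  have hmem : ∀ σ : M' ≃ₐ[K'] M', ((s (r1 σ), r2 σ) : B × (L' ≃ₐ[K] L')) ∈
      FPk a (AlgEquiv.restrictNormalHom (F := K) (K₁ := L') L) := by
    intro σ
    show a (s (r1 σ)) = AlgEquiv.restrictNormalHom (F := K) (K₁ := L') L (r2 σ)
    apply AlgEquiv.ext
    intro x
    apply (algebraMap L M').injective
    have e1 : algebraMap L M' (a (s (r1 σ)) x) = σ (algebraMap L M' x) := by
      rw [IsScalarTower.algebraMap_apply L M M', ← hs, hr1, ← IsScalarTower.algebraMap_apply L M M']
    have e2 : algebraMap L M' (AlgEquiv.restrictNormalHom (F := K) (K₁ := L') L (r2 σ) x) =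
        σ (algebraMap L M' x) := by
      rw [IsScalarTower.algebraMap_apply L L' M']
      have e3 : algebraMap L L' (AlgEquiv.restrictNormalHom (F := K) (K₁ := L') L (r2 σ) x) =
          r2 σ (algebraMap L L' x) := AlgEquiv.restrictNormal_commutes (r2 σ) L x
      rw [e3, hr2, ← IsScalarTower.algebraMap_apply L L' M']
    rw [e1, e2]
  refine ⟨M', inferInstance, inferInstance, inferInstance, inferInstance, inferInstance, t5,
    inferInstance, g1, ((s.comp r1).prod r2).codRestrict _ hmem, fun σ x => ?_⟩
  exact (hr2 σ x).symm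

theorem t_ri : Pool.Agent.N70.EQ.St_ri := by
  intro K L L' _ _ _ _ _ _ _ _ _ _ _ _ B _ a m hm
  obtain ⟨K', i1, i2, i3, i4, h⟩ := hm
  exact ⟨K', i1, i2, i3, i4, weak K L L' B a K' h⟩

end Pool.Agent.N607.EQ
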