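import Mathlib
import Pool.Agent.H84.L.A3_N600_NS_Pa
import Pool.Agent.H84.L.A3_N600_NS_SemA
import Pool.Agent.H84.L.A3_N600_NS_SerA
import Pool.Agent.H84.L.A3_N70_AW_Sa
import Pool.Agent.H84.L.A3_N70_EP_Stm
import Pool.Agent.H84.L.A3_N70_EQ_Stm
import Pool.Agent.H84.L.S8_H391R2_T4_Fam
import Pool.Agent.H84.L.S8_H391R2_T4_Nod
import Pool.Agent.H84.L.S8_H391R2_T4_Sem
import Pool.Agent.H84.L.S8_TH444_TW_RS
import Pool.Agent.H84.L.S8_TH444_TW_RSK
import Pool.Agent.H84.L.S8_W200_IG_Fam
import Pool.Agent.H84.L.S8_W200_IH_PA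
import Pool.Agent.H84.L.S8_W200_IJ_SA



/-!
# EQ/PD (helper690 for helper70): pseudo-division by a matrix pencil

The argument is the one of `Pool/Agent/N558/AW/Even2.lean` (helper558), without inverting `a`.
-/

set_option autoImplicit false

namespace Pool.Agent.N690.EQ

open Polynomial Matrix

lemma pdivision {R : Type} [CommRing R] (m b : ℕ) (Q : Matrix (Fin m) (Fin m) R[X]) (a : R)
    (hdeg : ∀ l l', (Q l l').natDegree ≤ b)
    (hc : ∀ l l', (Q l l').coeff b = if l = l' then a else 0) :
    ∀ (n : ℕ) (v : Fin m → R[X]), (∀ l, (v l).degree < n) →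
      ∃ h ρ : Fin m → R[X], (∀ l, C (a ^ n) * v l = ∑ k, Q l k * h k + ρ l) ∧
        ∀ l, (ρ l).degree < b := by
  intro n
  induction n with
  | zero =>
    intro v hv
    refine ⟨0, v, fun l => by simp, fun l => (hv l).trans_le ?_⟩
    exact_mod_cast Nat.zero_le b
  | succ n ih =>
    intro v hv
    by_cases hnb : n + 1 ≤ b
    · refine ⟨0, fun l => C (a ^ (n + 1)) * v l, fun l => by simp, fun l => ?_⟩
      rw [Polynomial.degree_lt_iff_coeff_zero]
      intro t ht
      rw [Polynomial.coeff_C_mul]
      have h1 : (v l).coeff t = 0 := by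
        apply Polynomial.coeff_eq_zero_of_degree_lt
        refine (hv l).trans_le ?_
        have : n + 1 ≤ t := hnb.trans ht
        exact_mod_cast this
      rw [h1, mul_zero]
    · have hbn : b ≤ n := by omega
      set h0 : Fin m → R[X] := fun k => C ((v k).coeff n) * X ^ (n - b) with hh0
      have hv' : ∀ l, (C a * v l - ∑ k, Q l k * h0 k).degree < n := by
        intro l
        rw [Polynomial.degree_lt_iff_coeff_zero]
        intro t ht
        rw [Polynomial.coeff_sub, Polynomial.finsetSum_coeff, Polynomial.coeff_C_mul]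
        have h1 : ∀ k, (Q l k * h0 k).coeff t =
            (Q l k).coeff (t - (n - b)) * (v k).coeff n := by
          intro k
          rw [hh0]
          show (Q l k * (C ((v k).coeff n) * X ^ (n - b))).coeff t = _
          rw [← mul_assoc, Polynomial.coeff_mul_X_pow', if_pos (by omega), Polynomial.coeff_mul_C]
        rw [Finset.sum_congr rfl fun k _ => h1 k]
        rcases Nat.eq_or_lt_of_le ht with rfl | ht'
        · have h2 : n - (n - b) = b := by omega
          rw [h2]
          simp only [hc]
          rw [Finset.sum_eq_single l]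
          · rw [if_pos rfl, sub_self]
          · intro k _ hk
            rw [if_neg (Ne.symm hk), zero_mul]
          · intro h
            exact absurd (Finset.mem_univ l) h
        · have h3 : (v l).coeff t = 0 := by
            apply Polynomial.coeff_eq_zero_of_degree_lt
            refine (hv l).trans_le ?_
            exact_mod_cast ht'
          rw [Finset.sum_eq_zero, sub_zero, h3, mul_zero]
          intro k _
          rw [Polynomial.coeff_eq_zero_of_natDegree_lt, zero_mul]
          have := hdeg l k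
          omega
      obtain ⟨h, ρ, hh, hρ⟩ := ih _ hv'
      refine ⟨fun k => C (a ^ n) * h0 k + h k, ρ, fun l => ?_, hρ⟩
      have h4 := hh l
      have h5 : C (a ^ (n + 1)) * v l = C (a ^ n) * (∑ k, Q l k * h0 k) +
          C (a ^ n) * (C a * v l - ∑ k, Q l k * h0 k) := by
        rw [pow_succ, C_mul]
        ring
      rw [h5, h4, Finset.mul_sum, ← add_assoc, ← Finset.sum_add_distrib]
      congr 1
      refine Finset.sum_congr rfl fun k _ => ?_
      ring

lemma eq_sum_fin {R : Type} [CommRing R] (b : ℕ) (p : R[X]) (hp : p.degree < b) :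
    p = ∑ j : Fin b, C (p.coeff j) * X ^ (j : ℕ) := by
  ext t
  rw [Polynomial.finsetSum_coeff]
  simp only [Polynomial.coeff_C_mul, Polynomial.coeff_X_pow, mul_ite, mul_one, mul_zero]
  by_cases ht : t < b
  · rw [Finset.sum_eq_single (⟨t, ht⟩ : Fin b)]
    · simp
    · intro j _ hj
      rw [if_neg]
      intro h
      exact hj (Fin.ext h.symm)
    · intro h
      exact absurd (Finset.mem_univ _) h
  · rw [Finset.sum_eq_zero]
    · apply Polynomial.coeff_eq_zero_of_degree_lt
      refine hp.trans_le ?_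
      exact_mod_cast not_lt.1 ht
    · intro j _
      rw [if_neg]
      have := j.isLt
      omega

/- EQ/PD -/
theorem t_pd : Pool.Agent.N70.EQ.St_pd := by
  intro R _ m b PP F a hdeg hc
  refine ⟨Finset.univ.sup fun y : (Fin b × Fin m) × Fin m =>
    (X ^ (y.1.1 : ℕ) * F y.2 y.1.2 : R[X]).natDegree + 1, fun E hE => ?_⟩
  have hdiv : ∀ x : Fin b × Fin m, ∃ h ρ : Fin m → R[X],
      (∀ l, C (a ^ E) * (X ^ (x.1 : ℕ) * F l x.2) = ∑ k, PP l k * h k + ρ l) ∧
        ∀ l, (ρ l).degree < b := by
    intro x
    refine pdivision m b PP a hdeg hc E (fun l => X ^ (x.1 : ℕ) * F l x.2) fun l => ?_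
    refine lt_of_le_of_lt Polynomial.degree_le_natDegree ?_
    have h1 := Finset.le_sup (f := fun y : (Fin b × Fin m) × Fin m =>
      (X ^ (y.1.1 : ℕ) * F y.2 y.1.2 : R[X]).natDegree + 1) (Finset.mem_univ (x, l))
    have h2 : (X ^ (x.1 : ℕ) * F l x.2 : R[X]).natDegree + 1 ≤ E := h1.trans hE
    exact_mod_cast Nat.lt_of_succ_le h2
  choose h ρ hh hρ using hdiv
  refine ⟨fun y x => (ρ x y.2).coeff y.1, h, fun x l' => ?_⟩
  rw [hh x l']
  congr 1
  exact eq_sum_fin b _ (hρ x l')

end Pool.Agent.N690.EQ
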