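import Mathlib



set_option autoImplicit false
set_option linter.unusedSectionVars false
set_option linter.unusedSimpArgs false

namespace Pool.Agent.Y793

open Polynomial


section td

variable {K ι : Type} [Field K] [CharZero K] [Fintype ι] {D : K[X]} {κ g u : ι → K[X]} {k : ℕ}

theorem exists_trb (k₀ V : Type) [Field k₀] [Finite V] :
    ∃ (F : Type) (_ : Field F) (_ : IsAlgClosed F) (_ : Algebra k₀ F) (b : V → F),
      IsTranscendenceBasis k₀ b := by
  let E := FractionRing (MvPolynomial V k₀)
  let F := AlgebraicClosure E
  let b : V → F := fun i => algebraMap E F (algebraMap (MvPolynomial V k₀) E (MvPolynomial.X i))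
  have hb : AlgebraicIndependent k₀ b := by
    have h1 : AlgebraicIndependent k₀ (MvPolynomial.X : V → MvPolynomial V k₀) :=
      MvPolynomial.algebraicIndependent_X _ _
    have h2 := h1.map' (f := IsScalarTower.toAlgHom k₀ (MvPolynomial V k₀) E)
      (IsFractionRing.injective (MvPolynomial V k₀) _)
    have h3 := h2.map' (f := IsScalarTower.toAlgHom k₀ E F) (algebraMap E F).injective
    exact h3
  refine ⟨F, inferInstance, inferInstance, inferInstance, b, ?_⟩
  rw [hb.isTranscendenceBasis_iff_isAlgebraic, ← IntermediateField.isAlgebraic_adjoin_iff_top]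
  set M := IntermediateField.adjoin k₀ (Set.range b) with hM
  have hpoly : ∀ p : MvPolynomial V k₀, algebraMap E F (algebraMap (MvPolynomial V k₀) E p) ∈ M := by
    intro p
    induction p using MvPolynomial.induction_on with
    | C a =>
      have h1 : algebraMap E F (algebraMap (MvPolynomial V k₀) E (MvPolynomial.C a)) =
          algebraMap k₀ F a := by
        rw [← MvPolynomial.algebraMap_eq, ← IsScalarTower.algebraMap_apply,
          ← IsScalarTower.algebraMap_apply]
      rw [h1]
      exact M.algebraMap_mem a
    | add p q hp hq =>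
      rw [map_add, map_add]
      exact add_mem hp hq
    | mul_X p i hp =>
      rw [map_mul, map_mul]
      exact mul_mem hp (IntermediateField.subset_adjoin _ _ ⟨i, rfl⟩)
  have hE : ∀ e : E, algebraMap E F e ∈ M := by
    intro e
    obtain ⟨p, q, hq, rfl⟩ := IsFractionRing.div_surjective (A := MvPolynomial V k₀) e
    rw [map_div₀]
    exact div_mem (hpoly p) (hpoly q)
  refine ⟨fun x => ?_⟩
  have hx : IsAlgebraic E x := Algebra.IsAlgebraic.isAlgebraic x
  obtain ⟨p, hp, hp0⟩ := hx
  let ψ : E →+* M := (algebraMap E F).codRestrict M hE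
  refine ⟨p.map ψ, (Polynomial.map_ne_zero_iff ψ.injective).2 hp, ?_⟩
  rw [aeval_def, eval₂_map]
  exact hp0


end td

end Pool.Agent.Y793
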