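import Mathlib
import Pool.Agent.H84.L.A3_N70_AW_Fa
import Pool.Agent.H84.L.A3_N70_AW_Sa
import Pool.Agent.H84.L.A3_N70_AW_Sc
import Pool.Agent.H84.L.A3_N70_AW_Sd
import Pool.Agent.H84.L.A3_N70_AW_Stm
import Pool.Agent.H84.L.A3_N70_EP_Sg
import Pool.Agent.H84.L.A3_N70_EP_Si
import Pool.Agent.H84.L.A3_N70_EP_Stm
import Pool.Agent.H84.L.S8_H391R2_T4_Nod
import Pool.Agent.H84.L.S8_H391R2_T4_Sem
import Pool.Agent.H84.L.S8_TH444_TW_RS
import Pool.Agent.H84.L.S8_TH444_TW_RSK
import Pool.Agent.H84.L.S8_W200_IG_Fam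
import Pool.Agent.H84.L.S8_W200_IG_HF
import Pool.Agent.H84.L.S8_W200_IJ_SA
import Pool.Agent.H84.L.S8_Y793_E_Bc
import Pool.Agent.H84.L.S8_Y793_E_Rl
import Pool.Agent.H84.L.S8_Y793_Stm
import Pool.Agent.H84.L.S8_Y793_TrD

namespace Pool.Agent.H391R2
end Pool.Agent.H391R2
namespace Pool.Agent.H391R2.T4
end Pool.Agent.H391R2.T4
namespace Pool.Agent.N70.EP
end Pool.Agent.N70.EP
namespace Pool.Agent.Y793
end Pool.Agent.Y793


/-!
Change of the base field in the data.
-/

set_option autoImplicit false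
set_option linter.unusedSectionVars false
set_option linter.unusedSimpArgs false

namespace Pool.Agent.N70.AW.EPc

open Polynomial Pool.Agent.H391R2 Pool.Agent.H391R2.T4
open Pool.Agent.N70.EP (Dt0)
open Pool.Agent.Y793 (mpL mpL_map adr_bc pol_bc)

section bc

variable {K L : Type} [Field K] [CharZero K] [Field L] [Algebra K L]
variable {J : Type} [Fintype J] {m : ℕ} (κ : J → K[X]) (M : J → J → Matrix (Fin m) (Fin m) K[X])
variable {E : Type} [CommRing E] [Algebra K E] [Algebra L E] [IsScalarTower K L E]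

theorem lk_bc (c : J → E) : lk (fun j => mpL K L (κ j)) c = lk κ c := by
  unfold lk
  refine Finset.sum_congr rfl fun i _ => ?_
  rw [mpL_map]

theorem AA_bc (c : J → E) : AA (fun j => mpL K L (κ j)) c = AA κ c := by
  unfold AA
  rw [lk_bc, adr_bc (K := K)]

theorem MM_bc (c : J → E) : MM (fun i j => (M i j).map (mpL K L)) c = MM M c := by
  unfold MM
  funext l l'
  refine Finset.sum_congr rfl fun i _ => Finset.sum_congr rfl fun j _ => ?_
  change C (c i * c j) * (mpL K L (M i j l l')).map (algebraMap L E) = _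
  rw [mpL_map]

theorem PM_bc (c : J → E) (T : E) : PM (fun j => mpL K L (κ j))
    (fun i j => (M i j).map (mpL K L)) c T = PM κ M c T := by
  unfold PM
  rw [AA_bc, MM_bc]

theorem BF_bc (a b : J → E) (w : E) (X : J → J → E) :
    BF (fun j => mpL K L (κ j)) a b w X = BF κ a b w X := by
  unfold BF
  rw [lk_bc, lk_bc, adr_bc (K := K)]

end bc

section dat

variable {K L Z ι : Type} [Field K] [CharZero K] [Field L] [Algebra K L] [Field Z]
  [Algebra (RatFunc K) Z] [Algebra L Z] [Algebra (RatFunc K) (RatFunc L)] [Algebra (RatFunc L) Z]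
  [IsScalarTower (RatFunc K) (RatFunc L) Z] [Fintype ι]
  (hp : ∀ p : K[X], algebraMap (RatFunc K) (RatFunc L) (algebraMap K[X] (RatFunc K) p) =
        algebraMap L[X] (RatFunc L) (p.map (algebraMap K L)))

include hp

theorem pz_bc (p : K[X]) : pz Z (mpL K L p) = pz Z p := pol_bc (Z := Z) hp p

theorem tv_bc : tv L Z = tv K Z := by
  have h1 := pz_bc (Z := Z) hp X
  rw [mpL, map_X] at h1
  exact h1

omit [Field Z] [Algebra (RatFunc K) Z] [Algebra L Z] [Algebra (RatFunc K) (RatFunc L)]
  [Algebra (RatFunc L) Z] [IsScalarTower (RatFunc K) (RatFunc L) Z] hp in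
theorem lin_bc {κ : ι → K[X]} (h : LinearIndependent K κ) :
    LinearIndependent L (fun i => mpL K L (κ i)) := by
  rw [Fintype.linearIndependent_iff]
  intro c hc i
  let b := Module.Basis.ofVectorSpace K L
  have h1 : ∀ s, ∑ i, C (b.repr (c i) s) * κ i = 0 := by
    intro s
    ext n
    have h2 := congrArg (fun p => b.repr (p.coeff n) s) hc
    simp only [finsetSum_coeff, coeff_smul, coeff_map, smul_eq_mul, coeff_zero, map_zero,
      map_sum, Finsupp.finsetSum_apply, Finsupp.coe_zero, Pi.zero_apply] at h2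
    simp only [finsetSum_coeff, coeff_C_mul, coeff_zero]
    rw [← h2]
    refine Finset.sum_congr rfl fun j _ => ?_
    rw [mul_comm (c j), ← Algebra.smul_def, map_smul, Finsupp.smul_apply, smul_eq_mul, mul_comm]
  have h3 : ∀ s, b.repr (c i) s = 0 := by
    intro s
    refine Fintype.linearIndependent_iff.1 h (fun i => b.repr (c i) s) ?_ i
    rw [← h1 s]
    refine Finset.sum_congr rfl fun j _ => ?_
    rw [smul_eq_C_mul]
  have h4 : b.repr (c i) = 0 := Finsupp.ext h3
  exact b.repr.map_eq_zero_iff.1 h4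

/- The subgroup over `L`. -/
def PL (K L : Type) {Z : Type} [Field K] [Field L] [Field Z]
    [Algebra (RatFunc K) Z] [Algebra (RatFunc K) (RatFunc L)] [Algebra (RatFunc L) Z]
    [IsScalarTower (RatFunc K) (RatFunc L) Z] (P : Subgroup (Z ≃ₐ[RatFunc K] Z)) :
    Subgroup (Z ≃ₐ[RatFunc L] Z) where
  carrier := {γ | γ.restrictScalars (RatFunc K) ∈ P}
  one_mem' := P.one_mem
  mul_mem' := fun {a b} ha hb => P.mul_mem (x := a.restrictScalars (RatFunc K))
    (y := b.restrictScalars (RatFunc K)) ha hb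
  inv_mem' := fun {a} ha => P.inv_mem (x := a.restrictScalars (RatFunc K)) ha

theorem Dt0_bc {P : Subgroup (Z ≃ₐ[RatFunc K] Z)} {m k d : ℕ} {κ : Option ι → K[X]}
    {v : Option ι → Z} {x : Option ι → Option ι → Z} {e es : Fin m → Z}
    {S : Matrix (Fin m) (Fin m) K[X]} {M N : Option ι → Option ι → Matrix (Fin m) (Fin m) K[X]}
    (D : Dt0 P m k d κ v x e es S M N) :
    Dt0 (PL K L P) m k d (fun j => mpL K L (κ j)) v x e es (S.map (mpL K L))
      (fun i j => (M i j).map (mpL K L)) (fun i j => (N i j).map (mpL K L)) := by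
  have hinj : Function.Injective (algebraMap K L) := (algebraMap K L).injective
  have hpz : ∀ p : K[X], pz Z (mpL K L p) = pz Z p := pz_bc (Z := Z) hp
  exact
  { fix_e := fun l γ hγ => D.fix_e l _ hγ
    fix_es := fun l γ hγ => D.fix_es l _ hγ
    fix_v := fun j γ hγ => D.fix_v j _ hγ
    fix_x := fun i j γ hγ => D.fix_x i j _ hγ
    dual1 := D.dual1
    dual0 := fun γ hγ => D.dual0 (γ.restrictScalars (RatFunc K)) hγ
    e_es := fun l => by
      rw [D.e_es l]
      refine Finset.sum_congr rfl fun l' _ => ?_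
      rw [Matrix.map_apply, hpz]
    symS := by rw [← Matrix.transpose_map, D.symS]
    mul_e := fun i j l' => by
      rw [D.mul_e i j l']
      refine Finset.sum_congr rfl fun l _ => ?_
      rw [Matrix.map_apply, hpz]
    mul_es := fun i j l => by
      rw [D.mul_es i j l]
      refine Finset.sum_congr rfl fun l' _ => ?_
      rw [Matrix.map_apply, hpz]
    fac := fun i j => by
      rw [D.fac i j]
      exact Matrix.map_mul (f := Polynomial.mapRingHom (algebraMap K L))
    symL := fun i j => by rw [← Matrix.transpose_map, D.symL]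
    deg := fun i j l l' => by
      rw [Matrix.map_apply, mpL, natDegree_map]
      exact D.deg i j l l'
    symx := D.symx
    symM := fun i j => by rw [D.symM i j]
    zero := D.zero
    zeroM := fun i j => by
      rw [D.zeroM i j]
      exact Matrix.map_zero _ (Polynomial.map_zero _)
    der := fun i j => by
      rw [D.der i j, ← hpz (κ i * κ j)]
      congr 1
      · rw [mpL, Polynomial.map_mul]
      · refine Finset.sum_congr rfl fun l _ => Finset.sum_congr rfl fun l' _ => ?_
        rw [Matrix.map_apply, mpL, derivative_map, ← mpL, hpz]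
    v_some := fun i => by rw [D.v_some i, hpz]
    stab := fun γ hγ => D.stab (γ.restrictScalars (RatFunc K)) hγ
    lin := lin_bc D.lin
    kdeg := fun j => by
      rw [mpL, natDegree_map]
      exact D.kdeg j
    ktop := by
      obtain ⟨i, hi⟩ := D.ktop
      exact ⟨i, by rw [mpL, natDegree_map]; exact hi⟩
    dk := D.dk
    card := D.card }

end dat

section sy

variable {K L Z N ι : Type} [Field K] [CharZero K] [Field L] [Algebra K L] [Field Z]
  [Algebra (RatFunc K) Z] [Algebra K Z] [IsScalarTower K (RatFunc K) Z] [Algebra L Z]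
  [IsScalarTower K L Z] [Algebra (RatFunc K) (RatFunc L)] [Algebra (RatFunc L) Z]
  [IsScalarTower (RatFunc K) (RatFunc L) Z] [Fintype ι] [Field N] [Algebra K N] [Algebra L N]
  [IsScalarTower K L N]
  (hp : ∀ p : K[X], algebraMap (RatFunc K) (RatFunc L) (algebraMap K[X] (RatFunc K) p) =
        algebraMap L[X] (RatFunc L) (p.map (algebraMap K L)))

include hp

theorem Sy_bc {κ : Option ι → K[X]} {x : Option ι → Option ι → Z} {m : ℕ}
    {M : Option ι → Option ι → Matrix (Fin m) (Fin m) K[X]} {k₀ : Type} [Field k₀]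
    [Algebra K k₀] [Algebra L k₀] [IsScalarTower K L k₀]
    [Algebra k₀ N] {c : Option ι → N} {T : N} {n : ℕ} {r : Fin n → N}
    {φ : Fin n → (Z →ₐ[L] N)}
    (Y : Sy (fun j => mpL K L (κ j)) x (fun i j => (M i j).map (mpL K L)) k₀ c T n r φ) :
    Sy κ x M k₀ c T n r (fun i => (φ i).restrictScalars K) := by
  refine ⟨Y.inj, fun i => ?_, fun i => ?_, fun i => ?_, fun y hy => ?_⟩
  · have h1 := Y.val i
    rw [tv_bc hp] at h1
    exact h1
  · have h1 := Y.lp i
    refine ⟨?_, h1.sym, h1.zero, ?_⟩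
    · have h2 := h1.hT
      rw [BF_bc, tv_bc hp] at h2
      exact h2
    · have h2 := h1.mem
      rw [tv_bc hp] at h2
      exact h2
  · have h1 := Y.root i
    rw [PM_bc] at h1
    exact h1
  · refine Y.all y ?_
    rw [PM_bc]
    exact hy

end sy

end Pool.Agent.N70.AW.EPc
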