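import Mathlib
import Pool.Agent.H84.L.A3_N600_UK_Good
import Pool.Agent.H84.L.A3_N70_EP_Stm
import Pool.Agent.H84.L.S8_H391R2_T4_Red
import Pool.Agent.H84.L.S8_H391R2_WrGrp
import Pool.Agent.H84.L.S8_TH15_IGP_TwB
import Pool.Agent.H84.L.S8_Y793_Stm

namespace Pool.Agent.H391R2
end Pool.Agent.H391R2
namespace Pool.Agent.H391R2.T4
end Pool.Agent.H391R2.T4
namespace Pool.Agent.N600.UK
end Pool.Agent.N600.UK
namespace Pool.Agent.Y793
end Pool.Agent.Y793


/-!
Statements (NOT results) of further pieces of the project EP (helper70): kernels of embedding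
problems in characteristic zero.
-/

set_option autoImplicit false

namespace Pool.Agent.N70.EP

open Pool.Agent.H391R2 (Wr)
open Pool.Agent.H391R2.T4 (RegSol)
open Pool.Agent.Y793 (AWr)
open Pool.Agent.N600.UK (CL)

/- All embedding problems with kernel `T` over fields of characteristic zero have regular
solutions. -/
def GoodKer0 (T : Type) [Group T] : Prop :=
  ∀ (K L X : Type) [Field K] [CharZero K] [Field L] [Algebra K L] [FiniteDimensional K L]
    [IsGalois K L] [Group X] (α : X →* (L ≃ₐ[K] L)), Function.Surjective α →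
    Nonempty (α.ker ≃* T) → RegSol K L X α


/- GD0: closure properties. -/
structure St_gd0 : Prop where
  iso : ∀ (T T' : Type) [Group T] [Group T'] (_ : T ≃* T'), GoodKer0 T → GoodKer0 T'
  factor : ∀ (A B : Type) [Group A] [Group B], GoodKer0 (A × B) → GoodKer0 A
  char : ∀ (T : Type) [Group T] [Finite T] (C : Subgroup T) [C.Characteristic], GoodKer0 C →
    GoodKer0 (T ⧸ C) → GoodKer0 T
  pi : ∀ (I : Type) [Finite I] (T : I → Type) [∀ i, Group (T i)] [∀ i, Finite (T i)],
    (∀ i, CL (T i)) → (∀ i, GoodKer0 (T i)) → GoodKer0 (∀ i, T i)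
  wr : ∀ (T : Type) [Group T] [Finite T] [Nontrivial T], CL T → GoodKer0 T →
    ∀ n : ℕ, 2 * (Nat.card T + 2) ≤ n → GoodKer0 (Wr T n)
  complete : ∀ (T : Type) [Group T] [Finite T], CL T → (∀ a : MulAut T, ∃ g : T, a = MulAut.conj g) →
    RegSol ℚ ℚ T 1 → GoodKer0 T

end Pool.Agent.N70.EP
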