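import Mathlib
import Pool.Agent.H84.L.S8_H391R2_T4_Red

namespace Pool.Agent.H391R2
end Pool.Agent.H391R2
namespace Pool.Agent.H391R2.T4
end Pool.Agent.H391R2.T4


set_option autoImplicit false
set_option linter.unusedSectionVars false
set_option linter.unusedSimpArgs false

namespace Pool.Agent.Y793

open Polynomial Pool.Agent.H391R2 Pool.Agent.H391R2.T4

theorem regSol_iso (K L A B : Type) [Field K] [Field L] [Algebra K L] [Group A] [Group B]
    (α : A →* (L ≃ₐ[K] L)) (β : B →* (L ≃ₐ[K] L)) (e : A ≃* B) (he : ∀ a, β (e a) = α a)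
    (h : RegSol K L A α) : RegSol K L B β := by
  obtain ⟨F, i1, i2, i3, i4, i5, i6, i7, i8, γ, hγ, hr⟩ := h
  refine ⟨F, i1, i2, i3, i4, i5, i6, i7, i8, γ.trans e, fun σ x => ?_, hr⟩
  rw [hγ, MulEquiv.trans_apply, he]


end Pool.Agent.Y793
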