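import Mathlib
import Pool.Agent.H84.L.A3_N600_UK_Good
import Pool.Agent.H84.L.A3_N600_UK_Main
import Pool.Agent.H84.L.A3_N70_EP_Si
import Pool.Agent.H84.L.A3_N70_EP_Stm3
import Pool.Agent.H84.L.S8_TH444_TW_RS
import Pool.Agent.H84.L.S8_TH444_TW_RSK
import Pool.Agent.H84.L.S8_TH59_WX_UF
import Pool.Agent.H84.L.S8_Y793_E_App
import Pool.Agent.H84.L.S8_Y793_E_MainA
import Pool.Agent.H84.L.S8_Y793_Stm

namespace Pool.Agent.H391R2
end Pool.Agent.H391R2
namespace Pool.Agent.H391R2.T4
end Pool.Agent.H391R2.T4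
namespace Pool.Agent.N600.UK
end Pool.Agent.N600.UK
namespace Pool.Agent.TH444.TW
end Pool.Agent.TH444.TW
namespace Pool.Agent.TH59.WX
end Pool.Agent.TH59.WX
namespace Pool.Agent.Y793
end Pool.Agent.Y793


/-!
The groups of the class are kernels of regularly solvable embedding problems only.
-/

set_option autoImplicit false
set_option linter.unusedSectionVars false
set_option linter.unusedSimpArgs false

namespace Pool.Agent.N70.EP

open Pool.Agent.H391R2 Pool.Agent.H391R2.T4
open Pool.Agent.Y793 (AWr AltTw twProj regSol_iso)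
open Pool.Agent.TH444.TW (RSK infinite_ratFunc)
open Pool.Agent.N600.UK (CL cl_of_center cl_iso)
open Pool.Agent.TH59.WX (finite_of_kernel hil_of_reg)


/- Steps with good kernels. -/
theorem rsk_of_good {T W W' : Type} [Group T] [Group W] [Group W'] (h : GoodKer0 T)
    (p : W' →* W) (hp : Function.Surjective p) (hι : Nonempty (p.ker ≃* T)) : RSK ℚ p := by
  intro K M _ _ _ _ _ _ _ ε
  have hcK : CharZero K := charZero_of_injective_algebraMap (algebraMap ℚ K).injective
  refine h K M W' (ε.symm.toMonoidHom.comp p) (ε.symm.surjective.comp hp) ?_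
  have hk : (ε.symm.toMonoidHom.comp p).ker = p.ker := by
    ext x
    rw [MonoidHom.mem_ker, MonoidHom.mem_ker]
    exact ε.symm.map_eq_one_iff
  obtain ⟨e⟩ := hι
  exact ⟨(MulEquiv.subgroupCongr hk).trans e⟩


end Pool.Agent.N70.EP
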