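import Mathlib
import Pool.Agent.H84.L.A3_N70_AW_Sa
import Pool.Agent.H84.L.A3_N70_AW_Stm
import Pool.Agent.H84.L.A3_N70_EP_Sg
import Pool.Agent.H84.L.S8_H391R2_T4_Utl
import Pool.Agent.H84.L.S8_TH15_IGP_TwB
import Pool.Agent.H84.L.S8_TH444_TW_RS
import Pool.Agent.H84.L.S8_TH444_TW_RSK
import Pool.Agent.H84.L.S8_W200_IH_PA
import Pool.Agent.H84.L.S8_Y793_E_App
import Pool.Agent.H84.L.S8_Y793_E_Bc
import Pool.Agent.H84.L.S8_Y793_E_Core
import Pool.Agent.H84.L.S8_Y793_E_Rl
import Pool.Agent.H84.L.S8_Y793_E_Stm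
import Pool.Agent.H84.L.S8_Y793_Gr
import Pool.Agent.H84.L.S8_Y793_Stm
import Pool.Agent.H84.L.S8_Y793_Tc

namespace Pool.Agent.H391R2
end Pool.Agent.H391R2
namespace Pool.Agent.H391R2.T4
end Pool.Agent.H391R2.T4
namespace Pool.Agent.N70.AW
end Pool.Agent.N70.AW
namespace Pool.Agent.N70.AW.EPc
end Pool.Agent.N70.AW.EPc
namespace Pool.Agent.Y793
end Pool.Agent.Y793


/-!
Assembly.
-/

set_option autoImplicit false
set_option linter.unusedSectionVars false
set_option linter.unusedSimpArgs false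

namespace Pool.Agent.N70.EP

open Polynomial Pool.Agent.H391R2 Pool.Agent.H391R2.T4 Pool.Agent.N70.AW.EPc
open Pool.Agent.N70.AW (St_small St_hens St_val pz)
open Pool.Agent.N70.AW renaming Ix → Jx
open Pool.Agent.Y793 (St_gen St_iso St_ext St_starL Rl AWr exists_trb lift_ker ker_restrict exists_ratL mpL AltTw twProj)

section core

variable {K L Z : Type} [Field K] [CharZero K] [Field L] [Algebra K L] [FiniteDimensional K L]
  [IsGalois K L] [Field Z] [Algebra (RatFunc K) Z] [Algebra L Z] [Algebra K Z]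
  [IsScalarTower K (RatFunc K) Z] [IsScalarTower K L Z] [FiniteDimensional (RatFunc K) Z]
  [IsGalois (RatFunc K) Z]

/- An element with stabilizer `Q`. -/
theorem exists_theta (Q : Subgroup (Z ≃ₐ[RatFunc K] Z)) :
    ∃ θ : Z, ∀ γ : Z ≃ₐ[RatFunc K] Z, γ θ = θ ↔ γ ∈ Q := by
  obtain ⟨θ, hθ⟩ := Field.exists_primitive_element (RatFunc K) (IntermediateField.fixedField Q)
  refine ⟨θ, fun γ => ⟨fun h => ?_, fun h => θ.2 ⟨γ, h⟩⟩⟩
  have h1 : γ ∈ (IntermediateField.fixedField Q).fixingSubgroup := by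
    rw [IntermediateField.mem_fixingSubgroup_iff]
    intro z hz
    have h2 : (⟨z, hz⟩ : IntermediateField.fixedField Q) ∈
        IntermediateField.adjoin (RatFunc K) {θ} := by
      rw [hθ]
      exact IntermediateField.mem_top
    exact eq_on_adjoin ((γ : Z →ₐ[RatFunc K] Z).comp (IntermediateField.fixedField Q).val)
      (IntermediateField.fixedField Q).val {θ} (by
        rintro s hs
        rw [Set.mem_singleton_iff.1 hs]
        exact h) _ h2
  rwa [IntermediateField.fixingSubgroup_fixedField] at h1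


end core

end Pool.Agent.N70.EP
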