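import Mathlib
import Pool.Agent.H84.L.A3_N157_AW_Base
import Pool.Agent.H84.L.A3_N157_AW_Dat
import Pool.Agent.H84.L.A3_N70_AW_Stm
import Pool.Agent.H84.L.A3_N70_EP_Stm
import Pool.Agent.H84.L.S8_H391R2_T4_Nod
import Pool.Agent.H84.L.S8_H391R2_T4_Sem
import Pool.Agent.H84.L.S8_TH444_TW_RS
import Pool.Agent.H84.L.S8_TH444_TW_RSK
import Pool.Agent.H84.L.S8_W200_IG_Fam
import Pool.Agent.H84.L.S8_W200_IG_HF
import Pool.Agent.H84.L.S8_W200_IJ_SA

namespace Pool.Agent.N157.AW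
end Pool.Agent.N157.AW
namespace Pool.Agent.N70.AW
end Pool.Agent.N70.AW
namespace Pool.Agent.N70.EP
end Pool.Agent.N70.EP


/-!
# The basis of the fixed field and its trace form
-/

set_option autoImplicit false
set_option linter.unusedSectionVars false

namespace Pool.Agent.N70.EP.DD

open Polynomial Pool.Agent.N70.AW Pool.Agent.N70.EP Pool.Agent.N157.AW Matrix

/- The determinant of the matrix of the conjugates is rational up to a constant. -/
lemma det_rat0 {K Z : Type} [Field K] [Field Z] [Algebra (RatFunc K) Z]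
    {P : Subgroup (Z ≃ₐ[RatFunc K] Z)} {m : ℕ} {g : Fin m → (Z ≃ₐ[RatFunc K] Z)}
    [FiniteDimensional (RatFunc K) Z] [IsGalois (RatFunc K) Z]
    (hg : Function.Bijective (fun t => (g t : (Z ≃ₐ[RatFunc K] Z) ⧸ P)))
    {ψ : (Z ≃ₐ[RatFunc K] Z) → ℤˣ}
    (hE : ∀ (γ : Z ≃ₐ[RatFunc K] Z) (π : Equiv.Perm (Fin m)),
      (∀ t, ((γ * g t : Z ≃ₐ[RatFunc K] Z) : (Z ≃ₐ[RatFunc K] Z) ⧸ P) =
        (g (π t) : (Z ≃ₐ[RatFunc K] Z) ⧸ P)) → Equiv.Perm.sign π = ψ γ)
    {ρ : Z} (hρ0 : ρ ≠ 0) (hρ : ∀ γ : Z ≃ₐ[RatFunc K] Z, γ ρ = ((ψ γ : ℤˣ) : ℤ) • ρ)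
    {f : Fin m → Z} (hf : ∀ l, ∀ γ ∈ P, γ (f l) = f l) :
    ∃ r : RatFunc K, algebraMap (RatFunc K) Z r * ρ = (Um g f).det := by
  obtain ⟨r, hr⟩ : ∃ r : RatFunc K, algebraMap (RatFunc K) Z r = (Um g f).det * ρ⁻¹ := by
    refine mem_R fun γ => ?_
    obtain ⟨π, hπ⟩ := exists_perm hg γ
    have h1 := RingHom.map_det (γ : Z →+* Z) (Um g f)
    have h2 : (γ : Z →+* Z).mapMatrix (Um g f) = (Um g f).submatrix π id := by
      ext t l
      rw [RingHom.mapMatrix_apply, Matrix.map_apply, Matrix.submatrix_apply, Um_apply, Um_apply]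
      exact act (hf l) (hπ t)
    rw [h2, Matrix.det_permute, hE γ π hπ] at h1
    have h1' : γ (Um g f).det = (((ψ γ : ℤˣ) : ℤ) : Z) * (Um g f).det := h1
    rw [map_mul, map_inv₀, h1', hρ γ, zsmul_eq_mul]
    rcases Int.units_eq_one_or (ψ γ) with h3 | h3 <;> rw [h3]
    · simp
    · rw [Units.val_neg, Units.val_one, Int.cast_neg, Int.cast_one, neg_one_mul, neg_one_mul,
        inv_neg, neg_mul_neg]
  exact ⟨r, by rw [hr, mul_assoc, inv_mul_cancel₀ hρ0, mul_one]⟩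

/- The basis, the dual basis, the Gram matrix. -/
structure Bs0 {K Z : Type} [Field K] [Field Z] [Algebra (RatFunc K) Z] [Algebra K Z]
    (P : Subgroup (Z ≃ₐ[RatFunc K] Z)) (m : ℕ) (D : Derivation K Z Z) (g₀ : Z) (Δ : K[X])
    (e es : Fin m → Z) (S : Matrix (Fin m) (Fin m) K[X]) (q : K[X]) (δ : K) (B : ℕ)
    (aN cN : Fin m → K[X]) : Prop where
  Δ0 : Δ ≠ 0
  e_eq : ∀ l : Fin m, e l = pz Z Δ * (D^[(l : ℕ)]) g₀
  fix_e : ∀ l, ∀ γ ∈ P, γ (e l) = e l
  fix_es : ∀ l, ∀ γ ∈ P, γ (es l) = es l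
  dual1 : ∑ l, e l * es l = 1
  dual0 : ∀ γ : Z ≃ₐ[RatFunc K] Z, γ ∉ P → ∑ l, e l * γ (es l) = 0
  e_es : ∀ l, e l = ∑ l', pz Z (S l l') * es l'
  det : S.det = C δ * q ^ 2
  q_ne : q ≠ 0
  symS : S.transpose = S
  a_eq : pz Z Δ * (D^[m]) g₀ = ∑ l : Fin m, pz Z (aN l) * (D^[(l : ℕ)]) g₀
  c_eq : pz Z Δ * g₀ ^ 2 = ∑ l : Fin m, pz Z (cN l) * (D^[(l : ℕ)]) g₀
  mulx : ∀ (h : Fin m → K[X]) (d : ℕ), (∀ j, Δ ^ 3 ∣ h j) → (∀ j, (h j).natDegree ≤ d) →
    ∃ M L, MD P D e es S (d + B) (∑ j, pz Z (h j) * e j) M L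

/- The derivation commutes with the group. -/
lemma D_iter0 {K Z : Type} [Field K] [Field Z] [Algebra (RatFunc K) Z] [Algebra K Z]
    {D : Derivation K Z Z} (hD : IsDt0 D) (γ : Z ≃ₐ[RatFunc K] Z) (z : Z) (n : ℕ) :
    (D^[n]) (γ z) = γ ((D^[n]) z) := by
  induction n with
  | zero => rfl
  | succ n ih => rw [Function.iterate_succ_apply', Function.iterate_succ_apply', ih, hD.comm]

theorem base0 {K Z : Type} [Field K] [CharZero K] [Field Z] [Algebra (RatFunc K) Z] [Algebra K Z]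
    [IsScalarTower K (RatFunc K) Z] [FiniteDimensional (RatFunc K) Z] [IsGalois (RatFunc K) Z]
    {D : Derivation K Z Z} (hD : IsDt0 D) {P : Subgroup (Z ≃ₐ[RatFunc K] Z)} {m : ℕ}
    {g : Fin m → (Z ≃ₐ[RatFunc K] Z)}
    (hg : Function.Bijective (fun t => (g t : (Z ≃ₐ[RatFunc K] Z) ⧸ P)))
    {ψ : (Z ≃ₐ[RatFunc K] Z) → ℤˣ}
    (hE : ∀ (γ : Z ≃ₐ[RatFunc K] Z) (π : Equiv.Perm (Fin m)),
      (∀ t, ((γ * g t : Z ≃ₐ[RatFunc K] Z) : (Z ≃ₐ[RatFunc K] Z) ⧸ P) =
        (g (π t) : (Z ≃ₐ[RatFunc K] Z) ⧸ P)) → Equiv.Perm.sign π = ψ γ)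
    {ρ : Z} (hρ0 : ρ ≠ 0) (hρ : ∀ γ : Z ≃ₐ[RatFunc K] Z, γ ρ = ((ψ γ : ℤˣ) : ℤ) • ρ)
    {δ : K} (hδ : pzH K Z (C δ) = ρ ^ 2)
    {g₀ : Z} (h0 : ∀ γ : Z ≃ₐ[RatFunc K] Z, γ g₀ = g₀ ↔ γ ∈ P)
    (hdet : (Matrix.of fun t l : Fin m => g t ((D^[(l : ℕ)]) g₀)).det ≠ 0) :
    ∃ (Δ : K[X]) (e es : Fin m → Z) (S : Matrix (Fin m) (Fin m) K[X]) (q : K[X]) (B : ℕ)
      (aN cN : Fin m → K[X]), Bs0 P m D g₀ Δ e es S q δ B aN cN := by
  classical
  obtain ⟨f, hfdef⟩ : ∃ f : Fin m → Z, f = fun l : Fin m => (D^[(l : ℕ)]) g₀ := ⟨_, rfl⟩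
  have hDfix : ∀ n : ℕ, ∀ γ ∈ P, γ ((D^[n]) g₀) = (D^[n]) g₀ := fun n γ hγ => by
    rw [← D_iter0 hD, (h0 γ).2 hγ]
  have hf : ∀ l, ∀ γ ∈ P, γ (f l) = f l := fun l γ hγ => by
    rw [hfdef]; exact hDfix _ γ hγ
  have hU : (Um g f).det ≠ 0 := by
    have : Um g f = Matrix.of fun t l : Fin m => g t ((D^[(l : ℕ)]) g₀) := by
      rw [hfdef]; rfl
    rw [this]
    exact hdet
  obtain ⟨dU, hdU⟩ := det_rat0 hg hE hρ0 hρ hf
  have hδ0 : δ ≠ 0 := by
    rintro rfl
    rw [C_0, map_zero] at hδ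
    exact hρ0 (pow_eq_zero_iff two_ne_zero |>.1 hδ.symm)
  obtain ⟨S0, hS0⟩ := gram_rat hg hf
  have hff : ∀ j l', ∃ h : Fin m → RatFunc K, f j * f l' =
      ∑ l, algebraMap (RatFunc K) Z (h l) * f l := fun j l' =>
    expand hg hf hU fun γ hγ => by rw [map_mul, hf j γ hγ, hf l' γ hγ]
  choose A hA using hff
  obtain ⟨a, ha⟩ := expand hg hf hU (hDfix m)
  obtain ⟨c, hc⟩ := expand hg hf hU (x := g₀ ^ 2) fun γ hγ => by
    rw [map_pow, (h0 γ).2 hγ]
  set ιR := algebraMap (RatFunc K) Z with hιR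
  have hιinj : Function.Injective ιR := (algebraMap (RatFunc K) Z).injective
  have hprinj : Function.Injective (algebraMap K[X] (RatFunc K)) :=
    FaithfulSMul.algebraMap_injective K[X] (RatFunc K)
  -- the inverse of the Gram matrix
  have hdS0 : S0.det ≠ 0 := by
    intro h
    have h1 := RingHom.map_det ιR S0
    rw [RingHom.mapMatrix_apply, hS0, h, map_zero, Matrix.det_mul, Matrix.det_transpose] at h1
    exact mul_ne_zero hU hU h1.symm
  have hS0u : IsUnit S0.det := isUnit_iff_ne_zero.2 hdS0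
  set W : Matrix (Fin m) (Fin m) Z := (S0⁻¹).map ιR with hW
  set G : Matrix (Fin m) (Fin m) Z := (Um g f)ᵀ * Um g f with hG
  have hWG : W * G = 1 := by
    rw [hW, ← hS0, ← Matrix.map_mul, Matrix.nonsing_inv_mul _ hS0u,
      Matrix.map_one _ (map_zero _) (map_one _)]
  have hGW : G * W = 1 := mul_eq_one_comm.1 hWG
  have hGt : Gᵀ = G := by rw [hG, Matrix.transpose_mul, Matrix.transpose_transpose]
  have hWt : Wᵀ = W := by
    have h1 : G * Wᵀ = 1 := by
      have := congrArg Matrix.transpose hWG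
      rwa [Matrix.transpose_mul, Matrix.transpose_one, hGt] at this
    exact (left_inv_eq_right_inv hWG h1).symm
  have hUWU : Um g f * (W * (Um g f)ᵀ) = 1 := by
    apply mul_eq_one_comm.1
    rw [Matrix.mul_assoc, ← hG, hWG]
  have hWfix : ∀ (γ : Z ≃ₐ[RatFunc K] Z) l l', γ (W l l') = W l l' := fun γ l l' => by
    rw [hW, Matrix.map_apply]
    exact γ.commutes _
  obtain ⟨t1, ht1⟩ := exists_one hg
  have hf1 : ∀ l, Um g f t1 l = f l := fun l => by rw [Um_apply, hf l _ ht1]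
  -- the common denominator
  obtain ⟨b, hb⟩ := IsLocalization.exist_integer_multiples_of_finite (nonZeroDivisors K[X])
    (Sum.elim (fun p : Fin m × Fin m => S0 p.1 p.2) (Sum.elim (fun p : Fin m × Fin m =>
      (S0⁻¹) p.1 p.2) (Sum.elim (fun p : Fin m × Fin m × Fin m => A p.1 p.2.1 p.2.2)
        (Sum.elim a c))) : _ → RatFunc K)
  set Δ : K[X] := (b : K[X]) with hΔ
  have hΔ0 : Δ ≠ 0 := nonZeroDivisors.ne_zero b.2
  set Δz : Z := pzH K Z Δ with hΔz
  have hΔz0 : Δz ≠ 0 := pzH_ne hΔ0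
  have hb' : ∀ i, ∃ w : K[X], pzH K Z w = Δz * ιR ((Sum.elim (fun p : Fin m × Fin m => S0 p.1 p.2)
      (Sum.elim (fun p : Fin m × Fin m => (S0⁻¹) p.1 p.2)
      (Sum.elim (fun p : Fin m × Fin m × Fin m => A p.1 p.2.1 p.2.2)
        (Sum.elim a c))) : _ → RatFunc K) i) := by
    intro i
    obtain ⟨w, hw⟩ := hb i
    refine ⟨w, ?_⟩
    rw [pzH_apply, hw, Algebra.smul_def, map_mul]
    rfl
  have hSN : ∀ l l', ∃ w : K[X], pzH K Z w = Δz * G l l' := fun l l' => by
    obtain ⟨w, hw⟩ := hb' (Sum.inl (l, l'))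
    refine ⟨w, hw.trans ?_⟩
    rw [← hS0]
    rfl
  have hTN : ∀ l l', ∃ w : K[X], pzH K Z w = Δz * W l l' := fun l l' =>
    hb' (Sum.inr (Sum.inl (l, l')))
  have hAN : ∀ j l' l, ∃ w : K[X], pzH K Z w = Δz * ιR (A j l' l) := fun j l' l =>
    hb' (Sum.inr (Sum.inr (Sum.inl (j, l', l))))
  have haN : ∀ l, ∃ w : K[X], pzH K Z w = Δz * ιR (a l) := fun l =>
    hb' (Sum.inr (Sum.inr (Sum.inr (Sum.inl l))))
  have hcN : ∀ l, ∃ w : K[X], pzH K Z w = Δz * ιR (c l) := fun l =>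
    hb' (Sum.inr (Sum.inr (Sum.inr (Sum.inr l))))
  choose SN hSN using hSN
  choose TN hTN using hTN
  choose AN hAN using hAN
  choose aN haN using haN
  choose cN hcN using hcN
  -- the matrices
  set S : Matrix (Fin m) (Fin m) K[X] := Matrix.of fun l l' => Δ * SN l l' with hS
  have hSz : S.map (pzH K Z) = Δz ^ 2 • G := by
    ext l l'
    rw [Matrix.map_apply, hS, Matrix.of_apply, map_mul, hSN, Matrix.smul_apply, smul_eq_mul]
    ring
  set TM : Matrix (Fin m) (Fin m) K[X] := Matrix.of TN with hTM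
  have hTz : TM.map (pzH K Z) = Δz • W := by
    ext l l'
    rw [Matrix.map_apply, hTM, Matrix.of_apply, hTN, Matrix.smul_apply, smul_eq_mul]
  have hTS : TM * S = (Δ ^ 3) • (1 : Matrix (Fin m) (Fin m) K[X]) := by
    apply Matrix.map_injective (pzH_inj (K := K) (Z := Z))
    show (TM * S).map (pzH K Z) = ((Δ ^ 3) • (1 : Matrix (Fin m) (Fin m) K[X])).map (pzH K Z)
    rw [Matrix.map_mul, hSz, hTz, Matrix.smul_mul, Matrix.mul_smul, hWG, smul_smul]
    ext l l'
    simp only [Matrix.smul_apply, Matrix.map_apply, smul_eq_mul, map_mul, map_pow, ← hΔz]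
    by_cases h : l = l'
    · subst h
      simp only [Matrix.one_apply_eq, map_one]
      ring
    · simp only [Matrix.one_apply_ne h, map_zero, mul_zero]
  -- the vectors
  set e : Fin m → Z := fun l => Δz * f l with he
  set es : Fin m → Z := fun l => Δz⁻¹ * (W *ᵥ f) l with hes
  have hmul : ∀ j l', e j * e l' = ∑ l, pzH K Z (AN j l' l) * e l := by
    intro j l'
    simp only [he]
    have h1 : Δz * f j * (Δz * f l') = Δz ^ 2 * (f j * f l') := by ring
    rw [h1, hA, Finset.mul_sum]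
    refine Finset.sum_congr rfl fun l _ => ?_
    rw [hAN]
    ring
  -- the determinant
  obtain ⟨q, hq, hq0⟩ : ∃ q : K[X], S.det = C δ * q ^ 2 ∧ q ≠ 0 := by
    set w : RatFunc K := (algebraMap K[X] (RatFunc K) Δ) ^ m * dU with hw
    have h0 : algebraMap K[X] (RatFunc K) (C δ) * w ^ 2 = algebraMap K[X] (RatFunc K) S.det := by
      apply hιinj
      have h2 : pzH K Z S.det = (Δz ^ m * (Um g f).det) ^ 2 := by
        have h3 := RingHom.map_det (pzH K Z) S
        rw [RingHom.mapMatrix_apply, hSz, Matrix.det_smul, Fintype.card_fin, hG, Matrix.det_mul,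
          Matrix.det_transpose] at h3
        rw [h3]
        ring
      have h5 : ιR (algebraMap K[X] (RatFunc K) S.det) = pzH K Z S.det := rfl
      have h6 : ιR (algebraMap K[X] (RatFunc K) (C δ)) = pzH K Z (C δ) := rfl
      have h7 : ιR (algebraMap K[X] (RatFunc K) Δ) = Δz := rfl
      rw [h5, h2, map_mul, map_pow, hw, map_mul, map_pow, h6, h7, hδ, ← hdU]
      ring
    have h8 : (C δ⁻¹ : K[X]) * C δ = 1 := by rw [← C_mul, inv_mul_cancel₀ hδ0, C_1]
    have h1 : w ^ 2 = algebraMap K[X] (RatFunc K) (C δ⁻¹ * S.det) := by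
      rw [map_mul, ← h0, ← mul_assoc, ← map_mul, h8, map_one, one_mul]
    have h4 : IsIntegral K[X] w :=
      IsIntegral.of_pow (n := 2) two_pos (by rw [h1]; exact isIntegral_algebraMap)
    obtain ⟨q, hq⟩ := IsIntegrallyClosed.algebraMap_eq_of_integral h4
    refine ⟨q, ?_, ?_⟩
    · apply hprinj
      rw [← h0, ← hq, map_mul, map_pow]
    · rintro rfl
      rw [map_zero, hw] at hq
      rcases mul_eq_zero.1 hq.symm with h5 | h5
      · exact pow_ne_zero _ (fun h6 => hΔ0 (hprinj (by rw [h6, map_zero]))) h5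
      · rw [h5, map_zero, zero_mul] at hdU
        exact hU hdU.symm
  have fix_e : ∀ l, ∀ γ ∈ P, γ (e l) = e l := fun l γ hγ => by
    simp only [he]
    rw [map_mul, hf l γ hγ, hΔz, gal_pzH]
  have hWf : ∀ l, (W *ᵥ f) l = ∑ l', W l l' * f l' := fun l => rfl
  have fix_es : ∀ l, ∀ γ ∈ P, γ (es l) = es l := fun l γ hγ => by
    simp only [hes]
    rw [map_mul, map_inv₀, hΔz, gal_pzH, hWf, map_sum]
    congr 1
    exact Finset.sum_congr rfl fun l' _ => by rw [map_mul, hWfix, hf l' γ hγ]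
  have key : ∀ (γ : Z ≃ₐ[RatFunc K] Z) (s : Fin m), (γ : (Z ≃ₐ[RatFunc K] Z) ⧸ P) =
      (g s : (Z ≃ₐ[RatFunc K] Z) ⧸ P) →
      ∑ l, e l * γ (es l) = (1 : Matrix (Fin m) (Fin m) Z) t1 s := by
    intro γ s hs
    rw [← hUWU, Matrix.mul_apply]
    refine Finset.sum_congr rfl fun l _ => ?_
    rw [hf1, Matrix.mul_apply]
    have h1 : γ (es l) = Δz⁻¹ * ∑ l', W l l' * (Um g f)ᵀ l' s := by
      simp only [hes]
      rw [map_mul, map_inv₀, hΔz, gal_pzH, hWf, map_sum]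
      congr 1
      refine Finset.sum_congr rfl fun l' _ => ?_
      rw [map_mul, hWfix, Matrix.transpose_apply, Um_apply]
      congr 1
      exact act (hf l') hs
    rw [h1]
    simp only [he]
    field_simp
  have dual1 : ∑ l, e l * es l = 1 := by
    have h1 := key 1 t1 (by
      rw [QuotientGroup.eq, inv_one, one_mul]
      exact ht1)
    rw [Matrix.one_apply_eq] at h1
    exact h1
  have dual0 : ∀ γ : Z ≃ₐ[RatFunc K] Z, γ ∉ P → ∑ l, e l * γ (es l) = 0 := by
    intro γ hγ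
    obtain ⟨s, hs⟩ := hg.2 (γ : (Z ≃ₐ[RatFunc K] Z) ⧸ P)
    have hs' : (γ : (Z ≃ₐ[RatFunc K] Z) ⧸ P) = (g s : (Z ≃ₐ[RatFunc K] Z) ⧸ P) := hs.symm
    rw [key γ s hs', Matrix.one_apply_ne]
    rintro rfl
    rw [QuotientGroup.eq] at hs'
    apply hγ
    have h1 := P.mul_mem ht1 (P.inv_mem hs')
    rwa [_root_.mul_inv_rev, inv_inv, mul_inv_cancel_left] at h1
  have e_es : ∀ l, e l = ∑ l', pz Z (S l l') * es l' := by
    intro l
    have h1 : (G *ᵥ (W *ᵥ f)) l = f l := by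
      rw [Matrix.mulVec_mulVec, hGW, Matrix.one_mulVec]
    have h2 : ∀ l', pz Z (S l l') = Δz ^ 2 * G l l' := fun l' => by
      have := congrFun (congrFun hSz l) l'
      rwa [Matrix.map_apply, Matrix.smul_apply, smul_eq_mul] at this
    simp only [he, hes]
    rw [← h1, Matrix.mulVec, dotProduct, Finset.mul_sum]
    refine Finset.sum_congr rfl fun l' _ => ?_
    rw [h2]
    field_simp
  have symS : S.transpose = S := by
    apply Matrix.map_injective (pzH_inj (K := K) (Z := Z))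
    show S.transpose.map (pzH K Z) = S.map (pzH K Z)
    rw [Matrix.transpose_map, hSz, Matrix.transpose_smul, hGt]
  refine ⟨Δ, e, es, S, q, Finset.univ.sup (fun p : Fin m × Fin m × Fin m =>
    (AN p.1 p.2.1 p.2.2).natDegree), aN, cN, ?_⟩
  refine ⟨hΔ0, fun l => ?_, fix_e, fix_es, dual1, dual0, e_es, hq, hq0, symS, ?_, ?_, ?_⟩
  · rw [he, hfdef]
    rfl
  · rw [ha, Finset.mul_sum]
    refine Finset.sum_congr rfl fun l _ => ?_
    rw [pz_eq, pz_eq, haN, hfdef]
    ring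
  · rw [hc, Finset.mul_sum]
    refine Finset.sum_congr rfl fun l _ => ?_
    rw [pz_eq, pz_eq, hcN, hfdef]
    ring
  intro h d hdvd hdeg
  choose h' hh' using hdvd
  obtain ⟨x, hx⟩ : ∃ x : Z, x = ∑ j, pz Z (h j) * e j := ⟨_, rfl⟩
  rw [← hx]
  set M : Matrix (Fin m) (Fin m) K[X] := Matrix.of fun l l' => ∑ j, h j * AN j l' l with hM
  set L : Matrix (Fin m) (Fin m) K[X] :=
    ∑ j, h' j • ((Matrix.of fun l l' => AN j l' l : Matrix (Fin m) (Fin m) K[X]) * TM) with hL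
  have mul_e : ∀ l', x * e l' = ∑ l, pz Z (M l l') * e l := by
    intro l'
    rw [hx, Finset.sum_mul]
    have h1 : ∀ j, pz Z (h j) * e j * e l' = ∑ l, pz Z (h j * AN j l' l) * e l := by
      intro j
      rw [mul_assoc, hmul, Finset.mul_sum]
      refine Finset.sum_congr rfl fun l _ => ?_
      rw [pz_eq, pz_eq, map_mul]
      ring
    rw [Finset.sum_congr rfl fun j _ => h1 j, Finset.sum_comm]
    refine Finset.sum_congr rfl fun l _ => ?_
    rw [hM, Matrix.of_apply, pz_eq, map_sum, Finset.sum_mul]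
    rfl
  have fac : M = L * S := by
    rw [hL, Finset.sum_mul]
    ext1 l l'
    rw [Matrix.sum_apply]
    rw [hM, Matrix.of_apply]
    refine Finset.sum_congr rfl fun j _ => ?_
    rw [Matrix.smul_mul, Matrix.mul_assoc, hTS, Matrix.mul_smul, Matrix.mul_one,
      Matrix.smul_apply, Matrix.smul_apply, Matrix.of_apply, smul_eq_mul, smul_eq_mul, hh' j]
    ring
  set Mz : Matrix (Fin m) (Fin m) Z := M.map (pzH K Z) with hMz
  have hMzf : Mzᵀ *ᵥ f = x • f := by
    funext l'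
    rw [Matrix.mulVec, dotProduct, Pi.smul_apply, smul_eq_mul]
    have h1 := mul_e l'
    simp only [he] at h1
    have h2 : Δz * (∑ l, Mzᵀ l' l * f l) = Δz * (x * f l') := by
      have h3 : Δz * (x * f l') = x * (Δz * f l') := by ring
      rw [h3, h1, Finset.mul_sum]
      refine Finset.sum_congr rfl fun l _ => ?_
      rw [Matrix.transpose_apply, hMz, Matrix.map_apply, pz_eq]
      ring
    exact mul_left_cancel₀ hΔz0 h2
  have hdiag : Matrix.diagonal (fun t => g t x) * Um g f = Um g f * Mz := by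
    ext t l'
    rw [Matrix.diagonal_mul, Matrix.mul_apply]
    have h1 := congrArg (g t) (mul_e l')
    rw [map_mul, map_sum] at h1
    simp only [he, map_mul, pz_eq, gal_pzH, hΔz] at h1
    have h2 : Δz * ((g t) x * Um g f t l') = Δz * ∑ l, Um g f t l * Mz l l' := by
      have h3 : Δz * ((g t) x * Um g f t l') = (g t) x * (pzH K Z Δ * (g t) (f l')) := by
        rw [Um_apply, hΔz]; ring
      rw [h3, h1, Finset.mul_sum]
      refine Finset.sum_congr rfl fun l _ => ?_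
      rw [hMz, Matrix.map_apply, Um_apply, hΔz]
      ring
    exact mul_left_cancel₀ hΔz0 h2
  have hGM : G * Mz = Mzᵀ * G := by
    have h1 : G * Mz = (Um g f)ᵀ * (Matrix.diagonal (fun t => g t x) * Um g f) := by
      rw [hG, Matrix.mul_assoc, hdiag]
    have h2 : Mzᵀ * G = (G * Mz)ᵀ := by rw [Matrix.transpose_mul, hGt]
    rw [h2, h1, Matrix.transpose_mul, Matrix.transpose_mul, Matrix.transpose_transpose,
      Matrix.diagonal_transpose, Matrix.mul_assoc]
  have hMW : Mz * W = W * Mzᵀ := by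
    calc Mz * W = W * (G * Mz) * W := by
          rw [← Matrix.mul_assoc W G Mz, hWG, Matrix.one_mul]
      _ = W * Mzᵀ := by
          rw [hGM, Matrix.mul_assoc, Matrix.mul_assoc, hGW, Matrix.mul_one]
  have mul_es : ∀ l, x * es l = ∑ l', pz Z (M l l') * es l' := by
    intro l
    have h1 : (Mz *ᵥ (W *ᵥ f)) l = x * (W *ᵥ f) l := by
      rw [Matrix.mulVec_mulVec, hMW, ← Matrix.mulVec_mulVec, hMzf, Matrix.mulVec_smul,
        Pi.smul_apply, smul_eq_mul]
    simp only [hes]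
    have h2 : x * (Δz⁻¹ * (W *ᵥ f) l) = Δz⁻¹ * (x * (W *ᵥ f) l) := by ring
    rw [h2, ← h1, Matrix.mulVec, dotProduct, Finset.mul_sum]
    refine Finset.sum_congr rfl fun l' _ => ?_
    rw [hMz, Matrix.map_apply, pz_eq]
    ring
  have symL : L.transpose = L := by
    apply Matrix.map_injective (pzH_inj (K := K) (Z := Z))
    show L.transpose.map (pzH K Z) = L.map (pzH K Z)
    have h1 : L.map (pzH K Z) * (Δz ^ 2 • G) = Mz := by
      rw [← hSz, ← Matrix.map_mul, ← fac]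
    have h2 : L.map (pzH K Z) = (Δz ^ 2)⁻¹ • (Mz * W) := by
      rw [← h1, Matrix.mul_smul, Matrix.smul_mul, Matrix.mul_assoc, hGW, Matrix.mul_one,
        smul_smul, inv_mul_cancel₀ (pow_ne_zero _ hΔz0), one_smul]
    rw [Matrix.transpose_map, h2, Matrix.transpose_smul, Matrix.transpose_mul, hWt, ← hMW]
  refine ⟨M, L, fun γ hγ => ?_, mul_e, mul_es, fac, symL, fun l l' => ?_, ?_⟩
  · rw [hx, map_sum]
    refine Finset.sum_congr rfl fun j _ => ?_
    rw [map_mul, fix_e j γ hγ, pz_eq, gal_pzH]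
  · rw [hM, Matrix.of_apply]
    refine Polynomial.natDegree_sum_le_of_forall_le _ _ fun j _ => ?_
    refine Polynomial.natDegree_mul_le.trans (add_le_add (hdeg j) ?_)
    exact Finset.le_sup (f := fun p : Fin m × Fin m × Fin m => (AN p.1 p.2.1 p.2.2).natDegree)
      (Finset.mem_univ (j, l', l))
  · -- the derivative
    have h1 : ∀ l', x * D (e l') + e l' * D x =
        ∑ l, (pz Z (M l l') * D (e l) + e l * pz Z (derivative (M l l'))) := by
      intro l'
      have h2 := congrArg D (mul_e l')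
      rw [Derivation.leibniz, map_sum, smul_eq_mul, smul_eq_mul] at h2
      rw [h2]
      refine Finset.sum_congr rfl fun l _ => ?_
      rw [Derivation.leibniz, smul_eq_mul, smul_eq_mul, hD.poly]
    have h3 : ∑ l', (x * D (e l') + e l' * D x) * es l' =
        ∑ l', (∑ l, (pz Z (M l l') * D (e l) + e l * pz Z (derivative (M l l')))) * es l' :=
      Finset.sum_congr rfl fun l' _ => by rw [h1]
    have h4 : ∑ l', (x * D (e l') + e l' * D x) * es l' =
        ∑ l', ∑ l, pz Z (M l' l) * es l * D (e l') + D x := by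
      have h5 : ∀ l', (x * D (e l') + e l' * D x) * es l' =
          (x * es l') * D (e l') + e l' * es l' * D x := fun l' => by ring
      rw [Finset.sum_congr rfl fun l' _ => h5 l', Finset.sum_add_distrib, ← Finset.sum_mul,
        dual1, one_mul]
      congr 1
      refine Finset.sum_congr rfl fun l' _ => ?_
      rw [mul_es, Finset.sum_mul]
    have h6 : ∑ l', (∑ l, (pz Z (M l l') * D (e l) + e l * pz Z (derivative (M l l')))) * es l' =
        ∑ l', ∑ l, pz Z (M l l') * es l' * D (e l) +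
          ∑ l, ∑ l', e l * pz Z (derivative (M l l')) * es l' := by
      rw [Finset.sum_comm (γ := Fin m) (f := fun l l' => e l * pz Z (derivative (M l l')) * es l'),
        ← Finset.sum_add_distrib]
      refine Finset.sum_congr rfl fun l' _ => ?_
      rw [← Finset.sum_add_distrib, Finset.sum_mul]
      exact Finset.sum_congr rfl fun l _ => by ring
    rw [h4, h6, Finset.sum_comm (f := fun l' l => pz Z (M l l') * es l' * D (e l))] at h3
    exact add_left_cancel h3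

end Pool.Agent.N70.EP.DD
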