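import Mathlib
import Pool.Agent.H84.L.A3_N157_AW_Base
import Pool.Agent.H84.L.A3_N157_AW_Dat
import Pool.Agent.H84.L.A3_N70_AW_Stm
import Pool.Agent.H84.L.A3_N70_AW_Stm2
import Pool.Agent.H84.L.A3_N70_EP_DBase
import Pool.Agent.H84.L.A3_N70_EP_Stm
import Pool.Agent.H84.L.S8_H391R2_T4_Nod
import Pool.Agent.H84.L.S8_H391R2_T4_Sol
import Pool.Agent.H84.L.S8_TH15_IGP_TwB
import Pool.Agent.H84.L.S8_TH444_TW_Pow
import Pool.Agent.H84.L.S8_TH444_TW_RS
import Pool.Agent.H84.L.S8_TH444_TW_RSK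
import Pool.Agent.H84.L.S8_W200_IG_Fam
import Pool.Agent.H84.L.S8_W200_IG_HF

namespace Pool.Agent.N157.AW
end Pool.Agent.N157.AW
namespace Pool.Agent.N70.AW
end Pool.Agent.N70.AW
namespace Pool.Agent.N70.EP
end Pool.Agent.N70.EP


/-!
# Assembly of the data
-/

set_option autoImplicit false
set_option linter.unusedSectionVars false

namespace Pool.Agent.N70.EP.DD

open Polynomial Pool.Agent.N70.AW Pool.Agent.N70.EP Pool.Agent.N157.AW Matrix

section

variable {K Z : Type} [Field K] [Field Z] [Algebra (RatFunc K) Z] [Algebra K Z]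

lemma ibp0 {D : Derivation K Z Z} (hD : IsDt0 D) (g₀ : Z) (l : ℕ) (w : K[X]) :
    pz Z w * (D^[l]) g₀ = pz Z ((-1) ^ l * derivative^[l] w) * g₀ + D (IBP D g₀ l w) := by
  induction l generalizing w with
  | zero => simp [IBP]
  | succ l ih =>
    have h1 : pz Z w * (D^[l + 1]) g₀ = D (pz Z w * (D^[l]) g₀) -
        pz Z (derivative w) * (D^[l]) g₀ := by
      rw [Derivation.leibniz, smul_eq_mul, smul_eq_mul, hD.poly, Function.iterate_succ_apply']
      ring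
    have h2 : IBP D g₀ (l + 1) w = pz Z w * (D^[l]) g₀ - IBP D g₀ l (derivative w) := by
      rw [IBP, Finset.sum_range_succ', IBP]
      have h3 : ∀ i ∈ Finset.range l, pz Z ((-1) ^ (i + 1) * derivative^[i + 1] w) *
          (D^[l + 1 - 1 - (i + 1)]) g₀ =
          -(pz Z ((-1) ^ i * derivative^[i] (derivative w)) * (D^[l - 1 - i]) g₀) := by
        intro i _
        have h4 : l + 1 - 1 - (i + 1) = l - 1 - i := by omega
        rw [h4, Function.iterate_succ_apply, pow_succ, pz_mul, pz_mul, pz_mul, pz_neg, pz_one]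
        ring
      rw [Finset.sum_congr rfl h3, Finset.sum_neg_distrib]
      simp only [pow_zero, one_mul, Function.iterate_zero, id_eq, Nat.add_sub_cancel,
        Nat.sub_zero]
      ring
    rw [h1, ih (derivative w), h2, map_sub, Function.iterate_succ_apply, pow_succ, pz_mul, pz_mul, pz_mul,
      pz_neg, pz_one]
    ring

end

section

variable {K Z : Type} [Field K] [CharZero K] [Field Z] [Algebra (RatFunc K) Z] [Algebra K Z]

theorem exists_sq0 (hdeg : St_deg) {P : Subgroup (Z ≃ₐ[RatFunc K] Z)} {m : ℕ}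
    {D : Derivation K Z Z} (hD : IsDt0 D) {g₀ : Z}
    (h0 : ∀ γ : Z ≃ₐ[RatFunc K] Z, γ g₀ = g₀ ↔ γ ∈ P) {Δ : K[X]} {e es : Fin m → Z}
    {S : Matrix (Fin m) (Fin m) K[X]} {q : K[X]} {δ : K} {B : ℕ} {aN cN : Fin m → K[X]}
    (hB : Bs0 P m D g₀ Δ e es S q δ B aN cN) :
    ∃ (α β : K[X]) (κt : ℕ → K[X]) (xt : ℕ → Z) (Mt Lt : ℕ → Matrix (Fin m) (Fin m) K[X])
      (x0 : Z) (M0 L0 : Matrix (Fin m) (Fin m) K[X]) (c0 c1 t0 : ℕ) (ν : ℤ),
      Sq P D g₀ e es S α β κt xt Mt Lt x0 M0 L0 c0 c1 t0 ν := by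
  classical
  have hΔ0 := hB.Δ0
  -- the element of degree zero
  obtain ⟨β, hβ⟩ : ∃ β : K[X], β = Δ ^ (m + 8) := ⟨_, rfl⟩
  obtain ⟨wc, hwc⟩ : ∃ wc : Fin m → K[X], wc = fun l => Δ ^ (2 * m + 15) * cN l := ⟨_, rfl⟩
  obtain ⟨A, hA⟩ : ∃ A : K[X], A = ∑ l : Fin m, (-1) ^ (l : ℕ) * derivative^[(l : ℕ)] (wc l) :=
    ⟨_, rfl⟩
  obtain ⟨Y0, hY0⟩ : ∃ Y0 : Z, Y0 = ∑ l : Fin m, IBP D g₀ l (wc l) := ⟨_, rfl⟩
  have hrel0 : pz Z β ^ 2 * g₀ ^ 2 = pz Z A * g₀ + D Y0 := by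
    have h1 : pz Z β ^ 2 * g₀ ^ 2 = pz Z (Δ ^ (2 * m + 15)) * (pz Z Δ * g₀ ^ 2) := by
      rw [← pz_pow, hβ, ← mul_assoc, ← pz_mul]
      congr 2
      ring
    have h2 : ∀ l : Fin m, pz Z (Δ ^ (2 * m + 15)) * (pz Z (cN l) * (D^[(l : ℕ)]) g₀) =
        pz Z ((-1) ^ (l : ℕ) * derivative^[(l : ℕ)] (wc l)) * g₀ + D (IBP D g₀ l (wc l)) := by
      intro l
      rw [← ibp0 hD, hwc, pz_mul]
      ring
    rw [h1, hB.c_eq, Finset.mul_sum, Finset.sum_congr rfl fun l _ => h2 l,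
      Finset.sum_add_distrib, ← Finset.sum_mul, ← pz_sum, ← map_sum, ← hA, ← hY0]
  have hdA : β ∣ A := by
    rw [hA]
    refine Finset.dvd_sum fun l _ => Dvd.dvd.mul_left ?_ _
    rw [hβ]
    refine (pow_dvd_pow Δ ?_).trans (pow_sub_dvd_iterate_derivative_of_pow_dvd (l : ℕ)
      (n := 2 * m + 15) (p := wc l) (q := Δ) ?_)
    · have := l.2; omega
    · rw [hwc]; exact Dvd.intro _ rfl
  obtain ⟨α0, hα0⟩ := hdA
  obtain ⟨α, hα⟩ : ∃ α : K[X], α = C (-(2⁻¹ : K)) * α0 := ⟨_, rfl⟩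
  have hαβ : 2 * α * β = -A := by
    have h1 : (2 : K[X]) * C (-(2⁻¹ : K)) = -1 := by
      have h2 : (2 : K[X]) = C (2 : K) := (map_ofNat C 2).symm
      rw [h2, ← C_mul, mul_neg, mul_inv_cancel₀ two_ne_zero, C_neg, C_1]
    rw [hα, hα0]
    linear_combination α0 * β * h1
  have hg0 : Gd Δ e (Finset.univ.sup fun l => (wc l).natDegree) Y0 := by
    rw [hY0]
    refine Gd.sum _ fun l _ => Gd.ibp hΔ0 hB.e_eq ?_ (Finset.le_sup (f := fun l =>
      (wc l).natDegree) (Finset.mem_univ l)) l.2.le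
    rw [hwc]
    exact (pow_dvd_pow Δ (by omega)).trans (Dvd.intro _ rfl)
  obtain ⟨h00, h01, h02, h03⟩ := hg0
  obtain ⟨M0, L0, hM0⟩ := hB.mulx h00 _ h01 h02
  rw [← h03] at hM0
  -- the sequences
  obtain ⟨p, hp⟩ : ∃ p : Fin (m + 1) → K[X], p = fun l : Fin (m + 1) =>
      if h : (l : ℕ) < m then -(Δ ^ (2 * m + 15) * aN ⟨l, h⟩) else Δ ^ (2 * m + 16) := ⟨_, rfl⟩
  have hp1 : ∀ l : Fin m, p l.castSucc = -(Δ ^ (2 * m + 15) * aN l) := fun l => by
    have h1 : ((l.castSucc : Fin (m + 1)) : ℕ) < m := l.2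
    rw [hp]
    beta_reduce
    rw [dif_pos h1]
    rfl
  have hp2 : p (Fin.last m) = Δ ^ (2 * m + 16) := by
    rw [hp]
    beta_reduce
    rw [dif_neg (by simp)]
  have hpd : ∀ l, Δ ^ (2 * m + 15) ∣ p l := by
    intro l
    refine Fin.lastCases ?_ (fun l => ?_) l
    · rw [hp2]; exact pow_dvd_pow Δ (by omega)
    · rw [hp1]; exact (dvd_neg).2 (Dvd.intro _ rfl)
  obtain ⟨κ', hκ'⟩ : ∃ κ' : ℕ → K[X], κ' = fun t => ∑ l : Fin (m + 1),
      (-1 : K[X]) ^ (l : ℕ) * derivative^[(l : ℕ)] (p l * X ^ t) := ⟨_, rfl⟩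
  obtain ⟨Y, hY⟩ : ∃ Y : ℕ → Z, Y = fun t => ∑ l : Fin (m + 1), IBP D g₀ l (p l * X ^ t) :=
    ⟨_, rfl⟩
  have hrel : ∀ t, 0 = pz Z (κ' t) * g₀ + D (Y t) := by
    intro t
    have h1 : ∑ l : Fin (m + 1), pz Z (p l * X ^ t) * (D^[(l : ℕ)]) g₀ = 0 := by
      rw [Fin.sum_univ_castSucc, hp2]
      have h2 : ∀ l : Fin m, pz Z (p l.castSucc * X ^ t) *
          (D^[((l.castSucc : Fin (m + 1)) : ℕ)]) g₀ =
          -(pz Z (Δ ^ (2 * m + 15) * X ^ t) * (pz Z (aN l) * (D^[(l : ℕ)]) g₀)) := by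
        intro l
        rw [hp1, Fin.val_castSucc, pz_mul, pz_mul, pz_neg, pz_mul]
        ring
      rw [Finset.sum_congr rfl fun l _ => h2 l, Finset.sum_neg_distrib, ← Finset.mul_sum,
        ← hB.a_eq, Fin.val_last]
      rw [pz_mul, pz_mul, pow_succ Δ (2 * m + 15), pz_mul]
      ring
    have h3 : ∀ l : Fin (m + 1), pz Z (p l * X ^ t) * (D^[(l : ℕ)]) g₀ =
        pz Z ((-1 : K[X]) ^ (l : ℕ) * derivative^[(l : ℕ)] (p l * X ^ t)) * g₀ +
          D (IBP D g₀ l (p l * X ^ t)) := fun l => ibp0 hD g₀ _ _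
    rw [Finset.sum_congr rfl fun l _ => h3 l, Finset.sum_add_distrib, ← Finset.sum_mul,
      ← pz_sum, ← map_sum] at h1
    rw [hκ', hY]
    exact h1.symm
  have hdκ : ∀ t, β ∣ κ' t := by
    intro t
    rw [hκ']
    refine Finset.dvd_sum fun l _ => Dvd.dvd.mul_left ?_ _
    rw [hβ]
    refine (pow_dvd_pow Δ ?_).trans (pow_sub_dvd_iterate_derivative_of_pow_dvd (l : ℕ)
      (n := 2 * m + 15) (p := p l * X ^ t) (q := Δ) ((hpd l).mul_right _))
    have := l.2; omega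
  choose κt hκt using hdκ
  obtain ⟨d1, hd1⟩ : ∃ d1 : ℕ, d1 = Finset.univ.sup fun l => (p l).natDegree := ⟨_, rfl⟩
  have hg1 : ∀ t, Gd Δ e (t + d1) (-(Y t)) := by
    intro t
    refine Gd.neg ?_
    rw [hY]
    refine Gd.sum _ fun l _ => Gd.ibp hΔ0 hB.e_eq ?_ ?_ (by have := l.2; omega)
    · exact (pow_dvd_pow Δ (by omega)).trans ((hpd l).mul_right _)
    · refine natDegree_mul_le.trans ?_
      rw [natDegree_X_pow, add_comm t]
      refine Nat.add_le_add_right ?_ t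
      rw [hd1]
      exact Finset.le_sup (f := fun l => (p l).natDegree) (Finset.mem_univ l)
  have hg2 : ∀ t, ∃ M L, MD P D e es S (t + (d1 + B)) (-(Y t)) M L := by
    intro t
    obtain ⟨h00, h01, h02, h03⟩ := hg1 t
    obtain ⟨M, L, hM⟩ := hB.mulx h00 _ h01 h02
    rw [← h03, add_assoc] at hM
    exact ⟨M, L, hM⟩
  choose Mt Lt hMt using hg2
  obtain ⟨μ, t0, hμ⟩ := hdeg K m p (by rw [hp2]; exact pow_ne_zero _ hΔ0)
  have hβ0 : β ≠ 0 := by rw [hβ]; exact pow_ne_zero _ hΔ0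
  have hμ1 : ∀ t, t0 ≤ t → κ' t ≠ 0 := fun t ht => by rw [hκ']; exact (hμ t ht).1
  have hne : ∀ t, t0 ≤ t → κt t ≠ 0 := fun t ht h => by
    apply hμ1 t ht
    rw [hκt, h, mul_zero]
  refine ⟨α, β, κt, fun t => -(Y t), Mt, Lt, Y0, M0, L0, _, d1 + B, t0, μ - β.natDegree,
    hβ0, h0, hMt, hM0, fun t => ?_, ?_, hne, fun t ht => ?_⟩
  · have h1 := hrel t
    rw [hκt, pz_mul] at h1
    rw [map_neg]
    linear_combination h1
  · have h1 : 2 * pz Z α * pz Z β = -pz Z A := by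
      rw [← pz_neg, ← hαβ, pz_mul, pz_mul]
      congr 2
      exact (map_ofNat (pzH K Z) 2).symm
    linear_combination -hrel0 - g₀ * h1
  · have h1 := (hμ t ht).2
    have h2 : κ' t = ∑ l : Fin (m + 1),
      (-1 : K[X]) ^ (l : ℕ) * derivative^[(l : ℕ)] (p l * X ^ t) := by rw [hκ']
    rw [← h2, hκt, natDegree_mul hβ0 (hne t ht)] at h1
    push_cast at h1
    linarith

variable {ι : Type}

theorem mkDt0 {P : Subgroup (Z ≃ₐ[RatFunc K] Z)} {m : ℕ}
    {D : Derivation K Z Z} (hD : IsDt0 D) {g₀ : Z} {Δ : K[X]} {e es : Fin m → Z}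
    {S : Matrix (Fin m) (Fin m) K[X]} {q : K[X]} {δ : K} {B : ℕ} {aN cN : Fin m → K[X]}
    (hB : Bs0 P m D g₀ Δ e es S q δ B aN cN) {α β : K[X]} {κt : ℕ → K[X]} {xt : ℕ → Z}
    {Mt Lt : ℕ → Matrix (Fin m) (Fin m) K[X]} {x0 : Z} {M0 L0 : Matrix (Fin m) (Fin m) K[X]}
    {c0 c1 t0 : ℕ} {ν : ℤ} (hS : Sq P D g₀ e es S α β κt xt Mt Lt x0 M0 L0 c0 c1 t0 ν)
    [Fintype ι] (τ : ι → ℕ) (k d : ℕ) (hτ : ∀ i, t0 ≤ τ i) (hinj : Function.Injective τ)
    (hk : ∀ i, (τ i : ℤ) + ν ≤ k) (hα : α.natDegree ≤ k) (htop : ∃ i, (τ i : ℤ) + ν = k)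
    (hd0 : c0 ≤ d) (hd : ∀ i, τ i + c1 ≤ d) (hdk : d ≤ 2 * k)
    (hcard : k + 3 < 2 * Fintype.card ι) :
    Dt0 P m k d (κf α κt τ) (vf α β g₀ κt τ) (xf x0 xt τ) e es S (xf M0 Mt τ) (xf L0 Lt τ) where
  fix_e := hB.fix_e
  fix_es := hB.fix_es
  fix_v := by
    rintro (_ | i) γ hγ
    · show γ (pz Z α + pz Z β * g₀) = pz Z α + pz Z β * g₀
      rw [map_add, map_mul, gal_pz, gal_pz, (hS.h0 γ).2 hγ]
    · exact gal_pz γ _
  fix_x := by
    rintro (_ | i) (_ | j) γ hγ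
    · exact hS.md0.fix γ hγ
    · exact (hS.md _).fix γ hγ
    · exact (hS.md _).fix γ hγ
    · exact map_zero γ
  dual1 := hB.dual1
  dual0 := hB.dual0
  e_es := hB.e_es
  symS := hB.symS
  mul_e := by
    rintro (_ | i) (_ | j) l'
    · exact hS.md0.mul_e l'
    · exact (hS.md _).mul_e l'
    · exact (hS.md _).mul_e l'
    · show (0 : Z) * e l' = ∑ l, pz Z ((0 : Matrix (Fin m) (Fin m) K[X]) l l') * e l
      simp only [Matrix.zero_apply, pz_zero, zero_mul, Finset.sum_const_zero]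
  mul_es := by
    rintro (_ | i) (_ | j) l
    · exact hS.md0.mul_es l
    · exact (hS.md _).mul_es l
    · exact (hS.md _).mul_es l
    · show (0 : Z) * es l = ∑ l', pz Z ((0 : Matrix (Fin m) (Fin m) K[X]) l l') * es l'
      simp only [Matrix.zero_apply, pz_zero, zero_mul, Finset.sum_const_zero]
  fac := by
    rintro (_ | i) (_ | j)
    · exact hS.md0.fac
    · exact (hS.md _).fac
    · exact (hS.md _).fac
    · exact (Matrix.zero_mul S).symm
  symL := by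
    rintro (_ | i) (_ | j)
    · exact hS.md0.symL
    · exact (hS.md _).symL
    · exact (hS.md _).symL
    · exact Matrix.transpose_zero
  deg := by
    rintro (_ | i) (_ | j) l l'
    · exact (hS.md0.deg l l').trans hd0
    · exact ((hS.md _).deg l l').trans (hd j)
    · exact ((hS.md _).deg l l').trans (hd i)
    · show ((0 : Matrix (Fin m) (Fin m) K[X]) l l').natDegree ≤ d
      rw [Matrix.zero_apply, natDegree_zero]
      exact Nat.zero_le _
  symx := by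
    rintro (_ | i) (_ | j) <;> rfl
  symM := by
    rintro (_ | i) (_ | j) <;> rfl
  zero := fun _ _ => rfl
  zeroM := fun _ _ => rfl
  der := by
    rintro (_ | i) (_ | j)
    · show (pz Z α + pz Z β * g₀) * (pz Z α + pz Z β * g₀) = pz Z (α * α) +
        ∑ l, ∑ l', e l * pz Z (derivative (M0 l l')) * es l'
      rw [← hS.md0.der, hS.dx0, pz_mul]
      ring
    · show (pz Z α + pz Z β * g₀) * pz Z (κt (τ j)) = pz Z (α * κt (τ j)) +
        ∑ l, ∑ l', e l * pz Z (derivative (Mt (τ j) l l')) * es l'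
      rw [← (hS.md _).der, hS.dx, pz_mul]
      ring
    · show pz Z (κt (τ i)) * (pz Z α + pz Z β * g₀) = pz Z (κt (τ i) * α) +
        ∑ l, ∑ l', e l * pz Z (derivative (Mt (τ i) l l')) * es l'
      rw [← (hS.md _).der, hS.dx, pz_mul]
      ring
    · show pz Z (κt (τ i)) * pz Z (κt (τ j)) = pz Z (κt (τ i) * κt (τ j)) +
        ∑ l, ∑ l', e l * pz Z (derivative ((0 : Matrix (Fin m) (Fin m) K[X]) l l')) * es l'
      simp only [Matrix.zero_apply, map_zero, pz_zero, mul_zero, zero_mul,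
        Finset.sum_const_zero, add_zero]
      rw [pz_mul]
  v_some := fun _ => rfl
  stab := by
    intro γ h
    obtain ⟨i, _⟩ := htop
    have h1 : γ (xt (τ i)) = xt (τ i) := h i
    have h2 := congrArg D h1
    rw [hD.comm, hS.dx, map_mul, map_mul, gal_pz, gal_pz] at h2
    have h3 := mul_left_cancel₀ (pz_ne (hS.ne _ (hτ i))) h2
    have h4 := mul_left_cancel₀ (pz_ne hS.β0) h3
    exact (hS.h0 γ).1 h4
  lin := by
    refine linInd _ (fun i => hS.ne _ (hτ i)) fun i j hij => hinj ?_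
    have h1 := hS.dg _ (hτ i)
    have h2 := hS.dg _ (hτ j)
    have h3 : (κt (τ i)).natDegree = (κt (τ j)).natDegree := hij
    rw [h3] at h1
    omega
  kdeg := by
    rintro (_ | i)
    · exact hα
    · have h1 := hS.dg _ (hτ i)
      have h2 := hk i
      show (κt (τ i)).natDegree ≤ k
      omega
  ktop := by
    obtain ⟨i, hi⟩ := htop
    refine ⟨i, ?_⟩
    have h1 := hS.dg _ (hτ i)
    show (κt (τ i)).natDegree = k
    omega
  dk := hdk
  card := hcard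

end

/- **The data.** -/
theorem datTOf : St_datTOf := by
  intro hcv hdeg K F Z _ _ _ _ _ _ _ _ _ _ _ _ _ _ pr hpr hconst P m χ hP hE ρ δ hρ0 hδ hρ
  obtain ⟨g, hg, hsgn⟩ := hE
  obtain ⟨D, hD, g₀, h0, hdet⟩ := hcv K F Z pr hpr hconst P m g hP hg
  have hρz0 : algebraMap F Z ρ ≠ 0 := by
    intro h
    exact hρ0 ((algebraMap F Z).injective (by rw [h, map_zero]))
  have hρz : ∀ γ : Z ≃ₐ[RatFunc K] Z, γ (algebraMap F Z ρ) =
      (((χ.comp pr) γ : ℤˣ) : ℤ) • algebraMap F Z ρ := by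
    intro γ
    rw [hpr, hρ, map_zsmul]
    rfl
  have hδz : pzH K Z (C δ) = algebraMap F Z ρ ^ 2 := by
    have h1 : pzH K Z (C δ) = algebraMap K Z δ := by
      rw [pzH_apply, IsScalarTower.algebraMap_apply K (RatFunc K) Z]
      rfl
    rw [h1, IsScalarTower.algebraMap_apply K F Z, hδ, map_pow]
  obtain ⟨Δ, e, es, S, q, B, aN, cN, hB⟩ := base0 hD hg hsgn hρz0 hρz hδz h0 hdet
  obtain ⟨α, β, κt, xt, Mt, Lt, x0, M0, L0, c0, c1, t0, ν, hS⟩ := exists_sq0 hdeg hD h0 hB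
  refine ⟨α.natDegree + 4 * (ν.natAbs + t0 + c0 + c1 + 4), fun k hk => ?_⟩
  obtain ⟨p, hp⟩ : ∃ p : ℕ, (p : ℤ) = (k : ℤ) - ν - t0 + 1 :=
    ⟨((k : ℤ) - ν - t0 + 1).toNat, by omega⟩
  obtain ⟨t1, ht1⟩ : ∃ t1 : ℕ, (t1 : ℤ) = (k : ℤ) + 2 - ν := ⟨((k : ℤ) + 2 - ν).toNat, by omega⟩
  obtain ⟨τ, hτ⟩ : ∃ τ : Option (Fin p) → ℕ, τ = fun j => j.elim t1 fun i => t0 + i := ⟨_, rfl⟩
  have hτn : τ none = t1 := by rw [hτ]; rfl
  have hτs : ∀ i : Fin p, τ (some i) = t0 + i := fun i => by rw [hτ]; rfl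
  refine ⟨p, t1 + c0 + c1, κf α κt τ, vf α β g₀ κt τ, xf x0 xt τ, e, es, S, q, xf M0 Mt τ,
    xf L0 Lt τ, hB.det, hB.q_ne, ?_, ?_, ?_⟩
  · refine mkDt0 hD hB hS τ (k + 2) (t1 + c0 + c1) ?_ ?_ ?_ ?_ ?_ ?_ ?_ ?_ ?_
    · rintro (_ | i)
      · rw [hτn]; omega
      · rw [hτs]; omega
    · rintro (_ | i) (_ | j) h
      · rfl
      · rw [hτn, hτs] at h
        have := j.2
        omega
      · rw [hτn, hτs] at h
        have := i.2
        omega
      · rw [hτs, hτs] at h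
        have : i = j := Fin.ext (by omega)
        rw [this]
    · rintro (_ | i)
      · rw [hτn]; push_cast; omega
      · rw [hτs]
        have := i.2
        push_cast
        omega
    · omega
    · exact ⟨none, by rw [hτn]; push_cast; omega⟩
    · omega
    · rintro (_ | i)
      · rw [hτn]; omega
      · rw [hτs]
        have := i.2
        omega
    · omega
    · rw [Fintype.card_option, Fintype.card_fin]
      omega
  · show (κt (τ none)).natDegree = k + 2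
    have h1 := hS.dg t1 (by omega)
    rw [hτn]
    omega
  · have e1 : (fun j : Option (Fin p) => κf α κt τ (j.map some)) = κf α κt (τ ∘ some) := by
      funext j; cases j <;> rfl
    have e2 : (fun j : Option (Fin p) => vf α β g₀ κt τ (j.map some)) =
        vf α β g₀ κt (τ ∘ some) := by
      funext j; cases j <;> rfl
    have e3 : (fun i j : Option (Fin p) => xf x0 xt τ (i.map some) (j.map some)) =
        xf x0 xt (τ ∘ some) := by
      funext i j; cases i <;> cases j <;> rfl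
    have e4 : (fun i j : Option (Fin p) => xf M0 Mt τ (i.map some) (j.map some)) =
        xf M0 Mt (τ ∘ some) := by
      funext i j; cases i <;> cases j <;> rfl
    have e5 : (fun i j : Option (Fin p) => xf L0 Lt τ (i.map some) (j.map some)) =
        xf L0 Lt (τ ∘ some) := by
      funext i j; cases i <;> cases j <;> rfl
    rw [e1, e2, e3, e4, e5]
    refine mkDt0 hD hB hS (τ ∘ some) k (t1 + c0 + c1) ?_ ?_ ?_ ?_ ?_ ?_ ?_ ?_ ?_
    · intro i
      rw [Function.comp_apply, hτs]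
      omega
    · intro i j h
      rw [Function.comp_apply, Function.comp_apply, hτs, hτs] at h
      exact Fin.ext (by omega)
    · intro i
      rw [Function.comp_apply, hτs]
      have := i.2
      push_cast
      omega
    · omega
    · have hp0 : p - 1 < p := by omega
      refine ⟨⟨p - 1, hp0⟩, ?_⟩
      rw [Function.comp_apply, hτs]
      push_cast
      omega
    · omega
    · intro i
      rw [Function.comp_apply, hτs]
      have := i.2
      omega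
    · omega
    · rw [Fintype.card_fin]
      omega

end Pool.Agent.N70.EP.DD
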