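import Mathlib



/-!
Statement (NOT a result) of a further piece of the project EP (helper70): natural density.
-/

set_option autoImplicit false

namespace Pool.Agent.N70.EP

open scoped Classical in
/- Almost all multiples of `d` (in the sense of natural density) satisfy `A`: the number of the
multiples `n < x` of `d` which do not satisfy `A` is `o(x)`. -/
def AlmostAll (d : ℕ) (A : ℕ → Prop) : Prop :=
  ∀ ε : ℝ, 0 < ε → ∃ N : ℕ, ∀ x ≥ N,
    (((Finset.range x).filter fun n => d ∣ n ∧ ¬ A n).card : ℝ) ≤ ε * x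

/- DENS. -/
def St_dens : Prop :=
  ∀ (I : ℕ) (A : ℕ → Prop), 0 < I →
    (∀ q : ℕ, Even q → 4 ≤ q → ∃ r₀ : ℕ, ∀ s ≥ r₀, Odd s → ∃ k₀ : ℕ, ∀ k ≥ k₀,
      A (q * (I * s) * (2 * k + 1))) → AlmostAll (2 * I) A

end Pool.Agent.N70.EP
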