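import Mathlib
import Pool.Agent.H84.L.A3_N70_EP_Stm5



/-!
Natural density.
-/

set_option autoImplicit false

namespace Pool.Agent.N70.EP

open Finset

/- Finite sets of large odd primes with small product of `1 - 1 / p`. -/
theorem exists_primes (R : ℕ) (η : ℝ) (hη : 0 < η) :
    ∃ F : Finset ℕ, (∀ p ∈ F, p.Prime ∧ R ≤ p ∧ 3 ≤ p) ∧ ∏ p ∈ F, (1 - (p : ℝ)⁻¹) < η := by
  classical
  set f : ℕ → ℝ := Set.indicator {p : ℕ | p.Prime} (fun n : ℕ => (1 : ℝ) / n) with hf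
  have hf0 : ∀ n, 0 ≤ f n := fun n => by
    rw [hf]
    exact Set.indicator_nonneg (fun x _ => by positivity) n
  have h1 := (not_summable_iff_tendsto_nat_atTop_of_nonneg hf0).1 not_summable_one_div_on_primes
  obtain ⟨C, hC⟩ : ∃ C : ℝ, Real.exp (-C) < η := by
    refine ⟨-Real.log η + 1, ?_⟩
    rw [neg_add, neg_neg, Real.exp_add, Real.exp_log hη]
    have h2 : Real.exp (-1) < 1 := by
      calc Real.exp (-1) < Real.exp 0 := Real.exp_lt_exp.2 (by norm_num)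
        _ = 1 := Real.exp_zero
    nlinarith
  obtain ⟨N, hN⟩ := (h1.eventually_ge_atTop (C + ∑ i ∈ range (R + 3), f i)).exists
  set F : Finset ℕ := (range N).filter fun p => p.Prime ∧ R + 3 ≤ p with hF
  have h3 : C ≤ ∑ p ∈ F, (p : ℝ)⁻¹ := by
    have h4 : ∑ i ∈ range N, f i ≤ ∑ i ∈ range (R + 3), f i + ∑ p ∈ F, (p : ℝ)⁻¹ := by
      have h5 : ∀ i ∈ range N, f i ≤ (if i < R + 3 then f i else 0) +
          (if i.Prime ∧ R + 3 ≤ i then (i : ℝ)⁻¹ else 0) := by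
        intro i _
        by_cases hi : i < R + 3
        · rw [if_pos hi, if_neg (fun h => absurd h.2 (by omega)), add_zero]
        · rw [if_neg hi, zero_add]
          by_cases hp : i.Prime
          · rw [if_pos ⟨hp, by omega⟩, hf, Set.indicator_of_mem (show i ∈ {p : ℕ | p.Prime} from hp)]
            exact (one_div _).le
          · rw [hf, Set.indicator_of_notMem (show i ∉ {p : ℕ | p.Prime} from hp)]
            split_ifs
            · positivity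
            · exact le_rfl
      refine (Finset.sum_le_sum h5).trans ?_
      rw [Finset.sum_add_distrib, ← Finset.sum_filter, ← Finset.sum_filter, ← hF]
      refine add_le_add ?_ le_rfl
      refine Finset.sum_le_sum_of_subset_of_nonneg ?_ fun i _ _ => hf0 i
      intro i hi
      rw [Finset.mem_filter] at hi
      exact Finset.mem_range.2 hi.2
    linarith
  refine ⟨F, fun p hp => ?_, ?_⟩
  · rw [hF, Finset.mem_filter] at hp
    exact ⟨hp.2.1, by omega, by omega⟩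
  · have h6 : ∏ p ∈ F, (1 - (p : ℝ)⁻¹) ≤ Real.exp (-∑ p ∈ F, (p : ℝ)⁻¹) := by
      rw [← Finset.sum_neg_distrib, Real.exp_sum]
      refine Finset.prod_le_prod (fun p hp => ?_) fun p hp => ?_
      · rw [hF, Finset.mem_filter] at hp
        have h7 : (1 : ℝ) ≤ p := by exact_mod_cast hp.2.1.one_le
        have h8 := inv_le_one_of_one_le₀ h7
        linarith
      · have := Real.add_one_le_exp (-(p : ℝ)⁻¹)
        linarith
    exact (h6.trans (Real.exp_le_exp.2 (by linarith))).trans_lt hC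

/- The numbers without prime factors in a finite set. -/
theorem count_coprime (F : Finset ℕ) (hF : ∀ p ∈ F, p.Prime) :
    ∃ C : ℝ, ∀ y : ℕ, (((range y).filter fun u => ∀ p ∈ F, ¬ p ∣ u).card : ℝ) ≤
      (∏ p ∈ F, (1 - (p : ℝ)⁻¹)) * y + C := by
  classical
  set Q : ℕ := ∏ p ∈ F, p with hQ
  have hQ0 : Q ≠ 0 := Finset.prod_ne_zero_iff.2 fun p hp => (hF p hp).ne_zero
  refine ⟨Q.totient, fun y => ?_⟩
  have h1 : ((range y).filter fun u => ∀ p ∈ F, ¬ p ∣ u).card ≤ Q.totient * (y / Q + 1) := by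
    refine le_trans (Finset.card_le_card ?_) (Nat.Ico_filter_coprime_le 0 y hQ0)
    intro u hu
    rw [Finset.mem_filter, Finset.mem_range] at hu
    rw [Finset.mem_filter, Finset.mem_Ico]
    refine ⟨⟨Nat.zero_le _, by omega⟩, ?_⟩
    rw [hQ]
    exact Nat.Coprime.prod_left fun p hp => ((hF p hp).coprime_iff_not_dvd).2 (hu.2 p hp)
  have h2 : (Q.totient : ℝ) = Q * ∏ p ∈ F, (1 - (p : ℝ)⁻¹) := by
    have h3 := Nat.totient_eq_mul_prod_factors Q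
    have h4 : Q.primeFactors = F := Nat.primeFactors_prod hF
    rw [h4] at h3
    have h5 : (((Q.totient : ℚ)) : ℝ) = ((Q * ∏ p ∈ F, (1 - (p : ℚ)⁻¹) : ℚ) : ℝ) := by rw [h3]
    push_cast at h5
    exact h5
  have hQ1 : (0 : ℝ) < Q := by exact_mod_cast Nat.pos_of_ne_zero hQ0
  have h6 : ((Q.totient * (y / Q + 1) : ℕ) : ℝ) ≤ Q.totient * ((y : ℝ) / Q + 1) := by
    push_cast
    refine mul_le_mul_of_nonneg_left ?_ (Nat.cast_nonneg _)
    exact add_le_add Nat.cast_div_le le_rfl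
  refine (Nat.cast_le.2 h1).trans (h6.trans ?_)
  rw [mul_add, mul_one]
  refine add_le_add ?_ le_rfl
  rw [h2]
  refine le_of_eq ?_
  field_simp

/- The multiples. -/
theorem count_mult (m y : ℕ) (hm : 0 < m) :
    (((range y).filter fun u => m ∣ u).card : ℝ) ≤ (m : ℝ)⁻¹ * y + 1 := by
  classical
  have h1 : ((range y).filter fun u => m ∣ u).card ≤ y / m + 1 := by
    rcases Nat.eq_zero_or_pos y with rfl | hy
    · simp
    refine le_trans (Finset.card_le_card (t := (range (y / m + 1)).image fun j => m * j) ?_)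
      (Finset.card_image_le.trans (by rw [Finset.card_range]))
    intro u hu
    rw [Finset.mem_filter, Finset.mem_range] at hu
    obtain ⟨hu, j, rfl⟩ := hu
    rw [Finset.mem_image]
    refine ⟨j, Finset.mem_range.2 ?_, rfl⟩
    have h2 : j ≤ y / m := (Nat.le_div_iff_mul_le hm).2 (by rw [mul_comm]; exact hu.le)
    omega
  refine (Nat.cast_le.2 h1).trans ?_
  push_cast
  refine add_le_add ?_ le_rfl
  rw [inv_mul_eq_div]
  exact Nat.cast_div_le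

theorem dens_core (I : ℕ) (A : ℕ → Prop)
    (h : ∀ q : ℕ, Even q → 4 ≤ q → ∃ r₀ : ℕ, ∀ s ≥ r₀, Odd s → ∃ k₀ : ℕ, ∀ k ≥ k₀,
      A (q * (I * s) * (2 * k + 1))) (V : ℕ) (F₁ : Finset ℕ)
    (hF₁ : ∀ p ∈ F₁, p.Prime ∧ 3 ≤ p) (η : ℝ) (hη : 0 < η) :
    ∃ (F₂ : Finset ℕ) (U₀ : ℕ), (∀ p ∈ F₂, p.Prime) ∧ ∏ p ∈ F₂, (1 - (p : ℝ)⁻¹) < η ∧
      ∀ u : ℕ, U₀ ≤ u → ¬ 2 ^ (V + 1) ∣ u → (∃ p ∈ F₁, p ∣ u) → (∃ p ∈ F₂, p ∣ u) →
        A (2 * I * u) := by
  classical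
  have h' : ∀ q : ℕ, ∃ r₀ : ℕ, Even q → 4 ≤ q → ∀ s ≥ r₀, Odd s → ∃ k₀ : ℕ, ∀ k ≥ k₀,
      A (q * (I * s) * (2 * k + 1)) := by
    intro q
    by_cases hq : Even q ∧ 4 ≤ q
    · obtain ⟨r₀, hr₀⟩ := h q hq.1 hq.2
      exact ⟨r₀, fun _ _ => hr₀⟩
    · exact ⟨0, fun h1 h2 => absurd ⟨h1, h2⟩ hq⟩
  choose r₀ hr₀ using h'
  obtain ⟨R, hR⟩ : ∃ R : ℕ, ∀ v ≤ V, ∀ p ∈ F₁, r₀ (2 ^ (v + 1) * p) ≤ R ∧ p < R := by
    refine ⟨((range (V + 1) ×ˢ F₁).sup fun x => r₀ (2 ^ (x.1 + 1) * x.2) + x.2) + 1,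
      fun v hv p hp => ?_⟩
    have h1 := Finset.le_sup (f := fun x : ℕ × ℕ => r₀ (2 ^ (x.1 + 1) * x.2) + x.2)
      (Finset.mem_product.2 ⟨Finset.mem_range.2 (by omega : v < V + 1), hp⟩ : (v, p) ∈ _)
    have h2 : r₀ (2 ^ (v + 1) * p) + p ≤ _ := h1
    omega
  obtain ⟨F₂, hF₂, hprod⟩ := exists_primes R η hη
  have h2 : ∀ v p s : ℕ, ∃ k₀ : ℕ, v ≤ V → p ∈ F₁ → s ∈ F₂ → ∀ k ≥ k₀,
      A ((2 ^ (v + 1) * p) * (I * s) * (2 * k + 1)) := by
    intro v p s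
    by_cases hc : v ≤ V ∧ p ∈ F₁ ∧ s ∈ F₂
    · obtain ⟨hv, hp, hs⟩ := hc
      have h3 := hF₂ s hs
      have h4 : 2 ≤ 2 ^ (v + 1) := by
        calc 2 = 2 ^ 1 := rfl
          _ ≤ 2 ^ (v + 1) := Nat.pow_le_pow_right (by norm_num) (by omega)
      obtain ⟨k₀, hk₀⟩ := hr₀ (2 ^ (v + 1) * p)
        ((Nat.even_pow.2 ⟨even_two, by omega⟩).mul_right p)
        (by
          have := (hF₁ p hp).2
          calc 4 ≤ 2 * 3 := by norm_num
            _ ≤ 2 ^ (v + 1) * p := Nat.mul_le_mul h4 this)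
        s ((hR v hv p hp).1.trans h3.2.1) (h3.1.odd_of_ne_two (by omega))
      exact ⟨k₀, fun _ _ _ => hk₀⟩
    · exact ⟨0, fun a b c => absurd ⟨a, b, c⟩ hc⟩
  choose k₀ hk₀ using h2
  obtain ⟨K, hK⟩ : ∃ K : ℕ, ∀ v ≤ V, ∀ p ∈ F₁, ∀ s ∈ F₂, k₀ v p s ≤ K := by
    refine ⟨(range (V + 1) ×ˢ (F₁ ×ˢ F₂)).sup fun x => k₀ x.1 x.2.1 x.2.2,
      fun v hv p hp s hs => ?_⟩
    exact Finset.le_sup (f := fun x : ℕ × ℕ × ℕ => k₀ x.1 x.2.1 x.2.2)
      (Finset.mem_product.2 ⟨Finset.mem_range.2 (by omega : v < V + 1),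
        Finset.mem_product.2 ⟨hp, hs⟩⟩ : (v, p, s) ∈ _)
  have hM : ∀ s ∈ F₂, s ≤ F₂.sup id := fun s hs => Finset.le_sup (f := id) hs
  refine ⟨F₂, 2 ^ V * R * (F₂.sup id) * (2 * K + 1) + 1, fun p hp => (hF₂ p hp).1, hprod, ?_⟩
  rintro u hu hV ⟨p, hp, hpu⟩ ⟨s, hs, hsu⟩
  obtain ⟨v, w, hw, rfl⟩ := Nat.exists_eq_two_pow_mul_odd (n := u) (by omega)
  have hv : v ≤ V := by
    by_contra hcon
    exact hV ((pow_dvd_pow 2 (by omega : V + 1 ≤ v)).trans (Dvd.intro _ rfl))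
  have hcop : ∀ l : ℕ, l.Prime → 3 ≤ l → l ∣ 2 ^ v * w → l ∣ w := by
    intro l hl h3 hd
    refine (Nat.Coprime.dvd_of_dvd_mul_left ?_ hd)
    exact Nat.Coprime.pow_right v ((Nat.coprime_primes hl Nat.prime_two).2 (by omega))
  have hpw := hcop p (hF₁ p hp).1 (hF₁ p hp).2 hpu
  have hsw := hcop s (hF₂ s hs).1 (hF₂ s hs).2.2 hsu
  have hne : p ≠ s := by
    have h1 := (hR v hv p hp).2
    have h2 := (hF₂ s hs).2.1
    omega
  obtain ⟨c, rfl⟩ := Nat.Coprime.mul_dvd_of_dvd_of_dvd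
    ((Nat.coprime_primes (hF₁ p hp).1 (hF₂ s hs).1).2 hne) hpw hsw
  obtain ⟨k, rfl⟩ : Odd c := (Nat.odd_mul.1 hw).2
  have hk : K ≤ k := by
    by_contra hcon
    have h1 : 2 ^ v * (p * s * (2 * k + 1)) ≤ 2 ^ V * R * (F₂.sup id) * (2 * K + 1) := by
      calc 2 ^ v * (p * s * (2 * k + 1)) = 2 ^ v * p * s * (2 * k + 1) := by ring
        _ ≤ 2 ^ V * R * (F₂.sup id) * (2 * K + 1) := by
            refine Nat.mul_le_mul (Nat.mul_le_mul (Nat.mul_le_mul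
              (Nat.pow_le_pow_right (by norm_num) hv) (hR v hv p hp).2.le) (hM s hs)) (by omega)
    omega
  have h5 := hk₀ v p s hv hp hs k ((hK v hv p hp s hs).trans hk)
  have h6 : 2 * I * (2 ^ v * (p * s * (2 * k + 1))) = (2 ^ (v + 1) * p) * (I * s) * (2 * k + 1) := by
    rw [pow_succ]
    ring
  rw [h6]
  exact h5

theorem t_dens : St_dens := by
  classical
  intro I A hI h ε hε
  have hε4 : 0 < ε / 4 := by positivity
  obtain ⟨V, hV⟩ := exists_pow_lt_of_lt_one hε4 (by norm_num : (2 : ℝ)⁻¹ < 1)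
  obtain ⟨F₁, hF₁, hp₁⟩ := exists_primes 3 (ε / 4) hε4
  obtain ⟨F₂, U₀, hF₂, hp₂, hA⟩ := dens_core I A h V F₁ (fun p hp => ⟨(hF₁ p hp).1, (hF₁ p hp).2.1⟩)
    (ε / 4) hε4
  obtain ⟨C₁, hC₁⟩ := count_coprime F₁ fun p hp => (hF₁ p hp).1
  obtain ⟨C₂, hC₂⟩ := count_coprime F₂ hF₂
  obtain ⟨N, hN⟩ := exists_nat_ge ((U₀ + 1 + C₁ + C₂) / (ε / 4))
  refine ⟨N, fun x hx => ?_⟩
  have h1 : ((range x).filter fun n => 2 * I ∣ n ∧ ¬ A n).card ≤
      (((range U₀) ∪ ((range x).filter fun u => 2 ^ (V + 1) ∣ u)) ∪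
        (((range x).filter fun u => ∀ p ∈ F₁, ¬ p ∣ u) ∪
        ((range x).filter fun u => ∀ p ∈ F₂, ¬ p ∣ u))).card := by
    refine Finset.card_le_card_of_injOn (fun n => n / (2 * I)) ?_ ?_
    · intro n hn
      rw [Finset.coe_filter, Set.mem_ofPred_eq, Finset.mem_range] at hn
      obtain ⟨hn, ⟨u, rfl⟩, hnA⟩ := hn
      have h2 : 2 * I * u / (2 * I) = u := Nat.mul_div_cancel_left u (by omega)
      have h3 : u < x := by
        have : 1 * u ≤ 2 * I * u := Nat.mul_le_mul_right _ (by omega)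
        omega
      rw [Finset.mem_coe]
      beta_reduce
      rw [h2, Finset.mem_union, Finset.mem_union, Finset.mem_union, Finset.mem_filter,
        Finset.mem_filter, Finset.mem_filter, Finset.mem_range, Finset.mem_range]
      by_contra hcon
      push Not at hcon
      obtain ⟨⟨h4, h5⟩, h6, h7⟩ := hcon
      exact hnA (hA u h4 (h5 h3) (h6 h3) (h7 h3))
    · rintro n hn n' hn' hnn
      rw [Finset.coe_filter, Set.mem_ofPred_eq] at hn hn'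
      obtain ⟨_, ⟨u, rfl⟩, _⟩ := hn
      obtain ⟨_, ⟨u', rfl⟩, _⟩ := hn'
      have h2 : ∀ u, 2 * I * u / (2 * I) = u := fun u => Nat.mul_div_cancel_left u (by omega)
      have h3 : 2 * I * u / (2 * I) = 2 * I * u' / (2 * I) := hnn
      rw [h2, h2] at h3
      rw [h3]
  have h2 : ((((range U₀) ∪ ((range x).filter fun u => 2 ^ (V + 1) ∣ u)) ∪
        (((range x).filter fun u => ∀ p ∈ F₁, ¬ p ∣ u) ∪
        ((range x).filter fun u => ∀ p ∈ F₂, ¬ p ∣ u))).card : ℝ) ≤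
      (U₀ + (((2 ^ (V + 1) : ℕ) : ℝ)⁻¹ * x + 1)) +
        (((∏ p ∈ F₁, (1 - (p : ℝ)⁻¹)) * x + C₁) + ((∏ p ∈ F₂, (1 - (p : ℝ)⁻¹)) * x + C₂)) := by
    refine (Nat.cast_le.2 (Finset.card_union_le _ _)).trans ?_
    rw [Nat.cast_add]
    refine add_le_add ?_ ?_
    · refine (Nat.cast_le.2 (Finset.card_union_le _ _)).trans ?_
      rw [Nat.cast_add, Finset.card_range]
      exact add_le_add le_rfl (count_mult _ _ (by positivity))
    · refine (Nat.cast_le.2 (Finset.card_union_le _ _)).trans ?_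
      rw [Nat.cast_add]
      exact add_le_add (hC₁ x) (hC₂ x)
  refine (Nat.cast_le.2 h1).trans (h2.trans ?_)
  have hx' : (U₀ + 1 + C₁ + C₂) / (ε / 4) ≤ x := hN.trans (by exact_mod_cast hx)
  rw [div_le_iff₀ hε4] at hx'
  have hx0 : (0 : ℝ) ≤ x := Nat.cast_nonneg _
  have h3 : ((2 ^ (V + 1) : ℕ) : ℝ)⁻¹ ≤ ε / 4 := by
    have h4 : ((2 ^ (V + 1) : ℕ) : ℝ)⁻¹ = (2 : ℝ)⁻¹ ^ V * (2 : ℝ)⁻¹ := by
      push_cast
      rw [← inv_pow, pow_succ]
    rw [h4]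
    have h5 : (0 : ℝ) ≤ (2 : ℝ)⁻¹ ^ V := by positivity
    nlinarith
  nlinarith [mul_le_mul_of_nonneg_right h3 hx0, mul_le_mul_of_nonneg_right hp₁.le hx0,
    mul_le_mul_of_nonneg_right hp₂.le hx0]

end Pool.Agent.N70.EP
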