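import Mathlib
import Pool.Agent.H84.L.S8_H391R2_T4_Nod
import Pool.Agent.H84.L.S8_H391R2_T4_Sem

namespace Pool.Agent.N70.AW
end Pool.Agent.N70.AW


/-!
# A cyclic vector in the fixed field of a subgroup, no condition on the constants

Core of `St_cvT` (project EP of helper70): for a finite Galois extension `Z` of `K(t)`, `K` of
characteristic zero, and a subgroup `P` of the Galois group, the fixed field of `P` contains an
element whose conjugates have a nonzero Wronskian.
-/

set_option autoImplicit false

namespace Pool.Agent.N82.EP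

open Polynomial Pool.Agent.N70.AW

/- `D^(l+1) (T y) = T D^(l+1) y + (l+1) D^l y` if `D T = 1`. -/
lemma iter_mul {K Z : Type} [Field K] [Field Z] [Algebra K Z] (D : Derivation K Z Z) (T : Z)
    (hT : D T = 1) (l : ℕ) (y : Z) :
    (D^[l]) (T * y) = T * (D^[l]) y + (l : Z) * (D^[l - 1]) y := by
  induction l with
  | zero => simp
  | succ l ih =>
    rw [Function.iterate_succ_apply', ih, map_add, D.leibniz, D.leibniz, hT,
      Function.iterate_succ_apply' _ l y]
    have h1 : D ((l : ℕ) : Z) = 0 := Derivation.map_natCast D l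
    rw [h1]
    rcases Nat.eq_zero_or_pos l with h0 | hp
    · subst h0
      simp
    · have h2 : D ((D^[l - 1]) y) = (D^[l]) y := by
        rw [← Function.iterate_succ_apply' D (l - 1) y, Nat.succ_eq_add_one,
          Nat.sub_add_cancel hp]
      rw [h2]
      simp only [smul_eq_mul, Nat.add_sub_cancel, Nat.cast_add, Nat.cast_one]
      ring

/- A differential operator with coefficients in `Z` twisted by the `g t` which vanishes on the
elements `T^r θ^i` is zero. -/
lemma op_zero {K Z : Type} [Field K] [Field Z] [CharZero Z] [Algebra K Z] (D : Derivation K Z Z)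
    (T : Z) (hT : D T = 1) (θ : Z) {m : ℕ} (g : Fin m → (Z →+* Z)) (hgT : ∀ t, g t T = T)
    (hθ : Function.Injective (fun t => g t θ)) :
    ∀ (n : ℕ) (v : Fin m → ℕ → Z),
      (∀ r < n, ∀ i : Fin m, ∑ t, ∑ l ∈ Finset.range n,
        v t l * g t ((D^[l]) (T ^ r * θ ^ (i : ℕ))) = 0) →
      ∀ t, ∀ l < n, v t l = 0 := by
  intro n
  induction n with
  | zero => intro v _ t l hl; omega
  | succ n ih =>
    intro v h
    -- the commutator with `T`
    have h1 : ∀ r < n, ∀ i : Fin m, ∑ t, ∑ l ∈ Finset.range n,
        (((l : Z) + 1) * v t (l + 1)) * g t ((D^[l]) (T ^ r * θ ^ (i : ℕ))) = 0 := by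
      intro r hr i
      have ha := h (r + 1) (by omega) i
      have hb := h r (by omega) i
      have e : ∀ t, ∑ l ∈ Finset.range (n + 1),
          v t l * g t ((D^[l]) (T ^ (r + 1) * θ ^ (i : ℕ))) =
          T * (∑ l ∈ Finset.range (n + 1), v t l * g t ((D^[l]) (T ^ r * θ ^ (i : ℕ)))) +
          ∑ l ∈ Finset.range n,
            (((l : Z) + 1) * v t (l + 1)) * g t ((D^[l]) (T ^ r * θ ^ (i : ℕ))) := by
        intro t
        have e1 : ∀ l, v t l * g t ((D^[l]) (T ^ (r + 1) * θ ^ (i : ℕ))) =
            T * (v t l * g t ((D^[l]) (T ^ r * θ ^ (i : ℕ)))) +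
            v t l * ((l : Z) * g t ((D^[l - 1]) (T ^ r * θ ^ (i : ℕ)))) := by
          intro l
          rw [pow_succ', mul_assoc, iter_mul D T hT, map_add, map_mul, map_mul, hgT, map_natCast]
          ring
        rw [Finset.sum_congr rfl fun l _ => e1 l, Finset.sum_add_distrib, Finset.mul_sum,
          Finset.sum_range_succ' (fun l => v t l * ((l : Z) *
            g t ((D^[l - 1]) (T ^ r * θ ^ (i : ℕ)))))]
        simp only [Nat.cast_zero, zero_mul, mul_zero, add_zero, Nat.add_sub_cancel]
        congr 1
        refine Finset.sum_congr rfl fun l _ => ?_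
        push_cast
        ring
      rw [Finset.sum_congr rfl fun t _ => e t, Finset.sum_add_distrib, ← Finset.mul_sum, hb,
        mul_zero, zero_add] at ha
      exact ha
    have h2 := ih _ h1
    have h3 : ∀ t, ∀ l < n, v t (l + 1) = 0 := by
      intro t l hl
      have := h2 t l hl
      rcases mul_eq_zero.1 this with h4 | h4
      · exact absurd h4 (Nat.cast_add_one_ne_zero l)
      · exact h4
    -- now `v t l = 0` for `l > 0`
    have h4 : ∀ i : Fin m, ∑ t, v t 0 * (g t θ) ^ (i : ℕ) = 0 := by
      intro i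
      have := h 0 (by omega) i
      rw [← this]
      refine Finset.sum_congr rfl fun t _ => ?_
      rw [Finset.sum_range_succ' _ n, Finset.sum_eq_zero, zero_add]
      · simp
      · intro l hl
        rw [h3 t l (Finset.mem_range.1 hl), zero_mul]
    have h5 : ∀ t, v t 0 = 0 := by
      have hdet : (Matrix.vandermonde (fun t => g t θ)).det ≠ 0 :=
        Matrix.det_vandermonde_ne_zero_iff.2 hθ
      have := Matrix.eq_zero_of_vecMul_eq_zero hdet (v := fun t => v t 0) (by
        funext i
        have := h4 i
        simpa [Matrix.vecMul, dotProduct, Matrix.vandermonde] using this)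
      intro t
      exact congrFun this t
    intro t l hl
    rcases Nat.eq_zero_or_pos l with h0 | hp
    · rw [h0]; exact h5 t
    · obtain ⟨l', rfl⟩ : ∃ l', l = l' + 1 := ⟨l - 1, by omega⟩
      exact h3 t l' (by omega)

/- Cyclic vector. -/
theorem cyc {K Z : Type} [Field K] [CharZero K] [Field Z] [Algebra K Z] (D : Derivation K Z Z)
    (T : Z) (hT : D T = 1) (θ : Z) {m : ℕ} (g : Fin m → (Z →ₐ[K] Z)) (hgT : ∀ t, g t T = T)
    (hθ : Function.Injective (fun t => g t θ)) :
    ∃ c : Fin m × Fin m → K,
      (Matrix.of fun t l : Fin m => g t ((D^[(l : ℕ)])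
        (∑ p : Fin m × Fin m, c p • (T ^ (p.2 : ℕ) * θ ^ (p.1 : ℕ))))).det ≠ 0 := by
  classical
  have : CharZero Z := charZero_of_injective_algebraMap (algebraMap K Z).injective
  -- the big matrix
  set A : Matrix (Fin m × Fin m) (Fin m × Fin m) Z := Matrix.of fun q p =>
    g q.1 ((D^[(q.2 : ℕ)]) (T ^ (p.2 : ℕ) * θ ^ (p.1 : ℕ))) with hA
  have hdet : A.det ≠ 0 := by
    intro h0
    rw [← Matrix.exists_vecMul_eq_zero_iff] at h0
    obtain ⟨v, hv0, hv⟩ := h0
    apply hv0
    have key := op_zero D T hT θ (fun t => (g t : Z →+* Z)) hgT hθ m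
      (fun t l => if hl : l < m then v (t, ⟨l, hl⟩) else 0) (by
        intro r hr i
        have h1 := congrFun hv (i, ⟨r, hr⟩)
        rw [Matrix.vecMul, dotProduct, Fintype.sum_prod_type] at h1
        rw [Pi.zero_apply] at h1
        rw [← h1]
        refine Finset.sum_congr rfl fun t _ => ?_
        rw [Finset.sum_range]
        refine Finset.sum_congr rfl fun l _ => ?_
        simp [hA])
    funext q
    have := key q.1 q.2 q.2.2
    simpa using this
  -- a point where the determinant is one
  obtain ⟨w, hw⟩ : ∃ w : Fin m × Fin m → Z, A.mulVec w =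
      fun q => if q.1 = q.2 then (1 : Z) else 0 := by
    refine ⟨A⁻¹.mulVec (fun q => if q.1 = q.2 then (1 : Z) else 0), ?_⟩
    rw [Matrix.mulVec_mulVec, Matrix.mul_nonsing_inv _ (isUnit_iff_ne_zero.2 hdet),
      Matrix.one_mulVec]
  let Φ : MvPolynomial (Fin m × Fin m) Z := (Matrix.of fun t l : Fin m =>
    ∑ p : Fin m × Fin m, MvPolynomial.C (A (t, l) p) * MvPolynomial.X p).det
  have hev : ∀ u : Fin m × Fin m → Z, MvPolynomial.eval u Φ =
      (Matrix.of fun t l : Fin m => ∑ p : Fin m × Fin m, A (t, l) p * u p).det := by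
    intro u
    simp only [Φ]
    rw [RingHom.map_det]
    congr 1
    ext t l
    simp
  have hΦ : Φ ≠ 0 := by
    intro h0
    have h1 := hev w
    rw [h0, map_zero] at h1
    have h2 : (Matrix.of fun t l : Fin m => ∑ p : Fin m × Fin m, A (t, l) p * w p) =
        (1 : Matrix (Fin m) (Fin m) Z) := by
      ext t l
      have := congrFun hw (t, l)
      simp only [Matrix.mulVec, dotProduct] at this
      rw [Matrix.of_apply, this, Matrix.one_apply]
    rw [h2, Matrix.det_one] at h1
    exact zero_ne_one h1
  -- a point over `K`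
  have hinf : (Set.range (algebraMap K Z)).Infinite :=
    Set.infinite_range_of_injective (algebraMap K Z).injective
  obtain ⟨u, hu, hne⟩ : ∃ u : Fin m × Fin m → Z, (∀ p, u p ∈ Set.range (algebraMap K Z)) ∧
      MvPolynomial.eval u Φ ≠ 0 := by
    by_contra hcon
    push Not at hcon
    apply hΦ
    refine MvPolynomial.funext_set (fun _ => Set.range (algebraMap K Z)) (fun _ => hinf) ?_
    intro x hx
    rw [map_zero]
    exact hcon x (fun p => hx p (Set.mem_univ p))
  choose c hc using hu
  refine ⟨c, ?_⟩
  rw [hev] at hne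
  convert hne using 3
  funext t l
  have hit : ∀ (l : ℕ) (s : Fin m × Fin m → Z), (D^[l]) (∑ p, c p • s p) =
      ∑ p, c p • (D^[l]) (s p) := by
    intro l s
    induction l with
    | zero => rfl
    | succ l ih =>
      rw [Function.iterate_succ_apply', ih, map_sum]
      refine Finset.sum_congr rfl fun p _ => ?_
      rw [D.map_smul, Function.iterate_succ_apply']
  rw [hit, map_sum]
  refine Finset.sum_congr rfl fun p _ => ?_
  rw [Algebra.smul_def, map_mul, AlgHom.commutes, hc, mul_comm]
  rfl

end Pool.Agent.N82.EP
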