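import Mathlib



set_option autoImplicit false

/-! The derivation `d/dt` of the field of rational functions and the definition of the integers
by `n' = 0`, `t y' = n y`, `y ≠ 0`. -/

namespace Pool.Agent.H585R2.DiffC

open Polynomial

variable {k : Type*} [Field k]

/- the value of the derivative for a numerator and a denominator -/
noncomputable def dq (p q : k[X]) : RatFunc k :=
  algebraMap _ _ (derivative p * q - p * derivative q) / algebraMap _ _ (q ^ 2)

theorem am_ne {q : k[X]} (hq : q ≠ 0) : (algebraMap k[X] (RatFunc k) q) ≠ 0 :=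
  RatFunc.algebraMap_ne_zero hq

theorem dq_congr {p q p' q' : k[X]} (hq : q ≠ 0) (hq' : q' ≠ 0) (h : p * q' = p' * q) :
    dq p q = dq p' q' := by
  unfold dq
  rw [div_eq_div_iff (am_ne (pow_ne_zero 2 hq)) (am_ne (pow_ne_zero 2 hq')), ← map_mul, ← map_mul]
  congr 1
  have h1 := congrArg derivative h
  rw [derivative_mul, derivative_mul] at h1
  linear_combination (q * q') * h1 - (derivative q * q' + q * derivative q') * h

/- the derivative -/
noncomputable def dd (f : RatFunc k) : RatFunc k := dq f.num f.denom

theorem dd_div (p : k[X]) {q : k[X]} (hq : q ≠ 0) :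
    dd (algebraMap _ _ p / algebraMap _ _ q) = dq p q := by
  unfold dd
  refine dq_congr (RatFunc.denom_ne_zero _) hq ?_
  have h := RatFunc.num_div_denom (algebraMap k[X] (RatFunc k) p / algebraMap _ _ q)
  rw [div_eq_div_iff (am_ne (RatFunc.denom_ne_zero _)) (am_ne hq), ← map_mul, ← map_mul] at h
  exact RatFunc.algebraMap_injective k h

theorem exists_div (f : RatFunc k) : ∃ p q : k[X], q ≠ 0 ∧
    f = algebraMap _ _ p / algebraMap _ _ q :=
  ⟨f.num, f.denom, RatFunc.denom_ne_zero f, (RatFunc.num_div_denom f).symm⟩

theorem dd_add (f g : RatFunc k) : dd (f + g) = dd f + dd g := by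
  obtain ⟨p, q, hq, rfl⟩ := exists_div f
  obtain ⟨r, s, hs, rfl⟩ := exists_div g
  have e : (algebraMap k[X] (RatFunc k) p / algebraMap _ _ q + algebraMap _ _ r / algebraMap _ _ s)
      = algebraMap _ _ (p * s + r * q) / algebraMap _ _ (q * s) := by
    have h1 := am_ne hq
    have h2 := am_ne hs
    simp only [map_add, map_mul]
    field_simp
  rw [e, dd_div _ (mul_ne_zero hq hs), dd_div _ hq, dd_div _ hs]
  unfold dq
  have h1 := am_ne hq
  have h2 := am_ne hs
  simp only [map_add, map_mul, map_sub, map_pow, derivative_add, derivative_mul]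
  field_simp
  ring

theorem dd_mul (f g : RatFunc k) : dd (f * g) = f * dd g + g * dd f := by
  obtain ⟨p, q, hq, rfl⟩ := exists_div f
  obtain ⟨r, s, hs, rfl⟩ := exists_div g
  have e : (algebraMap k[X] (RatFunc k) p / algebraMap _ _ q * (algebraMap _ _ r / algebraMap _ _ s))
      = algebraMap _ _ (p * r) / algebraMap _ _ (q * s) := by
    have h1 := am_ne hq
    have h2 := am_ne hs
    simp only [map_mul]
    field_simp
  rw [e, dd_div _ (mul_ne_zero hq hs), dd_div _ hq, dd_div _ hs]
  unfold dq
  have h1 := am_ne hq
  have h2 := am_ne hs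
  simp only [map_add, map_mul, map_sub, map_pow, derivative_mul]
  field_simp
  ring

theorem dd_poly (p : k[X]) : dd (algebraMap _ _ p) = algebraMap k[X] (RatFunc k) (derivative p) := by
  have h : (algebraMap k[X] (RatFunc k) p) = algebraMap _ _ p / algebraMap k[X] _ 1 := by simp
  rw [h, dd_div _ one_ne_zero]
  simp [dq]

theorem algebraMap_C (c : k) : algebraMap k (RatFunc k) c = algebraMap k[X] (RatFunc k) (C c) := by
  rw [RatFunc.algebraMap_C, RatFunc.algebraMap_eq_C]

theorem dd_smul (c : k) (f : RatFunc k) : dd (c • f) = c • dd f := by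
  rw [Algebra.smul_def, Algebra.smul_def, dd_mul, algebraMap_C, dd_poly]
  simp

/- The derivation `d/dt`. -/
noncomputable def ddt : Derivation k (RatFunc k) (RatFunc k) where
  toFun := dd
  map_add' := dd_add
  map_smul' := dd_smul
  map_one_eq_zero' := by
    have h : (1 : RatFunc k) = algebraMap k[X] (RatFunc k) 1 := by simp
    change dd (1 : RatFunc k) = 0
    rw [h, dd_poly]; simp
  leibniz' := fun f g => by
    change dd (f * g) = f • dd g + g • dd f
    rw [dd_mul]; rfl

theorem ddt_X : (ddt : Derivation k (RatFunc k) (RatFunc k)) RatFunc.X = 1 := by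
  change dd RatFunc.X = 1
  rw [← RatFunc.algebraMap_X, dd_poly]
  simp

variable (D : Derivation k (RatFunc k) (RatFunc k)) (hD : D RatFunc.X = 1)

include hD

theorem D_poly (p : k[X]) : D (algebraMap _ _ p) = algebraMap k[X] (RatFunc k) (derivative p) := by
  induction p using Polynomial.induction_on' with
  | add p q hp hq => simp [hp, hq]
  | monomial n a =>
    rw [← C_mul_X_pow_eq_monomial, map_mul, map_pow, RatFunc.algebraMap_X, ← algebraMap_C,
      Derivation.leibniz, Derivation.leibniz_pow, hD, Derivation.map_algebraMap]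
    simp only [smul_zero, add_zero, smul_eq_mul, derivative_mul, derivative_C, zero_mul, zero_add,
      derivative_X_pow, map_mul, map_pow, RatFunc.algebraMap_X, algebraMap_C, nsmul_eq_mul]
    simp


end Pool.Agent.H585R2.DiffC
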