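import Mathlib
import Pool.Agent.H84.L.A3_N455_AW_Deg
import Pool.Agent.H84.L.A3_N70_EP_DDat
import Pool.Agent.H84.L.A3_N70_EP_Stm
import Pool.Agent.H84.L.A3_N82_EP_CVT



set_option autoImplicit false

namespace Pool.Agent.N70.EP

/- Existence of the data. -/
theorem datT : St_datT := DD.datTOf N82.EP.t_cvT N455.AW.deg

end Pool.Agent.N70.EP
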