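import Mathlib
import Pool.Agent.H84.L.A3_N342_EP_Act
import Pool.Agent.H84.L.A3_N342_EP_Grp1

namespace Pool.Agent.H391R2
end Pool.Agent.H391R2
namespace Pool.Agent.H391R2.T4
end Pool.Agent.H391R2.T4
namespace Pool.Agent.N342.EP
end Pool.Agent.N342.EP


/-!
Signs of actions of fibre powers: the fibre product of `B` with a symmetric group.
-/

set_option autoImplicit false

namespace Pool.Agent.N70.EP

open Pool.Agent.H391R2 Pool.Agent.H391R2.T4 Equiv
open Pool.Agent.N342.EP (stabP mem_stabP sgnIndex_of wact sign_wact)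


section

variable {H B : Type} [Group H] [Group B] (a : B →* H) (χ : H →* ℤˣ) (q : ℕ)


/- A section of the sign. -/
def sgnSec (q : ℕ) (hq : 2 ≤ q) : ℤˣ →* Perm (Fin q) where
  toFun u := if u = 1 then 1 else swap ⟨0, by omega⟩ ⟨1, by omega⟩
  map_one' := if_pos rfl
  map_mul' u v := by
    rcases Int.units_eq_one_or u with rfl | rfl <;> rcases Int.units_eq_one_or v with rfl | rfl
    · simp
    · simp
    · simp
    · simp

theorem sign_sgnSec (q : ℕ) (hq : 2 ≤ q) (u : ℤˣ) : Perm.sign (sgnSec q hq u) = u := by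
  rcases Int.units_eq_one_or u with rfl | rfl
  · rw [map_one, map_one]
  · change Perm.sign (if (-1 : ℤˣ) = 1 then 1 else swap _ _) = -1
    rw [if_neg (by decide), Perm.sign_swap]
    intro h
    exact Nat.zero_ne_one (congrArg Fin.val h)


end

end Pool.Agent.N70.EP
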