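import Mathlib
import Pool.Agent.H84.L.S8_H391R2_WrGrp



namespace Pool.Agent.H391R2.V

/- The map of wreath products. -/
def wmap {G G' : Type} [Group G] [Group G'] (n : ℕ) (φ : G →* G') : Wr G n →* Wr G' n where
  toFun x := ⟨fun i => φ (x.left i), x.right⟩
  map_one' := by
    apply SemidirectProduct.ext
    · funext i
      exact map_one φ
    · rfl
  map_mul' x y := by
    apply SemidirectProduct.ext
    · funext i
      exact map_mul φ _ _
    · rfl

end Pool.Agent.H391R2.V
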