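import Mathlib
import Pool.Agent.H84.L.A3_N600_UK_Compl
import Pool.Agent.H84.L.A3_N70_EP_Si
import Pool.Agent.H84.L.A3_N70_EP_Stm
import Pool.Agent.H84.L.S8_H391R2_T4_Nod
import Pool.Agent.H84.L.S8_H391R2_T4_Sym
import Pool.Agent.H84.L.S8_H391R2_V_Wmap
import Pool.Agent.H84.L.S8_H391R2_WrGrp
import Pool.Agent.H84.L.S8_TH15_IGP_TwB
import Pool.Agent.H84.L.S8_TH377_IG_Bc2
import Pool.Agent.H84.L.S8_TH444_TW_ClsDef
import Pool.Agent.H84.L.S8_TH444_TW_RS
import Pool.Agent.H84.L.S8_TH444_TW_RSK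
import Pool.Agent.H84.L.S8_Y793_E_App
import Pool.Agent.H84.L.S8_Y793_E_MainA
import Pool.Agent.H84.L.S8_Y793_Stm

namespace Pool.Agent.H391R2
end Pool.Agent.H391R2
namespace Pool.Agent.H391R2.T4
end Pool.Agent.H391R2.T4
namespace Pool.Agent.N600.UK
end Pool.Agent.N600.UK
namespace Pool.Agent.TH377.IG
end Pool.Agent.TH377.IG
namespace Pool.Agent.TH444.TW
end Pool.Agent.TH444.TW
namespace Pool.Agent.Y793
end Pool.Agent.Y793


/-!
Kernels `G ≀ A_n`.
-/

set_option autoImplicit false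
set_option linter.unusedSectionVars false
set_option linter.unusedSimpArgs false

namespace Pool.Agent.N70.EP

open Polynomial Pool.Agent.H391R2 Pool.Agent.H391R2.T4
open Pool.Agent.Y793 (AWr AltTw twProj regSol_iso)
open Pool.Agent.TH444.TW (RSK)
open Pool.Agent.N600.UK (Out cls cls_eq_one conj_inj)
open Pool.Agent.TH377.IG (FP prFP)

section fb

variable {G Γ : Type} [Group G] [Group Γ] (o : Γ →* Out G)


variable {Γ' : Type} [Group Γ'] (ρ : Γ' →* Γ)

/- Pull-back of the labels. -/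
def fbMap : FB (o.comp ρ) →* FB o where
  toFun x := ⟨(x.1.1, ρ x.1.2), x.2⟩
  map_one' := Subtype.ext (Prod.ext rfl (map_one ρ))
  map_mul' x y := Subtype.ext (Prod.ext rfl (map_mul ρ _ _))

/- Pull-back of the twisted fibre powers. -/
theorem exists_pull (χ : Γ →* ℤˣ) (n : ℕ) :
    ∃ e : FP (twProj (pB o) χ n) ρ ≃* AltTw (pB (o.comp ρ)) (χ.comp ρ) n,
      ∀ x, twProj (pB (o.comp ρ)) (χ.comp ρ) n (e x) = prFP (twProj (pB o) χ n) ρ x := by
  let F : AltTw (pB (o.comp ρ)) (χ.comp ρ) n →* FP (twProj (pB o) χ n) ρ := MonoidHom.mk'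
    (fun z => ⟨(⟨(Pool.Agent.H391R2.V.wmap n (fbMap o ρ) z.1.1, ρ z.1.2),
      Subgroup.mem_inf.2 ⟨fun i => congrArg ρ ((Subgroup.mem_inf.1 z.2).1 i),
        (Subgroup.mem_inf.1 z.2).2⟩⟩, z.1.2), rfl⟩) (fun z w => by
      apply Subtype.ext
      refine Prod.ext ?_ rfl
      apply Subtype.ext
      refine Prod.ext ?_ (map_mul ρ _ _)
      exact map_mul _ _ _)
  have hF : Function.Bijective F := by
    constructor
    · intro z w hzw
      have h1 : z.1.2 = w.1.2 := congrArg (fun u : FP (twProj (pB o) χ n) ρ => u.1.2) hzw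
      have h2 : Pool.Agent.H391R2.V.wmap n (fbMap o ρ) z.1.1 =
          Pool.Agent.H391R2.V.wmap n (fbMap o ρ) w.1.1 :=
        congrArg (fun u : FP (twProj (pB o) χ n) ρ => u.1.1.1.1) hzw
      apply Subtype.ext
      refine Prod.ext ?_ h1
      apply SemidirectProduct.ext
      · funext i
        apply Subtype.ext
        refine Prod.ext ?_ ?_
        · exact congrArg (fun u : Wr (FB o) n => (u.left i).1.1) h2
        · have h3 : (z.1.1.left i).1.2 = z.1.2 := (Subgroup.mem_inf.1 z.2).1 i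
          have h4 : (w.1.1.left i).1.2 = w.1.2 := (Subgroup.mem_inf.1 w.2).1 i
          rw [h3, h4, h1]
      · exact congrArg (fun u : Wr (FB o) n => u.right) h2
    · rintro ⟨⟨⟨⟨x, w⟩, hx⟩, γ⟩, hγ⟩
      have hw : w = ρ γ := hγ
      subst hw
      have hx1 : ∀ i, (x.left i).1.2 = ρ γ := fun i => (Subgroup.mem_inf.1 hx).1 i
      have hx2 : Equiv.Perm.sign x.right = χ (ρ γ) := (Subgroup.mem_inf.1 hx).2
      refine ⟨⟨(⟨fun i => ⟨((x.left i).1.1, γ), ?_⟩, x.right⟩, γ),
        Subgroup.mem_inf.2 ⟨fun i => rfl, hx2⟩⟩, ?_⟩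
      · change cls G (x.left i).1.1 = o (ρ γ)
        rw [← hx1 i]
        exact (x.left i).2
      · apply Subtype.ext
        refine Prod.ext ?_ rfl
        apply Subtype.ext
        refine Prod.ext ?_ rfl
        apply SemidirectProduct.ext
        · funext i
          apply Subtype.ext
          exact Prod.ext rfl (hx1 i).symm
        · rfl
  refine ⟨(MulEquiv.ofBijective F hF).symm, fun x => ?_⟩
  obtain ⟨z, rfl⟩ := (MulEquiv.ofBijective F hF).surjective x
  rw [MulEquiv.symm_apply_apply]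
  rfl

end fb


end Pool.Agent.N70.EP
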