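import Mathlib
import Pool.Agent.H84.L.A3_N600_NS_FinC
import Pool.Agent.H84.L.A3_N600_NS_Pack
import Pool.Agent.H84.L.A3_N600_NS_SerA
import Pool.Agent.H84.L.A3_N70_EP_Si
import Pool.Agent.H84.L.S8_TH15_IGP_TwB
import Pool.Agent.H84.L.S8_TH444_TW_ClsDef
import Pool.Agent.H84.L.S8_TH444_TW_RS
import Pool.Agent.H84.L.S8_TH444_TW_RSK
import Pool.Agent.H84.L.S8_Y793_E_App
import Pool.Agent.H84.L.S8_Y793_E_MainA
import Pool.Agent.H84.L.S8_Y793_Sb

namespace Pool.Agent.H391R2
end Pool.Agent.H391R2
namespace Pool.Agent.H391R2.T4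
end Pool.Agent.H391R2.T4
namespace Pool.Agent.N600.NS
end Pool.Agent.N600.NS
namespace Pool.Agent.TH444.TW
end Pool.Agent.TH444.TW
namespace Pool.Agent.Y793
end Pool.Agent.Y793


/-!
Alternating fibre powers, uniformly in the fields.
-/

set_option autoImplicit false
set_option linter.unusedSectionVars false
set_option linter.unusedSimpArgs false

namespace Pool.Agent.N70.EP

open Polynomial Pool.Agent.H391R2 Pool.Agent.H391R2.T4
open Pool.Agent.Y793 (AltTw twProj regSol_iso)
open Pool.Agent.N600.NS (IdxDvd Degs)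
open Pool.Agent.TH444.TW (RSK)

/- `n` is divisible by every common divisor of the indices of the subgroups of `H` over which
`a` splits. -/
def SplitIdx {H B : Type} [Group H] [Group B] (a : B →* H) (n : ℕ) : Prop :=
  ∀ d : ℕ, (∀ (U : Subgroup H) (s : U →* B), (∀ h : U, a (s h) = h) → d ∣ U.index) → d ∣ n

theorem idx_of_split {H B : Type} [Group H] [Finite H] [Group B] (a : B →* H) {n : ℕ}
    (h : SplitIdx a n) {K L : Type} [Field K] [Field L] [Algebra K L]
    [FiniteDimensional K L] [IsGalois K L] (e : (L ≃ₐ[K] L) ≃* H) :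
    IdxDvd K L B ((e.symm : H →* (L ≃ₐ[K] L)).comp a) n := by
  intro d hd
  refine h d fun U s hs => ?_
  let V : Subgroup (L ≃ₐ[K] L) := U.comap (e : (L ≃ₐ[K] L) →* H)
  have hV : V.index = U.index := Subgroup.index_comap_of_surjective U e.surjective
  let K' := IntermediateField.fixedField V
  have hK'V : K'.fixingSubgroup = V := IntermediateField.fixingSubgroup_fixedField V
  have hmem : ∀ σ : L ≃ₐ[K'] L, e (σ.restrictScalars K) ∈ U := by
    intro σ
    have h1 : σ.restrictScalars K ∈ V := by
      rw [← hK'V, IntermediateField.mem_fixingSubgroup_iff]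
      intro x hx
      exact σ.commutes ⟨x, hx⟩
    exact h1
  rw [← hV]
  apply hd
  refine ⟨K', inferInstance, inferInstance, inferInstance, ?_, L, inferInstance, inferInstance,
    inferInstance, inferInstance, inferInstance, inferInstance, inferInstance, inferInstance,
    MonoidHom.mk' (fun σ => s ⟨e (σ.restrictScalars K), hmem σ⟩) (fun σ σ' => ?_), fun σ x => ?_⟩
  · rw [IntermediateField.finrank_eq_fixingSubgroup_index _ K', hK'V]
  · rw [← map_mul]
    congr 1
    apply Subtype.ext
    exact map_mul e (σ.restrictScalars K) (σ'.restrictScalars K)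
  · change σ x = e.symm (a (s ⟨e (σ.restrictScalars K), hmem σ⟩)) x
    rw [hs, MulEquiv.symm_apply_apply]
    rfl


end Pool.Agent.N70.EP
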