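import Mathlib
import Pool.Agent.H84.L.A3_N600_UK_Compl
import Pool.Agent.H84.L.A3_N70_EP_Stm
import Pool.Agent.H84.L.A3_N70_EP_TC
import Pool.Agent.H84.L.S8_TH444_TW_RSK
import Pool.Agent.H84.L.S8_Y793_E_App
import Pool.Agent.H84.L.S8_Y793_E_MainA
import Pool.Agent.H84.L.S8_Y793_Stm

namespace Pool.Agent.H391R2
end Pool.Agent.H391R2
namespace Pool.Agent.H391R2.T4
end Pool.Agent.H391R2.T4
namespace Pool.Agent.N600.UK
end Pool.Agent.N600.UK
namespace Pool.Agent.TH444.TW
end Pool.Agent.TH444.TW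
namespace Pool.Agent.Y793
end Pool.Agent.Y793


/-!
Kernels `G ≀ A_n`, almost all `n`.
-/

set_option autoImplicit false
set_option linter.unusedSectionVars false
set_option linter.unusedSimpArgs false

namespace Pool.Agent.N70.EP

open Polynomial Pool.Agent.H391R2 Pool.Agent.H391R2.T4
open Pool.Agent.Y793 (AWr AltTw twProj regSol_iso)
open Pool.Agent.TH444.TW (RSK)
open Pool.Agent.N600.UK (Out cls cls_eq_one conj_inj)

theorem pB_surj {G Γ : Type} [Group G] [Group Γ] (o : Γ →* Out G) :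
    Function.Surjective (pB o) := by
  intro γ
  obtain ⟨t, ht⟩ := QuotientGroup.mk_surjective (o γ)
  exact ⟨⟨(t, γ), ht⟩, rfl⟩

theorem splitIdx_mul {H B : Type} [Group H] [Group B] {a : B →* H} {D : ℕ} (h : SplitIdx a D)
    (s : ℕ) : SplitIdx a (D * s) := fun d hd => (h d hd).mul_right s


end Pool.Agent.N70.EP
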