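import Mathlib
import Pool.Agent.H84.L.A3_N70_AW_Sa
import Pool.Agent.H84.L.A3_N70_EP_Even
import Pool.Agent.H84.L.A3_N70_EP_Stm
import Pool.Agent.H84.L.S8_H391R2_WrGrp
import Pool.Agent.H84.L.S8_Y793_Gr
import Pool.Agent.H84.L.S8_Y793_Se
import Pool.Agent.H84.L.S8_Y793_Stm
import Pool.Agent.H84.L.S8_Y793_TrD

namespace Pool.Agent.H391R2
end Pool.Agent.H391R2
namespace Pool.Agent.H391R2.T4
end Pool.Agent.H391R2.T4
namespace Pool.Agent.N70.EP
end Pool.Agent.N70.EP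
namespace Pool.Agent.Y793
end Pool.Agent.Y793


/-!
The geometric group.
-/

set_option autoImplicit false
set_option linter.unusedSectionVars false
set_option linter.unusedSimpArgs false

namespace Pool.Agent.N70.AW.EPc

open Polynomial Pool.Agent.H391R2 Pool.Agent.H391R2.T4
open Pool.Agent.N70.EP (Dt0 evenT)
open Pool.Agent.Y793 (cl sub_cl cl_closed cl_le St_gen St_iso St_ext tz Rl AWr)

section sols

variable {K Z N ι : Type} [Field K] [CharZero K] [Field Z] [Algebra (RatFunc K) Z] [Algebra K Z]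
  [IsScalarTower K (RatFunc K) Z] [FiniteDimensional (RatFunc K) Z] [IsGalois (RatFunc K) Z]
  [Fintype ι] [Field N] [Algebra K N] [IsAlgClosed N]
  {P : Subgroup (Z ≃ₐ[RatFunc K] Z)} {m k d : ℕ} {κ : Option ι → K[X]} {v : Option ι → Z}
  {x : Option ι → Option ι → Z} {e es : Fin m → Z} {S : Matrix (Fin m) (Fin m) K[X]}
  {M L : Option ι → Option ι → Matrix (Fin m) (Fin m) K[X]}
  (D : Dt0 P m k d κ v x e es S M L)
  {k₀ : Type} [Field k₀] [Algebra K k₀] [Algebra k₀ N] [IsScalarTower K k₀ N]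
  (η : Ix ι → N) (hη : IsTranscendenceBasis k₀ η)

/- The group of the automorphisms over `k₀`. -/
def HG (η : Ix ι → N) (P : Subgroup (Z ≃ₐ[RatFunc K] Z)) {n : ℕ} (r : Fin n → N)
    (φ : Fin n → (Z →ₐ[K] N)) (k₀ : Type) [Field k₀] [Algebra k₀ N] : Subgroup (Wr P n) where
  carrier := {x | ∃ σ : N ≃ₐ[k₀] N, (∀ i, σ (η i) = η i) ∧ Rl r φ σ x}
  one_mem' := ⟨1, fun _ => rfl, Rl.one⟩
  mul_mem' := by
    rintro x y ⟨σ, h1, h2⟩ ⟨τ, h3, h4⟩
    refine ⟨σ * τ, fun i => ?_, h2.mul h4⟩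
    change σ (τ (η i)) = η i
    rw [h3, h1]
  inv_mem' := by
    rintro x ⟨σ, h1, h2⟩
    refine ⟨σ⁻¹, fun i => ?_, h2.inv (fun a => σ.symm_apply_apply a)⟩
    change σ.symm (η i) = η i
    rw [AlgEquiv.symm_apply_eq, h1]

include D hη


end sols

end Pool.Agent.N70.AW.EPc
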