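import Mathlib
import Pool.Agent.H84.L.A3_N157_AW_Base
import Pool.Agent.H84.L.A3_N600_NS_SerA
import Pool.Agent.H84.L.A3_N600_UK_Compl
import Pool.Agent.H84.L.A3_N70_EP_Si
import Pool.Agent.H84.L.A3_N70_EP_Stm
import Pool.Agent.H84.L.A3_N70_EP_TC
import Pool.Agent.H84.L.S8_W200_IH_TB

namespace Pool.Agent.N600.UK
end Pool.Agent.N600.UK


/-!
The splitting index of pull-backs.
-/

set_option autoImplicit false
set_option linter.unusedSectionVars false

namespace Pool.Agent.N70.EP

open Pool.Agent.N600.UK (Out cls cls_eq_one conj_inj)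

theorem splitIdx_pull (G : Type) [Group G] [Finite G] {Γ : Type} [Group Γ] [Finite Γ]
    (o : Γ →* Out G) {n : ℕ} (h : SplitIdx (cls G) n) : SplitIdx (pB o) n := by
  classical
  intro d hd
  refine h d fun U s hs => ?_
  have hfin : Finite (MulAut G) := Finite.of_injective (fun a : MulAut G => (a : G → G))
    DFunLike.coe_injective
  have hfinO : Finite (Out G) := inferInstance
  let act : MulAction Γ (Out G ⧸ U) := MulAction.compHom (Out G ⧸ U) o
  have hdvd : ∀ i : Out G ⧸ U, d ∣ Nat.card (MulAction.orbit Γ i) := by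
    intro i
    obtain ⟨g, rfl⟩ := QuotientGroup.mk_surjective i
    obtain ⟨t, rfl⟩ := QuotientGroup.mk_surjective g
    rw [Nat.card_coe_set_eq, ← MulAction.index_stabilizer]
    set V := MulAction.stabilizer Γ (((t : Out G) : Out G ⧸ U)) with hV
    have hmem : ∀ v : V, (cls G t)⁻¹ * o v * cls G t ∈ U := by
      intro v
      have h1 : ((o v * cls G t : Out G) : Out G ⧸ U) = ((cls G t : Out G) : Out G ⧸ U) := v.2
      have h2 := QuotientGroup.eq.1 h1.symm
      rwa [← mul_assoc] at h2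
    have hmul : ∀ v w : V, (⟨_, hmem (v * w)⟩ : U) = ⟨_, hmem v⟩ * ⟨_, hmem w⟩ := by
      intro v w
      apply Subtype.ext
      change (cls G t)⁻¹ * o ((v : Γ) * w) * cls G t =
        ((cls G t)⁻¹ * o v * cls G t) * ((cls G t)⁻¹ * o w * cls G t)
      rw [map_mul]
      group
    refine hd V (MonoidHom.mk' (fun v => ⟨(t * s ⟨_, hmem v⟩ * t⁻¹, v), ?_⟩) (fun v w => ?_))
      (fun v => rfl)
    · change cls G (t * s ⟨_, hmem v⟩ * t⁻¹) = o v
      rw [map_mul, map_mul, hs, map_inv]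
      change cls G t * ((cls G t)⁻¹ * o v * cls G t) * (cls G t)⁻¹ = o v
      group
    · apply Subtype.ext
      refine Prod.ext ?_ rfl
      change t * s ⟨_, hmem (v * w)⟩ * t⁻¹ = (t * s ⟨_, hmem v⟩ * t⁻¹) * (t * s ⟨_, hmem w⟩ * t⁻¹)
      rw [hmul, map_mul]
      group
  have h1 : Nat.card (Out G ⧸ U) = Nat.card (Σ ω : MulAction.orbitRel.Quotient Γ (Out G ⧸ U),
      MulAction.orbit Γ ω.out) :=
    Nat.card_congr (MulAction.selfEquivSigmaOrbits Γ (Out G ⧸ U))
  have := Fintype.ofFinite (MulAction.orbitRel.Quotient Γ (Out G ⧸ U))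
  rw [Subgroup.index, h1, Nat.card_sigma]
  exact Finset.dvd_sum fun ω _ => hdvd _

end Pool.Agent.N70.EP
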