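import Mathlib
import Pool.Agent.H84.L.S8_H391R2_T4_Red
import Pool.Agent.H84.L.S8_TH444_TW_ClsDef
import Pool.Agent.H84.L.S8_Y793_E_App
import Pool.Agent.H84.L.S8_Y793_E_MainA

namespace Pool.Agent.H391R2
end Pool.Agent.H391R2
namespace Pool.Agent.H391R2.T4
end Pool.Agent.H391R2.T4
namespace Pool.Agent.Y793
end Pool.Agent.Y793


/-!
Alternating fibre powers of embedding problems.
-/

set_option autoImplicit false
set_option linter.unusedSectionVars false
set_option linter.unusedSimpArgs false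

namespace Pool.Agent.N70.EP

open Polynomial Pool.Agent.H391R2 Pool.Agent.H391R2.T4
open Pool.Agent.Y793 (AltTw twProj regSol_iso)

theorem regularOver_of {K A : Type} [Field K] [Group A] (h : RegSol K K A 1) :
    TH444.TW.RegularOver K A := by
  obtain ⟨Z, i1, i2, i3, i4, i5, i6, i7, i8, γ, -, hreg⟩ := h
  have h34 : i3 = i4 := Algebra.algebra_ext i3 i4 (fun x =>
    (@IsScalarTower.algebraMap_apply K K Z _ _ _ _ i3 i4 i6 x).symm)
  subst h34
  exact ⟨Z, i1, i2, i3, i5, i7, i8, ⟨γ⟩, hreg⟩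


end Pool.Agent.N70.EP
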