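import Mathlib
import Pool.Agent.H84.L.A3_N600_NS_FinC
import Pool.Agent.H84.L.A3_N600_NS_Pack
import Pool.Agent.H84.L.S8_TH444_TW_RSK
import Pool.Agent.H84.L.S8_Y793_E_App
import Pool.Agent.H84.L.S8_Y793_E_MainA

namespace Pool.Agent.H391R2
end Pool.Agent.H391R2
namespace Pool.Agent.H391R2.T4
end Pool.Agent.H391R2.T4
namespace Pool.Agent.N600.NS
end Pool.Agent.N600.NS
namespace Pool.Agent.TH444.TW
end Pool.Agent.TH444.TW
namespace Pool.Agent.Y793
end Pool.Agent.Y793


/-!
Alternating fibre powers of degree `q r (2 k + 1)`.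
-/

set_option autoImplicit false
set_option linter.unusedSectionVars false
set_option linter.unusedSimpArgs false

namespace Pool.Agent.N70.EP

open Polynomial Pool.Agent.H391R2 Pool.Agent.H391R2.T4
open Pool.Agent.Y793 (AltTw twProj regSol_iso)
open Pool.Agent.N600.NS (IdxDvd Degs)
open Pool.Agent.TH444.TW (RSK)


theorem finite_hom (H : Type) [Group H] [Finite H] : Finite (H →* ℤˣ) :=
  Finite.of_injective (fun f : H →* ℤˣ => (f : H → ℤˣ)) DFunLike.coe_injective


end Pool.Agent.N70.EP
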