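import Mathlib
import Pool.Agent.H84.L.A3_N157_AW_Dat
import Pool.Agent.H84.L.A3_N600_NS_FinC
import Pool.Agent.H84.L.A3_N600_NS_Pack
import Pool.Agent.H84.L.A3_N600_UK_Compl
import Pool.Agent.H84.L.A3_N70_AW_Rl
import Pool.Agent.H84.L.A3_N70_EP_Stm
import Pool.Agent.H84.L.A3_N70_EP_Stm5
import Pool.Agent.H84.L.A3_N70_EP_TC
import Pool.Agent.H84.L.S8_TH444_TW_RSK
import Pool.Agent.H84.L.S8_Y793_E_App
import Pool.Agent.H84.L.S8_Y793_E_MainA
import Pool.Agent.H84.L.S8_Y793_Stm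

namespace Pool.Agent.H391R2
end Pool.Agent.H391R2
namespace Pool.Agent.H391R2.T4
end Pool.Agent.H391R2.T4
namespace Pool.Agent.N600.NS
end Pool.Agent.N600.NS
namespace Pool.Agent.N600.UK
end Pool.Agent.N600.UK
namespace Pool.Agent.TH444.TW
end Pool.Agent.TH444.TW
namespace Pool.Agent.Y793
end Pool.Agent.Y793


/-!
Final theorems on alternating fibre powers.
-/

set_option autoImplicit false
set_option linter.unusedSectionVars false
set_option linter.unusedSimpArgs false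

namespace Pool.Agent.N70.EP

open Polynomial Pool.Agent.H391R2 Pool.Agent.H391R2.T4
open Pool.Agent.Y793 (AWr AltTw twProj regSol_iso)
open Pool.Agent.N600.NS (IdxDvd Degs)
open Pool.Agent.TH444.TW (RSK)
open Pool.Agent.N600.UK (Out cls cls_eq_one conj_inj)

theorem almostAll_mono {d : ℕ} {A A' : ℕ → Prop} (h : AlmostAll d A) (hA : ∀ n, A n → A' n) :
    AlmostAll d A' := by
  classical
  intro ε hε
  obtain ⟨N, hN⟩ := h ε hε
  refine ⟨N, fun x hx => le_trans ?_ (hN x hx)⟩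
  refine Nat.cast_le.2 (Finset.card_le_card fun n hn => ?_)
  rw [Finset.mem_filter] at hn ⊢
  exact ⟨hn.1, hn.2.1, fun h => hn.2.2 (hA n h)⟩


/- The greatest common divisor of the indices of the subgroups over which `a` splits. -/
theorem exists_splitIdx {H B : Type} [Group H] [Finite H] [Group B] (a : B →* H) :
    ∃ I : ℕ, 0 < I ∧ (∀ d : ℕ, d ∣ I ↔ ∀ (U : Subgroup H) (s : U →* B), (∀ h : U, a (s h) = h) →
      d ∣ U.index) ∧ ∀ n, SplitIdx a n ↔ I ∣ n := by
  let D : Set ℕ := {m | ∃ (U : Subgroup H) (s : U →* B), (∀ h : U, a (s h) = h) ∧ U.index = m}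
  let S : Ideal ℤ := Ideal.span ((fun m : ℕ => (m : ℤ)) '' D)
  let g : ℤ := Submodule.IsPrincipal.generator S
  have hg : S = Ideal.span {g} := (Ideal.span_singleton_generator S).symm
  have key : ∀ d : ℕ, d ∣ g.natAbs ↔ ∀ m ∈ D, d ∣ m := by
    intro d
    have h1 : (d ∣ g.natAbs) ↔ S ≤ Ideal.span {(d : ℤ)} := by
      rw [hg, Ideal.span_singleton_le_span_singleton, ← Int.natCast_dvd]
    rw [h1, Ideal.span_le]
    constructor
    · intro h m hm
      have h2 := h ⟨m, hm, rfl⟩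
      exact Int.natCast_dvd_natCast.1 (Ideal.mem_span_singleton.1 h2)
    · rintro h _ ⟨m, hm, rfl⟩
      exact Ideal.mem_span_singleton.2 (Int.natCast_dvd_natCast.2 (h m hm))
  have key' : ∀ d : ℕ, d ∣ g.natAbs ↔ ∀ (U : Subgroup H) (s : U →* B), (∀ h : U, a (s h) = h) →
      d ∣ U.index := fun d => (key d).trans
    ⟨fun h U s hs => h _ ⟨U, s, hs, rfl⟩, by
      rintro h _ ⟨U, s, hs, rfl⟩
      exact h U s hs⟩
  have h0 : Nat.card H ∈ D := ⟨⊥, 1, fun h => by
    rw [MonoidHom.one_apply, map_one]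
    exact (Subgroup.mem_bot.1 h.2).symm, Subgroup.index_bot⟩
  refine ⟨g.natAbs, ?_, key', fun n => ⟨fun h => h _ ((key' _).1 dvd_rfl), fun h d hd =>
    ((key' d).2 hd).trans h⟩⟩
  have h2 := (key g.natAbs).1 dvd_rfl _ h0
  have h3 : 0 < Nat.card H := Nat.card_pos
  rcases Nat.eq_zero_or_pos g.natAbs with h4 | h4
  · rw [h4, zero_dvd_iff] at h2
    omega
  · exact h4


end Pool.Agent.N70.EP
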