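import Mathlib
import Pool.Agent.H84.L.S8_H81R2_BT_Omega
import Pool.Agent.H84.L.S8_H81R2_BT_Trace
import Pool.Agent.H84.L.S8_W200_IG_Fam
import Pool.Agent.H84.L.S8_W200_IG_HF
import Pool.Agent.H84.L.S8_W200_IG_HG
import Pool.Agent.H84.L.S8_W200_IJ_SA
import Pool.Agent.H84.L.S8_W200_IJ_SG

namespace Pool.Agent.H81R2.BT
end Pool.Agent.H81R2.BT
namespace Pool.Agent.W200.IG
end Pool.Agent.W200.IG
namespace Pool.Agent.W200.IJ
end Pool.Agent.W200.IJ


/-!
Specialisation of a Galois covering along a line, arbitrary characteristic, with the place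
(variant of `Pool.Agent.W200.IJ.spec_line`).
-/

set_option autoImplicit false

namespace Pool.Agent.TH377.IG

open Polynomial
open scoped Pointwise
open Pool.Agent.H81R2.BT (omega_aux ratFunc_alg)
open Pool.Agent.W200.IG (restrict_sep_bij)
open Pool.Agent.W200.IJ (reg_of_inv)

/- Specialisation of a Galois covering along a surjection `φ : A → K[X]`. -/
theorem spec_place {K L : Type} [Field K] [Field L] [Algebra K L]
    [FiniteDimensional K L] [IsGalois K L] {G : Type} [Group G] [Finite G]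
    (α : G →* (L ≃ₐ[K] L)) {A C : Type} [CommRing A] [CommRing C] [IsDomain A] [IsDomain C]
    [Algebra A C] [FaithfulSMul A C] [Algebra K A] [MulSemiringAction G C]
    [Algebra.IsInvariant A C G] [SMulCommClass G A C]
    (ψ : L →+* C) (hψK : ∀ k : K, ψ (algebraMap K L k) = algebraMap A C (algebraMap K A k))
    (hψ : ∀ (g : G) (x : L), g • ψ x = ψ (α g x))
    (φ : A →ₐ[K] K[X]) (hφ : Function.Surjective φ)
    (hI : ∀ Q : Ideal C, Q.IsPrime → (∀ a : A, algebraMap A C a ∈ Q ↔ φ a = 0) →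
      ∀ g : G, g ≠ 1 → ∃ x : C, g • x - x ∉ Q)
    (hroot : ∀ H : Subgroup G, ¬ α.ker ≤ H → ∃ (θ : C) (m : A[X]), (∀ g ∈ H, g • θ = θ) ∧
      m.Monic ∧ (m.map (algebraMap A C)).eval θ = 0 ∧
      (m.map ((algebraMap K[X] (RatFunc K)).comp (φ : A →+* K[X]))).Separable ∧
      ∀ p : (AlgebraicClosure K)[X], ((m.map (φ : A →+* K[X])).map
        (mapRingHom (algebraMap K (AlgebraicClosure K)))).eval p ≠ 0) :
    ∃ (Ω' : Type) (_ : Field Ω') (_ : Algebra (RatFunc K) Ω') (_ : Algebra L Ω')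
      (_ : Algebra K Ω') (_ : IsScalarTower K (RatFunc K) Ω') (_ : IsScalarTower K L Ω')
      (π : C →+* Ω')
      (_ : FiniteDimensional (RatFunc K) (separableClosure (RatFunc K) Ω'))
      (_ : IsGalois (RatFunc K) (separableClosure (RatFunc K) Ω'))
      (γ : (separableClosure (RatFunc K) Ω' ≃ₐ[RatFunc K] separableClosure (RatFunc K) Ω') ≃* G),
      (∀ a : A, π (algebraMap A C a) =
        algebraMap (RatFunc K) Ω' (algebraMap K[X] (RatFunc K) (φ a))) ∧
      (∀ x : L, π (ψ x) = algebraMap L Ω' x) ∧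
      (∀ (σ : separableClosure (RatFunc K) Ω' ≃ₐ[RatFunc K] separableClosure (RatFunc K) Ω')
        (c : C) (hc : π c ∈ separableClosure (RatFunc K) Ω'),
        ((σ ⟨π c, hc⟩ : separableClosure (RatFunc K) Ω') : Ω') = π (γ σ • c)) ∧
      ∀ y ∈ separableClosure (RatFunc K) Ω', IsAlgebraic K y → ∃ x : L, algebraMap L Ω' x = y := by
  classical
  let φ' : A →+* K[X] := (φ : A →+* K[X])
  have hφ' : Function.Surjective φ' := hφ
  let P : Ideal A := RingHom.ker φ'
  have hPprime : P.IsPrime := RingHom.ker_isPrime φ'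
  have hintegral : Algebra.IsIntegral A C := Algebra.IsInvariant.isIntegral A C G
  obtain ⟨⟨Q, hQprime, hQP⟩⟩ := Ideal.nonempty_primesOver (S := C) P
  have hφunder : ∀ a : A, algebraMap A C a ∈ Q ↔ φ a = 0 := by
    intro a
    have h4 : P = Q.under A := hQP.over
    have h5 : a ∈ P ↔ φ a = 0 := RingHom.mem_ker
    rw [← h5, h4]
    rfl
  let j : A ⧸ P ≃+* K[X] := RingHom.quotientKerEquivOfSurjective hφ'
  have hj : ∀ a : A, j (Ideal.Quotient.mk P a) = φ a := fun a => rfl
  let algPt : Algebra (A ⧸ P) (RatFunc K) := ((algebraMap K[X] (RatFunc K)).comp j.toRingHom).toAlgebra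
  have hPt : ∀ a : A, algebraMap (A ⧸ P) (RatFunc K) (Ideal.Quotient.mk P a) =
      algebraMap K[X] (RatFunc K) (φ a) := fun a => rfl
  have frPt : IsFractionRing (A ⧸ P) (RatFunc K) :=
    (IsFractionRing.isFractionRing_iff_of_base_ringEquiv (RatFunc K) j.symm).1 inferInstance
  -- the residue field
  have hPQinj : Function.Injective (algebraMap (A ⧸ P) (C ⧸ Q)) :=
    FaithfulSMul.algebraMap_injective _ _
  have hPFinj : Function.Injective (algebraMap (A ⧸ P) (FractionRing (C ⧸ Q))) := by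
    rw [IsScalarTower.algebraMap_eq (A ⧸ P) (C ⧸ Q) (FractionRing (C ⧸ Q))]
    exact (IsFractionRing.injective (C ⧸ Q) (FractionRing (C ⧸ Q))).comp hPQinj
  let algKtF : Algebra (RatFunc K) (FractionRing (C ⧸ Q)) :=
    (IsFractionRing.lift (K := RatFunc K) hPFinj).toAlgebra
  have towPKtF : IsScalarTower (A ⧸ P) (RatFunc K) (FractionRing (C ⧸ Q)) := by
    apply IsScalarTower.of_algebraMap_eq
    intro x
    exact (IsFractionRing.lift_algebraMap hPFinj x).symm
  have hKtF : ∀ a : A, algebraMap (RatFunc K) (FractionRing (C ⧸ Q))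
      (algebraMap K[X] (RatFunc K) (φ a)) =
      algebraMap (C ⧸ Q) (FractionRing (C ⧸ Q)) (Ideal.Quotient.mk Q (algebraMap A C a)) := by
    intro a
    rw [← hPt, ← IsScalarTower.algebraMap_apply (A ⧸ P) (RatFunc K) (FractionRing (C ⧸ Q)),
      IsScalarTower.algebraMap_apply (A ⧸ P) (C ⧸ Q) (FractionRing (C ⧸ Q))]
    rfl
  let algLF : Algebra L (FractionRing (C ⧸ Q)) :=
    ((algebraMap (C ⧸ Q) (FractionRing (C ⧸ Q))).comp ((Ideal.Quotient.mk Q).comp ψ)).toAlgebra
  have hLF : ∀ x : L, algebraMap L (FractionRing (C ⧸ Q)) x =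
      algebraMap (C ⧸ Q) (FractionRing (C ⧸ Q)) (Ideal.Quotient.mk Q (ψ x)) := fun _ => rfl
  let algKF : Algebra K (FractionRing (C ⧸ Q)) :=
    ((algebraMap L (FractionRing (C ⧸ Q))).comp (algebraMap K L)).toAlgebra
  have towKLF : IsScalarTower K L (FractionRing (C ⧸ Q)) :=
    IsScalarTower.of_algebraMap_eq fun _ => rfl
  have towKKtF : IsScalarTower K (RatFunc K) (FractionRing (C ⧸ Q)) := by
    apply IsScalarTower.of_algebraMap_eq
    intro k
    have h1 : algebraMap K (RatFunc K) k = algebraMap K[X] (RatFunc K) (φ (algebraMap K A k)) := by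
      rw [AlgHom.commutes, ← IsScalarTower.algebraMap_apply K K[X] (RatFunc K)]
    rw [h1, hKtF, ← hψK, ← hLF]
    rfl
  -- normal
  have hnormal : Normal (RatFunc K) (FractionRing (C ⧸ Q)) :=
    Ideal.IsFractionRing.normal G P Q (RatFunc K) (FractionRing (C ⧸ Q))
  let st : MulAction.stabilizer G Q →*
      (FractionRing (C ⧸ Q) ≃ₐ[RatFunc K] FractionRing (C ⧸ Q)) :=
    IsFractionRing.stabilizerHom G P Q (RatFunc K) (FractionRing (C ⧸ Q))
  have hst : Function.Surjective st := IsFractionRing.stabilizerHom_surjective G P Q _ _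
  have hstmk : ∀ (σ : MulAction.stabilizer G Q) (x : C),
      st σ (algebraMap (C ⧸ Q) (FractionRing (C ⧸ Q)) (Ideal.Quotient.mk Q x)) =
      algebraMap (C ⧸ Q) (FractionRing (C ⧸ Q)) (Ideal.Quotient.mk Q (σ.val • x)) :=
    fun σ x => IsFractionRing.stabilizerHom_apply_apply_mk G P Q _ _ σ x
  have hinjF : Function.Injective (algebraMap (C ⧸ Q) (FractionRing (C ⧸ Q))) :=
    IsFractionRing.injective (C ⧸ Q) (FractionRing (C ⧸ Q))
  have hstinj : Function.Injective st := by
    rw [injective_iff_map_eq_one]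
    intro g hg
    by_contra hne
    have hne' : (g : G) ≠ 1 := fun h => hne (Subtype.ext h)
    obtain ⟨x, hx⟩ := hI Q hQprime hφunder g hne'
    apply hx
    rw [← Ideal.Quotient.eq]
    apply hinjF
    rw [← hstmk, hg]
    rfl
  have hstL : ∀ (σ : MulAction.stabilizer G Q) (x : L),
      st σ (algebraMap L (FractionRing (C ⧸ Q)) x) =
      algebraMap L (FractionRing (C ⧸ Q)) (α σ.val x) := by
    intro σ x
    rw [hLF, hLF, hstmk, hψ]
  -- the separable closure
  let Es := separableClosure (RatFunc K) (FractionRing (C ⧸ Q))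
  let res : (FractionRing (C ⧸ Q) ≃ₐ[RatFunc K] FractionRing (C ⧸ Q)) →*
      (Es ≃ₐ[RatFunc K] Es) := AlgEquiv.restrictNormalHom Es
  have hres : Function.Bijective res := restrict_sep_bij (RatFunc K) (FractionRing (C ⧸ Q))
  have hresv : ∀ (τ : FractionRing (C ⧸ Q) ≃ₐ[RatFunc K] FractionRing (C ⧸ Q)) (x : Es),
      ((res τ x : Es) : FractionRing (C ⧸ Q)) = τ (x : FractionRing (C ⧸ Q)) := fun τ x =>
    AlgEquiv.restrictNormal_commutes τ Es x
  have hLEs : ∀ x : L, algebraMap L (FractionRing (C ⧸ Q)) x ∈ Es := by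
    intro x
    rw [mem_separableClosure_iff]
    have h4 : IsSeparable K x := Algebra.IsSeparable.isSeparable K x
    have h5 : IsSeparable K (algebraMap L (FractionRing (C ⧸ Q)) x) := by
      have h6 := h4.map (IsScalarTower.toAlgHom K L (FractionRing (C ⧸ Q)))
        (algebraMap L (FractionRing (C ⧸ Q))).injective
      exact h6
    exact h5.tower_top (RatFunc K)
  let aLE : Algebra L Es := ((algebraMap L (FractionRing (C ⧸ Q))).codRestrict Es hLEs).toAlgebra
  have hLE : ∀ x : L, ((algebraMap L Es x : Es) : FractionRing (C ⧸ Q)) =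
      algebraMap L (FractionRing (C ⧸ Q)) x := fun _ => rfl
  let aKE : Algebra K Es := ((algebraMap (RatFunc K) Es).comp (algebraMap K (RatFunc K))).toAlgebra
  have towKKtE : IsScalarTower K (RatFunc K) Es := IsScalarTower.of_algebraMap_eq fun _ => rfl
  have towKLE : IsScalarTower K L Es := IsScalarTower.of_algebraMap_eq fun x => by
    apply Subtype.ext
    rw [hLE, ← IsScalarTower.algebraMap_apply K L (FractionRing (C ⧸ Q)),
      IsScalarTower.algebraMap_apply K (RatFunc K) (FractionRing (C ⧸ Q))]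
    rfl
  obtain ⟨κ₀, hκalg₀, hκroot⟩ := omega_aux (K := K) (F := FractionRing (C ⧸ Q))
  let κ : IntermediateField (RatFunc K) Es := κ₀.comap Es.val
  have hκmem : ∀ z : Es, z ∈ κ ↔ (z : FractionRing (C ⧸ Q)) ∈ κ₀ := fun z => Iff.rfl
  let st' : MulAction.stabilizer G Q →* (Es ≃ₐ[RatFunc K] Es) := res.comp st
  have hst' : Function.Surjective st' := hres.2.comp hst
  let H : Subgroup G := (κ.fixingSubgroup.comap st').map (MulAction.stabilizer G Q).subtype
  have hHmem : ∀ σ : MulAction.stabilizer G Q, st' σ ∈ κ.fixingSubgroup → σ.val ∈ H :=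
    fun σ hσ => ⟨σ, hσ, rfl⟩
  have hker : α.ker ≤ H := by
    by_contra hcon
    obtain ⟨θ, m, hθ, hm, hmθ, hsep, hno⟩ := hroot H hcon
    have hcomp : ((algebraMap (RatFunc K) (FractionRing (C ⧸ Q))).comp
        (algebraMap K[X] (RatFunc K))).comp φ' =
        ((algebraMap (C ⧸ Q) (FractionRing (C ⧸ Q))).comp (Ideal.Quotient.mk Q)).comp
          (algebraMap A C) := by
      apply RingHom.ext
      intro a
      exact hKtF a
    have hev : ((m.map φ').map ((algebraMap (RatFunc K) (FractionRing (C ⧸ Q))).comp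
        (algebraMap K[X] (RatFunc K)))).eval
          (algebraMap (C ⧸ Q) (FractionRing (C ⧸ Q)) (Ideal.Quotient.mk Q θ)) = 0 := by
      rw [Polynomial.map_map, hcomp, ← Polynomial.map_map]
      have h3 := eval_map_apply (f := ((algebraMap (C ⧸ Q) (FractionRing (C ⧸ Q))).comp
        (Ideal.Quotient.mk Q))) (p := m.map (algebraMap A C)) (x := θ)
      rw [hmθ, map_zero] at h3
      exact h3
    have hθs : algebraMap (C ⧸ Q) (FractionRing (C ⧸ Q)) (Ideal.Quotient.mk Q θ) ∈ Es := by
      rw [mem_separableClosure_iff]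
      refine hsep.of_dvd (minpoly.dvd _ _ ?_)
      rw [aeval_def, eval₂_eq_eval_map, Polynomial.map_map]
      rw [Polynomial.map_map] at hev
      exact hev
    have h1 : (⟨_, hθs⟩ : Es) ∈ κ := by
      rw [← InfiniteGalois.fixedField_fixingSubgroup κ, IntermediateField.mem_fixedField_iff]
      intro τ hτ
      obtain ⟨σ, rfl⟩ := hst' τ
      apply Subtype.ext
      change ((res (st σ) _ : Es) : FractionRing (C ⧸ Q)) = _
      rw [hresv]
      change st σ (algebraMap (C ⧸ Q) (FractionRing (C ⧸ Q)) (Ideal.Quotient.mk Q θ)) = _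
      rw [hstmk, hθ _ (hHmem σ hτ)]
    obtain ⟨p, hp⟩ := hκroot _ ((hκmem _).1 h1) (m.map φ') (hm.map _) hev
    exact hno p hp
  -- the restriction to the constants is surjective
  have hΓ : (MulAction.stabilizer G Q).map α = ⊤ := by
    rw [← IntermediateField.fixingSubgroup_fixedField ((MulAction.stabilizer G Q).map α),
      ← IntermediateField.fixingSubgroup_bot]
    congr 1
    rw [eq_bot_iff]
    intro x hx
    rw [IntermediateField.mem_fixedField_iff] at hx
    have h1 : algebraMap L Es x ∈ Set.range (algebraMap (RatFunc K) Es) := by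
      rw [InfiniteGalois.mem_range_algebraMap_iff_fixed]
      intro τ
      obtain ⟨σ, rfl⟩ := hst' τ
      apply Subtype.ext
      change ((res (st σ) _ : Es) : FractionRing (C ⧸ Q)) = _
      rw [hresv, hLE, hstL, hx _ ⟨σ.val, σ.2, rfl⟩]
    obtain ⟨r, hr⟩ := h1
    have h2 : IsAlgebraic K (algebraMap L Es x) :=
      (Algebra.IsAlgebraic.isAlgebraic (R := K) x).algebraMap
    rw [← hr, isAlgebraic_algebraMap_iff (algebraMap (RatFunc K) _).injective] at h2
    obtain ⟨k, rfl⟩ := ratFunc_alg r h2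
    rw [← IsScalarTower.algebraMap_apply K (RatFunc K) Es,
      IsScalarTower.algebraMap_apply K L Es] at hr
    rw [IntermediateField.mem_bot]
    exact ⟨k, (algebraMap L Es).injective hr⟩
  -- the decomposition group is everything
  have hstabtop : MulAction.stabilizer G Q = ⊤ := by
    rw [eq_top_iff]
    intro g _
    have h1 : α g ∈ (MulAction.stabilizer G Q).map α := by rw [hΓ]; trivial
    obtain ⟨d, hd, hdg⟩ := h1
    have h2 : g * d⁻¹ ∈ α.ker := by
      rw [MonoidHom.mem_ker, map_mul, map_inv, hdg, mul_inv_cancel]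
    obtain ⟨σ, _, hσ⟩ := hker h2
    have h3 : g = σ.val * d := by
      have : σ.val = g * d⁻¹ := hσ
      rw [this, inv_mul_cancel_right]
    rw [h3]
    exact mul_mem σ.2 hd
  let E1 : MulAction.stabilizer G Q ≃* (Es ≃ₐ[RatFunc K] Es) :=
    MulEquiv.ofBijective st' ⟨hres.1.comp hstinj, hst'⟩
  let E0 : MulAction.stabilizer G Q ≃* G :=
    (MulEquiv.subgroupCongr hstabtop).trans Subgroup.topEquiv
  have hE0 : ∀ σ, E0 σ = σ.val := fun σ => rfl
  have hE1 : ∀ σ, E1 σ = res (st σ) := fun σ => rfl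
  let γ := E1.symm.trans E0
  have hγL : ∀ (σ : Es ≃ₐ[RatFunc K] Es) (x : L),
      σ (algebraMap L Es x) = algebraMap L Es (α (γ σ) x) := by
    intro σ x
    obtain ⟨s, rfl⟩ := E1.surjective σ
    have h1 : γ (E1 s) = s.val := by
      change E0 (E1.symm (E1 s)) = s.val
      rw [MulEquiv.symm_apply_apply, hE0]
    apply Subtype.ext
    rw [h1, hE1, hresv, hLE, hstL]
    rfl
  have hfinG : Finite (Es ≃ₐ[RatFunc K] Es) := Finite.of_equiv _ γ.symm.toEquiv
  have hgal : IsGalois (RatFunc K) Es := inferInstance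
  have hfd : FiniteDimensional (RatFunc K) Es :=
    IsGalois.finiteDimensional_of_finite (RatFunc K) Es
  have hγπ : ∀ (σ : Es ≃ₐ[RatFunc K] Es) (c : C)
      (hc : algebraMap (C ⧸ Q) (FractionRing (C ⧸ Q)) (Ideal.Quotient.mk Q c) ∈ Es),
      ((σ ⟨algebraMap (C ⧸ Q) (FractionRing (C ⧸ Q)) (Ideal.Quotient.mk Q c), hc⟩ : Es) :
        FractionRing (C ⧸ Q)) =
      algebraMap (C ⧸ Q) (FractionRing (C ⧸ Q)) (Ideal.Quotient.mk Q (γ σ • c)) := by
    intro σ c hc
    obtain ⟨s, rfl⟩ := E1.surjective σ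
    have h1 : γ (E1 s) = s.val := by
      change E0 (E1.symm (E1 s)) = s.val
      rw [MulEquiv.symm_apply_apply, hE0]
    rw [h1, hE1, hresv]
    exact hstmk s c
  refine ⟨FractionRing (C ⧸ Q), inferInstance, inferInstance, algLF, algKF, towKKtF, towKLF,
    (algebraMap (C ⧸ Q) (FractionRing (C ⧸ Q))).comp (Ideal.Quotient.mk Q), hfd, hgal,
    γ, fun a => (hKtF a).symm, fun x => rfl, hγπ, ?_⟩
  intro y0 hy0 hyK0
  suffices h0 : (⟨y0, hy0⟩ : Es) ∈ Set.range (algebraMap L Es) by
    obtain ⟨x, hx⟩ := h0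
    exact ⟨x, congrArg Subtype.val hx⟩
  have towKEF : IsScalarTower K Es (FractionRing (C ⧸ Q)) :=
    IsScalarTower.of_algebraMap_eq fun x => by
      rw [IsScalarTower.algebraMap_apply K (RatFunc K) (FractionRing (C ⧸ Q))]
      rfl
  obtain ⟨y, hyy⟩ : ∃ y : Es, y = ⟨y0, hy0⟩ := ⟨_, rfl⟩
  rw [← hyy]
  have hyK : IsAlgebraic K y := by
    rw [← isAlgebraic_algebraMap_iff (algebraMap Es (FractionRing (C ⧸ Q))).injective
      (A := FractionRing (C ⧸ Q)), hyy]
    exact hyK0
  have hy : IsAlgebraic L y := hyK.extendScalars (algebraMap K L).injective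
  refine reg_of_inv (k := K) (E := RatFunc K) (fun e he => ?_) (fun ρ => ?_) y hy
    (fun σ hσ => ?_)
  · obtain ⟨k, hk⟩ := ratFunc_alg e he
    exact ⟨k, hk⟩
  · have h1 : ρ ∈ (MulAction.stabilizer G Q).map α := by rw [hΓ]; trivial
    obtain ⟨d, hd, rfl⟩ := h1
    refine ⟨γ.symm d, fun a => ?_⟩
    rw [hγL, MulEquiv.apply_symm_apply]
  · obtain ⟨s, rfl⟩ := E1.surjective σ
    have h1 : γ (E1 s) = s.val := by
      change E0 (E1.symm (E1 s)) = s.val
      rw [MulEquiv.symm_apply_apply, hE0]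
    have h2 : s.val ∈ α.ker := by
      rw [MonoidHom.mem_ker]
      apply AlgEquiv.ext
      intro a
      apply (algebraMap L Es).injective
      rw [← h1, ← hγL, hσ]
      rfl
    obtain ⟨s', hs', hss'⟩ := hker h2
    have h3 : s' = s := Subtype.ext hss'
    rw [h3] at hs'
    have h4 : st' s ∈ κ.fixingSubgroup := hs'
    have h5 : y ∈ κ := by
      rw [hκmem]
      apply hκalg₀
      have h6 := hyK.algHom (Es.val.restrictScalars K)
      exact h6
    exact (IntermediateField.mem_fixingSubgroup_iff κ _).1 h4 y h5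

end Pool.Agent.TH377.IG
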