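import Mathlib



/-!
`K(t)(s)` as the fraction field of a polynomial ring in two variables.
-/

set_option autoImplicit false

namespace Pool.Agent.TH377.IG

open Polynomial

theorem clear_den {A E : Type} [CommRing A] [IsDomain A] [Field E] [Algebra A E]
    [IsFractionRing A E] (p : E[X]) :
    ∃ (P : A[X]) (b : A), b ≠ 0 ∧ P.map (algebraMap A E) = C (algebraMap A E b) * p := by
  obtain ⟨b1, hb1m, hb1⟩ := IsLocalization.integerNormalization_spec (nonZeroDivisors A) p
  refine ⟨IsLocalization.integerNormalization (nonZeroDivisors A) p, b1,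
    nonZeroDivisors.ne_zero hb1m, ?_⟩
  rw [hb1, Algebra.smul_def]
  rfl

theorem frac_two {K k E : Type} [Field K] [Field k] [Field E] [Algebra K[X] k]
    [IsFractionRing K[X] k] [Algebra k[X] E] [IsFractionRing k[X] E] [Algebra K E]
    (hKE : ∀ c : K, algebraMap K E c = algebraMap k[X] E (C (algebraMap K[X] k (C c)))) :
    ∃ (_ : Algebra (MvPolynomial (Option Unit) K) E)
      (_ : IsFractionRing (MvPolynomial (Option Unit) K) E),
      IsScalarTower K (MvPolynomial (Option Unit) K) E ∧
      ∀ p : K[X], algebraMap (MvPolynomial (Option Unit) K) E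
        (aeval (MvPolynomial.X (some ())) p) = algebraMap k[X] E (C (algebraMap K[X] k p)) := by
  classical
  let g : MvPolynomial (Option Unit) K →ₐ[K] E := MvPolynomial.aeval
    (fun o => o.elim (algebraMap k[X] E X) (fun _ => algebraMap k[X] E (C (algebraMap K[X] k X))))
  let e := (MvPolynomial.optionEquivLeft K Unit)
  let u : MvPolynomial Unit K →+* k :=
    (algebraMap K[X] k).comp (MvPolynomial.uniqueAlgEquiv K Unit).toAlgHom.toRingHom
  have hu : Function.Injective u := (IsFractionRing.injective K[X] k).comp
    (MvPolynomial.uniqueAlgEquiv K Unit).injective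
  have huX : u (MvPolynomial.X ()) = algebraMap K[X] k X := by
    change algebraMap K[X] k (MvPolynomial.uniqueAlgEquiv K Unit (MvPolynomial.X ())) = _
    congr 1
    exact MvPolynomial.eval₂_X _ _ _
  have huC : ∀ c, u (MvPolynomial.C c) = algebraMap K[X] k (C c) := by
    intro c
    change algebraMap K[X] k (MvPolynomial.uniqueAlgEquiv K Unit (MvPolynomial.C c)) = _
    congr 1
    exact MvPolynomial.eval₂_C _ _ _
  let h : (MvPolynomial Unit K)[X] →+* E := (algebraMap k[X] E).comp (mapRingHom u)
  have hhv : ∀ q, h q = algebraMap k[X] E (q.map u) := fun _ => rfl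
  have hh : Function.Injective h := (IsFractionRing.injective k[X] E).comp
    (map_injective u hu)
  have hgh : ∀ x, g x = h (e x) := by
    intro x
    have h1 : (g : MvPolynomial (Option Unit) K →+* E) =
        h.comp e.toAlgHom.toRingHom := by
      apply MvPolynomial.ringHom_ext
      · intro r
        change g (MvPolynomial.C r) = h (e (MvPolynomial.C r))
        rw [MvPolynomial.optionEquivLeft_C, hhv, map_C, huC, MvPolynomial.algHom_C, hKE]
      · intro i
        rcases i with _ | i
        · change g (MvPolynomial.X none) = h (e (MvPolynomial.X none))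
          rw [MvPolynomial.optionEquivLeft_X_none, hhv, map_X, MvPolynomial.aeval_X]
          rfl
        · change g (MvPolynomial.X (some i)) = h (e (MvPolynomial.X (some i)))
          rw [MvPolynomial.optionEquivLeft_X_some, hhv, map_C, huX, MvPolynomial.aeval_X]
          rfl
    exact RingHom.congr_fun h1 x
  have hg : Function.Injective g := by
    intro x y hxy
    rw [hgh, hgh] at hxy
    exact e.injective (hh hxy)
  -- every element of `k[X]` is the quotient of images
  have hquot : ∀ p : k[X], ∃ x y : MvPolynomial (Option Unit) K, y ≠ 0 ∧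
      g y * algebraMap k[X] E p = g x := by
    intro p
    have hfr : IsFractionRing K[X] k := inferInstance
    obtain ⟨P, b, hb, hP⟩ := clear_den (A := K[X]) (E := k) p
    let v : K[X] →+* MvPolynomial Unit K :=
      (MvPolynomial.uniqueAlgEquiv K Unit).symm.toAlgHom.toRingHom
    have huv : ∀ q, u (v q) = algebraMap K[X] k q := by
      intro q
      change algebraMap K[X] k (MvPolynomial.uniqueAlgEquiv K Unit
        ((MvPolynomial.uniqueAlgEquiv K Unit).symm q)) = _
      rw [AlgEquiv.apply_symm_apply]
    refine ⟨e.symm (P.map v), e.symm (C (v b)), ?_, ?_⟩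
    · intro h0
      rw [map_eq_zero_iff _ e.symm.injective, C_eq_zero] at h0
      apply hb
      apply (IsFractionRing.injective K[X] k)
      rw [← huv, h0, map_zero, map_zero]
    · rw [hgh, hgh, AlgEquiv.apply_symm_apply, AlgEquiv.apply_symm_apply, hhv, hhv, map_C, huv,
        Polynomial.map_map, ← map_mul]
      congr 1
      rw [← hP]
      congr 1
      apply RingHom.ext
      intro q
      exact (huv q).symm
  let aA : Algebra (MvPolynomial (Option Unit) K) E := (g : _ →+* E).toAlgebra
  have haA : ∀ x, algebraMap (MvPolynomial (Option Unit) K) E x = g x := fun _ => rfl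
  have hf : FaithfulSMul (MvPolynomial (Option Unit) K) E :=
    (faithfulSMul_iff_algebraMap_injective _ _).2 hg
  refine ⟨aA, IsFractionRing.of_field _ _ ?_, IsScalarTower.of_algebraMap_eq fun x => ?_, ?_⟩
  · intro z
    obtain ⟨p, q, hq, rfl⟩ := IsFractionRing.div_surjective (A := k[X]) z
    obtain ⟨x, y, hy, hxy⟩ := hquot p
    obtain ⟨x', y', hy', hxy'⟩ := hquot q
    refine ⟨x * y', y * x', ?_⟩
    have hq0 : algebraMap k[X] E q ≠ 0 := by
      rw [Ne, map_eq_zero_iff _ (IsFractionRing.injective k[X] E)]
      exact nonZeroDivisors.ne_zero hq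
    have hgy : g y ≠ 0 := by rwa [Ne, map_eq_zero_iff _ hg]
    have hgy' : g y' ≠ 0 := by rwa [Ne, map_eq_zero_iff _ hg]
    rw [haA, haA, map_mul, map_mul, ← hxy, ← hxy']
    field_simp
  · rw [haA]
    exact (g.commutes x).symm
  · intro p
    rw [haA]
    have h1 : ((g : MvPolynomial (Option Unit) K →+* E).comp
        ((aeval (MvPolynomial.X (some ())) : K[X] →ₐ[K] MvPolynomial (Option Unit) K) :
          K[X] →+* _)) = ((algebraMap k[X] E).comp (C : k →+* k[X])).comp (algebraMap K[X] k) := by
      apply Polynomial.ringHom_ext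
      · intro c
        change g (aeval (MvPolynomial.X (some ())) (C c)) = algebraMap k[X] E
          (C (algebraMap K[X] k (C c)))
        rw [aeval_C, AlgHom.commutes, hKE]
      · change g (aeval (MvPolynomial.X (some ())) X) = algebraMap k[X] E
          (C (algebraMap K[X] k X))
        rw [aeval_X, MvPolynomial.aeval_X]
        rfl
    exact RingHom.congr_fun h1 p

end Pool.Agent.TH377.IG
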