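import Mathlib
import Pool.Agent.H84.L.S8_H391R2_T4_Red
import Pool.Agent.H84.L.S8_H391R2_WrGrp

namespace Pool.Agent.H391R2
end Pool.Agent.H391R2
namespace Pool.Agent.H391R2.T4
end Pool.Agent.H391R2.T4


set_option autoImplicit false

namespace Pool.Agent.Y793

open Pool.Agent.H391R2 Pool.Agent.H391R2.T4


section fin

variable (K L E : Type) [Field K] [CharZero K] [Field L] [Algebra K L]
    [FiniteDimensional K L] [IsGalois K L] [Group E] [Finite E]
    (α : E →* (L ≃ₐ[K] L))

instance finite_wrx (G Γ : Type) [Group G] [Group Γ] [Finite G] [Finite Γ] (n : ℕ) :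
    Finite (Wr G n × Γ) := by
  have h1 : Finite (Wr G n) := finite_wr G n
  exact inferInstance


end fin

end Pool.Agent.Y793
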