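import Mathlib
import Pool.Agent.H84.L.A3_N216_EP_Uni
import Pool.Agent.H84.L.A3_N455_EP_Bch
import Pool.Agent.H84.L.A3_N70_EP_Si
import Pool.Agent.H84.L.A3_N70_EP_Stm
import Pool.Agent.H84.L.A3_N999_EP_One
import Pool.Agent.H84.L.S8_H391R2_T4_Red
import Pool.Agent.H84.L.S8_H391R2_T4_Sym
import Pool.Agent.H84.L.S8_H391R2_WrGrp
import Pool.Agent.H84.L.S8_TH444_TW_RSK
import Pool.Agent.H84.L.S8_Y793_E_All
import Pool.Agent.H84.L.S8_Y793_E_App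
import Pool.Agent.H84.L.S8_Y793_E_MainA

namespace Pool.Agent.H391R2
end Pool.Agent.H391R2
namespace Pool.Agent.H391R2.T4
end Pool.Agent.H391R2.T4
namespace Pool.Agent.TH444.TW
end Pool.Agent.TH444.TW
namespace Pool.Agent.Y793
end Pool.Agent.Y793


/-!
Uniformity in the fields.
-/

set_option autoImplicit false
set_option linter.unusedSectionVars false
set_option linter.unusedSimpArgs false

namespace Pool.Agent.N70.EP

open Polynomial Pool.Agent.H391R2 Pool.Agent.H391R2.T4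
open Pool.Agent.Y793 (AltTw twProj regSol_iso)
open Pool.Agent.TH444.TW (RSK)

/- One Galois extension decides regular steps. -/
theorem transfer (H : Type) [Group H] [Finite H] :
    ∃ (K₀ L₀ : Type) (_ : Field K₀) (_ : CharZero K₀) (_ : Field L₀) (_ : Algebra K₀ L₀)
      (_ : FiniteDimensional K₀ L₀) (_ : IsGalois K₀ L₀) (e₀ : (L₀ ≃ₐ[K₀] L₀) ≃* H),
      ∀ (E : Type) [Group E] [Finite E] (α : E →* H),
        RegSol K₀ L₀ E ((e₀.symm : H →* (L₀ ≃ₐ[K₀] L₀)).comp α) → RSK ℚ α := by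
  obtain ⟨K₀, L₀, i1, i2, i3, i4, i5, i6, e₀, huni⟩ := N216.EP.uni_of N999.EP.t_one H
  refine ⟨K₀, L₀, i1, i2, i3, i4, i5, i6, e₀, ?_⟩
  intro E _ _ α hα K M _ _ _ _ _ _ _ ε
  have hcK : CharZero K := charZero_of_injective_algebraMap (algebraMap ℚ K).injective
  obtain ⟨K₁, L₁, j1, j2, j3, j4, j5, j6, j7, j8, j9, f, f₀, h1, h2, h3, h4⟩ := huni K M ε
  refine h4 E (ε.symm.toMonoidHom.comp α) ?_
  have h5 := N455.EP.t_bch K₀ L₀ K₁ L₁ f₀ h2 E _ hα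
  have h6 : ((f.symm : (M ≃ₐ[K] M) →* (L₁ ≃ₐ[K₁] L₁)).comp (ε.symm.toMonoidHom.comp α)) =
      ((f₀.symm : (L₀ ≃ₐ[K₀] L₀) →* (L₁ ≃ₐ[K₁] L₁)).comp
        ((e₀.symm : H →* (L₀ ≃ₐ[K₀] L₀)).comp α)) := by
    ext1 x
    change f.symm (ε.symm (α x)) = f₀.symm (e₀.symm (α x))
    rw [MulEquiv.symm_apply_eq, MulEquiv.symm_apply_eq, h3, MulEquiv.apply_symm_apply,
      MulEquiv.apply_symm_apply]
  rw [h6]
  exact h5

/- Transport of the twisted fibre powers. -/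
def twTrans {B Γ Γ' : Type} [Group B] [Group Γ] [Group Γ'] (e : Γ' ≃* Γ) (a : B →* Γ)
    (χ : Γ →* ℤˣ) (n : ℕ) :
    AltTw ((e.symm : Γ →* Γ').comp a) (χ.comp (e : Γ' →* Γ)) n ≃* AltTw a χ n where
  toFun z := ⟨(z.1.1, e z.1.2), Subgroup.mem_inf.2 ⟨fun i => by
    have h1 := (Subgroup.mem_inf.1 z.2).1 i
    change e.symm (a (z.1.1.left i)) = z.1.2 at h1
    change a (z.1.1.left i) = e z.1.2
    rw [← h1, e.apply_symm_apply], (Subgroup.mem_inf.1 z.2).2⟩⟩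
  invFun z := ⟨(z.1.1, e.symm z.1.2), Subgroup.mem_inf.2 ⟨fun i => by
    have h1 := (Subgroup.mem_inf.1 z.2).1 i
    change a (z.1.1.left i) = z.1.2 at h1
    change e.symm (a (z.1.1.left i)) = e.symm z.1.2
    rw [h1], by
      have h1 := (Subgroup.mem_inf.1 z.2).2
      change Equiv.Perm.sign z.1.1.right = χ z.1.2 at h1
      change Equiv.Perm.sign z.1.1.right = χ (e (e.symm z.1.2))
      rw [h1, e.apply_symm_apply]⟩⟩
  left_inv z := Subtype.ext (Prod.ext rfl (e.symm_apply_apply _))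
  right_inv z := Subtype.ext (Prod.ext rfl (e.apply_symm_apply _))
  map_mul' z w := Subtype.ext (Prod.ext rfl (e.map_mul _ _))


theorem rsk_tw {H B : Type} [Group H] [Finite H] [Group B] [Finite B] (a : B →* H)
    (χ : H →* ℤˣ) (n : ℕ) {K₀ L₀ : Type} [Field K₀] [Field L₀] [Algebra K₀ L₀]
    [FiniteDimensional K₀ L₀] [IsGalois K₀ L₀] (e₀ : (L₀ ≃ₐ[K₀] L₀) ≃* H)
    (h : ∀ (E : Type) [Group E] [Finite E] (α : E →* H),
        RegSol K₀ L₀ E ((e₀.symm : H →* (L₀ ≃ₐ[K₀] L₀)).comp α) → RSK ℚ α)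
    (h2 : RegSol K₀ L₀ (AltTw ((e₀.symm : H →* (L₀ ≃ₐ[K₀] L₀)).comp a)
      (χ.comp (e₀ : (L₀ ≃ₐ[K₀] L₀) →* H)) n) (twProj ((e₀.symm : H →* (L₀ ≃ₐ[K₀] L₀)).comp a)
      (χ.comp (e₀ : (L₀ ≃ₐ[K₀] L₀) →* H)) n)) : RSK ℚ (twProj a χ n) := by
  have hW : Finite (Wr B n) := finite_wr B n
  have hf : Finite (AltTw a χ n) := inferInstance
  refine h _ (twProj a χ n) ?_
  refine regSol_iso K₀ L₀ _ _ _ _ (twTrans e₀ a χ n) (fun z => ?_) h2
  exact e₀.symm_apply_apply _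


end Pool.Agent.N70.EP
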