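import Mathlib



/-!
# Vocabulary: alternating fibre powers of embedding problems

`(Fin n → B) ⋊[mulAutArrow] Equiv.Perm (Fin n)` is the wreath product `B ≀ S_n`.
-/

set_option autoImplicit false

namespace Pool.Agent.N70.EP.Voc

/- The wreath product `B ≀ S_n`. -/
abbrev Wreath (B : Type) [Group B] (n : ℕ) : Type := (Fin n → B) ⋊[mulAutArrow] Equiv.Perm (Fin n)

/- All coordinates of `x` in `B ≀ S_n` are mapped to `ρ` by `α : B → Γ` and the sign of the
permutation of `x` is `χ ρ`. -/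
def TwMem {B Γ : Type} [Group B] [Group Γ] (α : B →* Γ) (χ : Γ →* ℤˣ) (n : ℕ)
    (z : Wreath B n × Γ) : Prop :=
  (∀ i, α (z.1.left i) = z.2) ∧ Equiv.Perm.sign z.1.right = χ z.2

section

variable {B Γ : Type} [Group B] [Group Γ] {α : B →* Γ} {χ : Γ →* ℤˣ} {n : ℕ}

theorem twMem_one : TwMem α χ n 1 := ⟨fun _ => map_one α, by
  rw [Prod.snd_one, map_one]
  exact map_one _⟩

theorem twMem_mul {z w : Wreath B n × Γ} (h : TwMem α χ n z) (h' : TwMem α χ n w) :
    TwMem α χ n (z * w) := by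
  refine ⟨fun i => ?_, ?_⟩
  · change α (z.1.left i * w.1.left (z.1.right⁻¹ i)) = z.2 * w.2
    rw [map_mul, h.1, h'.1]
  · change Equiv.Perm.sign (z.1.right * w.1.right) = χ (z.2 * w.2)
    rw [map_mul, map_mul, h.2, h'.2]

theorem twMem_inv {z : Wreath B n × Γ} (h : TwMem α χ n z) : TwMem α χ n z⁻¹ := by
  refine ⟨fun i => ?_, ?_⟩
  · have h1 : (z⁻¹).1.left i = (z.1.left (z.1.right i))⁻¹ := by
      change ((z.1)⁻¹).left i = _
      rw [SemidirectProduct.inv_left]
      change (z.1.left⁻¹) ((z.1.right⁻¹)⁻¹ • i) = _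
      rw [inv_inv]
      rfl
    rw [h1, map_inv, h.1]
    rfl
  · change Equiv.Perm.sign (z.1.right⁻¹) = χ (z.2⁻¹)
    rw [map_inv, map_inv, h.2]

end

/- The group of all `(x, ρ)` with `x` in `B ≀ S_n`, `ρ` in `Γ`, such that all coordinates of `x` are
mapped to `ρ` by `α : B → Γ` and the sign of the permutation of `x` is `χ ρ`. -/
def TwPow {B Γ : Type} [Group B] [Group Γ] (α : B →* Γ) (χ : Γ →* ℤˣ) (n : ℕ) :
    Subgroup (Wreath B n × Γ) where
  carrier := {z | TwMem α χ n z}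
  one_mem' := twMem_one
  mul_mem' := twMem_mul
  inv_mem' := twMem_inv

/- The projection `(x, ρ) ↦ ρ`. Its kernel is `(ker α) ≀ A_n`. -/
def twPr {B Γ : Type} [Group B] [Group Γ] (α : B →* Γ) (χ : Γ →* ℤˣ) (n : ℕ) :
    TwPow α χ n →* Γ :=
  (MonoidHom.snd (Wreath B n) Γ).comp (TwPow α χ n).subtype


/- `I` is the index of the homomorphism `α : B → H`: the greatest common divisor of the indices of
the subgroups `U` of `H` over which `α` splits. -/
def IsSplittingIndex {B H : Type} [Group B] [Group H] (α : B →* H) (I : ℕ) : Prop :=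
  0 < I ∧ ∀ d : ℕ, d ∣ I ↔ ∀ (U : Subgroup H) (s : U →* B), (∀ u : U, α (s u) = u) → d ∣ U.index

open scoped Classical in
/- Almost all multiples of `d` (in the sense of natural density) have the property `A`: the number
of the multiples `n < x` of `d` which do not have it is `o(x)`. -/
def AlmostAllMultiples (d : ℕ) (A : ℕ → Prop) : Prop :=
  ∀ ε : ℝ, 0 < ε → ∃ N : ℕ, ∀ x ≥ N,
    (((Finset.range x).filter fun n => d ∣ n ∧ ¬ A n).card : ℝ) ≤ ε * x

end Pool.Agent.N70.EP.Voc
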