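import Mathlib
import Pool.Agent.H84.L.A3_N600_NS_FinC
import Pool.Agent.H84.L.A3_N600_NS_Pack
import Pool.Agent.H84.L.A3_N70_EP_Si
import Pool.Agent.H84.L.A3_N70_EP_Voc
import Pool.Agent.H84.L.S8_H391R2_T4_Sym
import Pool.Agent.H84.L.S8_H391R2_WrGrp
import Pool.Agent.H84.L.S8_TH444_TW_RSK
import Pool.Agent.H84.L.S8_Y793_E_App
import Pool.Agent.H84.L.S8_Y793_E_MainA
import Pool.Agent.H84.L.S8_Y793_Stm

namespace Pool.Agent.H391R2
end Pool.Agent.H391R2
namespace Pool.Agent.H391R2.T4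
end Pool.Agent.H391R2.T4
namespace Pool.Agent.N600.NS
end Pool.Agent.N600.NS
namespace Pool.Agent.TH444.TW
end Pool.Agent.TH444.TW
namespace Pool.Agent.Y793
end Pool.Agent.Y793


/-!
Translation between the vocabularies.
-/

set_option autoImplicit false
set_option linter.unusedSectionVars false
set_option linter.unusedSimpArgs false

namespace Pool.Agent.N70.EP

open Polynomial Pool.Agent.H391R2 Pool.Agent.H391R2.T4 Voc
open Pool.Agent.Y793 (AWr AltTw twProj regSol_iso)
open Pool.Agent.N600.NS (IdxDvd Degs)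
open Pool.Agent.TH444.TW (RSK)

section grp

variable {B Γ : Type} [Group B] [Group Γ] (α : B →* Γ) (χ : Γ →* ℤˣ) (n : ℕ)

theorem twPow_eq : TwPow α χ n = AltTw α χ n := by
  ext z
  constructor
  · rintro ⟨h1, h2⟩
    exact Subgroup.mem_inf.2 ⟨h1, h2⟩
  · intro h
    exact ⟨(Subgroup.mem_inf.1 h).1, (Subgroup.mem_inf.1 h).2⟩

/- The identity. -/
def twE : TwPow α χ n ≃* AltTw α χ n := MulEquiv.subgroupCongr (twPow_eq α χ n)


end grp


end Pool.Agent.N70.EP
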