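import Mathlib



/-!
# Vocabulary: kernels of embedding problems in characteristic zero
-/

set_option autoImplicit false

namespace Pool.Agent.N70.EP.Voc


/- The group of the inner automorphisms. -/
def InnerAut (G : Type) [Group G] : Subgroup (MulAut G) := (MulAut.conj : G →* MulAut G).range

/- `G` is a nontrivial finite group with trivial centre. -/
structure Centreless (G : Type) [Group G] : Prop where
  finite : Finite G
  nontrivial : Nontrivial G
  center : Subgroup.center G = ⊥

/- `D` is the greatest common divisor of the indices of the subgroups `U` of `Aut G` containing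
`Inn G` in which `Inn G` has a complement. So `D = 1` if `Inn G` has a complement in `Aut G`, and `D`
divides the order of `Out G`. -/
def OuterIndex (G : Type) [Group G] (D : ℕ) : Prop :=
  0 < D ∧ ∀ d : ℕ, d ∣ D ↔ ∀ U C : Subgroup (MulAut G), C ⊓ InnerAut G = ⊥ →
    C ⊔ InnerAut G = U → d ∣ U.index


end Pool.Agent.N70.EP.Voc
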