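import Mathlib
import Pool.Agent.H84.L.A3_N600_NS_Pa
import Pool.Agent.H84.L.A3_N600_NS_SemA
import Pool.Agent.H84.L.A3_N600_UK_Compl
import Pool.Agent.H84.L.A3_N600_UK_Good
import Pool.Agent.H84.L.A3_N600_UK_Main
import Pool.Agent.H84.L.A3_N70_EP_Si
import Pool.Agent.H84.L.A3_N70_EP_Stm3
import Pool.Agent.H84.L.A3_N70_EP_TC
import Pool.Agent.H84.L.A3_N70_EP_VocC
import Pool.Agent.H84.L.S8_H391R2_T4_Nod
import Pool.Agent.H84.L.S8_H391R2_T4_Sem
import Pool.Agent.H84.L.S8_H391R2_WrGrp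
import Pool.Agent.H84.L.S8_TH15_IGP_TwB
import Pool.Agent.H84.L.S8_TH444_TW_ClsDef
import Pool.Agent.H84.L.S8_TH444_TW_RS
import Pool.Agent.H84.L.S8_TH444_TW_RSK
import Pool.Agent.H84.L.S8_TH59_WX_UF
import Pool.Agent.H84.L.S8_W200_IG_Fam
import Pool.Agent.H84.L.S8_W200_IG_HF
import Pool.Agent.H84.L.S8_W200_IJ_SA
import Pool.Agent.H84.L.S8_Y793_E_App
import Pool.Agent.H84.L.S8_Y793_E_MainA
import Pool.Agent.H84.L.S8_Y793_Stm

namespace Pool.Agent.H391R2
end Pool.Agent.H391R2
namespace Pool.Agent.H391R2.T4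
end Pool.Agent.H391R2.T4
namespace Pool.Agent.N600.UK
end Pool.Agent.N600.UK
namespace Pool.Agent.TH444.TW
end Pool.Agent.TH444.TW
namespace Pool.Agent.TH59.WX
end Pool.Agent.TH59.WX
namespace Pool.Agent.Y793
end Pool.Agent.Y793


/-!
The class of kernels.
-/

set_option autoImplicit false
set_option linter.unusedSectionVars false
set_option linter.unusedSimpArgs false

namespace Pool.Agent.N70.EP

open Pool.Agent.H391R2 Pool.Agent.H391R2.T4 Voc
open Pool.Agent.Y793 (AWr AltTw twProj regSol_iso)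
open Pool.Agent.TH444.TW (RSK infinite_ratFunc)
open Pool.Agent.N600.UK (CL cl_of_center cl_iso Out cls cls_eq_one conj_inj)
open Pool.Agent.TH59.WX (finite_of_kernel hil_of_reg)


theorem splitIdx_of_outer (G : Type) [Group G] [Finite G] {D : ℕ} (h : OuterIndex G D) :
    SplitIdx (cls G) D := by
  intro d hd
  rw [h.2]
  rintro U C hC rfl
  let f : C →* Out G := (cls G).comp C.subtype
  have hf : Function.Injective f := by
    rw [injective_iff_map_eq_one]
    intro c hc
    have h1 : cls G (c : MulAut G) = 1 := hc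
    rw [cls_eq_one] at h1
    obtain ⟨g, hg⟩ := h1
    have h2 : (c : MulAut G) ∈ C ⊓ InnerAut G := Subgroup.mem_inf.2 ⟨c.2, ⟨g, hg⟩⟩
    rw [hC] at h2
    exact Subtype.ext h2
  let e : C ≃* f.range := MonoidHom.ofInjective hf
  have h1 := hd f.range (C.subtype.comp (e.symm : f.range →* C)) (fun v => by
    obtain ⟨c, rfl⟩ := e.surjective v
    change cls G ((e.symm (e c) : C) : MulAut G) = _
    rw [e.symm_apply_apply]
    rfl)
  have h2 : f.range.index = (C ⊔ InnerAut G).index := by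
    have h3 : f.range = (C ⊔ InnerAut G).map (cls G) := by
      rw [Subgroup.map_sup]
      have h4 : (InnerAut G).map (cls G) = ⊥ := by
        rw [eq_bot_iff]
        rintro _ ⟨a, ⟨g, rfl⟩, rfl⟩
        exact Subgroup.mem_bot.2 ((cls_eq_one _).2 ⟨g, rfl⟩)
      rw [h4, sup_bot_eq]
      ext v
      constructor
      · rintro ⟨c, rfl⟩
        exact ⟨c, c.2, rfl⟩
      · rintro ⟨c, hc, rfl⟩
        exact ⟨⟨c, hc⟩, rfl⟩
    rw [h3, Subgroup.index_map]
    have h5 : (cls G).ker = InnerAut G := QuotientGroup.ker_mk' _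
    have h6 : (cls G).range = ⊤ := MonoidHom.range_eq_top.2 (QuotientGroup.mk'_surjective _)
    rw [h5, h6, Subgroup.index_top, mul_one, sup_assoc, sup_idem]
  rwa [h2] at h1

/- The sets of natural numbers. -/
def setA (G : Type) [Group G] : Set ℕ := {n | GoodKer0 (AWr G n)}


end Pool.Agent.N70.EP
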