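import Mathlib
import Pool.Agent.H84.L.A3_N70_EP_Voc



/-!
# Vocabulary: steps

`Cls ℚ` is the class of homomorphisms of the file `Pool/Agent/TH444/TW/ClsDef.lean`.
-/

set_option autoImplicit false

namespace Pool.Agent.N70.EP.Voc

/- The index of `α` is odd, or `χ = 1`. -/
def OddOrOne {B W : Type} [Group B] [Group W] (α : B →* W) (χ : W →* ℤˣ) : Prop :=
  (∃ I : ℕ, Odd I ∧ IsSplittingIndex α I) ∨ χ = 1


end Pool.Agent.N70.EP.Voc
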