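import Mathlib
import Pool.Agent.H84.L.A3_N70_EP_Voc
import Pool.Agent.H84.L.A3_N70_EP_VocB
import Pool.Agent.H84.L.A3_N70_EP_VocS
import Pool.Agent.H84.L.S8_H391R2_WrGrp
import Pool.Agent.H84.L.S8_TH444_TW_Cls
import Pool.Agent.H84.L.S8_TH444_TW_RS
import Pool.Agent.H84.L.S8_TH444_TW_RSK
import Pool.Agent.H84.L.S8_Y793_E_App
import Pool.Agent.H84.L.S8_Y793_E_MainA
import Pool.Agent.H84.L.S8_Y793_Stm

namespace Pool.Agent.H391R2
end Pool.Agent.H391R2
namespace Pool.Agent.H391R2.T4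
end Pool.Agent.H391R2.T4
namespace Pool.Agent.TH444.TW
end Pool.Agent.TH444.TW
namespace Pool.Agent.Y793
end Pool.Agent.Y793


/-!
Steps.
-/

set_option autoImplicit false
set_option linter.unusedSectionVars false
set_option linter.unusedSimpArgs false

namespace Pool.Agent.N70.EP

open Pool.Agent.H391R2 Pool.Agent.H391R2.T4 Voc
open Pool.Agent.Y793 (AWr AltTw twProj regSol_iso)
open Pool.Agent.TH444.TW (RSK infinite_ratFunc finite_of_ker)


theorem isSplittingIndex_unique {B W : Type} [Group B] [Group W] {α : B →* W} {I I' : ℕ}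
    (h : IsSplittingIndex α I) (h' : IsSplittingIndex α I') : I = I' :=
  Nat.dvd_antisymm ((h'.2 I).2 ((h.2 I).1 dvd_rfl)) ((h.2 I').2 ((h'.2 I').1 dvd_rfl))

/- The sets of natural numbers. -/
def setB {W B : Type} [Group W] [Group B] (α : B →* W) : Set ℕ :=
  {n | ∀ χ : W →* ℤˣ, OddOrOne α χ → RSK ℚ (twPr α χ n)}

theorem rsk_twPr {W B : Type} [Group W] [Group B] (α : B →* W) (χ : W →* ℤˣ) (n : ℕ)
    (h : RSK ℚ (twProj α χ n)) : RSK ℚ (twPr α χ n) :=
  RSK.congr h (twE α χ n).symm (fun _ => rfl)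


end Pool.Agent.N70.EP
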