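import Mathlib

namespace Pool.Agent.H391R2
end Pool.Agent.H391R2
namespace Pool.Agent.H391R2.T4
end Pool.Agent.H391R2.T4


/-!
Statements (NOT results) of the pieces of the project on alternating fibre powers of embedding
problems (owner helper793).
-/

set_option autoImplicit false

namespace Pool.Agent.Y793

open Pool.Agent.H391R2 Pool.Agent.H391R2.T4


/- STARL: a point `t₀` of `K` which satisfies the condition of `St_star` over `L`. -/
def St_starL : Prop :=
  ∀ (K L Z : Type) [Field K] [CharZero K] [Field L] [Algebra K L] [Field Z]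
    [Algebra (RatFunc L) Z] [FiniteDimensional (RatFunc L) Z] [IsGalois (RatFunc L) Z],
    ∃ t₀ : K, ∀ (z : Z) (a : L), a ≠ 0 →
      z ^ 2 ≠ algebraMap (RatFunc L) Z (RatFunc.C a * (RatFunc.X - RatFunc.C (algebraMap K L t₀)))


end Pool.Agent.Y793
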