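import Mathlib
import Pool.Agent.H84.L.A3_N600_NS_Pa
import Pool.Agent.H84.L.A3_N600_NS_SemA
import Pool.Agent.H84.L.A3_N600_NS_SerA
import Pool.Agent.H84.L.A3_N70_AW_Sa
import Pool.Agent.H84.L.A3_N70_AW_Stm
import Pool.Agent.H84.L.A3_N70_EP_Ari
import Pool.Agent.H84.L.A3_N70_EP_Bc
import Pool.Agent.H84.L.A3_N70_EP_Core
import Pool.Agent.H84.L.A3_N70_EP_Sg
import Pool.Agent.H84.L.A3_N70_EP_Si
import Pool.Agent.H84.L.A3_N70_EP_Stm
import Pool.Agent.H84.L.A3_N70_EQ_Sh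
import Pool.Agent.H84.L.A3_N70_EQ_Stm
import Pool.Agent.H84.L.S8_H391R2_T4_Fam
import Pool.Agent.H84.L.S8_H391R2_T4_Nod
import Pool.Agent.H84.L.S8_H391R2_T4_Red
import Pool.Agent.H84.L.S8_H391R2_T4_Sem
import Pool.Agent.H84.L.S8_H391R2_T4_Sym
import Pool.Agent.H84.L.S8_H391R2_WrGrp
import Pool.Agent.H84.L.S8_TH15_IGP_TwB
import Pool.Agent.H84.L.S8_TH444_TW_RS
import Pool.Agent.H84.L.S8_TH444_TW_RSK
import Pool.Agent.H84.L.S8_W200_IG_Fam
import Pool.Agent.H84.L.S8_W200_IG_HF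
import Pool.Agent.H84.L.S8_W200_IJ_SA
import Pool.Agent.H84.L.S8_Y793_E_App
import Pool.Agent.H84.L.S8_Y793_E_Bc
import Pool.Agent.H84.L.S8_Y793_E_Core
import Pool.Agent.H84.L.S8_Y793_E_Rl
import Pool.Agent.H84.L.S8_Y793_E_Stm
import Pool.Agent.H84.L.S8_Y793_Gr
import Pool.Agent.H84.L.S8_Y793_Stm
import Pool.Agent.H84.L.S8_Y793_Tc

namespace Pool.Agent.H391R2
end Pool.Agent.H391R2
namespace Pool.Agent.H391R2.T4
end Pool.Agent.H391R2.T4
namespace Pool.Agent.N70.AW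
end Pool.Agent.N70.AW
namespace Pool.Agent.N70.AW.EPc
end Pool.Agent.N70.AW.EPc
namespace Pool.Agent.N70.EP
end Pool.Agent.N70.EP
namespace Pool.Agent.Y793
end Pool.Agent.Y793


/-!
Assembly.
-/

set_option autoImplicit false
set_option linter.unusedSectionVars false
set_option linter.unusedSimpArgs false

namespace Pool.Agent.N70.EQ

open Polynomial Pool.Agent.H391R2 Pool.Agent.H391R2.T4 Pool.Agent.N70.AW.EPc
open Pool.Agent.N70.AW (St_small St_hens St_val pz)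
open Pool.Agent.N70.AW renaming Ix → Jx
open Pool.Agent.Y793 (St_gen St_iso St_ext St_starL Rl AWr exists_trb lift_ker ker_restrict exists_ratL mpL AltTw twProj)
open Pool.Agent.N70.EP (SgnIndex Dt0 St_datT ari exists_theta)

section core

variable {K L Z : Type} [Field K] [CharZero K] [Field L] [Algebra K L] [FiniteDimensional K L]
  [IsGalois K L] [Field Z] [Algebra (RatFunc K) Z] [Algebra L Z] [Algebra K Z]
  [IsScalarTower K (RatFunc K) Z] [IsScalarTower K L Z] [FiniteDimensional (RatFunc K) Z]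
  [IsGalois (RatFunc K) Z]

theorem coreN (hgen : St_gen) (hiso : St_iso) (hext : St_ext) (hgs : St_gs) (hgc : St_gc)
    (hkum : St_kum) (hstarL : St_starL) (hdat : St_datT) (hsm : St_small) (hhens : St_hens) (hval : St_val)
    (π : (Z ≃ₐ[RatFunc K] Z) →* (L ≃ₐ[K] L))
    (hπ : ∀ (σ : Z ≃ₐ[RatFunc K] Z) (x : L), σ (algebraMap L Z x) = algebraMap L Z (π σ x))
    (hreg : ∀ y : Z, IsAlgebraic L y → y ∈ Set.range (algebraMap L Z))
    (P : Subgroup (Z ≃ₐ[RatFunc K] Z)) (m : ℕ) (hPπ : P.map π = ⊤) (hm : Even m) (hm0 : 0 < m)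
    (χ : (L ≃ₐ[K] L) →* ℤˣ) (hidx : SgnIndex (Z ≃ₐ[RatFunc K] Z) P m (χ.comp π))
    (ρ : L) (δ : K) (hρ0 : ρ ≠ 0) (hδ : algebraMap K L δ = ρ ^ 2)
    (hρ : ∀ h : L ≃ₐ[K] L, h ρ = ((χ h : ℤˣ) : ℤ) • ρ)
    {B : Type} [Group B] [Finite B] (β : P →* B) (hβ : Function.Surjective β)
    (a : B →* (L ≃ₐ[K] L)) (ha : ∀ p : P, a (β p) = π p) (htrn : Trn π P β a)
    (hroots : HasEnoughRootsOfUnity L (Nat.card a.ker)) :
    ∃ k₀ : ℕ, ∀ k ≥ k₀, RegSol K L (AltTw a χ (m * (2 * k + 1)))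
      (twProj a χ (m * (2 * k + 1))) := by
  classical
  have hcL : CharZero L := charZero_of_injective_algebraMap (algebraMap K L).injective
  obtain ⟨iKL, iLZ, t1, t2, hfd, hgal, hp⟩ := exists_ratL (K := K) (L := L) (F := Z)
  obtain ⟨g, hg, -⟩ := id hidx
  obtain ⟨k₁, hk₁⟩ := hdat K L Z π hπ hreg P m χ hPπ hidx ρ δ hρ0 hδ hρ
  obtain ⟨t₀, hstar⟩ := hstarL K L Z
  -- coset representatives over `L`
  have hgL : ∃ gL : Fin m → (Z ≃ₐ[RatFunc L] Z),
      Function.Bijective (fun t => (gL t : (Z ≃ₐ[RatFunc L] Z) ⧸ PL K L P)) := by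
    have h1 : ∀ t, ∃ γ' : Z ≃ₐ[RatFunc L] Z, ∃ p ∈ P, ∀ z, γ' z = (g t * p⁻¹) z := by
      intro t
      have h2 : π (g t) ∈ P.map π := by
        rw [hPπ]
        exact Subgroup.mem_top _
      obtain ⟨p, hp1, hp2⟩ := Subgroup.mem_map.1 h2
      obtain ⟨γ', hγ'⟩ := lift_ker hp π hπ (g t * p⁻¹) (by
        rw [map_mul, map_inv, hp2, mul_inv_cancel])
      exact ⟨γ', p, hp1, hγ'⟩
    choose gL p hpP hgL using h1
    have h4 : ∀ t, (gL t).restrictScalars (RatFunc K) = g t * (p t)⁻¹ := fun t =>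
      AlgEquiv.ext (hgL t)
    refine ⟨gL, fun t t' htt => hg.1 ?_, fun c => ?_⟩
    swap
    · obtain ⟨c, rfl⟩ := QuotientGroup.mk_surjective c
      obtain ⟨t, ht⟩ := hg.2 (c.restrictScalars (RatFunc K) : (Z ≃ₐ[RatFunc K] Z) ⧸ P)
      refine ⟨t, QuotientGroup.eq.2 ?_⟩
      change ((gL t)⁻¹ * c).restrictScalars (RatFunc K) ∈ P
      have h5 : (g t)⁻¹ * c.restrictScalars (RatFunc K) ∈ P := QuotientGroup.eq.1 ht
      have h6 : ((gL t)⁻¹ * c).restrictScalars (RatFunc K) =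
          p t * ((g t)⁻¹ * c.restrictScalars (RatFunc K)) := by
        have h7 : ((gL t)⁻¹ * c).restrictScalars (RatFunc K) =
          ((gL t).restrictScalars (RatFunc K))⁻¹ * c.restrictScalars (RatFunc K) := rfl
        rw [h7, h4]
        group
      rw [h6]
      exact P.mul_mem (hpP t) h5
    have h2 : (gL t)⁻¹ * gL t' ∈ PL K L P := QuotientGroup.eq.1 htt
    have h3 : ((gL t)⁻¹ * gL t').restrictScalars (RatFunc K) =
        (g t * (p t)⁻¹)⁻¹ * (g t' * (p t')⁻¹) := by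
      rw [← h4, ← h4]
      rfl
    have h5 : (g t * (p t)⁻¹)⁻¹ * (g t' * (p t')⁻¹) ∈ P := by
      rw [← h3]
      exact h2
    refine QuotientGroup.eq.2 ?_
    have h6 := P.mul_mem (P.mul_mem (P.inv_mem (hpP t)) h5) (hpP t')
    have h7 : (p t)⁻¹ * ((g t * (p t)⁻¹)⁻¹ * (g t' * (p t')⁻¹)) * p t' = (g t)⁻¹ * g t' := by
      group
    rwa [h7] at h6
  obtain ⟨gL, hgL⟩ := hgL
  obtain ⟨n₀, hn₀⟩ := hgs a.ker
  refine ⟨k₁ + 2 + n₀ + 8 * m + 1, fun k hk => ?_⟩
  obtain ⟨k, rfl⟩ : ∃ k', k = k' + 2 := ⟨k - 2, by omega⟩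
  obtain ⟨p, d, κ, v, x, e, es, S, q, M, M', hdet, hq, D, hdeg, D₁⟩ := hk₁ k (by omega)
  have DL := Dt0_bc hp D
  have D₁L := Dt0_bc hp D₁
  have hdegL : (mpL K L (κ (some none))).natDegree = k + 2 := by
    rw [mpL, natDegree_map, hdeg]
  let k₀ := AlgebraicClosure K
  let jL : L →ₐ[K] k₀ := IsAlgClosed.lift
  let iL : Algebra L k₀ := jL.toRingHom.toAlgebra
  have tKL : IsScalarTower K L k₀ := .of_algebraMap_eq fun x => (jL.commutes x).symm
  obtain ⟨N, i1, i2, i3, η, hη⟩ := exists_trb k₀ (Jx (Option (Fin p)))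
  let i4 : Algebra K N := ((algebraMap k₀ N).comp (algebraMap K k₀)).toAlgebra
  let i4L : Algebra L N := ((algebraMap k₀ N).comp (algebraMap L k₀)).toAlgebra
  have i5 : IsScalarTower K k₀ N := .of_algebraMap_eq fun _ => rfl
  have i5L : IsScalarTower L k₀ N := .of_algebraMap_eq fun _ => rfl
  have i6 : IsScalarTower K L N := .of_algebraMap_eq fun x => by
    rw [IsScalarTower.algebraMap_apply K k₀ N, IsScalarTower.algebraMap_apply K L k₀,
      ← IsScalarTower.algebraMap_apply L k₀ N]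
  obtain ⟨r, φ, Y⟩ := exists_sy DL η hη hgen hiso gL hgL.1
  have YK := Sy_bc hp Y
  have hsmall := exists_small DL D₁L hdegL η hη hgen hiso hhens hval hm0 gL hgL.1 Y.inj Y.root
  have hm2 : 2 ≤ m := by
    obtain ⟨a, ha⟩ := hm
    omega
  have hn1 : 2 * (2 * (k + 2) + 1) ≤ m * (2 * (k + 2) + 1) := Nat.mul_le_mul_right _ hm2
  have hn2 : n₀ ≤ m * (2 * (k + 2) + 1) := by omega
  have hn3 : 4 * m * (4 * m) < m * (2 * (k + 2) + 1) := by
    have h1 : 4 * m * (4 * m) = m * (16 * m) := by ring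
    rw [h1]
    exact Nat.mul_lt_mul_of_pos_left (by omega) hm0
  -- the labels over `L`
  have hβL : ∃ βL : PL K L P →* a.ker, Function.Surjective βL ∧
      ∀ γ : PL K L P, ((βL γ : a.ker) : B) =
        β ⟨(γ : Z ≃ₐ[RatFunc L] Z).restrictScalars (RatFunc K), γ.2⟩ := by
    refine ⟨MonoidHom.mk' (fun γ => ⟨β ⟨(γ : Z ≃ₐ[RatFunc L] Z).restrictScalars (RatFunc K),
      γ.2⟩, ?_⟩) ?_, ?_, fun γ => rfl⟩
    · rw [MonoidHom.mem_ker, ha]
      exact ker_restrict π hπ _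
    · intro γ γ'
      apply Subtype.ext
      change β _ = β _ * β _
      rw [← map_mul]
      rfl
    · rintro ⟨b, hb⟩
      obtain ⟨p, rfl⟩ := hβ b
      rw [MonoidHom.mem_ker, ha] at hb
      obtain ⟨γ', hγ'⟩ := lift_ker hp π hπ p hb
      have h1 : γ'.restrictScalars (RatFunc K) = p := AlgEquiv.ext hγ'
      refine ⟨⟨γ', ?_⟩, ?_⟩
      · change γ'.restrictScalars (RatFunc K) ∈ P
        rw [h1]
        exact p.2
      · apply Subtype.ext
        change β _ = β _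
        congr 1
        exact Subtype.ext h1
  obtain ⟨βL, hβL1, hβL2⟩ := hβL
  have htrnL : TrnG (PL K L P) βL := by
    intro ν
    obtain ⟨γ, h, hγ1, hγ2, hγ3⟩ := htrn (ν : B) ν.2
    obtain ⟨γ', hγ'⟩ := lift_ker hp π hπ γ hγ1
    have h1 : γ'.restrictScalars (RatFunc K) = γ := AlgEquiv.ext hγ'
    have h2 : ∀ c : Z ≃ₐ[RatFunc L] Z, (c⁻¹ * γ' * c).restrictScalars (RatFunc K) =
        (c.restrictScalars (RatFunc K))⁻¹ * γ * c.restrictScalars (RatFunc K) := by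
      intro c
      rw [← h1]
      rfl
    have h3 : ∀ c : Z ≃ₐ[RatFunc L] Z, c⁻¹ * γ' * c ∈ PL K L P := by
      intro c
      change (c⁻¹ * γ' * c).restrictScalars (RatFunc K) ∈ P
      rw [h2]
      exact h _
    refine ⟨γ', h3, fun c hc => ?_, fun p => ?_⟩
    · apply Subtype.ext
      rw [hβL2]
      have h4 := hγ2 (c.restrictScalars (RatFunc K)) hc
      refine Eq.trans ?_ h4
      congr 1
      exact Subtype.ext (h2 c)
    · apply Subtype.ext
      rw [hβL2]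
      have h5 : γ ∈ P := by
        rw [← h1]
        exact p
      refine Eq.trans ?_ (hγ3 h5)
      congr 1
      exact Subtype.ext h1
  have hsgn : ∀ σ : N ≃ₐ[k₀] N, (∀ i, σ (η i) = η i) →
      ∀ y : Wr (PL K L P) (m * (2 * (k + 2) + 1)), Rl r φ σ y →
        Equiv.Perm.sign y.right = 1 := by
    intro σ hσ y hy
    obtain ⟨y₀, hy1, hy2⟩ := exists_xT D η hη hgen hiso hm hm0 hdet hq (ρ := algebraMap L N ρ)
      (by
        rw [Ne, FaithfulSMul.algebraMap_eq_zero_iff]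
        exact hρ0)
      (by rw [← map_pow, ← hδ, ← IsScalarTower.algebraMap_apply]) YK (σ.restrictScalars K) hσ 1
      (by
        rw [Units.val_one, Int.cast_one, one_mul]
        change σ (algebraMap L N ρ) = _
        rw [IsScalarTower.algebraMap_apply L k₀ N, σ.commutes])
    have h1 : y.right = y₀.right := by
      apply Equiv.ext
      intro i
      apply Y.inj
      rw [← (hy i).1]
      exact (hy2 i).1
    rw [h1]
    exact hy1
  have halgL : Algebra.IsAlgebraic L k₀ := Algebra.IsAlgebraic.tower_top (K := K) L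
  have hgeo := geoN DL η hη hgen hiso hext hgc hkum hsm hm0 hreg (algebraMap K L t₀) hstar gL hgL
    Y (hn₀ _ hn2) βL hβL1 htrnL hsgn (4 * m) hn3 hsmall
  -- the labels
  obtain ⟨θ, hθ⟩ := exists_theta (β.ker.map P.subtype)
  have hθ2 : ∀ p p' : P, (p : Z ≃ₐ[RatFunc K] Z) θ = (p' : Z ≃ₐ[RatFunc K] Z) θ ↔ β p = β p' := by
    intro p p'
    have h1 : ((p⁻¹ * p' : P) : Z ≃ₐ[RatFunc K] Z) θ = θ ↔ β p = β p' := by
      rw [hθ]
      constructor
      · intro h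
        obtain ⟨u, hu, hu2⟩ := Subgroup.mem_map.1 h
        have h3 : u = p⁻¹ * p' := Subtype.ext hu2
        rw [h3, MonoidHom.mem_ker, map_mul, map_inv] at hu
        exact inv_mul_eq_one.1 hu
      · intro h
        refine Subgroup.mem_map.2 ⟨p⁻¹ * p', ?_, rfl⟩
        rw [MonoidHom.mem_ker, map_mul, map_inv]
        exact inv_mul_eq_one.2 h
    rw [← h1]
    constructor
    · intro h
      change (p : Z ≃ₐ[RatFunc K] Z).symm ((p' : Z ≃ₐ[RatFunc K] Z) θ) = θ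
      rw [← h]
      exact AlgEquiv.symm_apply_apply _ _
    · intro h
      change (p : Z ≃ₐ[RatFunc K] Z).symm ((p' : Z ≃ₐ[RatFunc K] Z) θ) = θ at h
      rw [AlgEquiv.symm_apply_eq] at h
      exact h.symm
  choose s hs using hβ
  have hs2 : ∀ p : P, (s (β p) : Z ≃ₐ[RatFunc K] Z) θ = (p : Z ≃ₐ[RatFunc K] Z) θ := by
    intro p
    rw [hθ2, hs]
  refine ari K L k₀ N (Jx (Option (Fin p))) η hη B (m * (2 * (k + 2) + 1))
    (AltTw a χ (m * (2 * (k + 2) + 1))) r Y.inj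
    (fun i b => φ i ((s b : Z ≃ₐ[RatFunc K] Z) θ)) ?_ ?_ ?_
  · intro i b b' hb
    have h4 : (s b : Z ≃ₐ[RatFunc K] Z) θ = (s b' : Z ≃ₐ[RatFunc K] Z) θ := (φ i).injective hb
    rw [hθ2, hs, hs] at h4
    exact h4
  · intro σ hσ
    have key : ∀ y : Wr P (m * (2 * (k + 2) + 1)), Rl r (fun i => (φ i).restrictScalars K) σ y →
        ∀ i (b : L), σ (algebraMap L N b) =
        algebraMap L N (π (y.left (y.right i) : Z ≃ₐ[RatFunc K] Z) b) := by
      intro y hy i b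
      have h4 : algebraMap L N b = φ i (algebraMap L Z b) := ((φ i).commutes b).symm
      have h5 := (hy i).2 (algebraMap L Z b)
      change σ (φ i (algebraMap L Z b)) = φ (y.right i) _ at h5
      rw [h4, h5, hπ, (φ (y.right i)).commutes]
    have i₀ : Fin (m * (2 * (k + 2) + 1)) := ⟨0, by omega⟩
    obtain ⟨y₀, hy₀⟩ := exists_x0 D η hη hgen hiso YK σ hσ
    set h := π (y₀.left (y₀.right i₀) : Z ≃ₐ[RatFunc K] Z) with hh
    have hσL : ∀ b : L, σ (algebraMap L N b) = algebraMap L N (h b) := key y₀ hy₀ i₀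
    obtain ⟨y, hy1, hy2⟩ := exists_xT D η hη hgen hiso hm hm0 hdet hq (ρ := algebraMap L N ρ)
      (by
        rw [Ne, FaithfulSMul.algebraMap_eq_zero_iff]
        exact hρ0)
      (by rw [← map_pow, ← hδ, ← IsScalarTower.algebraMap_apply]) YK σ hσ (χ h) (by
        rw [hσL, hρ, zsmul_eq_mul, map_mul, map_intCast])
    have hyL : ∀ i, π (y.left (y.right i) : Z ≃ₐ[RatFunc K] Z) = h := by
      intro i
      apply AlgEquiv.ext
      intro b
      apply (algebraMap L N).injective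
      rw [← key y hy2 i b, hσL]
    refine ⟨(⟨fun j => β (y.left j), y.right⟩, h), Subgroup.mem_inf.2 ⟨?_, hy1⟩, hσL,
      fun i => ⟨(hy2 i).1, fun b => ?_⟩⟩
    · intro j
      obtain ⟨i, rfl⟩ := y.right.surjective j
      change a (β (y.left (y.right i))) = h
      rw [ha, hyL]
    · have h5 := (hy2 i).2 ((s b : Z ≃ₐ[RatFunc K] Z) θ)
      change σ (φ i _) = φ (y.right i) _ at h5
      rw [h5]
      congr 1
      change ((y.left (y.right i) * s b : P) : Z ≃ₐ[RatFunc K] Z) θ =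
        (s (β (y.left (y.right i)) * b) : Z ≃ₐ[RatFunc K] Z) θ
      rw [hθ2, hs, map_mul, hs]
  · intro z hz hz1
    have hzα : ∀ j, a (z.1.left j) = 1 := by
      intro j
      have h1 : a (z.1.left j) = z.2 := (Subgroup.mem_inf.1 hz).1 j
      rw [h1, hz1]
    have hzs : Equiv.Perm.sign z.1.right = 1 := by
      have h1 : Equiv.Perm.sign z.1.right = χ z.2 := (Subgroup.mem_inf.1 hz).2
      rw [h1, hz1, map_one]
    obtain ⟨σ, y', h1, h2, h3, h4⟩ := hgeo ⟨fun j => ⟨z.1.left j, MonoidHom.mem_ker.2 (hzα j)⟩,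
      z.1.right⟩ hzs
    have h3' : y'.right = z.1.right := h3
    refine ⟨σ, h1, fun i => ⟨?_, fun b => ?_⟩⟩
    · rw [← h3']
      exact (h2 i).1
    · have h5 := (h2 i).2 ((s b : Z ≃ₐ[RatFunc K] Z) θ)
      rw [h5, h3']
      congr 1
      have h6 : z.1.left (z.1.right i) = β ⟨(y'.left (z.1.right i) :
          Z ≃ₐ[RatFunc L] Z).restrictScalars (RatFunc K), (y'.left (z.1.right i)).2⟩ := by
        rw [← hβL2, h4]
      change (((⟨(y'.left (z.1.right i) : Z ≃ₐ[RatFunc L] Z).restrictScalars (RatFunc K),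
        (y'.left (z.1.right i)).2⟩ : P) * s b : P) : Z ≃ₐ[RatFunc K] Z) θ =
        (s (z.1.left (z.1.right i) * b) : Z ≃ₐ[RatFunc K] Z) θ
      rw [hθ2, hs, map_mul, hs, h6]

end core

end Pool.Agent.N70.EQ
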