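import Mathlib
import Pool.Agent.H84.L.A3_N70_AW_Stm
import Pool.Agent.H84.L.S8_H391R2_T4_Nod
import Pool.Agent.H84.L.S8_H391R2_T4_Sem
import Pool.Agent.H84.L.S8_Y793_Fam
import Pool.Agent.H84.L.S8_Y793_Stm

namespace Pool.Agent.N70.AW
end Pool.Agent.N70.AW
namespace Pool.Agent.Y793
end Pool.Agent.Y793


/-!
VAL: integrality of the solutions in Laurent series (subtask of helper70's project).
-/

set_option autoImplicit false

namespace Pool.Agent.N945.AW

open Polynomial Pool.Agent.Y793 Pool.Agent.N70.AW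

/- The homogenization of `f` at `(a, b)`. -/
noncomputable def hmg {R : Type} [CommRing R] (N : ℕ) (f : R[X]) (a b : R) : R :=
  ∑ j ∈ Finset.range (N + 1), f.coeff j * a ^ j * b ^ (N - j)

theorem hmg_eval {R F : Type} [CommRing R] [Field F] [Algebra R F] (N : ℕ) (f : R[X]) (a b : R)
    (y : F) (hy : y * algebraMap R F b = algebraMap R F a) (hf : f.natDegree ≤ N) :
    algebraMap R F (hmg N f a b) = algebraMap R F b ^ N * eval₂ (algebraMap R F) y f := by
  rw [hmg, map_sum, eval₂_eq_sum_range' (algebraMap R F) (Nat.lt_succ_of_le hf) y,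
    Finset.mul_sum]
  refine Finset.sum_congr rfl fun j hj => ?_
  have hj' : j ≤ N := Nat.lt_succ_iff.mp (Finset.mem_range.mp hj)
  obtain ⟨i, rfl⟩ := Nat.exists_eq_add_of_le hj'
  rw [Nat.add_sub_cancel_left, map_mul, map_mul, map_pow, map_pow, ← hy]
  ring

/- An element of the Laurent series which is not a power series. -/
theorem not_int {κ : Type} [Field κ] (y : LaurentSeries κ)
    (h : y ∉ Set.range (algebraMap (PowerSeries κ) (LaurentSeries κ))) :
    ∃ (n : ℕ) (a : PowerSeries κ), PowerSeries.constantCoeff a ≠ 0 ∧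
      y * algebraMap (PowerSeries κ) (LaurentSeries κ) (PowerSeries.X ^ (n + 1)) =
        algebraMap (PowerSeries κ) (LaurentSeries κ) a := by
  classical
  have hex : ∃ n : ℕ, ∃ a : PowerSeries κ,
      y * algebraMap (PowerSeries κ) (LaurentSeries κ) (PowerSeries.X ^ n) =
        algebraMap (PowerSeries κ) (LaurentSeries κ) a := by
    obtain ⟨⟨a, s⟩, hs⟩ := IsLocalization.surj (Submonoid.powers (PowerSeries.X : PowerSeries κ)) y
    obtain ⟨n, hn⟩ := s.2
    refine ⟨n, a, ?_⟩
    rw [show (PowerSeries.X : PowerSeries κ) ^ n = (s : PowerSeries κ) from hn]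
    exact hs
  obtain ⟨a, ha⟩ := Nat.find_spec hex
  have h0 : Nat.find hex ≠ 0 := by
    intro h0
    rw [h0, pow_zero, map_one, mul_one] at ha
    exact h ⟨a, ha.symm⟩
  obtain ⟨n, hn⟩ := Nat.exists_eq_succ_of_ne_zero h0
  refine ⟨n, a, ?_, by rw [← ha, hn]⟩
  intro hc
  obtain ⟨a', rfl⟩ := PowerSeries.X_dvd_iff.mpr hc
  refine Nat.find_min hex (m := n) (by omega) ⟨a', ?_⟩
  rw [hn, Nat.succ_eq_add_one, pow_succ', map_mul, map_mul] at ha
  have hX : algebraMap (PowerSeries κ) (LaurentSeries κ) PowerSeries.X ≠ 0 := by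
    intro h0
    have := (map_eq_zero_iff _ (FaithfulSMul.algebraMap_injective (PowerSeries κ)
      (LaurentSeries κ))).mp h0
    exact PowerSeries.X_ne_zero this
  apply mul_left_cancel₀ hX
  rw [← ha]
  ring

section coeffs

variable {κ : Type} [Field κ] [CharZero κ]

/- The polynomial `(α + ε β) ^ 2`. -/
noncomputable def sq (α β : κ[X]) : Polynomial (PowerSeries κ) :=
  (α.map (PowerSeries.C (R := κ)) + C PowerSeries.X * β.map (PowerSeries.C (R := κ))) ^ 2

omit [CharZero κ] in
theorem sq_eq (α β : κ[X]) : sq α β = (α ^ 2).map (PowerSeries.C (R := κ)) +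
    C PowerSeries.X * (2 * (α * β)).map (PowerSeries.C (R := κ)) +
    C (PowerSeries.X ^ 2) * (β ^ 2).map (PowerSeries.C (R := κ)) := by
  rw [sq]
  simp only [Polynomial.map_pow, Polynomial.map_mul, map_pow, Polynomial.map_ofNat]
  ring

omit [CharZero κ] in
theorem sq_coeff (α β : κ[X]) (j : ℕ) : (sq α β).coeff j = PowerSeries.C ((α ^ 2).coeff j) +
    PowerSeries.X * PowerSeries.C ((2 * (α * β)).coeff j) +
    PowerSeries.X ^ 2 * PowerSeries.C ((β ^ 2).coeff j) := by
  rw [sq_eq]
  simp only [coeff_add, coeff_map, coeff_C_mul]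

variable {α β : κ[X]} {k : ℕ} (hα : α.natDegree ≤ k) (hβ : β.natDegree = k + 2)

omit [CharZero κ] in
include hα in
theorem co1 (j : ℕ) (hj : 2 * k < j) : (α ^ 2).coeff j = 0 := by
  apply coeff_eq_zero_of_natDegree_lt
  refine lt_of_le_of_lt natDegree_pow_le ?_
  omega

omit [CharZero κ] in
include hα hβ in
theorem co2 (j : ℕ) (hj : 2 * k + 2 < j) : (2 * (α * β)).coeff j = 0 := by
  apply coeff_eq_zero_of_natDegree_lt
  have h1 : (2 * (α * β) : κ[X]).natDegree ≤ (α * β).natDegree := by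
    have : (2 : κ[X]) = C (2 : κ) := by rw [map_ofNat]
    rw [this]
    exact natDegree_C_mul_le _ _
  have h2 := natDegree_mul_le (p := α) (q := β)
  omega

omit [CharZero κ] in
include hα in
theorem dvd1 (j : ℕ) (hj : 2 * k < j) : (PowerSeries.X : PowerSeries κ) ∣ (sq α β).coeff j := by
  rw [sq_coeff, co1 hα j hj, map_zero, zero_add]
  exact ⟨PowerSeries.C ((2 * (α * β)).coeff j) + PowerSeries.X * PowerSeries.C ((β ^ 2).coeff j),
    by ring⟩

omit [CharZero κ] in
include hα hβ in
theorem dvd2 (j : ℕ) (hj : 2 * k + 2 < j) :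
    (PowerSeries.X : PowerSeries κ) ^ 2 ∣ (sq α β).coeff j := by
  rw [sq_coeff, co1 hα j (by omega), map_zero, zero_add, co2 hα hβ j hj, map_zero, mul_zero,
    zero_add]
  exact dvd_mul_right _ _

omit [CharZero κ] in
include hα hβ in
theorem top : (sq α β).coeff (2 * k + 4) =
    PowerSeries.X ^ 2 * PowerSeries.C (β.leadingCoeff ^ 2) := by
  rw [sq_coeff, co1 hα _ (by omega), map_zero, zero_add, co2 hα hβ _ (by omega), map_zero,
    mul_zero, zero_add]
  congr 2
  have : 2 * k + 4 = 2 * β.natDegree := by omega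
  rw [this, coeff_pow_mul_natDegree]

omit [CharZero κ] in
include hα hβ in
theorem vanish (j : ℕ) (hj : 2 * k + 4 < j) : (sq α β).coeff j = 0 := by
  rw [sq_coeff, co1 hα _ (by omega), map_zero, zero_add, co2 hα hβ _ (by omega), map_zero,
    mul_zero, zero_add]
  have : (β ^ 2).coeff j = 0 := by
    apply coeff_eq_zero_of_natDegree_lt
    refine lt_of_le_of_lt natDegree_pow_le ?_
    omega
  rw [this, map_zero, mul_zero]

omit [CharZero κ] in
include hα hβ in
theorem adr_deg : (adr κ (sq α β)).natDegree ≤ 2 * k + 5 := by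
  rw [natDegree_le_iff_coeff_eq_zero]
  intro j hj
  obtain ⟨i, rfl⟩ : ∃ i, j = i + 1 := ⟨j - 1, by omega⟩
  rw [coeff_adr_succ, vanish hα hβ i (by omega), mul_zero]

include hα hβ in
/- The homogenization of `A`. -/
theorem hmg_adr (a : PowerSeries κ) (ha : PowerSeries.constantCoeff a ≠ 0) (n : ℕ) :
    ∃ w : PowerSeries κ, PowerSeries.constantCoeff w ≠ 0 ∧
      hmg (2 * k + 5) (adr κ (sq α β)) a (PowerSeries.X ^ (n + 1)) = PowerSeries.X ^ 2 * w := by
  have hd : (PowerSeries.X : PowerSeries κ) ^ 3 ∣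
      ∑ j ∈ Finset.range (2 * k + 5), (adr κ (sq α β)).coeff j * a ^ j *
        (PowerSeries.X ^ (n + 1)) ^ (2 * k + 5 - j) := by
    apply Finset.dvd_sum
    intro j hj
    have hj' := Finset.mem_range.mp hj
    have hX : ∀ i : ℕ, i ≤ 2 * k + 5 - j → (PowerSeries.X : PowerSeries κ) ^ i ∣
        (PowerSeries.X ^ (n + 1)) ^ (2 * k + 5 - j) := by
      intro i hi
      rw [← pow_mul]
      apply pow_dvd_pow
      nlinarith [Nat.zero_le (n * (2 * k + 5 - j))]
    by_cases h1 : j ≤ 2 * k + 2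
    · exact Dvd.dvd.mul_left (hX 3 (by omega)) _
    · obtain ⟨i, rfl⟩ : ∃ i, j = i + 1 := ⟨j - 1, by omega⟩
      rw [coeff_adr_succ]
      by_cases h2 : i = 2 * k + 3
      · have e1 := dvd2 hα hβ i (by omega)
        have e2 := hX 1 (by omega)
        obtain ⟨u, hu⟩ := e1
        obtain ⟨v, hv⟩ := e2
        rw [hu, hv]
        exact ⟨algebraMap κ (PowerSeries κ) ((i : κ) + 1)⁻¹ * u * a ^ (i + 1) * v, by ring⟩
      · have e1 := dvd1 (β := β) hα i (by omega)
        have e2 := hX 2 (by omega)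
        obtain ⟨u, hu⟩ := e1
        obtain ⟨v, hv⟩ := e2
        rw [hu, hv]
        exact ⟨algebraMap κ (PowerSeries κ) ((i : κ) + 1)⁻¹ * u * a ^ (i + 1) * v, by ring⟩
  obtain ⟨z, hz⟩ := hd
  refine ⟨PowerSeries.C (((2 * k + 4 : ℕ) : κ) + 1)⁻¹ * PowerSeries.C (β.leadingCoeff ^ 2) *
    a ^ (2 * k + 5) + PowerSeries.X * z, ?_, ?_⟩
  · have hl : β.leadingCoeff ≠ 0 := by
      rw [Ne, leadingCoeff_eq_zero]
      rintro rfl
      simp at hβ
    have hk : (((2 * k + 4 : ℕ) : κ) + 1) ≠ 0 := Nat.cast_add_one_ne_zero _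
    rw [map_add, map_mul, map_mul, map_mul, PowerSeries.constantCoeff_X, zero_mul, add_zero,
      PowerSeries.constantCoeff_C, PowerSeries.constantCoeff_C, map_pow]
    exact mul_ne_zero (mul_ne_zero (inv_ne_zero hk) (pow_ne_zero _ hl)) (pow_ne_zero _ ha)
  · rw [hmg, Finset.sum_range_succ, hz, Nat.sub_self, pow_zero, mul_one,
      show 2 * k + 5 = (2 * k + 4) + 1 from rfl, coeff_adr_succ, top hα hβ]
    have : algebraMap κ (PowerSeries κ) (((2 * k + 4 : ℕ) : κ) + 1)⁻¹ =
      PowerSeries.C (((2 * k + 4 : ℕ) : κ) + 1)⁻¹ := rfl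
    rw [this]
    ring

end coeffs

/- The homogenization of a polynomial of small degree. -/
theorem hmg_small {κ : Type} [Field κ] (N d : ℕ) (hd : d + 3 ≤ N) (f : Polynomial (PowerSeries κ))
    (hf : f.natDegree ≤ d) (a : PowerSeries κ) (n : ℕ) :
    (PowerSeries.X : PowerSeries κ) ^ 3 ∣ hmg N f a (PowerSeries.X ^ (n + 1)) := by
  rw [hmg]
  apply Finset.dvd_sum
  intro j hj
  by_cases h : d < j
  · rw [coeff_eq_zero_of_natDegree_lt (lt_of_le_of_lt hf h), zero_mul, zero_mul]
    exact dvd_zero _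
  · apply Dvd.dvd.mul_left
    rw [← pow_mul]
    apply pow_dvd_pow
    have h3 : 3 ≤ N - j := by omega
    nlinarith [Nat.zero_le (n * (N - j))]

theorem val : St_val := by
  intro κ _ _ k d m α β hα hβ hd T A M hA hM y hy
  by_contra hyr
  obtain ⟨n, a, ha, hya⟩ := not_int y hyr
  have hA' : A = adr κ (sq α β) := hA
  set b : PowerSeries κ := PowerSeries.X ^ (n + 1) with hb
  obtain ⟨w, hw, hAw⟩ := hmg_adr (k := k) hα hβ a ha n
  rw [← hb, ← hA'] at hAw
  have hAd : A.natDegree ≤ 2 * k + 5 := by rw [hA']; exact adr_deg hα hβ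
  have hMs : ∀ l l', ∃ z : PowerSeries κ, hmg (2 * k + 5) (M l l') a b =
      PowerSeries.X ^ 3 * z := fun l l' =>
    hmg_small (2 * k + 5) d (by omega) (M l l') (hM l l') a n
  choose Z hZ using hMs
  -- the matrix of power series
  set c : PowerSeries κ := PowerSeries.X ^ ((n + 1) * (2 * k + 5) - 2) * T - w with hc
  have hc0 : PowerSeries.constantCoeff c ≠ 0 := by
    rw [hc, map_sub, map_mul, map_pow, PowerSeries.constantCoeff_X, zero_pow, zero_mul, zero_sub]
    · exact neg_ne_zero.mpr hw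
    · have : 5 ≤ (n + 1) * (2 * k + 5) := by nlinarith [Nat.zero_le (n * (2 * k + 5))]
      omega
  set Q' : Matrix (Fin m) (Fin m) (PowerSeries κ) :=
    c • (1 : Matrix (Fin m) (Fin m) (PowerSeries κ)) - (PowerSeries.X : PowerSeries κ) •
      Matrix.of Z with hQ'
  set φ : Polynomial (PowerSeries κ) →+* LaurentSeries κ :=
    eval₂RingHom (algebraMap (PowerSeries κ) (LaurentSeries κ)) y with hφ
  set i : PowerSeries κ →+* LaurentSeries κ := algebraMap (PowerSeries κ) (LaurentSeries κ) with hi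
  have hinj : Function.Injective i :=
    FaithfulSMul.algebraMap_injective (PowerSeries κ) (LaurentSeries κ)
  set Q : Matrix (Fin m) (Fin m) (Polynomial (PowerSeries κ)) :=
    (C T - A) • (1 : Matrix (Fin m) (Fin m) (Polynomial (PowerSeries κ))) - M with hQ
  have hdet : (φ.mapMatrix Q).det = 0 := by
    rw [← RingHom.map_det, hφ, coe_eval₂RingHom, ← eval_map]
    exact hy
  have hX2 : i (PowerSeries.X ^ 2) ≠ 0 := by
    rw [Ne, map_eq_zero_iff i hinj]
    exact pow_ne_zero _ PowerSeries.X_ne_zero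
  have hkey : i (PowerSeries.X ^ 2) • i.mapMatrix Q' = (i b ^ (2 * k + 5)) • φ.mapMatrix Q := by
    refine Matrix.ext fun l l' => ?_
    have e1 : φ (M l l') * i b ^ (2 * k + 5) = i (PowerSeries.X ^ 3 * Z l l') := by
      rw [← hZ, hi, hmg_eval (2 * k + 5) (M l l') a b y hya ((hM l l').trans (by omega))]
      rw [hφ, coe_eval₂RingHom]
      ring
    have e2 : φ A * i b ^ (2 * k + 5) = i (PowerSeries.X ^ 2 * w) := by
      rw [← hAw, hi, hmg_eval (2 * k + 5) A a b y hya hAd]
      rw [hφ, coe_eval₂RingHom]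
      ring
    have e3 : φ (C T) * i b ^ (2 * k + 5) =
        i (PowerSeries.X ^ 2 * (PowerSeries.X ^ ((n + 1) * (2 * k + 5) - 2) * T)) := by
      rw [hφ, coe_eval₂RingHom, eval₂_C, ← map_pow, ← map_mul, hb, ← pow_mul, ← mul_assoc,
        ← pow_add]
      have : 2 + ((n + 1) * (2 * k + 5) - 2) = (n + 1) * (2 * k + 5) := by
        have : 5 ≤ (n + 1) * (2 * k + 5) := by nlinarith [Nat.zero_le (n * (2 * k + 5))]
        omega
      rw [this, mul_comm]
    simp only [Matrix.smul_apply, RingHom.mapMatrix_apply, Matrix.map_apply, hQ', hQ,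
      Matrix.sub_apply, smul_eq_mul, map_sub, map_mul, Matrix.of_apply]
    by_cases hll : l = l'
    · subst hll
      simp only [Matrix.one_apply_eq, map_one, mul_one]
      have : i (PowerSeries.X ^ 2) * i c = (φ (C T) - φ A) * i b ^ (2 * k + 5) := by
        rw [sub_mul, e2, e3, ← map_sub, ← map_mul, hc]
        congr 1
        ring
      have h3 : i (PowerSeries.X ^ 3) = i PowerSeries.X * i (PowerSeries.X ^ 2) := by
        rw [← map_mul, ← pow_succ']
      rw [map_mul, h3] at e1
      linear_combination this + e1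
    · simp only [Matrix.one_apply_ne hll, map_zero, mul_zero, zero_sub]
      have h3 : i (PowerSeries.X ^ 3) = i PowerSeries.X * i (PowerSeries.X ^ 2) := by
        rw [← map_mul, ← pow_succ']
      rw [map_mul, h3] at e1
      linear_combination e1
  have hd2 : i (PowerSeries.X ^ 2) ^ m * i Q'.det = 0 := by
    have h := congrArg Matrix.det hkey
    rw [Matrix.det_smul, Matrix.det_smul, hdet, mul_zero, Fintype.card_fin,
      ← RingHom.map_det] at h
    exact h
  have hd3 : Q'.det = 0 := by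
    rcases mul_eq_zero.mp hd2 with h | h
    · exact absurd h (pow_ne_zero _ hX2)
    · exact (map_eq_zero_iff i hinj).mp h
  have hd4 : (PowerSeries.constantCoeff (R := κ)).mapMatrix Q' =
      (PowerSeries.constantCoeff c) • (1 : Matrix (Fin m) (Fin m) κ) := by
    ext l l'
    simp only [RingHom.mapMatrix_apply, Matrix.map_apply, hQ', Matrix.sub_apply,
      Matrix.smul_apply, smul_eq_mul, map_sub, map_mul, PowerSeries.constantCoeff_X, zero_mul,
      sub_zero]
    by_cases hll : l = l'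
    · subst hll
      simp
    · simp [Matrix.one_apply_ne hll]
  have hd5 := congrArg Matrix.det hd4
  rw [← RingHom.map_det, hd3, map_zero, Matrix.det_smul, Matrix.det_one, mul_one] at hd5
  exact pow_ne_zero _ hc0 hd5.symm

end Pool.Agent.N945.AW
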