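import Mathlib
import Pool.Agent.H84.L.A3_N558_AW_Even3
import Pool.Agent.H84.L.A3_N600_NS_SemA
import Pool.Agent.H84.L.A3_N600_NS_SerA
import Pool.Agent.H84.L.A3_N70_EQ_Stm
import Pool.Agent.H84.L.S8_H391R2_T4_Fam
import Pool.Agent.H84.L.S8_H391R2_T4_Sem
import Pool.Agent.H84.L.S8_TH444_TW_RS
import Pool.Agent.H84.L.S8_TH444_TW_RSK
import Pool.Agent.H84.L.S8_W200_IG_HF
import Pool.Agent.H84.L.S8_W200_IH_PA

namespace Pool.Agent.N558.AW
end Pool.Agent.N558.AW
namespace Pool.Agent.N70.EQ
end Pool.Agent.N70.EQ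


/-!
# Part HB of the project EQ: the determinant, when the pencil is scalar
-/

set_option autoImplicit false

namespace Pool.Agent.N878.EQ

open Polynomial Matrix Pool.Agent.N558.AW Pool.Agent.N70.EQ


variable {N : Type} [Field N] (b : ℕ) (g : N[X]) (hg : g ≠ 0) (hb : g.natDegree = b)

lemma mulMat_C (c : N) : mulMat b g hg hb (C c) = algebraMap N (Matrix (Fin b) (Fin b) N) c := by
  show Algebra.leftMulMatrix _ (AdjoinRoot.mk g (C c)) = _
  rw [AdjoinRoot.mk_C]
  exact AlgHom.commutes _ c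

lemma det_C (c : N) : (mulMat b g hg hb (C c)).det = c ^ b := by
  rw [mulMat_C, Algebra.algebraMap_eq_smul_one, Matrix.det_smul, Matrix.det_one, Fintype.card_fin,
    mul_one]

lemma charpoly_X : (mulMat b g hg hb X).charpoly = g * C g.leadingCoeff⁻¹ := by
  rw [← AdjoinRoot.minpoly_root hg]
  have h1 := charpoly_leftMulMatrix (AdjoinRoot.powerBasis hg)
  rw [AdjoinRoot.powerBasis_gen] at h1
  rw [← h1, ← Matrix.charpoly_reindex (finCongr ((AdjoinRoot.powerBasis_dim hg).trans hb))]
  congr 1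
  show Algebra.leftMulMatrix _ (AdjoinRoot.mk g X) = _
  rw [AdjoinRoot.mk_X]
  ext i j
  rw [Matrix.reindex_apply, Matrix.submatrix_apply, Algebra.leftMulMatrix_eq_repr_mul,
    Algebra.leftMulMatrix_eq_repr_mul, Module.Basis.reindex_apply, Module.Basis.repr_reindex,
    Finsupp.mapDomain_equiv_apply]

lemma det_X_sub (c : N) : (mulMat b g hg hb (X - C c)).det =
    (-1) ^ b * (g.eval c / g.leadingCoeff) := by
  have h1 : (mulMat b g hg hb X).charpoly.eval c = g.eval c / g.leadingCoeff := by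
    rw [charpoly_X, Polynomial.eval_mul, Polynomial.eval_C, div_eq_mul_inv]
  rw [Matrix.eval_charpoly] at h1
  rw [← h1, map_sub, mulMat_C]
  have h2 : mulMat b g hg hb X - algebraMap N (Matrix (Fin b) (Fin b) N) c =
      - (Matrix.scalar (Fin b) c - mulMat b g hg hb X) := by
    rw [neg_sub]
    rfl
  rw [h2, Matrix.det_neg, Fintype.card_fin]

theorem t_hb : Pool.Agent.N70.EQ.St_hb := by
  intro N _ _ m b PP F g a E Ft hb0 ha hPP hgb hga hdiv
  classical
  have hg : g ≠ 0 := by
    rintro rfl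
    exact ha (by rw [← hga, leadingCoeff_zero])
  obtain ⟨h, hh⟩ := hdiv
  set M := mulMat b g hg hgb with hM
  have h1 : ∀ (j j' : Fin b) (l l' : Fin m), M (C (a ^ E) * F l' l) j' j = Ft (j', l') (j, l) := by
    intro j j' l l'
    refine mulMat_of_dvd b g hg hgb (C (a ^ E) * F l' l) j (fun j' => Ft (j', l') (j, l)) ?_ j'
    have h2 := hh (j, l) l'
    refine ⟨h (j, l) l', ?_⟩
    rw [mul_left_comm, h2]
    simp only [hPP]
    rw [Finset.sum_eq_single l']
    · simp
    · intro k _ hk
      rw [if_neg (Ne.symm hk)]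
      ring
    · intro h; exact absurd (Finset.mem_univ _) h
  have h2 : Ft.det = (M (C (a ^ E) • F).det).det := by
    rw [Matrix.det_det, ← Matrix.det_submatrix_equiv_self (Equiv.prodComm (Fin m) (Fin b)) Ft]
    congr 1
    ext x y
    obtain ⟨l', j'⟩ := x
    obtain ⟨l, j⟩ := y
    exact (h1 j j' l l').symm
  have h3 : Ft.det = a ^ (E * (m * b)) * (M F.det).det := by
    rw [h2, Matrix.det_smul, Fintype.card_fin, map_mul, map_pow, Matrix.det_mul, Matrix.det_pow,
      hM, det_C, ← hM]
    congr 1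
    rw [← pow_mul, ← pow_mul]
    congr 1
    ring
  rw [h3]
  congr 1
  by_cases hF : F.det = 0
  · rw [hF, map_zero, leadingCoeff_zero, zero_pow hb0.ne', zero_mul]
    have : Nonempty (Fin b) := ⟨⟨0, hb0⟩⟩
    exact Matrix.det_zero
  · have h4 : F.det = C F.det.leadingCoeff * (F.det.roots.map fun c => X - C c).prod :=
      (IsAlgClosed.splits F.det).eq_prod_roots
    conv_lhs => rw [h4]
    rw [map_mul, Matrix.det_mul, hM, det_C, ← hM]
    congr 1
    generalize F.det.roots = s
    induction s using Multiset.induction_on with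
    | empty => simp
    | cons c s ih =>
      rw [Multiset.map_cons, Multiset.prod_cons, Multiset.map_cons, Multiset.prod_cons, map_mul,
        Matrix.det_mul, ih, hM, det_X_sub, hga]

end Pool.Agent.N878.EQ
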