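import Mathlib
import Pool.Agent.H84.L.A3_N70_EQ_Stm
import Pool.Agent.H84.L.S8_TH15_IGP_TwB
import Pool.Agent.H84.L.S8_TH15_IGP_WrB
import Pool.Agent.H84.L.S8_TH444_TW_RS
import Pool.Agent.H84.L.S8_TH444_TW_RSK
import Pool.Agent.H84.L.S8_W200_IG_HF
import Pool.Agent.H84.L.S8_W200_IH_TA
import Pool.Agent.H84.L.S8_W200_IJ_SA
import Pool.Agent.H84.L.S8_Y793_Gr



/-!
Adjunction of roots of unity to a finite Galois extension (`St_ru`).
-/

set_option autoImplicit false

namespace Pool.Agent.N887.EQ

open Polynomial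

theorem ru_core (K L : Type) [Field K] [CharZero K] [Field L] [Algebra K L]
    [FiniteDimensional K L] [IsGalois K L] (e : ℕ) (he : 0 < e) :
    ∃ (L' : Type) (_ : Field L') (_ : Algebra K L') (_ : Algebra L L')
      (_ : IsScalarTower K L L') (_ : FiniteDimensional K L') (_ : IsGalois K L'),
      HasEnoughRootsOfUnity L' e := by
  have : CharZero L := charZero_of_injective_algebraMap (algebraMap K L).injective
  have : NeZero e := ⟨he.ne'⟩
  have : NeZero ((e : ℕ) : L) := ⟨by exact_mod_cast he.ne'⟩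
  obtain ⟨E, fE, aE, cE⟩ : ∃ (E : Type) (_ : Field E) (_ : Algebra L E),
      IsCyclotomicExtension {e} L E := ⟨CyclotomicField e L, inferInstance, inferInstance,
        inferInstance⟩
  let alg : Algebra K E := ((algebraMap L E).comp (algebraMap K L)).toAlgebra
  have tow : IsScalarTower K L E := IsScalarTower.of_algebraMap_eq fun _ => rfl
  have fdE : FiniteDimensional L E := IsCyclotomicExtension.finiteDimensional {e} L E
  have fd : FiniteDimensional K E := FiniteDimensional.trans K L E
  obtain ⟨p0, hp0⟩ := Normal.exists_isSplittingField K L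
  obtain ⟨p, hp, hp1⟩ : ∃ p : K[X], p ≠ 0 ∧ IsSplittingField K L p := by
    rcases eq_or_ne p0 0 with h | h
    · refine ⟨1, one_ne_zero, ?_⟩
      subst h
      refine ⟨by simp, ?_⟩
      have h1 := hp0.adjoin_rootSet'
      rw [rootSet_zero] at h1
      rw [rootSet_one]
      exact h1
    · exact ⟨p0, h, hp0⟩
  have hg : (X ^ e - 1 : K[X]) ≠ 0 := by
    have := X_pow_sub_C_ne_zero he (1 : K)
    simpa using this
  have h2 : IsSplittingField L E ((X ^ e - 1 : K[X]).map (algebraMap K L)) := by
    have h3 : (X ^ e - 1 : K[X]).map (algebraMap K L) = X ^ e - 1 := by simp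
    rw [h3]
    exact IsCyclotomicExtension.isSplittingField_X_pow_sub_one e L E
  have h3 : IsSplittingField K E (p * (X ^ e - 1)) := IsSplittingField.mul (K := L) (L := E) (f := p) (g := X ^ e - 1) (hf := hp) (hg := hg)
  have h4 : Normal K E := Normal.of_isSplittingField (p * (X ^ e - 1))
  have h5 : IsGalois K E := ⟨⟩
  refine ⟨E, inferInstance, alg, inferInstance, tow, fd, h5, ?_⟩
  exact ⟨⟨_, IsCyclotomicExtension.zeta_spec e L E⟩, inferInstance⟩

theorem t_ru : Pool.Agent.N70.EQ.St_ru := by
  intro K L _ _ _ _ _ _ e he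
  exact ru_core K L e he

end Pool.Agent.N887.EQ
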