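import Mathlib
import Pool.Agent.H84.L.A3_N160_EQ_CU
import Pool.Agent.H84.L.A3_N169_EQ_GW
import Pool.Agent.H84.L.A3_N27_EQ_FX
import Pool.Agent.H84.L.A3_N279_EQ_KDO
import Pool.Agent.H84.L.A3_N426_EQ_KB
import Pool.Agent.H84.L.A3_N441_EQ_KA
import Pool.Agent.H84.L.A3_N498_EQ_GC
import Pool.Agent.H84.L.A3_N559_EQ_GS
import Pool.Agent.H84.L.A3_N568_EQ_KUMO
import Pool.Agent.H84.L.A3_N603_EQ_KC
import Pool.Agent.H84.L.A3_N607_EQ_RI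
import Pool.Agent.H84.L.A3_N690_EQ_PD
import Pool.Agent.H84.L.A3_N70_EQ_Main
import Pool.Agent.H84.L.A3_N70_EQ_Mu
import Pool.Agent.H84.L.A3_N70_EQ_Stm
import Pool.Agent.H84.L.A3_N755_EQ_HA
import Pool.Agent.H84.L.A3_N78_EQ_RT
import Pool.Agent.H84.L.A3_N878_EQ_HB
import Pool.Agent.H84.L.A3_N887_EQ_RU
import Pool.Agent.H84.L.A3_N946_EQ_DE
import Pool.Agent.H84.L.A3_N953_EQ_PW
import Pool.Agent.H84.L.S8_W200_IH_TE

namespace Pool.Agent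
end Pool.Agent


/-!
The pieces together.
-/

set_option autoImplicit false

namespace Pool.Agent.N70.EQ

open Pool.Agent

theorem kd : St_kd :=
  N279.EQ.t_kdo N690.EQ.t_pd N755.EQ.t_ha N878.EQ.t_hb N953.EQ.t_pw N160.EQ.t_cu N27.EQ.FX.t_fx
    N70.EQ.Mu.t_mu

theorem kum : St_kum := N568.EQ.t_kumo N441.EQ.t_ka N426.EQ.t_kb N603.EQ.t_kc kd N946.EQ.t_de

theorem hyp : Hyp :=
  ⟨N559.EQ.t_gs, N498.EQ.t_gc, N169.EQ.t_gw, kum, N887.EQ.t_ru, N78.EQ.t_rt, N607.EQ.t_ri⟩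

end Pool.Agent.N70.EQ
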