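import Mathlib
import Pool.Agent.H84.L.A3_N157_AW_Dat
import Pool.Agent.H84.L.A3_N600_NS_FinC
import Pool.Agent.H84.L.A3_N600_NS_Pa
import Pool.Agent.H84.L.A3_N600_NS_Pack
import Pool.Agent.H84.L.A3_N600_UK_Compl
import Pool.Agent.H84.L.A3_N70_EP_Ke
import Pool.Agent.H84.L.A3_N70_EP_Kf
import Pool.Agent.H84.L.A3_N70_EP_Si
import Pool.Agent.H84.L.A3_N70_EP_Sp
import Pool.Agent.H84.L.A3_N70_EP_Stm
import Pool.Agent.H84.L.A3_N70_EP_Stm3
import Pool.Agent.H84.L.A3_N70_EP_TC
import Pool.Agent.H84.L.A3_N70_EP_Un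
import Pool.Agent.H84.L.A3_N70_EQ_Sa
import Pool.Agent.H84.L.A3_N75_EP_Pul
import Pool.Agent.H84.L.S8_H391R2_T4_Nod
import Pool.Agent.H84.L.S8_H391R2_T4_Red
import Pool.Agent.H84.L.S8_H391R2_T4_Sym
import Pool.Agent.H84.L.S8_H391R2_V_Wmap
import Pool.Agent.H84.L.S8_H391R2_WrGrp
import Pool.Agent.H84.L.S8_TH377_IG_Bc2
import Pool.Agent.H84.L.S8_TH444_TW_RSK
import Pool.Agent.H84.L.S8_Y793_E_All
import Pool.Agent.H84.L.S8_Y793_E_App
import Pool.Agent.H84.L.S8_Y793_E_MainA
import Pool.Agent.H84.L.S8_Y793_Stm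

namespace Pool.Agent.H391R2
end Pool.Agent.H391R2
namespace Pool.Agent.H391R2.T4
end Pool.Agent.H391R2.T4
namespace Pool.Agent.N600.NS
end Pool.Agent.N600.NS
namespace Pool.Agent.N600.UK
end Pool.Agent.N600.UK
namespace Pool.Agent.N70.EP
end Pool.Agent.N70.EP
namespace Pool.Agent.TH377.IG
end Pool.Agent.TH377.IG
namespace Pool.Agent.TH444.TW
end Pool.Agent.TH444.TW
namespace Pool.Agent.Y793
end Pool.Agent.Y793


/-!
The groups `G ≀ S_n` as kernels, for all finite groups `G` without centre.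
-/

set_option autoImplicit false
set_option linter.unusedSectionVars false
set_option linter.unusedSimpArgs false

namespace Pool.Agent.N70.EQ

open Polynomial Pool.Agent.H391R2 Pool.Agent.H391R2.T4
open Pool.Agent.Y793 (AWr AltTw twProj regSol_iso)
open Pool.Agent.TH444.TW (RSK)
open Pool.Agent.TH377.IG (FP prFP)
open Pool.Agent.N600.UK (Out cls cls_eq_one conj_inj)
open Pool.Agent.N600.NS (IdxDvd Degs)
open Pool.Agent.N70.EP (transfer SplitIdx idx_of_split pB pB_surj FB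
  splitIdx_pull GoodKer0 fbMap)

/- Transport of the symmetric fibre powers. -/
def symTrans {B Γ Γ' : Type} [Group B] [Group Γ] [Group Γ'] (e : Γ' ≃* Γ) (a : B →* Γ)
    (n : ℕ) : SymEP ((e.symm : Γ →* Γ').comp a) n ≃* SymEP a n where
  toFun z := ⟨(z.1.1, e z.1.2), fun i => by
    have h1 := z.2 i
    change e.symm (a (z.1.1.left i)) = z.1.2 at h1
    change a (z.1.1.left i) = e z.1.2
    rw [← h1, e.apply_symm_apply]⟩
  invFun z := ⟨(z.1.1, e.symm z.1.2), fun i => by
    have h1 := z.2 i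
    change a (z.1.1.left i) = z.1.2 at h1
    change e.symm (a (z.1.1.left i)) = e.symm z.1.2
    rw [h1]⟩
  left_inv z := Subtype.ext (Prod.ext rfl (e.symm_apply_apply _))
  right_inv z := Subtype.ext (Prod.ext rfl (e.apply_symm_apply _))
  map_mul' z w := Subtype.ext (Prod.ext rfl (e.map_mul _ _))

/- The symmetric index theorem, uniformly in the fields. -/
theorem symU (H B : Type) [Group H] [Finite H] [Group B] [Finite B] (a : B →* H)
    (ha : Function.Surjective a) :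
    ∃ n₀ : ℕ, ∀ n ≥ n₀, SplitIdx a n → RSK ℚ (symProj a n) := by
  obtain ⟨K₀, L₀, i1, i2, i3, i4, i5, i6, e₀, h⟩ := transfer H
  obtain ⟨n₀, hn₀⟩ := N600.NS.reg_index K₀ L₀ _ ((e₀.symm : H →* (L₀ ≃ₐ[K₀] L₀)).comp a)
    (e₀.symm.surjective.comp ha)
  refine ⟨n₀, fun n hn hidx => ?_⟩
  have h1 := (hn₀ n hn (idx_of_split a hidx e₀)).2
  have hW : Finite (Wr B n) := finite_wr B n
  have hf : Finite (SymEP a n) := inferInstance
  refine h _ (symProj a n) ?_
  refine regSol_iso K₀ L₀ _ _ _ _ (symTrans e₀ a n) (fun z => ?_) h1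
  exact e₀.symm_apply_apply _

section fb

variable {G Γ Γ' : Type} [Group G] [Group Γ] [Group Γ'] (o : Γ →* Out G) (ρ : Γ' →* Γ)

/- Pull-back of the symmetric fibre powers. -/
theorem exists_pullS (n : ℕ) :
    ∃ e : FP (symProj (pB o) n) ρ ≃* SymEP (pB (o.comp ρ)) n,
      ∀ x, symProj (pB (o.comp ρ)) n (e x) = prFP (symProj (pB o) n) ρ x := by
  let F : SymEP (pB (o.comp ρ)) n →* FP (symProj (pB o) n) ρ := MonoidHom.mk'
    (fun z => ⟨(⟨(Pool.Agent.H391R2.V.wmap n (fbMap o ρ) z.1.1, ρ z.1.2),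
      fun i => congrArg ρ (z.2 i)⟩, z.1.2), rfl⟩) (fun z w => by
      apply Subtype.ext
      refine Prod.ext ?_ rfl
      apply Subtype.ext
      refine Prod.ext ?_ (map_mul ρ _ _)
      exact map_mul _ _ _)
  have hF : Function.Bijective F := by
    constructor
    · intro z w hzw
      have h1 : z.1.2 = w.1.2 := congrArg (fun u : FP (symProj (pB o) n) ρ => u.1.2) hzw
      have h2 : Pool.Agent.H391R2.V.wmap n (fbMap o ρ) z.1.1 =
          Pool.Agent.H391R2.V.wmap n (fbMap o ρ) w.1.1 :=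
        congrArg (fun u : FP (symProj (pB o) n) ρ => u.1.1.1.1) hzw
      apply Subtype.ext
      refine Prod.ext ?_ h1
      apply SemidirectProduct.ext
      · funext i
        apply Subtype.ext
        refine Prod.ext ?_ ?_
        · exact congrArg (fun u : Wr (FB o) n => (u.left i).1.1) h2
        · have h3 : (z.1.1.left i).1.2 = z.1.2 := z.2 i
          have h4 : (w.1.1.left i).1.2 = w.1.2 := w.2 i
          rw [h3, h4, h1]
      · exact congrArg (fun u : Wr (FB o) n => u.right) h2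
    · rintro ⟨⟨⟨⟨x, w⟩, hx⟩, γ⟩, hγ⟩
      have hw : w = ρ γ := hγ
      subst hw
      have hx1 : ∀ i, (x.left i).1.2 = ρ γ := fun i => hx i
      refine ⟨⟨(⟨fun i => ⟨((x.left i).1.1, γ), ?_⟩, x.right⟩, γ), fun i => rfl⟩, ?_⟩
      · change cls G (x.left i).1.1 = o (ρ γ)
        rw [← hx1 i]
        exact (x.left i).2
      · apply Subtype.ext
        refine Prod.ext ?_ rfl
        apply Subtype.ext
        refine Prod.ext ?_ rfl
        apply SemidirectProduct.ext
        · funext i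
          apply Subtype.ext
          exact Prod.ext rfl (hx1 i).symm
        · rfl
  refine ⟨(MulEquiv.ofBijective F hF).symm, fun x => ?_⟩
  obtain ⟨z, rfl⟩ := (MulEquiv.ofBijective F hF).surjective x
  rw [MulEquiv.symm_apply_apply]
  rfl

end fb

section ker

variable (G : Type) [Group G] [Finite G]

theorem rsk_kerS : ∃ n₀ : ℕ, ∀ n ≥ n₀, SplitIdx (cls G) n →
      ∀ (Γ : Type) [Group Γ] [Finite Γ] (o : Γ →* Out G), RSK ℚ (symProj (pB o) n) := by
  have hfin : Finite (MulAut G) := Finite.of_injective (fun a : MulAut G => (a : G → G))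
    DFunLike.coe_injective
  have hfinO : Finite (Out G) := inferInstance
  have hfS : Finite (Subgroup (Out G)) := inferInstance
  have h0 : ∀ W : Subgroup (Out G), ∃ n₀ : ℕ, ∀ n ≥ n₀,
      SplitIdx (pB W.subtype) n → RSK ℚ (symProj (pB W.subtype) n) :=
    fun W => symU W _ (pB W.subtype) (pB_surj _)
  choose ρ hρ using h0
  obtain ⟨n₀, hn₀⟩ := (Set.finite_range ρ).bddAbove
  refine ⟨n₀, fun n hn hidx Γ _ _ o => ?_⟩
  let W : Subgroup (Out G) := o.range
  let π : Γ →* W := o.rangeRestrict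
  have h2 := hρ W n ((hn₀ ⟨W, rfl⟩).trans hn) (splitIdx_pull G _ hidx)
  have hW : Finite (Wr (FB W.subtype) n) := finite_wr _ _
  have h3 := N75.EP.t_pul ℚ W _ Γ (symProj (pB W.subtype) n) π
        (MonoidHom.rangeRestrict_surjective _) h2
  obtain ⟨e, he⟩ := exists_pullS W.subtype π n
  exact RSK.congr h3 e he

/- The groups `G ≀ S_n` are kernels of regularly solvable embedding problems only. -/
theorem goodKerS [Nontrivial G] (hZ : ∀ z : G, (∀ g : G, z * g = g * z) → z = 1) :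
    ∃ n₀ : ℕ, ∀ n ≥ n₀, SplitIdx (cls G) n → GoodKer0 (Wr G n) := by
  obtain ⟨n₀, hn₀⟩ := rsk_kerS G
  refine ⟨n₀ + 2 * (Nat.card G + 2), fun n hn' hidx => ?_⟩
  intro K L X _ _ _ _ _ _ _ α hα hι
  obtain ⟨o, e, he⟩ := saut G hZ n (by omega) X (L ≃ₐ[K] L) α hα hι
  let _ : Algebra ℚ K := DivisionRing.toRatAlgebra
  have h1 := hn₀ n (by omega) hidx (L ≃ₐ[K] L) o K L (MulEquiv.refl _)
  refine regSol_iso K L _ _ _ _ e.symm (fun z => ?_) h1
  obtain ⟨x, rfl⟩ := e.surjective z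
  rw [e.symm_apply_apply, ← he]
  rfl

end ker

end Pool.Agent.N70.EQ
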