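import Mathlib
import Pool.Agent.H84.L.A3_N600_NS_SemA
import Pool.Agent.H84.L.A3_N600_NS_SerA
import Pool.Agent.H84.L.A3_N600_UK_Compl
import Pool.Agent.H84.L.A3_N600_UK_Good
import Pool.Agent.H84.L.A3_N600_UK_Main
import Pool.Agent.H84.L.A3_N70_EP_Kf
import Pool.Agent.H84.L.A3_N70_EP_Stm3
import Pool.Agent.H84.L.A3_N70_EP_TC
import Pool.Agent.H84.L.A3_N70_EP_Voc
import Pool.Agent.H84.L.A3_N70_EP_VocC
import Pool.Agent.H84.L.A3_N70_EP_VocCB
import Pool.Agent.H84.L.A3_N70_EQ_Main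
import Pool.Agent.H84.L.A3_N70_EQ_Sb
import Pool.Agent.H84.L.A3_N70_EQ_TF
import Pool.Agent.H84.L.S8_H391R2_T4_Fam
import Pool.Agent.H84.L.S8_H391R2_T4_Sem
import Pool.Agent.H84.L.S8_H391R2_WrGrp
import Pool.Agent.H84.L.S8_TH444_TW_RS
import Pool.Agent.H84.L.S8_TH444_TW_RSK
import Pool.Agent.H84.L.S8_TH59_WX_UF
import Pool.Agent.H84.L.S8_Y793_E_App
import Pool.Agent.H84.L.S8_Y793_E_MainA
import Pool.Agent.H84.L.S8_Y793_Stm

namespace Pool.Agent.H391R2
end Pool.Agent.H391R2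
namespace Pool.Agent.H391R2.T4
end Pool.Agent.H391R2.T4
namespace Pool.Agent.N600.UK
end Pool.Agent.N600.UK
namespace Pool.Agent.N70.EP
end Pool.Agent.N70.EP
namespace Pool.Agent.N70.EP.Voc
end Pool.Agent.N70.EP.Voc
namespace Pool.Agent.N70.EQ.Voc
end Pool.Agent.N70.EQ.Voc
namespace Pool.Agent.TH444.TW
end Pool.Agent.TH444.TW
namespace Pool.Agent.TH59.WX
end Pool.Agent.TH59.WX
namespace Pool.Agent.Y793
end Pool.Agent.Y793


/-!
The class of kernels.
-/

set_option autoImplicit false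
set_option linter.unusedSectionVars false
set_option linter.unusedSimpArgs false

namespace Pool.Agent.N70.EQ

open Pool.Agent.H391R2 Pool.Agent.H391R2.T4
open Pool.Agent.N70.EP.Voc
open Pool.Agent.N70.EQ.Voc
open Pool.Agent.Y793 (AWr AltTw twProj regSol_iso)
open Pool.Agent.TH444.TW (RSK infinite_ratFunc)
open Pool.Agent.N600.UK (CL cl_of_center cl_iso Out cls cls_eq_one conj_inj)
open Pool.Agent.TH59.WX (finite_of_kernel hil_of_reg)

open Pool.Agent.N70.EP (splitIdx_of_outer setA GoodKer0 splitIdx_mul St_gd0)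

/- The sets of natural numbers. -/
def setS (G : Type) [Group G] : Set ℕ := {n | GoodKer0 (Wr G n)}

theorem setA_dens7 (hh : Hyp) (G : Type) [Group G] (hG : Centreless G) (D : ℕ)
    (hD : OuterIndex G D) (hodd : Odd D) : AlmostAllMultiples (2 * D) (fun n => n ∈ setA G) := by
  have h1 := hG.finite
  have h2 := hG.nontrivial
  exact goodKer_dens7 G hh (cl_of_center hG.center) D hodd (splitIdx_of_outer G hD)

theorem setS_large (G : Type) [Group G] (hG : Centreless G) (D : ℕ)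
    (hD : OuterIndex G D) : ∃ n₀ : ℕ, ∀ n ≥ n₀, D ∣ n → n ∈ setS G := by
  have h1 := hG.finite
  have h2 := hG.nontrivial
  obtain ⟨n₀, hn₀⟩ := goodKerS G (cl_of_center hG.center)
  refine ⟨n₀, fun n hn hd => hn₀ n hn ?_⟩
  obtain ⟨s, rfl⟩ := hd
  exact splitIdx_mul (splitIdx_of_outer G hD) s


end Pool.Agent.N70.EQ
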