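import Mathlib
import Pool.Agent.H84.L.A3_N600_NS_SemA
import Pool.Agent.H84.L.A3_N600_NS_SerA
import Pool.Agent.H84.L.A3_N70_EP_Cm
import Pool.Agent.H84.L.A3_N70_EP_Stm5
import Pool.Agent.H84.L.A3_N70_EP_TF
import Pool.Agent.H84.L.A3_N70_EP_Voc
import Pool.Agent.H84.L.A3_N70_EP_VocCB
import Pool.Agent.H84.L.A3_N70_EP_VocS
import Pool.Agent.H84.L.A3_N70_EP_VocSB
import Pool.Agent.H84.L.A3_N70_EQ_Main
import Pool.Agent.H84.L.A3_N70_EQ_TF
import Pool.Agent.H84.L.S8_H391R2_T4_Fam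
import Pool.Agent.H84.L.S8_H391R2_T4_Sem
import Pool.Agent.H84.L.S8_H391R2_WrGrp
import Pool.Agent.H84.L.S8_TH444_TW_Cls
import Pool.Agent.H84.L.S8_TH444_TW_RS
import Pool.Agent.H84.L.S8_TH444_TW_RSK
import Pool.Agent.H84.L.S8_Y793_E_App
import Pool.Agent.H84.L.S8_Y793_E_MainA
import Pool.Agent.H84.L.S8_Y793_Stm

namespace Pool.Agent.H391R2
end Pool.Agent.H391R2
namespace Pool.Agent.H391R2.T4
end Pool.Agent.H391R2.T4
namespace Pool.Agent.N70.EP
end Pool.Agent.N70.EP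
namespace Pool.Agent.N70.EP.Voc
end Pool.Agent.N70.EP.Voc
namespace Pool.Agent.N70.EQ.Voc
end Pool.Agent.N70.EQ.Voc
namespace Pool.Agent.TH444.TW
end Pool.Agent.TH444.TW
namespace Pool.Agent.Y793
end Pool.Agent.Y793


/-!
Steps.
-/

set_option autoImplicit false
set_option linter.unusedSectionVars false
set_option linter.unusedSimpArgs false

namespace Pool.Agent.N70.EQ

open Pool.Agent.H391R2 Pool.Agent.H391R2.T4
open Pool.Agent.N70.EP.Voc
open Pool.Agent.N70.EQ.Voc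
open Pool.Agent.Y793 (AWr AltTw twProj regSol_iso)
open Pool.Agent.TH444.TW (RSK infinite_ratFunc finite_of_ker)
open Pool.Agent.N70.EP (isSplittingIndex_unique setB setA rsk_twPr almostAll_mono rsk_of_good)

theorem setB_dens7 (hh : Hyp) {H B : Type} [Group H] [Finite H] [Group B] [Finite B] (α : B →* H)
    (hα : Function.Surjective α) (I : ℕ)
    (hI : IsSplittingIndex α I) : AlmostAllMultiples (2 * I) (fun n => n ∈ setB α) := by
  obtain ⟨I', hI0, hI', -, h⟩ := idx_thmu7 hh H B α hα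
  have h1 : I' = I := isSplittingIndex_unique ⟨hI0, hI'⟩ hI
  subst h1
  refine almostAll_mono h fun n hn χ hχ => rsk_twPr α χ n (hn χ ?_)
  rcases hχ with ⟨J, hJ, hJ'⟩ | hχ
  · have h2 : J = I' := isSplittingIndex_unique hJ' hI
    subst h2
    exact Or.inl hJ
  · exact Or.inr hχ


end Pool.Agent.N70.EQ
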