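import Mathlib
import Pool.Agent.H84.L.S8_H391R2_WrGrp
import Pool.Agent.H84.L.S8_TH444_TW_ClsDef

namespace Pool.Agent.H391R2
end Pool.Agent.H391R2
namespace Pool.Agent.TH444.TW
end Pool.Agent.TH444.TW


/-!
# A class of homomorphisms with norm-one kernels

`Wr G n` is the wreath product `G ≀ S_n = (Fin n → G) ⋊ Perm (Fin n)`; its elements are pairs
`(f, σ)`. `NormOne G n` is the subgroup of all `(f, σ)` with `∏ [f i] = 1` in the abelianization
of `G`.

`Steps K` is the smallest class of homomorphisms `p : W' → W` of groups which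
* contains the class `Cls K` of the file `Pool/Agent/TH444/TW/ClsDef.lean`,
* contains the projections `(NormOne G n)^k ⋊ W → W`, where `G` is any finite group,
  `n ≥ ((3 |G| + 2)!)^3`, and `W` acts through a homomorphism `W → Aut(G) ≀ S_k`,
* is closed under composition, and under quotients (if `p ∘ q` is in the class and `q` is
  surjective, then `p` is in the class).
-/

set_option autoImplicit false

open Pool.Agent.H391R2 (Wr)
open Pool.Agent.TH444.TW (Cls twist)

namespace Pool.Agent.H789.NK

theorem prod_mul {G : Type} [Group G] {n : ℕ} (a b : Wr G n) :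
    ∏ i, Abelianization.of ((a * b).left i) =
      (∏ i, Abelianization.of (a.left i)) * ∏ i, Abelianization.of (b.left i) := by
  have h1 : ∀ i, (a * b).left i = a.left i * b.left (a.right⁻¹ i) := fun i => rfl
  simp only [h1, map_mul, Finset.prod_mul_distrib]
  congr 1
  exact Equiv.prod_comp a.right⁻¹ (fun i => Abelianization.of (b.left i))

theorem prod_one (G : Type) [Group G] (n : ℕ) :
    ∏ i, Abelianization.of ((1 : Wr G n).left i) = 1 := by
  refine Finset.prod_eq_one fun i _ => ?_
  rw [SemidirectProduct.one_left, Pi.one_apply, map_one]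

theorem prod_mul_mem {G : Type} [Group G] {n : ℕ} {a b : Wr G n}
    (ha : ∏ i, Abelianization.of (a.left i) = 1) (hb : ∏ i, Abelianization.of (b.left i) = 1) :
    ∏ i, Abelianization.of ((a * b).left i) = 1 := by
  rw [prod_mul, ha, hb, mul_one]

theorem prod_inv_mem {G : Type} [Group G] {n : ℕ} {a : Wr G n}
    (ha : ∏ i, Abelianization.of (a.left i) = 1) :
    ∏ i, Abelianization.of ((a⁻¹).left i) = 1 := by
  have h1 := prod_mul a a⁻¹
  rw [mul_inv_cancel, ha, one_mul] at h1
  rw [← h1]
  exact prod_one G n

/- The norm-one subgroup of `G ≀ S_n`: all `(f, σ)` with `∏ [f i] = 1` in the abelianization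
of `G`. -/
def NormOne (G : Type) [Group G] (n : ℕ) : Subgroup (Wr G n) where
  carrier := {x | ∏ i, Abelianization.of (x.left i) = 1}
  mul_mem' := prod_mul_mem
  one_mem' := prod_one G n
  inv_mem' := prod_inv_mem

theorem mem_normOne {G : Type} [Group G] {n : ℕ} (x : Wr G n) :
    x ∈ NormOne G n ↔ ∏ i, Abelianization.of (x.left i) = 1 := Iff.rfl

theorem twist_mem {G : Type} [Group G] {n : ℕ} (c : MulAut G) (y : NormOne G n) :
    twist c y.1 ∈ NormOne G n := by
  have hy := y.2
  rw [mem_normOne] at hy ⊢
  have h1 := congrArg (Abelianization.map (c : G →* G)) hy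
  rw [map_prod, map_one] at h1
  refine Eq.trans (Finset.prod_congr rfl fun i _ => ?_) h1
  rw [Abelianization.map_of]
  rfl

/- The norm-one subgroup of `G ≀ S_n`, as a group. -/
def NGrp (G : Type) [Group G] (n : ℕ) : Type := NormOne G n


/- An automorphism `c` of `G` is applied to the `n` entries in `G` of an element of the norm-one
subgroup of `G ≀ S_n`. -/
def twistN {G : Type} [Group G] {n : ℕ} (c : MulAut G) (y : NGrp G n) : NGrp G n :=
  ⟨twist c y.1, twist_mem c y⟩


end Pool.Agent.H789.NK
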