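import Mathlib
import Pool.Agent.H84.L.S8_H391R2_T4_Abs
import Pool.Agent.H84.L.S8_H391R2_T4_Bc
import Pool.Agent.H84.L.S8_H391R2_T4_Dft
import Pool.Agent.H84.L.S8_H391R2_T4_Fam
import Pool.Agent.H84.L.S8_H391R2_T4_Phi
import Pool.Agent.H84.L.S8_H391R2_T4_Sol
import Pool.Agent.H84.L.S8_H391R2_T4_Utl
import Pool.Agent.H84.L.S8_H391R2_WrGrp
import Pool.Agent.H84.L.S8_H391R2_WrSol
import Pool.Agent.H84.L.S8_H391R2_WrTrd
import Pool.Agent.H84.L.S8_R367_IG_GeoA
import Pool.Agent.H84.L.S8_R367_IG_Nod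



set_option autoImplicit false

namespace Pool.Agent.H391R2.T4.IGW

open MvPolynomial

set_option linter.unusedSectionVars false

section geob

variable {k : Type} [Field k] [CharZero k] {G : Type} [Group G] [Fintype G]
variable (y : MvPolynomial G k) {Q : Type} [Fintype Q] {J : ℕ}

open Classical in
/- The abstract geometric theorem: the automorphisms which fix all parameters. -/
theorem geoW2 [YData y] (d : Dat k G Q (Fin J)) (h : GD y d)
    (Ψ : Polynomial (MvPolynomial (Fin (Fintype.card G)) k)) (hm : Ψ.Monic)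
    (hΨ : Ψ.map ((aeval fun i : Fin (Fintype.card G) => esymm G k (i + 1) :
      MvPolynomial (Fin (Fintype.card G)) k →ₐ[k] MvPolynomial G k) :
      MvPolynomial (Fin (Fintype.card G)) k →+* MvPolynomial G k) =
      ∏ q ∈ orb y, (Polynomial.X - Polynomial.C q))
    (T : ℕ) (hT : ∀ e, (Ψ.coeff e).totalDegree ≤ T)
    (hsep : (Polynomial.C d.c * d.R * ∏ q ∈ (orb y).erase y,
      (Polynomial.C d.c * (Polynomial.X ^ 2 * d.R) -
      Polynomial.C (aeval d.l q - aeval d.l y))).Separable)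
    (M : ℕ) (hJM : J + 1 < M) (hB : T * (J + 1) < M) (hM : 2 + d.R.natDegree = M) (n : ℕ)
    (hn : 3 ≤ n) (hdeg : Ψ.natDegree * M = n + J)
    {N : Type} [Field N] [Algebra k N] [IsAlgClosed N]
    (ξ : Q ⊕ (Unit ⊕ (Option (Fin (Fintype.card G)) ⊕ Option (Fin (Fintype.card G)))) → N)
    (hξ : IsTranscendenceBasis k ξ)
    -- the field of the first parameters
    (k₁ : Type) [Field k₁] [Algebra k k₁] [Algebra k₁ N] [IsScalarTower k k₁ N]
    (hk₁ : ∀ x : k₁, algebraMap k₁ N x ∈ IntermediateField.adjoin k (Set.range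
      (Sum.elim (fun q => ξ (Sum.inl q)) (fun _ : Unit => ξ (Sum.inr (Sum.inl ()))))))
    (Ye : Q → k₁) (hYe : ∀ q, algebraMap k₁ N (Ye q) = ξ (Sum.inl q))
    (t₁ : k₁) (ht₁ : algebraMap k₁ N t₁ = ξ (Sum.inr (Sum.inl ())))
    (kc : Q → Option (Fin (Fintype.card G)) → k₁)
    (hkc : ∀ q i, algebraMap k₁ N (kc q i) =
      Polynomial.aeval (ξ (Sum.inl q)) (kp y d.l (d.hh q) (d.ζ q) d.e i))
    (hθ : AlgebraicIndependent k₁ (fun i => ξ (Sum.inr (Sum.inr i)))) :
    ∃ (r : Fin n → N) (vv : Fin n → G → N), Function.Injective r ∧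
      (∀ i, Polynomial.aeval (r i) d.w ≠ 0) ∧ (∀ i, SolP y (PX y d ξ) (r i) (vv i)) ∧
      (∀ i, Function.Injective (vv i)) ∧
      (∀ s v, SolP y (PX y d ξ) s v → Polynomial.aeval s d.w ≠ 0 →
        ∃ i, s = r i ∧ ∃ g, v = vv i ∘ Equiv.mulLeft g) ∧
      ∀ x : Wr G n, ∏ i, Abelianization.of (x.left i) = 1 →
        ∃ σ : N ≃ₐ[k] N, (∀ v, σ (ξ v) = ξ v) ∧
        ∀ i, σ (r i) = r (x.right i) ∧
          ∀ g, σ (vv i g) = vv (x.right i) (x.left (x.right i) * g) := by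
  obtain ⟨r, vv, hr, hrw, hsol, hall, Ω, i1, i2, j, τ, hτξ, c₁, c₂, hcc, hτ1, hτ2, hτ3, hτ4⟩ :=
    geo1 y d h Ψ hm hΨ T hT hsep M hJM hB hM n hn hdeg ξ hξ
  obtain ⟨θ, hθdef⟩ : ∃ θ : Option (Fin (Fintype.card G)) ⊕ Option (Fin (Fintype.card G)) → N,
    θ = fun i => ξ (Sum.inr (Sum.inr i)) := ⟨_, rfl⟩
  rw [← hθdef] at hθ
  have hjinj : Function.Injective j := j.toRingHom.injective
  have hck : CharZero k₁ := charZero_of_injective_algebraMap (algebraMap k k₁).injective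
  obtain ⟨F, iF1, iF2, iF3, iF4, iF5, φ, hφ⟩ := exists_field hθ
  let _ : Algebra F N := φ.toRingHom.toAlgebra
  have hTF : IsScalarTower k₁ F N := IsScalarTower.of_algebraMap_eq fun x => (φ.commutes x).symm
  have hθF : ∀ i, θ i = algebraMap F N (algebraMap (MvPolynomial
      (Option (Fin (Fintype.card G)) ⊕ Option (Fin (Fintype.card G))) k₁) F
      (MvPolynomial.X i)) := by
    intro i
    change _ = φ _
    rw [hφ, aeval_X]
  let _ : Algebra k F := ((algebraMap k₁ F).comp (algebraMap k k₁)).toAlgebra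
  have hTkF : IsScalarTower k k₁ F := IsScalarTower.of_algebraMap_eq fun x => rfl
  have hTkN : IsScalarTower k F N := IsScalarTower.of_algebraMap_eq fun x => by
    rw [IsScalarTower.algebraMap_apply k k₁ N, IsScalarTower.algebraMap_apply k₁ F N]
    rfl
  -- N is algebraic over F
  have halg : Algebra.IsAlgebraic F N := by
    refine alg_of_range _ hξ ?_
    rintro (q | (u | i))
    · exact ⟨algebraMap k₁ F (Ye q), by
        rw [← IsScalarTower.algebraMap_apply k₁ F N, hYe]⟩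
    · exact ⟨algebraMap k₁ F t₁, by
        rw [← IsScalarTower.algebraMap_apply k₁ F N, ht₁]⟩
    · exact ⟨_, by rw [← hθF, hθdef]⟩
  have hcl : IsAlgClosure F N := ⟨inferInstance, halg⟩
  have hnorm : Normal F N := IsAlgClosure.normal F N
  -- equality on F
  have heqF : ∀ {Ω' : Type} [Field Ω'] [Algebra k Ω'] (f g : N →ₐ[k] Ω'),
      (∀ v, f (ξ v) = g (ξ v)) →
      ∀ x : F, f (algebraMap F N x) = g (algebraMap F N x) := by
    intro Ω' _ _ f g h1 x
    have h3 : ∀ x : k₁, f (algebraMap k₁ N x) = g (algebraMap k₁ N x) := by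
      intro x
      refine eq_on_adjoin f g _ ?_ _ (hk₁ x)
      rintro _ ⟨v, rfl⟩
      rcases v with q | u
      · exact h1 _
      · exact h1 _
    let _ : Algebra k₁ Ω' := ((f : N →+* Ω').comp (algebraMap k₁ N)).toAlgebra
    let f' : N →ₐ[k₁] Ω' := { (f : N →+* Ω') with commutes' := fun c => rfl }
    let g' : N →ₐ[k₁] Ω' := { (g : N →+* Ω') with commutes' := fun c => (h3 c).symm }
    have h4 := eq_on_adjoin f' g' (Set.range θ) (by
      rintro _ ⟨i, rfl⟩
      rw [hθdef]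
      exact h1 _) _ (field_le θ hθF x)
    exact h4
  -- the transposition
  obtain ⟨τN, hτN⟩ := exists_restrict (F := F) (N := N) (j : N →+* Ω) (τ : Ω ≃+* Ω) (fun x => by
    refine heqF ((τ : Ω →ₐ[k] Ω).comp j) j (fun v => ?_) x
    exact hτξ _)
  have hτN' : ∀ x, j (τN x) = τ (j x) := hτN
  -- solutions
  have hfam : ∀ i, fam G (fun i => base1 y d t₁ i + corr1 d kc i) (d.w.map (algebraMap k k₁)) θ i =
      PX y d ξ i := by
    intro i
    rw [fam_PP y d t₁ kc (fun q => ξ (Sum.inl q)) hkc θ i, ht₁, hθdef]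
    rfl
  have hw1 : ∀ s : N, Polynomial.aeval s (d.w.map (algebraMap k k₁)) = Polynomial.aeval s d.w :=
    fun s => Polynomial.aeval_map_algebraMap _ _ _
  have hSolP : ∀ s v, Sol (bcy k₁ y) (fun i => base1 y d t₁ i + corr1 d kc i)
      (d.w.map (algebraMap k k₁)) θ s v ↔ Polynomial.aeval s d.w ≠ 0 ∧ SolP y (PX y d ξ) s v := by
    intro s v
    unfold Sol SolP
    simp only [hfam, hw1, aeval_tv_bcy]
  have hvind' : ∀ i, AlgebraicIndependent k₁ (vv i) := by
    intro i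
    have : Nontrivial (Fin n) := Fin.nontrivial_iff_two_le.2 (by omega)
    obtain ⟨i', hi'⟩ := exists_ne i
    exact (indep_v (bcy k₁ y) _ _ θ hθ (r i) (vv i) (r i') (vv i')
      ((hSolP _ _).2 ⟨hrw i, hsol i⟩) ((hSolP _ _).2 ⟨hrw i', hsol i'⟩)
      (fun h => hi' (hr h).symm))
  obtain ⟨π, hπ1, hπ2⟩ := main_abs (bcy k₁ y) (fun i => base1 y d t₁ i + corr1 d kc i)
    (d.w.map (algebraMap k k₁)) θ hθ hθF n hn r hr vv
    (fun i => (hSolP _ _).2 ⟨hrw i, hsol i⟩)
    (fun s v hsv => hall s v ((hSolP _ _).1 hsv).2 ((hSolP _ _).1 hsv).1) τN c₁ c₂ hcc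
    (hjinj (by rw [hτN', hτ1])) (hjinj (by rw [hτN', hτ2]))
    (fun g => hjinj (by rw [hτN', hτN', hτ3]))
    (fun i hi1 hi2 => ⟨hjinj (by rw [hτN', (hτ4 i hi1 hi2).1]),
      fun g => hjinj (by rw [hτN', (hτ4 i hi1 hi2).2])⟩)
  refine ⟨r, vv, hr, hrw, hsol, fun i => (hvind' i).injective, ?_, ?_⟩
  · intro s v hs hsw
    obtain ⟨i, rfl⟩ := hall s v hs hsw
    obtain ⟨g, hg⟩ := unique_v (bcy k₁ y) (fun i => base1 y d t₁ i + corr1 d kc i)
      (d.w.map (algebraMap k k₁)) θ (r i) (vv i) v (hvind' i)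
      ((hSolP _ _).2 ⟨hrw i, hsol i⟩) ((hSolP _ _).2 ⟨hsw, hs⟩)
    exact ⟨i, rfl, g, hg⟩
  · intro x hx
    obtain ⟨γ, rfl⟩ := hπ1 x hx
    let σ : N ≃ₐ[k] N := γ.restrictScalars k
    have hσF : ∀ f : F, σ (algebraMap F N f) = algebraMap F N f := fun f => γ.commutes f
    refine ⟨σ, fun v => ?_, fun i => hπ2 γ i⟩
    rcases v with q | (u | i)
    · have h1 : ξ (Sum.inl q) = algebraMap F N (algebraMap k₁ F (Ye q)) := by
        rw [← IsScalarTower.algebraMap_apply k₁ F N, hYe]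
      rw [h1, hσF]
    · have h1 : ξ (Sum.inr (Sum.inl u)) = algebraMap F N (algebraMap k₁ F t₁) := by
        rw [← IsScalarTower.algebraMap_apply k₁ F N, ht₁]
      rw [h1, hσF]
    · have h1 : ξ (Sum.inr (Sum.inr i)) = θ i := by rw [hθdef]
      rw [h1, hθF, hσF]


end geob

end Pool.Agent.H391R2.T4.IGW
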