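import Mathlib
import Pool.Agent.H84.L.S8_H391R2_NtA
import Pool.Agent.H84.L.S8_H391R2_NtC

namespace Pool.Agent.H391R2
end Pool.Agent.H391R2


set_option autoImplicit false

/-!
Semilinear comparison of two places.
-/

namespace Pool.Agent.R367.IG

open Pool.Agent.H391R2

section geo

variable {K C : Type} [Field K] [CommRing C] [Algebra (Polynomial K) C]
  {H : Type} [Group H] [Finite H] [MulSemiringAction H C]
  [SMulCommClass H (Polynomial K) C]
  [Algebra.IsInvariant (Polynomial K) C H]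
  {G : Type} [Group G] [Fintype G] {D : ℕ}

/- The property of the labelling. -/
def IsCl (cl : (G → K) → Abelianization G) : Prop :=
  ∀ v : G → K, (∀ g : G, v ∘ Equiv.mulLeft g = v → g = 1) → ∀ g : G,
    cl (v ∘ Equiv.mulLeft g) = cl v * Abelianization.of g

omit [Field K] [Fintype G] in
theorem comp_mulLeft (w : G → K) (g h : G) : (w ∘ Equiv.mulLeft g) ∘ Equiv.mulLeft h =
    w ∘ Equiv.mulLeft (g * h) := by
  funext x
  simp [mul_assoc]

omit [Field K] [Fintype G] in
theorem free_mulLeft (w : G → K) (g' : G) (hw : ∀ g : G, w ∘ Equiv.mulLeft g = w → g = 1)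
    (g : G) (hg : (w ∘ Equiv.mulLeft g') ∘ Equiv.mulLeft g = w ∘ Equiv.mulLeft g') : g = 1 := by
  rw [comp_mulLeft] at hg
  have h1 := congrArg (fun z : G → K => z ∘ Equiv.mulLeft g'⁻¹) hg
  simp only [comp_mulLeft, mul_inv_cancel] at h1
  have h2 : w ∘ Equiv.mulLeft (1 : G) = w := by
    funext x
    simp
  rw [h2] at h1
  have h3 := hw _ h1
  have h4 : g = g'⁻¹ * (g' * g * g'⁻¹) * g' := by group
  rw [h4, h3]
  group

/- The twisted function. -/
def tws (γ : K →+* K) (α : MulAut G) (w : G → K) : G → K := fun y => γ (w (α⁻¹ y))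

omit [Fintype G] in
theorem tws_mulLeft (γ : K →+* K) (α : MulAut G) (w : G → K) (g : G) :
    tws γ α (w ∘ Equiv.mulLeft g) = tws γ α w ∘ Equiv.mulLeft (α g) := by
  funext y
  simp only [tws, Function.comp_apply, Equiv.coe_mulLeft, map_mul, MulAut.inv_apply_self]

omit [Fintype G] in
theorem tws_free (γ : K →+* K) (α : MulAut G) (w : G → K)
    (hw : ∀ g : G, w ∘ Equiv.mulLeft g = w → g = 1) (g : G)
    (hg : tws γ α w ∘ Equiv.mulLeft g = tws γ α w) : g = 1 := by
  have h1 : tws γ α (w ∘ Equiv.mulLeft (α⁻¹ g)) = tws γ α w := by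
    rw [tws_mulLeft, MulAut.apply_inv_self]
    exact hg
  have h2 : w ∘ Equiv.mulLeft (α⁻¹ g) = w := by
    funext x
    have h3 := congrFun h1 (α x)
    simp only [tws, MulAut.inv_apply_self] at h3
    exact γ.injective h3
  have h3 := hw _ h2
  have h4 : α (α⁻¹ g) = α 1 := by rw [h3]
  rwa [MulAut.apply_inv_self, map_one] at h4

/- The automorphism of the abelianization. -/
noncomputable def abm (α : MulAut G) : Abelianization G →* Abelianization G :=
  Abelianization.map (α : G →* G)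

omit [Fintype G] in
theorem abm_of (α : MulAut G) (g : G) : abm α (Abelianization.of g) = Abelianization.of (α g) :=
  rfl

omit [Fintype G] in
/- Comparison of two places, semilinear version. -/
theorem arithS [Infinite K] {CC : Type} [CommRing CC] [Algebra (Polynomial K) CC]
    (cl : (G → K) → Abelianization G) (hcl : IsCl cl)
    (v : Fin D → G → C) (σ : H → Equiv.Perm (Fin D)) (f : H → Fin D → G)
    (hH : ∀ h a g, h • v a g = v (σ h a) (f h a * g))
    (hgeo : ∀ h, ∏ a, Abelianization.of (f h a) = 1)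
    (γ : K →+* K) (α : MulAut G) (ι δ : C →+* CC)
    (hι : ∀ p, ι (algebraMap (Polynomial K) C p) = algebraMap (Polynomial K) CC p)
    (hδ : ∀ p, δ (algebraMap (Polynomial K) C p) = algebraMap (Polynomial K) CC (p.map γ))
    (vv : Fin D → G → CC) (hvv : ∀ a g, ι (v a g) = vv a g)
    (σd : Equiv.Perm (Fin D)) (fd : Fin D → G) (hd : ∀ a g, δ (v a g) = vv (σd a) (fd a * α g))
    (φ₀ φ₁ : CC →+* K) (h₀ : ∀ p, φ₀ (algebraMap (Polynomial K) CC p) = p.eval 0)
    (h₁ : ∀ p, φ₁ (algebraMap (Polynomial K) CC p) = p.eval 1)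
    (hs₀ : ∀ (a : Fin D) (g : G),
      (fun y => φ₀ (vv a y)) ∘ Equiv.mulLeft g = (fun y => φ₀ (vv a y)) → g = 1)
    (hb₀ : ∏ a, cl (tws γ α (fun y => φ₀ (vv a y))) = abm α (∏ a, cl (fun y => φ₀ (vv a y))))
    (u : Fin D → G → K) (τ : Equiv.Perm (Fin D)) (e : Fin D → G)
    (hu : ∀ a y, φ₁ (vv a y) = u (τ a) (e a * y))
    (hsu : ∀ (a : Fin D) (g : G), u a ∘ Equiv.mulLeft g = u a → g = 1)
    (σ₁ : Equiv.Perm (Fin D)) (f₁ : Fin D → G)
    (hγ₁ : ∀ a g, γ (u a g) = u (σ₁ a) (f₁ a * α g)) :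
    ∏ a, Abelianization.of (f₁ a) =
      abm α ((∏ a, cl (fun y => φ₀ (vv a y))) * (∏ a, Abelianization.of (e a))⁻¹) *
      ((∏ a, cl (fun y => φ₀ (vv a y))) * (∏ a, Abelianization.of (e a))⁻¹)⁻¹ := by
  classical
  have hcls : ∀ (w : Fin D → G → K) (s : Equiv.Perm (Fin D)) (q : Fin D → G),
      (∀ (a : Fin D) (g : G), w a ∘ Equiv.mulLeft g = w a → g = 1) →
      ∏ a, cl (w (s a) ∘ Equiv.mulLeft (q a)) = (∏ a, cl (w a)) * ∏ a, Abelianization.of (q a) := by
    intro w s q hw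
    rw [Finset.prod_congr rfl (fun a _ => hcl _ (hw (s a)) (q a)), Finset.prod_mul_distrib]
    congr 1
    exact Equiv.prod_comp s (fun a => cl (w a))
  have hev : ∀ (x : K), γ x = x → ∀ p : Polynomial K, γ (p.eval x) = (p.map γ).eval x := by
    intro x hx p
    rw [← Polynomial.eval_map_apply, hx]
  have hab : ∀ q : Fin D → G, ∏ a, Abelianization.of (α (q a)) =
      abm α (∏ a, Abelianization.of (q a)) := by
    intro q
    rw [map_prod]
    rfl
  -- at zero
  have hd1 : (∏ a, cl (fun y => φ₀ (vv a y))) * ∏ a, Abelianization.of (fd a) =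
      abm α (∏ a, cl (fun y => φ₀ (vv a y))) := by
    obtain ⟨h, hh⟩ := place_trans (H := H) ((γ.comp φ₀).comp ι) (φ₀.comp δ) (fun p => by
      simp only [RingHom.comp_apply]
      rw [hι, hδ, h₀, h₀, hev 0 (map_zero γ)])
    simp only [RingHom.comp_apply] at hh
    have e1 : ∏ a, cl (fun y => φ₀ (δ (v a (α⁻¹ y)))) =
        (∏ a, cl (fun y => φ₀ (vv a y))) * ∏ a, Abelianization.of (fd a) := by
      rw [← hcls (fun a y => φ₀ (vv a y)) σd fd hs₀]
      refine Finset.prod_congr rfl fun a _ => ?_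
      congr 1
      funext y
      rw [hd, MulAut.apply_inv_self]
      rfl
    have e2 : ∏ a, cl (fun y => φ₀ (δ (v a (α⁻¹ y)))) =
        (∏ a, cl (tws γ α (fun y => φ₀ (vv a y)))) *
          ∏ a, Abelianization.of (α (f h a)) := by
      rw [← hcls (fun a => tws γ α (fun y => φ₀ (vv a y))) (σ h) (fun a => α (f h a))
        (fun a g hg => tws_free γ α _ (hs₀ a) g hg)]
      refine Finset.prod_congr rfl fun a _ => ?_
      congr 1
      rw [← tws_mulLeft]
      funext y
      rw [hh, hH, hvv]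
      rfl
    rw [e1, hab, hgeo, map_one, mul_one, hb₀] at e2
    exact e2
  -- at one
  obtain ⟨h, hh⟩ := place_trans (H := H) ((γ.comp φ₁).comp ι) (φ₁.comp δ) (fun p => by
    simp only [RingHom.comp_apply]
    rw [hι, hδ, h₁, h₁, hev 1 (map_one γ)])
  simp only [RingHom.comp_apply] at hh
  have hs₁ : ∀ (a : Fin D) (g : G),
      (fun y => φ₁ (vv a y)) ∘ Equiv.mulLeft g = (fun y => φ₁ (vv a y)) → g = 1 := by
    intro a g hg
    have e0 : (fun y => φ₁ (vv a y)) = u (τ a) ∘ Equiv.mulLeft (e a) := by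
      funext y
      rw [hu]
      rfl
    rw [e0] at hg
    exact free_mulLeft _ _ (hsu (τ a)) g hg
  have e1 : ∏ a, cl (fun y => φ₁ (δ (v a (α⁻¹ y)))) =
      (∏ a, cl (fun y => φ₁ (vv a y))) * ∏ a, Abelianization.of (fd a) := by
    rw [← hcls (fun a y => φ₁ (vv a y)) σd fd hs₁]
    refine Finset.prod_congr rfl fun a _ => ?_
    congr 1
    funext y
    rw [hd, MulAut.apply_inv_self]
    rfl
  have e2 : ∏ a, cl (fun y => φ₁ (δ (v a (α⁻¹ y)))) =
      (∏ a, cl (tws γ α (fun y => φ₁ (vv a y)))) * ∏ a, Abelianization.of (α (f h a)) := by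
    rw [← hcls (fun a => tws γ α (fun y => φ₁ (vv a y))) (σ h) (fun a => α (f h a))
      (fun a g hg => tws_free γ α _ (hs₁ a) g hg)]
    refine Finset.prod_congr rfl fun a _ => ?_
    congr 1
    rw [← tws_mulLeft]
    funext y
    rw [hh, hH, hvv]
    rfl
  have e3 : ∏ a, cl (fun y => φ₁ (vv a y)) =
      (∏ a, cl (u a)) * ∏ a, Abelianization.of (e a) := by
    rw [← hcls u τ e hsu]
    refine Finset.prod_congr rfl fun a _ => ?_
    congr 1
    funext y
    rw [hu]
    rfl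
  have e4 : ∏ a, cl (tws γ α (fun y => φ₁ (vv a y))) =
      (∏ a, cl (u a)) * ∏ a, Abelianization.of (f₁ (τ a) * α (e a)) := by
    rw [← hcls u (σ₁ * τ) (fun a => f₁ (τ a) * α (e a)) hsu]
    refine Finset.prod_congr rfl fun a _ => ?_
    congr 1
    funext y
    rw [tws, hu, hγ₁, map_mul, MulAut.apply_inv_self]
    simp [mul_assoc]
  rw [e1, hab, hgeo, map_one, mul_one, e3, e4] at e2
  simp only [map_mul, Finset.prod_mul_distrib] at e2
  rw [Equiv.prod_comp τ (fun a => Abelianization.of (f₁ a)), hab] at e2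
  generalize (∏ a, Abelianization.of (f₁ a)) = F₁ at e2 ⊢
  generalize (∏ a, Abelianization.of (e a)) = E₁ at e2 ⊢
  generalize (∏ a, cl (u a)) = U at e2
  generalize (∏ a, Abelianization.of (fd a)) = Fd at e2 hd1
  generalize (∏ a, cl (fun y => φ₀ (vv a y))) = H₀ at hd1 ⊢
  rw [mul_assoc] at e2
  have e5 := mul_left_cancel e2
  rw [map_mul, map_inv, ← hd1]
  have e6 : F₁ = E₁ * Fd * (abm α E₁)⁻¹ := by
    rw [e5, mul_inv_cancel_right]
  rw [e6, mul_inv_rev, inv_inv]
  calc E₁ * Fd * (abm α E₁)⁻¹ = E₁ * Fd * (abm α E₁)⁻¹ * (H₀ * H₀⁻¹) := by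
        rw [mul_inv_cancel, mul_one]
    _ = H₀ * Fd * (abm α E₁)⁻¹ * (E₁ * H₀⁻¹) := by
        ac_rfl

end geo

end Pool.Agent.R367.IG
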