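import Mathlib
import Pool.Agent.H84.L.S8_H391R2_NtB
import Pool.Agent.H84.L.S8_H391R2_NtS
import Pool.Agent.H84.L.S8_H391R2_T4_NtF
import Pool.Agent.H84.L.S8_H391R2_T4_NtS
import Pool.Agent.H84.L.S8_H391R2_T4_Phi
import Pool.Agent.H84.L.S8_H391R2_T4_Sol
import Pool.Agent.H84.L.S8_H391R2_WrSol
import Pool.Agent.H84.L.S8_H391R2_WrSym
import Pool.Agent.H84.L.S8_R367_IG_SLA
import Pool.Agent.H84.L.S8_R367_IG_SLB
import Pool.Agent.H84.L.S8_R367_IG_SLC
import Pool.Agent.H84.L.S8_R367_IG_SLD

namespace Pool.Agent.H391R2
end Pool.Agent.H391R2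
namespace Pool.Agent.H391R2.T4
end Pool.Agent.H391R2.T4


set_option autoImplicit false

/-!
The semilinear class equation.
-/

namespace Pool.Agent.R367.IG

open MvPolynomial Pool.Agent.H391R2 Pool.Agent.H391R2.T4

set_option linter.unusedSectionVars false

section ntf

variable {k : Type} [Field k] {G : Type} [Group G] [Fintype G] (y : MvPolynomial G k)

theorem path_semi (base corr : Option (Fin (Fintype.card G)) → Polynomial k)
    (w : Polynomial k) {E : Type} [CommRing E] [Algebra k E] (g : E →+* E) (f₀ : k →+* k)
    (hg : g.comp (algebraMap k E) = (algebraMap k E).comp f₀)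
    (hb : ∀ i, (base i).map f₀ = base i) (hc : ∀ i, (corr i).map f₀ = corr i)
    (hw : w.map f₀ = w)
    (θ : Option (Fin (Fintype.card G)) ⊕ Option (Fin (Fintype.card G)) → E) (x : E)
    (hθ : ∀ i, g (θ i) = θ i) (hx : g x = x) (i : Option (Fin (Fintype.card G))) :
    (path base corr w θ x i).map g = path base corr w θ x i := by
  have e1 : ∀ p : Polynomial k, p.map f₀ = p →
      (p.map (algebraMap k E)).map g = p.map (algebraMap k E) := by
    intro p hp
    rw [Polynomial.map_map, hg, ← Polynomial.map_map, hp]
  simp only [path, Polynomial.map_add, Polynomial.map_mul, Polynomial.map_C, Polynomial.map_X,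
    map_mul, map_sub, map_one, Polynomial.map_sub, Polynomial.map_one, e1 _ (hb i), e1 _ (hc i),
    e1 _ hw, hθ, hx]

theorem class_eqS [CharZero k] [YData y] (hm3 : 3 ≤ Fintype.card G)
    (Ψ : Polynomial (MvPolynomial (Fin (Fintype.card G)) k))
    (hΨ : Ψ.map ((aeval fun i : Fin (Fintype.card G) => esymm G k (i + 1) :
      MvPolynomial (Fin (Fintype.card G)) k →ₐ[k] MvPolynomial G k) :
      MvPolynomial (Fin (Fintype.card G)) k →+* MvPolynomial G k) =
      ∏ q ∈ orb y, (Polynomial.X - Polynomial.C q))
    (base corr : Option (Fin (Fintype.card G)) → Polynomial k) (w : Polynomial k) {n J : ℕ}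
    (c₀ : k) (hc₀ : c₀ ≠ 0)
    (hdeg : ∀ (E : Type) [Field E] [Algebra k E]
      (θ : Option (Fin (Fintype.card G)) ⊕ Option (Fin (Fintype.card G)) → E) (x : E),
      (PhiP Ψ (path base corr w θ x)).natDegree = n + J ∧
        (PhiP Ψ (path base corr w θ x)).leadingCoeff = algebraMap k E c₀)
    (z : Fin J → k) (hz : Function.Injective z) (hwz : ∀ a, Polynomial.aeval (z a) w = 0)
    (hw : ∀ (E : Type) [Field E] [Algebra k E] (s : E), Polynomial.aeval s w = 0 →
      ∃ a, s = algebraMap k E (z a))
    (l : G → k) (hl : Function.Injective l)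
    (hbase : ∀ i : Fin (Fintype.card G), base (some i) =
      Polynomial.C (aeval l (esymm G k (i + 1))))
    (hsepl : ∀ q ∈ orb y, ∀ q' ∈ orb y, aeval l q = aeval l q' → q = q')
    (M : ℕ) (hM0 : 0 < M) (hbM : (base none).natDegree = M) (hcM : Fintype.card G ∣ M)
    {N : Type} [Field N] [Algebra k N]
    (θ : Option (Fin (Fintype.card G)) ⊕ Option (Fin (Fintype.card G)) → N)
    (hθ : AlgebraicIndependent k θ) (hn : 2 ≤ n)
    (r : Fin n → N) (hr : Function.Injective r) (vv : Fin n → G → N)
    (hsol : ∀ i, Sol y (fun i => base i + corr i) w θ (r i) (vv i))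
    (ν : Fin J → G → N) (hν : ∀ a, SolP y (fun i => (base i + corr i).map (algebraMap k N))
      (algebraMap k N (z a)) (ν a))
    (hνinj : ∀ a, Function.Injective (ν a))
    (hνy : ∀ a (π : Equiv.Perm G), aeval (ν a ∘ π) y = aeval (ν a) y →
      ∃ g : G, π = Equiv.mulLeft g) :
    ∃ E : Abelianization G, ∀ (f₀ : k →+* k) (γ : N →+* N) (α : MulAut G),
      (∀ a, γ (algebraMap k N a) = algebraMap k N (f₀ a)) →
      rename α (MvPolynomial.map f₀ y) = y →
      (∀ i, (base i).map f₀ = base i) → (∀ i, (corr i).map f₀ = corr i) → w.map f₀ = w →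
      (∀ i, γ (θ i) = θ i) →
      ∀ (σ : Equiv.Perm (Fin n)) (f : Fin n → G), (∀ i g, γ (vv i g) = vv (σ i) (f i * α g)) →
      ∀ (e : Fin J → G), (∀ a y, γ (ν a y) = ν a (e a * α y)) →
      (∏ i, Abelianization.of (f i)) * ∏ a, Abelianization.of (e a) = abm α E * E⁻¹ := by
  classical
  have hcN : CharZero N := charZero_of_injective_algebraMap (algebraMap k N).injective
  let K := AlgebraicClosure N
  have hcK : CharZero K := charZero_of_injective_algebraMap (algebraMap N K).injective
  let ι : N →ₐ[k] K := IsScalarTower.toAlgHom k N K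
  have hι : ∀ x, ι x = algebraMap N K x := fun x => rfl
  have hιinj : Function.Injective ι := ι.injective
  let θK : Option (Fin (Fintype.card G)) ⊕ Option (Fin (Fintype.card G)) → K := fun i => ι (θ i)
  have hθK : AlgebraicIndependent k θK := hθ.map' hιinj
  let P : Option (Fin (Fintype.card G)) → Polynomial (Polynomial K) := fun i =>
    path base corr w (fun i => Polynomial.C (θK i)) Polynomial.X i
  have hPe : ∀ x : K, (fun i => (P i).map (Polynomial.evalRingHom x)) =
      path base corr w θK x := by
    intro x
    funext i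
    let ev : Polynomial K →ₐ[k] K := (Polynomial.aeval (x : K)).restrictScalars k
    have h4 : (ev : Polynomial K →+* K) = Polynomial.evalRingHom x := by
      apply RingHom.ext
      intro p
      change Polynomial.aeval x p = _
      rw [Polynomial.coe_aeval_eq_eval]
      rfl
    have h1 := path_map base corr w ev (fun i => Polynomial.C (θK i)) Polynomial.X i
    rw [h4] at h1
    rw [h1]
    have h5 : (ev ∘ fun i => Polynomial.C (θK i)) = θK := by
      funext i
      change Polynomial.aeval x (Polynomial.C (θK i)) = _
      simp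
    have h6 : ev Polynomial.X = x := by
      change Polynomial.aeval x Polynomial.X = x
      simp
    rw [h5, h6]
  -- degree
  have hdegP : (PhiP Ψ P).natDegree = n + J ∧
      (PhiP Ψ P).leadingCoeff = Polynomial.C (algebraMap k K c₀) := by
    let R := FractionRing (Polynomial K)
    have hinj : Function.Injective (algebraMap (Polynomial K) R) :=
      IsFractionRing.injective (Polynomial K) R
    let iR : Polynomial K →ₐ[k] R := IsScalarTower.toAlgHom k (Polynomial K) R
    have h1 := PhiP_map Ψ iR P
    have h2 : (fun i => (P i).map (iR : Polynomial K →+* R)) =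
        path base corr w (fun i => iR (Polynomial.C (θK i))) (iR Polynomial.X) := by
      funext i
      exact path_map base corr w iR _ _ i
    rw [h2] at h1
    obtain ⟨h3, h4⟩ := hdeg R (fun i => iR (Polynomial.C (θK i))) (iR Polynomial.X)
    rw [← h1] at h3 h4
    have hinj' : Function.Injective (iR : Polynomial K →+* R) := hinj
    refine ⟨?_, ?_⟩
    · rwa [Polynomial.natDegree_map_eq_of_injective hinj'] at h3
    · rw [Polynomial.leadingCoeff_map_of_injective hinj'] at h4
      apply hinj'
      rw [h4]
      exact (iR.commutes c₀).symm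
  -- base solutions
  have hbaseK : ∀ (s : K) (v : G → K), SolP y (fun i => (base i).map (algebraMap k K)) s v →
      ∃ π : Equiv.Perm G, v = fun g => algebraMap k K (l (π g)) := by
    intro s v h
    obtain ⟨π, hπ⟩ := exists_perm_of_esymm (k := k) (fun g => algebraMap k K (l g)) v (fun i => by
      have h3 := h (some i)
      change aeval v (esymm G k (i + 1)) =
        Polynomial.eval s ((base (some i)).map (algebraMap k K)) at h3
      rw [h3, hbase, Polynomial.map_C, Polynomial.eval_C]
      have h2 := comp_aeval_apply (f := l) (φ := Algebra.ofId k K) (esymm G k (i + 1))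
      exact h2.symm)
    exact ⟨π, hπ⟩
  have hbaseinj : ∀ (s : K) (v : G → K), SolP y (fun i => (base i).map (algebraMap k K)) s v →
      Function.Injective v := by
    intro s v h
    obtain ⟨π, rfl⟩ := hbaseK s v h
    exact (algebraMap k K).injective.comp (hl.comp π.injective)
  -- base points at one
  have hνK : ∀ a, SolP y (fun i => (base i + corr i).map (algebraMap k K))
      (algebraMap k K (z a)) (fun g => ι (ν a g)) := by
    intro a
    have h1 := SolP_map y ι _ _ _ (hν a)
    have h2 : (fun i => ((base i + corr i).map (algebraMap k N)).map (ι : N →+* K)) =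
        fun i => (base i + corr i).map (algebraMap k K) := by
      funext i
      rw [Polynomial.map_map]
      congr 1
    rw [h2] at h1
    have h3 : ι (algebraMap k N (z a)) = algebraMap k K (z a) := ι.commutes _
    rw [h3] at h1
    exact h1
  have hνKy : ∀ a (π : Equiv.Perm G), aeval ((fun g => ι (ν a g)) ∘ π) y =
      aeval (fun g => ι (ν a g)) y → ∃ g : G, π = Equiv.mulLeft g := by
    intro a π h
    apply hνy a π
    apply hιinj
    have h1 := comp_aeval_apply (f := ν a ∘ π) (φ := ι) y
    have h2 := comp_aeval_apply (f := ν a) (φ := ι) y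
    rw [h1, h2]
    exact h
  have hstabw : ∀ (s : K) (v : G → K), Polynomial.aeval s w = 0 →
      SolP y (fun i => (base i + corr i).map (algebraMap k K)) s v → Function.Injective v := by
    intro s v hs h
    obtain ⟨a, rfl⟩ := hw K s hs
    obtain ⟨g, rfl⟩ := uniq_of_y0 y _ _ _ _ (hνK a) h (hνKy a)
    exact (hιinj.comp (hνinj a)).comp (Equiv.mulLeft g).injective
  -- enumeration
  let E := (finSumFinEquiv : Fin n ⊕ Fin J ≃ Fin (n + J))
  let t : Fin (n + J) → K := fun a => Sum.elim (fun i => ι (r i)) (fun a => algebraMap k K (z a))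
    (E.symm a)
  let u : Fin (n + J) → G → K := fun a => Sum.elim (fun i g => ι (vv i g)) (fun a g => ι (ν a g))
    (E.symm a)
  have hpath1 : path base corr w θK 1 = fun i => fam G (fun i => base i + corr i) w θK i := by
    funext i
    exact path_one base corr w θK i
  have hsolK : ∀ i, Sol y (fun i => base i + corr i) w θK (ι (r i)) (fun g => ι (vv i g)) := by
    intro i
    exact (Sol_map y (fun i => base i + corr i) w ι hιinj θ (r i) (vv i)).2 (hsol i)
  have hrz : ∀ i a, ι (r i) ≠ algebraMap k K (z a) := by
    intro i a h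
    apply (hsolK i).1
    rw [h, Polynomial.aeval_algebraMap_apply, hwz, map_zero]
  have hE : ∀ a, ∃ b, a = E b := fun a => ⟨E.symm a, (E.apply_symm_apply a).symm⟩
  have htE : ∀ b, t (E b) = Sum.elim (fun i => ι (r i)) (fun a => algebraMap k K (z a)) b := by
    intro b
    simp only [t, Equiv.symm_apply_apply]
  have huE : ∀ b, u (E b) = Sum.elim (fun i g => ι (vv i g)) (fun a g => ι (ν a g)) b := by
    intro b
    simp only [u, Equiv.symm_apply_apply]
  have hvind : ∀ i, AlgebraicIndependent k (fun g => ι (vv i g)) := by
    intro i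
    obtain ⟨j, hj⟩ : ∃ j : Fin n, j ≠ i := by
      have : Nontrivial (Fin n) := Fin.nontrivial_iff_two_le.2 hn
      exact exists_ne i
    exact indep_v y (fun i => base i + corr i) w θK hθK (ι (r i)) _ (ι (r j)) _ (hsolK i) (hsolK j)
      (fun h => hj (hr (hιinj h)).symm)
  obtain ⟨cl, hcl⟩ := exists_cl (G := G) (K := K)
  obtain ⟨Eab, hmain⟩ := norm_theoremS y Ψ hΨ P (D := n + J) (algebraMap k K c₀)
    ((map_ne_zero_iff _ (algebraMap k K).injective).2 hc₀) hdegP.1 hdegP.2
    (fun x s v h g hg => by
      rw [hPe x] at h
      exact stab_path y hm3 base corr w θK hθK (fun s hs => by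
        obtain ⟨a, ha⟩ := hw K s hs
        exact ⟨z a, ha⟩) hbaseinj hstabw x s v h g hg)
    cl hcl
    t (by
      intro a b hab
      obtain ⟨a, rfl⟩ := hE a
      obtain ⟨b, rfl⟩ := hE b
      rw [htE, htE] at hab
      congr 1
      rcases a with a | a <;> rcases b with b | b
      · exact congrArg _ (hr (hιinj hab))
      · exact absurd hab (hrz a b)
      · exact absurd hab.symm (hrz b a)
      · exact congrArg _ (hz ((algebraMap k K).injective hab)))
    u (by
      intro a
      obtain ⟨a, rfl⟩ := hE a
      rw [htE, huE, hPe 1, hpath1]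
      rcases a with a | a
      · exact (hsolK a).2
      · intro i
        rw [Sum.elim_inr, Sum.elim_inr, hνK a i, fam_eval, Polynomial.aeval_algebraMap_apply _ _ w,
          hwz, map_zero, zero_mul, add_zero]
        rw [Polynomial.eval_map_algebraMap])
    (by
      intro a
      obtain ⟨a, rfl⟩ := hE a
      rw [huE]
      rcases a with a | a
      · exact (hvind a).injective
      · exact hιinj.comp (hνinj a))
    (by
      intro a v h
      obtain ⟨a, rfl⟩ := hE a
      rw [htE, hPe 1, hpath1] at h
      rw [huE]
      rcases a with a | a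
      · exact unique_v y (fun i => base i + corr i) w θK (ι (r a)) _ v (hvind a) (hsolK a)
          ⟨(hsolK a).1, h⟩
      · refine uniq_of_y0 y (fun i => (base i + corr i).map (algebraMap k K))
          (algebraMap k K (z a)) _ v (hνK a) ?_ (hνKy a)
        intro i
        have h1 := h i
        rw [Sum.elim_inr, fam_eval, Polynomial.aeval_algebraMap_apply _ _ w,
          hwz, map_zero, zero_mul, add_zero] at h1
        rw [h1, Polynomial.eval_map_algebraMap])
  refine ⟨Eab, fun f₀ γ α hγk hyα hbf hcf hwf hγθ σ f hγ e hγν => ?_⟩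
  -- extension of the automorphism
  obtain ⟨γK, hγK⟩ := exists_ext (F := N) (E := K) ((algebraMap N K).comp γ)
  have hγK' : ∀ x : N, γK (algebraMap N K x) = algebraMap N K (γ x) := hγK
  have hγKk : ∀ a, γK (algebraMap k K a) = algebraMap k K (f₀ a) := by
    intro a
    rw [IsScalarTower.algebraMap_apply k N K, hγK', hγk, ← IsScalarTower.algebraMap_apply k N K]
  let f' : Fin (n + J) → G := fun a => Sum.elim f e (E.symm a)
  let σ' : Equiv.Perm (Fin (n + J)) := E.symm.trans ((Equiv.sumCongr σ (Equiv.refl _)).trans E)
  have hfE : ∀ b, f' (E b) = Sum.elim f e b := by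
    intro b
    simp only [f', Equiv.symm_apply_apply]
  have hσE : ∀ b, σ' (E b) = E (Equiv.sumCongr σ (Equiv.refl _) b) := by
    intro b
    simp only [σ', Equiv.trans_apply, Equiv.symm_apply_apply]
  have hfin := hmain f₀ γK α hγKk hyα (fun i => by
      have h3 : ((Polynomial.mapRingHom γK) ∘ fun i => Polynomial.C (θK i)) =
          fun i => Polynomial.C (θK i) := by
        funext i
        change (Polynomial.C (θK i)).map γK = _
        rw [Polynomial.map_C]
        congr 1
        change γK (algebraMap N K (θ i)) = _
        rw [hγK', hγθ]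
        rfl
      have h4 : (Polynomial.mapRingHom γK) Polynomial.X = (Polynomial.X : Polynomial K) := by
        change (Polynomial.X).map γK = _
        rw [Polynomial.map_X]
      have h5 : (Polynomial.mapRingHom γK).comp (algebraMap k (Polynomial K)) =
          (algebraMap k (Polynomial K)).comp f₀ := by
        apply RingHom.ext
        intro a
        change (algebraMap k (Polynomial K) a).map γK = algebraMap k (Polynomial K) (f₀ a)
        rw [Polynomial.algebraMap_apply, Polynomial.map_C, Polynomial.algebraMap_apply]
        congr 1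
        exact hγKk a
      change (path base corr w (fun i => Polynomial.C (θK i)) Polynomial.X i).map _ = _
      exact path_semi base corr w (Polynomial.mapRingHom γK) f₀ h5 hbf hcf hwf _ _
        (fun i => congrFun h3 i) h4 i)
    (baseC_of y Ψ hΨ P base (by
      rw [hPe 0]
      exact funext fun i => path_zero base corr w θK i) l hl hbase hsepl M hM0 hbM hcM _
      ((map_ne_zero_iff _ (algebraMap k K).injective).2 hc₀) _ cl hcl γK α)
    σ' f' (by
      intro a g
      obtain ⟨a, rfl⟩ := hE a
      rw [hσE, huE, huE, hfE]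
      rcases a with a | a
      · change γK (algebraMap N K (vv a g)) = algebraMap N K (vv (σ a) (f a * α g))
        rw [hγK', hγ]
      · change γK (algebraMap N K (ν a g)) = algebraMap N K (ν a (e a * α g))
        rw [hγK', hγν])
  rw [← Equiv.prod_comp E, Fintype.prod_sum_type] at hfin
  simp only [hfE, Sum.elim_inl, Sum.elim_inr] at hfin
  exact hfin

end ntf

end Pool.Agent.R367.IG
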