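import Mathlib
import Pool.Agent.H84.L.A6_H789_NK_Defs
import Pool.Agent.H84.L.A6_H789_NK_Nrm
import Pool.Agent.H84.L.S8_H391R2_T4_Gp
import Pool.Agent.H84.L.S8_H391R2_T4_Nod
import Pool.Agent.H84.L.S8_H391R2_T4_Red
import Pool.Agent.H84.L.S8_H391R2_T4_Sem
import Pool.Agent.H84.L.S8_H391R2_WrGrp
import Pool.Agent.H84.L.S8_R367_IG_Nod
import Pool.Agent.H84.L.S8_R367_IG_RegL
import Pool.Agent.H84.L.S8_R367_IG_Sem
import Pool.Agent.H84.L.S8_TH15_IGP_TwT
import Pool.Agent.H84.L.S8_TH444_TW_Luro
import Pool.Agent.H84.L.S8_TH444_TW_RSK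
import Pool.Agent.H84.L.S8_W200_IG_Fam
import Pool.Agent.H84.L.S8_W200_IJ_SA

namespace Pool.Agent.H391R2
end Pool.Agent.H391R2
namespace Pool.Agent.H391R2.T4
end Pool.Agent.H391R2.T4
namespace Pool.Agent.R367.IG
end Pool.Agent.R367.IG
namespace Pool.Agent.TH15.IGP
end Pool.Agent.TH15.IGP
namespace Pool.Agent.TH444.TW
end Pool.Agent.TH444.TW


/-!
# Solutions for the class with norm-one kernels
-/

set_option autoImplicit false

namespace Pool.Agent.H789.NK

open Pool.Agent.H391R2 Pool.Agent.H391R2.T4
open Pool.Agent.R367.IG (NO mem_NO)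
open Pool.Agent.TH444.TW
open Pool.Agent.TH15.IGP (StepSol)

/- The action of `Aut G` on the norm-one subgroup. -/
def noAct (G : Type) [Group G] (n : ℕ) : MulAut G →* MulAut (NormOne G n) where
  toFun c :=
    { toFun := twistN c
      invFun := twistN c⁻¹
      left_inv := fun y => by
        apply Subtype.ext
        apply SemidirectProduct.ext
        · funext i
          change c⁻¹ (c (y.1.left i)) = y.1.left i
          exact MulAut.inv_apply_self G c _
        · rfl
      right_inv := fun y => by
        apply Subtype.ext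
        apply SemidirectProduct.ext
        · funext i
          change c (c⁻¹ (y.1.left i)) = y.1.left i
          exact MulAut.apply_inv_self G c _
        · rfl
      map_mul' := fun a b => by
        apply Subtype.ext
        apply SemidirectProduct.ext
        · funext i
          change c (a.1.left i * b.1.left (a.1.right⁻¹ i)) = _
          rw [map_mul]
          rfl
        · rfl }
  map_one' := by
    apply MulEquiv.ext
    intro y
    rfl
  map_mul' c d := by
    apply MulEquiv.ext
    intro y
    rfl


/- The local problems. -/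
theorem locK_no (k₀ : Type) [Field k₀] [CharZero k₀] (G : Type) [Group G] [Finite G] (n : ℕ)
    (hn : ((3 * Nat.card G + 2).factorial) ^ 3 ≤ n) : LocK k₀ (noAct G n) := by
  intro K' M' _ _ _ _ _ _ _ β
  have hc : CharZero K' := charZero_of_injective_algebraMap (algebraMap k₀ K').injective
  have h := reg_kerL K' M' G β n hn
  let e : NO β n ≃* NormOne G n ⋊[(noAct G n).comp β] (M' ≃ₐ[K'] M') :=
    { toFun := fun z => ⟨⟨z.1.left, z.2⟩, z.1.right⟩
      invFun := fun z => ⟨⟨z.left.1, z.right⟩, z.left.2⟩
      left_inv := fun z => rfl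
      right_inv := fun z => rfl
      map_mul' := fun a b => rfl }
  exact regSol_equiv e _ _ (fun z => rfl) h


end Pool.Agent.H789.NK
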