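import Mathlib
import Pool.Agent.H84.L.S8_H391R2_WrGrp
import Pool.Agent.H84.L.S8_TH444_TW_ClsDef
import Pool.Agent.H84.L.S8_Y60_DC_Def

namespace Pool.Agent.H391R2
end Pool.Agent.H391R2
namespace Pool.Agent.TH444.TW
end Pool.Agent.TH444.TW
namespace Pool.Agent.Y60.DC
end Pool.Agent.Y60.DC


/-!
# Unitary groups of finite rings of characteristic `p`, and a class of homomorphisms of groups

* `Connected p b`: the element `b` of the ring with involution `R` lies in the connected component
  of `1` in the unitary group of `R`.
* `IsU0 p R ι`: the group `N` is identified by `ι` with the group `U⁰(R)` of all unitary elements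
  of `R` which are connected to `1`. Examples: `GL_n(q)` and all unit groups of finite rings `A`
  (`R = A × Aᵒᵖ`), `Sp_2n(q)` (`R` = the matrices of size `2n` over `F_q` with the symplectic
  involution).
* `Factor p T`: the simple groups `T` which are allowed as composition factors of kernels.
* `Step p K`: the class of homomorphisms.
-/

set_option autoImplicit false

open TensorProduct
open Pool.Agent.H391R2 (Wr)
open Pool.Agent.TH444.TW (Cls)
open Pool.Agent.Y60.DC (CompIn)

namespace Pool.Agent.Y60.DCF

/-! ### The connected unitary group of a ring with involution -/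

section ring

variable (p : ℕ) [Fact p.Prime]

/- The tensor product `A ⊗ R` over the field with `p` elements, `A` a field of characteristic `p`
and `R` a ring of characteristic `p`. -/
def Tens (A R : Type) [Field A] [Algebra (ZMod p) A] [Ring R] [Algebra (ZMod p) R] : Type :=
  A ⊗[ZMod p] R

/- `A ⊗ R` is a ring (the ring structure of Mathlib). -/
noncomputable instance instRingTens (A R : Type) [Field A] [Algebra (ZMod p) A] [Ring R]
    [Algebra (ZMod p) R] : Ring (Tens p A R) :=
  (Algebra.TensorProduct.instRing : Ring (A ⊗[ZMod p] R))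

/- The element `1 ⊗ b` of `A ⊗ R`. -/
noncomputable def emb (A : Type) {R : Type} [Field A] [Algebra (ZMod p) A] [Ring R]
    [Algebra (ZMod p) R] (b : R) : Tens p A R :=
  (1 : A) ⊗ₜ[ZMod p] b

/- The involution `*` of `R` as a linear map over the field with `p` elements. -/
noncomputable def starLin (R : Type) [Ring R] [Algebra (ZMod p) R] [StarRing R] :
    R →ₗ[ZMod p] R :=
  AddMonoidHom.toZModLinearMap p (starAddEquiv : R ≃+ R).toAddMonoidHom

/- The map `a ⊗ r ↦ a ⊗ r*` of `A ⊗ R`. -/
noncomputable def invo {A R : Type} [Field A] [Algebra (ZMod p) A] [Ring R]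
    [Algebra (ZMod p) R] [StarRing R] (x : Tens p A R) : Tens p A R :=
  LinearMap.baseChange A (starLin p R) x

/- For some field `A` of characteristic `p` there is an element `v` of `A ⊗ R` such that
`v + v* = 1` and `v* + b v` is a unit. For a unitary element `b` this says that `b` belongs to the
connected component of `1` of the unitary group of `R`, an algebraic group over the field with `p`
elements (if `v*` is a unit too then `y = v (v*)⁻¹` is unitary, and `1 + y` and `1 + b y` are units:
both `y` and `b y` are Cayley transforms). -/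
def Connected {R : Type} [Ring R] [Algebra (ZMod p) R] [StarRing R] (b : R) : Prop :=
  ∃ (A : Type) (_ : Field A) (_ : Algebra (ZMod p) A) (v : Tens p A R),
    v + invo p v = 1 ∧ IsUnit (invo p v + emb p A b * v)

/- `ι` is an isomorphism of the group `N` with the group `U⁰(R)` of all elements `b` of `R` such
that `b b* = b* b = 1` and `b` is connected to `1`. -/
def IsU0 (R : Type) [Ring R] [Algebra (ZMod p) R] [StarRing R] {N : Type} [Group N]
    (ι : N →* R) : Prop :=
  Function.Injective ι ∧ ∀ b : R, (∃ n, ι n = b) ↔ (b ∈ unitary R ∧ Connected p b)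

end ring

/- The ring with involution `R` is finite and `z + z* = 1` for some `z` in `R` (the second
condition is empty if `2` is a unit of `R`). -/
def GoodRing (R : Type) [Ring R] [StarRing R] : Prop :=
  Finite R ∧ ∃ z : R, z + star z = 1

/- The automorphisms `ρ w` of the ring `R` commute with the involution of `R`. -/
def StarPres {W R : Type} [Group W] [Ring R] [StarRing R] (ρ : W →* (R ≃+* R)) : Prop :=
  ∀ (w : W) (a : R), ρ w (star a) = star (ρ w a)

/-! ### Split homomorphisms and the action on the kernel -/


/-! ### The composition factors -/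

/- The homomorphism `c` is injective and `Aut T` is the semidirect product of the group of inner
automorphisms of `T` and the image of `c`. -/
def IsComplInn {C T : Type} [Group C] [Group T] (c : C →* MulAut T) : Prop :=
  Function.Injective c ∧ IsCompl c.range (MulAut.conj : T →* MulAut T).range

/- Let `N` be identified by `ι` with a subgroup of the unit group of `R` and `π : N → T` a
homomorphism: the automorphism `c x` of `T` is induced by the automorphism `ρ x` of the ring `R`. -/
def Induced {N T C R : Type} [Group N] [Group T] [Group C] [Ring R] (ι : N → R) (π : N →* T)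
    (c : C →* MulAut T) (ρ : C →* (R ≃+* R)) : Prop :=
  ∀ (x : C) (u v : N), ι v = ρ x (ι u) → c x (π u) = π v

/- `T` is a quotient of a group `N = U⁰(R)` (`R` a finite ring of characteristic `p` with an
involution, `z + z* = 1` for some `z` in `R`), and there is a group `C` of automorphisms of the
ring with involution `R` which induces automorphisms of `T`; the map from `C` to `Aut T` is
injective and its image is a complement of the group of inner automorphisms of `T`. -/
def IsClassical (p : ℕ) [Fact p.Prime] (T : Type) [Group T] : Prop :=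
  ∃ (R : Type) (_ : Ring R) (_ : Algebra (ZMod p) R) (_ : StarRing R) (N : Type) (_ : Group N)
    (ι : N →* R) (π : N →* T) (C : Type) (_ : Group C) (c : C →* MulAut T) (ρ : C →* (R ≃+* R)),
    GoodRing R ∧ IsU0 p R ι ∧ Function.Surjective π ∧ IsComplInn c ∧ StarPres ρ ∧ Induced ι π c ρ

/- The group `Sp_2n(F)`: the symplectic group of Mathlib. -/
def Sp (n : ℕ) (F : Type) [Field F] : Type := Matrix.symplecticGroup (Fin n) F

/- `Sp_2n(F)` is a group (the group structure of Mathlib). -/
instance instGroupSp (n : ℕ) (F : Type) [Field F] : Group (Sp n F) :=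
  (inferInstance : Group (Matrix.symplecticGroup (Fin n) F))

/- `T` is isomorphic to `PSL_2(F)`, `F` a field with `p ^ k ≥ 4` elements, `k` odd if `p ≠ 2`. -/
def IsPSL2 (p : ℕ) (T : Type) [Group T] : Prop :=
  ∃ (F : Type) (_ : Field F) (k : ℕ), 4 ≤ Nat.card F ∧ Nat.card F = p ^ k ∧ (p = 2 ∨ Odd k) ∧
    Nonempty (T ≃* Matrix.ProjectiveSpecialLinearGroup (Fin 2) F)

/- `T` is isomorphic to `PSL_n(F)`, `F` a finite field of characteristic `p`, `n ≥ 3` prime to
`|F| - 1`. -/
def IsPSL (p : ℕ) (T : Type) [Group T] : Prop :=
  ∃ (F : Type) (_ : Field F) (k n : ℕ), Nat.card F = p ^ k ∧ 1 ≤ k ∧ 3 ≤ n ∧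
    Nat.Coprime n (p ^ k - 1) ∧ Nonempty (T ≃* Matrix.ProjectiveSpecialLinearGroup (Fin n) F)

/- `T` is isomorphic to `PSp_2n(F)`, `F` a field with `p ^ k` elements, `n ≥ 2` and `k` odd if
`p ≠ 2`, and `n ≥ 3` if `p = 2`. -/
def IsPSp (p : ℕ) (T : Type) [Group T] : Prop :=
  ∃ (F : Type) (_ : Field F) (k n : ℕ), Nat.card F = p ^ k ∧ 1 ≤ k ∧
    ((p ≠ 2 ∧ 2 ≤ n ∧ Odd k) ∨ (p = 2 ∧ 3 ≤ n)) ∧
    Nonempty (T ≃* Sp n F ⧸ Subgroup.center (Sp n F))

/- The composition factors which are allowed:
* groups of order `p`,
* `PSL_2(F)`, `F` a field with `p ^ k ≥ 4` elements, `k` odd if `p ≠ 2`,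
* `PSL_n(F)`, `F` a finite field of characteristic `p`, `n ≥ 3` prime to `|F| - 1`,
* `PSp_2n(F)`, `F` a field with `p ^ k` elements, `n ≥ 2` and `k` odd if `p ≠ 2`, and `n ≥ 3` if
  `p = 2`,
* all simple groups `T` which are not commutative and satisfy `IsClassical p T`. -/
def Factor (p : ℕ) [Fact p.Prime] (T : Type) [Group T] : Prop :=
  Nat.card T = p ∨ IsPSL2 p T ∨ IsPSL p T ∨ IsPSp p T ∨
  (IsSimpleGroup T ∧ (∃ a b : T, a * b ≠ b * a) ∧ IsClassical p T)

/-! ### The class of homomorphisms -/


end Pool.Agent.Y60.DCF
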