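import Mathlib
import Pool.Agent.H84.L.S8_Y60_DC_Def
import Pool.Agent.H84.L.S8_Y60_DCF_Defs

namespace Pool.Agent.Y60.DC
end Pool.Agent.Y60.DC


/-!
# A class of finite groups

* `Factor K T`: the simple groups `T` which are allowed as composition factors: if `K` has
  characteristic `0`, the alternating groups of degree `d ≥ 5`, `d ≠ 6`; if `K` has characteristic
  `p > 0`, the simple groups in the class `Pool.Agent.Y60.DCF.Factor p` (the groups of order `p`,
  `PSL_2(F)`, `PSL_n(F)`, `PSp_2n(F)` with conditions on the finite field `F` of characteristic `p`,
  and some other classical groups).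
* `Peelable K H`: the smallest class of groups which contains the commutative groups and contains
  `H` whenever it contains
  - `H / [T, M]`, for characteristic subgroups `T ≤ M` of `H` such that `T` is commutative and the
    order of `T` is prime to the index of `T` in `M`, or
  - `H / A`, for a characteristic subgroup `A` of `H` all of whose composition factors are allowed.
-/

set_option autoImplicit false

open scoped commutatorElement
open Pool.Agent.Y60.DC (CompIn)

namespace Pool.Agent.T2H67.AG

/- The group `T` is isomorphic to an alternating group of degree `d ≥ 5`, `d ≠ 6`. -/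
def AltFactor (T : Type) [Group T] : Prop :=
  ∃ d : ℕ, 5 ≤ d ∧ d ≠ 6 ∧ Nonempty (T ≃* alternatingGroup (Fin d))

/- The allowed composition factors. -/
def Factor (K : Type) [Field K] (T : Type) [Group T] : Prop :=
  (CharZero K ∧ AltFactor T) ∨
  ∃ (p : ℕ) (_ : Fact p.Prime), CharP K p ∧ Pool.Agent.Y60.DCF.Factor p T

/- The class of groups. -/
inductive Peelable (K : Type) [Field K] : ∀ (H : Type) [Group H], Prop
  /- commutative groups -/
  | comm (H : Type) [Group H] (h : ∀ x y : H, x * y = y * x) : Peelable K H
  /- coprime commutators -/
  | coprime (H : Type) [Group H] (T M : Subgroup H) [T.Characteristic] [M.Characteristic]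
      (hTM : T ≤ M) (hab : ∀ x ∈ T, ∀ y ∈ T, x * y = y * x)
      (hco : (Nat.card T).Coprime (T.relIndex M)) (h : Peelable K (H ⧸ ⁅T, M⁆)) : Peelable K H
  /- allowed composition factors -/
  | factor (H : Type) [Group H] (A : Subgroup H) [A.Characteristic] (hA : CompIn (Factor K) A)
      (h : Peelable K (H ⧸ A)) : Peelable K H

end Pool.Agent.T2H67.AG
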