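import Mathlib



/-!
# The Clifford algebra of a sum of `n` squares

`Cl n k` has the `k`-basis `e_w` (`w` a vector in `(ℤ/2)ⁿ`), `e_w` being the product of the
generators `e_i` with `w_i = 1` in increasing order; `e_i ^ 2 = 1` and `e_i e_j = - e_j e_i`.
-/

set_option autoImplicit false

namespace Pool.Agent.T2H67.SA

/- the exponents -/
abbrev V2 (n : ℕ) : Type := Fin n → ZMod 2

/- the sign `(-1) ^ a` -/
def sg (k : Type) [Ring k] (a : ZMod 2) : k := if a = 0 then 1 else -1

section sign

variable {k : Type} [Ring k]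

@[simp] theorem sg_zero : sg k 0 = 1 := if_pos rfl

@[simp] theorem sg_one : sg k 1 = -1 := if_neg (by decide)

theorem zmod2 (a : ZMod 2) : a = 0 ∨ a = 1 := by
  fin_cases a
  · exact Or.inl rfl
  · exact Or.inr rfl

theorem zadd (a : ZMod 2) : a + a = 0 := CharTwo.add_self_eq_zero a

theorem sg_add (a b : ZMod 2) : sg k (a + b) = sg k a * sg k b := by
  rcases zmod2 a with rfl | rfl <;> rcases zmod2 b with rfl | rfl
  · simp
  · simp
  · simp
  · rw [zadd, sg_zero, sg_one]
    simp

theorem sg_sq (a : ZMod 2) : sg k a * sg k a = 1 := by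
  rw [← sg_add, zadd, sg_zero]


theorem sg_inj {k : Type} [Field k] [CharZero k] {a b : ZMod 2} (h : sg k a = sg k b) : a = b := by
  rcases zmod2 a with rfl | rfl <;> rcases zmod2 b with rfl | rfl
  · rfl
  · rw [sg_zero, sg_one] at h
    exact absurd h (by norm_num)
  · rw [sg_zero, sg_one] at h
    exact absurd h (by norm_num)
  · rfl

theorem sg_map {k' : Type} [Ring k'] (φ : k →+* k') (a : ZMod 2) : φ (sg k a) = sg k' a := by
  rcases zmod2 a with rfl | rfl <;> simp

end sign

section bf

variable {n : ℕ}

/- the number of inversions modulo `2` -/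
def bf (u v : V2 n) : ZMod 2 := ∑ i, ∑ j ∈ Finset.univ.filter (· < i), u i * v j

/- the weight modulo `2` -/
def wt (u : V2 n) : ZMod 2 := ∑ i, u i

theorem bf_add_left (u u' v : V2 n) : bf (u + u') v = bf u v + bf u' v := by
  simp only [bf, Pi.add_apply, add_mul, Finset.sum_add_distrib]

theorem bf_add_right (u v v' : V2 n) : bf u (v + v') = bf u v + bf u v' := by
  simp only [bf, Pi.add_apply, mul_add, Finset.sum_add_distrib]

@[simp] theorem bf_zero_left (v : V2 n) : bf 0 v = 0 := by
  simp [bf]

@[simp] theorem bf_zero_right (v : V2 n) : bf v 0 = 0 := by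
  simp [bf]

theorem wt_add (u v : V2 n) : wt (u + v) = wt u + wt v := by
  simp only [wt, Pi.add_apply, Finset.sum_add_distrib]

@[simp] theorem wt_zero : wt (0 : V2 n) = 0 := by simp [wt]

@[simp] theorem wt_single (i : Fin n) : wt (Pi.single i 1 : V2 n) = 1 := by
  simp [wt, Finset.sum_pi_single']

theorem bf_single (i : Fin n) (w : V2 n) :
    bf (Pi.single i 1) w + bf w (Pi.single i 1) = wt w + w i := by
  have h1 : bf (Pi.single i 1) w = ∑ j ∈ Finset.univ.filter (· < i), w j := by
    rw [bf, Finset.sum_eq_single i]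
    · refine Finset.sum_congr rfl fun j _ => ?_
      rw [Pi.single_eq_same, one_mul]
    · intro j _ hj
      refine Finset.sum_eq_zero fun l _ => ?_
      rw [Pi.single_eq_of_ne hj, zero_mul]
    · intro h
      exact absurd (Finset.mem_univ _) h
  have h2 : bf w (Pi.single i 1) = ∑ j ∈ Finset.univ.filter (i < ·), w j := by
    rw [bf, Finset.sum_filter]
    refine Finset.sum_congr rfl fun j _ => ?_
    by_cases hj : i < j
    · rw [if_pos hj, Finset.sum_eq_single i]
      · rw [Pi.single_eq_same, mul_one]
      · intro l _ hl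
        rw [Pi.single_eq_of_ne hl, mul_zero]
      · intro h
        exact absurd (Finset.mem_filter.2 ⟨Finset.mem_univ i, hj⟩) h
    · rw [if_neg hj]
      refine Finset.sum_eq_zero fun l hl => ?_
      have : l ≠ i := by
        rintro rfl
        exact hj (Finset.mem_filter.1 hl).2
      rw [Pi.single_eq_of_ne this, mul_zero]
  have h3 : wt w = ∑ j ∈ Finset.univ.filter (· < i), w j + w i +
      ∑ j ∈ Finset.univ.filter (i < ·), w j := by
    rw [wt, ← Finset.sum_filter_add_sum_filter_not Finset.univ (· < i), add_assoc]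
    congr 1
    have h4 : Finset.univ.filter (fun j => ¬ j < i) =
        insert i (Finset.univ.filter (i < ·)) := by
      ext j
      simp only [Finset.mem_filter, Finset.mem_univ, true_and, Finset.mem_insert, not_lt]
      constructor
      · intro h
        rcases h.eq_or_lt with h | h
        · exact Or.inl h.symm
        · exact Or.inr h
      · rintro (h | h)
        · exact h.ge
        · exact h.le
    rw [h4, Finset.sum_insert (by simp)]
  rw [h1, h2, h3]
  have h5 := zadd (w i)
  linear_combination -h5

theorem bf_self_single (i : Fin n) : bf (Pi.single i 1 : V2 n) (Pi.single i 1) = 0 := by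
  rw [bf]
  refine Finset.sum_eq_zero fun j _ => Finset.sum_eq_zero fun l hl => ?_
  by_cases hj : j = i
  · subst hj
    have : l ≠ j := (Finset.mem_filter.1 hl).2.ne
    rw [Pi.single_eq_of_ne this, mul_zero]
  · rw [Pi.single_eq_of_ne hj, zero_mul]


theorem v2add (u : V2 n) : u + u = 0 := by
  funext i
  exact zadd (u i)

end bf

/- The Clifford algebra of a sum of `n` squares over `k`. -/
def Cl (n : ℕ) (k : Type) : Type := V2 n → k

namespace Cl

variable {n : ℕ} {k : Type}

@[ext] theorem ext {x y : Cl n k} (h : ∀ w : V2 n, x w = y w) : x = y := funext h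

instance [AddCommGroup k] : AddCommGroup (Cl n k) := inferInstanceAs (AddCommGroup (V2 n → k))

instance [CommRing k] : Module k (Cl n k) := inferInstanceAs (Module k (V2 n → k))

@[simp] theorem add_apply [CommRing k] (x y : Cl n k) (w : V2 n) : (x + y) w = x w + y w := rfl

@[simp] theorem neg_apply [CommRing k] (x : Cl n k) (w : V2 n) : (-x) w = -x w := rfl


@[simp] theorem zero_apply [CommRing k] (w : V2 n) : (0 : Cl n k) w = 0 := rfl

@[simp] theorem smul_apply [CommRing k] (c : k) (x : Cl n k) (w : V2 n) : (c • x) w = c * x w := rfl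

/- the basis -/
def E [CommRing k] (v : V2 n) : Cl n k := fun w => if w = v then 1 else 0

theorem E_apply [CommRing k] (v w : V2 n) : (E v : Cl n k) w = if w = v then 1 else 0 := rfl

instance [CommRing k] : Mul (Cl n k) :=
  ⟨fun x y w => ∑ u : V2 n, sg k (bf u (w - u)) * x u * y (w - u)⟩

theorem mul_apply [CommRing k] (x y : Cl n k) (w : V2 n) :
    (x * y) w = ∑ u : V2 n, sg k (bf u (w - u)) * x u * y (w - u) := rfl

instance [CommRing k] : One (Cl n k) := ⟨E 0⟩

theorem one_def [CommRing k] : (1 : Cl n k) = E 0 := rfl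

theorem E_mul [CommRing k] (v : V2 n) (x : Cl n k) (w : V2 n) :
    (E v * x : Cl n k) w = sg k (bf v (w - v)) * x (w - v) := by
  rw [mul_apply, Finset.sum_eq_single v]
  · rw [E_apply, if_pos rfl, mul_one]
  · intro u _ hu
    rw [E_apply, if_neg hu, mul_zero, zero_mul]
  · intro h
    exact absurd (Finset.mem_univ _) h

theorem mul_E [CommRing k] (v : V2 n) (x : Cl n k) (w : V2 n) :
    (x * E v : Cl n k) w = sg k (bf (w - v) v) * x (w - v) := by
  rw [mul_apply, Finset.sum_eq_single (w - v)]
  · rw [sub_sub_cancel, E_apply, if_pos rfl, mul_one]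
  · intro u _ hu
    rw [E_apply, if_neg, mul_zero]
    intro h
    apply hu
    rw [← h, sub_sub_cancel]
  · intro h
    exact absurd (Finset.mem_univ _) h

theorem mul_assoc' [CommRing k] (x y z : Cl n k) : x * y * z = x * (y * z) := by
  ext w
  rw [mul_apply, mul_apply]
  have h1 : ∀ u : V2 n, sg k (bf u (w - u)) * (x * y) u * z (w - u) =
      ∑ v : V2 n, sg k (bf u (w - u)) * (sg k (bf v (u - v)) * x v * y (u - v)) * z (w - u) := by
    intro u
    rw [mul_apply, Finset.mul_sum, Finset.sum_mul]
  have h2 : ∀ v : V2 n, sg k (bf v (w - v)) * x v * (y * z) (w - v) =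
      ∑ u : V2 n, sg k (bf v (w - v)) * x v *
        (sg k (bf (u - v) (w - u)) * y (u - v) * z (w - u)) := by
    intro v
    rw [mul_apply, Finset.mul_sum]
    refine (Fintype.sum_equiv (Equiv.addRight v) _ _ fun u => ?_)
    rw [Equiv.coe_addRight, add_sub_cancel_right, sub_sub, add_comm v u]
  rw [Finset.sum_congr rfl fun u _ => h1 u, Finset.sum_congr rfl fun v _ => h2 v,
    Finset.sum_comm]
  refine Finset.sum_congr rfl fun v _ => Finset.sum_congr rfl fun u _ => ?_
  have h3 : sg k (bf u (w - u)) * sg k (bf v (u - v)) =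
      sg k (bf v (w - v)) * sg k (bf (u - v) (w - u)) := by
    rw [← sg_add, ← sg_add]
    congr 1
    have e1 : u = v + (u - v) := by abel
    have e2 : w - v = (u - v) + (w - u) := by abel
    rw [e2, bf_add_right]
    nth_rewrite 1 [e1]
    rw [bf_add_left]
    ring
  linear_combination (x v * y (u - v) * z (w - u)) * h3

instance [CommRing k] : Ring (Cl n k) :=
  { (inferInstance : AddCommGroup (Cl n k)) with
    mul := (· * ·)
    one := 1
    mul_assoc := mul_assoc'
    one_mul := fun x => by
      ext w
      rw [one_def, E_mul, sub_zero, bf_zero_left, sg_zero, one_mul]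
    mul_one := fun x => by
      ext w
      rw [one_def, mul_E, sub_zero, bf_zero_right, sg_zero, one_mul]
    left_distrib := fun x y z => by
      ext w
      rw [add_apply, mul_apply, mul_apply, mul_apply, ← Finset.sum_add_distrib]
      refine Finset.sum_congr rfl fun u _ => ?_
      rw [add_apply, mul_add]
    right_distrib := fun x y z => by
      ext w
      rw [add_apply, mul_apply, mul_apply, mul_apply, ← Finset.sum_add_distrib]
      refine Finset.sum_congr rfl fun u _ => ?_
      rw [add_apply, mul_add, add_mul]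
    zero_mul := fun x => by
      ext w
      rw [mul_apply, zero_apply]
      refine Finset.sum_eq_zero fun u _ => ?_
      rw [zero_apply, mul_zero, zero_mul]
    mul_zero := fun x => by
      ext w
      rw [mul_apply, zero_apply]
      refine Finset.sum_eq_zero fun u _ => ?_
      rw [zero_apply, mul_zero] }

instance [CommRing k] : Algebra k (Cl n k) :=
  Algebra.ofModule
    (fun c x y => by
      ext w
      rw [mul_apply, smul_apply, mul_apply, Finset.mul_sum]
      refine Finset.sum_congr rfl fun u _ => ?_
      rw [smul_apply]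
      ring)
    (fun c x y => by
      ext w
      rw [mul_apply, smul_apply, mul_apply, Finset.mul_sum]
      refine Finset.sum_congr rfl fun u _ => ?_
      rw [smul_apply]
      ring)

theorem one_apply [CommRing k] (w : V2 n) : (1 : Cl n k) w = if w = 0 then 1 else 0 := rfl

section field

variable [Field k]

/- the generators -/
def e (i : Fin n) : Cl n k := E (Pi.single i 1)

theorem E_mul_E (u v : V2 n) : (E u * E v : Cl n k) = sg k (bf u v) • E (u + v) := by
  ext w
  rw [E_mul, smul_apply, E_apply, E_apply]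
  by_cases h : w = u + v
  · rw [if_pos h, if_pos (by rw [h]; abel), h, add_sub_cancel_left]
  · rw [if_neg h, if_neg, mul_zero, mul_zero]
    intro h'
    apply h
    rw [← h']
    abel

theorem e_mul (i : Fin n) (x : Cl n k) (w : V2 n) :
    (e i * x : Cl n k) (w + Pi.single i 1) = sg k (bf (Pi.single i 1) w) * x w := by
  rw [e, E_mul, add_sub_cancel_right]

theorem mul_e (i : Fin n) (x : Cl n k) (w : V2 n) :
    (x * e i : Cl n k) (w + Pi.single i 1) = sg k (bf w (Pi.single i 1)) * x w := by
  rw [e, mul_E, add_sub_cancel_right]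

theorem e_sq (i : Fin n) : (e i * e i : Cl n k) = 1 := by
  rw [e, E_mul_E, bf_self_single, sg_zero, one_smul, v2add]
  rfl

theorem e_anti {i j : Fin n} (h : i ≠ j) : (e i * e j : Cl n k) = -(e j * e i) := by
  rw [e, e, E_mul_E, E_mul_E, add_comm (Pi.single j 1 : V2 n), ← neg_smul]
  congr 1
  have h1 := bf_single i (Pi.single j 1 : V2 n)
  rw [wt_single, Pi.single_eq_of_ne h, add_zero] at h1
  rcases zmod2 (bf (Pi.single i 1 : V2 n) (Pi.single j 1)) with h2 | h2 <;>
    rcases zmod2 (bf (Pi.single j 1 : V2 n) (Pi.single i 1)) with h3 | h3 <;>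
    rw [h2, h3] at h1 ⊢
  · exact absurd h1 (by decide)
  · simp
  · simp
  · exact absurd h1 (by decide)

/- homogeneous elements -/
def Hm (a : ZMod 2) (x : Cl n k) : Prop := ∀ w, x w ≠ 0 → wt w = a

theorem Hm.mul {a b : ZMod 2} {x y : Cl n k} (hx : Hm a x) (hy : Hm b y) : Hm (a + b) (x * y) := by
  intro w hw
  rw [mul_apply] at hw
  obtain ⟨u, -, hu⟩ := Finset.exists_ne_zero_of_sum_ne_zero hw
  have h1 : x u ≠ 0 := fun h => hu (by rw [h, mul_zero, zero_mul])
  have h2 : y (w - u) ≠ 0 := fun h => hu (by rw [h, mul_zero])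
  rw [← hx u h1, ← hy _ h2, ← wt_add]
  congr 1
  abel

theorem Hm.add {a : ZMod 2} {x y : Cl n k} (hx : Hm a x) (hy : Hm a y) : Hm a (x + y) := by
  intro w hw
  by_cases h : x w = 0
  · apply hy
    intro h'
    exact hw (by rw [add_apply, h, h', add_zero])
  · exact hx w h

theorem Hm.neg {a : ZMod 2} {x : Cl n k} (hx : Hm a x) : Hm a (-x) := by
  intro w hw
  apply hx
  intro h
  exact hw (by rw [neg_apply, h, neg_zero])

theorem Hm.smul {a : ZMod 2} {x : Cl n k} (hx : Hm a x) (c : k) : Hm a (c • x) := by
  intro w hw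
  apply hx
  intro h
  exact hw (by rw [smul_apply, h, mul_zero])

theorem hm_zero {a : ZMod 2} : Hm a (0 : Cl n k) := fun w hw => absurd rfl hw

theorem Hm.sum {a : ZMod 2} {ι : Type} (s : Finset ι) {f : ι → Cl n k} (h : ∀ i ∈ s, Hm a (f i)) :
    Hm a (∑ i ∈ s, f i) := by
  classical
  induction s using Finset.induction_on with
  | empty => exact hm_zero
  | insert i s hi ih =>
    rw [Finset.sum_insert hi]
    exact (h i (Finset.mem_insert_self i s)).add (ih fun j hj => h j (Finset.mem_insert_of_mem hj))

theorem hm_one : Hm 0 (1 : Cl n k) := by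
  intro w hw
  rw [one_apply] at hw
  by_cases h : w = 0
  · rw [h, wt_zero]
  · rw [if_neg h] at hw
    exact absurd rfl hw

theorem hm_e (i : Fin n) : Hm 1 (e i : Cl n k) := by
  intro w hw
  rw [e, E_apply] at hw
  by_cases h : w = Pi.single i 1
  · rw [h, wt_single]
  · rw [if_neg h] at hw
    exact absurd rfl hw

variable [CharZero k]

/- **The centre.** -/
theorem scalar {x : Cl n k} (hx : Hm 0 x) (h : ∀ i, x * e i = e i * x) :
    ∃ c : k, x = c • 1 := by
  refine ⟨x 0, ?_⟩
  ext w
  rw [smul_apply, one_apply]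
  by_cases hw : w = 0
  · rw [hw, if_pos rfl, mul_one]
  rw [if_neg hw, mul_zero]
  by_contra hxw
  apply hw
  funext i
  have h1 := congrFun (h i) (w + Pi.single i 1)
  rw [e_mul, mul_e] at h1
  have h2 := sg_inj (mul_right_cancel₀ hxw h1)
  have h3 := bf_single i w
  rw [h2, zadd, hx w hxw, zero_add] at h3
  exact h3.symm

theorem anti_zero {x : Cl n k} (hx : Hm 1 x) (h : ∀ i, x * e i = -(e i * x)) : x = 0 := by
  ext w
  rw [zero_apply]
  by_contra hxw
  have hw : w = 0 := by
    funext i
    have h1 := congrFun (h i) (w + Pi.single i 1)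
    rw [neg_apply, e_mul, mul_e, ← neg_mul] at h1
    have h2 := mul_right_cancel₀ hxw h1
    have h3 : bf w (Pi.single i 1) = 1 + bf (Pi.single i 1) w := by
      apply sg_inj (k := k)
      rw [sg_add, sg_one, h2, neg_one_mul]
    have h4 := bf_single i w
    rw [h3, hx w hxw] at h4
    have h5 := zadd (bf (Pi.single i 1) w)
    have h6 : w i = 0 := by linear_combination h5 - h4
    exact h6
  have := hx w hxw
  rw [hw, wt_zero] at this
  exact absurd this (by decide)

end field

end Cl

end Pool.Agent.T2H67.SA
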