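import Mathlib
import Pool.Agent.H84.L.A7_T2H67_SA_Cl



/-!
# Reversal, vectors and base change
-/

set_option autoImplicit false

namespace Pool.Agent.T2H67.SA

namespace Cl

variable {n : ℕ} {k : Type} [Field k]

/- the reversal -/
def rev (x : Cl n k) : Cl n k := fun w => sg k (bf w w) * x w

theorem rev_apply (x : Cl n k) (w : V2 n) : rev x w = sg k (bf w w) * x w := rfl

@[simp] theorem rev_rev (x : Cl n k) : rev (rev x) = x := by
  ext w
  rw [rev_apply, rev_apply, ← mul_assoc, sg_sq, one_mul]

theorem rev_add (x y : Cl n k) : rev (x + y) = rev x + rev y := by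
  ext w
  rw [rev_apply, add_apply, add_apply, rev_apply, rev_apply, mul_add]

theorem rev_smul (c : k) (x : Cl n k) : rev (c • x) = c • rev x := by
  ext w
  rw [rev_apply, smul_apply, smul_apply, rev_apply]
  ring

@[simp] theorem rev_zero : rev (0 : Cl n k) = 0 := by
  ext w
  rw [rev_apply, zero_apply, mul_zero]

theorem rev_mul (x y : Cl n k) : rev (x * y) = rev y * rev x := by
  ext w
  rw [rev_apply, mul_apply, mul_apply, Finset.mul_sum]
  refine Fintype.sum_equiv (Equiv.subLeft w) _ _ fun u => ?_
  rw [Equiv.subLeft_apply, rev_apply, rev_apply, sub_sub_cancel]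
  have h1 : sg k (bf w w) * sg k (bf u (w - u)) =
      sg k (bf (w - u) u) * sg k (bf (w - u) (w - u)) * sg k (bf u u) := by
    rw [← sg_add, ← sg_add, ← sg_add]
    congr 1
    obtain ⟨v, rfl⟩ : ∃ v, w = u + v := ⟨w - u, by abel⟩
    rw [add_sub_cancel_left, bf_add_left, bf_add_right, bf_add_right]
    linear_combination zadd (bf u v)
  linear_combination (x u * y (w - u)) * h1

theorem rev_E (v : V2 n) : rev (E v : Cl n k) = sg k (bf v v) • E v := by
  ext w
  rw [rev_apply, smul_apply, E_apply]
  by_cases h : w = v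
  · rw [if_pos h, h]
  · rw [if_neg h, mul_zero, mul_zero]

@[simp] theorem rev_one : rev (1 : Cl n k) = 1 := by
  rw [one_def, rev_E, bf_zero_left, sg_zero, one_smul]

@[simp] theorem rev_e (i : Fin n) : rev (e i : Cl n k) = e i := by
  rw [e, rev_E, bf_self_single, sg_zero, one_smul]

theorem Hm.rev {a : ZMod 2} {x : Cl n k} (hx : Hm a x) : Hm a (rev x) := by
  intro w hw
  apply hx
  intro h
  exact hw (by rw [rev_apply, h, mul_zero])

theorem rev_sum {ι : Type} (s : Finset ι) (f : ι → Cl n k) :
    Cl.rev (∑ i ∈ s, f i) = ∑ i ∈ s, Cl.rev (f i) := by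
  classical
  induction s using Finset.induction_on with
  | empty => rw [Finset.sum_empty, Finset.sum_empty, rev_zero]
  | insert i s hi ih => rw [Finset.sum_insert hi, Finset.sum_insert hi, rev_add, ih]

/- base change -/
def map {k' : Type} [Field k'] (φ : k →+* k') : Cl n k →+* Cl n k' where
  toFun x := fun w => φ (x w)
  map_one' := by
    ext w
    change φ ((1 : Cl n k) w) = _
    rw [one_apply, one_apply]
    split_ifs <;> simp
  map_mul' x y := by
    ext w
    change φ ((x * y) w) = ∑ u : V2 n, sg k' (bf u (w - u)) * φ (x u) * φ (y (w - u))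
    rw [mul_apply, map_sum]
    refine Finset.sum_congr rfl fun u _ => ?_
    rw [map_mul, map_mul, sg_map]
  map_zero' := by
    ext w
    exact map_zero φ
  map_add' x y := by
    ext w
    exact map_add φ _ _

theorem map_apply {k' : Type} [Field k'] (φ : k →+* k') (x : Cl n k) (w : V2 n) :
    map φ x w = φ (x w) := rfl

theorem map_smul {k' : Type} [Field k'] (φ : k →+* k') (c : k) (x : Cl n k) :
    map φ (c • x) = φ c • map φ x := by
  ext w
  rw [map_apply, smul_apply, smul_apply, map_mul, map_apply]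

theorem map_E {k' : Type} [Field k'] (φ : k →+* k') (v : V2 n) :
    map φ (E v : Cl n k) = E v := by
  ext w
  rw [map_apply, E_apply, E_apply]
  split_ifs <;> simp

@[simp] theorem map_e {k' : Type} [Field k'] (φ : k →+* k') (i : Fin n) :
    map φ (e i : Cl n k) = e i := map_E φ _

theorem map_rev {k' : Type} [Field k'] (φ : k →+* k') (x : Cl n k) :
    map φ (rev x) = rev (map φ x) := by
  ext w
  rw [map_apply, rev_apply, rev_apply, map_mul, map_apply, sg_map]

theorem Hm.map {k' : Type} [Field k'] (φ : k →+* k') {a : ZMod 2} {x : Cl n k} (hx : Hm a x) :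
    Hm a (Cl.map φ x) := by
  intro w hw
  apply hx
  intro h
  exact hw (by rw [map_apply, h, map_zero])

theorem map_inj {k' : Type} [Field k'] (φ : k →+* k') {x y : Cl n k} (h : map φ x = map φ y) :
    x = y := by
  ext w
  exact φ.injective (congrFun h w)

theorem map_map {k' k'' : Type} [Field k'] [Field k''] (φ : k →+* k') (φ' : k' →+* k'')
    (x : Cl n k) : map φ' (map φ x) = map (φ'.comp φ) x := rfl

theorem e_mul_E (j : Fin n) (v : V2 n) :
    (e j * E v : Cl n k) = sg k (wt v + v j) • (E v * e j) := by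
  rw [e, E_mul_E, E_mul_E, smul_smul, ← sg_add, add_comm v, ← bf_single]
  congr 2
  have := zadd (bf v (Pi.single j 1))
  linear_combination -this

theorem E_rev (v : V2 n) : (E v * Cl.rev (E v) : Cl n k) = 1 := by
  rw [rev_E, mul_smul_comm, E_mul_E, smul_smul, sg_sq, one_smul, v2add]
  rfl

theorem rev_E_mul (v : V2 n) : (Cl.rev (E v) * E v : Cl n k) = 1 := by
  rw [rev_E, smul_mul_assoc, E_mul_E, smul_smul, sg_sq, one_smul, v2add]
  rfl

theorem hm_E (v : V2 n) : Hm (wt v) (E v : Cl n k) := by
  intro w hw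
  rw [E_apply] at hw
  by_cases h : w = v
  · rw [h]
  · rw [if_neg h] at hw
    exact absurd rfl hw

/- vectors -/
def vc (a : Fin n → k) : Cl n k := ∑ i, a i • e i

theorem rev_vc (a : Fin n → k) : rev (vc a) = vc a := by
  rw [vc, rev_sum]
  refine Finset.sum_congr rfl fun i _ => ?_
  rw [rev_smul, rev_e]

theorem hm_vc (a : Fin n → k) : Hm 1 (vc a) := Hm.sum _ fun i _ => (hm_e i).smul _

theorem vc_add (a b : Fin n → k) : vc (a + b) = vc a + vc b := by
  rw [vc, vc, vc, ← Finset.sum_add_distrib]
  refine Finset.sum_congr rfl fun i _ => ?_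
  rw [Pi.add_apply, add_smul]

theorem vc_smul (c : k) (a : Fin n → k) : vc (c • a) = c • vc a := by
  rw [vc, vc, Finset.smul_sum]
  refine Finset.sum_congr rfl fun i _ => ?_
  rw [Pi.smul_apply, smul_eq_mul, mul_smul]

theorem vc_single (i : Fin n) : vc (Pi.single i 1 : Fin n → k) = e i := by
  rw [vc, Finset.sum_eq_single i]
  · rw [Pi.single_eq_same, one_smul]
  · intro j _ hj
    rw [Pi.single_eq_of_ne hj, zero_smul]
  · intro h
    exact absurd (Finset.mem_univ _) h

theorem vc_mul_add (a b : Fin n → k) :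
    vc a * vc b + vc b * vc a = (2 * ∑ i, a i * b i) • (1 : Cl n k) := by
  have h1 : ∀ i j : Fin n, (e i * e j + e j * e i : Cl n k) = if j = i then (2 : k) • 1 else 0 := by
    intro i j
    by_cases h : j = i
    · rw [if_pos h, h, e_sq, two_smul]
    · rw [if_neg h, e_anti (Ne.symm h), neg_add_cancel]
  have h2 : vc a * vc b + vc b * vc a = ∑ i, ∑ j, (a i * b j) • (e i * e j + e j * e i : Cl n k) := by
    rw [vc, vc, Finset.sum_mul_sum, Finset.sum_mul_sum, Finset.sum_comm (γ := Fin n)
      (f := fun i j => b i • e i * a j • e j), ← Finset.sum_add_distrib]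
    refine Finset.sum_congr rfl fun i _ => ?_
    rw [← Finset.sum_add_distrib]
    refine Finset.sum_congr rfl fun j _ => ?_
    rw [smul_mul_smul_comm, smul_mul_smul_comm, smul_add, mul_comm (b j)]
  rw [h2, Finset.mul_sum, Finset.sum_smul]
  refine Finset.sum_congr rfl fun i _ => ?_
  rw [Finset.sum_eq_single i]
  · rw [h1, if_pos rfl, smul_smul, mul_comm]
  · intro j _ hj
    rw [h1, if_neg hj, smul_zero]
  · intro h
    exact absurd (Finset.mem_univ _) h

theorem map_vc {k' : Type} [Field k'] (φ : k →+* k') (a : Fin n → k) :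
    map φ (vc a) = vc fun i => φ (a i) := by
  rw [vc, vc, map_sum]
  refine Finset.sum_congr rfl fun i _ => ?_
  rw [map_smul, map_e]

theorem smul_one_inj {a b : k} (h : a • (1 : Cl n k) = b • 1) : a = b := by
  have h1 := congrFun h (0 : V2 n)
  rw [smul_apply, smul_apply, one_apply, if_pos rfl, mul_one, mul_one] at h1
  exact h1

theorem one_ne_zero' : (1 : Cl n k) ≠ 0 := by
  intro h
  have h1 := congrFun h (0 : V2 n)
  rw [one_apply, if_pos rfl, zero_apply] at h1
  exact one_ne_zero h1

instance : Nontrivial (Cl n k) := ⟨⟨1, 0, one_ne_zero'⟩⟩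

variable [CharZero k]

theorem vc_sq (a : Fin n → k) : vc a * vc a = (∑ i, a i * a i) • (1 : Cl n k) := by
  have h := vc_mul_add a a
  rw [← two_smul k (vc a * vc a), mul_smul] at h
  exact smul_right_injective _ (two_ne_zero' k) h

/- A vector `w` which is not isotropic conjugates vectors to vectors. -/
theorem vc_conj (w a : Fin n → k) (hw : ∑ i, w i * w i ≠ 0) :
    ∃ b : Fin n → k, vc w * vc a = vc b * vc w ∧ vc a * vc w = vc w * vc b := by
  refine ⟨(2 * (∑ i, w i * a i) / ∑ i, w i * w i) • w + (-1 : k) • a, ?_, ?_⟩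
  · have h1 := vc_mul_add w a
    rw [vc_add, vc_smul, vc_smul, add_mul, smul_mul_assoc, vc_sq, smul_smul, div_mul_cancel₀ _ hw,
      ← h1, neg_smul, one_smul, neg_mul]
    abel
  · have h1 := vc_mul_add w a
    rw [vc_add, vc_smul, vc_smul, mul_add, mul_smul_comm, vc_sq, smul_smul, div_mul_cancel₀ _ hw,
      ← h1, neg_smul, one_smul, mul_neg]
    abel

end Cl

end Pool.Agent.T2H67.SA
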