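import Mathlib
import Pool.Agent.H84.L.A7_T2H67_SA_Cl
import Pool.Agent.H84.L.A7_T2H67_SA_Cl2



/-!
# Orthogonal matrices lift to the Clifford group
-/

set_option autoImplicit false
set_option linter.unusedSectionVars false

namespace Pool.Agent.T2H67.SA

open Cl

variable {n : ℕ} {k : Type} [Field k] [CharZero k]

/- the `j`-th column as a vector -/
def col (U : Fin n → Fin n → k) (j : Fin n) : Cl n k := vc fun i => U i j

/- orthonormal columns -/
def ON (U : Fin n → Fin n → k) : Prop := ∀ j l, ∑ i, U i j * U i l = if j = l then 1 else 0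

/- a partial lift of the orthogonal matrix -/
structure Good (U : Fin n → Fin n → k) (m : ℕ) (s : V2 n) (z : (Cl n k)ˣ) : Prop where
  hm : ∃ a, Hm a (z : Cl n k)
  nm : ∃ β : k, β ≠ 0 ∧ (z : Cl n k) * rev (z : Cl n k) = β • 1
  pv : ∀ a : Fin n → k, ∃ b : Fin n → k, vc a * (z : Cl n k) = (z : Cl n k) * vc b
  sn : ∀ j : Fin n, j.1 < m → col U j * (z : Cl n k) = sg k (s j) • ((z : Cl n k) * e j)

theorem unit_cancel (z : (Cl n k)ˣ) {x y : Cl n k} (h : (z : Cl n k) * x = z * y) : x = y :=
  z.isUnit.mul_left_cancel h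

theorem one_smul_ne {c : k} (hc : c ≠ 0) : (c • (1 : Cl n k)) ≠ 0 := by
  intro h
  apply hc
  have h1 : c • (1 : Cl n k) = (0 : k) • 1 := by rw [h, zero_smul]
  exact smul_one_inj h1

theorem good_step {U : Fin n → Fin n → k} (hU : ON U) {m : ℕ} (hm : m < n) {s : V2 n}
    {z : (Cl n k)ˣ} (hz : Good U m s z) : ∃ (s' : V2 n) (z' : (Cl n k)ˣ), Good U (m + 1) s' z' := by
  classical
  set j₀ : Fin n := ⟨m, hm⟩ with hj₀
  obtain ⟨b, hb⟩ := hz.pv fun i => U i j₀
  have hbb : ∑ i, b i * b i = 1 := by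
    have h1 : col U j₀ * col U j₀ = 1 := by
      rw [col, vc_sq, hU, if_pos rfl, one_smul]
    have h2 : (z : Cl n k) * ((∑ i, b i * b i) • 1) = z * ((1 : k) • 1) := by
      rw [← vc_sq, ← mul_assoc, ← hb, mul_assoc, ← hb, ← mul_assoc, one_smul, mul_one]
      change col U j₀ * col U j₀ * z = z
      rw [h1, one_mul]
    exact smul_one_inj (unit_cancel z h2)
  have hbj : ∀ j : Fin n, j.1 < m → b j = 0 := by
    intro j hj
    have hne : j₀ ≠ j := by
      rintro rfl
      exact lt_irrefl _ hj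
    have h1 : col U j₀ * col U j + col U j * col U j₀ = 0 := by
      rw [col, col, vc_mul_add]
      have := hU j₀ j
      rw [if_neg hne] at this
      rw [this, mul_zero, zero_smul]
    have h2 : (z : Cl n k) * (vc b * e j + e j * vc b) = (z : Cl n k) * (0 : Cl n k) := by
      have h3 : (col U j₀ * col U j + col U j * col U j₀) * (z : Cl n k) =
          sg k (s j) • ((z : Cl n k) * (vc b * e j + e j * vc b)) := by
        rw [add_mul, mul_assoc, mul_assoc, hz.sn j hj]
        have h4 : col U j₀ * (z : Cl n k) = z * vc b := hb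
        rw [h4, mul_smul_comm, ← mul_assoc, h4, ← mul_assoc (col U j), hz.sn j hj, smul_mul_assoc,
          ← smul_add]
        simp only [mul_add, mul_assoc]
      rw [h1, zero_mul] at h3
      have h5 := congrArg (fun t => sg k (s j) • t) h3
      simp only [smul_zero, smul_smul, sg_sq, one_smul] at h5
      rw [mul_zero, ← h5]
    have h3 := unit_cancel z h2
    rw [← vc_single, vc_mul_add] at h3
    have h4 : (2 * ∑ i, b i * (Pi.single j 1 : Fin n → k) i) = 0 := by
      by_contra hne'
      exact one_smul_ne hne' h3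
    rw [Finset.sum_eq_single j] at h4
    · rw [Pi.single_eq_same, mul_one] at h4
      exact (mul_eq_zero.1 h4).resolve_left two_ne_zero
    · intro l _ hl
      rw [Pi.single_eq_of_ne hl, mul_zero]
    · intro h
      exact absurd (Finset.mem_univ _) h
  obtain ⟨c, hc⟩ : ∃ c : ZMod 2, (2 : k) + 2 * (sg k c * b j₀) ≠ 0 := by
    by_cases h : b j₀ = -1
    · refine ⟨1, ?_⟩
      rw [sg_one, h]
      norm_num
    · refine ⟨0, ?_⟩
      rw [sg_zero, one_mul]
      intro h'
      apply h
      have : (2 : k) * (1 + b j₀) = 0 := by rw [mul_add, mul_one, h']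
      have := (mul_eq_zero.1 this).resolve_left two_ne_zero
      linear_combination this
  set τ := sg k c with hτ
  have hττ : τ * τ = 1 := sg_sq c
  set w : Fin n → k := Pi.single j₀ 1 + τ • b with hw
  have hww : ∑ i, w i * w i = 2 + 2 * (τ * b j₀) := by
    have h1 : ∀ i, w i * w i = (Pi.single j₀ 1 : Fin n → k) i * (1 + 2 * (τ * b i)) +
        (b i * b i) := by
      intro i
      by_cases hi : i = j₀
      · subst hi
        rw [hw, Pi.add_apply, Pi.single_eq_same, Pi.smul_apply, smul_eq_mul]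
        linear_combination (b j₀ * b j₀) * hττ
      · rw [hw, Pi.add_apply, Pi.single_eq_of_ne hi, Pi.smul_apply, smul_eq_mul]
        linear_combination (b i * b i) * hττ
    rw [Finset.sum_congr rfl fun i _ => h1 i, Finset.sum_add_distrib, hbb,
      Finset.sum_eq_single j₀]
    · rw [Pi.single_eq_same]
      ring
    · intro l _ hl
      rw [Pi.single_eq_of_ne hl, zero_mul]
    · intro h
      exact absurd (Finset.mem_univ _) h
  have hq : ∑ i, w i * w i ≠ 0 := by
    rw [hww]
    exact hc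
  have hvw : vc w * vc w = (∑ i, w i * w i) • (1 : Cl n k) := vc_sq w
  let wu : (Cl n k)ˣ :=
    { val := vc w
      inv := (∑ i, w i * w i)⁻¹ • vc w
      val_inv := by rw [mul_smul_comm, hvw, smul_smul, inv_mul_cancel₀ hq, one_smul]
      inv_val := by rw [smul_mul_assoc, hvw, smul_smul, inv_mul_cancel₀ hq, one_smul] }
  have hwe : vc w = e j₀ + τ • vc b := by
    rw [hw, vc_add, vc_smul, vc_single]
  refine ⟨fun j => if j = j₀ then c else s j + 1, z * wu, ?_, ?_, ?_, ?_⟩
  · obtain ⟨a, ha⟩ := hz.hm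
    exact ⟨a + 1, ha.mul (hm_vc w)⟩
  · obtain ⟨β, hβ, hβ'⟩ := hz.nm
    refine ⟨(∑ i, w i * w i) * β, mul_ne_zero hq hβ, ?_⟩
    change (z : Cl n k) * vc w * rev ((z : Cl n k) * vc w) = _
    rw [rev_mul, rev_vc, mul_assoc, ← mul_assoc (vc w), hvw, smul_mul_assoc, one_mul,
      mul_smul_comm, hβ', smul_smul]
  · intro a
    obtain ⟨b', hb'⟩ := hz.pv a
    obtain ⟨b'', -, hb''⟩ := vc_conj w b' hq
    refine ⟨b'', ?_⟩
    change vc a * ((z : Cl n k) * vc w) = (z : Cl n k) * vc w * vc b''
    rw [← mul_assoc, hb', mul_assoc, hb'', mul_assoc]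
  · intro j hj
    change col U j * ((z : Cl n k) * vc w) = _ • ((z : Cl n k) * vc w * e j)
    by_cases hjj : j = j₀
    · subst hjj
      rw [if_pos rfl, ← mul_assoc]
      have h4 : col U j₀ * (z : Cl n k) = z * vc b := hb
      rw [h4, mul_assoc, mul_assoc, ← mul_smul_comm]
      congr 1
      rw [hwe, mul_add, add_mul, mul_smul_comm, vc_sq, hbb, one_smul, smul_mul_assoc, e_sq,
        smul_add, smul_smul, ← hτ, hττ, one_smul, add_comm]
    · rw [if_neg hjj]
      have hjm : j.1 < m := by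
        rcases Nat.lt_succ_iff_lt_or_eq.1 hj with h | h
        · exact h
        · exact absurd (Fin.ext h) hjj
      rw [← mul_assoc, hz.sn j hjm, smul_mul_assoc, mul_assoc, mul_assoc, sg_add, sg_one]
      have h5 : e j * vc w = -(vc w * e j) := by
        have h6 := vc_mul_add (Pi.single j 1) w
        rw [vc_single, Finset.sum_eq_single j, Pi.single_eq_same, one_mul] at h6
        · have h7 : w j = 0 := by
            rw [hw, Pi.add_apply, Pi.single_eq_of_ne hjj, Pi.smul_apply, hbj j hjm, smul_zero,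
              zero_add]
          rw [h7, mul_zero, zero_smul] at h6
          exact eq_neg_of_add_eq_zero_left h6
        · intro l _ hl
          rw [Pi.single_eq_of_ne hl, zero_mul]
        · intro h
          exact absurd (Finset.mem_univ _) h
      rw [h5, mul_neg, smul_neg, mul_neg_one, neg_smul]

theorem good_all {U : Fin n → Fin n → k} (hU : ON U) (m : ℕ) (hm : m ≤ n) :
    ∃ (s : V2 n) (z : (Cl n k)ˣ), Good U m s z := by
  induction m with
  | zero =>
    refine ⟨0, 1, ⟨0, hm_one⟩, ⟨1, one_ne_zero, ?_⟩, fun a => ⟨a, ?_⟩, fun j hj => ?_⟩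
    · rw [Units.val_one, rev_one, mul_one, one_smul]
    · rw [Units.val_one, mul_one, one_mul]
    · exact absurd hj (Nat.not_lt_zero _)
  | succ m ih =>
    obtain ⟨s, z, hz⟩ := ih (Nat.le_of_succ_le hm)
    exact good_step hU hm hz

/- the units `E v` -/
def Eu (v : V2 n) : (Cl n k)ˣ where
  val := E v
  inv := rev (E v)
  val_inv := E_rev v
  inv_val := rev_E_mul v

/- **Lifting orthogonal matrices of odd size.** -/
theorem exists_z (hn : Odd n) {U : Fin n → Fin n → k} (hU : ON U) :
    ∃ (δ : ZMod 2) (z : (Cl n k)ˣ), Hm 0 (z : Cl n k) ∧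
      (∃ β : k, β ≠ 0 ∧ (z : Cl n k) * rev (z : Cl n k) = β • 1) ∧
      ∀ j, col U j * (z : Cl n k) = sg k δ • ((z : Cl n k) * e j) := by
  obtain ⟨s, z, ⟨a, ha⟩, ⟨β, hβ, hβ'⟩, -, hz⟩ := good_all hU n le_rfl
  -- uniform sign
  have h1 : ∀ j, col U j * ((z : Cl n k) * E s) = sg k (wt s) • ((z : Cl n k) * E s * e j) := by
    intro j
    rw [← mul_assoc, hz j j.2, smul_mul_assoc, mul_assoc, e_mul_E, mul_smul_comm, smul_smul,
      ← sg_add, mul_assoc]
    congr 2
    linear_combination zadd (s j)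
  have h2 : Hm (a + wt s) ((z : Cl n k) * E s) := ha.mul (hm_E s)
  have h3 : ((z : Cl n k) * E s) * rev ((z : Cl n k) * E s) = β • 1 := by
    rw [rev_mul, mul_assoc, ← mul_assoc (E s), E_rev, one_mul, hβ']
  rcases zmod2 (a + wt s) with h4 | h4
  · rw [h4] at h2
    exact ⟨wt s, z * Eu s, h2, ⟨β, hβ, h3⟩, h1⟩
  · have h5 : wt (1 : V2 n) = 1 := by
      rw [wt]
      simp only [Pi.one_apply, Finset.sum_const, Finset.card_univ, Fintype.card_fin, nsmul_eq_mul,
        mul_one]
      exact (ZMod.natCast_eq_one_iff_odd).2 hn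
    have h6 : ∀ j, (e j * E (1 : V2 n) : Cl n k) = E 1 * e j := by
      intro j
      rw [e_mul_E, h5, Pi.one_apply, zadd, sg_zero, one_smul]
    refine ⟨wt s, z * Eu s * Eu 1, ?_, ⟨β, hβ, ?_⟩, fun j => ?_⟩
    · have h7 := h2.mul (hm_E (k := k) (1 : V2 n))
      rw [h4, h5, zadd] at h7
      exact h7
    · change ((z : Cl n k) * E s * E 1) * rev ((z : Cl n k) * E s * E 1) = _
      rw [rev_mul, mul_assoc, ← mul_assoc (E 1), E_rev, one_mul, h3]
    · change col U j * ((z : Cl n k) * E s * E 1) = _ • ((z : Cl n k) * E s * E 1 * e j)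
      rw [← mul_assoc, h1, smul_mul_assoc, mul_assoc ((z : Cl n k) * E s), h6, mul_assoc,
        mul_assoc, mul_assoc]

end Pool.Agent.T2H67.SA
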