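import Mathlib
import Pool.Agent.H84.L.A7_T2H67_SA_Cl
import Pool.Agent.H84.L.A7_T2H67_SA_Cl2
import Pool.Agent.H84.L.A7_T2H67_SA_Z



/-!
# The double cover of the alternating group
-/

set_option autoImplicit false
set_option linter.unusedSectionVars false

namespace Pool.Agent.T2H67.SA

open Cl Equiv

variable {n : ℕ}

/- the parity of a permutation -/
def pr (σ : Perm (Fin n)) : ZMod 2 := if Perm.sign σ = 1 then 0 else 1

theorem inv_app (σ : Perm (Fin n)) (j : Fin n) : σ⁻¹ (σ j) = j := σ.symm_apply_apply j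

theorem pr_one : pr (1 : Perm (Fin n)) = 0 := by
  rw [pr, map_one, if_pos rfl]

theorem pr_mul (σ τ : Perm (Fin n)) : pr (σ * τ) = pr σ + pr τ := by
  rw [pr, pr, pr, map_mul]
  rcases Int.units_eq_one_or (Perm.sign σ) with h | h <;>
    rcases Int.units_eq_one_or (Perm.sign τ) with h' | h' <;> rw [h, h'] <;> decide

theorem pr_inv (σ : Perm (Fin n)) : pr σ⁻¹ = pr σ := by
  rw [pr, pr, Perm.sign_inv]

theorem pr_eq_zero {σ : Perm (Fin n)} : pr σ = 0 ↔ σ ∈ alternatingGroup (Fin n) := by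
  rw [pr, Perm.mem_alternatingGroup]
  rcases Int.units_eq_one_or (Perm.sign σ) with h | h <;> rw [h] <;> decide

theorem pr_swap {i j : Fin n} (h : i ≠ j) : pr (swap i j) = 1 := by
  rw [pr, Perm.sign_swap h, if_neg (by decide)]

section

variable {k : Type} [Field k] [CharZero k]

/- `x` is a lift of the permutation `σ` to the Clifford group -/
def Lf (σ : Perm (Fin n)) (x : Cl n k) : Prop :=
  Hm (pr σ) x ∧ ∀ i, x * e i = sg k (pr σ) • (e (σ i) * x)

theorem Lf.one : Lf (1 : Perm (Fin n)) (1 : Cl n k) := by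
  refine ⟨?_, fun i => ?_⟩
  · rw [pr_one]
    exact hm_one
  · rw [pr_one, sg_zero, one_smul, one_mul, mul_one]
    rfl

theorem Lf.mul {σ τ : Perm (Fin n)} {x y : Cl n k} (hx : Lf σ x) (hy : Lf τ y) :
    Lf (σ * τ) (x * y) := by
  refine ⟨?_, fun i => ?_⟩
  · rw [pr_mul]
    exact hx.1.mul hy.1
  · rw [mul_assoc, hy.2, mul_smul_comm, ← mul_assoc, hx.2, smul_mul_assoc, smul_smul, pr_mul,
      sg_add, mul_comm (sg k (pr σ)), mul_assoc]
    rfl

theorem Lf.smul {σ : Perm (Fin n)} {x : Cl n k} (hx : Lf σ x) (c : k) : Lf σ (c • x) := by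
  refine ⟨hx.1.smul c, fun i => ?_⟩
  rw [smul_mul_assoc, hx.2, mul_smul_comm, smul_comm]

theorem Lf.rev {σ : Perm (Fin n)} {x : Cl n k} (hx : Lf σ x) (i : Fin n) :
    Cl.rev x * e (σ i) = sg k (pr σ) • (e i * Cl.rev x) := by
  have h1 := congrArg Cl.rev (hx.2 i)
  rw [rev_mul, rev_e, rev_smul, rev_mul, rev_e] at h1
  rw [h1, smul_smul, sg_sq, one_smul]

/- norms of lifts are scalars -/
theorem Lf.norm {σ : Perm (Fin n)} {x : Cl n k} (hx : Lf σ x) :
    ∃ c : k, x * Cl.rev x = c • 1 := by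
  apply scalar
  · have h1 := hx.1.mul hx.1.rev
    rwa [zadd] at h1
  · intro i
    obtain ⟨j, rfl⟩ := σ.surjective i
    rw [mul_assoc, hx.rev, mul_smul_comm, ← mul_assoc, hx.2, smul_mul_assoc, smul_smul, sg_sq,
      one_smul, mul_assoc]

/- A lift of the swap. -/
theorem lf_swap {i j : Fin n} (h : i ≠ j) : Lf (swap i j) (e i - e j : Cl n k) := by
  refine ⟨?_, fun l => ?_⟩
  · rw [pr_swap h, sub_eq_add_neg]
    exact (hm_e i).add (hm_e j).neg
  · rw [pr_swap h, sg_one, neg_one_smul]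
    by_cases hi : l = i
    · subst hi
      rw [swap_apply_left, sub_mul, mul_sub, e_sq, e_sq, neg_sub]
    · by_cases hj : l = j
      · subst hj
        rw [swap_apply_right, sub_mul, mul_sub, e_sq, e_sq, neg_sub]
      · rw [swap_apply_of_ne_of_ne hi hj, sub_mul, mul_sub, e_anti hi, e_anti hj]
        abel

theorem swap_sq {i j : Fin n} (h : i ≠ j) : (e i - e j) * (e i - e j) = (2 : k) • (1 : Cl n k) := by
  rw [sub_mul, mul_sub, mul_sub, e_sq, e_sq, e_anti h, two_smul]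
  abel

/- the swap as a unit -/
def swu {i j : Fin n} (h : i ≠ j) : (Cl n k)ˣ where
  val := e i - e j
  inv := (2 : k)⁻¹ • (e i - e j)
  val_inv := by
    rw [mul_smul_comm, swap_sq h, smul_smul, inv_mul_cancel₀ two_ne_zero, one_smul]
  inv_val := by
    rw [smul_mul_assoc, swap_sq h, smul_smul, inv_mul_cancel₀ two_ne_zero, one_smul]

theorem exists_lf (σ : Perm (Fin n)) : ∃ x : (Cl n k)ˣ, Lf σ (x : Cl n k) := by
  induction σ using Perm.swap_induction_on with
  | one => exact ⟨1, Lf.one⟩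
  | swap_mul f i j h ih =>
    obtain ⟨x, hx⟩ := ih
    exact ⟨swu h * x, (lf_swap h).mul hx⟩

/- the norm of a unit lift -/
theorem Lf.norm_ne {σ : Perm (Fin n)} {x : (Cl n k)ˣ} (hx : Lf σ (x : Cl n k)) :
    ∃ c : k, c ≠ 0 ∧ (x : Cl n k) * Cl.rev (x : Cl n k) = c • 1 := by
  obtain ⟨c, hc⟩ := hx.norm
  refine ⟨c, ?_, hc⟩
  rintro rfl
  rw [zero_smul] at hc
  have h1 := unit_cancel x (hc.trans (mul_zero (x : Cl n k)).symm)
  have h2 := congrArg Cl.rev h1
  rw [rev_rev, rev_zero] at h2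
  exact x.ne_zero h2

theorem inv_eq {x : (Cl n k)ˣ} {c : k} (hc : c ≠ 0) (h : (x : Cl n k) * Cl.rev (x : Cl n k) = c • 1) :
    ((x⁻¹ : (Cl n k)ˣ) : Cl n k) = c⁻¹ • Cl.rev (x : Cl n k) := by
  apply unit_cancel x
  rw [mul_smul_comm, h, smul_smul, inv_mul_cancel₀ hc, one_smul, Units.mul_inv]

theorem rev_mul_self {x : (Cl n k)ˣ} {c : k} (hc : c ≠ 0)
    (h : (x : Cl n k) * Cl.rev (x : Cl n k) = c • 1) : Cl.rev (x : Cl n k) * (x : Cl n k) = c • 1 := by
  have h1 := inv_eq hc h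
  have h2 : ((x⁻¹ : (Cl n k)ˣ) : Cl n k) * x = 1 := Units.inv_mul x
  rw [h1, smul_mul_assoc] at h2
  have h3 := congrArg (fun t => c • t) h2
  simp only [smul_smul, mul_inv_cancel₀ hc, one_smul] at h3
  exact h3

theorem Lf.inv {σ : Perm (Fin n)} {x : (Cl n k)ˣ} (hx : Lf σ (x : Cl n k)) :
    Lf σ⁻¹ ((x⁻¹ : (Cl n k)ˣ) : Cl n k) := by
  obtain ⟨c, hc, h⟩ := hx.norm_ne
  rw [inv_eq hc h]
  apply Lf.smul
  refine ⟨?_, fun i => ?_⟩
  · rw [pr_inv]
    exact hx.1.rev
  · obtain ⟨j, rfl⟩ := σ.surjective i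
    rw [hx.rev, pr_inv, inv_app]

/- Lifts are unique up to scalars. -/
theorem lf_unique {σ : Perm (Fin n)} {x y : (Cl n k)ˣ} (hx : Lf σ (x : Cl n k))
    (hy : Lf σ (y : Cl n k)) : ∃ c : k, c ≠ 0 ∧ (y : Cl n k) = c • (x : Cl n k) := by
  have h1 : Lf (σ⁻¹ * σ) (((x⁻¹ : (Cl n k)ˣ) : Cl n k) * (y : Cl n k)) := hx.inv.mul hy
  rw [inv_mul_cancel] at h1
  obtain ⟨c, hc⟩ := scalar (by rw [← pr_one (n := n)]; exact h1.1) (fun i => by
    rw [h1.2, pr_one, sg_zero, one_smul]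
    rfl)
  have h2 : (y : Cl n k) = c • (x : Cl n k) := by
    apply unit_cancel x⁻¹
    rw [hc, mul_smul_comm, Units.inv_mul]
  refine ⟨c, ?_, h2⟩
  rintro rfl
  rw [zero_smul] at h2
  exact y.ne_zero h2

/- An even unit which permutes the generators lifts an even permutation. -/
theorem even_lf {σ : Perm (Fin n)} {x : (Cl n k)ˣ} (h0 : Hm 0 (x : Cl n k))
    (h : ∀ i, (x : Cl n k) * e i = e (σ i) * (x : Cl n k)) : pr σ = 0 ∧ Lf σ (x : Cl n k) := by
  have h1 : pr σ = 0 := by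
    rcases zmod2 (pr σ) with h1 | h1
    · exact h1
    exfalso
    obtain ⟨y, hy⟩ := exists_lf (k := k) σ
    have h2 : ((y⁻¹ : (Cl n k)ˣ) : Cl n k) * (x : Cl n k) = 0 := by
      apply anti_zero
      · have h3 := hy.inv.1.mul h0
        rwa [pr_inv, h1, add_zero] at h3
      · intro i
        rw [mul_assoc, h, ← mul_assoc, hy.inv.2, pr_inv, h1, sg_one, neg_one_smul,
          inv_app, neg_mul, mul_assoc]
    have h3 := unit_cancel y⁻¹ (h2.trans (mul_zero _).symm)
    exact x.ne_zero h3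
  refine ⟨h1, ?_, fun i => ?_⟩
  · rw [h1]
    exact h0
  · rw [h1, sg_zero, one_smul, h]

theorem e_inj {i j : Fin n} (h : (e i : Cl n k) = e j) : i = j := by
  by_contra hne
  have h1 := congrFun h (Pi.single i 1 : V2 n)
  rw [e, E_apply, if_pos rfl, e, E_apply, if_neg] at h1
  · exact one_ne_zero h1
  · intro h2
    have h3 := congrFun h2 i
    rw [Pi.single_eq_same, Pi.single_eq_of_ne hne] at h3
    exact one_ne_zero h3

theorem perm_unique {σ τ : Perm (Fin n)} {x : (Cl n k)ˣ}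
    (h : ∀ i, (x : Cl n k) * e i = e (σ i) * (x : Cl n k))
    (h' : ∀ i, (x : Cl n k) * e i = e (τ i) * (x : Cl n k)) :
    σ = τ := by
  apply Equiv.ext
  intro i
  apply e_inj (k := k)
  have h1 : (e (σ i) : Cl n k) * (x : Cl n k) = e (τ i) * (x : Cl n k) := by rw [← h, ← h']
  exact x.isUnit.mul_right_cancel h1

end

/- The double cover of the alternating group `A_n`: the even elements `x` of the Clifford algebra
of a sum of `n` squares over `ℚ` with `x * rev x = 1` which permute the generators by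
conjugation. -/
def Alt2 (n : ℕ) : Subgroup (Cl n ℚ)ˣ where
  carrier := {x | Hm 0 (x : Cl n ℚ) ∧ (x : Cl n ℚ) * rev (x : Cl n ℚ) = 1 ∧
    ∃ σ : Perm (Fin n), ∀ i, (x : Cl n ℚ) * e i = e (σ i) * (x : Cl n ℚ)}
  mul_mem' := by
    rintro x y ⟨h1, h2, σ, h3⟩ ⟨h1', h2', σ', h3'⟩
    refine ⟨?_, ?_, σ * σ', fun i => ?_⟩
    · have := h1.mul h1'
      rwa [add_zero] at this
    · rw [Units.val_mul, rev_mul, mul_assoc, ← mul_assoc (y : Cl n ℚ), h2', one_mul, h2]
    · rw [Units.val_mul, mul_assoc, h3', ← mul_assoc, h3, mul_assoc]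
      rfl
  one_mem' := by
    refine ⟨hm_one, ?_, 1, fun i => ?_⟩
    · rw [Units.val_one, rev_one, mul_one]
    · rw [Units.val_one, one_mul, mul_one]
      rfl
  inv_mem' := by
    rintro x ⟨h1, h2, σ, h3⟩
    have hx : ((x⁻¹ : (Cl n ℚ)ˣ) : Cl n ℚ) = rev (x : Cl n ℚ) := by
      have := inv_eq (x := x) (c := 1) one_ne_zero (by rw [h2, one_smul])
      rwa [inv_one, one_smul] at this
    refine ⟨?_, ?_, σ⁻¹, fun i => ?_⟩
    · rw [hx]
      exact h1.rev
    · rw [hx, rev_rev, ← hx, Units.inv_mul]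
    · obtain ⟨j, rfl⟩ := σ.surjective i
      rw [inv_app]
      apply unit_cancel x
      rw [← mul_assoc, Units.mul_inv, one_mul, ← mul_assoc, h3, mul_assoc, Units.mul_inv, mul_one]

theorem mem_alt2 {x : (Cl n ℚ)ˣ} : x ∈ Alt2 n ↔ Hm 0 (x : Cl n ℚ) ∧
    (x : Cl n ℚ) * rev (x : Cl n ℚ) = 1 ∧
    ∃ σ : Perm (Fin n), ∀ i, (x : Cl n ℚ) * e i = e (σ i) * (x : Cl n ℚ) := Iff.rfl

theorem mem_alt2' {x : (Cl n ℚ)ˣ} : x ∈ Alt2 n ↔
    ∃ σ : Perm (Fin n), pr σ = 0 ∧ Lf σ (x : Cl n ℚ) ∧ (x : Cl n ℚ) * rev (x : Cl n ℚ) = 1 := by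
  rw [mem_alt2]
  constructor
  · rintro ⟨h1, h2, σ, h3⟩
    obtain ⟨h4, h5⟩ := even_lf h1 h3
    exact ⟨σ, h4, h5, h2⟩
  · rintro ⟨σ, h1, h2, h3⟩
    refine ⟨by rw [← h1]; exact h2.1, h3, σ, fun i => ?_⟩
    rw [h2.2, h1, sg_zero, one_smul]

/- the projection to the permutations -/
noncomputable def toPerm (n : ℕ) : Alt2 n →* Perm (Fin n) where
  toFun x := x.2.2.2.choose
  map_one' := by
    have h := (1 : Alt2 n).2.2.2.choose_spec
    apply perm_unique h
    intro i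
    change (1 : Cl n ℚ) * e i = e i * 1
    rw [one_mul, mul_one]
  map_mul' x y := by
    have h := (x * y).2.2.2.choose_spec
    have hx := x.2.2.2.choose_spec
    have hy := y.2.2.2.choose_spec
    apply perm_unique h
    intro i
    change (x.1 : Cl n ℚ) * (y.1 : Cl n ℚ) * e i = _ * ((x.1 : Cl n ℚ) * (y.1 : Cl n ℚ))
    rw [mul_assoc, hy, ← mul_assoc, hx, mul_assoc]
    rfl

theorem toPerm_spec (x : Alt2 n) (i : Fin n) :
    (x.1 : Cl n ℚ) * e i = e (toPerm n x i) * (x.1 : Cl n ℚ) := x.2.2.2.choose_spec i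

theorem toPerm_eq {x : Alt2 n} {σ : Perm (Fin n)} (h : Lf σ (x.1 : Cl n ℚ)) (hσ : pr σ = 0) :
    toPerm n x = σ := by
  refine perm_unique (x := x.1) (toPerm_spec x) fun i => ?_
  rw [h.2, hσ, sg_zero, one_smul]

theorem lf_toPerm (x : Alt2 n) : Lf (toPerm n x) (x.1 : Cl n ℚ) :=
  (even_lf x.2.1 (toPerm_spec x)).2

theorem pr_toPerm (x : Alt2 n) : pr (toPerm n x) = 0 :=
  (even_lf x.2.1 (toPerm_spec x)).1

theorem alt2_norm (x : Alt2 n) : (x.1 : Cl n ℚ) * rev (x.1 : Cl n ℚ) = 1 := x.2.2.1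

/- the central element `-1` -/
def negOne (n : ℕ) : Alt2 n := ⟨-1, by
  refine ⟨?_, ?_, 1, fun i => ?_⟩
  · rw [Units.val_neg, Units.val_one]
    exact hm_one.neg
  · have : rev (-1 : Cl n ℚ) = -1 := by
      rw [← neg_one_smul ℚ (1 : Cl n ℚ), rev_smul, rev_one]
    rw [Units.val_neg, Units.val_one, this, neg_mul_neg, one_mul]
  · rw [Units.val_neg, Units.val_one, neg_mul, mul_neg, one_mul, mul_one]
    rfl⟩

theorem toPerm_ker {x : Alt2 n} (h : toPerm n x = 1) : x = 1 ∨ x = negOne n := by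
  obtain ⟨c, hc⟩ := scalar (x := (x.1 : Cl n ℚ)) x.2.1 (fun i => by
    rw [toPerm_spec, h]
    rfl)
  have h1 := alt2_norm x
  rw [hc, rev_smul, rev_one, smul_mul_smul_comm, one_mul] at h1
  have h2 : c * c = 1 := by
    apply smul_one_inj (n := n)
    rw [h1, one_smul]
  rcases mul_self_eq_one_iff.1 h2 with h3 | h3
  · left
    apply Subtype.ext
    apply Units.ext
    rw [hc, h3, one_smul]
    rfl
  · right
    apply Subtype.ext
    apply Units.ext
    rw [hc, h3, neg_one_smul]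
    rfl

theorem toPerm_negOne : toPerm n (negOne n) = 1 := by
  refine perm_unique (x := (negOne n).1) (toPerm_spec (negOne n)) fun i => ?_
  change (-1 : Cl n ℚ) * e i = e i * -1
  rw [neg_mul, mul_neg, one_mul, mul_one]

theorem negOne_ne : negOne n ≠ 1 := by
  intro h
  have h1 : (-1 : Cl n ℚ) = 1 := congrArg (fun t : Alt2 n => (t.1 : Cl n ℚ)) h
  have h2 : (-1 : ℚ) = 1 := by
    apply smul_one_inj (n := n)
    rw [neg_one_smul, one_smul, h1]
  norm_num at h2

theorem negOne_comm (x : Alt2 n) : negOne n * x = x * negOne n := by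
  apply Subtype.ext
  apply Units.ext
  change (-1 : Cl n ℚ) * x.1 = x.1 * -1
  rw [neg_mul, mul_neg, one_mul, mul_one]

theorem negOne_sq : negOne n * negOne n = 1 := by
  apply Subtype.ext
  apply Units.ext
  change (-1 : Cl n ℚ) * -1 = 1
  rw [neg_mul_neg, one_mul]

/- Two lifts of one permutation differ by `-1`. -/
theorem eq_or_neg {x y : Alt2 n} (h : toPerm n x = toPerm n y) : y = x ∨ y = negOne n * x := by
  have h1 : toPerm n (y * x⁻¹) = 1 := by rw [map_mul, map_inv, h, mul_inv_cancel]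
  rcases toPerm_ker h1 with h2 | h2
  · left
    exact mul_inv_eq_one.1 h2
  · right
    rw [← h2, inv_mul_cancel_right]

/- products of two swaps -/
def dsw {i j l m : Fin n} (h : i ≠ j) (h' : l ≠ m) : Alt2 n :=
  ⟨{ val := (2 : ℚ)⁻¹ • ((e i - e j) * (e l - e m))
     inv := (2 : ℚ)⁻¹ • ((e l - e m) * (e i - e j))
     val_inv := by
      rw [smul_mul_smul_comm, mul_assoc, ← mul_assoc (e l - e m), swap_sq h', smul_mul_assoc,
        one_mul, mul_smul_comm, swap_sq h, smul_smul, smul_smul]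
      norm_num
     inv_val := by
      rw [smul_mul_smul_comm, mul_assoc, ← mul_assoc (e i - e j), swap_sq h, smul_mul_assoc,
        one_mul, mul_smul_comm, swap_sq h', smul_smul, smul_smul]
      norm_num }, by
    rw [mem_alt2']
    refine ⟨swap i j * swap l m, ?_, ((lf_swap h).mul (lf_swap h')).smul _, ?_⟩
    · rw [pr_mul, pr_swap h, pr_swap h']
      rfl
    · have h1 : ∀ a b : Fin n, rev (e a - e b : Cl n ℚ) = e a - e b := by
        intro a b
        rw [sub_eq_add_neg, ← neg_one_smul ℚ (e b : Cl n ℚ), rev_add, rev_smul, rev_e, rev_e]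
      rw [rev_smul, rev_mul, h1, h1, smul_mul_smul_comm, mul_assoc, ← mul_assoc (e l - e m),
        swap_sq h', smul_mul_assoc, one_mul, mul_smul_comm, swap_sq h, smul_smul, smul_smul]
      norm_num⟩

theorem toPerm_dsw {i j l m : Fin n} (h : i ≠ j) (h' : l ≠ m) :
    toPerm n (dsw h h') = swap i j * swap l m := by
  apply toPerm_eq
  · exact ((lf_swap h).mul (lf_swap h')).smul _
  · rw [pr_mul, pr_swap h, pr_swap h']
    rfl

/- a lift of a double transposition has order `4` -/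
theorem dsw_sq {i j l m : Fin n} (h : i ≠ j) (h' : l ≠ m) (h1 : i ≠ l) (h2 : i ≠ m) (h3 : j ≠ l)
    (h4 : j ≠ m) : dsw h h' * dsw h h' = negOne n := by
  apply Subtype.ext
  apply Units.ext
  change ((2 : ℚ)⁻¹ • ((e i - e j) * (e l - e m))) * ((2 : ℚ)⁻¹ • ((e i - e j) * (e l - e m))) =
    (-1 : Cl n ℚ)
  have h5 : (e l - e m : Cl n ℚ) * (e i - e j) = -((e i - e j) * (e l - e m)) := by
    rw [sub_mul, mul_sub, mul_sub, sub_mul, mul_sub, mul_sub, e_anti h1, e_anti h2, e_anti h3,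
      e_anti h4]
    abel
  rw [smul_mul_smul_comm, mul_assoc, ← mul_assoc (e l - e m), h5, neg_mul, mul_neg, mul_assoc,
    swap_sq h', ← mul_assoc, swap_sq h, smul_mul_smul_comm, one_mul, smul_neg, smul_smul]
  norm_num

theorem toPerm_surj {σ : Perm (Fin n)} (hσ : pr σ = 0) : ∃ x : Alt2 n, toPerm n x = σ := by
  have h1 : σ ∈ alternatingGroup (Fin n) := pr_eq_zero.1 hσ
  have h2 : (alternatingGroup (Fin n)) ≤ (toPerm n).range := by
    rw [← Perm.closure_three_cycles_eq_alternating, Subgroup.closure_le]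
    intro τ hτ
    have h3 : Perm.IsThreeCycle τ := hτ
    obtain ⟨a, ha⟩ : ∃ a, a ∈ τ.support := by
      rw [← Finset.Nonempty, ← Finset.card_pos, h3.card_support]
      norm_num
    have h4 := h3.eq_swap_mul_swap_iff_mem_support.2 ha
    have h5 := h3.nodup_iff_mem_support.2 ha
    have hab : a ≠ τ a := fun h => by simp [← h] at h5
    have hbc : τ a ≠ τ (τ a) := fun h => by simp [← h] at h5
    exact ⟨dsw hab hbc, by rw [toPerm_dsw, ← h4]⟩
  exact h2 h1

instance : Finite (Alt2 n) := by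
  have h1 : Finite (toPerm n).ker := by
    apply Finite.of_injective (β := Bool) (fun x => by
      classical exact decide (x.1 = 1))
    rintro ⟨x, hx⟩ ⟨y, hy⟩ h
    apply Subtype.ext
    have h2 : (x = 1) ↔ (y = 1) := by
      simpa using h
    rcases toPerm_ker hx with hx1 | hx1 <;> rcases toPerm_ker hy with hy1 | hy1
    · exact hx1.trans hy1.symm
    · exact absurd (hy1.symm.trans (h2.1 hx1)) negOne_ne
    · exact absurd (hx1.symm.trans (h2.2 hy1)) negOne_ne
    · exact hx1.trans hy1.symm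
  have h2 : Finite (Alt2 n ⧸ (toPerm n).ker) :=
    Finite.of_injective _ (QuotientGroup.kerLift_injective (toPerm n))
  exact Finite.of_subgroup_quotient (toPerm n).ker

end Pool.Agent.T2H67.SA
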