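import Mathlib
import Pool.Agent.H84.L.A7_T2H67_SA_Cl
import Pool.Agent.H84.L.A7_T2H67_SA_Cl2
import Pool.Agent.H84.L.A7_T2H67_SA_Grp



/-!
# The action of the symmetric group on the double cover of the alternating group
-/

set_option autoImplicit false
set_option linter.unusedSectionVars false

namespace Pool.Agent.T2H67.SA

open Cl Equiv

variable {n : ℕ}

/- a lift of `σ` over `ℚ` -/
noncomputable def lft (σ : Perm (Fin n)) : (Cl n ℚ)ˣ := (exists_lf (k := ℚ) σ).choose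

theorem lf_lft (σ : Perm (Fin n)) : Lf σ (lft σ : Cl n ℚ) := (exists_lf (k := ℚ) σ).choose_spec

theorem conj_mem {σ : Perm (Fin n)} {y : (Cl n ℚ)ˣ} (hy : Lf σ (y : Cl n ℚ)) (a : Alt2 n) :
    y * a.1 * y⁻¹ ∈ Alt2 n := by
  rw [mem_alt2']
  refine ⟨σ * toPerm n a * σ⁻¹, ?_, ?_, ?_⟩
  · rw [pr_mul, pr_mul, pr_inv, pr_toPerm, add_zero, zadd]
  · exact (hy.mul (lf_toPerm a)).mul hy.inv
  · obtain ⟨c, hc, h⟩ := hy.norm_ne
    have h1 := inv_eq hc h
    have h2 := rev_mul_self hc h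
    set Y : Cl n ℚ := (y : Cl n ℚ) with hY
    set A : Cl n ℚ := (a.1 : Cl n ℚ) with hA
    have h3 : A * rev A = 1 := alt2_norm a
    change (Y * A * ((y⁻¹ : (Cl n ℚ)ˣ) : Cl n ℚ)) * rev (Y * A * ((y⁻¹ : (Cl n ℚ)ˣ) : Cl n ℚ)) = 1
    rw [h1, rev_mul, rev_mul, rev_smul, rev_rev]
    calc Y * A * (c⁻¹ • rev Y) * (c⁻¹ • Y * (rev A * rev Y))
        = (c⁻¹ * c⁻¹) • (Y * (A * (rev Y * Y) * rev A) * rev Y) := by
          simp only [mul_smul_comm, smul_mul_assoc, smul_smul, mul_assoc]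
      _ = 1 := by
          rw [h2, mul_smul_comm, mul_one, smul_mul_assoc, h3, mul_smul_comm, mul_one,
            smul_mul_assoc, h, smul_smul, smul_smul]
          have : c⁻¹ * c⁻¹ * c * c = 1 := by field_simp
          rw [this, one_smul]

/- conjugation by a scalar multiple -/
theorem conj_smul {x y : (Cl n ℚ)ˣ} {c : ℚ} (h : (y : Cl n ℚ) = c • (x : Cl n ℚ))
    (a : (Cl n ℚ)ˣ) : y * a * y⁻¹ = x * a * x⁻¹ := by
  rw [mul_inv_eq_iff_eq_mul]
  apply Units.ext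
  change (y : Cl n ℚ) * (a : Cl n ℚ) =
    (x : Cl n ℚ) * (a : Cl n ℚ) * ((x⁻¹ : (Cl n ℚ)ˣ) : Cl n ℚ) * (y : Cl n ℚ)
  rw [h, mul_smul_comm, mul_assoc, Units.inv_mul, mul_one, smul_mul_assoc]

/- The action of `S_n` on the double cover of `A_n`: conjugation by any lift. -/
noncomputable def act (n : ℕ) : Perm (Fin n) →* MulAut (Alt2 n) where
  toFun σ :=
    { toFun := fun a => ⟨lft σ * a.1 * (lft σ)⁻¹, conj_mem (lf_lft σ) a⟩
      invFun := fun a => ⟨(lft σ)⁻¹ * a.1 * lft σ, by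
        have := conj_mem (lf_lft σ).inv a
        rwa [inv_inv] at this⟩
      left_inv := fun a => by
        apply Subtype.ext
        change (lft σ)⁻¹ * (lft σ * a.1 * (lft σ)⁻¹) * lft σ = a.1
        group
      right_inv := fun a => by
        apply Subtype.ext
        change lft σ * ((lft σ)⁻¹ * a.1 * lft σ) * (lft σ)⁻¹ = a.1
        group
      map_mul' := fun a b => by
        apply Subtype.ext
        change lft σ * (a.1 * b.1) * (lft σ)⁻¹ = lft σ * a.1 * (lft σ)⁻¹ * (lft σ * b.1 * (lft σ)⁻¹)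
        group }
  map_one' := by
    apply MulEquiv.ext
    intro a
    apply Subtype.ext
    obtain ⟨c, hc, h⟩ := lf_unique (x := 1) Lf.one (lf_lft (1 : Perm (Fin n)))
    change lft 1 * a.1 * (lft 1)⁻¹ = a.1
    rw [conj_smul h, one_mul, inv_one, mul_one]
  map_mul' σ τ := by
    apply MulEquiv.ext
    intro a
    apply Subtype.ext
    obtain ⟨c, hc, h⟩ := lf_unique (x := lft σ * lft τ) ((lf_lft σ).mul (lf_lft τ)) (lf_lft (σ * τ))
    change lft (σ * τ) * a.1 * (lft (σ * τ))⁻¹ = lft σ * (lft τ * a.1 * (lft τ)⁻¹) * (lft σ)⁻¹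
    rw [conj_smul h]
    group

theorem act_eq {σ : Perm (Fin n)} {y : (Cl n ℚ)ˣ} (hy : Lf σ (y : Cl n ℚ)) (a : Alt2 n) :
    (act n σ a).1 = y * a.1 * y⁻¹ := by
  obtain ⟨c, hc, h⟩ := lf_unique hy (lf_lft σ)
  exact conj_smul h a.1

theorem toPerm_act (σ : Perm (Fin n)) (a : Alt2 n) :
    toPerm n (act n σ a) = σ * toPerm n a * σ⁻¹ := by
  apply toPerm_eq
  · rw [act_eq (lf_lft σ)]
    exact ((lf_lft σ).mul (lf_toPerm a)).mul (lf_lft σ).inv
  · rw [pr_mul, pr_mul, pr_inv, pr_toPerm, add_zero, zadd]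


end Pool.Agent.T2H67.SA
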