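import Mathlib
import Pool.Agent.H84.L.A7_T2H67_SA_Act
import Pool.Agent.H84.L.A7_T2H67_SA_Cl
import Pool.Agent.H84.L.A7_T2H67_SA_Grp
import Pool.Agent.H84.L.S8_TH444_TW_RSK

namespace Pool.Agent.H391R2
end Pool.Agent.H391R2
namespace Pool.Agent.H391R2.T4
end Pool.Agent.H391R2.T4
namespace Pool.Agent.TH444.TW
end Pool.Agent.TH444.TW


/-!
# Statements of the packages AUT and FIN
-/

set_option autoImplicit false

namespace Pool.Agent.T2H67.SA

open Pool.Agent.H391R2 Pool.Agent.H391R2.T4 Pool.Agent.TH444.TW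

/- Package AUT: the automorphisms of the alternating groups. -/
def AutStm : Prop :=
  ∀ n : ℕ, 5 ≤ n → n ≠ 6 → ∀ β : MulAut (alternatingGroup (Fin n)),
    ∃ σ : Equiv.Perm (Fin n), ∀ g : alternatingGroup (Fin n),
      ((β g : alternatingGroup (Fin n)) : Equiv.Perm (Fin n)) = σ * g * σ⁻¹

/- The local problems for the double covers. -/
def CoreStm : Prop := ∀ n : ℕ, 5 ≤ n → LocK ℚ (act n)


end Pool.Agent.T2H67.SA
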