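import Mathlib



/-!
# Automorphisms of alternating groups preserving the 3-cycles
-/

set_option autoImplicit false
set_option linter.unusedSectionVars false

namespace Pool.Agent.H302R6

open Equiv Equiv.Perm

variable {α : Type*} [Fintype α] [DecidableEq α]

/- the structure of a 3-cycle around a moved point -/
lemma three_struct {x : Perm α} (hx : x.IsThreeCycle) {p : α} (hp : x p ≠ p) :
    x (x (x p)) = p ∧ x (x p) ≠ p ∧ x (x p) ≠ x p ∧
      ∀ z, z ≠ p → z ≠ x p → z ≠ x (x p) → x z = z := by
  have h3 : x ^ 3 = 1 := by rw [← hx.orderOf]; exact pow_orderOf_eq_one x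
  have h1 : x (x (x p)) = p := by
    have := congrArg (fun f : Perm α => f p) h3
    simpa [pow_succ, Perm.mul_apply] using this
  have h2 : x (x p) ≠ p := by
    intro h
    rw [h] at h1
    exact hp h1
  have h4 : x (x p) ≠ x p := fun h => hp (x.injective h)
  refine ⟨h1, h2, h4, fun z hz1 hz2 hz3 => ?_⟩
  by_contra hz
  have hsub : ({z, p, x p, x (x p)} : Finset α) ⊆ x.support := by
    intro w hw
    simp only [Finset.mem_insert, Finset.mem_singleton] at hw
    rw [mem_support]
    rcases hw with rfl | rfl | rfl | rfl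
    · exact hz
    · exact hp
    · exact h4
    · rw [h1]; exact h2.symm
  have hcard : ({z, p, x p, x (x p)} : Finset α).card = 4 := by
    rw [Finset.card_insert_of_notMem, Finset.card_insert_of_notMem, Finset.card_insert_of_notMem,
      Finset.card_singleton]
    · simp only [Finset.mem_singleton]; exact h4.symm
    · simp only [Finset.mem_insert, Finset.mem_singleton, not_or]; exact ⟨hp.symm, h2.symm⟩
    · simp only [Finset.mem_insert, Finset.mem_singleton, not_or]; exact ⟨hz1, hz2, hz3⟩
  have := Finset.card_le_card hsub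
  rw [hcard, hx.card_support] at this
  omega

/- two 3-cycles whose product is an involution share a directed edge -/
lemma edge {x y : Perm α} (hx : x.IsThreeCycle) (hy : y.IsThreeCycle)
    (h2 : (x * y) * (x * y) = 1) (h1 : x * y ≠ 1) :
    ∃ p, x p ≠ p ∧ y p = x p ∧ y (x p) ≠ x (x p) := by
  have hZ : ∀ z, x (y (x (y z))) = z := by
    intro z
    have := congrArg (fun f : Perm α => f z) h2
    simpa [Perm.mul_apply] using this
  obtain ⟨s, hs1, hs2⟩ : ∃ s, y s ≠ s ∧ x s = s := by
    by_contra hcon
    push Not at hcon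
    obtain ⟨p, hp⟩ : ∃ p, y p ≠ p := by
      by_contra h
      push Not at h
      exact hy.ne_one (Equiv.ext h)
    obtain ⟨a1, a2, a3, a4⟩ := three_struct hy hp
    have m1 : x p ≠ p := hcon p hp
    have m2 : x (y p) ≠ y p := hcon (y p) a3
    have m3 : x (y (y p)) ≠ y (y p) := hcon (y (y p)) (by rw [a1]; exact a2.symm)
    obtain ⟨b1, b2, b3, b4⟩ := three_struct hx m1
    -- y p and y (y p) are in the support of x
    have c1 : y p = x p ∨ y p = x (x p) := by
      by_contra h
      push Not at h
      exact m2 (b4 (y p) hp h.1 h.2)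
    have c2 : y (y p) = x p ∨ y (y p) = x (x p) := by
      by_contra h
      push Not at h
      exact m3 (b4 (y (y p)) a2 h.1 h.2)
    rcases c1 with c1 | c1
    · rcases c2 with c2 | c2
      · exact a3 (c2.trans c1.symm)
      · -- y = x on the support
        have d1 := hZ p
        rw [c1] at d1 c2
        rw [← c2] at d1
        -- x (y (x (x p)))
        have e1 : x (x p) = y (y p) := by rw [c1, c2]
        have d2 : y (y (y p)) = p := a1
        have d3 := hZ p
        rw [c1, e1, d2] at d3
        exact m1 d3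
    · rcases c2 with c2 | c2
      · -- y = x⁻¹ on the support
        apply h1
        ext z
        rw [Perm.mul_apply, Perm.one_apply]
        by_cases z1 : z = p
        · rw [z1, c1, b1]
        by_cases z2 : z = y p
        · rw [z2, c2, c1]
        by_cases z3 : z = y (y p)
        · rw [z3, a1, c2]
        have e1 : y z = z := a4 z z1 z2 z3
        rw [e1]
        exact b4 z z1 (fun h => z3 (h.trans c2.symm)) (fun h => z2 (h.trans c1.symm))
      · exact a3 (c2.trans c1.symm)
  obtain ⟨a1, a2, a3, a4⟩ := three_struct hy hs1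
  -- y (x (y s)) = s
  have k1 : y (x (y s)) = s := by
    apply x.injective
    rw [hZ, hs2]
  have k2 : x (y s) = y (y s) := by
    apply y.injective
    rw [k1, a1]
  refine ⟨y s, ?_, k2.symm, ?_⟩
  · rw [k2]; exact a3
  · rw [k2, a1]
    intro h
    -- x (y (y s)) = s = x s
    have : y (y s) = s := by
      apply x.injective
      rw [← h, hs2]
    exact a2 this

/- three 3-cycles pairwise sharing a directed edge share a common one -/
lemma common_edge {x y w : Perm α} (hx : x.IsThreeCycle) (hy : y.IsThreeCycle)
    (hw : w.IsThreeCycle) {p : α} (hp : x p ≠ p) (hyp : y p = x p) (hyx : y (x p) ≠ x (x p))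
    (h1 : ∃ p', x p' ≠ p' ∧ w p' = x p') (h2 : ∃ p'', y p'' ≠ p'' ∧ w p'' = y p'') :
    w p = x p := by
  obtain ⟨a1, a2, a3, a4⟩ := three_struct hx hp
  have hp' : y p ≠ p := by rw [hyp]; exact hp
  obtain ⟨b1, b2, b3, b4⟩ := three_struct hy hp'
  rw [hyp] at b1 b2 b3 b4
  obtain ⟨p', m1, n1⟩ := h1
  obtain ⟨p'', m2, n2⟩ := h2
  -- q = x p, r = x q, s = y q
  set q := x p with hq
  set r := x q with hr
  set s := y q with hs
  have c1 : p' = p ∨ p' = q ∨ p' = r := by
    by_contra h
    push Not at h
    exact m1 (a4 p' h.1 h.2.1 h.2.2)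
  have c2 : p'' = p ∨ p'' = q ∨ p'' = s := by
    by_contra h
    push Not at h
    exact m2 (b4 p'' h.1 h.2.1 h.2.2)
  rcases c1 with rfl | rfl | rfl
  · rw [n1]
  · rcases c2 with rfl | rfl | rfl
    · rw [n2, hyp]
    · -- w q = r = s
      exact absurd (n2.symm.trans n1) hyx
    · -- w q = r, w s = p
      exfalso
      have e1 : w q = r := n1
      have e2 : w s = p := n2.trans b1
      have hwq : w q ≠ q := by rw [e1]; exact a3
      obtain ⟨f1, f2, f3, f4⟩ := three_struct hw hwq
      rw [e1] at f1 f2 f3 f4
      have hws : w s ≠ s := by rw [e2]; exact b2.symm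
      have g1 : s = w r := by
        by_contra h
        exact hws (f4 s b3 hyx h)
      rw [← g1, e2] at f1
      exact hp f1.symm
  · rcases c2 with rfl | rfl | rfl
    · rw [n2, hyp]
    · -- w r = p, w q = s
      exfalso
      have e1 : w r = p := n1.trans a1
      have e2 : w q = s := n2
      have hwq : w q ≠ q := by rw [e2]; exact b3
      obtain ⟨f1, f2, f3, f4⟩ := three_struct hw hwq
      rw [e2] at f1 f2 f3 f4
      have hwr : w r ≠ r := by rw [e1]; exact a2.symm
      have g1 : r = w s := by
        by_contra h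
        exact hwr (f4 r a3 hyx.symm h)
      rw [← g1, e1] at f1
      exact hp f1.symm
    · exfalso
      have e1 : w r = p := n1.trans a1
      have e2 : w s = p := n2.trans b1
      exact hyx (w.injective (e2.trans e1.symm))

/- A subgroup containing the star 3-cycles contains the alternating group. -/
lemma alt_le_of_star {K : Subgroup (Perm α)} {o e : α} (hoe : o ≠ e)
    (hK : ∀ i, i ≠ o → i ≠ e → swap o i * swap o e ∈ K) : alternatingGroup α ≤ K := by
  have h1 : ∀ i, i ≠ o → swap o i * swap o e ∈ K := by
    intro i hi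
    by_cases h : i = e
    · rw [h, swap_mul_self]; exact one_mem K
    · exact hK i hi h
  have h2 : ∀ i, i ≠ o → swap o e * swap o i ∈ K := by
    intro i hi
    have := inv_mem (h1 i hi)
    rwa [mul_inv_rev, swap_inv, swap_inv] at this
  have h3 : ∀ x y, x ≠ y → swap x y * swap o e ∈ K := by
    intro x y hxy
    by_cases hx : x = o
    · rw [hx]; exact h1 y (by rw [← hx]; exact hxy.symm)
    by_cases hy : y = o
    · rw [hy, swap_comm]; exact h1 x hx
    have h4 : swap x y = swap o x * swap o y * swap o x := by
      have h5 : swap o x * swap o y * swap o x = swap o x * swap o y * (swap o x)⁻¹ := by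
        rw [swap_inv]
      rw [h5, ← swap_apply_apply]
      rw [swap_apply_left, swap_apply_of_ne_of_ne hy hxy.symm]
    rw [h4]
    have h6 : swap o x * swap o y * swap o x * swap o e
        = (swap o x * swap o e) * (swap o e * swap o y) * (swap o x * swap o e) := by
      simp only [mul_assoc, swap_mul_self_mul]
    rw [h6]
    exact mul_mem (mul_mem (h1 x hx) (h2 y hy)) (h1 x hx)
  have h4 : ∀ x y, x ≠ y → swap o e * swap x y ∈ K := by
    intro x y hxy
    have := inv_mem (h3 x y hxy)
    rwa [mul_inv_rev, swap_inv, swap_inv] at this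
  have key : ∀ g : Perm α, (Perm.sign g = 1 → g ∈ K) ∧ (Perm.sign g = -1 → swap o e * g ∈ K) := by
    intro g
    induction g using swap_induction_on with
    | one => exact ⟨fun _ => one_mem K, fun h => by simp at h⟩
    | swap_mul f x y hxy ih =>
      rw [Perm.sign_mul, sign_swap hxy]
      constructor
      · intro h
        have h5 : Perm.sign f = -1 := by
          rcases Int.units_eq_one_or (Perm.sign f) with h6 | h6
          · rw [h6] at h; exact absurd h (by decide)
          · exact h6
        have h6 : swap x y * f = (swap x y * swap o e) * (swap o e * f) := by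
          simp only [mul_assoc, swap_mul_self_mul]
        rw [h6]
        exact mul_mem (h3 x y hxy) (ih.2 h5)
      · intro h
        have h5 : Perm.sign f = 1 := by
          rcases Int.units_eq_one_or (Perm.sign f) with h6 | h6
          · exact h6
          · rw [h6] at h; exact absurd h (by decide)
        rw [← mul_assoc]
        exact mul_mem (h4 x y hxy) (ih.1 h5)
  intro g hg
  exact (key g).1 (mem_alternatingGroup.mp hg)

/- the star 3-cycle through `o`, `e`, `i` is `o → e → i → o` -/
lemma star_apply {o e i : α} (hoe : o ≠ e) (hio : i ≠ o) (hie : i ≠ e) :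
    (swap o i * swap o e) o = e ∧ (swap o i * swap o e) e = i ∧ (swap o i * swap o e) i = o ∧
      ∀ z, z ≠ o → z ≠ e → z ≠ i → (swap o i * swap o e) z = z := by
  refine ⟨?_, ?_, ?_, fun z h1 h2 h3 => ?_⟩
  · rw [Perm.mul_apply, swap_apply_left, swap_apply_of_ne_of_ne hoe.symm hie.symm]
  · rw [Perm.mul_apply, swap_apply_right, swap_apply_left]
  · rw [Perm.mul_apply, swap_apply_of_ne_of_ne hio hie, swap_apply_right]
  · rw [Perm.mul_apply, swap_apply_of_ne_of_ne h1 h2, swap_apply_of_ne_of_ne h1 h3]

lemma star_isThree {o e i : α} (hoe : o ≠ e) (hio : i ≠ o) (hie : i ≠ e) :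
    (swap o i * swap o e).IsThreeCycle :=
  isThreeCycle_swap_mul_swap_same hio.symm hoe hie

/- products of two star 3-cycles are involutions -/
lemma star_mul {o e i j : α} (hoe : o ≠ e) (hio : i ≠ o) (hie : i ≠ e) (hjo : j ≠ o) (hje : j ≠ e)
    (hij : i ≠ j) :
    ((swap o i * swap o e) * (swap o j * swap o e)) * ((swap o i * swap o e) * (swap o j * swap o e))
      = 1 ∧ (swap o i * swap o e) * (swap o j * swap o e) ≠ 1 := by
  obtain ⟨a1, a2, a3, a4⟩ := star_apply hoe hio hie
  obtain ⟨b1, b2, b3, b4⟩ := star_apply hoe hjo hje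
  set x := swap o i * swap o e with hx
  set y := swap o j * swap o e with hy
  have xj : x j = j := a4 j hjo hje hij.symm
  have yi : y i = i := b4 i hio hie hij
  constructor
  · ext z
    simp only [Perm.mul_apply, Perm.one_apply]
    by_cases h1 : z = o
    · rw [h1, b1, a2, yi, a3]
    by_cases h2 : z = e
    · rw [h2, b2, xj, b3, a1]
    by_cases h3 : z = i
    · rw [h3, yi, a3, b1, a2]
    by_cases h4 : z = j
    · rw [h4, b3, a1, b2, xj]
    rw [b4 z h1 h2 h4, a4 z h1 h2 h3, b4 z h1 h2 h4, a4 z h1 h2 h3]
  · intro h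
    have := congrArg (fun f : Perm α => f o) h
    simp only [Perm.mul_apply, Perm.one_apply, b1, a2] at this
    exact hio this

/- An automorphism of the alternating group mapping 3-cycles to 3-cycles is conjugation by a
permutation. -/
theorem exists_perm (h5 : 5 ≤ Fintype.card α) (β : MulAut (alternatingGroup α))
    (h3 : ∀ g : alternatingGroup α, (g : Perm α).IsThreeCycle → ((β g : alternatingGroup α) :
      Perm α).IsThreeCycle) :
    ∃ σ : Perm α, ∀ g : alternatingGroup α, ((β g : alternatingGroup α) : Perm α) = σ * g * σ⁻¹ := by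
  classical
  obtain ⟨o, e, hoe⟩ : ∃ o e : α, o ≠ e := by
    have : 1 < Fintype.card α := by omega
    rw [Fintype.one_lt_card_iff] at this
    exact this
  -- the star 3-cycles and their images
  have hmem : ∀ i, i ≠ o → i ≠ e → swap o i * swap o e ∈ alternatingGroup α := by
    intro i h1 h2
    exact mem_alternatingGroup.mpr (star_isThree hoe h1 h2).sign
  let c : α → alternatingGroup α := fun i =>
    if h : i ≠ o ∧ i ≠ e then ⟨swap o i * swap o e, hmem i h.1 h.2⟩ else 1
  have hc : ∀ i, i ≠ o → i ≠ e → (c i : Perm α) = swap o i * swap o e := by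
    intro i h1 h2
    simp only [c, dif_pos (And.intro h1 h2)]
  let y : α → Perm α := fun i => (β (c i) : alternatingGroup α)
  have hy3 : ∀ i, i ≠ o → i ≠ e → (y i).IsThreeCycle := by
    intro i h1 h2
    apply h3
    rw [hc i h1 h2]
    exact star_isThree hoe h1 h2
  have hyR : ∀ i j, i ≠ o → i ≠ e → j ≠ o → j ≠ e → i ≠ j →
      (y i * y j) * (y i * y j) = 1 ∧ y i * y j ≠ 1 := by
    intro i j hio hie hjo hje hij
    obtain ⟨k1, k2⟩ := star_mul hoe hio hie hjo hje hij
    rw [← hc i hio hie, ← hc j hjo hje] at k1 k2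
    have k1' : (c i * c j) * (c i * c j) = 1 := Subtype.ext k1
    have k2' : c i * c j ≠ 1 := fun h => k2 (congrArg Subtype.val h)
    constructor
    · have := congrArg β k1'
      rw [map_mul, map_mul, map_one] at this
      exact congrArg Subtype.val this
    · intro h
      apply k2'
      apply β.injective
      rw [map_mul, map_one]
      exact Subtype.ext h
  have hedge : ∀ i j, i ≠ o → i ≠ e → j ≠ o → j ≠ e → i ≠ j →
      ∃ p, y i p ≠ p ∧ y j p = y i p ∧ y j (y i p) ≠ y i (y i p) := by
    intro i j hio hie hjo hje hij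
    obtain ⟨k1, k2⟩ := hyR i j hio hie hjo hje hij
    exact edge (hy3 i hio hie) (hy3 j hjo hje) k1 k2
  -- two further points
  obtain ⟨i₀, h0o, h0e⟩ : ∃ i₀, i₀ ≠ o ∧ i₀ ≠ e := by
    have : ∃ i₀ ∉ ({o, e} : Finset α), True := by
      by_contra hcon
      push Not at hcon
      have h1 : (Finset.univ : Finset α) ⊆ {o, e} := fun i _ => by
        by_contra h; exact (hcon i h)
      have h2 := Finset.card_le_card h1
      have h3 := Finset.card_le_two (a := o) (b := e)
      rw [Finset.card_univ] at h2
      omega
    obtain ⟨i₀, h, -⟩ := this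
    simp only [Finset.mem_insert, Finset.mem_singleton, not_or] at h
    exact ⟨i₀, h⟩
  obtain ⟨i₁, h1o, h1e, h10⟩ : ∃ i₁, i₁ ≠ o ∧ i₁ ≠ e ∧ i₁ ≠ i₀ := by
    have : ∃ i₁ ∉ ({o, e, i₀} : Finset α), True := by
      by_contra hcon
      push Not at hcon
      have h1 : (Finset.univ : Finset α) ⊆ {o, e, i₀} := fun i _ => by
        by_contra h; exact (hcon i h)
      have h2 := Finset.card_le_card h1
      have h3 := Finset.card_le_three (a := o) (b := e) (c := i₀)
      rw [Finset.card_univ] at h2
      omega
    obtain ⟨i₁, h, -⟩ := this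
    simp only [Finset.mem_insert, Finset.mem_singleton, not_or] at h
    exact ⟨i₁, h⟩
  obtain ⟨p, hp1, hp2, hp3⟩ := hedge i₀ i₁ h0o h0e h1o h1e h10.symm
  set q := y i₀ p with hq
  -- all images map p to q
  have hall : ∀ i, i ≠ o → i ≠ e → y i p = q := by
    intro i hio hie
    by_cases hi0 : i = i₀
    · rw [hi0]
    by_cases hi1 : i = i₁
    · rw [hi1]; exact hp2
    apply common_edge (hy3 i₀ h0o h0e) (hy3 i₁ h1o h1e) (hy3 i hio hie) hp1 hp2 hp3
    · obtain ⟨p', m1, m2, -⟩ := hedge i₀ i h0o h0e hio hie (Ne.symm hi0)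
      exact ⟨p', m1, m2⟩
    · obtain ⟨p', m1, m2, -⟩ := hedge i₁ i h1o h1e hio hie (Ne.symm hi1)
      exact ⟨p', m1, m2⟩
  have hpq : p ≠ q := hp1.symm
  let f : α → α := fun i => y i q
  have hstr : ∀ i, i ≠ o → i ≠ e → y i (f i) = p ∧ f i ≠ p ∧ f i ≠ q ∧
      ∀ z, z ≠ p → z ≠ q → z ≠ f i → y i z = z := by
    intro i hio hie
    have h1 : y i p ≠ p := by rw [hall i hio hie]; exact hpq.symm
    have h2 := three_struct (hy3 i hio hie) h1
    rw [hall i hio hie] at h2
    exact h2
  have hinj : ∀ i j, i ≠ o → i ≠ e → j ≠ o → j ≠ e → f i = f j → i = j := by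
    intro i j hio hie hjo hje hij
    obtain ⟨a1, a2, a3, a4⟩ := hstr i hio hie
    obtain ⟨b1, b2, b3, b4⟩ := hstr j hjo hje
    have h1 : y i = y j := by
      ext z
      by_cases z1 : z = p
      · rw [z1, hall i hio hie, hall j hjo hje]
      by_cases z2 : z = q
      · rw [z2]; exact hij
      by_cases z3 : z = f i
      · rw [z3, a1, hij, b1]
      rw [a4 z z1 z2 z3, b4 z z1 z2 (by rw [← hij]; exact z3)]
    have h2 : c i = c j := β.injective (Subtype.ext h1)
    have h3 : (c i : Perm α) e = (c j : Perm α) e := by rw [h2]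
    rw [hc i hio hie, hc j hjo hje, (star_apply hoe hio hie).2.1, (star_apply hoe hjo hje).2.1] at h3
    exact h3
  let s : α → α := fun x => if x = o then p else if x = e then q else f x
  have so : s o = p := if_pos rfl
  have se : s e = q := by
    change (if e = o then p else if e = e then q else f e) = q
    rw [if_neg hoe.symm, if_pos rfl]
  have si : ∀ i, i ≠ o → i ≠ e → s i = f i := by
    intro i h1 h2
    change (if i = o then p else if i = e then q else f i) = f i
    rw [if_neg h1, if_neg h2]
  have sinj : Function.Injective s := by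
    intro a b hab
    by_cases a1 : a = o
    · rw [a1, so] at hab
      by_cases b1 : b = o
      · rw [a1, b1]
      by_cases b2 : b = e
      · rw [b2, se] at hab; exact absurd hab hpq
      rw [si b b1 b2] at hab
      exact absurd hab.symm (hstr b b1 b2).2.1
    by_cases a2 : a = e
    · rw [a2, se] at hab
      by_cases b1 : b = o
      · rw [b1, so] at hab; exact absurd hab.symm hpq
      by_cases b2 : b = e
      · rw [a2, b2]
      rw [si b b1 b2] at hab
      exact absurd hab.symm (hstr b b1 b2).2.2.1
    rw [si a a1 a2] at hab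
    by_cases b1 : b = o
    · rw [b1, so] at hab
      exact absurd hab (hstr a a1 a2).2.1
    by_cases b2 : b = e
    · rw [b2, se] at hab
      exact absurd hab (hstr a a1 a2).2.2.1
    rw [si b b1 b2] at hab
    exact hinj a b a1 a2 b1 b2 hab
  let σ : Perm α := Equiv.ofBijective s (Finite.injective_iff_bijective.mp sinj)
  have hσ : ∀ x, σ x = s x := fun x => rfl
  have hstar : ∀ i, i ≠ o → i ≠ e → y i * σ = σ * (c i : Perm α) := by
    intro i hio hie
    obtain ⟨a1, a2, a3, a4⟩ := star_apply hoe hio hie
    obtain ⟨b1, b2, b3, b4⟩ := hstr i hio hie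
    rw [hc i hio hie]
    ext z
    rw [Perm.mul_apply, Perm.mul_apply, hσ, hσ]
    by_cases z1 : z = o
    · rw [z1, a1, so, se]; exact hall i hio hie
    by_cases z2 : z = e
    · rw [z2, a2, se, si i hio hie]
    by_cases z3 : z = i
    · rw [z3, a3, si i hio hie, so, b1]
    rw [a4 z z1 z2 z3, si z z1 z2]
    apply b4
    · exact (hstr z z1 z2).2.1
    · exact (hstr z z1 z2).2.2.1
    · intro h
      exact z3 (hinj z i z1 z2 hio hie h)
  -- equalizer
  let E : Subgroup (alternatingGroup α) :=
    { carrier := {g | ((β g : alternatingGroup α) : Perm α) = σ * g * σ⁻¹}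
      mul_mem' := by
        intro a b ha hb
        simp only [Set.mem_setOf_eq] at ha hb ⊢
        rw [map_mul, Subgroup.coe_mul, ha, hb, Subgroup.coe_mul]
        group
      one_mem' := by
        simp only [Set.mem_setOf_eq]
        rw [map_one, Subgroup.coe_one]
        group
      inv_mem' := by
        intro a ha
        simp only [Set.mem_setOf_eq] at ha ⊢
        rw [map_inv, Subgroup.coe_inv, ha, Subgroup.coe_inv]
        group }
  have hEmem : ∀ g, g ∈ E ↔ ((β g : alternatingGroup α) : Perm α) = σ * g * σ⁻¹ := fun g => Iff.rfl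
  have hK : alternatingGroup α ≤ E.map (alternatingGroup α).subtype := by
    apply alt_le_of_star hoe
    intro i h1 h2
    refine ⟨c i, ?_, hc i h1 h2⟩
    rw [SetLike.mem_coe, hEmem]
    have := hstar i h1 h2
    rw [← this, mul_inv_cancel_right]
  refine ⟨σ, fun g => ?_⟩
  obtain ⟨g', hg', hgg⟩ := hK g.2
  have : g' = g := Subtype.ext hgg
  rw [← this]
  exact hg'

end Pool.Agent.H302R6
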