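import Mathlib
import Pool.Agent.H84.L.A7_T2H67_SA_FinStm
import Pool.Agent.H84.L.S8_H302R6_AutA
import Pool.Agent.H84.L.S8_H302R6_AutB



/-!
# Package AUT: the automorphisms of the alternating groups
-/

set_option autoImplicit false

namespace Pool.Agent.T2H67.SA

open Equiv Equiv.Perm

lemma three_to_three5 (β : MulAut (alternatingGroup (Fin 5)))
    (g : alternatingGroup (Fin 5)) (hg : (g : Perm (Fin 5)).IsThreeCycle) :
    ((β g : alternatingGroup (Fin 5)) : Perm (Fin 5)).IsThreeCycle := by
  classical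
  have ho : orderOf ((β g : alternatingGroup (Fin 5)) : Perm (Fin 5)) = 3 := by
    rw [Subgroup.orderOf_coe, MulEquiv.orderOf_eq, ← Subgroup.orderOf_coe]
    exact hg.orderOf
  obtain ⟨k, hk⟩ := cycleType_prime_order (σ := ((β g : alternatingGroup (Fin 5)) : Perm (Fin 5)))
    (by rw [ho]; exact Nat.prime_three)
  rw [ho] at hk
  rcases Nat.eq_zero_or_pos k with h0 | h0
  · rw [h0] at hk
    exact hk
  exfalso
  have h1 := sum_cycleType ((β g : alternatingGroup (Fin 5)) : Perm (Fin 5))
  rw [hk, Multiset.sum_replicate, smul_eq_mul] at h1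
  have h2 := Finset.card_le_univ ((β g : alternatingGroup (Fin 5)) : Perm (Fin 5)).support
  rw [← h1, Fintype.card_fin] at h2
  omega

theorem aut_stm : AutStm := by
  intro n hn5 hn6 β
  by_cases h : n = 5
  · subst h
    exact Pool.Agent.H302R6.exists_perm (by rw [Fintype.card_fin]) β (three_to_three5 β)
  · exact Pool.Agent.H302R6.aut_alt (by rw [Fintype.card_fin]; omega) β

end Pool.Agent.T2H67.SA
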