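import Mathlib
import Pool.Agent.H84.L.A7_T2H67_SA_Cl
import Pool.Agent.H84.L.A7_T2H67_SA_Cl2
import Pool.Agent.H84.L.A7_T2H67_SA_Grp



/-!
# Normal subgroups of the double covers
-/

set_option autoImplicit false
set_option linter.unusedSectionVars false

namespace Pool.Agent.T2H67.SA

open Cl Equiv
open scoped commutatorElement

/- the projection to the alternating group -/
noncomputable def toAlt (n : ℕ) : Alt2 n →* alternatingGroup (Fin n) :=
  (toPerm n).codRestrict _ (fun x => pr_eq_zero.1 (pr_toPerm x))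

theorem toAlt_coe {n : ℕ} (x : Alt2 n) : ((toAlt n x : alternatingGroup (Fin n)) : Perm (Fin n)) =
    toPerm n x := rfl

theorem toAlt_surjective (n : ℕ) : Function.Surjective (toAlt n) := by
  rintro ⟨σ, hσ⟩
  obtain ⟨x, hx⟩ := toPerm_surj (pr_eq_zero.2 hσ)
  exact ⟨x, Subtype.ext hx⟩

theorem toAlt_eq_one {n : ℕ} {x : Alt2 n} : toAlt n x = 1 ↔ (x = 1 ∨ x = negOne n) := by
  constructor
  · intro h
    exact toPerm_ker (congrArg Subtype.val h)
  · rintro (rfl | rfl)
    · exact map_one _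
    · exact Subtype.ext toPerm_negOne

/- centre of the alternating groups -/
theorem alt_comm {n : ℕ} (hn : 5 ≤ n) {a : alternatingGroup (Fin n)}
    (h : ∀ b : alternatingGroup (Fin n), a * b = b * a) : a = 1 := by
  have h1 : a ∈ Subgroup.center (alternatingGroup (Fin n)) := by
    rw [Subgroup.mem_center_iff]
    intro b
    exact (h b).symm
  rw [alternatingGroup.center_eq_bot (by rw [Nat.card_eq_fintype_card, Fintype.card_fin]; omega)]
    at h1
  exact h1

theorem alt_simple {n : ℕ} (hn : 5 ≤ n) : IsSimpleGroup (alternatingGroup (Fin n)) :=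
  alternatingGroup.isSimpleGroup (by rw [Nat.card_eq_fintype_card, Fintype.card_fin]; omega)

/- centralizer of the alternating groups -/
theorem perm_comm {n : ℕ} (hn : 5 ≤ n) {σ : Perm (Fin n)}
    (h : ∀ b : alternatingGroup (Fin n), σ * b * σ⁻¹ = b) : σ = 1 := by
  by_contra hne
  have h1 : Nontrivial (Subgroup.centralizer (alternatingGroup (Fin n) : Set (Perm (Fin n)))) := by
    refine ⟨⟨⟨σ, ?_⟩, 1, fun h2 => hne (congrArg Subtype.val h2)⟩⟩
    rw [Subgroup.mem_centralizer_iff]
    intro b hb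
    have := h ⟨b, hb⟩
    rw [mul_inv_eq_iff_eq_mul] at this
    exact this.symm
  have h2 := Perm.alternatingGroup_le_of_normal
    (by rw [Nat.card_eq_fintype_card, Fintype.card_fin]; exact hn) h1
  have h3 : ∀ a b : alternatingGroup (Fin n), a * b = b * a := by
    intro a b
    have h4 := h2 a.2
    rw [Subgroup.mem_centralizer_iff] at h4
    exact Subtype.ext (h4 b.1 b.2).symm
  have := alt_simple hn
  obtain ⟨a, ha⟩ := exists_ne (1 : alternatingGroup (Fin n))
  exact ha (alt_comm hn (h3 a))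

/- A normal subgroup of the double cover with a noncentral element is everything. -/
theorem alt2_normal {n : ℕ} (hn : 5 ≤ n) (M : Subgroup (Alt2 n)) [hM : M.Normal]
    (h : ∃ x ∈ M, toAlt n x ≠ 1) : M = ⊤ := by
  have hs := alt_simple hn
  have h1 : (M.map (toAlt n)).Normal := hM.map _ (toAlt_surjective n)
  have h2 : M.map (toAlt n) = ⊤ := by
    rcases h1.eq_bot_or_eq_top with h2 | h2
    · exfalso
      obtain ⟨x, hx, hx1⟩ := h
      have h3 : toAlt n x ∈ M.map (toAlt n) := ⟨x, hx, rfl⟩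
      rw [h2] at h3
      exact hx1 h3
    · exact h2
  have hneg : negOne n ∈ M := by
    let i0 : Fin n := ⟨0, by omega⟩
    let i1 : Fin n := ⟨1, by omega⟩
    let i2 : Fin n := ⟨2, by omega⟩
    let i3 : Fin n := ⟨3, by omega⟩
    have e01 : i0 ≠ i1 := by simp [i0, i1]
    have e23 : i2 ≠ i3 := by simp [i2, i3]
    have e02 : i0 ≠ i2 := by simp [i0, i2]
    have e03 : i0 ≠ i3 := by simp [i0, i3]
    have e12 : i1 ≠ i2 := by simp [i1, i2]
    have e13 : i1 ≠ i3 := by simp [i1, i3]
    have h3 : toAlt n (dsw e01 e23) ∈ M.map (toAlt n) := by rw [h2]; trivial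
    obtain ⟨x, hx, hx1⟩ := h3
    have h4 := dsw_sq e01 e23 e02 e03 e12 e13
    have hx2 : toPerm n x = toPerm n (dsw e01 e23) :=
      congrArg (fun a : alternatingGroup (Fin n) => (a : Perm (Fin n))) hx1
    rcases eq_or_neg hx2 with h5 | h5
    · rw [← h4, h5]
      exact M.mul_mem hx hx
    · rw [← h4, h5]
      have h6 : negOne n * x * (negOne n * x) = x * x := by
        calc negOne n * x * (negOne n * x) = negOne n * (x * negOne n) * x := by group
          _ = negOne n * (negOne n * x) * x := by rw [negOne_comm x]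
          _ = (negOne n * negOne n) * (x * x) := by group
          _ = x * x := by rw [negOne_sq, one_mul]
      rw [h6]
      exact M.mul_mem hx hx
  rw [eq_top_iff]
  intro y _
  have h3 : toAlt n y ∈ M.map (toAlt n) := by rw [h2]; trivial
  obtain ⟨x, hx, hx1⟩ := h3
  have hx2 : toPerm n x = toPerm n y :=
    congrArg (fun a : alternatingGroup (Fin n) => (a : Perm (Fin n))) hx1
  rcases eq_or_neg hx2 with h5 | h5
  · rw [h5]; exact hx
  · rw [h5]; exact M.mul_mem hneg hx

/- The double covers are perfect. -/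
theorem alt2_perfect {n : ℕ} (hn : 5 ≤ n) : commutator (Alt2 n) = ⊤ := by
  apply alt2_normal hn
  have hs := alt_simple hn
  by_contra hcon
  push Not at hcon
  have h3 : ∀ a b : alternatingGroup (Fin n), a * b = b * a := by
    intro a b
    obtain ⟨x, rfl⟩ := toAlt_surjective n a
    obtain ⟨y, rfl⟩ := toAlt_surjective n b
    have h4 := hcon ⁅x, y⁆ (Subgroup.commutator_mem_commutator (Subgroup.mem_top x)
      (Subgroup.mem_top y))
    rw [map_commutatorElement, commutatorElement_eq_one_iff_mul_comm] at h4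
    exact h4
  obtain ⟨a, ha⟩ := exists_ne (1 : alternatingGroup (Fin n))
  exact ha (alt_comm hn (h3 a))

/- Two homomorphisms from a perfect group which agree modulo a central subgroup are equal. -/
theorem perfect_hom {X N : Type} [Group X] [Group N] (hX : commutator X = ⊤) (h₁ h₂ : X →* N)
    (hc : ∀ x, h₁ x * (h₂ x)⁻¹ ∈ Subgroup.center N) : h₁ = h₂ := by
  have h1 : commutator X ≤ MonoidHom.eqLocus h₁ h₂ := by
    rw [commutator_eq_closure, Subgroup.closure_le]
    rintro _ ⟨x, y, rfl⟩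
    change h₁ ⁅x, y⁆ = h₂ ⁅x, y⁆
    rw [map_commutatorElement, map_commutatorElement]
    have hx := Subgroup.mem_center_iff.1 (hc x)
    have hy := Subgroup.mem_center_iff.1 (hc y)
    have ex : h₁ x = (h₁ x * (h₂ x)⁻¹) * h₂ x := by group
    have ey : h₁ y = (h₁ y * (h₂ y)⁻¹) * h₂ y := by group
    generalize h₁ x * (h₂ x)⁻¹ = z at hx ex
    generalize h₁ y * (h₂ y)⁻¹ = z' at hy ey
    have e3 : ∀ w, w * z⁻¹ = z⁻¹ * w := by
      intro w
      rw [eq_inv_mul_iff_mul_eq, ← mul_assoc, ← hx, mul_assoc, mul_inv_cancel, mul_one]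
    have e4 : ∀ w, w * z'⁻¹ = z'⁻¹ * w := by
      intro w
      rw [eq_inv_mul_iff_mul_eq, ← mul_assoc, ← hy, mul_assoc, mul_inv_cancel, mul_one]
    rw [ex, ey, commutatorElement_def, commutatorElement_def]
    generalize h₂ x = a
    generalize h₂ y = b
    calc z * a * (z' * b) * (z * a)⁻¹ * (z' * b)⁻¹
        = z * (a * z') * b * a⁻¹ * z⁻¹ * (b⁻¹ * z'⁻¹) := by group
      _ = z * (z' * a) * b * a⁻¹ * z⁻¹ * (b⁻¹ * z'⁻¹) := by rw [hy a]
      _ = (z * z') * ((a * b * a⁻¹) * z⁻¹) * (b⁻¹ * z'⁻¹) := by group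
      _ = (z * z') * (z⁻¹ * (a * b * a⁻¹)) * (b⁻¹ * z'⁻¹) := by rw [e3]
      _ = (z * z' * z⁻¹) * ((a * b * a⁻¹ * b⁻¹) * z'⁻¹) := by group
      _ = (z * z' * z⁻¹) * (z'⁻¹ * (a * b * a⁻¹ * b⁻¹)) := by rw [e4]
      _ = (z' * z * z⁻¹) * (z'⁻¹ * (a * b * a⁻¹ * b⁻¹)) := by rw [hy z]
      _ = a * b * a⁻¹ * b⁻¹ := by group
  rw [hX] at h1
  apply MonoidHom.ext
  intro x
  exact h1 (Subgroup.mem_top x)

end Pool.Agent.T2H67.SA
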