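import Mathlib



/-!
# The kernels
-/

set_option autoImplicit false

namespace Pool.Agent.T2H67.SA

/- `N / Z(N)` is isomorphic to a finite direct product of alternating groups `A_d`, `5 ≤ d ≠ 6`;
if the degree `7` occurs, then `Z(N)` has no element of order `3`. -/
def CentAlt (N : Type) [Group N] : Prop :=
  ∃ (ι : Type) (_ : Finite ι) (d : ι → ℕ), (∀ i, 5 ≤ d i ∧ d i ≠ 6) ∧
    ((∃ i, d i = 7) → ∀ z ∈ Subgroup.center N, z ^ 3 = 1 → z = 1) ∧
    Nonempty (N ⧸ Subgroup.center N ≃* ((i : ι) → alternatingGroup (Fin (d i))))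

/- The subgroups `P` of `E` which are built up from `1` by steps `P ↦ N P`, where the subgroup `N`
is normalized by `P` and by `H₀` and satisfies `CentAlt`. -/
inductive Built {E : Type} [Group E] (H₀ : Subgroup E) : Subgroup E → Prop
  | one : Built H₀ ⊥
  | step (P N : Subgroup E) : Built H₀ P → (∀ x ∈ P ⊔ H₀, ∀ y ∈ N, x * y * x⁻¹ ∈ N) →
      CentAlt N → Built H₀ (N ⊔ P)

end Pool.Agent.T2H67.SA
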