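import Mathlib



/-!
# Package ALG: algebraic independence of the parameters
-/

set_option autoImplicit false

namespace Pool.Agent.T2H67.SA

open Polynomial

/- the algebraic closure of `F(u, t)` -/
abbrev Om (F : Type) [Field F] : Type := AlgebraicClosure (FractionRing F[X][X])

/- the first parameter -/
noncomputable def uu (F : Type) [Field F] : Om F := algebraMap F[X][X] (Om F) (C X)

/- the second parameter -/
noncomputable def tt (F : Type) [Field F] : Om F := algebraMap F[X][X] (Om F) X

/- Package ALG. -/
def AlgStm : Prop :=
  ∀ (K F : Type) [Field K] [CharZero K] [Field F] [Algebra K F] [Algebra.IsAlgebraic K F],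
    AlgebraicIndependent K ![uu F, tt F] ∧
    Algebra.IsAlgebraic (IntermediateField.adjoin K {uu F, tt F}) (Om F) ∧
    ∀ a b : Om F, Algebra.IsAlgebraic (IntermediateField.adjoin K {a, b}) (Om F) →
      AlgebraicIndependent K ![a, b]

end Pool.Agent.T2H67.SA
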