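import Mathlib
import Pool.Agent.H84.L.A7_T2H67_SA_AlgStm



/-!
# Package ALG: proof
-/

set_option autoImplicit false

namespace Pool.Agent.T2H67.SA

open Polynomial

namespace AlgAux

theorem trb (F : Type) [Field F] :
    IsTranscendenceBasis F (![tt F, uu F]) := by
  have h1 : IsTranscendenceBasis F (fun _ : Fin 1 => (X : F[X])) :=
    IsTranscendenceBasis.polynomial (Fin 1) F
  have h2 : IsTranscendenceBasis F[X] (fun _ : Fin 1 => (X : F[X][X])) :=
    IsTranscendenceBasis.polynomial (Fin 1) F[X]
  have h3 := h1.sumElim_comp h2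
  have hal1 : Algebra.IsAlgebraic F[X][X] (FractionRing F[X][X]) :=
    IsLocalization.isAlgebraic _ (nonZeroDivisors F[X][X])
  have hal2 : Algebra.IsAlgebraic (FractionRing F[X][X]) (Om F) := inferInstance
  have hal : Algebra.IsAlgebraic F[X][X] (Om F) :=
    Algebra.IsAlgebraic.trans F[X][X] (FractionRing F[X][X]) (Om F)
  have hfs : FaithfulSMul F[X][X] (Om F) := by
    refine (faithfulSMul_iff_algebraMap_injective F[X][X] (Om F)).mpr ?_
    rw [IsScalarTower.algebraMap_eq F[X][X] (FractionRing F[X][X]) (Om F), RingHom.coe_comp]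
    exact (algebraMap (FractionRing F[X][X]) (Om F)).injective.comp
      (IsFractionRing.injective F[X][X] (FractionRing F[X][X]))
  have h4 := h3.algebraMap_comp (A := Om F)
  rw [← isTranscendenceBasis_equiv (finSumFinEquiv (m := 1) (n := 1)).symm] at h4
  convert h4 using 1
  ext i
  fin_cases i
  · rfl
  · rfl

theorem trb' (F : Type) [Field F] :
    IsTranscendenceBasis F (![uu F, tt F]) := by
  have h := trb F
  rw [← isTranscendenceBasis_equiv (Equiv.swap (0 : Fin 2) 1)] at h
  convert h using 1
  ext i
  fin_cases i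
  · rfl
  · rfl

end AlgAux

open AlgAux in
theorem alg_stm : AlgStm := by
  intro K F _ _ _ _ _
  have hF := trb' F
  have hinj : Function.Injective (algebraMap K F) := (algebraMap K F).injective
  have hK : AlgebraicIndependent K ![uu F, tt F] := hF.1.restrictScalars hinj
  have htr1 : Algebra.trdeg K F = 0 := trdeg_eq_zero
  have htr2 : Algebra.trdeg F (Om F) = 2 := by
    rw [← hF.cardinalMk_eq_trdeg]
    simp
  have htr : Algebra.trdeg K (Om F) = 2 := by
    rw [← trdeg_add_eq K F, htr1, htr2, zero_add]
  have hr : ∀ a b : Om F, Set.range ![a, b] = {a, b} := by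
    intro a b
    ext x
    simp only [Set.mem_range, Fin.exists_fin_two, Set.mem_insert_iff, Set.mem_singleton_iff]
    simp [eq_comm]
  have hKB : IsTranscendenceBasis K ![uu F, tt F] :=
    hK.isTranscendenceBasis_of_trdeg_le_of_finite (by rw [htr]; simp)
  refine ⟨hK, ?_, ?_⟩
  · have h := hKB.isAlgebraic_field
    rw [hr] at h
    exact h
  · intro a b hab
    have hab' : Algebra.IsAlgebraic (Algebra.adjoin K (Set.range ![a, b])) (Om F) := by
      rw [hr]
      open scoped IntermediateField.algebraAdjoinAdjoin in
      exact (IsFractionRing.comap_isAlgebraic_iff (K := IntermediateField.adjoin K {a, b})).mpr hab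
    have hB : IsTranscendenceBasis K ![a, b] :=
      Algebra.IsAlgebraic.isTranscendenceBasis_of_le_trdeg_of_finite K ![a, b]
        (by rw [htr]; simp)
    exact hB.1

end Pool.Agent.T2H67.SA
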