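import Mathlib



/-!
# Package D: the Galois group of a Mestre family contains the alternating group

`F` is a field of characteristic `0`, `A = F[u][t]` (`Polynomial (Polynomial F)`; the inner variable
is `u`, the outer one is `t`). For `x, r : Fin n → F[u]` the polynomial
`mest x r = ∏ (X - x_i) - t ∑ r_i² ∏_{j ≠ i} (X - x_j)` lies in `A[X]`.
-/

set_option autoImplicit false

namespace Pool.Agent.T2H67.SA

open Polynomial

/- The polynomial `∏ (X - x_i) - t ∑ r_i² ∏_{j ≠ i} (X - x_j)`. -/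
noncomputable def mest {F : Type} [Field F] {n : ℕ} (x r : Fin n → F[X]) : F[X][X][X] :=
  ∏ i, (X - C (C (x i))) -
    C (X : F[X][X]) * ∑ i, C (C (r i ^ 2)) * ∏ j ∈ Finset.univ.erase i, (X - C (C (x j)))

/- The vector `r` is in the kernel of the matrix `1 / (x_i - x_j)`. -/
def Ker {R : Type} [CommRing R] {n : ℕ} (x r : Fin n → R) : Prop :=
  ∀ i, ∑ j ∈ Finset.univ.erase i, r j * ∏ k ∈ (Finset.univ.erase i).erase j, (x i - x k) = 0

/- At `u = c` the `x_i` are rational numbers, equal exactly for the pairs of the involution `m`,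
and not all `r_i` vanish. -/
def SpecAt {F : Type} [Field F] [CharZero F] {n : ℕ} (x r : Fin n → F[X])
    (m : Equiv.Perm (Fin n)) (c : F) : Prop :=
  m * m = 1 ∧ (∃ s : Fin n → ℚ, (∀ i, (x i).eval c = (s i : F)) ∧
    ∀ i j, s i = s j ↔ (j = i ∨ j = m i)) ∧ ∃ i, (r i).eval c ≠ 0

/- Package D. -/
def DStm : Prop :=
  ∀ (F : Type) [Field F] [CharZero F] (n : ℕ) (_ : Odd n) (_ : 5 ≤ n) (x r : Fin n → F[X])
    (_ : Ker x r) (m₁ m₂ : Equiv.Perm (Fin n)) (c₁ c₂ : F) (_ : SpecAt x r m₁ c₁)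
    (_ : SpecAt x r m₂ c₂) (_ : Nat.card {i // m₁ i = i} = n - 2)
    (_ : Nat.card {i // m₂ i = i} = 3)
    (_ : ∀ i, m₁ i ≠ i → m₂ i = i)
    (N : Type) [Field N] [Algebra (FractionRing F[X][X]) N]
    [FiniteDimensional (FractionRing F[X][X]) N] [IsGalois (FractionRing F[X][X]) N]
    (θ : Fin n → N)
    (_ : (mest x r).map ((algebraMap (FractionRing F[X][X]) N).comp
      (algebraMap F[X][X] (FractionRing F[X][X]))) = ∏ i, (X - C (θ i))),
    (∀ i, r i ≠ 0) ∧ Function.Injective x ∧ Function.Injective θ ∧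
    ∀ τ ∈ alternatingGroup (Fin n), ∃ g : N ≃ₐ[FractionRing F[X][X]] N, ∀ i, g (θ i) = θ (τ i)

end Pool.Agent.T2H67.SA
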