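import Mathlib
import Pool.Agent.H84.L.A7_T2H67_SA_DStm



/-!
# The orthogonal matrix of a Mestre family
-/

set_option autoImplicit false
set_option linter.unusedSectionVars false

namespace Pool.Agent.T2H67.SA

open Polynomial

variable {N : Type} [Field N] [CharZero N] {n : ℕ}

/- the sums `∑ r_k / (y - x_k)` -/
def Dn (x r : Fin n → N) (y : N) : N := ∑ k, r k / (y - x k)

/- the orthogonal matrix -/
def Um (x r θ : Fin n → N) (i j : Fin n) : N := r j / (θ i - x j) / Dn x r (θ i)

section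

variable {x r : Fin n → N} (hx : Function.Injective x) (hk : Ker x r)

include hx hk in
theorem ker_div (i : Fin n) : ∑ j ∈ Finset.univ.erase i, r j / (x i - x j) = 0 := by
  have h1 := hk i
  have h2 : (∏ k ∈ Finset.univ.erase i, (x i - x k)) ≠ 0 :=
    Finset.prod_ne_zero_iff.2 fun k hk' => sub_ne_zero.2 fun h =>
      (Finset.mem_erase.1 hk').1 (hx h).symm
  have h3 : ∑ j ∈ Finset.univ.erase i, r j * ∏ k ∈ (Finset.univ.erase i).erase j, (x i - x k) =
      (∑ j ∈ Finset.univ.erase i, r j / (x i - x j)) * ∏ k ∈ Finset.univ.erase i, (x i - x k) := by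
    rw [Finset.sum_mul]
    refine Finset.sum_congr rfl fun j hj => ?_
    have h4 : x i - x j ≠ 0 := sub_ne_zero.2 fun h => (Finset.mem_erase.1 hj).1 (hx h).symm
    rw [← Finset.mul_prod_erase _ _ hj]
    field_simp
  rw [h3] at h1
  exact (mul_eq_zero.1 h1).resolve_right h2

include hx hk in
theorem Dn_sq {y : N} (hy : ∀ j, y ≠ x j) :
    Dn x r y * Dn x r y = ∑ j, r j ^ 2 / (y - x j) ^ 2 := by
  have h0 : ∀ j, y - x j ≠ 0 := fun j => sub_ne_zero.2 (hy j)
  have h1 : Dn x r y * Dn x r y = ∑ j, ∑ l, (r j / (y - x j)) * (r l / (y - x l)) := by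
    rw [Dn, Finset.sum_mul_sum]
  -- the off diagonal part vanishes
  have h2 : ∀ j l, l ≠ j → (r j / (y - x j)) * (r l / (y - x l)) =
      (r j / (y - x j)) * (r l / (x j - x l)) + (r l / (y - x l)) * (r j / (x l - x j)) := by
    intro j l hjl
    have h3 : x j - x l ≠ 0 := sub_ne_zero.2 fun h => hjl (hx h).symm
    have h3' : x l - x j ≠ 0 := sub_ne_zero.2 fun h => hjl (hx h)
    have h4 := h0 j
    have h5 := h0 l
    have h6 : x l - x j = -(x j - x l) := by ring
    rw [h6]
    field_simp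
    ring
  have h3 : ∑ j, ∑ l ∈ Finset.univ.erase j, (r j / (y - x j)) * (r l / (x j - x l)) = 0 := by
    refine Finset.sum_eq_zero fun j _ => ?_
    rw [← Finset.mul_sum, ker_div hx hk, mul_zero]
  have h4 : ∑ j, ∑ l ∈ Finset.univ.erase j, (r l / (y - x l)) * (r j / (x l - x j)) = 0 := by
    rw [← h3]
    have h5 : ∀ f : Fin n → Fin n → N, ∑ j, ∑ l ∈ Finset.univ.erase j, f j l =
        ∑ j, ∑ l, if l = j then 0 else f j l := by
      intro f
      refine Finset.sum_congr rfl fun j _ => ?_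
      rw [← Finset.add_sum_erase Finset.univ _ (Finset.mem_univ j), if_pos rfl, zero_add]
      refine Finset.sum_congr rfl fun l hl => ?_
      rw [if_neg (Finset.mem_erase.1 hl).1]
    rw [h5, h5, Finset.sum_comm]
    refine Finset.sum_congr rfl fun j _ => Finset.sum_congr rfl fun l _ => ?_
    by_cases h : l = j
    · rw [if_pos h, if_pos h.symm]
    · rw [if_neg h, if_neg (Ne.symm h)]
  rw [h1]
  have h5 : ∀ j, ∑ l, (r j / (y - x j)) * (r l / (y - x l)) =
      r j ^ 2 / (y - x j) ^ 2 + (∑ l ∈ Finset.univ.erase j, (r j / (y - x j)) * (r l / (x j - x l)) +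
        ∑ l ∈ Finset.univ.erase j, (r l / (y - x l)) * (r j / (x l - x j))) := by
    intro j
    rw [← Finset.add_sum_erase Finset.univ _ (Finset.mem_univ j), ← Finset.sum_add_distrib]
    congr 1
    · have := h0 j
      field_simp
    · exact Finset.sum_congr rfl fun l hl => h2 j l (Finset.mem_erase.1 hl).1
  rw [Finset.sum_congr rfl fun j _ => h5 j, Finset.sum_add_distrib, Finset.sum_add_distrib, h3, h4,
    add_zero, add_zero]

end

section roots

variable {x r θ : Fin n → N} {t : N} (hx : Function.Injective x) (hθ : Function.Injective θ)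
  (hr : ∀ i, r i ≠ 0) (ht : t ≠ 0)
  (hH : (∏ i, (X - C (x i))) - C t * ∑ i, C (r i ^ 2) * ∏ j ∈ Finset.univ.erase i, (X - C (x j)) =
    ∏ i, (X - C (θ i)))

include hH in
theorem eval_root (i : Fin n) : (∏ j, (θ i - x j)) -
    t * ∑ j, r j ^ 2 * ∏ k ∈ Finset.univ.erase j, (θ i - x k) = 0 := by
  have hR : eval (θ i) (∏ l, (X - C (θ l))) = 0 := by
    rw [eval_prod]
    exact Finset.prod_eq_zero (Finset.mem_univ i) (by rw [eval_sub, eval_X, eval_C, sub_self])
  rw [← hH] at hR
  simpa only [eval_sub, eval_mul, eval_prod, eval_finsetSum, eval_X, eval_C] using hR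

include hx hr ht hH in
theorem root_ne (i j : Fin n) : θ i ≠ x j := by
  intro h
  have h1 := eval_root hH i
  rw [Finset.prod_eq_zero (Finset.mem_univ j) (by rw [h, sub_self]), zero_sub,
    neg_eq_zero, mul_eq_zero, or_iff_right ht,
    Finset.sum_eq_single j] at h1
  · rw [mul_eq_zero, or_iff_right (pow_ne_zero 2 (hr j)), Finset.prod_eq_zero_iff] at h1
    obtain ⟨k, hk, hk'⟩ := h1
    rw [h, sub_eq_zero] at hk'
    exact (Finset.mem_erase.1 hk).1 (hx hk').symm
  · intro k _ hk
    rw [Finset.prod_eq_zero (i := j), mul_zero]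
    · exact Finset.mem_erase.2 ⟨hk.symm, Finset.mem_univ _⟩
    · rw [h, sub_self]
  · intro h'
    exact absurd (Finset.mem_univ _) h'

include hx hr ht hH in
theorem t_mul (i : Fin n) : t * ∑ j, r j ^ 2 / (θ i - x j) = 1 := by
  have h0 : ∀ j, θ i - x j ≠ 0 := fun j => sub_ne_zero.2 (root_ne hx hr ht hH i j)
  have h1 := eval_root hH i
  have h2 : (∏ j, (θ i - x j)) ≠ 0 := Finset.prod_ne_zero_iff.2 fun j _ => h0 j
  have h3 : ∑ j, r j ^ 2 * ∏ k ∈ Finset.univ.erase j, (θ i - x k) =
      (∑ j, r j ^ 2 / (θ i - x j)) * ∏ j, (θ i - x j) := by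
    rw [Finset.sum_mul]
    refine Finset.sum_congr rfl fun j _ => ?_
    rw [← Finset.mul_prod_erase _ _ (Finset.mem_univ j)]
    have := h0 j
    field_simp
  rw [h3, ← mul_assoc] at h1
  apply mul_right_cancel₀ h2
  rw [one_mul]
  linear_combination -h1

include hx hθ hr ht hH in
theorem Dn_ne (hk : Ker x r) (i : Fin n) : Dn x r (θ i) ≠ 0 := by
  have h0 : ∀ j, θ i - x j ≠ 0 := fun j => sub_ne_zero.2 (root_ne hx hr ht hH i j)
  -- division of the polynomial by `X - θ i`
  have h1 : ∏ j ∈ Finset.univ.erase i, (X - C (θ j)) =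
      C t * ∑ j, C (r j ^ 2 / (θ i - x j)) * ∏ k ∈ Finset.univ.erase j, (X - C (x k)) := by
    apply mul_left_cancel₀ (X_sub_C_ne_zero (θ i))
    rw [Finset.mul_prod_erase Finset.univ (fun j => X - C (θ j)) (Finset.mem_univ i), ← hH]
    have h2 : ∀ j, (X - C (θ i)) * (C (r j ^ 2 / (θ i - x j)) *
        ∏ k ∈ Finset.univ.erase j, (X - C (x k))) =
        C (r j ^ 2 / (θ i - x j)) * ∏ k, (X - C (x k)) -
          C (r j ^ 2) * ∏ k ∈ Finset.univ.erase j, (X - C (x k)) := by
      intro j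
      rw [← Finset.mul_prod_erase Finset.univ (fun k => X - C (x k)) (Finset.mem_univ j)]
      have h3 : (X - C (θ i) : N[X]) = (X - C (x j)) - C (θ i - x j) := by
        rw [C_sub]
        ring
      have h4 : (C (r j ^ 2) : N[X]) = C (r j ^ 2 / (θ i - x j)) * C (θ i - x j) := by
        rw [← C_mul, div_mul_cancel₀ _ (h0 j)]
      rw [h4, h3]
      ring
    have h5 : (C t : N[X]) * ∑ j, C (r j ^ 2 / (θ i - x j)) = 1 := by
      rw [← map_sum, ← C_mul, t_mul hx hr ht hH, C_1]
    rw [mul_left_comm, Finset.mul_sum _ _ (X - C (θ i)), Finset.sum_congr rfl fun j _ => h2 j,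
      Finset.sum_sub_distrib, ← Finset.sum_mul, mul_sub, ← mul_assoc, h5, one_mul]
  have h2 := congrArg (eval (θ i)) h1
  simp only [eval_mul, eval_prod, eval_finsetSum, eval_sub, eval_X, eval_C] at h2
  have h3 : (∏ j ∈ Finset.univ.erase i, (θ i - θ j)) ≠ 0 :=
    Finset.prod_ne_zero_iff.2 fun j hj => sub_ne_zero.2 fun h =>
      (Finset.mem_erase.1 hj).1 (hθ h).symm
  have h4 : ∑ j, r j ^ 2 / (θ i - x j) * ∏ k ∈ Finset.univ.erase j, (θ i - x k) =
      (∑ j, r j ^ 2 / (θ i - x j) ^ 2) * ∏ k, (θ i - x k) := by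
    rw [Finset.sum_mul]
    refine Finset.sum_congr rfl fun j _ => ?_
    rw [← Finset.mul_prod_erase _ _ (Finset.mem_univ j)]
    have := h0 j
    field_simp
  intro h5
  apply h3
  rw [h2, h4, ← Dn_sq hx hk fun j => root_ne hx hr ht hH i j, h5]
  ring

include hx hθ hr ht hH in
/- **The orthogonal matrix.** -/
theorem Um_rows (hk : Ker x r) (i l : Fin n) :
    ∑ j, Um x r θ i j * Um x r θ l j = if i = l then 1 else 0 := by
  have h0 : ∀ i j, θ i - x j ≠ 0 := fun i j => sub_ne_zero.2 (root_ne hx hr ht hH i j)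
  have hD := Dn_ne hx hθ hr ht hH hk
  have h1 : ∑ j, Um x r θ i j * Um x r θ l j =
      (∑ j, r j ^ 2 / ((θ i - x j) * (θ l - x j))) / (Dn x r (θ i) * Dn x r (θ l)) := by
    rw [Finset.sum_div]
    refine Finset.sum_congr rfl fun j _ => ?_
    rw [Um, Um]
    have h2 := h0 i j
    have h3 := h0 l j
    have h4 := hD i
    have h5 := hD l
    field_simp
  rw [h1]
  by_cases hil : i = l
  · subst hil
    rw [if_pos rfl, Dn_sq hx hk fun j => root_ne hx hr ht hH i j]
    have h6 : ∑ j, r j ^ 2 / ((θ i - x j) * (θ i - x j)) = ∑ j, r j ^ 2 / (θ i - x j) ^ 2 :=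
      Finset.sum_congr rfl fun j _ => by rw [sq (θ i - x j)]
    rw [h6]
    apply div_self
    rw [← Dn_sq hx hk fun j => root_ne hx hr ht hH i j]
    exact mul_ne_zero (hD i) (hD i)
  · rw [if_neg hil]
    have h2 : θ l - θ i ≠ 0 := sub_ne_zero.2 fun h => hil (hθ h).symm
    have h3 : (∑ j, r j ^ 2 / ((θ i - x j) * (θ l - x j))) * (θ l - θ i) =
        ∑ j, r j ^ 2 / (θ i - x j) - ∑ j, r j ^ 2 / (θ l - x j) := by
      rw [Finset.sum_mul, ← Finset.sum_sub_distrib]
      refine Finset.sum_congr rfl fun j _ => ?_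
      have h4 := h0 i j
      have h5 := h0 l j
      field_simp
      ring
    have h4 : ∑ j, r j ^ 2 / (θ i - x j) = ∑ j, r j ^ 2 / (θ l - x j) := by
      apply mul_left_cancel₀ ht
      rw [t_mul hx hr ht hH, t_mul hx hr ht hH]
    rw [h4, sub_self] at h3
    rw [(mul_eq_zero.1 h3).resolve_right h2, zero_div]

include hx hθ hr ht hH in
theorem Um_cols (hk : Ker x r) (j l : Fin n) :
    ∑ i, Um x r θ i j * Um x r θ i l = if j = l then 1 else 0 := by
  have h1 : (Matrix.of (Um x r θ)) * (Matrix.of (Um x r θ)).transpose = 1 := by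
    ext i l
    rw [Matrix.mul_apply, Matrix.one_apply]
    exact Um_rows hx hθ hr ht hH hk i l
  have h2 := mul_eq_one_comm.1 h1
  have h3 := congrFun (congrFun h2 j) l
  rw [Matrix.mul_apply, Matrix.one_apply] at h3
  exact h3

end roots

end Pool.Agent.T2H67.SA
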