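import Mathlib
import Pool.Agent.H84.L.S8_H391R2_T4_Fam
import Pool.Agent.H84.L.S8_H391R2_T4_Red
import Pool.Agent.H84.L.S8_H391R2_T4_Sem

namespace Pool.Agent.H391R2.T4
end Pool.Agent.H391R2.T4


/-!
# Package REAL: from homomorphisms of Galois groups to regular solutions
-/

set_option autoImplicit false

namespace Pool.Agent.T2H67.SA

open Pool.Agent.H391R2.T4

/- the automorphisms of `Ω` over `K(a, b)` -/
def Fix2 (K Ω : Type) [Field K] [Field Ω] [Algebra K Ω] (a b : Ω) : Subgroup (Ω ≃ₐ[K] Ω) where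
  carrier := {g | g a = a ∧ g b = b}
  mul_mem' := fun {g h} hg hh => ⟨by rw [AlgEquiv.mul_apply, hh.1, hg.1],
    by rw [AlgEquiv.mul_apply, hh.2, hg.2]⟩
  one_mem' := ⟨rfl, rfl⟩
  inv_mem' := fun {g} hg => ⟨by
      have h1 : g⁻¹ (g a) = a := g.symm_apply_apply a
      rwa [hg.1] at h1, by
      have h1 : g⁻¹ (g b) = b := g.symm_apply_apply b
      rwa [hg.2] at h1⟩

/- Package REAL. -/
def RealStm : Prop :=
  ∀ (K L : Type) [Field K] [CharZero K] [Field L] [Algebra K L] [FiniteDimensional K L]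
    [IsGalois K L] (G : Type) [Group G] [Finite G] (α : G →* (L ≃ₐ[K] L))
    (_ : Function.Surjective α)
    (Ω : Type) [Field Ω] [IsAlgClosed Ω] [Algebra K Ω] [Algebra L Ω] [IsScalarTower K L Ω]
    (a b : Ω) (_ : AlgebraicIndependent K ![a, b])
    (_ : Algebra.IsAlgebraic (IntermediateField.adjoin K {a, b}) Ω)
    (Θ : Fix2 K Ω a b →* G)
    (_ : ∀ (g : Fix2 K Ω a b) (l : L),
      (g : Ω ≃ₐ[K] Ω) (algebraMap L Ω l) = algebraMap L Ω (α (Θ g) l))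
    (S : Finset Ω) (_ : ∀ g : Fix2 K Ω a b, (∀ y ∈ S, (g : Ω ≃ₐ[K] Ω) y = y) → Θ g = 1)
    (_ : ∀ w : G, α w = 1 → ∃ g : Fix2 K Ω a b, Θ g = w ∧
      ∀ y : Ω, IsAlgebraic K y → (g : Ω ≃ₐ[K] Ω) y = y),
    RegSol K L G α

end Pool.Agent.T2H67.SA
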