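import Mathlib
import Pool.Agent.H84.L.A7_T2H67_SA_Act
import Pool.Agent.H84.L.A7_T2H67_SA_Cl
import Pool.Agent.H84.L.A7_T2H67_SA_Cl2
import Pool.Agent.H84.L.A7_T2H67_SA_Grp
import Pool.Agent.H84.L.A7_T2H67_SA_Z



/-!
# The homomorphism to the semidirect product
-/

set_option autoImplicit false
set_option linter.unusedSectionVars false

namespace Pool.Agent.T2H67.SA

open Cl Equiv

variable {n : ℕ} {N : Type} [Field N] [CharZero N]

/- extension of scalars from `ℚ` -/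
def em (N : Type) [Field N] [CharZero N] : Cl n ℚ →+* Cl n N := Cl.map (algebraMap ℚ N)

theorem Lf.map {k k' : Type} [Field k] [Field k'] (q : k →+* k') {σ : Perm (Fin n)}
    {x : Cl n k} (hx : Lf σ x) : Lf σ (Cl.map q x) := by
  refine ⟨hx.1.map q, fun i => ?_⟩
  have h1 := congrArg (Cl.map q) (hx.2 i)
  rw [map_mul, Cl.map_smul, map_mul, map_e, map_e, sg_map] at h1
  exact h1

theorem Lf.em {σ : Perm (Fin n)} {x : Cl n ℚ} (hx : Lf σ x) : Lf σ (em N x) := hx.map _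

theorem em_inj {x y : Cl n ℚ} (h : em N x = em N y) : x = y := map_inj _ h

/- the unit `em x` -/
def emu (N : Type) [Field N] [CharZero N] : (Cl n ℚ)ˣ →* (Cl n N)ˣ :=
  Units.map (em (n := n) N).toMonoidHom


theorem em_smul (c : ℚ) (x : Cl n ℚ) : em N (c • x) = (c : N) • em N x := by
  rw [em, Cl.map_smul]
  rfl

theorem em_rev (x : Cl n ℚ) : em N (rev x) = rev (em N x) := map_rev _ x

theorem map_em (φ : N →+* N) (x : Cl n ℚ) : Cl.map φ (em N x) = em N x := by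
  rw [em, map_map]
  ext w
  rw [map_apply, map_apply, RingHom.comp_apply]
  exact map_ratCast φ (x w)

/- lifts and permuted vectors -/
theorem Lf.vc {k : Type} [Field k] {σ : Perm (Fin n)} {x : Cl n k} (hx : Lf σ x)
    (a : Fin n → k) : x * vc (fun i => a (σ i)) = sg k (pr σ) • (Cl.vc a * x) := by
  rw [Cl.vc, Cl.vc, Finset.mul_sum, Finset.sum_mul, Finset.smul_sum]
  refine Fintype.sum_equiv σ _ _ fun i => ?_
  rw [mul_smul_comm, hx.2, smul_mul_assoc, smul_comm]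

section key

variable {φ : N →+* N} {σ p : Perm (Fin n)} {U : Fin n → Fin n → N}
  (hUg : ∀ i j, φ (U i j) = U (σ i) (p j)) {δ : ZMod 2} {z : (Cl n N)ˣ}
  (hz0 : Hm 0 (z : Cl n N)) {β : N} (hβ : β ≠ 0) (hzβ : (z : Cl n N) * rev (z : Cl n N) = β • 1)
  (hz : ∀ j, col U j * (z : Cl n N) = sg N δ • ((z : Cl n N) * e j))

/- the image of a unit under a field homomorphism -/
def mu (φ : N →+* N) : (Cl n N)ˣ →* (Cl n N)ˣ := Units.map (Cl.map (n := n) φ).toMonoidHom


include hUg hz in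
theorem col_map (j : Fin n) : Cl.vc (fun i => U (σ i) (p j)) * Cl.map φ (z : Cl n N) =
    sg N δ • (Cl.map φ (z : Cl n N) * e j) := by
  have h1 := congrArg (Cl.map φ) (hz j)
  rw [map_mul, Cl.map_smul, map_mul, map_e, sg_map, col, map_vc] at h1
  simp only [hUg] at h1
  exact h1

include hz in
theorem inv_col (j : Fin n) : ((z⁻¹ : (Cl n N)ˣ) : Cl n N) * col U j =
    sg N δ • (e j * ((z⁻¹ : (Cl n N)ˣ) : Cl n N)) := by
  apply unit_cancel z
  apply z.isUnit.mul_right_cancel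
  rw [← mul_assoc, Units.mul_inv, one_mul, hz, mul_smul_comm, smul_mul_assoc, mul_assoc,
    mul_assoc, Units.inv_mul, mul_one]

include hUg hz0 hβ hzβ hz in
/- **The key relation.** -/
theorem key {x y : (Cl n N)ˣ} (hx : Lf σ (x : Cl n N)) (hy : Lf p (y : Cl n N)) :
    pr σ = pr p ∧ ∃ c : N, (x : Cl n N) * Cl.map φ (z : Cl n N) = c • ((z : Cl n N) * y) := by
  set w : (Cl n N)ˣ := z⁻¹ * x * mu φ z * y⁻¹ with hw
  have hwv : (w : Cl n N) = ((z⁻¹ : (Cl n N)ˣ) : Cl n N) * x * Cl.map φ (z : Cl n N) *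
      ((y⁻¹ : (Cl n N)ˣ) : Cl n N) := rfl
  -- the inverse of `z` is even
  have hzi : Hm 0 ((z⁻¹ : (Cl n N)ˣ) : Cl n N) := by
    rw [inv_eq hβ hzβ]
    exact hz0.rev.smul _
  have h1 : Hm (pr σ + pr p) (w : Cl n N) := by
    rw [hwv]
    have h2 := ((hzi.mul hx.1).mul (hz0.map φ)).mul hy.inv.1
    rwa [zero_add, add_zero, pr_inv] at h2
  have h2 : ∀ i, (w : Cl n N) * e i = sg N (pr σ + pr p) • (e i * (w : Cl n N)) := by
    intro i
    obtain ⟨j, rfl⟩ := p.surjective i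
    have hyj := hy.inv.2 (p j)
    rw [inv_app, pr_inv] at hyj
    have h3 := col_map hUg hz j
    have h4 : Cl.map φ (z : Cl n N) * e j =
        sg N δ • (Cl.vc (fun i => U (σ i) (p j)) * Cl.map φ (z : Cl n N)) := by
      rw [h3, smul_smul, sg_sq, one_smul]
    rw [hwv, mul_assoc, hyj, mul_smul_comm, ← mul_assoc, mul_assoc _ _ (e j), h4, mul_smul_comm,
      smul_mul_assoc]
    have h5 : (x : Cl n N) * Cl.vc (fun i => U (σ i) (p j)) =
        sg N (pr σ) • (col U (p j) * x) := hx.vc fun i => U i (p j)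
    rw [mul_assoc (((z⁻¹ : (Cl n N)ˣ) : Cl n N)) (x : Cl n N), ← mul_assoc (x : Cl n N), h5,
      smul_mul_assoc, mul_smul_comm, ← mul_assoc, ← mul_assoc, inv_col hz, smul_mul_assoc,
      smul_mul_assoc, smul_mul_assoc, smul_mul_assoc, smul_smul, smul_smul, smul_smul, sg_add]
    simp only [mul_assoc]
    congr 1
    have h6 : sg N δ * sg N δ = 1 := sg_sq δ
    linear_combination (sg N (pr p) * sg N (pr σ)) * h6
  have h3 : pr σ + pr p = 0 := by
    rcases zmod2 (pr σ + pr p) with h3 | h3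
    · exact h3
    · exfalso
      rw [h3] at h1 h2
      refine w.ne_zero (anti_zero h1 fun i => ?_)
      rw [h2, sg_one, neg_one_smul]
  rw [h3] at h1 h2
  obtain ⟨c, hc⟩ := scalar h1 fun i => by rw [h2, sg_zero, one_smul]
  refine ⟨?_, c, ?_⟩
  · have := zadd (pr p)
    linear_combination h3 - this
  · have h4 : z * w * y = x * mu φ z := by
      rw [hw]
      group
    have h5 := congrArg (fun t : (Cl n N)ˣ => (t : Cl n N)) h4
    change (z : Cl n N) * (w : Cl n N) * y = x * Cl.map φ (z : Cl n N) at h5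
    rw [← h5, hc, mul_smul_comm, mul_one, smul_mul_assoc]

/- the defining relation of the cocycle -/
def Rl (φ : N →+* N) (p : Perm (Fin n)) (z : (Cl n N)ˣ) (s : N) (a : Alt2 n) : Prop :=
  ∀ y : (Cl n ℚ)ˣ, Lf p (y : Cl n ℚ) →
    s • (em N (a.1 : Cl n ℚ) * em N (y : Cl n ℚ) * Cl.map φ (z : Cl n N)) =
      φ s • ((z : Cl n N) * em N (y : Cl n ℚ))

theorem rl_of {φ : N →+* N} {p : Perm (Fin n)} {z : (Cl n N)ˣ} {s : N} {a : Alt2 n}
    {y : (Cl n ℚ)ˣ} (hy : Lf p (y : Cl n ℚ))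
    (h : s • (em N (a.1 : Cl n ℚ) * em N (y : Cl n ℚ) * Cl.map φ (z : Cl n N)) =
      φ s • ((z : Cl n N) * em N (y : Cl n ℚ))) : Rl φ p z s a := by
  intro y' hy'
  obtain ⟨c, -, hc⟩ := lf_unique hy hy'
  rw [hc, em_smul, mul_smul_comm, mul_smul_comm, smul_mul_assoc, smul_comm s, h, smul_comm]

theorem rl_unique {φ : N →+* N} {p : Perm (Fin n)} {z : (Cl n N)ˣ} {s : N} (hs : s ≠ 0)
    {a b : Alt2 n} (ha : Rl φ p z s a) (hb : Rl φ p z s b) : a = b := by
  have hy := lf_lft p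
  have h1 := (ha _ hy).trans (hb _ hy).symm
  have h2 := smul_right_injective _ hs h1
  have h3 : IsUnit (Cl.map φ (z : Cl n N)) := (mu φ z).isUnit
  have h4 : IsUnit (em N (lft p : Cl n ℚ)) := (emu N (lft p)).isUnit
  have h5 := em_inj (h4.mul_right_cancel (h3.mul_right_cancel h2))
  exact Subtype.ext (Units.ext h5)


include hUg hz0 hβ hzβ hz in
/- existence -/
theorem rl_exists {s : N} (hs : s * s = β) :
    pr σ = pr p ∧ ∃ a : Alt2 n, Rl φ p z s a ∧ toPerm n a = σ * p⁻¹ := by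
  have h0 := key hUg hz0 hβ hzβ hz (x := emu N (lft σ)) (y := emu N (lft p))
    (lf_lft σ).em (lf_lft p).em
  refine ⟨h0.1, ?_⟩
  have hpar : pr (σ * p⁻¹) = 0 := by rw [pr_mul, pr_inv, h0.1, zadd]
  obtain ⟨x₀, hx₀⟩ := toPerm_surj hpar
  have hlx : Lf σ ((x₀.1 * lft p : (Cl n ℚ)ˣ) : Cl n ℚ) := by
    have h1 := (lf_toPerm x₀).mul (lf_lft p)
    rw [hx₀, inv_mul_cancel_right] at h1
    exact h1
  obtain ⟨-, c, hc⟩ := key hUg hz0 hβ hzβ hz (x := emu N (x₀.1 * lft p)) (y := emu N (lft p))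
    hlx.em (lf_lft p).em
  obtain ⟨ν, hν, hν'⟩ := (lf_lft p).norm_ne
  have hνN : em N (lft p : Cl n ℚ) * rev (em N (lft p : Cl n ℚ)) = (ν : N) • 1 := by
    rw [← em_rev, ← map_mul, hν', em_smul, map_one]
  have hx1 : em N (x₀.1 : Cl n ℚ) * rev (em N (x₀.1 : Cl n ℚ)) = 1 := by
    rw [← em_rev, ← map_mul, alt2_norm, map_one]
  have hc' : em N (x₀.1 : Cl n ℚ) * em N (lft p : Cl n ℚ) * Cl.map φ (z : Cl n N) =
      c • ((z : Cl n N) * em N (lft p : Cl n ℚ)) := by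
    have h1 : em N (x₀.1 : Cl n ℚ) * em N (lft p : Cl n ℚ) =
        em N ((x₀.1 : Cl n ℚ) * (lft p : Cl n ℚ)) := (map_mul _ _ _).symm
    rw [h1]
    exact hc
  have hzφ : Cl.map φ (z : Cl n N) * rev (Cl.map φ (z : Cl n N)) = (φ β) • 1 := by
    rw [← map_rev, ← map_mul, hzβ, Cl.map_smul, map_one]
  -- compare the norms
  have h2 : φ β * ν = c * c * (ν * β) := by
    apply smul_one_inj (n := n)
    have h3 := congrArg (fun t : Cl n N => t * rev t) hc'
    simp only [rev_mul, rev_smul] at h3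
    have e1 : em N (x₀.1 : Cl n ℚ) * em N (lft p : Cl n ℚ) * Cl.map φ (z : Cl n N) *
        (rev (Cl.map φ (z : Cl n N)) * (rev (em N (lft p : Cl n ℚ)) *
          rev (em N (x₀.1 : Cl n ℚ)))) = (φ β * ν) • 1 := by
      calc _ = em N (x₀.1 : Cl n ℚ) * (em N (lft p : Cl n ℚ) * (Cl.map φ (z : Cl n N) *
            rev (Cl.map φ (z : Cl n N))) * rev (em N (lft p : Cl n ℚ))) *
              rev (em N (x₀.1 : Cl n ℚ)) := by simp only [mul_assoc]
        _ = (φ β * ν) • 1 := by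
            rw [hzφ, mul_smul_comm, mul_one, smul_mul_assoc, hνN, mul_smul_comm, smul_mul_assoc,
              mul_smul_comm, mul_one, smul_mul_assoc, hx1, smul_smul]
    have e2 : c • ((z : Cl n N) * em N (lft p : Cl n ℚ)) *
        c • (rev (em N (lft p : Cl n ℚ)) * rev (z : Cl n N)) = (c * c * (ν * β)) • 1 := by
      calc _ = (c * c) • ((z : Cl n N) * (em N (lft p : Cl n ℚ) *
            rev (em N (lft p : Cl n ℚ))) * rev (z : Cl n N)) := by
            rw [smul_mul_smul_comm]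
            simp only [mul_assoc]
        _ = (c * c * (ν * β)) • 1 := by
            rw [hνN, mul_smul_comm, mul_one, smul_mul_assoc, hzβ, smul_smul, smul_smul, mul_assoc]
    rw [← e1, ← e2, h3]
  have hνN0 : (ν : N) ≠ 0 := by exact_mod_cast hν
  have h3 : φ s * φ s = (c * s) * (c * s) := by
    rw [← map_mul, hs]
    apply mul_right_cancel₀ hνN0
    rw [h2, ← hs]
    ring
  rcases mul_self_eq_mul_self_iff.1 h3 with h4 | h4
  · refine ⟨x₀, rl_of (lf_lft p) ?_, hx₀⟩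
    rw [hc', smul_smul, h4, mul_comm]
  · refine ⟨negOne n * x₀, rl_of (lf_lft p) ?_, ?_⟩
    · have h5 : em N ((negOne n * x₀ : Alt2 n).1 : Cl n ℚ) = -em N (x₀.1 : Cl n ℚ) := by
        change em N ((-1 : Cl n ℚ) * (x₀.1 : Cl n ℚ)) = _
        rw [neg_one_mul, map_neg]
      rw [h5, neg_mul, neg_mul, hc', h4, smul_neg, smul_smul, neg_smul, mul_comm]
    · rw [map_mul, toPerm_negOne, one_mul, hx₀]

/- multiplicativity -/
theorem Rl.mul {φ φ' φ'' : N →+* N} (hφ : ∀ x, φ'' x = φ (φ' x)) {p p' : Perm (Fin n)}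
    {z : (Cl n N)ˣ} {s : N} (hs : s ≠ 0) {a b : Alt2 n} (ha : Rl φ p z s a)
    (hb : Rl φ' p' z s b) : Rl φ'' (p * p') z s (a * act n p b) := by
  have hy := lf_lft p
  have hy' := lf_lft p'
  apply rl_of (y := lft p * lft p') (hy.mul hy')
  have h1 := congrArg (Cl.map φ) (hb _ hy')
  rw [Cl.map_smul, Cl.map_smul, map_mul, map_mul, map_mul, map_em, map_em] at h1
  have h2 : Cl.map φ'' (z : Cl n N) = Cl.map φ (Cl.map φ' (z : Cl n N)) := by
    ext w
    exact hφ _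
  have h3 := ha _ hy
  rw [h2, hφ]
  have e1 : em N ((a * act n p b : Alt2 n).1 : Cl n ℚ) *
      em N ((lft p * lft p' : (Cl n ℚ)ˣ) : Cl n ℚ) =
      em N (a.1 : Cl n ℚ) * em N (lft p : Cl n ℚ) * (em N (b.1 : Cl n ℚ) *
        em N (lft p' : Cl n ℚ)) := by
    rw [← map_mul, ← map_mul, ← map_mul, ← map_mul]
    congr 1
    have e2 : ((a * act n p b : Alt2 n).1 * (lft p * lft p') : (Cl n ℚ)ˣ) =
        a.1 * lft p * (b.1 * lft p') := by
      change a.1 * (act n p b).1 * (lft p * lft p') = _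
      rw [act_eq (lf_lft p)]
      group
    exact congrArg (fun t : (Cl n ℚ)ˣ => (t : Cl n ℚ)) e2
  have hs' : φ s ≠ 0 := (map_ne_zero φ).2 hs
  rw [e1, mul_assoc]
  have h4 : em N (b.1 : Cl n ℚ) * em N (lft p' : Cl n ℚ) *
      Cl.map φ (Cl.map φ' (z : Cl n N)) = ((φ s)⁻¹ * φ (φ' s)) •
        (Cl.map φ (z : Cl n N) * em N (lft p' : Cl n ℚ)) := by
    rw [mul_smul, ← h1, smul_smul, inv_mul_cancel₀ hs', one_smul]
  rw [h4, mul_smul_comm, ← mul_assoc, smul_comm s, ← smul_mul_assoc, h3, smul_mul_assoc,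
    smul_smul]
  have e3 : em N ((lft p * lft p' : (Cl n ℚ)ˣ) : Cl n ℚ) =
      em N (lft p : Cl n ℚ) * em N (lft p' : Cl n ℚ) := map_mul _ _ _
  rw [e3, ← mul_assoc (z : Cl n N)]
  congr 1
  field_simp

end key

end Pool.Agent.T2H67.SA
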