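import Mathlib
import Pool.Agent.H84.L.A7_T2H67_SA_Act
import Pool.Agent.H84.L.A7_T2H67_SA_Cl
import Pool.Agent.H84.L.A7_T2H67_SA_Cl2
import Pool.Agent.H84.L.A7_T2H67_SA_DStm
import Pool.Agent.H84.L.A7_T2H67_SA_Grp
import Pool.Agent.H84.L.A7_T2H67_SA_Orth
import Pool.Agent.H84.L.A7_T2H67_SA_RealStm
import Pool.Agent.H84.L.A7_T2H67_SA_Theta
import Pool.Agent.H84.L.A7_T2H67_SA_Z
import Pool.Agent.H84.L.S8_H391R2_T4_Sem



/-!
# The homomorphism of a Mestre family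
-/

set_option autoImplicit false
set_option linter.unusedSectionVars false

namespace Pool.Agent.T2H67.SA

open Polynomial Equiv

section setup

variable {K L Ω : Type} [Field K] [CharZero K] [Field L] [Algebra K L] [FiniteDimensional K L]
  [IsGalois K L] [Field Ω] [Algebra K Ω] [Algebra L Ω] [IsScalarTower K L Ω]

/- restriction to `L` -/
noncomputable def rho (K L Ω : Type) [Field K] [Field L] [Algebra K L] [FiniteDimensional K L]
    [IsGalois K L] [Field Ω] [Algebra K Ω] [Algebra L Ω] [IsScalarTower K L Ω] :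
    (Ω ≃ₐ[K] Ω) →* (L ≃ₐ[K] L) := AlgEquiv.restrictNormalHom L

theorem rho_spec (g : Ω ≃ₐ[K] Ω) (l : L) :
    g (algebraMap L Ω l) = algebraMap L Ω (rho K L Ω g l) :=
  (AlgEquiv.restrictNormal_commutes g L l).symm

theorem map_aeval {g : Ω ≃ₐ[K] Ω} {u : Ω} (hu : g u = u) (p : L[X]) :
    g (aeval u p) = aeval u (p.map ((rho K L Ω g : L ≃ₐ[K] L) : L →+* L)) := by
  have h1 := hom_eval₂ p (algebraMap L Ω) (g : Ω →+* Ω) u
  have h2 : (g : Ω →+* Ω).comp (algebraMap L Ω) =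
      (algebraMap L Ω).comp ((rho K L Ω g : L ≃ₐ[K] L) : L →+* L) := by
    ext l
    exact rho_spec g l
  rw [h2] at h1
  rw [aeval_def, aeval_def, eval₂_map]
  have h3 : (g : Ω →+* Ω) u = u := hu
  rw [h3] at h1
  exact h1

variable {n : ℕ} {u t : Ω} {x r : Fin n → Ω} {p : (Ω ≃ₐ[K] Ω) → Perm (Fin n)}

/- the polynomial at a point -/
def Hv (t : Ω) (x r : Fin n → Ω) (y : Ω) : Ω :=
  (∏ j, (y - x j)) - t * ∑ j, r j ^ 2 * ∏ k ∈ Finset.univ.erase j, (y - x k)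

theorem Hv_map (g : Ω ≃ₐ[K] Ω) (p : Perm (Fin n)) (ht : g t = t) (hx : ∀ i, g (x i) = x (p i))
    (hr : ∀ i, g (r i) = r (p i)) (y : Ω) : g (Hv t x r y) = Hv t x r (g y) := by
  rw [Hv, Hv, map_sub, map_mul, ht, map_prod, map_sum]
  congr 1
  · refine Fintype.prod_equiv p _ _ fun i => ?_
    rw [map_sub, hx]
  · congr 1
    refine Fintype.sum_equiv p _ _ fun i => ?_
    rw [map_mul, map_pow, hr, map_prod]
    congr 1
    refine Finset.prod_bij (fun k _ => p k) ?_ ?_ ?_ ?_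
    · intro k hk
      exact Finset.mem_erase.2 ⟨fun h => (Finset.mem_erase.1 hk).1 (p.injective h),
        Finset.mem_univ _⟩
    · intro a _ b _ h
      exact p.injective h
    · intro k hk
      refine ⟨p⁻¹ k, Finset.mem_erase.2 ⟨?_, Finset.mem_univ _⟩, ?_⟩
      · rintro rfl
        exact (Finset.mem_erase.1 hk).1 (p.apply_symm_apply k).symm
      · exact p.apply_symm_apply k
    · intro k _
      rw [map_sub, hx]

theorem exists_sigma {W : Type} [Group W] (c : W →* (Ω ≃ₐ[K] Ω)) {θ : Fin n → Ω}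
    (hθ : Function.Injective θ) (h : ∀ g i, ∃ j, c g (θ i) = θ j) :
    ∃ σ : W →* Perm (Fin n), ∀ g i, c g (θ i) = θ (σ g i) := by
  choose f hf using h
  have hinj : ∀ g, Function.Injective (f g) := by
    intro g i j hij
    apply hθ
    apply (c g).injective
    rw [hf, hf, hij]
  refine ⟨{ toFun := fun g => Equiv.ofBijective (f g) (Finite.injective_iff_bijective.1 (hinj g))
            map_one' := ?_
            map_mul' := ?_ }, fun g i => hf g i⟩
  · apply Equiv.ext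
    intro i
    apply hθ
    change θ (f 1 i) = θ i
    rw [← hf, map_one]
    rfl
  · intro g h
    apply Equiv.ext
    intro i
    apply hθ
    change θ (f (g * h) i) = θ (f g (f h i))
    rw [← hf, ← hf, ← hf, map_mul]
    rfl

variable [CharZero Ω] [IsAlgClosed Ω]

/- **The homomorphism.** -/
theorem exists_theta (hn : Odd n) (ψ : (L ≃ₐ[K] L) →* Perm (Fin n))
    (hx : Function.Injective x) (hr : ∀ i, r i ≠ 0) (ht : t ≠ 0) (hk : Ker x r)
    {θ : Fin n → Ω} (hθ : Function.Injective θ)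
    (hH : (∏ i, (X - C (x i))) - C t * ∑ i, C (r i ^ 2) * ∏ j ∈ Finset.univ.erase i, (X - C (x j)) =
      ∏ i, (X - C (θ i)))
    (hgx : ∀ g : Ω ≃ₐ[K] Ω, g u = u → ∀ i, g (x i) = x (ψ (rho K L Ω g) i))
    (hgr : ∀ g : Ω ≃ₐ[K] Ω, g u = u → ∀ i, g (r i) = r (ψ (rho K L Ω g) i)) :
    ∃ (σ : Fix2 K Ω u t →* Perm (Fin n))
      (Θ : Fix2 K Ω u t →* Alt2 n ⋊[(act n).comp ψ] (L ≃ₐ[K] L)),
      (∀ (g : Fix2 K Ω u t) i, (g : Ω ≃ₐ[K] Ω) (θ i) = θ (σ g i)) ∧
      (∀ g : Fix2 K Ω u t, (Θ g).right = rho K L Ω g) ∧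
      (∀ g : Fix2 K Ω u t, toPerm n (Θ g).left = σ g * (ψ (rho K L Ω g))⁻¹) ∧
      ∃ S : Finset Ω, ∀ g : Fix2 K Ω u t, (∀ y ∈ S, (g : Ω ≃ₐ[K] Ω) y = y) → Θ g = 1 := by
  classical
  have hroot : ∀ y, Hv t x r y = 0 → ∃ j, y = θ j := by
    intro y hy
    have h1 := congrArg (eval y) hH
    rw [eval_prod] at h1
    have h2 : eval y ((∏ i, (X - C (x i))) - C t * ∑ i, C (r i ^ 2) *
        ∏ j ∈ Finset.univ.erase i, (X - C (x j))) = Hv t x r y := by
      rw [Hv]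
      simp only [eval_sub, eval_mul, eval_prod, eval_finsetSum, eval_X, eval_C]
    rw [h2, hy] at h1
    obtain ⟨j, -, hj⟩ := Finset.prod_eq_zero_iff.1 h1.symm
    refine ⟨j, ?_⟩
    rw [eval_sub, eval_X, eval_C] at hj
    exact sub_eq_zero.1 hj
  obtain ⟨σ, hσ⟩ := exists_sigma (W := Fix2 K Ω u t) (Fix2 K Ω u t).subtype hθ (by
    intro g i
    apply hroot
    have h1 := Hv_map (g : Ω ≃ₐ[K] Ω) (ψ (rho K L Ω g)) g.2.2 (hgx g g.2.1) (hgr g g.2.1) (θ i)
    have h2 : Hv t x r (θ i) = 0 := eval_root hH i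
    rw [h2, map_zero] at h1
    exact h1.symm)
  have hσ' : ∀ (g : Fix2 K Ω u t) i, (g : Ω ≃ₐ[K] Ω) (θ i) = θ (σ g i) := hσ
  have hU : ON (Um x r θ) := fun j l => Um_cols hx hθ hr ht hH hk j l
  have hUg : ∀ (g : Fix2 K Ω u t) i j, ((g : Ω ≃ₐ[K] Ω) : Ω →+* Ω) (Um x r θ i j) =
      Um x r θ (σ g i) (ψ (rho K L Ω g) j) := by
    intro g i j
    have h1 : (g : Ω ≃ₐ[K] Ω) (Dn x r (θ i)) = Dn x r (θ (σ g i)) := by
      rw [Dn, Dn, map_sum]
      refine Fintype.sum_equiv (ψ (rho K L Ω g)) _ _ fun k => ?_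
      rw [map_div₀, map_sub, hgx g g.2.1, hgr g g.2.1, hσ']
    change (g : Ω ≃ₐ[K] Ω) (Um x r θ i j) = _
    rw [Um, Um, map_div₀, map_div₀, map_sub, hgx g g.2.1, hgr g g.2.1, hσ', h1]
  obtain ⟨δ, z, hz0, ⟨β, hβ, hzβ⟩, hz⟩ := exists_z hn hU
  obtain ⟨s, hs⟩ : ∃ s : Ω, s * s = β := by
    obtain ⟨s, hs⟩ := IsAlgClosed.exists_pow_nat_eq β (n := 2) (by norm_num)
    exact ⟨s, by rw [← hs, sq]⟩
  have hs0 : s ≠ 0 := by
    rintro rfl
    rw [mul_zero] at hs
    exact hβ hs.symm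
  have hex := fun g : Fix2 K Ω u t => (rl_exists (hUg g) hz0 hβ hzβ hz hs).2
  choose a ha ha' using hex
  let Θ : Fix2 K Ω u t →* Alt2 n ⋊[(act n).comp ψ] (L ≃ₐ[K] L) :=
    MonoidHom.mk' (fun g => ⟨a g, rho K L Ω g⟩) (by
      intro g h
      apply SemidirectProduct.ext
      · change a (g * h) = a g * act n (ψ (rho K L Ω g)) (a h)
        apply rl_unique hs0 (ha (g * h))
        have h1 := Rl.mul (φ'' := ((g * h : Fix2 K Ω u t) : Ω ≃ₐ[K] Ω)) (fun _ => rfl) hs0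
          (ha g) (ha h)
        have h2 : ψ (rho K L Ω g) * ψ (rho K L Ω h) =
            ψ (rho K L Ω ((g * h : Fix2 K Ω u t) : Ω ≃ₐ[K] Ω)) := by
          rw [Subgroup.coe_mul, map_mul, map_mul]
        rw [h2] at h1
        exact h1
      · change rho K L Ω ((g * h : Fix2 K Ω u t) : Ω ≃ₐ[K] Ω) = rho K L Ω g * rho K L Ω h
        rw [Subgroup.coe_mul, map_mul])
  refine ⟨σ, Θ, hσ', fun _ => rfl, ha', ?_⟩
  let bs := Module.finBasis K L
  refine ⟨insert s ((Finset.univ.image fun w : V2 n => (z : Cl n Ω) w) ∪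
    Finset.univ.image fun i => algebraMap L Ω (bs i)), fun g hg => ?_⟩
  have h1 : rho K L Ω g = 1 := by
    apply AlgEquiv.toLinearMap_injective
    apply bs.ext
    intro i
    apply (algebraMap L Ω).injective
    change algebraMap L Ω (rho K L Ω g (bs i)) = algebraMap L Ω (bs i)
    rw [← rho_spec]
    exact hg _ (Finset.mem_insert_of_mem (Finset.mem_union_right _
      (Finset.mem_image.2 ⟨i, Finset.mem_univ i, rfl⟩)))
  have h2 : Cl.map ((g : Ω ≃ₐ[K] Ω) : Ω →+* Ω) (z : Cl n Ω) = z := by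
    ext w
    rw [Cl.map_apply]
    exact hg _ (Finset.mem_insert_of_mem (Finset.mem_union_left _
      (Finset.mem_image.2 ⟨w, Finset.mem_univ w, rfl⟩)))
  have h3 : ((g : Ω ≃ₐ[K] Ω) : Ω →+* Ω) s = s := hg _ (Finset.mem_insert_self _ _)
  have h4 : a g = 1 := by
    have h5 := ha g 1 (by rw [h1, map_one]; exact Lf.one)
    rw [h2, h3, Units.val_one, map_one, mul_one, mul_one] at h5
    have h6 := smul_right_injective _ hs0 h5
    have h7 : em Ω ((a g).1 : Cl n ℚ) = em Ω 1 := by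
      apply z.isUnit.mul_right_cancel
      rw [h6, map_one, one_mul]
    exact Subtype.ext (Units.ext (em_inj h7))
  apply SemidirectProduct.ext
  · exact h4
  · exact h1

end setup

end Pool.Agent.T2H67.SA
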