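import Mathlib
import Pool.Agent.H84.L.A7_T2H67_SA_AlgStm
import Pool.Agent.H84.L.A7_T2H67_SA_DStm



/-!
# Package D over the algebraic closure
-/

set_option autoImplicit false
set_option linter.unusedSectionVars false

namespace Pool.Agent.T2H67.SA

open Polynomial

/- Package D over the algebraic closure. -/
theorem dom (hD : DStm) {F : Type} [Field F] [CharZero F] {n : ℕ} (hn : Odd n) (h5 : 5 ≤ n)
    (x r : Fin n → F[X]) (hk : Ker x r) (m₁ m₂ : Equiv.Perm (Fin n)) (c₁ c₂ : F)
    (h₁ : SpecAt x r m₁ c₁) (h₂ : SpecAt x r m₂ c₂) (hc₁ : Nat.card {i // m₁ i = i} = n - 2)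
    (hc₂ : Nat.card {i // m₂ i = i} = 3) (hm : ∀ i, m₁ i ≠ i → m₂ i = i)
    (θ : Fin n → Om F)
    (hθ : (mest x r).map (algebraMap F[X][X] (Om F)) = ∏ i, (X - C (θ i))) :
    (∀ i, r i ≠ 0) ∧ Function.Injective x ∧ Function.Injective θ ∧
    ∀ τ ∈ alternatingGroup (Fin n), ∃ g : Om F ≃ₐ[FractionRing F[X][X]] Om F,
      ∀ i, g (θ i) = θ (τ i) := by
  classical
  set Q := FractionRing F[X][X] with hQ
  set P : Q[X] := (mest x r).map (algebraMap F[X][X] Q) with hP
  have hPΩ : P.map (algebraMap Q (Om F)) = ∏ i, (X - C (θ i)) := by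
    rw [hP, Polynomial.map_map, ← IsScalarTower.algebraMap_eq, hθ]
  have hP0 : P ≠ 0 := by
    intro h
    rw [h, Polynomial.map_zero] at hPΩ
    exact (Finset.prod_ne_zero_iff.2 fun i _ => X_sub_C_ne_zero (θ i)) hPΩ.symm
  have hroot : ∀ y : Om F, y ∈ P.rootSet (Om F) ↔ ∃ i, y = θ i := by
    intro y
    rw [mem_rootSet_of_ne hP0, aeval_def, ← eval_map, hPΩ, eval_prod, Finset.prod_eq_zero_iff]
    constructor
    · rintro ⟨i, -, hi⟩
      refine ⟨i, ?_⟩
      rw [eval_sub, eval_X, eval_C] at hi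
      exact sub_eq_zero.1 hi
    · rintro ⟨i, rfl⟩
      exact ⟨i, Finset.mem_univ i, by rw [eval_sub, eval_X, eval_C, sub_self]⟩
  set N := IntermediateField.adjoin Q (P.rootSet (Om F)) with hN
  have hsplit : (P.map (algebraMap Q (Om F))).Splits := IsAlgClosed.splits _
  have hsf : P.IsSplittingField Q N := IntermediateField.adjoin_rootSet_isSplittingField hsplit
  have hfd : FiniteDimensional Q N := IsSplittingField.finiteDimensional N P
  have hnor : Normal Q N := Normal.of_isSplittingField P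
  have hcQ : CharZero Q := inferInstance
  have hgal : IsGalois Q N := IsGalois.mk
  let θ' : Fin n → N := fun i => ⟨θ i, IntermediateField.subset_adjoin Q _ ((hroot _).2 ⟨i, rfl⟩)⟩
  have hθ' : (mest x r).map ((algebraMap Q N).comp (algebraMap F[X][X] Q)) =
      ∏ i, (X - C (θ' i)) := by
    have hinj : Function.Injective (Polynomial.map (algebraMap N (Om F))) :=
      map_injective _ (algebraMap N (Om F)).injective
    apply hinj
    rw [Polynomial.map_map, Polynomial.map_prod]
    have h1 : (algebraMap N (Om F)).comp ((algebraMap Q N).comp (algebraMap F[X][X] Q)) =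
        algebraMap F[X][X] (Om F) := by
      rw [← RingHom.comp_assoc, ← IsScalarTower.algebraMap_eq, ← IsScalarTower.algebraMap_eq]
    rw [h1, hθ]
    refine Finset.prod_congr rfl fun i _ => ?_
    rw [Polynomial.map_sub, map_X, map_C]
    rfl
  obtain ⟨e1, e2, e3, e4⟩ := hD F n hn h5 x r hk m₁ m₂ c₁ c₂ h₁ h₂ hc₁ hc₂ hm N θ' hθ'
  refine ⟨e1, e2, ?_, ?_⟩
  · intro i j hij
    exact e3 (Subtype.ext hij)
  · intro τ hτ
    obtain ⟨g, hg⟩ := e4 τ hτ
    refine ⟨g.liftNormal (Om F), fun i => ?_⟩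
    have h1 := g.liftNormal_commutes (Om F) (θ' i)
    rw [hg i] at h1
    exact h1

end Pool.Agent.T2H67.SA
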