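import Mathlib
import Pool.Agent.H84.L.A7_T2H67_SA_DStm



/-!
# Package FAM: existence of equivariant Mestre families
-/

set_option autoImplicit false

namespace Pool.Agent.T2H67.SA

open Polynomial

/- Package FAM. -/
def FamStm : Prop :=
  ∀ (K L : Type) [Field K] [CharZero K] [Field L] [CharZero L] [Algebra K L]
    [FiniteDimensional K L] [IsGalois K L] (n : ℕ) (_ : Odd n) (_ : 5 ≤ n)
    (ψ : (L ≃ₐ[K] L) →* Equiv.Perm (Fin n)),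
    ∃ (x r : Fin n → L[X]) (m₁ m₂ : Equiv.Perm (Fin n)) (c₁ c₂ : L),
      (∀ (ρ : L ≃ₐ[K] L) (i : Fin n), (x i).map (ρ : L →+* L) = x (ψ ρ i)) ∧
      (∀ (ρ : L ≃ₐ[K] L) (i : Fin n), (r i).map (ρ : L →+* L) = r (ψ ρ i)) ∧
      Ker x r ∧ SpecAt x r m₁ c₁ ∧ SpecAt x r m₂ c₂ ∧
      Nat.card {i // m₁ i = i} = n - 2 ∧ Nat.card {i // m₂ i = i} = 3 ∧
      ∀ i, m₁ i ≠ i → m₂ i = i

end Pool.Agent.T2H67.SA
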