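import Mathlib
import Pool.Agent.H84.L.A7_T2H67_SA_AlgStm
import Pool.Agent.H84.L.A7_T2H67_SA_Cl2
import Pool.Agent.H84.L.A7_T2H67_SA_DStm
import Pool.Agent.H84.L.A7_T2H67_SA_Dom
import Pool.Agent.H84.L.A7_T2H67_SA_FamStm
import Pool.Agent.H84.L.A7_T2H67_SA_Theta
import Pool.Agent.H84.L.A7_T2H67_SA_Z
import Pool.Agent.H84.L.S8_H391R2_T4_Nod
import Pool.Agent.H84.L.S8_H391R2_T4_Sem



/-!
# Mestre families over the algebraic closure
-/

set_option autoImplicit false
set_option linter.unusedSectionVars false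

namespace Pool.Agent.T2H67.SA

open Polynomial Equiv

theorem exists_roots {Ω : Type} [Field Ω] [IsAlgClosed Ω] {n : ℕ} {H : Polynomial Ω} (hm : H.Monic)
    (hd : H.natDegree = n) : ∃ θ : Fin n → Ω, H = ∏ i, (X - C (θ i)) := by
  classical
  have hs : H.Splits := IsAlgClosed.splits H
  have h1 : H = (H.roots.map fun a => X - C a).prod := by
    have := hs.eq_prod_roots
    rw [hm.leadingCoeff, C_1, one_mul] at this
    exact this
  have h2 : H.roots.card = n := by
    rw [← hd]
    exact hs.natDegree_eq_card_roots.symm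
  set l := H.roots.toList with hl
  have h3 : l.length = n := by
    rw [hl, Multiset.length_toList, h2]
  subst h3
  refine ⟨fun i => l.get i, ?_⟩
  rw [← List.prod_ofFn]
  have h4 : (List.ofFn fun i => X - C (l.get i)) = l.map fun a => X - C a := by
    conv_rhs => rw [← List.ofFn_get l]
    rw [List.map_ofFn]
    rfl
  rw [h4]
  conv_lhs => rw [h1]
  rw [← Multiset.coe_toList H.roots, ← hl, Multiset.map_coe, Multiset.prod_coe]

theorem mest_form {Ω : Type} [Field Ω] {n : ℕ} (x r : Fin n → Ω) (t : Ω) :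
    ((∏ i, (X - C (x i))) - C t * ∑ i, C (r i ^ 2) *
      ∏ j ∈ Finset.univ.erase i, (X - C (x j))).Monic ∧
    ((∏ i, (X - C (x i))) - C t * ∑ i, C (r i ^ 2) *
      ∏ j ∈ Finset.univ.erase i, (X - C (x j))).natDegree = n := by
  classical
  rcases n with _ | n
  · simp
  have h1 : (∏ i, (X - C (x i))).Monic := monic_prod_of_monic _ _ fun i _ => monic_X_sub_C _
  have h2 : (∏ i, (X - C (x i))).natDegree = n + 1 := by
    rw [natDegree_prod_of_monic _ _ fun i _ => monic_X_sub_C _]
    simp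
  have h3 : (C t * ∑ i, C (r i ^ 2) * ∏ j ∈ Finset.univ.erase i, (X - C (x j))).natDegree ≤ n := by
    refine (natDegree_C_mul_le _ _).trans ?_
    refine natDegree_sum_le_of_forall_le _ _ fun i _ => ?_
    refine (natDegree_C_mul_le _ _).trans ?_
    rw [natDegree_prod_of_monic _ _ fun i _ => monic_X_sub_C _]
    simp
  have h4 : (C t * ∑ i, C (r i ^ 2) * ∏ j ∈ Finset.univ.erase i, (X - C (x j))).degree <
      (∏ i, (X - C (x i))).degree := by
    rw [degree_eq_natDegree h1.ne_zero, h2]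
    refine (degree_le_natDegree).trans_lt ?_
    exact_mod_cast Nat.lt_succ_of_le h3
  refine ⟨h1.sub_of_left h4, ?_⟩
  rw [natDegree_sub_eq_left_of_natDegree_lt, h2]
  rw [h2]
  exact Nat.lt_succ_of_le h3

theorem tt_ne (F : Type) [Field F] : tt F ≠ 0 := by
  rw [tt, IsScalarTower.algebraMap_apply F[X][X] (FractionRing F[X][X]) (Om F)]
  rw [_root_.map_ne_zero, map_ne_zero_iff _ (IsFractionRing.injective F[X][X] (FractionRing F[X][X]))]
  exact X_ne_zero

/- **Equivariant Mestre families.** -/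
theorem fam_om (hFam : FamStm) (hD : DStm) (K L : Type) [Field K] [CharZero K] [Field L]
    [CharZero L] [Algebra K L] [FiniteDimensional K L] [IsGalois K L] {n : ℕ} (hn : Odd n)
    (h5 : 5 ≤ n) (ψ : (L ≃ₐ[K] L) →* Perm (Fin n)) :
    ∃ (x₀ r₀ : Fin n → L[X]) (x r θ : Fin n → Om (AlgebraicClosure L)),
      (∀ i, x i = aeval (uu (AlgebraicClosure L)) (x₀ i)) ∧
      (∀ i, r i = aeval (uu (AlgebraicClosure L)) (r₀ i)) ∧
      (∀ (ρ : L ≃ₐ[K] L) (i : Fin n), (x₀ i).map (ρ : L →+* L) = x₀ (ψ ρ i)) ∧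
      (∀ (ρ : L ≃ₐ[K] L) (i : Fin n), (r₀ i).map (ρ : L →+* L) = r₀ (ψ ρ i)) ∧
      Function.Injective x ∧ (∀ i, r i ≠ 0) ∧ Ker x r ∧ Function.Injective θ ∧
      (∏ i, (X - C (x i))) - C (tt (AlgebraicClosure L)) * ∑ i, C (r i ^ 2) *
        ∏ j ∈ Finset.univ.erase i, (X - C (x j)) = ∏ i, (X - C (θ i)) ∧
      ∀ τ ∈ alternatingGroup (Fin n), ∃ g : Om (AlgebraicClosure L) ≃ₐ[FractionRing
        (AlgebraicClosure L)[X][X]] Om (AlgebraicClosure L), ∀ i, g (θ i) = θ (τ i) := by
  classical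
  obtain ⟨x₀, r₀, m₁, m₂, c₁, c₂, hx₀, hr₀, hk₀, hs₁, hs₂, hc₁, hc₂, hm⟩ := hFam K L n hn h5 ψ
  set F := AlgebraicClosure L with hF
  set q : L →+* F := algebraMap L F with hq
  set xF : Fin n → F[X] := fun i => (x₀ i).map q with hxF
  set rF : Fin n → F[X] := fun i => (r₀ i).map q with hrF
  have hev : ∀ p : L[X], algebraMap F[X][X] (Om F) (C (p.map q)) = aeval (uu F) p := by
    intro p
    have h1 : ((algebraMap F[X][X] (Om F)).comp (C.comp (mapRingHom q))) =
        ((aeval (uu F) : L[X] →ₐ[L] Om F) : L[X] →+* Om F) := by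
      apply Polynomial.ringHom_ext
      · intro a
        change algebraMap F[X][X] (Om F) (C ((C a).map q)) = aeval (uu F) (C a)
        rw [map_C, aeval_C, hq]
        rw [IsScalarTower.algebraMap_apply L F (Om F)]
        rw [IsScalarTower.algebraMap_apply F F[X][X] (Om F)]
        rfl
      · change algebraMap F[X][X] (Om F) (C ((X : L[X]).map q)) = aeval (uu F) X
        rw [map_X, aeval_X]
        rfl
    exact congrArg (fun f : L[X] →+* Om F => f p) h1
  have hinj : Function.Injective (algebraMap F[X][X] (Om F)) := by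
    rw [IsScalarTower.algebraMap_eq F[X][X] (FractionRing F[X][X]) (Om F)]
    exact (algebraMap (FractionRing F[X][X]) (Om F)).injective.comp
      (IsFractionRing.injective F[X][X] (FractionRing F[X][X]))
  have hker : Ker xF rF := by
    intro i
    have h1 := congrArg (Polynomial.map q) (hk₀ i)
    simpa only [Polynomial.map_sum, Polynomial.map_mul, Polynomial.map_prod, Polynomial.map_sub,
      Polynomial.map_zero] using h1
  have hspec : ∀ (m : Perm (Fin n)) (c : L), SpecAt x₀ r₀ m c → SpecAt xF rF m (q c) := by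
    rintro m c ⟨h1, ⟨s, h2, h3⟩, i, h4⟩
    refine ⟨h1, ⟨s, fun j => ?_, h3⟩, i, ?_⟩
    · rw [hxF]
      change eval (q c) ((x₀ j).map q) = _
      rw [eval_map_apply, h2, map_ratCast]
    · rw [hrF]
      change eval (q c) ((r₀ i).map q) ≠ 0
      rw [eval_map_apply]
      exact (_root_.map_ne_zero q).2 h4
  set x : Fin n → Om F := fun i => aeval (uu F) (x₀ i) with hx
  set r : Fin n → Om F := fun i => aeval (uu F) (r₀ i) with hr
  have hmap : (mest xF rF).map (algebraMap F[X][X] (Om F)) =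
      (∏ i, (X - C (x i))) - C (tt F) * ∑ i, C (r i ^ 2) *
        ∏ j ∈ Finset.univ.erase i, (X - C (x j)) := by
    rw [mest]
    simp only [Polynomial.map_sum, Polynomial.map_mul, Polynomial.map_prod, Polynomial.map_sub,
      Polynomial.map_X, Polynomial.map_C, hxF, hrF, hev, C_pow, Polynomial.map_pow]
    rfl
  obtain ⟨hmon, hdeg⟩ := mest_form x r (tt F)
  obtain ⟨θ, hθ⟩ := exists_roots hmon hdeg
  obtain ⟨e1, e2, e3, e4⟩ := dom hD hn h5 xF rF hker m₁ m₂ (q c₁) (q c₂) (hspec _ _ hs₁)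
    (hspec _ _ hs₂) hc₁ hc₂ hm θ (by rw [hmap, hθ])
  refine ⟨x₀, r₀, x, r, θ, fun _ => rfl, fun _ => rfl, hx₀, hr₀, ?_, ?_, ?_, e3, hθ, e4⟩
  · intro i j hij
    have h1 : algebraMap F[X][X] (Om F) (C (xF i)) = algebraMap F[X][X] (Om F) (C (xF j)) := by
      rw [hxF]
      simp only [hev]
      exact hij
    exact e2 (C_injective (hinj h1))
  · intro i h
    have h1 : algebraMap F[X][X] (Om F) (C (rF i)) = 0 := by
      rw [hrF]
      simp only [hev]
      exact h
    rw [map_eq_zero_iff _ hinj, C_eq_zero] at h1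
    exact e1 i h1
  · intro i
    have h1 := congrArg (aeval (uu F)) (hk₀ i)
    simpa only [map_sum, map_mul, map_prod, map_sub, map_zero] using h1

end Pool.Agent.T2H67.SA
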