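import Mathlib
import Pool.Agent.H84.L.A7_T2H67_SA_Act
import Pool.Agent.H84.L.A7_T2H67_SA_Cl
import Pool.Agent.H84.L.A7_T2H67_SA_Grp



/-!
# Package EVEN: the double cover of `A_n` inside the double cover of `A_{n+1}`
-/

set_option autoImplicit false

namespace Pool.Agent.T2H67.SA

open Equiv

/- Package EVEN. -/
def EvenStm : Prop :=
  ∀ n : ℕ, ∃ (e : Perm (Fin n) →* Perm (Fin (n + 1))) (j : Alt2 n →* Alt2 (n + 1)),
    (∀ σ i, e σ (Fin.castSucc i) = Fin.castSucc (σ i)) ∧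
    (∀ σ, e σ (Fin.last n) = Fin.last n) ∧
    Function.Injective j ∧
    (∀ a : Alt2 (n + 1), toPerm (n + 1) a (Fin.last n) = Fin.last n → a ∈ j.range) ∧
    (∀ a, toPerm (n + 1) (j a) = e (toPerm n a)) ∧
    ∀ σ a, j (act n σ a) = act (n + 1) (e σ) (j a)

end Pool.Agent.T2H67.SA
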