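import Mathlib
import Pool.Agent.H84.L.A7_T2H67_SA_Cl
import Pool.Agent.H84.L.A7_T2H67_SA_Grp
import Pool.Agent.H84.L.A7_T2H67_SA_Z



/-!
# Subgroups of the double cover which cover the alternating group
-/

set_option autoImplicit false
set_option linter.unusedSectionVars false

namespace Pool.Agent.T2H67.SA

open Cl Equiv

variable {n : ℕ}

theorem full_of_perm (hn : 4 ≤ n) (S : Subgroup (Alt2 n))
    (h : ∀ τ : Perm (Fin n), pr τ = 0 → ∃ a ∈ S, toPerm n a = τ) : S = ⊤ := by
  have h01 : (⟨0, by omega⟩ : Fin n) ≠ ⟨1, by omega⟩ := by simp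
  have h23 : (⟨2, by omega⟩ : Fin n) ≠ ⟨3, by omega⟩ := by simp
  set d := dsw h01 h23 with hd
  have hdd : d * d = negOne n := dsw_sq h01 h23 (by simp) (by simp) (by simp) (by simp)
  obtain ⟨a, haS, ha⟩ := h (toPerm n d) (pr_toPerm d)
  have hm : negOne n ∈ S := by
    have h1 : a * a = negOne n := by
      rcases eq_or_neg ha with h1 | h1
      · rw [← h1, hdd]
      · have h2 : a = negOne n * d := by
          rw [h1, ← mul_assoc, negOne_sq, one_mul]
        rw [h2, mul_assoc, ← mul_assoc d, ← negOne_comm, mul_assoc, hdd, negOne_sq, mul_one]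
    rw [← h1]
    exact mul_mem haS haS
  rw [eq_top_iff]
  intro x _
  obtain ⟨b, hbS, hb⟩ := h (toPerm n x) (pr_toPerm x)
  rcases eq_or_neg hb with h1 | h1
  · rw [h1]
    exact hbS
  · rw [h1]
    exact mul_mem hm hbS

end Pool.Agent.T2H67.SA
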