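import Mathlib
import Pool.Agent.H84.L.A7_T2H67_SA_Act
import Pool.Agent.H84.L.A7_T2H67_SA_AlgStm
import Pool.Agent.H84.L.A7_T2H67_SA_Cl
import Pool.Agent.H84.L.A7_T2H67_SA_CoreA
import Pool.Agent.H84.L.A7_T2H67_SA_CoreB
import Pool.Agent.H84.L.A7_T2H67_SA_DStm
import Pool.Agent.H84.L.A7_T2H67_SA_EvenStm
import Pool.Agent.H84.L.A7_T2H67_SA_FamStm
import Pool.Agent.H84.L.A7_T2H67_SA_FinStm
import Pool.Agent.H84.L.A7_T2H67_SA_Full
import Pool.Agent.H84.L.A7_T2H67_SA_Grp
import Pool.Agent.H84.L.A7_T2H67_SA_Orth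
import Pool.Agent.H84.L.A7_T2H67_SA_RealStm
import Pool.Agent.H84.L.A7_T2H67_SA_Z
import Pool.Agent.H84.L.S8_H391R2_T4_Nod
import Pool.Agent.H84.L.S8_H391R2_T4_Red
import Pool.Agent.H84.L.S8_H391R2_T4_Sem
import Pool.Agent.H84.L.S8_TH15_IGP_TwB
import Pool.Agent.H84.L.S8_TH444_TW_RS
import Pool.Agent.H84.L.S8_TH444_TW_RSK
import Pool.Agent.H84.L.S8_W200_IG_HF
import Pool.Agent.H84.L.S8_W200_IJ_SA

namespace Pool.Agent.H391R2
end Pool.Agent.H391R2
namespace Pool.Agent.H391R2.T4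
end Pool.Agent.H391R2.T4
namespace Pool.Agent.TH444.TW
end Pool.Agent.TH444.TW


/-!
# The local problems for the double covers
-/

set_option autoImplicit false
set_option linter.unusedSectionVars false

namespace Pool.Agent.T2H67.SA

open Polynomial Equiv
open Pool.Agent.H391R2 Pool.Agent.H391R2.T4 Pool.Agent.TH444.TW

section

variable {K F : Type} [Field K] [Field F] [Algebra K F]

/- restriction of scalars -/
noncomputable def res (K F : Type) [Field K] [Field F] [Algebra K F] :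
    (Om F ≃ₐ[FractionRing F[X][X]] Om F) →* Fix2 K (Om F) (uu F) (tt F) :=
  MonoidHom.mk' (fun g => ⟨g.restrictScalars K, by
    constructor
    · change g (uu F) = uu F
      rw [uu, IsScalarTower.algebraMap_apply F[X][X] (FractionRing F[X][X]) (Om F)]
      exact g.commutes _
    · change g (tt F) = tt F
      rw [tt, IsScalarTower.algebraMap_apply F[X][X] (FractionRing F[X][X]) (Om F)]
      exact g.commutes _⟩) (fun g h => Subtype.ext (AlgEquiv.ext fun x => rfl))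

theorem res_apply (g : Om F ≃ₐ[FractionRing F[X][X]] Om F) (y : Om F) :
    ((res K F g : Fix2 K (Om F) (uu F) (tt F)) : Om F ≃ₐ[K] Om F) y = g y := rfl

theorem res_alg [IsAlgClosed F] (g : Om F ≃ₐ[FractionRing F[X][X]] Om F) {y : Om F}
    (hy : IsAlgebraic K y) : g y = y := by
  have h1 : IsAlgebraic F y := hy.tower_top F
  obtain ⟨z, rfl⟩ : ∃ z : F, algebraMap F (Om F) z = y := by
    apply minpoly.mem_range_of_degree_eq_one
    exact IsAlgClosed.degree_eq_one_of_irreducible F (minpoly.irreducible h1.isIntegral)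
  rw [IsScalarTower.algebraMap_apply F (FractionRing F[X][X]) (Om F)]
  exact g.commutes _

end

theorem fin_sd {Γ : Type} [Group Γ] [Finite Γ] {m : ℕ} (ψ : Γ →* Perm (Fin m)) :
    Finite (Alt2 m ⋊[(act m).comp ψ] Γ) := Finite.of_equiv _ SemidirectProduct.equivProd.symm

section core

variable (hFam : FamStm) (hD : DStm) (hReal : RealStm) (hAlg : AlgStm) (hEven : EvenStm)
  (K L : Type) [Field K] [CharZero K] [Field L] [Algebra K L] [FiniteDimensional K L]
  [IsGalois K L]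

include hFam hD in
/- the package of all the data -/
theorem exists_data {n : ℕ} (hn : Odd n) (h5 : 5 ≤ n) (ψ : (L ≃ₐ[K] L) →* Perm (Fin n)) :
    ∃ (x₀ r₀ : Fin n → L[X]) (x r θ : Fin n → Om (AlgebraicClosure L))
      (σ : Fix2 K (Om (AlgebraicClosure L)) (uu (AlgebraicClosure L)) (tt (AlgebraicClosure L)) →*
        Perm (Fin n))
      (Θ : Fix2 K (Om (AlgebraicClosure L)) (uu (AlgebraicClosure L)) (tt (AlgebraicClosure L)) →*
        Alt2 n ⋊[(act n).comp ψ] (L ≃ₐ[K] L)),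
      (∀ i, x i = aeval (uu (AlgebraicClosure L)) (x₀ i)) ∧
      (∀ i, r i = aeval (uu (AlgebraicClosure L)) (r₀ i)) ∧
      (∀ g : Om (AlgebraicClosure L) ≃ₐ[K] Om (AlgebraicClosure L),
        g (uu (AlgebraicClosure L)) = uu (AlgebraicClosure L) → ∀ i, g (x i) =
          x (ψ (rho K L _ g) i)) ∧
      (∀ g : Om (AlgebraicClosure L) ≃ₐ[K] Om (AlgebraicClosure L),
        g (uu (AlgebraicClosure L)) = uu (AlgebraicClosure L) → ∀ i, g (r i) =
          r (ψ (rho K L _ g) i)) ∧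
      Function.Injective θ ∧
      (∀ i, tt (AlgebraicClosure L) * ∑ j, r j ^ 2 / (θ i - x j) = 1) ∧
      (∀ (g : Fix2 K (Om (AlgebraicClosure L)) (uu (AlgebraicClosure L))
        (tt (AlgebraicClosure L))) i, (g : Om (AlgebraicClosure L) ≃ₐ[K] _) (θ i) = θ (σ g i)) ∧
      (∀ g, (Θ g).right = rho K L _ (g : Om (AlgebraicClosure L) ≃ₐ[K] _)) ∧
      (∀ g, toPerm n (Θ g).left =
        σ g * (ψ (rho K L _ (g : Om (AlgebraicClosure L) ≃ₐ[K] _)))⁻¹) ∧
      (∃ S : Finset (Om (AlgebraicClosure L)), ∀ g : Fix2 K (Om (AlgebraicClosure L))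
        (uu (AlgebraicClosure L)) (tt (AlgebraicClosure L)),
        (∀ y ∈ S, (g : Om (AlgebraicClosure L) ≃ₐ[K] _) y = y) → Θ g = 1) ∧
      ∀ a : Alt2 n, ∃ g : Om (AlgebraicClosure L) ≃ₐ[FractionRing
        (AlgebraicClosure L)[X][X]] Om (AlgebraicClosure L), Θ (res K _ g) = ⟨a, 1⟩ := by
  classical
  have hL : CharZero L := charZero_of_injective_algebraMap (algebraMap K L).injective
  have hΩ : CharZero (Om (AlgebraicClosure L)) :=
    charZero_of_injective_algebraMap (algebraMap K (Om (AlgebraicClosure L))).injective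
  obtain ⟨x₀, r₀, x, r, θ, hx₀, hr₀, hex, her, hxi, hr0, hk, hθ, hH, hA⟩ :=
    fam_om hFam hD K L hn h5 ψ
  have hgx : ∀ g : Om (AlgebraicClosure L) ≃ₐ[K] Om (AlgebraicClosure L),
      g (uu (AlgebraicClosure L)) = uu (AlgebraicClosure L) → ∀ i, g (x i) =
        x (ψ (rho K L _ g) i) := by
    intro g hg i
    rw [hx₀, map_aeval hg, hex, ← hx₀]
  have hgr : ∀ g : Om (AlgebraicClosure L) ≃ₐ[K] Om (AlgebraicClosure L),
      g (uu (AlgebraicClosure L)) = uu (AlgebraicClosure L) → ∀ i, g (r i) =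
        r (ψ (rho K L _ g) i) := by
    intro g hg i
    rw [hr₀, map_aeval hg, her, ← hr₀]
  obtain ⟨σ, Θ, h1, h2, h3, S, hS⟩ := exists_theta hn ψ hxi hr0 (tt_ne _) hk hθ hH hgx hgr
  refine ⟨x₀, r₀, x, r, θ, σ, Θ, hx₀, hr₀, hgx, hgr, hθ,
    fun i => t_mul hxi hr0 (tt_ne _) hH i, h1, h2, h3, ⟨S, hS⟩, ?_⟩
  have hone : ∀ g : Om (AlgebraicClosure L) ≃ₐ[FractionRing (AlgebraicClosure L)[X][X]]
      Om (AlgebraicClosure L), (Θ (res K _ g)).right = 1 := by
    intro g
    rw [h2]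
    apply AlgEquiv.ext
    intro l
    apply (algebraMap L (Om (AlgebraicClosure L))).injective
    rw [← rho_spec, res_apply, AlgEquiv.one_apply]
    rw [IsScalarTower.algebraMap_apply L (FractionRing (AlgebraicClosure L)[X][X])
      (Om (AlgebraicClosure L))]
    exact g.commutes _
  have hinl : ∀ g : Om (AlgebraicClosure L) ≃ₐ[FractionRing (AlgebraicClosure L)[X][X]]
      Om (AlgebraicClosure L), Θ (res K _ g) =
        (⟨(Θ (res K _ g)).left, 1⟩ : Alt2 n ⋊[(act n).comp ψ] (L ≃ₐ[K] L)) := by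
    intro g
    apply SemidirectProduct.ext
    · rfl
    · exact hone g
  let T : Subgroup (Alt2 n) := (Θ.comp (res K _)).range.comap
    (SemidirectProduct.inl : Alt2 n →* Alt2 n ⋊[(act n).comp ψ] (L ≃ₐ[K] L))
  have hT : T = ⊤ := by
    apply full_of_perm (by omega)
    intro τ hτ
    obtain ⟨g, hg⟩ := hA τ (pr_eq_zero.1 hτ)
    refine ⟨(Θ (res K _ g)).left, ⟨g, ?_⟩, ?_⟩
    · exact hinl g
    · rw [h3, ← h2, hone, map_one, inv_one, mul_one]
      apply Equiv.ext
      intro i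
      apply hθ
      rw [← h1, res_apply, hg]
  intro a
  have ha : a ∈ T := by
    rw [hT]
    exact Subgroup.mem_top a
  obtain ⟨g, hg⟩ := ha
  exact ⟨g, hg⟩

include hFam hD hReal hAlg in
/- odd degree -/
theorem core_odd {n : ℕ} (hn : Odd n) (h5 : 5 ≤ n) (ψ : (L ≃ₐ[K] L) →* Perm (Fin n)) :
    RegSol K L (Alt2 n ⋊[(act n).comp ψ] (L ≃ₐ[K] L)) SemidirectProduct.rightHom := by
  classical
  obtain ⟨x₀, r₀, x, r, θ, σ, Θ, hx₀, hr₀, hgx, hgr, hθ, htm, h1, h2, h3, ⟨S, hS⟩, hsur⟩ :=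
    exists_data hFam hD K L hn h5 ψ
  have halgKF : Algebra.IsAlgebraic K (AlgebraicClosure L) := Algebra.IsAlgebraic.trans K L _
  obtain ⟨a1, a2, a3⟩ := hAlg K (AlgebraicClosure L)
  have := fin_sd ψ
  refine hReal K L _ SemidirectProduct.rightHom SemidirectProduct.rightHom_surjective _
    (uu (AlgebraicClosure L)) (tt (AlgebraicClosure L)) a1 a2 Θ ?_ S hS ?_
  · intro g l
    rw [rho_spec]
    change _ = algebraMap L _ ((Θ g).right l)
    rw [h2]
  · intro w hw
    obtain ⟨g, hg⟩ := hsur w.left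
    refine ⟨res K _ g, ?_, fun y hy => res_alg g hy⟩
    rw [hg]
    apply SemidirectProduct.ext
    · rfl
    · exact hw.symm

end core

/- the even case over an abstract algebraically closed field -/
theorem even_aux (hReal : RealStm) (hEven : EvenStm) (K L : Type) [Field K] [CharZero K]
    [Field L] [Algebra K L] [FiniteDimensional K L] [IsGalois K L] {m : ℕ}
    (ψ : (L ≃ₐ[K] L) →* Perm (Fin m)) :
    ∃ e : Perm (Fin m) →* Perm (Fin (m + 1)),
    ∀ (Ω : Type) [Field Ω] [IsAlgClosed Ω] [Algebra K Ω] [Algebra L Ω] [IsScalarTower K L Ω]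
      (u t : Ω) (_ : Algebra.IsAlgebraic (IntermediateField.adjoin K {u, t}) Ω)
      (_ : ∀ b : Ω, Algebra.IsAlgebraic (IntermediateField.adjoin K {u, b}) Ω →
        AlgebraicIndependent K ![u, b])
      (x₀ r₀ : Fin (m + 1) → L[X]) (x r θ : Fin (m + 1) → Ω)
      (σ : Fix2 K Ω u t →* Perm (Fin (m + 1)))
      (Θ : Fix2 K Ω u t →* Alt2 (m + 1) ⋊[(act (m + 1)).comp (e.comp ψ)] (L ≃ₐ[K] L))
      (_ : ∀ i, x i = aeval u (x₀ i)) (_ : ∀ i, r i = aeval u (r₀ i))
      (_ : ∀ g : Ω ≃ₐ[K] Ω, g u = u → ∀ i, g (x i) = x ((e.comp ψ) (rho K L _ g) i))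
      (_ : ∀ g : Ω ≃ₐ[K] Ω, g u = u → ∀ i, g (r i) = r ((e.comp ψ) (rho K L _ g) i))
      (_ : Function.Injective θ) (_ : ∀ i, t * ∑ j, r j ^ 2 / (θ i - x j) = 1)
      (_ : ∀ (g : Fix2 K Ω u t) i, (g : Ω ≃ₐ[K] Ω) (θ i) = θ (σ g i))
      (_ : ∀ g, (Θ g).right = rho K L _ (g : Ω ≃ₐ[K] Ω))
      (_ : ∀ g, toPerm (m + 1) (Θ g).left =
        σ g * ((e.comp ψ) (rho K L _ (g : Ω ≃ₐ[K] Ω)))⁻¹)
      (S : Finset Ω) (_ : ∀ g : Fix2 K Ω u t, (∀ y ∈ S, (g : Ω ≃ₐ[K] Ω) y = y) → Θ g = 1)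
      (_ : ∀ a : Alt2 (m + 1), ∃ g : Fix2 K Ω u t, Θ g = ⟨a, 1⟩ ∧
        ∀ y : Ω, IsAlgebraic K y → (g : Ω ≃ₐ[K] Ω) y = y),
      RegSol K L (Alt2 m ⋊[(act m).comp ψ] (L ≃ₐ[K] L)) SemidirectProduct.rightHom := by
  classical
  obtain ⟨e, j, he1, he2, hj, hjr, hjt, hja⟩ := hEven m
  refine ⟨e, ?_⟩
  intro Ω _ _ _ _ _ u t a2 a3 x₀ r₀ x r θ σ Θ hx₀ hr₀ hgx hgr hθ htm h1 h2 h3 S hS hsur
  set b := θ (Fin.last m) with hb
  have hteq : t = (∑ k, r k ^ 2 / (b - x k))⁻¹ := eq_inv_of_mul_eq_one_left (htm _)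
  -- the smaller group
  have hle : ∀ g : Fix2 K Ω u b, (g : Ω ≃ₐ[K] Ω) ∈ Fix2 K Ω u t := by
    intro g
    refine ⟨g.2.1, ?_⟩
    have h4 : (g : Ω ≃ₐ[K] Ω) (∑ k, r k ^ 2 / (b - x k)) = ∑ k, r k ^ 2 / (b - x k) := by
      rw [map_sum]
      refine Fintype.sum_equiv ((e.comp ψ) (rho K L Ω (g : Ω ≃ₐ[K] Ω))) _ _ fun k => ?_
      rw [map_div₀, map_pow, map_sub, hgx g g.2.1, hgr g g.2.1, g.2.2]
    rw [hteq, map_inv₀, h4]
  let ι : Fix2 K Ω u b →* Fix2 K Ω u t := Subgroup.inclusion fun g hg => hle ⟨g, hg⟩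
  have hι : ∀ g : Fix2 K Ω u b, ((ι g : Fix2 K Ω u t) : Ω ≃ₐ[K] Ω) = g := fun _ => rfl
  -- algebraic over the smaller field
  have hsp : Algebra.IsAlgebraic (IntermediateField.adjoin K {u, b}) Ω := by
    set E := IntermediateField.adjoin K {u, b} with hE
    let A : IntermediateField E Ω := algebraicClosure E Ω
    have hA : ∀ y : Ω, y ∈ A ↔ IsAlgebraic E y := fun y => mem_algebraicClosure_iff
    have hKalg : ∀ y : Ω, IsAlgebraic K y → y ∈ A := by
      intro y hy
      exact (hA y).2 (hy.tower_top E)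
    have huA : u ∈ A := by
      rw [hA]
      exact isAlgebraic_algebraMap (⟨u, IntermediateField.subset_adjoin K _ (by simp)⟩ : E)
    have hbA : b ∈ A := by
      rw [hA]
      exact isAlgebraic_algebraMap (⟨b, IntermediateField.subset_adjoin K _ (by simp)⟩ : E)
    have hpA : ∀ p : L[X], aeval u p ∈ A := by
      intro p
      rw [aeval_eq_sum_range]
      refine sum_mem fun i _ => ?_
      rw [Algebra.smul_def]
      refine mul_mem (hKalg _ ?_) (pow_mem huA _)
      exact (Algebra.IsAlgebraic.isAlgebraic (R := K) (p.coeff i)).algebraMap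
    have htA : t ∈ A := by
      rw [hteq]
      refine inv_mem (sum_mem fun k _ => div_mem (pow_mem ?_ 2) (sub_mem hbA ?_))
      · rw [hr₀]
        exact hpA _
      · rw [hx₀]
        exact hpA _
    -- transitivity
    have hEt : ∀ y ∈ IntermediateField.adjoin K {u, t}, y ∈ A := by
      intro y hy
      have h4 : IntermediateField.adjoin K {u, t} ≤ A.restrictScalars K := by
        rw [IntermediateField.adjoin_le_iff]
        rintro z (rfl | hz)
        · exact huA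
        · rw [Set.mem_singleton_iff.1 hz]
          exact htA
      exact h4 hy
    let ιE : IntermediateField.adjoin K {u, t} →+* A :=
      { toFun := fun y => ⟨y, hEt y y.2⟩
        map_one' := rfl
        map_mul' := fun _ _ => rfl
        map_zero' := rfl
        map_add' := fun _ _ => rfl }
    let _ : Algebra (IntermediateField.adjoin K {u, t}) A := ιE.toAlgebra
    have : IsScalarTower (IntermediateField.adjoin K {u, t}) A Ω :=
      IsScalarTower.of_algebraMap_eq fun _ => rfl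
    have hAΩ : Algebra.IsAlgebraic A Ω :=
      ⟨fun y => (a2.isAlgebraic y).tower_top A⟩
    have hEA : Algebra.IsAlgebraic E A := algebraicClosure.isAlgebraic E Ω
    exact Algebra.IsAlgebraic.trans E A Ω
  have hind : AlgebraicIndependent K ![u, b] := a3 b hsp
  -- the left components
  have hleft : ∀ g : Fix2 K Ω u b, (Θ (ι g)).left ∈ j.range := by
    intro g
    apply hjr
    rw [h3]
    have h4 : σ (ι g) (Fin.last m) = Fin.last m := by
      apply hθ
      rw [← h1, hι]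
      exact g.2.2
    have h5 : ((e.comp ψ) (rho K L Ω ((ι g : Fix2 K Ω u t) : Ω ≃ₐ[K] Ω)))⁻¹ (Fin.last m) =
        Fin.last m := by
      rw [← map_inv, ← map_inv]
      exact he2 _
    rw [Perm.mul_apply, h5, h4]
  choose a ha using hleft
  let Θ₀ : Fix2 K Ω u b →* Alt2 m ⋊[(act m).comp ψ] (L ≃ₐ[K] L) :=
    MonoidHom.mk' (fun g => ⟨a g, rho K L Ω (g : Ω ≃ₐ[K] Ω)⟩) (by
      intro g h
      apply SemidirectProduct.ext
      · change a (g * h) = a g * act m (ψ (rho K L Ω (g : Ω ≃ₐ[K] Ω))) (a h)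
        apply hj
        rw [map_mul, hja, ha, ha, ha, map_mul, map_mul]
        change (Θ (ι g)).left * act (m + 1) ((e.comp ψ) (Θ (ι g)).right) (Θ (ι h)).left = _
        rw [h2]
        rfl
      · change rho K L Ω ((g * h : Fix2 K Ω u b) : Ω ≃ₐ[K] Ω) =
          rho K L Ω (g : Ω ≃ₐ[K] Ω) * rho K L Ω (h : Ω ≃ₐ[K] Ω)
        rw [Subgroup.coe_mul, map_mul])
  have := fin_sd ψ
  refine hReal K L _ SemidirectProduct.rightHom SemidirectProduct.rightHom_surjective Ω
    u b hind hsp Θ₀ ?_ S ?_ ?_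
  · intro g l
    rw [rho_spec]
    rfl
  · intro g hg
    have h4 := hS (ι g) hg
    apply SemidirectProduct.ext
    · change a g = 1
      apply hj
      rw [ha, h4, map_one]
      rfl
    · change rho K L Ω (g : Ω ≃ₐ[K] Ω) = 1
      have h5 := h2 (ι g)
      rw [h4] at h5
      exact h5.symm
  · intro w hw
    obtain ⟨g, hg, hga⟩ := hsur (j w.left)
    have h4 := h3 g
    have h5 := h2 g
    rw [hg] at h4 h5
    change toPerm (m + 1) (j w.left) = _ at h4
    change 1 = rho K L Ω _ at h5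
    rw [← h5, map_one, inv_one, mul_one, hjt] at h4
    have h6 : (g : Ω ≃ₐ[K] Ω) b = b := by
      have h7 := h1 g (Fin.last m)
      rw [← h4, he2] at h7
      exact h7
    refine ⟨⟨(g : Ω ≃ₐ[K] Ω), g.2.1, h6⟩, ?_, hga⟩
    apply SemidirectProduct.ext
    · change a _ = w.left
      apply hj
      rw [ha]
      change (Θ g).left = _
      rw [hg]
    · change rho K L Ω (g : Ω ≃ₐ[K] Ω) = w.right
      rw [← h5]
      exact hw.symm

section core

variable (hFam : FamStm) (hD : DStm) (hReal : RealStm) (hAlg : AlgStm) (hEven : EvenStm)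
  (K L : Type) [Field K] [CharZero K] [Field L] [Algebra K L] [FiniteDimensional K L]
  [IsGalois K L]

include hFam hD hReal hAlg hEven in
/- even degree -/
theorem core_even {m : ℕ} (hm : Even m) (h5 : 5 ≤ m) (ψ : (L ≃ₐ[K] L) →* Perm (Fin m)) :
    RegSol K L (Alt2 m ⋊[(act m).comp ψ] (L ≃ₐ[K] L)) SemidirectProduct.rightHom := by
  classical
  obtain ⟨e, he⟩ := even_aux hReal hEven K L ψ
  obtain ⟨x₀, r₀, x, r, θ, σ, Θ, hx₀, hr₀, hgx, hgr, hθ, htm, h1, h2, h3, ⟨S, hS⟩, hsur⟩ :=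
    exists_data hFam hD K L (n := m + 1) hm.add_one (by omega) (e.comp ψ)
  have halgKF : Algebra.IsAlgebraic K (AlgebraicClosure L) := Algebra.IsAlgebraic.trans K L _
  obtain ⟨a1, a2, a3⟩ := hAlg K (AlgebraicClosure L)
  refine he (Om (AlgebraicClosure L)) (uu _) (tt _) a2 (a3 _) x₀ r₀ x r θ σ Θ hx₀ hr₀ hgx hgr hθ
    htm h1 h2 h3 S hS fun a => ?_
  obtain ⟨g, hg⟩ := hsur a
  exact ⟨res K _ g, hg, fun y hy => res_alg g hy⟩

include hFam hD hReal hAlg hEven in
/- **The local problems.** -/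
theorem core_stm : CoreStm := by
  intro n h5 K' M' _ _ _ _ _ _ _ β
  have : CharZero K' := charZero_of_injective_algebraMap (algebraMap ℚ K').injective
  rcases Nat.even_or_odd n with h | h
  · exact core_even hFam hD hReal hAlg hEven K' M' h h5 β
  · exact core_odd hFam hD hReal hAlg K' M' h h5 β

end core

end Pool.Agent.T2H67.SA
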