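import Mathlib
import Pool.Agent.H84.L.A7_T2H67_SA_DStm



/-!
# The steps of package D
-/

set_option autoImplicit false

namespace Pool.Agent.T2H67.SA

open Polynomial

/- Step D1: at `u = c` the vector `r` vanishes exactly at the indices moved by the involution. -/
def D1Stm : Prop :=
  ∀ (F : Type) [Field F] [CharZero F] (n : ℕ) (x r : Fin n → F[X]) (_ : Ker x r)
    (m : Equiv.Perm (Fin n)) (c : F) (_ : SpecAt x r m c),
    ∀ i, (r i).eval c = 0 ↔ m i ≠ i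

/- Step D3: irreducibility (used for `R = F` and `R = F[u]`). -/
def D3Stm : Prop :=
  ∀ (R : Type) [CommRing R] [IsDomain R] [UniqueFactorizationMonoid R]
    (ι : Type) [Fintype ι] [DecidableEq ι] [Nonempty ι] (s ρ : ι → R)
    (_ : Function.Injective s) (_ : ∀ i, ρ i ≠ 0),
    Irreducible (((∏ i, (X - C (C (s i)))) -
      C (X : R[X]) * ∑ i, C (C (ρ i ^ 2)) * ∏ j ∈ Finset.univ.erase i, (X - C (C (s j))) :
        R[X][X]).map (algebraMap R[X] (FractionRing R[X])))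

/- Step D4: the decomposition group. -/
def D4Stm : Prop :=
  ∀ (F : Type) [Field F] [CharZero F] (n : ℕ) (x r : Fin n → F[X])
    (m : Equiv.Perm (Fin n)) (c : F) (_ : SpecAt x r m c)
    (_ : ∀ i, (r i).eval c = 0 ↔ m i ≠ i) (_ : ∃ i, m i = i)
    (N : Type) [Field N] [Algebra (FractionRing F[X][X]) N]
    [FiniteDimensional (FractionRing F[X][X]) N] [IsGalois (FractionRing F[X][X]) N]
    (θ : Fin n → N) (_ : Function.Injective θ)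
    (_ : (mest x r).map ((algebraMap (FractionRing F[X][X]) N).comp
      (algebraMap F[X][X] (FractionRing F[X][X]))) = ∏ i, (X - C (θ i))),
    ∃ (D : Subgroup (N ≃ₐ[FractionRing F[X][X]] N)) (I : Finset (Fin n))
      (m' : Equiv.Perm (Fin n)), I.card = Nat.card {i // m i = i} ∧ m' * m' = 1 ∧
      (∀ k, m' k = k ↔ k ∈ I) ∧
      (∀ g ∈ D, ∃ σ : Equiv.Perm (Fin n), (∀ i, g (θ i) = θ (σ i)) ∧ (∀ k ∈ I, σ k ∈ I) ∧
        ∀ k, k ∉ I → σ k = k ∨ σ k = m' k) ∧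
      ∀ i ∈ I, ∀ j ∈ I, ∃ g ∈ D, g (θ i) = θ j

/- Step D5: group theory. -/
def D5Stm : Prop :=
  ∀ (n : ℕ) (_ : Odd n) (_ : 5 ≤ n) (G : Subgroup (Equiv.Perm (Fin n)))
    (_ : ∀ i j, ∃ g ∈ G, g i = j)
    (I₁ : Finset (Fin n)) (_ : I₁.card = n - 2) (D₁ : Subgroup (Equiv.Perm (Fin n)))
    (_ : D₁ ≤ G) (_ : ∀ g ∈ D₁, ∀ k ∈ I₁, g k ∈ I₁) (_ : ∀ i ∈ I₁, ∀ j ∈ I₁, ∃ g ∈ D₁, g i = j)
    (I₂ : Finset (Fin n)) (_ : I₂.card = 3) (D₂ : Subgroup (Equiv.Perm (Fin n)))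
    (m : Equiv.Perm (Fin n)) (_ : m * m = 1) (_ : ∀ k, m k = k ↔ k ∈ I₂)
    (_ : D₂ ≤ G) (_ : ∀ g ∈ D₂, ∀ k ∈ I₂, g k ∈ I₂)
    (_ : ∀ g ∈ D₂, ∀ k, k ∉ I₂ → g k = k ∨ g k = m k)
    (_ : ∀ i ∈ I₂, ∀ j ∈ I₂, ∃ g ∈ D₂, g i = j),
    alternatingGroup (Fin n) ≤ G

end Pool.Agent.T2H67.SA
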