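import Mathlib
import Pool.Agent.H84.L.A7_T2H67_SA_DStm
import Pool.Agent.H84.L.A7_T2H67_SA_DStm2



/-!
# Package D: assembly
-/

set_option autoImplicit false

namespace Pool.Agent.T2H67.SA

open Polynomial

section push
variable {K N : Type} [Field K] [Field N] [Algebra K N] {n : ℕ} (θ : Fin n → N)

/- the permutations induced by a group of automorphisms -/
def pushD (D : Subgroup (N ≃ₐ[K] N)) : Subgroup (Equiv.Perm (Fin n)) where
  carrier := {σ | ∃ g ∈ D, ∀ i, g (θ i) = θ (σ i)}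
  mul_mem' := by
    rintro σ σ' ⟨g, hg, h⟩ ⟨g', hg', h'⟩
    refine ⟨g * g', D.mul_mem hg hg', fun i => ?_⟩
    rw [AlgEquiv.mul_apply, h', h, Equiv.Perm.mul_apply]
  one_mem' := ⟨1, D.one_mem, fun i => rfl⟩
  inv_mem' := by
    rintro σ ⟨g, hg, h⟩
    refine ⟨g⁻¹, D.inv_mem hg, fun i => ?_⟩
    have h1 := h (σ⁻¹ i)
    have h2 : σ (σ⁻¹ i) = i := σ.apply_symm_apply i
    rw [h2] at h1
    rw [← h1]
    exact g.symm_apply_apply _


lemma pushD_mono {D D' : Subgroup (N ≃ₐ[K] N)} (h : D ≤ D') : pushD θ D ≤ pushD θ D' := by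
  rintro σ ⟨g, hg, hs⟩
  exact ⟨g, h hg, hs⟩

end push

theorem d_stm (h1 : D1Stm) (h3 : D3Stm) (h4 : D4Stm) (h5 : D5Stm) : DStm := by
  intro F _ _ n hn hn5 x r hker m₁ m₂ c₁ c₂ hs1 hs2 hm1 hm2 hm12 N _ _ _ _ θ hθ
  classical
  have e1 := h1 F n x r hker m₁ c₁ hs1
  have e2 := h1 F n x r hker m₂ c₂ hs2
  have hr : ∀ i, r i ≠ 0 := by
    intro i h0
    by_cases h : m₁ i = i
    · exact (e1 i).1 (by rw [h0, eval_zero]) h
    · exact (e2 i).1 (by rw [h0, eval_zero]) (hm12 i h)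
  have hx : Function.Injective x := by
    intro i j hij
    obtain ⟨-, ⟨s, hs, hss⟩, -⟩ := hs1
    obtain ⟨-, ⟨s', hs', hss'⟩, -⟩ := hs2
    have hsij : s i = s j := by
      have : ((s i : ℚ) : F) = s j := by rw [← hs, ← hs, hij]
      exact_mod_cast this
    have hsij' : s' i = s' j := by
      have : ((s' i : ℚ) : F) = s' j := by rw [← hs', ← hs', hij]
      exact_mod_cast this
    rcases (hss i j).1 hsij with h | h
    · exact h.symm
    · rcases (hss' i j).1 hsij' with h' | h'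
      · exact h'.symm
      · by_cases hm : m₁ i = i
        · rw [hm] at h; exact h.symm
        · rw [hm12 i hm] at h'; exact h'.symm
  have hne : Nonempty (Fin n) := ⟨⟨0, by omega⟩⟩
  have hirr := h3 F[X] (Fin n) x r hx hr
  set K := FractionRing F[X][X] with hK
  set f : K[X] := (mest x r).map (algebraMap F[X][X] K) with hf
  have hirr' : Irreducible f := hirr
  have hfN : f.map (algebraMap K N) = ∏ i, (X - C (θ i)) := by
    rw [hf, Polynomial.map_map, hθ]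
  have hchar : CharZero K := by
    have : Function.Injective (algebraMap F[X][X] K) := IsFractionRing.injective _ _
    exact charZero_of_injective_algebraMap this
  have hsep : f.Separable := hirr'.separable
  have hθinj : Function.Injective θ := by
    rw [← separable_prod_X_sub_C_iff, ← hfN]
    exact hsep.map
  have hroot : ∀ i, aeval (θ i) f = 0 := by
    intro i
    rw [aeval_def, ← eval_map, hfN, eval_prod]
    exact Finset.prod_eq_zero (Finset.mem_univ i) (by simp)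
  have hperm : ∀ g : N ≃ₐ[K] N, ∃ σ : Equiv.Perm (Fin n), ∀ i, g (θ i) = θ (σ i) := by
    intro g
    have hex : ∀ i, ∃ j, g (θ i) = θ j := by
      intro i
      have h6 : aeval (g (θ i)) f = 0 := by
        have := hroot i
        have h7 := congrArg g this
        rw [map_zero, ← Polynomial.aeval_algHom_apply] at h7
        exact h7
      rw [aeval_def, ← eval_map, hfN, eval_prod, Finset.prod_eq_zero_iff] at h6
      obtain ⟨j, -, hj⟩ := h6
      refine ⟨j, ?_⟩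
      rw [eval_sub, eval_X, eval_C] at hj
      exact sub_eq_zero.1 hj
    choose σ hσ using hex
    have hinj : Function.Injective σ := by
      intro i j hij
      apply hθinj
      apply g.injective
      rw [hσ, hσ, hij]
    exact ⟨Equiv.ofBijective σ (Finite.injective_iff_bijective.1 hinj), hσ⟩
  have htrans : ∀ i j, ∃ g : N ≃ₐ[K] N, g (θ i) = θ j := by
    intro i j
    have hconj : IsConjRoot K (θ i) (θ j) := by
      rw [IsConjRoot, ← minpoly.eq_of_irreducible hirr' (hroot i),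
        ← minpoly.eq_of_irreducible hirr' (hroot j)]
    obtain ⟨σ, hσ⟩ := isConjRoot_iff_exists_algEquiv.1 hconj
    exact ⟨σ.symm, by rw [← hσ]; simp⟩
  refine ⟨hr, hx, hθinj, ?_⟩
  have hG : ∀ i j, ∃ g ∈ pushD (K := K) θ ⊤, g i = j := by
    intro i j
    obtain ⟨g, hg⟩ := htrans i j
    obtain ⟨σ, hσ⟩ := hperm g
    refine ⟨σ, ⟨g, Subgroup.mem_top _, hσ⟩, ?_⟩
    apply hθinj
    rw [← hσ, hg]
  have key : ∀ (D : Subgroup (N ≃ₐ[K] N)) (I : Finset (Fin n)) (m' : Equiv.Perm (Fin n))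
      (_ : ∀ g ∈ D, ∃ σ : Equiv.Perm (Fin n), (∀ i, g (θ i) = θ (σ i)) ∧ (∀ k ∈ I, σ k ∈ I) ∧
        ∀ k, k ∉ I → σ k = k ∨ σ k = m' k)
      (_ : ∀ i ∈ I, ∀ j ∈ I, ∃ g ∈ D, g (θ i) = θ j),
      (∀ g ∈ pushD (K := K) θ D, ∀ k ∈ I, g k ∈ I) ∧
      (∀ g ∈ pushD (K := K) θ D, ∀ k, k ∉ I → g k = k ∨ g k = m' k) ∧
      (∀ i ∈ I, ∀ j ∈ I, ∃ g ∈ pushD (K := K) θ D, g i = j) := by
    intro D I m' hD hDt
    have huniq : ∀ g ∈ D, ∀ σ σ' : Equiv.Perm (Fin n), (∀ i, g (θ i) = θ (σ i)) →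
        (∀ i, g (θ i) = θ (σ' i)) → σ = σ' := by
      intro g _ σ σ' h h'
      ext1 i
      apply hθinj
      rw [← h, ← h']
    refine ⟨?_, ?_, ?_⟩
    · rintro σ ⟨g, hg, hσ⟩ k hk
      obtain ⟨σ', hσ', h6, -⟩ := hD g hg
      rw [huniq g hg σ σ' hσ hσ']
      exact h6 k hk
    · rintro σ ⟨g, hg, hσ⟩ k hk
      obtain ⟨σ', hσ', -, h6⟩ := hD g hg
      rw [huniq g hg σ σ' hσ hσ']
      exact h6 k hk
    · intro i hi j hj
      obtain ⟨g, hg, hgij⟩ := hDt i hi j hj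
      obtain ⟨σ, hσ, -, -⟩ := hD g hg
      refine ⟨σ, ⟨g, hg, hσ⟩, ?_⟩
      apply hθinj
      rw [← hσ, hgij]
  have hex1 : ∃ i, m₁ i = i := by
    have : 0 < Nat.card {i // m₁ i = i} := by rw [hm1]; omega
    obtain ⟨i⟩ := (Nat.card_pos_iff.1 this).1
    exact ⟨i.1, i.2⟩
  have hex2 : ∃ i, m₂ i = i := by
    have : 0 < Nat.card {i // m₂ i = i} := by rw [hm2]; omega
    obtain ⟨i⟩ := (Nat.card_pos_iff.1 this).1
    exact ⟨i.1, i.2⟩
  obtain ⟨D₁, I₁, m₁', hc1, -, -, hD1, ht1⟩ := h4 F n x r m₁ c₁ hs1 e1 hex1 N θ hθinj hθ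
  obtain ⟨D₂, I₂, m₂', hc2, hmm2, hmI2, hD2, ht2⟩ := h4 F n x r m₂ c₂ hs2 e2 hex2 N θ hθinj hθ
  obtain ⟨k1, -, k3⟩ := key D₁ I₁ m₁' hD1 ht1
  obtain ⟨l1, l2, l3⟩ := key D₂ I₂ m₂' hD2 ht2
  have hfin := h5 n hn hn5 (pushD (K := K) θ ⊤) hG I₁ (by rw [hc1, hm1]) (pushD (K := K) θ D₁)
    (pushD_mono θ le_top) k1 k3 I₂ (by rw [hc2, hm2]) (pushD (K := K) θ D₂) m₂' hmm2 hmI2
    (pushD_mono θ le_top) l1 l2 l3
  intro τ hτ
  obtain ⟨g, -, hg⟩ := hfin hτ
  exact ⟨g, hg⟩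

end Pool.Agent.T2H67.SA
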