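import Mathlib
import Pool.Agent.H84.L.A7_T2H67_SA_DStm
import Pool.Agent.H84.L.A7_T2H67_SA_DStm2



/-!
# Step D1: the zeros of the kernel vector at a special point
-/

set_option autoImplicit false

namespace Pool.Agent.T2H67.SA

open Polynomial

lemma d1_rat {ι : Type} [DecidableEq ι] (S : Finset ι) (s : ι → ℚ)
    (hs : ∀ i ∈ S, ∀ j ∈ S, s i = s j → i = j) (ρ : ι → ℚ)
    (h : ∀ i ∈ S, ∑ j ∈ S.erase i, (s i - s j)⁻¹ * ρ j = 0) (i0 : ι) (hi0 : i0 ∈ S)
    (h0 : ρ i0 = 0) : ∀ j ∈ S, ρ j = 0 := by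
  set J := S.erase i0 with hJ
  have hJS : ∀ j ∈ J, j ∈ S := fun j hj => Finset.mem_of_mem_erase hj
  have hin : ∀ j ∈ J, ∑ k ∈ J.erase j, (s j - s k)⁻¹ * ρ k = 0 := by
    intro j hj
    have h1 := h j (hJS j hj)
    have h2 : i0 ∈ S.erase j := Finset.mem_erase.2 ⟨(Finset.ne_of_mem_erase hj).symm, hi0⟩
    rw [← Finset.add_sum_erase _ _ h2, h0, mul_zero, zero_add] at h1
    rw [hJ, Finset.erase_right_comm]
    exact h1
  set a : ι → ℚ := fun j => (s i0 - s j)⁻¹ * ρ j with ha
  have hsum : ∑ j ∈ J, a j = 0 := h i0 hi0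
  have hne : ∀ i ∈ S, ∀ j ∈ S, i ≠ j → s i - s j ≠ 0 := by
    intro i hi j hj hij h1
    exact hij (hs i hi j hj (sub_eq_zero.1 h1))
  have hcross : ∑ j ∈ J, ∑ k ∈ J.erase j, a j * a k = 0 := by
    have h1 : ∀ j ∈ J, ∀ k ∈ J.erase j, a j * a k =
        a j * ((s j - s k)⁻¹ * ρ k) + a k * ((s k - s j)⁻¹ * ρ j) := by
      intro j hj k hk
      have e1 := hne j (hJS j hj) k (hJS k (Finset.mem_of_mem_erase hk))
        (Finset.ne_of_mem_erase hk).symm
      have e1' := hne k (hJS k (Finset.mem_of_mem_erase hk)) j (hJS j hj)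
        (Finset.ne_of_mem_erase hk)
      have e2 := hne i0 hi0 j (hJS j hj) (Finset.ne_of_mem_erase hj).symm
      have e3 := hne i0 hi0 k (hJS k (Finset.mem_of_mem_erase hk))
        (Finset.ne_of_mem_erase (Finset.mem_of_mem_erase hk)).symm
      simp only [ha]
      field_simp
      ring
    have h2 : ∑ j ∈ J, ∑ k ∈ J.erase j, a j * a k =
        ∑ j ∈ J, ∑ k ∈ J.erase j, a j * ((s j - s k)⁻¹ * ρ k) +
        ∑ j ∈ J, ∑ k ∈ J.erase j, a k * ((s k - s j)⁻¹ * ρ j) := by
      rw [← Finset.sum_add_distrib]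
      refine Finset.sum_congr rfl fun j hj => ?_
      rw [← Finset.sum_add_distrib]
      exact Finset.sum_congr rfl fun k hk => h1 j hj k hk
    have h3 : ∑ j ∈ J, ∑ k ∈ J.erase j, a j * ((s j - s k)⁻¹ * ρ k) = 0 := by
      refine Finset.sum_eq_zero fun j hj => ?_
      rw [← Finset.mul_sum, hin j hj, mul_zero]
    have h4 : ∑ j ∈ J, ∑ k ∈ J.erase j, a k * ((s k - s j)⁻¹ * ρ j) =
        ∑ k ∈ J, ∑ j ∈ J.erase k, a k * ((s k - s j)⁻¹ * ρ j) := by
      refine Finset.sum_comm' ?_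
      intro x y
      simp only [Finset.mem_erase]
      tauto
    rw [h2, h4, h3]
    simp
  have hsq : ∑ j ∈ J, a j ^ 2 = 0 := by
    have h1 : (∑ j ∈ J, a j) * (∑ k ∈ J, a k) =
        ∑ j ∈ J, a j ^ 2 + ∑ j ∈ J, ∑ k ∈ J.erase j, a j * a k := by
      rw [Finset.sum_mul, ← Finset.sum_add_distrib]
      refine Finset.sum_congr rfl fun j hj => ?_
      rw [Finset.mul_sum, ← Finset.add_sum_erase _ _ hj, pow_two]
    rw [hsum, hcross, mul_zero, add_zero] at h1
    exact h1.symm
  intro j hj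
  by_cases hj0 : j = i0
  · rw [hj0, h0]
  · have hjJ : j ∈ J := Finset.mem_erase.2 ⟨hj0, hj⟩
    have h1 := (Finset.sum_eq_zero_iff_of_nonneg (fun i _ => sq_nonneg (a i))).1 hsq j hjJ
    have h2 : a j = 0 := by
      rcases pow_eq_zero_iff (two_ne_zero) |>.1 h1 with h3
      exact h3
    have e2 := hne i0 hi0 j hj (Ne.symm hj0)
    rcases mul_eq_zero.1 h2 with h3 | h3
    · exact absurd (inv_eq_zero.1 h3) e2
    · exact h3

lemma d1_field {F : Type} [Field F] [CharZero F] {ι : Type} [DecidableEq ι] (S : Finset ι)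
    (s : ι → ℚ) (hs : ∀ i ∈ S, ∀ j ∈ S, s i = s j → i = j) (ρ : ι → F)
    (h : ∀ i ∈ S, ∑ j ∈ S.erase i, (s i - s j)⁻¹ • ρ j = 0) (i0 : ι) (hi0 : i0 ∈ S)
    (h0 : ρ i0 = 0) : ∀ j ∈ S, ρ j = 0 := by
  intro j hj
  rw [← Module.forall_dual_apply_eq_zero_iff ℚ]
  intro τ
  refine d1_rat S s hs (fun j => τ (ρ j)) (fun i hi => ?_) i0 hi0 (by simp [h0]) j hj
  have h1 := congrArg τ (h i hi)
  rw [map_zero, map_sum] at h1
  rw [← h1]
  refine Finset.sum_congr rfl fun k _ => ?_
  rw [map_smul, smul_eq_mul]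

theorem d1_stm : D1Stm := by
  intro F _ _ n x r hker m c hspec
  classical
  obtain ⟨hm, ⟨s, hs, hss⟩, i1, hi1⟩ := hspec
  have hmm : ∀ i, m (m i) = i := by
    intro i
    have := congrArg (fun σ => σ i) hm
    simpa using this
  set ρ : Fin n → F := fun i => (r i).eval c with hρ
  have hK : ∀ i, ∑ j ∈ Finset.univ.erase i, ρ j *
      ∏ k ∈ (Finset.univ.erase i).erase j, ((s i : F) - s k) = 0 := by
    intro i
    have h1 := congrArg (eval c) (hker i)
    simp only [eval_finsetSum, eval_mul, eval_prod, eval_sub, eval_zero, hs] at h1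
    exact h1
  have hprod : ∀ (i : Fin n) (T : Finset (Fin n)), (∀ k ∈ T, k ≠ i ∧ k ≠ m i) →
      ∏ k ∈ T, ((s i : F) - s k) ≠ 0 := by
    intro i T hT
    rw [Finset.prod_ne_zero_iff]
    intro k hk h1
    have h2 : s i = s k := by
      have := sub_eq_zero.1 h1
      exact_mod_cast this
    rcases (hss i k).1 h2 with h3 | h3
    · exact (hT k hk).1 h3
    · exact (hT k hk).2 h3
  -- moved points
  have ha : ∀ i, m i ≠ i → ρ i = 0 := by
    intro i hi
    have h1 := hK (m i)
    have hmi : m (m i) ≠ m i := by rw [hmm]; exact hi.symm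
    rw [Finset.sum_eq_single i] at h1
    · rcases mul_eq_zero.1 h1 with h2 | h2
      · exact h2
      · exfalso
        refine hprod (m i) _ ?_ h2
        intro k hk
        rw [Finset.mem_erase, Finset.mem_erase] at hk
        refine ⟨hk.2.1, ?_⟩
        rw [hmm]; exact hk.1
    · intro j hj hji
      have h3 : i ∈ (Finset.univ.erase (m i)).erase j :=
        Finset.mem_erase.2 ⟨hji.symm, Finset.mem_erase.2 ⟨hi.symm, Finset.mem_univ _⟩⟩
      rw [Finset.prod_eq_zero h3, mul_zero]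
      have h4 : s (m i) = s i := (hss _ _).2 (Or.inr (hmm i).symm)
      rw [h4, sub_self]
    · intro h; exact absurd (Finset.mem_erase.2 ⟨hi.symm, Finset.mem_univ _⟩) h
  set S : Finset (Fin n) := Finset.univ.filter (fun i => m i = i) with hS
  have hSmem : ∀ i, i ∈ S ↔ m i = i := fun i => by simp [hS]
  have hsinj : ∀ i ∈ S, ∀ j ∈ S, s i = s j → i = j := by
    intro i hi j _ hij
    rcases (hss i j).1 hij with h | h
    · exact h.symm
    · rw [(hSmem i).1 hi] at h; exact h.symm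
  have hSK : ∀ i ∈ S, ∑ j ∈ S.erase i, (s i - s j)⁻¹ • ρ j = 0 := by
    intro i hi
    have hmi := (hSmem i).1 hi
    have hP : ∏ k ∈ Finset.univ.erase i, ((s i : F) - s k) ≠ 0 := by
      apply hprod
      intro k hk
      have := Finset.ne_of_mem_erase hk
      exact ⟨this, by rw [hmi]; exact this⟩
    have h1 : (∏ k ∈ Finset.univ.erase i, ((s i : F) - s k)) *
        ∑ j ∈ Finset.univ.erase i, (s i - s j)⁻¹ • ρ j = 0 := by
      rw [Finset.mul_sum, ← hK i]
      refine Finset.sum_congr rfl fun j hj => ?_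
      rw [← Finset.mul_prod_erase _ _ hj, Algebra.smul_def]
      have h2 : (s i : F) - s j ≠ 0 := by
        intro h3
        have h4 : s i = s j := by
          have := sub_eq_zero.1 h3
          exact_mod_cast this
        rcases (hss i j).1 h4 with h5 | h5
        · exact Finset.ne_of_mem_erase hj h5
        · rw [hmi] at h5; exact Finset.ne_of_mem_erase hj h5
      have h3 : algebraMap ℚ F (s i - s j)⁻¹ = ((s i : F) - s j)⁻¹ := by
        rw [eq_ratCast]; push_cast; rfl
      rw [h3]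
      field_simp
    have h2 := (mul_eq_zero.1 h1).resolve_left hP
    rw [← h2]
    apply Finset.sum_subset
    · exact Finset.erase_subset_erase _ (Finset.subset_univ _)
    · intro j hj hj2
      have h3 : m j ≠ j := by
        intro h4
        exact hj2 (Finset.mem_erase.2 ⟨Finset.ne_of_mem_erase hj, (hSmem j).2 h4⟩)
      rw [ha j h3, smul_zero]
  intro i
  constructor
  · intro h0 hmi
    have h1 := d1_field S s hsinj ρ hSK i ((hSmem i).2 hmi) h0
    apply hi1
    by_cases h2 : m i1 = i1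
    · exact h1 i1 ((hSmem i1).2 h2)
    · exact ha i1 h2
  · exact ha i

end Pool.Agent.T2H67.SA
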