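import Mathlib
import Pool.Agent.H84.L.A7_T2H67_SA_DStm2



/-!
# Step D3: irreducibility
-/

set_option autoImplicit false

namespace Pool.Agent.T2H67.SA

open Polynomial

theorem d3_stm : D3Stm := by
  intro R _ _ _ ι _ _ _ s ρ hs hρ
  classical
  set P : R[X] := ∏ i, (X - C (s i)) with hP
  set Q : R[X] := ∑ i, C (ρ i ^ 2) * ∏ j ∈ Finset.univ.erase i, (X - C (s j)) with hQ
  set f : R[X][X] := (∏ i, (X - C (C (s i)))) -
      C (X : R[X]) * ∑ i, C (C (ρ i ^ 2)) * ∏ j ∈ Finset.univ.erase i, (X - C (C (s j))) with hf
  have hfPQ : f = P.map C - C (X : R[X]) * Q.map C := by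
    rw [hf, hP, hQ]
    simp [Polynomial.map_prod, Polynomial.map_sum]
  have hswap : Bivariate.swap f = C (-Q) * X + C P := by
    rw [hfPQ, map_sub, map_mul, Bivariate.swap_map_C, Bivariate.swap_map_C, Bivariate.swap_X]
    simp only [map_neg]
    ring
  have hQs : ∀ i, Q.eval (s i) ≠ 0 := by
    intro i
    have h1 : Q.eval (s i) = ρ i ^ 2 * ∏ j ∈ Finset.univ.erase i, (s i - s j) := by
      rw [hQ, eval_finsetSum, Finset.sum_eq_single i]
      · simp [eval_prod]
      · intro k _ hk
        rw [eval_mul, eval_prod]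
        have h2 : i ∈ Finset.univ.erase k := Finset.mem_erase.2 ⟨hk.symm, Finset.mem_univ _⟩
        rw [Finset.prod_eq_zero h2 (by simp), mul_zero]
      · intro h; exact absurd (Finset.mem_univ _) h
    rw [h1]
    apply mul_ne_zero (pow_ne_zero _ (hρ i))
    rw [Finset.prod_ne_zero_iff]
    intro j hj h2
    exact Finset.ne_of_mem_erase hj (hs (sub_eq_zero.1 h2)).symm
  have hirr : Irreducible f := by
    rw [← MulEquiv.irreducible_iff (Bivariate.swap (R := R)), hswap]
    apply irreducible_C_mul_X_add_C
    · intro h0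
      have h1 := hQs (Classical.arbitrary ι)
      rw [neg_eq_zero.1 h0] at h1
      simp at h1
    · intro d hd1 hd2
      by_contra hdu
      have hd0 : d ≠ 0 := by
        rintro rfl
        have h1 := hQs (Classical.arbitrary ι)
        have h2 := zero_dvd_iff.1 hd1
        rw [neg_eq_zero.1 h2] at h1
        simp at h1
      obtain ⟨π, hπ, hπd⟩ := WfDvdMonoid.exists_irreducible_factor hdu hd0
      have hπp : Prime π := hπ.prime
      obtain ⟨i, _, hi⟩ := hπp.exists_mem_finset_dvd (hπd.trans hd2)
      have h1 : Associated π (X - C (s i)) :=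
        hπ.associated_of_dvd (irreducible_X_sub_C (s i)) hi
      have h2 : X - C (s i) ∣ Q := h1.symm.dvd.trans (hπd.trans (dvd_neg.1 hd1))
      exact hQs i (dvd_iff_isRoot.1 h2)
  have hPm : P.Monic := monic_prod_X_sub_C s Finset.univ
  have hdeg : Q.degree < P.degree := by
    have h1 : P.degree = (Fintype.card ι : ℕ) := by
      rw [hP, degree_prod_of_monic _ _ (fun i _ => monic_X_sub_C (s i))]
      simp
    rw [h1, ← mem_degreeLT]
    apply Submodule.sum_mem
    intro i _
    rw [mem_degreeLT]
    have h2 : (∏ j ∈ Finset.univ.erase i, (X - C (s j))).degree =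
        (((Finset.univ.erase i).card : ℕ) : WithBot ℕ) := by
      rw [degree_prod_of_monic _ _ (fun i _ => monic_X_sub_C (s i))]
      simp
    refine (degree_mul_le _ _).trans_lt ?_
    rw [h2]
    have h3 : (Finset.univ.erase i).card < Fintype.card ι :=
      Finset.card_erase_lt_of_mem (Finset.mem_univ i)
    calc (C (ρ i ^ 2)).degree + (((Finset.univ.erase i).card : ℕ) : WithBot ℕ)
        ≤ 0 + (((Finset.univ.erase i).card : ℕ) : WithBot ℕ) := by
          gcongr
          exact degree_C_le
      _ < _ := by
          rw [zero_add]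
          exact_mod_cast h3
  have hmon : f.Monic := by
    rw [hfPQ]
    apply Monic.sub_of_left (hPm.map C)
    have h1 : (P.map (C : R →+* R[X])).degree = P.degree := degree_map_eq_of_injective C_injective _
    have h2 : (Q.map (C : R →+* R[X])).degree = Q.degree := degree_map_eq_of_injective C_injective _
    refine (degree_mul_le _ _).trans_lt ?_
    rw [h1, h2]
    refine lt_of_le_of_lt ?_ hdeg
    calc (C (X : R[X])).degree + Q.degree ≤ 0 + Q.degree := by
          gcongr
          exact degree_C_le
      _ = _ := zero_add _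
  exact (hmon.irreducible_iff_irreducible_map_fraction_map).1 hirr

end Pool.Agent.T2H67.SA
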