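import Mathlib



/-!
# Decomposition groups and reductions of polynomials
-/

set_option autoImplicit false

namespace Pool.Agent.T2H67.SA

open Polynomial
open scoped Pointwise

/- Reduction of a Galois extension at a prime: the Galois group of the residue extension is
realised by elements of the Galois group which permute the roots compatibly. -/
theorem dec_group (A K N : Type) [CommRing A] [IsDomain A] [IsIntegrallyClosed A] [Field K]
    [Algebra A K] [IsFractionRing A K] [Field N] [Algebra K N] [Algebra A N] [IsScalarTower A K N]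
    [FiniteDimensional K N] [IsGalois K N] (P : Ideal A) [P.IsPrime] (p : A[X]) (hp : p.Monic)
    {n : ℕ} (θ : Fin n → N) (hθ : Function.Injective θ)
    (hpθ : p.map (algebraMap A N) = ∏ i, (X - C (θ i))) :
    ∃ (L' : Type) (_ : Field L') (_ : Algebra (FractionRing (A ⧸ P)) L')
      (_ : Normal (FractionRing (A ⧸ P)) L') (θ' : Fin n → L') (D : Subgroup (N ≃ₐ[K] N)),
      p.map ((algebraMap (FractionRing (A ⧸ P)) L').comp
        ((algebraMap (A ⧸ P) (FractionRing (A ⧸ P))).comp (Ideal.Quotient.mk P))) =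
        ∏ i, (X - C (θ' i)) ∧
      (∀ g ∈ D, ∃ τ : L' ≃ₐ[FractionRing (A ⧸ P)] L', ∃ σ : Equiv.Perm (Fin n),
        (∀ i, g (θ i) = θ (σ i)) ∧ ∀ i, τ (θ' i) = θ' (σ i)) ∧
      (∀ τ : L' ≃ₐ[FractionRing (A ⧸ P)] L', ∃ g ∈ D, ∃ σ : Equiv.Perm (Fin n),
        (∀ i, g (θ i) = θ (σ i)) ∧ ∀ i, τ (θ' i) = θ' (σ i)) := by
  classical
  let B := integralClosure A N
  have : IsIntegralClosure B A N := integralClosure.isIntegralClosure A N
  have : IsFractionRing B N := IsIntegralClosure.isFractionRing_of_finite_extension A K N B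
  let _ : MulSemiringAction (N ≃ₐ[K] N) B := IsIntegralClosure.MulSemiringAction A K N B
  have hinv : Algebra.IsInvariant A B (N ≃ₐ[K] N) := Algebra.isInvariant_of_isGalois A K N B
  have : SMulCommClass (N ≃ₐ[K] N) A B :=
    ⟨fun g a b => map_smul (galRestrict A K N B g) a b⟩
  have : Algebra.IsIntegral A B := Algebra.IsInvariant.isIntegral A B (N ≃ₐ[K] N)
  have hgB : ∀ (g : N ≃ₐ[K] N) (b : B), algebraMap B N (g • b) = g (algebraMap B N b) := by
    intro g b
    exact algebraMap_galRestrict_apply A g b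
  -- the prime over `P`
  have hinjAB : FaithfulSMul A B := by
    rw [faithfulSMul_iff_algebraMap_injective]
    have h1 : Function.Injective (algebraMap A N) := by
      rw [IsScalarTower.algebraMap_eq A K N]
      exact (algebraMap K N).injective.comp (IsFractionRing.injective A K)
    intro a b hab
    apply h1
    rw [IsScalarTower.algebraMap_apply A B N, hab, ← IsScalarTower.algebraMap_apply A B N]
  obtain ⟨⟨Q, hQ1, hQ2⟩⟩ := Ideal.nonempty_primesOver (S := B) (P := P)
  have := hQ1
  have := hQ2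
  let L' := FractionRing (B ⧸ Q)
  let _ : Algebra (FractionRing (A ⧸ P)) L' := FractionRing.liftAlgebra (A ⧸ P) L'
  have : IsScalarTower (A ⧸ P) (FractionRing (A ⧸ P)) L' :=
    FractionRing.isScalarTower_liftAlgebra (A ⧸ P) L'
  have hN' : Normal (FractionRing (A ⧸ P)) L' :=
    Ideal.IsFractionRing.normal (N ≃ₐ[K] N) P Q (FractionRing (A ⧸ P)) L'
  -- the roots in `B`
  have hint : ∀ i, IsIntegral A (θ i) := by
    intro i
    refine ⟨p, hp, ?_⟩
    rw [← eval_map, hpθ, eval_prod]
    exact Finset.prod_eq_zero (Finset.mem_univ i) (by simp)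
  let b : Fin n → B := fun i => ⟨θ i, hint i⟩
  have hb : ∀ i, algebraMap B N (b i) = θ i := fun i => rfl
  have hBN : Function.Injective (algebraMap B N) := Subtype.val_injective
  have hpB : p.map (algebraMap A B) = ∏ i, (X - C (b i)) := by
    apply Polynomial.map_injective _ hBN
    rw [Polynomial.map_map, ← IsScalarTower.algebraMap_eq, hpθ, Polynomial.map_prod]
    refine Finset.prod_congr rfl fun i _ => ?_
    rw [Polynomial.map_sub, Polynomial.map_X, Polynomial.map_C, hb]
  let red : B →+* L' := (algebraMap (B ⧸ Q) L').comp (Ideal.Quotient.mk Q)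
  -- permutations
  have hperm : ∀ g : N ≃ₐ[K] N, ∃ σ : Equiv.Perm (Fin n), ∀ i, g (θ i) = θ (σ i) := by
    intro g
    have h1 : ∀ i, ∃ j, g (θ i) = θ j := by
      intro i
      have h2 : (p.map (algebraMap A N)).eval (g (θ i)) = 0 := by
        have h3 : (p.map (algebraMap A N)).eval (θ i) = 0 := by
          rw [hpθ, eval_prod]
          exact Finset.prod_eq_zero (Finset.mem_univ i) (by simp)
        have h4 : p.map (algebraMap A N) = (p.map (algebraMap A K)).map (algebraMap K N) := by
          rw [Polynomial.map_map, ← IsScalarTower.algebraMap_eq]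
        rw [h4, eval_map_algebraMap] at h3 ⊢
        have h5 := aeval_algHom_apply (g : N →ₐ[K] N) (θ i) (p.map (algebraMap A K))
        rw [h3, map_zero] at h5
        exact h5
      rw [hpθ, eval_prod, Finset.prod_eq_zero_iff] at h2
      obtain ⟨j, _, hj⟩ := h2
      exact ⟨j, by simpa [sub_eq_zero] using hj⟩
    choose f hf using h1
    have hfi : Function.Injective f := by
      intro i j hij
      apply hθ
      apply g.injective
      rw [hf, hf, hij]
    exact ⟨Equiv.ofBijective f (Finite.injective_iff_bijective.1 hfi), hf⟩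
  refine ⟨L', inferInstance, inferInstance, hN', fun i => red (b i),
    MulAction.stabilizer (N ≃ₐ[K] N) Q, ?_, ?_, ?_⟩
  · have h1 : (algebraMap (FractionRing (A ⧸ P)) L').comp
        ((algebraMap (A ⧸ P) (FractionRing (A ⧸ P))).comp (Ideal.Quotient.mk P)) =
        red.comp (algebraMap A B) := by
      rw [← RingHom.comp_assoc, ← IsScalarTower.algebraMap_eq]
      ext a
      change algebraMap (A ⧸ P) L' (Ideal.Quotient.mk P a) =
        algebraMap (B ⧸ Q) L' (Ideal.Quotient.mk Q (algebraMap A B a))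
      rw [IsScalarTower.algebraMap_apply (A ⧸ P) (B ⧸ Q) L']
      rfl
    rw [h1, ← Polynomial.map_map, hpB, Polynomial.map_prod]
    refine Finset.prod_congr rfl fun i _ => ?_
    rw [Polynomial.map_sub, Polynomial.map_X, Polynomial.map_C]
  · intro g hg
    obtain ⟨σ, hσ⟩ := hperm g
    refine ⟨IsFractionRing.stabilizerHom (N ≃ₐ[K] N) P Q (FractionRing (A ⧸ P)) L' ⟨g, hg⟩, σ, hσ,
      fun i => ?_⟩
    have h1 := IsFractionRing.stabilizerHom_apply_apply_mk (N ≃ₐ[K] N) P Q
      (FractionRing (A ⧸ P)) L' ⟨g, hg⟩ (b i)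
    have h2 : g • b i = b (σ i) := by
      apply hBN
      rw [hgB, hb, hb, hσ]
    change IsFractionRing.stabilizerHom (N ≃ₐ[K] N) P Q (FractionRing (A ⧸ P)) L' ⟨g, hg⟩
      (algebraMap _ L' (Ideal.Quotient.mk Q (b i))) = algebraMap _ L' (Ideal.Quotient.mk Q (b (σ i)))
    rw [h1, h2]
  · intro τ
    obtain ⟨⟨g, hg⟩, hgτ⟩ := IsFractionRing.stabilizerHom_surjective (N ≃ₐ[K] N) P Q
      (FractionRing (A ⧸ P)) L' τ
    obtain ⟨σ, hσ⟩ := hperm g
    refine ⟨g, hg, σ, hσ, fun i => ?_⟩
    have h1 := IsFractionRing.stabilizerHom_apply_apply_mk (N ≃ₐ[K] N) P Q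
      (FractionRing (A ⧸ P)) L' ⟨g, hg⟩ (b i)
    have h2 : g • b i = b (σ i) := by
      apply hBN
      rw [hgB, hb, hb, hσ]
    rw [hgτ] at h1
    change τ (algebraMap _ L' (Ideal.Quotient.mk Q (b i))) =
      algebraMap _ L' (Ideal.Quotient.mk Q (b (σ i)))
    rw [h1, h2]

/- The same for a surjection `φ` of `A` onto a domain `R`. -/
theorem dec_group' (A K N R : Type) [CommRing A] [IsDomain A] [IsIntegrallyClosed A] [Field K]
    [Algebra A K] [IsFractionRing A K] [Field N] [Algebra K N] [Algebra A N] [IsScalarTower A K N]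
    [FiniteDimensional K N] [IsGalois K N] [CommRing R] [IsDomain R] (φ : A →+* R)
    (hφ : Function.Surjective φ) (p : A[X]) (hp : p.Monic)
    {n : ℕ} (θ : Fin n → N) (hθ : Function.Injective θ)
    (hpθ : p.map (algebraMap A N) = ∏ i, (X - C (θ i))) :
    ∃ (K' : Type) (_ : Field K') (E : FractionRing R ≃+* K') (L' : Type) (_ : Field L')
      (_ : Algebra K' L') (_ : Normal K' L') (θ' : Fin n → L') (D : Subgroup (N ≃ₐ[K] N)),
      p.map ((algebraMap K' L').comp
        (((E : FractionRing R →+* K').comp (algebraMap R (FractionRing R))).comp φ)) =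
        ∏ i, (X - C (θ' i)) ∧
      (∀ g ∈ D, ∃ τ : L' ≃ₐ[K'] L', ∃ σ : Equiv.Perm (Fin n),
        (∀ i, g (θ i) = θ (σ i)) ∧ ∀ i, τ (θ' i) = θ' (σ i)) ∧
      (∀ τ : L' ≃ₐ[K'] L', ∃ g ∈ D, ∃ σ : Equiv.Perm (Fin n),
        (∀ i, g (θ i) = θ (σ i)) ∧ ∀ i, τ (θ' i) = θ' (σ i)) := by
  let P : Ideal A := RingHom.ker φ
  have hP : P.IsPrime := RingHom.ker_isPrime φ
  obtain ⟨L', _, _, hN', θ', D, hp, hD1, hD2⟩ := dec_group A K N P p hp θ hθ hpθ
  let e : R ≃+* A ⧸ P := (RingHom.quotientKerEquivOfSurjective hφ).symm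
  have he : ∀ a, e (φ a) = Ideal.Quotient.mk P a := by
    intro a
    rw [RingEquiv.symm_apply_eq]
    rfl
  let E : FractionRing R ≃+* FractionRing (A ⧸ P) := IsFractionRing.ringEquivOfRingEquiv e
  refine ⟨FractionRing (A ⧸ P), inferInstance, E, L', inferInstance, inferInstance, hN', θ', D,
    ?_, hD1, hD2⟩
  rw [← hp]
  congr 1
  apply RingHom.ext
  intro a
  change algebraMap (FractionRing (A ⧸ P)) L' (E (algebraMap R (FractionRing R) (φ a))) =
    algebraMap (FractionRing (A ⧸ P)) L' (algebraMap (A ⧸ P) _ (Ideal.Quotient.mk P a))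
  rw [← he]
  congr 1
  exact IsFractionRing.ringEquivOfRingEquiv_algebraMap e (φ a)

end Pool.Agent.T2H67.SA
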