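import Mathlib
import Pool.Agent.H84.L.A7_T2H67_SA_DStm



/-!
# The reduction of the Mestre polynomial
-/

set_option autoImplicit false

namespace Pool.Agent.T2H67.SA

open Polynomial

/- A function on a finite type with fibres of cardinality at most two defines an involution. -/
lemma exists_invol {L : Type} {n : ℕ} [DecidableEq L] (θ' : Fin n → L)
    (h2 : ∀ k, (Finset.univ.filter (fun i => θ' i = θ' k)).card ≤ 2) :
    ∃ m' : Equiv.Perm (Fin n), m' * m' = 1 ∧ ∀ k k', θ' k' = θ' k ↔ (k' = k ∨ k' = m' k) := by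
  classical
  let f : Fin n → Fin n := fun k =>
    if h : ∃ k', k' ≠ k ∧ θ' k' = θ' k then h.choose else k
  have hf1 : ∀ k, θ' (f k) = θ' k := by
    intro k
    by_cases h : ∃ k', k' ≠ k ∧ θ' k' = θ' k
    · simp only [f, dif_pos h]; exact h.choose_spec.2
    · simp only [f, dif_neg h]
  have hf2 : ∀ k k', θ' k' = θ' k → k' = k ∨ k' = f k := by
    intro k k' hk
    by_contra hcon
    push Not at hcon
    have h : ∃ k', k' ≠ k ∧ θ' k' = θ' k := ⟨k', hcon.1, hk⟩
    have hfk : f k ≠ k := by
      simp only [f, dif_pos h]; exact h.choose_spec.1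
    have h3 : ({k, k', f k} : Finset (Fin n)) ⊆ Finset.univ.filter (fun i => θ' i = θ' k) := by
      intro i hi
      simp only [Finset.mem_insert, Finset.mem_singleton] at hi
      rw [Finset.mem_filter]
      refine ⟨Finset.mem_univ _, ?_⟩
      rcases hi with rfl | rfl | rfl
      · rfl
      · exact hk
      · exact hf1 k
    have h4 := Finset.card_le_card h3
    have h5 : ({k, k', f k} : Finset (Fin n)).card = 3 := by
      rw [Finset.card_eq_three]
      exact ⟨k, k', f k, hcon.1.symm, hfk.symm, hcon.2, rfl⟩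
    have h6 := h2 k
    omega
  have hinv : Function.Involutive f := by
    intro k
    rcases hf2 (f k) k (hf1 k).symm with h | h
    · rw [← h, ← h]
    · exact h.symm
  refine ⟨hinv.toPerm, ?_, ?_⟩
  · ext k
    simp [hinv k]
  · intro k k'
    constructor
    · intro h
      exact hf2 k k' h
    · rintro (rfl | rfl)
      · rfl
      · exact hf1 k

theorem fibers {L : Type} [Field L] {n : ℕ} (θ' s' : Fin n → L) (m : Equiv.Perm (Fin n))
    (hm : m * m = 1)
    (hs : ∀ i j, m i ≠ i → m j ≠ j → (s' i = s' j ↔ (j = i ∨ j = m i))) (Q : L[X])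
    (hsep : Q.Separable)
    (hfac : ∏ i, (X - C (θ' i)) =
      (∏ i ∈ Finset.univ.filter (fun i => m i ≠ i), (X - C (s' i))) * Q)
    (hQs : ∀ i, m i ≠ i → Q.eval (s' i) ≠ 0) :
    ∃ (m' : Equiv.Perm (Fin n)) (I : Finset (Fin n)), m' * m' = 1 ∧
      (∀ k, k ∈ I ↔ Q.eval (θ' k) = 0) ∧
      (∀ k, m' k = k ↔ k ∈ I) ∧ (∀ k k', θ' k' = θ' k ↔ (k' = k ∨ k' = m' k)) ∧
      (∀ k, k ∉ I → ∃ j, m j ≠ j ∧ θ' k = s' j) ∧
      I.card = Nat.card {i // m i = i} := by
  classical
  have hQ0 : Q ≠ 0 := hsep.ne_zero
  let Mv : Finset (Fin n) := Finset.univ.filter (fun i => m i ≠ i)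
  have hprod : ∀ (J : Finset (Fin n)) (a : Fin n → L),
      (∏ i ∈ J, (X - C (a i))).roots = J.val.map a := by
    intro J a
    have h1 : ∏ i ∈ J, (X - C (a i)) = ((J.val.map a).map fun b => X - C b).prod := by
      rw [Multiset.map_map]; rfl
    rw [h1, roots_multiset_prod_X_sub_C]
  have hroots : Finset.univ.val.map θ' = Mv.val.map s' + Q.roots := by
    have h1 := congrArg Polynomial.roots hfac
    rw [roots_mul, hprod, hprod] at h1
    · exact h1
    · refine mul_ne_zero ?_ hQ0
      exact Finset.prod_ne_zero_iff.2 fun i _ => X_sub_C_ne_zero _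
  have hnd : Q.roots.Nodup := nodup_roots hsep
  have hcount : ∀ (J : Finset (Fin n)) (a : Fin n → L) (α : L),
      (J.val.map a).count α = (J.filter (fun i => a i = α)).card := by
    intro J a α
    rw [Multiset.count_map, Finset.card_def, Finset.filter_val]
    congr 1
    apply Multiset.filter_congr
    intro i _
    exact eq_comm
  have hfib : ∀ α, (Finset.univ.filter (fun i => θ' i = α)).card =
      (Mv.filter (fun i => s' i = α)).card + Q.roots.count α := by
    intro α
    rw [← hcount, hroots, Multiset.count_add, hcount]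
  have hmm : ∀ i, m (m i) = i := fun i => by
    have := congrArg (fun g => g i) hm
    simpa using this
  -- the fibres
  have hMv0 : ∀ α, Q.eval α = 0 → (Mv.filter (fun i => s' i = α)).card = 0 := by
    intro α hα
    rw [Finset.card_eq_zero, Finset.filter_eq_empty_iff]
    intro i hi h
    rw [← h] at hα
    exact hQs i (Finset.mem_filter.1 hi).2 hα
  have hMv2 : ∀ j, m j ≠ j → (Mv.filter (fun i => s' i = s' j)).card = 2 := by
    intro j hj
    have hmj : m (m j) ≠ m j := by rw [hmm]; exact hj.symm
    have h1 : Mv.filter (fun i => s' i = s' j) = {j, m j} := by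
      ext i
      simp only [Finset.mem_filter, Mv, Finset.mem_univ, true_and, Finset.mem_insert,
        Finset.mem_singleton]
      constructor
      · rintro ⟨hi, h⟩
        exact (hs j i hj hi).1 h.symm
      · rintro (rfl | rfl)
        · exact ⟨hj, rfl⟩
        · exact ⟨hmj, ((hs j (m j) hj hmj).2 (Or.inr rfl)).symm⟩
    rw [h1, Finset.card_pair hj.symm]
  have hc1 : ∀ k, Q.eval (θ' k) = 0 →
      (Finset.univ.filter (fun i => θ' i = θ' k)).card = 1 := by
    intro k hk
    rw [hfib, hMv0 _ hk, zero_add]
    apply Multiset.count_eq_one_of_mem hnd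
    rw [mem_roots hQ0]
    exact hk
  have hc2 : ∀ k, Q.eval (θ' k) ≠ 0 → (∃ j, m j ≠ j ∧ θ' k = s' j) ∧
      (Finset.univ.filter (fun i => θ' i = θ' k)).card = 2 := by
    intro k hk
    have h1 := hfib (θ' k)
    have h2 : Q.roots.count (θ' k) = 0 := by
      rw [Multiset.count_eq_zero, mem_roots hQ0]
      exact hk
    have h3 : 0 < (Finset.univ.filter (fun i => θ' i = θ' k)).card :=
      Finset.card_pos.2 ⟨k, Finset.mem_filter.2 ⟨Finset.mem_univ _, rfl⟩⟩
    rw [h2, add_zero] at h1
    have h4 : 0 < (Mv.filter (fun i => s' i = θ' k)).card := by omega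
    obtain ⟨j, hj⟩ := Finset.card_pos.1 h4
    rw [Finset.mem_filter, Finset.mem_filter] at hj
    refine ⟨⟨j, hj.1.2, hj.2.symm⟩, ?_⟩
    rw [h1, ← hj.2, hMv2 j hj.1.2]
  obtain ⟨m', hm', hmθ⟩ := exists_invol θ' (by
    intro k
    by_cases hk : Q.eval (θ' k) = 0
    · rw [hc1 k hk]; norm_num
    · rw [(hc2 k hk).2])
  have hmI : ∀ k, m' k = k ↔ Q.eval (θ' k) = 0 := by
    intro k
    have h1 : Finset.univ.filter (fun i => θ' i = θ' k) = {k, m' k} := by
      ext i
      simp only [Finset.mem_filter, Finset.mem_univ, true_and, Finset.mem_insert,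
        Finset.mem_singleton]
      exact hmθ k i
    constructor
    · intro h
      by_contra hk
      have h2 := (hc2 k hk).2
      rw [h1, h] at h2
      simp at h2
    · intro hk
      by_contra h
      have h2 := hc1 k hk
      rw [h1, Finset.card_pair (Ne.symm h)] at h2
      omega
  refine ⟨m', Finset.univ.filter (fun k => Q.eval (θ' k) = 0), hm', ?_, ?_, hmθ, ?_, ?_⟩
  · intro k; simp
  · intro k; rw [hmI]; simp
  · intro k hk
    have hk' : Q.eval (θ' k) ≠ 0 := by simpa using hk
    exact (hc2 k hk').1
  · have h1 : (Finset.univ.val.map θ').countP (fun α => Q.eval α = 0) =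
        (Finset.univ.filter (fun k => Q.eval (θ' k) = 0)).card := by
      rw [Multiset.countP_map, Finset.card_def, Finset.filter_val]
    have h2 : (Finset.univ.val.map θ').countP (fun α => Q.eval α = 0) = Multiset.card Q.roots := by
      rw [hroots, Multiset.countP_add]
      have h3 : (Mv.val.map s').countP (fun α => Q.eval α = 0) = 0 := by
        rw [Multiset.countP_eq_zero]
        intro a ha
        rw [Multiset.mem_map] at ha
        obtain ⟨i, hi, rfl⟩ := ha
        have hi' : i ∈ Mv := hi
        exact hQs i (Finset.mem_filter.1 hi').2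
      rw [h3, zero_add, Multiset.countP_eq_card]
      intro a ha
      exact (mem_roots hQ0).1 ha
    have h3 := congrArg Multiset.card hroots
    rw [Multiset.card_add, Multiset.card_map, Multiset.card_map] at h3
    have h4 : (Finset.univ.filter (fun i => m i = i)).card + Mv.card =
        Multiset.card (Finset.univ : Finset (Fin n)).val := by
      exact Finset.card_filter_add_card_filter_not (fun i => m i = i)
    rw [Nat.card_eq_fintype_card, Fintype.card_subtype]
    have h5 : Mv.card = Multiset.card Mv.val := rfl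
    omega

/- the factorisation of the reduction -/
lemma mest_map {F : Type} [Field F] {n : ℕ} (x r : Fin n → F[X]) (m : Equiv.Perm (Fin n)) (c : F)
    [DecidableEq {i // m i = i}]
    (hr : ∀ i, (r i).eval c = 0 ↔ m i ≠ i) :
    (mest x r).map (mapRingHom (evalRingHom c)) =
      (∏ i ∈ Finset.univ.filter (fun i => m i ≠ i), (X - C (C ((x i).eval c)))) *
      ((∏ i : {i // m i = i}, (X - C (C ((x i).eval c)))) -
        C (X : F[X]) * ∑ i : {i // m i = i}, C (C ((r i).eval c ^ 2)) *
          ∏ j ∈ Finset.univ.erase i, (X - C (C ((x j).eval c)))) := by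
  classical
  have h1 : (mest x r).map (mapRingHom (evalRingHom c)) =
      (∏ i, (X - C (C ((x i).eval c)))) - C (X : F[X]) * ∑ i, C (C ((r i).eval c ^ 2)) *
        ∏ j ∈ Finset.univ.erase i, (X - C (C ((x j).eval c))) := by
    simp [mest, Polynomial.map_sub, Polynomial.map_mul, Polynomial.map_prod, Polynomial.map_sum]
  set h : Fin n → F[X][X] := fun i => X - C (C ((x i).eval c)) with hh
  have e1 : ∏ i, h i = (∏ i ∈ Finset.univ.filter (fun i => m i ≠ i), h i) *
      ∏ i : {i // m i = i}, h i := by
    rw [← Finset.prod_filter_mul_prod_filter_not Finset.univ (fun i => m i = i), mul_comm]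
    congr 1
    exact (Finset.prod_subtype (Finset.univ.filter (fun i => m i = i)) (fun i => by simp) h)
  have e2 : ∀ i : {i // m i = i}, ∏ j ∈ Finset.univ.erase (i : Fin n), h j =
      (∏ i ∈ Finset.univ.filter (fun i => m i ≠ i), h i) *
        ∏ j ∈ Finset.univ.erase i, h (j : Fin n) := by
    intro i
    rw [← Finset.prod_filter_mul_prod_filter_not (Finset.univ.erase (i : Fin n))
      (fun i => m i = i), mul_comm]
    congr 1
    · apply Finset.prod_congr _ (fun _ _ => rfl)
      ext j
      simp only [Finset.mem_filter, Finset.mem_erase, Finset.mem_univ, and_true, true_and]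
      constructor
      · rintro ⟨_, hj⟩; exact hj
      · intro hj
        refine ⟨?_, hj⟩
        rintro rfl
        exact hj i.2
    · have e3 : (Finset.univ.erase (i : Fin n)).filter (fun i => m i = i) =
          (Finset.univ.erase i).map (Function.Embedding.subtype _) := by
        ext j
        simp only [Finset.mem_filter, Finset.mem_erase, Finset.mem_univ, and_true, Finset.mem_map,
          Function.Embedding.subtype_apply]
        constructor
        · rintro ⟨hj, hj'⟩
          exact ⟨⟨j, hj'⟩, fun h => hj (congrArg Subtype.val h), rfl⟩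
        · rintro ⟨k, hk, rfl⟩
          exact ⟨fun h => hk (Subtype.ext h), k.2⟩
      rw [e3, Finset.prod_map]
      rfl
  have e4 : ∑ i, C (C ((r i).eval c ^ 2)) * ∏ j ∈ Finset.univ.erase i, h j =
      (∏ i ∈ Finset.univ.filter (fun i => m i ≠ i), h i) *
      ∑ i : {i // m i = i}, C (C ((r i).eval c ^ 2)) *
        ∏ j ∈ Finset.univ.erase i, h (j : Fin n) := by
    rw [← Finset.sum_filter_add_sum_filter_not Finset.univ (fun i => m i = i)]
    have e5 : ∑ i ∈ Finset.univ.filter (fun i => ¬ m i = i), C (C ((r i).eval c ^ 2)) *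
        ∏ j ∈ Finset.univ.erase i, h j = 0 := by
      refine Finset.sum_eq_zero fun i hi => ?_
      have hi' : (r i).eval c = 0 := (hr i).2 (Finset.mem_filter.1 hi).2
      rw [hi']; simp
    rw [e5, add_zero, Finset.sum_subtype (Finset.univ.filter (fun i => m i = i))
      (fun i => by simp : ∀ i, i ∈ Finset.univ.filter (fun i => m i = i) ↔ m i = i),
      Finset.mul_sum]
    refine Finset.sum_congr rfl fun i _ => ?_
    rw [e2]; ring
  rw [h1]
  change ∏ i, h i - C (X : F[X]) * ∑ i, C (C ((r i).eval c ^ 2)) *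
    ∏ j ∈ Finset.univ.erase i, h j = _
  rw [e1, e4]
  ring

end Pool.Agent.T2H67.SA
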