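import Mathlib
import Pool.Agent.H84.L.A7_T2H67_SA_D4a
import Pool.Agent.H84.L.A7_T2H67_SA_D4b
import Pool.Agent.H84.L.A7_T2H67_SA_DStm
import Pool.Agent.H84.L.A7_T2H67_SA_DStm2



/-!
# Step D4: the decomposition group
-/

set_option autoImplicit false

namespace Pool.Agent.T2H67.SA

open Polynomial

lemma mest_monic {F : Type} [Field F] {n : ℕ} (x r : Fin n → F[X]) : (mest x r).Monic := by
  classical
  have h1 : (∏ i, (X - C (C (x i))) : F[X][X][X]).Monic :=
    monic_prod_of_monic _ _ fun i _ => monic_X_sub_C _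
  rcases Nat.eq_zero_or_pos n with rfl | hn
  · have h2 : mest x r = 1 := by
      simp only [mest, Finset.univ_eq_empty, Finset.prod_empty, Finset.sum_empty, mul_zero]
      exact sub_zero (1 : F[X][X][X])
    rw [h2]
    exact monic_one
  · refine h1.sub_of_left ?_
    have h2 : (∏ i, (X - C (C (x i))) : F[X][X][X]).degree = n := by
      rw [degree_prod]
      simp
    rw [h2]
    have h3 : ∀ i : Fin n, (C (X : F[X][X]) * (C (C (r i ^ 2)) *
        ∏ j ∈ Finset.univ.erase i, (X - C (C (x j)))) : F[X][X][X]).degree < (n : WithBot ℕ) := by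
      intro i
      have h4 : (∏ j ∈ Finset.univ.erase i, (X - C (C (x j))) : F[X][X][X]).degree =
          ((n - 1 : ℕ) : WithBot ℕ) := by
        rw [degree_prod]
        simp
      refine lt_of_le_of_lt (degree_mul_le _ _) ?_
      refine lt_of_le_of_lt (add_le_add degree_C_le (degree_mul_le _ _)) ?_
      refine lt_of_le_of_lt (add_le_add le_rfl (add_le_add degree_C_le le_rfl)) ?_
      rw [h4, zero_add, zero_add]
      exact_mod_cast Nat.sub_lt hn one_pos
    rw [Finset.mul_sum]
    exact mem_degreeLT.1 (Submodule.sum_mem _ (fun i _ => mem_degreeLT.2 (h3 i)))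

theorem d4_stm (h3 : D3Stm) : D4Stm := by
  intro F _ _ n x r m c hsp hr hfix N _ _ _ _ θ hθ hmest
  classical
  obtain ⟨hmm, ⟨s, hs, hss⟩, -⟩ := hsp
  let _ : Algebra F[X][X] N := ((algebraMap (FractionRing F[X][X]) N).comp
    (algebraMap F[X][X] (FractionRing F[X][X]))).toAlgebra
  have _ : @IsScalarTower F[X][X] (FractionRing F[X][X]) N Algebra.toSMul Algebra.toSMul
    Algebra.toSMul := IsScalarTower.of_algebraMap_eq (fun _ => rfl)
  let φ : F[X][X] →+* F[X] := mapRingHom (evalRingHom c)
  have hφ : Function.Surjective φ := by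
    intro f
    refine ⟨f.map C, ?_⟩
    change (f.map C).map (evalRingHom c) = f
    rw [Polynomial.map_map]
    have : (evalRingHom c).comp (C : F →+* F[X]) = RingHom.id F := by
      ext a; simp
    rw [this, Polynomial.map_id]
  obtain ⟨K', _, E, L', _, _, hN', θ', D, hp, hD1, hD2⟩ := dec_group' F[X][X]
    (FractionRing F[X][X]) N F[X] φ hφ (mest x r) (mest_monic x r) θ hθ hmest
  let jj : F[X] →+* K' := (E : FractionRing F[X] →+* K').comp
    (algebraMap F[X] (FractionRing F[X]))
  have hjj : Function.Injective jj :=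
    E.injective.comp (IsFractionRing.injective F[X] (FractionRing F[X]))
  have hch : CharZero K' := by
    have h1 : Function.Injective (jj.comp (C : F →+* F[X])) := hjj.comp C_injective
    exact charZero_of_injective_ringHom h1
  -- the irreducible factor
  let C0 : F[X][X] := (∏ i : {i // m i = i}, (X - C (C ((x i).eval c)))) -
        C (X : F[X]) * ∑ i : {i // m i = i}, C (C ((r i).eval c ^ 2)) *
          ∏ j ∈ Finset.univ.erase i, (X - C (C ((x j).eval c)))
  have hsF : ∀ i j, (x i).eval c = (x j).eval c ↔ (j = i ∨ j = m i) := by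
    intro i j
    rw [hs, hs, Rat.cast_inj]
    exact hss i j
  have hirr : Irreducible (C0.map jj) := by
    obtain ⟨i0, hi0⟩ := hfix
    have : Nonempty {i // m i = i} := ⟨⟨i0, hi0⟩⟩
    have h1 := h3 F {i // m i = i} (fun i => (x i).eval c) (fun i => (r i).eval c)
      (by
        intro i j hij
        rcases (hsF i j).1 hij with h | h
        · exact (Subtype.ext h).symm
        · rw [i.2] at h; exact (Subtype.ext h).symm)
      (by
        intro i h
        exact (hr i).1 h i.2)
    rw [← Polynomial.map_map]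
    exact (MulEquiv.irreducible_iff (Polynomial.mapEquiv E)).2 h1
  let Q : L'[X] := (C0.map jj).map (algebraMap K' L')
  have hsep : Q.Separable := (hirr.separable).map
  let s' : Fin n → L' := fun i => algebraMap K' L' (jj (C ((x i).eval c)))
  have hfac : ∏ i, (X - C (θ' i)) =
      (∏ i ∈ Finset.univ.filter (fun i => m i ≠ i), (X - C (s' i))) * Q := by
    rw [← hp]
    change (mest x r).map ((algebraMap K' L').comp (jj.comp φ)) = _
    rw [← RingHom.comp_assoc, ← Polynomial.map_map, mest_map x r m c hr, Polynomial.map_mul,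
      Polynomial.map_prod, ← Polynomial.map_map]
    congr 1
    refine Finset.prod_congr rfl fun i _ => ?_
    rw [Polynomial.map_sub, Polynomial.map_X, Polynomial.map_C]
    rfl
  have hQs : ∀ i, m i ≠ i → Q.eval (s' i) ≠ 0 := by
    intro i hi h
    have h5 : Q.eval (s' i) = algebraMap K' L' (jj (C0.eval (C ((x i).eval c)))) := by
      change eval (algebraMap K' L' (jj (C ((x i).eval c)))) ((C0.map jj).map (algebraMap K' L')) = _
      rw [eval_map_apply, eval_map_apply]
    rw [h5, map_eq_zero_iff _ (algebraMap K' L').injective, map_eq_zero_iff _ hjj] at h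
    have h6 := congrArg (Polynomial.eval 0) h
    simp only [C0, eval_sub, eval_prod, eval_mul, eval_C, eval_X, eval_zero, zero_mul,
      sub_zero] at h6
    rw [Finset.prod_eq_zero_iff] at h6
    obtain ⟨j, _, hj⟩ := h6
    rw [sub_eq_zero] at hj
    rcases (hsF i j).1 hj with h7 | h7
    · exact hi (h7 ▸ j.2)
    · apply hi
      have h8 : m j = j := j.2
      rw [h7] at h8
      exact m.injective h8
  have hs's' : ∀ i j, m i ≠ i → m j ≠ j → (s' i = s' j ↔ (j = i ∨ j = m i)) := by
    intro i j _ _
    rw [← hsF i j]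
    constructor
    · intro h
      exact C_injective (hjj ((algebraMap K' L').injective h))
    · intro h
      simp only [s', h]
  obtain ⟨m', I, hm', hI, hmI, hmθ, hout, hcard⟩ := fibers θ' s' m hmm hs's' Q hsep hfac hQs
  refine ⟨D, I, m', hcard, hm', hmI, ?_, ?_⟩
  · intro g hg
    obtain ⟨τ, σ, hσ, hτ⟩ := hD1 g hg
    refine ⟨σ, hσ, ?_, ?_⟩
    · intro k hk
      rw [hI] at hk ⊢
      rw [← hτ]
      have h5 : Q.eval (τ (θ' k)) = τ (Q.eval (θ' k)) := by
        change eval (τ (θ' k)) ((C0.map jj).map (algebraMap K' L')) =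
          τ (eval (θ' k) ((C0.map jj).map (algebraMap K' L')))
        rw [eval_map_algebraMap, eval_map_algebraMap]
        exact aeval_algHom_apply (τ : L' →ₐ[K'] L') (θ' k) (C0.map jj)
      rw [h5, hk, map_zero]
    · intro k hk
      obtain ⟨j, _, hj⟩ := hout k hk
      rw [← hmθ, ← hτ, hj]
      exact τ.commutes _
  · intro i hi j hj
    have h5 : aeval (θ' i) (C0.map jj) = 0 := by
      rw [← eval_map_algebraMap]; exact (hI i).1 hi
    have h6 : aeval (θ' j) (C0.map jj) = 0 := by
      rw [← eval_map_algebraMap]; exact (hI j).1 hj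
    have h7 := minpoly.eq_of_irreducible hirr h5
    have h8 : aeval (θ' j) (minpoly K' (θ' i)) = 0 := by
      rw [← h7, map_mul, h6, zero_mul]
    obtain ⟨τ, hτ⟩ := minpoly.exists_algEquiv_of_root' (K := K') (L := L')
      ⟨C0.map jj, hirr.ne_zero, h5⟩ h8
    obtain ⟨g, hg, σ, hσ, hτσ⟩ := hD2 τ
    refine ⟨g, hg, ?_⟩
    rw [hσ]
    have h9 : θ' (σ i) = θ' j := by rw [← hτσ, hτ]
    rcases (hmθ j (σ i)).1 h9 with h | h
    · rw [h]
    · rw [h, (hmI j).2 hj]

end Pool.Agent.T2H67.SA
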