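import Mathlib
import Pool.Agent.H84.L.A7_T2H67_SA_DStm2



/-!
# Step D5: group theory
-/

set_option autoImplicit false

namespace Pool.Agent.T2H67.SA

open Equiv MulAction
open scoped Pointwise

lemma d5_primitive (n : ℕ) (hn : Odd n) (G : Subgroup (Equiv.Perm (Fin n)))
    (hG : ∀ i j, ∃ g ∈ G, g i = j)
    (I₁ : Finset (Fin n)) (hn5 : 5 ≤ n) (hI₁ : I₁.card = n - 2) (D₁ : Subgroup (Equiv.Perm (Fin n)))
    (hDG : D₁ ≤ G) (hDI : ∀ g ∈ D₁, ∀ k ∈ I₁, g k ∈ I₁)
    (hDt : ∀ i ∈ I₁, ∀ j ∈ I₁, ∃ g ∈ D₁, g i = j) : IsPreprimitive G (Fin n) := by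
  classical
  have hpre : MulAction.IsPretransitive G (Fin n) := ⟨fun i j => by
    obtain ⟨g, hg, h⟩ := hG i j
    exact ⟨⟨g, hg⟩, h⟩⟩
  refine { hpre with isTrivialBlock_of_isBlock := ?_ }
  intro B hB
  by_cases hsub : B.Subsingleton
  · exact Or.inl hsub
  right
  by_contra hne
  have hnt : B.Nontrivial := Set.not_subsingleton_iff.1 hsub
  have hBne : B.Nonempty := hnt.nonempty
  have hdvd := hB.ncard_dvd_card hBne
  rw [Nat.card_eq_fintype_card, Fintype.card_fin] at hdvd
  have h2 : 2 ≤ B.ncard := Set.one_lt_ncard_iff_nontrivial.2 hnt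
  have hlt : ¬ (n < B.ncard * 2) := by
    intro h
    apply hne
    apply hB.eq_univ_of_card_lt
    rw [Nat.card_eq_fintype_card, Fintype.card_fin]
    exact h
  obtain ⟨k, hk⟩ := hdvd
  have hodd : Odd B.ncard ∧ Odd k := by
    rw [hk] at hn
    exact Nat.odd_mul.1 hn
  have h3 : 3 ≤ B.ncard := by
    obtain ⟨c, hc⟩ := hodd.1
    omega
  have hk2 : 2 * B.ncard < n := by
    have hk1 : k ≠ 1 := by
      rintro rfl
      omega
    obtain ⟨c, hc⟩ := hodd.2
    have : 3 ≤ k := by omega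
    nlinarith
  -- the two points outside
  have hcompl : (I₁ᶜ).card = 2 := by
    rw [Finset.card_compl, Fintype.card_fin, hI₁]; omega
  obtain ⟨a, b, hab, hIab⟩ := Finset.card_eq_two.1 hcompl
  have hI : ∀ x, x ∈ I₁ ↔ x ≠ a ∧ x ≠ b := by
    intro x
    have := Finset.ext_iff.1 hIab x
    simp only [Finset.mem_compl, Finset.mem_insert, Finset.mem_singleton] at this
    tauto
  -- translates
  obtain ⟨b0, hb0⟩ := hBne
  have htr : ∀ x, ∃ g : G, x ∈ g • B := by
    intro x
    obtain ⟨g, hg, h⟩ := hG b0 x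
    refine ⟨⟨g, hg⟩, ?_⟩
    exact ⟨b0, hb0, h⟩
  have hcard : ∀ g : G, (g • B).ncard = B.ncard := by
    intro g
    exact Set.ncard_image_of_injective B (MulAction.injective g)
  have heq := isBlock_iff_smul_eq_smul_of_nonempty.1 hB
  obtain ⟨ga, hga⟩ := htr a
  obtain ⟨gb, hgb⟩ := htr b
  obtain ⟨j, hja, hjb⟩ : ∃ j, j ∉ ga • B ∧ j ∉ gb • B := by
    by_contra hcon
    push Not at hcon
    have h4 : (ga • B ∪ gb • B) = Set.univ := by
      ext j
      simp only [Set.mem_union, Set.mem_univ, iff_true]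
      by_cases h5 : j ∈ ga • B
      · exact Or.inl h5
      · exact Or.inr (hcon j h5)
    have h5 := Set.ncard_union_le (ga • B) (gb • B)
    rw [h4, Set.ncard_univ, Nat.card_eq_fintype_card, Fintype.card_fin, hcard, hcard] at h5
    omega
  obtain ⟨gj, hgj⟩ := htr j
  have hja' : a ∉ gj • B := by
    intro h4
    have h5 := heq (g₁ := gj) (g₂ := ga) ⟨a, h4, hga⟩
    exact hja (h5 ▸ hgj)
  have hjb' : b ∉ gj • B := by
    intro h4
    have h5 := heq (g₁ := gj) (g₂ := gb) ⟨b, h4, hgb⟩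
    exact hjb (h5 ▸ hgj)
  obtain ⟨i, hi, hiab⟩ : ∃ i ∈ ga • B, i ∉ ({a, b} : Set (Fin n)) := by
    apply Set.exists_mem_notMem_of_ncard_lt_ncard ?_ (Set.toFinite _)
    rw [hcard, Set.ncard_pair hab]
    omega
  have hiI : i ∈ I₁ := by
    rw [hI]
    simp only [Set.mem_insert_iff, Set.mem_singleton_iff, not_or] at hiab
    exact hiab
  have hjI : j ∈ I₁ := by
    rw [hI]
    constructor
    · rintro rfl; exact hja hga
    · rintro rfl; exact hjb hgb
  obtain ⟨h, hh, hij⟩ := hDt i hiI j hjI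
  have h4 : ((⟨h, hDG hh⟩ : G) * ga) • B = gj • B := by
    apply heq
    refine ⟨j, ?_, hgj⟩
    rw [mul_smul]
    exact ⟨i, hi, hij⟩
  have h5 : h a ∈ gj • B := by
    rw [← h4, mul_smul]
    exact ⟨a, hga, rfl⟩
  have h6 : h a ∉ I₁ := by
    intro h7
    have h8 := hDI h⁻¹ (D₁.inv_mem hh) (h a) h7
    have h9 : h⁻¹ (h a) = a := h.symm_apply_apply a
    rw [h9, hI] at h8
    exact h8.1 rfl
  rw [hI] at h6
  by_cases h7 : h a = a
  · rw [h7] at h5; exact hja' h5
  · have h8 : h a = b := by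
      by_contra h9
      exact h6 ⟨h7, h9⟩
    rw [h8] at h5; exact hjb' h5

lemma d5_cycle (n : ℕ) (I₂ : Finset (Fin n)) (hI₂ : I₂.card = 3)
    (D₂ : Subgroup (Equiv.Perm (Fin n)))
    (hDI : ∀ g ∈ D₂, ∀ k ∈ I₂, g k ∈ I₂) (hDt : ∀ i ∈ I₂, ∀ j ∈ I₂, ∃ g ∈ D₂, g i = j) :
    ∃ g ∈ D₂, ∀ k ∈ I₂, g (g k) ≠ k := by
  classical
  obtain ⟨a, b, c, hab, hac, hbc, rfl⟩ := Finset.card_eq_three.1 hI₂
  simp only [Finset.mem_insert, Finset.mem_singleton, forall_eq_or_imp, forall_eq] at hDI hDt ⊢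
  obtain ⟨⟨-, ⟨g, hg, hgab⟩, -⟩, ⟨-, -, ⟨h, hh, hhbc⟩⟩, -⟩ := hDt
  obtain ⟨-, g2, g3⟩ := hDI g hg
  obtain ⟨k1, -, k3⟩ := hDI h hh
  by_cases hgb : g b = c
  · -- `g` is a cycle
    have hgc : g c = a := by
      rcases g3 with h1 | h1 | h1
      · exact h1
      · exact absurd (g.injective (h1.trans hgab.symm)) hac.symm
      · exact absurd (g.injective (h1.trans hgb.symm)) hbc.symm
    refine ⟨g, hg, ?_, ?_, ?_⟩
    · rw [hgab, hgb]; exact hac.symm
    · rw [hgb, hgc]; exact hab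
    · rw [hgc, hgab]; exact hbc
  · have hgb' : g b = a := by
      rcases g2 with h1 | h1 | h1
      · exact h1
      · exact absurd (g.injective (h1.trans hgab.symm)) hab.symm
      · exact absurd h1 hgb
    have hgc : g c = c := by
      rcases g3 with h1 | h1 | h1
      · exact absurd (g.injective (h1.trans hgb'.symm)) hbc.symm
      · exact absurd (g.injective (h1.trans hgab.symm)) hac.symm
      · exact h1
    by_cases hhc : h c = a
    · have hha : h a = b := by
        rcases k1 with h1 | h1 | h1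
        · exact absurd (h.injective (h1.trans hhc.symm)) hac
        · exact h1
        · exact absurd (h.injective (h1.trans hhbc.symm)) hab
      refine ⟨h, hh, ?_, ?_, ?_⟩
      · rw [hha, hhbc]; exact hac.symm
      · rw [hhbc, hhc]; exact hab
      · rw [hhc, hha]; exact hbc
    · have hhc' : h c = b := by
        rcases k3 with h1 | h1 | h1
        · exact absurd h1 hhc
        · exact h1
        · exact absurd (h.injective (h1.trans hhbc.symm)) hbc.symm
      have hha : h a = a := by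
        rcases k1 with h1 | h1 | h1
        · exact h1
        · exact absurd (h.injective (h1.trans hhc'.symm)) hac
        · exact absurd (h.injective (h1.trans hhbc.symm)) hab
      refine ⟨h * g, D₂.mul_mem hh hg, ?_, ?_, ?_⟩
      · simp only [Equiv.Perm.mul_apply, hgab, hhbc, hgc, hhc']; exact hab.symm
      · simp only [Equiv.Perm.mul_apply, hgb', hha, hgab, hhbc]; exact hbc.symm
      · simp only [Equiv.Perm.mul_apply, hgc, hhc', hgb', hha]; exact hac

theorem d5_stm : D5Stm := by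
  intro n hn hn5 G hG I₁ hI₁ D₁ hD₁G hD₁I hD₁t I₂ hI₂ D₂ m hm hmI hD₂G hD₂I hD₂m hD₂t
  classical
  have hprim := d5_primitive n hn G hG I₁ hn5 hI₁ D₁ hD₁G hD₁I hD₁t
  obtain ⟨g, hg, hgk⟩ := d5_cycle n I₂ hI₂ D₂ hD₂I hD₂t
  have hoff : ∀ k, k ∉ I₂ → g (g k) = k := by
    intro k hk
    rcases hD₂m g hg k hk with h1 | h1
    · rw [h1, h1]
    · have hmk : m k ≠ k := fun h => hk ((hmI k).1 h)
      have hmm : m (m k) = k := by
        have := congrArg (fun σ => σ k) hm
        simpa using this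
      have hmkI : m k ∉ I₂ := by
        intro h2
        have h3 := (hmI (m k)).2 h2
        rw [hmm] at h3
        exact hmk h3.symm
      rcases hD₂m g hg (m k) hmkI with h2 | h2
      · exact absurd (g.injective (h2.trans h1.symm)) hmk
      · rw [h1, h2, hmm]
  have hsupp : (g * g).support = I₂ := by
    ext k
    rw [Equiv.Perm.mem_support, Equiv.Perm.mul_apply]
    constructor
    · intro h1
      by_contra h2
      exact h1 (hoff k h2)
    · exact hgk k
  have h3 : (g * g).IsThreeCycle := by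
    rw [← card_support_eq_three_iff, hsupp, hI₂]
  exact Equiv.Perm.alternatingGroup_le_of_isPreprimitive_of_isThreeCycle_mem hprim h3
    (G.mul_mem (hD₂G hg) (hD₂G hg))

end Pool.Agent.T2H67.SA
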