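import Mathlib
import Pool.Agent.H84.L.A7_T2H67_SA_Act
import Pool.Agent.H84.L.A7_T2H67_SA_Cl
import Pool.Agent.H84.L.A7_T2H67_SA_Cl2
import Pool.Agent.H84.L.A7_T2H67_SA_EvenStm
import Pool.Agent.H84.L.A7_T2H67_SA_Grp



/-!
# The double cover of `A_n` inside the double cover of `A_{n+1}`
-/

set_option autoImplicit false
set_option linter.unusedSectionVars false

namespace Pool.Agent.T2H67.SA

open Cl Equiv

namespace Ev

variable {n : ℕ}

/- extension by zero -/
def w0 (v : V2 n) : V2 (n + 1) := Fin.snoc (α := fun _ => ZMod 2) v 0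

theorem w0_cs (v : V2 n) (i : Fin n) : w0 v (Fin.castSucc i) = v i := by
  rw [w0, Fin.snoc_castSucc]

theorem w0_last (v : V2 n) : w0 v (Fin.last n) = 0 := by
  rw [w0, Fin.snoc_last]

/- restriction -/
def rs (w : V2 (n + 1)) : V2 n := fun i => w (Fin.castSucc i)

theorem rs_w0 (v : V2 n) : rs (w0 v) = v := by
  funext i
  exact w0_cs v i

theorem w0_rs {w : V2 (n + 1)} (h : w (Fin.last n) = 0) : w0 (rs w) = w := by
  funext i
  induction i using Fin.lastCases with
  | last => rw [w0_last, h]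
  | cast i => rw [w0_cs]; rfl

theorem w0_inj : Function.Injective (w0 (n := n)) := by
  intro u v h
  rw [← rs_w0 u, h, rs_w0]

theorem w0_sub (u v : V2 n) : w0 (u - v) = w0 u - w0 v := by
  funext i
  induction i using Fin.lastCases with
  | last => rw [w0_last, Pi.sub_apply, w0_last, w0_last, sub_zero]
  | cast i => rw [w0_cs, Pi.sub_apply, Pi.sub_apply, w0_cs, w0_cs]

theorem bf_w0 (u v : V2 n) : bf (w0 u) (w0 v) = bf u v := by
  rw [bf, bf, Fin.sum_univ_castSucc]
  have h1 : ∑ j ∈ Finset.univ.filter (· < Fin.last n), w0 u (Fin.last n) * w0 v j = 0 := by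
    refine Finset.sum_eq_zero fun j _ => ?_
    rw [w0_last, zero_mul]
  rw [h1, add_zero]
  refine Finset.sum_congr rfl fun i _ => ?_
  rw [Finset.sum_filter, Finset.sum_filter, Fin.sum_univ_castSucc, if_neg, add_zero]
  · refine Finset.sum_congr rfl fun j _ => ?_
    rw [w0_cs, w0_cs]
    rfl
  · intro h
    exact absurd h (not_lt.2 (Fin.castSucc_lt_last i).le)

theorem wt_w0 (v : V2 n) : wt (w0 v) = wt v := by
  rw [wt, wt, Fin.sum_univ_castSucc, w0_last, add_zero]
  exact Finset.sum_congr rfl fun i _ => w0_cs v i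

theorem w0_single (i : Fin n) : w0 (Pi.single i 1 : V2 n) = Pi.single (Fin.castSucc i) 1 := by
  funext j
  induction j using Fin.lastCases with
  | last => rw [w0_last, Pi.single_eq_of_ne (Fin.castSucc_lt_last i).ne']
  | cast j =>
    rw [w0_cs]
    by_cases h : j = i
    · subst h
      rw [Pi.single_eq_same, Pi.single_eq_same]
    · rw [Pi.single_eq_of_ne h, Pi.single_eq_of_ne]
      intro h'
      exact h (Fin.castSucc_injective n h')

variable {k : Type} [Field k]

/- the embedding as a function -/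
def ef (x : Cl n k) : Cl (n + 1) k := fun w => if w (Fin.last n) = 0 then x (rs w) else 0

theorem ef_w0 (x : Cl n k) (v : V2 n) : ef x (w0 v) = x v := by
  rw [ef, if_pos (w0_last v), rs_w0]

theorem ef_of_ne (x : Cl n k) {w : V2 (n + 1)} (h : w (Fin.last n) ≠ 0) : ef x w = 0 := by
  rw [ef, if_neg h]

/- case distinction -/
theorem w_cases (w : V2 (n + 1)) : (∃ v, w = w0 v) ∨ w (Fin.last n) ≠ 0 := by
  by_cases h : w (Fin.last n) = 0
  · exact Or.inl ⟨rs w, (w0_rs h).symm⟩
  · exact Or.inr h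

theorem ef_E (v : V2 n) : ef (E v : Cl n k) = E (w0 v) := by
  ext w
  rcases w_cases w with ⟨u, rfl⟩ | h
  · rw [ef_w0, E_apply, E_apply]
    by_cases hu : u = v
    · rw [if_pos hu, if_pos (by rw [hu])]
    · rw [if_neg hu, if_neg fun h => hu (w0_inj h)]
  · rw [ef_of_ne _ h, E_apply, if_neg]
    rintro rfl
    exact h (w0_last v)

theorem ef_mul (x y : Cl n k) : ef (x * y) = ef x * ef y := by
  ext w
  rcases w_cases w with ⟨v, rfl⟩ | h
  · rw [ef_w0, mul_apply, mul_apply]
    refine Fintype.sum_of_injective w0 w0_inj _ _ ?_ ?_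
    · intro u hu
      rcases w_cases u with ⟨v', rfl⟩ | h
      · exact absurd ⟨v', rfl⟩ hu
      · rw [ef_of_ne x h, mul_zero, zero_mul]
    · intro u
      rw [← w0_sub, bf_w0, ef_w0, ef_w0]
  · rw [ef_of_ne _ h, mul_apply]
    symm
    refine Finset.sum_eq_zero fun u _ => ?_
    rcases w_cases u with ⟨v, rfl⟩ | h'
    · rw [ef_of_ne y, mul_zero]
      rw [Pi.sub_apply, w0_last, sub_zero]
      exact h
    · rw [ef_of_ne x h', mul_zero, zero_mul]

/- the embedding -/
def emb (n : ℕ) (k : Type) [Field k] : Cl n k →+* Cl (n + 1) k where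
  toFun := ef
  map_one' := by
    rw [Cl.one_def, ef_E, Cl.one_def]
    congr 1
    funext i
    induction i using Fin.lastCases with
    | last => rw [w0_last]; rfl
    | cast i => rw [w0_cs]; rfl
  map_mul' := ef_mul
  map_zero' := by
    ext w
    rw [ef]
    split_ifs <;> rfl
  map_add' x y := by
    ext w
    rw [Cl.add_apply]
    rcases w_cases w with ⟨v, rfl⟩ | h
    · rw [ef_w0, ef_w0, ef_w0, Cl.add_apply]
    · rw [ef_of_ne _ h, ef_of_ne _ h, ef_of_ne _ h, add_zero]

theorem emb_eq (x : Cl n k) : emb n k x = ef x := rfl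

theorem emb_w0 (x : Cl n k) (v : V2 n) : emb n k x (w0 v) = x v := ef_w0 x v

theorem emb_of_ne (x : Cl n k) {w : V2 (n + 1)} (h : w (Fin.last n) ≠ 0) : emb n k x w = 0 :=
  ef_of_ne x h

theorem emb_inj : Function.Injective (emb n k) := by
  intro x y h
  ext v
  rw [← emb_w0 x, h, emb_w0]

theorem emb_e (i : Fin n) : emb n k (e i) = e (Fin.castSucc i) := by
  rw [emb_eq, e, ef_E, w0_single]
  rfl

theorem emb_smul (c : k) (x : Cl n k) : emb n k (c • x) = c • emb n k x := by
  ext w
  rw [Cl.smul_apply]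
  rcases w_cases w with ⟨v, rfl⟩ | h
  · rw [emb_w0, emb_w0, Cl.smul_apply]
  · rw [emb_of_ne _ h, emb_of_ne _ h, mul_zero]

theorem emb_rev (x : Cl n k) : emb n k (rev x) = rev (emb n k x) := by
  ext w
  rw [rev_apply]
  rcases w_cases w with ⟨v, rfl⟩ | h
  · rw [emb_w0, emb_w0, bf_w0, rev_apply]
  · rw [emb_of_ne _ h, emb_of_ne _ h, mul_zero]

theorem emb_hm {a : ZMod 2} {x : Cl n k} (hx : Hm a x) : Hm a (emb n k x) := by
  intro w hw
  rcases w_cases w with ⟨v, rfl⟩ | h
  · rw [emb_w0] at hw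
    rw [wt_w0]
    exact hx v hw
  · exact absurd (emb_of_ne x h) hw

/- the last generator (anti)commutes with the smaller algebra -/
theorem emb_last {a : ZMod 2} {x : Cl n k} (hx : Hm a x) :
    emb n k x * e (Fin.last n) = sg k a • (e (Fin.last n) * emb n k x) := by
  ext w
  obtain ⟨w', rfl⟩ : ∃ w', w = w' + Pi.single (Fin.last n) 1 :=
    ⟨w - Pi.single (Fin.last n) 1, by abel⟩
  rw [Cl.smul_apply, mul_e, e_mul]
  rcases w_cases w' with ⟨v, rfl⟩ | h
  · rw [emb_w0]
    by_cases hv : x v = 0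
    · rw [hv, mul_zero, mul_zero, mul_zero]
    have h1 := bf_single (Fin.last n) (w0 v)
    rw [w0_last, add_zero, wt_w0, hx v hv] at h1
    have h2 : bf (w0 v) (Pi.single (Fin.last n) 1) = a + bf (Pi.single (Fin.last n) 1) (w0 v) := by
      have := zadd (bf (Pi.single (Fin.last n) 1) (w0 v))
      linear_combination h1 - this
    rw [h2, sg_add, mul_assoc]
  · rw [emb_of_ne _ h, mul_zero, mul_zero, mul_zero]

/- extension of permutations -/
def eP (n : ℕ) : Perm (Fin n) →* Perm (Fin (n + 1)) where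
  toFun σ := (finSuccEquivLast.trans (Equiv.optionCongr σ)).trans finSuccEquivLast.symm
  map_one' := by
    ext i
    induction i using Fin.lastCases with
    | last => simp
    | cast i => simp
  map_mul' σ τ := by
    ext i
    induction i using Fin.lastCases with
    | last => simp
    | cast i => simp

theorem eP_cs (σ : Perm (Fin n)) (i : Fin n) : eP n σ (Fin.castSucc i) = Fin.castSucc (σ i) := by
  simp [eP]

theorem eP_last (σ : Perm (Fin n)) : eP n σ (Fin.last n) = Fin.last n := by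
  simp [eP]

theorem pr_eP (σ : Perm (Fin n)) : pr (eP n σ) = pr σ := by
  have h : Perm.sign (eP n σ) = Perm.sign σ := by
    have h1 := Equiv.Perm.sign_symm_trans_trans (Equiv.optionCongr σ)
      (finSuccEquivLast (n := n)).symm
    rw [Equiv.symm_symm, Equiv.optionCongr_sign] at h1
    exact h1
  rw [pr, pr, h]

theorem emb_lf {σ : Perm (Fin n)} {y : Cl n k} (hy : Lf σ y) : Lf (eP n σ) (emb n k y) := by
  refine ⟨?_, fun i => ?_⟩
  · rw [pr_eP]
    exact emb_hm hy.1
  · rw [pr_eP]
    induction i using Fin.lastCases with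
    | last =>
      rw [eP_last]
      exact emb_last hy.1
    | cast i =>
      rw [eP_cs, ← emb_e, ← emb_e, ← map_mul, ← map_mul, ← emb_smul, hy.2]

/- the embedding of the double covers -/
def jf (n : ℕ) : Alt2 n →* Alt2 (n + 1) where
  toFun a := ⟨Units.map (emb n ℚ : Cl n ℚ →* Cl (n + 1) ℚ) a.1, by
    rw [mem_alt2']
    refine ⟨eP n (toPerm n a), ?_, emb_lf (lf_toPerm a), ?_⟩
    · rw [pr_eP, pr_toPerm]
    · change emb n ℚ (a.1 : Cl n ℚ) * rev (emb n ℚ (a.1 : Cl n ℚ)) = 1
      rw [← emb_rev, ← map_mul, alt2_norm, map_one]⟩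
  map_one' := by
    apply Subtype.ext
    apply Units.ext
    exact map_one (emb n ℚ)
  map_mul' a b := by
    apply Subtype.ext
    apply Units.ext
    exact map_mul (emb n ℚ) _ _

theorem jf_val (a : Alt2 n) : ((jf n a).1 : Cl (n + 1) ℚ) = emb n ℚ (a.1 : Cl n ℚ) := rfl

theorem jf_inj : Function.Injective (jf n) := by
  intro a b h
  apply Subtype.ext
  apply Units.ext
  apply emb_inj
  rw [← jf_val, h, jf_val]

theorem toPerm_jf (a : Alt2 n) : toPerm (n + 1) (jf n a) = eP n (toPerm n a) := by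
  apply toPerm_eq
  · rw [jf_val]
    exact emb_lf (lf_toPerm a)
  · rw [pr_eP, pr_toPerm]

theorem jf_negOne : jf n (negOne n) = negOne (n + 1) := by
  apply Subtype.ext
  apply Units.ext
  change emb n ℚ (-1) = -1
  rw [map_neg, map_one]

theorem exists_eP {τ : Perm (Fin (n + 1))} (h : τ (Fin.last n) = Fin.last n) :
    ∃ σ : Perm (Fin n), eP n σ = τ := by
  have hcs : ∀ (τ : Perm (Fin (n + 1))), τ (Fin.last n) = Fin.last n → ∀ i : Fin n,
      τ (Fin.castSucc i) ≠ Fin.last n := by
    intro τ hτ i h1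
    exact (Fin.castSucc_lt_last i).ne (τ.injective (h1.trans hτ.symm))
  have h' : τ⁻¹ (Fin.last n) = Fin.last n := by
    rw [Perm.inv_eq_iff_eq, h]
  refine ⟨{ toFun := fun i => (τ (Fin.castSucc i)).castPred (hcs τ h i)
            invFun := fun i => (τ⁻¹ (Fin.castSucc i)).castPred (hcs τ⁻¹ h' i)
            left_inv := fun i => ?_
            right_inv := fun i => ?_ }, ?_⟩
  · apply Fin.castSucc_injective
    rw [Fin.castSucc_castPred, Fin.castSucc_castPred]
    exact τ.symm_apply_apply _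
  · apply Fin.castSucc_injective
    rw [Fin.castSucc_castPred, Fin.castSucc_castPred]
    exact τ.apply_symm_apply _
  · apply Equiv.ext
    intro i
    induction i using Fin.lastCases with
    | last => rw [eP_last, h]
    | cast i =>
      rw [eP_cs]
      exact Fin.castSucc_castPred _ (hcs τ h i)

theorem mem_range {a : Alt2 (n + 1)} (h : toPerm (n + 1) a (Fin.last n) = Fin.last n) :
    a ∈ (jf n).range := by
  obtain ⟨σ, hσ⟩ := exists_eP h
  have h1 : pr σ = 0 := by
    rw [← pr_eP, hσ, pr_toPerm]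
  obtain ⟨x, hx⟩ := toPerm_surj h1
  have h2 : toPerm (n + 1) (jf n x) = toPerm (n + 1) a := by
    rw [toPerm_jf, hx, hσ]
  rcases eq_or_neg h2 with h3 | h3
  · exact ⟨x, h3.symm⟩
  · refine ⟨negOne n * x, ?_⟩
    rw [map_mul, jf_negOne, h3]

theorem jf_act (σ : Perm (Fin n)) (a : Alt2 n) :
    jf n (act n σ a) = act (n + 1) (eP n σ) (jf n a) := by
  apply Subtype.ext
  have h1 : Lf (eP n σ) ((Units.map (emb n ℚ : Cl n ℚ →* Cl (n + 1) ℚ) (lft σ) :
      (Cl (n + 1) ℚ)ˣ) : Cl (n + 1) ℚ) := emb_lf (lf_lft σ)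
  rw [act_eq h1]
  change Units.map (emb n ℚ : Cl n ℚ →* Cl (n + 1) ℚ) (act n σ a).1 = _
  rw [act_eq (lf_lft σ), map_mul, map_mul, map_inv]
  rfl

end Ev

open Ev in
/- **Package EVEN.** -/
theorem even_stm : EvenStm := fun n =>
  ⟨eP n, jf n, eP_cs, eP_last, jf_inj, fun _ h => Ev.mem_range h, toPerm_jf, jf_act⟩

end Pool.Agent.T2H67.SA
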