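import Mathlib
import Pool.Agent.H84.L.A7_T2H67_SA_DStm
import Pool.Agent.H84.L.A7_T2H67_SA_FamStm



/-!
# Package FAM: existence of equivariant Mestre families
-/

set_option autoImplicit false
set_option linter.unusedSectionVars false

namespace Pool.Agent.T2H67.SA

open Polynomial Matrix

/-! ### the involutions -/

lemma fam_m1 (n : ℕ) (hn5 : 5 ≤ n) : ∃ (m : Equiv.Perm (Fin n)) (s : Fin n → ℚ), m * m = 1 ∧
    (∀ i j, s i = s j ↔ (j = i ∨ j = m i)) ∧ Nat.card {i // m i = i} = n - 2 ∧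
    ∀ i, m i ≠ i → i.1 < 3 := by
  let f : Fin n → Fin n := fun i =>
    ⟨if i.1 = 0 then 1 else if i.1 = 1 then 0 else i.1, by
      have := i.2
      split_ifs <;> omega⟩
  have hf : Function.Involutive f := by
    intro i
    apply Fin.ext
    simp only [f]
    obtain h | h | ⟨h, h'⟩ : i.1 = 0 ∨ i.1 = 1 ∨ (i.1 ≠ 0 ∧ i.1 ≠ 1) := by omega
    · simp [h]
    · simp [h]
    · simp [h, h']
  refine ⟨hf.toPerm f, fun i => ((if i.1 ≤ 1 then 0 else i.1 : ℕ) : ℚ), ?_, ?_, ?_, ?_⟩
  · ext1 i
    exact hf i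
  · intro i j
    rw [Nat.cast_inj]
    change _ ↔ (j = i ∨ j = f i)
    simp only [f, Fin.ext_iff]
    split_ifs <;> omega
  · have h1 : Nat.card {i // hf.toPerm f i = i} =
        (Finset.univ.filter (fun i : Fin n => f i = i)).card := by
      rw [Nat.card_eq_fintype_card, Fintype.card_subtype]
      rfl
    rw [h1]
    have h2 : (Finset.univ.filter (fun i : Fin n => f i = i))ᶜ =
        {⟨0, by omega⟩, ⟨1, by omega⟩} := by
      ext i
      simp only [Finset.mem_compl, Finset.mem_filter, Finset.mem_univ, true_and,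
        Finset.mem_insert, Finset.mem_singleton, f, Fin.ext_iff]
      split_ifs <;> omega
    have h3 := Finset.card_compl (Finset.univ.filter (fun i : Fin n => f i = i))
    rw [h2, Finset.card_pair (by simp [Fin.ext_iff]), Fintype.card_fin] at h3
    have h4 := Finset.card_le_univ (Finset.univ.filter (fun i : Fin n => f i = i))
    rw [Fintype.card_fin] at h4
    omega
  · intro i hi
    change f i ≠ i at hi
    simp only [f, ne_eq, Fin.ext_iff] at hi
    split_ifs at hi <;> omega

lemma fam_m2 (n : ℕ) (hn : Odd n) (hn5 : 5 ≤ n) : ∃ (m : Equiv.Perm (Fin n)) (s : Fin n → ℚ),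
    m * m = 1 ∧ (∀ i j, s i = s j ↔ (j = i ∨ j = m i)) ∧ Nat.card {i // m i = i} = 3 ∧
    ∀ i, i.1 < 3 → m i = i := by
  obtain ⟨c, hc⟩ := hn
  let f : Fin n → Fin n := fun i =>
    ⟨if i.1 < 3 then i.1 else if i.1 % 2 = 1 then i.1 + 1 else i.1 - 1, by
      have := i.2
      split_ifs <;> omega⟩
  have hf : Function.Involutive f := by
    intro i
    apply Fin.ext
    simp only [f]
    split_ifs <;> omega
  refine ⟨hf.toPerm f, fun i => ((if i.1 < 3 then i.1 else 2 * ((i.1 + 1) / 2) : ℕ) : ℚ),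
    ?_, ?_, ?_, ?_⟩
  · ext1 i
    exact hf i
  · intro i j
    rw [Nat.cast_inj]
    change _ ↔ (j = i ∨ j = f i)
    simp only [f, Fin.ext_iff]
    split_ifs <;> omega
  · have h1 : Nat.card {i // hf.toPerm f i = i} =
        (Finset.univ.filter (fun i : Fin n => f i = i)).card := by
      rw [Nat.card_eq_fintype_card, Fintype.card_subtype]
      rfl
    rw [h1]
    have h2 : (Finset.univ.filter (fun i : Fin n => f i = i)) =
        {⟨0, by omega⟩, ⟨1, by omega⟩, ⟨2, by omega⟩} := by
      ext i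
      simp only [Finset.mem_filter, Finset.mem_univ, true_and,
        Finset.mem_insert, Finset.mem_singleton, f, Fin.ext_iff]
      split_ifs <;> omega
    rw [h2]
    rw [Finset.card_eq_three]
    exact ⟨_, _, _, by simp [Fin.ext_iff], by simp [Fin.ext_iff], by simp [Fin.ext_iff], rfl⟩
  · intro i hi
    change f i = i
    simp only [f, Fin.ext_iff]
    rw [if_pos hi]

/-! ### the kernel -/

lemma fam_ker {R : Type} [CommRing R] [IsDomain R] [CharZero R] {n : ℕ} (hn : Odd n)
    (x : Fin n → R) (hx : Function.Injective x) : ∃ v : Fin n → R, v ≠ 0 ∧ Ker x v := by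
  classical
  let M : Matrix (Fin n) (Fin n) R := Matrix.of fun i j =>
    if j = i then 0 else ∏ k ∈ (Finset.univ.erase i).erase j, (x i - x k)
  let V : Fin n → R := fun i => ∏ k ∈ Finset.univ.erase i, (x i - x k)
  have hV : ∀ i, V i ≠ 0 := by
    intro i
    rw [Finset.prod_ne_zero_iff]
    intro k hk h
    exact Finset.ne_of_mem_erase hk (hx (sub_eq_zero.1 h)).symm
  have hMV : ∀ i j, M i j * (x i - x j) = if j = i then 0 else V i := by
    intro i j
    simp only [M, Matrix.of_apply]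
    split_ifs with h
    · rw [zero_mul]
    · simp only [V]
      rw [← Finset.mul_prod_erase (Finset.univ.erase i) _
        (Finset.mem_erase.2 ⟨h, Finset.mem_univ j⟩), mul_comm]
  set S : Matrix (Fin n) (Fin n) R := M * Matrix.diagonal V with hS
  have hSt : Sᵀ = -S := by
    ext i j
    rw [Matrix.transpose_apply, Matrix.neg_apply, hS, Matrix.mul_diagonal, Matrix.mul_diagonal]
    by_cases h : i = j
    · subst h
      simp [M]
    · have h1 : x i - x j ≠ 0 := fun h2 => h (hx (sub_eq_zero.1 h2))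
      apply mul_right_cancel₀ h1
      have e1 := hMV i j
      have e2 := hMV j i
      rw [if_neg (Ne.symm h)] at e1
      rw [if_neg h] at e2
      linear_combination (-V i) * e2 + V j * e1
  have hdet : S.det = 0 := by
    have h1 : S.det = -S.det := by
      conv_lhs => rw [← Matrix.det_transpose, hSt, Matrix.det_neg, Fintype.card_fin,
        hn.neg_one_pow]
      ring
    have h2 : (2 : R) * S.det = 0 := by linear_combination h1
    exact (mul_eq_zero.1 h2).resolve_left two_ne_zero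
  have hdetM : M.det = 0 := by
    rw [hS, Matrix.det_mul, Matrix.det_diagonal] at hdet
    exact (mul_eq_zero.1 hdet).resolve_right (Finset.prod_ne_zero_iff.2 fun i _ => hV i)
  obtain ⟨v, hv0, hv⟩ := Matrix.exists_mulVec_eq_zero_iff.2 hdetM
  refine ⟨v, hv0, fun i => ?_⟩
  have h1 := congrFun hv i
  rw [Pi.zero_apply] at h1
  rw [← h1]
  simp only [Matrix.mulVec, dotProduct]
  rw [← Finset.add_sum_erase _ _ (Finset.mem_univ i)]
  have h2 : M i i = 0 := by simp [M]
  rw [h2, zero_mul, zero_add]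
  refine Finset.sum_congr rfl fun j hj => ?_
  have h3 : M i j = ∏ k ∈ (Finset.univ.erase i).erase j, (x i - x k) := by
    simp only [M, Matrix.of_apply]
    rw [if_neg (Finset.ne_of_mem_erase hj)]
  rw [h3, mul_comm]

lemma ker_add {R : Type} [CommRing R] {n : ℕ} {x r r' : Fin n → R} (h : Ker x r)
    (h' : Ker x r') : Ker x (r + r') := by
  intro i
  have := h i
  have := h' i
  simp only [Pi.add_apply, add_mul, Finset.sum_add_distrib]
  rw [h i, h' i, add_zero]

lemma ker_smul {R : Type} [CommRing R] {n : ℕ} {x r : Fin n → R} (a : R) (h : Ker x r) :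
    Ker x (a • r) := by
  intro i
  have h1 := h i
  simp only [Pi.smul_apply, smul_eq_mul, mul_assoc]
  rw [← Finset.mul_sum, h1, mul_zero]

lemma ker_of_smul {R : Type} [CommRing R] [IsDomain R] {n : ℕ} {x r : Fin n → R} {a : R}
    (ha : a ≠ 0) (h : Ker x (a • r)) : Ker x r := by
  intro i
  have h1 := h i
  simp only [Pi.smul_apply, smul_eq_mul, mul_assoc] at h1
  rw [← Finset.mul_sum] at h1
  exact (mul_eq_zero.1 h1).resolve_left ha

lemma ker_sum {R : Type} [CommRing R] {n : ℕ} {x : Fin n → R} {ι : Type} (s : Finset ι)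
    (r : ι → Fin n → R) (h : ∀ i ∈ s, Ker x (r i)) : Ker x (∑ i ∈ s, r i) := by
  classical
  induction s using Finset.induction_on with
  | empty => intro i; simp
  | insert a s ha ih =>
    rw [Finset.sum_insert ha]
    exact ker_add (h a (Finset.mem_insert_self _ _))
      (ih fun i hi => h i (Finset.mem_insert_of_mem hi))

/- transport of the kernel by a ring homomorphism and a permutation -/
lemma ker_equiv {R : Type} [CommRing R] {n : ℕ} {x r : Fin n → R} (φ : R →+* R)
    (σ : Equiv.Perm (Fin n)) (hx : ∀ i, φ (x i) = x (σ i)) (h : Ker x r) :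
    Ker x (fun i => φ (r (σ.symm i))) := by
  classical
  intro i
  have h1 := congrArg φ (h (σ.symm i))
  rw [map_zero, map_sum] at h1
  rw [← h1]
  refine Finset.sum_bij' (fun j _ => σ.symm j) (fun j _ => σ j) ?_ ?_ ?_ ?_ ?_
  · intro j hj
    rw [Finset.mem_erase] at hj ⊢
    exact ⟨fun h2 => hj.1 (σ.symm.injective h2), Finset.mem_univ _⟩
  · intro j hj
    rw [Finset.mem_erase] at hj ⊢
    refine ⟨fun h2 => hj.1 ?_, Finset.mem_univ _⟩
    rw [← h2, Equiv.symm_apply_apply]
  · intro j _; exact σ.apply_symm_apply j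
  · intro j _; exact σ.symm_apply_apply j
  · intro j hj
    rw [map_mul, map_prod]
    congr 1
    refine Finset.prod_bij' (fun k _ => σ.symm k) (fun k _ => σ k) ?_ ?_ ?_ ?_ ?_
    · intro k hk
      rw [Finset.mem_erase, Finset.mem_erase] at hk ⊢
      exact ⟨fun h2 => hk.1 (σ.symm.injective h2), fun h2 => hk.2.1 (σ.symm.injective h2),
        Finset.mem_univ _⟩
    · intro k hk
      rw [Finset.mem_erase, Finset.mem_erase] at hk ⊢
      refine ⟨fun h2 => hk.1 ?_, fun h2 => hk.2.1 ?_, Finset.mem_univ _⟩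
      · rw [← h2, Equiv.symm_apply_apply]
      · rw [← h2, Equiv.symm_apply_apply]
    · intro k _; exact σ.apply_symm_apply k
    · intro k _; exact σ.symm_apply_apply k
    · intro k _
      rw [map_sub, hx, hx, Equiv.apply_symm_apply, Equiv.apply_symm_apply]

/-! ### equivariant vectors -/

section gal
variable {K L : Type} [Field K] [CharZero K] [Field L] [CharZero L] [Algebra K L]
    [FiniteDimensional K L] [IsGalois K L] {n : ℕ} (ψ : (L ≃ₐ[K] L) →* Equiv.Perm (Fin n))

/- equivariance -/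
def Eqv (x : Fin n → L[X]) : Prop :=
  ∀ (ρ : L ≃ₐ[K] L) (i : Fin n), (x i).map (ρ : L →+* L) = x (ψ ρ i)

lemma fam_trace {x v : Fin n → L[X]} (hx : Eqv ψ x) (hv0 : v ≠ 0) (hv : Ker x v) :
    ∃ w : Fin n → L[X], w ≠ 0 ∧ Eqv ψ w ∧ Ker x w := by
  classical
  let w : L → Fin n → L[X] := fun a => ∑ ρ : L ≃ₐ[K] L,
    C (ρ a) • (fun i => (v ((ψ ρ).symm i)).map (ρ : L →+* L))
  have hwi : ∀ a i, w a i = ∑ ρ : L ≃ₐ[K] L, C (ρ a) * (v ((ψ ρ).symm i)).map (ρ : L →+* L) := by
    intro a i
    simp [w, Finset.sum_apply]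
  have hker : ∀ a, Ker x (w a) := by
    intro a
    apply ker_sum
    intro ρ _
    apply ker_smul
    exact ker_equiv (mapRingHom (ρ : L →+* L)) (ψ ρ) (fun i => hx ρ i) hv
  have heqv : ∀ a, Eqv ψ (w a) := by
    intro a σ i
    rw [hwi, hwi, Polynomial.map_sum]
    refine Fintype.sum_equiv (Equiv.mulLeft σ) _ _ fun ρ => ?_
    rw [Polynomial.map_mul, Polynomial.map_C, Polynomial.map_map, Equiv.coe_mulLeft]
    congr 1
    have h1 : (ψ (σ * ρ)).symm (ψ σ i) = (ψ ρ).symm i := by
      rw [map_mul, Equiv.symm_apply_eq, Equiv.Perm.mul_apply, Equiv.apply_symm_apply]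
    rw [h1]
    rfl
  by_contra hcon
  push Not at hcon
  have hw0 : ∀ a, w a = 0 := by
    intro a
    by_contra h
    exact hcon (w a) h (heqv a) (hker a)
  apply hv0
  funext i0
  ext k
  rw [Pi.zero_apply, coeff_zero]
  have hli : LinearIndependent L (fun ρ : L ≃ₐ[K] L => (ρ : L → L)) := by
    have h1 := linearIndependent_monoidHom L L
    have h2 : Function.Injective (fun ρ : L ≃ₐ[K] L => ((ρ : L →ₐ[K] L) : L →* L)) := by
      intro ρ ρ' h
      ext y
      exact DFunLike.congr_fun h y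
    exact h1.comp _ h2
  rw [Fintype.linearIndependent_iff] at hli
  have h3 := hli (fun ρ => ρ ((v ((ψ ρ).symm i0)).coeff k)) (by
    funext a
    have h4 := congrArg (fun p => coeff p k) (congrFun (hw0 a) i0)
    simp only [hwi, finsetSum_coeff, coeff_C_mul, coeff_map, Pi.zero_apply, coeff_zero] at h4
    rw [Finset.sum_apply, Pi.zero_apply, ← h4]
    refine Finset.sum_congr rfl fun ρ _ => ?_
    rw [Pi.smul_apply, smul_eq_mul, mul_comm]
    rfl) 1
  have h5 : (ψ (1 : L ≃ₐ[K] L)).symm i0 = i0 := by rw [map_one]; rfl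
  rw [h5] at h3
  exact h3

lemma fam_min {x : Fin n → L[X]} (N : ℕ) : ∀ r : Fin n → L[X], r ≠ 0 → Eqv ψ r → Ker x r →
    ∑ i, (r i).natDegree = N → ∃ r' : Fin n → L[X], r' ≠ 0 ∧ Eqv ψ r' ∧ Ker x r' ∧
      ∀ c : L, (∀ ρ σ : L ≃ₐ[K] L, ρ c = σ c → ρ = σ) → ∃ i, (r' i).eval c ≠ 0 := by
  classical
  induction N using Nat.strong_induction_on with
  | _ N ih =>
    intro r hr0 hr hker hN
    by_cases hall : ∀ c : L, (∀ ρ σ : L ≃ₐ[K] L, ρ c = σ c → ρ = σ) → ∃ i, (r i).eval c ≠ 0
    · exact ⟨r, hr0, hr, hker, hall⟩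
    push Not at hall
    obtain ⟨c, hc, hc0⟩ := hall
    set P : L[X] := ∏ ρ : L ≃ₐ[K] L, (X - C (ρ c)) with hP
    have hPm : P.Monic := monic_prod_X_sub_C _ _
    have hP0 : P ≠ 0 := hPm.ne_zero
    have hPdeg : 0 < P.natDegree := by
      rw [hP, natDegree_prod_of_monic _ _ (fun ρ _ => monic_X_sub_C (ρ c))]
      simp only [natDegree_X_sub_C, Finset.sum_const, smul_eq_mul, mul_one]
      exact Finset.card_pos.2 ⟨1, Finset.mem_univ _⟩
    have hPmap : ∀ σ : L ≃ₐ[K] L, P.map (σ : L →+* L) = P := by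
      intro σ
      rw [hP, Polynomial.map_prod]
      refine Fintype.prod_equiv (Equiv.mulLeft σ) _ _ fun ρ => ?_
      rw [Polynomial.map_sub, Polynomial.map_X, Polynomial.map_C]
      rfl
    have hdvd : ∀ i, P ∣ r i := by
      intro i
      apply Finset.prod_dvd_of_coprime
      · have h1 : Function.Injective (fun ρ : L ≃ₐ[K] L => ρ c) := fun ρ σ h => hc ρ σ h
        exact (pairwise_coprime_X_sub_C h1).set_pairwise _
      · intro ρ _
        rw [dvd_iff_isRoot, IsRoot.def]
        have h1 := hr ρ ((ψ ρ).symm i)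
        rw [Equiv.apply_symm_apply] at h1
        rw [← h1]
        have h2 : (ρ c : L) = (ρ : L →+* L) c := rfl
        rw [h2, eval_map, eval₂_at_apply, hc0, map_zero]
    choose r' hr' using hdvd
    have hrr : r = P • r' := by
      funext i
      rw [Pi.smul_apply, smul_eq_mul]
      exact hr' i
    have hr'0 : r' ≠ 0 := by
      rintro rfl
      apply hr0
      rw [hrr, smul_zero]
    have hr'e : Eqv ψ r' := by
      intro σ i
      have h1 := hr σ i
      rw [hr' i, hr' (ψ σ i), Polynomial.map_mul, hPmap] at h1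
      exact mul_left_cancel₀ hP0 h1
    have hr'k : Ker x r' := ker_of_smul hP0 (hrr ▸ hker)
    refine ih (∑ i, (r' i).natDegree) ?_ r' hr'0 hr'e hr'k rfl
    rw [← hN]
    obtain ⟨i0, hi0⟩ : ∃ i, r i ≠ 0 := by
      by_contra h
      push Not at h
      exact hr0 (funext h)
    have hle : ∀ i, (r' i).natDegree ≤ (r i).natDegree := by
      intro i
      by_cases h : r' i = 0
      · rw [h, natDegree_zero]; exact Nat.zero_le _
      · rw [hr' i, natDegree_mul hP0 h]; omega
    apply Finset.sum_lt_sum (fun i _ => hle i)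
    refine ⟨i0, Finset.mem_univ _, ?_⟩
    have h : r' i0 ≠ 0 := by
      intro h
      apply hi0
      rw [hr' i0, h, mul_zero]
    rw [hr' i0, natDegree_mul hP0 h]
    omega

lemma fam_x (c : Bool → L) (hc : Function.Injective (fun p : Bool × (L ≃ₐ[K] L) => p.2 (c p.1)))
    (s : Bool → Fin n → ℚ) : ∃ x : Fin n → L[X], Eqv ψ x ∧ ∀ a i, (x i).eval (c a) = (s a i : L) := by
  classical
  let node : Bool × (L ≃ₐ[K] L) → L := fun p => p.2 (c p.1)
  let val : Fin n → Bool × (L ≃ₐ[K] L) → L := fun i p => ((s p.1 ((ψ p.2).symm i) : ℚ) : L)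
  have hinj : Set.InjOn node ((Finset.univ : Finset (Bool × (L ≃ₐ[K] L))) : Set _) :=
    hc.injOn
  let x : Fin n → L[X] := fun i => Lagrange.interpolate Finset.univ node (val i)
  have hxe : ∀ i p, (x i).eval (node p) = val i p := fun i p =>
    Lagrange.eval_interpolate_at_node _ hinj (Finset.mem_univ p)
  refine ⟨x, ?_, ?_⟩
  · intro σ i
    apply Lagrange.eq_interpolate_of_eval_eq _ hinj
    · refine lt_of_le_of_lt degree_map_le ?_
      exact Lagrange.degree_interpolate_lt _ hinj
    · rintro ⟨a, ρ⟩ _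
      have h1 : node (a, ρ) = (σ : L →+* L) (node (a, σ⁻¹ * ρ)) := by
        change ρ (c a) = σ ((σ⁻¹ * ρ) (c a))
        rw [← AlgEquiv.mul_apply, ← mul_assoc, mul_inv_cancel, one_mul]
      rw [h1, eval_map, eval₂_at_apply, hxe]
      simp only [val, map_ratCast]
      congr 2
      rw [map_mul, map_inv, Equiv.symm_apply_eq, Equiv.Perm.mul_apply, Equiv.apply_symm_apply]
      exact ((ψ σ).symm_apply_apply i).symm
  · intro a i
    have h1 := hxe i (a, 1)
    have h2 : node (a, 1) = c a := rfl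
    rw [h2] at h1
    rw [h1]
    simp only [val, map_one]
    rfl

end gal

theorem fam_stm : FamStm := by
  intro K L _ _ _ _ _ _ _ n hn hn5 ψ
  classical
  obtain ⟨m₁, s₁, hm1, hs1, hc1, h13⟩ := fam_m1 n hn5
  obtain ⟨m₂, s₂, hm2, hs2, hc2, h23⟩ := fam_m2 n hn hn5
  have h12 : ∀ i, m₁ i ≠ i → m₂ i = i := fun i hi => h23 i (h13 i hi)
  obtain ⟨α, hα⟩ := Field.exists_primitive_element K L
  have hαinj : ∀ ρ σ : L ≃ₐ[K] L, ρ α = σ α → ρ = σ := by
    intro ρ σ h
    have h1 := (Field.primitive_element_iff_algHom_eq_of_eval K L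
      (fun x => Normal.splits inferInstance x) α (AlgHom.id K L)).1 hα
      ((σ⁻¹ * ρ : L ≃ₐ[K] L) : L →ₐ[K] L) (by
        change α = (σ⁻¹ * ρ) α
        rw [AlgEquiv.mul_apply, h]
        exact (σ.symm_apply_apply α).symm)
    have h2 : σ⁻¹ * ρ = 1 := by
      ext y
      exact (DFunLike.congr_fun h1 y).symm
    exact (inv_mul_eq_one.1 h2).symm
  obtain ⟨_, ⟨q, rfl⟩, hq⟩ := (Set.infinite_range_of_injective
    (Nat.cast_injective (R := L))).exists_notMem_finset
      (Finset.univ.image fun τ : L ≃ₐ[K] L => τ α - α)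
  have hq' : ∀ τ : L ≃ₐ[K] L, τ α ≠ α + q := by
    intro τ h
    apply hq
    rw [Finset.mem_image]
    exact ⟨τ, Finset.mem_univ _, by rw [h]; ring⟩
  let c : Bool → L := fun b => if b then α + q else α
  have hcc : ∀ b, ∀ ρ σ : L ≃ₐ[K] L, ρ (c b) = σ (c b) → ρ = σ := by
    intro b ρ σ h
    cases b with
    | false => exact hαinj ρ σ h
    | true =>
      apply hαinj
      have h1 : ρ (α + q) = σ (α + q) := h
      rw [map_add, map_add, map_natCast, map_natCast] at h1
      exact add_right_cancel h1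
  have hinj : Function.Injective (fun p : Bool × (L ≃ₐ[K] L) => p.2 (c p.1)) := by
    rintro ⟨a, ρ⟩ ⟨b, σ⟩ h
    simp only at h
    have hcross : ∀ ρ σ : L ≃ₐ[K] L, ρ α ≠ σ (α + q) := by
      intro ρ σ h1
      apply hq' (σ⁻¹ * ρ)
      rw [AlgEquiv.mul_apply, h1]
      exact σ.symm_apply_apply _
    have hab : a = b := by
      cases a <;> cases b
      · rfl
      · exact absurd h (hcross ρ σ)
      · exact absurd h.symm (hcross σ ρ)
      · rfl
    subst hab
    rw [hcc a ρ σ h]
  obtain ⟨x, hx, hxs⟩ := fam_x ψ c hinj (fun b => if b then s₂ else s₁)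
  have hx1 : ∀ i, (x i).eval α = (s₁ i : L) := fun i => hxs false i
  have hx2 : ∀ i, (x i).eval (α + q) = (s₂ i : L) := fun i => hxs true i
  have hxinj : Function.Injective x := by
    intro i j hij
    have e1 : s₁ i = s₁ j := by
      have : ((s₁ i : ℚ) : L) = s₁ j := by rw [← hx1, ← hx1, hij]
      exact_mod_cast this
    have e2 : s₂ i = s₂ j := by
      have : ((s₂ i : ℚ) : L) = s₂ j := by rw [← hx2, ← hx2, hij]
      exact_mod_cast this
    rcases (hs1 i j).1 e1 with h | h
    · exact h.symm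
    · rcases (hs2 i j).1 e2 with h' | h'
      · exact h'.symm
      · by_cases hm : m₁ i = i
        · rw [hm] at h; exact h.symm
        · rw [h12 i hm] at h'; exact h'.symm
  obtain ⟨v, hv0, hv⟩ := fam_ker hn x hxinj
  obtain ⟨w, hw0, hwe, hwk⟩ := fam_trace ψ hx hv0 hv
  obtain ⟨r, -, hre, hrk, hrc⟩ := fam_min ψ _ w hw0 hwe hwk rfl
  exact ⟨x, r, m₁, m₂, α, α + q, hx, hre, hrk, ⟨hm1, ⟨s₁, hx1, hs1⟩, hrc α (hcc false)⟩,
    ⟨hm2, ⟨s₂, hx2, hs2⟩, hrc (α + q) (hcc true)⟩, hc1, hc2, h12⟩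

end Pool.Agent.T2H67.SA
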