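import Mathlib
import Pool.Agent.H84.L.A7_T2H67_SA_Act
import Pool.Agent.H84.L.A7_T2H67_SA_Cl
import Pool.Agent.H84.L.A7_T2H67_SA_Cl2
import Pool.Agent.H84.L.A7_T2H67_SA_FinA
import Pool.Agent.H84.L.A7_T2H67_SA_FinStm
import Pool.Agent.H84.L.S8_H391R2_T4_Nod
import Pool.Agent.H84.L.S8_H391R2_T4_Sem
import Pool.Agent.H84.L.S8_H391R2_WrGrp
import Pool.Agent.H84.L.S8_TH15_IGP_TwB
import Pool.Agent.H84.L.S8_TH444_TW_Pow
import Pool.Agent.H84.L.S8_TH444_TW_RS
import Pool.Agent.H84.L.S8_TH444_TW_RSK
import Pool.Agent.H84.L.S8_W200_IG_Fam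
import Pool.Agent.H84.L.S8_W200_IG_HF
import Pool.Agent.H84.L.S8_W200_IJ_SA

namespace Pool.Agent.H391R2
end Pool.Agent.H391R2
namespace Pool.Agent.H391R2.T4
end Pool.Agent.H391R2.T4
namespace Pool.Agent.TH444.TW
end Pool.Agent.TH444.TW


/-!
# Automorphisms of products of alternating groups
-/

set_option autoImplicit false
set_option linter.unusedSectionVars false

namespace Pool.Agent.T2H67.SA

open Equiv Pool.Agent.H391R2 Pool.Agent.H391R2.T4 Pool.Agent.TH444.TW
open scoped commutatorElement

section piAct

variable {ι : Type} {A B : ι → Type} [∀ j, Group (A j)] [∀ j, Group (B j)]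

/- The action of a product of wreath products on a product of powers. -/
def piAct (θ : ∀ j, B j →* MulAut (A j)) (k : ι → ℕ) :
    ((j : ι) → Wr (B j) (k j)) →* MulAut ((j : ι) → Fin (k j) → A j) where
  toFun w := MulEquiv.piCongrRight fun j => powAct (θ j) (k j) (w j)
  map_one' := by
    apply MulEquiv.ext
    intro x
    funext j
    change powAct (θ j) (k j) 1 (x j) = x j
    rw [map_one]
    rfl
  map_mul' w w' := by
    apply MulEquiv.ext
    intro x
    funext j
    change powAct (θ j) (k j) (w j * w' j) (x j) = _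
    rw [map_mul]
    rfl

theorem piAct_apply (θ : ∀ j, B j →* MulAut (A j)) (k : ι → ℕ) (w : (j : ι) → Wr (B j) (k j))
    (x : (j : ι) → Fin (k j) → A j) (j : ι) (i : Fin (k j)) :
    piAct θ k w x j i = θ j ((w j).left i) (x j ((w j).right⁻¹ i)) := rfl

variable [DecidableEq ι]

/- the embedding of a factor -/
def inj (A : ι → Type) [∀ j, Group (A j)] (k : ι → ℕ) (j : ι) (i : Fin (k j)) :
    A j →* ((j : ι) → Fin (k j) → A j) :=
  (MonoidHom.mulSingle (fun j => Fin (k j) → A j) j).comp
    (MonoidHom.mulSingle (fun _ : Fin (k j) => A j) i)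

theorem inj_apply_self {k : ι → ℕ} (j : ι) (i : Fin (k j)) (a : A j) :
    inj A k j i a j i = a := by
  change (Pi.mulSingle j (Pi.mulSingle i a : Fin (k j) → A j) : (j : ι) → Fin (k j) → A j) j i = a
  rw [Pi.mulSingle_eq_same, Pi.mulSingle_eq_same]

theorem inj_apply_ne {k : ι → ℕ} (j : ι) (i : Fin (k j)) (a : A j) (j' : ι) (i' : Fin (k j'))
    (h : ∀ e : j' = j, e ▸ i' ≠ i) : inj A k j i a j' i' = 1 := by
  change (Pi.mulSingle j (Pi.mulSingle i a : Fin (k j) → A j) : (j : ι) → Fin (k j) → A j) j' i' = 1
  by_cases hj : j' = j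
  · subst hj
    rw [Pi.mulSingle_eq_same, Pi.mulSingle_eq_of_ne (h rfl)]
  · rw [Pi.mulSingle_eq_of_ne hj]
    rfl

/- two homomorphisms on a product of powers agree if they agree on the factors -/
theorem hom_ext {k : ι → ℕ} [Finite ι] {X : Type} [Group X]
    {f g : ((j : ι) → Fin (k j) → A j) →* X}
    (h : ∀ j i a, f (inj A k j i a) = g (inj A k j i a)) : f = g := by
  apply MonoidHom.pi_ext
  intro j x
  have h1 : f.comp (MonoidHom.mulSingle (fun j => Fin (k j) → A j) j) =
      g.comp (MonoidHom.mulSingle (fun j => Fin (k j) → A j) j) := by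
    apply MonoidHom.pi_ext
    intro i a
    exact h j i a
  exact DFunLike.congr_fun h1 x

theorem piAct_inj {k : ι → ℕ} (θ : ∀ j, B j →* MulAut (A j)) (w : (j : ι) → Wr (B j) (k j))
    (j : ι) (i : Fin (k j)) (a : A j) :
    piAct θ k w (inj A k j i a) = inj A k j ((w j).right i) (θ j ((w j).left ((w j).right i)) a) := by
  funext j' i'
  rw [piAct_apply]
  by_cases hj : j' = j
  · subst hj
    by_cases hi : i' = (w j').right i
    · subst hi
      rw [perm_inv_self, inj_apply_self, inj_apply_self]
    · rw [inj_apply_ne, inj_apply_ne, map_one]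
      · intro e; exact hi
      · intro e h
        apply hi
        rw [← h]
        exact (perm_self_inv _ _).symm
  · rw [inj_apply_ne, inj_apply_ne, map_one]
    · intro e; exact absurd e hj
    · intro e; exact absurd e hj

/- commutators with elements of a factor -/
theorem comm_inj {k : ι → ℕ} (x : (j : ι) → Fin (k j) → A j) (j : ι) (i : Fin (k j)) (a : A j) :
    ⁅x, inj A k j i a⁆ = inj A k j i ⁅x j i, a⁆ := by
  funext j' i'
  change ⁅x j' i', inj A k j i a j' i'⁆ = _
  by_cases hj : j' = j
  · subst hj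
    by_cases hi : i' = i
    · subst hi
      rw [inj_apply_self, inj_apply_self]
    · rw [inj_apply_ne, inj_apply_ne, commutatorElement_one_right]
      · intro e; exact hi
      · intro e; exact hi
  · rw [inj_apply_ne, inj_apply_ne, commutatorElement_one_right]
    · intro e; exact absurd e hj
    · intro e; exact absurd e hj

end piAct

section alt

variable {ι : Type} [Finite ι] [DecidableEq ι] (dd : ι → ℕ) (k : ι → ℕ)

/- products of alternating groups -/
abbrev PA (dd k : ι → ℕ) : Type := (j : ι) → Fin (k j) → alternatingGroup (Fin (dd j))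

/- conjugation on the alternating group -/
noncomputable def cj (n : ℕ) : Perm (Fin n) →* MulAut (alternatingGroup (Fin n)) :=
  MulAut.conjNormal

theorem cj_coe (n : ℕ) (σ : Perm (Fin n)) (a : alternatingGroup (Fin n)) :
    ((cj n σ a : alternatingGroup (Fin n)) : Perm (Fin n)) = σ * a * σ⁻¹ := rfl

variable {dd k}

theorem pa_normal (h5 : ∀ j, 5 ≤ dd j) (M : Subgroup (PA dd k)) [hM : M.Normal] (x : PA dd k)
    (hx : x ∈ M) (j : ι) (i : Fin (k j)) (hji : x j i ≠ 1) (a : alternatingGroup (Fin (dd j))) :
    inj (fun j => alternatingGroup (Fin (dd j))) k j i a ∈ M := by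
  have hs := alt_simple (h5 j)
  obtain ⟨b, hb⟩ : ∃ b : alternatingGroup (Fin (dd j)), x j i * b ≠ b * x j i := by
    by_contra hcon
    push Not at hcon
    exact hji (alt_comm (h5 j) hcon)
  have h1 : ⁅x j i, b⁆ ≠ 1 := by
    rw [Ne, commutatorElement_eq_one_iff_mul_comm]
    exact hb
  have h2 : inj (fun j => alternatingGroup (Fin (dd j))) k j i ⁅x j i, b⁆ ∈ M := by
    rw [← comm_inj, commutatorElement_def, mul_assoc, mul_assoc, ← mul_assoc _ x⁻¹]
    exact M.mul_mem hx (hM.conj_mem _ (M.inv_mem hx) _)
  have h3 : (M.comap (inj (fun j => alternatingGroup (Fin (dd j))) k j i)).Normal :=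
    hM.comap _
  rcases h3.eq_bot_or_eq_top with h4 | h4
  · exfalso
    have h5 : ⁅x j i, b⁆ ∈ M.comap (inj (fun j => alternatingGroup (Fin (dd j))) k j i) := h2
    rw [h4] at h5
    exact h1 h5
  · have h5 : a ∈ M.comap (inj (fun j => alternatingGroup (Fin (dd j))) k j i) := by
      rw [h4]; trivial
    exact h5

/- the product of alternating groups has trivial centre -/
theorem pa_center (h5 : ∀ j, 5 ≤ dd j) (x : PA dd k) (hx : ∀ y, x * y = y * x) : x = 1 := by
  funext j i
  apply alt_comm (h5 j)
  intro b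
  have h1 := congrFun (congrFun (hx (inj (fun j => alternatingGroup (Fin (dd j))) k j i b)) j) i
  change x j i * inj (fun j => alternatingGroup (Fin (dd j))) k j i b j i =
    inj (fun j => alternatingGroup (Fin (dd j))) k j i b j i * x j i at h1
  rwa [inj_apply_self] at h1

theorem inj_injective {A : ι → Type} [∀ j, Group (A j)] {k : ι → ℕ} (j : ι) (i : Fin (k j)) :
    Function.Injective (inj A k j i) := by
  intro a b h
  rw [← inj_apply_self (k := k) j i a, h, inj_apply_self]

/- the range of a factor is normal -/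
theorem range_normal {A : ι → Type} [∀ j, Group (A j)] {k : ι → ℕ} (j : ι) (i : Fin (k j)) :
    (inj A k j i).range.Normal := by
  constructor
  rintro _ ⟨a, rfl⟩ x
  refine ⟨x j i * a * (x j i)⁻¹, ?_⟩
  funext j' i'
  change _ = x j' i' * inj A k j i a j' i' * (x j' i')⁻¹
  by_cases hj : j' = j
  · subst hj
    by_cases hi : i' = i
    · subst hi
      rw [inj_apply_self, inj_apply_self]
    · rw [inj_apply_ne, inj_apply_ne, mul_one, mul_inv_cancel]
      · intro e; exact hi
      · intro e; exact hi
  · rw [inj_apply_ne, inj_apply_ne, mul_one, mul_inv_cancel]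
    · intro e; exact absurd e hj
    · intro e; exact absurd e hj

/- an automorphism maps factors into factors -/
theorem aut_factor (h5 : ∀ j, 5 ≤ dd j) (α : MulAut (PA dd k)) (j : ι) (i : Fin (k j)) :
    ∃ (j' : ι) (i' : Fin (k j')), ∀ a, ∃ b,
      α (inj (fun j => alternatingGroup (Fin (dd j))) k j i a) =
        inj (fun j => alternatingGroup (Fin (dd j))) k j' i' b := by
  have hs := alt_simple (h5 j)
  obtain ⟨a0, ha0⟩ := exists_ne (1 : alternatingGroup (Fin (dd j)))
  set x := α (inj (fun j => alternatingGroup (Fin (dd j))) k j i a0) with hx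
  have hx1 : x ≠ 1 := by
    intro h
    rw [hx] at h
    exact ha0 (inj_injective j i ((α.injective (h.trans (map_one α).symm)).trans
      (map_one _).symm))
  obtain ⟨j', i', hji⟩ : ∃ (j' : ι) (i' : Fin (k j')), x j' i' ≠ 1 := by
    by_contra hcon
    push Not at hcon
    exact hx1 (funext fun j' => funext fun i' => hcon j' i')
  have hn1 := range_normal (A := fun j => alternatingGroup (Fin (dd j))) (k := k) j i
  have hn2 := range_normal (A := fun j => alternatingGroup (Fin (dd j))) (k := k) j' i'
  have hM : ((inj (fun j => alternatingGroup (Fin (dd j))) k j i).range.map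
      (α : PA dd k →* PA dd k)).Normal := hn1.map _ α.surjective
  have hxM : x ∈ (inj (fun j => alternatingGroup (Fin (dd j))) k j i).range.map
      (α : PA dd k →* PA dd k) := ⟨_, ⟨a0, rfl⟩, rfl⟩
  have h1 := pa_normal h5 _ x hxM j' i' hji
  have hs' := alt_simple (h5 j')
  have hC : (((inj (fun j => alternatingGroup (Fin (dd j))) k j' i').range.comap
      (α : PA dd k →* PA dd k)).comap
      (inj (fun j => alternatingGroup (Fin (dd j))) k j i)).Normal := (hn2.comap _).comap _
  refine ⟨j', i', fun a => ?_⟩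
  have h2 : a ∈ (((inj (fun j => alternatingGroup (Fin (dd j))) k j' i').range.comap
      (α : PA dd k →* PA dd k)).comap
      (inj (fun j => alternatingGroup (Fin (dd j))) k j i)) := by
    rcases hC.eq_bot_or_eq_top with h3 | h3
    · exfalso
      obtain ⟨b0, hb0⟩ := exists_ne (1 : alternatingGroup (Fin (dd j')))
      obtain ⟨_, ⟨c, rfl⟩, hc⟩ := h1 b0
      have h4 : c ∈ (((inj (fun j => alternatingGroup (Fin (dd j))) k j' i').range.comap
          (α : PA dd k →* PA dd k)).comap
          (inj (fun j => alternatingGroup (Fin (dd j))) k j i)) := ⟨b0, hc.symm⟩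
      rw [h3, Subgroup.mem_bot] at h4
      rw [h4, map_one, map_one] at hc
      exact hb0 (inj_injective j' i' (hc.symm.trans (map_one _).symm))
    · rw [h3]; trivial
  obtain ⟨b, hb⟩ := h2
  exact ⟨b, hb.symm⟩

theorem aut_factor' (hAut : AutStm) (hinj : Function.Injective dd) (h5 : ∀ j, 5 ≤ dd j)
    (h6 : ∀ j, dd j ≠ 6) (α : MulAut (PA dd k)) (j : ι) (i : Fin (k j)) :
    ∃ (i' : Fin (k j)) (σ : Perm (Fin (dd j))), ∀ a,
      α (inj (fun j => alternatingGroup (Fin (dd j))) k j i a) =
        inj (fun j => alternatingGroup (Fin (dd j))) k j i' (cj _ σ a) := by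
  obtain ⟨j', i', h1⟩ := aut_factor h5 α j i
  obtain ⟨j'', i'', h2⟩ := aut_factor h5 α⁻¹ j' i'
  choose β hβ using h1
  choose γ hγ using h2
  have hs := alt_simple (h5 j)
  have hs' := alt_simple (h5 j')
  -- `j'' = j`, `i'' = i`
  have h3 : ∀ a, inj (fun j => alternatingGroup (Fin (dd j))) k j i a =
      inj (fun j => alternatingGroup (Fin (dd j))) k j'' i'' (γ (β a)) := by
    intro a
    rw [← hγ, ← hβ, MulAut.inv_apply_self]
  obtain ⟨a0, ha0⟩ := exists_ne (1 : alternatingGroup (Fin (dd j)))
  have hjj : j = j'' := by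
    by_contra hne
    have h4 := congrFun (congrFun (h3 a0) j) i
    rw [inj_apply_self, inj_apply_ne] at h4
    · exact ha0 h4
    · intro e; exact absurd e hne
  subst hjj
  have hii : i = i'' := by
    by_contra hne
    have h4 := congrFun (congrFun (h3 a0) j) i
    rw [inj_apply_self, inj_apply_ne] at h4
    · exact ha0 h4
    · intro e; exact hne
  subst hii
  have hγβ : ∀ a, γ (β a) = a := fun a => (inj_injective j i (h3 a)).symm
  have hβγ : ∀ b, β (γ b) = b := by
    intro b
    apply inj_injective (A := fun j => alternatingGroup (Fin (dd j))) (k := k) j' i'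
    rw [← hβ, ← hγ, MulAut.apply_inv_self]
  have hβm : ∀ a b, β (a * b) = β a * β b := by
    intro a b
    apply inj_injective (A := fun j => alternatingGroup (Fin (dd j))) (k := k) j' i'
    rw [← hβ, map_mul, map_mul, hβ, hβ, map_mul]
  let e : alternatingGroup (Fin (dd j)) ≃* alternatingGroup (Fin (dd j')) :=
    { toFun := β
      invFun := γ
      left_inv := hγβ
      right_inv := hβγ
      map_mul' := hβm }
  have hd : dd j = dd j' := by
    have h4 : Nat.card (alternatingGroup (Fin (dd j))) =
        Nat.card (alternatingGroup (Fin (dd j'))) := Nat.card_congr e.toEquiv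
    have n1 : Nontrivial (Fin (dd j)) := Fin.nontrivial_iff_two_le.2 (by have := h5 j; omega)
    have n2 : Nontrivial (Fin (dd j')) := Fin.nontrivial_iff_two_le.2 (by have := h5 j'; omega)
    have c1 := two_mul_nat_card_alternatingGroup (α := Fin (dd j))
    have c2 := two_mul_nat_card_alternatingGroup (α := Fin (dd j'))
    rw [h4, c2, Nat.card_eq_fintype_card, Nat.card_eq_fintype_card, Fintype.card_perm,
      Fintype.card_perm, Fintype.card_fin, Fintype.card_fin] at c1
    have := h5 j
    exact (Nat.factorial_inj (by omega)).1 c1.symm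
  have hj := hinj hd
  subst hj
  obtain ⟨σ, hσ⟩ := hAut (dd j) (h5 j) (h6 j) e
  refine ⟨i', σ, fun a => ?_⟩
  rw [hβ]
  congr 1
  apply Subtype.ext
  rw [cj_coe]
  exact hσ a

theorem theta_surj (hAut : AutStm) (hinj : Function.Injective dd) (h5 : ∀ j, 5 ≤ dd j)
    (h6 : ∀ j, dd j ≠ 6) :
    Function.Surjective (piAct (fun j => cj (dd j)) k) := by
  intro α
  choose f s hfs using aut_factor' (k := k) hAut hinj h5 h6 α
  have hf : ∀ j, Function.Injective (f j) := by
    intro j i i' hii
    by_contra hne
    have hs := alt_simple (h5 j)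
    obtain ⟨a0, ha0⟩ := exists_ne (1 : alternatingGroup (Fin (dd j)))
    let b0 := (cj (dd j) (s j i'))⁻¹ (cj (dd j) (s j i) a0)
    have h1 : α (inj (fun j => alternatingGroup (Fin (dd j))) k j i a0) =
        α (inj (fun j => alternatingGroup (Fin (dd j))) k j i' b0) := by
      rw [hfs, hfs, hii]
      congr 1
      exact (MulAut.apply_inv_self _ _ _).symm
    have h2 := congrFun (congrFun (α.injective h1) j) i
    rw [inj_apply_self, inj_apply_ne] at h2
    · exact ha0 h2
    · intro e; exact hne
  let π : ∀ j, Perm (Fin (k j)) := fun j =>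
    Equiv.ofBijective (f j) (Finite.injective_iff_bijective.1 (hf j))
  have hπ : ∀ j i, π j i = f j i := fun j i => rfl
  refine ⟨fun j => ⟨fun i => s j ((π j)⁻¹ i), π j⟩, ?_⟩
  have h1 : ((piAct (fun j => cj (dd j)) k) (fun j => ⟨fun i => s j ((π j)⁻¹ i), π j⟩) :
      PA dd k →* PA dd k) = (α : PA dd k →* PA dd k) := by
    apply hom_ext
    intro j i a
    change piAct (fun j => cj (dd j)) k (fun j => ⟨fun i => s j ((π j)⁻¹ i), π j⟩)
      (inj (fun j => alternatingGroup (Fin (dd j))) k j i a) = α _
    rw [piAct_inj, hfs]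
    change inj (fun j => alternatingGroup (Fin (dd j))) k j (π j i)
      (cj (dd j) (s j ((π j)⁻¹ (π j i))) a) = _
    rw [perm_inv_self]
    rfl
  apply MulEquiv.ext
  intro x
  exact DFunLike.congr_fun h1 x

theorem theta_inj (h5 : ∀ j, 5 ≤ dd j) :
    Function.Injective (piAct (fun j => cj (dd j)) k) := by
  rw [injective_iff_map_eq_one]
  intro w hw
  have h1 : ∀ j i a, inj (fun j => alternatingGroup (Fin (dd j))) k j ((w j).right i)
      (cj (dd j) ((w j).left ((w j).right i)) a) =
      inj (fun j => alternatingGroup (Fin (dd j))) k j i a := by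
    intro j i a
    have h2 := piAct_inj (fun j => cj (dd j)) w j i a
    rw [hw] at h2
    exact h2.symm
  have hr : ∀ j i, (w j).right i = i := by
    intro j i
    by_contra hne
    have hs := alt_simple (h5 j)
    obtain ⟨a0, ha0⟩ := exists_ne (1 : alternatingGroup (Fin (dd j)))
    have h2 := congrFun (congrFun (h1 j i a0) j) i
    rw [inj_apply_self, inj_apply_ne] at h2
    · exact ha0 h2.symm
    · intro e; exact Ne.symm hne
  have hl : ∀ j i, (w j).left i = 1 := by
    intro j i
    apply perm_comm (h5 j)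
    intro b
    have h2 := h1 j i b
    rw [hr] at h2
    exact congrArg Subtype.val (inj_injective j i h2)
  funext j
  apply SemidirectProduct.ext
  · funext i
    exact hl j i
  · apply Equiv.ext
    intro i
    exact hr j i

end alt

end Pool.Agent.T2H67.SA
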