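import Mathlib
import Pool.Agent.H84.L.A7_T2H67_SA_Cl
import Pool.Agent.H84.L.A7_T2H67_SA_FinB
import Pool.Agent.H84.L.S8_H391R2_T4_Sem
import Pool.Agent.H84.L.S8_H391R2_WrGrp
import Pool.Agent.H84.L.S8_TH15_IGP_TwB
import Pool.Agent.H84.L.S8_TH444_TW_Pow
import Pool.Agent.H84.L.S8_TH444_TW_RS
import Pool.Agent.H84.L.S8_TH444_TW_RSK
import Pool.Agent.H84.L.S8_W200_IJ_SA

namespace Pool.Agent.H391R2
end Pool.Agent.H391R2
namespace Pool.Agent.H391R2.T4
end Pool.Agent.H391R2.T4
namespace Pool.Agent.TH444.TW
end Pool.Agent.TH444.TW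


/-!
# Embedding problems with kernel a product of powers
-/

set_option autoImplicit false
set_option linter.unusedSectionVars false

namespace Pool.Agent.T2H67.SA

open Equiv Pool.Agent.H391R2 Pool.Agent.H391R2.T4 Pool.Agent.TH444.TW

section

variable {k₀ : Type} [Field k₀] {ι : Type} [Fintype ι] [DecidableEq ι] {Γ : Type} [Group Γ]
  [Finite Γ] {A B : ι → Type} [∀ j, Group (A j)] [∀ j, Finite (A j)] [∀ j, Group (B j)]
  (θ : ∀ j, B j →* MulAut (A j)) (k : ι → ℕ) (ψ : Γ →* ((j : ι) → Wr (B j) (k j)))

/- the group `(∏ A_j^{k_j}) ⋊ Γ` -/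
abbrev PiSd : Type := ((j : ι) → Fin (k j) → A j) ⋊[(piAct θ k).comp ψ] Γ

theorem pi_mul_left (x y : PiSd θ k ψ) (j : ι) (i : Fin (k j)) :
    (x * y).left j i = x.left j i * θ j ((ψ x.right j).left i)
      (y.left j ((ψ x.right j).right⁻¹ i)) := rfl

/- The elements with trivial coordinates outside `S`. -/
def YS (S : Finset ι) : Subgroup (PiSd θ k ψ) where
  carrier := {x | ∀ j ∉ S, x.left j = 1}
  mul_mem' := fun {x y} hx hy j hj => by
    funext i
    rw [pi_mul_left, hx j hj, hy j hj]
    change 1 * θ j _ 1 = 1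
    rw [map_one, mul_one]
  one_mem' := fun j _ => rfl
  inv_mem' := fun {x} hx j hj => by
    funext i
    have h1 := congrArg (fun z : PiSd θ k ψ => z.left j ((ψ x.right j).right i)) (mul_inv_cancel x)
    change (x * x⁻¹).left j ((ψ x.right j).right i) = 1 at h1
    rw [pi_mul_left, perm_inv_self, hx j hj] at h1
    change 1 * θ j _ (x⁻¹.left j i) = 1 at h1
    rw [one_mul] at h1
    exact (map_eq_one_iff _ (MulEquiv.injective _)).1 h1

/- The projection to `Γ`. -/
def yt (S : Finset ι) : YS θ k ψ S →* Γ :=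
  SemidirectProduct.rightHom.comp (YS θ k ψ S).subtype

/- elements of one block -/
def blk (a : ι) (f : Fin (k a) → A a) : (j : ι) → Fin (k j) → A j := Pi.mulSingle a f

theorem blk_self (a : ι) (f : Fin (k a) → A a) : blk (A := A) k a f a = f :=
  Pi.mulSingle_eq_same (M := fun j => Fin (k j) → A j) a f

theorem blk_ne {a j : ι} (h : j ≠ a) (f : Fin (k a) → A a) : blk (A := A) k a f j = 1 :=
  Pi.mulSingle_eq_of_ne (M := fun j => Fin (k j) → A j) h f

/- the block inside the subgroup -/
def blkHom (a : ι) (S : Finset ι) : (Fin (k a) → A a) →* YS θ k ψ (insert a S) where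
  toFun f := ⟨⟨blk k a f, 1⟩, fun j hj => blk_ne k (fun h => hj (by
    rw [h]; exact Finset.mem_insert_self a S)) f⟩
  map_one' := by
    apply Subtype.ext
    apply SemidirectProduct.ext
    · exact Pi.mulSingle_one (M := fun j => Fin (k j) → A j) a
    · rfl
  map_mul' f g := by
    apply Subtype.ext
    apply SemidirectProduct.ext
    · change blk k a (f * g) = blk k a f * ((piAct θ k).comp ψ 1) (blk k a g)
      rw [map_one]
      exact Pi.mulSingle_mul (f := fun j => Fin (k j) → A j) a f g
    · exact (one_mul 1).symm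

theorem step_hom (a : ι) (S : Finset ι) (ha : a ∉ S) (y : YS θ k ψ S) :
    (blkHom θ k ψ a S).comp ((((powAct (θ a) (k a)).comp
      (((Pi.evalMonoidHom (fun j => Wr (B j) (k j)) a).comp ψ).comp (yt θ k ψ S))) y).toMonoidHom) =
    (MulAut.conj (Subgroup.inclusion (fun x hx j hj => hx j (fun h => hj
      (Finset.mem_insert_of_mem h)) : YS θ k ψ S ≤ YS θ k ψ (insert a S)) y)).toMonoidHom.comp
      (blkHom θ k ψ a S) := by
  apply MonoidHom.ext
  intro f
  apply Subtype.ext
  change (⟨blk k a (powAct (θ a) (k a) (ψ y.1.right a) f), 1⟩ : PiSd θ k ψ) =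
    y.1 * ⟨blk k a f, 1⟩ * y.1⁻¹
  rw [eq_mul_inv_iff_mul_eq]
  have hya : y.1.left a = 1 := y.2 a ha
  apply SemidirectProduct.ext
  · funext j i
    rw [pi_mul_left, pi_mul_left]
    by_cases hj : j = a
    · subst hj
      rw [hya]
      change blk k j (powAct (θ j) (k j) (ψ y.1.right j) f) j i * θ j ((ψ 1 j).left i) 1 =
        1 * θ j ((ψ y.1.right j).left i) (blk k j f j ((ψ y.1.right j).right⁻¹ i))
      rw [blk_self, blk_self, map_one, mul_one, one_mul]
      rfl
    · change blk k a (powAct (θ a) (k a) (ψ y.1.right a) f) j i * θ j ((ψ 1 j).left i)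
        (y.1.left j ((ψ 1 j).right⁻¹ i)) =
        y.1.left j i * θ j ((ψ y.1.right j).left i) (blk k a f j ((ψ y.1.right j).right⁻¹ i))
      rw [blk_ne k hj, blk_ne k hj, map_one]
      change 1 * θ j 1 (y.1.left j i) = y.1.left j i * θ j ((ψ y.1.right j).left i) 1
      rw [map_one, map_one, mul_one, one_mul]
      rfl
  · change 1 * y.1.right = y.1.right * 1
    rw [one_mul, mul_one]

theorem ys_rsk (hloc : ∀ j, LocK k₀ (θ j)) (S : Finset ι) : RSK k₀ (yt θ k ψ S) := by
  have hfin0 : Finite (PiSd θ k ψ) := Finite.of_equiv _ SemidirectProduct.equivProd.symm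
  induction S using Finset.induction_on with
  | empty =>
    let e : YS θ k ψ ∅ ≃* Γ :=
      { toFun := yt θ k ψ ∅
        invFun := fun γ => ⟨⟨1, γ⟩, fun j _ => rfl⟩
        left_inv := fun x => by
          apply Subtype.ext
          apply SemidirectProduct.ext
          · funext j
            exact (x.2 j (Finset.notMem_empty j)).symm
          · rfl
        right_inv := fun γ => rfl
        map_mul' := map_mul _ }
    exact (RS.of_equiv e).rsk
  | insert a S ha ih =>
    let ψa : YS θ k ψ S →* Wr (B a) (k a) :=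
      ((Pi.evalMonoidHom (fun j => Wr (B j) (k j)) a).comp ψ).comp (yt θ k ψ S)
    have h1 : RSK k₀ (SemidirectProduct.rightHom : PowSd (θ a) ψa →* YS θ k ψ S) :=
      pow_rsk (θ a) ψa (hloc a)
    have hfin1 : Finite (PowSd (θ a) ψa) := Finite.of_equiv _ SemidirectProduct.equivProd.symm
    have h2 := RSK.comp ih h1
    refine RSK.quot (SemidirectProduct.lift (blkHom θ k ψ a S)
      (Subgroup.inclusion (fun x hx j hj => hx j (fun h => hj
      (Finset.mem_insert_of_mem h)) : YS θ k ψ S ≤ YS θ k ψ (insert a S)))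
      (step_hom θ k ψ a S ha)) ?_ ?_ h2
    · rintro ⟨x, hx⟩
      refine ⟨⟨x.left a, ⟨⟨fun j => if j = a then 1 else x.left j, x.right⟩, ?_⟩⟩, ?_⟩
      · intro j hj
        change (if j = a then 1 else x.left j) = 1
        by_cases h : j = a
        · rw [if_pos h]
        · rw [if_neg h]
          exact hx j (by
            rw [Finset.mem_insert]
            push Not
            exact ⟨h, hj⟩)
      · apply Subtype.ext
        apply SemidirectProduct.ext
        · funext j i
          change (blk k a (x.left a) * ((piAct θ k).comp ψ 1)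
            (fun j => if j = a then 1 else x.left j)) j i = _
          rw [map_one]
          change blk k a (x.left a) j i * (if j = a then (1 : Fin (k j) → A j) else x.left j) i =
            x.left j i
          by_cases h : j = a
          · subst h
            rw [blk_self, if_pos rfl]
            exact mul_one _
          · rw [blk_ne k h, if_neg h]
            exact one_mul _
        · change 1 * x.right = x.right
          rw [one_mul]
    · intro x
      change 1 * (yt θ k ψ S x.right) = yt θ k ψ S x.right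
      rw [one_mul]

/- **Embedding problems with kernel a product of powers** have regular solutions. -/
theorem pi_rsk (hloc : ∀ j, LocK k₀ (θ j)) :
    RSK k₀ (SemidirectProduct.rightHom : PiSd θ k ψ →* Γ) := by
  refine RSK.quot (YS θ k ψ Finset.univ).subtype ?_ (fun x => rfl) (ys_rsk θ k ψ hloc Finset.univ)
  intro x
  exact ⟨⟨x, fun j hj => absurd (Finset.mem_univ j) hj⟩, rfl⟩

end

end Pool.Agent.T2H67.SA
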