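import Mathlib
import Pool.Agent.H84.L.A7_T2H67_SA_Act
import Pool.Agent.H84.L.A7_T2H67_SA_Cl
import Pool.Agent.H84.L.A7_T2H67_SA_Cl2
import Pool.Agent.H84.L.A7_T2H67_SA_FinA
import Pool.Agent.H84.L.A7_T2H67_SA_FinB
import Pool.Agent.H84.L.A7_T2H67_SA_FinC
import Pool.Agent.H84.L.A7_T2H67_SA_FinStm
import Pool.Agent.H84.L.A7_T2H67_SA_Grp
import Pool.Agent.H84.L.S8_H391R2_T4_Gp
import Pool.Agent.H84.L.S8_H391R2_T4_Nod
import Pool.Agent.H84.L.S8_H391R2_T4_Sem
import Pool.Agent.H84.L.S8_H391R2_WrGrp
import Pool.Agent.H84.L.S8_TH444_TW_RSK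
import Pool.Agent.H84.L.S8_TH444_WC_Gal
import Pool.Agent.H84.L.S8_W200_IG_HF
import Pool.Agent.H84.L.S8_W200_IJ_SA

namespace Pool.Agent.H391R2
end Pool.Agent.H391R2
namespace Pool.Agent.H391R2.T4
end Pool.Agent.H391R2.T4
namespace Pool.Agent.TH444.TW
end Pool.Agent.TH444.TW


/-!
# Package FIN: embedding problems whose kernel is a quotient of a product of double covers
-/

set_option autoImplicit false
set_option linter.unusedSectionVars false

namespace Pool.Agent.T2H67.SA

open Equiv Pool.Agent.H391R2 Pool.Agent.H391R2.T4 Pool.Agent.TH444.TW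
open scoped commutatorElement

section core

variable {ι : Type} [Fintype ι] [DecidableEq ι] (dd : ι → ℕ) (k : ι → ℕ)

/- products of powers of double covers -/
abbrev PB (dd k : ι → ℕ) : Type := (j : ι) → Fin (k j) → Alt2 (dd j)

/- the projection to the product of alternating groups -/
noncomputable def toPA : PB dd k →* PA dd k where
  toFun x j i := toAlt (dd j) (x j i)
  map_one' := by
    funext j i
    exact map_one _
  map_mul' x y := by
    funext j i
    exact map_mul _ _ _

theorem toPA_surj : Function.Surjective (toPA dd k) := by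
  intro y
  choose f hf using fun j i => toAlt_surjective (dd j) (y j i)
  exact ⟨f, funext fun j => funext fun i => hf j i⟩

theorem toPA_act (w : (j : ι) → Wr (Perm (Fin (dd j))) (k j)) (x : PB dd k) :
    toPA dd k (piAct (fun j => act (dd j)) k w x) =
      piAct (fun j => cj (dd j)) k w (toPA dd k x) := by
  funext j i
  apply Subtype.ext
  exact toPerm_act _ _

theorem toPA_central (x : PB dd k) (hx : toPA dd k x = 1) (y : PB dd k) : x * y = y * x := by
  funext j i
  have h1 : toAlt (dd j) (x j i) = 1 := congrFun (congrFun hx j) i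
  rcases toAlt_eq_one.1 h1 with h2 | h2
  · change x j i * y j i = y j i * x j i
    rw [h2, one_mul, mul_one]
  · change x j i * y j i = y j i * x j i
    rw [h2, negOne_comm]

variable {dd k}

theorem core_rsk (hAut : AutStm) (hCore : CoreStm) (hinj : Function.Injective dd)
    (hdd : ∀ j, 5 ≤ dd j ∧ dd j ≠ 6) {N G : Type} [Group N] [Group G] [Finite G]
    (ρ : G →* MulAut N) (q : PB dd k →* N) (hq : Function.Surjective q)
    (hne : ∀ j i, ∃ x, q (inj (fun j => Alt2 (dd j)) k j i x) ≠ 1) :
    RSK ℚ (SemidirectProduct.rightHom : N ⋊[ρ] G →* G) := by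
  classical
  have h5 : ∀ j, 5 ≤ dd j := fun j => (hdd j).1
  -- the kernel on a factor is central
  have hker1 : ∀ j i (x : Alt2 (dd j)), q (inj (fun j => Alt2 (dd j)) k j i x) = 1 →
      toAlt (dd j) x = 1 := by
    intro j i x hx
    by_contra hcon
    have h1 : (q.comp (inj (fun j => Alt2 (dd j)) k j i)).ker = ⊤ :=
      alt2_normal (h5 j) _ ⟨x, hx, hcon⟩
    obtain ⟨y, hy⟩ := hne j i
    apply hy
    have h2 : y ∈ (q.comp (inj (fun j => Alt2 (dd j)) k j i)).ker := by rw [h1]; trivial
    exact h2
  have hker : q.ker ≤ (toPA dd k).ker := by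
    intro x hx
    rw [MonoidHom.mem_ker] at hx ⊢
    funext j i
    apply alt_comm (h5 j)
    intro b
    obtain ⟨y, rfl⟩ := toAlt_surjective (dd j) b
    change toAlt (dd j) (x j i) * toAlt (dd j) y = toAlt (dd j) y * toAlt (dd j) (x j i)
    rw [← commutatorElement_eq_one_iff_mul_comm, ← map_commutatorElement]
    apply hker1 j i
    rw [← comm_inj, map_commutatorElement, hx, commutatorElement_one_left]
  -- the projection of `N`
  let π : N →* PA dd k := MonoidHom.liftOfSurjective q hq ⟨toPA dd k, hker⟩
  have hπ : ∀ x, π (q x) = toPA dd k x := fun x =>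
    MonoidHom.liftOfRightInverse_comp_apply q (Function.surjInv hq)
      (Function.rightInverse_surjInv hq) ⟨toPA dd k, hker⟩ x
  have hπs : Function.Surjective π := by
    intro y
    obtain ⟨x, hx⟩ := toPA_surj dd k y
    exact ⟨q x, by rw [hπ, hx]⟩
  have hπc : ∀ n : N, π n = 1 ↔ n ∈ Subgroup.center N := by
    intro n
    rw [Subgroup.mem_center_iff]
    constructor
    · intro hn g
      obtain ⟨x, rfl⟩ := hq n
      obtain ⟨y, rfl⟩ := hq g
      rw [hπ] at hn
      rw [← map_mul, ← map_mul, toPA_central dd k x hn y]
    · intro hn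
      apply pa_center h5
      intro y
      obtain ⟨m, rfl⟩ := hπs y
      rw [← map_mul, ← map_mul, hn m]
  -- the induced automorphisms
  have hex : ∀ g : G, ∃ w : (j : ι) → Wr (Perm (Fin (dd j))) (k j), ∀ n : N,
      π (ρ g n) = piAct (fun j => cj (dd j)) k w (π n) := by
    intro g
    obtain ⟨e, he⟩ := exists_equiv_of_ker π (π.comp (ρ g : N →* N)) hπs
      (hπs.comp (ρ g).surjective) (by
        ext n
        rw [MonoidHom.mem_ker, MonoidHom.mem_ker]
        change π n = 1 ↔ π (ρ g n) = 1
        rw [hπc, hπc, Subgroup.mem_center_iff, Subgroup.mem_center_iff]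
        constructor
        · intro h m
          obtain ⟨m', rfl⟩ := (ρ g).surjective m
          rw [← map_mul, ← map_mul, h m']
        · intro h m
          apply (ρ g).injective
          rw [map_mul, map_mul, h (ρ g m)])
    obtain ⟨w, hw⟩ := theta_surj (k := k) hAut hinj h5 (fun j => (hdd j).2) e
    refine ⟨w, fun n => ?_⟩
    rw [hw]
    exact (he n).symm
  choose ψ₀ hψ₀ using hex
  have hun : ∀ w w' : (j : ι) → Wr (Perm (Fin (dd j))) (k j),
      (∀ n : N, piAct (fun j => cj (dd j)) k w (π n) = piAct (fun j => cj (dd j)) k w' (π n)) →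
      w = w' := by
    intro w w' h
    apply theta_inj h5
    apply MulEquiv.ext
    intro y
    obtain ⟨n, rfl⟩ := hπs y
    exact h n
  let ψ : G →* ((j : ι) → Wr (Perm (Fin (dd j))) (k j)) :=
    { toFun := ψ₀
      map_one' := by
        apply hun
        intro n
        rw [← hψ₀, map_one, map_one]
        rfl
      map_mul' := fun g g' => by
        apply hun
        intro n
        rw [← hψ₀, map_mul, map_mul]
        change π (ρ g (ρ g' n)) = piAct (fun j => cj (dd j)) k (ψ₀ g)
          (piAct (fun j => cj (dd j)) k (ψ₀ g') (π n))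
        rw [hψ₀, hψ₀] }
  have hψ : ∀ g n, π (ρ g n) = piAct (fun j => cj (dd j)) k (ψ g) (π n) := hψ₀
  -- equivariance
  have heq : ∀ g x, q (piAct (fun j => act (dd j)) k (ψ g) x) = ρ g (q x) := by
    intro g
    have h1 : q.comp (piAct (fun j => act (dd j)) k (ψ g) : PB dd k →* PB dd k) =
        (ρ g : N →* N).comp q := by
      apply hom_ext
      intro j i a
      have h2 : ((q.comp (piAct (fun j => act (dd j)) k (ψ g) : PB dd k →* PB dd k)).comp
          (inj (fun j => Alt2 (dd j)) k j i)) =
          (((ρ g : N →* N).comp q).comp (inj (fun j => Alt2 (dd j)) k j i)) := by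
        apply perfect_hom (alt2_perfect (h5 j))
        intro a
        rw [← hπc, map_mul, map_inv, mul_inv_eq_one]
        change π (q (piAct (fun j => act (dd j)) k (ψ g)
          (inj (fun j => Alt2 (dd j)) k j i a))) =
          π (ρ g (q (inj (fun j => Alt2 (dd j)) k j i a)))
        rw [hψ, hπ, hπ, toPA_act]
      exact DFunLike.congr_fun h2 a
    intro x
    exact DFunLike.congr_fun h1 x
  -- the final problem
  have hrsk := pi_rsk (k₀ := ℚ) (fun j => act (dd j)) k ψ (fun j => hCore (dd j) (h5 j))
  refine RSK.quot (SemidirectProduct.map q (MonoidHom.id G) (fun g => by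
    apply MonoidHom.ext
    intro x
    exact heq g x)) ?_ (fun x => rfl) hrsk
  intro y
  obtain ⟨x, hx⟩ := hq y.left
  refine ⟨⟨x, y.right⟩, ?_⟩
  apply SemidirectProduct.ext
  · exact hx
  · rfl

/- The same without the assumption that the factors have nontrivial images. -/
theorem core_rsk' (hAut : AutStm) (hCore : CoreStm) (hinj : Function.Injective dd)
    (hdd : ∀ j, 5 ≤ dd j ∧ dd j ≠ 6) {N G : Type} [Group N] [Group G] [Finite G]
    (ρ : G →* MulAut N) (q : PB dd k →* N) (hq : Function.Surjective q) :
    RSK ℚ (SemidirectProduct.rightHom : N ⋊[ρ] G →* G) := by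
  classical
  let J : ∀ j, Finset (Fin (k j)) := fun j =>
    Finset.univ.filter fun i => ∃ x, q (inj (fun j => Alt2 (dd j)) k j i x) ≠ 1
  let k' : ι → ℕ := fun j => (J j).card
  let e : ∀ j, Fin (k' j) ≃ J j := fun j => (J j).equivFin.symm
  -- extension by one
  let ext : PB dd k' →* PB dd k :=
    { toFun := fun x j i => if h : i ∈ J j then x j ((e j).symm ⟨i, h⟩) else 1
      map_one' := by
        funext j i
        by_cases h : i ∈ J j
        · simp only [dif_pos h]; rfl
        · simp only [dif_neg h]; rfl
      map_mul' := fun x y => by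
        funext j i
        change (if h : i ∈ J j then (x * y) j ((e j).symm ⟨i, h⟩) else 1) =
          (if h : i ∈ J j then x j ((e j).symm ⟨i, h⟩) else 1) *
          (if h : i ∈ J j then y j ((e j).symm ⟨i, h⟩) else 1)
        by_cases h : i ∈ J j
        · simp only [dif_pos h]; rfl
        · simp only [dif_neg h, mul_one] }
  have hext : ∀ j i (a : Alt2 (dd j)), ext (inj (fun j => Alt2 (dd j)) k' j i a) =
      inj (fun j => Alt2 (dd j)) k j (e j i) a := by
    intro j i a
    funext j' i'
    change (if h : i' ∈ J j' then inj (fun j => Alt2 (dd j)) k' j i a j' ((e j').symm ⟨i', h⟩)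
      else 1) = _
    by_cases hj : j' = j
    · subst hj
      by_cases hi : i' = e j' i
      · subst hi
        rw [dif_pos (e j' i).2, inj_apply_self]
        have : (e j').symm ⟨(e j' i : Fin (k j')), (e j' i).2⟩ = i := by
          rw [Subtype.coe_eta, Equiv.symm_apply_apply]
        rw [this, inj_apply_self]
      · rw [inj_apply_ne (A := fun j => Alt2 (dd j)) j' (e j' i : Fin (k j')) a j' i' (fun e' => hi)]
        by_cases h : i' ∈ J j'
        · rw [dif_pos h, inj_apply_ne]
          intro e' h'
          apply hi
          have h2 : (e j').symm ⟨i', h⟩ = i := h'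
          rw [Equiv.symm_apply_eq] at h2
          exact congrArg Subtype.val h2
        · rw [dif_neg h]
    · rw [inj_apply_ne (A := fun j => Alt2 (dd j)) j (e j i : Fin (k j)) a j' i'
        (fun e' => absurd e' hj)]
      by_cases h : i' ∈ J j'
      · rw [dif_pos h, inj_apply_ne]
        intro e'; exact absurd e' hj
      · rw [dif_neg h]
  -- restriction
  let res : PB dd k →* PB dd k' :=
    { toFun := fun x j i => x j (e j i)
      map_one' := rfl
      map_mul' := fun x y => rfl }
  have hres : q.comp (ext.comp res) = q := by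
    apply hom_ext
    intro j i a
    change q (ext (res (inj (fun j => Alt2 (dd j)) k j i a))) =
      q (inj (fun j => Alt2 (dd j)) k j i a)
    by_cases hi : i ∈ J j
    · congr 1
      have h1 : res (inj (fun j => Alt2 (dd j)) k j i a) =
          inj (fun j => Alt2 (dd j)) k' j ((e j).symm ⟨i, hi⟩) a := by
        funext j' i'
        change inj (fun j => Alt2 (dd j)) k j i a j' (e j' i') = _
        by_cases hj : j' = j
        · subst hj
          by_cases hii : i' = (e j').symm ⟨i, hi⟩
          · subst hii
            rw [inj_apply_self, Equiv.apply_symm_apply, inj_apply_self]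
          · rw [inj_apply_ne, inj_apply_ne]
            · intro e'; exact hii
            · intro e' h'
              apply hii
              rw [Equiv.eq_symm_apply]
              exact Subtype.ext h'
        · rw [inj_apply_ne, inj_apply_ne]
          · intro e'; exact absurd e' hj
          · intro e'; exact absurd e' hj
      rw [h1, hext, Equiv.apply_symm_apply]
    · have h1 : res (inj (fun j => Alt2 (dd j)) k j i a) = 1 := by
        funext j' i'
        change inj (fun j => Alt2 (dd j)) k j i a j' (e j' i') = 1
        by_cases hj : j' = j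
        · subst hj
          apply inj_apply_ne
          intro e' h'
          apply hi
          have h2 : ((e j' i' : J j') : Fin (k j')) = i := h'
          rw [← h2]
          exact (e j' i').2
        · apply inj_apply_ne
          intro e'
          exact absurd e' hj
      rw [h1, map_one, map_one]
      by_contra hcon
      apply hi
      rw [Finset.mem_filter]
      exact ⟨Finset.mem_univ _, a, fun h => hcon h.symm⟩
  refine core_rsk hAut hCore hinj hdd ρ (q.comp ext) ?_ ?_
  · intro n
    obtain ⟨x, rfl⟩ := hq n
    exact ⟨res x, DFunLike.congr_fun hres x⟩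
  · intro j i
    obtain ⟨x, hx⟩ := (Finset.mem_filter.1 (e j i).2).2
    refine ⟨x, ?_⟩
    change q (ext (inj (fun j => Alt2 (dd j)) k' j i x)) ≠ 1
    rw [hext]
    exact hx

end core


end Pool.Agent.T2H67.SA
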