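import Mathlib
import Pool.Agent.H84.L.A7_T2H67_SA_Cl
import Pool.Agent.H84.L.A7_T2H67_SA_Cl2
import Pool.Agent.H84.L.A7_T2H67_SA_Fin
import Pool.Agent.H84.L.A7_T2H67_SA_FinStm
import Pool.Agent.H84.L.A7_T2H67_SA_Grp
import Pool.Agent.H84.L.S8_H391R2_T4_Nod
import Pool.Agent.H84.L.S8_H391R2_T4_Red
import Pool.Agent.H84.L.S8_H391R2_T4_Sem
import Pool.Agent.H84.L.S8_TH444_TW_Ab
import Pool.Agent.H84.L.S8_TH444_TW_RS
import Pool.Agent.H84.L.S8_TH444_TW_RSK
import Pool.Agent.H84.L.S8_W200_IG_HF
import Pool.Agent.H84.L.S8_W200_IJ_SA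

namespace Pool.Agent.H391R2
end Pool.Agent.H391R2
namespace Pool.Agent.H391R2.T4
end Pool.Agent.H391R2.T4
namespace Pool.Agent.TH444.TW
end Pool.Agent.TH444.TW


/-!
# Kernels which are built up from abelian groups and double covers of alternating groups
-/

set_option autoImplicit false
set_option linter.unusedSectionVars false

namespace Pool.Agent.T2H67.SA

open Equiv Pool.Agent.H391R2 Pool.Agent.H391R2.T4 Pool.Agent.TH444.TW

/- `N` is abelian, or a quotient of a finite direct product of double covers of alternating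
groups of degrees `≥ 5`, different from `6`. -/
def Blk (N : Type) [Group N] : Prop :=
  (∀ a b : N, a * b = b * a) ∨
  ∃ (ι : Type) (_ : Finite ι) (d : ι → ℕ) (q : ((i : ι) → Alt2 (d i)) →* N),
    (∀ i, 5 ≤ d i ∧ d i ≠ 6) ∧ Function.Surjective q

/- The subgroups of `E` which are built up from `1` by multiplication with subgroups `N` which
are normalized by `H₀` and by the subgroup built so far, and which satisfy `Blk`. -/
inductive Reach {E : Type} [Group E] (H₀ : Subgroup E) : Subgroup E → Prop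
  | bot : Reach H₀ ⊥
  | step (P N : Subgroup E) : Reach H₀ P → (∀ x ∈ P ⊔ H₀, ∀ y ∈ N, x * y * x⁻¹ ∈ N) → Blk N →
      Reach H₀ (N ⊔ P)

theorem blk_rsk (hAut : AutStm) (hCore : CoreStm) {N G : Type} [Group N] [Finite N] [Group G]
    [Finite G] (ρ : G →* MulAut N) (h : Blk N) :
    RSK ℚ (SemidirectProduct.rightHom : N ⋊[ρ] G →* G) := by
  classical
  rcases h with h | ⟨ι, _, d, q, hd, hq⟩
  · have hfin : Finite (N ⋊[ρ] G) := Finite.of_equiv _ SemidirectProduct.equivProd.symm
    refine RS.rsk (ab_rs (SemidirectProduct.rightHom : N ⋊[ρ] G →* G) SemidirectProduct.inr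
      (fun w => rfl) ?_)
    intro x y hx hy
    have hx' : x.right = 1 := hx
    have hy' : y.right = 1 := hy
    apply SemidirectProduct.ext
    · rw [SemidirectProduct.mul_left, SemidirectProduct.mul_left, hx', hy', map_one]
      exact h _ _
    · rw [SemidirectProduct.mul_right, SemidirectProduct.mul_right, hx', hy']
  · have := Fintype.ofFinite ι
    let T : Finset ℕ := Finset.univ.image d
    have hT : ∀ i, d i ∈ T := fun i => Finset.mem_image_of_mem d (Finset.mem_univ i)
    let m := Fintype.card ι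
    let e : ι ≃ Fin m := Fintype.equivFin ι
    let Φ : PB (fun j : T => (j : ℕ)) (fun _ => m) →* ((i : ι) → Alt2 (d i)) :=
      { toFun := fun x i => x ⟨d i, hT i⟩ (e i)
        map_one' := rfl
        map_mul' := fun _ _ => rfl }
    have hΦ : Function.Surjective Φ := by
      intro y
      refine ⟨fun j k => if h : d (e.symm k) = (j : ℕ) then
        cast (congrArg (fun a : ℕ => (Alt2 a : Type)) h) (y (e.symm k)) else 1, ?_⟩
      funext i
      change (if h : d (e.symm (e i)) = d i then
        cast (congrArg (fun a : ℕ => (Alt2 a : Type)) h) (y (e.symm (e i))) else 1) = y i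
      have h1 : e.symm (e i) = i := e.symm_apply_apply i
      rw [dif_pos (by rw [h1])]
      generalize_proofs h2
      revert h2
      rw [h1]
      intro h2
      rfl
    refine core_rsk' (ι := T) (dd := fun j => (j : ℕ)) (k := fun _ => m) hAut hCore
      Subtype.val_injective ?_ ρ (q.comp Φ) (hq.comp hΦ)
    intro j
    obtain ⟨i, -, hi⟩ := Finset.mem_image.1 j.2
    rw [← hi]
    exact hd i

section reach

variable {G E Q : Type} [Group G] [Finite G] [Group E] [Finite E]

theorem reach_rsk (hAut : AutStm) (hCore : CoreStm) (s : G →* E) {P : Subgroup E}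
    (h : Reach s.range P) :
    ∃ (W : Type) (_ : Group W) (_ : Finite W) (p : W →* G) (q : W →* E) (σ : G →* W),
      RSK ℚ p ∧ p.ker.map q = P ∧ (∀ g, p (σ g) = g) ∧ ∀ g, q (σ g) = s g := by
  induction h with
  | bot =>
    refine ⟨G, inferInstance, inferInstance, MonoidHom.id G, s, MonoidHom.id G, ?_, ?_,
      fun _ => rfl, fun _ => rfl⟩
    · exact (RS.of_equiv (MulEquiv.refl G)).rsk
    · rw [MonoidHom.ker_id]
      exact Subgroup.map_bot s
  | step P N hP hN hB ih =>
    obtain ⟨W, _, _, p, q, σ, h1, h2, h3, h4⟩ := ih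
    have hq : ∀ w : W, q w ∈ P ⊔ s.range := by
      intro w
      have h5 : w = (w * (σ (p w))⁻¹) * σ (p w) := by rw [inv_mul_cancel_right]
      rw [h5, map_mul, h4]
      refine Subgroup.mul_mem_sup ?_ ⟨p w, rfl⟩
      rw [← h2]
      refine ⟨_, ?_, rfl⟩
      rw [SetLike.mem_coe, MonoidHom.mem_ker, map_mul, map_inv, h3, mul_inv_cancel]
    have hqN : ∀ w : W, q w ∈ Subgroup.normalizer N := by
      intro w
      rw [Subgroup.mem_normalizer_iff]
      intro y
      constructor
      · exact hN _ (hq w) y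
      · intro hy
        have h5 := hN _ (inv_mem (hq w)) _ hy
        have h6 : (q w)⁻¹ * (q w * y * (q w)⁻¹) * (q w)⁻¹⁻¹ = y := by group
        rwa [h6] at h5
    let qN : W →* Subgroup.normalizer (N : Set E) := q.codRestrict _ hqN
    let ρ : W →* MulAut N := (Subgroup.normalizerMonoidHom N).comp qN
    have hρ : ∀ w (y : N), ((ρ w y : N) : E) = q w * y * (q w)⁻¹ := fun w y => rfl
    have hfin : Finite (N ⋊[ρ] W) := Finite.of_equiv _ SemidirectProduct.equivProd.symm
    let q' : N ⋊[ρ] W →* E := SemidirectProduct.lift N.subtype q (fun w => by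
      apply MonoidHom.ext
      intro y
      exact hρ w y)
    have hq' : ∀ x : N ⋊[ρ] W, q' x = (x.left : E) * q x.right := fun x => rfl
    refine ⟨N ⋊[ρ] W, inferInstance, hfin, p.comp SemidirectProduct.rightHom, q',
      SemidirectProduct.inr.comp σ, ?_, ?_, h3, ?_⟩
    · exact RSK.comp h1 (blk_rsk hAut hCore ρ hB)
    · apply le_antisymm
      · rintro y ⟨x, hx, rfl⟩
        rw [hq']
        refine Subgroup.mul_mem_sup x.left.2 ?_
        rw [← h2]
        exact ⟨x.right, hx, rfl⟩
      · rw [sup_le_iff]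
        constructor
        · intro y hy
          refine ⟨⟨⟨y, hy⟩, 1⟩, ?_, ?_⟩
          · rw [SetLike.mem_coe, MonoidHom.mem_ker]
            exact map_one p
          · rw [hq', map_one, mul_one]
        · rw [← h2]
          rintro y ⟨w, hw, rfl⟩
          refine ⟨⟨1, w⟩, hw, ?_⟩
          rw [hq', Subgroup.coe_one, one_mul]
    · intro g
      rw [← h4]
      change q' ⟨1, σ g⟩ = _
      rw [hq', Subgroup.coe_one, one_mul]

end reach

/- **Main theorem.** -/
theorem reach_reg (hAut : AutStm) (hCore : CoreStm) (K L : Type) [Field K] [CharZero K] [Field L]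
    [Algebra K L] [FiniteDimensional K L] [IsGalois K L] (E : Type) [Group E] [Finite E]
    (α : E →* (L ≃ₐ[K] L)) (L' : Type) [Field L'] [Algebra K L'] [FiniteDimensional K L']
    [IsGalois K L'] [Algebra L L'] [IsScalarTower K L L'] (s : (L' ≃ₐ[K] L') →* E)
    (hs : ∀ ρ, α (s ρ) = ρ.restrictNormal L) (h : Reach s.range α.ker) : RegSol K L E α := by
  classical
  obtain ⟨W, _, _, p, q, σ, h1, h2, h3, h4⟩ := reach_rsk hAut hCore s h
  have : Infinite K := inferInstance
  have h5 : RegSol K L' W ((MulEquiv.refl _).symm.toMonoidHom.comp p) :=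
    h1 K L' (MulEquiv.refl _)
  have h6 : RegSol K L' W p := h5
  have hαq : ∀ w, α (q w) = (p w).restrictNormal L := by
    intro w
    have h7 : w = (w * (σ (p w))⁻¹) * σ (p w) := by rw [inv_mul_cancel_right]
    have h8 : q (w * (σ (p w))⁻¹) ∈ α.ker := by
      rw [← h2]
      refine ⟨_, ?_, rfl⟩
      rw [SetLike.mem_coe, MonoidHom.mem_ker, map_mul, map_inv, h3, mul_inv_cancel]
    rw [h7, map_mul, map_mul, MonoidHom.mem_ker.1 h8, one_mul, h4, hs, ← h7]
  refine h6.quot α p q ?_ hαq ?_
  · intro y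
    obtain ⟨g, hg⟩ := AlgEquiv.restrictNormalHom_surjective (F := K) (K₁ := L) L' (α y)
    have h7 : y * (s g)⁻¹ ∈ α.ker := by
      rw [MonoidHom.mem_ker, map_mul, map_inv, hs, mul_inv_eq_one]
      exact hg.symm
    rw [← h2] at h7
    obtain ⟨w, -, hw⟩ := h7
    refine ⟨w * σ g, ?_⟩
    rw [map_mul, hw, h4, inv_mul_cancel_right]
  · intro ρ' hρ'
    have h7 : (s ρ')⁻¹ ∈ α.ker := by
      rw [MonoidHom.mem_ker, map_inv, hs, hρ', inv_one]
    rw [← h2] at h7
    obtain ⟨w, hw, hw'⟩ := h7
    refine ⟨w * σ ρ', ?_, ?_⟩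
    · rw [map_mul, hw', h4, inv_mul_cancel]
    · rw [map_mul, MonoidHom.mem_ker.1 hw, one_mul, h3]

end Pool.Agent.T2H67.SA
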