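import Mathlib
import Pool.Agent.H84.L.A7_T2H67_SA_RealStm
import Pool.Agent.H84.L.S8_H391R2_NtD
import Pool.Agent.H84.L.S8_H391R2_T4_Fam
import Pool.Agent.H84.L.S8_H391R2_T4_Gp
import Pool.Agent.H84.L.S8_H391R2_T4_Nod
import Pool.Agent.H84.L.S8_H391R2_T4_Red
import Pool.Agent.H84.L.S8_H391R2_T4_Sem
import Pool.Agent.H84.L.S8_H391R2_T4_Sol
import Pool.Agent.H84.L.S8_W200_IG_HF
import Pool.Agent.H84.L.S8_W200_IH_TA
import Pool.Agent.H84.L.S8_W200_IJ_BC
import Pool.Agent.H84.L.S8_W200_IJ_SA

namespace Pool.Agent.H391R2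
end Pool.Agent.H391R2
namespace Pool.Agent.H391R2.T4
end Pool.Agent.H391R2.T4


/-!
# Package REAL: from homomorphisms of Galois groups to regular solutions
-/

set_option autoImplicit false

namespace Pool.Agent.T2H67.SA

open Pool.Agent.H391R2.T4 Pool.Agent.H391R2

section closed

theorem mv_closed {K : Type} [Field K] {ι : Type} (x : FractionRing (MvPolynomial ι K))
    (hx : IsIntegral K x) : ∃ k : K, algebraMap K _ k = x := by
  by_cases h0 : x = 0
  · exact ⟨0, by rw [map_zero, h0]⟩
  have key : ∀ z : FractionRing (MvPolynomial ι K), IsIntegral K z →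
      ∃ p : MvPolynomial ι K, algebraMap _ _ p = z := by
    intro z hz
    exact IsIntegrallyClosed.isIntegral_iff.1 (hz.tower_top)
  obtain ⟨p, hp⟩ := key x hx
  obtain ⟨q, hq⟩ := key x⁻¹ hx.inv
  have hpq : p * q = 1 := by
    apply IsFractionRing.injective (MvPolynomial ι K) (FractionRing (MvPolynomial ι K))
    rw [map_mul, hp, hq, map_one, mul_inv_cancel₀ h0]
  have hu : IsUnit p := IsUnit.of_mul_eq_one _ hpq
  obtain ⟨r, hr, hr2⟩ := MvPolynomial.isUnit_iff_eq_C_of_isReduced.1 hu
  refine ⟨r, ?_⟩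
  rw [← hp, hr2, ← MvPolynomial.algebraMap_eq, ← IsScalarTower.algebraMap_apply]

theorem adjoin_closed {K Ω : Type} [Field K] [Field Ω] [Algebra K Ω] {a b : Ω}
    (hab : AlgebraicIndependent K ![a, b]) (x : IntermediateField.adjoin K {a, b})
    (hx : IsAlgebraic K (x : Ω)) : ∃ k : K, algebraMap K Ω k = x := by
  have hr : ({a, b} : Set Ω) = Set.range ![a, b] := by
    rw [Matrix.range_cons, Matrix.range_cons, Matrix.range_empty, Set.union_empty]
    rfl
  have hx2 : (x : Ω) ∈ IntermediateField.adjoin K (Set.range ![a, b]) := hr ▸ x.2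
  have h1 : IsIntegral K (⟨x, hx2⟩ : IntermediateField.adjoin K (Set.range ![a, b])) := by
    have h2 : IsIntegral K ((IntermediateField.adjoin K (Set.range ![a, b])).val
      (⟨x, hx2⟩ : IntermediateField.adjoin K (Set.range ![a, b]))) := hx.isIntegral
    exact (isIntegral_algHom_iff _ (IntermediateField.adjoin K (Set.range ![a, b])).val.injective).1 h2
  obtain ⟨k, hk⟩ := mv_closed (hab.aevalEquivField.symm ⟨x, hx2⟩)
    (h1.map hab.aevalEquivField.symm)
  refine ⟨k, ?_⟩
  have h3 := congrArg hab.aevalEquivField hk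
  rw [AlgEquiv.apply_symm_apply, AlgEquiv.commutes] at h3
  exact congrArg Subtype.val h3

end closed

section res

variable {K Ω : Type} [Field K] [Field Ω] [Algebra K Ω] {a b : Ω}

/- automorphisms over `K(a, b)` -/
def toFix2 (K Ω : Type) [Field K] [Field Ω] [Algebra K Ω] (a b : Ω) :
    (Ω ≃ₐ[IntermediateField.adjoin K {a, b}] Ω) →* Fix2 K Ω a b where
  toFun g := ⟨g.restrictScalars K,
    g.commutes ⟨a, IntermediateField.subset_adjoin K {a, b} (Set.mem_insert _ _)⟩,
    g.commutes ⟨b, IntermediateField.subset_adjoin K {a, b}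
      (Set.mem_insert_of_mem _ (Set.mem_singleton _))⟩⟩
  map_one' := rfl
  map_mul' _ _ := rfl

theorem toFix2_apply (g : Ω ≃ₐ[IntermediateField.adjoin K {a, b}] Ω) (x : Ω) :
    (toFix2 K Ω a b g : Ω ≃ₐ[K] Ω) x = g x := rfl

theorem toFix2_surjective : Function.Surjective (toFix2 K Ω a b) := by
  intro g
  have hle : IntermediateField.adjoin K {a, b} ≤ IntermediateField.fixedField (Fix2 K Ω a b) := by
    rw [IntermediateField.adjoin_le_iff]
    rintro x (rfl | rfl)
    · exact fun g => g.2.1
    · exact fun g => g.2.2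
  refine ⟨AlgEquiv.ofRingEquiv (f := (g : Ω ≃ₐ[K] Ω).toRingEquiv) fun r => hle r.2 g, ?_⟩
  apply Subtype.ext
  apply AlgEquiv.ext
  intro x
  rfl

theorem isGalois_adjoin [CharZero K] [IsAlgClosed Ω]
    (halg : Algebra.IsAlgebraic (IntermediateField.adjoin K {a, b}) Ω) :
    IsGalois (IntermediateField.adjoin K {a, b}) Ω := by
  have h1 : IsAlgClosure (IntermediateField.adjoin K {a, b}) Ω := ⟨inferInstance, halg⟩
  have h2 : CharZero (IntermediateField.adjoin K {a, b}) :=
    charZero_of_injective_algebraMap (algebraMap K _).injective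
  exact IsAlgClosure.isGalois _ _

/- an element algebraic over `K` fixed by everything is in `K` -/
theorem mem_of_fixed [CharZero K] [IsAlgClosed Ω] (hab : AlgebraicIndependent K ![a, b])
    (halg : Algebra.IsAlgebraic (IntermediateField.adjoin K {a, b}) Ω) (y : Ω)
    (hy : IsAlgebraic K y) (hfix : ∀ g : Fix2 K Ω a b, (g : Ω ≃ₐ[K] Ω) y = y) :
    ∃ k : K, algebraMap K Ω k = y := by
  have h1 := isGalois_adjoin halg
  obtain ⟨x, hx⟩ := (InfiniteGalois.mem_range_algebraMap_iff_fixed
    (k := IntermediateField.adjoin K {a, b}) y).2 fun f => hfix (toFix2 K Ω a b f)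
  have h2 : (x : Ω) = y := hx
  rw [← h2] at hy
  obtain ⟨k, hk⟩ := adjoin_closed hab x hy
  exact ⟨k, hk.trans h2⟩

/- every automorphism of a finite Galois extension of `K` is the restriction of an automorphism
of `Ω` over `K(a, b)` -/
theorem lift_aut [CharZero K] [IsAlgClosed Ω] (hab : AlgebraicIndependent K ![a, b])
    (halg : Algebra.IsAlgebraic (IntermediateField.adjoin K {a, b}) Ω) (M : Type) [Field M]
    [Algebra K M] [FiniteDimensional K M] [IsGalois K M] (j : M →ₐ[K] Ω) (τ : M ≃ₐ[K] M) :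
    ∃ g : Fix2 K Ω a b, ∀ x : M, (g : Ω ≃ₐ[K] Ω) (j x) = j (τ x) := by
  let _ : Algebra M Ω := j.toRingHom.toAlgebra
  have hT : IsScalarTower K M Ω := IsScalarTower.of_algebraMap_eq fun x => (j.commutes x).symm
  have hj : ∀ x : M, j x = algebraMap M Ω x := fun _ => rfl
  let R : Subgroup (M ≃ₐ[K] M) :=
    ((AlgEquiv.restrictNormalHom (F := K) (K₁ := Ω) M).comp (Fix2 K Ω a b).subtype).range
  have h1 : IntermediateField.fixedField R = ⊥ := by
    rw [eq_bot_iff]
    intro x hx
    rw [IntermediateField.mem_bot]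
    obtain ⟨k, hk⟩ := mem_of_fixed hab halg (j x)
      ((Algebra.IsAlgebraic.isAlgebraic (R := K) x).algHom j) fun g => by
        have h2 := hx ⟨_, ⟨g, rfl⟩⟩
        have h3 : (g : Ω ≃ₐ[K] Ω).restrictNormal M x = x := h2
        have h4 := AlgEquiv.restrictNormal_commutes (g : Ω ≃ₐ[K] Ω) M x
        rw [h3] at h4
        exact h4.symm
    refine ⟨k, ?_⟩
    apply (algebraMap M Ω).injective
    rw [← IsScalarTower.algebraMap_apply, hk]
    rfl
  have h2 : R = ⊤ := by
    rw [← IntermediateField.fixingSubgroup_fixedField R, h1, IntermediateField.fixingSubgroup_bot]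
  have h3 : τ ∈ R := h2 ▸ Subgroup.mem_top τ
  obtain ⟨g, hg⟩ := h3
  refine ⟨g, fun x => ?_⟩
  rw [← hg]
  exact (AlgEquiv.restrictNormal_commutes (g : Ω ≃ₐ[K] Ω) M x).symm

theorem frac_aux (hab : AlgebraicIndependent K ![a, b]) (s : Set Ω)
    (hs : s = Set.range ![a, b]) :
    ∃ _ : Algebra (MvPolynomial (Fin 2) K) (IntermediateField.adjoin K s),
      IsFractionRing (MvPolynomial (Fin 2) K) (IntermediateField.adjoin K s) ∧
      IsScalarTower K (MvPolynomial (Fin 2) K) (IntermediateField.adjoin K s) := by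
  subst hs
  let e := hab.aevalEquivField
  let _ : Algebra (MvPolynomial (Fin 2) K) (IntermediateField.adjoin K (Set.range ![a, b])) :=
    ((e : FractionRing (MvPolynomial (Fin 2) K) →+*
      (IntermediateField.adjoin K (Set.range ![a, b]))).comp
      (algebraMap (MvPolynomial (Fin 2) K) (FractionRing (MvPolynomial (Fin 2) K)))).toAlgebra
  let e' : FractionRing (MvPolynomial (Fin 2) K) ≃ₐ[MvPolynomial (Fin 2) K]
      (IntermediateField.adjoin K (Set.range ![a, b])) :=
    AlgEquiv.ofRingEquiv (f := e.toRingEquiv) fun r => rfl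
  refine ⟨inferInstance, IsLocalization.isLocalization_of_algEquiv _ e',
    IsScalarTower.of_algebraMap_eq ?_⟩
  intro x
  change _ = e (algebraMap (MvPolynomial (Fin 2) K) (FractionRing (MvPolynomial (Fin 2) K))
    (algebraMap K _ x))
  rw [← IsScalarTower.algebraMap_apply, AlgEquiv.commutes]

omit [Field Ω] in
theorem range_pair : ({a, b} : Set Ω) = Set.range ![a, b] := by
  rw [Matrix.range_cons, Matrix.range_cons, Matrix.range_empty, Set.union_empty]
  rfl

end res

theorem real_stm : RealStm := by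
  intro K L _ _ _ _ _ _ G _ _ α hα Ω _ _ _ _ _ a b hab halg Θ hΘ S hS hw
  classical
  have hgal := isGalois_adjoin halg
  let E := IntermediateField.adjoin K {a, b}
  -- `Θ` is onto
  have hΘs : Function.Surjective Θ := by
    intro w
    obtain ⟨g, hg⟩ := lift_aut hab halg L (IsScalarTower.toAlgHom K L Ω) (α w)
    have h1 : α (Θ g) = α w := by
      apply AlgEquiv.ext
      intro l
      apply (algebraMap L Ω).injective
      rw [← hΘ]
      exact hg l
    obtain ⟨h, hh, -⟩ := hw ((Θ g)⁻¹ * w) (by rw [map_mul, map_inv, h1, inv_mul_cancel])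
    exact ⟨g * h, by rw [map_mul, hh, mul_inv_cancel_left]⟩
  let Θ' : (Ω ≃ₐ[E] Ω) →* G := Θ.comp (toFix2 K Ω a b)
  have hΘ's : Function.Surjective Θ' := hΘs.comp toFix2_surjective
  let H : Subgroup (Ω ≃ₐ[E] Ω) := Θ'.ker
  have hopen : IsOpen (H : Set (Ω ≃ₐ[E] Ω)) := by
    have hfd : FiniteDimensional E (IntermediateField.adjoin E (S : Set Ω)) := by
      refine IntermediateField.finiteDimensional_adjoin fun x _ => ?_
      exact (halg.isAlgebraic x).isIntegral
    refine Subgroup.isOpen_mono (H₁ := (IntermediateField.adjoin E (S : Set Ω)).fixingSubgroup)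
      ?_ (IntermediateField.fixingSubgroup_isOpen _)
    intro f hf
    rw [IntermediateField.mem_fixingSubgroup_iff] at hf
    exact hS (toFix2 K Ω a b f) fun y hy => hf y (IntermediateField.subset_adjoin _ _ hy)
  let Hc : ClosedSubgroup (Ω ≃ₐ[E] Ω) := ⟨H, Subgroup.isClosed_of_isOpen H hopen⟩
  let F : IntermediateField E Ω := IntermediateField.fixedField H
  have hF : F.fixingSubgroup = H := InfiniteGalois.fixingSubgroup_fixedField Hc
  obtain ⟨hFfd, hFgal⟩ := (InfiniteGalois.isOpen_and_normal_iff_finite_and_isGalois F).1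
    ⟨by rw [hF]; exact hopen, by rw [hF]; exact Θ'.normal_ker⟩
  obtain ⟨γ, hγ⟩ := exists_equiv_of_ker (AlgEquiv.restrictNormalHom (F := E) (K₁ := Ω) F) Θ'
    (AlgEquiv.restrictNormalHom_surjective Ω) hΘ's
    ((IntermediateField.restrictNormalHom_ker F).trans hF)
  -- `L` in `F`
  have hLF : ∀ x : L, algebraMap L Ω x ∈ F := by
    rintro x ⟨f, hf⟩
    change f (algebraMap L Ω x) = _
    have h1 : Θ (toFix2 K Ω a b f) = 1 := hf
    have h2 := hΘ (toFix2 K Ω a b f) x
    rw [h1, map_one] at h2
    exact h2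
  let _ : Algebra L F := ((algebraMap L Ω).codRestrict F hLF).toAlgebra
  have hLF2 : ∀ x : L, ((algebraMap L F x : F) : Ω) = algebraMap L Ω x := fun _ => rfl
  have hT2 : IsScalarTower K L F := IsScalarTower.of_algebraMap_eq fun x => by
    apply Subtype.ext
    change algebraMap K Ω x = algebraMap L Ω (algebraMap K L x)
    rw [← IsScalarTower.algebraMap_apply]
  obtain ⟨i1, i2, i3⟩ := frac_aux hab {a, b} range_pair
  have hinf : Infinite K := inferInstance
  refine Pool.Agent.W200.IJ.taskA K L G α (Fin 2) E F γ ?_ ?_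
  · intro σ' x
    obtain ⟨σ, rfl⟩ := AlgEquiv.restrictNormalHom_surjective (F := E) (K₁ := F) Ω σ'
    rw [hγ]
    apply Subtype.ext
    have h1 := AlgEquiv.restrictNormal_commutes σ F (algebraMap L F x)
    exact h1.trans (hΘ (toFix2 K Ω a b σ) x)
  · intro y hy
    -- `y` is fixed by `ker α`
    have hyΩ : IsAlgebraic L (y : Ω) := by
      have hT3 : IsScalarTower L F Ω := IsScalarTower.of_algebraMap_eq fun x => rfl
      exact hy.algebraMap (A := Ω)
    have hyK : IsAlgebraic K (y : Ω) := hyΩ.restrictScalars K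
    have hfix : ∀ g : Fix2 K Ω a b, α (Θ g) = 1 → (g : Ω ≃ₐ[K] Ω) y = y := by
      intro g hg
      obtain ⟨h, hh, hh2⟩ := hw (Θ g) hg
      obtain ⟨f, hf⟩ := toFix2_surjective (h⁻¹ * g)
      have h1 : f ∈ H := by
        change Θ (toFix2 K Ω a b f) = 1
        rw [hf, map_mul, map_inv, hh, inv_mul_cancel]
      have h2 : f y = y := y.2 ⟨f, h1⟩
      rw [← toFix2_apply, hf] at h2
      have h3 : (h : Ω ≃ₐ[K] Ω) (((h⁻¹ * g : Fix2 K Ω a b) : Ω ≃ₐ[K] Ω) y) =
          (g : Ω ≃ₐ[K] Ω) y := by
        rw [← AlgEquiv.mul_apply, ← Subgroup.coe_mul, mul_inv_cancel_left]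
      rw [← h3, h2]
      exact hh2 _ hyK
    -- a finite Galois extension with `L` and `y`
    let bs := Module.finBasis K L
    let S' : Finset Ω := insert (y : Ω) (Finset.univ.image fun q => algebraMap L Ω (bs q))
    obtain ⟨M, j1, j2, j3, j4, j, hj⟩ := exists_galois' (F := K) S' (fun x hx => by
      rw [Finset.mem_insert, Finset.mem_image] at hx
      rcases hx with rfl | ⟨q, -, rfl⟩
      · exact hyK.isIntegral
      · exact ((Algebra.IsAlgebraic.isAlgebraic (R := K) (bs q)).algebraMap (A := Ω)).isIntegral)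
    obtain ⟨y', hy'⟩ := hj y (Finset.mem_insert_self _ _)
    have hLr : ∀ x : L, algebraMap L Ω x ∈ j.range := by
      intro x
      rw [← bs.sum_repr x, map_sum]
      refine Subalgebra.sum_mem _ fun q _ => ?_
      rw [Algebra.smul_def, map_mul]
      refine mul_mem ?_ ?_
      · rw [← IsScalarTower.algebraMap_apply K L Ω]
        exact Subalgebra.algebraMap_mem _ _
      · obtain ⟨z, hz⟩ := hj (algebraMap L Ω (bs q)) (Finset.mem_insert_of_mem
          (Finset.mem_image_of_mem (fun q => algebraMap L Ω (bs q)) (Finset.mem_univ q)))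
        exact ⟨z, hz⟩
    let ι : L →ₐ[K] M := ((AlgEquiv.ofInjective j j.injective).symm : j.range →ₐ[K] M).comp
      ((IsScalarTower.toAlgHom K L Ω).codRestrict j.range hLr)
    have hjι : ∀ x : L, j (ι x) = algebraMap L Ω x := by
      intro x
      have h1 : ((AlgEquiv.ofInjective j j.injective (ι x) : j.range) : Ω) =
          algebraMap L Ω x := by
        change ((AlgEquiv.ofInjective j j.injective ((AlgEquiv.ofInjective j j.injective).symm
          ((IsScalarTower.toAlgHom K L Ω).codRestrict j.range hLr x)) : j.range) : Ω) = _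
        rw [AlgEquiv.apply_symm_apply]
        rfl
      exact h1
    let _ : Algebra L M := ι.toRingHom.toAlgebra
    have hT : IsScalarTower K L M := IsScalarTower.of_algebraMap_eq fun x => (ι.commutes x).symm
    have hfd : FiniteDimensional L M := Module.Finite.of_restrictScalars_finite K L M
    have hgal' : IsGalois L M := IsGalois.tower_top_of_isGalois K L M
    have hbot : y' ∈ (⊥ : IntermediateField L M) := by
      rw [IsGalois.mem_bot_iff_fixed]
      intro τ
      obtain ⟨g, hg⟩ := lift_aut hab halg M j (τ.restrictScalars K)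
      have h1 : α (Θ g) = 1 := by
        apply AlgEquiv.ext
        intro l
        apply (algebraMap L Ω).injective
        rw [← hΘ, ← hjι, hg]
        exact (congrArg j (τ.commutes l)).trans (hjι l)
      have h2 := hfix g h1
      rw [← hy', hg] at h2
      exact j.injective h2
    obtain ⟨x, hx⟩ := IntermediateField.mem_bot.1 hbot
    refine ⟨x, ?_⟩
    apply Subtype.ext
    rw [hLF2, ← hy', ← hx]
    exact (hjι x).symm

end Pool.Agent.T2H67.SA
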