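import Mathlib
import Pool.Agent.H84.L.A7_T2H67_SA_Alg
import Pool.Agent.H84.L.A7_T2H67_SA_Aut
import Pool.Agent.H84.L.A7_T2H67_SA_CoreC
import Pool.Agent.H84.L.A7_T2H67_SA_D
import Pool.Agent.H84.L.A7_T2H67_SA_D1
import Pool.Agent.H84.L.A7_T2H67_SA_D3
import Pool.Agent.H84.L.A7_T2H67_SA_D4
import Pool.Agent.H84.L.A7_T2H67_SA_D5
import Pool.Agent.H84.L.A7_T2H67_SA_DStm
import Pool.Agent.H84.L.A7_T2H67_SA_Even
import Pool.Agent.H84.L.A7_T2H67_SA_Fam
import Pool.Agent.H84.L.A7_T2H67_SA_FinStm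
import Pool.Agent.H84.L.A7_T2H67_SA_Reach
import Pool.Agent.H84.L.A7_T2H67_SA_Real
import Pool.Agent.H84.L.S8_H391R2_T4_Red

namespace Pool.Agent.H391R2
end Pool.Agent.H391R2
namespace Pool.Agent.H391R2.T4
end Pool.Agent.H391R2.T4
namespace Pool.Agent.TH444.TW
end Pool.Agent.TH444.TW


/-!
# Assembly
-/

set_option autoImplicit false

namespace Pool.Agent.T2H67.SA

open Pool.Agent.H391R2 Pool.Agent.H391R2.T4 Pool.Agent.TH444.TW

theorem d_all : DStm := d_stm d1_stm d3_stm (d4_stm d3_stm) d5_stm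

theorem core_all : CoreStm := core_stm fam_stm d_all real_stm alg_stm even_stm

theorem reg_all (K L : Type) [Field K] [CharZero K] [Field L]
    [Algebra K L] [FiniteDimensional K L] [IsGalois K L] (E : Type) [Group E] [Finite E]
    (α : E →* (L ≃ₐ[K] L)) (L' : Type) [Field L'] [Algebra K L'] [FiniteDimensional K L']
    [IsGalois K L'] [Algebra L L'] [IsScalarTower K L L'] (s : (L' ≃ₐ[K] L') →* E)
    (hs : ∀ ρ, α (s ρ) = ρ.restrictNormal L) (h : Reach s.range α.ker) : RegSol K L E α :=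
  reach_reg aut_stm core_all K L E α L' s hs h

end Pool.Agent.T2H67.SA
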