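import Mathlib
import Pool.Agent.H84.L.A7_T2H67_SA_Cl
import Pool.Agent.H84.L.A7_T2H67_SA_Grp



/-!
# Packages PA, PB, PC: the Schur multiplier of the alternating groups
-/

set_option autoImplicit false

namespace Pool.Agent.T2H67.SA

/- Package PA: a presentation of the double cover of `A_n` (the elements `t i`, `2 ≤ i`, are to be
the images of the lifts of order `3` of the three-cycles `(0 1 i)`). -/
def PAStm : Prop :=
  ∀ (n : ℕ) (_ : 5 ≤ n) (G : Type) [Group G] (t : Fin n → G) (z : G) (_ : ∀ g, z * g = g * z)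
    (_ : z * z = 1) (_ : ∀ i : Fin n, 2 ≤ i.1 → t i ^ 3 = 1)
    (_ : ∀ i j : Fin n, 2 ≤ i.1 → 2 ≤ j.1 → i ≠ j → t i * t j * (t i * t j) = z),
    ∃ f : Alt2 n →* G, f.range = Subgroup.closure ({z} ∪ {g | ∃ i : Fin n, 2 ≤ i.1 ∧ g = t i})

/- Package PB: perfect central extensions of `A_n`. -/
def PBStm : Prop :=
  ∀ (n : ℕ) (_ : 5 ≤ n) (C : Type) [Group C] (π : C →* alternatingGroup (Fin n))
    (_ : Function.Surjective π) (_ : π.ker ≤ Subgroup.center C) (_ : commutator C = ⊤)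
    (_ : n = 6 ∨ n = 7 → ∀ z ∈ Subgroup.center C, z ^ 3 = 1 → z = 1),
    ∃ f : Alt2 n →* C, Function.Surjective f

/- Package PC: groups whose quotient by the centre is a product of alternating groups. -/
def PCStm : Prop :=
  ∀ (N : Type) [Group N] (ι : Type) [Finite ι] (d : ι → ℕ) (_ : ∀ i, 5 ≤ d i)
    (_ : (∃ i, d i = 6 ∨ d i = 7) → ∀ z ∈ Subgroup.center N, z ^ 3 = 1 → z = 1)
    (_ : N ⧸ Subgroup.center N ≃* ((i : ι) → alternatingGroup (Fin (d i)))),
    ∃ q : ((i : ι) → Alt2 (d i)) →* N, q.range = commutator N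

end Pool.Agent.T2H67.SA
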