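import Mathlib
import Pool.Agent.H84.L.A7_T2H67_SA_Cl
import Pool.Agent.H84.L.A7_T2H67_SA_Cl2
import Pool.Agent.H84.L.A7_T2H67_SA_FinA
import Pool.Agent.H84.L.A7_T2H67_SA_Grp
import Pool.Agent.H84.L.A7_T2H67_SA_KerDef
import Pool.Agent.H84.L.A7_T2H67_SA_Reach
import Pool.Agent.H84.L.A7_T2H67_SA_SchurStm
import Pool.Agent.H84.L.S8_H391R2_T4_Nod
import Pool.Agent.H84.L.S8_H391R2_T4_Sem
import Pool.Agent.H84.L.S8_TH15_IGP_TwB
import Pool.Agent.H84.L.S8_TH444_TW_RS
import Pool.Agent.H84.L.S8_TH444_TW_RSK
import Pool.Agent.H84.L.S8_W200_IG_Fam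
import Pool.Agent.H84.L.S8_W200_IG_HF
import Pool.Agent.H84.L.S8_W200_IJ_SA



/-!
# From central extensions of products of alternating groups to double covers
-/

set_option autoImplicit false
set_option linter.unusedSectionVars false

namespace Pool.Agent.T2H67.SA

open Equiv

theorem alt_perfect' {n : ℕ} (hn : 5 ≤ n) : commutator (alternatingGroup (Fin n)) = ⊤ := by
  rw [eq_top_iff]
  rintro a -
  obtain ⟨x, rfl⟩ := toAlt_surjective n a
  have h1 : (commutator (Alt2 n)).map (toAlt n) ≤ commutator (alternatingGroup (Fin n)) := by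
    rw [commutator_def, commutator_def, Subgroup.map_commutator]
    exact Subgroup.commutator_mono le_top le_top
  apply h1
  rw [alt2_perfect hn]
  exact ⟨x, trivial, rfl⟩

theorem pi_perfect {ι : Type} [Finite ι] {A : ι → Type} [∀ i, Group (A i)]
    (h : ∀ i, commutator (A i) = ⊤) : commutator ((i : ι) → A i) = ⊤ := by
  classical
  rw [eq_top_iff]
  intro x _
  refine Subgroup.pi_mem_of_mulSingle_mem x fun i => ?_
  have h2 : (commutator (A i)).map (MonoidHom.mulSingle A i) ≤ commutator ((i : ι) → A i) := by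
    rw [commutator_def, commutator_def, Subgroup.map_commutator]
    exact Subgroup.commutator_mono le_top le_top
  apply h2
  rw [h]
  exact ⟨x i, trivial, rfl⟩

/- a group with perfect quotient by the centre is the product of the centre and the commutator
subgroup -/
theorem center_sup {N Q : Type} [Group N] [Group Q] (e : N ⧸ Subgroup.center N ≃* Q)
    (hQ : commutator Q = ⊤) : Subgroup.center N ⊔ commutator N = ⊤ := by
  have h1 : commutator (N ⧸ Subgroup.center N) = ⊤ := by
    have h2 : (commutator Q).map (e.symm : Q →* N ⧸ Subgroup.center N) ≤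
        commutator (N ⧸ Subgroup.center N) := by
      rw [commutator_def, commutator_def, Subgroup.map_commutator]
      exact Subgroup.commutator_mono le_top le_top
    rw [hQ] at h2
    rw [eq_top_iff]
    intro x _
    apply h2
    exact ⟨e x, trivial, e.symm_apply_apply x⟩
  have h3 : (commutator N).map (QuotientGroup.mk' (Subgroup.center N)) = ⊤ := by
    rw [commutator_def, Subgroup.map_commutator, Subgroup.map_top_of_surjective _
      (QuotientGroup.mk'_surjective _), ← commutator_def, h1]
  rw [eq_top_iff]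
  intro x _
  have h4 : QuotientGroup.mk' (Subgroup.center N) x ∈
      (commutator N).map (QuotientGroup.mk' (Subgroup.center N)) := by
    rw [h3]
    trivial
  obtain ⟨y, hy, hyx⟩ := h4
  have h5 : x * y⁻¹ ∈ Subgroup.center N := by
    rw [← QuotientGroup.ker_mk' (Subgroup.center N), MonoidHom.mem_ker, map_mul, map_inv, hyx,
      mul_inv_cancel]
  have h6 : x = (x * y⁻¹) * y := by rw [inv_mul_cancel_right]
  rw [h6]
  exact Subgroup.mul_mem_sup h5 hy

theorem built_reach (hPC : PCStm) {E : Type} [Group E] {H₀ P : Subgroup E} (h : Built H₀ P) :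
    Reach H₀ P := by
  induction h with
  | one => exact Reach.bot
  | step P N hP hN hB ih =>
    obtain ⟨ι, _, d, hd, h7, ⟨e⟩⟩ := hB
    -- conjugation by the elements of the normalizer
    have hpm : ∀ x ∈ P ⊔ H₀, x⁻¹ ∈ P ⊔ H₀ := fun x hx => inv_mem hx
    have hconj : ∀ x : E, (∀ y ∈ N, x * y * x⁻¹ ∈ N) → (∀ y ∈ N, x⁻¹ * y * x ∈ N) →
        ∃ c : N ≃* N, ∀ y : N, ((c y : N) : E) = x * y * x⁻¹ := by
      intro x h1 h2
      refine ⟨{ toFun := fun y => ⟨x * y * x⁻¹, h1 y y.2⟩
                invFun := fun y => ⟨x⁻¹ * y * x, h2 y y.2⟩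
                left_inv := fun y => Subtype.ext (by
                  change x⁻¹ * (x * y * x⁻¹) * x = y
                  group)
                right_inv := fun y => Subtype.ext (by
                  change x * (x⁻¹ * y * x) * x⁻¹ = y
                  group)
                map_mul' := fun y y' => Subtype.ext (by
                  change x * (y * y') * x⁻¹ = x * y * x⁻¹ * (x * y' * x⁻¹)
                  group) }, fun y => rfl⟩
    have hc1 : ∀ x : E, (∀ y ∈ N, x * y * x⁻¹ ∈ N) → (∀ y ∈ N, x⁻¹ * y * x ∈ N) →
        ∀ y ∈ (commutator N).map N.subtype, x * y * x⁻¹ ∈ (commutator N).map N.subtype := by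
      rintro x h1 h2 _ ⟨y, hy, rfl⟩
      obtain ⟨c, hc⟩ := hconj x h1 h2
      refine ⟨c y, ?_, hc y⟩
      have h3 : (commutator N).map (c : N →* N) ≤ commutator N := by
        rw [commutator_def, Subgroup.map_commutator]
        exact Subgroup.commutator_mono le_top le_top
      exact h3 ⟨y, hy, rfl⟩
    have hc2 : ∀ x : E, (∀ y ∈ N, x * y * x⁻¹ ∈ N) → (∀ y ∈ N, x⁻¹ * y * x ∈ N) →
        ∀ y ∈ (Subgroup.center N).map N.subtype,
          x * y * x⁻¹ ∈ (Subgroup.center N).map N.subtype := by
      rintro x h1 h2 _ ⟨y, hy, rfl⟩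
      obtain ⟨c, hc⟩ := hconj x h1 h2
      refine ⟨c y, ?_, hc y⟩
      rw [SetLike.mem_coe, Subgroup.mem_center_iff] at hy ⊢
      intro g
      obtain ⟨g', rfl⟩ := c.surjective g
      rw [← map_mul, ← map_mul, hy]
    have hnor : ∀ x ∈ P ⊔ H₀, (∀ y ∈ N, x * y * x⁻¹ ∈ N) ∧ (∀ y ∈ N, x⁻¹ * y * x ∈ N) := by
      intro x hx
      refine ⟨hN x hx, fun y hy => ?_⟩
      have h1 := hN _ (inv_mem hx) y hy
      rwa [inv_inv] at h1
    -- the first step
    obtain ⟨q, hq⟩ := hPC N ι d (fun i => (hd i).1) (by
      rintro ⟨i, hi | hi⟩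
      · exact absurd hi (hd i).2
      · exact h7 ⟨i, hi⟩) e
    have hr1 : Reach H₀ ((commutator N).map N.subtype ⊔ P) := by
      refine Reach.step P _ ih ?_ ?_
      · intro x hx
        exact hc1 x (hnor x hx).1 (hnor x hx).2
      · refine Or.inr ⟨ι, inferInstance, d, (N.subtype.comp q).codRestrict _ ?_, hd, ?_⟩
        · intro x
          refine ⟨q x, ?_, rfl⟩
          rw [SetLike.mem_coe, ← hq]
          exact ⟨x, rfl⟩
        · rintro ⟨_, y, hy, rfl⟩
          rw [SetLike.mem_coe, ← hq] at hy
          obtain ⟨x, rfl⟩ := hy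
          exact ⟨x, rfl⟩
    -- the second step
    have hr2 : Reach H₀ ((Subgroup.center N).map N.subtype ⊔
        ((commutator N).map N.subtype ⊔ P)) := by
      refine Reach.step _ _ hr1 ?_ ?_
      · -- the normalizer of `N` contains everything
        have h1 : ((commutator N).map N.subtype ⊔ P) ⊔ H₀ ≤ Subgroup.normalizer (N : Set E) := by
          rw [sup_le_iff, sup_le_iff]
          have h2 : ∀ x ∈ P ⊔ H₀, x ∈ Subgroup.normalizer (N : Set E) := by
            intro x hx
            rw [Subgroup.mem_normalizer_iff]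
            intro y
            constructor
            · exact (hnor x hx).1 y
            · intro hy
              have h3 := (hnor x hx).2 _ hy
              have h4 : x⁻¹ * (x * y * x⁻¹) * x = y := by group
              rwa [h4] at h3
          refine ⟨⟨?_, ?_⟩, ?_⟩
          · rintro _ ⟨y, -, rfl⟩
            exact Subgroup.le_normalizer y.2
          · exact fun x hx => h2 x (Subgroup.mem_sup_left hx)
          · exact fun x hx => h2 x (Subgroup.mem_sup_right hx)
        intro x hx
        have h2 := h1 hx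
        have h3 := h1 (inv_mem hx)
        rw [Subgroup.mem_normalizer_iff] at h2 h3
        refine hc2 x (fun y hy => (h2 y).1 hy) (fun y hy => ?_)
        have h4 := (h3 y).1 hy
        rwa [inv_inv] at h4
      · left
        rintro ⟨_, a, ha, rfl⟩ ⟨_, b, -, rfl⟩
        apply Subtype.ext
        rw [SetLike.mem_coe, Subgroup.mem_center_iff] at ha
        have h5 : a * b = b * a := (ha b).symm
        exact congrArg (fun t : N => (t : E)) h5
    have hsup : (Subgroup.center N).map N.subtype ⊔ (commutator N).map N.subtype = N := by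
      rw [← Subgroup.map_sup, center_sup e (pi_perfect fun i => alt_perfect' (hd i).1),
        ← MonoidHom.range_eq_map, Subgroup.range_subtype]
    rw [← sup_assoc, hsup] at hr2
    exact hr2

end Pool.Agent.T2H67.SA
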