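import Mathlib
import Pool.Agent.H84.L.A7_T2H67_SA_Cl
import Pool.Agent.H84.L.A7_T2H67_SA_FinA
import Pool.Agent.H84.L.A7_T2H67_SA_Grp



/-!
# The double cover is a nonsplit central extension
-/

set_option autoImplicit false
set_option linter.unusedSectionVars false

namespace Pool.Agent.T2H67.SA

open Cl Equiv

/- `Alt2 n` is a nonsplit central extension of the alternating group `A_n` by a group of
order `2`. -/
def Cover (n : ℕ) : Prop :=
  ∃ π : Alt2 n →* alternatingGroup (Fin n), Function.Surjective π ∧ Nat.card π.ker = 2 ∧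
    π.ker ≤ Subgroup.center (Alt2 n) ∧
    ¬ ∃ t : alternatingGroup (Fin n) →* Alt2 n, ∀ a, π (t a) = a

theorem cover {n : ℕ} (hn : 4 ≤ n) : Cover n := by
  classical
  refine ⟨toAlt n, toAlt_surjective n, ?_, ?_, ?_⟩
  · rw [Nat.card_eq_two_iff]
    refine ⟨1, ⟨negOne n, toAlt_eq_one.2 (Or.inr rfl)⟩, ?_, ?_⟩
    · intro h
      exact negOne_ne (congrArg Subtype.val h).symm
    · ext ⟨x, hx⟩
      simp only [Set.mem_insert_iff, Set.mem_singleton_iff, Set.mem_univ, iff_true]
      rcases toAlt_eq_one.1 hx with h | h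
      · exact Or.inl (Subtype.ext h)
      · exact Or.inr (Subtype.ext h)
  · intro x hx
    rw [Subgroup.mem_center_iff]
    intro y
    rcases toAlt_eq_one.1 hx with h | h
    · rw [h, one_mul, mul_one]
    · rw [h, negOne_comm]
  · rintro ⟨t, ht⟩
    have h01 : (⟨0, by omega⟩ : Fin n) ≠ ⟨1, by omega⟩ := by simp
    have h23 : (⟨2, by omega⟩ : Fin n) ≠ ⟨3, by omega⟩ := by simp
    set d := dsw h01 h23 with hd
    have hdd : d * d = negOne n := dsw_sq h01 h23 (by simp) (by simp) (by simp) (by simp)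
    have h1 : toAlt n d * toAlt n d = 1 := by
      rw [← map_mul, hdd]
      exact toAlt_eq_one.2 (Or.inr rfl)
    have h2 : t (toAlt n d) * t (toAlt n d) = 1 := by rw [← map_mul, h1, map_one]
    have h3 : toPerm n d = toPerm n (t (toAlt n d)) := by
      rw [← toAlt_coe, ← toAlt_coe, ht]
    rcases eq_or_neg h3 with h4 | h4
    · rw [h4, hdd] at h2
      exact negOne_ne h2
    · rw [h4, mul_assoc, ← mul_assoc d, ← negOne_comm, mul_assoc, hdd, negOne_sq, mul_one] at h2
      exact negOne_ne h2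

end Pool.Agent.T2H67.SA
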