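import Mathlib
import Pool.Agent.H84.L.A7_T2H67_SA_Cl
import Pool.Agent.H84.L.A7_T2H67_SA_Cl2
import Pool.Agent.H84.L.A7_T2H67_SA_Cover
import Pool.Agent.H84.L.A7_T2H67_SA_FinA
import Pool.Agent.H84.L.A7_T2H67_SA_Full
import Pool.Agent.H84.L.A7_T2H67_SA_Grp
import Pool.Agent.H84.L.A7_T2H67_SA_SchurStm



/-!
# A presentation of the double cover of the alternating group
-/

set_option autoImplicit false
set_option linter.unusedSectionVars false

namespace Pool.Agent.T2H67.SA

open Cl Equiv

section bound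

variable {F : Type} [Group F] {z : F} (hz : ∀ g, z * g = g * z) (hzz : z * z = 1)

include hz in
theorem rel_a {s T : F} (h : T * s * (T * s) = z) (hs : s ^ 3 = 1) (hT : T ^ 3 = 1) :
    T * s = z * (s * s) * (T * T) := by
  have h1 : T * s = z * (T * s)⁻¹ := eq_mul_inv_of_mul_eq h
  have h2 : s⁻¹ = s * s := by
    rw [inv_eq_iff_mul_eq_one, ← hs, pow_three]
  have h3 : T⁻¹ = T * T := by
    rw [inv_eq_iff_mul_eq_one, ← hT, pow_three]
  rw [mul_inv_rev, h2, h3] at h1
  rw [mul_assoc]
  exact h1

/- the representatives of the cosets -/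
def rp {m : ℕ} (T : F) (s : Fin m → F) : Fin 3 ⊕ Fin m → F
  | Sum.inl 0 => 1
  | Sum.inl 1 => T
  | Sum.inl 2 => T * T
  | Sum.inr j => T * T * s j

include hz hzz in
theorem step_bound {m : ℕ} (s : Fin m → F) (T : F) (hs : ∀ i, s i ^ 3 = 1) (hT : T ^ 3 = 1)
    (hss : ∀ i j, i ≠ j → s i * s j * (s i * s j) = z)
    (hsT : ∀ i, s i * T * (s i * T) = z) (hTs : ∀ i, T * s i * (T * s i) = z)
    (H : Subgroup F) (hzH : z ∈ H) (hsH : ∀ i, s i ∈ H) {x : F}
    (hx : x ∈ Subgroup.closure ({z} ∪ (Set.range s ∪ {T}))) : ∃ h ∈ H, ∃ ρ, x = h * rp T s ρ := by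
  have hTT : T * T * T = 1 := by
    rw [← hT, pow_three']
  have hsi : ∀ i, s i * s i * s i = 1 := by
    intro i
    rw [← hs i, pow_three']
  have ha : ∀ i, T * s i = z * (s i * s i) * (T * T) := fun i => rel_a hz (hTs i) (hs i) hT
  -- `T * T * s j * s j = z * s j * T`
  have hb : ∀ j, T * T * s j * s j = z * s j * T := by
    intro j
    have h1 : s j * T = z * (T * T) * (s j * s j) := by
      have h2 := rel_a hz (hsT j) hT (hs j)
      exact h2
    rw [mul_assoc z, h1]
    calc T * T * s j * s j = (z * z) * (T * T * (s j * s j)) := by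
          rw [hzz, one_mul, mul_assoc]
      _ = z * (z * (T * T) * (s j * s j)) := by simp only [mul_assoc]
  have hc : ∀ j k, j ≠ k → T * T * s j * s k = (s k * z * (s j * s j)) * (T * T * s j) := by
    intro j k hjk
    have h1 : s j * s k = z * (s k * s k) * (s j * s j) := rel_a hz (hss j k hjk) (hs k) (hs j)
    have h2 : s k * T = z * (T * T) * (s k * s k) := rel_a hz (hsT k) hT (hs k)
    calc T * T * s j * s k = T * T * (z * (s k * s k) * (s j * s j)) := by rw [mul_assoc, h1]
      _ = (z * (T * T) * (s k * s k)) * (s j * s j) := by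
          rw [← mul_assoc (T * T), ← mul_assoc (T * T), ← hz]
      _ = s k * (T * s j) * s j := by rw [← h2]; simp only [mul_assoc]
      _ = (s k * z * (s j * s j)) * (T * T * s j) := by
          rw [ha]
          simp only [mul_assoc]
  have hd : ∀ j, T * T * s j * T = (s j * s j) * (T * T * s j) := by
    intro j
    have h1 : s j * T = z * (T * T) * (s j * s j) := rel_a hz (hsT j) hT (hs j)
    calc T * T * s j * T = T * T * (z * (T * T) * (s j * s j)) := by rw [mul_assoc, h1]
      _ = z * ((T * T * T) * T) * (s j * s j) := by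
          rw [← mul_assoc (T * T), ← mul_assoc (T * T), ← hz]
          simp only [mul_assoc]
      _ = z * (T * s j) * s j := by
          rw [hTT, one_mul]
          simp only [mul_assoc]
      _ = (z * z) * ((s j * s j) * (T * T * s j)) := by
          rw [ha]
          simp only [mul_assoc]
      _ = _ := by rw [hzz, one_mul]
  -- stability
  have hst : ∀ g ∈ ({z} ∪ (Set.range s ∪ {T}) : Set F), ∀ y, (∃ h ∈ H, ∃ ρ, y = h * rp T s ρ) →
      ∃ h ∈ H, ∃ ρ, y * g = h * rp T s ρ := by
    rintro g (rfl | ⟨k, rfl⟩ | rfl) y ⟨h, hh, ρ, rfl⟩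
    · refine ⟨h * g, mul_mem hh hzH, ρ, ?_⟩
      rw [mul_assoc, ← hz, mul_assoc]
    · match ρ with
      | Sum.inl 0 => exact ⟨h * s k, mul_mem hh (hsH k), Sum.inl 0, by simp [rp]⟩
      | Sum.inl 1 =>
        refine ⟨h * (z * (s k * s k)), mul_mem hh (mul_mem hzH (mul_mem (hsH k) (hsH k))),
          Sum.inl 2, ?_⟩
        change h * T * s k = h * (z * (s k * s k)) * (T * T)
        rw [mul_assoc, ha]
        simp only [mul_assoc]
      | Sum.inl 2 =>
        refine ⟨h, hh, Sum.inr k, ?_⟩
        change h * (T * T) * s k = h * (T * T * s k)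
        rw [mul_assoc]
      | Sum.inr j =>
        by_cases hjk : j = k
        · subst hjk
          refine ⟨h * (z * s j), mul_mem hh (mul_mem hzH (hsH j)), Sum.inl 1, ?_⟩
          change h * (T * T * s j) * s j = h * (z * s j) * T
          rw [mul_assoc, hb, mul_assoc h]
        · refine ⟨h * (s k * z * (s j * s j)), mul_mem hh (mul_mem (mul_mem (hsH k) hzH)
            (mul_mem (hsH j) (hsH j))), Sum.inr j, ?_⟩
          change h * (T * T * s j) * s k = h * (s k * z * (s j * s j)) * (T * T * s j)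
          rw [mul_assoc, hc j k hjk, mul_assoc h]
    · match ρ with
      | Sum.inl 0 => exact ⟨h, hh, Sum.inl 1, by simp [rp]⟩
      | Sum.inl 1 =>
        refine ⟨h, hh, Sum.inl 2, ?_⟩
        change h * g * g = h * (g * g)
        rw [mul_assoc]
      | Sum.inl 2 =>
        refine ⟨h, hh, Sum.inl 0, ?_⟩
        change h * (g * g) * g = h * 1
        rw [mul_assoc, hTT]
      | Sum.inr j =>
        refine ⟨h * (s j * s j), mul_mem hh (mul_mem (hsH j) (hsH j)), Sum.inr j, ?_⟩
        change h * (g * g * s j) * g = h * (s j * s j) * (g * g * s j)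
        rw [mul_assoc, hd, mul_assoc h]
  have hinv : ∀ g ∈ ({z} ∪ (Set.range s ∪ {T}) : Set F), g⁻¹ = g ∨ g⁻¹ = g * g := by
    rintro g (rfl | ⟨k, rfl⟩ | rfl)
    · left
      rw [inv_eq_iff_mul_eq_one, hzz]
    · right
      rw [inv_eq_iff_mul_eq_one, ← mul_assoc, hsi]
    · right
      rw [inv_eq_iff_mul_eq_one, ← mul_assoc, hTT]
  induction hx using Subgroup.closure_induction_right with
  | one => exact ⟨1, one_mem H, Sum.inl 0, by simp [rp]⟩
  | mul_right x hx y hy ih => exact hst y hy x ih
  | mul_inv_cancel x hx y hy ih =>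
    rcases hinv y hy with h | h
    · rw [h]
      exact hst y hy x ih
    · rw [h, ← mul_assoc]
      exact hst y hy _ (hst y hy x ih)

include hz hzz in
theorem bound (m : ℕ) (t : Fin m → F) (ht : ∀ i, t i ^ 3 = 1)
    (htt : ∀ i j, i ≠ j → t i * t j * (t i * t j) = z) :
    Finite (Subgroup.closure ({z} ∪ Set.range t)) ∧
      Nat.card (Subgroup.closure ({z} ∪ Set.range t)) ≤ (m + 2).factorial := by
  induction m with
  | zero =>
    have h1 : ∀ x ∈ Subgroup.closure ({z} ∪ Set.range t), x = 1 ∨ x = z := by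
      intro x hx
      induction hx using Subgroup.closure_induction_right with
      | one => exact Or.inl rfl
      | mul_right x hx y hy ih =>
        rcases hy with rfl | ⟨i, -⟩
        · rcases ih with rfl | rfl
          · exact Or.inr (one_mul _)
          · exact Or.inl hzz
        · exact i.elim0
      | mul_inv_cancel x hx y hy ih =>
        rcases hy with rfl | ⟨i, -⟩
        · have h2 : y⁻¹ = y := by rw [inv_eq_iff_mul_eq_one, hzz]
          rw [h2]
          rcases ih with rfl | rfl
          · exact Or.inr (one_mul _)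
          · exact Or.inl hzz
        · exact i.elim0
    classical
    let f : Subgroup.closure ({z} ∪ Set.range t) → Bool := fun x => decide (x.1 = 1)
    have hf : Function.Injective f := by
      rintro ⟨x, hx⟩ ⟨y, hy⟩ hxy
      apply Subtype.ext
      have h2 : (x = 1) ↔ (y = 1) := decide_eq_decide.1 hxy
      rcases h1 x hx with h3 | h3 <;> rcases h1 y hy with h4 | h4
      · exact h3.trans h4.symm
      · exact h3.trans (h2.1 h3).symm
      · exact (h2.2 h4).trans h4.symm
      · exact h3.trans h4.symm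
    refine ⟨Finite.of_injective f hf, ?_⟩
    have h5 := Nat.card_le_card_of_injective f hf
    rw [Nat.card_eq_fintype_card (α := Bool), Fintype.card_bool] at h5
    exact h5
  | succ m ih =>
    obtain ⟨hfin, hcard⟩ := ih (fun i => t i.castSucc) (fun i => ht _)
      (fun i j hij => htt _ _ fun h => hij (Fin.castSucc_injective m h))
    set H := Subgroup.closure ({z} ∪ Set.range fun i : Fin m => t i.castSucc) with hH
    have hset : ({z} ∪ Set.range t : Set F) =
        {z} ∪ (Set.range (fun i : Fin m => t i.castSucc) ∪ {t (Fin.last m)}) := by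
      congr 1
      ext x
      constructor
      · rintro ⟨i, rfl⟩
        refine Fin.lastCases ?_ (fun j => ?_) i
        · exact Or.inr rfl
        · exact Or.inl ⟨j, rfl⟩
      · rintro (⟨j, rfl⟩ | rfl)
        · exact ⟨_, rfl⟩
        · exact ⟨_, rfl⟩
    rw [hset]
    have hlast : ∀ i : Fin m, i.castSucc ≠ Fin.last m := fun i => (Fin.castSucc_lt_last i).ne
    have hex := fun x : Subgroup.closure ({z} ∪ (Set.range (fun i : Fin m => t i.castSucc) ∪
        {t (Fin.last m)})) => step_bound hz hzz (fun i : Fin m => t i.castSucc) (t (Fin.last m))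
      (fun i => ht _) (ht _) (fun i j hij => htt _ _ fun h => hij (Fin.castSucc_injective m h))
      (fun i => htt _ _ (hlast i)) (fun i => htt _ _ (hlast i).symm) H
      (Subgroup.subset_closure (Or.inl rfl))
      (fun i => Subgroup.subset_closure (Or.inr ⟨i, rfl⟩)) x.2
    choose h hh ρ hρ using hex
    let f : Subgroup.closure ({z} ∪ (Set.range (fun i : Fin m => t i.castSucc) ∪
        {t (Fin.last m)})) → H × (Fin 3 ⊕ Fin m) := fun x => (⟨h x, hh x⟩, ρ x)
    have hf : Function.Injective f := by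
      intro x y hxy
      apply Subtype.ext
      have h1 : h x = h y := congrArg (fun p : H × (Fin 3 ⊕ Fin m) => (p.1 : F)) hxy
      have h2 : ρ x = ρ y := congrArg Prod.snd hxy
      rw [hρ x, hρ y, h1, h2]
    refine ⟨Finite.of_injective f hf, ?_⟩
    refine (Nat.card_le_card_of_injective f hf).trans ?_
    rw [Nat.card_prod, Nat.card_eq_fintype_card (α := Fin 3 ⊕ Fin m), Fintype.card_sum,
      Fintype.card_fin, Fintype.card_fin]
    have h3 : (m + 1 + 2).factorial = (m + 3) * (m + 2).factorial := Nat.factorial_succ _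
    rw [h3, mul_comm, add_comm 3 m]
    exact Nat.mul_le_mul_left _ hcard

end bound

section gens

variable {n : ℕ}

/- the lift of order `3` of a three-cycle -/
def tau {a b c : Fin n} (h : a ≠ b) (h' : a ≠ c) : Alt2 n := negOne n * dsw h h'

theorem toPerm_tau {a b c : Fin n} (h : a ≠ b) (h' : a ≠ c) :
    toPerm n (tau h h') = swap a b * swap a c := by
  rw [tau, map_mul, toPerm_negOne, one_mul, toPerm_dsw]

theorem tau_cube {a b c : Fin n} (h : a ≠ b) (h' : a ≠ c) (h'' : b ≠ c) : tau h h' ^ 3 = 1 := by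
  apply Subtype.ext
  apply Units.ext
  set u : Cl n ℚ := (2 : ℚ)⁻¹ • ((e a - e b) * (e a - e c)) with hu
  have hval : ((tau h h').1 : Cl n ℚ) = -u := neg_one_mul _
  have hba : (e a - e c : Cl n ℚ) * (e a - e b) = (2 : ℚ) • 1 - (e a - e b) * (e a - e c) := by
    rw [sub_mul, mul_sub, mul_sub, sub_mul, mul_sub, mul_sub, e_sq, e_anti h.symm, e_anti h''.symm,
      e_anti h', two_smul]
    have h1 : (e b * e c : Cl n ℚ) = -(e c * e b) := e_anti h''
    rw [h1]
    abel
  have huu : u * u = u - 1 := by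
    rw [hu, smul_mul_smul_comm]
    have h1 : (e a - e b : Cl n ℚ) * (e a - e c) * ((e a - e b) * (e a - e c)) =
        (2 : ℚ) • ((e a - e b) * (e a - e c)) - (4 : ℚ) • 1 := by
      have hA := swap_sq (k := ℚ) h
      have hB := swap_sq (k := ℚ) h'
      revert hba hA hB
      generalize (e a - e b : Cl n ℚ) = A
      generalize (e a - e c : Cl n ℚ) = B
      intro hba hA hB
      calc A * B * (A * B) = A * (B * A) * B := by simp only [mul_assoc]
        _ = (2 : ℚ) • (A * B) - (A * A) * (B * B) := by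
            rw [hba, mul_sub, mul_smul_comm, mul_one, sub_mul, smul_mul_assoc]
            simp only [mul_assoc]
        _ = (2 : ℚ) • (A * B) - (4 : ℚ) • 1 := by
            rw [hA, hB, smul_mul_smul_comm, one_mul]
            norm_num
    rw [h1, smul_sub, smul_smul, smul_smul]
    norm_num
  have h3 : ((tau h h' ^ 3 : Alt2 n).1 : Cl n ℚ) = ((tau h h').1 : Cl n ℚ) ^ 3 := rfl
  change ((tau h h' ^ 3 : Alt2 n).1 : Cl n ℚ) = 1
  rw [h3, hval, pow_three, neg_mul_neg, huu, neg_mul, mul_sub, huu, mul_one]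
  abel

/- an element over the same permutation as an element of order `4` -/
theorem sq_of_toPerm {x d : Alt2 n} (hd : d * d = negOne n) (h : toPerm n d = toPerm n x) :
    x * x = negOne n := by
  rcases eq_or_neg h with h1 | h1
  · rw [h1, hd]
  · rw [h1, mul_assoc, ← mul_assoc d, ← negOne_comm, mul_assoc, hd, negOne_sq, mul_one]

theorem tau_rel {a b c c' : Fin n} (hb : a ≠ b) (hc : a ≠ c) (hc' : a ≠ c') (hbc : b ≠ c)
    (hbc' : b ≠ c') (hcc : c ≠ c') :
    tau hb hc * tau hb hc' * (tau hb hc * tau hb hc') = negOne n := by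
  refine sq_of_toPerm (d := dsw hbc hc') (dsw_sq _ _ hb.symm hbc' hc.symm hcc) ?_
  rw [toPerm_dsw, map_mul, toPerm_tau, toPerm_tau, ← mul_assoc]
  congr 1
  rw [swap_comm a c]
  exact (swap_mul_swap_mul_swap hc.symm hbc.symm).symm

theorem card_alt2 (hn : 4 ≤ n) : Nat.card (Alt2 n) = n.factorial := by
  have hnt : Nontrivial (Fin n) := Fin.nontrivial_iff_two_le.2 (by omega)
  have h1 : Nat.card (toAlt n).ker = 2 := by
    obtain ⟨π, h2, h3, -, -⟩ := cover hn
    rw [Nat.card_eq_two_iff]
    refine ⟨1, ⟨negOne n, toAlt_eq_one.2 (Or.inr rfl)⟩, ?_, ?_⟩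
    · intro h
      exact negOne_ne (congrArg Subtype.val h).symm
    · ext ⟨x, hx⟩
      simp only [Set.mem_insert_iff, Set.mem_singleton_iff, Set.mem_univ, iff_true]
      rcases toAlt_eq_one.1 hx with h | h
      · exact Or.inl (Subtype.ext h)
      · exact Or.inr (Subtype.ext h)
  have h2 := Subgroup.card_eq_card_quotient_mul_card_subgroup (toAlt n).ker
  have h3 : Nat.card (Alt2 n ⧸ (toAlt n).ker) = Nat.card (alternatingGroup (Fin n)) :=
    Nat.card_congr (QuotientGroup.quotientKerEquivOfSurjective _ (toAlt_surjective n)).toEquiv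
  rw [h2, h1, h3, mul_comm, Nat.card_eq_fintype_card, two_mul_card_alternatingGroup,
    Fintype.card_perm, Fintype.card_fin]

/- generation by the lifts of the three-cycles `(a b c)`, `a`, `b` fixed -/
theorem gen_tau (hn : 5 ≤ n) {a b : Fin n} (hab : a ≠ b) (S : Subgroup (Alt2 n))
    (hS : ∀ c (hc : a ≠ c), b ≠ c → tau hab hc ∈ S) : S = ⊤ := by
  classical
  apply full_of_perm (by omega)
  set T := S.map (toPerm n) with hT
  have hst : ∀ x, a ≠ x → swap a b * swap a x ∈ T := by
    intro x hx
    by_cases hbx : b = x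
    · subst hbx
      rw [swap_mul_self]
      exact one_mem T
    · exact ⟨_, hS x hx hbx, toPerm_tau _ _⟩
  have hsw : ∀ x y, x ≠ y → swap a b * swap x y ∈ T := by
    intro x y hxy
    by_cases hx : a = x
    · subst hx
      exact hst y hxy
    by_cases hy : a = y
    · subst hy
      rw [swap_comm x a]
      exact hst x hx
    have h1 : swap x y = swap a x * swap a y * swap a x := by
      rw [swap_comm a y]
      exact (swap_mul_swap_mul_swap (Ne.symm hy) hxy.symm).symm
    have h3 : swap a b * swap x y = (swap a b * swap a x) *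
        ((swap a b * swap a y)⁻¹ * (swap a b * swap a x)) := by
      rw [h1, mul_inv_rev, swap_inv, swap_inv]
      simp only [mul_assoc]
      rw [← mul_assoc (swap a b) (swap a b), swap_mul_self, one_mul]
    rw [h3]
    exact mul_mem (hst x hx) (mul_mem (inv_mem (hst y hy)) (hst x hx))
  have hall : ∀ σ : Perm (Fin n), σ ∈ T ∨ swap a b * σ ∈ T := by
    intro σ
    induction σ using Perm.swap_induction_on with
    | one => exact Or.inl (one_mem T)
    | swap_mul f x y hxy ih =>
      rcases ih with h | h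
      · right
        rw [← mul_assoc]
        exact mul_mem (hsw x y hxy) h
      · left
        have h1 : swap x y * f = (swap a b * swap x y)⁻¹ * (swap a b * f) := by
          rw [mul_inv_rev, swap_inv, swap_inv, mul_assoc, ← mul_assoc (swap a b), swap_mul_self,
            one_mul]
        rw [h1]
        exact mul_mem (inv_mem (hsw x y hxy)) h
  intro τ hτ
  rcases hall τ with ⟨x, hx, hx'⟩ | ⟨x, hx, hx'⟩
  · exact ⟨x, hx, hx'⟩
  · exfalso
    have h1 := pr_toPerm x
    rw [hx', pr_mul, pr_swap hab, hτ] at h1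
    exact absurd h1 (by decide)

end gens

theorem pa_stm : PAStm := by
  classical
  intro n hn G _ t z hz hzz ht htt
  have h01 : (⟨0, by omega⟩ : Fin n) ≠ ⟨1, by omega⟩ := by simp
  -- the indices
  obtain ⟨m, rfl⟩ : ∃ m, n = m + 2 := ⟨n - 2, by omega⟩
  let ix : Fin m → Fin (m + 2) := fun i => ⟨i.1 + 2, by omega⟩
  have hix : ∀ i, 2 ≤ (ix i).1 := fun i => Nat.le_add_left _ _
  have hixi : Function.Injective ix := by
    intro i j hij
    have h1 : i.1 + 2 = j.1 + 2 := congrArg (fun k : Fin (m + 2) => k.1) hij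
    exact Fin.ext (by omega)
  have hixs : ∀ k : Fin (m + 2), 2 ≤ k.1 → ∃ i, ix i = k := fun k hk =>
    ⟨⟨k.1 - 2, by omega⟩, Fin.ext (by change k.1 - 2 + 2 = k.1; omega)⟩
  have h0 : ∀ k : Fin (m + 2), 2 ≤ k.1 → (⟨0, by omega⟩ : Fin (m + 2)) ≠ k := by
    rintro k hk rfl
    exact absurd hk (by norm_num)
  have h1 : ∀ k : Fin (m + 2), 2 ≤ k.1 → (⟨1, by omega⟩ : Fin (m + 2)) ≠ k := by
    rintro k hk rfl
    exact absurd hk (by norm_num)
  let T : Fin m → Alt2 (m + 2) × G := fun i => (tau h01 (h0 (ix i) (hix i)), t (ix i))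
  let Z : Alt2 (m + 2) × G := (negOne (m + 2), z)
  have hZ : ∀ g, Z * g = g * Z := fun g => Prod.ext (negOne_comm _) (hz _)
  have hZZ : Z * Z = 1 := Prod.ext negOne_sq hzz
  have hT : ∀ i, T i ^ 3 = 1 := fun i =>
    Prod.ext (tau_cube _ _ (h1 _ (hix i))) (ht _ (hix i))
  have hTT : ∀ i j, i ≠ j → T i * T j * (T i * T j) = Z := fun i j hij =>
    Prod.ext (tau_rel _ _ _ (h1 _ (hix i)) (h1 _ (hix j)) (fun h => hij (hixi h)))
      (htt _ _ (hix i) (hix j) fun h => hij (hixi h))
  obtain ⟨hfin, hcard⟩ := bound hZ hZZ m T hT hTT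
  set F := Subgroup.closure ({Z} ∪ Set.range T) with hF
  let p : F →* Alt2 (m + 2) := (MonoidHom.fst _ _).comp F.subtype
  have hp : Function.Surjective p := by
    rw [← MonoidHom.range_eq_top]
    apply gen_tau hn h01
    intro c hc hc'
    have hc2 : 2 ≤ c.1 := by
      by_contra hcon
      have h2 : c.1 = 0 ∨ c.1 = 1 := by omega
      rcases h2 with h2 | h2
      · exact hc (Fin.ext h2.symm)
      · exact hc' (Fin.ext h2.symm)
    obtain ⟨i, hi⟩ := hixs c hc2
    subst hi
    exact ⟨⟨T i, Subgroup.subset_closure (Or.inr ⟨i, rfl⟩)⟩, rfl⟩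
  have hp' : Function.Bijective p := by
    have hcF : Nat.card F = Nat.card (Alt2 (m + 2)) := by
      apply le_antisymm
      · rw [card_alt2 (by omega)]
        exact hcard
      · exact Nat.card_le_card_of_surjective p hp
    exact (Nat.bijective_iff_surjective_and_card p).2 ⟨hp, hcF⟩
  let e : Alt2 (m + 2) ≃* F := (MulEquiv.ofBijective p hp').symm
  refine ⟨(MonoidHom.snd _ _).comp (F.subtype.comp (e : Alt2 (m + 2) →* F)), ?_⟩
  rw [MonoidHom.range_comp, MonoidHom.range_comp, MonoidHom.range_eq_top.2 e.surjective,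
    ← MonoidHom.range_eq_map, Subgroup.range_subtype, hF, MonoidHom.map_closure]
  congr 1
  ext g
  constructor
  · rintro ⟨x, hx | ⟨i, rfl⟩, rfl⟩
    · left
      rw [Set.mem_singleton_iff] at hx
      rw [hx]
      rfl
    · right
      exact ⟨ix i, hix i, rfl⟩
  · rintro (hg | ⟨k, hk, rfl⟩)
    · rw [Set.mem_singleton_iff] at hg
      rw [hg]
      exact ⟨Z, Or.inl rfl, rfl⟩
    · obtain ⟨i, rfl⟩ := hixs k hk
      exact ⟨T i, Or.inr ⟨i, rfl⟩, rfl⟩

end Pool.Agent.T2H67.SA
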