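import Mathlib
import Pool.Agent.H84.L.A7_T2H67_SA_Built
import Pool.Agent.H84.L.A7_T2H67_SA_Cl
import Pool.Agent.H84.L.A7_T2H67_SA_Cl2
import Pool.Agent.H84.L.A7_T2H67_SA_FinA
import Pool.Agent.H84.L.A7_T2H67_SA_Grp
import Pool.Agent.H84.L.S8_H391R2_T4_Fam
import Pool.Agent.H84.L.S8_H391R2_T4_Nod
import Pool.Agent.H84.L.S8_H391R2_T4_Sem
import Pool.Agent.H84.L.S8_TH15_IGP_TwB
import Pool.Agent.H84.L.S8_TH444_TW_RS
import Pool.Agent.H84.L.S8_TH444_TW_RSK
import Pool.Agent.H84.L.S8_W200_IG_Fam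
import Pool.Agent.H84.L.S8_W200_IG_HF
import Pool.Agent.H84.L.S8_W200_IJ_SA



/-!
# Commuting pairs in central extensions of alternating groups
-/

set_option autoImplicit false
set_option linter.unusedSectionVars false

namespace Pool.Agent.T2H67.SA

open Equiv

section comm

variable {n : ℕ} {C : Type} [Group C] (P : C →* Perm (Fin n))

/- the elements which commute with `x` modulo the kernel -/
def Cx (x : C) : Subgroup C := (Subgroup.centralizer {P x}).comap P

theorem mem_Cx {x h : C} : h ∈ Cx P x ↔ P h * P x = P x * P h := by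
  rw [Cx, Subgroup.mem_comap, Subgroup.mem_centralizer_singleton_iff]

variable (hK : ∀ x, P x = 1 → ∀ y, x * y = y * x)

include hK in
theorem w_central {x h : C} (hh : h ∈ Cx P x) (y : C) :
    (h * x * h⁻¹ * x⁻¹) * y = y * (h * x * h⁻¹ * x⁻¹) := by
  apply hK
  rw [mem_Cx] at hh
  rw [map_mul, map_mul, map_mul, map_inv, map_inv, hh, mul_assoc (P x), mul_inv_cancel, mul_one,
    mul_inv_cancel]

/- the commutator pairing -/
def wx (x : C) : Cx P x →* C := MonoidHom.mk' (fun h => (h : C) * x * (h : C)⁻¹ * x⁻¹) (by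
  intro h h'
  have h1 := w_central P hK h'.2
  change (h : C) * h' * x * ((h : C) * h')⁻¹ * x⁻¹ =
    ((h : C) * x * (h : C)⁻¹ * x⁻¹) * ((h' : C) * x * (h' : C)⁻¹ * x⁻¹)
  rw [← h1]
  have h2 : (h : C) * h' * x * ((h : C) * h')⁻¹ * x⁻¹ =
      h * (((h' : C) * x * (h' : C)⁻¹ * x⁻¹) * (x * (h : C)⁻¹ * x⁻¹)) := by group
  rw [h2, ← mul_assoc, ← h1]
  simp only [mul_assoc])

theorem wx_apply (x : C) (h : Cx P x) :
    wx P hK x h = (h : C) * x * (h : C)⁻¹ * x⁻¹ := rfl

theorem wx_one {x : C} {h : Cx P x} : wx P hK x h = 1 ↔ (h : C) * x = x * h := by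
  rw [wx_apply, mul_inv_eq_one, mul_inv_eq_iff_eq_mul]

theorem wx_congr {x : C} {h h' : Cx P x} (hh : P h = P h') : wx P hK x h = wx P hK x h' := by
  have h1 : wx P hK x (h * h'⁻¹) = 1 := by
    rw [wx_one]
    exact hK _ (by rw [Subgroup.coe_mul, Subgroup.coe_inv, map_mul, map_inv, hh,
      mul_inv_cancel]) x
  rw [map_mul, map_inv, mul_inv_eq_one] at h1
  exact h1

variable (hPs : ∀ σ, pr σ = 0 → ∃ x, P x = σ) (hPe : ∀ x, pr (P x) = 0)

/- the points outside of the three-cycle -/
abbrev YY (a b c : Fin n) : Type := {y : Fin n // y ≠ a ∧ y ≠ b ∧ y ≠ c}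

theorem card_YY {a b c : Fin n} (hab : a ≠ b) (hac : a ≠ c) (hbc : b ≠ c) :
    Fintype.card (YY a b c) + 3 = n := by
  classical
  have h1 : Fintype.card (YY a b c) = (Finset.univ \ {a, b, c} : Finset (Fin n)).card := by
    rw [Fintype.card_subtype]
    congr 1
    ext y
    simp only [Finset.mem_filter, Finset.mem_univ, true_and, Finset.mem_sdiff, Finset.mem_insert,
      Finset.mem_singleton, not_or]
  have h2 : ({a, b, c} : Finset (Fin n)).card = 3 := Finset.card_eq_three.2 ⟨a, b, c, hab, hac,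
    hbc, rfl⟩
  have h3 := Finset.card_sdiff_add_card_inter (Finset.univ : Finset (Fin n)) {a, b, c}
  rw [Finset.univ_inter, h2, Finset.card_univ, Fintype.card_fin] at h3
  rw [h1]
  exact h3

theorem ofSubtype_fix {a b c : Fin n} (σ : Perm (YY a b c)) :
    Perm.ofSubtype σ a = a ∧ Perm.ofSubtype σ b = b ∧ Perm.ofSubtype σ c = c := by
  refine ⟨?_, ?_, ?_⟩ <;> apply Perm.ofSubtype_apply_of_not_mem
  · exact fun h => h.1 rfl
  · exact fun h => h.2.1 rfl
  · exact fun h => h.2.2 rfl

/- permutations fixing `a`, `b`, `c` commute with the three-cycle -/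
theorem fix_comm {a b c : Fin n} {σ : Perm (Fin n)} (ha : σ a = a) (hb : σ b = b)
    (hc : σ c = c) : σ * (swap a b * swap a c) = (swap a b * swap a c) * σ := by
  have h1 : ∀ x y : Fin n, σ x = x → σ y = y → σ * swap x y = swap x y * σ := by
    intro x y hx hy
    have h2 := Equiv.mul_swap_eq_swap_mul σ x y
    rw [hx, hy] at h2
    exact h2
  rw [← mul_assoc, h1 a b ha hb, mul_assoc, h1 a c ha hc, mul_assoc]

include hPs in
theorem wY {x : C} {a b c : Fin n} (hab : a ≠ b) (hac : a ≠ c) (hbc : b ≠ c) (h5 : 5 ≤ n)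
    (hx : P x = swap a b * swap a c)
    (h67 : n = 6 ∨ n = 7 → ∀ z : C, (∀ y, z * y = y * z) → z ^ 3 = 1 → z = 1) :
    ∀ h : Cx P x, P h a = a → P h b = b → P h c = c → pr (P h) = 0 → wx P hK x h = 1 := by
  classical
  -- lifts
  have hl : ∀ σ : alternatingGroup (YY a b c), ∃ h : Cx P x, P h = Perm.ofSubtype σ.1 := by
    intro σ
    obtain ⟨h, hh⟩ := hPs (Perm.ofSubtype σ.1) (by
      rw [pr_eq_zero, Perm.mem_alternatingGroup, Perm.sign_ofSubtype]
      exact σ.2)
    refine ⟨⟨h, ?_⟩, hh⟩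
    rw [mem_Cx, hh, hx]
    obtain ⟨h1, h2, h3⟩ := ofSubtype_fix σ.1
    exact fix_comm h1 h2 h3
  choose l hl' using hl
  let wY : alternatingGroup (YY a b c) →* C := MonoidHom.mk' (fun σ => wx P hK x (l σ)) (by
    intro σ τ
    rw [← map_mul]
    apply wx_congr
    rw [hl', Subgroup.coe_mul, Subgroup.coe_mul, map_mul, map_mul, hl', hl'])
  have hcen : ∀ σ y, wY σ * y = y * wY σ := fun σ y => w_central P hK (l σ).2 y
  have hcard := card_YY hab hac hbc
  have hone : ∀ σ, wY σ = 1 := by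
    by_cases h8 : 5 ≤ Fintype.card (YY a b c)
    · have e : alternatingGroup (Fin (Fintype.card (YY a b c))) ≃*
          alternatingGroup (YY a b c) := (Fintype.equivFin (YY a b c)).symm.altCongrHom
      have h1 : wY.comp (e : alternatingGroup (Fin (Fintype.card (YY a b c))) →*
          alternatingGroup (YY a b c)) = 1 := by
        apply perfect_hom (alt_perfect' h8)
        intro σ
        rw [MonoidHom.one_apply, inv_one, mul_one, Subgroup.mem_center_iff]
        intro g
        exact (hcen _ g).symm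
      intro σ
      obtain ⟨τ, rfl⟩ := e.surjective σ
      exact DFunLike.congr_fun h1 τ
    · have h1 : alternatingGroup (YY a b c) ≤ (wY.ker).map (alternatingGroup (YY a b c)).subtype := by
        conv_lhs => rw [← Perm.closure_three_cycles_eq_alternating]
        rw [Subgroup.closure_le]
        intro τ hτ
        have hτ3 : Perm.IsThreeCycle τ := hτ
        refine ⟨⟨τ, hτ3.mem_alternatingGroup⟩, ?_, rfl⟩
        rw [SetLike.mem_coe, MonoidHom.mem_ker]
        have h2 : n = 6 ∨ n = 7 := by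
          have h3 : 3 ≤ Fintype.card (YY a b c) := by
            rw [← hτ3.card_support]
            exact Finset.card_le_univ _
          omega
        apply h67 h2 _ (hcen _)
        rw [← map_pow]
        have h4 : (⟨τ, hτ3.mem_alternatingGroup⟩ : alternatingGroup (YY a b c)) ^ 3 = 1 := by
          apply Subtype.ext
          have h5 := pow_orderOf_eq_one τ
          rw [hτ3.orderOf] at h5
          exact h5
        rw [h4, map_one]
      rintro ⟨σ, hσ⟩
      obtain ⟨σ', hσ', hσσ⟩ := h1 hσ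
      have h2 : σ' = ⟨σ, hσ⟩ := Subtype.ext hσσ
      rw [← h2]
      exact hσ'
  intro h ha hb hc he
  have hp : ∀ y : Fin n, ((P h) y ≠ a ∧ (P h) y ≠ b ∧ (P h) y ≠ c) ↔ (y ≠ a ∧ y ≠ b ∧ y ≠ c) := by
    intro y
    have h1 : ∀ d : Fin n, P h d = d → ((P h) y ≠ d ↔ y ≠ d) := by
      intro d hd
      constructor
      · rintro h2 rfl
        exact h2 hd
      · intro h2 h3
        apply h2
        apply (P h).injective
        rw [h3, hd]
    rw [h1 a ha, h1 b hb, h1 c hc]
  have hof : Perm.ofSubtype (Perm.subtypePerm (P h) hp : Perm (YY a b c)) = P h := by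
    apply Perm.ofSubtype_subtypePerm
    intro y hy
    refine ⟨?_, ?_, ?_⟩ <;> rintro rfl <;> contradiction
  have hσ : (Perm.subtypePerm (P h) hp : Perm (YY a b c)) ∈ alternatingGroup (YY a b c) := by
    rw [Perm.mem_alternatingGroup, ← Perm.sign_ofSubtype, hof, ← Perm.mem_alternatingGroup,
      ← pr_eq_zero]
    exact he
  have h1 := hone ⟨_, hσ⟩
  rw [← h1]
  apply wx_congr
  rw [hl', hof]

end comm

end Pool.Agent.T2H67.SA
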