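import Mathlib
import Pool.Agent.H84.L.A7_T2H67_SA_Cl
import Pool.Agent.H84.L.A7_T2H67_SA_Cl2
import Pool.Agent.H84.L.A7_T2H67_SA_Grp
import Pool.Agent.H84.L.A7_T2H67_SA_PA
import Pool.Agent.H84.L.A7_T2H67_SA_PB1
import Pool.Agent.H84.L.A7_T2H67_SA_SchurStm
import Pool.Agent.H84.L.S8_H391R2_T4_Fam
import Pool.Agent.H84.L.S8_H391R2_T4_Nod
import Pool.Agent.H84.L.S8_H391R2_T4_Sem
import Pool.Agent.H84.L.S8_TH15_IGP_TwB
import Pool.Agent.H84.L.S8_TH444_TW_RS
import Pool.Agent.H84.L.S8_TH444_TW_RSK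
import Pool.Agent.H84.L.S8_W200_IG_Fam
import Pool.Agent.H84.L.S8_W200_IG_HF
import Pool.Agent.H84.L.S8_W200_IJ_SA



/-!
# Perfect central extensions of alternating groups
-/

set_option autoImplicit false
set_option linter.unusedSectionVars false

namespace Pool.Agent.T2H67.SA

open Equiv
open scoped commutatorElement

section cyc

variable {n : ℕ}

/- three-cycles -/
def Cyc (γ : Perm (Fin n)) : Prop :=
  ∃ a b c : Fin n, a ≠ b ∧ a ≠ c ∧ b ≠ c ∧ γ = swap a b * swap a c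

theorem cyc_pr {γ : Perm (Fin n)} (h : Cyc γ) : pr γ = 0 := by
  obtain ⟨a, b, c, hab, hac, hbc, rfl⟩ := h
  rw [pr_mul, pr_swap hab, pr_swap hac]
  rfl

theorem cyc_cube {γ : Perm (Fin n)} (h : Cyc γ) : γ * γ * γ = 1 := by
  obtain ⟨a, b, c, hab, hac, hbc, rfl⟩ := h
  have h1 := pow_orderOf_eq_one (swap a b * swap a c)
  rw [(Perm.isThreeCycle_swap_mul_swap_same hab hac hbc).orderOf, pow_three'] at h1
  exact h1

theorem conj_swap (s : Perm (Fin n)) (a b : Fin n) : s * swap a b * s⁻¹ = swap (s a) (s b) := by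
  rw [Equiv.mul_swap_eq_swap_mul, mul_assoc, mul_inv_cancel, mul_one]

theorem conj_cyc (s : Perm (Fin n)) (a b c : Fin n) :
    s * (swap a b * swap a c) * s⁻¹ = swap (s a) (s b) * swap (s a) (s c) := by
  rw [← conj_swap, ← conj_swap]
  group

theorem cyc_conj {γ : Perm (Fin n)} (h : Cyc γ) (s : Perm (Fin n)) : Cyc (s * γ * s⁻¹) := by
  obtain ⟨a, b, c, hab, hac, hbc, rfl⟩ := h
  exact ⟨s a, s b, s c, s.injective.ne hab, s.injective.ne hac, s.injective.ne hbc,
    conj_cyc s a b c⟩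

theorem cyc_inv {γ : Perm (Fin n)} (h : Cyc γ) : Cyc γ⁻¹ := by
  obtain ⟨a, b, c, hab, hac, hbc, rfl⟩ := h
  exact ⟨a, c, b, hac, hab, hbc.symm, by rw [mul_inv_rev, swap_inv, swap_inv]⟩

theorem cyc_invert (h5 : 5 ≤ n) {γ : Perm (Fin n)} (h : Cyc γ) :
    ∃ s, pr s = 0 ∧ s * γ * s⁻¹ = γ⁻¹ := by
  classical
  obtain ⟨a, b, c, hab, hac, hbc, rfl⟩ := h
  have h1 := card_YY hab hac hbc
  have h2 : 1 < Fintype.card (YY a b c) := by omega
  obtain ⟨⟨e, hea, heb, hec⟩, ⟨f, hfa, hfb, hfc⟩, hef⟩ := Fintype.exists_pair_of_one_lt_card h2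
  have hef' : e ≠ f := fun h => hef (Subtype.ext h)
  refine ⟨swap b c * swap e f, ?_, ?_⟩
  · rw [pr_mul, pr_swap hbc, pr_swap hef']
    rfl
  · rw [conj_cyc, mul_inv_rev, swap_inv, swap_inv]
    have e1 : (swap b c * swap e f) a = a := by
      rw [Perm.mul_apply, swap_apply_of_ne_of_ne hea.symm hfa.symm, swap_apply_of_ne_of_ne hab hac]
    have e2 : (swap b c * swap e f) b = c := by
      rw [Perm.mul_apply, swap_apply_of_ne_of_ne heb.symm hfb.symm, swap_apply_left]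
    have e3 : (swap b c * swap e f) c = b := by
      rw [Perm.mul_apply, swap_apply_of_ne_of_ne hec.symm hfc.symm, swap_apply_right]
    rw [e1, e2, e3]

end cyc

section canonical

variable {n : ℕ} (h5 : 5 ≤ n) {C : Type} [Group C] (P : C →* Perm (Fin n))
  (hK : ∀ x, P x = 1 → ∀ y, x * y = y * x)
  (hPs : ∀ σ, pr σ = 0 → ∃ x, P x = σ) (hPe : ∀ x, pr (P x) = 0)
  (h67 : n = 6 ∨ n = 7 → ∀ z : C, (∀ y, z * y = y * z) → z ^ 3 = 1 → z = 1)

include h5 hK hPs hPe h67 in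
theorem comm3 {x : C} (hx : Cyc (P x)) {h : C} (hh : P h * P x = P x * P h) : h * x = x * h := by
  classical
  obtain ⟨a, b, c, hab, hac, hbc, hγ⟩ := hx
  have ga : P x a = c := by
    rw [hγ, Perm.mul_apply, swap_apply_left, swap_apply_of_ne_of_ne hac.symm hbc.symm]
  have gc : P x c = b := by
    rw [hγ, Perm.mul_apply, swap_apply_right, swap_apply_left]
  have gb : P x b = a := by
    rw [hγ, Perm.mul_apply, swap_apply_of_ne_of_ne hab.symm hbc, swap_apply_right]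
  have hap : ∀ k : C, P k * P x = P x * P k → ∀ y, P k (P x y) = P x (P k y) := by
    intro k hk y
    exact congrArg (fun s : Perm (Fin n) => s y) hk
  have key : ∀ k : Cx P x, P k a = a → wx P hK x k = 1 := by
    intro k hk
    have hkc := (mem_Cx P).1 k.2
    have h1 : P k c = c := by
      rw [← ga, hap k hkc, hk]
    have h2 : P k b = b := by
      rw [← gc, hap k hkc, h1]
    exact wY P hK hPs hab hac hbc h5 hγ h67 k hk h2 h1 (hPe _)
  have hxx : x ∈ Cx P x := (mem_Cx P).2 rfl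
  have hwx : wx P hK x ⟨x, hxx⟩ = 1 := (wx_one P hK).2 rfl
  have hhC : h ∈ Cx P x := (mem_Cx P).2 hh
  have hgoal : wx P hK x ⟨h, hhC⟩ = 1 := by
    by_cases e1 : P h a = a
    · exact key _ e1
    by_cases e2 : P h a = c
    · have h1 := key (⟨x, hxx⟩⁻¹ * ⟨h, hhC⟩) (by
        change P (x⁻¹ * h) a = a
        rw [map_mul, map_inv, Perm.mul_apply, e2, Perm.inv_eq_iff_eq, ga])
      rw [map_mul, map_inv, hwx, inv_one, one_mul] at h1
      exact h1
    by_cases e3 : P h a = b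
    · have h1 := key (⟨x, hxx⟩ * ⟨h, hhC⟩) (by
        change P (x * h) a = a
        rw [map_mul, Perm.mul_apply, e3, gb])
      rw [map_mul, hwx, one_mul] at h1
      exact h1
    exfalso
    have h1 : P x (P h a) = P h a := by
      rw [hγ, Perm.mul_apply, swap_apply_of_ne_of_ne e1 e2, swap_apply_of_ne_of_ne e1 e3]
    rw [← hap h hh, ga] at h1
    exact hac ((P h).injective h1).symm
  exact (wx_one P hK).1 hgoal

/- `t` is the canonical lift of `γ` -/
def IsT (γ : Perm (Fin n)) (t : C) : Prop :=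
  ∀ x g, P x = γ → P g * γ * (P g)⁻¹ = γ⁻¹ → g * x * g⁻¹ * x⁻¹ = t

include h5 hPs in
theorem data {γ : Perm (Fin n)} (h : Cyc γ) : ∃ x g, P x = γ ∧ P g * γ * (P g)⁻¹ = γ⁻¹ := by
  obtain ⟨x, hx⟩ := hPs γ (cyc_pr h)
  obtain ⟨s, hs, hs'⟩ := cyc_invert h5 h
  obtain ⟨g, hg⟩ := hPs s hs
  exact ⟨x, g, hx, by rw [hg, hs']⟩

include h5 hK hPs hPe h67 in
theorem exists_isT {γ : Perm (Fin n)} (h : Cyc γ) : ∃ t, IsT P γ t := by
  obtain ⟨x₀, g₀, hx₀, hg₀⟩ := data h5 P hPs h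
  refine ⟨g₀ * x₀ * g₀⁻¹ * x₀⁻¹, fun x g hx hg => ?_⟩
  -- the two differences
  have hk : ∀ y, (x₀⁻¹ * x) * y = y * (x₀⁻¹ * x) := hK _ (by
    rw [map_mul, map_inv, hx, hx₀, inv_mul_cancel])
  have hh : (g₀⁻¹ * g) * x₀ = x₀ * (g₀⁻¹ * g) := by
    refine comm3 h5 P hK hPs hPe h67 (by rw [hx₀]; exact h) ?_
    rw [map_mul, map_inv, hx₀]
    have h1 : P g * γ = P g₀ * γ * (P g₀)⁻¹ * P g := by
      rw [hg₀, ← hg, inv_mul_cancel_right]
    rw [mul_assoc, h1]
    group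
  have e1 : x = x₀ * (x₀⁻¹ * x) := by group
  have e2 : g = g₀ * (g₀⁻¹ * g) := by group
  generalize x₀⁻¹ * x = k at hk e1
  generalize g₀⁻¹ * g = m at hh e2
  subst e1 e2
  calc g₀ * m * (x₀ * k) * (g₀ * m)⁻¹ * (x₀ * k)⁻¹
      = g₀ * (m * x₀) * (k * m⁻¹) * g₀⁻¹ * k⁻¹ * x₀⁻¹ := by group
    _ = g₀ * x₀ * (k * g₀⁻¹) * k⁻¹ * x₀⁻¹ := by rw [hh, hk]; group
    _ = g₀ * x₀ * g₀⁻¹ * x₀⁻¹ := by rw [hk]; group

include h5 hPs in
theorem isT_unique {γ : Perm (Fin n)} (h : Cyc γ) {t t' : C} (ht : IsT P γ t)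
    (ht' : IsT P γ t') : t = t' := by
  obtain ⟨x, g, hx, hg⟩ := data h5 P hPs h
  rw [← ht x g hx hg, ← ht' x g hx hg]

include h5 hPs in
theorem isT_map {γ : Perm (Fin n)} (h : Cyc γ) {t : C} (ht : IsT P γ t) : P t = γ := by
  obtain ⟨x, g, hx, hg⟩ := data h5 P hPs h
  rw [← ht x g hx hg, map_mul, map_mul, map_mul, map_inv, map_inv, hx, hg]
  have h1 := cyc_cube h
  have h2 : γ⁻¹ = γ * γ := by rw [inv_eq_iff_mul_eq_one, ← mul_assoc, h1]
  rw [h2, ← mul_assoc, h1, one_mul]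

theorem isT_conj {γ : Perm (Fin n)} {t : C} (ht : IsT P γ t) (k : C) :
    IsT P (P k * γ * (P k)⁻¹) (k * t * k⁻¹) := by
  intro x g hx hg
  have h1 := ht (k⁻¹ * x * k) (k⁻¹ * g * k) (by
    rw [map_mul, map_mul, map_inv, hx]
    group) (by
    rw [map_mul, map_mul, map_inv]
    have h2 : P g * P k * γ = (P k * γ⁻¹ * (P k)⁻¹) * P g * P k := by
      have h3 : (P k * γ * (P k)⁻¹)⁻¹ = P k * γ⁻¹ * (P k)⁻¹ := by group
      rw [h3] at hg
      rw [← hg]
      group
    calc (P k)⁻¹ * P g * P k * γ * ((P k)⁻¹ * P g * P k)⁻¹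
        = (P k)⁻¹ * (P g * P k * γ) * ((P k)⁻¹ * P g * P k)⁻¹ := by group
      _ = γ⁻¹ := by rw [h2]; group)
  rw [← h1]
  group

include h5 hK hPs hPe h67 in
theorem isT_inv {γ : Perm (Fin n)} (h : Cyc γ) {t : C} (ht : IsT P γ t) :
    IsT P γ⁻¹ t⁻¹ := by
  intro x g hx hg
  have hg' : P g * γ * (P g)⁻¹ = γ⁻¹ := by
    have h2 : P g * γ * (P g)⁻¹ = (P g * γ⁻¹ * (P g)⁻¹)⁻¹ := by group
    rw [h2, hg, inv_inv]
  have h1 := ht x⁻¹ g (by rw [map_inv, hx, inv_inv]) hg'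
  rw [← h1]
  -- `y = g x g⁻¹` commutes with `x`
  have h3 : x * (g * x⁻¹ * g⁻¹) = (g * x⁻¹ * g⁻¹) * x := by
    have h4 : Cyc (P (g * x⁻¹ * g⁻¹)) := by
      rw [map_mul, map_mul, map_inv, map_inv, hx, inv_inv]
      exact cyc_conj h _
    refine comm3 h5 P hK hPs hPe h67 h4 ?_
    rw [map_mul, map_mul, map_inv, map_inv, hx, inv_inv, hg']
  calc g * x * g⁻¹ * x⁻¹ = (x * (g * x⁻¹ * g⁻¹))⁻¹ := by group
    _ = (g * x⁻¹ * g⁻¹ * x⁻¹⁻¹)⁻¹ := by rw [h3, inv_inv]

include h5 hK hPs hPe h67 in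
theorem isT_cube {γ : Perm (Fin n)} (h : Cyc γ) {t : C} (ht : IsT P γ t) : t ^ 3 = 1 := by
  obtain ⟨x, g, hx, hg⟩ := data h5 P hPs h
  have h1 := ht t g (isT_map h5 P hPs h ht) hg
  have h2 : g * t * g⁻¹ = t⁻¹ := by
    have h3 := isT_conj P ht g
    rw [hg] at h3
    exact isT_unique h5 P hPs (cyc_inv h) h3 (isT_inv h5 P hK hPs hPe h67 h ht)
  rw [h2] at h1
  have h4 : t * (t⁻¹ * t⁻¹) = t * t := by rw [h1]
  rw [mul_inv_cancel_left] at h4
  rw [pow_three, ← h4, mul_inv_cancel]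

end canonical

theorem pb_stm (hPA : PAStm) : PBStm := by
  classical
  intro n h5 C _ π hπ hker hperf h67'
  let P : C →* Perm (Fin n) := (alternatingGroup (Fin n)).subtype.comp π
  have hK : ∀ x, P x = 1 → ∀ y, x * y = y * x := by
    intro x hx y
    have h1 : x ∈ π.ker := Subtype.ext hx
    exact (Subgroup.mem_center_iff.1 (hker h1) y).symm
  have hPs : ∀ σ, pr σ = 0 → ∃ x, P x = σ := by
    intro σ hσ
    obtain ⟨x, hx⟩ := hπ ⟨σ, pr_eq_zero.1 hσ⟩
    exact ⟨x, congrArg Subtype.val hx⟩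
  have hPe : ∀ x, pr (P x) = 0 := fun x => pr_eq_zero.2 (π x).2
  have h67 : n = 6 ∨ n = 7 → ∀ z : C, (∀ y, z * y = y * z) → z ^ 3 = 1 → z = 1 :=
    fun h z hz => h67' h z (Subgroup.mem_center_iff.2 fun y => (hz y).symm)
  set p0 : Fin n := ⟨0, by omega⟩ with hp0
  set p1 : Fin n := ⟨1, by omega⟩ with hp1
  have h01 : p0 ≠ p1 := by simp [hp0, hp1]
  have hn0 : ∀ i : Fin n, 2 ≤ i.1 → p0 ≠ i := by
    rintro i hi rfl
    exact absurd hi (by norm_num [hp0])
  have hn1 : ∀ i : Fin n, 2 ≤ i.1 → p1 ≠ i := by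
    rintro i hi rfl
    exact absurd hi (by norm_num [hp1])
  have hcyc : ∀ i : Fin n, 2 ≤ i.1 → Cyc (swap p0 p1 * swap p0 i) := fun i hi =>
    ⟨p0, p1, i, h01, hn0 i hi, hn1 i hi, rfl⟩
  -- the canonical lifts
  have hex : ∀ i : Fin n, ∃ t : C, 2 ≤ i.1 → IsT P (swap p0 p1 * swap p0 i) t := by
    intro i
    by_cases hi : 2 ≤ i.1
    · obtain ⟨t, ht⟩ := exists_isT h5 P hK hPs hPe h67 (hcyc i hi)
      exact ⟨t, fun _ => ht⟩
    · exact ⟨1, fun h => absurd h hi⟩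
  choose t ht using hex
  have hmap : ∀ i : Fin n, 2 ≤ i.1 → P (t i) = swap p0 p1 * swap p0 i := fun i hi =>
    isT_map h5 P hPs (hcyc i hi) (ht i hi)
  -- the squares
  have hPij : ∀ i j : Fin n, 2 ≤ i.1 → 2 ≤ j.1 → i ≠ j →
      P (t i * t j) = swap p1 i * swap p0 j := by
    intro i j hi hj hij
    rw [map_mul, hmap i hi, hmap j hj, ← mul_assoc]
    congr 1
    rw [swap_comm p0 i]
    exact swap_mul_swap_mul_swap (hn0 i hi).symm (hn1 i hi).symm
  have hzc : ∀ i j : Fin n, 2 ≤ i.1 → 2 ≤ j.1 → i ≠ j → ∀ y,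
      t i * t j * (t i * t j) * y = y * (t i * t j * (t i * t j)) := by
    intro i j hi hj hij
    apply hK
    rw [map_mul, hPij i j hi hj hij]
    have h1 : swap p1 i * swap p0 j = swap p0 j * swap p1 i := by
      have h2 := Equiv.mul_swap_eq_swap_mul (swap p1 i) p0 j
      rw [swap_apply_of_ne_of_ne h01 (hn0 i hi), swap_apply_of_ne_of_ne (hn1 j hj).symm
        hij.symm] at h2
      exact h2
    nth_rewrite 2 [h1]
    rw [mul_assoc, ← mul_assoc (swap p0 j), swap_mul_self, one_mul, swap_mul_self]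
  -- conjugation of the lifts by elements over permutations fixing `0` and `1`
  have hconj : ∀ (g : C) (i k : Fin n), 2 ≤ i.1 → 2 ≤ k.1 → P g p0 = p0 → P g p1 = p1 →
      P g i = k → g * t i * g⁻¹ = t k := by
    intro g i k hi hk h0 h1 hik
    refine isT_unique h5 P hPs (hcyc k hk) ?_ (ht k hk)
    have h2 := isT_conj P (ht i hi) g
    rw [conj_cyc, h0, h1, hik] at h2
    exact h2
  have hsq : ∀ i j : Fin n, 2 ≤ i.1 → 2 ≤ j.1 → i ≠ j →
      (t i * t j * (t i * t j)) * (t i * t j * (t i * t j)) = 1 := by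
    intro i j hi hj hij
    obtain ⟨g, hg⟩ := hPs (swap p0 p1 * swap i j) (by
      rw [pr_mul, pr_swap h01, pr_swap hij]
      rfl)
    have e0 : P g p0 = p1 := by
      rw [hg, Perm.mul_apply, swap_apply_of_ne_of_ne (hn0 i hi) (hn0 j hj), swap_apply_left]
    have e1 : P g p1 = p0 := by
      rw [hg, Perm.mul_apply, swap_apply_of_ne_of_ne (hn1 i hi) (hn1 j hj), swap_apply_right]
    have ei : P g i = j := by
      rw [hg, Perm.mul_apply, swap_apply_left, swap_apply_of_ne_of_ne (hn0 j hj).symm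
        (hn1 j hj).symm]
    have ej : P g j = i := by
      rw [hg, Perm.mul_apply, swap_apply_right, swap_apply_of_ne_of_ne (hn0 i hi).symm
        (hn1 i hi).symm]
    -- `swap p1 p0 * swap p1 k = (swap p0 p1 * swap p0 k)⁻¹`
    have hinv : ∀ k : Fin n, 2 ≤ k.1 →
        swap p1 p0 * swap p1 k = (swap p0 p1 * swap p0 k)⁻¹ := by
      intro k hk
      rw [mul_inv_rev, swap_inv, swap_inv, swap_comm p1 p0]
      have h1 : swap p0 k * swap p0 p1 * swap p0 k = swap k p1 := by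
        rw [swap_comm p0 p1]
        exact swap_mul_swap_mul_swap h01.symm (hn1 k hk)
      have h2 : swap p0 p1 * swap p1 k * swap p0 p1 = swap p0 k := by
        rw [swap_comm p1 k]
        have h3 := swap_mul_swap_mul_swap (x := k) (y := p1) (z := p0) (hn1 k hk).symm
          (hn0 k hk).symm
        rw [swap_comm p1 p0] at h3
        exact h3
      rw [← h2]
      rw [mul_assoc (swap p0 p1 * swap p1 k), swap_mul_self, mul_one]
    have hgi : g * t i * g⁻¹ = (t j)⁻¹ := by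
      refine isT_unique h5 P hPs (cyc_inv (hcyc j hj)) ?_
        (isT_inv h5 P hK hPs hPe h67 (hcyc j hj) (ht j hj))
      have h2 := isT_conj P (ht i hi) g
      rw [conj_cyc, e0, e1, ei, hinv j hj] at h2
      exact h2
    have hgj : g * t j * g⁻¹ = (t i)⁻¹ := by
      refine isT_unique h5 P hPs (cyc_inv (hcyc i hi)) ?_
        (isT_inv h5 P hK hPs hPe h67 (hcyc i hi) (ht i hi))
      have h2 := isT_conj P (ht j hj) g
      rw [conj_cyc, e0, e1, ej, hinv i hi] at h2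
      exact h2
    have hgu : g * (t i * t j) * g⁻¹ = (t i * t j)⁻¹ := by
      have h2 : g * (t i * t j) * g⁻¹ = (g * t i * g⁻¹) * (g * t j * g⁻¹) := by group
      rw [h2, hgi, hgj, mul_inv_rev]
    have h3 : t i * t j * (t i * t j) = (t i * t j * (t i * t j))⁻¹ := by
      have h4 : g * (t i * t j * (t i * t j)) * g⁻¹ = t i * t j * (t i * t j) := by
        rw [← hzc i j hi hj hij g, mul_inv_cancel_right]
      have h5 : g * (t i * t j * (t i * t j)) * g⁻¹ =
          (g * (t i * t j) * g⁻¹) * (g * (t i * t j) * g⁻¹) := by group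
      rw [h5, hgu] at h4
      calc t i * t j * (t i * t j) = (t i * t j)⁻¹ * (t i * t j)⁻¹ := h4.symm
        _ = (t i * t j * (t i * t j))⁻¹ := by group
    nth_rewrite 2 [h3]
    rw [mul_inv_cancel]
  -- all squares agree
  have hsymm : ∀ i j : Fin n, 2 ≤ i.1 → 2 ≤ j.1 → i ≠ j →
      t j * t i * (t j * t i) = t i * t j * (t i * t j) := by
    intro i j hi hj hij
    have h1 : t j * t i * (t j * t i) = (t i)⁻¹ * (t i * t j * (t i * t j)) * t i := by group
    rw [h1, mul_assoc, hzc i j hi hj hij, inv_mul_cancel_left]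
  have hall : ∀ i j k l : Fin n, 2 ≤ i.1 → 2 ≤ j.1 → i ≠ j → 2 ≤ k.1 → 2 ≤ l.1 → k ≠ l →
      t k * t l * (t k * t l) = t i * t j * (t i * t j) := by
    intro i j k l hi hj hij hk hl hkl
    set σ : Perm (Fin n) := swap (swap i k j) l * swap i k with hσ
    have hj' : 2 ≤ (swap i k j).1 := by
      by_cases h1 : j = k
      · rw [h1, swap_apply_right]
        exact hi
      · rw [swap_apply_of_ne_of_ne hij.symm h1]
        exact hj
    have hj'k : k ≠ swap i k j := by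
      intro h1
      apply hij
      apply (swap i k).injective
      rw [swap_apply_left]
      exact h1
    have s0 : σ p0 = p0 := by
      rw [hσ, Perm.mul_apply, swap_apply_of_ne_of_ne (hn0 i hi) (hn0 k hk),
        swap_apply_of_ne_of_ne (hn0 _ hj') (hn0 l hl)]
    have s1 : σ p1 = p1 := by
      rw [hσ, Perm.mul_apply, swap_apply_of_ne_of_ne (hn1 i hi) (hn1 k hk),
        swap_apply_of_ne_of_ne (hn1 _ hj') (hn1 l hl)]
    have si : σ i = k := by
      rw [hσ, Perm.mul_apply, swap_apply_left, swap_apply_of_ne_of_ne hj'k hkl]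
    have sj : σ j = l := by
      rw [hσ, Perm.mul_apply, swap_apply_left]
    -- the conclusion from an even permutation
    have hfin : ∀ (τ : Perm (Fin n)) (k' l' : Fin n), pr τ = 0 → τ p0 = p0 → τ p1 = p1 →
        τ i = k' → τ j = l' → 2 ≤ k'.1 → 2 ≤ l'.1 →
        t k' * t l' * (t k' * t l') = t i * t j * (t i * t j) := by
      intro τ k' l' hτ t0 t1 ti tj hk' hl'
      obtain ⟨g, hg⟩ := hPs τ hτ
      have h1 := hconj g i k' hi hk' (by rw [hg, t0]) (by rw [hg, t1]) (by rw [hg, ti])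
      have h2 := hconj g j l' hj hl' (by rw [hg, t0]) (by rw [hg, t1]) (by rw [hg, tj])
      rw [← h1, ← h2]
      have h3 : g * t i * g⁻¹ * (g * t j * g⁻¹) * (g * t i * g⁻¹ * (g * t j * g⁻¹)) =
          g * (t i * t j * (t i * t j)) * g⁻¹ := by group
      rw [h3, ← hzc i j hi hj hij g, mul_inv_cancel_right]
    rcases zmod2 (pr σ) with hp | hp
    · exact hfin σ k l hp s0 s1 si sj hk hl
    · have h1 := hfin (swap k l * σ) l k (by
        rw [pr_mul, pr_swap hkl, hp]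
        rfl) (by rw [Perm.mul_apply, s0, swap_apply_of_ne_of_ne (hn0 k hk) (hn0 l hl)])
        (by rw [Perm.mul_apply, s1, swap_apply_of_ne_of_ne (hn1 k hk) (hn1 l hl)])
        (by rw [Perm.mul_apply, si, swap_apply_left])
        (by rw [Perm.mul_apply, sj, swap_apply_right]) hl hk
      rw [hsymm l k hl hk hkl.symm]
      exact h1
  -- the presentation
  set q2 : Fin n := ⟨2, by omega⟩ with hq2
  set q3 : Fin n := ⟨3, by omega⟩ with hq3
  have h23 : q2 ≠ q3 := by simp [hq2, hq3]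
  have hq2' : 2 ≤ q2.1 := le_refl 2
  have hq3' : 2 ≤ q3.1 := by norm_num [hq3]
  obtain ⟨f, hf⟩ := hPA n h5 C t (t q2 * t q3 * (t q2 * t q3))
    (hzc q2 q3 hq2' hq3' h23) (hsq q2 q3 hq2' hq3' h23)
    (fun i hi => isT_cube h5 P hK hPs hPe h67 (hcyc i hi) (ht i hi))
    (fun i j hi hj hij => hall q2 q3 i j hq2' hq3' h23 hi hj hij)
  refine ⟨f, ?_⟩
  rw [← MonoidHom.range_eq_top]
  -- the range covers the alternating group
  have hti : ∀ i : Fin n, 2 ≤ i.1 → t i ∈ f.range := by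
    intro i hi
    rw [hf]
    exact Subgroup.subset_closure (Or.inr ⟨i, hi, rfl⟩)
  have hcov : ∀ x : C, ∃ y ∈ f.range, P y = P x := by
    intro x
    -- transfer to the double cover
    let S : Subgroup (Alt2 n) := ((f.range).map P).comap (toPerm n)
    have hS : S = ⊤ := by
      apply gen_tau h5 h01
      intro c hc hc'
      have hc2 : 2 ≤ c.1 := by
        by_contra hcon
        have h2 : c.1 = 0 ∨ c.1 = 1 := by omega
        rcases h2 with h2 | h2
        · exact hc (Fin.ext h2.symm)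
        · exact hc' (Fin.ext h2.symm)
      refine ⟨t c, hti c hc2, ?_⟩
      rw [hmap c hc2, toPerm_tau]
    obtain ⟨a, ha⟩ := toPerm_surj (hPe x)
    have h1 : a ∈ S := by
      rw [hS]
      trivial
    obtain ⟨y, hy, hy'⟩ := h1
    exact ⟨y, hy, by rw [hy', ha]⟩
  rw [eq_top_iff, ← hperf, commutator_def, Subgroup.commutator_le]
  intro x _ y _
  obtain ⟨x', hx', hxx⟩ := hcov x
  obtain ⟨y', hy', hyy⟩ := hcov y
  have h1 : ⁅x, y⁆ = ⁅x', y'⁆ := by
    have e1 : ∀ w, (x * x'⁻¹) * w = w * (x * x'⁻¹) := hK _ (by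
      rw [map_mul, map_inv, hxx, mul_inv_cancel])
    have e2 : ∀ w, (y * y'⁻¹) * w = w * (y * y'⁻¹) := hK _ (by
      rw [map_mul, map_inv, hyy, mul_inv_cancel])
    have e3 : x = (x * x'⁻¹) * x' := by group
    have e4 : y = (y * y'⁻¹) * y' := by group
    generalize x * x'⁻¹ = c at e1 e3
    generalize y * y'⁻¹ = d at e2 e4
    subst e3 e4
    rw [commutatorElement_def, commutatorElement_def]
    calc c * x' * (d * y') * (c * x')⁻¹ * (d * y')⁻¹
        = (c * (x' * (d * (y' * x'⁻¹)))) * c⁻¹ * y'⁻¹ * d⁻¹ := by group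
      _ = (x' * (d * (y' * x'⁻¹))) * y'⁻¹ * d⁻¹ := by
          rw [e1, mul_inv_cancel_right]
      _ = x' * (d * (y' * x'⁻¹ * y'⁻¹)) * d⁻¹ := by group
      _ = x' * y' * x'⁻¹ * y'⁻¹ := by
          rw [e2]
          group
  rw [h1]
  exact Subgroup.commutator_mem_commutator hx' hy' |> fun h => by
    have h2 : ⁅f.range, f.range⁆ ≤ f.range := Subgroup.commutator_le_self _
    exact h2 h

end Pool.Agent.T2H67.SA
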