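import Mathlib
import Pool.Agent.H84.L.A7_T2H67_SA_Cl
import Pool.Agent.H84.L.A7_T2H67_SA_Cl2
import Pool.Agent.H84.L.A7_T2H67_SA_Grp
import Pool.Agent.H84.L.A7_T2H67_SA_SchurStm
import Pool.Agent.H84.L.A7_T2H67_SA_Z



/-!
# Package PC: groups whose quotient by the centre is a product of alternating groups
-/

set_option autoImplicit false

namespace Pool.Agent.T2H67.SA

open scoped commutatorElement

/- If every element of `H` is an element of the subgroup `M` times a central element, then
`⁅H, H⁆ ≤ ⁅M, M⁆`. -/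
theorem comm_le_of_central {N : Type} [Group N] (H M : Subgroup N)
    (h : ∀ x ∈ H, ∃ m ∈ M, ∃ z ∈ Subgroup.center N, x = m * z) : ⁅H, H⁆ ≤ ⁅M, M⁆ := by
  rw [Subgroup.commutator_le]
  intro x hx y hy
  obtain ⟨m, hm, z, hz, rfl⟩ := h x hx
  obtain ⟨m', hm', z', hz', rfl⟩ := h y hy
  rw [Subgroup.mem_center_iff] at hz hz'
  have c1 : ∀ y : N, ⁅m * z, y⁆ = ⁅m, y⁆ := by
    intro y
    have : z * y * z⁻¹ = y := by rw [← hz y, mul_assoc, mul_inv_cancel, mul_one]
    rw [commutatorElement_def, commutatorElement_def]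
    calc m * z * y * (m * z)⁻¹ * y⁻¹ = m * (z * y * z⁻¹) * m⁻¹ * y⁻¹ := by group
      _ = m * y * m⁻¹ * y⁻¹ := by rw [this]
  have c2 : ∀ x : N, ⁅x, m' * z'⁆ = ⁅x, m'⁆ := by
    intro x
    have : z' * x⁻¹ * z'⁻¹ = x⁻¹ := by rw [← hz' x⁻¹, mul_assoc, mul_inv_cancel, mul_one]
    rw [commutatorElement_def, commutatorElement_def]
    calc x * (m' * z') * x⁻¹ * (m' * z')⁻¹ = x * m' * (z' * x⁻¹ * z'⁻¹) * m'⁻¹ := by group
      _ = x * m' * x⁻¹ * m'⁻¹ := by rw [this]
  have e : ⁅m * z, m' * z'⁆ = ⁅m, m'⁆ := by rw [c1, c2]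
  rw [e]
  exact Subgroup.commutator_mem_commutator hm hm'

theorem pc_stm (h : PBStm) : PCStm := by
  classical
  intro N _ ι _ d hd h3 e
  let A : ι → Type := fun i => alternatingGroup (Fin (d i))
  let p : N →* ((i : ι) → alternatingGroup (Fin (d i))) :=
    e.toMonoidHom.comp (QuotientGroup.mk' (Subgroup.center N))
  have hps : Function.Surjective p := by
    intro a
    obtain ⟨n, hn⟩ := QuotientGroup.mk'_surjective (Subgroup.center N) (e.symm a)
    refine ⟨n, ?_⟩
    show e (QuotientGroup.mk' (Subgroup.center N) n) = a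
    rw [hn, MulEquiv.apply_symm_apply]
  have hpk : ∀ n, p n = 1 ↔ n ∈ Subgroup.center N := by
    intro n
    have : p n = e (QuotientGroup.mk' (Subgroup.center N) n) := rfl
    rw [this, map_eq_one_iff e e.injective, ← MonoidHom.mem_ker, QuotientGroup.ker_mk']
  let Ni : ι → Subgroup N := fun i =>
    { carrier := {n | ∀ j, j ≠ i → p n j = 1}
      mul_mem' := by
        intro a b ha hb j hj
        rw [map_mul, Pi.mul_apply, ha j hj, hb j hj, mul_one]
      one_mem' := by
        intro j hj
        rw [map_one, Pi.one_apply]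
      inv_mem' := by
        intro a ha j hj
        rw [map_inv, Pi.inv_apply, ha j hj, inv_one] }
  have hNi : ∀ i n, n ∈ Ni i ↔ ∀ j, j ≠ i → p n j = 1 := fun i n => Iff.rfl
  let Mi : ι → Subgroup N := fun i => ⁅Ni i, Ni i⁆
  have hMN : ∀ i, Mi i ≤ Ni i := by
    intro i
    rw [Subgroup.commutator_le]
    intro x hx y hy
    exact (Ni i).mul_mem ((Ni i).mul_mem ((Ni i).mul_mem hx hy) ((Ni i).inv_mem hx))
      ((Ni i).inv_mem hy)
  let pi' : (i : ι) → N →* alternatingGroup (Fin (d i)) := fun i =>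
    (Pi.evalMonoidHom (fun i => alternatingGroup (Fin (d i))) i).comp p
  have hpi : ∀ i n, pi' i n = p n i := fun i n => rfl
  have hNtop : ∀ i, (Ni i).map (pi' i) = ⊤ := by
    intro i
    rw [eq_top_iff]
    intro a _
    obtain ⟨n, hn⟩ := hps (Pi.mulSingle i a)
    refine ⟨n, ?_, ?_⟩
    · intro j hj
      rw [hn, Pi.mulSingle_eq_of_ne hj]
    · rw [hpi, hn, Pi.mulSingle_eq_same]
  have hMtop : ∀ i, (Mi i).map (pi' i) = ⊤ := by
    intro i
    show (⁅Ni i, Ni i⁆ : Subgroup N).map (pi' i) = ⊤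
    rw [Subgroup.map_commutator, hNtop i, ← commutator_def]
    exact commutator_alternatingGroup_eq_top (by simpa using hd i)
  have hker : ∀ i n, n ∈ Ni i → p n i = 1 → n ∈ Subgroup.center N := by
    intro i n hn h1
    rw [← hpk]
    funext j
    by_cases hj : j = i
    · subst hj; exact h1
    · exact hn j hj
  have hdec : ∀ i, ∀ x ∈ Ni i, ∃ m ∈ Mi i, ∃ z ∈ Subgroup.center N, x = m * z := by
    intro i x hx
    have h1 : pi' i x ∈ (Mi i).map (pi' i) := by
      rw [hMtop i]; exact Subgroup.mem_top _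
    obtain ⟨m, hm, hmx⟩ := h1
    refine ⟨m, hm, m⁻¹ * x, ?_, by group⟩
    apply hker i _ ((Ni i).mul_mem ((Ni i).inv_mem (hMN i hm)) hx)
    rw [← hpi, map_mul, map_inv, hmx, inv_mul_cancel]
  have hMM : ∀ i, ⁅Mi i, Mi i⁆ = Mi i := by
    intro i
    apply le_antisymm
    · rw [Subgroup.commutator_le]
      intro x hx y hy
      exact (Mi i).mul_mem ((Mi i).mul_mem ((Mi i).mul_mem hx hy) ((Mi i).inv_mem hx))
        ((Mi i).inv_mem hy)
    · exact comm_le_of_central _ _ (hdec i)
  have hf : ∀ i, ∃ f : Alt2 (d i) →* (Mi i), Function.Surjective f := by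
    intro i
    have hsurj : Function.Surjective ((pi' i).comp (Mi i).subtype) := by
      intro a
      have h1 : a ∈ (Mi i).map (pi' i) := by
        rw [hMtop i]; exact Subgroup.mem_top _
      obtain ⟨m, hm, hma⟩ := h1
      exact ⟨⟨m, hm⟩, hma⟩
    apply h (d i) (hd i) (Mi i) ((pi' i).comp (Mi i).subtype) hsurj
    · intro m hm
      have h1 : (m : N) ∈ Subgroup.center N := hker i m (hMN i m.2) hm
      rw [Subgroup.mem_center_iff] at h1 ⊢
      intro g
      exact Subtype.ext (h1 g)
    · have h1 : (commutator (Mi i)).map (Mi i).subtype = Mi i := by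
        rw [Subgroup.map_subtype_commutator]
        exact hMM i
      have h2 : (⊤ : Subgroup (Mi i)).map (Mi i).subtype = Mi i := by
        rw [← MonoidHom.range_eq_map, Subgroup.range_subtype]
      exact Subgroup.map_injective (Mi i).subtype_injective (h1.trans h2.symm)
    · intro h6 z hz hz3
      have h1 : pi' i z.1 ∈ Subgroup.center (alternatingGroup (Fin (d i))) := by
        rw [Subgroup.mem_center_iff] at hz ⊢
        intro g
        obtain ⟨m, hm⟩ := hsurj g
        rw [← hm]
        have := congrArg ((pi' i).comp (Mi i).subtype) (hz m)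
        simpa using this
      rw [alternatingGroup.center_eq_bot (by simpa using (show 4 ≤ d i by have := hd i; lia)),
        Subgroup.mem_bot] at h1
      have h2 : z.1 ∈ Subgroup.center N := hker i z.1 (hMN i z.2) h1
      have h4 := h3 ⟨i, h6⟩ z.1 h2 (by
        have := congrArg Subtype.val hz3
        simpa using this)
      exact Subtype.ext h4
  choose f hfs using hf
  let g : (i : ι) → Alt2 (d i) →* N := fun i => (Mi i).subtype.comp (f i)
  have hgr : ∀ i, (g i).range = Mi i := by
    intro i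
    rw [MonoidHom.range_comp, MonoidHom.range_eq_top.2 (hfs i), ← MonoidHom.range_eq_map,
      Subgroup.range_subtype]
  have hcen : ∀ i j, i ≠ j → ⁅Ni i, Ni j⁆ ≤ Subgroup.center N := by
    intro i j hij
    rw [Subgroup.commutator_le]
    intro x hx y hy
    rw [← hpk]
    funext k
    rw [map_commutatorElement]
    show ⁅p x k, p y k⁆ = 1
    by_cases hk : k = i
    · have : p y k = 1 := hy k (by rw [hk]; exact hij)
      rw [this, commutatorElement_one_right]
    · have : p x k = 1 := hx k hk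
      rw [this, commutatorElement_one_left]
  have hcenb : ∀ (H K : Subgroup N), H ≤ Subgroup.center N → ⁅H, K⁆ = ⊥ := by
    intro H K hH
    rw [Subgroup.commutator_eq_bot_iff_le_centralizer]
    intro x hx
    rw [Subgroup.mem_centralizer_iff]
    intro y _
    have := hH hx
    rw [Subgroup.mem_center_iff] at this
    exact this y
  have hcomm : ∀ i j, i ≠ j → ∀ x ∈ Mi i, ∀ y ∈ Mi j, Commute x y := by
    intro i j hij x hx y hy
    have h1 : ⁅⁅Ni i, Ni i⁆, Ni j⁆ = ⊥ :=
      Subgroup.commutator_commutator_eq_bot_of_rotate (hcenb _ _ (hcen i j hij))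
        (hcenb _ _ (hcen j i hij.symm))
    rw [Subgroup.commutator_eq_bot_iff_le_centralizer] at h1
    have h2 := h1 hx
    rw [Subgroup.mem_centralizer_iff] at h2
    exact (h2 y (hMN j hy)).symm
  have hpair : Pairwise fun i j => ∀ x y, Commute (g i x) (g j y) := by
    intro i j hij x y
    exact hcomm i j hij _ (f i x).2 _ (f j y).2
  have := Fintype.ofFinite ι
  refine ⟨MonoidHom.noncommPiCoprod g hpair, ?_⟩
  rw [MonoidHom.noncommPiCoprod_range]
  have hsup : (⨆ i, (g i).range) = ⨆ i, Mi i := iSup_congr hgr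
  rw [hsup]
  apply le_antisymm
  · rw [iSup_le_iff]
    intro i
    exact Subgroup.commutator_mono le_top le_top
  · have h1 : ∀ x ∈ (⊤ : Subgroup N), ∃ m ∈ (⨆ i, Mi i), ∃ z ∈ Subgroup.center N, x = m * z := by
      intro x _
      have h2 : p x ∈ (⨆ i, Mi i).map p := by
        apply Submonoid.pi_mem_of_mulSingle_mem
        intro i
        have h4 : pi' i x ∈ (Mi i).map (pi' i) := by
          rw [hMtop i]; exact Subgroup.mem_top _
        obtain ⟨m, hm, hmx⟩ := h4
        refine ⟨m, le_iSup Mi i hm, ?_⟩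
        funext j
        by_cases hj : j = i
        · subst hj
          rw [Pi.mulSingle_eq_same]; exact hmx
        · rw [Pi.mulSingle_eq_of_ne hj]
          exact hMN i hm j hj
      obtain ⟨m, hm, hmx⟩ := h2
      refine ⟨m, hm, m⁻¹ * x, ?_, by group⟩
      rw [← hpk, map_mul, map_inv, hmx, inv_mul_cancel]
    have h5 := comm_le_of_central ⊤ (⨆ i, Mi i) h1
    rw [← commutator_def] at h5
    refine h5.trans ?_
    rw [Subgroup.commutator_le]
    intro x hx y hy
    exact Subgroup.mul_mem _ (Subgroup.mul_mem _ (Subgroup.mul_mem _ hx hy)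
      (Subgroup.inv_mem _ hx)) (Subgroup.inv_mem _ hy)

end Pool.Agent.T2H67.SA
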