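import Mathlib
import Pool.Agent.H84.L.A7_T2H67_SA_All
import Pool.Agent.H84.L.A7_T2H67_SA_Built
import Pool.Agent.H84.L.A7_T2H67_SA_KerDef
import Pool.Agent.H84.L.A7_T2H67_SA_PA
import Pool.Agent.H84.L.A7_T2H67_SA_PB
import Pool.Agent.H84.L.A7_T2H67_SA_PC
import Pool.Agent.H84.L.S8_H391R2_T4_Red

namespace Pool.Agent.H391R2
end Pool.Agent.H391R2
namespace Pool.Agent.H391R2.T4
end Pool.Agent.H391R2.T4


/-!
# The main theorem
-/

set_option autoImplicit false

namespace Pool.Agent.T2H67.SA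

open Pool.Agent.H391R2 Pool.Agent.H391R2.T4

/- **Main theorem.** -/
theorem built_reg (K L : Type) [Field K] [CharZero K] [Field L]
    [Algebra K L] [FiniteDimensional K L] [IsGalois K L] (E : Type) [Group E] [Finite E]
    (α : E →* (L ≃ₐ[K] L)) (L' : Type) [Field L'] [Algebra K L'] [FiniteDimensional K L']
    [IsGalois K L'] [Algebra L L'] [IsScalarTower K L L'] (s : (L' ≃ₐ[K] L') →* E)
    (hs : ∀ ρ, α (s ρ) = ρ.restrictNormal L) (h : Built s.range α.ker) : RegSol K L E α :=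
  reg_all K L E α L' s hs (built_reach (pc_stm (pb_stm pa_stm)) h)

end Pool.Agent.T2H67.SA
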