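import Mathlib
import Pool.Agent.H84.L.S8_H391R2_T4_Red
import Pool.Agent.H84.L.S8_TH59_WX_PA

namespace Pool.Agent.H391R2.T4
end Pool.Agent.H391R2.T4
namespace Pool.Agent.TH59.WX
end Pool.Agent.TH59.WX


/-!
# Good kernels in characteristic `p` (project DC): definition and task statement
-/

set_option autoImplicit false

namespace Pool.Agent.Y60.DC

open Pool.Agent.H391R2.T4 (RegSol)
open Pool.Agent.TH59.WX (Indec)

/- Groups `T` such that all embedding problems over infinite fields of characteristic `p` with
kernel `T` have regular solutions. -/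
def GoodKerP (p : ℕ) (T : Type) [Group T] : Prop :=
  ∀ (K L X : Type) [Field K] [CharP K p] [Infinite K] [Field L] [Algebra K L]
    [FiniteDimensional K L] [IsGalois K L] [Group X] (α : X →* (L ≃ₐ[K] L)),
    Function.Surjective α → Nonempty (α.ker ≃* T) → RegSol K L X α

/- DC-PROD (statement only): `Pool.Agent.TH59.WX.prod_good` in characteristic `p`. -/
def TaskPROD : Prop :=
  ∀ (p : ℕ) (ι : Type) [Finite ι] (T : ι → Type) [∀ i, Group (T i)] [∀ i, Finite (T i)],
    (∀ i, Indec (T i)) → (∀ i, Nontrivial (T i)) → (∀ i, GoodKerP p (T i)) →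
    GoodKerP p (∀ i, T i)

end Pool.Agent.Y60.DC
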