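import Mathlib



/-!
# Task statements of the project DC, symplectic part (NOT results)
-/

set_option autoImplicit false

namespace Pool.Agent.Y60.DC

open Matrix

section abs

variable {F V : Type} [Field F] [AddCommGroup V] [Module F V]

/- The group of isometries of the bilinear form `B`. -/
def SpV (B : V →ₗ[F] V →ₗ[F] F) : Subgroup (V ≃ₗ[F] V) where
  carrier := {g | ∀ x y, B (g x) (g y) = B x y}
  mul_mem' := fun {a b} ha hb x y => (ha (b x) (b y)).trans (hb x y)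
  one_mem' := fun _ _ => rfl
  inv_mem' := fun {a} ha x y => by
    have h := ha (a⁻¹ x) (a⁻¹ y)
    have h1 : ∀ z, a (a⁻¹ z) = z := fun z => a.apply_symm_apply z
    rw [h1, h1] at h
    exact h.symm

/- Symplectic forms. -/
structure IsSymp (B : V →ₗ[F] V →ₗ[F] F) : Prop where
  alt : ∀ x, B x x = 0
  nondeg : ∀ x, (∀ y, B x y = 0) → x = 0

/- `t` is the transvection `x ↦ x + a B(v, x) v`. -/
def IsTv (B : V →ₗ[F] V →ₗ[F] F) (v : V) (a : F) (t : SpV B) : Prop :=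
  ∀ x, t.1 x = x + (a * B v x) • v

/- The homomorphism `π` from the isometry group is surjective and its kernel consists of `±1`. -/
structure IsQuo (B : V →ₗ[F] V →ₗ[F] F) {G : Type} [Group G] (π : SpV B →* G) : Prop where
  surj : Function.Surjective π
  ker : ∀ s : SpV B, π s = 1 → (∀ x, s.1 x = x) ∨ ∀ x, s.1 x = -x

/- The automorphism `f` of `G` maps transvection groups into transvection groups. -/
def TvPres (B : V →ₗ[F] V →ₗ[F] F) {G : Type} [Group G] (π : SpV B →* G) (f : MulAut G) : Prop :=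
  ∀ v : V, v ≠ 0 → ∃ v' : V, v' ≠ 0 ∧ ∀ (a : F) (t : SpV B), IsTv B v a t →
    ∃ (a' : F) (t' : SpV B), IsTv B v' a' t' ∧ f (π t) = π t'

/- The automorphism `f` of `G` is given by a semilinear similitude `g`. -/
def SAut (B : V →ₗ[F] V →ₗ[F] F) {G : Type} [Group G] (π : SpV B →* G) (f : MulAut G) : Prop :=
  ∃ (φ : F ≃+* F) (g : V ≃+ V) (c : F), c ≠ 0 ∧ (∀ (a : F) (v : V), g (a • v) = φ a • g v) ∧
    (∀ v w, B (g v) (g w) = c * φ (B v w)) ∧
    ∀ s s' : SpV B, (∀ v, g (s.1 v) = s'.1 (g v)) → f (π s) = π s'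

end abs

/- SP-GEN: symplectic groups are generated by transvections. -/
def TaskSGEN : Prop :=
  ∀ (F V : Type) [Field F] [AddCommGroup V] [Module F V] [FiniteDimensional F V]
    (B : V →ₗ[F] V →ₗ[F] F), IsSymp B →
    Subgroup.closure {t : SpV B | ∃ v a, IsTv B v a t} = ⊤

/- SP-SYL: automorphisms permute the transvection groups, odd characteristic. -/
def TaskSSYL : Prop :=
  ∀ (F V : Type) [Field F] [Finite F] [AddCommGroup V] [Module F V] [FiniteDimensional F V]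
    (B : V →ₗ[F] V →ₗ[F] F), IsSymp B → (2 : F) ≠ 0 →
    ∀ (G : Type) [Group G] (π : SpV B →* G), IsQuo B π → ∀ f : MulAut G, TvPres B π f

/- SP-SYL2: automorphisms permute the transvection groups, characteristic two. -/
def TaskSSYL2 : Prop :=
  ∀ (F V : Type) [Field F] [Finite F] [AddCommGroup V] [Module F V] [FiniteDimensional F V]
    (B : V →ₗ[F] V →ₗ[F] F), IsSymp B → (2 : F) = 0 → 6 ≤ Module.finrank F V →
    ∀ (G : Type) [Group G] (π : SpV B →* G), IsQuo B π → ∀ f : MulAut G, TvPres B π f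

/- SP-COL: the collineation. -/
def TaskSCOL : Prop :=
  ∀ (F V : Type) [Field F] [AddCommGroup V] [Module F V] [FiniteDimensional F V]
    (B : V →ₗ[F] V →ₗ[F] F), IsSymp B →
    ∀ (G : Type) [Group G] (π : SpV B →* G), IsQuo B π → ∀ f : MulAut G, TvPres B π f →
      TvPres B π f⁻¹ →
      ∃ c : V → V, (∀ v, v ≠ 0 → c v ≠ 0) ∧
        (∀ v, v ≠ 0 → ∀ (a : F) (t : SpV B), IsTv B v a t →
          ∃ (a' : F) (t' : SpV B), IsTv B (c v) a' t' ∧ f (π t) = π t') ∧
        (∀ v w, v ≠ 0 → w ≠ 0 → (B v w = 0 ↔ B (c v) (c w) = 0)) ∧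
        (∀ w, w ≠ 0 → ∃ v, v ≠ 0 ∧ ∃ a : F, w = a • c v) ∧
        ∀ u v w, u ≠ 0 → v ≠ 0 → w ≠ 0 →
          (u ∈ Submodule.span F {v, w} ↔ c u ∈ Submodule.span F {c v, c w})

/- SP-FTPG: the fundamental theorem of projective geometry. -/
def TaskFTPG : Prop :=
  ∀ (F V : Type) [Field F] [AddCommGroup V] [Module F V] [FiniteDimensional F V],
    3 ≤ Module.finrank F V → ∀ c : V → V, (∀ v, v ≠ 0 → c v ≠ 0) →
    (∀ w, w ≠ 0 → ∃ v, v ≠ 0 ∧ ∃ a : F, w = a • c v) →
    (∀ u v w, u ≠ 0 → v ≠ 0 → w ≠ 0 →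
      (u ∈ Submodule.span F {v, w} ↔ c u ∈ Submodule.span F {c v, c w})) →
    ∃ (φ : F ≃+* F) (g : V ≃+ V), (∀ (a : F) (v : V), g (a • v) = φ a • g v) ∧
      ∀ v, v ≠ 0 → ∃ a : F, g v = a • c v

/- SP-SIM: semilinear maps which preserve orthogonality are similitudes. -/
def TaskSSIM : Prop :=
  ∀ (F V : Type) [Field F] [AddCommGroup V] [Module F V] [FiniteDimensional F V]
    (B : V →ₗ[F] V →ₗ[F] F), IsSymp B → ∀ (φ : F ≃+* F) (g : V ≃+ V),
    (∀ (a : F) (v : V), g (a • v) = φ a • g v) → (∀ v w, B v w = 0 ↔ B (g v) (g w) = 0) →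
    ∃ c : F, c ≠ 0 ∧ ∀ v w, B (g v) (g w) = c * φ (B v w)

/- SP-FIN: automorphisms which preserve every transvection group are trivial. -/
def TaskSFIN : Prop :=
  ∀ (F V : Type) [Field F] [AddCommGroup V] [Module F V] [FiniteDimensional F V]
    (B : V →ₗ[F] V →ₗ[F] F), IsSymp B →
    ∀ (G : Type) [Group G] (π : SpV B →* G), IsQuo B π → ∀ f : MulAut G,
      (∀ v : V, v ≠ 0 → ∀ (a : F) (t : SpV B), IsTv B v a t →
        ∃ (a' : F) (t' : SpV B), IsTv B v a' t' ∧ f (π t) = π t') → f = 1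

/- SP-AUT: all automorphisms are semilinear similitudes. -/
def TaskSAUT : Prop :=
  ∀ (F V : Type) [Field F] [AddCommGroup V] [Module F V] [FiniteDimensional F V]
    (B : V →ₗ[F] V →ₗ[F] F), IsSymp B → 3 ≤ Module.finrank F V →
    ∀ (G : Type) [Group G] (π : SpV B →* G), IsQuo B π → ∀ f : MulAut G, TvPres B π f →
      TvPres B π f⁻¹ → SAut B π f

/- SP-SIMPLE: normal subgroups. -/
def TaskSSIMPLE : Prop :=
  ∀ (F V : Type) [Field F] [Finite F] [AddCommGroup V] [Module F V] [FiniteDimensional F V]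
    (B : V →ₗ[F] V →ₗ[F] F), IsSymp B →
    ((2 : F) ≠ 0 ∧ 4 ≤ Module.finrank F V ∨ 6 ≤ Module.finrank F V) →
    ∀ N : Subgroup (SpV B), N.Normal →
      (∀ s ∈ N, (∀ x, s.1 x = x) ∨ ∀ x, s.1 x = -x) ∨ N = ⊤

/- SP-CEN: isometries which commute up to sign with all isometries. -/
def TaskSCEN : Prop :=
  ∀ (F V : Type) [Field F] [AddCommGroup V] [Module F V] [FiniteDimensional F V]
    (B : V →ₗ[F] V →ₗ[F] F), IsSymp B → ∀ s : SpV B,
    (∀ t : SpV B, (∀ x, s.1 (t.1 x) = t.1 (s.1 x)) ∨ ∀ x, s.1 (t.1 x) = -t.1 (s.1 x)) →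
    (∀ x, s.1 x = x) ∨ ∀ x, s.1 x = -x

/- The standard space of dimension `2n`. -/
abbrev V₀ (n : ℕ) (F : Type) : Type := Fin n ⊕ Fin n → F

/- The standard symplectic form. -/
def spB (n : ℕ) (F : Type) [Field F] : V₀ n F →ₗ[F] V₀ n F →ₗ[F] F :=
  LinearMap.mk₂ F (fun x y => ∑ i, (x (Sum.inl i) * y (Sum.inr i) - x (Sum.inr i) * y (Sum.inl i)))
    (fun x x' y => by
      rw [← Finset.sum_add_distrib]
      exact Finset.sum_congr rfl fun i _ => by simp only [Pi.add_apply]; ring)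
    (fun a x y => by
      rw [smul_eq_mul, Finset.mul_sum]
      exact Finset.sum_congr rfl fun i _ => by simp only [Pi.smul_apply, smul_eq_mul]; ring)
    (fun x y y' => by
      rw [← Finset.sum_add_distrib]
      exact Finset.sum_congr rfl fun i _ => by simp only [Pi.add_apply]; ring)
    (fun a x y => by
      rw [smul_eq_mul, Finset.mul_sum]
      exact Finset.sum_congr rfl fun i _ => by simp only [Pi.smul_apply, smul_eq_mul]; ring)

theorem spB_apply (n : ℕ) (F : Type) [Field F] (x y : V₀ n F) :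
    spB n F x y =
      ∑ i, (x (Sum.inl i) * y (Sum.inr i) - x (Sum.inr i) * y (Sum.inl i)) := rfl

/- Square matrices of size `2n`. -/
abbrev M₀ (n : ℕ) (F : Type) : Type := Matrix (Fin n ⊕ Fin n) (Fin n ⊕ Fin n) F

/- The symplectic group in Mathlib. -/
abbrev SpM (n : ℕ) (F : Type) [Field F] : Submonoid (M₀ n F) := Matrix.symplecticGroup (Fin n) F

/- The symplectic involution. -/
def sad {n : ℕ} {F : Type} [Field F] (A : M₀ n F) : M₀ n F :=
  -(Matrix.J (Fin n) F * Aᵀ * Matrix.J (Fin n) F)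

/- SP-EQV: the two descriptions of the symplectic group. -/
def TaskSEQV : Prop :=
  ∀ (n : ℕ) (F : Type) [Field F], IsSymp (spB n F) ∧
    (∃ e : SpM n F ≃* SpV (spB n F), ∀ (A : SpM n F) (x : V₀ n F),
      (e A).1 x = (A : M₀ n F) *ᵥ x) ∧
    (∀ A B : M₀ n F, sad (A * B) = sad B * sad A) ∧ (∀ A : M₀ n F, sad (sad A) = A) ∧
    (∀ A : M₀ n F, A ∈ SpM n F ↔ A * sad A = 1)

/- SP-TRV: transvections are connected to the identity. -/
def TaskSTRV : Prop :=
  ∀ (n : ℕ) (F : Type) [Field F] (t : M₀ n F) (v : V₀ n F) (a : F),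
    (∀ x, t *ᵥ x = x + (a * spB n F v x) • v) →
    ∃ z y : M₀ n F, z + sad z = 1 ∧ (sad z + t * z) * y = 1

/- SP-COMPL: the inner automorphisms have a complement. -/
def TaskSCOMPL : Prop :=
  ∀ (n : ℕ) (F : Type) [Field F] [Finite F] (p k : ℕ), 1 ≤ n → p.Prime → Nat.card F = p ^ k →
    (p = 2 ∨ Odd k) →
    ∀ (G : Type) [Group G] (π : SpV (spB n F) →* G), IsQuo (spB n F) π →
      (∀ f : MulAut G, SAut (spB n F) π f) →
      ∃ T : Subgroup (MulAut G), IsCompl T (MulAut.conj : G →* MulAut G).range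

/- SP-LIFT: semilinear similitudes and automorphisms of the ring of matrices. -/
def TaskSLIFT : Prop :=
  ∀ (n : ℕ) (F : Type) [Field F], 1 ≤ n → ∀ (G : Type) [Group G] (π : SpM n F →* G)
    (e : SpM n F ≃* SpV (spB n F)), (∀ (A : SpM n F) (x : V₀ n F),
      (e A).1 x = (A : M₀ n F) *ᵥ x) →
    IsQuo (spB n F) (π.comp e.symm.toMonoidHom) → ∀ f : MulAut G,
    SAut (spB n F) (π.comp e.symm.toMonoidHom) f →
    ∃ ρ : M₀ n F ≃+* M₀ n F, (∀ A, ρ (sad A) = sad (ρ A)) ∧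
      ∀ s s' : SpM n F, (s' : M₀ n F) = ρ (s : M₀ n F) → f (π s) = π s'

/- SP-UNIQ: ring automorphisms which are trivial on the symplectic group modulo `±1` are
trivial. -/
def TaskSUNIQ : Prop :=
  ∀ (n : ℕ) (F : Type) [Field F], 1 ≤ n → ∀ ρ : M₀ n F ≃+* M₀ n F,
    (∀ A, ρ (sad A) = sad (ρ A)) →
    (∀ s : SpM n F, ρ (s : M₀ n F) = s ∨ ρ (s : M₀ n F) = -s) → ∀ A, ρ A = A

end Pool.Agent.Y60.DC
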