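import Mathlib



/-!
# Task statements of the project DC, third batch (NOT results): automorphisms of `SL_n(F)`
-/

set_option autoImplicit false

namespace Pool.Agent.Y60.DC

open Matrix

/- Square matrices. -/
abbrev Mn (n : ℕ) (F : Type) : Type := Matrix (Fin n) (Fin n) F

/- `SL_n(F)`. -/
abbrev SLn (n : ℕ) (F : Type) [Field F] : Type := Matrix.SpecialLinearGroup (Fin n) F

/- The matrix `1 + v φ` (column times row), a transvection if `φ v = 0`. -/
def tv {F : Type} [Field F] {n : ℕ} (v φ : Fin n → F) : Mn n F := 1 + vecMulVec v φ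

/- `f` maps root subgroups into root subgroups. -/
def RootPres {F : Type} [Field F] {n : ℕ} (f : MulAut (SLn n F)) : Prop :=
  ∀ v φ : Fin n → F, v ≠ 0 → φ ≠ 0 → φ ⬝ᵥ v = 0 →
    ∃ v' φ' : Fin n → F, v' ≠ 0 ∧ φ' ≠ 0 ∧ φ' ⬝ᵥ v' = 0 ∧
      ∀ (x : F) (A : SLn n F), (A : Mn n F) = tv v (x • φ) →
        ∃ y : F, ((f A : SLn n F) : Mn n F) = tv v' (y • φ')

/- `f` maps the transvections with a given centre to transvections with a given centre, and the
transvections with a given axis to transvections with a given axis. -/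
def TypePres {F : Type} [Field F] {n : ℕ} (f : MulAut (SLn n F)) : Prop :=
  (∀ v : Fin n → F, v ≠ 0 → ∃ v' : Fin n → F, v' ≠ 0 ∧ ∀ (φ : Fin n → F) (A : SLn n F),
      φ ⬝ᵥ v = 0 → (A : Mn n F) = tv v φ →
      ∃ φ' : Fin n → F, φ' ⬝ᵥ v' = 0 ∧ ((f A : SLn n F) : Mn n F) = tv v' φ') ∧
  (∀ φ : Fin n → F, φ ≠ 0 → ∃ φ' : Fin n → F, φ' ≠ 0 ∧ ∀ (v : Fin n → F) (A : SLn n F),
      φ ⬝ᵥ v = 0 → (A : Mn n F) = tv v φ →
      ∃ v' : Fin n → F, φ' ⬝ᵥ v' = 0 ∧ ((f A : SLn n F) : Mn n F) = tv v' φ')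

/- `f` exchanges the two kinds of subgroups. -/
def TypeSwap {F : Type} [Field F] {n : ℕ} (f : MulAut (SLn n F)) : Prop :=
  (∀ v : Fin n → F, v ≠ 0 → ∃ φ' : Fin n → F, φ' ≠ 0 ∧ ∀ (φ : Fin n → F) (A : SLn n F),
      φ ⬝ᵥ v = 0 → (A : Mn n F) = tv v φ →
      ∃ v' : Fin n → F, φ' ⬝ᵥ v' = 0 ∧ ((f A : SLn n F) : Mn n F) = tv v' φ') ∧
  (∀ φ : Fin n → F, φ ≠ 0 → ∃ v' : Fin n → F, v' ≠ 0 ∧ ∀ (v : Fin n → F) (A : SLn n F),
      φ ⬝ᵥ v = 0 → (A : Mn n F) = tv v φ →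
      ∃ φ' : Fin n → F, φ' ⬝ᵥ v' = 0 ∧ ((f A : SLn n F) : Mn n F) = tv v' φ')

/- DCN-SYL: automorphisms of `SL_n(F)` permute the root subgroups. -/
def TaskSYL : Prop :=
  ∀ (F : Type) [Field F] [Finite F] (n : ℕ), 3 ≤ n → ∀ f : MulAut (SLn n F), RootPres f

/- DCN-TYPE: automorphisms which permute the root subgroups preserve or exchange the two kinds of
subgroups of transvections. -/
def TaskTYPE : Prop :=
  ∀ (F : Type) [Field F] [Finite F] (n : ℕ), 3 ≤ n → ∀ f : MulAut (SLn n F),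
    RootPres f → RootPres f⁻¹ → TypePres f ∨ TypeSwap f

/- DCN-SEMI: additive bijections which preserve lines are semilinear. -/
def TaskSEMI : Prop :=
  ∀ (F V W : Type) [Field F] [AddCommGroup V] [Module F V] [AddCommGroup W] [Module F W]
    (a : V ≃+ W), 2 ≤ Module.finrank F V → (∀ (x : F) (v : V), ∃ y : F, a (x • v) = y • a v) →
    (∀ (x : F) (v : V), ∃ y : F, a.symm (x • a v) = y • v) →
    ∃ φ : F ≃+* F, ∀ (x : F) (v : V), a (x • v) = φ x • a v

/- DCN-FIN: automorphisms which preserve the two kinds of subgroups are semilinear. -/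
def TaskFIN : Prop :=
  ∀ (F : Type) [Field F] [Finite F] (n : ℕ), 3 ≤ n → ∀ f : MulAut (SLn n F), TypePres f →
    ∃ (g : GL (Fin n) F) (φ : F ≃+* F), ∀ A : SLn n F,
      ((f A : SLn n F) : Mn n F) * g.1 = g.1 * (A : Mn n F).map φ

/- The automorphisms of `SL_n(F)`, `n ≥ 3`: all of them are semilinear, up to the transpose
inverse. -/
def TaskAUTN : Prop :=
  ∀ (F : Type) [Field F] [Finite F] (n : ℕ), 3 ≤ n → ∀ f : MulAut (SLn n F),
    ∃ (g : GL (Fin n) F) (φ : F ≃+* F),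
      (∀ A : SLn n F, ((f A : SLn n F) : Mn n F) * g.1 = g.1 * (A : Mn n F).map φ) ∨
      (∀ A : SLn n F, ((f A : SLn n F) : Mn n F) * g.1 =
        g.1 * (((A⁻¹ : SLn n F) : Mn n F)ᵀ).map φ)

/- DCN-COMPL: the inner automorphisms of `SL_n(F)` have a complement in the automorphism group,
if `n ≥ 3` and `n` is prime to `|F| - 1`. -/
def TaskCOMPLN : Prop :=
  ∀ (F : Type) [Field F] [Finite F] (n : ℕ), 3 ≤ n → Nat.Coprime n (Nat.card F - 1) →
    ∃ T : Subgroup (MulAut (SLn n F)), IsCompl T (MulAut.conj : SLn n F →* MulAut (SLn n F)).range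

end Pool.Agent.Y60.DC
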