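import Mathlib
import Pool.Agent.H84.L.S8_Y60_DC_Stm4

namespace Pool.Agent.Y60.DC
end Pool.Agent.Y60.DC


set_option autoImplicit false

/-! # The inner automorphisms of `SL_n(F)` have a complement -/

namespace Pool.Agent.Y419.DCN

open Matrix Pool.Agent.Y60.DC

variable {F : Type} [Field F] {n : ℕ}

/- `f` acts as a field automorphism on the entries -/
def Plain (f : MulAut (SLn n F)) (φ : F ≃+* F) : Prop :=
  ∀ A : SLn n F, ((f A : SLn n F) : Mn n F) = (A : Mn n F).map φ

/- `f` acts as the transpose inverse, combined with a field automorphism -/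
def Dual (f : MulAut (SLn n F)) (φ : F ≃+* F) : Prop :=
  ∀ A : SLn n F, ((f A : SLn n F) : Mn n F) = (((A⁻¹ : SLn n F) : Mn n F)ᵀ).map φ

theorem plain_one : Plain (1 : MulAut (SLn n F)) (RingEquiv.refl F) := by
  intro A
  ext i j
  rfl

theorem plain_mul {f g : MulAut (SLn n F)} {φ ψ : F ≃+* F} (hf : Plain f φ) (hg : Plain g ψ) :
    Plain (f * g) (ψ.trans φ) := by
  intro A
  rw [MulAut.mul_apply, hf, hg]
  ext i j
  rfl

theorem plain_dual {f g : MulAut (SLn n F)} {φ ψ : F ≃+* F} (hf : Plain f φ) (hg : Dual g ψ) :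
    Dual (f * g) (ψ.trans φ) := by
  intro A
  rw [MulAut.mul_apply, hf, hg]
  ext i j
  rfl

theorem dual_plain {f g : MulAut (SLn n F)} {φ ψ : F ≃+* F} (hf : Dual f φ) (hg : Plain g ψ) :
    Dual (f * g) (ψ.trans φ) := by
  intro A
  rw [MulAut.mul_apply, hf, ← map_inv, hg]
  ext i j
  rfl

theorem dual_mul {f g : MulAut (SLn n F)} {φ ψ : F ≃+* F} (hf : Dual f φ) (hg : Dual g ψ) :
    Plain (f * g) (ψ.trans φ) := by
  intro A
  rw [MulAut.mul_apply, hf, ← map_inv, hg, inv_inv]
  ext i j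
  rfl

theorem plain_inv {f : MulAut (SLn n F)} {φ : F ≃+* F} (hf : Plain f φ) :
    Plain f⁻¹ φ.symm := by
  intro A
  have h1 := hf (f⁻¹ A)
  rw [MulAut.apply_inv_self] at h1
  rw [h1]
  ext i j
  simp

theorem dual_inv {f : MulAut (SLn n F)} {φ : F ≃+* F} (hf : Dual f φ) :
    Dual f⁻¹ φ.symm := by
  intro A
  have h1 := hf (f⁻¹ A⁻¹)
  rw [MulAut.apply_inv_self, map_inv, inv_inv] at h1
  rw [h1]
  ext i j
  simp

/- the complement -/
def TT (n : ℕ) (F : Type) [Field F] : Subgroup (MulAut (SLn n F)) where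
  carrier := {f | ∃ φ : F ≃+* F, Plain f φ ∨ Dual f φ}
  mul_mem' := by
    rintro f g ⟨φ, hf⟩ ⟨ψ, hg⟩
    rcases hf with hf | hf <;> rcases hg with hg | hg
    · exact ⟨_, Or.inl (plain_mul hf hg)⟩
    · exact ⟨_, Or.inr (plain_dual hf hg)⟩
    · exact ⟨_, Or.inr (dual_plain hf hg)⟩
    · exact ⟨_, Or.inl (dual_mul hf hg)⟩
  one_mem' := ⟨_, Or.inl plain_one⟩
  inv_mem' := by
    rintro f ⟨φ, hf⟩
    rcases hf with hf | hf
    · exact ⟨_, Or.inl (plain_inv hf)⟩
    · exact ⟨_, Or.inr (dual_inv hf)⟩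

/- the elementary matrices -/
def el (i j : Fin n) (h : i ≠ j) (x : F) : SLn n F :=
  ⟨1 + Matrix.single i j x, Matrix.det_transvection_of_ne i j h x⟩

theorem el_coe (i j : Fin n) (h : i ≠ j) (x : F) :
    ((el i j h x : SLn n F) : Mn n F) = 1 + Matrix.single i j x := rfl

theorem el_inv (i j : Fin n) (h : i ≠ j) (x : F) :
    (el i j h x : SLn n F)⁻¹ = el i j h (-x) := by
  rw [inv_eq_iff_mul_eq_one]
  ext1
  rw [Matrix.SpecialLinearGroup.coe_mul, el_coe, el_coe, Matrix.SpecialLinearGroup.coe_one]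
  rw [mul_add, mul_one, add_mul, one_mul, Matrix.single_mul_single_of_ne _ _ _ _ h.symm, add_zero,
    add_assoc, ← Matrix.single_add, add_neg_cancel, Matrix.single_zero, add_zero]

theorem disj {f : MulAut (SLn n F)} (hn : 3 ≤ n) (hf : f ∈ TT n F)
    (hr : f ∈ (MulAut.conj : SLn n F →* MulAut (SLn n F)).range) : f = 1 := by
  obtain ⟨h, rfl⟩ := hr
  obtain ⟨φ, hf⟩ := hf
  have hconj : ∀ A : SLn n F, ((MulAut.conj h A : SLn n F) : Mn n F) * (h : Mn n F) =
      (h : Mn n F) * (A : Mn n F) := by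
    intro A
    rw [← Matrix.SpecialLinearGroup.coe_mul, ← Matrix.SpecialLinearGroup.coe_mul,
      MulAut.conj_apply, inv_mul_cancel_right]
  have hmap : ∀ i j : Fin n, (Matrix.single i j (1 : F)).map φ = Matrix.single i j 1 := by
    intro i j
    ext k l
    rw [Matrix.map_apply, Matrix.single_apply]
    split_ifs <;> simp
  have hone : (1 : Mn n F).map φ = 1 := Matrix.map_one _ (map_zero φ) (map_one φ)
  rcases hf with hf | hf
  · -- `h` is scalar
    have hcomm : ∀ i j : Fin n, i ≠ j →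
        Matrix.single i j (1 : F) * (h : Mn n F) = (h : Mn n F) * Matrix.single i j 1 := by
      intro i j hij
      have h1 := hconj (el i j hij 1)
      rw [hf, el_coe, Matrix.map_add _ (map_add φ), hone, hmap, add_mul, one_mul, mul_add,
        mul_one] at h1
      exact add_left_cancel h1
    have h2 : (h : Mn n F) ∈ Set.range (Matrix.scalar (Fin n)) :=
      Matrix.mem_range_scalar_of_commute_single fun i j hij => hcomm i j hij
    obtain ⟨c, hc⟩ := h2
    ext1 A
    apply Subtype.ext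
    rw [MulAut.conj_apply, MulAut.one_apply]
    have h3 : h * A = A * h := by
      apply Subtype.ext
      show (h : Mn n F) * (A : Mn n F) = (A : Mn n F) * (h : Mn n F)
      rw [← hc]
      exact (Matrix.scalar_commute c (fun r => Commute.all c r) (A : Mn n F)).eq
    rw [h3, mul_inv_cancel_right]
  · exfalso
    have hcomm : ∀ i j : Fin n, i ≠ j →
        -(Matrix.single j i (1 : F)) * (h : Mn n F) = (h : Mn n F) * Matrix.single i j 1 := by
      intro i j hij
      have h1 := hconj (el i j hij 1)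
      rw [hf, el_inv, el_coe, el_coe, Matrix.transpose_add, Matrix.transpose_one,
        Matrix.transpose_single, ← Matrix.single_neg, Matrix.map_add _ (map_add φ), hone,
        Matrix.map_neg _ (map_neg φ), hmap, add_mul, one_mul, mul_add, mul_one] at h1
      exact add_left_cancel h1
    obtain ⟨i0, i1, i2, h01, h12, h02⟩ : ∃ i0 i1 i2 : Fin n, i0 ≠ i1 ∧ i1 ≠ i2 ∧ i0 ≠ i2 :=
      ⟨⟨0, by omega⟩, ⟨1, by omega⟩, ⟨2, by omega⟩, by simp, by simp, by simp⟩
    have e1 := hcomm i0 i1 h01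
    have e2 := hcomm i1 i2 h12
    have e3 := hcomm i0 i2 h02
    have e4 : (h : Mn n F) * Matrix.single i0 i2 1 = 0 := by
      have e5 : (Matrix.single i0 i2 (1 : F)) = Matrix.single i0 i1 1 * Matrix.single i1 i2 1 := by
        rw [Matrix.single_mul_single_same, mul_one]
      rw [e5, ← mul_assoc, ← e1, mul_assoc, ← e2, ← mul_assoc, neg_mul_neg,
        Matrix.single_mul_single_of_ne _ _ _ _ h02, zero_mul]
    have e5 : Matrix.single i0 i2 (1 : F) = 0 := by
      have e6 : ((h⁻¹ : SLn n F) : Mn n F) * (h : Mn n F) = 1 := by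
        rw [← Matrix.SpecialLinearGroup.coe_mul, inv_mul_cancel, Matrix.SpecialLinearGroup.coe_one]
      have e7 := congrArg (fun M => ((h⁻¹ : SLn n F) : Mn n F) * M) e4
      simp only [mul_zero] at e7
      rwa [← mul_assoc, e6, one_mul] at e7
    have e6 := congrFun (congrFun e5 i0) i2
    rw [Matrix.single_apply_same, Matrix.zero_apply] at e6
    exact one_ne_zero e6

/- every invertible matrix is a multiple of a matrix with determinant one -/
theorem exists_sl [Finite F] (hc : Nat.Coprime n (Nat.card F - 1)) (g : GL (Fin n) F) :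
    ∃ (c : F) (h : SLn n F), c ≠ 0 ∧ g.1 = c • (h : Mn n F) := by
  have h1 : (Nat.card Fˣ).Coprime n := by
    rw [Nat.card_units]
    exact hc.symm
  obtain ⟨c, hcd⟩ := (powCoprime h1).surjective (Matrix.GeneralLinearGroup.det g)
  rw [powCoprime_apply] at hcd
  have hcd' : (c : F) ^ n = g.1.det := by
    have := congrArg (fun u : Fˣ => (u : F)) hcd
    simpa using this
  have hdet : ((c⁻¹ : Fˣ) : F) ^ n * g.1.det = 1 := by
    rw [← hcd', ← mul_pow, Units.inv_mul, one_pow]
  refine ⟨c, ⟨((c⁻¹ : Fˣ) : F) • g.1, ?_⟩, c.ne_zero, ?_⟩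
  · rw [Matrix.det_smul, Fintype.card_fin]
    exact hdet
  · show g.1 = (c : F) • (((c⁻¹ : Fˣ) : F) • g.1)
    rw [smul_smul, Units.mul_inv, one_smul]

theorem compln_holds : TaskAUTN → TaskCOMPLN := by
  intro hA F _ _ n hn hc
  refine ⟨TT n F, ?_, ?_⟩
  · rw [Subgroup.disjoint_def]
    intro f hf hr
    exact disj hn hf hr
  · rw [codisjoint_iff, eq_top_iff]
    intro f _
    obtain ⟨g, φ, hg⟩ := hA F n hn f
    obtain ⟨c, h, hc0, hgh⟩ := exists_sl hc g
    have hkey : ∀ A B : SLn n F, ((f A : SLn n F) : Mn n F) * g.1 = g.1 * (B : Mn n F) →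
        h⁻¹ * f A * h = B := by
      intro A B hAB
      rw [hgh, mul_smul_comm, smul_mul_assoc] at hAB
      have h1 : ((f A : SLn n F) : Mn n F) * (h : Mn n F) = (h : Mn n F) * (B : Mn n F) :=
        smul_right_injective _ hc0 hAB
      have h2 : f A * h = h * B := Subtype.ext h1
      rw [mul_assoc, h2, inv_mul_cancel_left]
    have ht : (MulAut.conj h)⁻¹ * f ∈ TT n F := by
      rcases hg with hg | hg
      · refine ⟨φ, Or.inl fun A => ?_⟩
        have h3 := hkey A (Matrix.SpecialLinearGroup.map (φ : F →+* F) A) (hg A)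
        rw [MulAut.mul_apply, MulAut.conj_inv_apply, h3]
        rfl
      · refine ⟨φ, Or.inr fun A => ?_⟩
        have h3 := hkey A (Matrix.SpecialLinearGroup.map (φ : F →+* F)
          (Matrix.SpecialLinearGroup.transpose A⁻¹)) (hg A)
        rw [MulAut.mul_apply, MulAut.conj_inv_apply, h3]
        rfl
    have e : f = MulAut.conj h * ((MulAut.conj h)⁻¹ * f) := by
      rw [mul_inv_cancel_left]
    rw [e]
    exact mul_mem (Subgroup.mem_sup_right ⟨h, rfl⟩) (Subgroup.mem_sup_left ht)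

end Pool.Agent.Y419.DCN
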