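import Mathlib
import Pool.Agent.H84.L.S8_Y60_DC_Def



/-!
# Task statements of the project DC (NOT results)
-/

set_option autoImplicit false

namespace Pool.Agent.Y60.DC

/- DC-AUT: every automorphism of `PSL_2(F)`, `F` a finite field with at least four elements, is
induced by `A ↦ g φ(A) g⁻¹` with `g ∈ GL_2(F)` and a field automorphism `φ`. -/
def TaskAUT : Prop :=
  ∀ (F : Type) [Field F] [Finite F], 4 ≤ Nat.card F → ∀ f : MulAut (PSL2 F),
    ∃ (g : GL (Fin 2) F) (φ : F ≃+* F), ∀ A B : Matrix.SpecialLinearGroup (Fin 2) F,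
      (B : Matrix (Fin 2) (Fin 2) F) * g.1 = g.1 * (A : Matrix (Fin 2) (Fin 2) F).map φ →
      f (QuotientGroup.mk A) = QuotientGroup.mk B

/- DC-CF: a nontrivial normal subgroup `N` of a finite group `X`, whose composition factors belong
to a class `S` of simple groups, contains a normal subgroup `M ≠ 1` of `X` isomorphic to a direct
power of a member of `S`, and the composition factors of `N / M` belong to `S`. -/
def TaskCF : Prop :=
  ∀ (S : ∀ (T : Type) [Group T], Prop),
    (∀ (T T' : Type) [Group T] [Group T'], Nonempty (T ≃* T') → S T → S T') →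
    (∀ (T : Type) [Group T], S T → IsSimpleGroup T) →
    ∀ (X : Type) [Group X] [Finite X] (N : Subgroup X) [N.Normal], N ≠ ⊥ → CompIn S N →
    ∃ (M : Subgroup X) (hM : M.Normal), M ≤ N ∧ M ≠ ⊥ ∧
      (∃ (T : Type) (_ : Group T) (m : ℕ), S T ∧ Nonempty (M ≃* (Fin m → T))) ∧
      CompIn S (N.map (QuotientGroup.mk' M))

end Pool.Agent.Y60.DC
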