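import Mathlib
import Pool.Agent.H84.L.S8_Y60_DC_Def
import Pool.Agent.H84.L.S8_Y60_DC_Stm

namespace Pool.Agent.Y60.DC
end Pool.Agent.Y60.DC


/-!
# Project DC (helper60), job DC-CF: composition factors and minimal normal subgroups
-/

set_option autoImplicit false

namespace Pool.Agent.Y419.DC

open Pool.Agent.Y60.DC

section comp

variable {S : ∀ (T : Type) [Group T], Prop}

theorem ext' (hiso : ∀ (T T' : Type) [Group T] [Group T'], Nonempty (T ≃* T') → S T → S T')
    {A B : Type} [Group A] [Group B] (f : A →* B) (hf : Function.Surjective f)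
    (hk : CompIn S f.ker) (hB : S B) : CompIn S A :=
  CompIn.ext A f.ker hk
    (hiso B (A ⧸ f.ker) ⟨(QuotientGroup.quotientKerEquivOfSurjective f hf).symm⟩ hB)

/- invariance under isomorphism and passage to quotients -/
theorem quot (hiso : ∀ (T T' : Type) [Group T] [Group T'], Nonempty (T ≃* T') → S T → S T')
    (hsim : ∀ (T : Type) [Group T], S T → IsSimpleGroup T) {N : Type} [iN : Group N]
    (h : CompIn S N) : ∀ (B : Type) [Group B] (f : N →* B), Function.Surjective f →
      CompIn S B := by
  induction h with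
  | one N h =>
    intro B _ f hf
    refine CompIn.one B ⟨fun a b => ?_⟩
    obtain ⟨a', rfl⟩ := hf a
    obtain ⟨b', rfl⟩ := hf b
    rw [Subsingleton.elim a' b']
  | ext N M hM hS ih =>
    intro B _ f hf
    have hnorm : (M.map f).Normal := Subgroup.Normal.map inferInstance f hf
    have h1 : CompIn S (M.map f) := ih (M.map f) (f.subgroupMap M) (f.subgroupMap_surjective M)
    have hs := hsim _ hS
    -- the map on the quotients
    let g : N ⧸ M →* B ⧸ (M.map f) := QuotientGroup.map M (M.map f) f (by
      intro x hx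
      exact Subgroup.mem_comap.2 (Subgroup.mem_map_of_mem f hx))
    have hg : Function.Surjective g := by
      intro b
      obtain ⟨b', rfl⟩ := QuotientGroup.mk_surjective b
      obtain ⟨a, rfl⟩ := hf b'
      exact ⟨QuotientGroup.mk a, rfl⟩
    rcases hs.eq_bot_or_eq_top_of_normal g.ker inferInstance with h2 | h2
    · have hinj : Function.Injective g := (MonoidHom.ker_eq_bot_iff g).1 h2
      exact CompIn.ext B (M.map f) h1
        (hiso _ _ ⟨MulEquiv.ofBijective g ⟨hinj, hg⟩⟩ hS)
    · -- the quotient is trivial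
      have h3 : M.map f = ⊤ := by
        rw [eq_top_iff]
        intro b _
        obtain ⟨a, ha⟩ := hg (QuotientGroup.mk b)
        have h4 : a ∈ g.ker := by rw [h2]; trivial
        rw [MonoidHom.mem_ker] at h4
        rw [h4] at ha
        exact (QuotientGroup.eq_one_iff b).1 ha.symm
      have h5 := ih B (f.comp M.subtype) (by
        intro b
        have hb : b ∈ M.map f := by rw [h3]; trivial
        obtain ⟨a, ha, hab⟩ := hb
        exact ⟨⟨a, ha⟩, hab⟩)
      exact h5

/- passage to normal subgroups -/
theorem sub (hiso : ∀ (T T' : Type) [Group T] [Group T'], Nonempty (T ≃* T') → S T → S T')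
    (hsim : ∀ (T : Type) [Group T], S T → IsSimpleGroup T) {N : Type} [iN : Group N]
    (h : CompIn S N) : ∀ (H : Type) [Group H] (f : H →* N), Function.Injective f →
      f.range.Normal → CompIn S H := by
  induction h with
  | one N h =>
    intro H _ f hf _
    exact CompIn.one H ⟨fun a b => hf (Subsingleton.elim _ _)⟩
  | ext N M hM hS ih =>
    intro H _ f hf hn
    have hs := hsim _ hS
    set φ : H →* N ⧸ M := (QuotientGroup.mk' M).comp f with hφ
    have hrn : φ.range.Normal := by
      rw [hφ, MonoidHom.range_comp]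
      exact Subgroup.Normal.map hn _ (QuotientGroup.mk'_surjective M)
    have hkerM : ∀ x : φ.ker, f x.1 ∈ M := by
      intro x
      have := x.2
      rw [MonoidHom.mem_ker] at this
      exact (QuotientGroup.eq_one_iff _).1 this
    have hker : CompIn S φ.ker := by
      refine ih φ.ker ((f.comp φ.ker.subtype).codRestrict M hkerM) ?_ ?_
      · intro a b hab
        have h1 : f a.1 = f b.1 := congrArg (fun z : M => (z : N)) hab
        exact Subtype.ext (hf h1)
      · constructor
        rintro x ⟨y, rfl⟩ g
        have h1 : (g : N) * f y.1 * (g : N)⁻¹ ∈ f.range := hn.conj_mem _ ⟨y.1, rfl⟩ _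
        obtain ⟨z, hz⟩ := h1
        have h2 : z ∈ φ.ker := by
          rw [MonoidHom.mem_ker]
          change (QuotientGroup.mk' M) (f z) = 1
          rw [hz]
          exact (QuotientGroup.eq_one_iff _).2 (M.mul_mem (M.mul_mem g.2 (hkerM y)) (M.inv_mem g.2))
        refine ⟨⟨z, h2⟩, Subtype.ext ?_⟩
        exact hz
    rcases hs.eq_bot_or_eq_top_of_normal φ.range hrn with h2 | h2
    · -- H ≤ M
      have h3 : ∀ x : H, x ∈ φ.ker := by
        intro x
        rw [MonoidHom.mem_ker, ← Subgroup.mem_bot, ← h2]
        exact ⟨x, rfl⟩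
      exact quot hiso hsim hker H φ.ker.subtype (fun x => ⟨⟨x, h3 x⟩, rfl⟩)
    · exact ext' hiso φ (MonoidHom.range_eq_top.1 h2) hker hS

theorem simple_mem (hiso : ∀ (T T' : Type) [Group T] [Group T'], Nonempty (T ≃* T') → S T → S T')
    (hsim : ∀ (T : Type) [Group T], S T → IsSimpleGroup T) {T : Type} [iT : Group T]
    [hT : IsSimpleGroup T] (h : CompIn S T) : S T := by
  cases h with
  | one _ h => exact absurd h (not_subsingleton T)
  | ext _ M hM hS =>
    have h1 := hsim _ hS
    have h2 : M ≠ ⊤ := by
      rintro rfl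
      have h3 := h1.toNontrivial
      exact not_subsingleton (T ⧸ (⊤ : Subgroup T)) QuotientGroup.subsingleton_quotient_top
    have h3 : M = ⊥ := (hT.eq_bot_or_eq_top_of_normal M inferInstance).resolve_right h2
    subst h3
    exact hiso _ _ ⟨QuotientGroup.quotientBot⟩ hS

end comp

section simp

variable {G : Type} [Group G] [Finite G] [Nontrivial G]

theorem conj_single {T : Type} [Group T] {m : ℕ} (i : Fin m) (f : Fin m → T) (k : T) :
    f * Pi.mulSingle i k * f⁻¹ = Pi.mulSingle i (f i * k * (f i)⁻¹) := by
  funext j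
  rw [Pi.mul_apply, Pi.mul_apply, Pi.inv_apply]
  by_cases h : j = i
  · subst h
    rw [Pi.mulSingle_eq_same, Pi.mulSingle_eq_same]
  · rw [Pi.mulSingle_eq_of_ne h, Pi.mulSingle_eq_of_ne h, mul_one, mul_inv_cancel]

/- the structure of the groups without invariant normal subgroups -/
theorem struct (X : Type) [Group X] (𝒜 : X →* MulAut G)
    (hinv : ∀ K : Subgroup G, K.Normal → (∀ x : X, ∀ k ∈ K, 𝒜 x k ∈ K) → K ≠ ⊥ → K = ⊤) :
    ∃ (T : Subgroup G) (m : ℕ), T.Normal ∧ IsSimpleGroup T ∧ Nonempty (G ≃* (Fin m → T)) := by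
  classical
  -- a normal subgroup of minimal cardinality
  obtain ⟨T, ⟨hTn, hTb⟩, hTmin⟩ : ∃ T : Subgroup G, (T.Normal ∧ T ≠ ⊥) ∧
      ∀ K : Subgroup G, K.Normal ∧ K ≠ ⊥ → Nat.card T ≤ Nat.card K := by
    have hne : {n : ℕ | ∃ K : Subgroup G, (K.Normal ∧ K ≠ ⊥) ∧ Nat.card K = n}.Nonempty :=
      ⟨_, ⊤, ⟨inferInstance, top_ne_bot⟩, rfl⟩
    obtain ⟨T, hT, hTc⟩ := Nat.sInf_mem hne
    refine ⟨T, hT, fun K hK => ?_⟩
    rw [hTc]
    exact Nat.sInf_le ⟨K, hK, rfl⟩
  have hTnt : Nontrivial T := (Subgroup.nontrivial_iff_ne_bot T).2 hTb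
  -- the translates
  have hker : ∃ (m : ℕ) (φ : (Fin m → T) →* G), Function.Injective φ ∧ φ.range = ⊤ := by
    by_contra hcon
    have hall : ∀ m : ℕ, ∃ φ : (Fin m → T) →* G, Function.Injective φ ∧ φ.range.Normal := by
      intro m
      induction m with
      | zero =>
        refine ⟨1, ?_, ?_⟩
        · intro a b _
          exact Subsingleton.elim _ _
        · have : (1 : (Fin 0 → T) →* G).range = ⊥ := by
            rw [eq_bot_iff]
            rintro _ ⟨y, rfl⟩
            rfl
          rw [this]
          infer_instance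
      | succ m ih =>
        obtain ⟨φ, hφ, hφn⟩ := ih
        set D := φ.range with hD
        -- some translate is not contained in D
        have hx : ∃ x : X, ¬ ∀ t ∈ T, 𝒜 x t ∈ D := by
          by_contra hcon2
          push Not at hcon2
          apply hcon
          refine ⟨m, φ, hφ, ?_⟩
          set K : Subgroup G := Subgroup.closure {g | ∃ x : X, ∃ t ∈ T, 𝒜 x t = g} with hK
          have hKD : K ≤ D := by
            rw [hK, Subgroup.closure_le]
            rintro g ⟨x, t, ht, rfl⟩
            exact hcon2 x t ht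
          have hKn : K.Normal := by
            refine Subgroup.Normal.mk ?_
            intro n hn g
            have h1 : K ≤ K.comap (MulAut.conj g).toMonoidHom := by
              rw [hK, Subgroup.closure_le]
              rintro k ⟨x, t, ht, rfl⟩
              rw [SetLike.mem_coe, Subgroup.mem_comap]
              refine Subgroup.subset_closure ?_
              refine ⟨x, (𝒜 x).symm g * t * ((𝒜 x).symm g)⁻¹, hTn.conj_mem t ht _, ?_⟩
              rw [map_mul, map_mul, map_inv, MulEquiv.apply_symm_apply]
              rfl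
            exact h1 hn
          have hKi : ∀ x : X, ∀ k ∈ K, 𝒜 x k ∈ K := by
            intro x k hk
            have h1 : K ≤ K.comap (𝒜 x).toMonoidHom := by
              rw [hK, Subgroup.closure_le]
              rintro k ⟨y, t, ht, rfl⟩
              rw [SetLike.mem_coe, Subgroup.mem_comap]
              refine Subgroup.subset_closure ?_
              refine ⟨x * y, t, ht, ?_⟩
              rw [map_mul]
              rfl
            exact h1 hk
          have hKb : K ≠ ⊥ := by
            intro h0
            apply hTb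
            rw [eq_bot_iff]
            intro t ht
            rw [← h0]
            refine Subgroup.subset_closure ⟨1, t, ht, ?_⟩
            rw [map_one]
            rfl
          have := hinv K hKn hKi hKb
          rw [this] at hKD
          exact top_le_iff.1 hKD
        obtain ⟨x, hx⟩ := hx
        -- the translate
        set τ : T →* G := (𝒜 x).toMonoidHom.comp T.subtype with hτ
        have hτi : Function.Injective τ := by
          intro a b hab
          exact Subtype.ext ((𝒜 x).injective hab)
        have hτn : τ.range.Normal := by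
          constructor
          rintro _ ⟨t, rfl⟩ g
          refine ⟨⟨(𝒜 x).symm g * t.1 * ((𝒜 x).symm g)⁻¹, hTn.conj_mem _ t.2 _⟩, ?_⟩
          change 𝒜 x ((𝒜 x).symm g * t.1 * ((𝒜 x).symm g)⁻¹) = g * 𝒜 x t.1 * g⁻¹
          rw [map_mul, map_mul, map_inv, MulEquiv.apply_symm_apply]
        have hcardτ : Nat.card τ.range = Nat.card T :=
          (Nat.card_congr (MonoidHom.ofInjective hτi).toEquiv).symm
        have hdis : τ.range ⊓ D = ⊥ := by
          by_contra hne
          have h1 := hTmin (τ.range ⊓ D) ⟨inferInstance, hne⟩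
          rw [← hcardτ] at h1
          have h2 : τ.range ⊓ D = τ.range := Subgroup.eq_of_le_of_card_ge inf_le_left h1
          apply hx
          intro t ht
          have h3 : τ ⟨t, ht⟩ ∈ τ.range ⊓ D := by
            rw [h2]
            exact ⟨_, rfl⟩
          exact h3.2
        have hcomm : ∀ (t : T) (f : Fin m → T), Commute (τ t) (φ f) := by
          intro t f
          exact Subgroup.commute_of_normal_of_disjoint τ.range D hτn hφn
            (disjoint_iff.2 hdis) _ _ ⟨t, rfl⟩ ⟨f, rfl⟩
        let ψ : (Fin (m + 1) → T) →* G :=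
          { toFun := fun f => τ (f 0) * φ (fun i => f i.succ)
            map_one' := by
              have h1 : (fun i : Fin m => (1 : Fin (m + 1) → T) i.succ) = 1 := rfl
              rw [h1, map_one, Pi.one_apply, map_one, mul_one]
            map_mul' := by
              intro f g
              have h1 : (fun i : Fin m => (f * g) i.succ) =
                (fun i : Fin m => f i.succ) * (fun i : Fin m => g i.succ) := rfl
              rw [h1, map_mul, Pi.mul_apply, map_mul]
              have h2 := (hcomm (g 0) (fun i : Fin m => f i.succ)).eq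
              calc τ (f 0) * τ (g 0) * (φ (fun i => f i.succ) * φ (fun i => g i.succ))
                  = τ (f 0) * (τ (g 0) * φ (fun i => f i.succ)) * φ (fun i => g i.succ) := by
                    simp only [mul_assoc]
                _ = τ (f 0) * (φ (fun i => f i.succ) * τ (g 0)) * φ (fun i => g i.succ) := by
                    rw [h2]
                _ = _ := by simp only [mul_assoc] }
        have hψ : ∀ f, ψ f = τ (f 0) * φ (fun i => f i.succ) := fun f => rfl
        refine ⟨ψ, ?_, ?_⟩
        · rw [injective_iff_map_eq_one]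
          intro f hf
          rw [hψ] at hf
          have h1 : τ (f 0) ∈ τ.range ⊓ D := by
            refine ⟨⟨_, rfl⟩, ?_⟩
            rw [mul_eq_one_iff_eq_inv] at hf
            rw [hf]
            exact D.inv_mem ⟨_, rfl⟩
          rw [hdis, Subgroup.mem_bot] at h1
          rw [h1, one_mul] at hf
          have h2 : f 0 = 1 := hτi (by rw [h1, map_one])
          have h3 : (fun i : Fin m => f i.succ) = 1 := hφ (by rw [hf, map_one])
          funext j
          refine Fin.cases ?_ (fun i => ?_) j
          · exact h2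
          · exact congrFun h3 i
        · constructor
          rintro _ ⟨f, rfl⟩ g
          rw [hψ]
          obtain ⟨t, ht⟩ : g * τ (f 0) * g⁻¹ ∈ τ.range := hτn.conj_mem _ ⟨_, rfl⟩ _
          obtain ⟨d, hd⟩ : g * φ (fun i => f i.succ) * g⁻¹ ∈ D := hφn.conj_mem _ ⟨_, rfl⟩ _
          refine ⟨Fin.cons t d, ?_⟩
          rw [hψ]
          have h1 : (fun i : Fin m => (Fin.cons t d : Fin (m + 1) → T) i.succ) = d := by
            funext i
            rw [Fin.cons_succ]
          rw [h1, Fin.cons_zero, ht, hd]
          group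
    -- the cardinality
    obtain ⟨φ, hφ, -⟩ := hall (Nat.card G)
    have h1 := Nat.card_le_card_of_injective φ hφ
    rw [Nat.card_fun, Nat.card_fin] at h1
    have h2 : 2 ≤ Nat.card T := Finite.one_lt_card
    have h3 : 2 ^ Nat.card G ≤ Nat.card T ^ Nat.card G := Nat.pow_le_pow_left h2 _
    have h4 : Nat.card G < 2 ^ Nat.card G := Nat.lt_two_pow_self
    omega
  obtain ⟨m, φ, hφ, hφt⟩ := hker
  have hφs : Function.Surjective φ := MonoidHom.range_eq_top.1 hφt
  have e : (Fin m → T) ≃* G := MulEquiv.ofBijective φ ⟨hφ, hφs⟩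
  refine ⟨T, m, hTn, ?_, ⟨e.symm⟩⟩
  have hm : 0 < m := by
    rcases Nat.eq_zero_or_pos m with h | h
    · subst h
      exfalso
      have : Subsingleton G := e.toEquiv.symm.subsingleton
      exact not_subsingleton G this
    · exact h
  set i0 : Fin m := ⟨0, hm⟩ with hi0
  refine ⟨fun K hK => ?_⟩
  by_cases hKb : K = ⊥
  · exact Or.inl hKb
  right
  -- the subgroup of the first factor
  set ψ : T →* G := φ.comp (MonoidHom.mulSingle (fun _ => T) i0) with hψ
  have hψi : Function.Injective ψ := by
    intro a b hab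
    have h1 : (Pi.mulSingle i0 a : Fin m → T) = Pi.mulSingle i0 b := hφ hab
    exact Pi.mulSingle_injective i0 h1
  have hn : (K.map ψ).Normal := by
    constructor
    rintro _ ⟨k, hk, rfl⟩ g
    obtain ⟨f, rfl⟩ := hφs g
    refine ⟨f i0 * k * (f i0)⁻¹, hK.conj_mem k hk _, ?_⟩
    change φ (Pi.mulSingle i0 (f i0 * k * (f i0)⁻¹)) = φ f * φ (Pi.mulSingle i0 k) * (φ f)⁻¹
    rw [← conj_single, map_mul, map_mul, map_inv]
  have hne : K.map ψ ≠ ⊥ := by
    intro h0
    exact hKb ((Subgroup.map_eq_bot_iff_of_injective K hψi).1 h0)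
  have h1 := hTmin _ ⟨hn, hne⟩
  have h2 : Nat.card (K.map ψ) = Nat.card K :=
    (Nat.card_congr (K.equivMapOfInjective ψ hψi).toEquiv).symm
  rw [h2] at h1
  exact Subgroup.eq_top_of_le_card K h1

end simp

theorem cf_holds : TaskCF := by
  classical
  intro S hiso hsim X _ _ N hN hNb hcomp
  -- a minimal normal subgroup
  obtain ⟨M, ⟨hMn, hMN, hMb⟩, hMmin⟩ : ∃ M : Subgroup X, (M.Normal ∧ M ≤ N ∧ M ≠ ⊥) ∧
      ∀ K : Subgroup X, K.Normal ∧ K ≤ N ∧ K ≠ ⊥ → Nat.card M ≤ Nat.card K := by
    have hne : {n : ℕ | ∃ K : Subgroup X, (K.Normal ∧ K ≤ N ∧ K ≠ ⊥) ∧ Nat.card K = n}.Nonempty :=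
      ⟨_, N, ⟨hN, le_rfl, hNb⟩, rfl⟩
    obtain ⟨T, hT, hTc⟩ := Nat.sInf_mem hne
    refine ⟨T, hT, fun K hK => ?_⟩
    rw [hTc]
    exact Nat.sInf_le ⟨K, hK, rfl⟩
  have hMnt : Nontrivial M := (Subgroup.nontrivial_iff_ne_bot M).2 hMb
  obtain ⟨T, m, hTn, hTs, ⟨e⟩⟩ := struct (G := M) X MulAut.conjNormal (by
    intro K hK hinv hKb
    have h1 : (K.map M.subtype).Normal := by
      constructor
      rintro _ ⟨k, hk, rfl⟩ g
      refine ⟨MulAut.conjNormal g k, hinv g k hk, ?_⟩
      rw [Subgroup.coe_subtype, MulAut.conjNormal_apply]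
    have h2 : K.map M.subtype ≤ M := Subgroup.map_subtype_le K
    have h3 : K.map M.subtype ≠ ⊥ := by
      intro h0
      exact hKb ((Subgroup.map_eq_bot_iff_of_injective K M.subtype_injective).1 h0)
    have h4 := hMmin _ ⟨h1, h2.trans hMN, h3⟩
    have h5 : Nat.card (K.map M.subtype) = Nat.card K :=
      (Nat.card_congr (K.equivMapOfInjective M.subtype M.subtype_injective).toEquiv).symm
    rw [h5] at h4
    exact Subgroup.eq_top_of_le_card K h4)
  have hMc : CompIn S M := by
    refine sub hiso hsim hcomp M (Subgroup.inclusion hMN) (Subgroup.inclusion_injective hMN) ?_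
    constructor
    rintro _ ⟨y, rfl⟩ g
    refine ⟨⟨g.1 * y.1 * g.1⁻¹, hMn.conj_mem _ y.2 _⟩, ?_⟩
    exact Subtype.ext rfl
  have hTc : CompIn S T := by
    refine sub hiso hsim hMc T T.subtype T.subtype_injective ?_
    rw [Subgroup.range_subtype]
    exact hTn
  refine ⟨M, hMn, hMN, hMb, ⟨T, inferInstance, m, simple_mem hiso hsim hTc, ⟨e⟩⟩, ?_⟩
  exact quot hiso hsim hcomp _ ((QuotientGroup.mk' M).subgroupMap N)
    ((QuotientGroup.mk' M).subgroupMap_surjective N)

end Pool.Agent.Y419.DC
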