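import Mathlib



/-!
# Extension of scalars of a finite ring of characteristic `p`

`T = U ⊗ R` over the prime field; the actions of ring homomorphisms of `U` and of `R`.
-/

set_option autoImplicit false

open TensorProduct

namespace Pool.Agent.Y60.DC

variable {p : ℕ} [Fact p.Prime]

/- Ring homomorphisms are linear over the prime field. -/
def zAlg {A B : Type} [Ring A] [Ring B] [Algebra (ZMod p) A] [Algebra (ZMod p) B] (f : A →+* B) :
    A →ₐ[ZMod p] B :=
  { f with
    commutes' := fun x => RingHom.congr_fun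
      (Subsingleton.elim (f.comp (algebraMap (ZMod p) A)) (algebraMap (ZMod p) B)) x }

section tens

variable {U U' U'' : Type} [CommRing U] [Algebra (ZMod p) U] [CommRing U']
  [Algebra (ZMod p) U'] [CommRing U''] [Algebra (ZMod p) U''] {R : Type} [Ring R]
  [Algebra (ZMod p) R]

/- The map `σ ⊗ id`. -/
noncomputable def tm (σ : U →+* U') : (U ⊗[ZMod p] R) →+* (U' ⊗[ZMod p] R) :=
  (Algebra.TensorProduct.map (zAlg (p := p) σ) (AlgHom.id (ZMod p) R)).toRingHom

/- The map `id ⊗ ρ`. -/
noncomputable def rm (ρ : R →+* R) : (U ⊗[ZMod p] R) →+* (U ⊗[ZMod p] R) :=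
  (Algebra.TensorProduct.map (AlgHom.id (ZMod p) U) (zAlg (p := p) ρ)).toRingHom

/- The constants. -/
noncomputable def em : R →+* (U ⊗[ZMod p] R) :=
  (Algebra.TensorProduct.includeRight : R →ₐ[ZMod p] U ⊗[ZMod p] R).toRingHom

theorem tm_tmul (σ : U →+* U') (u : U) (r : R) : tm σ (u ⊗ₜ[ZMod p] r) = σ u ⊗ₜ r :=
  Algebra.TensorProduct.map_tmul _ _ _ _

theorem rm_tmul (ρ : R →+* R) (u : U) (r : R) : rm ρ (u ⊗ₜ[ZMod p] r) = u ⊗ₜ ρ r :=
  Algebra.TensorProduct.map_tmul _ _ _ _

theorem em_apply (r : R) : (em r : U ⊗[ZMod p] R) = 1 ⊗ₜ r := rfl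

/- Induction for additive statements. -/
@[elab_as_elim]
theorem tens_ind {P : (U ⊗[ZMod p] R) → Prop} (h : ∀ u r, P (u ⊗ₜ r))
    (ha : ∀ a b, P a → P b → P (a + b)) (z : U ⊗[ZMod p] R) : P z := by
  refine TensorProduct.induction_on z ?_ h ha
  have h1 := h 0 0
  rwa [TensorProduct.zero_tmul] at h1

theorem tm_tm (τ : U' →+* U'') (σ : U →+* U') (z : U ⊗[ZMod p] R) :
    tm τ (tm σ z) = tm (τ.comp σ) z := by
  refine tens_ind (fun u r => ?_) (fun a b ha hb => ?_) z
  · rw [tm_tmul, tm_tmul, tm_tmul]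
    rfl
  · simp only [map_add, ha, hb]

theorem tm_id (z : U ⊗[ZMod p] R) : tm (RingHom.id U) z = z := by
  refine tens_ind (fun u r => ?_) (fun a b ha hb => ?_) z
  · rw [tm_tmul]
    rfl
  · simp only [map_add, ha, hb]

theorem rm_rm (τ σ : R →+* R) (z : U ⊗[ZMod p] R) : rm τ (rm σ z) = rm (τ.comp σ) z := by
  refine tens_ind (fun u r => ?_) (fun a b ha hb => ?_) z
  · rw [rm_tmul, rm_tmul, rm_tmul]
    rfl
  · simp only [map_add, ha, hb]

theorem rm_id (z : U ⊗[ZMod p] R) : rm (RingHom.id R) z = z := by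
  refine tens_ind (fun u r => ?_) (fun a b ha hb => ?_) z
  · rw [rm_tmul]
    rfl
  · simp only [map_add, ha, hb]

theorem tm_rm (σ : U →+* U') (ρ : R →+* R) (z : U ⊗[ZMod p] R) :
    tm σ (rm ρ z) = rm ρ (tm σ z) := by
  refine tens_ind (fun u r => ?_) (fun a b ha hb => ?_) z
  · rw [rm_tmul, tm_tmul, tm_tmul, rm_tmul]
  · simp only [map_add, ha, hb]

theorem tm_em (σ : U →+* U') (r : R) : tm σ (em r : U ⊗[ZMod p] R) = em r := by
  rw [em_apply, em_apply, tm_tmul, map_one]

theorem rm_em (ρ : R →+* R) (r : R) : rm ρ (em r : U ⊗[ZMod p] R) = em (ρ r) := by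
  rw [em_apply, em_apply, rm_tmul]

theorem tm_smul (σ : U →+* U') (u : U) (z : U ⊗[ZMod p] R) : tm σ (u • z) = σ u • tm σ z := by
  refine tens_ind (fun v r => ?_) (fun a b ha hb => ?_) z
  · rw [TensorProduct.smul_tmul', tm_tmul, tm_tmul, TensorProduct.smul_tmul', smul_eq_mul,
      map_mul, smul_eq_mul]
  · simp only [map_add, smul_add, ha, hb]

theorem rm_smul (ρ : R →+* R) (u : U) (z : U ⊗[ZMod p] R) : rm ρ (u • z) = u • rm ρ z := by
  refine tens_ind (fun v r => ?_) (fun a b ha hb => ?_) z
  · rw [TensorProduct.smul_tmul', rm_tmul, rm_tmul, TensorProduct.smul_tmul']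
  · simp only [map_add, smul_add, ha, hb]

/- The Frobenius map. -/
noncomputable def fr [CharP U p] : (U ⊗[ZMod p] R) →+* (U ⊗[ZMod p] R) := tm (frobenius U p)

/-! ### Coordinates -/

variable [Finite R]

instance finMod : Module.Finite (ZMod p) R := Module.Finite.of_finite

variable (p R) in
/- A basis of the finite ring. -/
noncomputable def eb : Module.Basis (Fin (Module.finrank (ZMod p) R)) (ZMod p) R :=
  Module.finBasis (ZMod p) R

variable (p U R) in
/- The basis of the extension of scalars. -/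
noncomputable def eU : Module.Basis (Fin (Module.finrank (ZMod p) R)) U (U ⊗[ZMod p] R) :=
  Algebra.TensorProduct.basis U (eb p R)

/- Coordinates. -/
noncomputable def cf (z : U ⊗[ZMod p] R) (i : Fin (Module.finrank (ZMod p) R)) : U :=
  (eU p U R).repr z i

theorem eU_apply (i : Fin (Module.finrank (ZMod p) R)) :
    eU p U R i = em (eb p R i) := Algebra.TensorProduct.basis_apply (eb p R) i

theorem cf_tmul (u : U) (r : R) (i : Fin (Module.finrank (ZMod p) R)) :
    cf (u ⊗ₜ[ZMod p] r) i = u * algebraMap (ZMod p) U ((eb p R).repr r i) := by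
  unfold cf eU
  rw [Algebra.TensorProduct.basis_repr_tmul]
  rfl

theorem cf_em (r : R) (i : Fin (Module.finrank (ZMod p) R)) :
    cf (em r : U ⊗[ZMod p] R) i = algebraMap (ZMod p) U ((eb p R).repr r i) := by
  rw [em_apply, cf_tmul, one_mul]

theorem cf_add (z w : U ⊗[ZMod p] R) (i : Fin (Module.finrank (ZMod p) R)) :
    cf (z + w) i = cf z i + cf w i := by
  unfold cf
  rw [map_add]
  rfl

theorem cf_smul (u : U) (z : U ⊗[ZMod p] R) (i : Fin (Module.finrank (ZMod p) R)) :
    cf (u • z) i = u * cf z i := by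
  unfold cf
  rw [map_smul]
  rfl

theorem cf_sum {J : Type} (s : Finset J) (z : J → U ⊗[ZMod p] R)
    (i : Fin (Module.finrank (ZMod p) R)) : cf (∑ j ∈ s, z j) i = ∑ j ∈ s, cf (z j) i := by
  unfold cf
  rw [map_sum, Finsupp.finset_sum_apply]

theorem sum_cf (z : U ⊗[ZMod p] R) : ∑ i, cf z i • (em (eb p R i) : U ⊗[ZMod p] R) = z := by
  have h := (eU p U R).sum_repr z
  simp only [eU_apply] at h
  exact h

theorem cf_ext {z w : U ⊗[ZMod p] R} (h : ∀ i, cf z i = cf w i) : z = w := by
  rw [← sum_cf z, ← sum_cf w]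
  exact Finset.sum_congr rfl fun i _ => by rw [h]

theorem cf_tm (σ : U →+* U') (z : U ⊗[ZMod p] R) (i : Fin (Module.finrank (ZMod p) R)) :
    cf (tm σ z) i = σ (cf z i) := by
  refine tens_ind (fun u r => ?_) (fun a b ha hb => ?_) z
  · rw [tm_tmul, cf_tmul, cf_tmul, map_mul]
    congr 1
    exact ((zAlg (p := p) σ : U →ₐ[ZMod p] U').commutes _).symm
  · rw [map_add, cf_add, cf_add, map_add, ha, hb]

end tens

section tens2

variable {U : Type} [Field U] [Algebra (ZMod p) U] {R : Type} [Ring R] [Algebra (ZMod p) R]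
  [Finite R]

theorem em_injective : Function.Injective (em : R → U ⊗[ZMod p] R) := by
  intro r s h
  apply (eb p R).repr.injective
  apply Finsupp.ext
  intro i
  apply (algebraMap (ZMod p) U).injective
  rw [← cf_em, ← cf_em, h]


/- The fixed elements of Frobenius are the constants. -/
theorem fr_fixed [CharP U p] (z : U ⊗[ZMod p] R) (h : fr z = z) : ∃ r : R, em r = z := by
  have h1 : ∀ i, ∃ c : ZMod p, algebraMap (ZMod p) U c = cf z i := by
    intro i
    have h2 : (cf z i) ^ p = cf z i := by
      have h3 := cf_tm (frobenius U p) z i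
      rw [show tm (frobenius U p) z = z from h] at h3
      exact h3.symm
    have h4 := (Subfield.mem_bot_iff_pow_eq_self (F := U) (p := p) (x := cf z i)).2 h2
    have h5 : (⊥ : Subfield U) ≤ (algebraMap (ZMod p) U).fieldRange := bot_le
    exact h5 h4
  choose c hc using h1
  refine ⟨∑ i, c i • eb p R i, ?_⟩
  rw [map_sum, ← sum_cf z]
  refine Finset.sum_congr rfl fun i _ => ?_
  rw [← hc, em_apply, em_apply, TensorProduct.tmul_smul, TensorProduct.smul_tmul',
    TensorProduct.smul_tmul', smul_eq_mul, mul_one, Algebra.smul_def, mul_one]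

theorem fr_tm [CharP U p] (σ : U →+* U) (z : U ⊗[ZMod p] R) : fr (tm σ z) = tm σ (fr z) := by
  have h : (frobenius U p).comp σ = σ.comp (frobenius U p) := by
    apply RingHom.ext
    intro x
    change (σ x) ^ p = σ (x ^ p)
    rw [map_pow]
  unfold fr
  rw [tm_tm, tm_tm, h]

theorem fr_rm [CharP U p] (ρ : R →+* R) (z : U ⊗[ZMod p] R) : fr (rm ρ z) = rm ρ (fr z) :=
  tm_rm _ _ _

theorem fr_em [CharP U p] (r : R) : fr (em r : U ⊗[ZMod p] R) = em r := tm_em _ _

/-! ### Elements with coordinates in a subfield -/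

theorem alg_mem (H : Subfield U) (c : ZMod p) : algebraMap (ZMod p) U c ∈ H := by
  have h1 : ((algebraMap (ZMod p) U).fieldRange : Subfield U) ≤ H := by
    rintro _ ⟨x, rfl⟩
    rw [← ZMod.natCast_zmod_val x, map_natCast]
    exact natCast_mem H _
  exact h1 ⟨c, rfl⟩

/- The coordinates lie in `H`. -/
def InH (H : Subfield U) (z : U ⊗[ZMod p] R) : Prop := ∀ i, cf z i ∈ H

theorem inH_em (H : Subfield U) (r : R) : InH H (em r : U ⊗[ZMod p] R) := fun i => by
  rw [cf_em]
  exact alg_mem H _

theorem InH.add {H : Subfield U} {z w : U ⊗[ZMod p] R} (hz : InH H z) (hw : InH H w) :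
    InH H (z + w) := fun i => by
  rw [cf_add]
  exact add_mem (hz i) (hw i)

theorem InH.smul {H : Subfield U} {z : U ⊗[ZMod p] R} {u : U} (hu : u ∈ H) (hz : InH H z) :
    InH H (u • z) := fun i => by
  rw [cf_smul]
  exact mul_mem hu (hz i)

theorem InH.sum {H : Subfield U} {J : Type} (s : Finset J) {z : J → U ⊗[ZMod p] R}
    (h : ∀ j ∈ s, InH H (z j)) : InH H (∑ j ∈ s, z j) := fun i => by
  rw [cf_sum]
  exact sum_mem fun j hj => h j hj i

theorem InH.mul {H : Subfield U} {z w : U ⊗[ZMod p] R} (hz : InH H z) (hw : InH H w) :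
    InH H (z * w) := by
  rw [← sum_cf z, ← sum_cf w, Finset.sum_mul]
  refine InH.sum _ fun i _ => ?_
  rw [Finset.mul_sum]
  refine InH.sum _ fun j _ => ?_
  rw [smul_mul_smul_comm, ← map_mul]
  exact InH.smul (mul_mem (hz i) (hw j)) (inH_em H _)

/- Linear maps defined over the prime field preserve `InH`. -/
theorem InH.lin {H : Subfield U} {z : U ⊗[ZMod p] R} (hz : InH H z)
    (f : (U ⊗[ZMod p] R) → (U ⊗[ZMod p] R)) (hadd : ∀ a b, f (a + b) = f a + f b)
    (hsmul : ∀ (u : U) a, f (u • a) = u • f a) (hem : ∀ r : R, ∃ s : R, f (em r) = em s) :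
    InH H (f z) := by
  let F : (U ⊗[ZMod p] R) →ₗ[U] (U ⊗[ZMod p] R) :=
    { toFun := f, map_add' := hadd, map_smul' := hsmul }
  change InH H (F z)
  rw [← sum_cf z, map_sum]
  refine InH.sum _ fun i _ => ?_
  rw [map_smul]
  obtain ⟨s, hs⟩ := hem (eb p R i)
  change InH H (cf z i • f (em (eb p R i)))
  rw [hs]
  exact InH.smul (hz i) (inH_em H s)

/- Right inverses of elements with coordinates in `H`. -/
theorem InH.inv {H : Subfield U} {z w : U ⊗[ZMod p] R} (hz : InH H z) (hzw : z * w = 1)
    (hwz : w * z = 1) : InH H w := by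
  classical
  let m := Module.finrank (ZMod p) R
  let g : (Fin m → H) → (U ⊗[ZMod p] R) := fun v => ∑ i, (v i : U) • em (eb p R i)
  have hg : ∀ v, InH H (g v) := fun v => InH.sum _ fun i _ => InH.smul (v i).2 (inH_em H _)
  have hgcf : ∀ v i, cf (g v) i = v i := by
    intro v i
    change cf (∑ i, (v i : U) • em (eb p R i)) i = _
    have h1 : ∀ j, (em (eb p R j) : U ⊗[ZMod p] R) = eU p U R j := fun j => (eU_apply j).symm
    simp only [h1]
    exact congrFun (Module.Basis.repr_sum_self (eU p U R) fun j => ((v j : H) : U)) i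
  let ℓ : (Fin m → H) →ₗ[H] (Fin m → H) :=
    { toFun := fun v i => ⟨cf (z * g v) i, (hz.mul (hg v)) i⟩
      map_add' := fun v v' => by
        funext i
        apply Subtype.ext
        change cf (z * g (v + v')) i = cf (z * g v) i + cf (z * g v') i
        have h1 : g (v + v') = g v + g v' := by
          apply cf_ext
          intro j
          rw [cf_add, hgcf, hgcf, hgcf]
          rfl
        rw [h1, mul_add, cf_add]
      map_smul' := fun c v => by
        funext i
        apply Subtype.ext
        change cf (z * g (c • v)) i = (c : U) * cf (z * g v) i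
        have h1 : g (c • v) = (c : U) • g v := by
          apply cf_ext
          intro j
          rw [cf_smul, hgcf, hgcf]
          rfl
        rw [h1, mul_smul_comm, cf_smul] }
  have hinj : Function.Injective ℓ := by
    rw [← LinearMap.ker_eq_bot, LinearMap.ker_eq_bot']
    intro v hv
    have h1 : z * g v = 0 := by
      apply cf_ext
      intro i
      have h2 := congrArg Subtype.val (congrFun hv i)
      change cf (z * g v) i = 0 at h2
      rw [h2]
      unfold cf
      rw [map_zero]
      rfl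
    have h3 : g v = 0 := by
      calc g v = (w * z) * g v := by rw [hwz, one_mul]
        _ = w * (z * g v) := mul_assoc _ _ _
        _ = 0 := by rw [h1, mul_zero]
    funext i
    apply Subtype.ext
    rw [← hgcf v i, h3]
    unfold cf
    rw [map_zero]
    rfl
  have hsurj : Function.Surjective ℓ := LinearMap.injective_iff_surjective.1 hinj
  obtain ⟨v, hv⟩ := hsurj fun i => ⟨cf (1 : U ⊗[ZMod p] R) i, by
    have h1 : (1 : U ⊗[ZMod p] R) = em 1 := (map_one _).symm
    rw [h1]
    exact inH_em H 1 i⟩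
  have h4 : z * g v = 1 := by
    apply cf_ext
    intro i
    exact congrArg Subtype.val (congrFun hv i)
  have h5 : w = g v := by
    calc w = w * (z * g v) := by rw [h4, mul_one]
      _ = (w * z) * g v := (mul_assoc _ _ _).symm
      _ = g v := by rw [hwz, one_mul]
  rw [h5]
  exact hg v

/- Elements satisfying a Frobenius equation are algebraic. -/
theorem alg_of_frob [CharP U p] (H : Subfield U) {m : ℕ} (η : Fin m → U)
    (c : Fin m → Fin m → U) (hc : ∀ k i, c k i ∈ H) (h : ∀ k, η k ^ p = ∑ i, c k i * η i)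
    (k : Fin m) : IsAlgebraic H (η k) := by
  have hp : 1 < p := (Fact.out : p.Prime).one_lt
  let W : Submodule H U := Submodule.span H (Set.range η)
  have hW : ∀ r : ℕ, η k ^ p ^ r ∈ W := by
    intro r
    induction r with
    | zero =>
      rw [pow_zero, pow_one]
      exact Submodule.subset_span ⟨k, rfl⟩
    | succ r ih =>
      rw [pow_succ, pow_mul]
      obtain ⟨d, hd⟩ := (Submodule.mem_span_range_iff_exists_fun H).1 ih
      rw [← hd]
      have h1 : (∑ i, d i • η i) ^ p = ∑ i, ((d i : U) ^ p * η i ^ p) := by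
        have h2 := map_sum (frobenius U p) (fun i => d i • η i) Finset.univ
        refine h2.trans ?_
        refine Finset.sum_congr rfl fun i _ => ?_
        change (d i • η i) ^ p = _
        rw [Algebra.smul_def, mul_pow]
        rfl
      rw [h1]
      refine Submodule.sum_mem _ fun i _ => ?_
      rw [h i, Finset.mul_sum]
      refine Submodule.sum_mem _ fun j _ => ?_
      rw [← mul_assoc]
      have h3 : (d i : U) ^ p * c i j ∈ H := mul_mem (pow_mem (d i).2 _) (hc i j)
      exact Submodule.smul_mem W ⟨_, h3⟩ (Submodule.subset_span ⟨j, rfl⟩)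
  by_contra htr
  have htr' : Transcendental H (η k) := htr
  have hli : LinearIndependent H fun n : ℕ => (η k) ^ n := by
    have h1 := (Polynomial.basisMonomials H).linearIndependent
    have h2 := h1.map' (Polynomial.aeval (η k) : Polynomial H →ₐ[H] U).toLinearMap
      (LinearMap.ker_eq_bot.2 (transcendental_iff_injective.1 htr'))
    have h3 : (⇑(Polynomial.aeval (η k) : Polynomial H →ₐ[H] U).toLinearMap ∘
        ⇑(Polynomial.basisMonomials H)) = fun n : ℕ => (η k) ^ n := by
      funext n
      simp [Polynomial.coe_basisMonomials]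
    rw [h3] at h2
    exact h2
  have hli2 : LinearIndependent H fun r : ℕ => (η k) ^ p ^ r :=
    hli.comp (fun r => p ^ r) (Nat.pow_right_injective hp)
  have hfinW : Module.Finite H W := Module.Finite.span_of_finite H (Set.finite_range η)
  have hli3 : LinearIndependent H fun r : ℕ => (⟨(η k) ^ p ^ r, hW r⟩ : W) :=
    LinearIndependent.of_comp W.subtype hli2
  exact not_finite_iff_infinite.2 inferInstance (hli3.finite)

end tens2

end Pool.Agent.Y60.DC
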