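import Mathlib
import Pool.Agent.H84.L.S8_Y60_DC_Tens



/-!
# The norm of the extension of scalars; polynomial families
-/

set_option autoImplicit false

open TensorProduct

namespace Pool.Agent.Y60.DC

section nrm

variable {p : ℕ} [Fact p.Prime] {U U' : Type} [CommRing U] [Algebra (ZMod p) U] [CommRing U']
  [Algebra (ZMod p) U'] {R : Type} [Ring R] [Algebra (ZMod p) R] [Finite R]

/- The determinant of the left multiplication. -/
noncomputable def nm (z : U ⊗[ZMod p] R) : U := LinearMap.det (LinearMap.mulLeft U z)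

theorem nm_mul (z w : U ⊗[ZMod p] R) : nm (z * w) = nm z * nm w := by
  unfold nm
  rw [← LinearMap.det_comp]
  congr 1
  ext x
  simp [mul_assoc]

theorem nm_one : nm (1 : U ⊗[ZMod p] R) = 1 := by
  unfold nm
  rw [LinearMap.mulLeft_one]
  exact LinearMap.det_id

theorem nm_ne [Nontrivial U] {z w : U ⊗[ZMod p] R} (h : z * w = 1) : nm z ≠ 0 := by
  intro h0
  have h1 : nm z * nm w = 1 := by rw [← nm_mul, h, nm_one]
  rw [h0, zero_mul] at h1
  exact zero_ne_one h1

theorem nm_tm (f : U →+* U') (z : U ⊗[ZMod p] R) : nm (tm f z) = f (nm z) := by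
  classical
  unfold nm
  rw [← LinearMap.det_toMatrix (eU p U' R), ← LinearMap.det_toMatrix (eU p U R), RingHom.map_det]
  congr 1
  ext i j
  rw [LinearMap.toMatrix_apply, RingHom.mapMatrix_apply, Matrix.map_apply, LinearMap.toMatrix_apply]
  change cf (tm f z * eU p U' R j) i = f (cf (z * eU p U R j) i)
  rw [← cf_tm, map_mul, eU_apply, eU_apply, tm_em]

/- The Frobenius map is functorial. -/
theorem fr_tm' [CharP U p] [CharP U' p] (σ : U →+* U') (z : U ⊗[ZMod p] R) :
    fr (tm σ z) = tm σ (fr z) := by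
  have h : (frobenius U' p).comp σ = σ.comp (frobenius U p) := by
    apply RingHom.ext
    intro x
    change (σ x) ^ p = σ (x ^ p)
    rw [map_pow]
  unfold fr
  rw [tm_tm, tm_tm, h]

end nrm

section fld

variable {p : ℕ} [Fact p.Prime] {U : Type} [Field U] [Algebra (ZMod p) U]
  {R : Type} [Ring R] [Algebra (ZMod p) R] [Finite R]

theorem unit_of_nm (z : U ⊗[ZMod p] R) (h : nm z ≠ 0) : ∃ w, z * w = 1 ∧ w * z = 1 := by
  have hfin : Module.Finite U (U ⊗[ZMod p] R) := Module.Finite.of_basis (eU p U R)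
  have hfree : Module.Free U (U ⊗[ZMod p] R) := Module.Free.of_basis (eU p U R)
  have h3 : IsUnit (LinearMap.mulLeft U z) := by
    rw [LinearMap.isUnit_iff_isUnit_det]
    exact isUnit_iff_ne_zero.2 h
  have h4 : Function.Bijective (LinearMap.mulLeft U z) := (Module.End.isUnit_iff _).1 h3
  obtain ⟨w, hw⟩ := h4.2 1
  have hw' : z * w = 1 := hw
  refine ⟨w, hw', ?_⟩
  have h5 : z * (w * z) = z * 1 := by rw [← mul_assoc, hw', one_mul, mul_one]
  exact h4.1 h5

/- **Units at the generic point**: if the element of `P ⊗ R`, `P` a polynomial ring over `L`, is a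
unit at some point then it is a unit at the generic point. -/
theorem unit_gen {L : Type} [Field L] [Algebra (ZMod p) L] {ι : Type}
    (Q : MvPolynomial ι L ⊗[ZMod p] R) (e : MvPolynomial ι L →+* U)
    (he : Function.Injective e) (c : MvPolynomial ι L →+* L)
    {y : L ⊗[ZMod p] R} (h : tm c Q * y = 1) : ∃ w, tm e Q * w = 1 ∧ w * tm e Q = 1 := by
  apply unit_of_nm
  rw [nm_tm, ne_eq, map_eq_zero_iff e he]
  intro h0
  have h1 := nm_ne h
  rw [nm_tm, h0, map_zero] at h1
  exact h1 rfl

end fld

end Pool.Agent.Y60.DC
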