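import Mathlib
import Pool.Agent.H84.L.S8_W200_IJ_SC
import Pool.Agent.H84.L.S8_Y60_DC_Tens



/-!
# Speiser's lemma and rational bases
-/

set_option autoImplicit false

open TensorProduct

namespace Pool.Agent.Y60.DC

/- **Speiser's lemma**: a semilinear representation of `Gal(L/K)` over `L` has an invariant
basis. -/
theorem speiser (K L V : Type) [Field K] [Field L] [Algebra K L] [FiniteDimensional K L]
    [IsGalois K L] [AddCommGroup V] [Module L V] [Module.Finite L V]
    (s : (L ≃ₐ[K] L) → V → V) (h0 : ∀ γ v w, s γ (v + w) = s γ v + s γ w)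
    (h1 : ∀ γ (l : L) v, s γ (l • v) = γ l • s γ v)
    (h2 : ∀ v, s 1 v = v) (h3 : ∀ γ δ v, s (γ * δ) v = s γ (s δ v)) :
    ∃ b : Module.Basis (Fin (Module.finrank L V)) L V, ∀ γ i, s γ (b i) = b i := by
  classical
  let sh : (L ≃ₐ[K] L) → V →+ V := fun γ => AddMonoidHom.mk' (s γ) (h0 γ)
  let S : Set V := {v | ∀ γ, s γ v = v}
  have hT : ∀ v : V, ∑ γ : L ≃ₐ[K] L, s γ v ∈ S := by
    intro v δ
    change sh δ (∑ γ : L ≃ₐ[K] L, s γ v) = _
    rw [map_sum]
    have h4 : ∀ γ, sh δ (s γ v) = s (δ * γ) v := fun γ => (h3 δ γ v).symm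
    simp only [h4]
    exact Equiv.sum_comp (Equiv.mulLeft δ) (fun γ => s γ v)
  have hspan : ⊤ ≤ Submodule.span L S := by
    intro v _
    obtain ⟨ω, ω', hω⟩ := Pool.Agent.W200.IJ.exists_dual K L
    have h5 : v = ∑ i, ω i • ∑ γ : L ≃ₐ[K] L, s γ (ω' i • v) := by
      simp only [h1, Finset.smul_sum, smul_smul]
      rw [Finset.sum_comm]
      simp only [← Finset.sum_smul]
      have h6 : ∀ γ : L ≃ₐ[K] L, ∑ i, ω i * γ (ω' i) = if (1 : L ≃ₐ[K] L) = γ then 1 else 0 :=
        fun γ => hω 1 γ
      simp only [h6, ite_smul, one_smul, zero_smul, Finset.sum_ite_eq, Finset.mem_univ, if_true]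
      exact (h2 v).symm
    rw [h5]
    exact Submodule.sum_mem _ fun i _ => Submodule.smul_mem _ _ (Submodule.subset_span (hT _))
  let b := Module.Basis.ofSpan hspan
  have hb : ∀ i, b i ∈ S := fun i => by
    have h7 := Module.Basis.ofSpan_subset hspan
    exact h7 ⟨i, rfl⟩
  have hfin : Finite ((linearIndepOn_empty L id).extend (Set.empty_subset S)) :=
    Module.Finite.finite_basis b
  have hft : Fintype ((linearIndepOn_empty L id).extend (Set.empty_subset S)) := Fintype.ofFinite _
  have hcard : Fintype.card ((linearIndepOn_empty L id).extend (Set.empty_subset S)) =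
      Fintype.card (Fin (Module.finrank L V)) := by
    rw [Fintype.card_fin, Module.finrank_eq_card_basis b]
  refine ⟨b.reindex (Fintype.equivOfCardEq hcard), fun γ i => ?_⟩
  rw [Module.Basis.reindex_apply]
  exact hb _ γ

section rat

variable {p : ℕ} [Fact p.Prime] (K L U R : Type) [Field K] [Field L] [Algebra K L]
    [FiniteDimensional K L] [IsGalois K L] [Field U] [Algebra K U] [Algebra L U]
    [IsScalarTower K L U] [Algebra (ZMod p) L] [Algebra (ZMod p) U] [Ring R] [Algebra (ZMod p) R]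
    [Finite R]

/- A basis of `U ⊗ R` which is rational over `K` for the twisted action. -/
theorem exists_rat (ρ : (L ≃ₐ[K] L) →* (R ≃+* R)) :
    ∃ A : Module.Basis (Fin (Module.finrank (ZMod p) R)) U (U ⊗[ZMod p] R),
      (∀ (σ : U ≃ₐ[K] U) (γ : L ≃ₐ[K] L), (∀ l, σ (algebraMap L U l) = algebraMap L U (γ l)) →
        ∀ j, rm (ρ γ : R →+* R) (tm (σ : U →+* U) (A j)) = A j) ∧
      ∀ H : Subfield U, (∀ l, algebraMap L U l ∈ H) →
        (∀ j, InH H (A j)) ∧ ∀ z, InH H z → ∀ j, A.repr z j ∈ H := by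
  classical
  have hfin : Module.Finite L (L ⊗[ZMod p] R) := Module.Finite.of_basis (eU p L R)
  have hrank : Module.finrank L (L ⊗[ZMod p] R) = Module.finrank (ZMod p) R := by
    rw [Module.finrank_eq_card_basis (eU p L R), Fintype.card_fin]
  obtain ⟨b', hb'⟩ := speiser K L (L ⊗[ZMod p] R)
    (fun γ v => rm (ρ γ : R →+* R) (tm (γ : L →+* L) v))
    (fun γ v w => by rw [map_add, map_add])
    (fun γ l v => by
      change rm _ (tm _ _) = _
      rw [tm_smul, rm_smul]
      rfl)
    (fun v => by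
      have h1 : (((1 : L ≃ₐ[K] L) : L ≃ₐ[K] L) : L →+* L) = RingHom.id L := rfl
      have h2 : ((ρ 1 : R ≃+* R) : R →+* R) = RingHom.id R := by rw [map_one]; rfl
      change rm ((ρ 1 : R ≃+* R) : R →+* R) (tm (((1 : L ≃ₐ[K] L)) : L →+* L) v) = v
      rw [h1, h2, tm_id, rm_id])
    (fun γ δ v => by
      have h1 : (((γ * δ : L ≃ₐ[K] L)) : L →+* L) = (γ : L →+* L).comp (δ : L →+* L) := rfl
      have h2 : ((ρ (γ * δ) : R ≃+* R) : R →+* R) =
          ((ρ γ : R ≃+* R) : R →+* R).comp ((ρ δ : R ≃+* R) : R →+* R) := by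
        rw [map_mul]; rfl
      change rm ((ρ (γ * δ) : R ≃+* R) : R →+* R) (tm (((γ * δ : L ≃ₐ[K] L)) : L →+* L) v) =
        rm ((ρ γ : R ≃+* R) : R →+* R) (tm (γ : L →+* L)
          (rm ((ρ δ : R ≃+* R) : R →+* R) (tm (δ : L →+* L) v)))
      rw [h1, h2, tm_rm, tm_tm, rm_rm])
  let b := b'.reindex (finCongr hrank)
  have hb : ∀ (γ : L ≃ₐ[K] L) j, rm (ρ γ : R →+* R) (tm (γ : L →+* L) (b j)) = b j := by
    intro γ j
    change rm _ (tm _ (b'.reindex (finCongr hrank) j)) = b'.reindex (finCongr hrank) j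
    rw [Module.Basis.reindex_apply]
    exact hb' γ _
  let lm : (L ⊗[ZMod p] R) →+* (U ⊗[ZMod p] R) := tm (algebraMap L U)
  have hlm : ∀ (l : L) z, lm (l • z) = algebraMap L U l • lm z := fun l z => tm_smul _ l z
  have hexp : ∀ z : L ⊗[ZMod p] R, lm z = ∑ j, algebraMap L U (b.repr z j) • lm (b j) := by
    intro z
    conv_lhs => rw [← b.sum_repr z]
    rw [map_sum]
    exact Finset.sum_congr rfl fun j _ => hlm _ _
  have hspan : ⊤ ≤ Submodule.span U (Set.range fun j => lm (b j)) := by
    intro z _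
    rw [← sum_cf z]
    refine Submodule.sum_mem _ fun i _ => Submodule.smul_mem _ _ ?_
    have h1 : (em (eb p R i) : U ⊗[ZMod p] R) = lm (em (eb p R i)) := (tm_em _ _).symm
    rw [h1, hexp]
    exact Submodule.sum_mem _ fun j _ => Submodule.smul_mem _ _ (Submodule.subset_span ⟨j, rfl⟩)
  have hrankU : Fintype.card (Fin (Module.finrank (ZMod p) R)) =
      Module.finrank U (U ⊗[ZMod p] R) := by
    rw [Module.finrank_eq_card_basis (eU p U R)]
  let A := basisOfTopLeSpanOfCardEqFinrank (fun j => lm (b j)) hspan hrankU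
  have hA : ∀ j, A j = lm (b j) := fun j => by
    change (basisOfTopLeSpanOfCardEqFinrank (fun j => lm (b j)) hspan hrankU) j = _
    rw [coe_basisOfTopLeSpanOfCardEqFinrank]
  refine ⟨A, ?_, ?_⟩
  · intro σ γ hσ j
    rw [hA]
    have h1 : tm (σ : U →+* U) (lm (b j)) = lm (tm (γ : L →+* L) (b j)) := by
      change tm (σ : U →+* U) (tm (algebraMap L U) (b j)) =
        tm (algebraMap L U) (tm (γ : L →+* L) (b j))
      rw [tm_tm, tm_tm]
      have h2 : (σ : U →+* U).comp (algebraMap L U) = (algebraMap L U).comp (γ : L →+* L) :=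
        RingHom.ext hσ
      rw [h2]
    rw [h1]
    have h3 := hb γ j
    conv_rhs => rw [← h3]
    exact (tm_rm _ _ _).symm
  · intro H hH
    constructor
    · intro j i
      rw [hA]
      change cf (tm (algebraMap L U) (b j)) i ∈ H
      rw [cf_tm]
      exact hH _
    · intro z hz j
      have h1 : z = ∑ j, (∑ i, cf z i * algebraMap L U (b.repr (em (eb p R i)) j)) • A j := by
        conv_lhs => rw [← sum_cf z]
        have h2 : ∀ i, (em (eb p R i) : U ⊗[ZMod p] R) =
            ∑ j, algebraMap L U (b.repr (em (eb p R i)) j) • A j := by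
          intro i
          have h3 : (em (eb p R i) : U ⊗[ZMod p] R) = lm (em (eb p R i)) := (tm_em _ _).symm
          rw [h3, hexp]
          exact Finset.sum_congr rfl fun j _ => by rw [hA]
        calc ∑ i, cf z i • (em (eb p R i) : U ⊗[ZMod p] R)
            = ∑ i, cf z i • ∑ j, algebraMap L U (b.repr (em (eb p R i)) j) • A j :=
              Finset.sum_congr rfl fun i _ => by rw [h2 i]
          _ = _ := by
            simp only [Finset.smul_sum, smul_smul, Finset.sum_smul]
            exact Finset.sum_comm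
      have h4 : A.repr z j = ∑ i, cf z i * algebraMap L U (b.repr (em (eb p R i)) j) := by
        conv_lhs => rw [h1]
        exact congrFun (Module.Basis.repr_sum_self A
          (fun j => ∑ i, cf z i * algebraMap L U (b.repr (em (eb p R i)) j))) j
      rw [h4]
      exact sum_mem fun i _ => mul_mem (hz i) (hH _)

end rat

end Pool.Agent.Y60.DC
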