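import Mathlib
import Pool.Agent.H84.L.S8_Y60_DC_Tens



/-!
# Involutions
-/

set_option autoImplicit false

open TensorProduct

namespace Pool.Agent.Y60.DC

section su

variable {p : ℕ} [Fact p.Prime] {U U' : Type} [CommRing U] [Algebra (ZMod p) U] [CommRing U']
  [Algebra (ZMod p) U'] {R : Type} [Ring R] [Algebra (ZMod p) R] [StarRing R]

variable (p R) in
/- The involution as a linear map over the prime field. -/
def starL : R →ₗ[ZMod p] R := AddMonoidHom.toZModLinearMap p (starAddEquiv : R ≃+ R).toAddMonoidHom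


/- The involution on the extension of scalars. -/
noncomputable def su : (U ⊗[ZMod p] R) →ₗ[U] (U ⊗[ZMod p] R) := LinearMap.baseChange U (starL p R)

theorem su_tmul (u : U) (r : R) : su (u ⊗ₜ[ZMod p] r) = u ⊗ₜ (star r) :=
  LinearMap.baseChange_tmul _ _ _

theorem su_em (r : R) : su (em r : U ⊗[ZMod p] R) = em (star r) := by
  rw [em_apply, em_apply, su_tmul]

theorem su_mul (z w : U ⊗[ZMod p] R) : su (z * w) = su w * su z := by
  refine tens_ind (fun u r => ?_) (fun a b ha hb => ?_) z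
  · refine tens_ind (fun v s => ?_) (fun a b ha hb => ?_) w
    · rw [Algebra.TensorProduct.tmul_mul_tmul, su_tmul, su_tmul, su_tmul,
        Algebra.TensorProduct.tmul_mul_tmul, star_mul, mul_comm]
    · rw [mul_add, map_add, ha, hb, map_add, add_mul]
  · rw [add_mul, map_add, ha, hb, map_add, mul_add]

theorem su_su (z : U ⊗[ZMod p] R) : su (su z) = z := by
  refine tens_ind (fun u r => ?_) (fun a b ha hb => ?_) z
  · rw [su_tmul, su_tmul, star_star]
  · rw [map_add, map_add, ha, hb]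

theorem su_tm (σ : U →+* U') (z : U ⊗[ZMod p] R) : su (tm σ z) = tm σ (su z) := by
  refine tens_ind (fun u r => ?_) (fun a b ha hb => ?_) z
  · rw [tm_tmul, su_tmul, su_tmul, tm_tmul]
  · simp only [map_add, ha, hb]

theorem su_rm (ρ : R →+* R) (hρ : ∀ a, ρ (star a) = star (ρ a)) (z : U ⊗[ZMod p] R) :
    su (rm ρ z) = rm ρ (su z) := by
  refine tens_ind (fun u r => ?_) (fun a b ha hb => ?_) z
  · rw [rm_tmul, su_tmul, su_tmul, rm_tmul, hρ]
  · simp only [map_add, ha, hb]

theorem su_fr [CharP U p] (z : U ⊗[ZMod p] R) : su (fr z) = fr (su z) := su_tm _ z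

theorem su_one : su (1 : U ⊗[ZMod p] R) = 1 := by
  have h1 : (1 : U ⊗[ZMod p] R) = em 1 := (map_one _).symm
  rw [h1, su_em, star_one]

end su

section su2

variable {p : ℕ} [Fact p.Prime] {U : Type} [Field U] [Algebra (ZMod p) U]
  {R : Type} [Ring R] [Algebra (ZMod p) R] [StarRing R] [Finite R]

theorem InH.su' {H : Subfield U} {z : U ⊗[ZMod p] R} (hz : InH H z) : InH H (su z) :=
  hz.lin su (fun a b => map_add _ a b) (fun u a => map_smul _ u a) fun r => ⟨star r, su_em r⟩

end su2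

/-! ### Extension of linear endomorphisms -/

section ext

variable {p : ℕ} [Fact p.Prime] {L U : Type} [Field L] [Algebra (ZMod p) L] [Field U]
  [Algebra (ZMod p) U] [Algebra L U] {R : Type} [Ring R] [Algebra (ZMod p) R] [Finite R]

/- The extension of an `L`-linear endomorphism of `L ⊗ R`. -/
noncomputable def lx (g : (L ⊗[ZMod p] R) →ₗ[L] (L ⊗[ZMod p] R)) (z : U ⊗[ZMod p] R) :
    U ⊗[ZMod p] R := ∑ i, cf z i • tm (algebraMap L U) (g (em (eb p R i)))

theorem lx_tm (g : (L ⊗[ZMod p] R) →ₗ[L] (L ⊗[ZMod p] R)) (v : L ⊗[ZMod p] R) :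
    lx g (tm (algebraMap L U) v) = tm (algebraMap L U) (g v) := by
  unfold lx
  conv_rhs => rw [← sum_cf v, map_sum, map_sum]
  refine Finset.sum_congr rfl fun i _ => ?_
  rw [map_smul, tm_smul, cf_tm]

theorem lx_add (g : (L ⊗[ZMod p] R) →ₗ[L] (L ⊗[ZMod p] R)) (z w : U ⊗[ZMod p] R) :
    lx g (z + w) = lx g z + lx g w := by
  unfold lx
  rw [← Finset.sum_add_distrib]
  refine Finset.sum_congr rfl fun i _ => ?_
  rw [cf_add, add_smul]

theorem lx_smul (g : (L ⊗[ZMod p] R) →ₗ[L] (L ⊗[ZMod p] R)) (u : U) (z : U ⊗[ZMod p] R) :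
    lx g (u • z) = u • lx g z := by
  unfold lx
  rw [Finset.smul_sum]
  refine Finset.sum_congr rfl fun i _ => ?_
  rw [cf_smul, mul_smul]


/- Two additive and homogeneous maps which agree on the image of `L ⊗ R` agree. -/
theorem lx_unique {a b : (U ⊗[ZMod p] R) → (U ⊗[ZMod p] R)}
    (ha1 : ∀ z w, a (z + w) = a z + a w) (ha2 : ∀ (u : U) z, a (u • z) = u • a z)
    (hb1 : ∀ z w, b (z + w) = b z + b w) (hb2 : ∀ (u : U) z, b (u • z) = u • b z)
    (h : ∀ v : L ⊗[ZMod p] R, a (tm (algebraMap L U) v) = b (tm (algebraMap L U) v))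
    (z : U ⊗[ZMod p] R) : a z = b z := by
  let a' : (U ⊗[ZMod p] R) →ₗ[U] (U ⊗[ZMod p] R) :=
    { toFun := a, map_add' := ha1, map_smul' := ha2 }
  let b' : (U ⊗[ZMod p] R) →ₗ[U] (U ⊗[ZMod p] R) :=
    { toFun := b, map_add' := hb1, map_smul' := hb2 }
  change a' z = b' z
  rw [← sum_cf z, map_sum, map_sum]
  refine Finset.sum_congr rfl fun i _ => ?_
  rw [map_smul, map_smul]
  congr 1
  have h1 : (em (eb p R i) : U ⊗[ZMod p] R) = tm (algebraMap L U) (em (eb p R i)) :=
    (tm_em _ _).symm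
  rw [h1]
  exact h _

end ext

end Pool.Agent.Y60.DC
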