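import Mathlib
import Pool.Agent.H84.L.S8_Y60_DC_Rat
import Pool.Agent.H84.L.S8_Y60_DC_Su
import Pool.Agent.H84.L.S8_Y60_DC_Tens



/-!
# Rational parametrisation of the elements `w` with `w + w* = 1`
-/

set_option autoImplicit false

open TensorProduct

namespace Pool.Agent.Y60.DC

/- Factorisation of linear maps. -/
theorem exists_fac {k V W : Type} [Field k] [AddCommGroup V] [Module k V] [AddCommGroup W]
    [Module k W] (S : V →ₗ[k] V) (q : V →ₗ[k] W) (h : ∀ v, S v = 0 → q v = 0) :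
    ∃ g : V →ₗ[k] W, ∀ v, g (S v) = q v := by
  have hk : LinearMap.ker S ≤ LinearMap.ker q := fun v hv =>
    LinearMap.mem_ker.2 (h v (LinearMap.mem_ker.1 hv))
  let f : LinearMap.range S →ₗ[k] W :=
    ((LinearMap.ker S).liftQ q hk).comp (S.quotKerEquivRange.symm).toLinearMap
  obtain ⟨g, hg⟩ := LinearMap.exists_extend f
  refine ⟨g, fun v => ?_⟩
  have h1 : g (S v) = f ⟨S v, LinearMap.mem_range_self S v⟩ := by
    rw [← hg]
    rfl
  rw [h1]
  change ((LinearMap.ker S).liftQ q hk) (S.quotKerEquivRange.symm ⟨S v, _⟩) = q v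
  have h2 : S.quotKerEquivRange.symm ⟨S v, LinearMap.mem_range_self S v⟩ =
      Submodule.Quotient.mk v := by
    rw [LinearEquiv.symm_apply_eq]
    rfl
  rw [h2]
  rfl

section skew

variable {p : ℕ} [Fact p.Prime] (K L R : Type) [Field K] [Field L] [Algebra K L]
    [FiniteDimensional K L] [IsGalois K L] [Algebra (ZMod p) L] [Ring R] [Algebra (ZMod p) R]
    [StarRing R] [Finite R]

/- The parametrisation. -/
theorem exists_skew (ρ : (L ≃ₐ[K] L) →* (R ≃+* R)) (hρ : ∀ γ a, ρ γ (star a) = star (ρ γ a))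
    (z₀ : R) (hz₀ : z₀ + star z₀ = 1) :
    ∃ (m : ℕ) (w₀ : L ⊗[ZMod p] R) (b : Fin m → L ⊗[ZMod p] R),
      w₀ + su w₀ = 1 ∧
      (∀ γ, rm (ρ γ : R →+* R) (tm (γ : L →+* L) w₀) = w₀) ∧
      (∀ j, b j + su (b j) = 0) ∧
      (∀ γ j, rm (ρ γ : R →+* R) (tm (γ : L →+* L) (b j)) = b j) ∧
      (∀ v : L ⊗[ZMod p] R, v + su v = 1 → ∃ c : Fin m → L, v = w₀ + ∑ j, c j • b j) ∧
      ∀ (U : Type) [Field U] [Algebra (ZMod p) U] [Algebra L U],
        ∃ χ : (U ⊗[ZMod p] R) → Fin m → U,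
          (∀ c : Fin m → U, χ (tm (algebraMap L U) w₀ + ∑ j, c j • tm (algebraMap L U) (b j)) =
            c) ∧
          (∀ z : U ⊗[ZMod p] R, z + su z = 1 →
            z = tm (algebraMap L U) w₀ + ∑ j, χ z j • tm (algebraMap L U) (b j)) ∧
          ∀ H : Subfield U, (∀ l, algebraMap L U l ∈ H) → ∀ z, InH H z → ∀ j, χ z j ∈ H := by
  classical
  have hfin : Module.Finite L (L ⊗[ZMod p] R) := Module.Finite.of_basis (eU p L R)
  -- the twisted action
  let s : (L ≃ₐ[K] L) → (L ⊗[ZMod p] R) → (L ⊗[ZMod p] R) := fun γ v =>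
    rm (ρ γ : R →+* R) (tm (γ : L →+* L) v)
  have s0 : ∀ γ v w, s γ (v + w) = s γ v + s γ w := fun γ v w => by
    change rm _ (tm _ _) = rm _ (tm _ _) + rm _ (tm _ _)
    rw [map_add, map_add]
  have s1 : ∀ γ (l : L) v, s γ (l • v) = γ l • s γ v := fun γ l v => by
    change rm _ (tm _ _) = _
    rw [tm_smul, rm_smul]
    rfl
  have s2 : ∀ v, s 1 v = v := fun v => by
    have h1 : (((1 : L ≃ₐ[K] L) : L ≃ₐ[K] L) : L →+* L) = RingHom.id L := rfl
    have h2 : ((ρ 1 : R ≃+* R) : R →+* R) = RingHom.id R := by rw [map_one]; rfl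
    change rm ((ρ 1 : R ≃+* R) : R →+* R) (tm (((1 : L ≃ₐ[K] L)) : L →+* L) v) = v
    rw [h1, h2, tm_id, rm_id]
  have s3 : ∀ γ δ v, s (γ * δ) v = s γ (s δ v) := fun γ δ v => by
    have h1 : (((γ * δ : L ≃ₐ[K] L)) : L →+* L) = (γ : L →+* L).comp (δ : L →+* L) := rfl
    have h2 : ((ρ (γ * δ) : R ≃+* R) : R →+* R) =
        ((ρ γ : R ≃+* R) : R →+* R).comp ((ρ δ : R ≃+* R) : R →+* R) := by
      rw [map_mul]; rfl
    change rm ((ρ (γ * δ) : R ≃+* R) : R →+* R) (tm (((γ * δ : L ≃ₐ[K] L)) : L →+* L) v) =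
      rm ((ρ γ : R ≃+* R) : R →+* R) (tm (γ : L →+* L)
        (rm ((ρ δ : R ≃+* R) : R →+* R) (tm (δ : L →+* L) v)))
    rw [h1, h2, tm_rm, tm_tm, rm_rm]
  have s4 : ∀ γ v, su (s γ v) = s γ (su v) := fun γ v => by
    change su (rm (ρ γ : R →+* R) (tm (γ : L →+* L) v)) =
      rm (ρ γ : R →+* R) (tm (γ : L →+* L) (su v))
    rw [su_rm _ (hρ γ), su_tm]
  -- the base point
  obtain ⟨ω, hω⟩ := Algebra.trace_surjective K L 1
  have hωs : ∑ γ : L ≃ₐ[K] L, γ ω = 1 := by
    rw [← trace_eq_sum_automorphisms, hω, map_one]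
  let w₀ : L ⊗[ZMod p] R := ∑ γ : L ≃ₐ[K] L, s γ (ω • em z₀)
  have hw1 : w₀ + su w₀ = 1 := by
    change (∑ γ : L ≃ₐ[K] L, s γ (ω • em z₀)) + su (∑ γ : L ≃ₐ[K] L, s γ (ω • em z₀)) = 1
    rw [map_sum, ← Finset.sum_add_distrib]
    have h1 : ∀ γ : L ≃ₐ[K] L, s γ (ω • em z₀) + su (s γ (ω • em z₀)) =
        γ ω • (1 : L ⊗[ZMod p] R) := by
      intro γ
      rw [s4, map_smul, su_em, s1, s1, ← smul_add, ← s0, ← map_add, hz₀]
      congr 1
      change rm (ρ γ : R →+* R) (tm (γ : L →+* L) (em 1)) = 1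
      rw [map_one, map_one, map_one]
    simp only [h1, ← Finset.sum_smul, hωs, one_smul]
  let sh : (L ≃ₐ[K] L) → (L ⊗[ZMod p] R) →+ (L ⊗[ZMod p] R) := fun γ =>
    AddMonoidHom.mk' (s γ) (s0 γ)
  have hw2 : ∀ γ, s γ w₀ = w₀ := by
    intro δ
    obtain ⟨e₀, he₀⟩ : ∃ e₀ : L ⊗[ZMod p] R, e₀ = ω • em z₀ := ⟨_, rfl⟩
    change sh δ (∑ γ : L ≃ₐ[K] L, s γ (ω • em z₀)) = ∑ γ : L ≃ₐ[K] L, s γ (ω • em z₀)
    rw [← he₀, map_sum]
    have h4 : ∀ γ, sh δ (s γ e₀) = s (δ * γ) e₀ := fun γ => (s3 δ γ e₀).symm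
    simp only [h4]
    exact Equiv.sum_comp (Equiv.mulLeft δ) (fun γ => s γ e₀)
  -- the skew elements
  let S : (L ⊗[ZMod p] R) →ₗ[L] (L ⊗[ZMod p] R) := LinearMap.id + su
  have hS : ∀ v, S v = v + su v := fun _ => rfl
  let V := LinearMap.ker S
  have hV : ∀ v, v ∈ V ↔ v + su v = 0 := fun v => LinearMap.mem_ker
  have hsV : ∀ γ (v : V), s γ v ∈ V := fun γ v => by
    rw [hV, s4, ← s0, (hV _).1 v.2]
    have h := s1 γ 0 0
    rw [zero_smul] at h
    rw [h, map_zero, zero_smul]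
  obtain ⟨B, hB⟩ := speiser K L V (fun γ v => ⟨s γ v, hsV γ v⟩)
    (fun γ v w => Subtype.ext (s0 γ v w)) (fun γ l v => Subtype.ext (s1 γ l v))
    (fun v => Subtype.ext (s2 v)) (fun γ δ v => Subtype.ext (s3 γ δ v))
  refine ⟨Module.finrank L V, w₀, fun j => (B j : L ⊗[ZMod p] R), hw1, hw2,
    fun j => (hV _).1 (B j).2, fun γ j => congrArg Subtype.val (hB γ j), ?_, ?_⟩
  · intro v hv
    have h1 : v - w₀ ∈ V := by
      rw [hV, map_sub]
      calc v - w₀ + (su v - su w₀) = (v + su v) - (w₀ + su w₀) := by abel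
        _ = 0 := by rw [hv, hw1, sub_self]
    refine ⟨fun j => B.repr ⟨v - w₀, h1⟩ j, ?_⟩
    have h2 := congrArg Subtype.val (B.sum_repr ⟨v - w₀, h1⟩)
    rw [AddSubmonoidClass.coe_finset_sum] at h2
    have h3 : ∑ j, B.repr ⟨v - w₀, h1⟩ j • (B j : L ⊗[ZMod p] R) = v - w₀ := h2
    rw [h3]
    abel
  · intro U _ _ _
    obtain ⟨r, hr⟩ := LinearMap.exists_leftInverse_of_injective V.subtype V.ker_subtype
    have hr' : ∀ v : V, r (v : L ⊗[ZMod p] R) = v := fun v => LinearMap.congr_fun hr v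
    let ψ : (U ⊗[ZMod p] R) → Fin (Module.finrank L V) → U := fun z j =>
      ∑ i, cf z i * algebraMap L U (B.repr (r (em (eb p R i))) j)
    have p1 : ∀ z w j, ψ (z + w) j = ψ z j + ψ w j := fun z w j => by
      change ∑ i, _ = (∑ i, _) + ∑ i, _
      rw [← Finset.sum_add_distrib]
      refine Finset.sum_congr rfl fun i _ => ?_
      rw [cf_add, add_mul]
    have p2 : ∀ (u : U) z j, ψ (u • z) j = u * ψ z j := fun u z j => by
      change ∑ i, _ = u * ∑ i, _
      rw [Finset.mul_sum]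
      refine Finset.sum_congr rfl fun i _ => ?_
      rw [cf_smul, mul_assoc]
    have p3 : ∀ v j, ψ (tm (algebraMap L U) v) j = algebraMap L U (B.repr (r v) j) := by
      intro v j
      change ∑ i, _ = _
      have h1 : B.repr (r v) j = ∑ i, cf v i * B.repr (r (em (eb p R i))) j := by
        conv_lhs => rw [← sum_cf v]
        rw [map_sum, map_sum, Finsupp.finset_sum_apply]
        refine Finset.sum_congr rfl fun i _ => ?_
        rw [map_smul, map_smul]
        rfl
      rw [h1, map_sum]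
      refine Finset.sum_congr rfl fun i _ => ?_
      rw [cf_tm, map_mul]
    have p4 : ∀ (J : Finset (Fin (Module.finrank L V)))
        (g : Fin (Module.finrank L V) → U ⊗[ZMod p] R) j,
        ψ (∑ i ∈ J, g i) j = ∑ i ∈ J, ψ (g i) j := by
      intro J g j
      induction J using Finset.induction_on with
      | empty =>
        rw [Finset.sum_empty, Finset.sum_empty]
        have h := p2 (0 : U) 0 j
        rwa [zero_smul, zero_mul] at h
      | insert a s ha ih => rw [Finset.sum_insert ha, Finset.sum_insert ha, p1, ih]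
    -- the complement
    let q : (L ⊗[ZMod p] R) →ₗ[L] (L ⊗[ZMod p] R) := LinearMap.id - V.subtype.comp r
    have hq : ∀ v, q v = v - (r v : L ⊗[ZMod p] R) := fun _ => rfl
    obtain ⟨g, hg⟩ := exists_fac S q (fun v hv => by
      rw [hq, show r v = ⟨v, (hV v).2 hv⟩ from hr' ⟨v, (hV v).2 hv⟩, sub_self])
    have q1 : ∀ z : U ⊗[ZMod p] R, lx g (z + su z) = lx q z := by
      refine lx_unique (L := L) (a := fun z => lx g (z + su z)) (b := fun z => lx q z)
        (fun z w => ?_) (fun u z => ?_) (lx_add q) (lx_smul q) (fun v => ?_)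
      · beta_reduce
        rw [← lx_add, map_add]
        congr 1
        abel
      · beta_reduce
        rw [← lx_smul, map_smul, smul_add]
      · beta_reduce
        rw [su_tm, ← map_add, lx_tm, lx_tm, ← hS, hg]
    have q2 : ∀ z : U ⊗[ZMod p] R, lx q z =
        z - ∑ j, ψ z j • tm (algebraMap L U) (B j : L ⊗[ZMod p] R) := by
      refine lx_unique (L := L) (a := fun z => lx q z) (b := fun z =>
        z - ∑ j, ψ z j • tm (algebraMap L U) (B j : L ⊗[ZMod p] R))
        (lx_add q) (lx_smul q) (fun z w => ?_) (fun u z => ?_) (fun v => ?_)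
      · beta_reduce
        simp only [p1, add_smul, Finset.sum_add_distrib]
        abel
      · beta_reduce
        simp only [p2, mul_smul, ← Finset.smul_sum, smul_sub]
      · beta_reduce
        rw [lx_tm, hq, map_sub]
        congr 1
        have h1 : (r v : L ⊗[ZMod p] R) = ∑ j, B.repr (r v) j • (B j : L ⊗[ZMod p] R) := by
          have h2 := congrArg Subtype.val (B.sum_repr (r v))
          rw [AddSubmonoidClass.coe_finset_sum] at h2
          exact h2.symm
        conv_lhs => rw [h1]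
        rw [map_sum]
        refine Finset.sum_congr rfl fun j _ => ?_
        rw [tm_smul, p3]
    have q3 : ∀ y : U ⊗[ZMod p] R, y + su y = 0 →
        y = ∑ j, ψ y j • tm (algebraMap L U) (B j : L ⊗[ZMod p] R) := by
      intro y hy
      have h1 := q1 y
      rw [hy, q2] at h1
      have h2 := lx_smul (U := U) g (0 : U) (0 : U ⊗[ZMod p] R)
      rw [zero_smul, zero_smul] at h2
      rw [h2] at h1
      exact sub_eq_zero.1 h1.symm
    refine ⟨fun z j => ψ (z - tm (algebraMap L U) w₀) j, ?_, ?_, ?_⟩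
    · intro c
      funext j
      beta_reduce
      rw [add_sub_cancel_left, p4]
      have h1 : ∀ i, ψ (c i • tm (algebraMap L U) (B i : L ⊗[ZMod p] R)) j =
          if i = j then c i else 0 := by
        intro i
        rw [p2, p3, hr', Module.Basis.repr_self, Finsupp.single_apply]
        split_ifs
        · rw [map_one, mul_one]
        · rw [map_zero, mul_zero]
      simp only [h1, Finset.sum_ite_eq', Finset.mem_univ, if_true]
    · intro z hz
      beta_reduce
      rw [← q3 (z - tm (algebraMap L U) w₀) ?_]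
      · abel
      · rw [map_sub, su_tm]
        have h1 : tm (algebraMap L U) w₀ + tm (algebraMap L U) (su w₀) = 1 := by
          rw [← map_add, hw1, map_one]
        calc z - tm (algebraMap L U) w₀ + (su z - tm (algebraMap L U) (su w₀)) =
            (z + su z) - (tm (algebraMap L U) w₀ + tm (algebraMap L U) (su w₀)) := by abel
          _ = 0 := by rw [hz, h1, sub_self]
    · intro H hH z hz j
      change ∑ i, cf (z - tm (algebraMap L U) w₀) i * _ ∈ H
      refine sum_mem fun i _ => mul_mem ?_ (hH _)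
      have h1 : cf (z - tm (algebraMap L U) w₀) i =
          cf z i + (-1) * algebraMap L U (cf w₀ i) := by
        have h2 : z - tm (algebraMap L U) w₀ = z + (-1 : U) • tm (algebraMap L U) w₀ := by
          rw [neg_one_smul, sub_eq_add_neg]
        rw [h2, cf_add, cf_smul, cf_tm]
      rw [h1]
      exact add_mem (hz i) (mul_mem (neg_mem (one_mem _)) (hH _))

end skew

end Pool.Agent.Y60.DC
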