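import Mathlib



/-!
# Additive polynomials and generic fields
-/

set_option autoImplicit false

open Polynomial

namespace Pool.Agent.Y60.DC

/- `∏ (z - v)` over a finite additive group is additive in `z`. -/
theorem addpoly {U A : Type} [Field U] [AddCommGroup A] [Fintype A] (f : A →+ U)
    (hf : Function.Injective f) (z w : U) :
    ∏ a, (z + w - f a) = ∏ a, (z - f a) + ∏ a, (w - f a) := by
  classical
  let P : U[X] := ∏ a, (X - C (f a))
  let P' : U[X] := ∏ a, (X - C (f a - w))
  have hPm : P.Monic := monic_prod_of_monic _ _ fun a _ => monic_X_sub_C _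
  have hPm' : P'.Monic := monic_prod_of_monic _ _ fun a _ => monic_X_sub_C _
  have hPd : P.natDegree = Fintype.card A := by
    rw [natDegree_prod_of_monic _ _ fun a _ => monic_X_sub_C _]
    simp
  have hPd' : P'.natDegree = Fintype.card A := by
    rw [natDegree_prod_of_monic _ _ fun a _ => monic_X_sub_C _]
    simp only [natDegree_X_sub_C, Finset.sum_const, Finset.card_univ, smul_eq_mul, mul_one]
  have hc : 0 < Fintype.card A := Fintype.card_pos
  let Q : U[X] := P' - P - C (∏ a, (w - f a))
  have hQd : Q.degree < Fintype.card A := by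
    refine lt_of_le_of_lt (degree_sub_le _ _) (max_lt ?_ ?_)
    · have h1 : P'.degree = P.degree := by
        rw [degree_eq_natDegree hPm'.ne_zero, degree_eq_natDegree hPm.ne_zero, hPd, hPd']
      have h2 := degree_sub_lt h1 hPm'.ne_zero (by rw [hPm.leadingCoeff, hPm'.leadingCoeff])
      rwa [degree_eq_natDegree hPm'.ne_zero, hPd'] at h2
    · exact lt_of_le_of_lt degree_C_le (by exact_mod_cast hc)
  have hev : ∀ u : U, Q.eval u = ∏ a, (u + w - f a) - ∏ a, (u - f a) - ∏ a, (w - f a) := by
    intro u
    simp only [Q, P, P', eval_sub, eval_prod, eval_X, eval_C]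
    congr 2
    exact Finset.prod_congr rfl fun a _ => by ring
  have hz : ∀ a₀ : A, Q.eval (f a₀) = 0 := by
    intro a₀
    rw [hev]
    have h1 : ∏ a, (f a₀ - f a) = 0 := Finset.prod_eq_zero (Finset.mem_univ a₀) (sub_self _)
    have h2 : ∏ a, (f a₀ + w - f a) = ∏ a, (w - f a) := by
      rw [← Equiv.prod_comp (Equiv.addLeft a₀)]
      refine Finset.prod_congr rfl fun a _ => ?_
      change f a₀ + w - f (a₀ + a) = _
      rw [map_add]
      ring
    rw [h1, h2]
    ring
  have hQ0 : Q = 0 := by
    apply Polynomial.eq_zero_of_degree_lt_of_eval_finset_eq_zero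
      (Finset.univ.image f)
    · rw [Finset.card_image_of_injective _ hf, Finset.card_univ]
      exact hQd
    · intro x hx
      obtain ⟨a, -, rfl⟩ := Finset.mem_image.1 hx
      exact hz a
  have h3 := hev z
  rw [hQ0, eval_zero] at h3
  linear_combination -h3

/- Generic elements over `K` in an algebraically closed extension of `L`. -/
theorem exists_univ (K L ι : Type) [Field K] [Field L] [Algebra K L] [Algebra.IsAlgebraic K L] :
    ∃ (U : Type) (_ : Field U) (_ : IsAlgClosed U) (_ : Algebra K U) (_ : Algebra L U)
      (_ : IsScalarTower K L U) (y : ι → U), IsTranscendenceBasis K y := by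
  let P := MvPolynomial ι K
  let Q := FractionRing P
  let U := AlgebraicClosure Q
  let φ : L →ₐ[K] U := IsAlgClosed.lift
  let _ : Algebra L U := φ.toRingHom.toAlgebra
  have t1 : IsScalarTower K L U := IsScalarTower.of_algebraMap_eq fun k => (φ.commutes k).symm
  have hal : Algebra.IsAlgebraic P U :=
    (IsFractionRing.comap_isAlgebraic_iff (A := P) (K := Q) (C := U)).2 inferInstance
  have hfs : FaithfulSMul P U := by
    rw [faithfulSMul_iff_algebraMap_injective, IsScalarTower.algebraMap_eq P Q U]
    exact (algebraMap Q U).injective.comp (IsFractionRing.injective P Q)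
  exact ⟨U, inferInstance, inferInstance, inferInstance, inferInstance, t1,
    algebraMap P U ∘ MvPolynomial.X, (IsTranscendenceBasis.mvPolynomial ι K).algebraMap_comp⟩

/- Every field between `K(x)` and its algebraic closure: the elements algebraic over `K(x)`. -/
abbrev hull (K : Type) {U ι : Type} [Field K] [Field U] [Algebra K U] (x : ι → U) :
    IntermediateField (IntermediateField.adjoin K (Set.range x)) U :=
  algebraicClosure (IntermediateField.adjoin K (Set.range x)) U

section hull

variable {K U ι : Type} [Field K] [Field U] [Algebra K U] (x : ι → U)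

theorem mem_hull (z : U) :
    z ∈ hull K x ↔ IsAlgebraic (IntermediateField.adjoin K (Set.range x)) z :=
  mem_algebraicClosure_iff

theorem hull_x (i : ι) : x i ∈ hull K x := by
  rw [mem_hull]
  exact isAlgebraic_algebraMap (⟨x i, IntermediateField.subset_adjoin K _ ⟨i, rfl⟩⟩ :
    IntermediateField.adjoin K (Set.range x))

theorem hull_alg (z : U) (hz : IsAlgebraic K z) : z ∈ hull K x := by
  rw [mem_hull]
  exact hz.extendScalars (algebraMap K (IntermediateField.adjoin K (Set.range x))).injective

/- Elements algebraic over the hull are in the hull. -/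
theorem hull_closed (P : U[X]) (hP : P ≠ 0) (hc : ∀ n, P.coeff n ∈ hull K x) (z : U)
    (hz : P.eval z = 0) : z ∈ hull K x := by
  rw [mem_hull]
  have h1 : P ∈ Polynomial.lifts (algebraMap (hull K x) U) := by
    rw [Polynomial.lifts_iff_coeff_lifts]
    exact fun n => ⟨⟨_, hc n⟩, rfl⟩
  obtain ⟨P', hP'⟩ := h1
  have h2 : P'.map (algebraMap (hull K x) U) = P := hP'
  have h3 : IsAlgebraic (hull K x) z := by
    refine ⟨P', ?_, ?_⟩
    · rintro rfl
      exact hP (by rw [← h2, Polynomial.map_zero])
    · rw [Polynomial.aeval_def, Polynomial.eval₂_eq_eval_map, h2, hz]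
  exact h3.restrictScalars _

end hull

end Pool.Agent.Y60.DC
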