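import Mathlib
import Pool.Agent.H84.L.S8_W200_IJ_SC
import Pool.Agent.H84.L.S8_Y60_DC_Tens



/-!
# Components of `U ⊗ Mat_2(F)`
-/

set_option autoImplicit false

open TensorProduct

namespace Pool.Agent.Y60.DC

variable {p : ℕ} [Fact p.Prime] {F : Type} [Field F] [Finite F] [Algebra (ZMod p) F]
  {U : Type} [Field U] [Algebra (ZMod p) U]

/- 2 × 2 matrices. -/
abbrev Mt (F : Type) : Type := Matrix (Fin 2) (Fin 2) F

/- The component `U ⊗ F → U` attached to an embedding. -/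
noncomputable def mu (ε : F →+* U) : (U ⊗[ZMod p] F) →ₐ[U] U :=
  Algebra.TensorProduct.lift (Algebra.ofId U U) (zAlg (p := p) ε) fun _ _ => Commute.all _ _

theorem mu_tmul (ε : F →+* U) (u : U) (f : F) : mu ε (u ⊗ₜ[ZMod p] f) = u * ε f := by
  unfold mu
  rw [Algebra.TensorProduct.lift_tmul]
  rfl

theorem mu_inj [IsAlgClosed U] (w : U ⊗[ZMod p] F) (h : ∀ ε : F →+* U, mu ε w = 0) : w = 0 := by
  classical
  have hfd : FiniteDimensional (ZMod p) F := Module.Finite.of_finite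
  have hgal : IsGalois (ZMod p) F := inferInstance
  let ε₀ : F →+* U := ((IsAlgClosed.lift : F →ₐ[ZMod p] U) : F →+* U)
  have hε₀ : ∀ c : ZMod p, ε₀ (algebraMap (ZMod p) F c) = algebraMap (ZMod p) U c := fun c =>
    (IsAlgClosed.lift : F →ₐ[ZMod p] U).commutes c
  obtain ⟨ω, ω', hω⟩ := Pool.Agent.W200.IJ.exists_dual (ZMod p) F
  have h6 : ∀ γ : F ≃ₐ[ZMod p] F, ∑ i, ω i * γ (ω' i) =
      if (1 : F ≃ₐ[ZMod p] F) = γ then 1 else 0 := fun γ => hω 1 γ
  have htr : ∀ g : F, ∑ i, Algebra.trace (ZMod p) F (g * ω' i) • ω i = g := by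
    intro g
    have h7 : ∀ i, Algebra.trace (ZMod p) F (g * ω' i) • ω i =
        ∑ γ : F ≃ₐ[ZMod p] F, γ g * (ω i * γ (ω' i)) := by
      intro i
      rw [Algebra.smul_def, trace_eq_sum_automorphisms, Finset.sum_mul]
      refine Finset.sum_congr rfl fun γ _ => ?_
      rw [map_mul]
      ring
    simp only [h7]
    rw [Finset.sum_comm]
    simp only [← Finset.mul_sum, h6, mul_ite, mul_one, mul_zero, Finset.sum_ite_eq,
      Finset.mem_univ, if_true]
    rfl
  have key : ∀ w : U ⊗[ZMod p] F, w = ∑ i, ∑ γ : F ≃ₐ[ZMod p] F,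
      (mu (ε₀.comp (γ : F →+* F)) w * ε₀ (γ (ω' i))) ⊗ₜ[ZMod p] ω i := by
    intro w
    refine tens_ind (fun u g => ?_) (fun a b ha hb => ?_) w
    · have h8 : ∀ i, ∑ γ : F ≃ₐ[ZMod p] F,
          (mu (ε₀.comp (γ : F →+* F)) (u ⊗ₜ[ZMod p] g) * ε₀ (γ (ω' i))) =
          Algebra.trace (ZMod p) F (g * ω' i) • u := by
        intro i
        have h9 : algebraMap (ZMod p) U (Algebra.trace (ZMod p) F (g * ω' i)) =
            ∑ γ : F ≃ₐ[ZMod p] F, ε₀ (γ (g * ω' i)) := by
          rw [← hε₀, trace_eq_sum_automorphisms, map_sum]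
        rw [Algebra.smul_def, h9, Finset.sum_mul]
        refine Finset.sum_congr rfl fun γ _ => ?_
        rw [mu_tmul, map_mul, map_mul]
        change u * ε₀ (γ g) * ε₀ (γ (ω' i)) = _
        ring
      simp only [← TensorProduct.sum_tmul, h8, TensorProduct.smul_tmul]
      rw [← TensorProduct.tmul_sum, htr]
    · conv_lhs => rw [ha, hb]
      rw [← Finset.sum_add_distrib]
      refine Finset.sum_congr rfl fun i _ => ?_
      rw [← Finset.sum_add_distrib]
      refine Finset.sum_congr rfl fun γ _ => ?_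
      rw [map_add, add_mul, TensorProduct.add_tmul]
  rw [key w]
  refine Finset.sum_eq_zero fun i _ => Finset.sum_eq_zero fun γ _ => ?_
  rw [h, zero_mul, TensorProduct.zero_tmul]

/- The component `U ⊗ Mat_2(F) → Mat_2(U)` attached to an embedding. -/
noncomputable def pc (ε : F →+* U) : (U ⊗[ZMod p] Mt F) →ₐ[U] Mt U :=
  Algebra.TensorProduct.lift (Algebra.ofId U (Mt U)) (zAlg (p := p) (ε.mapMatrix))
    fun u A => show Commute ((Algebra.ofId U (Mt U)) u) _ from Algebra.commutes u _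

theorem pc_tmul (ε : F →+* U) (u : U) (A : Mt F) :
    pc ε (u ⊗ₜ[ZMod p] A) = u • A.map ε := by
  unfold pc
  rw [Algebra.TensorProduct.lift_tmul]
  change algebraMap U (Mt U) u * (A.map ε) = _
  rw [Algebra.smul_def]

theorem pc_em (ε : F →+* U) (A : Mt F) : pc ε (em A : U ⊗[ZMod p] Mt F) = A.map ε := by
  rw [em_apply, pc_tmul, one_smul]

/- The entries. -/
noncomputable def ent (a b : Fin 2) : (U ⊗[ZMod p] Mt F) →ₗ[U] (U ⊗[ZMod p] F) :=
  LinearMap.baseChange U
    { toFun := fun A => A a b, map_add' := fun _ _ => rfl, map_smul' := fun _ _ => rfl }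

theorem ent_tmul (a b : Fin 2) (u : U) (A : Mt F) :
    ent a b (u ⊗ₜ[ZMod p] A) = u ⊗ₜ (A a b) := LinearMap.baseChange_tmul _ _ _

/- The matrix units. -/
noncomputable def sgl (a b : Fin 2) : (U ⊗[ZMod p] F) →ₗ[U] (U ⊗[ZMod p] Mt F) :=
  LinearMap.baseChange U
    { toFun := fun x => Matrix.single a b x
      map_add' := fun x y => Matrix.single_add a b x y
      map_smul' := fun c x => (Matrix.smul_single c a b x).symm }

theorem sgl_tmul (a b : Fin 2) (u : U) (x : F) :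
    sgl a b (u ⊗ₜ[ZMod p] x) = u ⊗ₜ (Matrix.single a b x : Mt F) :=
  LinearMap.baseChange_tmul _ _ _

theorem sgl_ent (z : U ⊗[ZMod p] Mt F) : ∑ a, ∑ b, sgl a b (ent a b z) = z := by
  refine tens_ind (fun u A => ?_) (fun x y hx hy => ?_) z
  · simp only [ent_tmul, sgl_tmul]
    simp only [← TensorProduct.tmul_sum]
    rw [← Matrix.matrix_eq_sum_single A]
  · conv_rhs => rw [← hx, ← hy]
    simp only [map_add, Finset.sum_add_distrib]

theorem mu_ent (ε : F →+* U) (a b : Fin 2) (z : U ⊗[ZMod p] Mt F) :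
    mu ε (ent a b z) = pc ε z a b := by
  refine tens_ind (fun u A => ?_) (fun x y hx hy => ?_) z
  · rw [ent_tmul, mu_tmul, pc_tmul]
    rfl
  · rw [map_add, map_add, map_add, hx, hy]
    rfl

theorem pc_inj0 [IsAlgClosed U] (z : U ⊗[ZMod p] Mt F) (h : ∀ ε : F →+* U, pc ε z = 0) :
    z = 0 := by
  have h1 : ∀ a b, ent a b z = 0 := fun a b => mu_inj _ fun ε => by
    rw [mu_ent, h]
    rfl
  rw [← sgl_ent z]
  refine Finset.sum_eq_zero fun a _ => Finset.sum_eq_zero fun b _ => ?_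
  rw [h1, map_zero]

theorem pc_inj [IsAlgClosed U] {z w : U ⊗[ZMod p] Mt F} (h : ∀ ε : F →+* U, pc ε z = pc ε w) :
    z = w := by
  rw [← sub_eq_zero]
  refine pc_inj0 _ fun ε => ?_
  rw [map_sub, h, sub_self]

theorem unit_of_pc [IsAlgClosed U] (z : U ⊗[ZMod p] Mt F)
    (h : ∀ ε : F →+* U, (pc ε z).det ≠ 0) : ∃ w, z * w = 1 ∧ w * z = 1 := by
  have hfin : Module.Finite U (U ⊗[ZMod p] Mt F) := Module.Finite.of_basis (eU p U (Mt F))
  have hinj : ∀ x : U ⊗[ZMod p] Mt F, z * x = 0 → x = 0 := by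
    intro x hx
    refine pc_inj0 _ fun ε => ?_
    have h1 : pc ε z * pc ε x = 0 := by rw [← map_mul, hx, map_zero]
    have h2 : IsUnit (pc ε z) := (Matrix.isUnit_iff_isUnit_det _).2 (isUnit_iff_ne_zero.2 (h ε))
    exact (h2.mul_right_eq_zero).1 h1
  let ℓ : (U ⊗[ZMod p] Mt F) →ₗ[U] (U ⊗[ZMod p] Mt F) := LinearMap.mulLeft U z
  have h3 : Function.Injective ℓ := by
    rw [← LinearMap.ker_eq_bot, LinearMap.ker_eq_bot']
    exact hinj
  obtain ⟨w, hw⟩ := LinearMap.injective_iff_surjective.1 h3 1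
  have hw' : z * w = 1 := hw
  refine ⟨w, hw', ?_⟩
  have h4 : z * (w * z - 1) = 0 := by
    rw [mul_sub, ← mul_assoc, hw', one_mul, mul_one, sub_self]
  exact sub_eq_zero.1 (hinj _ h4)

/-! ### The involution -/

/- The adjugate of a 2 × 2 matrix. -/
def ad {F : Type} [Ring F] (A : Mt F) : Mt F := !![A 1 1, -A 0 1; -A 1 0, A 0 0]

theorem ad_map {F U : Type} [Ring F] [Ring U] (ε : F →+* U) (A : Mt F) :
    ad (A.map ε) = (ad A).map ε := by
  ext i j
  fin_cases i <;> fin_cases j <;> simp [ad]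

theorem ad_smul {U : Type} [CommRing U] (u : U) (A : Mt U) : ad (u • A) = u • ad A := by
  ext i j
  fin_cases i <;> fin_cases j <;> simp [ad]

theorem ad_add {U : Type} [Ring U] (A B : Mt U) : ad (A + B) = ad A + ad B := by
  ext i j
  fin_cases i <;> fin_cases j <;> simp [ad, add_comm]

theorem ad_mul {U : Type} [CommRing U] (A B : Mt U) : ad (A * B) = ad B * ad A := by
  ext i j
  fin_cases i <;> fin_cases j <;> simp [ad, Matrix.mul_apply, Fin.sum_univ_two] <;> ring

theorem ad_ad {U : Type} [Ring U] (A : Mt U) : ad (ad A) = A := by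
  ext i j
  fin_cases i <;> fin_cases j <;> simp [ad]

theorem mul_ad {U : Type} [CommRing U] (A : Mt U) : A * ad A = A.det • (1 : Mt U) := by
  ext i j
  fin_cases i <;> fin_cases j <;>
    simp [ad, Matrix.mul_apply, Fin.sum_univ_two, Matrix.det_fin_two] <;> ring

theorem ad_mul_self {U : Type} [CommRing U] (A : Mt U) : ad A * A = A.det • (1 : Mt U) := by
  ext i j
  fin_cases i <;> fin_cases j <;>
    simp [ad, Matrix.mul_apply, Fin.sum_univ_two, Matrix.det_fin_two] <;> ring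

theorem add_ad {U : Type} [CommRing U] (A : Mt U) : A + ad A = A.trace • (1 : Mt U) := by
  ext i j
  fin_cases i <;> fin_cases j <;>
    simp [ad, Matrix.trace_fin_two] <;> ring

/- The involution on `U ⊗ Mat_2(F)`. -/
noncomputable def st : (U ⊗[ZMod p] Mt F) →ₗ[U] (U ⊗[ZMod p] Mt F) :=
  LinearMap.baseChange U
    { toFun := fun A => ad A
      map_add' := fun A B => ad_add A B
      map_smul' := fun c A => by
        ext i j
        fin_cases i <;> fin_cases j <;> simp [ad] }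

theorem st_tmul (u : U) (A : Mt F) : st (u ⊗ₜ[ZMod p] A) = u ⊗ₜ (ad A) :=
  LinearMap.baseChange_tmul _ _ _

theorem st_em (A : Mt F) : st (em A : U ⊗[ZMod p] Mt F) = em (ad A) := by
  rw [em_apply, em_apply, st_tmul]

theorem pc_st (ε : F →+* U) (z : U ⊗[ZMod p] Mt F) : pc ε (st z) = ad (pc ε z) := by
  refine tens_ind (fun u A => ?_) (fun x y hx hy => ?_) z
  · rw [st_tmul, pc_tmul, pc_tmul, ad_smul, ad_map]
  · rw [map_add, map_add, map_add, hx, hy, ad_add]

theorem st_mul [IsAlgClosed U] (z w : U ⊗[ZMod p] Mt F) : st (z * w) = st w * st z :=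
  pc_inj fun ε => by rw [pc_st, map_mul, map_mul, pc_st, pc_st, ad_mul]

theorem st_st [IsAlgClosed U] (z : U ⊗[ZMod p] Mt F) : st (st z) = z :=
  pc_inj fun ε => by rw [pc_st, pc_st, ad_ad]

theorem tr_comm [IsAlgClosed U] (z w : U ⊗[ZMod p] Mt F) : (z + st z) * w = w * (z + st z) :=
  pc_inj fun ε => by
    rw [map_mul, map_mul, map_add, pc_st, add_ad, smul_mul_assoc, mul_smul_comm, one_mul, mul_one]


theorem mul_st_self [IsAlgClosed U] (z : U ⊗[ZMod p] Mt F) : z * st z = st z * z :=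
  pc_inj fun ε => by
    rw [map_mul, map_mul, pc_st, mul_ad, ad_mul_self]

theorem st_tm (σ : U →+* U) (z : U ⊗[ZMod p] Mt F) : st (tm σ z) = tm σ (st z) := by
  refine tens_ind (fun u A => ?_) (fun x y hx hy => ?_) z
  · rw [tm_tmul, st_tmul, st_tmul, tm_tmul]
  · simp only [map_add, hx, hy]

theorem st_rm (ρ : Mt F →+* Mt F) (hρ : ∀ A, ρ (ad A) = ad (ρ A)) (z : U ⊗[ZMod p] Mt F) :
    st (rm ρ z) = rm ρ (st z) := by
  refine tens_ind (fun u A => ?_) (fun x y hx hy => ?_) z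
  · rw [rm_tmul, st_tmul, st_tmul, rm_tmul, hρ]
  · simp only [map_add, hx, hy]

theorem st_fr [CharP U p] (z : U ⊗[ZMod p] Mt F) : st (fr z) = fr (st z) := st_tm _ z

theorem InH.st' {H : Subfield U} {z : U ⊗[ZMod p] Mt F} (hz : InH H z) : InH H (st z) :=
  hz.lin st (fun a b => map_add _ a b) (fun u a => map_smul _ u a) fun r => ⟨ad r, st_em r⟩

/- Components and automorphisms of `U`. -/
theorem pc_tm (σ : U →+* U) (ε : F →+* U) (z : U ⊗[ZMod p] Mt F) :
    pc (σ.comp ε) (tm σ z) = (pc ε z).map σ := by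
  refine tens_ind (fun u A => ?_) (fun x y hx hy => ?_) z
  · rw [tm_tmul, pc_tmul, pc_tmul]
    ext i j
    simp
  · rw [map_add, map_add, map_add, hx, hy]
    ext i j
    simp

end Pool.Agent.Y60.DC
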