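import Mathlib



/-!
# Transcendence bases of algebraically closed fields
-/

set_option autoImplicit false

open scoped IntermediateField.algebraAdjoinAdjoin
open IntermediateField

namespace Pool.Agent.Y60.DC

section basic

variable {k U ι : Type} [Field k] [Field U] [Algebra k U]

/- A finite family over which a transcendence basis of the same size is algebraic is a
transcendence basis. -/
theorem tb_of_alg [Finite ι] {y : ι → U} (hy : IsTranscendenceBasis k y) (x : ι → U)
    (h : ∀ i, IsAlgebraic (adjoin k (Set.range x)) (y i)) : IsTranscendenceBasis k x := by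
  have h1 : Algebra.IsAlgebraic (Algebra.adjoin k (Set.range x)) U := by
    rw [hy.isAlgebraic_iff (S := Algebra.adjoin k (Set.range x))]
    intro i
    exact (IsFractionRing.isAlgebraic_iff (Algebra.adjoin k (Set.range x))
      (adjoin k (Set.range x)) U).2 (h i)
  exact Algebra.IsAlgebraic.isTranscendenceBasis_of_le_trdeg_of_finite k x
    (le_of_eq hy.cardinalMk_eq_trdeg)

theorem tb_alg {y : ι → U} (hy : IsTranscendenceBasis k y) (z : U) :
    IsAlgebraic (adjoin k (Set.range y)) z := by
  have h1 := hy.isAlgebraic
  exact (IsFractionRing.isAlgebraic_iff (Algebra.adjoin k (Set.range y))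
      (adjoin k (Set.range y)) U).1 (h1.isAlgebraic z)

/- Transcendence bases over `k` are transcendence bases over algebraic extensions. -/
theorem tb_up {C : Type} [Field C] [Algebra k C] [Algebra C U] [IsScalarTower k C U]
    [Algebra.IsAlgebraic k C] {y : ι → U} (hy : IsTranscendenceBasis k y) :
    IsTranscendenceBasis C y := by
  have h1 : AlgebraicIndependent C y := hy.1.extendScalars C
  rw [isTranscendenceBasis_iff_algebraicIndependent_isAlgebraic]
  refine ⟨h1, ⟨fun z => ?_⟩⟩
  have h2 := tb_alg hy z
  refine (IsFractionRing.isAlgebraic_iff (Algebra.adjoin C (Set.range y))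
      (adjoin C (Set.range y)) U).2 ?_
  have hle : adjoin k (Set.range y) ≤ (adjoin C (Set.range y)).restrictScalars k :=
    adjoin_le_iff.2 (subset_adjoin C _)
  let _ : Algebra (adjoin k (Set.range y)) (adjoin C (Set.range y)) :=
    (inclusion hle).toRingHom.toAlgebra
  have : IsScalarTower (adjoin k (Set.range y)) (adjoin C (Set.range y)) U :=
    IsScalarTower.of_algebraMap_eq fun _ => rfl
  exact h2.extendScalars (algebraMap (adjoin k (Set.range y)) (adjoin C (Set.range y))).injective

end basic

/- Algebraically closed fields with transcendence bases indexed by the same set. -/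
theorem exists_iso (k U U' ι : Type) [Field k] [Field U] [Field U'] [Algebra k U] [Algebra k U']
    [IsAlgClosed U] [IsAlgClosed U'] {y : ι → U} {y' : ι → U'} (hy : IsTranscendenceBasis k y)
    (hy' : IsTranscendenceBasis k y') : ∃ σ : U ≃ₐ[k] U', ∀ i, σ (y i) = y' i := by
  let P := MvPolynomial ι k
  let E := FractionRing P
  let a1 : Algebra P U := (MvPolynomial.aeval y).toAlgebra
  let a2 : Algebra P U' := (MvPolynomial.aeval y').toAlgebra
  have i1 : Function.Injective (algebraMap P U) := hy.1
  have i2 : Function.Injective (algebraMap P U') := hy'.1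
  let f1 : E →+* U := IsFractionRing.lift (A := P) i1
  let f2 : E →+* U' := IsFractionRing.lift (A := P) i2
  let _ : Algebra E U := f1.toAlgebra
  let _ : Algebra E U' := f2.toAlgebra
  have t1 : IsScalarTower P E U := IsScalarTower.of_algebraMap_eq fun x =>
    (IsFractionRing.lift_algebraMap i1 x).symm
  have t2 : IsScalarTower P E U' := IsScalarTower.of_algebraMap_eq fun x =>
    (IsFractionRing.lift_algebraMap i2 x).symm
  have c1 : Algebra.IsAlgebraic E U := by
    rw [← IsFractionRing.comap_isAlgebraic_iff (A := P) (K := E) (C := U)]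
    have h1 := hy.isAlgebraic
    refine ⟨fun z => ?_⟩
    obtain ⟨p, hp0, hp⟩ := h1.isAlgebraic z
    have hr : (MvPolynomial.aeval y : P →ₐ[k] U).range = Algebra.adjoin k (Set.range y) :=
      (Algebra.adjoin_range_eq_range_aeval k y).symm
    let e : P ≃+* Algebra.adjoin k (Set.range y) := (hy.1.aevalEquiv).toRingEquiv
    refine ⟨p.map (e.symm : _ →+* P), ?_, ?_⟩
    · rwa [ne_eq, Polynomial.map_eq_zero_iff e.symm.injective]
    · rw [Polynomial.aeval_def, Polynomial.eval₂_map]
      have h2 : (algebraMap P U).comp (e.symm : _ →+* P) =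
          algebraMap (Algebra.adjoin k (Set.range y)) U := by
        apply RingHom.ext
        intro w
        obtain ⟨v, rfl⟩ := e.surjective w
        change algebraMap P U (e.symm (e v)) = _
        rw [RingEquiv.symm_apply_apply]
        exact (hy.1.algebraMap_aevalEquiv v).symm
      rw [h2]
      exact hp
  have c2 : Algebra.IsAlgebraic E U' := by
    rw [← IsFractionRing.comap_isAlgebraic_iff (A := P) (K := E) (C := U')]
    have h1 := hy'.isAlgebraic
    refine ⟨fun z => ?_⟩
    obtain ⟨p, hp0, hp⟩ := h1.isAlgebraic z
    let e : P ≃+* Algebra.adjoin k (Set.range y') := (hy'.1.aevalEquiv).toRingEquiv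
    refine ⟨p.map (e.symm : _ →+* P), ?_, ?_⟩
    · rwa [ne_eq, Polynomial.map_eq_zero_iff e.symm.injective]
    · rw [Polynomial.aeval_def, Polynomial.eval₂_map]
      have h2 : (algebraMap P U').comp (e.symm : _ →+* P) =
          algebraMap (Algebra.adjoin k (Set.range y')) U' := by
        apply RingHom.ext
        intro w
        obtain ⟨v, rfl⟩ := e.surjective w
        change algebraMap P U' (e.symm (e v)) = _
        rw [RingEquiv.symm_apply_apply]
        exact (hy'.1.algebraMap_aevalEquiv v).symm
      rw [h2]
      exact hp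
  have d1 : IsAlgClosure E U := ⟨inferInstance, c1⟩
  have d2 : IsAlgClosure E U' := ⟨inferInstance, c2⟩
  let σ : U ≃ₐ[E] U' := IsAlgClosure.equiv E U U'
  have hk1 : ∀ c : k, algebraMap E U (algebraMap P E (MvPolynomial.C c)) = algebraMap k U c := by
    intro c
    rw [← IsScalarTower.algebraMap_apply P E U]
    exact MvPolynomial.aeval_C y c
  have hk2 : ∀ c : k, algebraMap E U' (algebraMap P E (MvPolynomial.C c)) =
      algebraMap k U' c := by
    intro c
    rw [← IsScalarTower.algebraMap_apply P E U']
    exact MvPolynomial.aeval_C y' c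
  have hx1 : ∀ i, algebraMap E U (algebraMap P E (MvPolynomial.X i)) = y i := by
    intro i
    rw [← IsScalarTower.algebraMap_apply P E U]
    exact MvPolynomial.aeval_X y i
  have hx2 : ∀ i, algebraMap E U' (algebraMap P E (MvPolynomial.X i)) = y' i := by
    intro i
    rw [← IsScalarTower.algebraMap_apply P E U']
    exact MvPolynomial.aeval_X y' i
  refine ⟨AlgEquiv.ofRingEquiv (f := σ.toRingEquiv) fun c => ?_, fun i => ?_⟩
  · rw [← hk1, ← hk2]
    exact σ.commutes _
  · rw [← hx1, ← hx2]
    exact σ.commutes _

end Pool.Agent.Y60.DC
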