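import Mathlib
import Pool.Agent.H84.L.S8_W200_IG_Fam
import Pool.Agent.H84.L.S8_Y60_DC_Comp
import Pool.Agent.H84.L.S8_Y60_DC_Gen
import Pool.Agent.H84.L.S8_Y60_DC_Tens



/-!
# Elements of norm one, and two nonvanishing statements
-/

set_option autoImplicit false

open TensorProduct

namespace Pool.Agent.Y60.DC

section cay

variable {T : Type} [Ring T] (st : T → T) (hmul : ∀ a b, st (a * b) = st b * st a)
  (hadd : ∀ a b, st (a + b) = st a + st b) (hst : ∀ a, st (st a) = a)

include hmul hst in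
theorem st_one : st 1 = 1 := by
  have h1 := hmul (st 1) 1
  rw [mul_one, hst, mul_one] at h1
  exact h1.symm

include hmul hadd hst in
/- The element attached to a trace and an element of norm one. -/
theorem cayW (τ Y D : T) (hτ : ∀ w, τ * w = w * τ) (hτs : st τ = τ) (h1 : Y * st Y = 1)
    (h2 : st Y * Y = 1) (h3 : (1 + Y) * D = 1) (h4 : D * (1 + Y) = 1) :
    st (τ * D * Y) = τ * D ∧ τ * D * Y + st (τ * D * Y) = τ ∧
      τ * D * Y = st (τ * D * Y) * Y := by
  have hDY : D * Y = Y * D := by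
    calc D * Y = D * Y * ((1 + Y) * D) := by rw [h3, mul_one]
      _ = D * (Y * (1 + Y)) * D := by simp only [mul_assoc]
      _ = D * ((1 + Y) * Y) * D := by rw [mul_add, add_mul, mul_one, one_mul]
      _ = D * (1 + Y) * Y * D := by simp only [mul_assoc]
      _ = Y * D := by rw [h4, one_mul]
  have h5 : st D * (1 + st Y) = 1 := by
    have h6 : st ((1 + Y) * D) = st D * (1 + st Y) := by
      rw [hmul, hadd, st_one st hmul hst]
    rw [← h6, h3, st_one st hmul hst]
  have h7 : (1 + st Y) * (D * Y) = 1 := by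
    calc (1 + st Y) * (D * Y) = (st Y * Y + st Y) * (D * Y) := by rw [h2]
      _ = st Y * ((1 + Y) * D) * Y := by
        rw [show st Y * Y + st Y = st Y * (1 + Y) by rw [mul_add, mul_one, add_comm]]
        simp only [mul_assoc]
      _ = 1 := by rw [h3, mul_one, h2]
  have hD : st D = D * Y := by
    calc st D = st D * ((1 + st Y) * (D * Y)) := by rw [h7, mul_one]
      _ = st D * (1 + st Y) * (D * Y) := by rw [mul_assoc]
      _ = D * Y := by rw [h5, one_mul]
  have hW : st (τ * D * Y) = τ * D := by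
    rw [hmul, hmul, hτs, hD, ← mul_assoc, hDY, ← mul_assoc, h2, one_mul, ← hτ]
  refine ⟨hW, ?_, ?_⟩
  · rw [hW]
    calc τ * D * Y + τ * D = τ * (D * (1 + Y)) := by
          rw [mul_add, mul_one, mul_add, ← mul_assoc, add_comm]
      _ = τ := by rw [h4, mul_one]
  · rw [hW]

end cay

theorem aux_one {F U : Type} [Field F] [Field U] (ε : F →+* U) (B c : Mt F) :
    2 * (c.map ε).det + (B.map ε * (c.map ε * c.map ε)).trace =
      ε (2 * c.det + (B * (c * c)).trace) := by
  rw [map_add, map_mul, map_ofNat]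
  simp only [Matrix.det_fin_two, Matrix.trace_fin_two, Matrix.mul_apply, Fin.sum_univ_two,
      Matrix.map_apply, map_sub, map_mul, map_add]

theorem aux_two {U : Type} [Field U] (p : ℕ) [Fact p.Prime] [CharP U p] (s : U) :
    ((ad (!![1, 0; 0, s] : Mt U) * ad (!![1, 0; 0, s] : Mt U)) *
      ((!![1, 0; 0, s] : Mt U) * (!![1, 0; 0, s] : Mt U)).map (frobenius U p)).trace +
      2 * ((!![1, 0; 0, s] : Mt U).det * (!![1, 0; 0, s] : Mt U).det ^ p) =
      (s ^ p + s) ^ 2 := by
  have hp : p ≠ 0 := (Fact.out : p.Prime).ne_zero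
  simp only [Matrix.trace_fin_two, Matrix.mul_apply, Fin.sum_univ_two, Matrix.map_apply,
    Matrix.det_fin_two, frobenius_def]
  simp [ad, hp]
  ring

section nz

variable {p : ℕ} [Fact p.Prime] {F : Type} [Field F] [Finite F] [Algebra (ZMod p) F]
  {K U : Type} [Field K] [Infinite K] [Field U] [IsAlgClosed U] [Algebra K U]
  [Algebra (ZMod p) U]
  (A : Module.Basis (Fin (Module.finrank (ZMod p) (Mt F))) U (U ⊗[ZMod p] Mt F))
  (hA1 : ∀ j, InH (algebraicClosure K U).toSubfield (A j))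
  (hA2 : ∀ z, InH (algebraicClosure K U).toSubfield z → ∀ j, A.repr z j ∈
    (algebraicClosure K U).toSubfield)
  {u : Fin (Module.finrank (ZMod p) (Mt F)) → U} (hu : IsTranscendenceBasis K u)

theorem algM_ε (ε : F →+* U) (B : Mt F) (i j : Fin 2) : IsAlgebraic K (B.map ε i j) :=
  alg_ε ε _

include hA1 hA2 hu

theorem nz_det (ε : F →+* U) : (pc ε (∑ j, u j • A j)).det ≠ 0 := by
  refine gen_ne A hA1 hA2 hu (G := fun z => (pc ε z).det) (GM.det (GM.pc ε)) (em 1)
    (inH_em _ _) ?_
  beta_reduce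
  rw [pc_em]
  have h1 : (1 : Mt F).map ε = 1 := Matrix.map_one ε (map_zero _) (map_one _)
  rw [h1, Matrix.det_one]
  exact one_ne_zero

theorem nz_tr (ε : F →+* U) : (pc ε (∑ j, u j • A j)).trace ≠ 0 := by
  refine gen_ne A hA1 hA2 hu (G := fun z => (pc ε z).trace) (GM.trace (GM.pc ε))
    (em !![1, 0; 0, 0]) (inH_em _ _) ?_
  beta_reduce
  rw [pc_em, Matrix.trace_fin_two]
  simp

theorem nz_one (ε : F →+* U) (B : Mt F) (hB : B.det = 1) :
    2 * (pc ε (∑ j, u j • A j)).det +
      (B.map ε * (pc ε (∑ j, u j • A j) * pc ε (∑ j, u j • A j))).trace ≠ 0 := by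
  let G : (U ⊗[ZMod p] Mt F) → U := fun z =>
    2 * (pc ε z).det + (B.map ε * (pc ε z * pc ε z)).trace
  have hG : Gd K G := ((Gd.const 2 (by
      have h1 : (2 : U) = algebraMap K U 2 := (map_ofNat _ 2).symm
      rw [h1]
      exact isAlgebraic_algebraMap _)).mul (GM.det (GM.pc ε))).add
    (GM.trace ((GM.const _ (algM_ε ε B)).mul ((GM.pc ε).mul (GM.pc ε))))
  obtain ⟨c, hc⟩ : ∃ c : Mt F, 2 * c.det + (B * (c * c)).trace ≠ 0 := by
    by_contra hcon
    push Not at hcon
    have h1 := hcon !![1, 0; 0, 0]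
    have h2 := hcon !![0, 0; 0, 1]
    have h3 := hcon !![1, 1; 0, 0]
    have h4 := hcon !![1, 0; 1, 0]
    simp [Matrix.trace_fin_two, Matrix.mul_apply, Fin.sum_univ_two, Matrix.det_fin_two]
      at h1 h2 h3 h4
    rw [h1] at h3 h4
    rw [zero_add] at h3 h4
    rw [Matrix.det_fin_two, h1, h3] at hB
    simp at hB
  refine gen_ne A hA1 hA2 hu hG (em c) (inH_em _ _) ?_
  have h5 : G (em c) = ε (2 * c.det + (B * (c * c)).trace) := by
    have h6 : pc ε (em c : U ⊗[ZMod p] Mt F) = c.map ε := pc_em ε c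
    simp only [G, h6]
    exact aux_one ε B c
  rw [h5, ne_eq, map_eq_zero_iff _ ε.injective]
  exact hc

theorem nz_two [CharP U p] [CharP K p] (ε ε' : F →+* U) :
    ((ad (pc ε (∑ j, u j • A j)) * ad (pc ε (∑ j, u j • A j))) *
      (pc ε' (∑ j, u j • A j) * pc ε' (∑ j, u j • A j)).map (frobenius U p)).trace +
      2 * ((pc ε (∑ j, u j • A j)).det * (pc ε' (∑ j, u j • A j)).det ^ p) ≠ 0 := by
  let G : (U ⊗[ZMod p] Mt F) → U := fun z =>
    ((ad (pc ε z) * ad (pc ε z)) * (pc ε' z * pc ε' z).map (frobenius U p)).trace +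
      2 * ((pc ε z).det * (pc ε' z).det ^ p)
  have hG : Gd K G := (GM.trace (((GM.pc ε).ad.mul (GM.pc ε).ad).mul
    ((GM.pc ε').mul (GM.pc ε')).frob)).add ((Gd.const 2 (by
      have h1 : (2 : U) = algebraMap K U 2 := (map_ofNat _ 2).symm
      rw [h1]
      exact isAlgebraic_algebraMap _)).mul ((GM.det (GM.pc ε)).mul ((GM.det (GM.pc ε')).pow p)))
  have hp : 2 ≤ p := (Fact.out : p.Prime).two_le
  obtain ⟨s, hs0, hs⟩ : ∃ s : K, s ≠ 0 ∧ s ^ p + s ≠ 0 := by
    by_contra hcon
    push Not at hcon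
    have h2 : (Polynomial.X ^ p + Polynomial.X : Polynomial K) = 0 := by
      apply Polynomial.eq_zero_of_infinite_isRoot
      refine Set.Infinite.mono (s := {x : K | x ≠ 0}) ?_ ?_
      · intro x hx
        change Polynomial.eval x _ = 0
        rw [Polynomial.eval_add, Polynomial.eval_pow, Polynomial.eval_X]
        exact hcon x hx
      · have h4 : ({x | x ≠ 0} : Set K) = ({0} : Set K)ᶜ := rfl
        rw [h4]
        exact (Set.finite_singleton 0).infinite_compl
    have h3 := congrArg (fun P : Polynomial K => P.coeff 1) h2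
    simp only [Polynomial.coeff_add, Polynomial.coeff_X_pow, Polynomial.coeff_X_one,
      Polynomial.coeff_zero] at h3
    rw [if_neg (by omega), zero_add] at h3
    exact one_ne_zero h3
  let sU : U := algebraMap K U s
  have hsC : sU ∈ (algebraicClosure K U).toSubfield :=
    mem_algebraicClosure_iff.2 (isAlgebraic_algebraMap _)
  refine gen_ne A hA1 hA2 hu hG (em !![1, 0; 0, 0] + sU • em !![0, 0; 0, 1])
    ((inH_em _ _).add ((inH_em _ _).smul hsC)) ?_
  have h5 : ∀ ε : F →+* U, pc ε ((em !![1, 0; 0, 0] : U ⊗[ZMod p] Mt F) +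
      sU • em !![0, 0; 0, 1]) = !![1, 0; 0, sU] := by
    intro ε
    rw [map_add, map_smul, pc_em, pc_em]
    ext i j
    fin_cases i <;> fin_cases j <;> simp
  have h6 : G (em !![1, 0; 0, 0] + sU • em !![0, 0; 0, 1]) = (sU ^ p + sU) ^ 2 := by
    simp only [G, h5]
    exact aux_two p sU
  rw [h6]
  refine pow_ne_zero 2 ?_
  have h7 : sU ^ p + sU = algebraMap K U (s ^ p + s) := by
    rw [map_add, map_pow]
  rw [h7, ne_eq, map_eq_zero_iff _ (algebraMap K U).injective]
  exact hs

end nz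

end Pool.Agent.Y60.DC
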