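import Mathlib
import Pool.Agent.H84.L.S8_H391R2_T4_Nod
import Pool.Agent.H84.L.S8_H391R2_T4_Red
import Pool.Agent.H84.L.S8_H391R2_T4_Sem
import Pool.Agent.H84.L.S8_W200_IG_Fam
import Pool.Agent.H84.L.S8_W200_IJ_BC
import Pool.Agent.H84.L.S8_W200_IJ_SA
import Pool.Agent.H84.L.S8_W200_IJ_SG
import Pool.Agent.H84.L.S8_Y60_DC_Tb

namespace Pool.Agent.H391R2.T4
end Pool.Agent.H391R2.T4


/-!
# A criterion for regular solutions

`U` is an algebraically closed field with a finite transcendence basis `x` over `K`.  If every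
automorphism of `U` over `K(x)` determines an element of `G`, and all elements of the kernel come
from automorphisms which fix the algebraic elements, then the embedding problem has a regular
solution over `K(t)`.
-/

set_option autoImplicit false

open IntermediateField

namespace Pool.Agent.Y60.DC

open Pool.Agent.H391R2.T4 (RegSol)

section lift

variable {K L U ι : Type} [Field K] [Field L] [Algebra K L] [FiniteDimensional K L]
    [Field U] [IsAlgClosed U] [Algebra K U] [Algebra L U] [IsScalarTower K L U]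

/- Another structure of algebra. -/
abbrev twAlg (K : Type) {L : Type} (U : Type) [Field K] [Field L] [Algebra K L] [Field U]
    [Algebra L U] (ρ : L ≃ₐ[K] L) : Algebra L U :=
  ((algebraMap L U).comp (ρ : L →+* L)).toAlgebra

theorem tw_tower (ρ : L ≃ₐ[K] L) : @IsScalarTower K L U _ (twAlg K U ρ).toSMul _ :=
  @IsScalarTower.of_algebraMap_eq K L U _ _ _ _ (twAlg K U ρ) _ fun c => by
    have h1 : @algebraMap L U _ _ (twAlg K U ρ) (algebraMap K L c) =
      algebraMap L U (ρ (algebraMap K L c)) := rfl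
    rw [h1, AlgEquiv.commutes, ← IsScalarTower.algebraMap_apply K L U]

/- Automorphisms of `L` extend to automorphisms which fix a transcendence basis. -/
theorem exists_lift {x : ι → U} (hx : IsTranscendenceBasis K x) (ρ : L ≃ₐ[K] L) :
    ∃ σ : U ≃ₐ[K] U, (∀ l, σ (algebraMap L U l) = algebraMap L U (ρ l)) ∧
      ∀ i, σ (x i) = x i := by
  have h1 : IsTranscendenceBasis L x := tb_up hx
  have h2 := @tb_up K U ι _ _ _ L _ _ (twAlg K U ρ) (tw_tower ρ) _ x hx
  obtain ⟨σ, hσ⟩ := @exists_iso L U U ι _ _ _ _ (twAlg K U ρ) _ _ x x h1 h2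
  have hc : ∀ l, σ (algebraMap L U l) = algebraMap L U (ρ l) := fun l =>
    @AlgEquiv.commutes L U U _ _ _ _ (twAlg K U ρ) σ l
  refine ⟨AlgEquiv.ofRingEquiv (f := @AlgEquiv.toRingEquiv L U U _ _ _ _ (twAlg K U ρ) σ)
    fun c => ?_, hc, hσ⟩
  change σ (algebraMap K U c) = _
  rw [IsScalarTower.algebraMap_apply K L U, hc, AlgEquiv.commutes]

end lift

section frac

variable {K U ι : Type} [Field K] [Field U] [Algebra K U]

theorem fix_adjoin {x : ι → U} (σ : U ≃ₐ[K] U) (h : ∀ i, σ (x i) = x i)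
    (z : U) (hz : z ∈ adjoin K (Set.range x)) : σ z = z := by
  refine adjoin_induction (F := K) (s := Set.range x) (p := fun z _ => σ z = z) ?_ ?_ ?_ ?_ ?_ hz
  · rintro _ ⟨i, rfl⟩
    exact h i
  · intro c
    exact σ.commutes c
  · intro a b _ _ ha hb
    rw [map_add, ha, hb]
  · intro a _ ha
    rw [map_inv₀, ha]
  · intro a b _ _ ha hb
    rw [map_mul, ha, hb]

/- The field generated by algebraically independent elements. -/
theorem exists_frac {x : ι → U} (hx : AlgebraicIndependent K x) :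
    ∃ (_ : Algebra (MvPolynomial ι K) (adjoin K (Set.range x)))
      (_ : IsFractionRing (MvPolynomial ι K) (adjoin K (Set.range x))),
      IsScalarTower K (MvPolynomial ι K) (adjoin K (Set.range x)) := by
  let E := adjoin K (Set.range x)
  let f : MvPolynomial ι K →ₐ[K] E :=
    MvPolynomial.aeval fun i => ⟨x i, subset_adjoin K _ ⟨i, rfl⟩⟩
  have hf : ∀ P, ((f P : E) : U) = MvPolynomial.aeval x P := by
    intro P
    have h1 : (E.val.comp f) = MvPolynomial.aeval x := by
      apply MvPolynomial.algHom_ext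
      intro i
      change ((f (MvPolynomial.X i) : E) : U) = _
      rw [MvPolynomial.aeval_X, MvPolynomial.aeval_X]
    exact AlgHom.congr_fun h1 P
  let a : Algebra (MvPolynomial ι K) E := f.toRingHom.toAlgebra
  have hinj : Function.Injective (algebraMap (MvPolynomial ι K) E) := by
    intro P Q h
    apply hx
    rw [← hf, ← hf]
    exact congrArg Subtype.val h
  have hfs : FaithfulSMul (MvPolynomial ι K) E := (faithfulSMul_iff_algebraMap_injective _ _).2 hinj
  refine ⟨a, IsFractionRing.of_field _ _ fun z => ?_, IsScalarTower.of_algebraMap_eq fun c => ?_⟩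
  · obtain ⟨u, hu, v, hv, huv⟩ := mem_adjoin_iff_div.1 z.2
    rw [Algebra.adjoin_range_eq_range_aeval] at hu hv
    obtain ⟨P, hP⟩ := hu
    obtain ⟨Q, hQ⟩ := hv
    refine ⟨P, Q, ?_⟩
    apply Subtype.ext
    change (z : U) = ((f P : E) : U) / ((f Q : E) : U)
    rw [hf, hf, huv]
    change _ = (MvPolynomial.aeval x : MvPolynomial ι K →ₐ[K] U) P / _
    rw [← hP, ← hQ]
    rfl
  · exact (f.commutes c).symm

end frac

/- **The criterion.** -/
theorem frame (K L G : Type) [Field K] [Infinite K] [Field L] [Algebra K L]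
    [FiniteDimensional K L] [IsGalois K L] [Group G] [Finite G] (α : G →* (L ≃ₐ[K] L))
    (hα : Function.Surjective α)
    (U : Type) [Field U] [IsAlgClosed U] [Algebra K U] [Algebra L U] [IsScalarTower K L U]
    (ι : Type) [Finite ι] (x : ι → U) (hx : IsTranscendenceBasis K x)
    (R : (U ≃ₐ[K] U) → G → Prop)
    (r1 : ∀ σ : U ≃ₐ[K] U, (∀ i, σ (x i) = x i) → ∃ g, R σ g)
    (r2 : ∀ σ g h, R σ g → R σ h → g = h)
    (r3 : ∀ σ τ g h, R σ g → R τ h → R (σ * τ) (g * h))
    (r4 : ∀ σ g, R σ g → ∀ l, σ (algebraMap L U l) = algebraMap L U (α g l))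
    (S : Set U) (hSf : S.Finite)
    (r5 : ∀ σ : U ≃ₐ[K] U, (∀ i, σ (x i) = x i) → (∀ s ∈ S, σ s = s) → R σ 1)
    (r6 : ∀ g, α g = 1 → ∃ σ : U ≃ₐ[K] U, (∀ z, IsAlgebraic K z → σ z = z) ∧
      (∀ i, σ (x i) = x i) ∧ R σ g) :
    RegSol K L G α := by
  classical
  let Q := adjoin K (Set.range x)
  obtain ⟨a1, a2, a3⟩ := exists_frac hx.1
  have halg : Algebra.IsAlgebraic Q U := ⟨fun z => tb_alg hx z⟩
  have hclos : IsAlgClosure Q U := ⟨inferInstance, halg⟩
  have hnorm : Normal Q U := IsAlgClosure.normal Q U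
  -- elements of the two groups
  have hfixx : ∀ (σ : U ≃ₐ[Q] U) (i : ι), (σ.restrictScalars K) (x i) = x i := fun σ i =>
    σ.commutes ⟨x i, subset_adjoin K _ ⟨i, rfl⟩⟩
  have hup : ∀ σ : U ≃ₐ[K] U, (∀ i, σ (x i) = x i) →
      ∃ τ : U ≃ₐ[Q] U, τ.restrictScalars K = σ := by
    intro σ hσ
    exact ⟨AlgEquiv.ofRingEquiv (f := σ.toRingEquiv) fun z => fix_adjoin σ hσ z.1 z.2,
      AlgEquiv.ext fun _ => rfl⟩
  choose φ hφ using fun σ : U ≃ₐ[Q] U => r1 (σ.restrictScalars K) (hfixx σ)
  have hφu : ∀ (σ : U ≃ₐ[Q] U) (g : G), R (σ.restrictScalars K) g → φ σ = g := fun σ g h =>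
    r2 _ _ _ (hφ σ) h
  have hmul : ∀ σ τ : U ≃ₐ[Q] U, φ (σ * τ) = φ σ * φ τ := fun σ τ =>
    hφu _ _ (r3 _ _ _ _ (hφ σ) (hφ τ))
  let Φ : (U ≃ₐ[Q] U) →* G := MonoidHom.mk' φ hmul
  have hΦ : ∀ σ, Φ σ = φ σ := fun _ => rfl
  have hker : ∀ g, α g = 1 → ∃ σ : U ≃ₐ[Q] U, (∀ z, IsAlgebraic K z → σ z = z) ∧ Φ σ = g := by
    intro g hg
    obtain ⟨σ, h1, h2, h3⟩ := r6 g hg
    obtain ⟨τ, hτ⟩ := hup σ h2
    refine ⟨τ, fun z hz => ?_, hφu _ _ (hτ ▸ h3)⟩
    have h4 := h1 z hz
    rw [← hτ] at h4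
    exact h4
  have hL : ∀ (σ : U ≃ₐ[Q] U) (l : L), σ (algebraMap L U l) = algebraMap L U (α (Φ σ) l) :=
    fun σ l => r4 _ _ (hφ σ) l
  have hsurj : Function.Surjective Φ := by
    intro g
    obtain ⟨σ, h1, h2⟩ := exists_lift (L := L) hx (α g)
    obtain ⟨τ, hτ⟩ := hup σ h2
    have h3 : α (Φ τ) = α g := by
      apply AlgEquiv.ext
      intro l
      apply (algebraMap L U).injective
      rw [← hL, ← h1, ← hτ]
      rfl
    obtain ⟨τ', -, h4⟩ := hker (g * (Φ τ)⁻¹) (by rw [map_mul, map_inv, h3, mul_inv_cancel])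
    exact ⟨τ' * τ, by rw [map_mul, h4, inv_mul_cancel_right]⟩
  have hS : ∀ σ : U ≃ₐ[Q] U, (∀ s ∈ S, σ s = s) → Φ σ = 1 := fun σ h =>
    hφu _ _ (r5 _ (hfixx σ) h)
  obtain ⟨E, e1, e2, e3, e4, e5, e6, e, he, hsep⟩ :=
    Pool.Agent.W200.IJ.finite_descent2 (F := Q) (N := U) Φ hsurj S hSf hS
  -- the embedding of `L`
  have tKQU : IsScalarTower K Q U := inferInstance
  have hLE : ∀ l : L, ∃ z : E, algebraMap E U z = algebraMap L U l := by
    intro l
    apply hsep
    · have h1 : IsSeparable K l := Algebra.IsSeparable.isSeparable K l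
      have h2 : IsSeparable K (algebraMap L U l) := by
        unfold IsSeparable at h1 ⊢
        rwa [minpoly.algebraMap_eq (algebraMap L U).injective]
      exact h2.tower_top Q
    · intro σ hσ
      rw [hL, hσ, map_one]
      rfl
  choose g hg using hLE
  let G' : L →+* E :=
    { toFun := g
      map_one' := (algebraMap E U).injective (by rw [hg, map_one, map_one])
      map_mul' := fun a b => (algebraMap E U).injective (by rw [hg, map_mul, map_mul, hg, hg])
      map_zero' := (algebraMap E U).injective (by rw [hg, map_zero, map_zero])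
      map_add' := fun a b => (algebraMap E U).injective (by rw [hg, map_add, map_add, hg, hg]) }
  let _ : Algebra L E := G'.toAlgebra
  have hLEU : ∀ l : L, algebraMap E U (algebraMap L E l) = algebraMap L U l := hg
  let _ : Algebra K E := ((algebraMap Q E).comp (algebraMap K Q)).toAlgebra
  have t2 : IsScalarTower K Q E := IsScalarTower.of_algebraMap_eq fun _ => rfl
  have t3 : IsScalarTower K E U := IsScalarTower.of_algebraMap_eq fun k => by
    change _ = algebraMap E U (algebraMap Q E (algebraMap K Q k))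
    rw [← IsScalarTower.algebraMap_apply Q E U, ← IsScalarTower.algebraMap_apply K Q U]
  have t4 : IsScalarTower K L E := IsScalarTower.of_algebraMap_eq fun k => by
    apply (algebraMap E U).injective
    rw [hLEU, ← IsScalarTower.algebraMap_apply K L U, ← IsScalarTower.algebraMap_apply K E U]
  have hcompat : ∀ (τ : E ≃ₐ[Q] E) (l : L), τ (algebraMap L E l) =
      algebraMap L E (α (e τ) l) := by
    intro τ l
    obtain ⟨σ, hσ⟩ := hsurj (e τ)
    have h1 := he σ (algebraMap L E l)
    rw [hσ, MulEquiv.symm_apply_apply, hLEU, hL, hσ] at h1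
    apply (algebraMap E U).injective
    rw [hLEU]
    exact h1.symm
  refine Pool.Agent.W200.IJ.taskA K L G α ι Q E e hcompat ?_
  intro y hy
  apply Pool.Agent.W200.IJ.reg_of_inv (k := K) (M := L) (E := Q) (F := E)
    (fun z hz => Pool.Agent.W200.IJ.const_frac (V := ι) z hz) _ y hy
  · intro τ hτ
    have h1 : α (e τ) = 1 := by
      ext l
      apply (algebraMap L E).injective
      rw [← hcompat, hτ]
      rfl
    obtain ⟨σ, h2, h3⟩ := hker _ h1
    have h4 := he σ y
    rw [h3, MulEquiv.symm_apply_apply] at h4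
    apply (algebraMap E U).injective
    rw [← h4]
    apply h2
    have h5 : IsAlgebraic K y := hy.restrictScalars K
    exact h5.algebraMap
  · intro ρ
    obtain ⟨z, hz⟩ := hα ρ
    refine ⟨e.symm z, fun a => ?_⟩
    rw [hcompat, MulEquiv.apply_symm_apply, hz]

end Pool.Agent.Y60.DC
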