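import Mathlib
import Pool.Agent.H84.L.S8_Y60_DC_Su
import Pool.Agent.H84.L.S8_Y60_DC_Tens



/-!
# Special points
-/

set_option autoImplicit false

open TensorProduct Polynomial

namespace Pool.Agent.Y60.DC

theorem p_zero {p : ℕ} [Fact p.Prime] {R : Type} [Ring R] [Algebra (ZMod p) R] :
    ((p : ℕ) : R) = 0 := by
  rw [← map_natCast (algebraMap (ZMod p) R) p, CharP.cast_eq_zero, map_zero]

theorem two_zero {p : ℕ} [Fact p.Prime] {R : Type} [Ring R] [Algebra (ZMod p) R] (hp : p = 2) :
    (2 : R) = 0 := by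
  subst hp
  have h1 := p_zero (p := 2) (R := R)
  exact_mod_cast h1

section pts

variable {p : ℕ} [Fact p.Prime] {A : Type} [Field A] [Infinite A] [Algebra (ZMod p) A]
  {R : Type} [Ring R] [Algebra (ZMod p) R] [Finite R]

/- Almost all translates are units. -/
theorem exists_trans (t : A ⊗[ZMod p] R) : ∃ (l : A) (y : A ⊗[ZMod p] R),
    (t + l • (1 : A ⊗[ZMod p] R)) * y = 1 := by
  have hfin : Module.Finite A (A ⊗[ZMod p] R) := Module.Finite.of_basis (eU p A R)
  obtain ⟨f, hf, hf0⟩ := Algebra.IsIntegral.isIntegral (R := A) t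
  have hfinR : {x | f.IsRoot x}.Finite := by
    by_contra h
    exact hf.ne_zero (Polynomial.eq_zero_of_infinite_isRoot f h)
  obtain ⟨μ, hμ⟩ := hfinR.infinite_compl.nonempty
  have hμ' : f.eval μ ≠ 0 := hμ
  obtain ⟨g, hg⟩ := Polynomial.X_sub_C_dvd_sub_C_eval (a := μ) (p := f)
  have h1 : aeval t f - algebraMap A _ (f.eval μ) = (t - algebraMap A _ μ) * aeval t g := by
    have h2 := congrArg (aeval t) hg
    rw [map_sub, aeval_C, map_mul, map_sub, aeval_X, aeval_C] at h2
    exact h2
  have hf0' : aeval t f = 0 := hf0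
  rw [hf0', zero_sub] at h1
  refine ⟨-μ, (-(f.eval μ)⁻¹) • aeval t g, ?_⟩
  have h3 : t + (-μ) • (1 : A ⊗[ZMod p] R) = t - algebraMap A _ μ := by
    rw [Algebra.algebraMap_eq_smul_one, neg_smul, sub_eq_add_neg]
  rw [h3, mul_smul_comm, ← h1, Algebra.algebraMap_eq_smul_one, ← neg_smul, smul_smul,
    neg_mul_neg, inv_mul_cancel₀ hμ', one_smul]

variable [StarRing R]

/- A half, in odd characteristic. -/
theorem exists_half (hp : p ≠ 2) : ∃ h : R, h + h = 1 ∧ star h = h := by
  have hodd : Odd p := (Fact.out : p.Prime).odd_of_ne_two hp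
  obtain ⟨k, hk⟩ := hodd
  refine ⟨((k + 1 : ℕ) : R), ?_, star_natCast _⟩
  have h1 : ((k + 1 : ℕ) : R) + ((k + 1 : ℕ) : R) = ((p : ℕ) : R) + 1 := by
    rw [← Nat.cast_add, ← Nat.cast_succ]
    congr 1
    omega
  rw [h1, p_zero, zero_add]

/- First special point. -/
theorem pointA (z₀ : R) (hz₀ : z₀ + star z₀ = 1) : ∃ v y : A ⊗[ZMod p] R, v + su v = 1 ∧
    su v * y = 1 := by
  by_cases hp : p = 2
  · obtain ⟨l, y, hy⟩ := exists_trans (A := A) (em (star z₀) : A ⊗[ZMod p] R)
    have hsu : su (em z₀ + l • (1 : A ⊗[ZMod p] R)) = em (star z₀) + l • 1 := by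
      rw [map_add, map_smul, su_em, su_one]
    refine ⟨em z₀ + l • 1, y, ?_, ?_⟩
    · rw [hsu]
      have h2 : l + l = 0 := by
        have := two_zero (R := A) hp
        linear_combination l * this
      calc em z₀ + l • (1 : A ⊗[ZMod p] R) + (em (star z₀) + l • 1) =
          (em z₀ + em (star z₀)) + (l + l) • 1 := by rw [add_smul]; abel
        _ = 1 := by rw [← map_add, hz₀, map_one, h2, zero_smul, add_zero]
    · rw [hsu, hy]
  · obtain ⟨h, h1, h2⟩ := exists_half (p := p) (R := R) hp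
    refine ⟨em h, em 2, ?_, ?_⟩
    · rw [su_em, h2, ← map_add, h1, map_one]
    · rw [su_em, h2, ← map_mul, mul_two, h1, map_one]

/- Second special point. -/
theorem pointB [CharP A p] (z₀ : R) (hz₀ : z₀ + star z₀ = 1) : ∃ v y : A ⊗[ZMod p] R,
    v + su v = 1 ∧ (fr (su v) * v + fr v * su v) * y = 1 := by
  by_cases hp : p = 2
  · obtain ⟨l, hl⟩ : ∃ l : A, l + l ^ 2 ≠ 0 := by
      by_contra hcon
      push Not at hcon
      have h2 : (X + X ^ 2 : A[X]) = 0 := by
        apply Polynomial.eq_zero_of_infinite_isRoot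
        refine Set.Infinite.mono (s := Set.univ) (fun x _ => ?_) Set.infinite_univ
        change Polynomial.eval x _ = 0
        rw [eval_add, eval_pow, eval_X]
        exact hcon x
      have h3 := congrArg (fun P : A[X] => P.coeff 1) h2
      simp [coeff_X_pow] at h3
    have hsu : su (em z₀ + l • (1 : A ⊗[ZMod p] R)) = em (star z₀) + l • 1 := by
      rw [map_add, map_smul, su_em, su_one]
    have hfr : ∀ r : R, fr (em r + l • (1 : A ⊗[ZMod p] R)) = em r + (l ^ 2) • 1 := by
      intro r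
      rw [map_add]
      congr 1
      · exact tm_em _ _
      · change tm (frobenius A p) (l • (1 : A ⊗[ZMod p] R)) = _
        have hl2 : l ^ p = l ^ 2 := congrArg (fun n => l ^ n) hp
        rw [tm_smul, map_one, frobenius_def, hl2]
    have h20 := two_zero (R := A) hp
    have h2l : l + l = 0 := by linear_combination l * h20
    refine ⟨em z₀ + l • 1, (l + l ^ 2)⁻¹ • 1, ?_, ?_⟩
    · rw [hsu]
      calc em z₀ + l • (1 : A ⊗[ZMod p] R) + (em (star z₀) + l • 1) =
          (em z₀ + em (star z₀)) + (l + l) • 1 := by rw [add_smul]; abel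
        _ = 1 := by rw [← map_add, hz₀, map_one, h2l, zero_smul, add_zero]
    · rw [hsu, hfr, hfr]
      have hs : star z₀ = 1 - z₀ := eq_sub_of_add_eq' hz₀
      have hcm : (em (star z₀) : A ⊗[ZMod p] R) * em z₀ = em z₀ * em (star z₀) := by
        rw [← map_mul, ← map_mul, hs, sub_mul, mul_sub, one_mul, mul_one]
      have hsum : (em (star z₀) : A ⊗[ZMod p] R) + em z₀ = 1 := by
        rw [← map_add, add_comm, hz₀, map_one]
      have key : (em (star z₀) + l ^ 2 • (1 : A ⊗[ZMod p] R)) * (em z₀ + l • 1) +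
          (em z₀ + l ^ 2 • (1 : A ⊗[ZMod p] R)) * (em (star z₀) + l • 1) =
          (l + l ^ 2) • 1 := by
        have e1 : (em (star z₀) + l ^ 2 • (1 : A ⊗[ZMod p] R)) * (em z₀ + l • 1) +
            (em z₀ + l ^ 2 • (1 : A ⊗[ZMod p] R)) * (em (star z₀) + l • 1) =
            (2 : A) • (em z₀ * em (star z₀)) + l • (em (star z₀) + em z₀) +
              l ^ 2 • (em (star z₀) + em z₀) + (2 * (l ^ 2 * l)) • 1 := by
          simp only [add_mul, mul_add, smul_mul_assoc, mul_smul_comm, one_mul, mul_one, smul_smul,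
            smul_add, hcm, two_smul, two_mul, add_smul, mul_comm l (l ^ 2)]
          abel
        rw [e1, h20, hsum, zero_smul, zero_mul, zero_smul, zero_add, add_zero, add_smul]
      rw [key, smul_mul_smul_comm, mul_inv_cancel₀ hl, one_mul, one_smul]
  · obtain ⟨h, h1, h2⟩ := exists_half (p := p) (R := R) hp
    refine ⟨em h, em 2, ?_, ?_⟩
    · rw [su_em, h2, ← map_add, h1, map_one]
    · have hfr : fr (em h : A ⊗[ZMod p] R) = em h := tm_em _ _
      rw [su_em, h2, hfr, ← map_mul, ← map_add, ← map_mul]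
      have h3 : (h * h + h * h) * 2 = 1 := by
        rw [← mul_add, h1, mul_one, mul_two, h1]
      rw [h3, map_one]

end pts

end Pool.Agent.Y60.DC
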