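import Mathlib
import Pool.Agent.H84.L.S8_H391R2_T4_Nod
import Pool.Agent.H84.L.S8_H391R2_T4_Sem
import Pool.Agent.H84.L.S8_W200_IG_Fam
import Pool.Agent.H84.L.S8_W200_IG_HF
import Pool.Agent.H84.L.S8_W200_IJ_SA
import Pool.Agent.H84.L.S8_Y60_DC_Nrm
import Pool.Agent.H84.L.S8_Y60_DC_Skew
import Pool.Agent.H84.L.S8_Y60_DC_StarReg
import Pool.Agent.H84.L.S8_Y60_DC_Su
import Pool.Agent.H84.L.S8_Y60_DC_Tens



/-!
# The connected unitary group of a finite ring with involution
-/

set_option autoImplicit false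

open TensorProduct

namespace Pool.Agent.Y60.DC

/- The element `b` of the ring `R` with involution, an algebra over the field with `p` elements,
is connected to `1`: over some field `A` of characteristic `p` there is `v` in `A ⊗ R` such that
`v + v* = 1` and `v* + b v` is a unit. -/
def ConnSome (p : ℕ) [Fact p.Prime] {R : Type} [Ring R] [Algebra (ZMod p) R] [StarRing R]
    (b : R) : Prop :=
  ∃ (A : Type) (_ : Field A) (_ : Algebra (ZMod p) A) (v y : A ⊗[ZMod p] R),
    v + su v = 1 ∧ (su v + em b * v) * y = 1 ∧ y * (su v + em b * v) = 1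

section conn

variable {p : ℕ} [Fact p.Prime] {R : Type} [Ring R] [Algebra (ZMod p) R] [StarRing R] [Finite R]

/- The universal element over a polynomial ring over the prime field. -/
theorem conn_data (h1 : ∃ z : R, z + star z = 1) :
    ∃ (m : ℕ) (Q : MvPolynomial (Fin m) (ZMod p) ⊗[ZMod p] R), Q + su Q = 1 ∧
      ∀ (A : Type) [Field A] [Algebra (ZMod p) A] (v : A ⊗[ZMod p] R), v + su v = 1 →
        ∃ c : Fin m → A, tm ((MvPolynomial.aeval c : MvPolynomial (Fin m) (ZMod p) →ₐ[ZMod p] A) :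
      MvPolynomial (Fin m) (ZMod p) →+* A) Q = v := by
  obtain ⟨z₀, hz₀⟩ := h1
  obtain ⟨m, w₀, b, b1, -, b3, -, -, b6⟩ := exists_skew (p := p) (ZMod p) (ZMod p) R
    (1 : (ZMod p ≃ₐ[ZMod p] ZMod p) →* (R ≃+* R)) (fun _ _ => rfl) z₀ hz₀
  let C : ZMod p →+* MvPolynomial (Fin m) (ZMod p) := MvPolynomial.C
  refine ⟨m, tm C w₀ + ∑ j, (MvPolynomial.X j : MvPolynomial (Fin m) (ZMod p)) • tm C (b j),
    ?_, ?_⟩
  · have e1 : su (tm C w₀ + ∑ j, (MvPolynomial.X j : MvPolynomial (Fin m) (ZMod p)) •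
        tm C (b j)) = tm C (su w₀) + ∑ j, (MvPolynomial.X j : MvPolynomial (Fin m) (ZMod p)) •
        tm C (su (b j)) := by
      rw [map_add, map_sum, su_tm]
      simp only [map_smul, su_tm]
    rw [e1]
    calc tm C w₀ + ∑ j, (MvPolynomial.X j : MvPolynomial (Fin m) (ZMod p)) • tm C (b j) +
          (tm C (su w₀) + ∑ j, (MvPolynomial.X j : MvPolynomial (Fin m) (ZMod p)) •
            tm C (su (b j))) =
        (tm C w₀ + tm C (su w₀)) +
          (∑ j, (MvPolynomial.X j : MvPolynomial (Fin m) (ZMod p)) • tm C (b j) +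
            ∑ j, (MvPolynomial.X j : MvPolynomial (Fin m) (ZMod p)) • tm C (su (b j))) := by abel
      _ = 1 := by
        rw [← map_add, b1, map_one, ← Finset.sum_add_distrib]
        simp only [← smul_add, ← map_add, b3, map_zero, smul_zero, Finset.sum_const_zero,
          add_zero]
  · intro A _ _ v hv
    obtain ⟨χ, -, c2, -⟩ := b6 A
    refine ⟨χ v, ?_⟩
    have g1 : ((MvPolynomial.aeval (χ v) : _ →ₐ[ZMod p] A) : _ →+* A).comp C =
        algebraMap (ZMod p) A := by
      apply RingHom.ext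
      intro l
      exact MvPolynomial.aeval_C (χ v) l
    rw [map_add, map_sum, tm_tm, g1]
    conv_rhs => rw [c2 v hv]
    congr 1
    refine Finset.sum_congr rfl fun j _ => ?_
    rw [tm_smul, tm_tm, g1]
    congr 1
    exact MvPolynomial.aeval_X (χ v) j

/- Points where a polynomial does not vanish. -/
theorem exists_point {m : ℕ} (N : MvPolynomial (Fin m) (ZMod p)) (hN : N ≠ 0)
    (A : Type) [Field A] [Infinite A] [Algebra (ZMod p) A] :
    ∃ c : Fin m → A, (MvPolynomial.aeval c : _ →ₐ[ZMod p] A) N ≠ 0 := by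
  by_contra hcon
  push Not at hcon
  have h1 : MvPolynomial.map (algebraMap (ZMod p) A) N = 0 := by
    apply MvPolynomial.funext
    intro c
    rw [map_zero, ← MvPolynomial.eval₂_eq_eval_map]
    exact hcon c
  apply hN
  exact MvPolynomial.map_injective _ (algebraMap (ZMod p) A).injective (by rw [h1, map_zero])

theorem ConnSome.conn (h1 : ∃ z : R, z + star z = 1) {b : R} (hb : ConnSome p b) : Conn p b := by
  obtain ⟨m, Q, hQ1, hQ2⟩ := conn_data (p := p) h1
  obtain ⟨A, iA, jA, v, y, hv, hy, -⟩ := hb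
  intro A' _ _ _
  have hN : nm (su Q + em b * Q) ≠ 0 := by
    obtain ⟨c, hc⟩ := hQ2 A v hv
    intro h0
    have h2 := nm_ne hy
    rw [← hc, su_tm, ← tm_em ((MvPolynomial.aeval c : MvPolynomial (Fin m) (ZMod p) →ₐ[ZMod p] A) :
      MvPolynomial (Fin m) (ZMod p) →+* A) b, ← map_mul,
      ← map_add, nm_tm, h0, map_zero] at h2
    exact h2 rfl
  obtain ⟨c, hc⟩ := exists_point _ hN A'
  obtain ⟨w, hw, -⟩ := unit_of_nm
    (tm ((MvPolynomial.aeval c : MvPolynomial (Fin m) (ZMod p) →ₐ[ZMod p] A') :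
      MvPolynomial (Fin m) (ZMod p) →+* A') (su Q + em b * Q)) (by
      rw [nm_tm]
      exact hc)
  refine ⟨tm ((MvPolynomial.aeval c : MvPolynomial (Fin m) (ZMod p) →ₐ[ZMod p] A') :
      MvPolynomial (Fin m) (ZMod p) →+* A') Q, w, ?_, ?_⟩
  · rw [su_tm, ← map_add, hQ1, map_one]
  · rw [map_add, map_mul, ← su_tm, tm_em] at hw
    exact hw

theorem Conn.some {b : R} (hb : Conn p b) : ConnSome p b := by
  obtain ⟨v, y, hv, hy⟩ := hb (AlgebraicClosure (ZMod p))
  obtain ⟨w, hw1, hw2⟩ := unit_of_nm (su v + em b * v) (nm_ne hy)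
  exact ⟨_, inferInstance, inferInstance, v, w, hv, hw1, hw2⟩

end conn

end Pool.Agent.Y60.DC
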