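import Mathlib
import Pool.Agent.H84.L.S8_Y60_DC_Cay
import Pool.Agent.H84.L.S8_Y60_DC_Comp
import Pool.Agent.H84.L.S8_Y60_DC_Gen
import Pool.Agent.H84.L.S8_Y60_DC_Tens



/-!
# Two nonvanishing statements for the special linear group
-/

set_option autoImplicit false

open TensorProduct

namespace Pool.Agent.Y60.DC

theorem det_one_add {U : Type} [CommRing U] (M : Mt U) (h : M.det = 1) :
    (1 + M).det = 2 + M.trace := by
  rw [Matrix.det_fin_two] at h
  simp only [Matrix.det_fin_two, Matrix.trace_fin_two, Matrix.add_apply, Matrix.one_apply_eq,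
    Matrix.one_apply_ne (show (0 : Fin 2) ≠ 1 by decide),
    Matrix.one_apply_ne (show (1 : Fin 2) ≠ 0 by decide)]
  linear_combination h

section nzz

variable {p : ℕ} [Fact p.Prime] {F : Type} [Field F] [Finite F] [Algebra (ZMod p) F]
  {U : Type} [Field U] [IsAlgClosed U] [Algebra (ZMod p) U]

theorem det_norm (ε : F →+* U) (X : U ⊗[ZMod p] Mt F) (h : X * st X = 1) :
    (pc ε X).det = 1 := by
  have h1 : pc ε (X * st X) = 1 := by rw [h, map_one]
  rw [map_mul, pc_st, mul_ad] at h1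
  have h2 := congrFun (congrFun h1 0) 0
  simpa using h2

theorem pc_inv (ε : F →+* U) (Z Zi : U ⊗[ZMod p] Mt F) (h : Z * Zi = 1) :
    (pc ε Z).det • pc ε Zi = ad (pc ε Z) := by
  have h1 : pc ε Z * pc ε Zi = 1 := by rw [← map_mul, h, map_one]
  calc (pc ε Z).det • pc ε Zi = ((pc ε Z).det • (1 : Mt U)) * pc ε Zi := by
        rw [smul_mul_assoc, one_mul]
    _ = ad (pc ε Z) * (pc ε Z * pc ε Zi) := by rw [← ad_mul_self, mul_assoc]
    _ = ad (pc ε Z) := by rw [h1, mul_one]

theorem pc_fr [CharP U p] [CharP F p] (ε : F →+* U) : ∃ ε' : F →+* U, ∀ z : U ⊗[ZMod p] Mt F,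
    pc ε (fr z) = (pc ε' z).map (frobenius U p) := by
  have : PerfectRing F p := inferInstance
  refine ⟨ε.comp ((frobeniusEquiv F p).symm : F →+* F), fun z => ?_⟩
  have h1 : ε = (frobenius U p).comp (ε.comp ((frobeniusEquiv F p).symm : F →+* F)) := by
    apply RingHom.ext
    intro x
    change ε x = (ε ((frobeniusEquiv F p).symm x)) ^ p
    rw [← map_pow]
    congr 1
    exact (frobeniusEquiv_symm_pow_p F p x).symm
  have h2 := pc_tm (frobenius U p) (ε.comp ((frobeniusEquiv F p).symm : F →+* F)) z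
  rw [← h1] at h2
  exact h2

variable {K : Type} [Field K] [Infinite K] [Algebra K U]
  (A : Module.Basis (Fin (Module.finrank (ZMod p) (Mt F))) U (U ⊗[ZMod p] Mt F))
  (hA1 : ∀ j, InH (algebraicClosure K U).toSubfield (A j))
  (hA2 : ∀ z, InH (algebraicClosure K U).toSubfield z → ∀ j, A.repr z j ∈
    (algebraicClosure K U).toSubfield)
  {u : Fin (Module.finrank (ZMod p) (Mt F)) → U} (hu : IsTranscendenceBasis K u)

include hA1 hA2 hu

theorem nzB (ε : F →+* U) (B : Mt F) (hB : B.det = 1) (Z Zi : U ⊗[ZMod p] Mt F)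
    (hZ : Z = ∑ j, u j • A j) (h : Z * Zi = 1)
    (hN : (em B * (st Zi * Z)) * st (em B * (st Zi * Z)) = 1) :
    (pc ε (1 + em B * (st Zi * Z))).det ≠ 0 := by
  have h0 := nz_one A hA1 hA2 hu ε B hB
  rw [← hZ] at h0
  intro h1
  rw [map_add, map_one, det_one_add _ (det_norm ε _ hN)] at h1
  apply h0
  have h2 : (pc ε Z).det • pc ε (em B * (st Zi * Z)) = B.map ε * (pc ε Z * pc ε Z) := by
    have h3 := pc_inv ε Z Zi h
    have h4 : (pc ε Z).det • ad (pc ε Zi) = pc ε Z := by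
      rw [← ad_smul, h3, ad_ad]
    rw [map_mul, map_mul, pc_em, pc_st, ← mul_smul_comm, ← smul_mul_assoc, h4]
  rw [← h2, Matrix.trace_smul, smul_eq_mul]
  linear_combination (pc ε Z).det * h1

theorem nzX [CharP U p] [CharP K p] [CharP F p] (ε : F →+* U) (Z Zi : U ⊗[ZMod p] Mt F)
    (hZ : Z = ∑ j, u j • A j) (h : Z * Zi = 1)
    (hN : (st (st Zi * Z) * fr (st Zi * Z)) * st (st (st Zi * Z) * fr (st Zi * Z)) = 1) :
    (pc ε (1 + st (st Zi * Z) * fr (st Zi * Z))).det ≠ 0 := by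
  obtain ⟨ε', hε'⟩ := pc_fr (F := F) (p := p) ε
  have h0 := nz_two A hA1 hA2 hu ε ε'
  rw [← hZ] at h0
  intro h1
  rw [map_add, map_one, det_one_add _ (det_norm ε _ hN)] at h1
  apply h0
  have hd := pc_inv ε Z Zi h
  have hd' : (pc ε' Z).det • ad (pc ε' Zi) = pc ε' Z := by
    rw [← ad_smul, pc_inv ε' Z Zi h, ad_ad]
  have hd2 : (pc ε' Z).det ^ p • (ad (pc ε' Zi)).map (frobenius U p) =
      (pc ε' Z).map (frobenius U p) := by
    conv_rhs => rw [← hd']
    ext i j
    simp [frobenius_def, mul_pow]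
  have h2 : ((pc ε Z).det * (pc ε' Z).det ^ p) • pc ε (st (st Zi * Z) * fr (st Zi * Z)) =
      (ad (pc ε Z) * ad (pc ε Z)) * (pc ε' Z * pc ε' Z).map (frobenius U p) := by
    rw [st_mul, st_st, map_mul, map_mul, pc_st, hε', map_mul, pc_st, Matrix.map_mul,
      Matrix.map_mul, mul_smul]
    calc (pc ε Z).det • (pc ε' Z).det ^ p • (ad (pc ε Z) * pc ε Zi *
          ((ad (pc ε' Zi)).map (frobenius U p) * (pc ε' Z).map (frobenius U p)))
        = ad (pc ε Z) * ((pc ε Z).det • pc ε Zi) *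
          (((pc ε' Z).det ^ p • (ad (pc ε' Zi)).map (frobenius U p)) *
            (pc ε' Z).map (frobenius U p)) := by
          simp only [smul_mul_assoc, mul_smul_comm]
          rw [smul_comm]
      _ = _ := by rw [hd, hd2]
  rw [← h2, Matrix.trace_smul, smul_eq_mul]
  linear_combination ((pc ε Z).det * (pc ε' Z).det ^ p) * h1

end nzz

end Pool.Agent.Y60.DC
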