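import Mathlib



/-!
# Simplicity of `PSL n F` for `n ≥ 3`

General version (index type with at least three elements, arbitrary field), via the Iwasawa
criterion; complements the rank two case of Mathlib.
-/

set_option autoImplicit false

open Matrix Matrix.SpecialLinearGroup
open scoped MatrixGroups LinearAlgebra.Projectivization commutatorElement

namespace Pool.Agent.H463R3.PSLn

variable {ι F : Type*} [Field F] [DecidableEq ι] [Fintype ι]

lemma transvection_mem_lineStab {i j : ι} (hij : i ≠ j) (b : F) :
    SpecialLinearGroup.transvection hij b ∈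
      lineStab (Submodule.span F {(Pi.single i (1 : F) : ι → F)}) :=
  fun w ↦ Submodule.mem_span_singleton.2 ⟨b * w j, by simp [mul_smul,
    Matrix.SpecialLinearGroup.smul_def, transvection_coe, add_smul, Matrix.single_mulVec_eq]⟩

/- `diag(a, a⁻¹)` in positions `i, j` is a product of transvections. -/
lemma diag2n_decompose {i j : ι} (hij : i ≠ j) (a : F) (ha : a ≠ 0) :
    diag2n hij a ha = SpecialLinearGroup.transvection hij a *
      SpecialLinearGroup.transvection hij.symm (- a⁻¹) *
      SpecialLinearGroup.transvection hij a *
      SpecialLinearGroup.transvection hij (-1) *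
      SpecialLinearGroup.transvection hij.symm 1 *
      SpecialLinearGroup.transvection hij (-1) := by
  apply Subtype.ext
  have hD : (diag2n hij a ha).1 = (1 : Matrix ι ι F) + single i i (a - 1) + single j j (a⁻¹ - 1) := by
    rw [diag2n_coe]
    ext k l
    by_cases hkl : k = l
    · subst hkl
      by_cases hki : k = i
      · subst hki
        simp [hij.symm]
      · by_cases hkj : k = j
        · subst hkj
          simp [hij, hij.symm]
        · simp [hki, hkj, Ne.symm hki, Ne.symm hkj]
    · have h1 : ¬ (i = k ∧ i = l) := fun h => hkl (h.1.symm.trans h.2)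
      have h2 : ¬ (j = k ∧ j = l) := fun h => hkl (h.1.symm.trans h.2)
      simp [hkl, h1, h2]
  rw [hD]
  simp only [coe_mul, transvection_coe]
  have e1 : ∀ x y : F, single i j x * single j i y = single i i (x * y) := fun x y => by
    rw [single_mul_single_same]
  have e2 : ∀ x y : F, single j i x * single i j y = single j j (x * y) := fun x y => by
    rw [single_mul_single_same]
  have e3 : ∀ x y : F, single i j x * single i j y = 0 := fun x y => by
    rw [single_mul_single_of_ne _ _ _ _ hij.symm]
  have e4 : ∀ x y : F, single j i x * single j i y = 0 := fun x y => by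
    rw [single_mul_single_of_ne _ _ _ _ hij]
  have e5 : ∀ x y : F, single i i x * single i j y = single i j (x * y) := fun x y => by
    rw [single_mul_single_same]
  have e6 : ∀ x y : F, single i i x * single j i y = 0 := fun x y => by
    rw [single_mul_single_of_ne _ _ _ _ hij]
  have e7 : ∀ x y : F, single j j x * single j i y = single j i (x * y) := fun x y => by
    rw [single_mul_single_same]
  have e8 : ∀ x y : F, single j j x * single i j y = 0 := fun x y => by
    rw [single_mul_single_of_ne _ _ _ _ hij.symm]
  simp only [mul_add, add_mul, one_mul, mul_one, e1, e2, e3, e4, e5, e6, e7, e8]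
  ext k l
  simp only [Matrix.add_apply, Matrix.single_apply, Matrix.zero_apply]
  by_cases h1 : i = k ∧ i = l
  · obtain ⟨rfl, rfl⟩ := h1
    simp [hij.symm]
    field_simp
    ring
  · by_cases h2 : j = k ∧ j = l
    · obtain ⟨rfl, rfl⟩ := h2
      simp [hij]
      try field_simp
      try ring
    · by_cases h3 : i = k ∧ j = l
      · obtain ⟨rfl, rfl⟩ := h3
        simp [hij, hij.symm]
        try field_simp
        try ring
      · by_cases h4 : j = k ∧ i = l
        · obtain ⟨rfl, rfl⟩ := h4
          simp [hij, hij.symm]
          try field_simp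
          try ring
        · simp [h1, h2, h3, h4]

theorem transvection_induction [Nontrivial ι] (P : SpecialLinearGroup ι F → Prop)
    (htransvec : ∀ (i j : ι) (h : i ≠ j) (c : F), P (SpecialLinearGroup.transvection h c))
    (hmul : ∀ A B, P A → P B → P (A * B)) (A : SpecialLinearGroup ι F) : P A := by
  refine diagonal_transvection_induction' P _ (fun i j hij c hc ↦ ?_) htransvec hmul
  rw [diag2n_decompose hij c hc]
  refine hmul _ _ (hmul _ _ (hmul _ _ (hmul _ _ (hmul _ _ ?_ ?_) ?_) ?_) ?_) ?_
  all_goals exact htransvec _ _ _ _

lemma transvection_commutator {i j k : ι} (hij : i ≠ j) (hik : i ≠ k) (hkj : k ≠ j) (b : F) :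
    ⁅(SpecialLinearGroup.transvection hik b : SpecialLinearGroup ι F),
      SpecialLinearGroup.transvection hkj 1⁆ = SpecialLinearGroup.transvection hij b := by
  rw [commutatorElement_def, transvection_inv, transvection_inv]
  apply Subtype.ext
  simp only [coe_mul, transvection_coe]
  have e1 : ∀ x y : F, single i k x * single k j y = single i j (x * y) := fun x y => by
    rw [single_mul_single_same]
  have e2 : ∀ x y : F, single k j x * single i k y = 0 := fun x y => by
    rw [single_mul_single_of_ne _ _ _ _ hij.symm]
  have e3 : ∀ x y : F, single i k x * single i k y = 0 := fun x y => by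
    rw [single_mul_single_of_ne _ _ _ _ hik.symm]
  have e4 : ∀ x y : F, single k j x * single k j y = 0 := fun x y => by
    rw [single_mul_single_of_ne _ _ _ _ hkj.symm]
  have e5 : ∀ x y : F, single i j x * single i k y = 0 := fun x y => by
    rw [single_mul_single_of_ne _ _ _ _ hij.symm]
  have e6 : ∀ x y : F, single i j x * single k j y = 0 := fun x y => by
    rw [single_mul_single_of_ne _ _ _ _ hkj.symm]
  have n1 : ∀ (p q : ι) (x : F), single p q (-x) = - single p q x := fun p q x => by
    rw [single_neg]
  simp only [mul_add, add_mul, one_mul, mul_one, e1, e2, e3, e4, e5, e6, n1, mul_neg, neg_mul,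
    neg_neg, add_zero, zero_add, neg_zero]
  abel

lemma SL_commutator_eq_top (h3 : 3 ≤ Fintype.card ι) :
    commutator (SpecialLinearGroup ι F) = ⊤ := by
  have : Nontrivial ι := Fintype.one_lt_card_iff_nontrivial.1 (by omega)
  refine le_antisymm le_top (fun A _ ↦ transvection_induction
    (P := fun A => A ∈ commutator (SpecialLinearGroup ι F)) ?_ (fun _ _ ↦ mul_mem) A)
  intro i j hij c
  obtain ⟨k, hk⟩ : ∃ k : ι, k ∉ ({i, j} : Finset ι) := by
    by_contra hcon
    push Not at hcon
    have : Fintype.card ι ≤ ({i, j} : Finset ι).card :=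
      Finset.card_le_card (fun x _ => hcon x)
    have h2 : ({i, j} : Finset ι).card ≤ 2 := Finset.card_le_two
    omega
  simp only [Finset.mem_insert, Finset.mem_singleton, not_or] at hk
  rw [← transvection_commutator hij (Ne.symm hk.1) hk.2 c]
  exact Subgroup.commutator_mem_commutator (Subgroup.mem_top _) (Subgroup.mem_top _)

lemma iSup_lineStab_eq_top [Nontrivial ι] :
    (⨆ p : ℙ F (ι → F), lineStab p.submodule) = (⊤ : Subgroup (SpecialLinearGroup ι F)) := by
  refine le_antisymm le_top (fun A _ ↦ transvection_induction
    (P := fun A => A ∈ ⨆ p : ℙ F (ι → F), lineStab p.submodule) ?_ (fun _ _ ↦ mul_mem) A)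
  intro i j hij c
  have h := transvection_mem_lineStab (F := F) hij c
  rw [← Projectivization.submodule_mk (K := F) _ (Pi.single_ne_zero_iff.2 one_ne_zero)] at h
  exact (le_iSup (fun p : ℙ F (ι → F) => lineStab p.submodule) _) h

lemma iSup_iwasawaT_eq_top [Nontrivial ι] :
    iSup (PSL.iwasawaT (F := F) (ι := ι)) = ⊤ := by
  have step1 : iSup (PSL.iwasawaT (F := F) (ι := ι)) =
      Subgroup.map (QuotientGroup.mk' (Subgroup.center (Matrix.SpecialLinearGroup ι F)))
        (⨆ p : ℙ F (ι → F),
          Matrix.SpecialLinearGroup.lineStab (F := F) (ι := ι) p.submodule) := by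
    rw [Subgroup.map_iSup]
  rw [step1, iSup_lineStab_eq_top]
  exact Subgroup.map_top_of_surjective _ (QuotientGroup.mk'_surjective _)

open MulAction

/- The Iwasawa structure on `PSL(ι, F)`. -/
noncomputable abbrev iwasawa [Nontrivial ι] :
    IwasawaStructure (Matrix.ProjectiveSpecialLinearGroup ι F) (ℙ F (ι → F)) where
  T := PSL.iwasawaT
  is_comm p := by
    have hSL : IsMulCommutative (lineStab (F := F) (ι := ι) p.submodule) := by
      rw [← Projectivization.mk_rep p, Projectivization.submodule_mk]
      exact lineStab_isMulCommutative_of_span p.rep p.rep_nonzero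
    exact Subgroup.map_isMulCommutative _ _
  is_conj g p := by
    obtain ⟨g_SL, rfl⟩ := QuotientGroup.mk_surjective g
    rw [Matrix.ProjectiveSpecialLinearGroup.smul_proj_mk]
    change Subgroup.map _ _ = _
    rw [PSL.smul_submodule, Matrix.SpecialLinearGroup.lineStab_smul,
      PSL.iwasawaT_map_conj]
  is_generator := iSup_iwasawaT_eq_top

lemma PSL_commutator_eq_top (h3 : 3 ≤ Fintype.card ι) :
    commutator (Matrix.ProjectiveSpecialLinearGroup ι F) = ⊤ := by
  have : Group.IsPerfect (SpecialLinearGroup ι F) := ⟨SL_commutator_eq_top h3⟩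
  have : Group.IsPerfect (Matrix.ProjectiveSpecialLinearGroup ι F) := inferInstance
  exact this.commutator_eq_top

/- `PSL(ι, F)` is simple when `ι` has at least three elements. -/
theorem isSimpleGroup_PSL (h3 : 3 ≤ Fintype.card ι) :
    IsSimpleGroup (Matrix.ProjectiveSpecialLinearGroup ι F) := by
  have : Nontrivial ι := Fintype.one_lt_card_iff_nontrivial.1 (by omega)
  have : Nontrivial (Matrix.ProjectiveSpecialLinearGroup ι F) := by
    obtain ⟨i₁, i₂, hij⟩ := exists_pair_ne ι
    refine ⟨⟨(QuotientGroup.mk (SpecialLinearGroup.transvection hij 1) :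
      Matrix.ProjectiveSpecialLinearGroup ι F), 1, fun h ↦ one_ne_zero (α := F) ?_⟩⟩
    rwa [QuotientGroup.eq_one_iff, transvection_mem_center_iff] at h
  exact MulAction.IwasawaStructure.isSimpleGroup (PSL_commutator_eq_top h3) iwasawa inferInstance

end Pool.Agent.H463R3.PSLn
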