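import Mathlib
import Pool.Agent.H84.L.S8_Y60_DC_Stm4

namespace Pool.Agent.Y60.DC
end Pool.Agent.Y60.DC


/-!
# Project DC: automorphisms which permute the root subgroups preserve or exchange the two kinds of
subgroups of transvections
-/

set_option autoImplicit false

namespace Pool.Agent.Y759.DCN

open Matrix Pool.Agent.Y60.DC

theorem abs_types {N P Q : Type*} (f : N → N) (c : N → P) (a : N → Q)
    (hR : ∀ A B, (c A = c B ∨ a A = a B) ↔ (c (f A) = c (f B) ∨ a (f A) = a (f B)))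
    (hS : ∀ A B, c (f A) = c (f B) → a (f A) = a (f B) → c A = c B ∧ a A = a B)
    (h1 : ∀ A, ∃ B, c B = c A ∧ a B ≠ a A) (h2 : ∀ A, ∃ B, a B = a A ∧ c B ≠ c A)
    (h3 : ∀ A B, ∃ A' B', c A' = c A ∧ c B' = c B ∧ a A' = a B') :
    ((∀ A B, c A = c B → c (f A) = c (f B)) ∧ (∀ A B, a A = a B → a (f A) = a (f B))) ∨
    ((∀ A B, c A = c B → a (f A) = a (f B)) ∧ (∀ A B, a A = a B → c (f A) = c (f B))) := by
  have e1 : ∀ A, (∀ B, c B = c A → c (f B) = c (f A)) ∨ (∀ B, c B = c A → a (f B) = a (f A)) := by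
    intro A
    obtain ⟨B, hB1, hB2⟩ := h1 A
    rcases (hR A B).1 (Or.inl hB1.symm) with h | h
    · left
      intro C hC
      rcases (hR C A).1 (Or.inl hC) with h4 | h4
      · exact h4
      · rcases (hR C B).1 (Or.inl (hC.trans hB1.symm)) with h5 | h5
        · rw [h5, h]
        · exact absurd (hS A B h (h4.symm.trans h5)).2.symm hB2
    · right
      intro C hC
      rcases (hR C A).1 (Or.inl hC) with h4 | h4
      · rcases (hR C B).1 (Or.inl (hC.trans hB1.symm)) with h5 | h5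
        · exact absurd (hS A B (h4.symm.trans h5) h).2.symm hB2
        · rw [h5, h]
      · exact h4
  have e2 : ∀ A, (∀ B, a B = a A → c (f B) = c (f A)) ∨ (∀ B, a B = a A → a (f B) = a (f A)) := by
    intro A
    obtain ⟨B, hB1, hB2⟩ := h2 A
    rcases (hR A B).1 (Or.inr hB1.symm) with h | h
    · left
      intro C hC
      rcases (hR C A).1 (Or.inr hC) with h4 | h4
      · exact h4
      · rcases (hR C B).1 (Or.inr (hC.trans hB1.symm)) with h5 | h5
        · rw [h5, h]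
        · exact absurd (hS A B h (h4.symm.trans h5)).1.symm hB2
    · right
      intro C hC
      rcases (hR C A).1 (Or.inr hC) with h4 | h4
      · rcases (hR C B).1 (Or.inr (hC.trans hB1.symm)) with h5 | h5
        · exact absurd (hS A B (h4.symm.trans h5) h).1.symm hB2
        · rw [h5, h]
      · exact h4
  have e3 : ∀ A, (∀ B, c B = c A → c (f B) = c (f A)) → (∀ B, a B = a A → c (f B) = c (f A)) →
      False := by
    intro A hA hA'
    obtain ⟨B, hB1, hB2⟩ := h1 A
    obtain ⟨C, hC1, hC2⟩ := h2 A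
    have h4 : c (f B) = c (f C) := (hA B hB1).trans (hA' C hC1).symm
    rcases (hR B C).2 (Or.inl h4) with h5 | h5
    · exact hC2 (h5.symm.trans hB1)
    · exact hB2 (h5.trans hC1)
  have e4 : ∀ A, (∀ B, c B = c A → a (f B) = a (f A)) → (∀ B, a B = a A → a (f B) = a (f A)) →
      False := by
    intro A hA hA'
    obtain ⟨B, hB1, hB2⟩ := h1 A
    obtain ⟨C, hC1, hC2⟩ := h2 A
    have h4 : a (f B) = a (f C) := (hA B hB1).trans (hA' C hC1).symm
    rcases (hR B C).2 (Or.inr h4) with h5 | h5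
    · exact hC2 (h5.symm.trans hB1)
    · exact hB2 (h5.trans hC1)
  have e5 : ∀ A, (∀ B, c B = c A → c (f B) = c (f A)) → (∀ B, a B = a A → a (f B) = a (f A)) :=
    fun A hA => (e2 A).resolve_left fun h => e3 A hA h
  have e6 : ∀ A, (∀ B, a B = a A → a (f B) = a (f A)) → (∀ B, c B = c A → c (f B) = c (f A)) :=
    fun A hA => (e1 A).resolve_right fun h => e4 A h hA
  by_cases hex : ∃ A, ∀ B, c B = c A → c (f B) = c (f A)
  · left
    obtain ⟨A, hA⟩ := hex
    have hall : ∀ B, ∀ C, c C = c B → c (f C) = c (f B) := by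
      intro B
      obtain ⟨A', B', hA', hB', hab⟩ := h3 A B
      have s1 : ∀ C, c C = c A' → c (f C) = c (f A') := fun C hC =>
        (hA C (hC.trans hA')).trans (hA A' hA').symm
      have s2 := e5 A' s1
      have s3 : ∀ C, a C = a B' → a (f C) = a (f B') := fun C hC =>
        (s2 C (hC.trans hab.symm)).trans (s2 B' hab.symm).symm
      have s4 := e6 B' s3
      exact fun C hC => (s4 C (hC.trans hB'.symm)).trans (s4 B hB'.symm).symm
    exact ⟨fun A B h => hall B A h, fun A B h => e5 B (hall B) A h⟩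
  · right
    push Not at hex
    have hall : ∀ A, ∀ B, c B = c A → a (f B) = a (f A) := by
      intro A
      refine (e1 A).resolve_left fun h => ?_
      obtain ⟨B, hB1, hB2⟩ := hex A
      exact hB2 (h B hB1)
    have hall' : ∀ A, ∀ B, a B = a A → c (f B) = c (f A) := fun A =>
      (e2 A).resolve_right fun h => e4 A (hall A) h
    exact ⟨fun A B h => hall B A h, fun A B h => hall' B A h⟩

variable {F : Type} [Field F] {n : ℕ}

theorem det_tv {v φ : Fin n → F} (h : φ ⬝ᵥ v = 0) : (tv v φ).det = 1 := by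
  unfold tv
  have h1 : vecMulVec v φ = replicateCol Unit v * replicateRow Unit φ := by
    ext i j
    simp [vecMulVec_apply, mul_apply]
  rw [h1, det_one_add_replicateCol_mul_replicateRow, h, add_zero]

/- the transvection -/
def T (v φ : Fin n → F) (h : φ ⬝ᵥ v = 0) : SLn n F := ⟨tv v φ, det_tv h⟩

theorem T_coe (v φ : Fin n → F) (h : φ ⬝ᵥ v = 0) : ((T v φ h : SLn n F) : Mn n F) = tv v φ := rfl

/- nontrivial transvections -/
def IsN (A : SLn n F) : Prop :=
  ∃ v φ : Fin n → F, v ≠ 0 ∧ φ ≠ 0 ∧ φ ⬝ᵥ v = 0 ∧ (A : Mn n F) = tv v φ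

/- the centre -/
noncomputable def cc (A : SLn n F) : Submodule F (Fin n → F) :=
  LinearMap.range (((A : Mn n F) - 1).mulVecLin)

/- the axis -/
noncomputable def aa (A : SLn n F) : Submodule F (Fin n → F) :=
  LinearMap.range (((A : Mn n F) - 1).vecMulLinear)

theorem exists_dot_one {φ : Fin n → F} (hφ : φ ≠ 0) : ∃ x : Fin n → F, φ ⬝ᵥ x = 1 := by
  obtain ⟨i, hi⟩ := Function.ne_iff.1 hφ
  refine ⟨Pi.single i (φ i)⁻¹, ?_⟩
  rw [dotProduct_single]
  exact mul_inv_cancel₀ hi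

theorem cc_tv {A : SLn n F} {v φ : Fin n → F} (hφ : φ ≠ 0) (hA : (A : Mn n F) = tv v φ) :
    cc A = Submodule.span F {v} := by
  unfold cc
  have h1 : (A : Mn n F) - 1 = vecMulVec v φ := by
    rw [hA, tv, add_sub_cancel_left]
  rw [h1]
  have h2 : ∀ x : Fin n → F, (vecMulVec v φ).mulVecLin x = (φ ⬝ᵥ x) • v := by
    intro x
    rw [mulVecLin_apply, vecMulVec_mulVec]
    ext i
    simp [mul_comm]
  apply le_antisymm
  · rintro _ ⟨x, rfl⟩
    rw [h2]
    exact Submodule.smul_mem _ _ (Submodule.mem_span_singleton_self v)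
  · rw [Submodule.span_singleton_le_iff_mem]
    obtain ⟨x, hx⟩ := exists_dot_one hφ
    exact ⟨x, by rw [h2, hx, one_smul]⟩

theorem aa_tv {A : SLn n F} {v φ : Fin n → F} (hv : v ≠ 0) (hA : (A : Mn n F) = tv v φ) :
    aa A = Submodule.span F {φ} := by
  unfold aa
  have h1 : (A : Mn n F) - 1 = vecMulVec v φ := by
    rw [hA, tv, add_sub_cancel_left]
  rw [h1]
  have h2 : ∀ x : Fin n → F, (vecMulVec v φ).vecMulLinear x = (x ⬝ᵥ v) • φ := by
    intro x
    rw [vecMulLinear_apply, vecMul_vecMulVec]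
  apply le_antisymm
  · rintro _ ⟨x, rfl⟩
    rw [h2]
    exact Submodule.smul_mem _ _ (Submodule.mem_span_singleton_self φ)
  · rw [Submodule.span_singleton_le_iff_mem]
    obtain ⟨x, hx⟩ := exists_dot_one hv
    exact ⟨x, by rw [h2, dotProduct_comm, hx, one_smul]⟩

theorem tv_zero_right (v : Fin n → F) : tv v 0 = 1 := by
  unfold tv
  ext i j
  simp [vecMulVec_apply]

theorem tv_zero_left (φ : Fin n → F) : tv 0 φ = 1 := by
  unfold tv
  ext i j
  simp [vecMulVec_apply]

theorem tv_smul_left (z : F) (v φ : Fin n → F) : tv (z • v) φ = tv v (z • φ) := by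
  unfold tv
  ext i j
  simp only [vecMulVec_apply, Matrix.add_apply, Pi.smul_apply, smul_eq_mul]
  ring

theorem coe_one_iff (A : SLn n F) : (A : Mn n F) = 1 ↔ A = 1 := by
  constructor
  · intro h
    exact Subtype.ext h
  · rintro rfl
    rfl

theorem IsN.ne_one {A : SLn n F} (hA : IsN A) : A ≠ 1 := by
  obtain ⟨v, φ, hv, hφ, -, h⟩ := hA
  intro h1
  rw [h1] at h
  have h2 := cc_tv hφ h
  have h3 : v ∈ cc (1 : SLn n F) := by
    rw [h2]
    exact Submodule.mem_span_singleton_self v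
  obtain ⟨x, hx⟩ := h3
  rw [mulVecLin_apply] at hx
  have h4 : ((1 : SLn n F) : Mn n F) - 1 = 0 := by
    rw [(coe_one_iff 1).2 rfl, sub_self]
  rw [h4, zero_mulVec] at hx
  exact hv hx.symm

/- the images of the elements of a root subgroup -/
theorem root_img {f : MulAut (SLn n F)} (hf : RootPres f) {v φ : Fin n → F} (hv : v ≠ 0)
    (hφ : φ ≠ 0) (h : φ ⬝ᵥ v = 0) : ∃ v' φ' : Fin n → F, v' ≠ 0 ∧ φ' ≠ 0 ∧ φ' ⬝ᵥ v' = 0 ∧
      ∀ (x : F) (A : SLn n F), x ≠ 0 → (A : Mn n F) = tv v (x • φ) →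
        ∃ y : F, y ≠ 0 ∧ ((f A : SLn n F) : Mn n F) = tv v' (y • φ') := by
  obtain ⟨v', φ', hv', hφ', h', hr⟩ := hf v φ hv hφ h
  refine ⟨v', φ', hv', hφ', h', fun x A hx hA => ?_⟩
  obtain ⟨y, hy⟩ := hr x A hA
  refine ⟨y, ?_, hy⟩
  rintro rfl
  rw [zero_smul, tv_zero_right, coe_one_iff] at hy
  have h1 : A = 1 := by
    have := congrArg (f.symm) hy
    rwa [MulEquiv.symm_apply_apply, map_one] at this
  have h2 : IsN A := ⟨v, x • φ, hv, smul_ne_zero hx hφ, by rw [smul_dotProduct, h, smul_zero], hA⟩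
  exact h2.ne_one h1

theorem isN_img {f : MulAut (SLn n F)} (hf : RootPres f) {A : SLn n F} (hA : IsN A) :
    IsN (f A) := by
  obtain ⟨v, φ, hv, hφ, h, hA⟩ := hA
  obtain ⟨v', φ', hv', hφ', h', hr⟩ := root_img hf hv hφ h
  obtain ⟨y, hy, hfA⟩ := hr 1 A one_ne_zero (by rw [one_smul]; exact hA)
  exact ⟨v', y • φ', hv', smul_ne_zero hy hφ', by rw [smul_dotProduct, h', smul_zero], hfA⟩

theorem inv_app (f : MulAut (SLn n F)) (A : SLn n F) : f⁻¹ (f A) = A := by
  rw [MulAut.inv_apply_self]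

theorem isN_iff {f : MulAut (SLn n F)} (hf : RootPres f) (hf' : RootPres f⁻¹) (A : SLn n F) :
    IsN (f A) ↔ IsN A := by
  refine ⟨fun h => ?_, isN_img hf⟩
  have := isN_img hf' h
  rwa [inv_app] at this

theorem span_smul {y : F} (hy : y ≠ 0) (φ : Fin n → F) :
    Submodule.span F {y • φ} = Submodule.span F {φ} :=
  Submodule.span_singleton_smul_eq (IsUnit.mk0 y hy) φ

theorem span_eq {v w : Fin n → F} (h : Submodule.span F {v} = Submodule.span F {w}) :
    ∃ z : F, z ≠ 0 ∧ w = z • v := by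
  obtain ⟨z, hz⟩ := Submodule.span_singleton_eq_span_singleton.1 h
  exact ⟨z, z.ne_zero, hz.symm⟩

/- elements of one root subgroup are mapped to elements of one root subgroup -/
theorem root_eq {f : MulAut (SLn n F)} (hf : RootPres f) {A B : SLn n F} (hA : IsN A)
    (hB : IsN B) (hc : cc A = cc B) (ha : aa A = aa B) : cc (f A) = cc (f B) ∧
      aa (f A) = aa (f B) := by
  obtain ⟨v, φ, hv, hφ, h, hA⟩ := hA
  obtain ⟨w, ψ, hw, hψ, h2, hB⟩ := hB
  rw [cc_tv hφ hA, cc_tv hψ hB] at hc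
  rw [aa_tv hv hA, aa_tv hw hB] at ha
  obtain ⟨z, hz, rfl⟩ := span_eq hc
  obtain ⟨z', hz', rfl⟩ := span_eq ha
  obtain ⟨v', φ', hv', hφ', h', hr⟩ := root_img hf hv hφ h
  obtain ⟨y, hy, hfA⟩ := hr 1 A one_ne_zero (by rw [one_smul]; exact hA)
  obtain ⟨y', hy', hfB⟩ := hr (z * z') B (mul_ne_zero hz hz') (by
    rw [hB, tv_smul_left, smul_smul])
  rw [cc_tv (smul_ne_zero hy hφ') hfA, cc_tv (smul_ne_zero hy' hφ') hfB, aa_tv hv' hfA,
    aa_tv hv' hfB, span_smul hy, span_smul hy']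
  exact ⟨rfl, rfl⟩

theorem tv_mul (v φ w ψ : Fin n → F) : tv v φ * tv w ψ =
    1 + (vecMulVec v φ + vecMulVec w ψ + vecMulVec v ((φ ⬝ᵥ w) • ψ)) := by
  unfold tv
  rw [← vecMulVec_mul_vecMulVec]
  noncomm_ring

theorem rank_one {v w u φ ψ θ : Fin n → F} {k : F} (hv : v ≠ 0) (hw : w ≠ 0)
    (hφ : φ ≠ 0) (hψ : ψ ≠ 0)
    (h : vecMulVec v φ + vecMulVec w ψ + vecMulVec v (k • ψ) = vecMulVec u θ) :
    Submodule.span F {v} = Submodule.span F {w} ∨ Submodule.span F {φ} = Submodule.span F {ψ} := by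
  by_cases hs : Submodule.span F {v} = Submodule.span F {w}
  · exact Or.inl hs
  right
  have hind : ∀ s t : F, (∀ i, s * v i + t * w i = 0) → s = 0 ∧ t = 0 := by
    intro s t hst
    have ht : t = 0 := by
      by_contra ht
      have h1 : w = (-(t⁻¹ * s)) • v := by
        ext i
        have := hst i
        simp only [Pi.smul_apply, smul_eq_mul]
        field_simp
        linear_combination this
      have hs0 : -(t⁻¹ * s) ≠ 0 := by
        intro h0
        rw [h0, zero_smul] at h1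
        exact hw h1
      apply hs
      rw [h1, span_smul hs0]
    refine ⟨?_, ht⟩
    obtain ⟨i, hi⟩ := Function.ne_iff.1 hv
    have h2 := hst i
    rw [ht, zero_mul, add_zero] at h2
    exact (mul_eq_zero.1 h2).resolve_right hi
  have he : ∀ i j, v i * φ j + w i * ψ j + v i * (k * ψ j) = u i * θ j := by
    intro i j
    have := congrFun (congrFun h i) j
    simp only [vecMulVec_apply, Matrix.add_apply, Pi.smul_apply, smul_eq_mul, Matrix.smul_apply] at this
    linear_combination this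
  obtain ⟨j₀, hj₀⟩ := Function.ne_iff.1 hψ
  have hψ0 : ψ j₀ ≠ 0 := hj₀
  have hθ : θ j₀ ≠ 0 := by
    intro h0
    have h1 := hind (φ j₀ + k * ψ j₀) (ψ j₀) (fun i => by
      have := he i j₀
      rw [h0, mul_zero] at this
      linear_combination this)
    exact hψ0 h1.2
  have hall : ∀ j, φ j + k * ψ j = (φ j₀ + k * ψ j₀) / θ j₀ * θ j ∧ ψ j = ψ j₀ / θ j₀ * θ j := by
    intro j
    have h1 := hind (φ j + k * ψ j - (φ j₀ + k * ψ j₀) / θ j₀ * θ j) (ψ j - ψ j₀ / θ j₀ * θ j)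
      (fun i => by
        have h2 := he i j
        have h3 := he i j₀
        have h4 : u i = (v i * φ j₀ + w i * ψ j₀ + v i * (k * ψ j₀)) / θ j₀ := by
          rw [eq_div_iff hθ]
          exact h3.symm
        rw [h4] at h2
        field_simp
        field_simp at h2
        linear_combination h2)
    exact ⟨sub_eq_zero.1 h1.1, sub_eq_zero.1 h1.2⟩
  have hβ : ψ j₀ / θ j₀ ≠ 0 := div_ne_zero hψ0 hθ
  have h5 : ψ = (ψ j₀ / θ j₀) • θ := by
    ext j
    exact (hall j).2
  have h6 : φ = ((φ j₀ + k * ψ j₀) / θ j₀ - k * (ψ j₀ / θ j₀)) • θ := by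
    ext j
    have h7 := (hall j).1
    have h8 := (hall j).2
    simp only [Pi.smul_apply, smul_eq_mul]
    linear_combination h7 - k * h8
  have hα : (φ j₀ + k * ψ j₀) / θ j₀ - k * (ψ j₀ / θ j₀) ≠ 0 := by
    intro h0
    rw [h0, zero_smul] at h6
    exact hφ h6
  rw [h6, span_smul hα, h5, span_smul hβ]

/- two transvections have one centre or one axis if and only if their product is a transvection
or trivial -/
theorem rel_iff {A B : SLn n F} (hA : IsN A) (hB : IsN B) :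
    (cc A = cc B ∨ aa A = aa B) ↔ (IsN (A * B) ∨ A * B = 1) := by
  obtain ⟨v, φ, hv, hφ, h, hA⟩ := hA
  obtain ⟨w, ψ, hw, hψ, h2, hB⟩ := hB
  have hAB : ((A * B : SLn n F) : Mn n F) = tv v φ * tv w ψ := by
    rw [Matrix.SpecialLinearGroup.coe_mul, hA, hB]
  rw [cc_tv hφ hA, cc_tv hψ hB, aa_tv hv hA, aa_tv hw hB]
  constructor
  · rintro (h3 | h3)
    · obtain ⟨z, hz, rfl⟩ := span_eq h3
      have h4 : ψ ⬝ᵥ v = 0 := by
        rw [dotProduct_smul, smul_eq_mul] at h2
        exact (mul_eq_zero.1 h2).resolve_left hz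
      have h5 : ((A * B : SLn n F) : Mn n F) = tv v (φ + z • ψ) := by
        rw [hAB, tv_mul, dotProduct_smul, h, smul_zero, zero_smul]
        unfold tv
        ext i j
        simp [vecMulVec_apply, Matrix.add_apply]
        ring
      by_cases h6 : φ + z • ψ = 0
      · right
        rw [← coe_one_iff, h5, h6, tv_zero_right]
      · left
        exact ⟨v, _, hv, h6, by rw [add_dotProduct, smul_dotProduct, h, h4, smul_zero, add_zero],
          h5⟩
    · obtain ⟨z, hz, rfl⟩ := span_eq h3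
      have h4 : φ ⬝ᵥ w = 0 := by
        rw [smul_dotProduct, smul_eq_mul] at h2
        exact (mul_eq_zero.1 h2).resolve_left hz
      have h5 : ((A * B : SLn n F) : Mn n F) = tv (v + z • w) φ := by
        rw [hAB, tv_mul, h4, zero_smul]
        unfold tv
        ext i j
        simp [vecMulVec_apply, Matrix.add_apply]
        ring
      by_cases h6 : v + z • w = 0
      · right
        rw [← coe_one_iff, h5, h6, tv_zero_left]
      · left
        exact ⟨_, φ, h6, hφ, by rw [dotProduct_add, dotProduct_smul, h, h4, smul_zero, add_zero],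
          h5⟩
  · intro h3
    obtain ⟨u, θ, h4⟩ : ∃ u θ : Fin n → F, ((A * B : SLn n F) : Mn n F) = tv u θ := by
      rcases h3 with ⟨u, θ, -, -, -, h4⟩ | h4
      · exact ⟨u, θ, h4⟩
      · exact ⟨0, 0, by rw [tv_zero_left, coe_one_iff]; exact h4⟩
    rw [hAB, tv_mul] at h4
    unfold tv at h4
    exact rank_one hv hw hφ hψ (add_left_cancel h4)

theorem exists_indep (hn : 3 ≤ n) (v φ : Fin n → F) :
    ∃ ψ : Fin n → F, ψ ⬝ᵥ v = 0 ∧ ψ ∉ Submodule.span F {φ} := by
  let L : (Fin n → F) →ₗ[F] F :=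
    { toFun := fun x => x ⬝ᵥ v
      map_add' := fun x y => add_dotProduct x y v
      map_smul' := fun c x => smul_dotProduct c x v }
  by_contra hcon
  push Not at hcon
  have h1 : LinearMap.ker L ≤ Submodule.span F {φ} := fun x hx => hcon x hx
  have h2 := Submodule.finrank_mono h1
  have h3 : Module.finrank F (Submodule.span F {φ}) ≤ 1 := by
    have := finrank_span_le_card (R := F) ({φ} : Set (Fin n → F))
    simpa using this
  have h4 := LinearMap.finrank_range_add_finrank_ker L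
  have h5 : Module.finrank F (LinearMap.range L) ≤ 1 := by
    have := Submodule.finrank_le (LinearMap.range L)
    simpa using this
  rw [Module.finrank_fin_fun] at h4
  omega

theorem exists_indep' (hn : 3 ≤ n) (φ v : Fin n → F) :
    ∃ w : Fin n → F, φ ⬝ᵥ w = 0 ∧ w ∉ Submodule.span F {v} := by
  obtain ⟨w, h1, h2⟩ := exists_indep hn φ v
  exact ⟨w, by rw [dotProduct_comm]; exact h1, h2⟩

theorem exists_common (hn : 3 ≤ n) (v w : Fin n → F) :
    ∃ θ : Fin n → F, θ ≠ 0 ∧ θ ⬝ᵥ v = 0 ∧ θ ⬝ᵥ w = 0 := by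
  let L : (Fin n → F) →ₗ[F] F × F :=
    { toFun := fun x => (x ⬝ᵥ v, x ⬝ᵥ w)
      map_add' := fun x y => by
        rw [add_dotProduct, add_dotProduct]
        rfl
      map_smul' := fun c x => by
        rw [smul_dotProduct, smul_dotProduct]
        rfl }
  have h1 : LinearMap.ker L ≠ ⊥ := by
    apply LinearMap.ker_ne_bot_of_finrank_lt
    rw [Module.finrank_fin_fun, Module.finrank_prod, Module.finrank_self]
    omega
  obtain ⟨θ, hθ, hθ0⟩ := Submodule.exists_mem_ne_zero_of_ne_bot h1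
  have h2 : (θ ⬝ᵥ v, θ ⬝ᵥ w) = ((0, 0) : F × F) := hθ
  exact ⟨θ, hθ0, congrArg Prod.fst h2, congrArg Prod.snd h2⟩

theorem ne_zero_of_notMem {v w : Fin n → F} (h : v ∉ Submodule.span F {w}) : v ≠ 0 := by
  rintro rfl
  exact h (Submodule.zero_mem _)

theorem out_c {X : SLn n F} (hX : IsN X) {v' : Fin n → F} (h : cc X = Submodule.span F {v'}) :
    ∃ φ' : Fin n → F, φ' ⬝ᵥ v' = 0 ∧ (X : Mn n F) = tv v' φ' := by
  obtain ⟨w, θ, hw, hθ, h1, hX⟩ := hX
  rw [cc_tv hθ hX] at h
  obtain ⟨z, hz, rfl⟩ := span_eq h.symm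
  refine ⟨z • θ, ?_, ?_⟩
  · rw [dotProduct_smul, smul_eq_mul] at h1
    rw [smul_dotProduct, (mul_eq_zero.1 h1).resolve_left hz, smul_zero]
  · rw [hX, tv_smul_left]

theorem out_a {X : SLn n F} (hX : IsN X) {φ' : Fin n → F} (h : aa X = Submodule.span F {φ'}) :
    ∃ v' : Fin n → F, φ' ⬝ᵥ v' = 0 ∧ (X : Mn n F) = tv v' φ' := by
  obtain ⟨w, θ, hw, hθ, h1, hX⟩ := hX
  rw [aa_tv hw hX] at h
  obtain ⟨z, hz, rfl⟩ := span_eq h.symm
  refine ⟨z • w, ?_, ?_⟩
  · rw [smul_dotProduct, smul_eq_mul] at h1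
    rw [dotProduct_smul, (mul_eq_zero.1 h1).resolve_left hz, smul_zero]
  · rw [hX, tv_smul_left]

/- automorphisms which permute the root subgroups preserve or exchange the two kinds of
subgroups of transvections -/
theorem type_holds : TaskTYPE := by
  intro F _ _ n hn f hf hf'
  have hC : ∀ v : Fin n → F, v ≠ 0 → ∃ (φ : Fin n → F) (h : φ ⬝ᵥ v = 0), IsN (T v φ h) := by
    intro v hv
    obtain ⟨φ, h1, h2⟩ := exists_indep hn v 0
    exact ⟨φ, h1, v, φ, hv, ne_zero_of_notMem h2, h1, rfl⟩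
  have hA : ∀ φ : Fin n → F, φ ≠ 0 → ∃ (v : Fin n → F) (h : φ ⬝ᵥ v = 0), IsN (T v φ h) := by
    intro φ hφ
    obtain ⟨v, h1, h2⟩ := exists_indep' hn φ 0
    exact ⟨v, h1, v, φ, ne_zero_of_notMem h2, hφ, h1, rfl⟩
  have hprod : ∀ A B : SLn n F, (IsN (A * B) ∨ A * B = 1) ↔ (IsN (f A * f B) ∨ f A * f B = 1) := by
    intro A B
    rw [← map_mul, isN_iff hf hf', MulEquiv.map_eq_one_iff]
  have key := abs_types (N := {A : SLn n F // IsN A}) (fun A => ⟨f A.1, isN_img hf A.2⟩)
    (fun A => cc A.1) (fun A => aa A.1)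
    (fun A B => by
      rw [rel_iff A.2 B.2, hprod]
      exact (rel_iff (isN_img hf A.2) (isN_img hf B.2)).symm)
    (fun A B h1 h2 => by
      have h3 := root_eq hf' (isN_img hf A.2) (isN_img hf B.2) h1 h2
      rw [inv_app, inv_app] at h3
      exact h3)
    (fun A => by
      obtain ⟨v, φ, hv, hφ, h, hAv⟩ := A.2
      obtain ⟨ψ, h1, h2⟩ := exists_indep hn v φ
      have hψ := ne_zero_of_notMem h2
      refine ⟨⟨T v ψ h1, v, ψ, hv, hψ, h1, rfl⟩, ?_, ?_⟩
      · simp only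
        rw [cc_tv hφ hAv, cc_tv hψ (T_coe v ψ h1)]
      · simp only
        rw [aa_tv hv hAv, aa_tv hv (T_coe v ψ h1)]
        intro h3
        exact h2 (h3 ▸ Submodule.mem_span_singleton_self ψ))
    (fun A => by
      obtain ⟨v, φ, hv, hφ, h, hAv⟩ := A.2
      obtain ⟨w, h1, h2⟩ := exists_indep' hn φ v
      have hw := ne_zero_of_notMem h2
      refine ⟨⟨T w φ h1, w, φ, hw, hφ, h1, rfl⟩, ?_, ?_⟩
      · simp only
        rw [aa_tv hv hAv, aa_tv hw (T_coe w φ h1)]
      · simp only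
        rw [cc_tv hφ hAv, cc_tv hφ (T_coe w φ h1)]
        intro h3
        exact h2 (h3 ▸ Submodule.mem_span_singleton_self w))
    (fun A B => by
      obtain ⟨v, φ, hv, hφ, h, hAv⟩ := A.2
      obtain ⟨w, ψ, hw, hψ, h2, hBw⟩ := B.2
      obtain ⟨θ, hθ, h3, h4⟩ := exists_common hn v w
      refine ⟨⟨T v θ h3, v, θ, hv, hθ, h3, rfl⟩, ⟨T w θ h4, w, θ, hw, hθ, h4, rfl⟩, ?_, ?_, ?_⟩
      · simp only
        rw [cc_tv hφ hAv, cc_tv hθ (T_coe v θ h3)]
      · simp only
        rw [cc_tv hψ hBw, cc_tv hθ (T_coe w θ h4)]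
      · simp only
        rw [aa_tv hv (T_coe v θ h3), aa_tv hw (T_coe w θ h4)])
  have hone : ∀ A : SLn n F, (A : Mn n F) = 1 → ((f A : SLn n F) : Mn n F) = 1 := by
    intro A h
    rw [coe_one_iff] at h ⊢
    rw [h, map_one]
  rcases key with ⟨k1, k2⟩ | ⟨k1, k2⟩
  · left
    constructor
    · intro v hv
      obtain ⟨φ₀, h₀, hN₀⟩ := hC v hv
      obtain ⟨v', φ', hv', hφ', h', hfA⟩ := isN_img hf hN₀
      have hφ₀ : φ₀ ≠ 0 := by
        rintro rfl
        exact hN₀.ne_one ((coe_one_iff _).1 (tv_zero_right v))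
      refine ⟨v', hv', fun φ A h hAv => ?_⟩
      by_cases hφ : φ = 0
      · rw [hφ, tv_zero_right] at hAv
        exact ⟨0, zero_dotProduct _, by rw [hone A hAv, tv_zero_right]⟩
      · have hN : IsN A := ⟨v, φ, hv, hφ, h, hAv⟩
        have h1 := k1 ⟨A, hN⟩ ⟨_, hN₀⟩ (by
          simp only
          rw [cc_tv hφ hAv, cc_tv hφ₀ (T_coe v φ₀ h₀)])
        simp only at h1
        rw [cc_tv hφ' hfA] at h1
        exact out_c (isN_img hf hN) h1
    · intro φ hφ
      obtain ⟨v₀, h₀, hN₀⟩ := hA φ hφ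
      obtain ⟨v', φ', hv', hφ', h', hfA⟩ := isN_img hf hN₀
      have hv₀ : v₀ ≠ 0 := by
        rintro rfl
        exact hN₀.ne_one ((coe_one_iff _).1 (tv_zero_left φ))
      refine ⟨φ', hφ', fun v A h hAv => ?_⟩
      by_cases hv : v = 0
      · rw [hv, tv_zero_left] at hAv
        exact ⟨0, dotProduct_zero _, by rw [hone A hAv, tv_zero_left]⟩
      · have hN : IsN A := ⟨v, φ, hv, hφ, h, hAv⟩
        have h1 := k2 ⟨A, hN⟩ ⟨_, hN₀⟩ (by
          simp only
          rw [aa_tv hv hAv, aa_tv hv₀ (T_coe v₀ φ h₀)])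
        simp only at h1
        rw [aa_tv hv' hfA] at h1
        exact out_a (isN_img hf hN) h1
  · right
    constructor
    · intro v hv
      obtain ⟨φ₀, h₀, hN₀⟩ := hC v hv
      obtain ⟨v', φ', hv', hφ', h', hfA⟩ := isN_img hf hN₀
      have hφ₀ : φ₀ ≠ 0 := by
        rintro rfl
        exact hN₀.ne_one ((coe_one_iff _).1 (tv_zero_right v))
      refine ⟨φ', hφ', fun φ A h hAv => ?_⟩
      by_cases hφ : φ = 0
      · rw [hφ, tv_zero_right] at hAv
        exact ⟨0, dotProduct_zero _, by rw [hone A hAv, tv_zero_left]⟩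
      · have hN : IsN A := ⟨v, φ, hv, hφ, h, hAv⟩
        have h1 := k1 ⟨A, hN⟩ ⟨_, hN₀⟩ (by
          simp only
          rw [cc_tv hφ hAv, cc_tv hφ₀ (T_coe v φ₀ h₀)])
        simp only at h1
        rw [aa_tv hv' hfA] at h1
        exact out_a (isN_img hf hN) h1
    · intro φ hφ
      obtain ⟨v₀, h₀, hN₀⟩ := hA φ hφ
      obtain ⟨v', φ', hv', hφ', h', hfA⟩ := isN_img hf hN₀
      have hv₀ : v₀ ≠ 0 := by
        rintro rfl
        exact hN₀.ne_one ((coe_one_iff _).1 (tv_zero_left φ))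
      refine ⟨v', hv', fun v A h hAv => ?_⟩
      by_cases hv : v = 0
      · rw [hv, tv_zero_left] at hAv
        exact ⟨0, zero_dotProduct _, by rw [hone A hAv, tv_zero_right]⟩
      · have hN : IsN A := ⟨v, φ, hv, hφ, h, hAv⟩
        have h1 := k2 ⟨A, hN⟩ ⟨_, hN₀⟩ (by
          simp only
          rw [aa_tv hv hAv, aa_tv hv₀ (T_coe v₀ φ h₀)])
        simp only at h1
        rw [cc_tv hφ' hfA] at h1
        exact out_c (isN_img hf hN) h1

end Pool.Agent.Y759.DCN
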