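import Mathlib
import Pool.Agent.H84.L.S8_Y195_DCN_Core
import Pool.Agent.H84.L.S8_Y60_DC_Stm4
import Pool.Agent.H84.L.S8_Y759_DCN_Type_

namespace Pool.Agent.Y60.DC
end Pool.Agent.Y60.DC


/-! Job DCN-FIN, part 2: homomorphisms which fix the transvections with a given axis. -/

set_option autoImplicit false
set_option linter.unusedSectionVars false
set_option linter.unusedVariables false

namespace Pool.Agent.Y195.DCN

open Matrix Pool.Agent.Y60.DC

variable {F : Type} [Field F] {n : ℕ}

theorem mul_tv (c c' : Mn n F) (h : c' * c = 1) (v φ : Fin n → F) :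
    c' * tv v φ * c = tv (c' *ᵥ v) (φ ᵥ* c) := by
  rw [tv, tv, mul_add, add_mul, mul_one, h, mul_vecMulVec, vecMulVec_mul]

theorem core (hn : 3 ≤ n) (D : SLn n F →* Mn n F) (hinj : Function.Injective D) (o : Fin n)
    (hU : ∀ (h : Fin n → F) (hh : Pi.single o 1 ⬝ᵥ h = 0),
      D (tS h (Pi.single o 1) hh) = tv h (Pi.single o 1))
    (w : Fin n → F) (hw : w ≠ 0)
    (hT : ∀ (φ : Fin n → F) (hφ : φ ⬝ᵥ Pi.single o 1 = 0), ∃ φ' : Fin n → F, φ' ⬝ᵥ w = 0 ∧
      D (tS (Pi.single o 1) φ hφ) = tv w φ') :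
    ∃ c c' : Mn n F, c * c' = 1 ∧ c' * c = 1 ∧ ∀ A : SLn n F, D A * c = c * (A : Mn n F) := by
  set e : Fin n → F := Pi.single o 1 with he
  have hee : e ⬝ᵥ e = 1 := by rw [he, single_one_dotProduct, Pi.single_eq_same]
  have heo : e o = 1 := by rw [he, Pi.single_eq_same]
  have hek : ∀ k, k ≠ o → e k = 0 := fun k hk => by rw [he, Pi.single_eq_of_ne hk]
  have hed : ∀ v : Fin n → F, e ⬝ᵥ v = v o := fun v => by rw [he, single_one_dotProduct]
  have hed' : ∀ v : Fin n → F, v ⬝ᵥ e = v o := fun v => by rw [he, dotProduct_single_one]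
  -- another index
  obtain ⟨j0, hj0⟩ : ∃ j : Fin n, j ≠ o := by
    by_cases h : o = ⟨0, by omega⟩
    · exact ⟨⟨1, by omega⟩, by rw [h]; simp⟩
    · exact ⟨⟨0, by omega⟩, fun h' => h h'.symm⟩
  -- step A
  have hwo : w o ≠ 0 := by
    intro h0
    have hφ : (Pi.single j0 1 : Fin n → F) ⬝ᵥ e = 0 := by rw [hed', Pi.single_eq_of_ne hj0.symm]
    obtain ⟨φ', h1, h2⟩ := hT _ hφ
    have hww : e ⬝ᵥ w = 0 := by rw [hed, h0]
    have h3 := hU w hww
    have h4 : tS e (Pi.single j0 1) hφ * tS w e hww = tS w e hww * tS e (Pi.single j0 1) hφ := by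
      apply hinj
      rw [map_mul, map_mul, h2, h3, tv_mul, tv_mul, h1, hww, zero_smul, zero_smul]
      abel
    have h5 : tv e (Pi.single j0 1) * tv w e = tv w e * tv e (Pi.single j0 1) :=
      congrArg Subtype.val h4
    rw [tv_mul, tv_mul, hee, one_smul] at h5
    apply hw
    funext i
    have h6 := congrFun (congrFun h5 i) j0
    simp only [Matrix.add_apply, Matrix.smul_apply, vecMulVec_apply, hek j0 hj0,
      Pi.single_eq_same, mul_zero, mul_one, smul_zero, add_zero, Pi.zero_apply] at h6 ⊢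
    have h7 : (1 : Mn n F) i j0 + e i + w i = (1 : Mn n F) i j0 + e i := by
      rw [← h6]
    simpa using h7
  -- step B
  set h0 : Fin n → F := (w o)⁻¹ • w - e with hh0
  have heh0 : e ⬝ᵥ h0 = 0 := by
    rw [hed, hh0, Pi.sub_apply, Pi.smul_apply, smul_eq_mul, inv_mul_cancel₀ hwo, heo, sub_self]
  have hcc : ∀ a b : Fin n → F, e ⬝ᵥ a = 0 → e ⬝ᵥ b = 0 → tv a e * tv b e = tv (a + b) e := by
    intro a b ha hb
    rw [tv_mul, hb, zero_smul, add_zero, tv, add_vecMulVec, add_assoc]
  set c := tv h0 e with hc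
  set c' := tv (-h0) e with hc'
  have heh0' : e ⬝ᵥ (-h0) = 0 := by rw [dotProduct_neg, heh0, neg_zero]
  have hcc1 : c * c' = 1 := by
    rw [hc, hc', hcc _ _ heh0 heh0', add_neg_cancel, tv, zero_vecMulVec, add_zero]
  have hcc2 : c' * c = 1 := by
    rw [hc, hc', hcc _ _ heh0' heh0, neg_add_cancel, tv, zero_vecMulVec, add_zero]
  have hce : c *ᵥ e = (w o)⁻¹ • w := by
    rw [hc, tv, add_mulVec, one_mulVec, vecMulVec_mulVec, hee, hh0]
    simp
  have hcw : c' *ᵥ w = w o • e := by
    have h1 : w = w o • (c *ᵥ e) := by rw [hce, smul_smul, mul_inv_cancel₀ hwo, one_smul]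
    conv_lhs => rw [h1]
    rw [mulVec_smul, mulVec_mulVec, hcc2, one_mulVec]
  refine ⟨c, c', hcc1, hcc2, ?_⟩
  let D2 : SLn n F →* Mn n F :=
    { toFun := fun A => c' * D A * c
      map_one' := by rw [map_one, mul_one, hcc2]
      map_mul' := by
        intro A B
        rw [map_mul]
        calc c' * (D A * D B) * c = c' * D A * (1 * D B) * c := by
              rw [one_mul]; simp only [mul_assoc]
          _ = c' * D A * ((c * c') * D B) * c := by rw [hcc1]
          _ = c' * D A * c * (c' * D B * c) := by simp only [mul_assoc] }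
  have hD2 : ∀ A, D2 A = c' * D A * c := fun _ => rfl
  have hU2 : ∀ (h : Fin n → F) (hh : e ⬝ᵥ h = 0), D2 (tS h e hh) = tv h e := by
    intro h hh
    have h1 : tv h e * c = c * tv h e := by
      rw [hc, hcc _ _ hh heh0, hcc _ _ heh0 hh, add_comm]
    rw [hD2, hU h hh, mul_assoc, h1, ← mul_assoc, hcc2, one_mul]
  have hT2 : ∀ (φ : Fin n → F) (hφ : φ ⬝ᵥ e = 0), ∃ b : Fin n → F, b o = 0 ∧
      D2 (tS e φ hφ) = tv e b := by
    intro φ hφ
    obtain ⟨φ', h1, h2⟩ := hT φ hφ
    refine ⟨w o • (φ' ᵥ* c), ?_, ?_⟩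
    · rw [← hed' (w o • (φ' ᵥ* c)), smul_dotProduct, ← dotProduct_mulVec, hce, dotProduct_smul, h1]
      simp
    · rw [hD2, h2, mul_tv c c' hcc2, hcw, tv, tv, vecMulVec_smul, smul_vecMulVec]
  -- step C
  have hsq1 : ∀ h : Fin n → F, e ⬝ᵥ h = 0 → vecMulVec h e * vecMulVec h e = 0 := by
    intro h hh
    rw [vv, hh, zero_smul]
  have hsq2 : ∀ b : Fin n → F, b o = 0 → vecMulVec e b * vecMulVec e b = 0 := by
    intro b hb
    rw [vv, hed', hb, zero_smul]
  have hxyx : ∀ h b : Fin n → F, vecMulVec h e * vecMulVec e b * vecMulVec h e =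
      (b ⬝ᵥ h) • vecMulVec h e := by
    intro h b
    rw [vv, hee, one_smul, vv]
  have hyxy : ∀ h b : Fin n → F, vecMulVec e b * vecMulVec h e * vecMulVec e b =
      (b ⬝ᵥ h) • vecMulVec e b := by
    intro h b
    rw [vv, smul_mul_assoc, vv, hee, one_smul]
  have stepC : ∀ (φ h : Fin n → F) (hφ : φ ⬝ᵥ e = 0) (hh : e ⬝ᵥ h = 0), φ ⬝ᵥ h = -1 →
      ∀ b : Fin n → F, b o = 0 → D2 (tS e φ hφ) = tv e b → b ⬝ᵥ h = -1 := by
    intro φ h hφ hh hφh b hb hDb
    have b1 : (tS h e hh * tS e φ hφ * tS h e hh : SLn n F) =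
        tS e φ hφ * tS h e hh * tS e φ hφ := by
      apply Subtype.ext
      change tv h e * tv e φ * tv h e = tv e φ * tv h e * tv e φ
      rw [tv, tv, ← sub_eq_zero, braid (hsq1 h hh)
        (hsq2 φ (by rw [← hed' φ]; exact hφ)) (hxyx h φ) (hyxy h φ), hφh, add_neg_cancel, zero_smul]
    have b2 := congrArg D2 b1
    rw [map_mul, map_mul, map_mul, map_mul, hDb, hU2 h hh, tv, tv, ← sub_eq_zero,
      braid (hsq1 h hh) (hsq2 b hb) (hxyx h b) (hyxy h b)] at b2
    have hne : vecMulVec h e - vecMulVec e b ≠ 0 := by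
      intro h0
      have hh1 : h ≠ 0 := by
        rintro rfl
        rw [dotProduct_zero] at hφh
        have : (1 : F) = 0 := by linear_combination hφh
        exact one_ne_zero this
      apply hh1
      funext k
      by_cases hk : k = o
      · rw [hk, ← hed h, hh]; rfl
      · have h3 := congrFun (congrFun h0 k) o
        simp only [Matrix.sub_apply, vecMulVec_apply, hek k hk, heo, zero_mul, mul_one, sub_zero,
          Matrix.zero_apply] at h3
        exact h3
    have b3 := (smul_eq_zero.1 b2).resolve_right hne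
    linear_combination b3
  -- step D
  have hjo : ∀ j, j ≠ o → ∀ t : F, (t • Pi.single j 1 : Fin n → F) ⬝ᵥ e = 0 := by
    intro j hj t
    rw [hed', Pi.smul_apply, Pi.single_eq_of_ne hj.symm, smul_zero]
  have hoj : ∀ j, j ≠ o → ∀ t : F, e ⬝ᵥ (t • Pi.single j 1 : Fin n → F) = 0 := by
    intro j hj t
    rw [hed, Pi.smul_apply, Pi.single_eq_of_ne hj.symm, smul_zero]
  have stepD : ∀ (j : Fin n) (hj : j ≠ o) (t : F),
      D2 (tS e (t • Pi.single j 1) (hjo j hj t)) = tv e (t • Pi.single j 1) := by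
    intro j hj t
    by_cases ht : t = 0
    · have h1 : tS e (t • Pi.single j 1) (hjo j hj t) = 1 := by
        apply Subtype.ext
        rw [coe_tS, ht, zero_smul, tv, vecMulVec_zero, add_zero]
        rfl
      rw [h1, map_one, ht, zero_smul, tv, vecMulVec_zero, add_zero]
    obtain ⟨b, hb, hDb⟩ := hT2 _ (hjo j hj t)
    have hb1 : b ⬝ᵥ ((-t⁻¹) • Pi.single j 1 : Fin n → F) = -1 := by
      refine stepC _ _ (hjo j hj t) (hoj j hj _) ?_ b hb hDb
      rw [dotProduct_smul, dotProduct_single_one, Pi.smul_apply, Pi.single_eq_same]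
      simp only [smul_eq_mul, mul_one]
      field_simp
    rw [dotProduct_smul, dotProduct_single_one, smul_eq_mul] at hb1
    have hbj : b j = t := by
      field_simp at hb1
      linear_combination -hb1
    rw [hDb]
    congr 1
    funext i
    by_cases hij : i = j
    · subst hij
      rw [hbj, Pi.smul_apply, Pi.single_eq_same, smul_eq_mul, mul_one]
    by_cases hio : i = o
    · rw [hio, hb, Pi.smul_apply, Pi.single_eq_of_ne hj.symm, smul_zero]
    have hb2 : b ⬝ᵥ ((-t⁻¹) • Pi.single j 1 + (1 : F) • Pi.single i 1 : Fin n → F) = -1 := by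
      refine stepC _ _ (hjo j hj t) ?_ ?_ b hb hDb
      · rw [dotProduct_add, hoj j hj, hoj i hio, add_zero]
      · rw [dotProduct_add, dotProduct_smul, dotProduct_smul, dotProduct_single_one,
          dotProduct_single_one, Pi.smul_apply, Pi.smul_apply, Pi.single_eq_same,
          Pi.single_eq_of_ne hij]
        simp only [smul_eq_mul, mul_one, mul_zero, add_zero]
        field_simp
    rw [dotProduct_add, dotProduct_smul, dotProduct_smul, dotProduct_single_one,
      dotProduct_single_one, one_smul, smul_eq_mul, hb1] at hb2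
    rw [Pi.smul_apply, Pi.single_eq_of_ne hij, smul_zero]
    linear_combination hb2
  -- all elementary transvections
  have key : ∀ (i j : Fin n) (hij : i ≠ j) (t : F),
      D2 (SpecialLinearGroup.transvection hij t) = Matrix.transvection i j t := by
    intro i j hij t
    by_cases hjo' : j = o
    · subst hjo'
      have e1 : SpecialLinearGroup.transvection hij t = tS (t • Pi.single i 1) e
          (hoj i hij t) := Subtype.ext (tv_single i j t).symm
      rw [e1, hU2, ← tv_single]
    by_cases hio : i = o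
    · subst hio
      have e1 : SpecialLinearGroup.transvection hij t = tS e (t • Pi.single j 1)
          (hjo j hjo' t) := Subtype.ext (tv_single' i j t).symm
      rw [e1, stepD j hjo' t, ← tv_single']
    · have h1 := hoj i hio t
      have h2 := hjo j hjo' 1
      have h3 := hoj i hio (-t)
      have h4 := hjo j hjo' (-1)
      have e0 : ∀ s : F, (Matrix.transvection i j s : Mn n F) =
          1 + vecMulVec (s • Pi.single i 1) e * vecMulVec e ((1 : F) • Pi.single j 1) := by
        intro s
        rw [vv, hee, one_smul, one_smul, vmv_single, Matrix.transvection]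
      have e2 : tv (t • Pi.single i 1) e * tv e ((1 : F) • Pi.single j 1) *
          tv ((-t) • Pi.single i 1) e * tv e ((-1 : F) • Pi.single j 1) =
          (Matrix.transvection i j t : Mn n F) := by
        have f1 : tv ((-t) • Pi.single i 1) e =
            1 - vecMulVec (t • Pi.single i (1 : F)) e := by
          rw [tv, neg_smul, neg_vecMulVec, sub_eq_add_neg]
        have f2 : tv e ((-1 : F) • Pi.single j 1) =
            1 - vecMulVec e ((1 : F) • Pi.single j 1) := by
          rw [tv, neg_smul, vecMulVec_neg, sub_eq_add_neg]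
        rw [f1, f2, tv, tv, e0]
        refine comm4 (hsq1 _ h1) (hsq2 _ ?_) ?_
        · rw [← hed' ((1 : F) • Pi.single j 1)]; exact h2
        · rw [vv]
          have : (((1 : F) • Pi.single j 1 : Fin n → F) ⬝ᵥ (t • Pi.single i 1)) = 0 := by
            rw [dotProduct_smul, dotProduct_single_one, Pi.smul_apply, Pi.single_eq_of_ne hij]
            simp
          rw [this, zero_smul]
      have e1 : SpecialLinearGroup.transvection hij t = tS (t • Pi.single i 1) e h1 *
          tS e ((1 : F) • Pi.single j 1) h2 * tS ((-t) • Pi.single i 1) e h3 *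
          tS e ((-1 : F) • Pi.single j 1) h4 := by
        apply Subtype.ext
        exact e2.symm
      rw [e1, map_mul, map_mul, map_mul, hU2, hU2, stepD j hjo', stepD j hjo', e2]
  intro A
  have h1 := eq_id hn D2 key A
  rw [hD2] at h1
  rw [← h1, ← mul_assoc, ← mul_assoc, hcc1, one_mul]

end Pool.Agent.Y195.DCN
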