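import Mathlib
import Pool.Agent.H84.L.S8_Y195_DCN_Core
import Pool.Agent.H84.L.S8_Y195_DCN_Core2
import Pool.Agent.H84.L.S8_Y60_DC_Stm4
import Pool.Agent.H84.L.S8_Y759_DCN_Type_

namespace Pool.Agent.Y60.DC
end Pool.Agent.Y60.DC


/-! Job DCN-FIN, part 3: type preserving automorphisms of `SL_n(F)` are semilinear. -/

set_option autoImplicit false
set_option linter.unusedSectionVars false
set_option linter.unusedVariables false

namespace Pool.Agent.Y195.DCN

open Matrix Pool.Agent.Y60.DC

variable {F : Type} [Field F] {n : ℕ}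

theorem vmv_left {u v ψ : Fin n → F} (hψ : ψ ≠ 0) (h : vecMulVec u ψ = vecMulVec v ψ) : u = v := by
  obtain ⟨k, hk⟩ := Function.ne_iff.1 hψ
  funext i
  have h1 := congrFun (congrFun h i) k
  rw [vecMulVec_apply, vecMulVec_apply] at h1
  exact mul_right_cancel₀ hk h1

theorem vmv_prop {u v ψ φ : Fin n → F} (hψ : ψ ≠ 0) (h : vecMulVec u ψ = vecMulVec v φ) :
    ∃ y : F, u = y • v := by
  obtain ⟨k, hk⟩ := Function.ne_iff.1 hψ
  refine ⟨φ k / ψ k, ?_⟩
  funext i
  have h1 := congrFun (congrFun h i) k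
  rw [vecMulVec_apply, vecMulVec_apply] at h1
  rw [Pi.smul_apply, smul_eq_mul, div_mul_eq_mul_div, eq_div_iff hk, h1, mul_comm]

theorem tv_inj {a b c d : Fin n → F} (h : tv a b = tv c d) : vecMulVec a b = vecMulVec c d :=
  add_left_cancel h

theorem map_vmv (σ : F ≃+* F) (u v : Fin n → F) :
    (vecMulVec u v).map σ = vecMulVec (fun k => σ (u k)) (fun k => σ (v k)) := by
  ext i j
  rw [Matrix.map_apply, vecMulVec_apply, vecMulVec_apply, map_mul]

theorem map_tv (σ : F ≃+* F) (u v : Fin n → F) :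
    (tv u v).map σ = tv (fun k => σ (u k)) (fun k => σ (v k)) := by
  rw [tv, tv, ← map_vmv]
  ext i j
  simp only [Matrix.map_apply, Matrix.add_apply, map_add, Matrix.one_apply]
  split_ifs <;> simp

theorem map_mul' (σ : F ≃+* F) (A B : Mn n F) : (A * B).map σ = A.map σ * B.map σ := by
  have := Matrix.map_mul (L := A) (M := B) (f := (σ : F →+* F))
  exact this


theorem map_map'' (σ : F ≃+* F) (A : Mn n F) : (A.map σ.symm).map σ = A := by
  ext i j
  simp

theorem map_one'' (σ : F ≃+* F) : (1 : Mn n F).map σ = 1 := by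
  have := Matrix.map_one (n := Fin n) (σ : F → F) (map_zero σ) (map_one σ)
  exact this

theorem dot_map (σ : F ≃+* F) (u v : Fin n → F) :
    (fun k => σ (u k)) ⬝ᵥ (fun k => σ (v k)) = σ (u ⬝ᵥ v) := by
  simp only [dotProduct, map_sum, map_mul]

/- the hyperplane of the vectors orthogonal to `ψ` -/
def hyp (ψ : Fin n → F) : Submodule F (Fin n → F) :=
  LinearMap.ker ((dotProductBilin F F ψ : (Fin n → F) →ₗ[F] F))

theorem mem_hyp {ψ v : Fin n → F} : v ∈ hyp ψ ↔ ψ ⬝ᵥ v = 0 := by
  rw [hyp, LinearMap.mem_ker]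
  rfl

theorem finrank_hyp {ψ : Fin n → F} (hψ : ψ ≠ 0) : Module.finrank F (hyp ψ) + 1 = n := by
  have h := Module.Dual.finrank_ker_add_one_of_ne_zero (K := F) (V₁ := Fin n → F)
    (f := (dotProductBilin F F ψ : (Fin n → F) →ₗ[F] F)) (by
      intro h0
      obtain ⟨k, hk⟩ := Function.ne_iff.1 hψ
      apply hk
      have := LinearMap.congr_fun h0 (Pi.single k 1)
      have h2 : ψ ⬝ᵥ (Pi.single k 1) = 0 := this
      rw [dotProduct_single_one] at h2
      exact h2)
  rw [Module.finrank_fin_fun] at h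
  exact h

theorem fin_holds (hSEMI : TaskSEMI) : TaskFIN := by
  intro F _ _ n hn f hT
  classical
  set o : Fin n := ⟨0, by omega⟩ with ho
  set e : Fin n → F := Pi.single o 1 with he
  have hed : ∀ v : Fin n → F, e ⬝ᵥ v = v o := fun v => by rw [he, single_one_dotProduct]
  have heo : e o = 1 := by rw [he, Pi.single_eq_same]
  have he0 : e ≠ 0 := by
    intro h
    rw [h] at heo
    exact zero_ne_one heo
  obtain ⟨ψ, hψ, hax⟩ := hT.2 e he0
  have hH : ∀ h : hyp e, e ⬝ᵥ (h : Fin n → F) = 0 := fun h => mem_hyp.1 h.2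
  -- the map `a`
  have hax' : ∀ h : hyp e, ∃ v : Fin n → F, ψ ⬝ᵥ v = 0 ∧
      ((f (tS h e (hH h)) : SLn n F) : Mn n F) = tv v ψ := fun h =>
    hax h (tS h e (hH h)) (hH h) rfl
  choose a0 ha0 ha0' using hax'
  have hadd : ∀ h h' : hyp e, a0 (h + h') = a0 h + a0 h' := by
    intro h h'
    have e1 : tS ((h + h' : hyp e) : Fin n → F) e (hH _) = tS h e (hH h) * tS h' e (hH h') := by
      apply Subtype.ext
      change tv _ e = tv (h : Fin n → F) e * tv (h' : Fin n → F) e
      rw [tv_mul, hH h', zero_smul, add_zero, tv, Submodule.coe_add, add_vecMulVec, add_assoc]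
    have e2 : ((f (tS ((h + h' : hyp e) : Fin n → F) e (hH _)) : SLn n F) : Mn n F) =
        ((f (tS h e (hH h)) : SLn n F) : Mn n F) * ((f (tS h' e (hH h')) : SLn n F) : Mn n F) := by
      rw [e1, map_mul]
      rfl
    rw [ha0', ha0', ha0', tv_mul, ha0 h', zero_smul, add_zero, tv, add_assoc,
      ← add_vecMulVec] at e2
    exact vmv_left hψ (add_left_cancel e2)
  have hinj0 : ∀ h h' : hyp e, a0 h = a0 h' → h = h' := by
    intro h h' hh
    have e1 : f (tS h e (hH h)) = f (tS h' e (hH h')) := by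
      apply Subtype.ext
      rw [ha0', ha0', hh]
    have e2 : tv (h : Fin n → F) e = tv (h' : Fin n → F) e := congrArg Subtype.val (f.injective e1)
    exact Subtype.ext (vmv_left he0 (tv_inj e2))
  let a1 : hyp e →+ hyp ψ :=
    { toFun := fun h => ⟨a0 h, mem_hyp.2 (ha0 h)⟩
      map_zero' := by
        apply Subtype.ext
        have := hadd 0 0
        rw [add_zero] at this
        change a0 0 = 0
        exact (left_eq_add.1 this)
      map_add' := fun h h' => Subtype.ext (hadd h h') }
  have ha1 : ∀ h, ((a1 h : hyp ψ) : Fin n → F) = a0 h := fun _ => rfl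
  have ha1i : Function.Injective a1 := fun h h' hh =>
    hinj0 h h' (congrArg Subtype.val hh)
  have hfr : Module.finrank F (hyp e) = Module.finrank F (hyp ψ) := by
    have h1 := finrank_hyp he0
    have h2 := finrank_hyp hψ
    omega
  have ha1b : Function.Bijective a1 := by
    rw [Nat.bijective_iff_injective_and_card]
    exact ⟨ha1i, Nat.card_congr (LinearEquiv.ofFinrankEq _ _ hfr).toEquiv⟩
  let a : hyp e ≃+ hyp ψ := AddEquiv.ofBijective a1 ha1b
  have haa : ∀ h, ((a h : hyp ψ) : Fin n → F) = a0 h := fun _ => rfl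
  have ha00 : ∀ h : hyp e, a0 h = 0 → h = 0 := by
    intro h hh
    apply a.injective
    rw [map_zero]
    exact Subtype.ext hh
  -- lines
  have hline : ∀ (x : F) (h : hyp e), ∃ y : F, a (x • h) = y • a h := by
    intro x h
    by_cases h0 : h = 0
    · exact ⟨0, by rw [h0, smul_zero, map_zero, smul_zero]⟩
    have h0' : (h : Fin n → F) ≠ 0 := fun h' => h0 (Subtype.ext h')
    obtain ⟨v', hv', hv⟩ := hT.1 h h0'
    obtain ⟨φ1, -, hφ1⟩ := hv (x • e) (tS ((x • h : hyp e) : Fin n → F) e (hH _))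
      (by rw [smul_dotProduct, hH h, smul_zero]) (by
        rw [coe_tS, tv, tv, Submodule.coe_smul, smul_vecMulVec, vecMulVec_smul])
    obtain ⟨φ2, -, hφ2⟩ := hv e (tS (h : Fin n → F) e (hH _)) (hH h) rfl
    rw [ha0'] at hφ1 hφ2
    obtain ⟨y1, hy1⟩ := vmv_prop hψ (tv_inj hφ1)
    obtain ⟨y2, hy2⟩ := vmv_prop hψ (tv_inj hφ2)
    have hy20 : y2 ≠ 0 := by
      rintro rfl
      rw [zero_smul] at hy2
      exact h0 (ha00 h hy2)
    refine ⟨y1 / y2, Subtype.ext ?_⟩
    rw [Submodule.coe_smul, haa, haa, hy1, hy2, smul_smul, div_mul_cancel₀ _ hy20]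
  have hline' : ∀ (x : F) (h : hyp e), ∃ y : F, a.symm (x • a h) = y • h := by
    intro x h
    by_cases h0 : h = 0
    · exact ⟨0, by rw [h0, map_zero, smul_zero, map_zero, smul_zero]⟩
    choose y hy using fun x => hline x h
    have hyi : Function.Injective y := by
      intro x x' hxx
      have h1 : a (x • h) = a (x' • h) := by rw [hy, hy, hxx]
      have h2 := a.injective h1
      have h2' : x • (h : Fin n → F) = x' • (h : Fin n → F) := congrArg Subtype.val h2
      have h3 : (x - x') • (h : Fin n → F) = 0 := by rw [sub_smul, h2', sub_self]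
      rcases smul_eq_zero.1 h3 with h4 | h4
      · exact sub_eq_zero.1 h4
      · exact absurd (Subtype.ext h4) h0
    obtain ⟨x', hx'⟩ := (Finite.surjective_of_injective hyi) x
    refine ⟨x', ?_⟩
    rw [← hx', ← hy, AddEquiv.symm_apply_apply]
  obtain ⟨σ, hσ⟩ := hSEMI F (hyp e) (hyp ψ) a (by
    have := finrank_hyp he0
    omega) hline hline'
  have hσ' : ∀ (x : F) (h : hyp e), a0 (x • h) = σ x • a0 h := by
    intro x h
    have := congrArg Subtype.val (hσ x h)
    exact this
  -- the vector `c0`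
  obtain ⟨c0, hc0⟩ : ∃ c0 : Fin n → F, ψ ⬝ᵥ c0 = 1 := by
    obtain ⟨k, hk⟩ := Function.ne_iff.1 hψ
    refine ⟨(ψ k)⁻¹ • Pi.single k 1, ?_⟩
    rw [dotProduct_smul, dotProduct_single_one, smul_eq_mul, inv_mul_cancel₀ hk]
  -- the matrix `g`
  let η : (Fin n → F) → hyp e := fun v => ⟨fun k => σ.symm (v k - v o * e k), by
    rw [mem_hyp, hed, heo, mul_one, sub_self, map_zero]⟩
  have hη1 : ∀ v w, η (v + w) = η v + η w := by
    intro v w
    apply Subtype.ext
    funext k
    change σ.symm ((v k + w k) - (v o + w o) * e k) = σ.symm (v k - v o * e k) +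
      σ.symm (w k - w o * e k)
    rw [← map_add]
    congr 1
    ring
  have hη2 : ∀ (x : F) v, η (x • v) = σ.symm x • η v := by
    intro x v
    apply Subtype.ext
    funext k
    change σ.symm (x * v k - (x * v o) * e k) = σ.symm x * σ.symm (v k - v o * e k)
    rw [← map_mul]
    congr 1
    ring
  have hη3 : ∀ h : hyp e, η (fun k => σ ((h : Fin n → F) k)) = h := by
    intro h
    apply Subtype.ext
    funext k
    change σ.symm (σ ((h : Fin n → F) k) - σ ((h : Fin n → F) o) * e k) = (h : Fin n → F) k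
    have h1 : (h : Fin n → F) o = 0 := (hed _).symm.trans (hH h)
    rw [h1, map_zero, zero_mul, sub_zero, RingEquiv.symm_apply_apply]
  let Gm : (Fin n → F) →ₗ[F] (Fin n → F) :=
    { toFun := fun v => a0 (η v) + v o • c0
      map_add' := by
        intro v w
        rw [hη1, hadd, Pi.add_apply, add_smul]
        abel
      map_smul' := by
        intro x v
        rw [hη2, hσ', RingEquiv.apply_symm_apply, Pi.smul_apply, smul_eq_mul, RingHom.id_apply,
          smul_add, smul_smul] }
  have hGm : ∀ v, Gm v = a0 (η v) + v o • c0 := fun _ => rfl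
  have hψG : ∀ v, ψ ⬝ᵥ Gm v = v o := by
    intro v
    rw [hGm, dotProduct_add, ha0, zero_add, dotProduct_smul, hc0, smul_eq_mul, mul_one]
  have hGi : Function.Injective Gm := by
    rw [← LinearMap.ker_eq_bot, LinearMap.ker_eq_bot']
    intro v hv
    have h1 : v o = 0 := by rw [← hψG v, hv, dotProduct_zero]
    rw [hGm, h1, zero_smul, add_zero] at hv
    have h2 := ha00 _ hv
    funext k
    have h3 := congrFun (congrArg Subtype.val h2) k
    change σ.symm (v k - v o * e k) = 0 at h3
    rw [h1, zero_mul, sub_zero] at h3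
    exact (map_eq_zero_iff σ.symm σ.symm.injective).1 h3
  let Ge := LinearEquiv.ofInjectiveEndo Gm hGi
  have hGe : (Ge : (Fin n → F) →ₗ[F] (Fin n → F)) = Gm := rfl
  set g : Mn n F := LinearMap.toMatrix' Gm with hg
  set gi : Mn n F := LinearMap.toMatrix' (Ge.symm : (Fin n → F) →ₗ[F] (Fin n → F)) with hgi
  have hggi : g * gi = 1 := by
    rw [hg, hgi, ← LinearMap.toMatrix'_comp, ← hGe, ← LinearMap.toMatrix'_id]
    congr 1
    ext v
    simp
  have hgig : gi * g = 1 := mul_eq_one_comm.1 hggi
  have hgv : ∀ v, g *ᵥ v = Gm v := fun v => by rw [hg, LinearMap.toMatrix'_mulVec]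
  have hga : ∀ h : hyp e, gi *ᵥ a0 h = fun k => σ ((h : Fin n → F) k) := by
    intro h
    have h1 : g *ᵥ (fun k => σ ((h : Fin n → F) k)) = a0 h := by
      rw [hgv, hGm, hη3]
      have h2 : (h : Fin n → F) o = 0 := (hed _).symm.trans (hH h)
      simp only [h2, map_zero, zero_smul, add_zero]
    rw [← h1, mulVec_mulVec, hgig, one_mulVec]
  have hψg : ψ ᵥ* g = e := by
    funext k
    have h1 : (ψ ᵥ* g) ⬝ᵥ Pi.single k 1 = (Pi.single k 1 : Fin n → F) o := by
      rw [← dotProduct_mulVec, hgv, hψG]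
    rw [dotProduct_single_one] at h1
    rw [h1, he, Pi.single_apply, Pi.single_apply]
    simp only [eq_comm]
  -- the homomorphism
  let D : SLn n F →* Mn n F :=
    { toFun := fun A => (gi * ((f A : SLn n F) : Mn n F) * g).map σ.symm
      map_one' := by
        rw [map_one]
        change (gi * 1 * g).map σ.symm = 1
        rw [mul_one, hgig, map_one'']
      map_mul' := by
        intro A B
        rw [← map_mul', map_mul]
        congr 1
        change gi * (((f A : SLn n F) : Mn n F) * ((f B : SLn n F) : Mn n F)) * g = _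
        calc gi * (((f A : SLn n F) : Mn n F) * ((f B : SLn n F) : Mn n F)) * g =
            gi * ((f A : SLn n F) : Mn n F) * (1 * ((f B : SLn n F) : Mn n F)) * g := by
              rw [one_mul]; simp only [mul_assoc]
          _ = gi * ((f A : SLn n F) : Mn n F) * ((g * gi) * ((f B : SLn n F) : Mn n F)) * g := by
              rw [hggi]
          _ = _ := by simp only [mul_assoc] }
  have hD : ∀ A, D A = (gi * ((f A : SLn n F) : Mn n F) * g).map σ.symm := fun _ => rfl
  have hDi : Function.Injective D := by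
    intro A B hAB
    rw [hD, hD] at hAB
    have h1 := congrArg (fun X : Mn n F => X.map σ) hAB
    simp only [map_map''] at h1
    apply f.injective
    apply Subtype.ext
    calc ((f A : SLn n F) : Mn n F) = g * (gi * ((f A : SLn n F) : Mn n F) * g) * gi := by
          rw [mul_assoc gi, ← mul_assoc g, hggi, one_mul, mul_assoc, hggi, mul_one]
      _ = g * (gi * ((f B : SLn n F) : Mn n F) * g) * gi := by rw [h1]
      _ = ((f B : SLn n F) : Mn n F) := by
          rw [mul_assoc gi, ← mul_assoc g, hggi, one_mul, mul_assoc, hggi, mul_one]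
  have hee : (fun k => σ.symm (e k)) = e := by
    funext k
    rw [he, Pi.single_apply]
    split_ifs <;> simp
  obtain ⟨v', hv', hTe⟩ := hT.1 e he0
  obtain ⟨c, c', hcc, hcc', hfin⟩ := core hn D hDi o (by
      intro h hh
      have h1 := ha0' ⟨h, mem_hyp.2 hh⟩
      change ((f (tS h e hh) : SLn n F) : Mn n F) = _ at h1
      rw [hD, h1, mul_tv g gi hgig, hga, hψg, map_tv, hee]
      simp only [RingEquiv.symm_apply_apply]
      rfl) (fun k => σ.symm ((gi *ᵥ v') k)) (by
      intro h0
      apply hv'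
      have h1 : gi *ᵥ v' = 0 := by
        funext k
        have := congrFun h0 k
        exact (map_eq_zero_iff σ.symm σ.symm.injective).1 this
      rw [← one_mulVec v', ← hggi, ← mulVec_mulVec, h1, mulVec_zero]) (by
      intro φ hφ
      obtain ⟨φ', h1, h2⟩ := hTe φ (tS e φ hφ) hφ rfl
      refine ⟨fun k => σ.symm ((φ' ᵥ* g) k), ?_, ?_⟩
      · rw [dot_map, ← dotProduct_mulVec, mulVec_mulVec, hggi, one_mulVec, h1, map_zero]
      · rw [hD, h2, mul_tv g gi hgig, map_tv])
  -- conclusion
  have hu1 : (g * c.map σ) * (c'.map σ * gi) = 1 := by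
    rw [mul_assoc, ← mul_assoc (c.map σ), ← map_mul', hcc, map_one'', one_mul, hggi]
  have hu2 : (c'.map σ * gi) * (g * c.map σ) = 1 := mul_eq_one_comm.1 hu1
  refine ⟨⟨g * c.map σ, c'.map σ * gi, hu1, hu2⟩, σ, fun A => ?_⟩
  change ((f A : SLn n F) : Mn n F) * (g * c.map σ) = g * c.map σ * (A : Mn n F).map σ
  have h1 := hfin A
  have h2 := congrArg (fun X : Mn n F => X.map σ) h1
  simp only [map_mul'] at h2
  rw [hD, map_map''] at h2
  rw [mul_assoc, ← h2]
  calc ((f A : SLn n F) : Mn n F) * (g * c.map σ) =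
      1 * ((f A : SLn n F) : Mn n F) * g * c.map σ := by rw [one_mul, mul_assoc]
    _ = (g * gi) * ((f A : SLn n F) : Mn n F) * g * c.map σ := by rw [hggi]
    _ = _ := by simp only [mul_assoc]

end Pool.Agent.Y195.DCN
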