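import Mathlib
import Pool.Agent.H84.L.S8_Y60_DC_Stm4

namespace Pool.Agent.Y60.DC
end Pool.Agent.Y60.DC


/-!
# DCN-SEMI: additive bijections which preserve lines are semilinear (helper362)
-/

set_option autoImplicit false

namespace Pool.Agent.Y362.DCN

open Pool.Agent.Y60.DC

theorem semi_holds : TaskSEMI := by
  intro F V W _ _ _ _ _ a hdim h1 h2
  choose f hf using h1
  choose g hg using h2
  have ha0 : ∀ v, v ≠ 0 → a v ≠ 0 := fun v hv h => hv (a.map_eq_zero_iff.1 h)
  have uniq : ∀ v, v ≠ 0 → ∀ x y : F, x • a v = y • a v → x = y := fun v hv x y h =>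
    smul_left_injective F (ha0 v hv) h
  have key : ∀ v w, LinearIndependent F ![v, w] → ∀ x, f x v = f x w := by
    intro v w hvw x
    rw [LinearIndependent.pair_iff] at hvw
    have hv : v ≠ 0 := by
      rintro rfl
      exact one_ne_zero (hvw 1 0 (by simp)).1
    have hw : w ≠ 0 := by
      rintro rfl
      exact one_ne_zero (hvw 0 1 (by simp)).2
    have hi : ∀ s t : F, s • a v + t • a w = 0 → s = 0 ∧ t = 0 := by
      intro s t hst
      have e : a.symm (s • a v) + a.symm (t • a w) = 0 := by rw [← map_add, hst, map_zero]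
      rw [hg, hg] at e
      obtain ⟨e1, e2⟩ := hvw _ _ e
      have e3 : s • a v = 0 := by
        have h3 := hg s v
        rw [e1, zero_smul] at h3
        exact a.symm.map_eq_zero_iff.1 h3
      have e4 : t • a w = 0 := by
        have h3 := hg t w
        rw [e2, zero_smul] at h3
        exact a.symm.map_eq_zero_iff.1 h3
      exact ⟨(smul_eq_zero.1 e3).resolve_right (ha0 v hv),
        (smul_eq_zero.1 e4).resolve_right (ha0 w hw)⟩
    have e1 : a (x • (v + w)) = f x v • a v + f x w • a w := by
      rw [smul_add, map_add, hf, hf]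
    have e2 : a (x • (v + w)) = f x (v + w) • a v + f x (v + w) • a w := by
      rw [hf, map_add, smul_add]
    have e3 : (f x (v + w) - f x v) • a v + (f x (v + w) - f x w) • a w = 0 := by
      rw [sub_smul, sub_smul]
      have h3 := e2.symm.trans e1
      rw [← sub_eq_zero] at h3
      rw [← h3]
      abel
    obtain ⟨e4, e5⟩ := hi _ _ e3
    rw [← sub_eq_zero.1 e4, ← sub_eq_zero.1 e5]
  have key2 : ∀ v w, v ≠ 0 → w ≠ 0 → ∀ x, f x v = f x w := by
    intro v w hv hw x
    by_cases hvw : LinearIndependent F ![v, w]
    · exact key v w hvw x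
    · obtain ⟨u, hu⟩ := exists_linearIndependent_pair_of_one_lt_finrank (R := F) (M := V)
        (by omega) hv
      have hwu : LinearIndependent F ![w, u] := by
        rw [LinearIndependent.pair_iff] at hvw hu ⊢
        push Not at hvw
        obtain ⟨p, q, hpq, hne⟩ := hvw
        have hq : q ≠ 0 := by
          intro hq
          rw [hq, zero_smul, add_zero] at hpq
          have hp := (smul_eq_zero.1 hpq).resolve_right hv
          exact hne hp hq
        have hp : p ≠ 0 := by
          intro hp
          rw [hp, zero_smul, zero_add] at hpq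
          exact hq ((smul_eq_zero.1 hpq).resolve_right hw)
        intro s t hst
        have e1 : (-(s * p)) • v + (q * t) • u = 0 := by
          have e2 : q • w = -(p • v) := eq_neg_of_add_eq_zero_right hpq
          have e3 : q • (s • w + t • u) = 0 := by rw [hst, smul_zero]
          rw [smul_add, smul_comm q s w, e2, smul_neg, smul_smul, smul_smul] at e3
          rw [neg_smul]
          exact e3
        obtain ⟨e2, e3⟩ := hu _ _ e1
        exact ⟨(mul_eq_zero.1 (neg_eq_zero.1 e2)).resolve_right hp,
          (mul_eq_zero.1 e3).resolve_left hq⟩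
      rw [key v u hu x, key w u hwu x]
  have hnt : Nontrivial V := Module.nontrivial_of_finrank_pos (R := F) (by omega)
  obtain ⟨v0, hv0⟩ := exists_ne (0 : V)
  have hφ : ∀ (x : F) (v : V), a (x • v) = f x v0 • a v := by
    intro x v
    by_cases hv : v = 0
    · rw [hv, smul_zero, map_zero, smul_zero]
    · rw [hf, key2 v v0 hv hv0]
  let φ : F →+* F :=
    { toFun := fun x => f x v0
      map_one' := uniq v0 hv0 _ _ (by rw [← hφ, one_smul, one_smul])
      map_mul' := fun x y => uniq v0 hv0 _ _ (by
        rw [← hφ, mul_smul, hφ, hφ, mul_smul])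
      map_zero' := uniq v0 hv0 _ _ (by rw [← hφ, zero_smul, zero_smul, map_zero])
      map_add' := fun x y => uniq v0 hv0 _ _ (by
        rw [← hφ, add_smul, map_add, hφ, hφ, add_smul]) }
  have hb : Function.Bijective φ := by
    refine ⟨φ.injective, fun y => ⟨g y v0, uniq v0 hv0 _ _ ?_⟩⟩
    change f (g y v0) v0 • a v0 = y • a v0
    rw [← hφ, ← hg, AddEquiv.apply_symm_apply]
  exact ⟨RingEquiv.ofBijective φ hb, hφ⟩

end Pool.Agent.Y362.DCN
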