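import Mathlib
import Pool.Agent.H84.L.S8_H463R3_PSLn
import Pool.Agent.H84.L.S8_TH15_IGP_TwT
import Pool.Agent.H84.L.S8_TH444_TW_ClsDef
import Pool.Agent.H84.L.S8_TH444_TW_Loc
import Pool.Agent.H84.L.S8_TH444_TW_RS
import Pool.Agent.H84.L.S8_TH444_TW_RSK
import Pool.Agent.H84.L.S8_W200_IJ_CB
import Pool.Agent.H84.L.S8_Y165_DCN_Syl
import Pool.Agent.H84.L.S8_Y195_DCN_Fin
import Pool.Agent.H84.L.S8_Y331_DCN_AutN
import Pool.Agent.H84.L.S8_Y362_DCN_Semi
import Pool.Agent.H84.L.S8_Y60_DC_RecN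
import Pool.Agent.H84.L.S8_Y60_DC_Stm4
import Pool.Agent.H84.L.S8_Y759_DCN_Type_

namespace Pool.Agent.H391R2
end Pool.Agent.H391R2
namespace Pool.Agent.H391R2.T4
end Pool.Agent.H391R2.T4
namespace Pool.Agent.TH15.IGP
end Pool.Agent.TH15.IGP
namespace Pool.Agent.TH444.TW
end Pool.Agent.TH444.TW


/-!
# The class of epimorphisms in characteristic `p`
-/

set_option autoImplicit false

namespace Pool.Agent.Y60.DC

open Pool.Agent.H391R2 Pool.Agent.H391R2.T4
open Pool.Agent.TH15.IGP (StepSol)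
open Pool.Agent.TH444.TW (Cls RSK infinite_ratFunc infinite_of_hilb)

theorem autn_all : TaskAUTN :=
  Pool.Agent.Y331.DCN.autn_holds Pool.Agent.Y165.DCN.syl_holds Pool.Agent.Y759.DCN.type_holds
    (Pool.Agent.Y195.DCN.fin_holds Pool.Agent.Y362.DCN.semi_holds)

theorem simpleN_all : SimpleN := by
  intro F _ _ n hn
  exact Pool.Agent.H463R3.PSLn.isSimpleGroup_PSL (ι := Fin n) (F := F) (by simpa using hn)


variable {K : Type} [Field K]


end Pool.Agent.Y60.DC
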