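import Mathlib
import Pool.Agent.H84.L.S8_H391R2_T4_Red
import Pool.Agent.H84.L.S8_TH59_WX_PA
import Pool.Agent.H84.L.S8_Y60_DC_Comp
import Pool.Agent.H84.L.S8_Y60_DC_Def
import Pool.Agent.H84.L.S8_Y60_DC_Good
import Pool.Agent.H84.L.S8_Y60_DC_Lift
import Pool.Agent.H84.L.S8_Y60_DC_Stm
import Pool.Agent.H84.L.S8_Y60_DC_Stm3

namespace Pool.Agent.H391R2.T4
end Pool.Agent.H391R2.T4
namespace Pool.Agent.TH59.WX
end Pool.Agent.TH59.WX


/-!
# Kernels with composition factors `Z/p` and `PSL_2(F)`: the recursion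
-/

set_option autoImplicit false

namespace Pool.Agent.Y60.DC

open Pool.Agent.H391R2.T4 (RegSol)
open Pool.Agent.TH59.WX (Indec)
open Matrix (SpecialLinearGroup)

theorem psl_center (F : Type) [Field F] (hF : 4 ≤ Nat.card F) :
    Subgroup.center (PSL2 F) = ⊥ := by
  have hs : IsSimpleGroup (PSL2 F) := Matrix.ProjectiveSpecialLinearGroup.rank_two_simple hF
  rcases hs.eq_bot_or_eq_top_of_normal (Subgroup.center (PSL2 F)) inferInstance with h | h
  · exact h
  · exfalso
    let A : SpecialLinearGroup (Fin 2) F := ⟨!![1, 1; 0, 1], by simp [Matrix.det_fin_two]⟩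
    let B : SpecialLinearGroup (Fin 2) F := ⟨!![1, 0; 1, 1], by simp [Matrix.det_fin_two]⟩
    have h1 : (QuotientGroup.mk A : PSL2 F) ∈ Subgroup.center (PSL2 F) := by
      rw [h]
      exact Subgroup.mem_top _
    have h2 := Subgroup.mem_center_iff.1 h1 (QuotientGroup.mk B)
    obtain ⟨r, -, hr⟩ := mk_eq (B * A) (A * B) h2
    have h3 : ((A * B : SpecialLinearGroup (Fin 2) F) : Mt F) = !![2, 1; 1, 1] := by
      rw [Matrix.SpecialLinearGroup.coe_mul]
      change (!![1, 1; 0, 1] : Mt F) * !![1, 0; 1, 1] = _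
      ext i j
      fin_cases i <;> fin_cases j <;> simp [Matrix.mul_apply, Fin.sum_univ_two]
      norm_num
    have h4 : ((B * A : SpecialLinearGroup (Fin 2) F) : Mt F) = !![1, 1; 1, 2] := by
      rw [Matrix.SpecialLinearGroup.coe_mul]
      change (!![1, 0; 1, 1] : Mt F) * !![1, 1; 0, 1] = _
      ext i j
      fin_cases i <;> fin_cases j <;> simp [Matrix.mul_apply, Fin.sum_univ_two]
      norm_num
    rw [h3, h4] at hr
    have h5 := congrFun (congrFun hr 0) 1
    have h6 := congrFun (congrFun hr 0) 0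
    simp at h5 h6
    rw [← h5] at h6
    have h7 : (1 : F) = 0 := by linear_combination h6
    exact one_ne_zero h7

theorem indec_of_simple (T : Type) [Group T] [hs : IsSimpleGroup T]
    (h : Subgroup.center T = ⊥) : Indec T := by
  intro A B hAB hT
  have hn : A.Normal := by
    refine ⟨fun n hn g => ?_⟩
    obtain ⟨a, ha, b, hb, rfl⟩ := hT g
    have h1 : a * b * n * (a * b)⁻¹ = a * n * a⁻¹ := by
      have h2 : n * b = b * n := hAB n hn b hb
      calc a * b * n * (a * b)⁻¹ = a * (b * n) * b⁻¹ * a⁻¹ := by group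
        _ = a * (n * b) * b⁻¹ * a⁻¹ := by rw [h2]
        _ = a * n * a⁻¹ := by group
    rw [h1]
    exact mul_mem (mul_mem ha hn) (inv_mem ha)
  rcases hs.eq_bot_or_eq_top_of_normal A hn with h1 | h1
  · exact Or.inl h1
  · right
    rw [eq_bot_iff, ← h]
    intro b hb
    rw [Subgroup.mem_center_iff]
    intro g
    exact hAB g (by rw [h1]; exact Subgroup.mem_top _) b hb

/- **All embedding problems with kernel `PSL_2(F)`.** -/
theorem good_psl (hA : TaskAUT) (hC : TaskCOMPL) (hE : TaskCENT) (p : ℕ) [hp : Fact p.Prime]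
    (F : Type) [Field F] [Finite F] (k : ℕ) (hF : 4 ≤ Nat.card F) (hk : Nat.card F = p ^ k)
    (hpk : p = 2 ∨ Odd k) : GoodKerP p (PSL2 F) := by
  have hft : Fintype F := Fintype.ofFinite F
  have hchar : CharP F p := charP_of_card_eq_prime_pow (f := k) (by
    rw [← Nat.card_eq_fintype_card, hk])
  have hfin : Finite (SpecialLinearGroup (Fin 2) F) := inferInstance
  have hfin2 : Finite (PSL2 F) := Finite.of_surjective _ QuotientGroup.mk_surjective
  exact hE p (PSL2 F) (psl_center F hF) (hC F p k hp.out hF hk hpk) (locP hA p F hF)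


end Pool.Agent.Y60.DC
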