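import Mathlib
import Pool.Agent.H84.L.S8_W200_IG_HF
import Pool.Agent.H84.L.S8_Y60_DC_StarReg
import Pool.Agent.H84.L.S8_Y60_DC_Su
import Pool.Agent.H84.L.S8_Y60_DC_Tens



/-!
# The double `A × Aᵒᵖ` of a finite ring; its unitary group is the group of units of `A`
-/

set_option autoImplicit false

open TensorProduct

namespace Pool.Agent.Y60.DC

/- The double `A × Aᵒᵖ` of a ring, with the involution `(a, b) ↦ (b, a)`. -/
def Dbl (A : Type) : Type := A × Aᵐᵒᵖ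

section dbl

variable {p : ℕ} [Fact p.Prime] {A : Type} [Ring A]

instance : Ring (Dbl A) := inferInstanceAs (Ring (A × Aᵐᵒᵖ))

instance [Finite A] : Finite (Dbl A) := by
  have h1 : Finite Aᵐᵒᵖ := Finite.of_equiv A MulOpposite.opEquiv
  exact inferInstanceAs (Finite (A × Aᵐᵒᵖ))

instance [Algebra (ZMod p) A] : Algebra (ZMod p) (Dbl A) :=
  inferInstanceAs (Algebra (ZMod p) (A × Aᵐᵒᵖ))

/- Pairs. -/
def dmk (a b : A) : Dbl A := (a, MulOpposite.op b)

/- First component. -/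
def d₁ (x : Dbl A) : A := x.1

/- Second component. -/
def d₂ (x : Dbl A) : A := x.2.unop

@[simp] theorem d₁_mk (a b : A) : d₁ (dmk a b) = a := rfl
@[simp] theorem d₂_mk (a b : A) : d₂ (dmk a b) = b := rfl
theorem dmk_eta (x : Dbl A) : dmk (d₁ x) (d₂ x) = x := rfl
theorem dbl_ext {x y : Dbl A} (h1 : d₁ x = d₁ y) (h2 : d₂ x = d₂ y) : x = y := by
  rw [← dmk_eta x, ← dmk_eta y, h1, h2]
theorem dmk_mul (a b c d : A) : dmk a b * dmk c d = dmk (a * c) (d * b) := rfl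
theorem dmk_add (a b c d : A) : dmk a b + dmk c d = dmk (a + c) (b + d) := rfl
@[simp] theorem d₁_mul (x y : Dbl A) : d₁ (x * y) = d₁ x * d₁ y := rfl
@[simp] theorem d₂_mul (x y : Dbl A) : d₂ (x * y) = d₂ y * d₂ x := rfl
@[simp] theorem d₁_add (x y : Dbl A) : d₁ (x + y) = d₁ x + d₁ y := rfl
@[simp] theorem d₂_add (x y : Dbl A) : d₂ (x + y) = d₂ x + d₂ y := rfl
@[simp] theorem d₁_one : d₁ (1 : Dbl A) = 1 := rfl
@[simp] theorem d₂_one : d₂ (1 : Dbl A) = 1 := rfl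
@[simp] theorem d₁_zero : d₁ (0 : Dbl A) = 0 := rfl
@[simp] theorem d₂_zero : d₂ (0 : Dbl A) = 0 := rfl

instance : StarRing (Dbl A) where
  star x := dmk (d₂ x) (d₁ x)
  star_involutive x := rfl
  star_mul x y := rfl
  star_add x y := rfl

theorem star_dmk (a b : A) : star (dmk a b) = dmk b a := rfl
@[simp] theorem d₁_star (x : Dbl A) : d₁ (star x) = d₂ x := rfl
@[simp] theorem d₂_star (x : Dbl A) : d₂ (star x) = d₁ x := rfl

theorem mem_unitary_dbl (x : Dbl A) : x ∈ unitary (Dbl A) ↔ d₁ x * d₂ x = 1 ∧ d₂ x * d₁ x = 1 := by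
  rw [Unitary.mem_iff]
  constructor
  · rintro ⟨h1, h2⟩
    have h3 := congrArg d₁ h1
    have h4 := congrArg d₁ h2
    exact ⟨h4, h3⟩
  · rintro ⟨h1, h2⟩
    exact ⟨dbl_ext h2 h2, dbl_ext h1 h1⟩

theorem dbl_half : (dmk 1 0 : Dbl A) + star (dmk 1 0 : Dbl A) = 1 := by
  rw [star_dmk, dmk_add, add_zero, zero_add]
  rfl

/- Connectedness. -/
theorem dbl_conn [Algebra (ZMod p) A] (b : Dbl A) (hb : b ∈ unitary (Dbl A)) : Conn p b := by
  obtain ⟨h1, h2⟩ := (mem_unitary_dbl b).1 hb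
  intro F _ _ _
  refine ⟨em (dmk 0 1), em (dmk 1 (d₁ b)), ?_, ?_⟩
  · rw [su_em, ← map_add, star_dmk, dmk_add, add_zero, zero_add]
    exact map_one _
  · rw [su_em, ← map_mul, ← map_add, ← map_mul, star_dmk]
    have h3 : (dmk 1 0 + b * dmk 0 1) * dmk 1 (d₁ b) = (1 : Dbl A) := by
      apply dbl_ext
      · simp
      · simp [h1]
    rw [h3, map_one]

end dbl

end Pool.Agent.Y60.DC
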