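import Mathlib
import Pool.Agent.H84.L.S8_H391R2_T4_Nod
import Pool.Agent.H84.L.S8_H391R2_T4_Red
import Pool.Agent.H84.L.S8_H391R2_T4_Sem
import Pool.Agent.H84.L.S8_TH444_TW_RS
import Pool.Agent.H84.L.S8_TH444_TW_Star
import Pool.Agent.H84.L.S8_W200_IG_Fam
import Pool.Agent.H84.L.S8_W200_IG_HF
import Pool.Agent.H84.L.S8_W200_IJ_CA
import Pool.Agent.H84.L.S8_W200_IJ_SA
import Pool.Agent.H84.L.S8_Y60_DC_Dbl
import Pool.Agent.H84.L.S8_Y60_DC_Def
import Pool.Agent.H84.L.S8_Y60_DC_Gen
import Pool.Agent.H84.L.S8_Y60_DC_StarReg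
import Pool.Agent.H84.L.S8_Y60_DC_Stm3
import Pool.Agent.H84.L.S8_Y60_DC_Stm4

namespace Pool.Agent.H391R2.T4
end Pool.Agent.H391R2.T4


/-!
# Lifting automorphisms of `SL_n(F)` to the double of the ring of matrices
-/

set_option autoImplicit false

namespace Pool.Agent.Y60.DC

open Pool.Agent.H391R2.T4 (RegSol)
open Matrix

section gen

variable {R : Type} [Ring R] [StarRing R]

theorem um_mem (ρ : R ≃+* R) (h : ∀ x, ρ (star x) = star (ρ x)) (x : unitary R) :
    ρ (x : R) ∈ unitary R := by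
  obtain ⟨h1, h2⟩ := Unitary.mem_iff.1 x.2
  rw [Unitary.mem_iff, ← h, ← map_mul, ← map_mul, h1, h2, map_one]
  exact ⟨rfl, rfl⟩

theorem symm_star (ρ : R ≃+* R) (h : ∀ x, ρ (star x) = star (ρ x)) (x : R) :
    ρ.symm (star x) = star (ρ.symm x) := by
  apply ρ.injective
  rw [RingEquiv.apply_symm_apply, h, RingEquiv.apply_symm_apply]

/- The automorphism of the unitary group. -/
def umE (ρ : R ≃+* R) (h : ∀ x, ρ (star x) = star (ρ x)) : MulAut (unitary R) where
  toFun x := ⟨ρ (x : R), um_mem ρ h x⟩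
  invFun x := ⟨ρ.symm (x : R), um_mem ρ.symm (symm_star ρ h) x⟩
  left_inv x := Subtype.ext (ρ.symm_apply_apply _)
  right_inv x := Subtype.ext (ρ.apply_symm_apply _)
  map_mul' x y := Subtype.ext (map_mul ρ (x : R) (y : R))

theorem coe_umE (ρ : R ≃+* R) (h : ∀ x, ρ (star x) = star (ρ x)) (x : unitary R) :
    ((umE ρ h x : unitary R) : R) = ρ (x : R) := rfl

end gen

section dmap

variable {A : Type} [Ring A]

/- The automorphism of the double given by an automorphism. -/
def dmap (α : A ≃+* A) : Dbl A ≃+* Dbl A where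
  toFun x := dmk (α (d₁ x)) (α (d₂ x))
  invFun x := dmk (α.symm (d₁ x)) (α.symm (d₂ x))
  left_inv x := dbl_ext (α.symm_apply_apply _) (α.symm_apply_apply _)
  right_inv x := dbl_ext (α.apply_symm_apply _) (α.apply_symm_apply _)
  map_mul' x y := dbl_ext (map_mul α (d₁ x) (d₁ y)) (map_mul α (d₂ y) (d₂ x))
  map_add' x y := dbl_ext (map_add α (d₁ x) (d₁ y)) (map_add α (d₂ x) (d₂ y))

theorem dmap_star (α : A ≃+* A) (x : Dbl A) : dmap α (star x) = star (dmap α x) := rfl

end dmap

section mat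

variable {F : Type} [Field F] {n : ℕ}

/- The automorphism `(a, b) ↦ (bᵀ, aᵀ)`. -/
def dtr : Dbl (Mn n F) ≃+* Dbl (Mn n F) where
  toFun x := dmk (d₂ x)ᵀ (d₁ x)ᵀ
  invFun x := dmk (d₂ x)ᵀ (d₁ x)ᵀ
  left_inv x := dbl_ext (transpose_transpose _) (transpose_transpose _)
  right_inv x := dbl_ext (transpose_transpose _) (transpose_transpose _)
  map_mul' x y := dbl_ext (transpose_mul (d₂ y) (d₂ x)) (transpose_mul (d₁ x) (d₁ y))
  map_add' x y := dbl_ext (transpose_add (d₂ x) (d₂ y)) (transpose_add (d₁ x) (d₁ y))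


variable (m : ℕ) (hm : ∀ c : F, c ≠ 0 → c ^ (n * m + 1) = 1)

theorem det_ne (x : unitary (Dbl (Mn n F))) : (d₁ (x : Dbl (Mn n F))).det ≠ 0 := by
  obtain ⟨h1, h2⟩ := (mem_unitary_dbl _).1 x.2
  intro h0
  have h3 := congrArg Matrix.det h1
  rw [Matrix.det_mul, h0, zero_mul, Matrix.det_one] at h3
  exact zero_ne_one h3

include hm in
theorem prj_det (x : unitary (Dbl (Mn n F))) :
    ((d₁ (x : Dbl (Mn n F))).det ^ m • d₁ (x : Dbl (Mn n F))).det = 1 := by
  rw [Matrix.det_smul, Fintype.card_fin, ← pow_mul, ← pow_succ, mul_comm m n]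
  exact hm _ (det_ne x)

/- The projection of the unitary group of the double to the special linear group. -/
def prj : unitary (Dbl (Mn n F)) →* SLn n F where
  toFun x := ⟨(d₁ (x : Dbl (Mn n F))).det ^ m • d₁ (x : Dbl (Mn n F)), prj_det m hm x⟩
  map_one' := Subtype.ext (by
    change (1 : Mn n F).det ^ m • (1 : Mn n F) = 1
    rw [Matrix.det_one, one_pow, one_smul])
  map_mul' x y := Subtype.ext (by
    change (d₁ (x : Dbl (Mn n F)) * d₁ (y : Dbl (Mn n F))).det ^ m •
      (d₁ (x : Dbl (Mn n F)) * d₁ (y : Dbl (Mn n F))) =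
      ((d₁ (x : Dbl (Mn n F))).det ^ m • d₁ (x : Dbl (Mn n F))) *
        ((d₁ (y : Dbl (Mn n F))).det ^ m • d₁ (y : Dbl (Mn n F)))
    rw [Matrix.det_mul, mul_pow, smul_mul_smul_comm])

theorem coe_prj (x : unitary (Dbl (Mn n F))) :
    ((prj m hm x : SLn n F) : Mn n F) =
      (d₁ (x : Dbl (Mn n F))).det ^ m • d₁ (x : Dbl (Mn n F)) := rfl

/- The element of the unitary group given by a unimodular matrix. -/
def ue (s : SLn n F) : unitary (Dbl (Mn n F)) :=
  ⟨dmk (s : Mn n F) ((s⁻¹ : SLn n F) : Mn n F), (mem_unitary_dbl _).2 ⟨by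
    rw [d₁_mk, d₂_mk, ← Matrix.SpecialLinearGroup.coe_mul, mul_inv_cancel]
    rfl, by
    rw [d₁_mk, d₂_mk, ← Matrix.SpecialLinearGroup.coe_mul, inv_mul_cancel]
    rfl⟩⟩

theorem prj_ue (s : SLn n F) : prj m hm (ue s) = s := by
  apply Subtype.ext
  change (s : Mn n F).det ^ m • (s : Mn n F) = s
  have h1 : (s : Mn n F).det = 1 := s.2
  rw [h1, one_pow, one_smul]

theorem prj_surj : Function.Surjective (prj (n := n) (F := F) m hm) := fun s =>
  ⟨ue s, prj_ue m hm s⟩

/- The lifts. -/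
def IsLiftN (f : MulAut (SLn n F)) (ρ : Dbl (Mn n F) ≃+* Dbl (Mn n F)) : Prop :=
  ∃ h : ∀ x, ρ (star x) = star (ρ x), ∀ x : unitary (Dbl (Mn n F)),
    f (prj m hm x) = prj m hm (umE ρ h x)

theorem single_mul_same' (i j k : Fin n) (a b : F) :
    (single i j a : Mn n F) * single j k b = single i k (a * b) :=
  Matrix.single_mul_single_same a i j k b

include hm in
/- The trivial lift. -/
theorem liftN_triv (hn : 3 ≤ n) (ψ : Dbl (Mn n F) ≃+* Dbl (Mn n F))
    (h : ∀ x, ψ (star x) = star (ψ x))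
    (hψ : ∀ x : unitary (Dbl (Mn n F)), prj m hm (umE ψ h x) = prj m hm x)
    (x : Dbl (Mn n F)) : ψ x = x := by
  classical
  -- transvections
  have key : ∀ (i j : Fin n) (t : F), i ≠ j →
      ψ (dmk (single i j t) (-(single i j t))) = dmk (single i j t) (-(single i j t)) := by
    intro i j t hij
    have hsq : (single i j t : Mn n F) * single i j t = 0 :=
      Matrix.single_mul_single_of_ne _ _ _ _ hij.symm _
    have e1 : (1 + single i j t : Mn n F) * (1 - single i j t) = 1 := by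
      rw [mul_sub, mul_one, add_mul, one_mul, hsq, add_zero, add_sub_cancel_right]
    have e2 : (1 - single i j t : Mn n F) * (1 + single i j t) = 1 := by
      rw [mul_add, mul_one, sub_mul, one_mul, hsq, sub_zero, sub_add_cancel]
    let X : unitary (Dbl (Mn n F)) :=
      ⟨dmk (1 + single i j t) (1 - single i j t), (mem_unitary_dbl _).2 ⟨e1, e2⟩⟩
    have hdet : (1 + single i j t : Mn n F).det = 1 := by
      have h1 := Matrix.det_transvection_of_ne i j hij t
      rw [← h1]
      congr 1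
    -- the image
    obtain ⟨a, ha⟩ : ∃ a : Mn n F, a = d₁ (ψ (X : Dbl (Mn n F))) := ⟨_, rfl⟩
    obtain ⟨b, hb⟩ : ∃ b : Mn n F, b = d₂ (ψ (X : Dbl (Mn n F))) := ⟨_, rfl⟩
    obtain ⟨h1, h2⟩ := (mem_unitary_dbl _).1 (um_mem ψ h X)
    rw [← ha, ← hb] at h1 h2
    have h3 : a.det ^ m • a = 1 + single i j t := by
      have h4 := congrArg (fun s : SLn n F => (s : Mn n F)) (hψ X)
      beta_reduce at h4
      rw [coe_prj, coe_prj, coe_umE, ← ha] at h4
      rw [h4]
      change (1 + single i j t : Mn n F).det ^ m • (1 + single i j t : Mn n F) = _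
      rw [hdet, one_pow, one_smul]
    have hdn : a.det ≠ 0 := by
      rw [ha]
      exact det_ne (umE ψ h X)
    obtain ⟨c, hc⟩ : ∃ c : F, c = (a.det ^ m)⁻¹ := ⟨_, rfl⟩
    have h5 : a = c • (1 + single i j t) := by
      rw [← h3, hc, smul_smul, inv_mul_cancel₀ (pow_ne_zero _ hdn), one_smul]
    -- squares
    have h6 : (a - 1) * (a - 1) = 0 := by
      have h7 : ((X : Dbl (Mn n F)) - 1) * ((X : Dbl (Mn n F)) - 1) = 0 := by
        have h8 : (X : Dbl (Mn n F)) - 1 = dmk (single i j t) (-(single i j t)) := by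
          rw [sub_eq_iff_eq_add]
          apply dbl_ext
          · change (1 + single i j t : Mn n F) = single i j t + 1
            rw [add_comm]
          · change (1 - single i j t : Mn n F) = -(single i j t) + 1
            rw [sub_eq_add_neg, add_comm]
        rw [h8, dmk_mul, hsq, neg_mul_neg, hsq]
        rfl
      have h9 := congrArg ψ h7
      rw [map_mul, map_sub, map_one, map_zero] at h9
      have h10 := congrArg d₁ h9
      have h11 : d₁ (ψ (X : Dbl (Mn n F)) - 1) = a - 1 := by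
        rw [ha]
        rfl
      rw [d₁_mul, h11] at h10
      exact h10
    have h12 : c = 1 := by
      have h13 := congrFun (congrFun h6 i) i
      rw [Matrix.mul_apply] at h13
      have h14 : ∀ k, (a - 1) i k * (a - 1) k i = if k = i then (c - 1) ^ 2 else 0 := by
        intro k
        rw [h5]
        by_cases hk : k = i
        · subst hk
          rw [if_pos rfl]
          simp [Matrix.single, hij, hij.symm]
          ring
        · rw [if_neg hk]
          have h15 : (c • (1 + single i j t : Mn n F) - 1) k i = 0 := by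
            simp [Matrix.single, hk, hij, hij.symm]
          rw [h15, mul_zero]
      simp only [h14, Finset.sum_ite_eq', Finset.mem_univ, if_true] at h13
      have h16 := pow_eq_zero_iff (two_ne_zero) |>.1 h13
      exact sub_eq_zero.1 h16
    have h17 : a = 1 + single i j t := by rw [h5, h12, one_smul]
    have h18 : b = 1 - single i j t := by
      calc b = (1 - single i j t) * (1 + single i j t) * b := by rw [e2, one_mul]
        _ = (1 - single i j t) * (a * b) := by rw [← h17, mul_assoc]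
        _ = 1 - single i j t := by rw [h1, mul_one]
    have h19 : ψ (X : Dbl (Mn n F)) = X := dbl_ext (by rw [← ha, h17]; rfl) (by rw [← hb, h18]; rfl)
    have h20 : dmk (single i j t : Mn n F) (-(single i j t)) = (X : Dbl (Mn n F)) - 1 := by
      symm
      rw [sub_eq_iff_eq_add]
      apply dbl_ext
      · change (1 + single i j t : Mn n F) = single i j t + 1
        rw [add_comm]
      · change (1 - single i j t : Mn n F) = -(single i j t) + 1
        rw [sub_eq_add_neg, add_comm]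
    rw [h20, map_sub, map_one, h19]
  have key2 : ∀ (i k : Fin n) (t : F), i ≠ k →
      ψ (dmk (single i k t) 0) = dmk (single i k t) 0 := by
    intro i k t hik
    obtain ⟨j, hj⟩ : ∃ j : Fin n, j ≠ i ∧ j ≠ k := by
      by_contra hcon
      push Not at hcon
      have h1 : (Finset.univ : Finset (Fin n)) ⊆ {i, k} := by
        intro j _
        rw [Finset.mem_insert, Finset.mem_singleton]
        by_cases hji : j = i
        · exact Or.inl hji
        · exact Or.inr (hcon j hji)
      have h2 := Finset.card_le_card h1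
      rw [Finset.card_univ, Fintype.card_fin] at h2
      have h3 := Finset.card_le_two (a := i) (b := k)
      omega
    have h1 : dmk (single i k t : Mn n F) 0 =
        dmk (single i j t) (-(single i j t)) * dmk (single j k 1) (-(single j k 1)) := by
      rw [dmk_mul, single_mul_same', mul_one, neg_mul_neg,
        Matrix.single_mul_single_of_ne _ _ _ _ hik.symm]
    rw [h1, map_mul, key i j t hj.1.symm, key j k 1 hj.2]
  have key3 : ∀ (i k : Fin n) (t : F), ψ (dmk (single i k t) 0) = dmk (single i k t) 0 := by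
    intro i k t
    by_cases hik : i = k
    · subst hik
      obtain ⟨j, hj⟩ : ∃ j : Fin n, j ≠ i := by
        have h1 : Nontrivial (Fin n) := Fin.nontrivial_iff_two_le.2 (by omega)
        exact exists_ne i
      have h1 : dmk (single i i t : Mn n F) 0 =
          dmk (single i j t) 0 * dmk (single j i 1) 0 := by
        rw [dmk_mul, single_mul_same', mul_one, mul_zero]
      rw [h1, map_mul, key2 i j t hj.symm, key2 j i 1 hj]
    · exact key2 i k t hik
  have key4 : ∀ a : Mn n F, ψ (dmk a 0) = dmk a 0 := by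
    intro a
    let g : Mn n F →+ Dbl (Mn n F) :=
      { toFun := fun a => dmk a 0, map_zero' := rfl, map_add' := fun a b => by
          rw [dmk_add, add_zero] }
    change ψ (g a) = g a
    rw [Matrix.matrix_eq_sum_single a]
    simp only [map_sum]
    exact Finset.sum_congr rfl fun i _ => Finset.sum_congr rfl fun k _ => key3 i k _
  have key5 : ∀ a : Mn n F, ψ (dmk 0 a) = dmk 0 a := by
    intro a
    have h1 : dmk (0 : Mn n F) a = star (dmk a 0) := rfl
    rw [h1, h, key4]
  have h1 : x = dmk (d₁ x) 0 + dmk 0 (d₂ x) := by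
    rw [dmk_add, add_zero, zero_add]
    rfl
  rw [h1, map_add, key4, key5]

variable {m hm}

theorem IsLiftN.unique (hn : 3 ≤ n) {f : MulAut (SLn n F)} {ρ ρ' : Dbl (Mn n F) ≃+* Dbl (Mn n F)}
    (h : IsLiftN m hm f ρ) (h' : IsLiftN m hm f ρ') : ρ = ρ' := by
  obtain ⟨h1, h2⟩ := h
  obtain ⟨h1', h2'⟩ := h'
  have h4 : ∀ x, (ρ'.trans ρ.symm) (star x) = star ((ρ'.trans ρ.symm) x) := by
    intro x
    rw [RingEquiv.trans_apply, RingEquiv.trans_apply, h1', symm_star ρ h1]
  have h5 := liftN_triv m hm hn (ρ'.trans ρ.symm) h4 (by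
    intro x
    apply f.injective
    rw [h2, h2']
    congr 1
    apply Subtype.ext
    rw [coe_umE, coe_umE, coe_umE, RingEquiv.trans_apply, RingEquiv.apply_symm_apply])
  apply RingEquiv.ext
  intro x
  have h6 := h5 x
  rw [RingEquiv.trans_apply] at h6
  conv_lhs => rw [← h6]
  rw [RingEquiv.apply_symm_apply]

theorem IsLiftN.one : IsLiftN m hm (1 : MulAut (SLn n F)) (1 : Dbl (Mn n F) ≃+* Dbl (Mn n F)) :=
  ⟨fun _ => rfl, fun _ => rfl⟩

theorem IsLiftN.mul {f f' : MulAut (SLn n F)} {ρ ρ' : Dbl (Mn n F) ≃+* Dbl (Mn n F)}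
    (h : IsLiftN m hm f ρ) (h' : IsLiftN m hm f' ρ') : IsLiftN m hm (f * f') (ρ * ρ') := by
  obtain ⟨h1, h2⟩ := h
  obtain ⟨h1', h2'⟩ := h'
  have h3 : ∀ x, (ρ * ρ') (star x) = star ((ρ * ρ') x) := by
    intro x
    change ρ (ρ' (star x)) = star (ρ (ρ' x))
    rw [h1', h1]
  refine ⟨h3, fun x => ?_⟩
  rw [MulAut.mul_apply, h2', h2]
  rfl

end mat

/- Every automorphism of `SL_n(F)` has a lift. -/
theorem exists_isliftN (hA : TaskAUTN) (F : Type) [Field F] [Finite F] (n : ℕ) (hn : 3 ≤ n)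
    (m : ℕ) (hm : ∀ c : F, c ≠ 0 → c ^ (n * m + 1) = 1)
    (f : MulAut (SLn n F)) : ∃ ρ : Dbl (Mn n F) ≃+* Dbl (Mn n F), IsLiftN m hm f ρ := by
  obtain ⟨g, φ, h⟩ := hA F n hn f
  have hg1 : g.1 * (g⁻¹).1 = 1 := Units.mul_inv g
  have hg2 : (g⁻¹).1 * g.1 = 1 := Units.inv_mul g
  let α : Mn n F ≃+* Mn n F :=
    { toFun := fun A => g.1 * A.map φ * (g⁻¹).1
      invFun := fun A => ((g⁻¹).1 * A * g.1).map φ.symm
      left_inv := fun A => by
        change ((g⁻¹).1 * (g.1 * A.map φ * (g⁻¹).1) * g.1).map φ.symm = A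
        have h1 : (g⁻¹).1 * (g.1 * A.map φ * (g⁻¹).1) * g.1 = A.map φ := by
          rw [mul_assoc, mul_assoc (g.1 * A.map φ), hg2, mul_one, ← mul_assoc, hg2, one_mul]
        rw [h1]
        ext i j
        simp
      right_inv := fun A => by
        change g.1 * (((g⁻¹).1 * A * g.1).map φ.symm).map φ * (g⁻¹).1 = A
        have h1 : (((g⁻¹).1 * A * g.1).map φ.symm).map φ = (g⁻¹).1 * A * g.1 := by
          ext i j
          simp only [Matrix.map_apply, RingEquiv.apply_symm_apply]
        rw [h1, mul_assoc, mul_assoc ((g⁻¹).1 * A), hg1, mul_one, ← mul_assoc, hg1, one_mul]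
      map_mul' := fun A B => by
        change g.1 * (A * B).map φ * (g⁻¹).1 =
          (g.1 * A.map φ * (g⁻¹).1) * (g.1 * B.map φ * (g⁻¹).1)
        have h1 : (A * B).map φ = A.map φ * B.map φ := Matrix.map_mul
        rw [h1]
        calc g.1 * (A.map φ * B.map φ) * (g⁻¹).1 = g.1 * A.map φ * (1 * B.map φ) * (g⁻¹).1 := by
              rw [one_mul, mul_assoc g.1 (A.map φ) (B.map φ)]
          _ = _ := by rw [← hg2]; simp only [mul_assoc]
      map_add' := fun A B => by
        change g.1 * (A + B).map φ * (g⁻¹).1 =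
          g.1 * A.map φ * (g⁻¹).1 + g.1 * B.map φ * (g⁻¹).1
        have h1 : (A + B).map φ = A.map φ + B.map φ := Matrix.map_add φ (map_add φ) A B
        rw [h1, mul_add, add_mul] }
  have hα : ∀ A, α A = g.1 * A.map φ * (g⁻¹).1 := fun _ => rfl
  have hdet : ∀ A : Mn n F, (α A).det = φ A.det := by
    intro A
    have h1 : (A.map φ).det = φ A.det := ((φ : F →+* F).map_det A).symm
    rw [hα, Matrix.det_mul, Matrix.det_mul, h1, mul_comm, ← mul_assoc, ← Matrix.det_mul, hg2,
      Matrix.det_one, one_mul]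
  have hsm : ∀ (r : F) (A : Mn n F), α (r • A) = φ r • α A := by
    intro r A
    have h1 : (r • A).map φ = φ r • A.map φ := by
      ext i j
      simp
    rw [hα, hα, h1, mul_smul_comm, smul_mul_assoc]
  rcases h with h | h
  · refine ⟨dmap α, dmap_star α, fun x => ?_⟩
    apply Subtype.ext
    have h1 : ((f (prj m hm x) : SLn n F) : Mn n F) = α ((prj m hm x : SLn n F) : Mn n F) := by
      rw [hα, ← h, mul_assoc, hg1, mul_one]
    have h2 : ((prj m hm (umE (dmap α) (dmap_star α) x) : SLn n F) : Mn n F) =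
        (α (d₁ (x : Dbl (Mn n F)))).det ^ m • α (d₁ (x : Dbl (Mn n F))) := rfl
    refine h1.trans (Eq.trans ?_ h2.symm)
    rw [coe_prj, hsm, hdet, map_pow]
  · have hst : ∀ x, (dtr.trans (dmap α)) (star x) = star ((dtr.trans (dmap α)) x) := fun x => rfl
    refine ⟨dtr.trans (dmap α), hst, fun x => ?_⟩
    apply Subtype.ext
    have h1 : ((f (prj m hm x) : SLn n F) : Mn n F) =
        α (((((prj m hm x)⁻¹ : SLn n F)) : Mn n F)ᵀ) := by
      rw [hα, ← h, mul_assoc, hg1, mul_one]
    have h2 : ((prj m hm (umE (dtr.trans (dmap α)) hst x) : SLn n F) : Mn n F) =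
        (α ((d₂ (x : Dbl (Mn n F)))ᵀ)).det ^ m • α ((d₂ (x : Dbl (Mn n F)))ᵀ) := rfl
    have h3 : (((prj m hm x)⁻¹ : SLn n F) : Mn n F) =
        (d₂ (x : Dbl (Mn n F))).det ^ m • d₂ (x : Dbl (Mn n F)) := by
      rw [← map_inv]
      rfl
    refine h1.trans (Eq.trans ?_ h2.symm)
    rw [h3, Matrix.transpose_smul, hsm, hdet, Matrix.det_transpose, map_pow]

theorem exists_m (F : Type) [Field F] [Finite F] (n : ℕ) (hc : Nat.Coprime n (Nat.card F - 1)) :
    ∃ m : ℕ, ∀ c : F, c ≠ 0 → c ^ (n * m + 1) = 1 := by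
  classical
  have hft : Fintype F := Fintype.ofFinite F
  have h2 : 1 < Nat.card F := Finite.one_lt_card
  have hne : NeZero (Nat.card F - 1) := ⟨by omega⟩
  let v : ZMod (Nat.card F - 1) := -(((ZMod.unitOfCoprime n hc)⁻¹ : (ZMod (Nat.card F - 1))ˣ) :
    ZMod (Nat.card F - 1))
  refine ⟨v.val, fun c hc0 => ?_⟩
  have h1 : ((n * v.val + 1 : ℕ) : ZMod (Nat.card F - 1)) = 0 := by
    push_cast
    rw [ZMod.natCast_zmod_val]
    have h3 : (n : ZMod (Nat.card F - 1)) * (((ZMod.unitOfCoprime n hc)⁻¹ :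
        (ZMod (Nat.card F - 1))ˣ) : ZMod (Nat.card F - 1)) = 1 := by
      have h4 := Units.mul_inv (ZMod.unitOfCoprime n hc)
      rwa [ZMod.coe_unitOfCoprime] at h4
    change (n : ZMod (Nat.card F - 1)) * (-_) + 1 = 0
    rw [mul_neg, h3, neg_add_cancel]
  obtain ⟨k, hk⟩ := (ZMod.natCast_eq_zero_iff _ _).1 h1
  rw [hk, pow_mul, Nat.card_eq_fintype_card, FiniteField.pow_card_sub_one_eq_one c hc0, one_pow]

/- **Split embedding problems with kernel `SL_n(F)`.** -/
theorem locPN (hA : TaskAUTN) (p : ℕ) [Fact p.Prime] (F : Type) [Field F] [Finite F] [CharP F p]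
    (n : ℕ) (hn : 3 ≤ n) (hc : Nat.Coprime n (Nat.card F - 1)) : LocP p (SLn n F) := by
  intro K L _ _ _ _ _ _ _ β
  let _ : Algebra (ZMod p) F := ZMod.algebra F p
  obtain ⟨m, hm⟩ := exists_m F n hc
  choose lf hlf using exists_isliftN hA F n hn m hm
  let ρ : (L ≃ₐ[K] L) →* (Dbl (Mn n F) ≃+* Dbl (Mn n F)) :=
    { toFun := fun γ => lf (β γ)
      map_one' := by
        rw [map_one]
        exact (hlf 1).unique hn IsLiftN.one
      map_mul' := fun γ δ => by
        rw [map_mul]
        exact (hlf _).unique hn ((hlf _).mul (hlf _)) }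
  have hρ : ∀ γ x, ρ γ (star x) = star (ρ γ x) := fun γ => (hlf (β γ)).1
  let φ : (L ≃ₐ[K] L) →* MulAut (unitary (Dbl (Mn n F))) :=
    { toFun := fun γ => umE (ρ γ) (hρ γ)
      map_one' := by
        apply MulEquiv.ext
        intro a
        apply Subtype.ext
        change ρ 1 (a : Dbl (Mn n F)) = a
        rw [map_one]
        rfl
      map_mul' := fun γ δ => by
        apply MulEquiv.ext
        intro a
        apply Subtype.ext
        change ρ (γ * δ) (a : Dbl (Mn n F)) = ρ γ (ρ δ (a : Dbl (Mn n F)))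
        rw [map_mul]
        rfl }
  have h1 := star_reg p (Dbl (Mn n F)) ⟨dmk 1 0, dbl_half⟩ (fun b hb => dbl_conn b hb) K L φ ρ hρ
    fun γ n => rfl
  let q : unitary (Dbl (Mn n F)) ⋊[φ] (L ≃ₐ[K] L) →* SLn n F ⋊[β] (L ≃ₐ[K] L) :=
    SemidirectProduct.map (prj m hm) (MonoidHom.id _) (by
      intro γ
      apply MonoidHom.ext
      intro a
      exact ((hlf (β γ)).2 a).symm)
  have hq : Function.Surjective q := by
    rintro ⟨s, γ⟩
    obtain ⟨a, rfl⟩ := prj_surj m hm s
    exact ⟨⟨a, γ⟩, rfl⟩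
  refine Pool.Agent.W200.IJ.regSol_quot (L' := L) SemidirectProduct.rightHom
    SemidirectProduct.rightHom q hq ?_ ?_ h1
  · intro g
    rw [Pool.Agent.TH444.TW.restrictNormal_self]
    rfl
  · intro σ hσ
    rw [Pool.Agent.TH444.TW.restrictNormal_self] at hσ
    exact ⟨1, map_one _, by rw [map_one, hσ]⟩

end Pool.Agent.Y60.DC
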