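import Mathlib
import Pool.Agent.H84.L.S8_H391R2_T4_Nod
import Pool.Agent.H84.L.S8_H391R2_T4_Red
import Pool.Agent.H84.L.S8_H391R2_T4_Sem
import Pool.Agent.H84.L.S8_TH59_WX_PA
import Pool.Agent.H84.L.S8_W200_IG_Fam
import Pool.Agent.H84.L.S8_W200_IJ_SA
import Pool.Agent.H84.L.S8_Y60_DC_Def
import Pool.Agent.H84.L.S8_Y60_DC_Good
import Pool.Agent.H84.L.S8_Y60_DC_LiftN
import Pool.Agent.H84.L.S8_Y60_DC_Stm3
import Pool.Agent.H84.L.S8_Y60_DC_Stm4

namespace Pool.Agent.H391R2.T4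
end Pool.Agent.H391R2.T4
namespace Pool.Agent.TH59.WX
end Pool.Agent.TH59.WX


/-!
# Kernels with composition factors `Z/p`, `PSL_2(F)` and `PSL_n(F)`
-/

set_option autoImplicit false

namespace Pool.Agent.Y60.DC

open Pool.Agent.H391R2.T4 (RegSol)
open Pool.Agent.TH59.WX (Indec)
open Matrix

/- The group `PSL_n(F)`. -/
abbrev PSLn (n : ℕ) (F : Type) [Field F] : Type := Matrix.ProjectiveSpecialLinearGroup (Fin n) F

section cen

variable {F : Type} [Field F] [Finite F] {n : ℕ}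

theorem sln_center (hn : 3 ≤ n) (hc : Nat.Coprime n (Nat.card F - 1)) :
    Subgroup.center (SLn n F) = ⊥ := by
  classical
  have hft : Fintype F := Fintype.ofFinite F
  rw [eq_bot_iff]
  intro A hA
  obtain ⟨r, hr, hrA⟩ := Matrix.SpecialLinearGroup.mem_center_iff.1 hA
  rw [Fintype.card_fin] at hr
  have hr0 : r ≠ 0 := by
    rintro rfl
    rw [zero_pow (by omega)] at hr
    exact zero_ne_one hr
  have hr1 : r ^ (Nat.card F - 1) = 1 := by
    rw [Nat.card_eq_fintype_card]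
    exact FiniteField.pow_card_sub_one_eq_one r hr0
  have h1 : r = 1 := by
    have h2 := orderOf_dvd_of_pow_eq_one hr
    have h3 := orderOf_dvd_of_pow_eq_one hr1
    have h4 : orderOf r ∣ 1 := by
      rw [← hc]
      exact Nat.dvd_gcd h2 h3
    exact orderOf_eq_one_iff.1 (Nat.dvd_one.1 h4)
  rw [Subgroup.mem_bot]
  apply Subtype.ext
  rw [← hrA, h1, map_one]
  rfl

/- `PSL_n(F)` is `SL_n(F)`. -/
noncomputable def psln_equiv (hn : 3 ≤ n) (hc : Nat.Coprime n (Nat.card F - 1)) :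
    SLn n F ≃* PSLn n F :=
  MulEquiv.ofBijective (QuotientGroup.mk' (Subgroup.center (SLn n F))) ⟨by
    rw [← MonoidHom.ker_eq_bot_iff, QuotientGroup.ker_mk', sln_center hn hc],
    QuotientGroup.mk'_surjective _⟩

end cen

/- **All embedding problems with kernel `SL_n(F)`.** -/
theorem good_sln (hA : TaskAUTN) (hC : TaskCOMPLN) (hE : TaskCENT) (p : ℕ) [hp : Fact p.Prime]
    (F : Type) [Field F] [Finite F] [CharP F p] (n : ℕ) (hn : 3 ≤ n)
    (hc : Nat.Coprime n (Nat.card F - 1)) : GoodKerP p (SLn n F) := by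
  have hfin : Finite (SLn n F) := inferInstance
  exact hE p (SLn n F) (sln_center hn hc) (hC F n hn hc) (locPN hA p F n hn hc)

/- The composition factors which are allowed: groups of order `p`, the simple groups `PSL_2(F)`,
`F` a field with `p ^ k ≥ 4` elements, `k` odd if `p ≠ 2`, and the simple groups `PSL_n(F)`, `n ≥ 3`
prime to `|F| - 1`, `F` a finite field of characteristic `p`. -/
def FacN (p : ℕ) (T : Type) [Group T] : Prop :=
  Nat.card T = p ∨
  (∃ (F : Type) (_ : Field F) (k : ℕ), 4 ≤ Nat.card F ∧ Nat.card F = p ^ k ∧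
    (p = 2 ∨ Odd k) ∧ Nonempty (T ≃* PSL2 F)) ∨
  ∃ (F : Type) (_ : Field F) (_ : Finite F) (_ : CharP F p) (n : ℕ), 3 ≤ n ∧
    Nat.Coprime n (Nat.card F - 1) ∧ Nonempty (T ≃* PSLn n F)

theorem FacN.iso (p : ℕ) (T T' : Type) [Group T] [Group T'] (e : Nonempty (T ≃* T'))
    (h : FacN p T) : FacN p T' := by
  obtain ⟨e⟩ := e
  rcases h with h | ⟨F, iF, k, h1, h2, h3, ⟨f⟩⟩ | ⟨F, iF, jF, cF, n, h1, h2, ⟨f⟩⟩
  · exact Or.inl (by rw [← h]; exact (Nat.card_congr e.toEquiv).symm)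
  · exact Or.inr (Or.inl ⟨F, iF, k, h1, h2, h3, ⟨e.symm.trans f⟩⟩)
  · exact Or.inr (Or.inr ⟨F, iF, jF, cF, n, h1, h2, ⟨e.symm.trans f⟩⟩)

/- Simplicity of `PSL_n(F)`. -/
def SimpleN : Prop := ∀ (F : Type) [Field F] [Finite F] (n : ℕ), 3 ≤ n → IsSimpleGroup (PSLn n F)

theorem FacN.simple (hS : SimpleN) (p : ℕ) [hp : Fact p.Prime] (T : Type) [Group T]
    (h : FacN p T) : IsSimpleGroup T := by
  rcases h with h | ⟨F, iF, k, h1, h2, h3, ⟨f⟩⟩ | ⟨F, iF, jF, cF, n, h1, h2, ⟨f⟩⟩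
  · exact isSimpleGroup_of_prime_card h
  · have hs : IsSimpleGroup (PSL2 F) := Matrix.ProjectiveSpecialLinearGroup.rank_two_simple h1
    exact f.isSimpleGroup
  · have hs : IsSimpleGroup (PSLn n F) := hS F n h1
    exact f.isSimpleGroup


end Pool.Agent.Y60.DC
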