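import Mathlib
import Pool.Agent.H84.L.S8_H391R2_T4_Sem
import Pool.Agent.H84.L.S8_W200_IJ_SA
import Pool.Agent.H84.L.S8_Y60_DC_Conn
import Pool.Agent.H84.L.S8_Y60_DC_Conn2
import Pool.Agent.H84.L.S8_Y60_DC_StmSp
import Pool.Agent.H84.L.S8_Y60_DC_Su
import Pool.Agent.H84.L.S8_Y60_DC_Tens



/-!
# The ring of matrices with the symplectic involution
-/

set_option autoImplicit false

open TensorProduct Matrix

namespace Pool.Agent.Y60.DC

section sad

variable {n : ℕ} {F : Type} [Field F]

theorem sad_mul (A B : M₀ n F) : sad (A * B) = sad B * sad A := by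
  unfold sad
  rw [Matrix.transpose_mul]
  calc -(Matrix.J (Fin n) F * (Bᵀ * Aᵀ) * Matrix.J (Fin n) F) =
      Matrix.J (Fin n) F * Bᵀ * (-1) * Aᵀ * Matrix.J (Fin n) F := by
        simp only [mul_assoc, mul_neg, neg_mul, mul_one, one_mul]
    _ = Matrix.J (Fin n) F * Bᵀ * (Matrix.J (Fin n) F * Matrix.J (Fin n) F) * Aᵀ *
        Matrix.J (Fin n) F := by rw [Matrix.J_squared]
    _ = _ := by simp only [mul_assoc, mul_neg, neg_mul, neg_neg]

theorem sad_add (A B : M₀ n F) : sad (A + B) = sad A + sad B := by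
  unfold sad
  rw [Matrix.transpose_add, mul_add, add_mul, neg_add]

theorem sad_sad (A : M₀ n F) : sad (sad A) = A := by
  unfold sad
  rw [Matrix.transpose_neg, Matrix.transpose_mul, Matrix.transpose_mul, Matrix.transpose_transpose,
    Matrix.J_transpose]
  calc -(Matrix.J (Fin n) F * -(-Matrix.J (Fin n) F * (A * -Matrix.J (Fin n) F)) *
        Matrix.J (Fin n) F) =
      (Matrix.J (Fin n) F * Matrix.J (Fin n) F) * A *
        (Matrix.J (Fin n) F * Matrix.J (Fin n) F) := by
        simp only [mul_assoc, mul_neg, neg_mul, neg_neg]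
    _ = A := by rw [Matrix.J_squared]; simp

theorem sad_half : (fromBlocks 1 0 0 0 : M₀ n F) + sad (fromBlocks 1 0 0 0) = 1 := by
  unfold sad Matrix.J
  rw [Matrix.fromBlocks_transpose, Matrix.fromBlocks_multiply, Matrix.fromBlocks_multiply,
    Matrix.fromBlocks_neg, Matrix.fromBlocks_add, ← Matrix.fromBlocks_one]
  simp

theorem mem_sp_iff (A : M₀ n F) : A ∈ SpM n F ↔ A * sad A = 1 := by
  rw [SymplecticGroup.mem_iff]
  unfold sad
  constructor
  · intro h
    rw [mul_neg, ← mul_assoc, ← mul_assoc, h, Matrix.J_squared, neg_neg]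
  · intro h
    have h1 : A * Matrix.J (Fin n) F * Aᵀ * Matrix.J (Fin n) F = -1 := by
      rw [← h]
      simp only [mul_neg, neg_neg, mul_assoc]
    calc A * Matrix.J (Fin n) F * Aᵀ =
        -(A * Matrix.J (Fin n) F * Aᵀ * (Matrix.J (Fin n) F * Matrix.J (Fin n) F)) := by
          rw [Matrix.J_squared, mul_neg, mul_one, neg_neg]
      _ = -(A * Matrix.J (Fin n) F * Aᵀ * Matrix.J (Fin n) F * Matrix.J (Fin n) F) := by
          rw [← mul_assoc (A * Matrix.J (Fin n) F * Aᵀ)]
      _ = Matrix.J (Fin n) F := by rw [h1, neg_mul, one_mul, neg_neg]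

end sad

/- The ring of `2n × 2n` matrices over `F`, with the symplectic involution `A ↦ J⁻¹ Aᵀ J`. -/
def SpR (n : ℕ) (F : Type) : Type := M₀ n F

section ring

variable {n : ℕ} {F : Type} [Field F] {p : ℕ} [Fact p.Prime]

instance : Ring (SpR n F) := inferInstanceAs (Ring (M₀ n F))

instance [Finite F] : Finite (SpR n F) := inferInstanceAs (Finite (M₀ n F))

instance [Algebra (ZMod p) F] : Algebra (ZMod p) (SpR n F) :=
  inferInstanceAs (Algebra (ZMod p) (M₀ n F))

instance : StarRing (SpR n F) where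
  star := sad (n := n) (F := F)
  star_involutive := sad_sad (n := n) (F := F)
  star_mul := sad_mul (n := n) (F := F)
  star_add := sad_add (n := n) (F := F)

/- From matrices to `SpR n F`. -/
def toR : M₀ n F ≃+* SpR n F := RingEquiv.refl _

theorem star_toR (A : M₀ n F) : star (toR A) = toR (sad A) := rfl

theorem spR_half : ∃ z : SpR n F, z + star z = 1 := ⟨toR (fromBlocks 1 0 0 0), by
  rw [star_toR, ← map_add, sad_half, map_one]⟩

theorem toR_mem (A : M₀ n F) : toR A ∈ unitary (SpR n F) ↔ A ∈ SpM n F := by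
  rw [Unitary.mem_iff, mem_sp_iff, star_toR, ← map_mul, ← map_mul]
  constructor
  · rintro ⟨-, h⟩
    exact toR.injective (by rw [h, map_one])
  · intro h
    have h2 : sad A * A = 1 := mul_eq_one_comm.1 h
    rw [h, h2, map_one]
    exact ⟨rfl, rfl⟩

variable [Finite F] [Algebra (ZMod p) F]

/- All symplectic matrices are connected to `1`. -/
theorem sp_conn (hE : TaskSEQV) (hG : TaskSGEN) (hT : TaskSTRV) (A : M₀ n F) (hA : A ∈ SpM n F) :
    ConnSome p (toR A) := by
  obtain ⟨hB, ⟨e, he⟩, -, -, -⟩ := hE n F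
  have key : ∀ t ∈ Subgroup.closure {t : SpV (spB n F) | ∃ v a, IsTv (spB n F) v a t},
      ConnSome p (toR ((e.symm t : SpM n F) : M₀ n F)) := by
    intro t ht
    induction ht using Subgroup.closure_induction with
    | mem t ht =>
      obtain ⟨v, a, hva⟩ := ht
      obtain ⟨z, y, hz, hy⟩ := hT n F ((e.symm t : SpM n F) : M₀ n F) v a (fun x => by
        rw [← he, e.apply_symm_apply, hva])
      have h1 : (em (toR z) : ZMod p ⊗[ZMod p] SpR n F) + su (em (toR z)) = 1 := by
        rw [su_em, ← map_add, star_toR, ← map_add, hz, map_one, map_one]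
      have h2 : su (em (toR z)) + em (toR ((e.symm t : SpM n F) : M₀ n F)) * em (toR z) =
          (em (toR (sad z + ((e.symm t : SpM n F) : M₀ n F) * z)) :
            ZMod p ⊗[ZMod p] SpR n F) := by
        rw [su_em, star_toR, ← map_mul, ← map_mul, ← map_add, ← map_add]
      refine ⟨ZMod p, inferInstance, inferInstance, em (toR z), em (toR y), h1, ?_, ?_⟩
      · rw [h2, ← map_mul, ← map_mul, hy, map_one, map_one]
      · rw [h2, ← map_mul, ← map_mul, mul_eq_one_comm.1 hy, map_one, map_one]
    | one =>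
      rw [map_one]
      rcases ConnSome.one (p := p) (R := SpR n F) with h | h
      · exact h
      · exact absurd spR_half h
    | mul t t' _ _ h h' =>
      have h1 := ConnSome.mul spR_half ((toR_mem _).2 (e.symm t).2) ((toR_mem _).2 (e.symm t').2)
        h h'
      rw [← map_mul] at h1
      rw [map_mul]
      exact h1
    | inv t _ h =>
      have h1 := ConnSome.star ((toR_mem _).2 (e.symm t).2) h
      have h2 : sad ((e.symm t : SpM n F) : M₀ n F) = (((e.symm t)⁻¹ : SpM n F) : M₀ n F) := by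
        have h3 : ((e.symm t : SpM n F) : M₀ n F) * sad ((e.symm t : SpM n F) : M₀ n F) = 1 :=
          (mem_sp_iff _).1 (e.symm t).2
        have h4 : (((e.symm t)⁻¹ : SpM n F) : M₀ n F) * ((e.symm t : SpM n F) : M₀ n F) = 1 :=
          congrArg Subtype.val (inv_mul_cancel (e.symm t))
        calc sad ((e.symm t : SpM n F) : M₀ n F) =
            ((((e.symm t)⁻¹ : SpM n F) : M₀ n F) * ((e.symm t : SpM n F) : M₀ n F)) *
              sad ((e.symm t : SpM n F) : M₀ n F) := by rw [h4, one_mul]
          _ = _ := by rw [mul_assoc, h3, mul_one]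
      rw [star_toR, h2] at h1
      rw [map_inv]
      exact h1
  have h5 := key (e ⟨A, hA⟩) (by rw [hG F (V₀ n F) (spB n F) hB]; exact Subgroup.mem_top _)
  rwa [e.symm_apply_apply] at h5

end ring

end Pool.Agent.Y60.DC
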