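import Mathlib
import Pool.Agent.H84.L.S8_H391R2_T4_Red
import Pool.Agent.H84.L.S8_TH15_IGP_TwB
import Pool.Agent.H84.L.S8_TH444_TW_RS
import Pool.Agent.H84.L.S8_TH59_WX_PA
import Pool.Agent.H84.L.S8_W200_IG_HF
import Pool.Agent.H84.L.S8_Y60_DC_Good
import Pool.Agent.H84.L.S8_Y60_DC_RecN
import Pool.Agent.H84.L.S8_Y60_DC_SpGrp
import Pool.Agent.H84.L.S8_Y60_DC_SpLoc
import Pool.Agent.H84.L.S8_Y60_DC_SpRing
import Pool.Agent.H84.L.S8_Y60_DC_Stm3
import Pool.Agent.H84.L.S8_Y60_DC_StmSp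

namespace Pool.Agent.H391R2.T4
end Pool.Agent.H391R2.T4
namespace Pool.Agent.TH59.WX
end Pool.Agent.TH59.WX


/-!
# Kernels with composition factors `Z/p`, `PSL_2(F)`, `PSL_n(F)` and `PSp_2n(F)`
-/

set_option autoImplicit false

namespace Pool.Agent.Y60.DC

open Pool.Agent.H391R2.T4 (RegSol)
open Pool.Agent.TH59.WX (Indec)
open Matrix

/- The lifting property of all automorphisms, in the form used below. -/
def SpLifts : Prop :=
  ∀ (n : ℕ) (F : Type) [Field F] [Finite F], SpCond n F → ∀ (G : Type) [Group G]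
    (π : SpM n F →* G), Function.Surjective π → KerPM π → ∀ (e : SpM n F ≃* SpV (spB n F)),
    (∀ (A : SpM n F) (x : V₀ n F), (e A).1 x = (A : M₀ n F) *ᵥ x) → ∀ f : MulAut G,
    SAut (spB n F) (π.comp e.symm.toMonoidHom) f ∧ ∃ ρ, IsLiftS π f ρ

theorem SpCond.le {n : ℕ} {F : Type} [Field F] (h : SpCond n F) : 1 ≤ n := by
  rcases h with h | h
  · omega
  · omega

/- The groups `PSp_2n(F)` are simple. -/
theorem psp_simple (hE : TaskSEQV) (hS : TaskSSIMPLE) {n : ℕ} {F : Type} [Field F] [Finite F]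
    (hn : SpCond n F) : IsSimpleGroup (PSpM n F) := by
  obtain ⟨hB, ⟨e, he⟩, -, -, -⟩ := hE n F
  have hd : Module.finrank F (V₀ n F) = n + n := by
    rw [Module.finrank_fintype_fun_eq_card]
    simp
  have hd2 : (2 : F) ≠ 0 ∧ 4 ≤ Module.finrank F (V₀ n F) ∨ 6 ≤ Module.finrank F (V₀ n F) := by
    rcases hn with h | h
    · exact Or.inl ⟨h.1, by omega⟩
    · exact Or.inr (by omega)
  have hpm : ∀ s : SpM n F, ((∀ x, (e s).1 x = x) ∨ ∀ x, (e s).1 x = -x) →
      (s : M₀ n F) = 1 ∨ (s : M₀ n F) = -1 := by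
    intro s h
    rcases h with h | h
    · left
      apply Matrix.ext_of_mulVec_single
      intro i
      rw [← he, h, Matrix.one_mulVec]
    · right
      apply Matrix.ext_of_mulVec_single
      intro i
      rw [← he, h, Matrix.neg_mulVec, Matrix.one_mulVec]
  have hnt : Nontrivial (PSpM n F) := by
    let i₀ : Fin n := ⟨0, hn.le⟩
    let T : M₀ n F := fromBlocks 1 0 (Matrix.diagonal fun _ => 1) 1
    have hT : T ∈ SpM n F := by
      rw [mem_sp_iff]
      unfold sad Matrix.J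
      simp [T, Matrix.fromBlocks_multiply, Matrix.fromBlocks_transpose, Matrix.fromBlocks_neg,
        ← Matrix.fromBlocks_one]
    refine ⟨QuotientGroup.mk ⟨T, hT⟩, 1, fun h => ?_⟩
    have h1 : (⟨T, hT⟩ : SpM n F) ∈ Subgroup.center (SpM n F) := (QuotientGroup.eq_one_iff _).1 h
    have h2 := Subgroup.mem_center_iff.1 h1 ⟨Matrix.J (Fin n) F, SymplecticGroup.J_mem _ _⟩
    have h3 : Matrix.J (Fin n) F * T = T * Matrix.J (Fin n) F := congrArg Subtype.val h2
    have h4 := congrFun (congrFun h3 (Sum.inl i₀)) (Sum.inl i₀)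
    unfold Matrix.J at h4
    simp [T, Matrix.fromBlocks_multiply] at h4
  refine ⟨fun N hN => ?_⟩
  let q : SpM n F →* PSpM n F := QuotientGroup.mk' (Subgroup.center (SpM n F))
  let N' : Subgroup (SpV (spB n F)) := (N.comap q).map e.toMonoidHom
  have hN' : N'.Normal := (hN.comap q).map e.toMonoidHom e.surjective
  rcases hS F (V₀ n F) (spB n F) hB hd2 N' hN' with h | h
  · left
    rw [eq_bot_iff]
    intro x hx
    obtain ⟨s, rfl⟩ := QuotientGroup.mk_surjective x
    have h1 := hpm s (h (e s) ⟨s, hx, rfl⟩)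
    rw [Subgroup.mem_bot, QuotientGroup.eq_one_iff]
    exact pm_center s h1
  · right
    rw [eq_top_iff]
    intro x _
    obtain ⟨s, rfl⟩ := QuotientGroup.mk_surjective x
    have h1 : e s ∈ N' := by
      rw [h]
      exact Subgroup.mem_top _
    obtain ⟨t, ht, hts⟩ := h1
    have h2 : t = s := e.injective hts
    rw [← h2]
    exact ht

/- **All embedding problems with kernel `PSp_2n(F)`.** -/
theorem good_psp (hE : TaskSEQV) (hG : TaskSGEN) (hT : TaskSTRV) (hU : TaskSUNIQ)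
    (hCen : TaskSCEN) (hL : SpLifts) (hC : TaskSCOMPL) (hCE : TaskCENT) (p : ℕ)
    [hp : Fact p.Prime] (F : Type) [Field F] [Finite F] (n k : ℕ) (hn : SpCond n F)
    (hk : Nat.card F = p ^ k) (hpk : p = 2 ∨ Odd k) : GoodKerP p (PSpM n F) := by
  have hft : Fintype F := Fintype.ofFinite F
  have hchar : CharP F p := charP_of_card_eq_prime_pow (f := k) (by
    rw [← Nat.card_eq_fintype_card, hk])
  obtain ⟨e, he⟩ := (hE n F).2.1
  have hfin : Finite (SpM n F) := inferInstance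
  have hfin2 : Finite (PSpM n F) := Finite.of_surjective _ QuotientGroup.mk_surjective
  let π : SpM n F →* PSpM n F := QuotientGroup.mk' (Subgroup.center (SpM n F))
  have hπ : Function.Surjective π := QuotientGroup.mk'_surjective _
  have hkπ : KerPM π := psp_ker hE hCen
  refine hCE p (PSpM n F) (psp_center hE hCen) ?_ ?_
  · exact hC n F p k hn.le hp.out hk hpk (PSpM n F) (π.comp e.symm.toMonoidHom)
      (isQuo_of_kerPM π hπ hkπ e he) fun f => (hL n F hn _ π hπ hkπ e he f).1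
  · exact locSp hE hG hT hU p F n hn.le (PSpM n F) π hπ hkπ
      fun f => (hL n F hn _ π hπ hkπ e he f).2

/- The composition factors which are allowed: groups of order `p`, the simple groups `PSL_2(F)`,
`F` a field with `p ^ k ≥ 4` elements, `k` odd if `p ≠ 2`, the simple groups `PSL_n(F)`, `n ≥ 3`
prime to `|F| - 1`, `F` a finite field of characteristic `p`, and the simple groups `PSp_2n(F)`,
`F` a field with `p ^ k` elements, where `n ≥ 2` and `k` is odd if `p ≠ 2`, and `n ≥ 3` if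
`p = 2`. -/
def FacS (p : ℕ) (T : Type) [Group T] : Prop :=
  FacN p T ∨ ∃ (F : Type) (_ : Field F) (_ : Finite F) (n k : ℕ), Nat.card F = p ^ k ∧
    ((p ≠ 2 ∧ 2 ≤ n ∧ Odd k) ∨ (p = 2 ∧ 3 ≤ n)) ∧ Nonempty (T ≃* PSpM n F)

theorem two_ne {p : ℕ} [hp : Fact p.Prime] {F : Type} [Field F] [Finite F] {k : ℕ}
    (hk : Nat.card F = p ^ k) (h2 : p ≠ 2) : (2 : F) ≠ 0 := by
  have hft : Fintype F := Fintype.ofFinite F
  have hchar : CharP F p := charP_of_card_eq_prime_pow (f := k) (by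
    rw [← Nat.card_eq_fintype_card, hk])
  intro h
  have h3 : ((2 : ℕ) : F) = 0 := by exact_mod_cast h
  rw [CharP.cast_eq_zero_iff F p] at h3
  exact h2 ((Nat.prime_dvd_prime_iff_eq hp.out Nat.prime_two).1 h3)

theorem facS_cond {p : ℕ} [hp : Fact p.Prime] {F : Type} [Field F] [Finite F] {n k : ℕ}
    (hk : Nat.card F = p ^ k) (h : (p ≠ 2 ∧ 2 ≤ n ∧ Odd k) ∨ (p = 2 ∧ 3 ≤ n)) :
    SpCond n F ∧ (p = 2 ∨ Odd k) := by
  rcases h with ⟨h1, h2, h3⟩ | ⟨h1, h2⟩
  · exact ⟨Or.inl ⟨two_ne hk h1, h2⟩, Or.inr h3⟩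
  · exact ⟨Or.inr h2, Or.inl h1⟩

theorem FacS.iso (p : ℕ) (T T' : Type) [Group T] [Group T'] (e : Nonempty (T ≃* T'))
    (h : FacS p T) : FacS p T' := by
  rcases h with h | ⟨F, iF, jF, n, k, h1, h2, ⟨f⟩⟩
  · exact Or.inl (FacN.iso p T T' e h)
  · obtain ⟨e⟩ := e
    exact Or.inr ⟨F, iF, jF, n, k, h1, h2, ⟨e.symm.trans f⟩⟩

theorem FacS.simple (hS : SimpleN) (hE : TaskSEQV) (hSS : TaskSSIMPLE) (p : ℕ)
    [hp : Fact p.Prime] (T : Type) [Group T] (h : FacS p T) : IsSimpleGroup T := by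
  rcases h with h | ⟨F, iF, jF, n, k, h1, h2, ⟨f⟩⟩
  · exact FacN.simple hS p T h
  · have hs : IsSimpleGroup (PSpM n F) := psp_simple hE hSS (facS_cond h1 h2).1
    exact f.isSimpleGroup


end Pool.Agent.Y60.DC
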