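import Mathlib
import Pool.Agent.H84.L.S8_Y60_DC_StmSp

namespace Pool.Agent.Y60.DC
end Pool.Agent.Y60.DC


set_option linter.style.haveILetI false

/-!
# SP-COMPL: a complement of the inner automorphisms of the (projective) symplectic group
-/

set_option autoImplicit false

namespace Pool.Agent.Y170.DSP

open Pool.Agent.Y60.DC

section abs

variable {F V : Type} [Field F] [AddCommGroup V] [Module F V]

/- Semilinear similitudes. -/
def Sm (B : V →ₗ[F] V →ₗ[F] F) (φ : F ≃+* F) (g : V ≃+ V) (c : F) : Prop :=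
  c ≠ 0 ∧ (∀ (a : F) (v : V), g (a • v) = φ a • g v) ∧ ∀ v w, B (g v) (g w) = c * φ (B v w)

/- The automorphism `f` is induced by `g`. -/
def Rl (B : V →ₗ[F] V →ₗ[F] F) {G : Type} [Group G] (π : SpV B →* G) (g : V ≃+ V)
    (f : MulAut G) : Prop :=
  ∀ s s' : SpV B, (∀ v, g (s.1 v) = s'.1 (g v)) → f (π s) = π s'

theorem sm_symm_smul {B : V →ₗ[F] V →ₗ[F] F} {φ : F ≃+* F} {g : V ≃+ V} {c : F}
    (h : Sm B φ g c) (a : F) (v : V) : g.symm (a • v) = φ.symm a • g.symm v := by
  apply g.injective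
  rw [h.2.1, AddEquiv.apply_symm_apply, AddEquiv.apply_symm_apply, RingEquiv.apply_symm_apply]

theorem spv_ext {B : V →ₗ[F] V →ₗ[F] F} {s t : SpV B} (h : ∀ v, s.1 v = t.1 v) : s = t :=
  Subtype.ext (LinearEquiv.ext h)

/- An additive bijection which is linear, as a linear equivalence. -/
def mkL (e : V ≃+ V) (he : ∀ (a : F) (v : V), e (a • v) = a • e v) : V ≃ₗ[F] V :=
  { e with map_smul' := he }


theorem exists_conj {B : V →ₗ[F] V →ₗ[F] F} {φ : F ≃+* F} {g : V ≃+ V} {c : F}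
    (h : Sm B φ g c) (s : SpV B) : ∃ s' : SpV B, ∀ v, g (s.1 v) = s'.1 (g v) := by
  have hl : ∀ (a : F) (v : V), (g.symm.trans (s.1.toAddEquiv.trans g)) (a • v) =
      a • (g.symm.trans (s.1.toAddEquiv.trans g)) v := by
    intro a v
    show g (s.1 (g.symm (a • v))) = a • g (s.1 (g.symm v))
    rw [sm_symm_smul h, map_smul, h.2.1, RingEquiv.apply_symm_apply]
  refine ⟨⟨mkL _ hl, ?_⟩, ?_⟩
  · intro x y
    show B (g (s.1 (g.symm x))) (g (s.1 (g.symm y))) = B x y
    rw [h.2.2, s.2, ← h.2.2, AddEquiv.apply_symm_apply, AddEquiv.apply_symm_apply]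
  · intro v
    show g (s.1 v) = g (s.1 (g.symm (g v)))
    rw [AddEquiv.symm_apply_apply]

theorem rl_uniq {B : V →ₗ[F] V →ₗ[F] F} {G : Type} [Group G] {π : SpV B →* G}
    (hπ : IsQuo B π) {φ : F ≃+* F} {g : V ≃+ V} {c : F} (h : Sm B φ g c) {f f' : MulAut G}
    (hf : Rl B π g f) (hf' : Rl B π g f') : f = f' := by
  apply MulEquiv.ext
  intro x
  obtain ⟨s, rfl⟩ := hπ.surj x
  obtain ⟨s', hs'⟩ := exists_conj h s
  rw [hf s s' hs', hf' s s' hs']

theorem rl_mul {B : V →ₗ[F] V →ₗ[F] F} {G : Type} [Group G] {π : SpV B →* G}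
    {g h : V ≃+ V} {φ : F ≃+* F} {c : F} (hh : Sm B φ h c) {f f' : MulAut G}
    (hf : Rl B π g f) (hf' : Rl B π h f') : Rl B π (h.trans g) (f * f') := by
  intro s s'' hs
  obtain ⟨s', hs'⟩ := exists_conj hh s
  rw [MulAut.mul_apply, hf' s s' hs']
  refine hf s' s'' ?_
  intro w
  have h1 := hs (h.symm w)
  have h2 := hs' (h.symm w)
  simp only [AddEquiv.trans_apply, AddEquiv.apply_symm_apply] at h1 h2
  rw [← h2, h1]

theorem rl_inv {B : V →ₗ[F] V →ₗ[F] F} {G : Type} [Group G] {π : SpV B →* G}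
    {g : V ≃+ V} {f : MulAut G} (hf : Rl B π g f) : Rl B π g.symm f⁻¹ := by
  intro s s' hs
  have h1 : f (π s') = π s := by
    refine hf s' s ?_
    intro w
    have h2 := hs (g w)
    rw [AddEquiv.symm_apply_apply] at h2
    rw [← h2, AddEquiv.apply_symm_apply]
  rw [← h1, MulAut.inv_apply_self]

/- Inner automorphisms. -/
theorem rl_inner {B : V →ₗ[F] V →ₗ[F] F} {G : Type} [Group G] (π : SpV B →* G)
    (s : SpV B) {g : V ≃+ V} {a : F} (ha : a ≠ 0) (hg : ∀ v, g v = a • s.1 v) :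
    Rl B π g (MulAut.conj (π s)) := by
  intro t t' h
  have h1 : t' = s * t * s⁻¹ := by
    rw [eq_mul_inv_iff_mul_eq]
    refine spv_ext fun v => ?_
    have h2 := h v
    rw [hg, hg, map_smul] at h2
    exact (smul_right_injective V ha h2).symm
  rw [h1, MulAut.conj_apply, map_mul, map_mul, map_inv]

/- The automorphism induced by a semilinear similitude. -/
theorem exists_aut {B : V →ₗ[F] V →ₗ[F] F} {G : Type} [Group G] {π : SpV B →* G}
    (hπ : IsQuo B π) {φ : F ≃+* F} {g : V ≃+ V} {c : F} (h : Sm B φ g c) :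
    ∃ f : MulAut G, Rl B π g f := by
  choose κ hκ using exists_conj h
  have hu : ∀ s s' : SpV B, (∀ v, g (s.1 v) = s'.1 (g v)) → s' = κ s := by
    intro s s' hs
    refine spv_ext fun v => ?_
    have h1 := hs (g.symm v)
    have h2 := hκ s (g.symm v)
    rw [AddEquiv.apply_symm_apply] at h1 h2
    rw [← h1, ← h2]
  have hmul : ∀ s t, κ (s * t) = κ s * κ t := by
    intro s t
    symm
    refine hu _ _ fun v => ?_
    show g (s.1 (t.1 v)) = (κ s).1 ((κ t).1 (g v))
    rw [hκ s, hκ t]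
  have hone : κ 1 = 1 := (hu 1 1 fun v => rfl).symm
  let K : SpV B →* SpV B := { toFun := κ, map_one' := hone, map_mul' := hmul }
  have hfix1 : ∀ s : SpV B, ((∀ x, s.1 x = x) ∨ ∀ x, s.1 x = -x) → κ s = s := by
    intro s hs
    symm
    refine hu _ _ fun v => ?_
    rcases hs with hs | hs
    · rw [hs, hs]
    · rw [hs, hs, map_neg]
  have hfix2 : ∀ s : SpV B, ((∀ x, (κ s).1 x = x) ∨ ∀ x, (κ s).1 x = -x) → κ s = s := by
    intro s hs
    refine spv_ext fun v => ?_
    apply g.injective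
    rcases hs with hs | hs
    · rw [hκ s, hs, hs]
    · rw [hκ s, hs, hs, map_neg]
  have hker : π.ker ≤ (π.comp K).ker := by
    intro s hs
    rw [MonoidHom.mem_ker] at hs ⊢
    show π (κ s) = 1
    rw [hfix1 s (hπ.ker s hs), hs]
  let L : G →* G := (π.liftOfSurjective hπ.surj) ⟨π.comp K, hker⟩
  have hL : ∀ s, L (π s) = π (κ s) := fun s =>
    MonoidHom.liftOfRightInverse_comp_apply π _ _ ⟨π.comp K, hker⟩ s
  have hinj : Function.Injective L := by
    rw [injective_iff_map_eq_one]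
    intro x hx
    obtain ⟨s, rfl⟩ := hπ.surj x
    rw [hL] at hx
    rw [← hfix2 s (hπ.ker _ hx), hx]
  have hsm : Sm B φ.symm g.symm (φ.symm c⁻¹) := by
    refine ⟨?_, fun a v => sm_symm_smul h a v, fun v w => ?_⟩
    · rw [map_ne_zero]
      exact inv_ne_zero h.1
    · have h1 := h.2.2 (g.symm v) (g.symm w)
      rw [AddEquiv.apply_symm_apply, AddEquiv.apply_symm_apply] at h1
      rw [← map_mul, h1, inv_mul_cancel_left₀ h.1, RingEquiv.symm_apply_apply]
  have hsurj : Function.Surjective L := by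
    intro x
    obtain ⟨t, rfl⟩ := hπ.surj x
    obtain ⟨s, hs⟩ := exists_conj hsm t
    refine ⟨π s, ?_⟩
    rw [hL]
    congr 1
    symm
    refine hu _ _ fun v => ?_
    have h1 := hs (g v)
    rw [AddEquiv.symm_apply_apply] at h1
    rw [← h1, AddEquiv.apply_symm_apply]
  refine ⟨MulEquiv.ofBijective L ⟨hinj, hsurj⟩, ?_⟩
  intro s s' hs
  show L (π s) = π s'
  rw [hL, hu s s' hs]

/- Additive maps of a symplectic space which map every vector to a multiple are scalars. -/
theorem scalar_of {B : V →ₗ[F] V →ₗ[F] F} (hB : IsSymp B) (g : V ≃+ V)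
    (h : ∀ v, ∃ m : F, g v = m • v) : ∃ a : F, ∀ v, g v = a • v := by
  choose m hm using h
  have hd : ∀ v w, B v w ≠ 0 → m v = m w := by
    intro v w hvw
    have h1 : m (v + w) • (v + w) = m v • v + m w • w := by
      rw [← hm, ← hm, ← hm, map_add]
    have h2 := congrArg (fun z => B v z) h1
    have h3 := congrArg (fun z => B z w) h1
    simp only [map_smul, map_add, LinearMap.add_apply, LinearMap.smul_apply, hB.alt, smul_eq_mul,
      mul_zero, zero_add, add_zero] at h2 h3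
    rw [← mul_right_cancel₀ hvw h2, ← mul_right_cancel₀ hvw h3]
  have hne : ∀ v, v ≠ 0 → ∃ w, B v w ≠ 0 := by
    intro v hv
    by_contra hcon
    push Not at hcon
    exact hv (hB.nondeg v hcon)
  have hall : ∀ v w, v ≠ 0 → w ≠ 0 → m v = m w := by
    intro v w hv hw
    obtain ⟨u1, h1⟩ := hne v hv
    obtain ⟨u2, h2⟩ := hne w hw
    by_cases h3 : B w u1 = 0
    · by_cases h4 : B v u2 = 0
      · have h5 : B v (u1 + u2) ≠ 0 := by rw [map_add, h4, add_zero]; exact h1
        have h6 : B w (u1 + u2) ≠ 0 := by rw [map_add, h3, zero_add]; exact h2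
        rw [hd _ _ h5, hd _ _ h6]
      · rw [hd _ _ h4, hd _ _ h2]
    · rw [hd _ _ h1, hd _ _ h3]
  by_cases hV : ∃ v : V, v ≠ 0
  · obtain ⟨v0, hv0⟩ := hV
    refine ⟨m v0, fun v => ?_⟩
    by_cases hv : v = 0
    · rw [hv, map_zero, smul_zero]
    · rw [hm v, hall v v0 hv hv0]
  · push Not at hV
    refine ⟨1, fun v => ?_⟩
    rw [hV v, map_zero, smul_zero]

/- Transvections. -/
theorem exists_tv {B : V →ₗ[F] V →ₗ[F] F} (hB : IsSymp B) (v : V) :
    ∃ t : SpV B, ∀ x, t.1 x = x + B v x • v := by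
  have hneg : ∀ x y, B x y = -B y x := by
    intro x y
    have h1 := hB.alt (x + y)
    simp only [map_add, LinearMap.add_apply, hB.alt, zero_add, add_zero] at h1
    exact eq_neg_of_add_eq_zero_right h1
  let T : V →ₗ[F] V := LinearMap.id + (B v).smulRight v
  let T' : V →ₗ[F] V := LinearMap.id - (B v).smulRight v
  have hT : ∀ x, T x = x + B v x • v := fun x => by simp [T]
  have hT' : ∀ x, T' x = x - B v x • v := fun x => by simp [T']
  let e : V ≃ₗ[F] V := LinearEquiv.ofLinearMap T T'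
    (LinearMap.ext fun x => by
      simp only [LinearMap.comp_apply, LinearMap.id_apply, hT, hT', map_sub, map_smul, hB.alt,
        smul_zero, sub_zero]
      abel)
    (LinearMap.ext fun x => by
      simp only [LinearMap.comp_apply, LinearMap.id_apply, hT, hT', map_add, map_smul, hB.alt,
        smul_zero, add_zero]
      abel)
  refine ⟨⟨e, ?_⟩, fun x => hT x⟩
  intro x y
  show B (T x) (T y) = B x y
  rw [hT, hT]
  simp only [map_add, map_smul, LinearMap.add_apply, LinearMap.smul_apply, hB.alt, smul_eq_mul]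
  rw [hneg x v]
  ring

/- Semilinear similitudes which induce the identity are scalars. -/
theorem scalar_of_one {B : V →ₗ[F] V →ₗ[F] F} (hB : IsSymp B) {G : Type} [Group G]
    {π : SpV B →* G} (hπ : IsQuo B π) {φ : F ≃+* F} {g : V ≃+ V} {c : F} (h : Sm B φ g c)
    (h1 : Rl B π g 1) : ∃ a : F, ∀ v, g v = a • v := by
  refine scalar_of hB g fun v => ?_
  by_cases hv : v = 0
  · exact ⟨1, by rw [hv, map_zero, smul_zero]⟩
  obtain ⟨t, ht⟩ := exists_tv hB v
  obtain ⟨t', ht'⟩ := exists_conj h t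
  have h2 : π t = π t' := h1 t t' ht'
  have h3 : π (t' * t⁻¹) = 1 := by rw [map_mul, map_inv, h2, mul_inv_cancel]
  obtain ⟨x, hx⟩ : ∃ x, B v x = 1 := by
    have : ∃ w, B v w ≠ 0 := by
      by_contra hcon
      push Not at hcon
      exact hv (hB.nondeg v hcon)
    obtain ⟨w, hw⟩ := this
    exact ⟨(B v w)⁻¹ • w, by rw [map_smul, smul_eq_mul, inv_mul_cancel₀ hw]⟩
  have hplus : (∀ x, t'.1 x = t.1 x) → ∃ m : F, g v = m • v := by
    intro hp
    have h4 := ht' x
    rw [hp, ht, ht, hx, one_smul, map_add] at h4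
    exact ⟨_, add_left_cancel h4⟩
  rcases hπ.ker _ h3 with h4 | h4
  · apply hplus
    intro y
    have h5 := h4 (t.1 y)
    have h6 : (t' * t⁻¹).1 (t.1 y) = t'.1 y := by
      show t'.1 (t.1⁻¹ (t.1 y)) = t'.1 y
      congr 1
      exact t.1.symm_apply_apply y
    rw [h6] at h5
    exact h5
  · have h7 : ∀ y, t'.1 y = -t.1 y := by
      intro y
      have h5 := h4 (t.1 y)
      have h6 : (t' * t⁻¹).1 (t.1 y) = t'.1 y := by
        show t'.1 (t.1⁻¹ (t.1 y)) = t'.1 y
        congr 1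
        exact t.1.symm_apply_apply y
      rw [h6] at h5
      exact h5
    by_cases h2z : (2 : F) = 0
    · apply hplus
      intro y
      rw [h7 y]
      have h8 : (2 : F) • t.1 y = 0 := by rw [h2z, zero_smul]
      rw [two_smul] at h8
      exact (eq_neg_of_add_eq_zero_left h8).symm
    · have h5 := ht' v
      rw [h7, ht, ht, hB.alt, zero_smul, add_zero] at h5
      refine ⟨(2 : F)⁻¹ * -(B v (g v)), ?_⟩
      have h6 : (2 : F) • g v = (-(B v (g v))) • v := by
        rw [two_smul, neg_smul]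
        nth_rewrite 1 [h5]
        abel
      rw [mul_smul, ← h6, smul_smul, inv_mul_cancel₀ h2z, one_smul]

/- The group of isometries, semilinear similitudes with the same automorphism of the field. -/
theorem exists_spv {B : V →ₗ[F] V →ₗ[F] F} {φ : F ≃+* F} {g h : V ≃+ V} {c e l : F}
    (hg : Sm B φ g c) (hh : Sm B φ h e) (hl : l ≠ 0) (hc : c = e * (l * l)) :
    ∃ s : SpV B, ∀ v, g v = l • s.1 (h v) := by
  let u : V ≃+ V :=
    { toFun := fun x => l⁻¹ • x
      invFun := fun x => l • x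
      left_inv := fun x => smul_inv_smul₀ hl x
      right_inv := fun x => inv_smul_smul₀ hl x
      map_add' := fun x y => smul_add _ x y }
  have hlin : ∀ (a : F) (v : V), (h.symm.trans (g.trans u)) (a • v) =
      a • (h.symm.trans (g.trans u)) v := by
    intro a v
    show l⁻¹ • g (h.symm (a • v)) = a • l⁻¹ • g (h.symm v)
    rw [sm_symm_smul hh, hg.2.1, RingEquiv.apply_symm_apply, smul_comm]
  refine ⟨⟨mkL _ hlin, ?_⟩, ?_⟩
  · intro x y
    show B (l⁻¹ • g (h.symm x)) (l⁻¹ • g (h.symm y)) = B x y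
    have h1 := hh.2.2 (h.symm x) (h.symm y)
    rw [AddEquiv.apply_symm_apply, AddEquiv.apply_symm_apply] at h1
    rw [map_smul, map_smul, LinearMap.smul_apply, hg.2.2, h1, hc, smul_eq_mul, smul_eq_mul]
    field_simp
  · intro v
    show g v = l • l⁻¹ • g (h.symm (h v))
    rw [AddEquiv.symm_apply_apply, smul_inv_smul₀ hl]

theorem sm_trans {B : V →ₗ[F] V →ₗ[F] F} {φ ψ : F ≃+* F} {g h : V ≃+ V} {c d : F}
    (hg : Sm B φ g c) (hh : Sm B ψ h d) : Sm B (ψ.trans φ) (h.trans g) (c * φ d) := by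
  refine ⟨mul_ne_zero hg.1 ?_, fun a v => ?_, fun v w => ?_⟩
  · rw [map_ne_zero]
    exact hh.1
  · show g (h (a • v)) = φ (ψ a) • g (h v)
    rw [hh.2.1, hg.2.1]
  · show B (g (h v)) (g (h w)) = c * φ d * φ (ψ (B v w))
    rw [hg.2.2, hh.2.2, map_mul, mul_assoc]

theorem sm_inv_spv {B : V →ₗ[F] V →ₗ[F] F} (s : SpV B) :
    Sm B (RingEquiv.refl F) (s.1.toAddEquiv.symm) 1 := by
  refine ⟨one_ne_zero, fun a v => ?_, fun v w => ?_⟩
  · show s.1.symm (a • v) = a • s.1.symm v
    rw [map_smul]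
  · show B (s.1.symm v) (s.1.symm w) = 1 * B v w
    have h1 := s.2 (s.1.symm v) (s.1.symm w)
    rw [LinearEquiv.apply_symm_apply, LinearEquiv.apply_symm_apply] at h1
    rw [h1, one_mul]

/- **The abstract form.** -/
theorem compl_abs {B : V →ₗ[F] V →ₗ[F] F} (hB : IsSymp B) {G : Type} [Group G]
    {π : SpV B →* G} (hπ : IsQuo B π) (hall : ∀ f : MulAut G, SAut B π f)
    (D : (V ≃+ V) → Prop) (hD1 : D (AddEquiv.refl V))
    (hDm : ∀ g h, D g → D h → D (h.trans g)) (hDi : ∀ g, D g → D g.symm)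
    (hDs : ∀ g, D g → ∃ φ c, Sm B φ g c)
    (hDd : ∀ g, D g → ∀ (s : SpV B) (a : F), (∀ v, g v = a • s.1 v) → ∃ b : F, ∀ v, g v = b • v)
    (hDc : ∀ g φ c, Sm B φ g c → ∃ d, D d ∧ ∃ (s : SpV B) (a : F), a ≠ 0 ∧
      ∀ v, g v = a • s.1 (d v)) :
    ∃ T : Subgroup (MulAut G), IsCompl T (MulAut.conj : G →* MulAut G).range := by
  refine ⟨{ carrier := {f | ∃ g, D g ∧ Rl B π g f}
            mul_mem' := ?_
            one_mem' := ?_
            inv_mem' := ?_ }, ?_⟩
  · rintro f f' ⟨g, hg, hf⟩ ⟨g', hg', hf'⟩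
    obtain ⟨φ, c, hs⟩ := hDs g' hg'
    exact ⟨_, hDm g g' hg hg', rl_mul hs hf hf'⟩
  · refine ⟨_, hD1, ?_⟩
    intro s s' h
    have : s = s' := spv_ext h
    rw [this]
    rfl
  · rintro f ⟨g, hg, hf⟩
    exact ⟨_, hDi g hg, rl_inv hf⟩
  · rw [isCompl_iff, Subgroup.disjoint_def, codisjoint_iff, Subgroup.eq_top_iff']
    constructor
    · rintro f ⟨d, hd, hf⟩ ⟨x, rfl⟩
      obtain ⟨s, rfl⟩ := hπ.surj x
      obtain ⟨φ, c, hs⟩ := hDs d hd
      have h1 : Rl B π (s.1.toAddEquiv) (MulAut.conj (π s)) :=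
        rl_inner π s one_ne_zero (fun v => (one_smul F _).symm)
      have h2 := rl_mul hs (rl_inv h1) hf
      rw [inv_mul_cancel] at h2
      obtain ⟨a, ha⟩ := scalar_of_one hB hπ (sm_trans (sm_inv_spv s) hs) h2
      have h3 : ∀ v, d v = a • s.1 v := by
        intro v
        have h4 := ha v
        have h5 : s.1.symm (d v) = a • v := h4
        rw [← map_smul, ← h5, LinearEquiv.apply_symm_apply]
      obtain ⟨b, hb⟩ := hDd d hd s a h3
      refine rl_uniq hπ hs hf ?_
      intro t t' ht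
      have : t = t' := by
        refine spv_ext fun v => ?_
        apply d.injective
        rw [ht v, hb, hb, map_smul]
      rw [this]
      rfl
    · intro f
      obtain ⟨φ, g, c, hc, hg1, hg2, hg3⟩ := hall f
      have hg : Sm B φ g c := ⟨hc, hg1, hg2⟩
      obtain ⟨d, hd, s, a, ha, hs⟩ := hDc g φ c hg
      obtain ⟨ψ, e, hds⟩ := hDs d hd
      obtain ⟨f', hf'⟩ := exists_aut hπ hds
      have h1 : f = MulAut.conj (π s) * f' := by
        refine rl_uniq hπ hg hg3 ?_
        intro t t'' ht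
        obtain ⟨t', ht'⟩ := exists_conj hds t
        rw [MulAut.mul_apply, hf' t t' ht']
        have h2 : Rl B π (s.1.toAddEquiv) (MulAut.conj (π s)) :=
          rl_inner π s one_ne_zero (fun v => (one_smul F _).symm)
        refine h2 t' t'' ?_
        intro w
        obtain ⟨v, rfl⟩ := d.surjective w
        have h3 := ht v
        rw [hs, hs, ht' v, map_smul] at h3
        exact smul_right_injective V ha h3
      rw [h1]
      refine mul_mem ?_ ?_
      · exact (le_sup_right : _ ≤ _ ⊔ (MulAut.conj : G →* MulAut G).range) ⟨π s, rfl⟩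
      · exact (le_sup_left : _ ≤ _ ⊔ (MulAut.conj : G →* MulAut G).range) ⟨d, hd, hf'⟩

end abs

/-! ### the standard space -/

section std

variable {n : ℕ} {F : Type} [Field F]

theorem symp_spB (n : ℕ) (F : Type) [Field F] : IsSymp (spB n F) := by
  constructor
  · intro x
    rw [spB_apply]
    exact Finset.sum_eq_zero fun i _ => by ring
  · intro x h
    funext j
    rcases j with j | j
    · have h1 := h (Pi.single (Sum.inr j) 1)
      rw [spB_apply, Finset.sum_eq_single j] at h1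
      · simpa using h1
      · intro b _ hb
        simp [hb]
      · simp
    · have h1 := h (Pi.single (Sum.inl j) 1)
      rw [spB_apply, Finset.sum_eq_single j] at h1
      · simpa using h1
      · intro b _ hb
        simp [hb]
      · simp

/- The coordinatewise action of the automorphisms of the field. -/
def hat (φ : F ≃+* F) : V₀ n F ≃+ V₀ n F where
  toFun := fun x i => φ (x i)
  invFun := fun x i => φ.symm (x i)
  left_inv := fun x => by funext i; simp
  right_inv := fun x => by funext i; simp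
  map_add' := fun x y => by funext i; simp

theorem hat_apply (φ : F ≃+* F) (x : V₀ n F) (i : Fin n ⊕ Fin n) : hat φ x i = φ (x i) := rfl

theorem sm_hat (φ : F ≃+* F) : Sm (spB n F) φ (hat φ) 1 := by
  refine ⟨one_ne_zero, fun a v => ?_, fun v w => ?_⟩
  · funext i
    rw [hat_apply, Pi.smul_apply, Pi.smul_apply, hat_apply, smul_eq_mul, smul_eq_mul, map_mul]
  · rw [spB_apply, spB_apply, one_mul, map_sum]
    refine Finset.sum_congr rfl fun i _ => ?_
    rw [hat_apply, hat_apply, hat_apply, hat_apply, map_sub, map_mul, map_mul]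

/- The similitude `g0`. -/
def j0 (ε : F) (x : V₀ n F) : V₀ n F :=
  Sum.elim (fun i => -ε * x (Sum.inr i)) (fun i => x (Sum.inl i))

theorem j0_inl (ε : F) (x : V₀ n F) (i : Fin n) : j0 ε x (Sum.inl i) = -ε * x (Sum.inr i) := rfl
theorem j0_inr (ε : F) (x : V₀ n F) (i : Fin n) : j0 ε x (Sum.inr i) = x (Sum.inl i) := rfl

theorem j0_j0 (ε : F) (x : V₀ n F) : j0 ε (j0 ε x) = (-ε) • x := by
  funext i
  rcases i with i | i
  · rw [j0_inl, j0_inr, Pi.smul_apply, smul_eq_mul]
  · rw [j0_inr, j0_inl, Pi.smul_apply, smul_eq_mul]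

theorem j0_smul (ε a : F) (x : V₀ n F) : j0 ε (a • x) = a • j0 ε x := by
  funext i
  rcases i with i | i
  · rw [j0_inl, Pi.smul_apply, Pi.smul_apply, j0_inl, smul_eq_mul, smul_eq_mul]; ring
  · rw [j0_inr, Pi.smul_apply, Pi.smul_apply, j0_inr]

theorem j0_add (ε : F) (x y : V₀ n F) : j0 ε (x + y) = j0 ε x + j0 ε y := by
  funext i
  rcases i with i | i
  · rw [j0_inl, Pi.add_apply, Pi.add_apply, j0_inl, j0_inl]; ring
  · rw [j0_inr, Pi.add_apply, Pi.add_apply, j0_inr, j0_inr]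

theorem hat_j0 (φ : F ≃+* F) {ε : F} (h : φ ε = ε) (x : V₀ n F) :
    hat φ (j0 ε x) = j0 ε (hat φ x) := by
  funext i
  rcases i with i | i
  · rw [hat_apply, j0_inl, j0_inl, hat_apply, map_mul, map_neg, h]
  · rw [hat_apply, j0_inr, j0_inr, hat_apply]

theorem hat_smul (φ : F ≃+* F) (a : F) (x : V₀ n F) : hat φ (a • x) = φ a • hat φ x :=
  (sm_hat φ).2.1 a x

theorem hat_hat (φ ψ : F ≃+* F) (x : V₀ n F) : hat φ (hat ψ x) = hat (ψ.trans φ) x := rfl

/- `g0` as an additive bijection. -/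
def J0 (ε : F) (h : ε ≠ 0) : V₀ n F ≃+ V₀ n F where
  toFun := j0 ε
  invFun := fun x => (-ε)⁻¹ • j0 ε x
  left_inv := fun x => by
    show (-ε)⁻¹ • j0 ε (j0 ε x) = x
    rw [j0_j0, inv_smul_smul₀ (neg_ne_zero.2 h)]
  right_inv := fun x => by
    show j0 ε ((-ε)⁻¹ • j0 ε x) = x
    rw [j0_smul, j0_j0, inv_smul_smul₀ (neg_ne_zero.2 h)]
  map_add' := j0_add ε

theorem sm_J0 (ε : F) (h : ε ≠ 0) : Sm (spB n F) (RingEquiv.refl F) (J0 ε h) ε := by
  refine ⟨h, fun a v => j0_smul ε a v, fun v w => ?_⟩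
  show spB n F (j0 ε v) (j0 ε w) = ε * spB n F v w
  rw [spB_apply, spB_apply, Finset.mul_sum]
  refine Finset.sum_congr rfl fun i _ => ?_
  rw [j0_inl, j0_inr, j0_inl, j0_inr]
  ring

/- The group `D`. -/
def DD (n : ℕ) {F : Type} [Field F] (ε : F) (g : V₀ n F ≃+ V₀ n F) : Prop :=
  ∃ (φ : F ≃+* F) (a : F), a ≠ 0 ∧ ((∀ v, g v = a • hat φ v) ∨
    (¬ IsSquare ε ∧ ∀ v, g v = a • j0 ε (hat φ v)))

theorem compl_of {n : ℕ} {F : Type} [Field F] (hn : 1 ≤ n) (ε : F) (hε : ε ≠ 0)
    (hfix : ∀ φ : F ≃+* F, φ ε = ε)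
    (hsq : ∀ c : F, c ≠ 0 → (∃ l, c = l * l) ∨ (¬ IsSquare ε ∧ ∃ l, c = ε * (l * l)))
    {G : Type} [Group G] (π : SpV (spB n F) →* G) (hπ : IsQuo (spB n F) π)
    (hall : ∀ f : MulAut G, SAut (spB n F) π f) :
    ∃ T : Subgroup (MulAut G), IsCompl T (MulAut.conj : G →* MulAut G).range := by
  have hsm : ∀ g : V₀ n F ≃+ V₀ n F, ∀ (φ : F ≃+* F) (a : F), a ≠ 0 →
      ((∀ v, g v = a • hat φ v) → Sm (spB n F) φ g (a * a)) ∧
      ((∀ v, g v = a • j0 ε (hat φ v)) → Sm (spB n F) φ g (a * a * ε)) := by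
    intro g φ a ha
    constructor
    · intro h
      refine ⟨mul_ne_zero ha ha, fun b v => ?_, fun v w => ?_⟩
      · rw [h, h, hat_smul, smul_comm]
      · rw [h, h, map_smul, map_smul, LinearMap.smul_apply, (sm_hat φ).2.2, smul_eq_mul,
          smul_eq_mul, one_mul, mul_assoc]
    · intro h
      refine ⟨mul_ne_zero (mul_ne_zero ha ha) hε, fun b v => ?_, fun v w => ?_⟩
      · rw [h, h, hat_smul, j0_smul, smul_comm]
      · have h1 := (sm_J0 (n := n) ε hε).2.2 (hat φ v) (hat φ w)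
        have h2 : spB n F (j0 ε (hat φ v)) (j0 ε (hat φ w)) =
          ε * spB n F (hat φ v) (hat φ w) := h1
        rw [h, h, map_smul, map_smul, LinearMap.smul_apply, h2, (sm_hat φ).2.2, smul_eq_mul,
          smul_eq_mul, one_mul]
        ring
  refine compl_abs (symp_spB n F) hπ hall (DD n ε) ?_ ?_ ?_ ?_ ?_ ?_
  · refine ⟨RingEquiv.refl F, 1, one_ne_zero, Or.inl fun v => ?_⟩
    rw [one_smul]
    rfl
  · rintro g h ⟨φ, a, ha, h1⟩ ⟨ψ, b, hb, h2⟩
    have hb' : φ b ≠ 0 := by rw [map_ne_zero]; exact hb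
    rcases h1 with h1 | ⟨h0, h1⟩
    · rcases h2 with h2 | ⟨h0, h2⟩
      · refine ⟨ψ.trans φ, a * φ b, mul_ne_zero ha hb', Or.inl fun v => ?_⟩
        rw [AddEquiv.trans_apply, h2, h1, hat_smul, hat_hat, mul_smul]
      · refine ⟨ψ.trans φ, a * φ b, mul_ne_zero ha hb', Or.inr ⟨h0, fun v => ?_⟩⟩
        rw [AddEquiv.trans_apply, h2, h1, hat_smul, hat_j0 φ (hfix φ), hat_hat, mul_smul]
    · rcases h2 with h2 | ⟨_, h2⟩
      · refine ⟨ψ.trans φ, a * φ b, mul_ne_zero ha hb', Or.inr ⟨h0, fun v => ?_⟩⟩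
        rw [AddEquiv.trans_apply, h2, h1, hat_smul, j0_smul, hat_hat, mul_smul]
      · refine ⟨ψ.trans φ, a * φ b * (-ε), mul_ne_zero (mul_ne_zero ha hb') (neg_ne_zero.2 hε),
          Or.inl fun v => ?_⟩
        rw [AddEquiv.trans_apply, h2, h1, hat_smul, j0_smul, hat_j0 φ (hfix φ), j0_j0, hat_hat,
          mul_smul, mul_smul]
  · rintro g ⟨φ, a, ha, h1⟩
    rcases h1 with h1 | ⟨h0, h1⟩
    · refine ⟨φ.symm, φ.symm a⁻¹, ?_, Or.inl fun v => ?_⟩
      · rw [map_ne_zero]
        exact inv_ne_zero ha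
      · apply g.injective
        rw [AddEquiv.apply_symm_apply, h1, hat_smul, RingEquiv.apply_symm_apply, hat_hat,
          smul_inv_smul₀ ha]
        funext i
        simp [hat_apply]
    · refine ⟨φ.symm, φ.symm (-ε * a)⁻¹, ?_, Or.inr ⟨h0, fun v => ?_⟩⟩
      · rw [map_ne_zero]
        exact inv_ne_zero (mul_ne_zero (neg_ne_zero.2 hε) ha)
      · apply g.injective
        rw [AddEquiv.apply_symm_apply, h1, hat_smul, RingEquiv.apply_symm_apply, j0_smul,
          hat_j0 φ (hfix φ), j0_j0, hat_hat]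
        funext i
        rw [Pi.smul_apply, Pi.smul_apply, Pi.smul_apply, hat_apply]
        simp only [RingEquiv.symm_trans_self, RingEquiv.refl_apply, smul_eq_mul]
        have : (-ε) ≠ 0 := neg_ne_zero.2 hε
        field_simp
  · rintro g ⟨φ, a, ha, h1⟩
    rcases h1 with h1 | ⟨_, h1⟩
    · exact ⟨φ, _, (hsm g φ a ha).1 h1⟩
    · exact ⟨φ, _, (hsm g φ a ha).2 h1⟩
  · rintro g ⟨φ, a, ha, h1⟩ s b hs
    -- the automorphism of the field is trivial
    let i0 : Fin n := ⟨0, hn⟩
    let e0 : V₀ n F := Pi.single (Sum.inl i0) 1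
    let e1 : V₀ n F := Pi.single (Sum.inr i0) 1
    have he01 : spB n F e0 e1 = 1 := by
      rw [spB_apply, Finset.sum_eq_single i0]
      · simp [e0, e1]
      · intro j _ hj
        simp [e0, e1, hj]
      · simp
    have he0 : e0 ≠ 0 := by
      intro h
      rw [h, map_zero, LinearMap.zero_apply] at he01
      exact zero_ne_one he01
    have hφ : (∀ (x : F) (v : V₀ n F), g (x • v) = φ x • g v) → ∀ x, φ x = x := by
      intro h x
      have h2 := h x e0
      rw [hs (x • e0), map_smul, smul_comm, ← hs] at h2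
      have h3 : g e0 ≠ 0 := by
        rw [Ne, map_eq_zero_iff g g.injective]
        exact he0
      have h4 : (φ x - x) • g e0 = 0 := by rw [sub_smul, ← h2, sub_self]
      rcases smul_eq_zero.1 h4 with h5 | h5
      · exact sub_eq_zero.1 h5
      · exact absurd h5 h3
    rcases h1 with h1 | ⟨h0, h1⟩
    · have h2 := hφ ((hsm g φ a ha).1 h1).2.1
      refine ⟨a, fun v => ?_⟩
      rw [h1]
      congr 1
      funext i
      rw [hat_apply, h2]
    · exfalso
      have h3 := (hsm g φ a ha).2 h1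
      have h2 := hφ h3.2.1
      have h4 := h3.2.2 e0 e1
      rw [he01, map_one, mul_one, hs, hs, map_smul, map_smul, LinearMap.smul_apply, s.2, he01,
        smul_eq_mul, smul_eq_mul, mul_one] at h4
      apply h0
      refine ⟨b / a, ?_⟩
      field_simp
      linear_combination -h4
  · intro g φ c hg
    rcases hsq c hg.1 with ⟨l, hl⟩ | ⟨h0, l, hl⟩
    · have hl0 : l ≠ 0 := by
        rintro rfl
        exact hg.1 (by rw [hl, mul_zero])
      obtain ⟨s, hs⟩ := exists_spv hg (sm_hat φ) hl0 (by rw [one_mul]; exact hl)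
      exact ⟨hat φ, ⟨φ, 1, one_ne_zero, Or.inl fun v => (one_smul F _).symm⟩, s, l, hl0, hs⟩
    · have hl0 : l ≠ 0 := by
        rintro rfl
        exact hg.1 (by rw [hl, mul_zero, mul_zero])
      have h1 : Sm (spB n F) φ ((hat φ).trans (J0 ε hε)) (ε * RingEquiv.refl F 1) :=
        sm_trans (sm_J0 ε hε) (sm_hat φ)
      obtain ⟨s, hs⟩ := exists_spv hg h1 hl0 (by rw [map_one, mul_one]; exact hl)
      exact ⟨_, ⟨φ, 1, one_ne_zero, Or.inr ⟨h0, fun v => (one_smul F _).symm⟩⟩, s, l, hl0, hs⟩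

end std

/-! ### the element `ε` -/

theorem pow_half (p : ℕ) (hp : Odd p) (j : ℕ) :
    ∃ m, Odd m ∧ p ^ (2 * j + 1) = 2 * (p / 2) * m + 1 := by
  obtain ⟨q, rfl⟩ := hp
  have h1 : (2 * q + 1) / 2 = q := by omega
  rw [h1]
  induction j with
  | zero => exact ⟨1, odd_one, by ring⟩
  | succ j ih =>
    obtain ⟨m, hm, h2⟩ := ih
    refine ⟨m * (2 * q + 1) ^ 2 + (2 * q + 2), ?_, ?_⟩
    · refine Odd.add_even (hm.mul (Odd.pow ⟨q, rfl⟩)) ⟨q + 1, by ring⟩
    · have h3 : (2 * q + 1) ^ (2 * (j + 1) + 1) = (2 * q + 1) ^ (2 * j + 1) * (2 * q + 1) ^ 2 := by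
        ring
      rw [h3, h2]
      ring

theorem exists_eps {F : Type} [Field F] [Finite F] (p k : ℕ) (hp : p.Prime)
    (hF : Nat.card F = p ^ k) (hk : p = 2 ∨ Odd k) :
    ∃ ε : F, ε ≠ 0 ∧ (∀ φ : F ≃+* F, φ ε = ε) ∧
      ∀ c : F, c ≠ 0 → (∃ l, c = l * l) ∨ (¬ IsSquare ε ∧ ∃ l, c = ε * (l * l)) := by
  haveI := Fintype.ofFinite F
  haveI : Fact p.Prime := ⟨hp⟩
  have hcard : Fintype.card F = p ^ k := by rw [← Nat.card_eq_fintype_card]; exact hF
  have hk0 : k ≠ 0 := by
    rintro rfl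
    have := Fintype.one_lt_card (α := F)
    rw [hcard, pow_zero] at this
    exact lt_irrefl _ this
  haveI hchar : CharP F p := by
    obtain ⟨q, hq⟩ := CharP.exists F
    haveI := hq
    obtain ⟨m, hqp, hqm⟩ := FiniteField.card F q
    rw [hcard] at hqm
    have h1 : p = q := by
      have h2 : p ∣ q ^ (m : ℕ) := by rw [← hqm]; exact dvd_pow_self p hk0
      exact (Nat.prime_dvd_prime_iff_eq hp hqp).1 (hp.dvd_of_dvd_pow h2)
    rw [h1]
    exact hq
  by_cases hp2 : p = 2
  · refine ⟨1, one_ne_zero, fun φ => map_one φ, fun c _ => Or.inl ?_⟩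
    have hr : ringChar F = 2 := by rw [← hp2]; exact ringChar.eq F p
    exact FiniteField.isSquare_of_char_two hr c
  · have hkodd : Odd k := by
      rcases hk with h | h
      · exact absurd h hp2
      · exact h
    have hpodd : Odd p := hp.odd_of_ne_two hp2
    have hr : ringChar F ≠ 2 := by
      rw [ringChar.eq F p]
      exact hp2
    have hrZ : ringChar (ZMod p) ≠ 2 := by
      rw [ringChar.eq (ZMod p) p]
      exact hp2
    obtain ⟨e, he⟩ := FiniteField.exists_nonsquare hrZ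
    have he0 : e ≠ 0 := by
      rintro rfl
      exact he ⟨0, by rw [mul_zero]⟩
    have hem : e ^ (p / 2) = -1 := by
      rcases ZMod.pow_div_two_eq_neg_one_or_one p he0 with h | h
      · exact absurd ((ZMod.euler_criterion p he0).2 h) he
      · exact h
    obtain ⟨j, hj⟩ := hkodd
    obtain ⟨m, hm, hpm⟩ := pow_half p hpodd j
    have hhalf : Fintype.card F / 2 = p / 2 * m := by
      rw [hcard, hj, hpm]
      have : 2 * (p / 2) * m + 1 = 2 * (p / 2 * m) + 1 := by ring
      rw [this]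
      omega
    let ι : ZMod p →+* F := ZMod.castHom (dvd_refl p) F
    have hepow : (ι e) ^ (Fintype.card F / 2) = -1 := by
      rw [hhalf, pow_mul, ← map_pow, hem, map_neg, map_one, hm.neg_one_pow]
    have hne1 : (-1 : F) ≠ 1 := Ring.neg_one_ne_one_of_char_ne_two hr
    have hι0 : ι e ≠ 0 := by
      rw [map_ne_zero]
      exact he0
    have hns : ¬ IsSquare (ι e) := by
      intro h
      rw [FiniteField.isSquare_iff hr hι0, hepow] at h
      exact hne1 h
    refine ⟨ι e, hι0, fun φ => ?_, fun c hc => ?_⟩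
    · have : (φ : F →+* F).comp ι = ι := Subsingleton.elim _ _
      exact congrArg (fun f : ZMod p →+* F => f e) this
    · by_cases hcs : IsSquare c
      · exact Or.inl hcs
      · right
        refine ⟨hns, ?_⟩
        have hc1 : c ^ (Fintype.card F / 2) = -1 := by
          rcases FiniteField.pow_dichotomy hr hc with h | h
          · exact absurd ((FiniteField.isSquare_iff hr hc).2 h) hcs
          · exact h
        have hq0 : c / ι e ≠ 0 := div_ne_zero hc hι0
        have hq : IsSquare (c / ι e) := by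
          rw [FiniteField.isSquare_iff hr hq0, div_pow, hc1, hepow, div_self]
          exact neg_ne_zero.2 one_ne_zero
        obtain ⟨l, hl⟩ := hq
        refine ⟨l, ?_⟩
        rw [← hl]
        field_simp

/- **SP-COMPL.** -/
theorem compl_holds : Pool.Agent.Y60.DC.TaskSCOMPL := by
  intro n F _ _ p k hn hp hF hk G _ π hπ hall
  obtain ⟨ε, hε, hfix, hsq⟩ := exists_eps p k hp hF hk
  exact compl_of hn ε hε hfix hsq π hπ hall

end Pool.Agent.Y170.DSP
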