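import Mathlib
import Pool.Agent.H84.L.S8_Y60_DC_StmSp

namespace Pool.Agent.Y60.DC
end Pool.Agent.Y60.DC


/-!
# SP-COL: automorphisms which permute the transvection groups give collineations
-/

set_option autoImplicit false

namespace Pool.Agent.Y329.DSP

open Pool.Agent.Y60.DC

section

variable {F V : Type} [Field F] [AddCommGroup V] [Module F V]

theorem skew {B : V →ₗ[F] V →ₗ[F] F} (hB : IsSymp B) (x y : V) : B x y = -B y x := by
  have h := hB.alt (x + y)
  simp only [map_add, LinearMap.add_apply, hB.alt, zero_add, add_zero] at h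
  linear_combination h

theorem exists_tv {B : V →ₗ[F] V →ₗ[F] F} (hB : IsSymp B) (v : V) (a : F) :
    ∃ t : SpV B, IsTv B v a t := by
  set L : F → V →ₗ[F] V := fun a => LinearMap.id + (a • B v).smulRight v with hL
  have hLa : ∀ a x, L a x = x + (a * B v x) • v := fun a x => by
    simp [hL]
  have h1 : ∀ a b : F, a + b = 0 → (L a) ∘ₗ (L b) = LinearMap.id := by
    intro a b hab
    ext x
    rw [LinearMap.comp_apply, hLa, hLa, map_add, map_smul, hB.alt, LinearMap.id_apply]
    have hb : b = -a := by linear_combination hab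
    subst hb
    rw [smul_zero, add_zero]
    rw [add_assoc, ← add_smul]
    have : -a * (B v) x + a * (B v) x = 0 := by ring
    rw [this, zero_smul, add_zero]
  let e : V ≃ₗ[F] V :=
    LinearEquiv.ofLinearMap (L a) (L (-a)) (h1 _ _ (by ring)) (h1 _ _ (by ring))
  have he : ∀ x, e x = x + (a * B v x) • v := fun x => hLa a x
  refine ⟨⟨e, ?_⟩, he⟩
  intro x y
  rw [he, he]
  simp only [map_add, map_smul, LinearMap.add_apply, LinearMap.smul_apply, smul_eq_mul, hB.alt,
    mul_zero, add_zero]
  rw [skew hB x v]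
  ring

theorem exists_ne {B : V →ₗ[F] V →ₗ[F] F} (hB : IsSymp B) {v : V} (hv : v ≠ 0) :
    ∃ x, B v x ≠ 0 := by
  by_contra h
  push Not at h
  exact hv (hB.nondeg v h)

/- A nontrivial transvection is neither `1` nor `-1`. -/
theorem tv_not {B : V →ₗ[F] V →ₗ[F] F} (hB : IsSymp B) {v : V} (hv : v ≠ 0) {a : F}
    (ha : a ≠ 0) {t : SpV B} (ht : IsTv B v a t) :
    ¬ ((∀ x, t.1 x = x) ∨ ∀ x, t.1 x = -x) := by
  obtain ⟨x, hx⟩ := exists_ne hB hv
  have key : ¬ ∀ x, t.1 x = x := by
    intro h
    have h1 := h x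
    rw [ht x] at h1
    have h2 : (a * B v x) • v = 0 := by
      have := congrArg (fun z => z - x) h1
      simpa using this
    rcases smul_eq_zero.1 h2 with h3 | h3
    · exact mul_ne_zero ha hx h3
    · exact hv h3
  rintro (h | h)
  · exact key h
  · apply key
    have h1 := h v
    rw [ht v, hB.alt, mul_zero, zero_smul, add_zero] at h1
    have h2 : (2 : F) • v = 0 := by
      rw [two_smul]
      nth_rewrite 1 [h1]
      exact neg_add_cancel v
    have h3 : (2 : F) = 0 := (smul_eq_zero.1 h2).resolve_right hv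
    intro y
    rw [h y]
    have : (2 : F) • y = 0 := by rw [h3, zero_smul]
    rw [two_smul] at this
    exact neg_eq_of_add_eq_zero_left this

/- Elements of the group with equal images agree up to sign. -/
theorem eq_or_neg {B : V →ₗ[F] V →ₗ[F] F} {G : Type} [Group G] {π : SpV B →* G}
    (hπ : IsQuo B π) {s t : SpV B} (h : π s = π t) :
    (∀ x, s.1 x = t.1 x) ∨ ∀ x, s.1 x = -t.1 x := by
  have h1 : π (s * t⁻¹) = 1 := by rw [map_mul, map_inv, h, mul_inv_cancel]
  have h2 : ∀ x, (s * t⁻¹ : SpV B).1 (t.1 x) = s.1 x := by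
    intro x
    have : (s * t⁻¹ * t : SpV B).1 x = s.1 x := by rw [inv_mul_cancel_right]
    exact this
  rcases hπ.ker _ h1 with h3 | h3
  · left
    intro x
    rw [← h2 x, h3]
  · right
    intro x
    rw [← h2 x, h3]

/- Orthogonal transvections commute. -/
theorem tv_comm {B : V →ₗ[F] V →ₗ[F] F} (hB : IsSymp B) {v w : V} (h : B v w = 0) {a b : F}
    {s t : SpV B} (hs : IsTv B v a s) (ht : IsTv B w b t) : s * t = t * s := by
  apply Subtype.ext
  apply LinearEquiv.ext
  intro x
  change s.1 (t.1 x) = t.1 (s.1 x)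
  have h' : B w v = 0 := by rw [skew hB, h, neg_zero]
  rw [ht x, hs, hs x, ht]
  simp only [map_add, map_smul, h, h', smul_zero, add_zero]
  abel

/- If the images of two nontrivial transvections commute, then they are orthogonal. -/
theorem orth_of_comm {B : V →ₗ[F] V →ₗ[F] F} (hB : IsSymp B) {G : Type} [Group G]
    {π : SpV B →* G} (hπ : IsQuo B π) {v w : V} {a b : F} (ha : a ≠ 0)
    (hb : b ≠ 0) {s t : SpV B} (hs : IsTv B v a s) (ht : IsTv B w b t)
    (h : π s * π t = π t * π s) : B v w = 0 := by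
  by_contra hvw
  have hv : v ≠ 0 := by
    rintro rfl
    simp at hvw
  have hwv : B w v ≠ 0 := by
    rw [skew hB]
    exact neg_ne_zero.2 hvw
  -- values at `v`
  have e1 : s.1 (t.1 v) = v + (b * B w v) • w + (a * (b * B w v * B v w)) • v := by
    rw [ht v, hs]
    simp only [map_add, map_smul, hB.alt, zero_add, smul_eq_mul]
  have e2 : t.1 (s.1 v) = v + (b * B w v) • w := by
    rw [hs v, hB.alt, mul_zero, zero_smul, add_zero, ht v]
  have key : (a * (b * B w v * B v w)) • v ≠ 0 := by
    rw [Ne, smul_eq_zero, not_or]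
    exact ⟨mul_ne_zero ha (mul_ne_zero (mul_ne_zero hb hwv) hvw), hv⟩
  have plus : s.1 (t.1 v) = t.1 (s.1 v) → False := by
    intro h1
    rw [e1, e2] at h1
    exact key (by simpa using h1)
  have h1 : π (s * t) = π (t * s) := by rw [map_mul, map_mul, h]
  rcases eq_or_neg hπ h1 with h2 | h2
  · exact plus (h2 v)
  · have h3 : s.1 (t.1 v) = -(t.1 (s.1 v)) := h2 v
    -- apply `B v` to both sides
    have h4 := congrArg (fun z => B v z) h3
    rw [e1, e2] at h4
    simp only [map_add, map_neg, map_smul, hB.alt, smul_eq_mul, mul_zero, add_zero,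
      zero_add] at h4
    have h5 : (2 : F) * (b * B w v * B v w) = 0 := by linear_combination h4
    have h6 : (2 : F) = 0 := by
      rcases mul_eq_zero.1 h5 with h6 | h6
      · exact h6
      · exact absurd h6 (mul_ne_zero (mul_ne_zero hb hwv) hvw)
    apply plus
    rw [h3]
    have : (2 : F) • (t.1 (s.1 v)) = 0 := by rw [h6, zero_smul]
    rw [two_smul] at this
    exact neg_eq_of_add_eq_zero_left this

/- Double orthogonal complement of a plane. -/
theorem mem_span_iff {B : V →ₗ[F] V →ₗ[F] F} (hB : IsSymp B) (u v w : V) :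
    u ∈ Submodule.span F {v, w} ↔ ∀ x, x ≠ 0 → B v x = 0 → B w x = 0 → B u x = 0 := by
  constructor
  · intro h x _ h1 h2
    obtain ⟨a, b, rfl⟩ := Submodule.mem_span_pair.1 h
    simp [h1, h2]
  · intro h
    have h1 : B u ∈ Submodule.span F (Set.range (![B v, B w] : Fin 2 → (V →ₗ[F] F))) := by
      apply mem_span_of_iInf_ker_le_ker
      intro x hx
      rw [Submodule.mem_iInf] at hx
      have hx0 : B v x = 0 := hx 0
      have hx1 : B w x = 0 := hx 1
      rw [LinearMap.mem_ker]
      by_cases hx2 : x = 0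
      · rw [hx2, map_zero]
      · exact h x hx2 hx0 hx1
    rw [Matrix.range_cons, Matrix.range_cons, Matrix.range_empty, Set.union_empty,
      Set.singleton_union] at h1
    obtain ⟨a, b, hab⟩ := Submodule.mem_span_pair.1 h1
    refine Submodule.mem_span_pair.2 ⟨a, b, ?_⟩
    rw [← sub_eq_zero]
    apply hB.nondeg
    intro y
    rw [map_sub, map_add, map_smul, map_smul, hab, sub_self, LinearMap.zero_apply]

end

theorem col_holds : TaskSCOL := by
  intro F V _ _ _ _ B hB G _ π hπ f hf hf'
  choose! c hc0 hc using hf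
  -- nonzero coefficients
  have hne : ∀ v, v ≠ 0 → ∀ (a : F) (t : SpV B), IsTv B v a t → a ≠ 0 →
      ∀ (a' : F) (t' : SpV B), IsTv B (c v) a' t' → f (π t) = π t' → a' ≠ 0 := by
    intro v hv a t ht ha a' t' ht' h ha'
    have h1 : t' = 1 := by
      apply Subtype.ext
      apply LinearEquiv.ext
      intro x
      rw [ht' x, ha', zero_mul, zero_smul, add_zero]
      rfl
    rw [h1, map_one] at h
    have h2 : π t = 1 := by
      apply f.injective
      rw [h, map_one]
    exact tv_not hB hv ha ht (hπ.ker t h2)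
  have horth : ∀ v w, v ≠ 0 → w ≠ 0 → (B v w = 0 ↔ B (c v) (c w) = 0) := by
    intro v w hv hw
    obtain ⟨s, hs⟩ := exists_tv hB v 1
    obtain ⟨t, ht⟩ := exists_tv hB w 1
    obtain ⟨a', s', hs', hfs⟩ := hc v hv 1 s hs
    obtain ⟨b', t', ht', hft⟩ := hc w hw 1 t ht
    have ha' := hne v hv 1 s hs one_ne_zero a' s' hs' hfs
    have hb' := hne w hw 1 t ht one_ne_zero b' t' ht' hft
    constructor
    · intro h
      apply orth_of_comm hB hπ ha' hb' hs' ht'
      rw [← hfs, ← hft, ← map_mul, ← map_mul, ← map_mul, ← map_mul, tv_comm hB h hs ht]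
    · intro h
      apply orth_of_comm hB hπ one_ne_zero one_ne_zero hs ht
      apply f.injective
      rw [map_mul, map_mul, hfs, hft, ← map_mul, ← map_mul, tv_comm hB h hs' ht']
  have hsurj : ∀ w, w ≠ 0 → ∃ v, v ≠ 0 ∧ ∃ a : F, w = a • c v := by
    intro w hw
    obtain ⟨v, hv, hvw⟩ := hf' w hw
    obtain ⟨t, ht⟩ := exists_tv hB w 1
    obtain ⟨a, s, hs, h⟩ := hvw 1 t ht
    obtain ⟨a', s', hs', h'⟩ := hc v hv a s hs
    refine ⟨v, hv, ?_⟩
    have h1 : π t = π s' := by
      rw [← h', ← h]
      exact (MulAut.apply_inv_self G f (π t)).symm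
    obtain ⟨x, hx⟩ := exists_ne hB hw
    have plus : (∀ x, t.1 x = s'.1 x) → ∃ a : F, w = a • c v := by
      intro h2
      have h3 := h2 x
      rw [ht x, hs' x, one_mul] at h3
      have h4 : (B w x) • w = (a' * B (c v) x) • c v := add_left_cancel h3
      refine ⟨(B w x)⁻¹ * (a' * B (c v) x), ?_⟩
      rw [mul_smul, ← h4, smul_smul, inv_mul_cancel₀ hx, one_smul]
    rcases eq_or_neg hπ h1 with h2 | h2
    · exact plus h2
    · by_cases h22 : (2 : F) = 0
      · apply plus
        intro y
        rw [h2 y]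
        have : (2 : F) • s'.1 y = 0 := by rw [h22, zero_smul]
        rw [two_smul] at this
        exact neg_eq_of_add_eq_zero_left this
      · have h3 := h2 w
        rw [ht w, hs' w, hB.alt, mul_zero, zero_smul, add_zero] at h3
        refine ⟨(2 : F)⁻¹ * (-(a' * B (c v) w)), ?_⟩
        rw [mul_smul, neg_smul]
        have h4 : (2 : F) • w = -((a' * B (c v) w) • c v) := by
          rw [two_smul]
          nth_rewrite 1 [h3]
          abel
        rw [← h4, smul_smul, inv_mul_cancel₀ h22, one_smul]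
  refine ⟨c, hc0, hc, horth, hsurj, ?_⟩
  intro u v w hu hv hw
  rw [mem_span_iff hB u v w, mem_span_iff hB (c u) (c v) (c w)]
  constructor
  · intro h x hx h1 h2
    obtain ⟨y, hy, a, rfl⟩ := hsurj x hx
    have ha : a ≠ 0 := by
      rintro rfl
      exact hx (zero_smul _ _)
    rw [map_smul, smul_eq_mul] at h1 h2 ⊢
    have h1' := (mul_eq_zero.1 h1).resolve_left ha
    have h2' := (mul_eq_zero.1 h2).resolve_left ha
    rw [(horth u y hu hy).1 (h y hy ((horth v y hv hy).2 h1') ((horth w y hw hy).2 h2')),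
      mul_zero]
  · intro h x hx h1 h2
    exact (horth u x hu hx).2 (h (c x) (hc0 x hx) ((horth v x hv hx).1 h1)
      ((horth w x hw hx).1 h2))

end Pool.Agent.Y329.DSP
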