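import Mathlib
import Pool.Agent.H84.L.S8_Y60_DC_StmSp

namespace Pool.Agent.Y60.DC
end Pool.Agent.Y60.DC


/-!
SP-GEN: symplectic groups over any field are generated by transvections (project DC of helper60;
proof by helper38).
-/

set_option autoImplicit false

namespace Pool.Agent.Y38.DSP.Gen

open Pool.Agent.Y60.DC

section

variable {F V : Type} [Field F] [AddCommGroup V] [Module F V] {B : V →ₗ[F] V →ₗ[F] F}

lemma skew (hB : IsSymp B) (x y : V) : B y x = -B x y := by
  have h := hB.alt (x + y)
  simp only [map_add, LinearMap.add_apply, hB.alt, zero_add, add_zero] at h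
  exact eq_neg_of_add_eq_zero_left h

/- the linear map of a transvection -/
def tl (B : V →ₗ[F] V →ₗ[F] F) (v : V) (a : F) : V →ₗ[F] V :=
  LinearMap.id + (a • B v).smulRight v

lemma tl_apply (v : V) (a : F) (x : V) : tl B v a x = x + (a * B v x) • v := by
  simp [tl]

lemma tl_tl (hB : IsSymp B) (v : V) (a : F) (x : V) : tl B v a (tl B v (-a) x) = x := by
  rw [tl_apply, tl_apply, map_add, map_smul, hB.alt v, smul_zero, add_zero, add_assoc, ← add_smul]
  have : -a * B v x + a * B v x = 0 := by ring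
  rw [this, zero_smul, add_zero]

/- the transvection -/
def tv (hB : IsSymp B) (v : V) (a : F) : SpV B :=
  ⟨LinearEquiv.ofLinearMap (tl B v a) (tl B v (-a))
    (LinearMap.ext fun x => tl_tl hB v a x)
    (LinearMap.ext fun x => by
      have := tl_tl hB v (-a) x
      rw [neg_neg] at this
      exact this), fun x y => by
    show B (tl B v a x) (tl B v a y) = B x y
    rw [tl_apply, tl_apply]
    simp only [map_add, map_smul, LinearMap.add_apply, LinearMap.smul_apply, smul_eq_mul,
      hB.alt v, skew hB v x]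
    ring⟩

lemma tv_apply (hB : IsSymp B) (v : V) (a : F) (x : V) :
    (tv hB v a).1 x = x + (a * B v x) • v := tl_apply v a x

variable (B) in
/- the group generated by the transvections -/
def TT : Subgroup (SpV B) := Subgroup.closure {t : SpV B | ∃ v a, IsTv B v a t}

lemma tvmap (hB : IsSymp B) (p q : V) (h : B q p ≠ 0) :
    ∃ t ∈ TT B, t.1 p = q ∧ ∀ y, B (q - p) y = 0 → t.1 y = y := by
  refine ⟨tv hB (q - p) (B q p)⁻¹, Subgroup.subset_closure ⟨_, _, tv_apply hB _ _⟩, ?_, ?_⟩
  · rw [tv_apply, map_sub, LinearMap.sub_apply, hB.alt p, sub_zero, inv_mul_cancel₀ h, one_smul]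
    abel
  · intro y hy
    rw [tv_apply, hy, mul_zero, zero_smul, add_zero]

/- the fixed space -/
def Fx (g : SpV B) : Submodule F V :=
  LinearMap.eqLocus (g.1 : V →ₗ[F] V) LinearMap.id

lemma mem_Fx (g : SpV B) (x : V) : x ∈ Fx g ↔ g.1 x = x := Iff.rfl

lemma orth (g : SpV B) {w : V} (hw : w ∈ Fx g) (x : V) : B (g.1 x - x) w = 0 := by
  have h := g.2 x w
  rw [(mem_Fx g w).1 hw] at h
  rw [map_sub, LinearMap.sub_apply, h, sub_self]

lemma mul_ap (s g : SpV B) (x : V) : (s * g).1 x = s.1 (g.1 x) := rfl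

lemma step (hB : IsSymp B) (g : SpV B) (hg : Fx g ≠ ⊤) :
    ∃ s ∈ TT B, Fx g < Fx (s * g) := by
  by_cases hb : ∃ x, B x (g.1 x) ≠ 0
  · obtain ⟨x, hx⟩ := hb
    obtain ⟨t, ht, h1, h2⟩ := tvmap hB (g.1 x) x hx
    refine ⟨t, ht, lt_of_le_of_ne ?_ ?_⟩
    · intro w hw
      rw [mem_Fx, mul_ap, (mem_Fx g w).1 hw]
      refine h2 w ?_
      have := orth g hw x
      rw [← neg_sub, map_neg, LinearMap.neg_apply, this, neg_zero]
    · intro he
      have h3 : x ∈ Fx (t * g) := by rw [mem_Fx, mul_ap]; exact h1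
      rw [← he, mem_Fx] at h3
      rw [h3, hB.alt] at hx
      exact hx rfl
  · push Not at hb
    obtain ⟨x, hx⟩ : ∃ x, g.1 x ≠ x := by
      by_contra hcon
      push Not at hcon
      exact hg (eq_top_iff.2 fun x _ => hcon x)
    obtain ⟨u, hu⟩ : ∃ u, B (g.1 x - x) u ≠ 0 := by
      by_contra hcon
      push Not at hcon
      exact hx (sub_eq_zero.1 (hB.nondeg _ hcon))
    rw [map_sub, LinearMap.sub_apply] at hu
    have hpol : B x (g.1 u) = B (g.1 x) u := by
      have h1 := hb (x + u)
      simp only [map_add, LinearMap.add_apply, hb, zero_add, add_zero] at h1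
      rw [skew hB u (g.1 x)]
      exact eq_neg_of_add_eq_zero_right h1
    set y := x + (g.1 u - u) with hy
    have hxy : B x y ≠ 0 := by
      rw [hy, map_add, map_sub, hB.alt, zero_add, hpol]
      exact hu
    have hyx : B y (g.1 x) ≠ 0 := by
      have h2 : B y (g.1 x) = B (g.1 x) u - B x u := by
        rw [hy, map_add, map_sub, LinearMap.add_apply, LinearMap.sub_apply, hb x, g.2 u x,
          skew hB x u, skew hB (g.1 x) u]
        ring
      rw [h2]
      exact hu
    obtain ⟨t1, ht1, h1, h1'⟩ := tvmap hB (g.1 x) y hyx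
    obtain ⟨t2, ht2, h2, h2'⟩ := tvmap hB y x hxy
    refine ⟨t2 * t1, mul_mem ht2 ht1, lt_of_le_of_ne ?_ ?_⟩
    · intro w hw
      have o1 := orth g hw x
      have o2 := orth g hw u
      rw [mem_Fx, mul_ap, mul_ap, (mem_Fx g w).1 hw, h1' w ?_, h2' w ?_]
      · have e : x - y = -(g.1 u - u) := by rw [hy]; abel
        rw [e, map_neg, LinearMap.neg_apply, o2, neg_zero]
      · have e : y - g.1 x = -(g.1 x - x) + (g.1 u - u) := by rw [hy]; abel
        rw [e, map_add, LinearMap.add_apply, map_neg, LinearMap.neg_apply, o1, o2, neg_zero,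
          add_zero]
    · intro he
      have h3 : x ∈ Fx (t2 * t1 * g) := by rw [mem_Fx, mul_ap, mul_ap, h1, h2]
      rw [← he, mem_Fx] at h3
      exact hx h3

theorem gen [FiniteDimensional F V] (hB : IsSymp B) : ∀ (n : ℕ) (g : SpV B),
    Module.finrank F V - Module.finrank F (Fx g) ≤ n → g ∈ TT B := by
  intro n
  induction n with
  | zero =>
    intro g hg
    have h1 : Fx g = ⊤ := by
      apply Submodule.eq_top_of_finrank_eq
      have := Submodule.finrank_le (Fx g)
      omega
    have h2 : g = 1 := by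
      refine Subtype.ext (LinearEquiv.ext fun x => ?_)
      have h3 : x ∈ Fx g := by rw [h1]; trivial
      exact h3
    rw [h2]
    exact one_mem _
  | succ n ih =>
    intro g hg
    by_cases h : Fx g = ⊤
    · refine ih g ?_
      rw [h, finrank_top, Nat.sub_self]
      exact Nat.zero_le _
    · obtain ⟨s, hs, hlt⟩ := step hB g h
      have h1 := Submodule.finrank_lt_finrank_of_lt hlt
      have h2 := ih (s * g) (by omega)
      have h3 := mul_mem (inv_mem hs) h2
      rwa [inv_mul_cancel_left] at h3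

end

theorem gen_holds : TaskSGEN := by
  intro F V _ _ _ _ B hB
  refine eq_top_iff.2 fun g _ => ?_
  exact gen hB _ g le_rfl

end Pool.Agent.Y38.DSP.Gen
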