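import Mathlib
import Pool.Agent.H84.L.S8_Y60_DC_StmSp

namespace Pool.Agent.Y60.DC
end Pool.Agent.Y60.DC


/-!
# Job 9397: SP-EQV and SP-TRV
-/

set_option autoImplicit false

namespace Pool.Agent.Y665.SPE

open Matrix Pool.Agent.Y60.DC

variable {n : ℕ} {F : Type} [Field F]

lemma JJ : Matrix.J (Fin n) F * Matrix.J (Fin n) F = -1 := Matrix.J_squared (Fin n) F

lemma JT : (Matrix.J (Fin n) F)ᵀ = -Matrix.J (Fin n) F := Matrix.J_transpose (Fin n) F

lemma spB_eq (x y : V₀ n F) : spB n F x y = -(x ⬝ᵥ (Matrix.J (Fin n) F *ᵥ y)) := by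
  rw [spB_apply]
  unfold Matrix.J
  rw [dotProduct, Fintype.sum_sum_type, Finset.sum_sub_distrib]
  have h1 : ∀ i : Fin n, (fromBlocks (0 : Matrix (Fin n) (Fin n) F) (-1) (1 : Matrix (Fin n) (Fin n) F) 0 *ᵥ y)
      (Sum.inl i) =
      -y (Sum.inr i) := by
    intro i
    rw [mulVec, dotProduct, Fintype.sum_sum_type]
    simp [Matrix.one_apply]
  have h2 : ∀ i : Fin n, (fromBlocks (0 : Matrix (Fin n) (Fin n) F) (-1) (1 : Matrix (Fin n) (Fin n) F) 0 *ᵥ y)
      (Sum.inr i) =
      y (Sum.inl i) := by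
    intro i
    rw [mulVec, dotProduct, Fintype.sum_sum_type]
    simp [Matrix.one_apply]
  simp only [h1, h2, mul_neg, Finset.sum_neg_distrib]
  ring

lemma symp : IsSymp (spB n F) where
  alt x := by
    rw [spB_apply]
    exact Finset.sum_eq_zero fun i _ => by ring
  nondeg x h := by
    funext j
    rcases j with i | i
    · have h1 := h (Pi.single (Sum.inr i) 1)
      rw [spB_apply, Finset.sum_eq_single i] at h1
      · simpa using h1
      · intro j _ hj
        rw [Pi.single_eq_of_ne (by simpa using hj), Pi.single_eq_of_ne (by simp)]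
        ring
      · intro hh; exact absurd (Finset.mem_univ _) hh
    · have h1 := h (Pi.single (Sum.inl i) 1)
      rw [spB_apply, Finset.sum_eq_single i] at h1
      · simpa using h1
      · intro j _ hj
        rw [Pi.single_eq_of_ne (by simp), Pi.single_eq_of_ne (by simpa using hj)]
        ring
      · intro hh; exact absurd (Finset.mem_univ _) hh

lemma spB_mul (A : M₀ n F) (x y : V₀ n F) :
    spB n F (A *ᵥ x) (A *ᵥ y) = -(x ⬝ᵥ ((Aᵀ * Matrix.J (Fin n) F * A) *ᵥ y)) := by
  rw [spB_eq, dotProduct_comm, dotProduct_mulVec, dotProduct_comm, vecMul_mulVec_aux]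
  where
  vecMul_mulVec_aux {A : M₀ n F} {x y : V₀ n F} :
      -(x ⬝ᵥ ((Matrix.J (Fin n) F *ᵥ (A *ᵥ y)) ᵥ* A)) =
        -(x ⬝ᵥ ((Aᵀ * Matrix.J (Fin n) F * A) *ᵥ y)) := by
    rw [← mulVec_transpose, mulVec_mulVec, mulVec_mulVec, Matrix.mul_assoc]

lemma mat_ext (M N : M₀ n F) (h : ∀ x y : V₀ n F, x ⬝ᵥ (M *ᵥ y) = x ⬝ᵥ (N *ᵥ y)) : M = N := by
  ext i j
  have := h (Pi.single i 1) (Pi.single j 1)
  simpa using this

lemma isom_iff (A : M₀ n F) :
    A ∈ SpM n F ↔ ∀ x y : V₀ n F, spB n F (A *ᵥ x) (A *ᵥ y) = spB n F x y := by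
  rw [SymplecticGroup.mem_iff']
  constructor
  · intro h x y
    rw [spB_mul, h, ← spB_eq]
  · intro h
    apply mat_ext
    intro x y
    have := h x y
    rw [spB_mul, spB_eq] at this
    exact neg_injective this

lemma sad_mul (A B : M₀ n F) : sad (A * B) = sad B * sad A := by
  unfold sad
  rw [transpose_mul, neg_mul_neg]
  have h : Matrix.J (Fin n) F * Bᵀ * Matrix.J (Fin n) F * (Matrix.J (Fin n) F * Aᵀ *
      Matrix.J (Fin n) F) = Matrix.J (Fin n) F * Bᵀ * (Matrix.J (Fin n) F * Matrix.J (Fin n) F) *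
        Aᵀ * Matrix.J (Fin n) F := by
    simp only [Matrix.mul_assoc]
  rw [h, JJ]
  simp only [Matrix.mul_assoc, Matrix.mul_neg, Matrix.neg_mul, Matrix.mul_one, Matrix.one_mul]

lemma sad_sad (A : M₀ n F) : sad (sad A) = A := by
  unfold sad
  rw [transpose_neg, transpose_mul, transpose_mul, transpose_transpose, JT]
  have h : -(Matrix.J (Fin n) F * -(-Matrix.J (Fin n) F * (A * -Matrix.J (Fin n) F)) *
      Matrix.J (Fin n) F) = (Matrix.J (Fin n) F * Matrix.J (Fin n) F) * A *
        (Matrix.J (Fin n) F * Matrix.J (Fin n) F) := by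
    simp only [Matrix.mul_assoc, Matrix.mul_neg, Matrix.neg_mul, neg_neg]
  rw [h, JJ]
  simp

lemma mem_iff_sad (A : M₀ n F) : A ∈ SpM n F ↔ A * sad A = 1 := by
  rw [SymplecticGroup.mem_iff]
  unfold sad
  constructor
  · intro h
    have h1 : A * -(Matrix.J (Fin n) F * Aᵀ * Matrix.J (Fin n) F) =
        -((A * Matrix.J (Fin n) F * Aᵀ) * Matrix.J (Fin n) F) := by
      simp only [Matrix.mul_assoc, Matrix.mul_neg]
    rw [h1, h, JJ, neg_neg]
  · intro h
    have h1 : A * Matrix.J (Fin n) F * Aᵀ =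
        (A * -(Matrix.J (Fin n) F * Aᵀ * Matrix.J (Fin n) F)) * Matrix.J (Fin n) F := by
      have h2 : (A * -(Matrix.J (Fin n) F * Aᵀ * Matrix.J (Fin n) F)) * Matrix.J (Fin n) F =
          -(A * Matrix.J (Fin n) F * Aᵀ * (Matrix.J (Fin n) F * Matrix.J (Fin n) F)) := by
        simp only [Matrix.mul_assoc, Matrix.mul_neg, Matrix.neg_mul]
      rw [h2, JJ, Matrix.mul_neg, neg_neg, Matrix.mul_one]
    rw [h1, h, Matrix.one_mul]

/- the isometry of a symplectic matrix -/
def toIso (A : SpM n F) : SpV (spB n F) :=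
  ⟨LinearEquiv.ofLinear (Matrix.toLin' (A : M₀ n F)) (Matrix.toLin' (sad (A : M₀ n F)))
    (by rw [← Matrix.toLin'_mul, (mem_iff_sad _).mp A.2, Matrix.toLin'_one])
    (by rw [← Matrix.toLin'_mul, mul_eq_one_comm.mp ((mem_iff_sad _).mp A.2),
      Matrix.toLin'_one]),
    fun x y => (isom_iff _).mp A.2 x y⟩

lemma toIso_apply (A : SpM n F) (x : V₀ n F) : (toIso A).1 x = (A : M₀ n F) *ᵥ x := rfl

theorem eqv_holds : Pool.Agent.Y60.DC.TaskSEQV := by
  intro n F _
  refine ⟨symp, ?_, sad_mul, sad_sad, mem_iff_sad⟩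
  let f : SpM n F →* SpV (spB n F) :=
    { toFun := toIso
      map_one' := by
        apply Subtype.ext
        apply LinearEquiv.ext
        intro x
        rw [toIso_apply]
        simp
      map_mul' := by
        intro A B
        apply Subtype.ext
        apply LinearEquiv.ext
        intro x
        change ((A * B : SpM n F) : M₀ n F) *ᵥ x = (A : M₀ n F) *ᵥ ((B : M₀ n F) *ᵥ x)
        rw [mulVec_mulVec]
        rfl }
  have hinj : Function.Injective f := by
    intro A B h
    apply Subtype.ext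
    apply mat_ext
    intro x y
    have h1 : (f A).1 y = (f B).1 y := by rw [h]
    have h2 : (A : M₀ n F) *ᵥ y = (B : M₀ n F) *ᵥ y := h1
    rw [h2]
  have hsurj : Function.Surjective f := by
    intro g
    have hg : ∀ x, (LinearMap.toMatrix' (g.1 : V₀ n F →ₗ[F] V₀ n F)) *ᵥ x = g.1 x := by
      intro x
      rw [LinearMap.toMatrix'_mulVec]
      rfl
    have hmem : LinearMap.toMatrix' (g.1 : V₀ n F →ₗ[F] V₀ n F) ∈ SpM n F := by
      rw [isom_iff]
      intro x y
      rw [hg, hg]
      exact g.2 x y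
    refine ⟨⟨_, hmem⟩, ?_⟩
    apply Subtype.ext
    apply LinearEquiv.ext
    intro x
    exact hg x
  exact ⟨MulEquiv.ofBijective f ⟨hinj, hsurj⟩, fun A x => rfl⟩

lemma spB_sad (A : M₀ n F) (x y : V₀ n F) : spB n F (sad A *ᵥ x) y = spB n F x (A *ᵥ y) := by
  rw [spB_eq, spB_eq, dotProduct_comm (sad A *ᵥ x), dotProduct_mulVec, dotProduct_comm,
    ← mulVec_transpose, mulVec_mulVec, mulVec_mulVec]
  congr 3
  unfold sad
  rw [transpose_neg, transpose_mul, transpose_mul, transpose_transpose, JT]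
  have h : -(-Matrix.J (Fin n) F * (A * -Matrix.J (Fin n) F)) * Matrix.J (Fin n) F =
      -(Matrix.J (Fin n) F * A * (Matrix.J (Fin n) F * Matrix.J (Fin n) F)) := by
    simp only [Matrix.mul_assoc, Matrix.mul_neg, Matrix.neg_mul, neg_neg]
  rw [h, JJ]
  simp

lemma spB_anti (x y : V₀ n F) : spB n F x y = -spB n F y x := by
  rw [spB_apply, spB_apply, ← Finset.sum_neg_distrib]
  exact Finset.sum_congr rfl fun i _ => by ring

lemma sad_add (A B : M₀ n F) : sad (A + B) = sad A + sad B := by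
  unfold sad
  rw [transpose_add, Matrix.mul_add, Matrix.add_mul, neg_add]

lemma sad_smul (c : F) (A : M₀ n F) : sad (c • A) = c • sad A := by
  unfold sad
  rw [transpose_smul, Matrix.mul_smul, Matrix.smul_mul, smul_neg]

lemma z0_eq : (fromBlocks 1 0 0 0 : M₀ n F) + sad (fromBlocks 1 0 0 0 : M₀ n F) = 1 := by
  unfold sad Matrix.J
  rw [fromBlocks_transpose, fromBlocks_multiply, fromBlocks_multiply, fromBlocks_neg,
    fromBlocks_add, ← fromBlocks_one]
  simp

theorem trv_holds : Pool.Agent.Y60.DC.TaskSTRV := by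
  intro n F _ t v a ht
  set z₀ : M₀ n F := fromBlocks 1 0 0 0 with hz₀
  have hz : z₀ + sad z₀ = 1 := z0_eq
  -- it is enough to find `z` with `z + sad z = 1` and `a * B (v, z v) = 0`
  suffices h : ∃ z : M₀ n F, z + sad z = 1 ∧ (a * spB n F v (z *ᵥ v)) • v = 0 by
    obtain ⟨z, h1, h2⟩ := h
    set N : M₀ n F := t - 1 with hN
    have hNx : ∀ x, N *ᵥ x = (a * spB n F v x) • v := by
      intro x
      rw [hN, sub_mulVec, ht x, one_mulVec, add_sub_cancel_left]
    have h3 : sad z + t * z = 1 + N * z := by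
      have : t = 1 + N := by rw [hN]; simp
      rw [this, Matrix.add_mul, Matrix.one_mul, ← h1]
      abel
    have h4 : (N * z) * (N * z) = 0 := by
      apply mat_ext
      intro x y
      have h5 : ((N * z) * (N * z)) *ᵥ y = 0 := by
        rw [← mulVec_mulVec, ← mulVec_mulVec, ← mulVec_mulVec, hNx (z *ᵥ y), mulVec_smul,
          mulVec_smul, hNx (z *ᵥ v), h2, smul_zero]
      rw [h5, zero_mulVec]
    refine ⟨z, 1 - N * z, h1, ?_⟩
    rw [h3, Matrix.add_mul, Matrix.one_mul, Matrix.mul_sub, Matrix.mul_one, h4, sub_zero]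
    abel
  by_cases hv : v = 0
  · exact ⟨z₀, hz, by rw [hv, smul_zero]⟩
  · have hu : ∃ u : V₀ n F, spB n F u v = 1 := by
      by_contra hcon
      push Not at hcon
      apply hv
      apply symp.nondeg v
      intro y
      by_contra hy
      apply hcon ((-(spB n F v y)⁻¹) • y)
      rw [map_smul, LinearMap.smul_apply, spB_anti y v, smul_eq_mul, neg_mul_neg,
        inv_mul_cancel₀ hy]
    obtain ⟨u, hu⟩ := hu
    let Sl : V₀ n F →ₗ[F] V₀ n F :=
      { toFun := fun x => spB n F u x • u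
        map_add' := fun x y => by rw [map_add, add_smul]
        map_smul' := fun c x => by
          rw [map_smul, smul_eq_mul, mul_smul, RingHom.id_apply] }
    set S : M₀ n F := LinearMap.toMatrix' Sl with hS
    have hSx : ∀ x, S *ᵥ x = spB n F u x • u := by
      intro x
      rw [hS, LinearMap.toMatrix'_mulVec]
      rfl
    have hsadS : S + sad S = 0 := by
      apply mat_ext
      intro x y
      rw [zero_mulVec]
      have h1 : (S + sad S) *ᵥ y = 0 := by
        apply symp.nondeg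
        intro w
        rw [add_mulVec, map_add, LinearMap.add_apply, spB_sad, hSx, hSx, map_smul, map_smul,
          LinearMap.smul_apply, smul_eq_mul, smul_eq_mul, spB_anti y u]
        ring
      rw [h1]
    set k := spB n F v (z₀ *ᵥ v) with hk
    refine ⟨z₀ + k • S, ?_, ?_⟩
    · rw [sad_add, sad_smul]
      have h1 : z₀ + k • S + (sad z₀ + k • sad S) = (z₀ + sad z₀) + k • (S + sad S) := by
        rw [smul_add]; abel
      rw [h1, hz, hsadS, smul_zero, add_zero]
    · have h1 : spB n F v ((z₀ + k • S) *ᵥ v) = 0 := by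
        rw [add_mulVec, smul_mulVec, hSx, map_add, map_smul, map_smul, hu, spB_anti v u, hu, ← hk]
        simp
      rw [h1, mul_zero, zero_smul]

end Pool.Agent.Y665.SPE
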