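import Mathlib
import Pool.Agent.H84.L.S8_Y60_DC_StmSp

namespace Pool.Agent.Y60.DC
end Pool.Agent.Y60.DC


/-!
Project DC, job SP-AUT: automorphisms are semilinear similitudes (assembly).
-/

set_option autoImplicit false

namespace Pool.Agent.Y815.DSP

open Pool.Agent.Y60.DC

section

variable {F V : Type} [Field F] [AddCommGroup V] [Module F V]

/- semilinear similitudes -/
structure Sim (B : V →ₗ[F] V →ₗ[F] F) (φ : F ≃+* F) (g : V ≃+ V) (d : F) : Prop where
  d0 : d ≠ 0
  sm : ∀ (a : F) (v : V), g (a • v) = φ a • g v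
  bl : ∀ v w, B (g v) (g w) = d * φ (B v w)

variable {B : V →ₗ[F] V →ₗ[F] F} {φ : F ≃+* F} {g : V ≃+ V} {d : F}

theorem Sim.symm_smul (h : Sim B φ g d) (a : F) (v : V) :
    g.symm (a • v) = φ.symm a • g.symm v := by
  apply g.injective
  rw [h.sm, AddEquiv.apply_symm_apply, AddEquiv.apply_symm_apply, RingEquiv.apply_symm_apply]

theorem Sim.inv (h : Sim B φ g d) : Sim B φ.symm g.symm (φ.symm d⁻¹) where
  d0 := by
    intro h0
    rw [map_eq_zero_iff _ φ.symm.injective] at h0
    exact inv_ne_zero h.d0 h0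
  sm := h.symm_smul
  bl v w := by
    apply φ.injective
    have h1 := h.bl (g.symm v) (g.symm w)
    rw [AddEquiv.apply_symm_apply, AddEquiv.apply_symm_apply] at h1
    rw [map_mul, RingEquiv.apply_symm_apply, RingEquiv.apply_symm_apply, h1,
      inv_mul_cancel_left₀ h.d0]

/- conjugation by `g` -/
def conjL (h : Sim B φ g d) (s : V ≃ₗ[F] V) : V ≃ₗ[F] V where
  toFun x := g (s (g.symm x))
  map_add' x y := by rw [map_add, map_add, map_add]
  map_smul' a x := by
    rw [h.symm_smul, map_smul, h.sm, RingEquiv.apply_symm_apply, RingHom.id_apply]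
  invFun x := g (s.symm (g.symm x))
  left_inv x := by
    show g (s.symm (g.symm (g (s (g.symm x))))) = x
    rw [AddEquiv.symm_apply_apply, LinearEquiv.symm_apply_apply, AddEquiv.apply_symm_apply]
  right_inv x := by
    show g (s (g.symm (g (s.symm (g.symm x))))) = x
    rw [AddEquiv.symm_apply_apply, LinearEquiv.apply_symm_apply, AddEquiv.apply_symm_apply]

/- conjugation by `g` in the group of isometries -/
def kap (h : Sim B φ g d) : SpV B →* SpV B where
  toFun s := ⟨conjL h s.1, fun x y => by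
    show B (g (s.1 (g.symm x))) (g (s.1 (g.symm y))) = B x y
    rw [h.bl, s.2, ← h.bl, AddEquiv.apply_symm_apply, AddEquiv.apply_symm_apply]⟩
  map_one' := by
    apply Subtype.ext
    apply LinearEquiv.ext
    intro x
    show g (g.symm x) = x
    exact AddEquiv.apply_symm_apply _ _
  map_mul' s t := by
    apply Subtype.ext
    apply LinearEquiv.ext
    intro x
    show g (s.1 (t.1 (g.symm x))) = g (s.1 (g.symm (g (t.1 (g.symm x)))))
    rw [AddEquiv.symm_apply_apply]

theorem kap_apply (h : Sim B φ g d) (s : SpV B) (x : V) :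
    (kap h s).1 x = g (s.1 (g.symm x)) := rfl

theorem kap_inv (h : Sim B φ g d) (s : SpV B) : kap h.inv (kap h s) = s := by
  apply Subtype.ext
  apply LinearEquiv.ext
  intro x
  show g.symm (g (s.1 (g.symm (g.symm.symm x)))) = s.1 x
  rw [AddEquiv.symm_apply_apply]
  congr 1
  exact AddEquiv.symm_apply_apply _ _

theorem inv_kap (h : Sim B φ g d) (s : SpV B) : kap h (kap h.inv s) = s := by
  apply Subtype.ext
  apply LinearEquiv.ext
  intro x
  show g (g.symm (s.1 (g.symm.symm (g.symm x)))) = s.1 x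
  rw [AddEquiv.apply_symm_apply]
  congr 1
  exact AddEquiv.apply_symm_apply _ _

/- the image of a transvection -/
theorem kap_tv (h : Sim B φ g d) {v : V} {a : F} {t : SpV B} (ht : IsTv B v a t) :
    IsTv B (g v) (φ a * d⁻¹) (kap h t) := by
  intro x
  rw [kap_apply, ht, map_add, h.sm, AddEquiv.apply_symm_apply, map_mul]
  have h1 := h.bl v (g.symm x)
  rw [AddEquiv.apply_symm_apply] at h1
  rw [h1, mul_assoc, inv_mul_cancel_left₀ h.d0]

theorem tv_smul {v w : V} {a b : F} {t : SpV B} (ht : IsTv B v a t) (hv : v = b • w) :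
    IsTv B w (a * b * b) t := by
  intro x
  rw [ht, hv, map_smul, LinearMap.smul_apply, smul_eq_mul, smul_smul]
  congr 2
  ring

variable {G : Type} [Group G] {π : SpV B →* G}

/- the kernel of `π` is preserved -/
theorem kap_ker (h : Sim B φ g d) (hπ : IsQuo B π) (s : SpV B) (hs : π s = 1) :
    kap h s = s := by
  apply Subtype.ext
  apply LinearEquiv.ext
  intro x
  rw [kap_apply]
  rcases hπ.ker s hs with h1 | h1
  · rw [h1, h1, AddEquiv.apply_symm_apply]
  · rw [h1, h1, map_neg, AddEquiv.apply_symm_apply]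

theorem kap_wd (h : Sim B φ g d) (hπ : IsQuo B π) (s s' : SpV B) (hs : π s = π s') :
    π (kap h s) = π (kap h s') := by
  have h1 : π (s * s'⁻¹) = 1 := by rw [map_mul, map_inv, hs, mul_inv_cancel]
  have h2 : π (kap h (s * s'⁻¹)) = 1 := by rw [kap_ker h hπ _ h1, h1]
  rw [map_mul, map_mul, map_inv, map_inv, mul_inv_eq_one] at h2
  exact h2

/- the induced map -/
noncomputable def kf (h : Sim B φ g d) (hπ : IsQuo B π) (x : G) : G :=
  π (kap h (Function.surjInv hπ.surj x))

theorem kf_pi (h : Sim B φ g d) (hπ : IsQuo B π) (s : SpV B) : kf h hπ (π s) = π (kap h s) :=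
  kap_wd h hπ _ _ (Function.surjInv_eq hπ.surj (π s))

/- the induced automorphism -/
noncomputable def kA (h : Sim B φ g d) (hπ : IsQuo B π) : MulAut G where
  toFun := kf h hπ
  invFun := kf h.inv hπ
  left_inv x := by
    obtain ⟨s, rfl⟩ := hπ.surj x
    rw [kf_pi, kf_pi, kap_inv]
  right_inv x := by
    obtain ⟨s, rfl⟩ := hπ.surj x
    rw [kf_pi, kf_pi, inv_kap]
  map_mul' x y := by
    obtain ⟨s, rfl⟩ := hπ.surj x
    obtain ⟨t, rfl⟩ := hπ.surj y
    rw [← map_mul, kf_pi, kf_pi, kf_pi, map_mul, map_mul]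

theorem kA_pi (h : Sim B φ g d) (hπ : IsQuo B π) (s : SpV B) : kA h hπ (π s) = π (kap h s) :=
  kf_pi h hπ s

theorem kA_inv (h : Sim B φ g d) (hπ : IsQuo B π) (s : SpV B) :
    (kA h hπ)⁻¹ (π s) = π (kap h.inv s) := kf_pi h.inv hπ s

end

theorem aut_holds : TaskSCOL → TaskFTPG → TaskSSIM → TaskSFIN → TaskSAUT := by
  intro hCOL hFT hSIM hFIN F V _ _ _ _ B hB hdim G _ π hπ f hf hf'
  obtain ⟨c, hc0, hcT, hcO, hcS, hcL⟩ := hCOL F V B hB G π hπ f hf hf'
  obtain ⟨φ, g, hg, hga⟩ := hFT F V hdim c hc0 hcS hcL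
  have hga' : ∀ v, v ≠ 0 → ∃ a : F, a ≠ 0 ∧ g v = a • c v := by
    intro v hv
    obtain ⟨a, ha⟩ := hga v hv
    refine ⟨a, ?_, ha⟩
    rintro rfl
    rw [zero_smul] at ha
    exact hv ((map_eq_zero_iff g g.injective).1 ha)
  have horth : ∀ v w, B v w = 0 ↔ B (g v) (g w) = 0 := by
    intro v w
    by_cases hv : v = 0
    · subst hv
      simp
    by_cases hw : w = 0
    · subst hw
      simp
    obtain ⟨a, ha, hav⟩ := hga' v hv
    obtain ⟨b, hb, hbw⟩ := hga' w hw
    rw [hcO v w hv hw, hav, hbw, map_smul, map_smul, LinearMap.smul_apply, smul_eq_mul,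
      smul_eq_mul, mul_eq_zero, mul_eq_zero]
    constructor
    · intro h
      exact Or.inr (Or.inr h)
    · rintro (h | h | h)
      · exact absurd h hb
      · exact absurd h ha
      · exact h
  obtain ⟨d, hd, hgd⟩ := hSIM F V B hB φ g hg horth
  have h : Sim B φ g d := ⟨hd, hg, hgd⟩
  have hf1 : (kA h hπ)⁻¹ * f = 1 := by
    refine hFIN F V B hB G π hπ _ fun v hv a t ht => ?_
    obtain ⟨a', t'', ht'', hft⟩ := hcT v hv a t ht
    obtain ⟨b, hb, hbv⟩ := hga' v hv
    have h1 : c v = b⁻¹ • g v := by rw [hbv, smul_smul, inv_mul_cancel₀ hb, one_smul]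
    have h2 := tv_smul ht'' h1
    have h3 := kap_tv h.inv h2
    rw [AddEquiv.symm_apply_apply] at h3
    refine ⟨_, _, h3, ?_⟩
    show (kA h hπ)⁻¹ (f (π t)) = _
    rw [hft, kA_inv]
  have hfk : f = kA h hπ := by
    rw [inv_mul_eq_one] at hf1
    exact hf1.symm
  refine ⟨φ, g, d, hd, hg, hgd, fun s s' hss => ?_⟩
  rw [hfk, kA_pi]
  congr 1
  apply Subtype.ext
  apply LinearEquiv.ext
  intro x
  rw [kap_apply, hss, AddEquiv.apply_symm_apply]

end Pool.Agent.Y815.DSP
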