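import Mathlib
import Pool.Agent.H84.L.S8_Y60_DC_StmSp

namespace Pool.Agent.Y60.DC
end Pool.Agent.Y60.DC


/-!
# Automorphisms of symplectic groups in characteristic two permute the transvection groups

Job SP-SYL2 of the project DC (helper60); the proof is the one of the job text.
-/

set_option autoImplicit false
set_option linter.all false

namespace Pool.Agent.Y858.DSP

open Pool.Agent.Y60.DC

section

variable {F V : Type} [Field F] [AddCommGroup V] [Module F V] {B : V →ₗ[F] V →ₗ[F] F}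

theorem two_f (h2 : (2 : F) = 0) (x : F) : x + x = 0 := by rw [← two_mul, h2, zero_mul]

theorem two_v (h2 : (2 : F) = 0) (x : V) : x + x = 0 := by
  rw [← two_smul F x, h2, zero_smul]

theorem add_self_left (h2 : (2 : F) = 0) (x y : V) : x + (x + y) = y := by
  rw [← add_assoc, two_v h2, zero_add]


theorem sy (hB : IsSymp B) (h2 : (2 : F) = 0) (x y : V) : B x y = B y x := by
  have h := hB.alt (x + y)
  simp only [map_add, LinearMap.add_apply, hB.alt, zero_add, add_zero] at h
  have h3 := two_f h2 (B y x)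
  linear_combination h - h3

theorem sp_ext {s t : SpV B} (h : ∀ x, s.1 x = t.1 x) : s = t :=
  Subtype.ext (LinearEquiv.ext h)

theorem sp_mul (s t : SpV B) (x : V) : (s * t).1 x = s.1 (t.1 x) := rfl

theorem sp_inv (s : SpV B) (x : V) : s.1 ((s⁻¹).1 x) = x := s.1.apply_symm_apply x

theorem sp_inv' (s : SpV B) (x : V) : (s⁻¹).1 (s.1 x) = x := s.1.symm_apply_apply x

theorem sp_one (x : V) : (1 : SpV B).1 x = x := rfl

theorem sp_B (s : SpV B) (x y : V) : B (s.1 x) (s.1 y) = B x y := s.2 x y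

/- an involutive isometry -/
def mk2 (φ : V →ₗ[F] V) (h : ∀ x, φ (φ x) = x) (h' : ∀ x y, B (φ x) (φ y) = B x y) : SpV B :=
  ⟨LinearEquiv.ofInvolutive φ h, h'⟩

/- the transvection -/
def tl (B : V →ₗ[F] V →ₗ[F] F) (v : V) (a : F) : V →ₗ[F] V :=
  LinearMap.id + (a • B v).smulRight v

theorem tl_apply (v : V) (a : F) (x : V) : tl B v a x = x + (a * B v x) • v := by
  simp [tl]

def tv (hB : IsSymp B) (h2 : (2 : F) = 0) (v : V) (a : F) : SpV B :=
  mk2 (tl B v a) (fun x => by
    rw [tl_apply, tl_apply, map_add, map_smul, hB.alt, smul_eq_mul, mul_zero, add_zero, add_assoc,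
      two_v h2, add_zero]) (fun x y => by
    rw [tl_apply, tl_apply]
    simp only [map_add, map_smul, LinearMap.add_apply, LinearMap.smul_apply, smul_eq_mul, hB.alt]
    rw [sy hB h2 x v]
    linear_combination (a * B v x * B v y) * h2)

variable (hB : IsSymp B) (h2 : (2 : F) = 0)

theorem tv_apply (v : V) (a : F) (x : V) : (tv hB h2 v a).1 x = x + (a * B v x) • v :=
  tl_apply v a x

theorem isTv_iff (v : V) (a : F) (t : SpV B) : IsTv B v a t ↔ t = tv hB h2 v a := by
  constructor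
  · intro h
    exact sp_ext fun x => by rw [h x, tv_apply]
  · rintro rfl x
    rw [tv_apply]

theorem tv_conj (s : SpV B) (v : V) (a : F) : s * tv hB h2 v a * s⁻¹ = tv hB h2 (s.1 v) a := by
  apply sp_ext
  intro x
  rw [sp_mul, sp_mul, tv_apply, tv_apply, map_add, map_smul, sp_inv]
  congr 3
  rw [← sp_B s v, sp_inv]

/- the elements of the unipotent radical of the stabilizer of `u` -/
def yl (B : V →ₗ[F] V →ₗ[F] F) (u w : V) (b : F) : V →ₗ[F] V :=
  LinearMap.id + (B u).smulRight w + (B w).smulRight u + (b • B u).smulRight u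

theorem yl_apply (u w : V) (b : F) (x : V) :
    yl B u w b x = x + B u x • w + B w x • u + (b * B u x) • u := by
  simp [yl]

include hB h2

theorem yl_yl (u w w' : V) (b b' : F) (huw : B u w = 0) (huw' : B u w' = 0) (x : V) :
    yl B u w b (yl B u w' b' x) = yl B u (w + w') (b + b' + B w w') x := by
  rw [yl_apply, yl_apply, yl_apply]
  simp only [map_add, map_smul, LinearMap.add_apply, smul_eq_mul, hB.alt, huw, huw']
  rw [show B w u = 0 by rw [sy hB h2, huw]]
  module

theorem yl_self (u w : V) (b : F) (huw : B u w = 0) (x : V) :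
    yl B u w b (yl B u w b x) = x := by
  rw [yl_yl hB h2 u w w b b huw huw, two_v h2, hB.alt, two_f h2, yl_apply]
  simp

theorem yl_B (u w : V) (b : F) (huw : B u w = 0) (x y : V) :
    B (yl B u w b x) (yl B u w b y) = B x y := by
  rw [yl_apply, yl_apply]
  simp only [map_add, map_smul, LinearMap.add_apply, LinearMap.smul_apply, smul_eq_mul, hB.alt, huw]
  rw [show B w u = 0 by rw [sy hB h2, huw], sy hB h2 x w, sy hB h2 x u]
  linear_combination (B u x * B w y + B w x * B u y + b * B u x * B u y) * h2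

def ye (u w : V) (b : F) (huw : B u w = 0) : SpV B :=
  mk2 (yl B u w b) (yl_self hB h2 u w b huw) (yl_B hB h2 u w b huw)

theorem ye_apply (u w : V) (b : F) (huw : B u w = 0) (x : V) :
    (ye hB h2 u w b huw).1 x = x + B u x • w + B w x • u + (b * B u x) • u := yl_apply u w b x

theorem ye_conj (s : SpV B) (u w : V) (b : F) (huw : B u w = 0) :
    s * ye hB h2 u w b huw * s⁻¹ = ye hB h2 (s.1 u) (s.1 w) b (by rw [sp_B, huw]) := by
  apply sp_ext
  intro x
  rw [sp_mul, sp_mul, ye_apply, ye_apply]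
  simp only [map_add, map_smul, sp_inv]
  have h1 : ∀ y, B (s.1 y) x = B y ((s⁻¹).1 x) := fun y => by
    rw [← sp_B s y, sp_inv]
  rw [h1, h1]

/- the unipotent radical -/
def QQ (u : V) : Subgroup (SpV B) where
  carrier := {s | ∃ (w : V) (b : F) (h : B u w = 0), s = ye hB h2 u w b h}
  one_mem' := ⟨0, 0, by simp, sp_ext fun x => by rw [ye_apply, sp_one]; simp⟩
  mul_mem' := by
    rintro _ _ ⟨w, b, h, rfl⟩ ⟨w', b', h', rfl⟩
    exact ⟨w + w', b + b' + B w w', by rw [map_add, h, h', add_zero],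
      sp_ext fun x => yl_yl hB h2 u w w' b b' h h' x⟩
  inv_mem' := by
    rintro _ ⟨w, b, h, rfl⟩
    refine ⟨w, b, h, ?_⟩
    rw [inv_eq_iff_mul_eq_one]
    exact sp_ext fun x => yl_self hB h2 u w b h x

theorem QQ_pg (u : V) : IsPGroup 2 (QQ hB h2 u) := by
  rintro ⟨s, w, b, h, rfl⟩
  refine ⟨1, ?_⟩
  apply Subtype.ext
  rw [pow_one, pow_two]
  exact sp_ext fun x => yl_self hB h2 u w b h x

theorem QQ_norm (u : V) (s : SpV B) (hs : s.1 u = u) : s ∈ Subgroup.normalizer (QQ hB h2 u : Set (SpV B)) := by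
  have key : ∀ s : SpV B, s.1 u = u → ∀ g ∈ QQ hB h2 u, s * g * s⁻¹ ∈ QQ hB h2 u := by
    rintro s hs _ ⟨w, b, h, rfl⟩
    refine ⟨s.1 w, b, ?_, ?_⟩
    · rw [← h, ← sp_B s u w, hs]
    · rw [ye_conj]
      congr 1
  show ∀ g, g ∈ QQ hB h2 u ↔ s * g * s⁻¹ ∈ QQ hB h2 u
  intro g
  refine ⟨key s hs g, fun h => ?_⟩
  have h1 := key s⁻¹ (by
    have := sp_inv' s u
    rwa [hs] at this) _ h
  have h3 : s⁻¹ * (s * g * s⁻¹) * s⁻¹⁻¹ = g := by group
  rwa [h3] at h1

omit hB h2

/- maximal 2-subgroups -/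
def Mx {G : Type} [Group G] (P : Subgroup G) : Prop :=
  IsPGroup 2 P ∧ ∀ Q : Subgroup G, IsPGroup 2 Q → P ≤ Q → Q = P

theorem mx_map {G : Type} [Group G] {P : Subgroup G} (hP : Mx P) (φ : G ≃* G) :
    Mx (P.map φ.toMonoidHom) := by
  refine ⟨hP.1.map _, fun Q hQ hle => ?_⟩
  have h1 := hP.2 (Q.comap φ.toMonoidHom) (hQ.comap_of_injective _ φ.injective)
    (Subgroup.map_le_iff_le_comap.1 hle)
  rw [← h1, Subgroup.map_comap_eq_self_of_surjective φ.surjective]

theorem mx_le {G : Type} [Group G] {P : Subgroup G} (hP : Mx P) (Q : Subgroup G)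
    (hQ : IsPGroup 2 Q) (h : P ≤ Subgroup.normalizer (Q : Set G)) : Q ≤ P := by
  have h1 := hP.2 (P ⊔ Q) (hP.1.to_sup_of_normal_right' hQ h) le_sup_left
  rw [← h1]
  exact le_sup_right

theorem mx_exists (G : Type) [Group G] [Finite G] : ∃ P : Subgroup G, Mx P := by
  obtain ⟨P⟩ : Nonempty (Sylow 2 G) := inferInstance
  exact ⟨P.toSubgroup, P.isPGroup', fun Q h1 h2 => P.is_maximal' h1 h2⟩

theorem dual_vec [FiniteDimensional F V] (hB : IsSymp B) {k : ℕ} (e : Fin k → V)
    (he : LinearIndependent F e) (c : Fin k → F) : ∃ w, ∀ i, B w (e i) = c i := by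
  let g₀ : Submodule.span F (Set.range e) →ₗ[F] F := (Finsupp.linearCombination F c) ∘ₗ he.repr
  obtain ⟨g, hg⟩ := LinearMap.exists_extend g₀
  have hinj : Function.Injective B := by
    rw [injective_iff_map_eq_zero]
    intro x hx
    exact hB.nondeg x fun y => by rw [hx, LinearMap.zero_apply]
  have hsurj : Function.Surjective B :=
    (LinearMap.injective_iff_surjective_of_finrank_eq_finrank
      (Subspace.dual_finrank_eq (K := F) (V := V)).symm).1 hinj
  obtain ⟨w, hw⟩ := hsurj g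
  refine ⟨w, fun i => ?_⟩
  have h1 := LinearMap.congr_fun hg ⟨e i, Submodule.subset_span ⟨i, rfl⟩⟩
  rw [hw]
  refine h1.trans ?_
  show Finsupp.linearCombination F c (he.repr ⟨e i, _⟩) = c i
  rw [he.repr_eq_single i ⟨e i, _⟩ rfl]
  simp

theorem fix_exists [Finite F] [FiniteDimensional F V] (h2 : (2 : F) = 0)
    (hV : 1 ≤ Module.finrank F V) (P : Subgroup (SpV B)) (hP : IsPGroup 2 P) :
    ∃ u : V, u ≠ 0 ∧ ∀ s ∈ P, s.1 u = u := by
  haveI : CharP F 2 := CharTwo.of_one_ne_zero_of_two_eq_zero one_ne_zero h2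
  haveI : Finite V := Module.finite_of_finite F
  haveI : Fact (Nat.Prime 2) := ⟨Nat.prime_two⟩
  have h3 : 2 ∣ Nat.card V := by
    have h4 : 2 ∣ Nat.card F := by
      rw [← CharP.cast_eq_zero_iff F 2]
      haveI := Fintype.ofFinite F
      rw [Nat.card_eq_fintype_card]
      exact FiniteField.cast_card_eq_zero F
    rw [Module.natCard_eq_pow_finrank (K := F)]
    exact dvd_pow h4 (by omega)
  obtain ⟨u, hu, hu0⟩ := hP.exists_fixed_point_of_prime_dvd_card_of_fixed_point V h3
    (a := (0 : V)) (fun s => smul_zero s)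
  refine ⟨u, fun h => hu0 h.symm, fun s hs => ?_⟩
  exact hu ⟨s, hs⟩

include hB h2

theorem trans1 {u v : V} (h : B u v ≠ 0) : ∃ s : SpV B, s.1 u = v := by
  refine ⟨tv hB h2 (u + v) (B u v)⁻¹, ?_⟩
  rw [tv_apply, map_add, LinearMap.add_apply, hB.alt, zero_add, sy hB h2 v u, inv_mul_cancel₀ h,
    one_smul, add_self_left h2]

theorem trans2 {u v : V} (hu : u ≠ 0) (hv : v ≠ 0) : ∃ s : SpV B, s.1 u = v := by
  obtain ⟨z, h1, h3⟩ : ∃ z, B u z ≠ 0 ∧ B z v ≠ 0 := by
    obtain ⟨z1, hz1⟩ : ∃ z, B u z ≠ 0 := by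
      by_contra hc
      push Not at hc
      exact hu (hB.nondeg u hc)
    obtain ⟨z2, hz2⟩ : ∃ z, B v z ≠ 0 := by
      by_contra hc
      push Not at hc
      exact hv (hB.nondeg v hc)
    by_cases h3 : B z1 v = 0
    · by_cases h4 : B u z2 = 0
      · refine ⟨z1 + z2, ?_, ?_⟩
        · rw [map_add, h4, add_zero]
          exact hz1
        · rw [map_add, LinearMap.add_apply, h3, zero_add, sy hB h2]
          exact hz2
      · exact ⟨z2, h4, by rw [sy hB h2]; exact hz2⟩
    · exact ⟨z1, hz1, h3⟩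
  obtain ⟨s, hs⟩ := trans1 hB h2 h1
  obtain ⟨t, ht⟩ := trans1 hB h2 h3
  exact ⟨t * s, by rw [sp_mul, hs, ht]⟩

theorem P_exists [Finite F] [FiniteDimensional F V] (hV : 1 ≤ Module.finrank F V) {v : V}
    (hv : v ≠ 0) : ∃ P : Subgroup (SpV B), Mx P ∧ ∀ s ∈ P, s.1 v = v := by
  haveI : Finite V := Module.finite_of_finite F
  haveI : Finite (SpV B) := Finite.of_injective (fun s : SpV B => (s.1 : V → V)) fun s t h =>
    sp_ext fun x => congrFun h x
  obtain ⟨S, hS⟩ := mx_exists (SpV B)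
  obtain ⟨u, hu, hfix⟩ := fix_exists h2 hV S hS.1
  obtain ⟨g, hg⟩ := trans2 hB h2 hu hv
  refine ⟨S.map (MulAut.conj g : SpV B ≃* SpV B).toMonoidHom, mx_map hS _, ?_⟩
  rintro _ ⟨s, hs, rfl⟩
  show (g * s * g⁻¹).1 v = v
  rw [sp_mul, sp_mul]
  have h1 : (g⁻¹).1 v = u := by rw [← hg, sp_inv']
  rw [h1, hfix s hs, hg]

theorem tv_QQ (v : V) (a : F) : tv hB h2 v a ∈ QQ hB h2 v :=
  ⟨0, a, by simp, sp_ext fun x => by rw [tv_apply, ye_apply]; simp⟩

theorem QQ_le {P : Subgroup (SpV B)} (hP : Mx P) {u : V} (hfix : ∀ s ∈ P, s.1 u = u) :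
    QQ hB h2 u ≤ P :=
  mx_le hP _ (QQ_pg hB h2 u) fun s hs => QQ_norm hB h2 u s (hfix s hs)

theorem center_form {P : Subgroup (SpV B)} (hP : Mx P) {u : V} (hu : u ≠ 0)
    (hfix : ∀ s ∈ P, s.1 u = u) (x : SpV B) (hx : x ∈ P) (hc : ∀ s ∈ P, x * s = s * x) :
    ∃ (d : V) (b : F) (h : B u d = 0), x = ye hB h2 u d b h := by
  obtain ⟨z1, hz1⟩ : ∃ z, B u z = 1 := by
    obtain ⟨z, hz⟩ : ∃ z, B u z ≠ 0 := by
      by_contra hc
      push Not at hc
      exact hu (hB.nondeg u hc)
    exact ⟨(B u z)⁻¹ • z, by rw [map_smul, smul_eq_mul, inv_mul_cancel₀ hz]⟩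
  have hxu := hfix x hx
  have h1 : ∀ w, B u w = 0 → ∃ c : F, x.1 w = w + c • u := by
    intro w hw
    have h3 := hc (ye hB h2 u w 0 hw) (QQ_le hB h2 hP hfix ⟨w, 0, hw, rfl⟩)
    have h4 : x * ye hB h2 u w 0 hw * x⁻¹ = ye hB h2 u w 0 hw := by
      rw [h3, mul_assoc, mul_inv_cancel, mul_one]
    rw [ye_conj] at h4
    have h5 := congrArg (fun s : SpV B => s.1 z1) h4
    simp only [ye_apply, hxu, hz1, one_smul, zero_mul, zero_smul, add_zero] at h5
    refine ⟨B w z1 - B (x.1 w) z1, ?_⟩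
    have h6 : x.1 w + B (x.1 w) z1 • u = w + B w z1 • u := by
      rw [add_assoc, add_assoc] at h5
      exact add_left_cancel h5
    rw [sub_smul, ← add_sub_assoc, ← h6, add_sub_cancel_right]
  obtain ⟨d, hd⟩ : ∃ d, d = x.1 z1 + z1 := ⟨_, rfl⟩
  have hxz : x.1 z1 = z1 + d := by
    rw [hd, add_comm (x.1 z1) z1, add_self_left h2]
  have hud : B u d = 0 := by
    rw [hd, map_add]
    have h3 := sp_B x u z1
    rw [hxu] at h3
    rw [h3, two_f h2]
  have hz1' : B z1 u = 1 := by rw [sy hB h2, hz1]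
  have hdu : B d u = 0 := by rw [sy hB h2, hud]
  have h3 : ∀ w, B u w = 0 → x.1 w = w + B d w • u := by
    intro w hw
    obtain ⟨c, hc⟩ := h1 w hw
    have h4 := sp_B x z1 w
    rw [hc, hxz] at h4
    simp only [map_add, map_smul, LinearMap.add_apply, smul_eq_mul, hz1', hdu, mul_zero, add_zero,
      mul_one] at h4
    have h5 : c = B d w := by
      linear_combination h4 - B d w * h2
    rw [hc, h5]
  refine ⟨d, B d z1, hud, sp_ext fun z => ?_⟩
  rw [ye_apply]
  have h4 := h3 (z - B u z • z1) (by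
    rw [map_sub, map_smul, hz1, smul_eq_mul, mul_one, sub_self])
  rw [map_sub, map_smul, hxz, map_sub, map_smul, smul_eq_mul] at h4
  have h5 : x.1 z = z - B u z • z1 + (B d z - B u z * B d z1) • u + B u z • (z1 + d) := by
    rw [← h4]
    abel
  rw [h5]
  linear_combination (norm := module) (-(B u z * B d z1)) • (two_v h2 u)

theorem comm4 (v w : V) (a b : F) (h : (tv hB h2 v a * tv hB h2 w b) ^ 4 = 1) :
    tv hB h2 v a * tv hB h2 w b = tv hB h2 w b * tv hB h2 v a := by
  by_cases h0 : a * (b * B v w) = 0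
  · apply sp_ext
    intro x
    rw [sp_mul, sp_mul, tv_apply, tv_apply, tv_apply, tv_apply]
    simp only [map_add, map_smul, smul_eq_mul]
    rw [sy hB h2 w v]
    have e1 : a * (b * B w x * B v w) = 0 := by linear_combination B w x * h0
    have e2 : b * (a * B v x * B v w) = 0 := by linear_combination B v x * h0
    rw [mul_add, mul_add, e1, e2, add_zero, add_zero]
    abel
  · exfalso
    have ha : a ≠ 0 := fun h1 => h0 (by rw [h1, zero_mul])
    have hb : b ≠ 0 := fun h1 => h0 (by rw [h1, zero_mul, mul_zero])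
    have hβ : B v w ≠ 0 := fun h1 => h0 (by rw [h1, mul_zero, mul_zero])
    obtain ⟨p, hp⟩ : ∃ p, p = a * B v w := ⟨_, rfl⟩
    obtain ⟨q, hq⟩ : ∃ q, q = b * B v w := ⟨_, rfl⟩
    have hAw : (tv hB h2 v a * tv hB h2 w b).1 w = w + p • v := by
      rw [sp_mul, tv_apply hB h2 w, hB.alt, mul_zero, zero_smul, add_zero, tv_apply, hp]
    have hAv : (tv hB h2 v a * tv hB h2 w b).1 v = (1 + p * q) • v + q • w := by
      rw [sp_mul, tv_apply hB h2 w, tv_apply, map_add, map_smul, hB.alt, sy hB h2 w v, hp, hq,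
        smul_eq_mul]
      module
    have h1 : ((tv hB h2 v a * tv hB h2 w b) ^ 4).1 w = w := by rw [h]; rfl
    have h3 : ((tv hB h2 v a * tv hB h2 w b) ^ 4).1 w =
        (1 + 6 * p * q + 5 * p ^ 2 * q ^ 2 + p ^ 3 * q ^ 3) • w +
          (4 * p + 10 * p ^ 2 * q + 6 * p ^ 3 * q ^ 2 + p ^ 4 * q ^ 3) • v := by
      rw [pow_succ, pow_succ, pow_succ, pow_one, sp_mul, sp_mul, sp_mul, hAw]
      simp only [map_add, map_smul, hAw, hAv]
      module
    have h4 := congrArg (B w) (h3.symm.trans h1)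
    simp only [map_add, map_smul, smul_eq_mul, hB.alt, mul_zero, zero_add] at h4
    rw [sy hB h2 w v] at h4
    have h5 : p ^ 4 * q ^ 3 * B v w = 0 := by
      linear_combination h4 - (2 * p + 5 * p ^ 2 * q + 3 * p ^ 3 * q ^ 2) * B v w * h2
    rw [hp, hq] at h5
    have h6 : (a * B v w) ^ 4 * (b * B v w) ^ 3 * B v w ≠ 0 := by positivity
    exact h6 h5

/- the choice of `u'` -/
theorem exists_u' [FiniteDimensional F V] (hV : 6 ≤ Module.finrank F V) {u d w' : V}
    (hu : u ≠ 0) (hud : B u d = 0) (hwu : B w' u = 0) (hwd : B w' d = 1) :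
    ∃ u', B u u' = 0 ∧ B d u' = 0 ∧ B w' u' = 0 ∧
      u' ∉ Submodule.span F (Set.range ![u, d, w']) := by
  by_contra hcon
  push Not at hcon
  have hdw : B d w' = 1 := by rw [sy hB h2, hwd]
  have hdu : B d u = 0 := by rw [sy hB h2, hud]
  let φ : V →ₗ[F] (Fin 3 → F) := LinearMap.pi ![B u, B d, B w']
  have h1 : LinearMap.ker φ ≤ Submodule.span F {u} := by
    intro y hy
    have h3 : φ y = 0 := hy
    have e0 : B u y = 0 := congrFun h3 0
    have e1 : B d y = 0 := congrFun h3 1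
    have e2 : B w' y = 0 := congrFun h3 2
    have h4 := hcon y e0 e1 e2
    rw [Submodule.mem_span_range_iff_exists_fun] at h4
    obtain ⟨c, hc⟩ := h4
    rw [Fin.sum_univ_three] at hc
    simp only [Matrix.cons_val_zero, Matrix.cons_val_one, Matrix.cons_val_two, Matrix.head_cons,
      Matrix.tail_cons, Matrix.cons_val] at hc
    rw [← hc] at e1 e2
    simp only [map_add, map_smul, smul_eq_mul, hB.alt, hwu, hwd, hdw, hdu, mul_zero, mul_one,
      zero_add, add_zero] at e1 e2
    rw [← hc, e1, e2, zero_smul, zero_smul, add_zero, add_zero]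
    exact Submodule.smul_mem _ _ (Submodule.mem_span_singleton_self u)
  have h3 := Submodule.finrank_mono h1
  rw [finrank_span_singleton hu] at h3
  have h4 := LinearMap.finrank_range_add_finrank_ker φ
  have h5 : Module.finrank F (LinearMap.range φ) ≤ 3 := by
    have := Submodule.finrank_le (LinearMap.range φ)
    rw [Module.finrank_fin_fun] at this
    exact this
  omega

theorem no_d [FiniteDimensional F V] (hV : 6 ≤ Module.finrank F V) (f : SpV B ≃* SpV B) (v : V)
    (a : F) {u d : V} (b : F) (hu : u ≠ 0) (hud : B u d = 0)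
    (hf : f (tv hB h2 v a) = ye hB h2 u d b hud) : ∃ c : F, d = c • u := by
  by_contra hcon
  push Not at hcon
  have hdu : B d u = 0 := by rw [sy hB h2, hud]
  have hi2 : LinearIndependent F ![u, d] := by
    rw [LinearIndependent.pair_iff' hu]
    exact fun c hc => hcon c hc.symm
  obtain ⟨w', hw'⟩ := dual_vec hB ![u, d] hi2 ![0, 1]
  have hwu : B w' u = 0 := hw' 0
  have hwd : B w' d = 1 := hw' 1
  have huw : B u w' = 0 := by rw [sy hB h2, hwu]
  have hdw : B d w' = 1 := by rw [sy hB h2, hwd]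
  obtain ⟨u', k1, k2, k3, k4⟩ := exists_u' hB h2 hV hu hud hwu hwd
  have k1' : B u' u = 0 := by rw [sy hB h2, k1]
  have k2' : B u' d = 0 := by rw [sy hB h2, k2]
  have k3' : B u' w' = 0 := by rw [sy hB h2, k3]
  have hi3 : LinearIndependent F ![u, d, w'] := by
    rw [Fintype.linearIndependent_iff]
    intro c hc
    rw [Fin.sum_univ_three] at hc
    simp only [Matrix.cons_val_zero, Matrix.cons_val_one, Matrix.cons_val_two, Matrix.head_cons,
      Matrix.tail_cons, Matrix.cons_val] at hc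
    have e1 := congrArg (B w') hc
    have e2 := congrArg (B d) hc
    simp only [map_add, map_smul, smul_eq_mul, hB.alt, hwu, hwd, hdw, hdu, mul_zero, mul_one,
      zero_add, add_zero, map_zero] at e1 e2
    rw [e1, e2, zero_smul, zero_smul, add_zero, add_zero] at hc
    have e0 := (smul_eq_zero.1 hc).resolve_right hu
    intro i
    fin_cases i
    · exact e0
    · exact e1
    · exact e2
  have hi4 : LinearIndependent F ![u', u, d, w'] := by
    have h := (linearIndependent_fin_cons (K := F) (x := u') (v := ![u, d, w'])).2 ⟨hi3, k4⟩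
    exact h
  obtain ⟨m, hm⟩ := dual_vec hB ![u', u, d, w'] hi4 ![1, 1, 0, 0]
  have m1 : B m u' = 1 := hm 0
  have m2 : B m u = 1 := hm 1
  have m3 : B m d = 0 := hm 2
  have m4 : B m w' = 0 := hm 3
  have m1' : B u' m = 1 := by rw [sy hB h2, m1]
  have m2' : B u m = 1 := by rw [sy hB h2, m2]
  obtain ⟨g, hg⟩ : ∃ g, g = tv hB h2 (m + u') 1 * tv hB h2 (u + m) 1 * tv hB h2 (d + w') 1 :=
    ⟨_, rfl⟩
  have hgd : g.1 d = w' := by
    have e1 : B (d + w') d = 1 := by rw [map_add, LinearMap.add_apply, hB.alt, hwd, zero_add]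
    have e2 : B (u + m) w' = 0 := by rw [map_add, LinearMap.add_apply, huw, m4, add_zero]
    have e3 : B (m + u') w' = 0 := by rw [map_add, LinearMap.add_apply, k3', m4, add_zero]
    rw [hg, sp_mul, sp_mul, tv_apply hB h2 (d + w') 1 d, e1, mul_one, one_smul,
      add_self_left h2, tv_apply hB h2 (u + m) 1 w', e2, mul_zero, zero_smul, add_zero,
      tv_apply hB h2 (m + u') 1 w', e3, mul_zero, zero_smul, add_zero]
  have hgu : g.1 u = u' := by
    have e1 : B (d + w') u = 0 := by rw [map_add, LinearMap.add_apply, hdu, hwu, add_zero]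
    have e2 : B (u + m) u = 1 := by rw [map_add, LinearMap.add_apply, hB.alt, m2, zero_add]
    have e3 : B (m + u') m = 1 := by rw [map_add, LinearMap.add_apply, hB.alt, m1', zero_add]
    rw [hg, sp_mul, sp_mul, tv_apply hB h2 (d + w') 1 u, e1, mul_zero, zero_smul, add_zero,
      tv_apply hB h2 (u + m) 1 u, e2, mul_one, one_smul, add_self_left h2,
      tv_apply hB h2 (m + u') 1 m, e3, mul_one, one_smul, add_self_left h2]
  obtain ⟨x, hx⟩ : ∃ x, x = ye hB h2 u d b hud := ⟨_, rfl⟩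
  obtain ⟨x', hx'⟩ : ∃ x', x' = g * x * g⁻¹ := ⟨_, rfl⟩
  have X1 : ∀ z, x.1 z = z + B u z • d + B d z • u + (b * B u z) • u := fun z => by
    rw [hx, ye_apply]
  have X2 : ∀ z, x'.1 z = z + B u' z • w' + B w' z • u' + (b * B u' z) • u' := fun z => by
    rw [hx', hx, ye_conj, ye_apply, hgu, hgd]
  have c1 : x.1 u = u := by rw [X1, hB.alt, hdu]; simp
  have c2 : x.1 d = d := by rw [X1, hud, hB.alt]; simp
  have c3 : x.1 w' = w' + u := by rw [X1, huw, hdw]; simp
  have c4 : x.1 u' = u' := by rw [X1, k1, k2]; simp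
  have c1' : x'.1 u = u := by rw [X2, k1', hwu]; simp
  have c2' : x'.1 u' = u' := by rw [X2, k3, hB.alt]; simp
  have c3' : x'.1 w' = w' := by rw [X2, k3', hB.alt]; simp
  have c4' : x'.1 d = d + u' := by rw [X2, k2', hwd]; simp
  have Y : ∀ z, (x * x').1 z = z + B u z • d + (B d z + b * B u z + B u' z) • u + B u' z • w' +
      (B w' z + b * B u' z) • u' := by
    intro z
    rw [sp_mul, X2]
    simp only [map_add, map_smul, c3, c4]
    rw [X1]
    module
  have Yu : (x * x').1 u = u := by rw [sp_mul, c1', c1]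
  have Yu' : (x * x').1 u' = u' := by rw [sp_mul, c2', c4]
  have Yw : (x * x').1 w' = w' + u := by rw [sp_mul, c3', c3]
  have Yd : (x * x').1 d = d + u' := by rw [sp_mul, c4', map_add, c2, c4]
  have Y2 : ∀ z, (x * x').1 ((x * x').1 z) = z + B u z • u' + B u' z • u := by
    intro z
    rw [Y z]
    simp only [map_add, map_smul, Yu, Yu', Yw, Yd]
    rw [Y z]
    linear_combination (norm := module) (B u z) • (two_v h2 d) +
      (B d z + b * B u z + B u' z) • (two_v h2 u) + (B u' z) • (two_v h2 w') +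
      (B w' z + b * B u' z) • (two_v h2 u')
  have Y2u : (x * x').1 ((x * x').1 u) = u := by rw [Yu, Yu]
  have Y2u' : (x * x').1 ((x * x').1 u') = u' := by rw [Yu', Yu']
  have Y4 : (x * x') ^ 4 = 1 := by
    apply sp_ext
    intro z
    rw [pow_succ, pow_succ, pow_succ, pow_one, sp_mul, sp_mul, sp_mul, sp_one, Y2 z]
    simp only [map_add, map_smul, Y2u, Y2u']
    rw [Y2 z]
    linear_combination (norm := module) (B u z) • (two_v h2 u') + (B u' z) • (two_v h2 u)
  have hne : x * x' ≠ x' * x := by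
    intro h
    have h1 := congrArg (fun s : SpV B => s.1 m) h
    simp only [sp_mul] at h1
    rw [X2 m, X1 m] at h1
    simp only [map_add, map_smul, c1', c2', c3', c4', c1, c2, c3, c4, X1 m, X2 m, m1', m2'] at h1
    have h3 : u = u' := by
      linear_combination (norm := module) h1
    apply k4
    rw [← h3]
    exact Submodule.subset_span ⟨0, rfl⟩
  -- transport
  have hfx : f (tv hB h2 v a) = x := by rw [hf, hx]
  have hfx' : f (tv hB h2 ((f.symm g).1 v) a) = x' := by
    rw [← tv_conj, map_mul, map_mul, map_inv, f.apply_symm_apply, hfx, hx']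
  have h1 : (tv hB h2 v a * tv hB h2 ((f.symm g).1 v) a) ^ 4 = 1 := by
    apply f.injective
    rw [map_pow, map_mul, hfx, hfx', Y4, map_one]
  have h3 := congrArg f (comm4 hB h2 _ _ _ _ h1)
  rw [map_mul, map_mul, hfx, hfx'] at h3
  exact hne h3

theorem core [Finite F] [FiniteDimensional F V] (hV : 6 ≤ Module.finrank F V)
    (f : SpV B ≃* SpV B) {v : V} (hv : v ≠ 0) :
    ∃ v' : V, v' ≠ 0 ∧ ∀ a : F, ∃ a' : F, f (tv hB h2 v a) = tv hB h2 v' a' := by
  obtain ⟨P, hP, hfix⟩ := P_exists hB h2 (by omega) hv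
  have hP' := mx_map hP f
  obtain ⟨u, hu, hfix'⟩ := fix_exists h2 (by omega) _ hP'.1
  refine ⟨u, hu, fun a => ?_⟩
  have h1 : tv hB h2 v a ∈ P := QQ_le hB h2 hP hfix (tv_QQ hB h2 v a)
  obtain ⟨d, b, hd, hx⟩ := center_form hB h2 hP' hu hfix' (f (tv hB h2 v a)) ⟨_, h1, rfl⟩ (by
    rintro _ ⟨s, hs, rfl⟩
    show f (tv hB h2 v a) * f s = f s * f (tv hB h2 v a)
    rw [← map_mul, ← map_mul]
    congr 1
    have h3 := tv_conj hB h2 s v a
    rw [hfix s hs] at h3
    exact (mul_inv_eq_iff_eq_mul.1 h3).symm)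
  obtain ⟨c, rfl⟩ := no_d hB h2 hV f v a b hu hd hx
  refine ⟨b, ?_⟩
  rw [hx]
  apply sp_ext
  intro z
  rw [ye_apply, tv_apply, map_smul, LinearMap.smul_apply, smul_eq_mul]
  linear_combination (norm := module) (c * B u z) • (two_v h2 u)

end

theorem syl2_holds : TaskSSYL2 := by
  intro F V _ _ _ _ _ B hB h2 hV G _ π hπ f v hv
  have hinj : Function.Injective π := by
    rw [injective_iff_map_eq_one]
    intro s hs
    rcases hπ.ker s hs with h | h
    · exact sp_ext fun x => by rw [h x, sp_one]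
    · refine sp_ext fun x => ?_
      rw [h x, sp_one]
      exact (eq_neg_of_add_eq_zero_left (two_v h2 x)).symm
  let e : SpV B ≃* G := MulEquiv.ofBijective π ⟨hinj, hπ.surj⟩
  obtain ⟨v', hv', h⟩ := core hB h2 hV ((e.trans f).trans e.symm) hv
  refine ⟨v', hv', fun a t ht => ?_⟩
  obtain ⟨a', ha'⟩ := h a
  refine ⟨a', tv hB h2 v' a', (isTv_iff hB h2 v' a' _).2 rfl, ?_⟩
  rw [(isTv_iff hB h2 v a t).1 ht]
  have h1 : e.symm (f (e (tv hB h2 v a))) = tv hB h2 v' a' := ha'
  have h3 := congrArg e h1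
  rw [e.apply_symm_apply] at h3
  exact h3

end Pool.Agent.Y858.DSP
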