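import Mathlib
import Pool.Agent.H84.L.A7_T2H67_AG_PKDef
import Pool.Agent.H84.L.A7_T2H67_SA_Act
import Pool.Agent.H84.L.A7_T2H67_SA_Aut
import Pool.Agent.H84.L.A7_T2H67_SA_Cl
import Pool.Agent.H84.L.A7_T2H67_SA_FinA
import Pool.Agent.H84.L.A7_T2H67_SA_KerDef
import Pool.Agent.H84.L.A7_T2H67_SA_Main
import Pool.Agent.H84.L.S8_H391R2_T4_Red
import Pool.Agent.H84.L.S8_H391R2_T4_Sem
import Pool.Agent.H84.L.S8_TH15_IGP_TwB
import Pool.Agent.H84.L.S8_TH444_TW_Ab
import Pool.Agent.H84.L.S8_TH444_TW_Cls
import Pool.Agent.H84.L.S8_TH444_TW_RS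
import Pool.Agent.H84.L.S8_TH444_TW_RSK
import Pool.Agent.H84.L.S8_W200_IJ_SA
import Pool.Agent.H84.L.S8_Y60_DC_Def
import Pool.Agent.H84.L.S8_Y60_DC_Good
import Pool.Agent.H84.L.S8_Y60_DC_RecC
import Pool.Agent.H84.L.S8_Y60_DC_StmSp
import Pool.Agent.H84.L.S8_Y676_DSP_Simple

namespace Pool.Agent.H391R2
end Pool.Agent.H391R2
namespace Pool.Agent.H391R2.T4
end Pool.Agent.H391R2.T4
namespace Pool.Agent.TH444.TW
end Pool.Agent.TH444.TW
namespace Pool.Agent.Y60.DC
end Pool.Agent.Y60.DC


/-!
# Kernels whose composition factors are alternating groups, characteristic 0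
-/

set_option autoImplicit false

namespace Pool.Agent.T2H67.AG

open Pool.Agent.H391R2 Pool.Agent.H391R2.T4 Equiv
open Pool.Agent.TH444.TW (RSK ab_rs)
open Pool.Agent.Y60.DC (CompIn GoodKerP)

/- Extensions by an alternating group split. -/
theorem alt_section {X Γ : Type} [Group X] [Group Γ] (α : X →* Γ) (hα : Function.Surjective α)
    {d : ℕ} (h5 : 5 ≤ d) (h6 : d ≠ 6) (e : α.ker ≃* alternatingGroup (Fin d)) :
    ∃ s : Γ →* X, ∀ w, α (s w) = w := by
  classical
  let R : X → Perm (Fin d) → Prop := fun x σ =>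
    ∀ k : α.ker, ((e (MulAut.conjNormal x k) : alternatingGroup (Fin d)) : Perm (Fin d)) =
      σ * e k * σ⁻¹
  have hmul : ∀ x y σ τ, R x σ → R y τ → R (x * y) (σ * τ) := by
    intro x y σ τ hx hy k
    rw [map_mul, MulAut.mul_apply, hx, hy, mul_inv_rev]
    group
  have hinv : ∀ x σ, R x σ → R x⁻¹ σ⁻¹ := by
    intro x σ hx k
    have h1 := hx (MulAut.conjNormal x⁻¹ k)
    rw [← MulAut.mul_apply, ← map_mul, mul_inv_cancel, map_one, MulAut.one_apply] at h1
    rw [h1]
    group
  have hone : R 1 1 := by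
    intro k
    rw [map_one, MulAut.one_apply, one_mul, inv_one, mul_one]
  have huniq : ∀ x σ τ, R x σ → R x τ → σ = τ := by
    intro x σ τ hx hy
    have h1 : τ⁻¹ * σ = 1 := by
      refine Pool.Agent.T2H67.SA.perm_comm h5 fun b => ?_
      obtain ⟨k, rfl⟩ := e.surjective b
      have h2 := (hx k).symm.trans (hy k)
      have h3 : τ⁻¹ * σ * (e k : Perm (Fin d)) * (τ⁻¹ * σ)⁻¹ =
          τ⁻¹ * (σ * (e k : Perm (Fin d)) * σ⁻¹) * τ := by group
      rw [h3, h2]
      group
    rw [← mul_one τ, ← h1, mul_inv_cancel_left]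
  have hker : ∀ k : α.ker, R k.1 (e k) := by
    intro k j
    have h1 : MulAut.conjNormal k.1 j = k * j * k⁻¹ := by
      apply Subtype.ext
      rw [MulAut.conjNormal_apply]
      rfl
    rw [h1, map_mul, map_mul, map_inv]
    rfl
  have hex : ∀ x, ∃ σ, R x σ := by
    intro x
    obtain ⟨σ, hσ⟩ := Pool.Agent.T2H67.SA.aut_stm d h5 h6
      ((e.symm.trans (MulAut.conjNormal x)).trans e)
    refine ⟨σ, fun k => ?_⟩
    have h1 := hσ (e k)
    change ((e (MulAut.conjNormal x (e.symm (e k))) : alternatingGroup (Fin d)) : Perm (Fin d)) = _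
      at h1
    rwa [e.symm_apply_apply] at h1
  let τ : Perm (Fin d) := swap ⟨0, by omega⟩ ⟨1, by omega⟩
  have hτs : Perm.sign τ = -1 := Perm.sign_swap (by
    intro h
    have := congrArg Fin.val h
    simp at this)
  have hττ : τ * τ = 1 := swap_mul_self _ _
  have hτinv : τ⁻¹ = τ := swap_inv _ _
  let N : Subgroup X :=
    { carrier := {x | R x 1 ∨ R x τ}
      mul_mem' := by
        rintro x y (hx | hx) (hy | hy)
        · left
          have := hmul _ _ _ _ hx hy
          rwa [mul_one] at this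
        · right
          have := hmul _ _ _ _ hx hy
          rwa [one_mul] at this
        · right
          have := hmul _ _ _ _ hx hy
          rwa [mul_one] at this
        · left
          have := hmul _ _ _ _ hx hy
          rwa [hττ] at this
      one_mem' := Or.inl hone
      inv_mem' := by
        rintro x (hx | hx)
        · left
          have := hinv _ _ hx
          rwa [inv_one] at this
        · right
          have := hinv _ _ hx
          rwa [hτinv] at this }
  have hN : ∀ x, x ∈ N ↔ R x 1 ∨ R x τ := fun x => Iff.rfl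
  have hbij : Function.Bijective (α.comp N.subtype) := by
    constructor
    · rw [injective_iff_map_eq_one]
      rintro ⟨x, hx⟩ hx1
      have hxk : x ∈ α.ker := hx1
      have h1 := hker ⟨x, hxk⟩
      have h2 : ((e ⟨x, hxk⟩ : alternatingGroup (Fin d)) : Perm (Fin d)) = 1 := by
        rcases (hN x).1 hx with h | h
        · exact huniq _ _ _ h1 h
        · exfalso
          have h3 := huniq _ _ _ h1 h
          have h4 : Perm.sign ((e ⟨x, hxk⟩ : alternatingGroup (Fin d)) : Perm (Fin d)) = 1 :=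
            Perm.mem_alternatingGroup.1 (e ⟨x, hxk⟩).2
          rw [h3, hτs] at h4
          exact absurd h4 (by decide)
      have h3 : e ⟨x, hxk⟩ = 1 := Subtype.ext h2
      have h4 : (⟨x, hxk⟩ : α.ker) = 1 := e.injective (by rw [h3, map_one])
      have h5 : x = 1 := congrArg Subtype.val h4
      exact Subtype.ext h5
    · intro y
      obtain ⟨x, rfl⟩ := hα y
      obtain ⟨σ, hσ⟩ := hex x
      rcases Int.units_eq_one_or (Perm.sign σ) with hs | hs
      · let k : α.ker := e.symm ⟨σ, Perm.mem_alternatingGroup.2 hs⟩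
        have hk : ((e k : alternatingGroup (Fin d)) : Perm (Fin d)) = σ := by
          rw [e.apply_symm_apply]
        refine ⟨⟨k.1⁻¹ * x, ?_⟩, ?_⟩
        · rw [hN]
          left
          have := hmul _ _ _ _ (hinv _ _ (hker k)) hσ
          rwa [hk, inv_mul_cancel] at this
        · change α (k.1⁻¹ * x) = α x
          rw [map_mul, map_inv, k.2, inv_one, one_mul]
      · have hs' : Perm.sign (σ * τ) = 1 := by
          rw [map_mul, hs, hτs]
          decide
        let k : α.ker := e.symm ⟨σ * τ, Perm.mem_alternatingGroup.2 hs'⟩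
        have hk : ((e k : alternatingGroup (Fin d)) : Perm (Fin d)) = σ * τ := by
          rw [e.apply_symm_apply]
        refine ⟨⟨k.1⁻¹ * x, ?_⟩, ?_⟩
        · rw [hN]
          right
          have := hmul _ _ _ _ (hinv _ _ (hker k)) hσ
          rwa [hk, mul_inv_rev, hτinv, mul_assoc, inv_mul_cancel, mul_one] at this
        · change α (k.1⁻¹ * x) = α x
          rw [map_mul, map_inv, k.2, inv_one, one_mul]
  let f : N ≃* Γ := MulEquiv.ofBijective (α.comp N.subtype) hbij
  refine ⟨N.subtype.comp f.symm.toMonoidHom, fun w => ?_⟩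
  exact f.apply_symm_apply w

/- Alternating groups are good in characteristic 0. -/
theorem good_alt (T : Type) [Group T] (hT : AltFactor T) : GoodKerP 0 T := by
  obtain ⟨d, h5, h6, ⟨f⟩⟩ := hT
  intro K L X _ _ _ _ _ _ _ _ α hα ⟨e⟩
  have hK : CharZero K := CharP.charP_to_charZero K
  have hs := Pool.Agent.T2H67.SA.alt_simple h5
  obtain ⟨s, hs'⟩ := alt_section α hα h5 h6 (e.trans f)
  have hfin : Finite α.ker := Finite.of_equiv _ (e.trans f).symm.toEquiv
  have hfX : Finite X := Pool.Agent.TH444.TW.finite_of_ker α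
  refine Pool.Agent.T2H67.SA.built_reg K L X α L s (fun ρ => ?_) ?_
  · rw [hs', Pool.Agent.TH444.TW.restrictNormal_self]
  · have h1 : Pool.Agent.T2H67.SA.CentAlt α.ker := by
      have hZ : Subgroup.center α.ker = ⊥ := Pool.Agent.Y60.DC.center_iso (e.trans f).symm
        (alternatingGroup.center_eq_bot (by rw [Nat.card_eq_fintype_card, Fintype.card_fin]; omega))
      refine ⟨Unit, inferInstance, fun _ => d, fun _ => ⟨h5, h6⟩, ?_, ⟨?_⟩⟩
      · intro _ z hz _
        rw [hZ, Subgroup.mem_bot] at hz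
        exact hz
      · refine ((QuotientGroup.quotientMulEquivOfEq hZ).trans QuotientGroup.quotientBot).trans
          ((e.trans f).trans ?_)
        exact (MulEquiv.piUnique (fun _ : Unit => alternatingGroup (Fin d))).symm
    have h2 := Pool.Agent.T2H67.SA.Built.step (H₀ := s.range) ⊥ α.ker
      Pool.Agent.T2H67.SA.Built.one (fun x _ y hy => (inferInstance : α.ker.Normal).conj_mem y hy x)
      h1
    rwa [sup_bot_eq] at h2

end Pool.Agent.T2H67.AG
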