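import Mathlib



/-!
# Complements of an abelian normal subgroup of coprime order are conjugate
-/

set_option autoImplicit false

namespace Pool.Agent.T2H67.AG

variable {E : Type} [Group E]

/- `T Q = T Q'` and both intersections with `T` are trivial: the cocycle. -/
theorem conj_compl [Finite E] (T Q Q' : Subgroup E) [hT : T.Normal]
    (hab : ∀ x ∈ T, ∀ y ∈ T, x * y = y * x) (h2 : T ⊓ Q' = ⊥)
    (h3 : ∀ q ∈ Q, ∃ q' ∈ Q', q * q'⁻¹ ∈ T) (h4 : Nat.card Q' ≤ Nat.card Q) (h1 : T ⊓ Q = ⊥)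
    (hco : (Nat.card T).Coprime (Nat.card Q)) :
    ∃ t ∈ T, ∀ x, x ∈ Q ↔ t⁻¹ * x * t ∈ Q' := by
  classical
  let _ : CommGroup T :=
    { (inferInstance : Group T) with
      mul_comm := fun x y => Subtype.ext (hab x.1 x.2 y.1 y.2) }
  have : Fintype Q := Fintype.ofFinite Q
  choose! f hf1 hf2 using h3
  -- uniqueness
  have huniq : ∀ q ∈ Q, ∀ x ∈ Q', q * x⁻¹ ∈ T → x = f q := by
    intro q hq x hx hxT
    have h5 : (q * x⁻¹)⁻¹ * (q * (f q)⁻¹) ∈ T := T.mul_mem (T.inv_mem hxT) (hf2 q hq)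
    have h6 : x * (f q)⁻¹ ∈ T := by
      have : (q * x⁻¹)⁻¹ * (q * (f q)⁻¹) = x * (f q)⁻¹ := by group
      rwa [this] at h5
    have h7 : x * (f q)⁻¹ ∈ Q' := Q'.mul_mem hx (Q'.inv_mem (hf1 q hq))
    have h8 : x * (f q)⁻¹ ∈ T ⊓ Q' := ⟨h6, h7⟩
    rw [h2, Subgroup.mem_bot] at h8
    exact mul_inv_eq_one.1 h8
  have hmul : ∀ q ∈ Q, ∀ r ∈ Q, f (q * r) = f q * f r := by
    intro q hq r hr
    symm
    refine huniq (q * r) (Q.mul_mem hq hr) _ (Q'.mul_mem (hf1 q hq) (hf1 r hr)) ?_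
    have h5 : q * r * (f q * f r)⁻¹ = q * (r * (f r)⁻¹) * q⁻¹ * (q * (f q)⁻¹) := by group
    rw [h5]
    exact T.mul_mem (hT.conj_mem _ (hf2 r hr) q) (hf2 q hq)
  -- the cocycle
  let c : Q → T := fun q => ⟨q.1 * (f q.1)⁻¹, hf2 q.1 q.2⟩
  let conjT : Q → T → T := fun q t => ⟨q.1 * t.1 * q.1⁻¹, hT.conj_mem _ t.2 q.1⟩
  have hconj_mul : ∀ q x y, conjT q (x * y) = conjT q x * conjT q y := by
    intro q x y
    apply Subtype.ext
    change q.1 * (x.1 * y.1) * q.1⁻¹ = q.1 * x.1 * q.1⁻¹ * (q.1 * y.1 * q.1⁻¹)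
    group
  let cH : Q → (T →* T) := fun q => MonoidHom.mk' (conjT q) (hconj_mul q)
  have hc : ∀ q r : Q, c (q * r) = cH q (c r) * c q := by
    intro q r
    apply Subtype.ext
    change q.1 * r.1 * (f (q.1 * r.1))⁻¹ = q.1 * (r.1 * (f r.1)⁻¹) * q.1⁻¹ * (q.1 * (f q.1)⁻¹)
    rw [hmul q.1 q.2 r.1 r.2]
    group
  let a : T := ∏ r : Q, c r
  have ha : ∀ q : Q, a = cH q a * c q ^ (Nat.card Q) := by
    intro q
    have h5 : a = ∏ r : Q, c (q * r) := (Equiv.prod_comp (Equiv.mulLeft q) c).symm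
    calc a = ∏ r : Q, c (q * r) := h5
      _ = ∏ r : Q, (cH q (c r) * c q) := Finset.prod_congr rfl fun r _ => hc q r
      _ = cH q a * c q ^ (Nat.card Q) := by
        rw [Finset.prod_mul_distrib, Finset.prod_const, ← map_prod, Finset.card_univ,
          ← Nat.card_eq_fintype_card]
  -- the root
  obtain ⟨b, hb⟩ : ∃ b : T, b ^ (Nat.card Q) = a := by
    have h5 := (powCoprime (G := T) hco).surjective a
    exact h5
  have hpow_inj : ∀ x y : T, x ^ (Nat.card Q) = y ^ (Nat.card Q) → x = y := fun x y h =>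
    (powCoprime (G := T) hco).injective h
  have hcb : ∀ q : Q, c q = (cH q b)⁻¹ * b := by
    intro q
    apply hpow_inj
    rw [mul_pow, inv_pow, ← map_pow, hb]
    have := ha q
    rw [eq_inv_mul_iff_mul_eq]
    exact this.symm
  have hfq : ∀ q ∈ Q, f q = b.1⁻¹ * q * b.1 := by
    intro q hq
    have h5 : q * (f q)⁻¹ = (q * b.1 * q⁻¹)⁻¹ * b.1 := congrArg Subtype.val (hcb ⟨q, hq⟩)
    have h6 : (f q)⁻¹ = q⁻¹ * ((q * b.1 * q⁻¹)⁻¹ * b.1) := by
      rw [← h5]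
      group
    have h7 : f q = (q⁻¹ * ((q * b.1 * q⁻¹)⁻¹ * b.1))⁻¹ := by
      rw [← h6, inv_inv]
    rw [h7]
    group
  refine ⟨b.1, b.2, ?_⟩
  -- the image of Q under conjugation is contained in Q', and the orders agree
  have hsub : ∀ q ∈ Q, b.1⁻¹ * q * b.1 ∈ Q' := fun q hq => by
    rw [← hfq q hq]
    exact hf1 q hq
  intro x
  constructor
  · exact hsub x
  · intro hx
    let g : Q → Q' := fun q => ⟨b.1⁻¹ * q.1 * b.1, hsub q.1 q.2⟩
    have hg : Function.Injective g := by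
      intro q r h
      have h5 : b.1⁻¹ * q.1 * b.1 = b.1⁻¹ * r.1 * b.1 := congrArg Subtype.val h
      exact Subtype.ext (mul_left_cancel (mul_right_cancel h5))
    have hgs : Function.Surjective g := by
      have := Nat.card_le_card_of_injective g hg
      exact ((Nat.bijective_iff_injective_and_card g).2 ⟨hg, le_antisymm this h4⟩).2
    obtain ⟨q, hq⟩ := hgs ⟨_, hx⟩
    have h5 : b.1⁻¹ * q.1 * b.1 = b.1⁻¹ * x * b.1 := congrArg Subtype.val hq
    have h6 : q.1 = x := mul_left_cancel (mul_right_cancel h5)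
    rw [← h6]
    exact q.2

end Pool.Agent.T2H67.AG
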