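import Mathlib



/-!
# The derived series and coprime commutators
-/

set_option autoImplicit false

open scoped commutatorElement

namespace Pool.Agent.T2H67.AG

variable {H : Type} [Group H]

/- Cauchy's theorem, relative version. -/
theorem cauchy_rel [Finite H] (N D : Subgroup H) [N.Normal] {ℓ : ℕ} (hℓ : ℓ.Prime)
    (h : ℓ ∣ N.relIndex D) : ∃ x ∈ D, x ∉ N ∧ x ^ ℓ ∈ N := by
  have : Fact ℓ.Prime := ⟨hℓ⟩
  have hn : (N.subgroupOf D).Normal := inferInstance
  have h1 : ℓ ∣ Nat.card (D ⧸ N.subgroupOf D) := h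
  obtain ⟨x, hx⟩ := exists_prime_orderOf_dvd_card' ℓ h1
  obtain ⟨y, rfl⟩ := QuotientGroup.mk_surjective x
  refine ⟨y.1, y.2, fun hy => ?_, ?_⟩
  · have h2 : (QuotientGroup.mk y : D ⧸ N.subgroupOf D) = 1 := (QuotientGroup.eq_one_iff y).2 hy
    rw [h2, orderOf_one] at hx
    exact hℓ.one_lt.ne hx
  · have h2 : (QuotientGroup.mk y : D ⧸ N.subgroupOf D) ^ ℓ = 1 := by
      rw [← hx]
      exact pow_orderOf_eq_one _
    rw [← QuotientGroup.mk_pow, QuotientGroup.eq_one_iff] at h2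
    exact h2

/- Two coprime powers in a subgroup. -/
theorem mem_of_pow_mem (N : Subgroup H) (x : H) {k l : ℕ} (h : k.Coprime l) (hk : x ^ k ∈ N)
    (hl : x ^ l ∈ N) : x ∈ N := by
  have h1 : (x ^ k) ^ (Nat.gcdA k l) * (x ^ l) ^ (Nat.gcdB k l) = x := by
    rw [← zpow_natCast, ← zpow_natCast, ← zpow_mul, ← zpow_mul, ← zpow_add, ← Nat.gcd_eq_gcd_ab,
      h.gcd_eq_one]
    simp
  rw [← h1]
  exact N.mul_mem (N.zpow_mem hk _) (N.zpow_mem hl _)

/- Divisibility by `ℓ` of the groups `D' / [D', D]`, `D` a term of the derived series. -/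
def DivD (ℓ : ℕ) (H : Type) [Group H] : Prop :=
  ∀ i : ℕ, ∀ x ∈ derivedSeries H (i + 1), ∃ y ∈ derivedSeries H (i + 1),
    ∃ z ∈ ⁅derivedSeries H (i + 1), derivedSeries H i⁆, x = y ^ ℓ * z

theorem DivD.quot {ℓ : ℕ} (h : DivD ℓ H) {G : Type} [Group G] (f : H →* G)
    (hf : Function.Surjective f) : DivD ℓ G := by
  intro i x hx
  rw [← map_derivedSeries_eq hf, Subgroup.mem_map] at hx
  obtain ⟨x, hx, rfl⟩ := hx
  obtain ⟨y, hy, z, hz, rfl⟩ := h i x hx
  refine ⟨f y, ?_, f z, ?_, by rw [map_mul, map_pow]⟩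
  · rw [← map_derivedSeries_eq hf]
    exact ⟨y, hy, rfl⟩
  · rw [← map_derivedSeries_eq hf, ← map_derivedSeries_eq hf, ← Subgroup.map_commutator]
    exact ⟨z, hz, rfl⟩

instance (n : ℕ) : (derivedSeries H n).Characteristic := by
  rw [Subgroup.characteristic_iff_map_eq]
  intro φ
  exact map_derivedSeries_eq φ.surjective n

section ell

variable (ℓ : ℕ) (A M : Subgroup H)

/- The `ℓ`-part of the abelian group `A`. -/
def ePart (hab : ∀ x ∈ A, ∀ y ∈ A, x * y = y * x) : Subgroup H where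
  carrier := {a | a ∈ A ∧ ∃ k, a ^ (ℓ ^ k) = 1}
  mul_mem' := by
    rintro a b ⟨ha, k, hk⟩ ⟨hb, l, hl⟩
    refine ⟨mul_mem ha hb, k + l, ?_⟩
    have hc : Commute a b := hab a ha b hb
    rw [hc.mul_pow, pow_add, pow_mul, hk, one_pow, mul_comm, pow_mul, hl, one_pow, one_mul]
  one_mem' := ⟨one_mem _, 0, one_pow _⟩
  inv_mem' := by
    rintro a ⟨ha, k, hk⟩
    exact ⟨inv_mem ha, k, by rw [inv_pow, hk, inv_one]⟩

theorem ePart_char [hA : A.Characteristic] (hab : ∀ x ∈ A, ∀ y ∈ A, x * y = y * x) :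
    (ePart ℓ A hab).Characteristic := by
  rw [Subgroup.characteristic_iff_le_comap]
  rintro φ a ⟨ha, k, hk⟩
  refine ⟨Subgroup.characteristic_iff_le_comap.1 hA φ ha, k, ?_⟩
  change (φ a) ^ (ℓ ^ k) = 1
  rw [← map_pow, hk, map_one]

/- The elements of `M` of order prime to `ℓ` modulo `A`. -/
def cPart [A.Normal] (hMA : ⁅M, M⁆ ≤ A) (hℓ : ℓ.Prime) : Subgroup H where
  carrier := {m | m ∈ M ∧ ∃ k, ¬ ℓ ∣ k ∧ m ^ k ∈ A}
  mul_mem' := by
    rintro a b ⟨ha, k, hk, hk'⟩ ⟨hb, l, hl, hl'⟩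
    refine ⟨mul_mem ha hb, k * l, fun h => ?_, ?_⟩
    · rcases hℓ.dvd_mul.1 h with h | h
      · exact hk h
      · exact hl h
    · rw [← QuotientGroup.eq_one_iff] at hk' hl' ⊢
      rw [QuotientGroup.mk_pow] at hk' hl' ⊢
      rw [QuotientGroup.mk_mul]
      have h1 : ⁅a, b⁆ ∈ A := hMA (Subgroup.commutator_mem_commutator ha hb)
      have hc : Commute (QuotientGroup.mk a : H ⧸ A) (QuotientGroup.mk b) := by
        have h2 : ((⁅a, b⁆ : H) : H ⧸ A) = 1 := (QuotientGroup.eq_one_iff _).2 h1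
        have h3 : ⁅(a : H ⧸ A), (b : H ⧸ A)⁆ = 1 := h2
        exact commutatorElement_eq_one_iff_mul_comm.1 h3
      rw [hc.mul_pow, pow_mul, hk', one_pow, mul_comm k l, pow_mul, hl', one_pow, one_mul]
  one_mem' := ⟨one_mem _, 1, fun h => hℓ.one_lt.ne' (Nat.dvd_one.1 h), by
    rw [one_pow]
    exact one_mem _⟩
  inv_mem' := by
    rintro a ⟨ha, k, hk, hk'⟩
    exact ⟨inv_mem ha, k, hk, by
      rw [inv_pow]
      exact inv_mem hk'⟩

theorem cPart_char [hA : A.Characteristic] [hM : M.Characteristic] (hMA : ⁅M, M⁆ ≤ A)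
    (hℓ : ℓ.Prime) : (cPart ℓ A M hMA hℓ).Characteristic := by
  rw [Subgroup.characteristic_iff_le_comap]
  rintro φ a ⟨ha, k, hk, hk'⟩
  refine ⟨Subgroup.characteristic_iff_le_comap.1 hM φ ha, k, hk, ?_⟩
  have h1 := Subgroup.characteristic_iff_le_comap.1 hA φ hk'
  rw [Subgroup.mem_comap] at h1
  change (φ a) ^ k ∈ A
  rw [← map_pow]
  exact h1

end ell

/- **The main lemma**, characteristic version. -/
theorem peelC [Finite H] [hsol : Group.IsSolvable H] (good : ℕ → Prop)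
    (hD : ∀ ℓ, ℓ.Prime → good ℓ → DivD ℓ H)
    (hO : ∀ ℓ, ℓ.Prime → ¬ good ℓ → ∀ P : Subgroup H, P.Characteristic → IsPGroup ℓ P → P = ⊥) :
    (∀ x y : H, x * y = y * x) ∨
    ∃ T M : Subgroup H, T.Characteristic ∧ M.Characteristic ∧ T ≤ M ∧
      (∀ x ∈ T, ∀ y ∈ T, x * y = y * x) ∧ (Nat.card T).Coprime (T.relIndex M) ∧ ⁅T, M⁆ ≠ ⊥ := by
  classical
  have hex : ∃ n, derivedSeries H n = ⊥ := Group.IsSolvable.solvable
  obtain ⟨n, hn, hmin⟩ : ∃ n, derivedSeries H n = ⊥ ∧ ∀ m < n, derivedSeries H m ≠ ⊥ :=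
    ⟨Nat.find hex, Nat.find_spec hex, fun m hm => Nat.find_min hex hm⟩
  rcases n with _ | _ | m
  · left
    intro x y
    have h1 : ∀ z : H, z = 1 := fun z => by
      have h2 : z ∈ derivedSeries H 0 := by rw [derivedSeries_zero]; trivial
      rwa [hn, Subgroup.mem_bot] at h2
    rw [h1 x, h1 y]
  · left
    intro x y
    have h1 : ⁅x, y⁆ ∈ derivedSeries H (0 + 1) := by
      rw [derivedSeries_succ, derivedSeries_zero]
      exact Subgroup.commutator_mem_commutator trivial trivial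
    rw [hn, Subgroup.mem_bot, commutatorElement_eq_one_iff_mul_comm] at h1
    exact h1
  right
  set M : Subgroup H := derivedSeries H m with hM
  set A : Subgroup H := derivedSeries H (m + 1) with hA
  have hAM : ⁅M, M⁆ = A := (derivedSeries_succ H m).symm
  have hAle : A ≤ M := by rw [← hAM]; exact Subgroup.commutator_le_left M M
  have hAA : ⁅A, A⁆ = ⊥ := by rw [← hn]; exact (derivedSeries_succ H (m + 1)).symm
  have hab : ∀ x ∈ A, ∀ y ∈ A, x * y = y * x := by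
    intro x hx y hy
    have h1 : ⁅x, y⁆ ∈ ⁅A, A⁆ := Subgroup.commutator_mem_commutator hx hy
    rwa [hAA, Subgroup.mem_bot, commutatorElement_eq_one_iff_mul_comm] at h1
  have hAne : A ≠ ⊥ := hmin _ (by omega)
  -- `[A, M] = A`
  have hfull : A ≤ ⁅A, M⁆ := by
    by_contra hnot
    have hle : ⁅A, M⁆ ≤ A := Subgroup.commutator_le_left A M
    have hidx : (⁅A, M⁆).relIndex A ≠ 1 := fun h => hnot (Subgroup.relIndex_eq_one.1 h)
    obtain ⟨ℓ, hℓ, hd⟩ := Nat.exists_prime_and_dvd hidx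
    obtain ⟨x, hx, hxn, hxℓ⟩ := cauchy_rel _ _ hℓ hd
    -- the power map on `A / [A, M]` is surjective
    have hsurj : ∀ a ∈ A, ∃ y ∈ A, ∃ z ∈ ⁅A, M⁆, a = y ^ ℓ * z := by
      by_cases hg : good ℓ
      · exact hD ℓ hℓ hg m
      · intro a ha
        have hinj : Function.Injective (fun y : A => y ^ ℓ) := by
          intro y z hyz
          have hyz' : y ^ ℓ = z ^ ℓ := hyz
          have hc : Commute y z⁻¹ := by
            have : Commute y z := Subtype.ext (hab y.1 y.2 z.1 z.2)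
            exact this.inv_right
          have h1 : (y * z⁻¹) ^ ℓ = 1 := by
            rw [hc.mul_pow, inv_pow, hyz', mul_inv_cancel]
          have h2 : ePart ℓ A hab = ⊥ := by
            refine hO ℓ hℓ hg _ (ePart_char ℓ A hab) ?_
            rintro ⟨b, hb, k, hk⟩
            exact ⟨k, Subtype.ext hk⟩
          have h3 : (y * z⁻¹ : A).1 ∈ ePart ℓ A hab :=
            ⟨(y * z⁻¹ : A).2, 1, by
              rw [pow_one]
              exact congrArg Subtype.val h1⟩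
          rw [h2, Subgroup.mem_bot] at h3
          have h4 : y * z⁻¹ = 1 := Subtype.ext h3
          exact mul_inv_eq_one.1 h4
        obtain ⟨y, hy⟩ := (Finite.injective_iff_surjective.1 hinj) ⟨a, ha⟩
        exact ⟨y.1, y.2, 1, one_mem _, by
          rw [mul_one]
          exact (congrArg Subtype.val hy).symm⟩
    -- hence injective
    have hn' : ((⁅A, M⁆).subgroupOf A).Normal := inferInstance
    let ψ : A ⧸ (⁅A, M⁆).subgroupOf A → A ⧸ (⁅A, M⁆).subgroupOf A := fun y => y ^ ℓ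
    have hψ : Function.Surjective ψ := by
      intro q
      obtain ⟨a, rfl⟩ := QuotientGroup.mk_surjective q
      obtain ⟨y, hy, z, hz, hyz⟩ := hsurj a.1 a.2
      refine ⟨QuotientGroup.mk ⟨y, hy⟩, ?_⟩
      change (QuotientGroup.mk (⟨y, hy⟩ : A) : A ⧸ (⁅A, M⁆).subgroupOf A) ^ ℓ = _
      rw [← QuotientGroup.mk_pow, QuotientGroup.eq]
      change (y ^ ℓ)⁻¹ * a.1 ∈ ⁅A, M⁆
      rw [hyz, inv_mul_cancel_left]
      exact hz
    have hψi : Function.Injective ψ := Finite.injective_iff_surjective.2 hψ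
    apply hxn
    have h1 : (QuotientGroup.mk (⟨x, hx⟩ : A) : A ⧸ (⁅A, M⁆).subgroupOf A) = 1 := by
      apply hψi
      change (QuotientGroup.mk (⟨x, hx⟩ : A) : A ⧸ (⁅A, M⁆).subgroupOf A) ^ ℓ = 1 ^ ℓ
      rw [one_pow, ← QuotientGroup.mk_pow, QuotientGroup.eq_one_iff]
      exact hxℓ
    exact (QuotientGroup.eq_one_iff (⟨x, hx⟩ : A)).1 h1
  -- a prime divisor of the order of `A`
  have hcA : Nat.card A ≠ 1 := fun h => hAne (Subgroup.card_eq_one.1 h)
  obtain ⟨ℓ, hℓ, hd⟩ := Nat.exists_prime_and_dvd hcA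
  have : Fact ℓ.Prime := ⟨hℓ⟩
  let T := ePart ℓ A hab
  let M₁ := cPart ℓ A M hAM.le hℓ
  have hTc : T.Characteristic := ePart_char ℓ A hab
  have hMc : M₁.Characteristic := cPart_char ℓ A M hAM.le hℓ
  have hTA : T ≤ A := fun x hx => hx.1
  have hAM₁ : A ≤ M₁ := fun x hx => ⟨hAle hx, 1, fun h => hℓ.one_lt.ne' (Nat.dvd_one.1 h), by
    rwa [pow_one]⟩
  have hM₁M : M₁ ≤ M := fun x hx => hx.1
  have hTp : IsPGroup ℓ T := by
    rintro ⟨b, hb, k, hk⟩
    exact ⟨k, Subtype.ext hk⟩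
  have hTn : T.Normal := inferInstance
  have hi1 : ¬ ℓ ∣ T.relIndex A := by
    intro h
    obtain ⟨x, hx, hxn, hxℓ⟩ := cauchy_rel _ _ hℓ h
    apply hxn
    obtain ⟨h1, k, hk⟩ := hxℓ
    refine ⟨hx, k + 1, ?_⟩
    rw [pow_succ', pow_mul]
    exact hk
  have hi2 : ¬ ℓ ∣ A.relIndex M₁ := by
    intro h
    obtain ⟨x, hx, hxn, hxℓ⟩ := cauchy_rel _ _ hℓ h
    apply hxn
    obtain ⟨h1, k, hk, hk'⟩ := hx
    exact mem_of_pow_mem A x ((Nat.Prime.coprime_iff_not_dvd hℓ).2 hk) hxℓ hk'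
  have hco : (Nat.card T).Coprime (T.relIndex M₁) := by
    obtain ⟨k, hk⟩ := IsPGroup.iff_card.1 hTp
    rw [hk, ← Subgroup.relIndex_mul_relIndex T A M₁ hTA hAM₁]
    refine Nat.Coprime.pow_left k ?_
    rw [Nat.Prime.coprime_iff_not_dvd hℓ, hℓ.dvd_mul]
    tauto
  -- `[T, M] = T`
  have hTM : T ≤ ⁅T, M⁆ := by
    set r := T.relIndex A with hr
    have hpow : ∀ a ∈ A, a ^ r ∈ T := by
      intro a ha
      have h1 : (⟨a, ha⟩ : A) ^ (T.subgroupOf A).index ∈ T.subgroupOf A :=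
        Subgroup.pow_index_mem _ _
      exact h1
    let U : Subgroup H :=
      { carrier := {x | x ∈ A ∧ x ^ r ∈ ⁅T, M⁆}
        mul_mem' := by
          rintro a b ⟨ha, ha'⟩ ⟨hb, hb'⟩
          refine ⟨mul_mem ha hb, ?_⟩
          have hc : Commute a b := hab a ha b hb
          rw [hc.mul_pow]
          exact mul_mem ha' hb'
        one_mem' := ⟨one_mem _, by
          rw [one_pow]
          exact one_mem _⟩
        inv_mem' := by
          rintro a ⟨ha, ha'⟩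
          refine ⟨inv_mem ha, ?_⟩
          rw [inv_pow]
          exact inv_mem ha' }
    have hU : ⁅A, M⁆ ≤ U := by
      rw [Subgroup.commutator_le]
      intro a ha m hm
      have hAn : A.Normal := inferInstance
      have h1 : m * a⁻¹ * m⁻¹ ∈ A := hAn.conj_mem _ (inv_mem ha) m
      have h2 : ⁅a, m⁆ = a * (m * a⁻¹ * m⁻¹) := by
        rw [commutatorElement_def]
        group
      refine ⟨?_, ?_⟩
      · rw [h2]
        exact mul_mem ha h1
      · have hc : Commute a (m * a⁻¹ * m⁻¹) := hab _ ha _ h1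
        rw [h2, hc.mul_pow, conj_pow, inv_pow]
        have h3 : a ^ r * (m * (a ^ r)⁻¹ * m⁻¹) = ⁅a ^ r, m⁆ := by
          rw [commutatorElement_def]
          group
        rw [h3]
        exact Subgroup.commutator_mem_commutator (hpow a ha) hm
    intro t ht
    have h1 : t ^ r ∈ ⁅T, M⁆ := (hU (hfull (hTA ht))).2
    obtain ⟨-, k, hk⟩ := ht
    refine mem_of_pow_mem _ t (k := r) (l := ℓ ^ k) ?_ h1 (by rw [hk]; exact one_mem _)
    refine Nat.Coprime.pow_right k ?_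
    exact ((Nat.Prime.coprime_iff_not_dvd hℓ).2 hi1).symm
  have hTne : T ≠ ⊥ := by
    intro hbot
    obtain ⟨x, hx⟩ := exists_prime_orderOf_dvd_card' ℓ hd
    have h1 : x.1 ∈ T := ⟨x.2, 1, by
      rw [pow_one]
      have h2 : x ^ ℓ = 1 := by
        rw [← hx]
        exact pow_orderOf_eq_one _
      exact congrArg Subtype.val h2⟩
    rw [hbot, Subgroup.mem_bot] at h1
    have h2 : x = 1 := Subtype.ext h1
    rw [h2, orderOf_one] at hx
    exact hℓ.one_lt.ne hx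
  refine ⟨T, M₁, hTc, hMc, hTA.trans hAM₁, fun x hx y hy => hab x (hTA hx) y (hTA hy), hco, ?_⟩
  intro hcen
  -- `M₁` centralises `T`
  have hcomm : ∀ t ∈ T, ∀ m ∈ M₁, t * m = m * t := by
    intro t ht m hm
    have h1 : ⁅t, m⁆ ∈ ⁅T, M₁⁆ := Subgroup.commutator_mem_commutator ht hm
    rwa [hcen, Subgroup.mem_bot, commutatorElement_eq_one_iff_mul_comm] at h1
  -- a Sylow subgroup of `M`
  obtain ⟨R⟩ : Nonempty (Sylow ℓ M) := inferInstance
  let R' : Subgroup H := (R : Subgroup M).map M.subtype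
  have hTM' : T ≤ M := hTA.trans hAle
  have hTR : T ≤ R' := by
    intro t ht
    have h2 : IsPGroup ℓ (T.subgroupOf M) := hTp.of_equiv (Subgroup.subgroupOfEquivOfLe hTM').symm
    have h3 : T.subgroupOf M ≤ R := h2.le_sylow_of_normal R
    exact ⟨⟨t, hTM' ht⟩, h3 (show (⟨t, hTM' ht⟩ : M) ∈ T.subgroupOf M from ht), rfl⟩
  have hM₁n : M₁.Normal := inferInstance
  have hsup : M ≤ M₁ ⊔ R' := by
    have h1 : ¬ ℓ ∣ (M₁ ⊔ R').relIndex M := by
      intro h
      apply R.not_dvd_index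
      refine h.trans ?_
      have h2 : (R : Subgroup M) ≤ (M₁ ⊔ R').subgroupOf M := by
        intro x hx
        exact (le_sup_right : R' ≤ M₁ ⊔ R') ⟨x, hx, rfl⟩
      exact Subgroup.index_dvd_of_le h2
    rw [← Subgroup.relIndex_eq_one]
    by_contra hne
    obtain ⟨q, hq, hqd⟩ := Nat.exists_prime_and_dvd hne
    have hqℓ : q ≠ ℓ := by
      rintro rfl
      exact h1 hqd
    have h2 : q ∣ M₁.relIndex M :=
      hqd.trans (Subgroup.relIndex_dvd_of_le_left M le_sup_left)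
    obtain ⟨x, hx, hxn, hxq⟩ := cauchy_rel _ _ hq h2
    apply hxn
    obtain ⟨h3, k, hk, hk'⟩ := hxq
    refine ⟨hx, q * k, ?_, by rwa [pow_mul]⟩
    intro h4
    rcases hℓ.dvd_mul.1 h4 with h5 | h5
    · exact hqℓ ((Nat.prime_dvd_prime_iff_eq hℓ hq).1 h5).symm
    · exact hk h5
  -- `[T, M] ≤ [T, R']`
  have hle : ⁅T, M⁆ ≤ ⁅T, R'⁆ := by
    rw [Subgroup.commutator_le]
    intro t ht m hm
    have h1 := hsup hm
    rw [← SetLike.mem_coe, Subgroup.normal_mul] at h1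
    obtain ⟨m₁, hm₁, r, hr, rfl⟩ := h1
    have h2 : ⁅t, m₁ * r⁆ = m₁ * ⁅t, r⁆ * m₁⁻¹ := by
      have h3 := hcomm t ht m₁ hm₁
      rw [commutatorElement_def, commutatorElement_def]
      calc t * (m₁ * r) * t⁻¹ * (m₁ * r)⁻¹ = (t * m₁) * r * t⁻¹ * r⁻¹ * m₁⁻¹ := by group
        _ = m₁ * (t * r * t⁻¹ * r⁻¹) * m₁⁻¹ := by rw [h3]; group
    have h3 : ⁅t, r⁆ ∈ T := by
      rw [commutatorElement_def]
      have h4 : t * r * t⁻¹ * r⁻¹ = t * (r * t⁻¹ * r⁻¹) := by group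
      rw [h4]
      exact mul_mem ht (hTn.conj_mem _ (inv_mem ht) r)
    have h4 : m₁ * ⁅t, r⁆ * m₁⁻¹ = ⁅t, r⁆ := by
      rw [← hcomm _ h3 m₁ hm₁, mul_inv_cancel_right]
    rw [h2, h4]
    exact Subgroup.commutator_mem_commutator ht hr
  -- the group `R'` is nilpotent
  have hRp : IsPGroup ℓ R' := R.isPGroup'.map M.subtype
  have hnil : Group.IsNilpotent R' := hRp.isNilpotent
  obtain ⟨k, hk⟩ := (Subgroup.isNilpotent_iff_lowerCentralSeries R').1 hnil
  have hall : ∀ j, T ≤ R'.lowerCentralSeries j := by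
    intro j
    induction j with
    | zero => exact hTR
    | succ j ih =>
      rw [Subgroup.lowerCentralSeries_succ]
      exact (hTM.trans hle).trans (Subgroup.commutator_mono ih le_rfl)
  apply hTne
  rw [eq_bot_iff, ← hk]
  exact hall k

end Pool.Agent.T2H67.AG
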