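import Mathlib
import Pool.Agent.H84.L.A7_T2H67_AG_Der
import Pool.Agent.H84.L.A7_T2H67_AG_PKDef
import Pool.Agent.H84.L.S8_Y60_DC_Def
import Pool.Agent.H84.L.S8_Y60_DCF_Defs

namespace Pool.Agent.Y60.DC
end Pool.Agent.Y60.DC


/-!
# Criteria for the class of groups
-/

set_option autoImplicit false

open scoped commutatorElement

namespace Pool.Agent.T2H67.AG

open Pool.Agent.Y60.DC (CompIn)

/- `p`-groups in characteristic `p`. -/
theorem compIn_pgroup (K : Type) [Field K] (p : ℕ) [hp : Fact p.Prime] [CharP K p] (n : ℕ) :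
    ∀ (P : Type) [Group P], Nat.card P = p ^ n → CompIn (Factor K) P := by
  induction n with
  | zero =>
    intro P _ hP
    rw [pow_zero] at hP
    exact CompIn.one P (Nat.card_eq_one_iff_unique.1 hP).1
  | succ n ih =>
    intro P _ hP
    have hfin : Finite P := Nat.finite_of_card_ne_zero (by
      rw [hP]
      exact pow_ne_zero _ hp.out.ne_zero)
    obtain ⟨M, hM⟩ := Sylow.exists_subgroup_card_pow_prime (G := P) p (n := n)
      (by rw [hP]; exact pow_dvd_pow p (Nat.le_succ n))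
    have hidx : M.index = p := by
      have h1 := M.card_mul_index
      rw [hM, hP, pow_succ] at h1
      exact Nat.eq_of_mul_eq_mul_left (pow_pos hp.out.pos n) h1
    have hMn : M.Normal := by
      refine Subgroup.normal_of_index_eq_minFac_card ?_
      rw [hidx, hP, Nat.pow_minFac n.succ_ne_zero, hp.out.minFac_eq]
    exact CompIn.ext P M (ih M hM) (Or.inr ⟨p, hp, inferInstance, Or.inl hidx⟩)

/- **First criterion.** -/
theorem peelable_of_div (K : Type) [Field K] (n : ℕ) : ∀ (H : Type) [Group H] [Finite H]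
    [Group.IsSolvable H], (∀ ℓ : ℕ, ℓ.Prime → (ℓ : K) ≠ 0 → DivD ℓ H) → Nat.card H = n →
    Peelable K H := by
  induction n using Nat.strong_induction_on with
  | _ n ih =>
  intro H _ _ _ hD hcard
  have step : ∀ (A : Subgroup H) [A.Normal], A ≠ ⊥ → Peelable K (H ⧸ A) := by
    intro A _ hA
    have hsur := QuotientGroup.mk'_surjective A
    have hsol : Group.IsSolvable (H ⧸ A) := Group.isSolvable_of_surjective hsur
    refine ih (Nat.card (H ⧸ A)) ?_ (H ⧸ A) (fun ℓ hℓ h => (hD ℓ hℓ h).quot _ hsur) rfl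
    rw [← hcard]
    refine lt_of_le_of_ne (Nat.card_le_card_of_surjective _ hsur) fun heq => hA ?_
    have hbij := (Nat.bijective_iff_surjective_and_card _).2 ⟨hsur, heq.symm⟩
    rw [eq_bot_iff]
    intro a ha
    rw [Subgroup.mem_bot]
    apply hbij.1
    rw [map_one]
    exact (QuotientGroup.eq_one_iff a).2 ha
  by_cases hO : ∃ (ℓ : ℕ) (P : Subgroup H), ℓ.Prime ∧ (ℓ : K) = 0 ∧ P.Characteristic ∧
      IsPGroup ℓ P ∧ P ≠ ⊥
  · obtain ⟨ℓ, P, hℓ, hℓ0, hPc, hPp, hPne⟩ := hO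
    have : Fact ℓ.Prime := ⟨hℓ⟩
    have hch : CharP K ℓ := (CharP.charP_iff_prime_eq_zero hℓ).2 hℓ0
    obtain ⟨k, hk⟩ := IsPGroup.iff_card.1 hPp
    exact Peelable.factor H P (compIn_pgroup K ℓ k P hk) (step P hPne)
  · push Not at hO
    rcases peelC (fun ℓ => (ℓ : K) ≠ 0) hD (fun ℓ hℓ h0 P hPc hPp =>
      hO ℓ P hℓ (not_not.1 h0) hPc hPp) with hcomm | ⟨T, M, hT, hM, hTM, hab, hco, hne⟩
    · exact Peelable.comm H hcomm
    · exact Peelable.coprime H T M hTM hab hco (step _ hne)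

/- From indices to divisibility. -/
theorem div_of_index {H : Type} [Group H] [Finite H] (N D : Subgroup H) [N.Normal] {ℓ : ℕ}
    (hℓ : ℓ.Prime) (h : ¬ ℓ ∣ N.relIndex D) : ∀ x ∈ D, ∃ y ∈ D, ∃ z ∈ N, x = y ^ ℓ * z := by
  intro x hx
  have hn : (N.subgroupOf D).Normal := inferInstance
  have h1 : ℓ.Coprime (orderOf (QuotientGroup.mk (⟨x, hx⟩ : D) : D ⧸ N.subgroupOf D)) := by
    refine Nat.Coprime.coprime_dvd_right (orderOf_dvd_natCard _) ?_
    exact (Nat.Prime.coprime_iff_not_dvd hℓ).2 h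
  obtain ⟨m, hm⟩ := exists_pow_eq_self_of_coprime h1
  refine ⟨x ^ m, pow_mem hx m, ((x ^ m) ^ ℓ)⁻¹ * x, ?_, by rw [mul_inv_cancel_left]⟩
  rw [← pow_mul, mul_comm m ℓ, pow_mul, ← QuotientGroup.mk_pow, ← QuotientGroup.mk_pow] at *
  rw [QuotientGroup.eq] at hm
  exact hm

/- **Second criterion.** -/
theorem peelable_of_index (K : Type) [Field K] (H : Type) [Group H] [Finite H] (n : ℕ)
    (hn : CompIn (Factor K) (derivedSeries H n))
    (h : ∀ i, i + 1 < n → ∀ ℓ : ℕ, ℓ.Prime →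
      ℓ ∣ (⁅derivedSeries H (i + 1), derivedSeries H i⁆).relIndex (derivedSeries H (i + 1)) →
      (ℓ : K) = 0) : Peelable K H := by
  refine Peelable.factor H (derivedSeries H n) hn ?_
  set A := derivedSeries H n with hA
  have hsur := QuotientGroup.mk'_surjective A
  have hbot : derivedSeries (H ⧸ A) n = ⊥ := by
    rw [← map_derivedSeries_eq hsur, ← hA, eq_bot_iff]
    rintro _ ⟨x, hx, rfl⟩
    exact (QuotientGroup.eq_one_iff x).2 hx
  have hsol : Group.IsSolvable (H ⧸ A) := ⟨⟨n, hbot⟩⟩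
  refine peelable_of_div K _ (H ⧸ A) (fun ℓ hℓ hℓ0 i x hx => ?_) rfl
  by_cases hi : i + 1 < n
  · rw [← map_derivedSeries_eq hsur] at hx
    obtain ⟨x, hx, rfl⟩ := hx
    obtain ⟨y, hy, z, hz, rfl⟩ := div_of_index _ _ hℓ
      (fun hd => hℓ0 (h i hi ℓ hℓ hd)) x hx
    refine ⟨_, ?_, _, ?_, by rw [map_mul, map_pow]⟩
    · rw [← map_derivedSeries_eq hsur]
      exact ⟨y, hy, rfl⟩
    · rw [← map_derivedSeries_eq hsur, ← map_derivedSeries_eq hsur, ← Subgroup.map_commutator]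
      exact ⟨z, hz, rfl⟩
  · have h1 : x ∈ derivedSeries (H ⧸ A) n := derivedSeries_antitone (H ⧸ A) (not_lt.1 hi) hx
    rw [hbot, Subgroup.mem_bot] at h1
    refine ⟨1, one_mem _, 1, one_mem _, ?_⟩
    rw [h1, one_pow, one_mul]

/- Subgroups of `ℓ`-power order are commutative. -/
def AbAt (ℓ : ℕ) (H : Type) [Group H] : Prop :=
  ∀ P : Subgroup H, IsPGroup ℓ P → ∀ x ∈ P, ∀ y ∈ P, x * y = y * x

theorem AbAt.quot {ℓ : ℕ} [Fact ℓ.Prime] {H G : Type} [Group H] [Finite H] [Group G]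
    (h : AbAt ℓ H) (g : H →* G) (hg : Function.Surjective g) : AbAt ℓ G := by
  intro P hp x hx y hy
  have hfG : Finite G := Finite.of_surjective g hg
  let R : Subgroup H := P.comap g
  obtain ⟨S⟩ : Nonempty (Sylow ℓ R) := inferInstance
  let f : R →* P := MonoidHom.mk' (fun r => ⟨g r.1, r.2⟩) (fun a b => Subtype.ext (map_mul _ _ _))
  have hf : Function.Surjective f := by
    rintro ⟨z, hz⟩
    obtain ⟨r, rfl⟩ := hg z
    exact ⟨⟨r, hz⟩, rfl⟩
  have hS : (S : Subgroup R).map f = ⊤ := by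
    have h1 : ((S : Subgroup R).map f).index ∣ (S : Subgroup R).index :=
      Subgroup.index_map_dvd _ hf
    obtain ⟨k, hk⟩ := IsPGroup.iff_card.1 hp
    have h2 : ((S : Subgroup R).map f).index ∣ ℓ ^ k := by
      rw [← hk]
      exact Subgroup.index_dvd_card _
    obtain ⟨j, -, hj⟩ := (Nat.dvd_prime_pow (Fact.out : ℓ.Prime)).1 h2
    rcases Nat.eq_zero_or_pos j with rfl | hj0
    · rw [pow_zero] at hj
      exact Subgroup.index_eq_one.1 hj
    · exfalso
      apply S.not_dvd_index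
      refine dvd_trans ?_ h1
      rw [hj]
      exact dvd_pow_self ℓ hj0.ne'
  have hlift : ∀ z (_ : z ∈ P), ∃ r ∈ (S : Subgroup R).map R.subtype, g r = z := by
    intro z hz
    have h1 : (⟨z, hz⟩ : P) ∈ (S : Subgroup R).map f := by rw [hS]; trivial
    obtain ⟨r, hr, hrz⟩ := h1
    exact ⟨r.1, ⟨r, hr, rfl⟩, congrArg Subtype.val hrz⟩
  obtain ⟨a, ha, rfl⟩ := hlift x hx
  obtain ⟨b, hb, rfl⟩ := hlift y hy
  have h2 : IsPGroup ℓ ((S : Subgroup R).map R.subtype) := S.isPGroup'.map R.subtype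
  rw [← map_mul, h _ h2 a ha b hb, map_mul]

theorem AbAt.sub {ℓ : ℕ} {H : Type} [Group H] (h : AbAt ℓ H) (D : Subgroup H) : AbAt ℓ D := by
  intro P hp x hx y hy
  have h1 : IsPGroup ℓ (P.map D.subtype) := hp.map D.subtype
  exact Subtype.ext (h _ h1 x.1 ⟨x, hx, rfl⟩ y.1 ⟨y, hy, rfl⟩)

/- In a nilpotent group with commutative `ℓ`-subgroups the commutator subgroup has no elements
of order `ℓ`. -/
theorem nil_comm {ℓ : ℕ} (hℓ : ℓ.Prime) {Q : Type} [Group Q] [Finite Q] (hnil : Group.IsNilpotent Q)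
    (hab : AbAt ℓ Q) (x : Q) (hx : x ∈ commutator Q) (hxℓ : x ^ ℓ = 1) : x = 1 := by
  obtain ⟨e⟩ : Nonempty ((∀ p : (Nat.card Q).primeFactors, ∀ P : Sylow p Q,
      (P : Subgroup Q)) ≃* Q) := (Group.isNilpotent_of_finite_tfae (G := Q).out 0 4 rfl rfl).1 hnil
  have h1 : e.symm x = 1 := by
    funext p P
    have hp : (p : ℕ).Prime := Nat.prime_of_mem_primeFactors p.2
    by_cases hpℓ : (p : ℕ) = ℓ
    · -- the projection to `P`
      let π : Q →* (P : Subgroup Q) :=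
        MonoidHom.mk' (fun q => e.symm q p P) (fun a b => by
          rw [map_mul]
          rfl)
      have hcomm : ∀ a b : (P : Subgroup Q), a * b = b * a := by
        intro a b
        have hPp : IsPGroup ℓ (P : Subgroup Q) := by
          intro g
          obtain ⟨k, hk⟩ := P.isPGroup' g
          exact ⟨k, by rw [← hpℓ]; exact hk⟩
        exact Subtype.ext (hab P hPp a.1 a.2 b.1 b.2)
      have h2 : commutator Q ≤ π.ker := by
        rw [commutator_def, Subgroup.commutator_le]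
        intro a _ b _
        rw [MonoidHom.mem_ker, map_commutatorElement, commutatorElement_eq_one_iff_mul_comm]
        exact hcomm _ _
      exact h2 hx
    · have h2 : (e.symm x p P) ^ ℓ = 1 := by
        have h3 : (e.symm x) ^ ℓ = 1 := by rw [← map_pow, hxℓ, map_one]
        exact congrFun (congrFun h3 p) P
      obtain ⟨k, hk⟩ := P.isPGroup' (e.symm x p P)
      have h3 : Nat.Coprime ℓ ((p : ℕ) ^ k) :=
        Nat.Coprime.pow_right k ((Nat.coprime_primes hℓ hp).2 (Ne.symm hpℓ))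
      have h4 := mem_of_pow_mem (⊥ : Subgroup (P : Subgroup Q)) (e.symm x p P) h3
        (Subgroup.mem_bot.2 h2) (Subgroup.mem_bot.2 hk)
      exact Subgroup.mem_bot.1 h4
  rw [← e.apply_symm_apply x, h1, map_one]

theorem index_of_abAt {ℓ : ℕ} (hℓ : ℓ.Prime) {H : Type} [Group H] [Finite H] (hab : AbAt ℓ H)
    (D : Subgroup H) [D.Normal] : ¬ ℓ ∣ (⁅⁅D, D⁆, D⁆).relIndex ⁅D, D⁆ := by
  intro hd
  have : Fact ℓ.Prime := ⟨hℓ⟩
  obtain ⟨x, hx, hxn, hxℓ⟩ := cauchy_rel _ _ hℓ hd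
  set N : Subgroup H := ⁅⁅D, D⁆, D⁆ with hN
  have hNn : (N.subgroupOf D).Normal := inferInstance
  have hDD : ⁅D, D⁆ ≤ D := Subgroup.commutator_le_left D D
  let π : D →* D ⧸ N.subgroupOf D := QuotientGroup.mk' _
  have hπ : Function.Surjective π := QuotientGroup.mk'_surjective _
  have htop : (⊤ : Subgroup D).map π = ⊤ := Subgroup.map_top_of_surjective π hπ
  have hQab : AbAt ℓ (D ⧸ N.subgroupOf D) := (hab.sub D).quot π hπ
  have hsub : ∀ A B : Subgroup D, (⁅A, B⁆).map D.subtype = ⁅A.map D.subtype, B.map D.subtype⁆ :=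
    fun A B => Subgroup.map_commutator A B D.subtype
  have htopD : (⊤ : Subgroup D).map D.subtype = D := by
    rw [← MonoidHom.range_eq_map, Subgroup.range_subtype]
  have hnil : Group.IsNilpotent (D ⧸ N.subgroupOf D) := by
    rw [← Group.isNilpotent_top, Subgroup.isNilpotent_iff_lowerCentralSeries]
    refine ⟨2, ?_⟩
    rw [Subgroup.lowerCentralSeries_succ, Subgroup.lowerCentralSeries_succ,
      Subgroup.lowerCentralSeries_zero, ← htop, ← Subgroup.map_commutator,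
      ← Subgroup.map_commutator, eq_bot_iff]
    rintro _ ⟨y, hy, rfl⟩
    rw [Subgroup.mem_bot]
    refine (QuotientGroup.eq_one_iff y).2 ?_
    change y.1 ∈ N
    have h3 : (⁅⁅(⊤ : Subgroup D), (⊤ : Subgroup D)⁆, (⊤ : Subgroup D)⁆).map D.subtype = N := by
      rw [hsub, hsub, htopD]
    rw [← h3]
    exact ⟨y, hy, rfl⟩
  have hxD : x ∈ D := hDD hx
  have h1 : π ⟨x, hxD⟩ = 1 := by
    refine nil_comm hℓ hnil hQab _ ?_ ?_
    · rw [commutator_def, ← htop, ← Subgroup.map_commutator]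
      refine ⟨⟨x, hxD⟩, ?_, rfl⟩
      have h3 : (⁅(⊤ : Subgroup D), (⊤ : Subgroup D)⁆).map D.subtype = ⁅D, D⁆ := by
        rw [hsub, htopD]
      rw [← h3] at hx
      obtain ⟨y, hy, hyx⟩ := hx
      have h2 : y = ⟨x, hxD⟩ := Subtype.ext hyx
      rw [← h2]
      exact hy
    · rw [← map_pow]
      exact (QuotientGroup.eq_one_iff _).2 hxℓ
  exact hxn ((QuotientGroup.eq_one_iff (⟨x, hxD⟩ : D)).1 h1)

/- **Third criterion.** -/
theorem peelable_of_sylow (K : Type) [Field K] (H : Type) [Group H] [Finite H]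
    [hsol : Group.IsSolvable H]
    (h : ∀ ℓ : ℕ, ℓ.Prime → (ℓ : K) ≠ 0 → ∀ P : Sylow ℓ H, ∀ x ∈ P, ∀ y ∈ P, x * y = y * x) :
    Peelable K H := by
  obtain ⟨n, hn⟩ := Group.IsSolvable.solvable (G := H)
  refine peelable_of_index K H n ?_ ?_
  · rw [hn]
    exact CompIn.one _ inferInstance
  · intro i _ ℓ hℓ hd
    by_contra h0
    have hab : AbAt ℓ H := by
      intro P hp x hx y hy
      have : Fact ℓ.Prime := ⟨hℓ⟩
      obtain ⟨S, hS⟩ := hp.exists_le_sylow
      exact h ℓ hℓ h0 S x (hS hx) y (hS hy)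
    exact index_of_abAt hℓ hab (derivedSeries H i) hd

end Pool.Agent.T2H67.AG
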