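import Mathlib
import Pool.Agent.H84.L.A7_T2H67_AG_Conj



/-!
# Splitting over a subgroup of an abelian normal subgroup with coprime operators
-/

set_option autoImplicit false

open scoped commutatorElement

namespace Pool.Agent.T2H67.AG

variable {E : Type} [Group E]

/- The elements of `T` commuting with `M`. -/
def cent (T M : Subgroup E) : Subgroup E := T ⊓ Subgroup.centralizer (M : Set E)

theorem mem_cent {T M : Subgroup E} {x : E} : x ∈ cent T M ↔ x ∈ T ∧ ∀ m ∈ M, m * x = x * m := by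
  rw [cent, Subgroup.mem_inf, Subgroup.mem_centralizer_iff]
  rfl

/- A complement of `T` in `M`. -/
theorem exists_Q [Finite E] (T M : Subgroup E) [hT : T.Normal] (hTM : T ≤ M)
    (hco : (Nat.card T).Coprime (T.relIndex M)) :
    ∃ Q : Subgroup E, Q ≤ M ∧ T ⊓ Q = ⊥ ∧ (∀ m ∈ M, ∃ t ∈ T, ∃ q ∈ Q, m = t * q) ∧
      Nat.card Q = T.relIndex M := by
  have hn : (T.subgroupOf M).Normal := inferInstance
  have hcard : Nat.card (T.subgroupOf M) = Nat.card T :=
    Nat.card_congr (Subgroup.subgroupOfEquivOfLe hTM).toEquiv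
  obtain ⟨H, hH⟩ := Subgroup.exists_right_complement'_of_coprime (N := T.subgroupOf M)
    (by rw [hcard]; exact hco)
  refine ⟨H.map M.subtype, Subgroup.map_subtype_le H, ?_, ?_, ?_⟩
  · rw [eq_bot_iff]
    rintro x ⟨hx, y, hy, rfl⟩
    have h1 : y ∈ T.subgroupOf M ⊓ H := ⟨hx, hy⟩
    rw [hH.isCompl.inf_eq_bot] at h1
    rw [Subgroup.mem_bot] at h1 ⊢
    rw [h1]
    rfl
  · intro m hm
    have h1 : (⟨m, hm⟩ : M) ∈ (T.subgroupOf M) ⊔ H := by
      rw [hH.isCompl.sup_eq_top]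
      trivial
    rw [← SetLike.mem_coe, Subgroup.normal_mul] at h1
    obtain ⟨t, ht, q, hq, h⟩ := h1
    exact ⟨t.1, ht, q.1, ⟨q, hq, rfl⟩, (congrArg Subtype.val h).symm⟩
  · have h1 : Nat.card (H.map M.subtype) = Nat.card H :=
      Nat.card_congr (H.equivMapOfInjective M.subtype M.subtype_injective).symm.toEquiv
    rw [h1]
    exact hH.symm.index_eq_card.symm

/- **The subgroup `[T, M]` has a complement.** -/
theorem compl_commutator [Finite E] (T M : Subgroup E) [hT : T.Normal] [hM : M.Normal]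
    (hTM : T ≤ M) (hab : ∀ x ∈ T, ∀ y ∈ T, x * y = y * x)
    (hco : (Nat.card T).Coprime (T.relIndex M)) :
    ∃ N : Subgroup E, ⁅T, M⁆ ⊓ N = ⊥ ∧ ∀ e : E, ∃ a ∈ ⁅T, M⁆, ∃ n ∈ N, e = a * n := by
  classical
  obtain ⟨Q, hQM, hTQ, hMQ, hcard⟩ := exists_Q T M hTM hco
  rw [← hcard] at hco
  let _ : CommGroup T :=
    { (inferInstance : Group T) with
      mul_comm := fun x y => Subtype.ext (hab x.1 x.2 y.1 y.2) }
  have : Fintype Q := Fintype.ofFinite Q
  let cH : E → (T →* T) := fun g => MonoidHom.mk' (fun t => ⟨g * t.1 * g⁻¹, hT.conj_mem _ t.2 g⟩)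
    (fun x y => Subtype.ext (by
      change g * (x.1 * y.1) * g⁻¹ = g * x.1 * g⁻¹ * (g * y.1 * g⁻¹)
      group))
  have hcH : ∀ g h t, cH g (cH h t) = cH (g * h) t := by
    intro g h t
    apply Subtype.ext
    change g * (h * t.1 * h⁻¹) * g⁻¹ = (g * h) * t.1 * (g * h)⁻¹
    group
  have hcHT : ∀ s ∈ T, ∀ t, cH s t = t := by
    intro s hs t
    apply Subtype.ext
    change s * t.1 * s⁻¹ = t.1
    rw [hab s hs t.1 t.2, mul_inv_cancel_right]
  let ν : T →* T := ∏ q : Q, cH q.1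
  have hν : ∀ t, ν t = ∏ q : Q, cH q.1 t := fun t => MonoidHom.finsetProd_apply _ _ _
  have hν1 : ∀ q ∈ Q, ∀ t, ν (cH q t) = ν t := by
    intro q hq t
    rw [hν, hν]
    calc ∏ r : Q, cH r.1 (cH q t) = ∏ r : Q, cH (r * ⟨q, hq⟩ : Q).1 t :=
          Finset.prod_congr rfl fun r _ => hcH r.1 q t
      _ = ∏ r : Q, cH r.1 t := Equiv.prod_comp (Equiv.mulRight (⟨q, hq⟩ : Q)) fun r => cH r.1 t
  have hν2 : ∀ q ∈ Q, ∀ t, cH q (ν t) = ν t := by
    intro q hq t
    rw [hν, map_prod]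
    calc ∏ r : Q, cH q (cH r.1 t) = ∏ r : Q, cH ((⟨q, hq⟩ : Q) * r : Q).1 t :=
          Finset.prod_congr rfl fun r _ => hcH q r.1 t
      _ = ∏ r : Q, cH r.1 t := Equiv.prod_comp (Equiv.mulLeft (⟨q, hq⟩ : Q)) fun r => cH r.1 t
  have hν3 : ∀ m ∈ M, ∀ t, ν (cH m t) = ν t := by
    intro m hm t
    obtain ⟨s, hs, q, hq, rfl⟩ := hMQ m hm
    rw [← hcH, hcHT s hs, hν1 q hq]
  have hν4 : ∀ m ∈ M, ∀ t, cH m (ν t) = ν t := by
    intro m hm t
    obtain ⟨s, hs, q, hq, rfl⟩ := hMQ m hm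
    rw [← hcH, hν2 q hq, hcHT s hs]
  have hmem : ∀ t : T, (∀ m ∈ M, cH m t = t) ↔ t.1 ∈ cent T M := by
    intro t
    rw [mem_cent]
    constructor
    · intro h
      refine ⟨t.2, fun m hm => ?_⟩
      have h1 : m * t.1 * m⁻¹ = t.1 := congrArg Subtype.val (h m hm)
      exact mul_inv_eq_iff_eq_mul.1 h1
    · rintro ⟨-, h⟩ m hm
      apply Subtype.ext
      change m * t.1 * m⁻¹ = t.1
      exact mul_inv_eq_iff_eq_mul.2 (h m hm)
  have hpow_inj : ∀ x y : T, x ^ (Nat.card Q) = y ^ (Nat.card Q) → x = y := fun x y h =>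
    (powCoprime (G := T) hco).injective h
  -- on the centraliser, `ν` is the power map
  have hν5 : ∀ t : T, t.1 ∈ cent T M → ν t = t ^ (Nat.card Q) := by
    intro t ht
    rw [← hmem] at ht
    rw [hν]
    calc ∏ q : Q, cH q.1 t = ∏ _q : Q, t := Finset.prod_congr rfl fun q _ => ht q.1 (hQM q.2)
      _ = t ^ (Nat.card Q) := by
        rw [Finset.prod_const, Finset.card_univ, ← Nat.card_eq_fintype_card]
  -- `A = [T, M]`
  let A : Subgroup E := ⁅T, M⁆
  have hAn : A.Normal := inferInstance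
  have hAT : A ≤ T := Subgroup.commutator_le_left T M
  have hcomm : ∀ m ∈ M, ∀ t : T, t.1 * (cH m t)⁻¹.1 ∈ A := by
    intro m hm t
    have h1 : ⁅t.1, m⁆ ∈ A := Subgroup.commutator_mem_commutator t.2 hm
    have h2 : t.1 * (cH m t)⁻¹.1 = ⁅t.1, m⁆ := by
      change t.1 * (m * t.1 * m⁻¹)⁻¹ = t.1 * m * t.1⁻¹ * m⁻¹
      group
    rw [h2]
    exact h1
  -- `A` is in the kernel of `ν`
  have hAν : ∀ a : T, a.1 ∈ A → ν a = 1 := by
    have h1 : A ≤ ν.ker.map T.subtype := by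
      rw [Subgroup.commutator_le]
      intro t ht m hm
      refine ⟨⟨t, ht⟩ * (cH m ⟨t, ht⟩)⁻¹, ?_, ?_⟩
      · rw [SetLike.mem_coe, MonoidHom.mem_ker, map_mul, map_inv, hν3 m hm, mul_inv_cancel]
      · change t * (m * t * m⁻¹)⁻¹ = t * m * t⁻¹ * m⁻¹
        group
    intro a ha
    obtain ⟨b, hb, hba⟩ := h1 ha
    have : b = a := Subtype.ext hba
    rw [← this]
    exact hb
  have hAC : ∀ x, x ∈ A → x ∈ cent T M → x = 1 := by
    intro x hxA hxC
    have h1 := hν5 ⟨x, hAT hxA⟩ hxC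
    rw [hAν ⟨x, hAT hxA⟩ hxA] at h1
    have h2 : (⟨x, hAT hxA⟩ : T) = 1 := hpow_inj _ _ (by rw [← h1, one_pow])
    exact congrArg Subtype.val h2
  -- `T = A C`
  have hTAC : ∀ t ∈ T, ∃ a ∈ A, ∃ c ∈ cent T M, t = a * c := by
    intro t ht
    let t' : T := ⟨t, ht⟩
    obtain ⟨c, hc⟩ := (powCoprime (G := T) hco).surjective (ν t')
    have hc' : c ^ (Nat.card Q) = ν t' := hc
    have hcC : c.1 ∈ cent T M := by
      rw [← hmem]
      intro m hm
      apply hpow_inj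
      rw [← map_pow, hc', hν4 m hm]
    refine ⟨t * c.1⁻¹, ?_, c.1, hcC, by group⟩
    -- `(t c⁻¹)^n` is in `A`
    have h1 : (t' * c⁻¹) ^ (Nat.card Q) = ∏ q : Q, (t' * (cH q.1 t')⁻¹) := by
      rw [Finset.prod_mul_distrib, Finset.prod_inv_distrib, ← hν, Finset.prod_const,
        Finset.card_univ, ← Nat.card_eq_fintype_card, mul_pow, inv_pow, hc']
    have h2 : ((t' * c⁻¹) ^ (Nat.card Q)) ∈ A.subgroupOf T := by
      rw [h1]
      exact Subgroup.prod_mem _ fun q _ => hcomm q.1 (hQM q.2) t'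
    -- the `n`-th power map is bijective on the subgroup too
    have h3 : (t' * c⁻¹) ∈ A.subgroupOf T := by
      have h4 : (Nat.card Q).Coprime (orderOf (t' * c⁻¹)) :=
        (Nat.Coprime.coprime_dvd_left (orderOf_dvd_natCard _) hco).symm
      obtain ⟨m, hm⟩ := exists_pow_eq_self_of_coprime h4
      rw [← hm]
      exact Subgroup.pow_mem _ h2 m
    exact h3
  refine ⟨Subgroup.normalizer (Q : Set E), ?_, ?_⟩
  · rw [eq_bot_iff]
    rintro a ⟨haA, haN⟩
    rw [Subgroup.mem_bot]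
    apply hAC a haA
    rw [mem_cent]
    refine ⟨hAT haA, fun m hm => ?_⟩
    obtain ⟨s, hs, q, hq, rfl⟩ := hMQ m hm
    have h1 : a * q * a⁻¹ ∈ Q := (Subgroup.mem_normalizer_iff.1 haN q).1 hq
    have h2 : a * q * a⁻¹ * q⁻¹ ∈ T := by
      have h3 : a * q * a⁻¹ * q⁻¹ = a * (q * a⁻¹ * q⁻¹) := by group
      rw [h3]
      exact T.mul_mem (hAT haA) (hT.conj_mem _ (T.inv_mem (hAT haA)) q)
    have h3 : a * q * a⁻¹ * q⁻¹ ∈ T ⊓ Q := ⟨h2, Q.mul_mem h1 (Q.inv_mem hq)⟩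
    rw [hTQ, Subgroup.mem_bot] at h3
    have h4 : a * q = q * a := by
      have h5 : a * q * a⁻¹ = q := mul_inv_eq_one.1 h3
      exact mul_inv_eq_iff_eq_mul.1 h5
    calc s * q * a = s * (a * q) := by rw [h4, mul_assoc]
      _ = a * (s * q) := by rw [← mul_assoc, hab s hs a (hAT haA), mul_assoc]
  · intro e
    let Q' : Subgroup E := Q.map (MulAut.conj e).toMonoidHom
    have hQ'mem : ∀ x, x ∈ Q' ↔ e⁻¹ * x * e ∈ Q := by
      intro x
      constructor
      · rintro ⟨q, hq, rfl⟩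
        have : e⁻¹ * (e * q * e⁻¹) * e = q := by group
        change e⁻¹ * (e * q * e⁻¹) * e ∈ Q
        rwa [this]
      · intro hx
        refine ⟨_, hx, ?_⟩
        change e * (e⁻¹ * x * e) * e⁻¹ = x
        group
    have hcQ : Nat.card Q' = Nat.card Q :=
      Nat.card_congr (Q.equivMapOfInjective _ (MulAut.conj e).injective).symm.toEquiv
    have h2 : T ⊓ Q' = ⊥ := by
      rw [eq_bot_iff]
      rintro x ⟨hxT, hxQ⟩
      have h3 : e⁻¹ * x * e ∈ T := by
        have := hT.conj_mem x hxT e⁻¹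
        rwa [inv_inv] at this
      have h4 : e⁻¹ * x * e ∈ T ⊓ Q := ⟨h3, (hQ'mem x).1 hxQ⟩
      rw [hTQ, Subgroup.mem_bot] at h4
      rw [Subgroup.mem_bot]
      have h5 : x = e * (e⁻¹ * x * e) * e⁻¹ := by group
      rw [h5, h4]
      group
    have h3 : ∀ q ∈ Q, ∃ q' ∈ Q', q * q'⁻¹ ∈ T := by
      intro q hq
      have h4 : e⁻¹ * q * e ∈ M := by
        have := hM.conj_mem q (hQM hq) e⁻¹
        rwa [inv_inv] at this
      obtain ⟨s, hs, r, hr, h5⟩ := hMQ _ h4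
      refine ⟨e * r * e⁻¹, (hQ'mem _).2 ?_, ?_⟩
      · have : e⁻¹ * (e * r * e⁻¹) * e = r := by group
        rwa [this]
      · have h6 : q * (e * r * e⁻¹)⁻¹ = e * s * e⁻¹ := by
          have h7 : q = e * (s * r) * e⁻¹ := by
            rw [← h5]
            group
          rw [h7]
          group
        rw [h6]
        exact hT.conj_mem s hs e
    obtain ⟨t, ht, htQ⟩ := conj_compl T Q Q' hab h2 h3 (le_of_eq hcQ) hTQ hco
    obtain ⟨a, ha, c, hc, rfl⟩ := hTAC t ht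
    refine ⟨a⁻¹, A.inv_mem ha, a * e, ?_, by group⟩
    rw [mem_cent] at hc
    have key : ∀ x ∈ Q, x ∈ Q ↔ (a * c)⁻¹ * x * (a * c) ∈ Q' := fun x _ => htQ x
    rw [Subgroup.mem_normalizer_iff]
    -- for all `x` : `x ∈ Q ↔ (a e) x (a e)⁻¹ ∈ Q`
    have hmain : ∀ x, x ∈ Q → (a * e) * x * (a * e)⁻¹ ∈ Q := by
      intro x hx
      -- `e x e⁻¹ ∈ Q'`
      have h4 : e * x * e⁻¹ ∈ Q' := ⟨x, hx, rfl⟩
      have h5 : (a * c) * (e * x * e⁻¹) * (a * c)⁻¹ ∈ Q := by
        rw [htQ]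
        have : (a * c)⁻¹ * ((a * c) * (e * x * e⁻¹) * (a * c)⁻¹) * (a * c) = e * x * e⁻¹ := by
          group
        rwa [this]
      -- `c` commutes with `e x e⁻¹ ∈ M`
      have h6 : e * x * e⁻¹ ∈ M := hM.conj_mem x (hQM hx) e
      have h7 := hc.2 _ h6
      have h8 : (a * c) * (e * x * e⁻¹) * (a * c)⁻¹ = (a * e) * x * (a * e)⁻¹ := by
        calc (a * c) * (e * x * e⁻¹) * (a * c)⁻¹ = a * (c * (e * x * e⁻¹)) * c⁻¹ * a⁻¹ := by group
          _ = a * ((e * x * e⁻¹) * c) * c⁻¹ * a⁻¹ := by rw [h7]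
          _ = (a * e) * x * (a * e)⁻¹ := by group
      rwa [h8] at h5
    intro x
    constructor
    · exact hmain x
    · intro hx
      -- finite group: the conjugation is injective, hence bijective on `Q`
      let g : Q → Q := fun q => ⟨(a * e) * q.1 * (a * e)⁻¹, hmain q.1 q.2⟩
      have hg : Function.Injective g := by
        intro q r h
        have h5 : (a * e) * q.1 * (a * e)⁻¹ = (a * e) * r.1 * (a * e)⁻¹ :=
          congrArg Subtype.val h
        exact Subtype.ext (mul_left_cancel (mul_right_cancel h5))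
      obtain ⟨q, hq⟩ := (Finite.injective_iff_surjective.1 hg) ⟨_, hx⟩
      have h5 : (a * e) * q.1 * (a * e)⁻¹ = (a * e) * x * (a * e)⁻¹ := congrArg Subtype.val hq
      have h6 : q.1 = x := mul_left_cancel (mul_right_cancel h5)
      rw [← h6]
      exact q.2


end Pool.Agent.T2H67.AG
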