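import Mathlib
import Pool.Agent.H84.L.S8_H391R2_T4_Fam
import Pool.Agent.H84.L.S8_H391R2_T4_Nod
import Pool.Agent.H84.L.S8_H391R2_T4_Sem
import Pool.Agent.H84.L.S8_H391R2_T4_Sol
import Pool.Agent.H84.L.S8_H391R2_WrGrp
import Pool.Agent.H84.L.S8_TH15_IGP_TwB
import Pool.Agent.H84.L.S8_TH15_IGP_TwT
import Pool.Agent.H84.L.S8_TH444_TW_Cls
import Pool.Agent.H84.L.S8_TH444_TW_ClsDef
import Pool.Agent.H84.L.S8_TH444_TW_Loc
import Pool.Agent.H84.L.S8_TH444_TW_RS
import Pool.Agent.H84.L.S8_TH444_TW_RSK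
import Pool.Agent.H84.L.S8_TH444_TW_Split
import Pool.Agent.H84.L.S8_W200_IG_Fam
import Pool.Agent.H84.L.S8_W200_IH_TA
import Pool.Agent.H84.L.S8_W200_IJ_CB
import Pool.Agent.H84.L.S8_W200_IJ_SA
import Pool.Agent.H84.L.S8_Y165_DCN_Syl
import Pool.Agent.H84.L.S8_Y195_DCN_Fin
import Pool.Agent.H84.L.S8_Y461_DC_ComplA
import Pool.Agent.H84.L.S8_Y60_DC_ClsU
import Pool.Agent.H84.L.S8_Y60_DC_ClsU2
import Pool.Agent.H84.L.S8_Y60_DC_Conn
import Pool.Agent.H84.L.S8_Y60_DC_Conn2
import Pool.Agent.H84.L.S8_Y60_DC_Dbl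
import Pool.Agent.H84.L.S8_Y60_DC_Def
import Pool.Agent.H84.L.S8_Y60_DC_SpGrp
import Pool.Agent.H84.L.S8_Y60_DC_StmSp
import Pool.Agent.H84.L.S8_Y60_DC_Tens
import Pool.Agent.H84.L.S8_Y815_DSP_Aut

namespace Pool.Agent.H391R2
end Pool.Agent.H391R2
namespace Pool.Agent.H391R2.T4
end Pool.Agent.H391R2.T4
namespace Pool.Agent.TH15.IGP
end Pool.Agent.TH15.IGP
namespace Pool.Agent.TH444.TW
end Pool.Agent.TH444.TW


/-!
# The class of homomorphisms with unitary kernels
-/

set_option autoImplicit false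

namespace Pool.Agent.Y60.DC

open Pool.Agent.H391R2 Pool.Agent.H391R2.T4
open Pool.Agent.TH15.IGP (StepSol)
open Pool.Agent.TH444.TW (Cls RSK infinite_ratFunc infinite_of_hilb exists_sdEquiv)

/- `π : W' → W` is the projection of a semidirect product `Aˣ ⋊ W`, `A` a finite ring of
characteristic `p`, where `W` acts through a homomorphism `ρ` from `W` to the group of
automorphisms of the ring `A`: there are an isomorphism `ι` of `Aˣ` onto the kernel of `π` and a
homomorphic section `s` of `π`, and `s w` acts on the kernel by `ρ w`. -/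
def IsUnits (p : ℕ) [Fact p.Prime] {W W' : Type} [Group W] [Group W'] (π : W' →* W) : Prop :=
  ∃ (A : Type) (_ : Ring A) (_ : Algebra (ZMod p) A) (_ : Finite A) (ρ : W →* (A ≃+* A))
    (ι : Aˣ →* W') (s : W →* W'),
    Function.Injective ι ∧ ι.range = π.ker ∧ (∀ w, π (s w) = w) ∧
    ∀ (w : W) (x y : Aˣ), (y : A) = ρ w (x : A) → s w * ι x = ι y * s w

/- Semidirect products with unit groups are semidirect products with unitary groups. -/
theorem units_isUnitary (p : ℕ) [Fact p.Prime] {W W' : Type} [Group W] [Group W'] (π : W' →* W)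
    (h : IsUnits p π) : IsUnitary p π := by
  obtain ⟨A, iA, jA, fA, ρ, ι, s, hι, hr, hs, hc⟩ := h
  have hh : ∃ z : Dbl A, z + star z = 1 := ⟨dmk 1 0, dbl_half⟩
  -- automorphisms of the double
  let ρ' : W →* (Dbl A ≃+* Dbl A) :=
    { toFun := fun w =>
        { toFun := fun x => dmk (ρ w (d₁ x)) (ρ w (d₂ x))
          invFun := fun x => dmk ((ρ w).symm (d₁ x)) ((ρ w).symm (d₂ x))
          left_inv := fun x => dbl_ext ((ρ w).symm_apply_apply _) ((ρ w).symm_apply_apply _)
          right_inv := fun x => dbl_ext ((ρ w).apply_symm_apply _) ((ρ w).apply_symm_apply _)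
          map_mul' := fun x y => dbl_ext (map_mul (ρ w) _ _) (map_mul (ρ w) _ _)
          map_add' := fun x y => dbl_ext (map_add (ρ w) _ _) (map_add (ρ w) _ _) }
      map_one' := by
        apply RingEquiv.ext
        intro x
        change dmk (ρ 1 (d₁ x)) (ρ 1 (d₂ x)) = x
        rw [map_one]
        rfl
      map_mul' := fun w w' => by
        apply RingEquiv.ext
        intro x
        change dmk (ρ (w * w') (d₁ x)) (ρ (w * w') (d₂ x)) =
          dmk (ρ w (ρ w' (d₁ x))) (ρ w (ρ w' (d₂ x)))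
        rw [map_mul]
        rfl }
  -- from the unitary group to the units
  let j : unitary0 p (Dbl A) hh →* Aˣ :=
    { toFun := fun x => ⟨d₁ ((x : unitary (Dbl A)) : Dbl A), d₂ ((x : unitary (Dbl A)) : Dbl A),
        ((mem_unitary_dbl _).1 (x : unitary (Dbl A)).2).1,
        ((mem_unitary_dbl _).1 (x : unitary (Dbl A)).2).2⟩
      map_one' := Units.ext rfl
      map_mul' := fun x y => Units.ext rfl }
  have hj1 : Function.Injective j := by
    intro x y hxy
    apply Subtype.ext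
    apply Subtype.ext
    have h1 : d₁ ((x : unitary (Dbl A)) : Dbl A) = d₁ ((y : unitary (Dbl A)) : Dbl A) :=
      congrArg Units.val hxy
    have h2 : d₂ ((x : unitary (Dbl A)) : Dbl A) = d₂ ((y : unitary (Dbl A)) : Dbl A) :=
      congrArg Units.inv hxy
    exact dbl_ext h1 h2
  have hj2 : Function.Surjective j := by
    intro u
    have hu : dmk (u : A) ((u⁻¹ : Aˣ) : A) ∈ unitary (Dbl A) := by
      rw [mem_unitary_dbl]
      exact ⟨Units.mul_inv u, Units.inv_mul u⟩
    exact ⟨⟨⟨_, hu⟩, (dbl_conn (p := p) _ hu).some⟩, Units.ext rfl⟩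
  refine ⟨Dbl A, inferInstance, inferInstance, inferInstance, inferInstance, hh, ρ', ι.comp j, s,
    fun w a => rfl, hι.comp hj1, ?_, hs, fun w x y hxy => ?_⟩
  · rw [← hr]
    ext x
    constructor
    · rintro ⟨y, rfl⟩
      exact ⟨j y, rfl⟩
    · rintro ⟨y, rfl⟩
      obtain ⟨z, rfl⟩ := hj2 y
      exact ⟨z, rfl⟩
  · refine hc w (j x) (j y) ?_
    exact congrArg d₁ hxy


theorem isAutPower_finite {A : Type} [Group A] [Finite A] {W W' : Type} [Group W] [Finite W]
    [Group W'] (π : W' →* W) (h : IsAutPower A π) : Finite W' := by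
  obtain ⟨k, ψ, ι, s, hι, hr, hs, hc⟩ := h
  have h1 : Finite ι.range := Set.finite_range ι
  rw [hr] at h1
  exact Pool.Agent.TH444.TW.finite_of_ker π

theorem isUnitary_finite {p : ℕ} [Fact p.Prime] {W W' : Type} [Group W] [Finite W]
    [Group W'] (π : W' →* W) (h : IsUnitary p π) : Finite W' := by
  obtain ⟨R, iR, jR, sR, fR, h1, ρ, ι, s, hρ, hι, hr, hs, hc⟩ := h
  have h1 : Finite ι.range := Set.finite_range ι
  rw [hr] at h1
  exact Pool.Agent.TH444.TW.finite_of_ker π

theorem spCond_of {p : ℕ} [hp : Fact p.Prime] (F : Type) [Field F] [CharP F p] {n : ℕ}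
    (hn : (p ≠ 2 ∧ 2 ≤ n) ∨ 3 ≤ n) : SpCond n F := by
  rcases hn with ⟨h1, h2⟩ | h
  · refine Or.inl ⟨fun h => ?_, h2⟩
    have h3 : ((2 : ℕ) : F) = 0 := by exact_mod_cast h
    rw [CharP.cast_eq_zero_iff F p] at h3
    exact h1 ((Nat.prime_dvd_prime_iff_eq hp.out Nat.prime_two).1 h3)
  · exact Or.inr h

variable {K : Type} [Field K]


end Pool.Agent.Y60.DC
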