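import Mathlib
import Pool.Agent.H84.L.S8_H391R2_T4_Nod
import Pool.Agent.H84.L.S8_H391R2_T4_Sem
import Pool.Agent.H84.L.S8_TH15_IGP_TwT
import Pool.Agent.H84.L.S8_TH444_TW_Cls
import Pool.Agent.H84.L.S8_TH444_TW_ClsDef
import Pool.Agent.H84.L.S8_TH444_TW_Loc
import Pool.Agent.H84.L.S8_TH444_TW_RS
import Pool.Agent.H84.L.S8_TH444_TW_RSK
import Pool.Agent.H84.L.S8_W200_IG_Fam
import Pool.Agent.H84.L.S8_W200_IJ_CB
import Pool.Agent.H84.L.S8_W200_IJ_SA
import Pool.Agent.H84.L.S8_Y287_DC_Aut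
import Pool.Agent.H84.L.S8_Y60_DC_Cls
import Pool.Agent.H84.L.S8_Y60_DC_ClsU
import Pool.Agent.H84.L.S8_Y60_DC_ClsU2
import Pool.Agent.H84.L.S8_Y60_DC_ClsU3
import Pool.Agent.H84.L.S8_Y60_DC_Def
import Pool.Agent.H84.L.S8_Y60_DC_LiftN
import Pool.Agent.H84.L.S8_Y60_DC_LocS
import Pool.Agent.H84.L.S8_Y60_DC_RecC
import Pool.Agent.H84.L.S8_Y60_DC_SpAll
import Pool.Agent.H84.L.S8_Y60_DC_Stm4
import Pool.Agent.H84.L.S8_Y60_DC_StmSp

namespace Pool.Agent.H391R2
end Pool.Agent.H391R2
namespace Pool.Agent.H391R2.T4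
end Pool.Agent.H391R2.T4
namespace Pool.Agent.TH15.IGP
end Pool.Agent.TH15.IGP
namespace Pool.Agent.TH444.TW
end Pool.Agent.TH444.TW


/-!
# The class of homomorphisms in characteristic `p`
-/

set_option autoImplicit false

namespace Pool.Agent.Y60.DC

open Pool.Agent.H391R2 Pool.Agent.H391R2.T4
open Pool.Agent.TH15.IGP (StepSol)
open Pool.Agent.TH444.TW (Cls RSK infinite_ratFunc infinite_of_hilb)

/- The class `ClsC p K` of homomorphisms of groups. -/
inductive ClsC (p : ℕ) [Fact p.Prime] (K : Type) [Field K] :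
    ∀ {W W' : Type} [Group W] [Group W'], (W' →* W) → Prop
  /- the class `Cls K` -/
  | base {W W' : Type} [Group W] [Group W'] (π : W' →* W) (h : Cls K π) : ClsC p K π
  /- arbitrary epimorphisms whose kernel has composition factors in `FacC p` -/
  | fac {W W' : Type} [Group W] [Group W'] (π : W' →* W) (hs : Function.Surjective π)
      (hfin : Finite π.ker) (h : CompIn (FacC p) π.ker) : ClsC p K π
  /- `Aˣ ⋊ W → W`, `A` a finite ring of characteristic `p` -/
  | units {W W' : Type} [Group W] [Group W'] (π : W' →* W) (h : IsUnits p π) : ClsC p K π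
  /- `U⁰(R) ⋊ W → W`, `R` a finite ring of characteristic `p` with an involution -/
  | unitary {W W' : Type} [Group W] [Group W'] (π : W' →* W) (h : IsUnitary p π) : ClsC p K π
  /- `SL_2(F)^k ⋊ W → W` -/
  | sl2 {W W' : Type} [Group W] [Group W'] (π : W' →* W) (F : Type) [Field F] [Finite F]
      [CharP F p] (hF : 4 ≤ Nat.card F) (h : IsAutPower (Matrix.SpecialLinearGroup (Fin 2) F) π) :
      ClsC p K π
  /- `SL_n(F)^k ⋊ W → W` -/
  | sln {W W' : Type} [Group W] [Group W'] (π : W' →* W) (F : Type) [Field F] [Finite F]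
      [CharP F p] (n : ℕ) (hn : 3 ≤ n) (hc : Nat.Coprime n (Nat.card F - 1))
      (h : IsAutPower (Matrix.SpecialLinearGroup (Fin n) F) π) : ClsC p K π
  /- `Sp_2n(F)^k ⋊ W → W` -/
  | sp {W W' : Type} [Group W] [Group W'] (π : W' →* W) (F : Type) [Field F] [Finite F]
      [CharP F p] (n : ℕ) (hn : (p ≠ 2 ∧ 2 ≤ n) ∨ 3 ≤ n)
      (h : IsAutPower (Matrix.symplecticGroup (Fin n) F) π) : ClsC p K π
  /- compositions -/
  | comp {W W' W'' : Type} [Group W] [Group W'] [Group W''] (π : W' →* W) (q : W'' →* W')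
      (hp : ClsC p K π) (hq : ClsC p K q) : ClsC p K (π.comp q)
  /- quotients -/
  | quot {W W' W'' : Type} [Group W] [Group W'] [Group W''] (π : W' →* W) (q : W'' →* W')
      (hq : Function.Surjective q) (hpq : ClsC p K (π.comp q)) : ClsC p K π

variable {K : Type} [Field K]

theorem ClsC.main (p : ℕ) [Fact p.Prime] [CharP K p] {W W' : Type} [Group W] [Group W']
    {π : W' →* W} (h : ClsC p K π) : Finite W → Finite W' ∧ RSK K π := by
  induction h with
  | base π h =>
    intro hW
    exact h.main hW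
  | fac π hs hfin h =>
    intro hW
    have hW' : Finite _ := Pool.Agent.TH444.TW.finite_of_ker π
    refine ⟨hW', ?_⟩
    intro K' M _ _ _ _ _ _ _ ε
    have hc : CharP K' p := charP_of_injective_algebraMap (algebraMap K K').injective p
    refine regC_inf p K' M _ _ (ε.symm.surjective.comp hs) ?_
    have h1 : (ε.symm.toMonoidHom.comp π).ker = π.ker := by
      ext x
      rw [MonoidHom.mem_ker, MonoidHom.mem_ker]
      exact map_eq_one_iff ε.symm ε.symm.injective
    rw [h1]
    exact h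
  | units π h =>
    intro hW
    have h' := units_isUnitary p π h
    exact ⟨isUnitary_finite π h', unitary_rsk p K π h'⟩
  | unitary π h =>
    intro hW
    exact ⟨isUnitary_finite π h, unitary_rsk p K π h⟩
  | sl2 π F hF h =>
    intro hW
    have hfin : Finite (Matrix.SpecialLinearGroup (Fin 2) F) := inferInstance
    exact ⟨isAutPower_finite π h, autPower_rsk p K _ (locS Pool.Agent.Y287.DC.aut_holds p F hF)
      π h⟩
  | sln π F n hn hc h =>
    intro hW
    have hfin : Finite (Matrix.SpecialLinearGroup (Fin n) F) := inferInstance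
    exact ⟨isAutPower_finite π h, autPower_rsk p K _ (locPN autn_all p F n hn hc) π h⟩
  | sp π F n hn h =>
    intro hW
    have hfin : Finite (SpM n F) := inferInstance
    exact ⟨isAutPower_finite π h, autPower_rsk p K _ (locSp_all p F n (spCond_of F hn)) π h⟩
  | comp π q hp hq ihp ihq =>
    intro hW
    obtain ⟨h1, h2⟩ := ihp hW
    obtain ⟨h3, h4⟩ := ihq h1
    exact ⟨h3, RSK.comp h2 h4⟩
  | quot π q hq hpq ih =>
    intro hW
    obtain ⟨h1, h2⟩ := ih hW
    exact ⟨Finite.of_surjective q hq, RSK.quot q hq (fun x => rfl) h2⟩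


end Pool.Agent.Y60.DC
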