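import Mathlib
import Pool.Agent.H84.L.S8_H391R2_T4_Nod
import Pool.Agent.H84.L.S8_H391R2_T4_Sem
import Pool.Agent.H84.L.S8_TH15_IGP_TwB
import Pool.Agent.H84.L.S8_TH15_IGP_TwT
import Pool.Agent.H84.L.S8_TH444_TW_ClsDef
import Pool.Agent.H84.L.S8_TH444_TW_RS
import Pool.Agent.H84.L.S8_TH444_TW_RSK
import Pool.Agent.H84.L.S8_W200_IG_Fam
import Pool.Agent.H84.L.S8_W200_IJ_SA
import Pool.Agent.H84.L.S8_Y195_DCN_Fin
import Pool.Agent.H84.L.S8_Y461_DC_ComplA
import Pool.Agent.H84.L.S8_Y60_DC_Clas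
import Pool.Agent.H84.L.S8_Y60_DC_ClsC
import Pool.Agent.H84.L.S8_Y60_DC_Conn
import Pool.Agent.H84.L.S8_Y60_DC_Conn2
import Pool.Agent.H84.L.S8_Y60_DC_Def
import Pool.Agent.H84.L.S8_Y60_DC_RecC
import Pool.Agent.H84.L.S8_Y60_DC_RecN
import Pool.Agent.H84.L.S8_Y60_DC_RecS
import Pool.Agent.H84.L.S8_Y60_DC_SpGrp
import Pool.Agent.H84.L.S8_Y60_DC_Su
import Pool.Agent.H84.L.S8_Y60_DC_Tens
import Pool.Agent.H84.L.S8_Y60_DCF_Defs

namespace Pool.Agent.H391R2
end Pool.Agent.H391R2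
namespace Pool.Agent.H391R2.T4
end Pool.Agent.H391R2.T4
namespace Pool.Agent.TH15.IGP
end Pool.Agent.TH15.IGP
namespace Pool.Agent.Y60.DC
end Pool.Agent.Y60.DC


/-!
# Homomorphisms in the class `Step p K`
-/

set_option autoImplicit false

open TensorProduct

namespace Pool.Agent.Y60.DCF

open Pool.Agent.Y60.DC
open Pool.Agent.H391R2 Pool.Agent.H391R2.T4
open Pool.Agent.TH15.IGP (StepSol)

section ring

variable {p : ℕ} [Fact p.Prime]

theorem connected_iff {R : Type} [Ring R] [Algebra (ZMod p) R] [StarRing R] (b : R) :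
    Connected p b ↔ ConnSome p b := by
  constructor
  · rintro ⟨A, iA, jA, v, hv, hu⟩
    obtain ⟨u, hu⟩ := hu
    refine ⟨A, iA, jA, v, (u⁻¹).val, hv, ?_, ?_⟩
    · change (invo p v + emb p A b * v) * _ = 1
      rw [← hu, Units.mul_inv]
    · change _ * (invo p v + emb p A b * v) = 1
      rw [← hu, Units.inv_mul]
  · rintro ⟨A, iA, jA, v, y, hv, h1, h2⟩
    exact ⟨A, iA, jA, v, hv, ⟨⟨_, y, h1, h2⟩, rfl⟩⟩

section u0

variable {R : Type} [Ring R] [Algebra (ZMod p) R] [StarRing R] [Finite R]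
  (h1 : ∃ z : R, z + star z = 1) {N : Type} [Group N] {ι : N →* R}

theorem exists_e (h : IsU0 p R ι) : ∃ e : unitary0 p R h1 ≃* N,
    ∀ x, ι (e x) = ((x : unitary R) : R) := by
  obtain ⟨hi, hr⟩ := h
  have hm : ∀ n, ι n ∈ unitary R ∧ ConnSome p (ι n) := fun n => by
    have h2 := (hr (ι n)).1 ⟨n, rfl⟩
    exact ⟨h2.1, (connected_iff _).1 h2.2⟩
  let f : N →* unitary0 p R h1 :=
    { toFun := fun n => ⟨⟨ι n, (hm n).1⟩, (hm n).2⟩
      map_one' := Subtype.ext (Subtype.ext (map_one ι))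
      map_mul' := fun a b => Subtype.ext (Subtype.ext (map_mul ι a b)) }
  have hf : Function.Bijective f := by
    constructor
    · intro a b hab
      apply hi
      exact congrArg (fun x : unitary0 p R h1 => ((x : unitary R) : R)) hab
    · intro x
      obtain ⟨n, hn⟩ := (hr ((x : unitary R) : R)).2 ⟨(x : unitary R).2, (connected_iff _).2 x.2⟩
      exact ⟨n, Subtype.ext (Subtype.ext hn)⟩
  let E := MulEquiv.ofBijective f hf
  refine ⟨E.symm, fun x => ?_⟩
  have h3 : E (E.symm x) = x := E.apply_symm_apply x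
  exact congrArg (fun x : unitary0 p R h1 => ((x : unitary R) : R)) h3

end u0


theorem IsClassical.old {T : Type} [Group T] (h : IsClassical p T) :
    Pool.Agent.Y60.DC.IsClassical p T := by
  obtain ⟨R, iR, jR, sR, N, iN, ι, π, C, iC, c, ρ, ⟨fR, h1⟩, hι, hπ, ⟨hc, hT⟩, hρ, hcπ⟩ := h
  obtain ⟨e, he⟩ := exists_e h1 hι
  refine ⟨R, iR, jR, sR, fR, h1, π.comp e.toMonoidHom, C, iC, c, ρ, hπ.comp e.surjective, hc, hT,
    hρ, fun x u v huv => ?_⟩
  exact hcπ x (e u) (e v) (by rw [he, he, huv])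

theorem center_bot {T : Type} [Group T] (hs : IsSimpleGroup T) (h : ∃ a b : T, a * b ≠ b * a) :
    Subgroup.center T = ⊥ := by
  rcases hs.eq_bot_or_eq_top_of_normal (Subgroup.center T) inferInstance with h1 | h1
  · exact h1
  · exfalso
    obtain ⟨a, b, hab⟩ := h
    apply hab
    have h2 : b ∈ Subgroup.center T := by
      rw [h1]
      exact Subgroup.mem_top _
    exact Subgroup.mem_center_iff.1 h2 a

theorem finite_of_card_pow {F : Type} {p k : ℕ} (hp : p.Prime) (h : Nat.card F = p ^ k) :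
    Finite F := by
  apply Nat.finite_of_card_ne_zero
  rw [h]
  exact pow_ne_zero _ hp.ne_zero

theorem Factor.old [hp : Fact p.Prime] (T : Type) [Group T] (h : Factor p T) : FacC p T := by
  rcases h with h | ⟨F, iF, k, h1, h2, h3, ⟨f⟩⟩ | ⟨F, iF, k, n, h1, h2, h3, h4, ⟨f⟩⟩ |
    ⟨F, iF, k, n, h1, h2, h3, ⟨f⟩⟩ | ⟨h1, h2, h3⟩
  · exact Or.inl (Or.inl (Or.inl h))
  · exact Or.inl (Or.inl (Or.inr (Or.inl ⟨F, iF, k, h1, h2, h3, ⟨f⟩⟩)))
  · have hfin : Finite F := finite_of_card_pow hp.out h1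
    have hft : Fintype F := Fintype.ofFinite F
    have hchar : CharP F p := charP_of_card_eq_prime_pow (f := k) (by
      rw [← Nat.card_eq_fintype_card, h1])
    refine Or.inl (Or.inl (Or.inr (Or.inr ⟨F, iF, hfin, hchar, n, h3, ?_, ⟨f⟩⟩)))
    rw [h1]
    exact h4
  · have hfin : Finite F := finite_of_card_pow hp.out h1
    exact Or.inl (Or.inr ⟨F, iF, hfin, n, k, h1, h3, ⟨f⟩⟩)
  · exact Or.inr ⟨h1, center_bot h1 h2, h3.old⟩

end ring

/- Monotonicity. -/
theorem compIn_mono {S S' : ∀ (T : Type) [Group T], Prop}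
    (hS : ∀ (T : Type) [Group T], S T → S' T) {N : Type} [Group N] (h : CompIn S N) :
    CompIn S' N := by
  induction h with
  | one N h => exact CompIn.one N h
  | ext N M hM hq ih => exact CompIn.ext N M ih (hS _ hq)


end Pool.Agent.Y60.DCF
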