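import Mathlib
import Pool.Agent.H84.L.A7_T2H67_AG_Alt
import Pool.Agent.H84.L.A7_T2H67_AG_PKDef
import Pool.Agent.H84.L.A7_T2H67_AG_Split
import Pool.Agent.H84.L.A7_T2H67_SA_Cl2
import Pool.Agent.H84.L.A7_T2H67_SA_FinA
import Pool.Agent.H84.L.A7_T2H67_SA_Theta
import Pool.Agent.H84.L.A7_T2H67_SA_Z
import Pool.Agent.H84.L.S8_H391R2_T4_Nod
import Pool.Agent.H84.L.S8_H391R2_T4_Red
import Pool.Agent.H84.L.S8_H391R2_T4_Sem
import Pool.Agent.H84.L.S8_TH444_TW_Ab
import Pool.Agent.H84.L.S8_TH444_TW_RS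
import Pool.Agent.H84.L.S8_TH444_TW_RSK
import Pool.Agent.H84.L.S8_W200_IG_Fam
import Pool.Agent.H84.L.S8_W200_IG_HF
import Pool.Agent.H84.L.S8_W200_IJ_SA
import Pool.Agent.H84.L.S8_Y419_DC_CF
import Pool.Agent.H84.L.S8_Y563_DC_Prod
import Pool.Agent.H84.L.S8_Y60_DC_ClsC
import Pool.Agent.H84.L.S8_Y60_DC_Def
import Pool.Agent.H84.L.S8_Y60_DC_Good
import Pool.Agent.H84.L.S8_Y60_DC_Rec
import Pool.Agent.H84.L.S8_Y60_DC_RecC
import Pool.Agent.H84.L.S8_Y60_DC_StmSp
import Pool.Agent.H84.L.S8_Y60_DCF_Defs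
import Pool.Agent.H84.L.S8_Y60_DCF_Main
import Pool.Agent.H84.L.S8_Y676_DSP_Simple

namespace Pool.Agent.H391R2
end Pool.Agent.H391R2
namespace Pool.Agent.H391R2.T4
end Pool.Agent.H391R2.T4
namespace Pool.Agent.TH444.TW
end Pool.Agent.TH444.TW
namespace Pool.Agent.Y60.DC
end Pool.Agent.Y60.DC


/-!
# Regular solutions for the kernels in the class
-/

set_option autoImplicit false

open scoped commutatorElement

namespace Pool.Agent.T2H67.AG

open Pool.Agent.H391R2 Pool.Agent.H391R2.T4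
open Pool.Agent.TH444.TW (RSK ab_rs RS)
open Pool.Agent.Y60.DC (CompIn GoodKerP)

/- The image of a characteristic subgroup in an extension. -/
theorem map_char_normal {W W' H : Type} [Group W] [Group W'] [Group H] (p : W' →* W)
    (f : H →* W') (hf : Function.Injective f) (hr : f.range = p.ker) (A : Subgroup H)
    [hA : A.Characteristic] : (A.map f).Normal := by
  have hfp : ∀ x, p (f x) = 1 := fun x => by
    have h1 : f x ∈ p.ker := by rw [← hr]; exact ⟨x, rfl⟩
    exact h1
  let e : H ≃* p.ker := MulEquiv.ofBijective (f.codRestrict p.ker hfp) ⟨fun x y h =>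
    hf (congrArg Subtype.val h), fun y => by
      have h1 : y.1 ∈ f.range := by rw [hr]; exact y.2
      obtain ⟨x, hx⟩ := h1
      exact ⟨x, Subtype.ext hx⟩⟩
  have he : ∀ x, ((e x : p.ker) : W') = f x := fun x => rfl
  refine ⟨?_⟩
  rintro _ ⟨x, hx, rfl⟩ w
  let φ : MulAut H := (e.trans (MulAut.conjNormal w)).trans e.symm
  have h1 : φ x ∈ A := by
    have h2 := Subgroup.characteristic_iff_le_comap.1 hA φ hx
    exact h2
  refine ⟨φ x, h1, ?_⟩
  rw [← he]
  change ((e (e.symm (MulAut.conjNormal w (e x))) : p.ker) : W') = _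
  rw [e.apply_symm_apply, MulAut.conjNormal_apply, he]

/- Solutions in two steps. -/
theorem step_rsk (k₀ : Type) [Field k₀] {W W' H : Type} [Group W] [Group W'] [Finite W']
    [Group H] (p : W' →* W) (s : W →* W') (hs : ∀ w, p (s w) = w)
    (f : H →* W') (hf : Function.Injective f) (hr : f.range = p.ker) (A : Subgroup H)
    [A.Characteristic]
    (hq : ∀ (B : Subgroup W') [B.Normal], B = A.map f → RSK k₀ (QuotientGroup.mk' B))
    (ih : ∀ (W'' : Type) [Group W''] [Finite W''] (p' : W'' →* W) (s' : W →* W''),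
      (∀ w, p' (s' w) = w) → ∀ (f' : (H ⧸ A) →* W''), Function.Injective f' →
        f'.range = p'.ker → RSK k₀ p') : RSK k₀ p := by
  have hfp : ∀ x, p (f x) = 1 := fun x => by
    have h1 : f x ∈ p.ker := by rw [← hr]; exact ⟨x, rfl⟩
    exact h1
  let B : Subgroup W' := A.map f
  have hBn : B.Normal := map_char_normal p f hf hr A
  let p' : (W' ⧸ B) →* W := QuotientGroup.lift B p (by
    rintro _ ⟨x, -, rfl⟩
    exact hfp x)
  let f' : (H ⧸ A) →* (W' ⧸ B) := QuotientGroup.map A B f (fun x hx => ⟨x, hx, rfl⟩)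
  have hf'mk : ∀ x : H, f' (QuotientGroup.mk x) = QuotientGroup.mk (f x) := fun x => rfl
  refine RSK.comp (p := p') (p' := QuotientGroup.mk' B) (ih (W' ⧸ B) p'
    ((QuotientGroup.mk' B).comp s) (fun w => hs w) f' ?_ ?_) (hq B rfl)
  · rw [injective_iff_map_eq_one]
    intro x hx
    obtain ⟨x, rfl⟩ := QuotientGroup.mk_surjective x
    rw [hf'mk, QuotientGroup.eq_one_iff] at hx
    obtain ⟨y, hy, hyx⟩ := hx
    rw [QuotientGroup.eq_one_iff, ← hf hyx]
    exact hy
  · ext y
    constructor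
    · rintro ⟨x, rfl⟩
      obtain ⟨x, rfl⟩ := QuotientGroup.mk_surjective x
      exact hfp x
    · intro hy
      obtain ⟨y, rfl⟩ := QuotientGroup.mk_surjective y
      have h1 : y ∈ p.ker := hy
      rw [← hr] at h1
      obtain ⟨x, rfl⟩ := h1
      exact ⟨QuotientGroup.mk x, rfl⟩

/- Kernels with allowed composition factors, characteristic 0. -/
theorem alt_rsk (k₀ : Type) [Field k₀] [CharZero k₀] (n : ℕ) : ∀ (W W' : Type) [Group W]
    [Group W'] [Finite W'] (p : W' →* W), Function.Surjective p →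
    CompIn AltFactor p.ker → Nat.card p.ker = n → RSK k₀ p := by
  induction n using Nat.strong_induction_on with
  | _ n ih =>
  intro W W' _ _ _ p hp hc hcard
  by_cases hbot : p.ker = ⊥
  · have hW : Finite W := Finite.of_surjective p hp
    have hbij : Function.Bijective p := ⟨(MonoidHom.ker_eq_bot_iff p).1 hbot, hp⟩
    exact (RS.of_equiv (MulEquiv.ofBijective p hbij)).rsk
  obtain ⟨A, hA1, hA2, hA3, ⟨T, iT, m, hT, ⟨e⟩⟩, hA5⟩ :=
    Pool.Agent.Y419.DC.cf_holds AltFactor (fun T T' _ _ h h' => by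
      obtain ⟨d, h5, h6, ⟨g⟩⟩ := h'
      obtain ⟨h⟩ := h
      exact ⟨d, h5, h6, ⟨h.symm.trans g⟩⟩)
      (fun T _ h => by
        obtain ⟨d, h5, h6, ⟨g⟩⟩ := h
        have := Pool.Agent.T2H67.SA.alt_simple h5
        exact g.isSimpleGroup) W' p.ker hbot hc
  let p' : (W' ⧸ A) →* W := QuotientGroup.lift A p fun x hx => hA2 hx
  have hp' : Function.Surjective p' := fun w => by
    obtain ⟨x, rfl⟩ := hp w
    exact ⟨QuotientGroup.mk x, rfl⟩
  have hmap : p'.ker = p.ker.map (QuotientGroup.mk' A) := by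
    ext y
    obtain ⟨x, rfl⟩ := QuotientGroup.mk_surjective y
    rw [MonoidHom.mem_ker, Subgroup.mem_map]
    constructor
    · intro h
      exact ⟨x, h, rfl⟩
    · rintro ⟨z, hz, hzx⟩
      change QuotientGroup.lift A p _ (QuotientGroup.mk x) = 1
      rw [← hzx]
      exact hz
  have hq : Function.Surjective ((QuotientGroup.mk' A).subgroupMap p.ker) :=
    MonoidHom.subgroupMap_surjective _ _
  rw [← hmap] at hA5
  have h1 : RSK k₀ p' := by
    refine ih (Nat.card p'.ker) ?_ W (W' ⧸ A) p' hp' hA5 rfl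
    rw [← hcard, hmap]
    refine lt_of_le_of_ne (Nat.card_le_card_of_surjective _ hq) fun h => ?_
    have hinj : Function.Injective ((QuotientGroup.mk' A).subgroupMap p.ker) :=
      (Function.Surjective.bijective_of_nat_card_le hq (le_of_eq h.symm)).1
    obtain ⟨a, ha, ha1⟩ := A.bot_or_exists_ne_one.resolve_left hA3
    apply ha1
    have h5 : (⟨a, hA2 ha⟩ : p.ker) = 1 := by
      apply hinj
      apply Subtype.ext
      exact (QuotientGroup.eq_one_iff a).2 ha
    exact congrArg Subtype.val h5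
  refine RSK.comp (p := p') (p' := QuotientGroup.mk' A) h1 ?_
  intro K M _ _ _ _ _ _ _ ε
  have hK0 : CharZero K := charZero_of_injective_algebraMap (algebraMap k₀ K).injective
  have hKp : CharP K 0 := CharP.ofCharZero K
  obtain ⟨d, h5, h6, ⟨g⟩⟩ := hT
  have hs : IsSimpleGroup T := by
    have := Pool.Agent.T2H67.SA.alt_simple h5
    exact g.isSimpleGroup
  have hfT : Finite T := Finite.of_equiv _ g.symm.toEquiv
  have hZ : Subgroup.center T = ⊥ := Pool.Agent.Y60.DC.center_iso g.symm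
    (alternatingGroup.center_eq_bot (by rw [Nat.card_eq_fintype_card, Fintype.card_fin]; omega))
  have hg : GoodKerP 0 (∀ _ : Fin m, T) := Pool.Agent.Y563.DC.prodP_holds 0 (Fin m)
    (fun _ => T) (fun _ => Pool.Agent.Y60.DC.indec_of_simple _ hZ) (fun _ => hs.toNontrivial)
    (fun _ => good_alt T ⟨d, h5, h6, ⟨g⟩⟩)
  refine hg K M W' _ (ε.symm.surjective.comp (QuotientGroup.mk'_surjective A)) ⟨?_⟩
  refine (MulEquiv.subgroupCongr ?_).trans e
  ext x
  rw [MonoidHom.mem_ker]
  change ε.symm (QuotientGroup.mk' A x) = 1 ↔ _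
  rw [map_eq_one_iff _ ε.symm.injective]
  exact QuotientGroup.eq_one_iff x

/- The composition factors are either all of the first or all of the second kind. -/
theorem comp_cases {k₀ : Type} [Field k₀] {N : Type} [Group N] (h : CompIn (Factor k₀) N) :
    (CharZero k₀ ∧ CompIn AltFactor N) ∨
    ∃ (p : ℕ) (_ : Fact p.Prime), CharP k₀ p ∧ CompIn (Pool.Agent.Y60.DCF.Factor p) N := by
  obtain ⟨q, hq⟩ := CharP.exists k₀
  rcases CharP.char_is_prime_or_zero k₀ q with hq1 | rfl
  · right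
    have hf : Fact q.Prime := ⟨hq1⟩
    refine ⟨q, hf, hq, ?_⟩
    refine Pool.Agent.Y60.DCF.compIn_mono (fun T _ hT => ?_) h
    rcases hT with ⟨h0, -⟩ | ⟨p, hp, hpk, hT⟩
    · exfalso
      have h1 : q = 0 := CharP.eq k₀ hq (CharP.ofCharZero k₀)
      exact hq1.ne_zero h1
    · have h1 : p = q := CharP.eq k₀ hpk hq
      subst h1
      exact hT
  · left
    have h0 : CharZero k₀ := CharP.charP_to_charZero k₀
    refine ⟨h0, ?_⟩
    refine Pool.Agent.Y60.DCF.compIn_mono (fun T _ hT => ?_) h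
    rcases hT with ⟨-, hT⟩ | ⟨p, hp, hpk, hT⟩
    · exact hT
    · exfalso
      have h1 : p = 0 := CharP.eq k₀ hpk hq
      exact hp.out.ne_zero h1

/- Kernels with allowed composition factors. -/
theorem factor_rsk (k₀ : Type) [Field k₀] {W W' N : Type} [Group W] [Group W'] [Finite W']
    [Group N] (p : W' →* W) (hp : Function.Surjective p) (h : CompIn (Factor k₀) N)
    (e : N ≃* p.ker) : RSK k₀ p := by
  rcases comp_cases h with ⟨h0, hc⟩ | ⟨q, hq, hqk, hc⟩
  · refine alt_rsk k₀ _ W W' p hp ?_ rfl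
    refine Pool.Agent.Y419.DC.quot (fun T T' _ _ h h' => ?_) (fun T _ h => ?_) hc p.ker
      (e : N →* p.ker) e.surjective
    · obtain ⟨d, h5, h6, ⟨g⟩⟩ := h'
      obtain ⟨h⟩ := h
      exact ⟨d, h5, h6, ⟨h.symm.trans g⟩⟩
    · obtain ⟨d, h5, h6, ⟨g⟩⟩ := h
      have := Pool.Agent.T2H67.SA.alt_simple h5
      exact g.isSimpleGroup
  · have hW : Finite W := Finite.of_surjective p hp
    have h1 : CompIn (Pool.Agent.Y60.DC.FacC q) N :=
      Pool.Agent.Y60.DCF.compIn_mono (fun T _ hT => Pool.Agent.Y60.DCF.Factor.old T hT) hc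
    have h2 : CompIn (Pool.Agent.Y60.DC.FacC q) p.ker :=
      Pool.Agent.Y419.DC.quot (fun T T' _ _ e h => Pool.Agent.Y60.DC.FacC.iso q T T' e h)
        (fun T _ h => Pool.Agent.Y60.DC.FacC.simple q T h) h1 p.ker (e : N →* p.ker) e.surjective
    exact ((Pool.Agent.Y60.DC.ClsC.fac p hp inferInstance h2 :
      Pool.Agent.Y60.DC.ClsC q k₀ p).main q hW).2

/- **Regular solutions for the kernels in the class.** -/
theorem Peelable.rsk {k₀ : Type} [Field k₀] {H : Type} [Group H] (h : Peelable k₀ H) :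
    ∀ (W W' : Type) [Group W] [Finite W] [Group W'] [Finite W'] (p : W' →* W) (s : W →* W')
      (_ : ∀ w, p (s w) = w) (f : H →* W') (_ : Function.Injective f) (_ : f.range = p.ker),
      RSK k₀ p := by
  induction h with
  | comm H h =>
    intro W W' _ _ _ _ p s hs f hf hr
    refine (ab_rs p s hs fun x y hx hy => ?_).rsk
    have hx' : x ∈ f.range := by rw [hr]; exact hx
    have hy' : y ∈ f.range := by rw [hr]; exact hy
    obtain ⟨a, rfl⟩ := hx'
    obtain ⟨b, rfl⟩ := hy'
    rw [← map_mul, h a b, map_mul]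
  | coprime H T M hTM hab hco h ih =>
    intro W W' _ _ _ _ p s hs f hf hr
    refine step_rsk k₀ p s hs f hf hr ⁅T, M⁆ (fun B _ hB => ?_)
      (fun W'' _ _ p' s' hs' f' hf' hr' => ih W W'' p' s' hs' f' hf' hr')
    have hTn : (T.map f).Normal := map_char_normal p f hf hr T
    have hMn : (M.map f).Normal := map_char_normal p f hf hr M
    have hB' : B = ⁅T.map f, M.map f⁆ := by rw [hB, Subgroup.map_commutator]
    have hab' : ∀ x ∈ T.map f, ∀ y ∈ T.map f, x * y = y * x := by
      rintro _ ⟨x, hx, rfl⟩ _ ⟨y, hy, rfl⟩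
      rw [← map_mul, hab x hx y hy, map_mul]
    have hco' : (Nat.card (T.map f)).Coprime ((T.map f).relIndex (M.map f)) := by
      rw [Subgroup.relIndex_map_map_of_injective T M hf,
        Nat.card_congr (T.equivMapOfInjective f hf).symm.toEquiv]
      exact hco
    have hTM' : T.map f ≤ M.map f := Subgroup.map_mono hTM
    have hker : ∀ x, QuotientGroup.mk' B x = 1 ↔ x ∈ B := fun x => QuotientGroup.eq_one_iff x
    obtain ⟨N, hN1, hN2⟩ := compl_commutator (T.map f) (M.map f) hTM' hab' hco'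
    rw [← hB'] at hN1 hN2
    have hbij : Function.Bijective ((QuotientGroup.mk' B).comp N.subtype) := by
      constructor
      · rw [injective_iff_map_eq_one]
        intro x hx
        have h1 : x.1 ∈ B ⊓ N := ⟨(hker _).1 hx, x.2⟩
        rw [hN1, Subgroup.mem_bot] at h1
        exact Subtype.ext h1
      · intro y
        obtain ⟨e, rfl⟩ := QuotientGroup.mk_surjective y
        obtain ⟨a, ha, m, hm, rfl⟩ := hN2 e
        refine ⟨⟨m, hm⟩, ?_⟩
        change QuotientGroup.mk' B m = QuotientGroup.mk' B (a * m)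
        rw [map_mul, (hker a).2 ha, one_mul]
    let e : N ≃* (W' ⧸ B) := MulEquiv.ofBijective ((QuotientGroup.mk' B).comp N.subtype) hbij
    have hBT : B ≤ T.map f := by
      rw [hB']
      exact Subgroup.commutator_le_left _ _
    refine (ab_rs (QuotientGroup.mk' B) (N.subtype.comp e.symm.toMonoidHom) (fun w => ?_)
      fun x y hx hy => hab' x (hBT ((hker x).1 hx)) y (hBT ((hker y).1 hy))).rsk
    exact e.apply_symm_apply w
  | factor H A hA h ih =>
    intro W W' _ _ _ _ p s hs f hf hr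
    refine step_rsk k₀ p s hs f hf hr A (fun B _ hB => ?_)
      (fun W'' _ _ p' s' hs' f' hf' hr' => ih W W'' p' s' hs' f' hf' hr')
    exact factor_rsk k₀ _ (QuotientGroup.mk'_surjective B) hA
      ((A.equivMapOfInjective f hf).trans (MulEquiv.subgroupCongr (by
        rw [QuotientGroup.ker_mk', hB])))

end Pool.Agent.T2H67.AG
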