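import Mathlib
import Pool.Agent.H84.L.S8_TH444_ML_Defs
import Pool.Agent.H84.L.S8_TH444_ML_Defs2

namespace Pool.Agent.TH444.ML
end Pool.Agent.TH444.ML


/-!
# Few Galois extensions with group `H`
-/

set_option autoImplicit false

open NumberField Filter Topology Pool.Agent.TH444.ML

namespace Pool.Agent.TH228.J3101

section
variable {K Ω : Type} [Field K] [NumberField K] [Field Ω] [Algebra K Ω]

lemma nf (M : IntermediateField K Ω) [FiniteDimensional K M] : NumberField M :=
  NumberField.of_module_finite K M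

omit [NumberField K] in
lemma dsc_eq (M : IntermediateField K Ω) [h : NumberField M] :
    dsc M = ((discr M).natAbs : ℝ) := by
  unfold dsc
  rw [dif_pos h, ← Int.natCast_natAbs, Int.cast_natCast]

omit [NumberField K] in
lemma one_le (M : IntermediateField K Ω) [h : NumberField M] : 1 ≤ (discr M).natAbs :=
  Int.natAbs_pos.2 (discr_ne_zero M)

lemma main (M : IntermediateField K Ω) [FiniteDimensional K M] [IsGalois K M] {H : Type}
    [Group H] [Finite H] (e : (M ≃ₐ[K] M) ≃* H) (U : Subgroup H) (hU : U.normalCore = ⊥) :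
    ∃ F : IntermediateField K Ω, FiniteDimensional K F ∧ Module.finrank K F = U.index ∧
      F ≤ M ∧ dsc F ^ Nat.card U ≤ dsc M ∧
      ∀ N : IntermediateField K Ω, Normal K N → F ≤ N → N ≤ M → N = M := by
  set V : Subgroup (M ≃ₐ[K] M) := U.comap e.toMonoidHom with hV
  have hcV : Nat.card V = Nat.card U :=
    Nat.card_congr (e.subgroupMap V |>.trans (MulEquiv.subgroupCongr (by
      rw [hV]
      ext x
      simp only [Subgroup.mem_map, Subgroup.mem_comap]
      constructor
      · rintro ⟨y, hy, rfl⟩; exact hy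
      · intro hx; exact ⟨e.symm x, by simpa using hx, by simp⟩))).toEquiv
  set F0 : IntermediateField K M := IntermediateField.fixedField V with hF0
  have h1 : Module.finrank F0 M = Nat.card U := by
    rw [hF0, IntermediateField.finrank_fixedField_eq_card, hcV]
  have h2 : Module.finrank K F0 = U.index := by
    have h3 := Module.finrank_mul_finrank K F0 M
    rw [h1, ← IsGalois.card_aut_eq_finrank K M, Nat.card_congr e.toEquiv,
      ← Subgroup.index_mul_card U] at h3
    exact Nat.eq_of_mul_eq_mul_right Nat.card_pos h3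
  have hnM : NumberField M := nf M
  have hnF0 : NumberField F0 := NumberField.of_module_finite K F0
  have hfd : FiniteDimensional K (IntermediateField.lift F0) :=
    (IntermediateField.liftAlgEquiv F0).toLinearEquiv.finiteDimensional
  have hnF : NumberField (IntermediateField.lift F0) := nf _
  refine ⟨IntermediateField.lift F0, hfd, ?_, IntermediateField.lift_le _, ?_, ?_⟩
  · rw [← (IntermediateField.liftAlgEquiv F0).toLinearEquiv.finrank_eq, h2]
  · rw [dsc_eq, dsc_eq]
    have e1 : discr (IntermediateField.lift F0) = discr F0 :=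
      (discr_eq_discr_of_ringEquiv F0 (IntermediateField.liftAlgEquiv F0).toRingEquiv).symm
    rw [e1]
    have h3 := natAbs_discr_eq_absNorm_differentIdeal_mul_natAbs_discr_pow F0 (𝓞 F0) M (𝓞 M)
    rw [h1] at h3
    have h4 : (discr M).natAbs ≠ 0 := Nat.one_le_iff_ne_zero.1 (one_le M)
    have h5 : (discr F0).natAbs ^ Nat.card U ∣ (discr M).natAbs := ⟨_, by rw [h3, mul_comm]⟩
    exact_mod_cast Nat.le_of_dvd (Nat.pos_of_ne_zero h4) h5
  · intro N hN hFN hNM
    set N' : IntermediateField K M := IntermediateField.restrict hNM with hN'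
    have hnor : Normal K N' := Normal.of_algEquiv (IntermediateField.restrictAlgEquiv hNM)
    have hgal : IsGalois K N' := ⟨⟩
    have hle : F0 ≤ N' := by
      intro x hx
      rw [hN', IntermediateField.mem_restrict]
      exact hFN ((IntermediateField.mem_lift x).2 hx)
    have h6 : N'.fixingSubgroup ≤ V := by
      have := IntermediateField.fixingSubgroup_le hle
      rwa [hF0, IntermediateField.fixingSubgroup_fixedField] at this
    have h7 : N'.fixingSubgroup.map e.toMonoidHom ≤ U.normalCore := by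
      have hn : (N'.fixingSubgroup.map e.toMonoidHom).Normal :=
        Subgroup.Normal.map inferInstance _ e.surjective
      rw [Subgroup.normal_le_normalCore, Subgroup.map_le_iff_le_comap]
      exact h6
    rw [hU, le_bot_iff, Subgroup.map_eq_bot_iff_of_injective _ e.injective] at h7
    have h8 : N' = ⊤ := by
      rw [← IsGalois.fixedField_fixingSubgroup N', h7, IntermediateField.fixedField_bot]
    apply le_antisymm hNM
    intro x hx
    have h9 : (⟨x, hx⟩ : M) ∈ N' := by rw [h8]; trivial
    exact (IntermediateField.mem_restrict hNM ⟨x, hx⟩).1 h9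

end

theorem fewGalRel (h : HermiteRel) : FewGalRel := by
  intro K Ω _ _ _ _ _ H _ _ U hU hcard
  obtain ⟨C, hC⟩ := h K Ω U.index
  have key : ∀ M : Gal K Ω H, ∃ F : IntermediateField K Ω, FiniteDimensional K F ∧
      Module.finrank K F = U.index ∧ F ≤ M.1 ∧ dsc F ^ Nat.card U ≤ dsc M.1 ∧
      ∀ N : IntermediateField K Ω, Normal K N → F ≤ N → N ≤ M.1 → N = M.1 := by
    rintro ⟨M, hfd, hg, ⟨e⟩⟩
    exact main M e U hU
  choose F hfd hfr hFM hdsc hN using key
  have inj : Function.Injective F := by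
    intro M1 M2 h12
    have g1 : IsGalois K M1.1 := M1.2.2.1
    have g2 : IsGalois K M2.1 := M2.2.2.1
    have hn : Normal K (M1.1 ⊓ M2.1 : IntermediateField K Ω) := inferInstance
    have e1 := hN M1 (M1.1 ⊓ M2.1) hn (le_inf (hFM M1) (by rw [h12]; exact hFM M2)) inf_le_left
    have e2 := hN M2 (M1.1 ⊓ M2.1) hn (le_inf (by rw [← h12]; exact hFM M1) (hFM M2))
      inf_le_right
    exact Subtype.ext (e1.symm.trans e2)
  have hnF : ∀ M, NumberField (F M) := fun M => by have := hfd M; exact nf _
  have hnM : ∀ M : Gal K Ω H, NumberField M.1 := fun M => by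
    have : FiniteDimensional K M.1 := M.2.1
    exact nf _
  set g : Gal K Ω H → ℕ := fun M => (discr (F M)).natAbs with hg
  have hg1 : ∀ M, 1 ≤ g M := fun M => one_le (F M)
  have hu : 1 ≤ U.index := Nat.one_le_iff_ne_zero.2 Subgroup.index_ne_zero_of_finite
  have hcU : 8 * (U.index + 1) ≤ Nat.card U := by
    have h1 := Subgroup.index_mul_card U
    rw [← h1] at hcard
    have : U.index * (8 * (U.index + 1)) ≤ U.index * Nat.card U := by
      calc U.index * (8 * (U.index + 1)) = 8 * U.index * (U.index + 1) := by ring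
        _ ≤ _ := hcard
    exact Nat.le_of_mul_le_mul_left this hu
  have hbound : ∀ M : Gal K Ω H, (dsc M.1) ^ (-(1 / 4) : ℝ) ≤
      (1 : ℝ) / (g M : ℝ) ^ (2 * U.index + 2) := by
    intro M
    have h1 : (1 : ℝ) ≤ g M := by exact_mod_cast hg1 M
    have h2 : (g M : ℝ) ^ (8 * (U.index + 1)) ≤ dsc M.1 := by
      refine le_trans ?_ (hdsc M)
      rw [dsc_eq (F M)]
      exact pow_le_pow_right₀ h1 hcU
    have h3 : ((g M : ℝ) ^ (8 * (U.index + 1))) ^ (-(1 / 4) : ℝ) =
        (1 : ℝ) / (g M : ℝ) ^ (2 * U.index + 2) := by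
      have h4 : (1 : ℝ) / (g M : ℝ) ^ (2 * U.index + 2) =
          (g M : ℝ) ^ (-((2 * U.index + 2 : ℕ) : ℝ)) := by
        rw [Real.rpow_neg (by positivity), Real.rpow_natCast, one_div]
      rw [h4, ← Real.rpow_natCast, ← Real.rpow_mul (by positivity)]
      congr 1
      push_cast
      ring
    rw [← h3]
    exact Real.rpow_le_rpow_of_nonpos (by positivity) h2 (by norm_num)
  have hC0 : ∀ m : ℕ, 1 ≤ m → ∀ s : Finset (Gal K Ω H), (∀ M ∈ s, g M = m) →
      (s.card : ℝ) ≤ C * (m : ℝ) ^ (2 * U.index) := by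
    intro m hm s hs
    obtain ⟨hfin, hle⟩ := hC m (by exact_mod_cast hm)
    refine le_trans ?_ hle
    have h1 : (s.map ⟨F, inj⟩).card ≤ Set.ncard {F : IntermediateField K Ω |
        FiniteDimensional K F ∧ Module.finrank K F = U.index ∧ dsc F ≤ (m : ℝ)} := by
      rw [← Set.ncard_coe_finset]
      refine Set.ncard_le_ncard ?_ hfin
      intro x hx
      rw [Finset.mem_coe, Finset.mem_map] at hx
      obtain ⟨M, hM, rfl⟩ := hx
      refine ⟨hfd M, hfr M, ?_⟩
      change dsc (F M) ≤ m
      rw [dsc_eq (F M), ← hs M hM]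
    rw [Finset.card_map] at h1
    exact_mod_cast h1
  have hC' : 0 ≤ |C| := abs_nonneg C
  have hsum2 : Summable (fun m : ℕ => (1 : ℝ) / (m : ℝ) ^ 2) :=
    Real.summable_one_div_nat_pow.2 (by norm_num)
  refine Summable.of_nonneg_of_le (fun M => ?_) hbound ?_
  · exact Real.rpow_nonneg (by rw [dsc_eq]; positivity) _
  refine summable_of_sum_le (c := |C| * ∑' m : ℕ, (1 : ℝ) / (m : ℝ) ^ 2) (fun M => by positivity) ?_
  intro s
  classical
  calc ∑ M ∈ s, (1 : ℝ) / (g M : ℝ) ^ (2 * U.index + 2)
      = ∑ m ∈ s.image g, ∑ M ∈ s with g M = m, (1 : ℝ) / (g M : ℝ) ^ (2 * U.index + 2) :=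
        (Finset.sum_fiberwise_of_maps_to (fun M hM => Finset.mem_image_of_mem g hM) _).symm
    _ ≤ ∑ m ∈ s.image g, |C| * ((1 : ℝ) / (m : ℝ) ^ 2) := by
        refine Finset.sum_le_sum fun m hm => ?_
        obtain ⟨M0, hM0, hM0'⟩ := Finset.mem_image.1 hm
        have hm1 : 1 ≤ m := hM0' ▸ hg1 M0
        have hmpos : (0 : ℝ) < m := by exact_mod_cast hm1
        have e1 : ∑ M ∈ s with g M = m, (1 : ℝ) / (g M : ℝ) ^ (2 * U.index + 2) =
            ((s.filter (fun M => g M = m)).card : ℝ) * (1 / (m : ℝ) ^ (2 * U.index + 2)) := by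
          rw [Finset.sum_congr rfl (g := fun _ => (1 : ℝ) / (m : ℝ) ^ (2 * U.index + 2)),
            Finset.sum_const, nsmul_eq_mul]
          intro M hM
          rw [(Finset.mem_filter.1 hM).2]
        rw [e1]
        calc ((s.filter (fun M => g M = m)).card : ℝ) * (1 / (m : ℝ) ^ (2 * U.index + 2))
            ≤ (|C| * (m : ℝ) ^ (2 * U.index)) * (1 / (m : ℝ) ^ (2 * U.index + 2)) := by
              refine mul_le_mul_of_nonneg_right ?_ (by positivity)
              refine (hC0 m hm1 _ fun M hM => (Finset.mem_filter.1 hM).2).trans ?_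
              exact mul_le_mul_of_nonneg_right (le_abs_self C) (by positivity)
          _ = |C| * ((1 : ℝ) / (m : ℝ) ^ 2) := by
              rw [pow_add]
              field_simp
    _ = |C| * ∑ m ∈ s.image g, (1 : ℝ) / (m : ℝ) ^ 2 := by rw [Finset.mul_sum]
    _ ≤ |C| * ∑' m : ℕ, (1 : ℝ) / (m : ℝ) ^ 2 := by
        refine mul_le_mul_of_nonneg_left ?_ hC'
        exact hsum2.sum_le_tsum _ (fun m _ => by positivity)

end Pool.Agent.TH228.J3101
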