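import Mathlib

namespace Pool.Agent.TH444.ML
end Pool.Agent.TH444.ML


/-!
# Job 3099 (helper444, MP_af4c59_nt): `WrIff` and `MidUnique`

Galois groups equal to `C₂ ≀ H`.
-/

set_option autoImplicit false

open Pool.Agent.TH444.ML IntermediateField

namespace Pool.Agent.TH365.J3099

/-! ### the wreath product -/


/-! ### the action of the absolute Galois group on embeddings -/

section act

variable {K Ω : Type} [Field K] [Field Ω] [Algebra K Ω]

/- action on the embeddings -/
def act (L : IntermediateField K Ω) : (Ω ≃ₐ[K] Ω) →* Equiv.Perm (L →ₐ[K] Ω) where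
  toFun σ :=
    { toFun := fun φ => σ.toAlgHom.comp φ
      invFun := fun φ => σ.symm.toAlgHom.comp φ
      left_inv := fun φ => by ext x; simp
      right_inv := fun φ => by ext x; simp }
  map_one' := by ext φ x; simp
  map_mul' σ τ := by ext φ x; simp

theorem act_apply (L : IntermediateField K Ω) (σ : Ω ≃ₐ[K] Ω) (φ : L →ₐ[K] Ω) :
    act L σ φ = σ.toAlgHom.comp φ := rfl

theorem act_apply_apply (L : IntermediateField K Ω) (σ : Ω ≃ₐ[K] Ω) (φ : L →ₐ[K] Ω) (x : L) :
    act L σ φ x = σ (φ x) := rfl

theorem ker_act (L : IntermediateField K Ω) :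
    (act L).ker = (normalClosure K L Ω).fixingSubgroup := by
  ext σ
  rw [MonoidHom.mem_ker]
  constructor
  · intro h
    have h1 : normalClosure K L Ω ≤ fixedField (Subgroup.zpowers σ) := by
      rw [normalClosure_le_iff]
      intro φ
      rintro _ ⟨x, rfl⟩
      rw [mem_fixedField_iff]
      intro τ hτ
      have h2 : Subgroup.zpowers σ ≤ (act L).ker := by
        rw [Subgroup.zpowers_le]
        exact h
      have h3 := h2 hτ
      rw [MonoidHom.mem_ker] at h3
      have := congrArg (fun π => π φ x) h3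
      simpa [act_apply_apply] using this
    have h2 := (le_iff_le _ _).1 h1
    exact h2 (Subgroup.mem_zpowers σ)
  · intro h
    ext φ x
    rw [act_apply_apply]
    rw [IntermediateField.mem_fixingSubgroup_iff] at h
    exact h _ (AlgHom.fieldRange_le_normalClosure φ ⟨x, rfl⟩)

/- the number of automorphisms of a finite Galois extension, as a quotient of `Gal(Ω/K)` -/
theorem card_quot [Normal K Ω] (N : IntermediateField K Ω) [FiniteDimensional K N]
    [IsGalois K N] : Nat.card ((Ω ≃ₐ[K] Ω) ⧸ N.fixingSubgroup) = Module.finrank K N := by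
  have h1 : (AlgEquiv.restrictNormalHom (F := K) (K₁ := Ω) N).ker = N.fixingSubgroup :=
    restrictNormalHom_ker N
  have h2 : Function.Surjective (AlgEquiv.restrictNormalHom (F := K) (K₁ := Ω) N) :=
    AlgEquiv.restrictNormalHom_surjective Ω
  rw [← IsGalois.card_aut_eq_finrank K N, ← h1]
  exact Nat.card_congr (QuotientGroup.quotientKerEquivOfSurjective _ h2).toEquiv

/- the permutations of `X` coming from the Galois group -/
def imP {X : Type} (L : IntermediateField K Ω) (e : (L →ₐ[K] Ω) ≃ X) : Set (Equiv.Perm X) :=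
  {π | ∃ σ : Ω ≃ₐ[K] Ω, ∀ φ : L →ₐ[K] Ω, e (σ.toAlgHom.comp φ) = π (e φ)}

theorem imP_eq {X : Type} (L : IntermediateField K Ω) (e : (L →ₐ[K] Ω) ≃ X) :
    imP L e = e.permCongr '' ((act L).range : Set (Equiv.Perm (L →ₐ[K] Ω))) := by
  ext π
  constructor
  · rintro ⟨σ, hσ⟩
    refine ⟨act L σ, ⟨σ, rfl⟩, ?_⟩
    ext1 x
    rw [Equiv.permCongr_apply, act_apply, hσ, Equiv.apply_symm_apply]
  · rintro ⟨_, ⟨σ, rfl⟩, rfl⟩
    refine ⟨σ, fun φ => ?_⟩
    rw [Equiv.permCongr_apply, Equiv.symm_apply_apply, act_apply]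

theorem ncard_imP {X : Type} [Algebra.IsSeparable K Ω] [Normal K Ω] (L : IntermediateField K Ω)
    [FiniteDimensional K L] (e : (L →ₐ[K] Ω) ≃ X) :
    (imP L e).ncard = Module.finrank K (normalClosure K L Ω) := by
  have hG : IsGalois K (normalClosure K L Ω) := by
    constructor
  rw [imP_eq, Set.ncard_image_of_injective _ (Equiv.injective _), ← card_quot, ← ker_act]
  rw [← Nat.card_congr (QuotientGroup.quotientKerEquivRange (act L)).toEquiv.symm]
  rfl

end act

/-! ### the two directions -/


end Pool.Agent.TH365.J3099
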