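import Mathlib
import Pool.Agent.H84.L.S8_TH228_J3101
import Pool.Agent.H84.L.S8_TH365_J3099
import Pool.Agent.H84.L.S8_TH444_ML_Defs

namespace Pool.Agent.TH228.J3101
end Pool.Agent.TH228.J3101
namespace Pool.Agent.TH365.J3099
end Pool.Agent.TH365.J3099
namespace Pool.Agent.TH444.ML
end Pool.Agent.TH444.ML


/-!
# Few extensions with a given permutation group
-/

set_option autoImplicit false
set_option linter.unusedSectionVars false

open NumberField Filter Topology Pool.Agent.TH444.ML IntermediateField

namespace Pool.Agent.W5h46.ML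

open Pool.Agent.TH365.J3099 (act act_apply act_apply_apply ker_act)
open Pool.Agent.TH228.J3101 (nf dsc_eq one_le)

section

variable {K Ω : Type} [Field K] [NumberField K] [Field Ω] [Algebra K Ω]

theorem dsc_tower (F M : IntermediateField K Ω) (hFM : F ≤ M) [FiniteDimensional K M] [FiniteDimensional K F]
    (n : ℕ) (hn : Module.finrank K M = Module.finrank K F * n) : dsc F ^ n ≤ dsc M := by
  let _ : Algebra F M := (IntermediateField.inclusion hFM).toAlgebra
  have htow : IsScalarTower K F M := IsScalarTower.of_algebraMap_eq fun x => rfl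
  have hnM : NumberField M := nf M
  have hnF : NumberField F := nf F
  have h1 : Module.finrank F M = n := by
    have h2 := Module.finrank_mul_finrank K F M
    rw [hn] at h2
    exact Nat.eq_of_mul_eq_mul_left Module.finrank_pos h2
  rw [dsc_eq, dsc_eq]
  have h3 := natAbs_discr_eq_absNorm_differentIdeal_mul_natAbs_discr_pow F (𝓞 F) M (𝓞 M)
  rw [h1] at h3
  have h4 : (discr M).natAbs ≠ 0 := Nat.one_le_iff_ne_zero.1 (one_le M)
  have h5 : (discr F).natAbs ^ n ∣ (discr M).natAbs := ⟨_, by rw [h3, mul_comm]⟩
  exact_mod_cast Nat.le_of_dvd (Nat.pos_of_ne_zero h4) h5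


end


end Pool.Agent.W5h46.ML
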