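import Mathlib
import Pool.Agent.H84.L.S8_TH365_J3099

namespace Pool.Agent.TH365.J3099
end Pool.Agent.TH365.J3099


/-!
# Extensions with group `C₂ ≀ X`, where `X` acts on any finite set `Q`

Generalisation of the files of the starting library for the regular action of `X`.
-/

set_option autoImplicit false
set_option linter.unusedSectionVars false

open IntermediateField
open Pool.Agent.TH365.J3099 (act act_apply act_apply_apply ker_act imP ncard_imP)

namespace Pool.Agent.W5h46.ML


section main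

variable {K Ω : Type} [Field K] [CharZero K] [Field Ω] [Algebra K Ω] [IsAlgClosure K Ω]
variable {X Q : Type} [Group X] [Finite X] [MulAction X Q] [Finite Q] [FaithfulSMul X Q]

/- extension of embeddings -/
theorem exists_ext (M : IntermediateField K Ω) (φ : M →ₐ[K] Ω) :
    ∃ σ : Ω ≃ₐ[K] Ω, act M σ M.val = φ := by
  have i2 : Normal K Ω := IsAlgClosure.normal K Ω
  have i3 : Algebra.IsAlgebraic K Ω := IsAlgClosure.isAlgebraic
  set ψ : Ω →ₐ[K] Ω := φ.liftNormal Ω with hψ
  refine ⟨AlgEquiv.ofBijective ψ (Algebra.IsAlgebraic.algHom_bijective ψ), ?_⟩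
  ext x
  rw [act_apply_apply]
  exact φ.liftNormal_commutes Ω x

theorem act_val_eq (M : IntermediateField K Ω) (σ τ : Ω ≃ₐ[K] Ω) :
    act M σ M.val = act M τ M.val ↔ σ⁻¹ * τ ∈ M.fixingSubgroup := by
  rw [IntermediateField.mem_fixingSubgroup_iff]
  constructor
  · intro h x hx
    have h1 : σ x = τ x := DFunLike.congr_fun h ⟨x, hx⟩
    rw [AlgEquiv.mul_apply, ← h1]
    exact σ.symm_apply_apply x
  · intro h
    ext x
    have h1 := h x.1 x.2
    rw [AlgEquiv.mul_apply] at h1
    rw [act_apply_apply, act_apply_apply]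
    have h2 := congrArg σ h1
    have h3 : σ (σ⁻¹ (τ x.1)) = τ x.1 := σ.apply_symm_apply _
    rw [h3] at h2
    exact h2.symm

theorem card_emb (M : IntermediateField K Ω) [FiniteDimensional K M] :
    Nat.card (M →ₐ[K] Ω) = Module.finrank K M := by
  have i1 : IsAlgClosed Ω := IsAlgClosure.isAlgClosed K
  rw [← AlgHom.card K M Ω, Nat.card_eq_fintype_card]


/- the embeddings of `L` over `M` -/
def Over (L M : IntermediateField K Ω) (hML : M ≤ L) (ψ : M →ₐ[K] Ω) : Set (L →ₐ[K] Ω) :=
  {φ | φ.comp (IntermediateField.inclusion hML) = ψ}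

/- the embeddings of `L` as pairs -/
theorem exists_pair (L M : IntermediateField K Ω) (hML : M ≤ L) [FiniteDimensional K L] [FiniteDimensional K M]
    (hLM : Module.finrank K L = 2 * Module.finrank K M) :
    ∃ F : (L →ₐ[K] Ω) ≃ (M →ₐ[K] Ω) × Over L M hML M.val,
      (∀ φ, (F φ).1 = φ.comp (IntermediateField.inclusion hML)) ∧ Nat.card (Over L M hML M.val) = 2 := by
  have i1 : IsAlgClosed Ω := IsAlgClosure.isAlgClosed K
  let i : M →ₐ[K] L := IntermediateField.inclusion hML
  let r : (L →ₐ[K] Ω) → (M →ₐ[K] Ω) := fun φ => φ.comp i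
  have hr : ∀ (σ : Ω ≃ₐ[K] Ω) (φ : L →ₐ[K] Ω), r (act L σ φ) = act M σ (r φ) := fun σ φ => rfl
  choose s hsr using exists_ext (K := K) (Ω := Ω) M
  have hinv : ∀ (σ : Ω ≃ₐ[K] Ω) (φ : M →ₐ[K] Ω), act M σ⁻¹ (act M σ φ) = φ := by
    intro σ φ
    rw [← Equiv.Perm.mul_apply, ← map_mul, inv_mul_cancel, map_one, Equiv.Perm.one_apply]
  let F : (L →ₐ[K] Ω) ≃ (M →ₐ[K] Ω) × Over L M hML M.val :=
    { toFun := fun φ => (r φ, ⟨act L (s (r φ))⁻¹ φ, by
        change r (act L (s (r φ))⁻¹ φ) = M.val
        rw [hr]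
        conv_lhs => rw [← hsr (r φ)]
        rw [hsr (r φ)]
        conv_lhs => rw [← hsr (r φ), hsr (r φ)]
        have h1 := hinv (s (r φ)) M.val
        rw [hsr] at h1
        exact h1⟩)
      invFun := fun p => act L (s p.1) p.2.1
      left_inv := fun φ => by
        change act L (s (r φ)) (act L (s (r φ))⁻¹ φ) = φ
        rw [← Equiv.Perm.mul_apply, ← map_mul, mul_inv_cancel, map_one, Equiv.Perm.one_apply]
      right_inv := fun p => by
        obtain ⟨a, φ, hφ⟩ := p
        have hφ' : r φ = M.val := hφ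
        have h1 : r (act L (s a) φ) = a := by rw [hr, hφ', hsr]
        apply Prod.ext
        · exact h1
        · apply Subtype.ext
          change act L (s (r (act L (s a) φ)))⁻¹ (act L (s a) φ) = φ
          rw [h1, ← Equiv.Perm.mul_apply, ← map_mul, inv_mul_cancel, map_one,
            Equiv.Perm.one_apply] }
  refine ⟨F, fun φ => rfl, ?_⟩
  have hfin : Finite (L →ₐ[K] Ω) := inferInstance
  have hMpos : 0 < Module.finrank K M := Module.finrank_pos
  have h1 := Nat.card_congr F
  rw [Nat.card_prod, card_emb, card_emb, hLM, mul_comm] at h1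
  exact (Nat.eq_of_mul_eq_mul_left hMpos h1).symm


end main

end Pool.Agent.W5h46.ML
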