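import Mathlib



set_option autoImplicit false

open Complex Filter Topology

namespace Pool.Agent.H921R2.TatePole

/- The Euler product `∏_p ∏_j (1 - c(p,j) p^{-s})⁻¹` attached to a family of complex numbers
`c(p,j)`, `p` prime, `j ∈ J`. -/
noncomputable def eulerL {J : Type*} [Fintype J] (c : Nat.Primes → J → ℂ) (s : ℂ) : ℂ :=
  ∏' p : Nat.Primes, ∏ j : J, (1 - c p j * ((p : ℕ) : ℂ) ^ (-s))⁻¹

lemma log_norm_one_sub {z : ℂ} (hz : ‖z‖ ≤ 1 / 2) :
    |-Real.log ‖1 - z‖ - z.re| ≤ ‖z‖ ^ 2 := by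
  have h1 : ‖-z‖ < 1 := by rw [norm_neg]; linarith
  have h2 := Complex.norm_log_one_add_sub_self_le h1
  rw [norm_neg] at h2
  have h3 : ‖z‖ ^ 2 * (1 - ‖z‖)⁻¹ / 2 ≤ ‖z‖ ^ 2 := by
    have h4 : (1 - ‖z‖)⁻¹ ≤ 2 := by
      rw [inv_le_comm₀ (by linarith) (by norm_num)]
      linarith
    nlinarith [sq_nonneg ‖z‖, norm_nonneg z]
  have h5 : (log (1 + -z) - -z).re = Real.log ‖1 - z‖ + z.re := by
    rw [Complex.sub_re, Complex.log_re, ← sub_eq_add_neg]
    simp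
  have h6 := Complex.abs_re_le_norm (log (1 + -z) - -z)
  rw [h5] at h6
  have h7 : |-Real.log ‖1 - z‖ - z.re| = |Real.log ‖1 - z‖ + z.re| := by
    rw [← abs_neg]; ring_nf
  rw [h7]
  linarith

lemma prime_cpow_norm (p : Nat.Primes) (s : ℂ) :
    ‖((p : ℕ) : ℂ) ^ (-s)‖ = ((p : ℕ) : ℝ) ^ (-s.re) := by
  rw [Complex.norm_natCast_cpow_of_pos p.prop.pos]
  simp

lemma prime_rpow_le_half (p : Nat.Primes) {x : ℝ} (hx : 1 ≤ x) :
    ((p : ℕ) : ℝ) ^ (-x) ≤ 1 / 2 := by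
  have h2 : (2 : ℝ) ≤ (p : ℕ) := by exact_mod_cast p.prop.two_le
  calc ((p : ℕ) : ℝ) ^ (-x) ≤ ((p : ℕ) : ℝ) ^ (-1 : ℝ) :=
        Real.rpow_le_rpow_of_exponent_le (by linarith) (by linarith)
    _ = (((p : ℕ) : ℝ))⁻¹ := by rw [Real.rpow_neg_one]
    _ ≤ 1 / 2 := by
        rw [one_div]
        exact inv_anti₀ (by norm_num) h2

lemma summable_primes_rpow {x : ℝ} (hx : 1 < x) :
    Summable (fun p : Nat.Primes => ((p : ℕ) : ℝ) ^ (-x)) :=
  Nat.Primes.summable_rpow.mpr (by linarith)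

/- `∑_p p^{-2}`. -/
noncomputable def C0 : ℝ := ∑' p : Nat.Primes, ((p : ℕ) : ℝ) ^ (-(2 : ℝ))


lemma tsum_rpow_two_mul_le {x : ℝ} (hx : 1 < x) :
    ∑' p : Nat.Primes, ((p : ℕ) : ℝ) ^ (-(2 * x)) ≤ C0 := by
  refine Summable.tsum_le_tsum (fun p => ?_) (summable_primes_rpow (by linarith))
    (summable_primes_rpow (by norm_num))
  have h2 : (2 : ℝ) ≤ (p : ℕ) := by exact_mod_cast p.prop.two_le
  exact Real.rpow_le_rpow_of_exponent_le (by linarith) (by linarith)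

/- `W(s) = ∑_p p^{-s}`. -/
noncomputable def W (x : ℝ) : ℝ := ∑' p : Nat.Primes, ((p : ℕ) : ℝ) ^ (-x)


section
variable {J : Type*} [Fintype J] {c : Nat.Primes → J → ℂ}

/- convergence of the Euler product and the size of its logarithm. -/
lemma eulerL_log (hc : ∀ p j, ‖c p j‖ ≤ 1) {s : ℂ} (hs : 1 < s.re) :
    eulerL c s ≠ 0 ∧
    |Real.log ‖eulerL c s‖ -
      (∑' p : Nat.Primes, (∑ j, c p j) * ((p : ℕ) : ℂ) ^ (-s)).re| ≤ Fintype.card J * C0 := by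
  classical
  have hz : ∀ p j, ‖c p j * ((p : ℕ) : ℂ) ^ (-s)‖ ≤ ((p : ℕ) : ℝ) ^ (-s.re) := by
    intro p j
    rw [norm_mul, prime_cpow_norm]
    exact mul_le_of_le_one_left (by positivity) (hc p j)
  have hz2 : ∀ p j, ‖c p j * ((p : ℕ) : ℂ) ^ (-s)‖ ≤ 1 / 2 := fun p j =>
    (hz p j).trans (prime_rpow_le_half p hs.le)
  have hne : ∀ p j, 1 - c p j * ((p : ℕ) : ℂ) ^ (-s) ≠ 0 := by
    intro p j h
    have h1 : c p j * ((p : ℕ) : ℂ) ^ (-s) = 1 := (sub_eq_zero.mp h).symm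
    have := hz2 p j
    rw [h1] at this
    norm_num at this
  have hsumj : ∀ j, Summable (fun p : Nat.Primes => c p j * ((p : ℕ) : ℂ) ^ (-s)) := fun j =>
    Summable.of_norm_bounded (summable_primes_rpow hs) (fun p => hz p j)
  have hlogj : ∀ j, Summable (fun p : Nat.Primes => -log (1 - c p j * ((p : ℕ) : ℂ) ^ (-s))) :=
    fun j => (hsumj j).clog_one_sub.neg
  have hlog : Summable (fun p : Nat.Primes =>
      ∑ j, -log (1 - c p j * ((p : ℕ) : ℂ) ^ (-s))) := summable_sum fun j _ => hlogj j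
  have hexp : eulerL c s = exp (∑' p : Nat.Primes,
      ∑ j, -log (1 - c p j * ((p : ℕ) : ℂ) ^ (-s))) := by
    have H := hlog.hasSum.cexp.tprod_eq
    rw [← H]
    unfold eulerL
    refine tprod_congr fun p => ?_
    simp only [Function.comp_apply]
    rw [Complex.exp_sum]
    refine Finset.prod_congr rfl fun j _ => ?_
    rw [Complex.exp_neg, Complex.exp_log (hne p j)]
  refine ⟨by rw [hexp]; exact Complex.exp_ne_zero _, ?_⟩
  have hS1 : Summable (fun p : Nat.Primes => (∑ j, c p j) * ((p : ℕ) : ℂ) ^ (-s)) := by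
    have : (fun p : Nat.Primes => (∑ j, c p j) * ((p : ℕ) : ℂ) ^ (-s)) =
        fun p : Nat.Primes => ∑ j, c p j * ((p : ℕ) : ℂ) ^ (-s) := by
      funext p; rw [Finset.sum_mul]
    rw [this]
    exact summable_sum fun j _ => hsumj j
  rw [hexp, Complex.norm_exp, Real.log_exp]
  rw [Complex.re_tsum hlog, Complex.re_tsum hS1]
  have hr1 : Summable (fun p : Nat.Primes =>
      (∑ j, -log (1 - c p j * ((p : ℕ) : ℂ) ^ (-s))).re) :=
    (Complex.hasSum_re hlog.hasSum).summable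
  have hr2 : Summable (fun p : Nat.Primes => ((∑ j, c p j) * ((p : ℕ) : ℂ) ^ (-s)).re) :=
    (Complex.hasSum_re hS1.hasSum).summable
  rw [← Summable.tsum_sub hr1 hr2]
  have hbd : ∀ p : Nat.Primes, |(∑ j, -log (1 - c p j * ((p : ℕ) : ℂ) ^ (-s))).re -
      ((∑ j, c p j) * ((p : ℕ) : ℂ) ^ (-s)).re| ≤ Fintype.card J * ((p : ℕ) : ℝ) ^ (-(2 * s.re)) := by
    intro p
    have e1 : (∑ j, -log (1 - c p j * ((p : ℕ) : ℂ) ^ (-s))).re -
      ((∑ j, c p j) * ((p : ℕ) : ℂ) ^ (-s)).re =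
      ∑ j, (-Real.log ‖1 - c p j * ((p : ℕ) : ℂ) ^ (-s)‖ -
        (c p j * ((p : ℕ) : ℂ) ^ (-s)).re) := by
      rw [Finset.sum_mul, Complex.re_sum, Complex.re_sum, ← Finset.sum_sub_distrib]
      refine Finset.sum_congr rfl fun j _ => ?_
      rw [Complex.neg_re, Complex.log_re]
    rw [e1]
    calc |∑ j, (-Real.log ‖1 - c p j * ((p : ℕ) : ℂ) ^ (-s)‖ -
        (c p j * ((p : ℕ) : ℂ) ^ (-s)).re)|
        ≤ ∑ j, |-Real.log ‖1 - c p j * ((p : ℕ) : ℂ) ^ (-s)‖ -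
        (c p j * ((p : ℕ) : ℂ) ^ (-s)).re| := Finset.abs_sum_le_sum_abs _ _
      _ ≤ ∑ j : J, ((p : ℕ) : ℝ) ^ (-(2 * s.re)) := by
          refine Finset.sum_le_sum fun j _ => ?_
          refine (log_norm_one_sub (hz2 p j)).trans ?_
          have h3 : ((p : ℕ) : ℝ) ^ (-(2 * s.re)) = (((p : ℕ) : ℝ) ^ (-s.re)) ^ 2 := by
            rw [← Real.rpow_natCast, ← Real.rpow_mul (by positivity)]
            norm_num
            ring_nf
          rw [h3]
          exact pow_le_pow_left₀ (norm_nonneg _) (hz p j) 2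
      _ = Fintype.card J * ((p : ℕ) : ℝ) ^ (-(2 * s.re)) := by simp
  calc |∑' p : Nat.Primes, ((∑ j, -log (1 - c p j * ((p : ℕ) : ℂ) ^ (-s))).re -
      ((∑ j, c p j) * ((p : ℕ) : ℂ) ^ (-s)).re)|
      ≤ ∑' p : Nat.Primes, (Fintype.card J : ℝ) * ((p : ℕ) : ℝ) ^ (-(2 * s.re)) := by
        have := tsum_of_norm_bounded (f := fun p : Nat.Primes =>
          ((∑ j, -log (1 - c p j * ((p : ℕ) : ℂ) ^ (-s))).re -
            ((∑ j, c p j) * ((p : ℕ) : ℂ) ^ (-s)).re))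
          ((summable_primes_rpow (x := 2 * s.re) (by linarith)).mul_left (Fintype.card J : ℝ)).hasSum
          (fun p => by rw [Real.norm_eq_abs]; exact hbd p)
        rw [Real.norm_eq_abs] at this
        exact this
    _ = Fintype.card J * ∑' p : Nat.Primes, ((p : ℕ) : ℝ) ^ (-(2 * s.re)) := tsum_mul_left
    _ ≤ Fintype.card J * C0 := mul_le_mul_of_nonneg_left (tsum_rpow_two_mul_le hs) (by positivity)

end

end Pool.Agent.H921R2.TatePole
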