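import Mathlib

namespace Pool.Agent.TH444.ML
end Pool.Agent.TH444.ML


set_option autoImplicit false

open NumberField

namespace Pool.Agent.TH9.J3098

open Pool.Agent.TH444.ML

open UniqueFactorizationMonoid

section

variable {R : Type} [CommRing R] [IsDedekindDomain R]

open Classical in
/- multiplicity -/
noncomputable def v (P I : Ideal R) : ℕ := Multiset.count P (normalizedFactors I)

lemma v_mul (P : Ideal R) {I J : Ideal R} (hI : I ≠ ⊥) (hJ : J ≠ ⊥) :
    v P (I * J) = v P I + v P J := by
  unfold v
  rw [normalizedFactors_mul hI hJ, Multiset.count_add]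

lemma v_prod {ι : Type} (P : Ideal R) (S : Finset ι) (I : ι → Ideal R) (hI : ∀ i, I i ≠ ⊥) :
    v P (∏ i ∈ S, I i) = ∑ i ∈ S, v P (I i) := by
  classical
  induction S using Finset.induction_on with
  | empty =>
    unfold v
    simp only [Finset.prod_empty, Finset.sum_empty, normalizedFactors_one, Multiset.count_zero]
  | insert a S ha ih =>
    rw [Finset.prod_insert ha, Finset.sum_insert ha, v_mul P (hI a) ?_, ih]
    rw [← Ideal.zero_eq_bot, Finset.prod_ne_zero_iff]
    intro i _
    exact hI i

lemma v_sqf (P I : Ideal R) (hP : P.IsPrime) (hI : I ≠ ⊥) (hs : Squarefree I) (h : I ≤ P) :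
    v P I = 1 := by
  classical
  unfold v
  have h1 : P ∈ normalizedFactors I := (Ideal.mem_normalizedFactors_iff hI).mpr ⟨hP, h⟩
  have h2 : (normalizedFactors I).Nodup := (squarefree_iff_nodup_normalizedFactors hI).mp hs
  convert Multiset.count_eq_one_of_mem h2 h1

lemma v_zero (P I : Ideal R) (hI : I ≠ ⊥) (h : ¬ I ≤ P) : v P I = 0 := by
  classical
  unfold v
  rw [Multiset.count_eq_zero]
  intro h1
  exact h ((Ideal.mem_normalizedFactors_iff hI).mp h1).2

end


end Pool.Agent.TH9.J3098
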