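import Mathlib
import Pool.Agent.H84.L.S8_TH444_ML_Defs

namespace Pool.Agent.TH444.ML
end Pool.Agent.TH444.ML


/-!
The sieve: ideals avoiding exactly-one-prime patterns have density zero (helper713).
-/

set_option autoImplicit false

open NumberField Filter Topology

namespace Pool.Agent.TH713.J3096

open Pool.Agent.TH444.ML Ideal

section basic

variable {M : Type} [Field M] [NumberField M]

/- counting function -/
noncomputable def cnt (A : Set (Ideal (𝓞 M))) (Z : ℝ) : ℕ :=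
  Set.ncard {I : Ideal (𝓞 M) | I ∈ A ∧ I ≠ ⊥ ∧ (absNorm I : ℝ) ≤ Z}

theorem fin (A : Set (Ideal (𝓞 M))) (Z : ℝ) :
    {I : Ideal (𝓞 M) | I ∈ A ∧ I ≠ ⊥ ∧ (absNorm I : ℝ) ≤ Z}.Finite := by
  rcases lt_or_ge Z 0 with h | h
  · convert Set.finite_empty
    ext I
    simp only [Set.mem_setOf_eq, Set.mem_empty_iff_false, iff_false]
    rintro ⟨-, -, h3⟩
    have : (0 : ℝ) ≤ (absNorm I : ℝ) := Nat.cast_nonneg _
    linarith
  · refine (Ideal.finite_setOfPred_absNorm_le (S := 𝓞 M) ⌊Z⌋₊).subset ?_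
    rintro I ⟨-, -, h3⟩
    exact Nat.le_floor h3

/- the set has density `d` -/
def Dens (A : Set (Ideal (𝓞 M))) (d : ℝ) : Prop :=
  Tendsto (fun Z : ℝ => (cnt A Z : ℝ) / Z) atTop (𝓝 d)

/- invariance under multiplication by `P` -/
def Inv (A : Set (Ideal (𝓞 M))) (P : Ideal (𝓞 M)) : Prop := ∀ I, I ≠ ⊥ → (P * I ∈ A ↔ I ∈ A)

/- `P` times the elements of `G` -/
def mulS (P : Ideal (𝓞 M)) (G : Set (Ideal (𝓞 M))) : Set (Ideal (𝓞 M)) :=
  {I | ∃ J ∈ G, J ≠ ⊥ ∧ I = P * J}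

theorem dens_univ : ∃ κ : ℝ, Dens (Set.univ : Set (Ideal (𝓞 M))) κ := by
  refine ⟨_, (NumberField.Ideal.tendsto_norm_le_div_atTop₀ M).congr ?_⟩
  intro Z
  congr 2
  unfold cnt
  rw [← Nat.card_coe_set_eq]
  refine Nat.card_congr
    { toFun := fun x => ⟨x.1.1, trivial, nonZeroDivisors.ne_zero x.1.2, x.2⟩
      invFun := fun y => ⟨⟨y.1, mem_nonZeroDivisors_of_ne_zero y.2.2.1⟩, y.2.2.2⟩
      left_inv := fun x => rfl
      right_inv := fun y => rfl }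

theorem dens_nonneg {A : Set (Ideal (𝓞 M))} {d : ℝ} (h : Dens A d) : 0 ≤ d := by
  refine ge_of_tendsto h ?_
  filter_upwards [eventually_ge_atTop 0] with Z hZ
  positivity

theorem cnt_mulS (P : Ideal (𝓞 M)) (hP : P ≠ ⊥) (G : Set (Ideal (𝓞 M))) (Z : ℝ) :
    cnt (mulS P G) Z = cnt G (Z / absNorm P) := by
  unfold cnt
  have hN : (0 : ℝ) < absNorm P := by
    have : absNorm P ≠ 0 := fun h => hP (Ideal.absNorm_eq_zero_iff.mp h)
    exact_mod_cast Nat.pos_of_ne_zero this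
  have himg : {I : Ideal (𝓞 M) | I ∈ mulS P G ∧ I ≠ ⊥ ∧ (absNorm I : ℝ) ≤ Z} =
      (fun J => P * J) '' {I : Ideal (𝓞 M) | I ∈ G ∧ I ≠ ⊥ ∧ (absNorm I : ℝ) ≤ Z / absNorm P} := by
    ext I
    simp only [Set.mem_setOf_eq, Set.mem_image, mulS]
    constructor
    · rintro ⟨⟨J, hJ, hJ0, rfl⟩, -, h3⟩
      refine ⟨J, ⟨hJ, hJ0, ?_⟩, rfl⟩
      rw [map_mul, Nat.cast_mul] at h3
      rw [le_div_iff₀ hN]
      linarith
    · rintro ⟨J, ⟨hJ, hJ0, h3⟩, rfl⟩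
      refine ⟨⟨J, hJ, hJ0, rfl⟩, mul_ne_zero hP hJ0, ?_⟩
      rw [map_mul, Nat.cast_mul]
      rw [le_div_iff₀ hN] at h3
      linarith
  rw [himg]
  apply Set.ncard_image_of_injective
  intro J J' h
  exact mul_left_cancel₀ (show P ≠ 0 from hP) h

theorem dens_mulS (P : Ideal (𝓞 M)) (hP : P ≠ ⊥) {G : Set (Ideal (𝓞 M))} {g : ℝ}
    (h : Dens G g) : Dens (mulS P G) (g / absNorm P) := by
  have hN : (0 : ℝ) < absNorm P := by
    have : absNorm P ≠ 0 := fun h => hP (Ideal.absNorm_eq_zero_iff.mp h)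
    exact_mod_cast Nat.pos_of_ne_zero this
  unfold Dens
  have h1 : Tendsto (fun Z : ℝ => Z / (absNorm P : ℝ)) atTop atTop :=
    tendsto_id.atTop_div_const hN
  have h2 := (h.comp h1).div_const (absNorm P : ℝ)
  refine h2.congr ?_
  intro Z
  simp only [Function.comp]
  rw [cnt_mulS P hP]
  field_simp

theorem cnt_diff (A B : Set (Ideal (𝓞 M))) (hBA : B ⊆ A) (Z : ℝ) :
    (cnt (A \ B) Z : ℝ) = cnt A Z - cnt B Z := by
  unfold cnt
  have h1 : {I : Ideal (𝓞 M) | I ∈ A \ B ∧ I ≠ ⊥ ∧ (absNorm I : ℝ) ≤ Z} =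
      {I : Ideal (𝓞 M) | I ∈ A ∧ I ≠ ⊥ ∧ (absNorm I : ℝ) ≤ Z} \
      {I : Ideal (𝓞 M) | I ∈ B ∧ I ≠ ⊥ ∧ (absNorm I : ℝ) ≤ Z} := by
    ext I
    simp only [Set.mem_setOf_eq, Set.mem_diff]
    tauto
  have h2 : {I : Ideal (𝓞 M) | I ∈ B ∧ I ≠ ⊥ ∧ (absNorm I : ℝ) ≤ Z} ⊆
      {I : Ideal (𝓞 M) | I ∈ A ∧ I ≠ ⊥ ∧ (absNorm I : ℝ) ≤ Z} :=
    fun I hI => ⟨hBA hI.1, hI.2⟩
  have h3 := Set.ncard_diff_add_ncard_of_subset h2 (fin A Z)
  rw [h1]
  rw [← h3]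
  push_cast
  ring

theorem dens_diff {A B : Set (Ideal (𝓞 M))} {a b : ℝ} (hA : Dens A a) (hB : Dens B b)
    (hBA : B ⊆ A) : Dens (A \ B) (a - b) := by
  refine (hA.sub hB).congr ?_
  intro Z
  rw [cnt_diff A B hBA, sub_div]

theorem prime_of (P : Ideal (𝓞 M)) (hP : P.IsPrime) (h0 : P ≠ ⊥) : Prime P :=
  Ideal.prime_of_isPrime h0 hP

theorem not_dvd (P Q : Ideal (𝓞 M)) (hP : P.IsPrime) (hP0 : P ≠ ⊥) (hQ : Q.IsPrime) (hQ0 : Q ≠ ⊥)
    (h : P ≠ Q) : ¬ P ∣ Q := by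
  intro hd
  have h1 := Ideal.dvd_iff_le.mp hd
  have h2 := hQ.isMaximal hQ0
  exact h (h2.eq_of_le hP.ne_top h1).symm

theorem inv_mulS {G : Set (Ideal (𝓞 M))} {P Q : Ideal (𝓞 M)} (hP : P.IsPrime) (hP0 : P ≠ ⊥)
    (hQ : Q.IsPrime) (hQ0 : Q ≠ ⊥) (hne : P ≠ Q) (h : Inv G Q) : Inv (mulS P G) Q := by
  intro I hI
  constructor
  · rintro ⟨J, hJ, hJ0, hJe⟩
    have h1 : P ∣ Q * I := ⟨J, hJe⟩
    have h2 : P ∣ I := by
      rcases (prime_of P hP hP0).dvd_or_dvd h1 with h3 | h3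
      · exact absurd h3 (not_dvd P Q hP hP0 hQ hQ0 hne)
      · exact h3
    obtain ⟨J', rfl⟩ := h2
    have hJ'0 : J' ≠ ⊥ := by
      rintro rfl
      exact hI (mul_zero P)
    have h4 : J = Q * J' := by
      apply mul_left_cancel₀ (show P ≠ 0 from hP0)
      rw [← hJe]; ring
    refine ⟨J', ?_, hJ'0, rfl⟩
    rw [h4] at hJ
    exact (h J' hJ'0).mp hJ
  · rintro ⟨J, hJ, hJ0, rfl⟩
    exact ⟨Q * J, (h J hJ0).mpr hJ, mul_ne_zero hQ0 hJ0, by ring⟩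

theorem inv_diff {A B : Set (Ideal (𝓞 M))} {Q : Ideal (𝓞 M)} (hA : Inv A Q) (hB : Inv B Q) :
    Inv (A \ B) Q := by
  intro I hI
  rw [Set.mem_diff, Set.mem_diff, hA I hI, hB I hI]

/- removal of the multiples of the primes in `W` -/
theorem step1 (A : Set (Ideal (𝓞 M))) (d : ℝ) (hd : Dens A d) (R : Ideal (𝓞 M) → Prop)
    (hA : ∀ P : Ideal (𝓞 M), P.IsPrime → P ≠ ⊥ → R P → Inv A P) (W : Finset (Ideal (𝓞 M))) :
    (∀ P ∈ W, P.IsPrime ∧ P ≠ ⊥ ∧ R P) →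
    ∃ G ⊆ A, Dens G (d * ∏ P ∈ W, (1 - 1 / (absNorm P : ℝ))) ∧
      (∀ P : Ideal (𝓞 M), P.IsPrime → P ≠ ⊥ → R P → P ∉ W → Inv G P) ∧
      ∀ J ∈ G, J ≠ ⊥ → ∀ P ∈ W, ¬ P ∣ J := by
  classical
  induction W using Finset.induction_on with
  | empty =>
    intro _
    refine ⟨A, subset_rfl, by simpa using hd, fun P h1 h2 h3 _ => hA P h1 h2 h3, ?_⟩
    intro J _ _ P hP
    exact absurd hP (Finset.notMem_empty P)
  | insert P W hPW ih =>
    intro hW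
    obtain ⟨G, hGA, hG1, hG2, hG3⟩ := ih (fun Q hQ => hW Q (Finset.mem_insert_of_mem hQ))
    obtain ⟨hPp, hP0, hPR⟩ := hW P (Finset.mem_insert_self P W)
    have hinv : Inv G P := hG2 P hPp hP0 hPR hPW
    have hsub : mulS P G ⊆ G := by
      rintro I ⟨J, hJ, hJ0, rfl⟩
      exact (hinv J hJ0).mpr hJ
    refine ⟨G \ mulS P G, (Set.diff_subset).trans hGA, ?_, ?_, ?_⟩
    · have h1 := dens_diff hG1 (dens_mulS P hP0 hG1) hsub
      convert h1 using 1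
      rw [Finset.prod_insert hPW]
      ring
    · intro Q hQ hQ0 hQR hQW
      rw [Finset.mem_insert, not_or] at hQW
      have h1 := hG2 Q hQ hQ0 hQR hQW.2
      exact inv_diff h1 (inv_mulS hPp hP0 hQ hQ0 (Ne.symm hQW.1) h1)
    · intro J hJ hJ0 Q hQ hdvd
      rcases Finset.mem_insert.mp hQ with rfl | hQW
      · obtain ⟨J', rfl⟩ := hdvd
        have hJ'0 : J' ≠ ⊥ := by
          rintro rfl
          exact hJ0 (mul_zero _)
        exact hJ.2 ⟨J', (hinv J' hJ'0).mp hJ.1, hJ'0, rfl⟩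
      · exact hG3 J hJ.1 hJ0 Q hQW hdvd

/- removal of the products `P J`, `P ∈ W`, `J ∈ G` -/
theorem step2 (A G : Set (Ideal (𝓞 M))) (d g : ℝ) (hd : Dens A d) (hg : Dens G g) (hGA : G ⊆ A)
    (W0 : Finset (Ideal (𝓞 M))) (hW0 : ∀ P ∈ W0, P.IsPrime ∧ P ≠ ⊥ ∧ Inv A P)
    (hG : ∀ J ∈ G, J ≠ ⊥ → ∀ P ∈ W0, ¬ P ∣ J) (W : Finset (Ideal (𝓞 M))) (hW : W ⊆ W0) :
    Dens (A \ ⋃ P ∈ W, mulS P G) (d - ∑ P ∈ W, g / (absNorm P : ℝ)) := by
  classical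
  induction W using Finset.induction_on with
  | empty => simpa using hd
  | insert P W hPW ih =>
    have ih' := ih ((Finset.subset_insert P W).trans hW)
    obtain ⟨hPp, hP0, hinv⟩ := hW0 P (hW (Finset.mem_insert_self P W))
    have hsub : mulS P G ⊆ A \ ⋃ Q ∈ W, mulS Q G := by
      rintro I ⟨J, hJ, hJ0, rfl⟩
      refine ⟨(hinv J hJ0).mpr (hGA hJ), ?_⟩
      simp only [Set.mem_iUnion, not_exists]
      rintro Q hQ ⟨J', hJ', hJ'0, he⟩
      have hne : P ≠ Q := by rintro rfl; exact hPW hQ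
      obtain ⟨hQp, hQ0, -⟩ := hW0 Q (hW (Finset.mem_insert_of_mem hQ))
      have h1 : P ∣ Q * J' := ⟨J, he.symm⟩
      rcases (prime_of P hPp hP0).dvd_or_dvd h1 with h3 | h3
      · exact not_dvd P Q hPp hP0 hQp hQ0 hne h3
      · exact hG J' hJ' hJ'0 P (hW (Finset.mem_insert_self P W)) h3
    have h1 := dens_diff ih' (dens_mulS P hP0 hg) hsub
    have h2 : (A \ ⋃ Q ∈ insert P W, mulS Q G) = (A \ ⋃ Q ∈ W, mulS Q G) \ mulS P G := by
      ext I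
      simp only [Set.mem_diff, Set.mem_iUnion, Finset.mem_insert, not_exists]
      constructor
      · rintro ⟨h3, h4⟩
        exact ⟨⟨h3, fun Q hQ => h4 Q (Or.inr hQ)⟩, h4 P (Or.inl rfl)⟩
      · rintro ⟨⟨h3, h4⟩, h5⟩
        refine ⟨h3, ?_⟩
        rintro Q (rfl | hQ)
        · exact h5
        · exact h4 Q hQ
    rw [h2, Finset.sum_insert hPW]
    convert h1 using 1
    ring

theorem inv_iUnion {G : Set (Ideal (𝓞 M))} {Q : Ideal (𝓞 M)} (hQ : Q.IsPrime) (hQ0 : Q ≠ ⊥)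
    (h : Inv G Q) (W : Finset (Ideal (𝓞 M))) (hW : ∀ P ∈ W, P.IsPrime ∧ P ≠ ⊥ ∧ P ≠ Q) :
    Inv (⋃ P ∈ W, mulS P G) Q := by
  intro I hI
  simp only [Set.mem_iUnion, exists_prop]
  constructor
  · rintro ⟨P, hP, h1⟩
    obtain ⟨a, b, c⟩ := hW P hP
    exact ⟨P, hP, (inv_mulS a b hQ hQ0 c h I hI).mp h1⟩
  · rintro ⟨P, hP, h1⟩
    obtain ⟨a, b, c⟩ := hW P hP
    exact ⟨P, hP, (inv_mulS a b hQ hQ0 c h I hI).mpr h1⟩

end basic

section main

variable (K M : Type) [Field K] [NumberField K] [Field M] [NumberField M] [Algebra K M]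

/- the totally split primes -/
abbrev Spl : Type := {p : Ideal (𝓞 K) // p.IsPrime ∧ p ≠ ⊥ ∧
      Set.ncard (p.primesOver (𝓞 M)) = Module.finrank K M}

theorem absNorm_split (p : Spl K M) (P : Ideal (𝓞 M)) (hP : P ∈ p.1.primesOver (𝓞 M)) :
    absNorm P = absNorm p.1 := by
  obtain ⟨p, hp, hp0, hcard⟩ := p
  simp only at hP ⊢
  haveI := hp
  haveI : p.IsMaximal := hp.isMaximal hp0
  have hsum := sum_ramification_inertia (𝓞 M) K M hp0
  have hc : (IsDedekindDomain.primesOverFinset p (𝓞 M)).card = Module.finrank K M := by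
    rw [← hcard, ← IsDedekindDomain.coe_primesOverFinset hp0 (𝓞 M), Set.ncard_coe_finset]
  have hone : ∀ Q ∈ IsDedekindDomain.primesOverFinset p (𝓞 M),
      1 ≤ ramificationIdx' p Q * inertiaDeg' p Q := by
    intro Q hQ
    have hQ' := (IsDedekindDomain.mem_primesOverFinset_iff hp0 (𝓞 M)).mp hQ
    haveI : Q.IsPrime := hQ'.1
    haveI : Q.LiesOver p := hQ'.2
    refine Right.one_le_mul ?_ ?_
    · exact Nat.pos_iff_ne_zero.mpr <| IsDedekindDomain.ramificationIdx'_ne_zero_of_liesOver _ hp0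
    · exact Nat.pos_iff_ne_zero.mpr <| inertiaDeg'_ne_zero p Q
  have hPf : P ∈ IsDedekindDomain.primesOverFinset p (𝓞 M) :=
    (IsDedekindDomain.mem_primesOverFinset_iff hp0 (𝓞 M)).mpr hP
  have heq : ramificationIdx' p P * inertiaDeg' p P = 1 := by
    by_contra hcon
    have h2 : 1 < ramificationIdx' p P * inertiaDeg' p P :=
      lt_of_le_of_ne (hone P hPf) (Ne.symm hcon)
    have h3 : ∑ Q ∈ IsDedekindDomain.primesOverFinset p (𝓞 M), 1 <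
        ∑ Q ∈ IsDedekindDomain.primesOverFinset p (𝓞 M),
          ramificationIdx' p Q * inertiaDeg' p Q :=
      Finset.sum_lt_sum hone ⟨P, hPf, h2⟩
    rw [hsum, Finset.sum_const, smul_eq_mul, mul_one, hc] at h3
    exact lt_irrefl _ h3
  have hf : inertiaDeg' p P = 1 := Nat.eq_one_of_mul_eq_one_left heq
  haveI : P.LiesOver p := hP.2
  rw [absNorm_eq_pow_inertiaDeg'_of_liesOver P p hp hp0, hf, pow_one]

theorem two_le (p : Ideal (𝓞 K)) (hp : p.IsPrime) (hp0 : p ≠ ⊥) : 2 ≤ absNorm p := by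
  have h1 : absNorm p ≠ 0 := fun h => hp0 (Ideal.absNorm_eq_zero_iff.mp h)
  have h2 : absNorm p ≠ 1 := fun h => hp.ne_top (Ideal.absNorm_eq_one_iff.mp h)
  omega


end main


end Pool.Agent.TH713.J3096
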