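import Mathlib



/-! Discriminants and indices of lattices in number fields. -/

set_option autoImplicit false

namespace Pool.Agent.TH263.DQ

open NumberField Module Matrix

/- the integral elements -/
def IG (M : Type*) [Field M] : AddSubgroup M where
  carrier := {x | IsIntegral ℤ x}
  zero_mem' := isIntegral_zero
  add_mem' := IsIntegral.add
  neg_mem' := IsIntegral.neg

lemma mem_IG {M : Type*} [Field M] {x : M} : x ∈ IG M ↔ IsIntegral ℤ x := Iff.rfl

lemma mem_closure_span {V : Type*} [AddCommGroup V] (s : Set V) (x : V) :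
    x ∈ AddSubgroup.closure s ↔ x ∈ Submodule.span ℤ s := by
  rw [← Submodule.span_int_eq_addSubgroupClosure]
  rfl

lemma mem_IG' {M : Type*} [Field M] [NumberField M] {x : M} :
    x ∈ AddSubgroup.closure (Set.range (integralBasis M)) ↔ IsIntegral ℤ x := by
  rw [mem_closure_span, mem_span_integralBasis]
  constructor
  · rintro ⟨y, rfl⟩
    exact y.2
  · intro h
    exact ⟨⟨x, h⟩, rfl⟩

lemma IG_eq (M : Type*) [Field M] [NumberField M] :
    IG M = AddSubgroup.closure (Set.range (integralBasis M)) := by
  ext x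
  rw [mem_IG', mem_IG]

theorem discr_index {L : Type*} [Field L] [NumberField L] {κ : Type*} [Fintype κ] [DecidableEq κ]
    (b : Basis κ ℚ L) (hb : AddSubgroup.closure (Set.range b) ≤ IG L) :
    |Algebra.discr ℚ b| =
      ((AddSubgroup.closure (Set.range b)).relIndex (IG L) : ℚ) ^ 2 * |(discr L : ℚ)| := by
  classical
  set b₂ : Basis κ ℚ L := (integralBasis L).reindex ((integralBasis L).indexEquiv b) with hb₂
  have hr : IG L = AddSubgroup.closure (Set.range b₂) := by
    rw [IG_eq, hb₂, Basis.range_reindex]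
  have h1 := AddSubgroup.relIndex_eq_abs_det _ _ hb b b₂ rfl hr
  have h2 : Algebra.discr ℚ b = (b₂.toMatrix b).det ^ 2 * Algebra.discr ℚ b₂ := by
    conv_lhs => rw [← Basis.toMatrix_map_vecMul b₂ b]
    rw [Algebra.discr_of_matrix_vecMul]
  have h3 : Algebra.discr ℚ b₂ = (discr L : ℚ) := by
    rw [coe_discr, hb₂, Basis.coe_reindex, Algebra.discr_reindex]
  rw [h1, Basis.det_apply, h2, h3, abs_mul, abs_pow]

theorem half_index {V : Type*} [AddCommGroup V] [Module ℚ V] {κ : Type*} [Fintype κ]
    [DecidableEq κ] (b : Basis κ ℚ V) (H P : AddSubgroup V)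
    (hH : H = AddSubgroup.closure (Set.range b)) (hP : ∀ v, v ∈ P ↔ (2 : ℚ) • v ∈ H) :
    H.relIndex P = 2 ^ Fintype.card κ := by
  set w : ℚˣ := Units.mk0 (1 / 2) (by norm_num) with hw
  set b₂ : Basis κ ℚ V := b.unitsSMul fun _ => w with hb₂
  have hle : H ≤ P := by
    intro v hv
    rw [hP]
    have : (2 : ℚ) • v = v + v := by rw [two_smul]
    rw [this]
    exact H.add_mem hv hv
  have hPc : P = AddSubgroup.closure (Set.range b₂) := by
    set f : V →+ V := (LinearMap.lsmul ℚ V (2 : ℚ)).toAddMonoidHom with hf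
    have hPm : P = H.comap f := by
      ext v
      rw [hP, AddSubgroup.mem_comap]
      rfl
    have hinj : Function.Injective f := by
      intro u v huv
      have : (2 : ℚ) • u = (2 : ℚ) • v := huv
      exact smul_right_injective V (by norm_num : (2 : ℚ) ≠ 0) this
    have hmap : H = (AddSubgroup.closure (Set.range b₂)).map f := by
      rw [AddMonoidHom.map_closure, hH]
      congr 1
      rw [← Set.range_comp]
      congr 1
      funext i
      show b i = (2 : ℚ) • b₂ i
      rw [hb₂, Basis.unitsSMul_apply]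
      show b i = (2 : ℚ) • ((1 / 2 : ℚ) • b i)
      rw [smul_smul]
      norm_num
    rw [hPm, hmap, AddSubgroup.comap_map_eq_self_of_injective hinj]
  have h1 := AddSubgroup.relIndex_eq_abs_det H P hle b b₂ hH hPc
  have h2 : b₂.det b = 2 ^ Fintype.card κ := by
    rw [hb₂, Basis.det_unitsSMul]
    rw [AlternatingMap.smul_apply, Basis.det_self, smul_eq_mul, mul_one, Finset.prod_const,
      Finset.card_univ, Units.val_inv_eq_inv_val, Units.val_pow_eq_pow_val]
    show (((1 : ℚ) / 2) ^ Fintype.card κ)⁻¹ = 2 ^ Fintype.card κ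
    rw [one_div, inv_pow, inv_inv]
  rw [h2, abs_of_nonneg (by positivity)] at h1
  exact_mod_cast h1

end Pool.Agent.TH263.DQ
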