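import Mathlib
import Pool.Agent.H84.L.S8_TH263_DQ_Index



/-! The function `k` of a quadratic extension: definition and elementary properties. -/

set_option autoImplicit false

namespace Pool.Agent.TH263.DQ

open NumberField Module Matrix
open scoped nonZeroDivisors

section defs

variable {M : Type} [Field M] [NumberField M]

/- `𝓞 × 𝔠⁻¹` -/
def HH (𝔠 : Ideal (𝓞 M)) : AddSubgroup (M × M) where
  carrier := {p | IsIntegral ℤ p.1 ∧ ∀ c ∈ 𝔠, IsIntegral ℤ ((c : M) * p.2)}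
  zero_mem' := ⟨isIntegral_zero, fun c _ => by
    show IsIntegral ℤ ((c : M) * 0)
    rw [mul_zero]; exact isIntegral_zero⟩
  add_mem' := fun {p q} hp hq => ⟨hp.1.add hq.1, fun c hc => by
    show IsIntegral ℤ ((c : M) * (p.2 + q.2))
    rw [mul_add]; exact (hp.2 c hc).add (hq.2 c hc)⟩
  neg_mem' := fun {p} hp => ⟨hp.1.neg, fun c hc => by
    show IsIntegral ℤ ((c : M) * (-p.2))
    rw [mul_neg]; exact (hp.2 c hc).neg⟩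

/- the pairs `(x, y)` with `2 x ∈ 𝓞`, `2 y ∈ 𝔠⁻¹`, `x ^ 2 - α y ^ 2 ∈ 𝓞` -/
def SQ (𝔠 : Ideal (𝓞 M)) (α : 𝓞 M) : Set (M × M) :=
  {p | IsIntegral ℤ (2 * p.1) ∧ (∀ c ∈ 𝔠, IsIntegral ℤ ((c : M) * (2 * p.2))) ∧
    IsIntegral ℤ (p.1 ^ 2 - (α : M) * p.2 ^ 2)}

/- the number of classes of `SQ` modulo `𝓞 × 𝔠⁻¹` -/
noncomputable def kk (𝔠 : Ideal (𝓞 M)) (α : 𝓞 M) : ℕ :=
  Nat.card ((QuotientAddGroup.mk : M × M → (M × M) ⧸ HH 𝔠) '' SQ 𝔠 α)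

lemma mem_HH {𝔠 : Ideal (𝓞 M)} {p : M × M} :
    p ∈ HH 𝔠 ↔ IsIntegral ℤ p.1 ∧ ∀ c ∈ 𝔠, IsIntegral ℤ ((c : M) * p.2) := Iff.rfl

/- pairs with `2 p ∈ 𝓞 × 𝔠⁻¹` -/
def PP (𝔠 : Ideal (𝓞 M)) : AddSubgroup (M × M) :=
  (HH 𝔠).comap (LinearMap.lsmul ℚ (M × M) (2 : ℚ)).toAddMonoidHom

lemma mem_PP {𝔠 : Ideal (𝓞 M)} {p : M × M} : p ∈ PP 𝔠 ↔ (2 : ℚ) • p ∈ HH 𝔠 := Iff.rfl

lemma two_smul_eq (x : M) : (2 : ℚ) • x = 2 * x := by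
  rw [Algebra.smul_def]
  norm_num

lemma mem_PP' {𝔠 : Ideal (𝓞 M)} {p : M × M} :
    p ∈ PP 𝔠 ↔ IsIntegral ℤ (2 * p.1) ∧ ∀ c ∈ 𝔠, IsIntegral ℤ ((c : M) * (2 * p.2)) := by
  rw [mem_PP, mem_HH]
  show IsIntegral ℤ ((2 : ℚ) • p.1) ∧ (∀ c ∈ 𝔠, IsIntegral ℤ ((c : M) * ((2 : ℚ) • p.2))) ↔ _
  rw [two_smul_eq, two_smul_eq]

lemma SQ_subset (𝔠 : Ideal (𝓞 M)) (α : 𝓞 M) : SQ 𝔠 α ⊆ PP 𝔠 := by
  intro p hp
  exact mem_PP'.2 ⟨hp.1, hp.2.1⟩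

/- `𝔠⁻¹` as a unit of the group of fractional ideals -/
noncomputable def cinv (𝔠 : Ideal (𝓞 M)) (h : 𝔠 ≠ ⊥) : (FractionalIdeal (𝓞 M)⁰ M)ˣ :=
  (Units.mk0 (𝔠 : FractionalIdeal (𝓞 M)⁰ M) (by simpa using h))⁻¹

lemma cinv_val (𝔠 : Ideal (𝓞 M)) (h : 𝔠 ≠ ⊥) :
    ((cinv 𝔠 h : (FractionalIdeal (𝓞 M)⁰ M)ˣ) : FractionalIdeal (𝓞 M)⁰ M) =
      (𝔠 : FractionalIdeal (𝓞 M)⁰ M)⁻¹ := by
  unfold cinv
  rw [Units.val_inv_eq_inv_val]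
  rfl

lemma mem_cinv (𝔠 : Ideal (𝓞 M)) (h : 𝔠 ≠ ⊥) (x : M) :
    x ∈ ((cinv 𝔠 h : (FractionalIdeal (𝓞 M)⁰ M)ˣ) : FractionalIdeal (𝓞 M)⁰ M) ↔
      ∀ c ∈ 𝔠, IsIntegral ℤ ((c : M) * x) := by
  rw [cinv_val, FractionalIdeal.mem_inv_iff (by simpa using h)]
  constructor
  · intro H c hc
    have := H (c : M) (FractionalIdeal.mem_coeIdeal_of_mem _ hc)
    rw [FractionalIdeal.mem_one_iff] at this
    obtain ⟨z, hz⟩ := this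
    rw [mul_comm, ← hz]
    exact z.2
  · intro H y hy
    rw [FractionalIdeal.mem_coeIdeal] at hy
    obtain ⟨c, hc, rfl⟩ := hy
    rw [FractionalIdeal.mem_one_iff]
    refine ⟨⟨(c : M) * x, H c hc⟩, ?_⟩
    show (c : M) * x = x * (c : M)
    ring

/- a `ℤ`-basis of `𝓞 × 𝔠⁻¹` -/
noncomputable def bH (𝔠 : Ideal (𝓞 M)) (h : 𝔠 ≠ ⊥) :
    Basis (Free.ChooseBasisIndex ℤ (𝓞 M) ⊕ Free.ChooseBasisIndex ℤ (cinv 𝔠 h)) ℚ (M × M) :=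
  (integralBasis M).prod (basisOfFractionalIdeal M (cinv 𝔠 h))

lemma bH_inl (𝔠 : Ideal (𝓞 M)) (h : 𝔠 ≠ ⊥) (i) : bH 𝔠 h (Sum.inl i) = (integralBasis M i, 0) := by
  simp [bH]

lemma bH_inr (𝔠 : Ideal (𝓞 M)) (h : 𝔠 ≠ ⊥) (i) :
    bH 𝔠 h (Sum.inr i) = (0, basisOfFractionalIdeal M (cinv 𝔠 h) i) := by
  simp [bH]

lemma HH_eq (𝔠 : Ideal (𝓞 M)) (h : 𝔠 ≠ ⊥) :
    HH 𝔠 = AddSubgroup.closure (Set.range (bH 𝔠 h)) := by
  apply le_antisymm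
  · rintro ⟨x, y⟩ ⟨hx, hy⟩
    have e : ((x, y) : M × M) = (x, 0) + (0, y) := by simp
    rw [e]
    refine AddSubgroup.add_mem _ ?_ ?_
    · have h1 : x ∈ AddSubgroup.closure (Set.range (integralBasis M)) := mem_IG'.2 hx
      refine AddSubgroup.closure_induction
        (p := fun x _ => ((x, 0) : M × M) ∈ AddSubgroup.closure (Set.range (bH 𝔠 h)))
        ?_ ?_ ?_ ?_ h1
      · rintro z ⟨i, rfl⟩
        rw [← bH_inl 𝔠 h]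
        exact AddSubgroup.subset_closure ⟨_, rfl⟩
      · exact AddSubgroup.zero_mem _
      · intro a b _ _ ha hb
        have : ((a + b, 0) : M × M) = (a, 0) + (b, 0) := by simp
        rw [this]
        exact AddSubgroup.add_mem _ ha hb
      · intro a _ ha
        have : ((-a, 0) : M × M) = -(a, 0) := by simp
        rw [this]
        exact AddSubgroup.neg_mem _ ha
    · have h1 : y ∈ AddSubgroup.closure (Set.range (basisOfFractionalIdeal M (cinv 𝔠 h))) := by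
        rw [mem_closure_span, mem_span_basisOfFractionalIdeal]
        exact (mem_cinv 𝔠 h y).2 hy
      refine AddSubgroup.closure_induction
        (p := fun x _ => ((0, x) : M × M) ∈ AddSubgroup.closure (Set.range (bH 𝔠 h)))
        ?_ ?_ ?_ ?_ h1
      · rintro z ⟨i, rfl⟩
        rw [← bH_inr 𝔠 h]
        exact AddSubgroup.subset_closure ⟨_, rfl⟩
      · exact AddSubgroup.zero_mem _
      · intro a b _ _ ha hb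
        have : ((0, a + b) : M × M) = (0, a) + (0, b) := by simp
        rw [this]
        exact AddSubgroup.add_mem _ ha hb
      · intro a _ ha
        have : ((0, -a) : M × M) = -(0, a) := by simp
        rw [this]
        exact AddSubgroup.neg_mem _ ha
  · rw [AddSubgroup.closure_le]
    rintro z ⟨i, rfl⟩
    rcases i with i | i
    · rw [bH_inl]
      refine ⟨?_, fun c _ => ?_⟩
      · show IsIntegral ℤ (integralBasis M i)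
        rw [integralBasis_apply]
        exact (RingOfIntegers.basis M i).2
      · show IsIntegral ℤ ((c : M) * 0)
        rw [mul_zero]; exact isIntegral_zero
    · rw [bH_inr]
      refine ⟨isIntegral_zero, ?_⟩
      have : basisOfFractionalIdeal M (cinv 𝔠 h) i ∈
          Submodule.span ℤ (Set.range (basisOfFractionalIdeal M (cinv 𝔠 h))) :=
        Submodule.subset_span ⟨_, rfl⟩
      rw [mem_span_basisOfFractionalIdeal] at this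
      exact (mem_cinv 𝔠 h _).1 this

lemma relIndex_PP (𝔠 : Ideal (𝓞 M)) (h : 𝔠 ≠ ⊥) :
    (HH 𝔠).relIndex (PP 𝔠) = 4 ^ finrank ℚ M := by
  classical
  have h1 := half_index (bH 𝔠 h) (HH 𝔠) (PP 𝔠) (HH_eq 𝔠 h) fun v => mem_PP
  rw [h1, ← finrank_eq_card_basis (bH 𝔠 h), Module.finrank_prod, ← two_mul, pow_mul]
  norm_num

lemma card_mk_PP (𝔠 : Ideal (𝓞 M)) :
    Nat.card ((QuotientAddGroup.mk : M × M → (M × M) ⧸ HH 𝔠) '' (PP 𝔠 : Set (M × M))) =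
      (HH 𝔠).relIndex (PP 𝔠) := by
  have := AddSubgroup.relIndex_ker (QuotientAddGroup.mk' (HH 𝔠)) (K := PP 𝔠)
  rw [QuotientAddGroup.ker_mk'] at this
  rw [this]
  rfl

lemma kk_le (𝔠 : Ideal (𝓞 M)) (α : 𝓞 M) (h : 𝔠 ≠ ⊥) :
    kk 𝔠 α ≤ 4 ^ finrank ℚ M ∧
      ((QuotientAddGroup.mk : M × M → (M × M) ⧸ HH 𝔠) '' SQ 𝔠 α).Finite := by
  have h1 := card_mk_PP 𝔠
  rw [relIndex_PP 𝔠 h] at h1
  have hfin : ((QuotientAddGroup.mk : M × M → (M × M) ⧸ HH 𝔠) '' (PP 𝔠 : Set (M × M))).Finite := by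
    apply Set.finite_of_ncard_ne_zero
    rw [← Nat.card_coe_set_eq, h1]
    positivity
  have hsub : (QuotientAddGroup.mk : M × M → (M × M) ⧸ HH 𝔠) '' SQ 𝔠 α ⊆
      (QuotientAddGroup.mk : M × M → (M × M) ⧸ HH 𝔠) '' (PP 𝔠 : Set (M × M)) :=
    Set.image_mono (SQ_subset 𝔠 α)
  refine ⟨?_, hfin.subset hsub⟩
  rw [← h1]
  exact Nat.card_mono hfin hsub

lemma kk_pos (𝔠 : Ideal (𝓞 M)) (α : 𝓞 M) (h : 𝔠 ≠ ⊥) : 1 ≤ kk 𝔠 α := by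
  have h2 := (kk_le 𝔠 α h).2
  have h3 : ((QuotientAddGroup.mk : M × M → (M × M) ⧸ HH 𝔠) '' SQ 𝔠 α).Nonempty := by
    refine ⟨_, (0, 0), ⟨?_, fun c _ => ?_, ?_⟩, rfl⟩
    · show IsIntegral ℤ ((2 : M) * 0)
      rw [mul_zero]; exact isIntegral_zero
    · show IsIntegral ℤ ((c : M) * (2 * 0))
      rw [mul_zero, mul_zero]; exact isIntegral_zero
    · show IsIntegral ℤ ((0 : M) ^ 2 - (α : M) * 0 ^ 2)
      have : (0 : M) ^ 2 - (α : M) * 0 ^ 2 = 0 := by ring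
      rw [this]; exact isIntegral_zero
  unfold kk
  rw [Nat.card_coe_set_eq]
  exact (Set.ncard_pos h2).2 h3

lemma int_of_mem (𝔠 : Ideal (𝓞 M)) (y : M)
    (hy : ∀ c ∈ 𝔠, IsIntegral ℤ ((c : M) * (2 * y))) (β : 𝓞 M)
    (hβ : β ∈ Ideal.span {(4 : 𝓞 M)} * 𝔠 ^ 2) : IsIntegral ℤ ((β : M) * y ^ 2) := by
  rw [Ideal.mem_span_singleton_mul] at hβ
  obtain ⟨t, ht, rfl⟩ := hβ
  rw [pow_two] at ht
  refine Submodule.mul_induction_on ht ?_ ?_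
  · intro c hc d hd
    have := (hy c hc).mul (hy d hd)
    have e : (((4 : 𝓞 M) * (c * d) : 𝓞 M) : M) * y ^ 2 =
        (c : M) * (2 * y) * ((d : M) * (2 * y)) := by
      change (algebraMap (𝓞 M) M) (4 * (c * d)) * y ^ 2 =
        algebraMap (𝓞 M) M c * (2 * y) * (algebraMap (𝓞 M) M d * (2 * y))
      rw [map_mul, map_mul, map_ofNat]
      ring
    rw [e]
    exact this
  · intro a b ha hb
    have e : (((4 : 𝓞 M) * (a + b) : 𝓞 M) : M) * y ^ 2 =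
        (((4 : 𝓞 M) * a : 𝓞 M) : M) * y ^ 2 + (((4 : 𝓞 M) * b : 𝓞 M) : M) * y ^ 2 := by
      push_cast
      ring
    rw [e]
    exact ha.add hb

lemma SQ_congr (𝔠 : Ideal (𝓞 M)) (α α' : 𝓞 M)
    (h : α - α' ∈ Ideal.span {(4 : 𝓞 M)} * 𝔠 ^ 2) : SQ 𝔠 α ⊆ SQ 𝔠 α' := by
  rintro ⟨x, y⟩ ⟨h1, h2, h3⟩
  refine ⟨h1, h2, ?_⟩
  have h4 := int_of_mem 𝔠 y h2 _ h
  have := h3.add h4
  have e : x ^ 2 - (α' : M) * y ^ 2 = x ^ 2 - (α : M) * y ^ 2 + ((α - α' : 𝓞 M) : M) * y ^ 2 := by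
    push_cast
    ring
  show IsIntegral ℤ (x ^ 2 - (α' : M) * y ^ 2)
  rw [e]
  exact this

lemma kk_congr (𝔠 : Ideal (𝓞 M)) (α α' : 𝓞 M)
    (h : α - α' ∈ Ideal.span {(4 : 𝓞 M)} * 𝔠 ^ 2) : kk 𝔠 α = kk 𝔠 α' := by
  have h' : α' - α ∈ Ideal.span {(4 : 𝓞 M)} * 𝔠 ^ 2 := by
    rw [← neg_sub]
    exact neg_mem h
  have : SQ 𝔠 α = SQ 𝔠 α' := Set.Subset.antisymm (SQ_congr 𝔠 α α' h) (SQ_congr 𝔠 α' α h')
  unfold kk
  rw [this]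

/- multiplication of the second coordinate by a unit -/
noncomputable def mulU (u : (𝓞 M)ˣ) : (M × M) ≃+ (M × M) where
  toFun p := (p.1, ((u : 𝓞 M) : M) * p.2)
  invFun p := (p.1, (((u⁻¹ : (𝓞 M)ˣ) : 𝓞 M) : M) * p.2)
  left_inv p := by
    have : (((u⁻¹ : (𝓞 M)ˣ) : 𝓞 M) : M) * ((u : 𝓞 M) : M) = 1 := by
      rw [← map_mul, Units.inv_mul, map_one]
    show (p.1, (((u⁻¹ : (𝓞 M)ˣ) : 𝓞 M) : M) * (((u : 𝓞 M) : M) * p.2)) = p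
    rw [← mul_assoc, this, one_mul]
  right_inv p := by
    have : ((u : 𝓞 M) : M) * (((u⁻¹ : (𝓞 M)ˣ) : 𝓞 M) : M) = 1 := by
      rw [← map_mul, Units.mul_inv, map_one]
    show (p.1, ((u : 𝓞 M) : M) * ((((u⁻¹ : (𝓞 M)ˣ) : 𝓞 M) : M) * p.2)) = p
    rw [← mul_assoc, this, one_mul]
  map_add' p q := by
    show (p.1 + q.1, ((u : 𝓞 M) : M) * (p.2 + q.2)) = _
    rw [mul_add]
    rfl

lemma mulU_HH (𝔠 : Ideal (𝓞 M)) (u : (𝓞 M)ˣ) (p : M × M) : p ∈ HH 𝔠 → mulU u p ∈ HH 𝔠 := by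
  rintro ⟨h1, h2⟩
  refine ⟨h1, fun c hc => ?_⟩
  show IsIntegral ℤ ((c : M) * (((u : 𝓞 M) : M) * p.2))
  have := ((u : 𝓞 M).2 : IsIntegral ℤ ((u : 𝓞 M) : M)).mul (h2 c hc)
  have e : (c : M) * (((u : 𝓞 M) : M) * p.2) = ((u : 𝓞 M) : M) * ((c : M) * p.2) := by ring
  rw [e]
  exact this

lemma mulU_symm (u : (𝓞 M)ˣ) : (mulU u).symm = mulU u⁻¹ := by
  ext p
  · rfl
  · rfl

lemma mulU_SQ (𝔠 : Ideal (𝓞 M)) (α : 𝓞 M) (u : (𝓞 M)ˣ) (p : M × M) :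
    p ∈ SQ 𝔠 ((u : 𝓞 M) ^ 2 * α) → mulU u p ∈ SQ 𝔠 α := by
  rintro ⟨h1, h2, h3⟩
  refine ⟨h1, fun c hc => ?_, ?_⟩
  · show IsIntegral ℤ ((c : M) * (2 * (((u : 𝓞 M) : M) * p.2)))
    have := ((u : 𝓞 M).2 : IsIntegral ℤ ((u : 𝓞 M) : M)).mul (h2 c hc)
    have e : (c : M) * (2 * (((u : 𝓞 M) : M) * p.2)) =
      ((u : 𝓞 M) : M) * ((c : M) * (2 * p.2)) := by ring
    rw [e]
    exact this
  · show IsIntegral ℤ (p.1 ^ 2 - (α : M) * (((u : 𝓞 M) : M) * p.2) ^ 2)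
    have e : p.1 ^ 2 - (α : M) * (((u : 𝓞 M) : M) * p.2) ^ 2 =
      p.1 ^ 2 - (((u : 𝓞 M) ^ 2 * α : 𝓞 M) : M) * p.2 ^ 2 := by
      push_cast
      ring
    rw [e]
    exact h3

lemma kk_unit_le (𝔠 : Ideal (𝓞 M)) (α : 𝓞 M) (u : (𝓞 M)ˣ) (h : 𝔠 ≠ ⊥) :
    kk 𝔠 ((u : 𝓞 M) ^ 2 * α) ≤ kk 𝔠 α := by
  have hfin := (kk_le 𝔠 α h).2
  have hle : HH 𝔠 ≤ (HH 𝔠).comap (mulU u).toAddMonoidHom := fun p hp => mulU_HH 𝔠 u p hp
  set F : (M × M) ⧸ HH 𝔠 →+ (M × M) ⧸ HH 𝔠 := QuotientAddGroup.map _ _ (mulU u).toAddMonoidHom hle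
    with hF
  have hinj : Function.Injective F := by
    rw [injective_iff_map_eq_zero]
    intro q hq
    obtain ⟨p, rfl⟩ := QuotientAddGroup.mk_surjective q
    rw [hF, QuotientAddGroup.map_mk, QuotientAddGroup.eq_zero_iff] at hq
    rw [QuotientAddGroup.eq_zero_iff]
    have := mulU_HH 𝔠 u⁻¹ _ hq
    rw [← mulU_symm] at this
    have e : (mulU u).symm ((mulU u).toAddMonoidHom p) = p := (mulU u).symm_apply_apply p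
    rwa [e] at this
  have hsub : F '' ((QuotientAddGroup.mk : M × M → (M × M) ⧸ HH 𝔠) '' SQ 𝔠 ((u : 𝓞 M) ^ 2 * α)) ⊆
      (QuotientAddGroup.mk : M × M → (M × M) ⧸ HH 𝔠) '' SQ 𝔠 α := by
    rintro _ ⟨_, ⟨p, hp, rfl⟩, rfl⟩
    exact ⟨mulU u p, mulU_SQ 𝔠 α u p hp, rfl⟩
  unfold kk
  rw [← Nat.card_image_of_injective hinj]
  exact Nat.card_mono hfin hsub

lemma kk_unit (𝔠 : Ideal (𝓞 M)) (α : 𝓞 M) (u : (𝓞 M)ˣ) (h : 𝔠 ≠ ⊥) :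
    kk 𝔠 ((u : 𝓞 M) ^ 2 * α) = kk 𝔠 α := by
  apply le_antisymm (kk_unit_le 𝔠 α u h)
  have := kk_unit_le 𝔠 ((u : 𝓞 M) ^ 2 * α) u⁻¹ h
  have e : ((u⁻¹ : (𝓞 M)ˣ) : 𝓞 M) ^ 2 * ((u : 𝓞 M) ^ 2 * α) = α := by
    rw [← mul_assoc, ← mul_pow, Units.inv_mul, one_pow, one_mul]
  rwa [e] at this

end defs

end Pool.Agent.TH263.DQ
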