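import Mathlib
import Pool.Agent.H84.L.S8_TH444_ML_Defs

namespace Pool.Agent.TH444.ML
end Pool.Agent.TH444.ML


/-! Job 3087 (ML-B KumP): quadratic extensions of `M` by elements with `(α) = 𝔡 𝔠 ^ 2`. -/

set_option autoImplicit false

open NumberField Polynomial UniqueFactorizationMonoid
open scoped nonZeroDivisors

namespace Pool.Agent.TH914.J3087

open Pool.Agent.TH444.ML

/-! ### ideals -/

lemma exists_sqf {R : Type} [CommRing R] [IsDedekindDomain R] (I : Ideal R) (hI : I ≠ ⊥) :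
    ∃ d f : Ideal R, Squarefree d ∧ I = d * f ^ 2 := by
  classical
  induction I using WfDvdMonoid.induction_on_irreducible with
  | zero => exact absurd rfl hI
  | unit u hu => exact ⟨u, 1, hu.squarefree, by rw [one_pow, mul_one]⟩
  | mul a i ha hi ih =>
    obtain ⟨d, f, hd, rfl⟩ := ih ha
    by_cases h : i ∣ d
    · obtain ⟨e, rfl⟩ := h
      exact ⟨e, i * f, hd.of_mul_right, by ring⟩
    · refine ⟨i * d, f, ?_, by ring⟩
      rw [squarefree_mul_iff]
      exact ⟨(hi.isRelPrime_iff_not_dvd).2 h, hi.squarefree, hd⟩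

lemma sqf_unique {R : Type} [CommRing R] [IsDedekindDomain R] {d d' A B : Ideal R}
    (hd : Squarefree d) (hd' : Squarefree d') (hA : A ≠ ⊥) (hB : B ≠ ⊥)
    (h : d * A ^ 2 = d' * B ^ 2) : d = d' ∧ A = B := by
  classical
  have hd0 : d ≠ 0 := hd.ne_zero
  have hd'0 : d' ≠ 0 := hd'.ne_zero
  have hA2 : A ^ 2 ≠ 0 := pow_ne_zero 2 hA
  have hB2 : B ^ 2 ≠ 0 := pow_ne_zero 2 hB
  have h1 : normalizedFactors d + 2 • normalizedFactors A =
      normalizedFactors d' + 2 • normalizedFactors B := by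
    rw [← normalizedFactors_pow, ← normalizedFactors_pow, ← normalizedFactors_mul hd0 hA2,
      ← normalizedFactors_mul hd'0 hB2, h]
  have hn := (squarefree_iff_nodup_normalizedFactors hd0).1 hd
  have hn' := (squarefree_iff_nodup_normalizedFactors hd'0).1 hd'
  have h2 : ∀ p, (normalizedFactors d).count p = (normalizedFactors d').count p ∧
      (normalizedFactors A).count p = (normalizedFactors B).count p := by
    intro p
    have h3 := congrArg (Multiset.count p) h1
    rw [Multiset.count_add, Multiset.count_add, Multiset.count_nsmul, Multiset.count_nsmul] at h3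
    have h4 := Multiset.nodup_iff_count_le_one.1 hn p
    have h5 := Multiset.nodup_iff_count_le_one.1 hn' p
    omega
  constructor
  · rw [← Ideal.prod_normalizedFactors_eq_self hd0, ← Ideal.prod_normalizedFactors_eq_self hd'0]
    congr 1
    ext p
    exact (h2 p).1
  · rw [← Ideal.prod_normalizedFactors_eq_self hA, ← Ideal.prod_normalizedFactors_eq_self hB]
    congr 1
    ext p
    exact (h2 p).2

lemma step {R : Type} [CommRing R] [IsDedekindDomain R] {a x y : R} {d f c : Ideal R}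
    (hy : y ≠ 0) (hI : Ideal.span {a} = d * f ^ 2)
    (hxy : Ideal.span {x} * f = Ideal.span {y} * c) :
    ∃ α : R, a * x ^ 2 = y ^ 2 * α ∧ Ideal.span {α} = d * c ^ 2 := by
  have h1 : Ideal.span {a * x ^ 2} = Ideal.span {y ^ 2} * (d * c ^ 2) := by
    rw [← Ideal.span_singleton_mul_span_singleton, hI, ← Ideal.span_singleton_pow,
      ← Ideal.span_singleton_pow]
    calc d * f ^ 2 * Ideal.span {x} ^ 2 = d * (Ideal.span {x} * f) ^ 2 := by ring
      _ = d * (Ideal.span {y} * c) ^ 2 := by rw [hxy]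
      _ = _ := by ring
  have h2 : y ^ 2 ∣ a * x ^ 2 := by
    have hm : a * x ^ 2 ∈ Ideal.span {y ^ 2} * (d * c ^ 2) := by
      rw [← h1]
      exact Ideal.mem_span_singleton_self (a * x ^ 2)
    have h5 : Ideal.span {y ^ 2} * (d * c ^ 2) ≤ Ideal.span {y ^ 2} := Ideal.mul_le_left
    have h6 : a * x ^ 2 ∈ Ideal.span {y ^ 2} := h5 hm
    exact Ideal.mem_span_singleton.1 h6
  obtain ⟨α, hα⟩ := h2
  refine ⟨α, hα, ?_⟩
  rw [hα, ← Ideal.span_singleton_mul_span_singleton] at h1
  refine mul_left_cancel₀ ?_ h1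
  rw [ne_eq, Ideal.zero_eq_bot, Ideal.span_singleton_eq_bot]
  exact pow_ne_zero 2 hy

lemma uniq {R : Type} [CommRing R] [IsDedekindDomain R] {m n α α' : R} {d d' c c' : Ideal R}
    (hm : m ≠ 0) (hn : n ≠ 0) (hc : c ≠ ⊥) (hc' : c' ≠ ⊥) (hd : Squarefree d)
    (hd' : Squarefree d') (hI : Ideal.span {α} = d * c ^ 2) (hI' : Ideal.span {α'} = d' * c' ^ 2)
    (hrel : n ^ 2 * α' = m ^ 2 * α) : Ideal.span {n} * c' = Ideal.span {m} * c := by
  have hspan : ∀ {z : R}, z ≠ 0 → Ideal.span {z} ≠ 0 := by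
    intro z hz
    rw [ne_eq, Ideal.zero_eq_bot, Ideal.span_singleton_eq_bot]
    exact hz
  have hid : d' * (Ideal.span {n} * c') ^ 2 = d * (Ideal.span {m} * c) ^ 2 := by
    calc d' * (Ideal.span {n} * c') ^ 2 = Ideal.span {n} ^ 2 * (d' * c' ^ 2) := by ring
      _ = Ideal.span {n ^ 2 * α'} := by
        rw [← hI', Ideal.span_singleton_pow, Ideal.span_singleton_mul_span_singleton]
      _ = Ideal.span {m} ^ 2 * (d * c ^ 2) := by
        rw [hrel, ← hI, Ideal.span_singleton_pow, Ideal.span_singleton_mul_span_singleton]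
      _ = _ := by ring
  exact (sqf_unique hd' hd (mul_ne_zero (hspan hn) hc') (mul_ne_zero (hspan hm) hc) hid).2

lemma unit_of {R : Type} [CommRing R] [IsDedekindDomain R] {m n α α' : R} {c : Ideal R}
    (hn : n ≠ 0) (hc : c ≠ ⊥) (h : Ideal.span {n} * c = Ideal.span {m} * c)
    (hrel : n ^ 2 * α' = m ^ 2 * α) : ∃ u : Rˣ, α' = (u : R) ^ 2 * α := by
  have h3 : Ideal.span {n} = Ideal.span {m} := mul_right_cancel₀ hc h
  rw [Ideal.span_singleton_eq_span_singleton] at h3
  obtain ⟨u, hu⟩ := h3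
  refine ⟨u, ?_⟩
  have h4 : n ^ 2 * α' = n ^ 2 * ((u : R) ^ 2 * α) := by
    rw [hrel, ← hu]
    ring
  exact mul_left_cancel₀ (pow_ne_zero 2 hn) h4

/-! ### quadratic extensions -/

section fields

variable {M E : Type} [Field M] [Field E] [Algebra M E]

lemma finrank_two {a : M} {s : E} (h : s ^ 2 = algebraMap M E a)
    (hs : ∀ x : M, algebraMap M E x ≠ s) :
    Module.finrank M (IntermediateField.adjoin M {s}) = 2 := by
  have hint : IsIntegral M s := ⟨X ^ 2 - C a, monic_X_pow_sub_C a two_ne_zero, by simp [h]⟩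
  rw [IntermediateField.adjoin.finrank hint]
  apply le_antisymm
  · have h1 : minpoly M s ∣ X ^ 2 - C a := minpoly.dvd M s (by simp [h])
    have h2 := natDegree_le_of_dvd h1 (monic_X_pow_sub_C a two_ne_zero).ne_zero
    rwa [natDegree_X_pow_sub_C] at h2
  · rw [minpoly.two_le_natDegree_iff hint]
    rintro ⟨x, hx⟩
    exact hs x hx

lemma mem_adjoin {a : M} {s t : E} (h : s ^ 2 = algebraMap M E a)
    (ht : t ∈ IntermediateField.adjoin M {s}) :
    ∃ x y : M, t = algebraMap M E x + algebraMap M E y * s := by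
  have hint : IsIntegral M s := ⟨X ^ 2 - C a, monic_X_pow_sub_C a two_ne_zero, by simp [h]⟩
  have h1 : t ∈ Algebra.adjoin M {s} := by
    rw [← IntermediateField.adjoin_simple_toSubalgebra_of_isAlgebraic hint.isAlgebraic]
    exact ht
  rw [Algebra.adjoin_singleton_eq_range_aeval] at h1
  obtain ⟨p, rfl⟩ := h1
  have hm : (X ^ 2 - C a : M[X]).Monic := monic_X_pow_sub_C a two_ne_zero
  have h2 : aeval s (p %ₘ (X ^ 2 - C a)) = aeval s p :=
    aeval_modByMonic_eq_self_of_root (by simp [h])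
  have h3 : (p %ₘ (X ^ 2 - C a)).natDegree < 2 := by
    have := natDegree_modByMonic_lt p hm (by
      intro h1
      have := congrArg natDegree h1
      rw [natDegree_X_pow_sub_C, natDegree_one] at this
      omega)
    rwa [natDegree_X_pow_sub_C] at this
  obtain ⟨x, y, hxy⟩ : ∃ x y : M, p %ₘ (X ^ 2 - C a) = C x * X + C y :=
    exists_eq_X_add_C_of_natDegree_le_one (by omega)
  refine ⟨y, x, ?_⟩
  show aeval s p = _
  rw [← h2, hxy]
  simp only [map_add, map_mul, aeval_X, aeval_C]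
  ring

lemma exists_sqrt [CharZero M] (L : IntermediateField M E) (hL : Module.finrank M L = 2) :
    ∃ (b : M) (s : E), s ∈ L ∧ s ^ 2 = algebraMap M E b ∧ ∀ x : M, algebraMap M E x ≠ s := by
  have : FiniteDimensional M L := Module.finite_of_finrank_pos (by omega)
  have h1 : ∃ t : E, t ∈ L ∧ ∀ x : M, algebraMap M E x ≠ t := by
    by_contra hcon
    push Not at hcon
    have : L = ⊥ := by
      rw [eq_bot_iff]
      intro t ht
      obtain ⟨x, hx⟩ := hcon t ht
      rw [IntermediateField.mem_bot]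
      exact ⟨x, hx⟩
    rw [this, IntermediateField.finrank_bot] at hL
    omega
  obtain ⟨t, htL, ht⟩ := h1
  have hint : IsIntegral M t := by
    have := Algebra.IsIntegral.isIntegral (R := M) (⟨t, htL⟩ : L)
    exact (isIntegral_algebraMap_iff (FaithfulSMul.algebraMap_injective L E)).2 this
  have hdeg : (minpoly M t).natDegree = 2 := by
    rw [← IntermediateField.adjoin.finrank hint]
    apply le_antisymm
    · rw [← hL]
      have hle : IntermediateField.adjoin M {t} ≤ L := by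
        rw [IntermediateField.adjoin_simple_le_iff]
        exact htL
      exact IntermediateField.finrank_le_of_le_right hle
    · rw [IntermediateField.adjoin.finrank hint, minpoly.two_le_natDegree_iff hint]
      rintro ⟨x, hx⟩
      exact ht x hx
  have hmon := minpoly.monic hint
  set p := minpoly M t with hp
  have hroot : aeval t p = 0 := minpoly.aeval M t
  have hpe : p = X ^ 2 + C (p.coeff 1) * X + C (p.coeff 0) := by
    have h2 : p.coeff 2 = 1 := by rw [← hdeg]; exact hmon.coeff_natDegree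
    ext n
    rcases n with _ | _ | _ | n
    · simp
    · simp [coeff_C]
    · simp [h2]
    · rw [coeff_eq_zero_of_natDegree_lt (by omega)]
      simp [coeff_X_pow]
  set b := p.coeff 1
  set c := p.coeff 0
  have hq : t ^ 2 + algebraMap M E b * t + algebraMap M E c = 0 := by
    rw [hpe] at hroot
    simpa using hroot
  refine ⟨b ^ 2 - 4 * c, 2 * t + algebraMap M E b, ?_, ?_, ?_⟩
  · exact L.add_mem (L.mul_mem (by exact_mod_cast L.natCast_mem 2) htL) (L.algebraMap_mem b)
  · simp only [map_sub, map_pow, map_mul, map_ofNat]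
    linear_combination 4 * hq
  · intro x hx
    apply ht ((x - b) / 2)
    have h2 : (2 : E) ≠ 0 := by
      have h3 : algebraMap M E 2 ≠ 0 := (_root_.map_ne_zero _).2 two_ne_zero
      rwa [map_ofNat] at h3
    rw [map_div₀, map_sub, map_ofNat, hx]
    field_simp
    ring

end fields

lemma part1 {M E : Type} [Field M] [NumberField M] [Field E] [Algebra M E]
    {rep : ClassGroup (𝓞 M) → Ideal (𝓞 M)} (hrep : Rep M rep)
    (L : IntermediateField M E) (hL : Module.finrank M L = 2) :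
      ∃ (C : ClassGroup (𝓞 M)) (α : 𝓞 M) (s : E), Sqf M (rep C) α ∧
        s ^ 2 = algebraMap M E (α : M) ∧ (∀ x : M, algebraMap M E x ≠ s) ∧
        L = IntermediateField.adjoin M {s} := by
  obtain ⟨b, s₀, hs₀L, hs₀, hs₀M⟩ := exists_sqrt L hL
  have hb : b ≠ 0 := by
    rintro rfl
    rw [map_zero] at hs₀
    exact hs₀M 0 (by rw [map_zero, eq_comm]; exact pow_eq_zero_iff (two_ne_zero) |>.1 hs₀)
  obtain ⟨n, d, hd, hnd⟩ := IsFractionRing.div_surjective (A := 𝓞 M) b
  have hd0 : d ≠ 0 := nonZeroDivisors.ne_zero hd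
  have hdM : (d : M) ≠ 0 := by
    rw [ne_eq, RingOfIntegers.coe_eq_zero_iff]
    exact hd0
  have hn0 : n ≠ 0 := by
    rintro rfl
    apply hb
    rw [← hnd, map_zero, zero_div]
  have hnd0 : n * d ≠ 0 := mul_ne_zero hn0 hd0
  -- `α₁ = n d`
  obtain ⟨𝔡, 𝔣, hsq, hI⟩ := exists_sqf (Ideal.span {n * d}) (by
    rw [ne_eq, Ideal.span_singleton_eq_bot]
    exact hnd0)
  have h𝔣 : 𝔣 ≠ ⊥ := by
    rintro rfl
    rw [← Ideal.zero_eq_bot, zero_pow two_ne_zero, mul_zero, Ideal.zero_eq_bot,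
      Ideal.span_singleton_eq_bot] at hI
    exact hnd0 hI
  have h𝔣' : 𝔣 ∈ (Ideal (𝓞 M))⁰ := mem_nonZeroDivisors_iff_ne_zero.2 h𝔣
  obtain ⟨hr, hC⟩ := hrep (ClassGroup.mk0 ⟨𝔣, h𝔣'⟩)
  obtain ⟨x, y, hx, hy, hxy⟩ := (ClassGroup.mk0_eq_mk0_iff).1 hC.symm
  obtain ⟨α, hα, h3⟩ := step hy hI hxy
  have hα0 : α ≠ 0 := by
    rintro rfl
    rw [mul_zero] at hα
    exact mul_ne_zero hnd0 (pow_ne_zero 2 hx) hα
  have hxM : (x : M) ≠ 0 := by
    rw [ne_eq, RingOfIntegers.coe_eq_zero_iff]; exact hx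
  have hyM : (y : M) ≠ 0 := by
    rw [ne_eq, RingOfIntegers.coe_eq_zero_iff]; exact hy
  have h4 : (n : M) * d * x ^ 2 = y ^ 2 * α := by
    have := congrArg (algebraMap (𝓞 M) M) hα
    rw [map_mul, map_mul, map_mul, map_pow, map_pow] at this
    exact this
  have h5 : b = (n : M) / d := hnd.symm
  obtain ⟨z, hz⟩ : ∃ z : M, z = (d : M) * x / y := ⟨_, rfl⟩
  have hz0 : z ≠ 0 := hz ▸ div_ne_zero (mul_ne_zero hdM hxM) hyM
  have hzE : algebraMap M E z ≠ 0 := (_root_.map_ne_zero _).2 hz0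
  have hsM : ∀ w : M, algebraMap M E w ≠ algebraMap M E z * s₀ := by
    intro w hw
    apply hs₀M (w / z)
    rw [map_div₀, hw]
    field_simp
  have hsL : algebraMap M E z * s₀ ∈ L := L.mul_mem (L.algebraMap_mem z) hs₀L
  have h6 : z ^ 2 * b = (α : M) := by
    rw [h5, hz]
    field_simp
    linear_combination h4
  have hs2 : (algebraMap M E z * s₀) ^ 2 = algebraMap M E (α : M) := by
    rw [mul_pow, hs₀, ← map_pow, ← map_mul, h6]
  refine ⟨_, α, algebraMap M E z * s₀, ⟨hα0, 𝔡, hsq, h3⟩, hs2, hsM, ?_⟩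
  have : FiniteDimensional M L := Module.finite_of_finrank_pos (by omega)
  refine (IntermediateField.eq_of_le_of_finrank_eq ?_ ?_).symm
  · rw [IntermediateField.adjoin_simple_le_iff]
    exact hsL
  · rw [hL]
    exact finrank_two hs2 hsM

lemma part2 {M E : Type} [Field M] [NumberField M] [Field E] [Algebra M E]
    {rep : ClassGroup (𝓞 M) → Ideal (𝓞 M)} (hrep : Rep M rep)
    (C C' : ClassGroup (𝓞 M)) (α α' : 𝓞 M) (s s' : E) (hα : Sqf M (rep C) α)
    (hα' : Sqf M (rep C') α') (hs : s ^ 2 = algebraMap M E (α : M))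
    (hs' : s' ^ 2 = algebraMap M E (α' : M)) (hsM : ∀ x : M, algebraMap M E x ≠ s)
    (hadj : IntermediateField.adjoin M {s} = IntermediateField.adjoin M {s'}) :
    C = C' ∧ ∃ u : (𝓞 M)ˣ, α' = (u : 𝓞 M) ^ 2 * α := by
  have hinj : Function.Injective (algebraMap M E) := (algebraMap M E).injective
  obtain ⟨hα0, 𝔡, hsq, hI⟩ := hα
  obtain ⟨hα'0, 𝔡', hsq', hI'⟩ := hα'
  have hmem : s' ∈ IntermediateField.adjoin M {s} := by
    rw [hadj]
    exact IntermediateField.mem_adjoin_simple_self M s'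
  obtain ⟨a, b, hab⟩ := mem_adjoin hs hmem
  have hs'M : ∀ x : M, algebraMap M E x ≠ s' := by
    intro x hx
    have h1 : IntermediateField.adjoin M {s'} = ⊥ := by
      rw [IntermediateField.adjoin_simple_eq_bot_iff, ← hx]
      exact IntermediateField.algebraMap_mem _ x
    have h2 := finrank_two hs hsM
    rw [hadj, h1, IntermediateField.finrank_bot] at h2
    omega
  have hb : b ≠ 0 := by
    rintro rfl
    apply hs'M a
    rw [hab, map_zero, zero_mul, add_zero]
  have ha : a = 0 := by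
    by_contra ha
    -- `s = (α' - a^2 - b^2 α) / (2 a b)`
    apply hsM (((α' : M) - a ^ 2 - b ^ 2 * α) / (2 * a * b))
    have hE : (algebraMap M E (2 * a * b)) ≠ 0 :=
      (_root_.map_ne_zero _).2 (mul_ne_zero (mul_ne_zero two_ne_zero ha) hb)
    rw [map_div₀, div_eq_iff hE]
    simp only [map_sub, map_mul, map_pow, map_ofNat, ← hs, ← hs']
    rw [hab]
    ring
  have hsq2 : (α' : M) = b ^ 2 * α := by
    apply hinj
    rw [← hs', hab, ha, map_zero, zero_add, map_mul, map_pow, ← hs]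
    ring
  obtain ⟨m, n, hn, hmn⟩ := IsFractionRing.div_surjective (A := 𝓞 M) b
  have hn0 : n ≠ 0 := nonZeroDivisors.ne_zero hn
  have hnM : (n : M) ≠ 0 := by
    rw [ne_eq, RingOfIntegers.coe_eq_zero_iff]; exact hn0
  have hm0 : m ≠ 0 := by
    rintro rfl
    apply hb
    rw [← hmn, map_zero, zero_div]
  have hrel : n ^ 2 * α' = m ^ 2 * α := by
    apply RingOfIntegers.coe_injective
    have h5 : b = (m : M) / n := hmn.symm
    rw [map_mul, map_mul, map_pow, map_pow]
    show (n : M) ^ 2 * (α' : M) = (m : M) ^ 2 * (α : M)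
    rw [hsq2, h5]
    field_simp
  obtain ⟨hr, hC⟩ := hrep C
  obtain ⟨hr', hC'⟩ := hrep C'
  have hr0 : rep C ≠ ⊥ := nonZeroDivisors.ne_zero hr
  have hr'0 : rep C' ≠ ⊥ := nonZeroDivisors.ne_zero hr'
  have h2 := uniq hm0 hn0 hr0 hr'0 hsq hsq' hI hI' hrel
  have hCC : C = C' := by
    rw [← hC, ← hC']
    rw [ClassGroup.mk0_eq_mk0_iff]
    exact ⟨m, n, hm0, hn0, h2.symm⟩
  refine ⟨hCC, ?_⟩
  subst hCC
  exact unit_of hn0 hr0 h2 hrel

theorem kumP : KumP := by
  intro M E _ _ _ _ _ rep hrep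
  exact ⟨fun L hL => part1 hrep L hL, fun C C' α α' s s' => part2 hrep C C' α α' s s',
    fun α s h hs => finrank_two h hs⟩

end Pool.Agent.TH914.J3087
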