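import Mathlib
import Pool.Agent.H84.L.A9_W5h46_MR_Defs
import Pool.Agent.H84.L.S8_TH263_J3086
import Pool.Agent.H84.L.S8_TH444_ML_Defs
import Pool.Agent.H84.L.S8_TH914_J3087



/-!
# JOB A2: ramification and discriminants of quadratic extensions
-/

set_option autoImplicit false

open NumberField

namespace Pool.Agent.W5h46.MR

section

variable {M N : Type} [Field M] [NumberField M] [Field N] [NumberField N] [Algebra M N]

/- the different of `N / M` -/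
noncomputable def dif (M N : Type) [Field M] [NumberField M] [Field N] [NumberField N]
    [Algebra M N] : Ideal (𝓞 N) := differentIdeal (𝓞 M) (𝓞 N)

lemma discr_eq : (discr N).natAbs = Ideal.absNorm (dif M N) *
    (discr M).natAbs ^ Module.finrank M N :=
  natAbs_discr_eq_absNorm_differentIdeal_mul_natAbs_discr_pow M (𝓞 M) N (𝓞 N)

lemma dif_ne : dif M N ≠ ⊥ := by
  intro h
  have h1 := discr_eq (M := M) (N := N)
  rw [h, Ideal.absNorm_bot, zero_mul, Int.natAbs_eq_zero] at h1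
  exact discr_ne_zero N h1

lemma absNorm_dif_le : (Ideal.absNorm (dif M N) : ℝ) ≤ ((|discr N| : ℤ) : ℝ) := by
  have h1 := discr_eq (M := M) (N := N)
  have h2 : 1 ≤ (discr M).natAbs := Int.natAbs_pos.2 (discr_ne_zero M)
  have h3 : Ideal.absNorm (dif M N) ≤ (discr N).natAbs := by
    rw [h1]
    exact Nat.le_mul_of_pos_right _ (Nat.pow_pos h2)
  calc (Ideal.absNorm (dif M N) : ℝ) ≤ ((discr N).natAbs : ℝ) := by exact_mod_cast h3
    _ = ((|discr N| : ℤ) : ℝ) := by rw [Nat.cast_natAbs]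

lemma pow_dvd_dif {p : Ideal (𝓞 M)} (hp : p.IsPrime) (hp0 : p ≠ ⊥) (P : Ideal (𝓞 N)) {e : ℕ}
    (he : e ≠ 0) (h : P ^ e ∣ p.map (algebraMap (𝓞 M) (𝓞 N))) : P ^ (e - 1) ∣ dif M N := by
  have : p.IsMaximal := hp.isMaximal hp0
  exact pow_sub_one_dvd_differentIdeal_aux (𝓞 M) M N P he hp0 h

omit [NumberField M] [NumberField N] in
lemma under_facts {P : Ideal (𝓞 N)} (hP : P.IsPrime) (hP0 : P ≠ ⊥) :
    (P.comap (algebraMap (𝓞 M) (𝓞 N))).IsPrime ∧ P.comap (algebraMap (𝓞 M) (𝓞 N)) ≠ ⊥ := by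
  refine ⟨Ideal.IsPrime.comap _, ?_⟩
  exact Ideal.under_ne_bot (𝓞 M) hP0

lemma key1 {𝔟 : Ideal (𝓞 M)} (h𝔟 : Squarefree 𝔟) {P : Ideal (𝓞 N)} (hP : P.IsPrime)
    (hP0 : P ≠ ⊥) {e : ℕ} (he : e ≠ 0) (h : P ^ e ∣ 𝔟.map (algebraMap (𝓞 M) (𝓞 N))) :
    P.comap (algebraMap (𝓞 M) (𝓞 N)) ∣ 𝔟 ∧
      P ^ e ∣ (P.comap (algebraMap (𝓞 M) (𝓞 N))).map (algebraMap (𝓞 M) (𝓞 N)) := by
  obtain ⟨hp, hp0⟩ := under_facts (M := M) hP hP0
  have hPp : Prime P := Ideal.prime_of_isPrime hP0 hP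
  set p := P.comap (algebraMap (𝓞 M) (𝓞 N)) with hpdef
  have hpp : Prime p := Ideal.prime_of_isPrime hp0 hp
  have h1 : p ∣ 𝔟 := by
    rw [Ideal.dvd_iff_le, hpdef, ← Ideal.map_le_iff_le_comap, ← Ideal.dvd_iff_le]
    exact (dvd_pow_self P he).trans h
  refine ⟨h1, ?_⟩
  obtain ⟨𝔟', rfl⟩ := h1
  have h2 : ¬ p ∣ 𝔟' := by
    rintro ⟨c, rfl⟩
    have := h𝔟 p ⟨c, by ring⟩
    exact hpp.not_isUnit this
  have h3 : ¬ P ∣ 𝔟'.map (algebraMap (𝓞 M) (𝓞 N)) := by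
    intro h3
    apply h2
    rw [Ideal.dvd_iff_le, hpdef, ← Ideal.map_le_iff_le_comap, ← Ideal.dvd_iff_le]
    exact h3
  rw [Ideal.map_mul] at h
  exact hPp.pow_dvd_of_dvd_mul_right e h3 h

/- `𝓞 M ∩ D` -/
noncomputable def rd (M N : Type) [Field M] [NumberField M] [Field N] [NumberField N]
    [Algebra M N] : Ideal (𝓞 M) := (dif M N).comap (algebraMap (𝓞 M) (𝓞 N))

lemma rd_ne : rd M N ≠ ⊥ := Ideal.under_ne_bot (𝓞 M) dif_ne

lemma absNorm_rd_le : (Ideal.absNorm (rd M N) : ℝ) ≤ Ideal.absNorm (dif M N) := by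
  have hfin : Finite (𝓞 N ⧸ dif M N) := Ideal.finiteQuotientOfFreeOfNeBot _ dif_ne
  have h : Ideal.absNorm (rd M N) ≤ Ideal.absNorm (dif M N) := by
    rw [Ideal.absNorm_apply, Ideal.absNorm_apply, Submodule.cardQuot_apply,
      Submodule.cardQuot_apply]
    exact Nat.card_le_card_of_injective _
      (Ideal.quotientMap_injective (I := dif M N) (f := algebraMap (𝓞 M) (𝓞 N)))
  exact_mod_cast h

omit [NumberField M] [NumberField N] in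
lemma map_ne {I : Ideal (𝓞 M)} (h : I ≠ ⊥) : I.map (algebraMap (𝓞 M) (𝓞 N)) ≠ ⊥ := by
  rw [Ne, Ideal.map_eq_bot_iff_of_injective (FaithfulSMul.algebraMap_injective (𝓞 M) (𝓞 N))]
  exact h

lemma absNorm_map (I : Ideal (𝓞 M)) :
    Ideal.absNorm (I.map (algebraMap (𝓞 M) (𝓞 N))) =
      Ideal.absNorm I ^ Module.finrank M N := by
  have h := Ideal.absNorm_algebraMap (R := 𝓞 M) (S := 𝓞 N) I
  rw [h, IsFractionRing.finrank_eq (𝓞 M) M (𝓞 N) N]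

omit [NumberField M] [Algebra M N] in
/- the discriminant of `N(s)`. -/
lemma disc_adjoin {k : Ideal (𝓞 N) → 𝓞 N → ℕ} (hk : Pool.Agent.TH444.ML.IsK N k)
    {E : Type} [Field E] [Algebra N E] (β : 𝓞 N) (s : E) (𝔡 𝔠 : Ideal (𝓞 N))
    (hβ : β ≠ 0) (hd : Squarefree 𝔡) (h : Ideal.span {β} = 𝔡 * 𝔠 ^ 2)
    (hs : s ^ 2 = algebraMap N E (β : N)) (hn : ∀ x : N, algebraMap N E x ≠ s)
    (hnf : NumberField (IntermediateField.adjoin N {s})) :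
    (discr (IntermediateField.adjoin N {s})).natAbs * (k 𝔠 β) ^ 2 =
      4 ^ Module.finrank ℚ N * (discr N).natAbs ^ 2 * Ideal.absNorm 𝔡 := by
  have h2 := Pool.Agent.TH914.J3087.finrank_two hs hn
  refine hk.disc (IntermediateField.adjoin N {s}) (IntermediateField.AdjoinSimple.gen N s) β 𝔡 𝔠
    h2 ?_ ?_ hβ hd h
  · apply Subtype.ext
    simpa using hs
  · intro x hx
    apply hn x
    have := congrArg (fun y : IntermediateField.adjoin N {s} => (y : E)) hx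
    simpa using this

omit [NumberField M] [Algebra M N] in
/- the discriminant of `N(s)` bounds the norm of the squarefree part of `α` in `N`. -/
lemma norm_sqf_le {E : Type} [Field E] [Algebra N E] (β : 𝓞 N) (s : E) (𝔡 𝔠 : Ideal (𝓞 N))
    (hβ : β ≠ 0) (hd : Squarefree 𝔡) (h : Ideal.span {β} = 𝔡 * 𝔠 ^ 2)
    (hs : s ^ 2 = algebraMap N E (β : N)) (hn : ∀ x : N, algebraMap N E x ≠ s) (Z : ℝ)
    (hZ : ∃ h : NumberField (IntermediateField.adjoin N {s}),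
      ((|@discr (IntermediateField.adjoin N {s}) _ h| : ℤ) : ℝ) ≤ Z * ((discr N : ℤ) : ℝ) ^ 2) :
    (Ideal.absNorm 𝔡 : ℝ) ≤ 4 ^ Module.finrank ℚ N * Z := by
  obtain ⟨k, hk⟩ := Pool.Agent.TH263.J3086.discQuad N
  obtain ⟨hnf, hle⟩ := hZ
  have h1 := disc_adjoin hk β s 𝔡 𝔠 hβ hd h hs hn hnf
  have hc : 𝔠 ≠ ⊥ := by
    rintro rfl
    rw [← Ideal.zero_eq_bot, zero_pow two_ne_zero, mul_zero, Ideal.zero_eq_bot,
      Ideal.span_singleton_eq_bot] at h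
    exact hβ h
  have h2 := hk.le 𝔠 β hc
  set q : ℝ := 4 ^ Module.finrank ℚ N with hq
  have hq0 : 0 < q := by positivity
  have h3 : (k 𝔠 β : ℝ) ≤ q := by
    rw [hq]
    exact_mod_cast h2
  set A : ℝ := ((|discr (IntermediateField.adjoin N {s})| : ℤ) : ℝ) with hA
  have hA0 : 0 ≤ A := by
    rw [hA]
    exact_mod_cast abs_nonneg _
  have h4 : A * (k 𝔠 β : ℝ) ^ 2 = q * ((discr N : ℤ) : ℝ) ^ 2 * (Ideal.absNorm 𝔡 : ℝ) := by
    have h5 := congrArg (fun x : ℕ => (x : ℝ)) h1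
    simp only [Nat.cast_mul, Nat.cast_pow, Nat.cast_natAbs, Nat.cast_ofNat] at h5
    rw [hA, hq, h5]
    congr 2
    rw [Int.cast_abs, sq_abs]
  have hd0 : 0 < ((discr N : ℤ) : ℝ) ^ 2 := by
    have : ((discr N : ℤ) : ℝ) ≠ 0 := by exact_mod_cast discr_ne_zero N
    positivity
  have h6 : A * (k 𝔠 β : ℝ) ^ 2 ≤ (Z * ((discr N : ℤ) : ℝ) ^ 2) * q ^ 2 := by
    apply mul_le_mul hle _ (by positivity) (hA0.trans hle)
    exact pow_le_pow_left₀ (Nat.cast_nonneg _) h3 2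
  rw [h4] at h6
  have h7 : (q * ((discr N : ℤ) : ℝ) ^ 2) * (Ideal.absNorm 𝔡 : ℝ) ≤
      (q * ((discr N : ℤ) : ℝ) ^ 2) * (q * Z) := by
    calc _ ≤ _ := h6
      _ = _ := by ring
  exact le_of_mul_le_mul_left h7 (by positivity)

theorem ramR : RamR := by
  intro M N _ _ _ _ _
  refine ⟨rd M N, rd_ne, absNorm_rd_le.trans absNorm_dif_le, ?_⟩
  intro E _ _ _ _ α s 𝔡 𝔠 hα hd h hs hn Y hY hdisc
  have hd0 : 𝔡 ≠ 0 := hd.ne_zero
  -- the greatest common divisor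
  obtain ⟨𝔟, h𝔟⟩ : (𝔡 ⊔ rd M N) ∣ 𝔡 := Ideal.dvd_iff_le.2 le_sup_left
  refine ⟨𝔡 ⊔ rd M N, 𝔟, h𝔟, Ideal.dvd_iff_le.2 le_sup_right, ?_⟩
  set 𝔯 := 𝔡 ⊔ rd M N with h𝔯
  have hsq𝔟 : Squarefree 𝔟 := hd.squarefree_of_dvd ⟨𝔯, by rw [h𝔟]; ring⟩
  have hcop : ∀ p : Ideal (𝓞 M), Prime p → p ∣ 𝔟 → ¬ p ∣ 𝔯 := by
    rintro p hp ⟨x, rfl⟩ ⟨y, hy⟩
    rw [hy] at h𝔟
    exact hp.not_isUnit (hd p ⟨y * x, by rw [h𝔟]; ring⟩)
  have hcop2 : ∀ p : Ideal (𝓞 M), Prime p → p ∣ 𝔟 → ¬ p ∣ rd M N := by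
    intro p hp h1 h2
    apply hcop p hp h1
    rw [Ideal.dvd_iff_le, h𝔯]
    refine sup_le (Ideal.dvd_iff_le.1 (h1.trans ⟨𝔯, by rw [h𝔟]; ring⟩)) (Ideal.dvd_iff_le.1 h2)
  -- the extension of `𝔟` is squarefree
  have key2 : ∀ P : Ideal (𝓞 N), P.IsPrime → P ≠ ⊥ →
      ¬ P ^ 2 ∣ 𝔟.map (algebraMap (𝓞 M) (𝓞 N)) := by
    intro P hP hP0 h2
    obtain ⟨hp, hp0⟩ := under_facts (M := M) hP hP0
    obtain ⟨h3, h4⟩ := key1 hsq𝔟 hP hP0 two_ne_zero h2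
    apply hcop2 _ (Ideal.prime_of_isPrime hp0 hp) h3
    have h5 := pow_dvd_dif hp hp0 P two_ne_zero h4
    rw [show 2 - 1 = 1 from rfl, pow_one] at h5
    rw [Ideal.dvd_iff_le]
    exact Ideal.comap_mono (Ideal.dvd_iff_le.1 h5)
  have key3 : ∀ P : Ideal (𝓞 N), P.IsPrime → P ≠ ⊥ →
      P ∣ 𝔟.map (algebraMap (𝓞 M) (𝓞 N)) → ¬ P ∣ 𝔯.map (algebraMap (𝓞 M) (𝓞 N)) := by
    intro P hP hP0 h2 h3
    obtain ⟨hp, hp0⟩ := under_facts (M := M) hP hP0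
    apply hcop _ (Ideal.prime_of_isPrime hp0 hp)
    · rw [Ideal.dvd_iff_le, ← Ideal.map_le_iff_le_comap, ← Ideal.dvd_iff_le]
      exact h2
    · rw [Ideal.dvd_iff_le, ← Ideal.map_le_iff_le_comap, ← Ideal.dvd_iff_le]
      exact h3
  obtain ⟨d1, e, hd1, he⟩ := Pool.Agent.TH914.J3087.exists_sqf
    (𝔡.map (algebraMap (𝓞 M) (𝓞 N))) (map_ne hd0)
  have hβ : algebraMap (𝓞 M) (𝓞 N) α ≠ 0 := by
    rw [Ne, FaithfulSMul.algebraMap_eq_zero_iff]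
    exact hα
  have hspan : Ideal.span {algebraMap (𝓞 M) (𝓞 N) α} =
      d1 * (e * 𝔠.map (algebraMap (𝓞 M) (𝓞 N))) ^ 2 := by
    rw [← Set.image_singleton, ← Ideal.map_span, h, Ideal.map_mul, Ideal.map_pow, he]
    ring
  have hβE : s ^ 2 = algebraMap N E ((algebraMap (𝓞 M) (𝓞 N) α : 𝓞 N) : N) := by
    rw [hs, IsScalarTower.algebraMap_apply M N E]
    rfl
  have h8 := norm_sqf_le (algebraMap (𝓞 M) (𝓞 N) α) s d1 _ hβ hd1 hspan hβE hn _ hdisc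
  -- `𝔟 O_N` divides `d1`
  have h9 : IsCoprime (𝔟.map (algebraMap (𝓞 M) (𝓞 N))) e := by
    rw [Ideal.isCoprime_iff_sup_eq]
    by_contra hcon
    obtain ⟨P, hPm, hP⟩ := Ideal.exists_le_maximal _ hcon
    have hPb : P ∣ 𝔟.map (algebraMap (𝓞 M) (𝓞 N)) := Ideal.dvd_iff_le.2 (le_sup_left.trans hP)
    have hPe : P ∣ e := Ideal.dvd_iff_le.2 (le_sup_right.trans hP)
    have hP0 : P ≠ ⊥ := by
      rintro rfl
      have := Ideal.dvd_iff_le.1 hPb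
      exact map_ne hsq𝔟.ne_zero (le_bot_iff.1 this)
    have hPp : Prime P := Ideal.prime_of_isPrime hP0 hPm.isPrime
    apply key2 P hPm.isPrime hP0
    apply hPp.pow_dvd_of_dvd_mul_left 2 (key3 P hPm.isPrime hP0 hPb)
    rw [← Ideal.map_mul, ← h𝔟, he]
    exact (pow_dvd_pow_of_dvd hPe 2).mul_left d1
  have h10 : 𝔟.map (algebraMap (𝓞 M) (𝓞 N)) ∣ d1 := by
    have : 𝔟.map (algebraMap (𝓞 M) (𝓞 N)) ∣ d1 * e ^ 2 := by
      rw [← he, h𝔟, Ideal.map_mul]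
      exact dvd_mul_left _ _
    exact (h9.pow_right).dvd_of_dvd_mul_right this
  have h11 : Ideal.absNorm (𝔟.map (algebraMap (𝓞 M) (𝓞 N))) ≤ Ideal.absNorm d1 := by
    apply Nat.le_of_dvd
    · exact Nat.pos_of_ne_zero (by rw [Ne, Ideal.absNorm_eq_zero_iff]; exact hd1.ne_zero)
    · exact map_dvd Ideal.absNorm h10
  rw [absNorm_map] at h11
  have h12 : (Ideal.absNorm 𝔟 : ℝ) ^ Module.finrank M N ≤
      (4 ^ Module.finrank ℚ M * Y) ^ Module.finrank M N := by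
    have h13 : ((Ideal.absNorm 𝔟 ^ Module.finrank M N : ℕ) : ℝ) ≤ Ideal.absNorm d1 := by
      exact_mod_cast h11
    rw [Nat.cast_pow] at h13
    refine h13.trans (h8.trans (le_of_eq ?_))
    rw [mul_pow, ← pow_mul, Module.finrank_mul_finrank]
  exact le_of_pow_le_pow_left₀ Module.finrank_pos.ne' (by positivity) h12

end

end Pool.Agent.W5h46.MR
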