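import Mathlib
import Pool.Agent.H84.L.A9_W5h46_MR_Defs
import Pool.Agent.H84.L.S8_TH444_ML_Defs
import Pool.Agent.H84.L.S8_TH626_J3090

namespace Pool.Agent.TH444.ML
end Pool.Agent.TH444.ML
namespace Pool.Agent.TH626.J3090
end Pool.Agent.TH626.J3090


/-!
# Quadratic extensions of `M`, ordered by the discriminant of their compositum with `N`:
the limit exists and is positive; comparison with the discriminant
-/

set_option autoImplicit false

open NumberField Filter Topology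
open Pool.Agent.TH444.ML Pool.Agent.TH626.J3090

namespace Pool.Agent.W5h46.MR

/- `F` is a number field with discriminant at most `B` -/
def DD (N E : Type) [Field N] [Field E] [Algebra N E] (F : IntermediateField N E) (B : ℝ) : Prop :=
  ∃ h : NumberField F, ((|@discr F _ h| : ℤ) : ℝ) ≤ B

theorem mem_QR {M N E : Type} [Field M] [Field N] [NumberField N] [Algebra M N] [Field E]
    [Algebra M E] [Algebra N E] {Y : ℝ} {L : IntermediateField M E} :
    L ∈ QR M N E Y ↔ Module.finrank M L = 2 ∧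
      Module.finrank N (IntermediateField.adjoin N (L : Set E)) = 2 ∧
      DD N E (IntermediateField.adjoin N (L : Set E))
        (Y ^ Module.finrank M N * ((discr N : ℤ) : ℝ) ^ 2) := Iff.rfl

theorem adjoin_adj {M N E : Type} [Field M] [Field N] [Algebra M N] [Field E]
    [Algebra M E] [Algebra N E] [IsScalarTower M N E] (s : E) :
    IntermediateField.adjoin N ((IntermediateField.adjoin M {s} : IntermediateField M E) : Set E) =
      IntermediateField.adjoin N {s} := by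
  apply le_antisymm
  · rw [IntermediateField.adjoin_le_iff]
    have : IntermediateField.adjoin M {s} ≤ (IntermediateField.adjoin N {s}).restrictScalars M := by
      rw [IntermediateField.adjoin_simple_le_iff]
      exact IntermediateField.mem_adjoin_simple_self N s
    exact this
  · apply IntermediateField.adjoin.mono
    simp

theorem finrank_two (h2 : KumP) {M N E : Type} [Field M] [NumberField M] [Field N] [NumberField N]
    [Algebra M N] [Field E] [Algebra M E] [Algebra N E] [IsScalarTower M N E] [IsAlgClosed E]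
    {β : 𝓞 M} {s : E} (hs : s ^ 2 = algebraMap M E (β : M)) (hns : ∀ x : N, algebraMap N E x ≠ s) :
    Module.finrank N (IntermediateField.adjoin N {s}) = 2 := by
  obtain ⟨rep, hrep⟩ := exists_rep N
  refine (h2 N E rep hrep).2.2 (algebraMap (𝓞 M) (𝓞 N) β) s ?_ hns
  rw [hs, IsScalarTower.algebraMap_apply M N E]
  rfl

/- the weights -/
structure Wt (M N : Type) [Field M] [NumberField M] [Field N] [NumberField N] [Algebra M N]
    (B : ℝ) (𝔠 𝔪 : Ideal (𝓞 M)) (g : 𝓞 M → ℝ) : Prop where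
  ne : 𝔪 ≠ ⊥
  congr : ∀ α α' : 𝓞 M, α - α' ∈ 𝔪 → g α = g α'
  ge : ∀ α : 𝓞 M, (Ideal.absNorm 𝔠 : ℝ) ^ 2 / 4 ^ Module.finrank ℚ M ≤ g α
  le : ∀ α : 𝓞 M, g α ≤ B * (Ideal.absNorm 𝔠 : ℝ) ^ 2
  disc : ∀ (E : Type) [Field E] [Algebra M E] [Algebra N E] [IsScalarTower M N E] (α : 𝓞 M)
    (s : E), Sqf M 𝔠 α → s ^ 2 = algebraMap M E (α : M) → (∀ x : N, algebraMap N E x ≠ s) →
    ∀ Y : ℝ, 0 ≤ Y → (DD N E (IntermediateField.adjoin N {s})
      (Y ^ Module.finrank M N * ((discr N : ℤ) : ℝ) ^ 2) ↔ nrm α ≤ Y * g α)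

theorem exists_wt (hA : WtR) (M N : Type) [Field M] [NumberField M] [Field N] [NumberField N]
    [Algebra M N] (rep : ClassGroup (𝓞 M) → Ideal (𝓞 M)) (hrep : Rep M rep) :
    ∃ B : ℝ, 0 < B ∧ ∃ (𝔪 : ClassGroup (𝓞 M) → Ideal (𝓞 M)) (g : ClassGroup (𝓞 M) → 𝓞 M → ℝ),
      ∀ C, Wt M N B (rep C) (𝔪 C) (g C) := by
  obtain ⟨B, hB, h⟩ := hA M N
  choose 𝔪 g h1 h2 h3 h4 using fun C => h (rep C) (rep_ne_bot hrep C)
  exact ⟨B, hB, 𝔪, g, fun C => ⟨h1 C, h2 C, fun α => (h3 C α).1, fun α => (h3 C α).2, h4 C⟩⟩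


section

set_option linter.unusedSectionVars false

variable {M N E : Type} [Field M] [NumberField M] [Field N] [NumberField N] [Algebra M N]
  [Field E] [Algebra M E] [Algebra N E] [IsScalarTower M N E] [IsAlgClosed E]

/- the discriminant condition -/
theorem mem_QR_iff (h2 : KumP) {B : ℝ} {𝔠 𝔪 : Ideal (𝓞 M)} {g : 𝓞 M → ℝ} (hw : Wt M N B 𝔠 𝔪 g)
    {β : 𝓞 M} (hS : Sqf M 𝔠 β) {s : E} (hs : s ^ 2 = algebraMap M E (β : M))
    (hns : ∀ x : N, algebraMap N E x ≠ s)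
    (hf : Module.finrank M (IntermediateField.adjoin M {s}) = 2) {Y : ℝ} (hY : 0 ≤ Y) :
    IntermediateField.adjoin M {s} ∈ QR M N E Y ↔ nrm β ≤ Y * g β := by
  rw [mem_QR, adjoin_adj (M := M) (N := N) s, hw.disc E β s hS hs hns Y hY]
  constructor
  · rintro ⟨-, -, h⟩
    exact h
  · intro h
    exact ⟨hf, finrank_two h2 hs hns, h⟩

/- a field in `QR` is not contained in `N` -/
theorem not_mem_of_QR {s : E} {Y : ℝ} (h : IntermediateField.adjoin M {s} ∈ QR M N E Y) :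
    ∀ x : N, algebraMap N E x ≠ s := by
  intro x hx
  rw [mem_QR, adjoin_adj (M := M) (N := N) s] at h
  have h1 : s ∈ (⊥ : IntermediateField N E) := IntermediateField.mem_bot.2 ⟨x, hx⟩
  have h3 : IntermediateField.adjoin N {s} = ⊥ := IntermediateField.adjoin_simple_eq_bot_iff.2 h1
  have h4 := h.2.1
  rw [h3, IntermediateField.finrank_bot] at h4
  omega

theorem not_sq_N {β : 𝓞 M} {s : E} (hs : s ^ 2 = algebraMap M E (β : M)) :
    (∀ x : N, algebraMap N E x ≠ s) ↔ ¬ IsSquare (algebraMap M N (β : M)) := by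
  constructor
  · rintro h ⟨y, hy⟩
    have h1 : s ^ 2 = (algebraMap N E y) ^ 2 := by
      rw [hs, IsScalarTower.algebraMap_apply M N E, hy, map_mul, pow_two]
    rcases sq_eq_sq_iff_eq_or_eq_neg.1 h1 with h2 | h2
    · exact h y h2.symm
    · exact h (-y) (by rw [map_neg, h2])
  · rintro h x hx
    apply h
    refine ⟨x, ?_⟩
    apply FaithfulSMul.algebraMap_injective N E
    rw [map_mul, hx, ← pow_two, hs, ← IsScalarTower.algebraMap_apply M N E]

theorem ns_M {s : E} (hns : ∀ x : N, algebraMap N E x ≠ s) : ∀ x : M, algebraMap M E x ≠ s := by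
  intro x hx
  exact hns (algebraMap M N x) (by rw [← IsScalarTower.algebraMap_apply M N E]; exact hx)

/- the sets that are counted -/
def T1 (rep : ClassGroup (𝓞 M) → Ideal (𝓞 M)) (g : ClassGroup (𝓞 M) → 𝓞 M → ℝ) (Y : ℝ)
    (p : P M) : Set (𝓞 M) :=
  {α | α ∈ cone M ∧ Sqf M (rep p.1) α ∧ nrm α ≤ Y * g p.1 ((rr p : 𝓞 M) * α)}

variable (N) in
/- the nonsquares -/
def T2 (rep : ClassGroup (𝓞 M) → Ideal (𝓞 M)) (g : ClassGroup (𝓞 M) → 𝓞 M → ℝ) (Y : ℝ)
    (p : P M) : Set (𝓞 M) :=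
  {α | α ∈ T1 rep g Y p ∧ ¬ IsSquare (algebraMap M N (((rr p : 𝓞 M) * α : 𝓞 M) : M))}

variable (N) in
/- the squares -/
def T3 (rep : ClassGroup (𝓞 M) → Ideal (𝓞 M)) (p : P M) : Set (𝓞 M) :=
  {α | α ∈ cone M ∧ Sqf M (rep p.1) α ∧ IsSquare (algebraMap M N (((rr p : 𝓞 M) * α : 𝓞 M) : M))}

/- every quadratic extension has bounded discriminant for some bound -/
theorem exists_Y {L : IntermediateField M E} (hL : Module.finrank M L = 2) :
    ∃ Y : ℝ, L ∈ QS M E Y := by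
  have hfin : FiniteDimensional M L := FiniteDimensional.of_finrank_pos (by omega)
  have hnf : NumberField L := NumberField.of_module_finite M _
  have hd : ((discr M : ℤ) : ℝ) ≠ 0 := by exact_mod_cast discr_ne_zero M
  refine ⟨((|discr L| : ℤ) : ℝ) / ((discr M : ℤ) : ℝ) ^ 2, hL, hnf, ?_⟩
  rw [div_mul_cancel₀ _ (pow_ne_zero 2 hd)]

variable (M N E) in
/- the subfields of `N` -/
theorem finite_sub : {L : IntermediateField M E | ∀ x ∈ L, ∃ y : N, algebraMap N E y = x}.Finite := by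
  have hMN : FiniteDimensional M N := Module.Finite.of_restrictScalars_finite ℚ M N
  let R : IntermediateField M E := (IsScalarTower.toAlgHom M N E).fieldRange
  have hR : FiniteDimensional M R := by
    have e : N ≃ₐ[M] R := AlgEquiv.ofInjectiveField (IsScalarTower.toAlgHom M N E)
    exact Module.Finite.equiv e.toLinearEquiv
  have hf : Finite (IntermediateField M R) := by
    apply Field.finite_intermediateField_of_exists_primitive_element
    exact Field.exists_primitive_element M R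
  have h1 : (Set.range (IntermediateField.lift : IntermediateField M R → IntermediateField M E)).Finite :=
    Set.finite_range _
  refine h1.subset ?_
  intro L hL
  have hLR : L ≤ R := by
    intro x hx
    obtain ⟨y, hy⟩ := hL x hx
    exact ⟨y, hy⟩
  exact ⟨IntermediateField.restrict hLR, IntermediateField.lift_restrict hLR⟩

theorem T1_finite (h3 : ConeFacts) {rep : ClassGroup (𝓞 M) → Ideal (𝓞 M)}
    {B : ℝ} {𝔪 : ClassGroup (𝓞 M) → Ideal (𝓞 M)} {g : ClassGroup (𝓞 M) → 𝓞 M → ℝ}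
    (hw : ∀ C, Wt M N B (rep C) (𝔪 C) (g C)) {Y : ℝ} (hY : 0 ≤ Y) (p : P M) :
    (T1 rep g Y p).Finite := by
  refine ((h3 M).1 (Y * (B * (Ideal.absNorm (rep p.1) : ℝ) ^ 2))).subset ?_
  rintro α ⟨h1, h2, hle⟩
  exact ⟨h1, hle.trans (mul_le_mul_of_nonneg_left ((hw p.1).le _) hY)⟩

/- the elements of `𝓞 M` which give a fixed quadratic extension -/
theorem fiber_finite (h2 : KumP) (h3 : ConeFacts) {rep : ClassGroup (𝓞 M) → Ideal (𝓞 M)}
    (hrep : Rep M rep) {k : Ideal (𝓞 M) → 𝓞 M → ℕ} (hk : IsK M k) (p : P M)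
    {L : IntermediateField M E} (hL : Module.finrank M L = 2) :
    {α : 𝓞 M | Sqf M (rep p.1) α ∧ α ∈ cone M ∧
      ¬ IsSquare (((rr p : 𝓞 M) * α : 𝓞 M) : M) ∧ fld E (p, α) = L}.Finite := by
  obtain ⟨Y, hY⟩ := exists_Y hL
  have h5 := fiber_card h2 h3 hrep hk hY
  have h6 : {x : P M × 𝓞 M | x.2 ∈ S2 rep k Y x.1 ∧ fld E x = L}.Finite :=
    Set.finite_of_ncard_pos (by rw [h5]; exact Units.torsionOrder_pos M)
  refine (h6.image Prod.snd).subset ?_
  rintro α ⟨hS, hc, hns, hf⟩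
  refine ⟨(p, α), ⟨⟨⟨hc, hS, ?_⟩, hns⟩, hf⟩, rfl⟩
  have hs := sr_sq E ((rr p : 𝓞 M) * α)
  have hns' := (notSq_iff hs).2 hns
  have h8 := (mem_QS_iff hk (rep_ne_bot hrep p.1) ((sqf_unit (rr p)).2 hS) hs hns'
    ((h2 M E rep hrep).2.2 _ _ hs hns') Y).1 (by
      simp only [fld] at hf
      rw [hf]
      exact hY)
  rw [nrm_unit] at h8
  exact h8

theorem T3_finite (E : Type) [Field E] [Algebra M E] [Algebra N E] [IsScalarTower M N E]
    [IsAlgClosed E] (h1 : DiscQuad) (h2 : KumP) (h3 : ConeFacts)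
    {rep : ClassGroup (𝓞 M) → Ideal (𝓞 M)} (hrep : Rep M rep) (p : P M) :
    (T3 N rep p).Finite := by
  obtain ⟨k, hk⟩ := h1 M
  have hA : (⋃ L ∈ {L : IntermediateField M E | ∀ x ∈ L, ∃ y : N, algebraMap N E y = x} ∩
      {L | Module.finrank M L = 2}, {α : 𝓞 M | Sqf M (rep p.1) α ∧ α ∈ cone M ∧
      ¬ IsSquare (((rr p : 𝓞 M) * α : 𝓞 M) : M) ∧ fld E (p, α) = L}).Finite :=
    ((finite_sub M N E).inter_of_left _).biUnion fun L hL => fiber_finite h2 h3 hrep hk p hL.2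
  refine ((S3_finite h3 hrep p).union hA).subset ?_
  rintro α ⟨hc, hS, hsq⟩
  by_cases hM : IsSquare (((rr p : 𝓞 M) * α : 𝓞 M) : M)
  · exact Or.inl ⟨hc, hS, hM⟩
  right
  have hs := sr_sq E ((rr p : 𝓞 M) * α)
  have hns := (notSq_iff hs).2 hM
  have hf : Module.finrank M (fld E (p, α)) = 2 := (h2 M E rep hrep).2.2 _ _ hs hns
  refine Set.mem_biUnion (x := fld E (p, α)) ⟨?_, hf⟩ ⟨hS, hc, hM, rfl⟩
  have h4 : ∃ y : N, algebraMap N E y = sr E ((rr p : 𝓞 M) * α) := by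
    by_contra h
    push Not at h
    exact (not_sq_N hs).1 h hsq
  obtain ⟨y, hy⟩ := h4
  have h5 : fld E (p, α) ≤ (IsScalarTower.toAlgHom M N E).fieldRange := by
    rw [fld, IntermediateField.adjoin_simple_le_iff]
    exact ⟨y, hy⟩
  intro x hx
  obtain ⟨z, hz⟩ := h5 hx
  exact ⟨z, hz⟩

theorem fld_mem_QR (h2 : KumP) {rep : ClassGroup (𝓞 M) → Ideal (𝓞 M)} (hrep : Rep M rep)
    {B : ℝ} {𝔪 : ClassGroup (𝓞 M) → Ideal (𝓞 M)} {g : ClassGroup (𝓞 M) → 𝓞 M → ℝ}
    (hw : ∀ C, Wt M N B (rep C) (𝔪 C) (g C)) {Y : ℝ} (hY : 0 ≤ Y) {x : P M × 𝓞 M}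
    (hx : x.2 ∈ T2 N rep g Y x.1) : fld E x ∈ QR M N E Y := by
  obtain ⟨⟨h1, hS, hle⟩, hns⟩ := hx
  have hs := sr_sq E ((rr x.1 : 𝓞 M) * x.2)
  have hns' := (not_sq_N (N := N) hs).2 hns
  rw [fld, mem_QR_iff h2 (hw x.1.1) ((sqf_unit (rr x.1)).2 hS) hs hns'
    ((h2 M E rep hrep).2.2 _ _ hs (ns_M hns')) hY, nrm_unit]
  exact hle

theorem fiberR_card (h1 : DiscQuad) (h2 : KumP) (h3 : ConeFacts)
    {rep : ClassGroup (𝓞 M) → Ideal (𝓞 M)} (hrep : Rep M rep)
    {B : ℝ} {𝔪 : ClassGroup (𝓞 M) → Ideal (𝓞 M)} {g : ClassGroup (𝓞 M) → 𝓞 M → ℝ}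
    (hw : ∀ C, Wt M N B (rep C) (𝔪 C) (g C)) {Y : ℝ} (hY : 0 ≤ Y)
    {L : IntermediateField M E} (hL : L ∈ QR M N E Y) :
    Set.ncard {x : P M × 𝓞 M | x.2 ∈ T2 N rep g Y x.1 ∧ fld E x = L} = Units.torsionOrder M := by
  obtain ⟨k, hk⟩ := h1 M
  obtain ⟨Z, hZ⟩ := exists_Y (M := M) (E := E) hL.1
  rw [← fiber_card h2 h3 hrep hk hZ]
  congr 1
  ext ⟨p, α⟩
  simp only [Set.mem_ofPred_eq]
  constructor
  · rintro ⟨⟨⟨hc, hS, -⟩, hns⟩, hf⟩
    have hs := sr_sq E ((rr p : 𝓞 M) * α)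
    have hnsM : ∀ x : M, algebraMap M E x ≠ sr E ((rr p : 𝓞 M) * α) :=
      ns_M ((not_sq_N (N := N) hs).2 hns)
    have h8 := (mem_QS_iff hk (rep_ne_bot hrep p.1) ((sqf_unit (rr p)).2 hS) hs hnsM
      ((h2 M E rep hrep).2.2 _ _ hs hnsM) Z).1 (by
        simp only [fld] at hf
        rw [hf]
        exact hZ)
    rw [nrm_unit] at h8
    exact ⟨⟨⟨hc, hS, h8⟩, (notSq_iff hs).1 hnsM⟩, hf⟩
  · rintro ⟨⟨⟨hc, hS, -⟩, hns⟩, hf⟩
    have hs := sr_sq E ((rr p : 𝓞 M) * α)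
    have hnsM := (notSq_iff hs).2 hns
    have hL' : IntermediateField.adjoin M {sr E ((rr p : 𝓞 M) * α)} ∈ QR M N E Y := by
      simp only [fld] at hf
      rw [hf]
      exact hL
    have hnsN := not_mem_of_QR hL'
    have h8 := (mem_QR_iff h2 (hw p.1) ((sqf_unit (rr p)).2 hS) hs hnsN
      ((h2 M E rep hrep).2.2 _ _ hs hnsM) hY).1 hL'
    rw [nrm_unit] at h8
    exact ⟨⟨⟨hc, hS, h8⟩, (not_sq_N hs).1 hnsN⟩, hf⟩

theorem countR (h1 : DiscQuad) (h2 : KumP) (h3 : ConeFacts)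
    {rep : ClassGroup (𝓞 M) → Ideal (𝓞 M)} (hrep : Rep M rep)
    {B : ℝ} {𝔪 : ClassGroup (𝓞 M) → Ideal (𝓞 M)} {g : ClassGroup (𝓞 M) → 𝓞 M → ℝ}
    (hw : ∀ C, Wt M N B (rep C) (𝔪 C) (g C)) [Fintype (P M)] {Y : ℝ} (hY : 0 ≤ Y) :
    (QR M N E Y).Finite ∧
      (QR M N E Y).ncard * Units.torsionOrder M = ∑ p : P M, (T2 N rep g Y p).ncard := by
  classical
  have hfin2 : ∀ p : P M, (T2 N rep g Y p).Finite := fun p =>
    (T1_finite h3 hw hY p).subset fun α h => h.1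
  have hT : {x : P M × 𝓞 M | x.2 ∈ T2 N rep g Y x.1}.Finite := by
    have : {x : P M × 𝓞 M | x.2 ∈ T2 N rep g Y x.1} =
        ⋃ p : P M, (Prod.mk p) '' (T2 N rep g Y p) := by
      ext ⟨p, α⟩
      simp
    rw [this]
    exact Set.finite_iUnion fun p => (hfin2 p).image _
  have himg : fld E '' {x : P M × 𝓞 M | x.2 ∈ T2 N rep g Y x.1} = QR M N E Y := by
    apply Set.Subset.antisymm
    · rintro _ ⟨x, hx, rfl⟩
      exact fld_mem_QR h2 hrep hw hY hx
    · intro L hL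
      have h5 := fiberR_card h1 h2 h3 hrep hw hY hL
      have hpos := Units.torsionOrder_pos M
      have h6 : {x : P M × 𝓞 M | x.2 ∈ T2 N rep g Y x.1 ∧ fld E x = L}.Nonempty :=
        Set.nonempty_of_ncard_ne_zero (by rw [h5]; omega)
      obtain ⟨x, hx1, hx2⟩ := h6
      exact ⟨x, hx1, hx2⟩
  have hQ : (QR M N E Y).Finite := by
    rw [← himg]
    exact hT.image _
  refine ⟨hQ, ?_⟩
  have e1 : hT.toFinset.card = ∑ L ∈ hQ.toFinset, (hT.toFinset.filter fun x => fld E x = L).card :=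
    Finset.card_eq_sum_card_fiberwise (by
      intro x hx
      rw [Set.Finite.coe_toFinset] at hx ⊢
      exact fld_mem_QR h2 hrep hw hY hx)
  have e2 : hT.toFinset.card = ∑ p : P M, (hT.toFinset.filter fun x => x.1 = p).card :=
    Finset.card_eq_sum_card_fiberwise (by
      intro x hx
      exact Finset.mem_coe.2 (Finset.mem_univ _))
  have e3 : ∀ L ∈ hQ.toFinset, (hT.toFinset.filter fun x => fld E x = L).card =
      Units.torsionOrder M := by
    intro L hL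
    rw [← fiberR_card h1 h2 h3 hrep hw hY (hQ.mem_toFinset.1 hL), ← Set.ncard_coe_finset]
    congr 1
    ext x
    simp
  have e4 : ∀ p : P M, (hT.toFinset.filter fun x => x.1 = p).card = (T2 N rep g Y p).ncard := by
    intro p
    rw [← Set.ncard_coe_finset, ← Set.ncard_image_of_injective (T2 N rep g Y p)
      (Prod.mk_right_injective p)]
    congr 1
    ext ⟨p', α⟩
    simp only [Finset.coe_filter, Set.Finite.mem_toFinset, Set.mem_ofPred_eq, Set.mem_image,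
      Prod.mk.injEq]
    constructor
    · rintro ⟨h7, rfl⟩
      exact ⟨α, h7, rfl, rfl⟩
    · rintro ⟨β, h7, rfl, rfl⟩
      exact ⟨h7, rfl⟩
  rw [Finset.sum_congr rfl e3, Finset.sum_const, smul_eq_mul, e2,
    Finset.sum_congr rfl fun p _ => e4 p] at e1
  rw [Set.ncard_eq_toFinset_card _ hQ, ← e1]

/- every `L` in `QR` comes from an `α` -/
theorem exists_alpha (h2 : KumP) {rep : ClassGroup (𝓞 M) → Ideal (𝓞 M)} (hrep : Rep M rep)
    {B : ℝ} {𝔪 : ClassGroup (𝓞 M) → Ideal (𝓞 M)} {g : ClassGroup (𝓞 M) → 𝓞 M → ℝ}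
    (hw : ∀ C, Wt M N B (rep C) (𝔪 C) (g C)) {Y : ℝ} (hY : 0 ≤ Y) {L : IntermediateField M E}
    (hL : L ∈ QR M N E Y) :
    ∃ (C : ClassGroup (𝓞 M)) (α : 𝓞 M) (s : E), Sqf M (rep C) α ∧
      s ^ 2 = algebraMap M E (α : M) ∧ (∀ x : M, algebraMap M E x ≠ s) ∧
      L = IntermediateField.adjoin M {s} ∧ nrm α ≤ Y * g C α := by
  obtain ⟨C, α, s, hS, hs, hns, rfl⟩ := (h2 M E rep hrep).1 L hL.1
  exact ⟨C, α, s, hS, hs, hns, rfl,
    (mem_QR_iff h2 (hw C) hS hs (not_mem_of_QR hL) hL.1 hY).1 hL⟩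

/- `QS` is contained in `QR` up to a finite set -/
theorem QS_sub (h1 : DiscQuad) (h2 : KumP) {rep : ClassGroup (𝓞 M) → Ideal (𝓞 M)}
    (hrep : Rep M rep) {B : ℝ} {𝔪 : ClassGroup (𝓞 M) → Ideal (𝓞 M)}
    {g : ClassGroup (𝓞 M) → 𝓞 M → ℝ} (hw : ∀ C, Wt M N B (rep C) (𝔪 C) (g C)) {Y : ℝ}
    (hY : 0 ≤ Y) :
    QS M E (Y / 64 ^ Module.finrank ℚ M) ⊆ QR M N E Y ∪
      {L : IntermediateField M E | ∀ x ∈ L, ∃ y : N, algebraMap N E y = x} := by
  intro L hL
  obtain ⟨k, hk⟩ := h1 M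
  obtain ⟨C, α, s, hS, hs, hns, rfl⟩ := (h2 M E rep hrep).1 L hL.1
  by_cases hN : ∀ x : N, algebraMap N E x ≠ s
  · left
    rw [mem_QR_iff h2 (hw C) hS hs hN hL.1 hY]
    have h5 := (mem_QS_iff hk (rep_ne_bot hrep C) hS hs hns hL.1 _).1 hL
    have h6 := wt_le hk (rep_ne_bot hrep C) α
    have h7 := (hw C).ge α
    have h8 : (0 : ℝ) ≤ Y / 64 ^ Module.finrank ℚ M := by positivity
    calc nrm α ≤ Y / 64 ^ Module.finrank ℚ M * wt k (rep C) α := h5
      _ ≤ Y / 64 ^ Module.finrank ℚ M *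
          ((4 ^ Module.finrank ℚ M) ^ 2 * (Ideal.absNorm (rep C) : ℝ) ^ 2) :=
        mul_le_mul_of_nonneg_left h6 h8
      _ = Y * ((Ideal.absNorm (rep C) : ℝ) ^ 2 / 4 ^ Module.finrank ℚ M) := by
        have : (64 : ℝ) ^ Module.finrank ℚ M = (4 ^ Module.finrank ℚ M) ^ 3 := by
          rw [← pow_mul, mul_comm, pow_mul]
          norm_num
        rw [this]
        have h4 : (4 : ℝ) ^ Module.finrank ℚ M ≠ 0 := by positivity
        field_simp
      _ ≤ Y * g C α := mul_le_mul_of_nonneg_left h7 hY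
  · right
    push Not at hN
    obtain ⟨y, hy⟩ := hN
    have h5 : IntermediateField.adjoin M {s} ≤ (IsScalarTower.toAlgHom M N E).fieldRange := by
      rw [IntermediateField.adjoin_simple_le_iff]
      exact ⟨y, hy⟩
    intro x hx
    obtain ⟨z, hz⟩ := h5 hx
    exact ⟨z, hz⟩

end

theorem compR (hA : WtR) (h1 : DiscQuad) (h2 : KumP) : CompR := by
  intro M N E _ _ _ _ _ _ _ _ _ _
  obtain ⟨rep, hrep⟩ := exists_rep M
  obtain ⟨B, hB, 𝔪, g, hw⟩ := exists_wt hA M N rep hrep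
  obtain ⟨k, hk⟩ := h1 M
  refine ⟨B * 4 ^ Module.finrank ℚ M, by positivity, ?_⟩
  intro Y hY L hL
  obtain ⟨C, α, s, hS, hs, hns, rfl, hle⟩ := exists_alpha h2 hrep hw hY hL
  rw [mem_QS_iff hk (rep_ne_bot hrep C) hS hs hns hL.1]
  have h6 := (hw C).le α
  have h7 : (Ideal.absNorm (rep C) : ℝ) ^ 2 ≤ 4 ^ Module.finrank ℚ M * wt k (rep C) α := by
    unfold wt
    have h8 : (1 : ℝ) ≤ k (rep C) α := by exact_mod_cast hk.pos (rep C) α (rep_ne_bot hrep C)
    have h9 : (1 : ℝ) ≤ (k (rep C) α : ℝ) ^ 2 := one_le_pow₀ h8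
    have h4 : (4 : ℝ) ^ Module.finrank ℚ M ≠ 0 := by positivity
    rw [mul_div_cancel₀ _ h4]
    nlinarith [sq_nonneg (Ideal.absNorm (rep C) : ℝ)]
  calc nrm α ≤ Y * g C α := hle
    _ ≤ Y * (B * (Ideal.absNorm (rep C) : ℝ) ^ 2) := mul_le_mul_of_nonneg_left h6 hY
    _ ≤ Y * (B * (4 ^ Module.finrank ℚ M * wt k (rep C) α)) := by gcongr
    _ = B * 4 ^ Module.finrank ℚ M * Y * wt k (rep C) α := by ring

theorem limR (hA : WtR) (h2 : KumP) (h3 : ConeFacts) (h4 : ConeSqf) (hl : QuadLim) (hp : QuadPos)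
    (_hu : QuadUnif) (h1 : DiscQuad) : LimR := by
  intro M N E _ _ _ _ _ _ _ _ _ _
  obtain ⟨rep, hrep⟩ := exists_rep M
  obtain ⟨B, hB, 𝔪, g, hw⟩ := exists_wt hA M N rep hrep
  have := finite_quot M
  have : Fintype (P M) := Fintype.ofFinite _
  have hlim : ∀ p : P M, ∃ c : ℝ, Tendsto (fun Y : ℝ => ((T1 rep g Y p).ncard : ℝ) / Y) atTop
      (𝓝 c) := by
    intro p
    refine h4 M (rep p.1) (𝔪 p.1) (rep_ne_bot hrep p.1) (hw p.1).ne
      (fun α => g p.1 ((rr p : 𝓞 M) * α)) ?_ (fun α => ?_)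
    · intro α α' h
      refine (hw p.1).congr _ _ ?_
      rw [← mul_sub]
      exact Ideal.mul_mem_left _ _ h
    · exact le_trans (by positivity) ((hw p.1).ge ((rr p : 𝓞 M) * α))
  have hlim2 : ∀ p : P M, ∃ c : ℝ, Tendsto (fun Y : ℝ => ((T2 N rep g Y p).ncard : ℝ) / Y) atTop
      (𝓝 c) := by
    intro p
    obtain ⟨c, hc⟩ := hlim p
    refine ⟨c, ?_⟩
    have h5 : Tendsto (fun Y : ℝ => (((T1 rep g Y p) ∩ (T3 N rep p)).ncard : ℝ) / Y) atTop
        (𝓝 0) := by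
      have h6 : Tendsto (fun Y : ℝ => ((T3 N rep p).ncard : ℝ) / Y) atTop (𝓝 0) :=
        tendsto_const_nhds.div_atTop tendsto_id
      refine squeeze_zero' ?_ ?_ h6
      · filter_upwards [eventually_gt_atTop (0 : ℝ)] with Y hY
        positivity
      · filter_upwards [eventually_gt_atTop (0 : ℝ)] with Y hY
        refine div_le_div_of_nonneg_right ?_ hY.le
        exact_mod_cast Set.ncard_le_ncard Set.inter_subset_right (T3_finite E h1 h2 h3 hrep p)
    have h7 := hc.sub h5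
    rw [sub_zero] at h7
    refine h7.congr' ?_
    filter_upwards [eventually_gt_atTop (0 : ℝ)] with Y hY
    rw [← sub_div]
    congr 1
    have hf := T1_finite h3 hw hY.le p
    have h8 : T2 N rep g Y p = T1 rep g Y p \ T3 N rep p := by
      ext α
      simp only [T2, T3, Set.mem_ofPred_eq, Set.mem_sdiff, not_and]
      constructor
      · rintro ⟨h9, h10⟩
        exact ⟨h9, fun _ _ => h10⟩
      · rintro ⟨h9, h10⟩
        exact ⟨h9, h10 h9.1 h9.2.1⟩
    have h11 := Set.ncard_inter_add_ncard_sdiff_eq_ncard (T1 rep g Y p) (T3 N rep p) hf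
    rw [h8, ← h11]
    push_cast
    ring
  choose c hc using hlim2
  have hsum := tendsto_finsetSum (Finset.univ : Finset (P M)) fun p _ => hc p
  have hW : (0 : ℝ) < Units.torsionOrder M := by exact_mod_cast Units.torsionOrder_pos M
  have hT : Tendsto (fun Y : ℝ => ((QR M N E Y).ncard : ℝ) / Y) atTop
      (𝓝 ((∑ p : P M, c p) / Units.torsionOrder M)) := by
    refine (hsum.div_const _).congr' ?_
    filter_upwards [eventually_gt_atTop (0 : ℝ)] with Y hY
    have h12 := (countR (E := E) h1 h2 h3 hrep hw hY.le).2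
    have h13 : ((QR M N E Y).ncard : ℝ) * Units.torsionOrder M =
        ∑ p : P M, ((T2 N rep g Y p).ncard : ℝ) := by exact_mod_cast h12
    rw [← Finset.sum_div, ← h13]
    field_simp
  refine ⟨_, ?_, hT⟩
  -- positivity
  obtain ⟨c', hc'⟩ := hl M E
  have hc0 : 0 ≤ c' := by
    refine ge_of_tendsto hc' ?_
    filter_upwards [eventually_gt_atTop (0 : ℝ)] with Y hY
    positivity
  have hc1 : c' ≠ 0 := by
    rintro rfl
    exact hp M E hc'
  have hcpos : 0 < c' := lt_of_le_of_ne hc0 hc1.symm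
  set K : ℝ := 64 ^ Module.finrank ℚ M with hK
  have hKpos : 0 < K := by positivity
  have h5 : Tendsto (fun Y : ℝ => ((QS M E (Y / K)).ncard : ℝ) / Y) atTop (𝓝 (c' / K)) := by
    have h6 : Tendsto (fun Y : ℝ => Y / K) atTop atTop := tendsto_id.atTop_div_const hKpos
    refine ((hc'.comp h6).div_const K).congr' ?_
    filter_upwards [eventually_gt_atTop (0 : ℝ)] with Y hY
    simp only [Function.comp_apply]
    field_simp
  have hF := finite_sub M N E
  have h6 : Tendsto (fun Y : ℝ =>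
      (({L : IntermediateField M E | ∀ x ∈ L, ∃ y : N, algebraMap N E y = x}.ncard : ℝ)) / Y)
      atTop (𝓝 0) := tendsto_const_nhds.div_atTop tendsto_id
  have h7 := h5.sub h6
  rw [sub_zero] at h7
  refine lt_of_lt_of_le (div_pos hcpos hKpos) (le_of_tendsto_of_tendsto h7 hT ?_)
  filter_upwards [eventually_gt_atTop (0 : ℝ)] with Y hY
  rw [← sub_div]
  refine div_le_div_of_nonneg_right ?_ hY.le
  have h8 := (countR (E := E) h1 h2 h3 hrep hw hY.le).1
  have h9 : (QS M E (Y / K)).ncard ≤ (QR M N E Y ∪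
      {L : IntermediateField M E | ∀ x ∈ L, ∃ y : N, algebraMap N E y = x}).ncard :=
    Set.ncard_le_ncard (QS_sub h1 h2 hrep hw hY.le) (h8.union hF)
  have h10 := Set.ncard_union_le (QR M N E Y)
    {L : IntermediateField M E | ∀ x ∈ L, ∃ y : N, algebraMap N E y = x}
  have h11 : ((QS M E (Y / K)).ncard : ℝ) ≤ (QR M N E Y).ncard +
      ({L : IntermediateField M E | ∀ x ∈ L, ∃ y : N, algebraMap N E y = x}.ncard : ℝ) := by
    exact_mod_cast h9.trans h10
  linarith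

end Pool.Agent.W5h46.MR
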