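import Mathlib



/-!
Abstract continuation lemma: a homogeneous, Lipschitz-at-infinity family over `ι → ℤ`
has a Dirichlet-type series which continues across `Re s = 1` (trick: compare `a` with `m a + η`
for `m = 2, 3`).
-/

set_option autoImplicit false
open Filter Topology Complex

namespace Pool.Agent.H484R2.Cont

section summ

variable {ι : Type} [Fintype ι]

lemma summable_norm_rpow_pi {r : ℝ} (hr : (Fintype.card ι : ℝ) < r) :
    Summable fun a : ι → ℤ => ‖a‖ ^ (-r) := by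
  classical
  let L : Submodule ℤ (ι → ℝ) := Submodule.span ℤ (Set.range (Pi.basisFun ℝ ι))
  let b : Module.Basis ι ℤ L := (Pi.basisFun ℝ ι).restrictScalars ℤ
  have hfin : Module.finrank ℤ L = Fintype.card ι := Module.finrank_eq_card_basis b
  have h := ZLattice.summable_norm_rpow L (-r) (by rw [hfin]; linarith)
  have h2 := (b.equivFun.symm.toEquiv.summable_iff (f := fun z : L => ‖z‖ ^ (-r))).mpr h
  refine h2.congr fun a => ?_
  simp only [Function.comp_apply]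
  congr 1
  have : ((b.equivFun.symm a : L) : ι → ℝ) = fun i => (a i : ℝ) := by
    rw [Module.Basis.equivFun_symm_apply]
    ext i
    have hb : ∀ x, ((b x : L) : ι → ℝ) = Pi.basisFun ℝ ι x := fun x =>
      Module.Basis.restrictScalars_apply _ _ _
    simp [Finset.sum_apply, hb, Pi.single_apply]
  change ‖((b.equivFun.symm a : L) : ι → ℝ)‖ = ‖a‖
  rw [this]
  simp only [Pi.norm_def]
  congr 1
  
end summ

set_option linter.unusedSectionVars false

lemma one_le_norm {ι : Type} [Fintype ι] {a : ι → ℤ} (ha : a ≠ 0) : 1 ≤ ‖a‖ := by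
  obtain ⟨i, hi⟩ := Function.ne_iff.mp ha
  have h1 : ‖a i‖ ≤ ‖a‖ := norm_le_pi_norm a i
  have h2 : (1 : ℝ) ≤ ‖a i‖ := by
    rw [Int.norm_eq_abs]
    exact_mod_cast Int.one_le_abs (by simpa using hi)
  exact h2.trans h1

section main

variable {ι : Type} [Fintype ι] [DecidableEq ι]

/- digits -/
def dig (m : ℕ) (η : ι → Fin m) : ι → ℤ := fun i => (η i : ℕ)


structure Data (ι : Type) [Fintype ι] (g : (ι → ℤ) → ℂ → ℂ) : Prop where
  card_pos : 0 < Fintype.card ι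
  han : ∀ a, Differentiable ℂ (g a)
  h0 : ∀ s, g 0 s = 0
  hhom : ∀ m : ℕ, 1 ≤ m → ∀ a s, g ((m : ℤ) • a) s = (m : ℂ) ^ (-((Fintype.card ι : ℂ) * s)) * g a s
  hb : ∀ R : ℝ, 0 < R → ∃ C : ℝ, 0 ≤ C ∧ ∀ s : ℂ, ‖s‖ ≤ R → 0 ≤ s.re → ∀ a : ι → ℤ, a ≠ 0 →
    ‖g a s‖ ≤ C * ‖a‖ ^ (-((Fintype.card ι : ℝ) * s.re))
  hlip : ∀ m : ℕ, 1 ≤ m → ∀ R : ℝ, 0 < R → ∃ C : ℝ, 0 ≤ C ∧ ∀ s : ℂ, ‖s‖ ≤ R → 0 ≤ s.re →
    ∀ a : ι → ℤ, a ≠ 0 → ∀ η : ι → Fin m,
    ‖g ((m : ℤ) • a + dig m η) s - g ((m : ℤ) • a) s‖ ≤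
      C * ‖a‖ ^ (-((Fintype.card ι : ℝ) * s.re + 1))

variable {g : (ι → ℤ) → ℂ → ℂ}


lemma Data.summable (D : Data ι g) {s : ℂ} (hs : 1 < s.re) : Summable fun a => g a s := by
  obtain ⟨C, hC0, hC⟩ := D.hb (‖s‖ + 1) (by positivity)
  have hn : (1 : ℝ) ≤ Fintype.card ι := by exact_mod_cast D.card_pos
  have hsum := (summable_norm_rpow_pi (ι := ι) (r := Fintype.card ι * s.re)
    (by nlinarith)).mul_left C
  refine Summable.of_norm_bounded hsum fun a => ?_
  by_cases ha : a = 0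
  · subst ha
    rw [D.h0, norm_zero]
    positivity
  · exact hC s (by linarith) (by linarith) a ha


end main

end Pool.Agent.H484R2.Cont
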