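import Mathlib
import Pool.Agent.H84.L.S8_H484R2_Cont
import Pool.Agent.H84.L.S8_H484R2_Inst
import Pool.Agent.H84.L.S8_H484R2_Inst2
import Pool.Agent.H84.L.S8_H484R2_Zeta
import Pool.Agent.H84.L.S8_TH444_ML_Defs

namespace Pool.Agent.TH444.ML
end Pool.Agent.TH444.ML


set_option autoImplicit false

open NumberField Filter Topology

namespace Pool.Agent.TH858.J3094

open Pool.Agent.TH444.ML

lemma aux (D a Z q : ℝ) (hD : 0 < D) (ha : 0 < a) (hZ : 0 < Z) :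
    Z⁻¹ + D / a * (q / (D * Z / a)) = (1 + q) / Z := by
  field_simp

section dec

variable (M : Type) [Field M] [NumberField M]

abbrev NZ := {I : Ideal (𝓞 M) // I ≠ ⊥}

lemma summable_norm {s : ℝ} (hs : 1 < s) :
    Summable (fun I : NZ M => (Ideal.absNorm I.1 : ℝ) ^ (-s)) := by
  have h := (Pool.Agent.H484R2.hasSum_ideals M (s := (s : ℂ)) (by simpa using hs)).summable
  have h2 := Complex.reCLM.summable h
  refine h2.congr fun I => ?_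
  have h3 : (0 : ℝ) ≤ (Ideal.absNorm I.1 : ℝ) := Nat.cast_nonneg _
  have h4 : ((Ideal.absNorm I.1 : ℂ)) ^ (-(s : ℂ)) = (((Ideal.absNorm I.1 : ℝ) ^ (-s) : ℝ) : ℂ) := by
    rw [Complex.ofReal_cpow h3]
    push_cast
    rfl
  rw [h4]
  simp

lemma norm_pos (I : NZ M) : (1 : ℝ) ≤ (Ideal.absNorm I.1 : ℝ) := by
  have h : Ideal.absNorm I.1 ≠ 0 := by
    rw [Ne, Ideal.absNorm_eq_zero_iff]; exact I.2
  exact_mod_cast Nat.one_le_iff_ne_zero.mpr h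

lemma summable_inv_sq :
    Summable (fun I : NZ M => 1 / (Ideal.absNorm I.1 : ℝ) ^ 2) := by
  refine (summable_norm M (s := 2) (by norm_num)).congr fun I => ?_
  have h3 : (0 : ℝ) ≤ (Ideal.absNorm I.1 : ℝ) := Nat.cast_nonneg _
  rw [Real.rpow_neg h3, one_div]
  norm_num

variable {M}

lemma exists_dec (I : Ideal (𝓞 M)) (hI : I ≠ ⊥) :
    ∃ 𝔡 𝔢 : Ideal (𝓞 M), Squarefree 𝔡 ∧ 𝔢 ≠ ⊥ ∧ I = 𝔡 * 𝔢 ^ 2 := by
  induction I using WfDvdMonoid.induction_on_irreducible with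
  | zero => exact absurd rfl hI
  | unit u hu =>
    refine ⟨1, 1, squarefree_one, by rw [Ideal.one_eq_top]; exact top_ne_bot, ?_⟩
    rw [one_mul, one_pow, Ideal.one_eq_top]
    exact Ideal.isUnit_iff.mp hu
  | mul z p hz hp ih =>
    obtain ⟨𝔡, 𝔢, h1, h2, h3⟩ := ih hz
    have hp0 : p ≠ ⊥ := hp.ne_zero
    by_cases hd : p ∣ 𝔡
    · obtain ⟨𝔡', rfl⟩ := hd
      refine ⟨𝔡', p * 𝔢, h1.squarefree_of_dvd (dvd_mul_left _ _), mul_ne_zero hp0 h2, ?_⟩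
      rw [h3]; ring
    · refine ⟨p * 𝔡, 𝔢, ?_, h2, ?_⟩
      · exact squarefree_mul_iff.mpr ⟨hp.isRelPrime_iff_not_dvd.mpr hd, hp.squarefree, h1⟩
      · rw [h3]; ring

end dec

section main

variable (M E : Type) [Field M] [NumberField M] [Field E] [Algebra M E] [IsAlgClosed E]

/- ideals counted with a nonsquare generator -/
def S2 (𝔢 : NZ M) (Z : ℝ) : Set (Ideal (𝓞 M)) :=
  {I | (Ideal.absNorm I : ℝ) ≤ Z ∧ ∃ (α : 𝓞 M) (s : E) (𝔡 : Ideal (𝓞 M)), I = Ideal.span {α} ∧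
    α ≠ 0 ∧ Squarefree 𝔡 ∧ I = 𝔡 * 𝔢.1 ^ 2 ∧ s ^ 2 = algebraMap M E (α : M) ∧
    ∀ x : M, algebraMap M E x ≠ s}

lemma exists_rep (𝔢 : NZ M) : ∃ (rep : ClassGroup (𝓞 M) → Ideal (𝓞 M)) (C : ClassGroup (𝓞 M)),
    Rep M rep ∧ rep C = 𝔢.1 := by
  classical
  have h0 : ∀ C : ClassGroup (𝓞 M), ∃ J : nonZeroDivisors (Ideal (𝓞 M)), ClassGroup.mk0 J = C :=
    fun C => ClassGroup.mk0_surjective C
  choose f hf using h0
  have he : 𝔢.1 ∈ nonZeroDivisors (Ideal (𝓞 M)) := mem_nonZeroDivisors_of_ne_zero 𝔢.2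
  refine ⟨Function.update (fun C => (f C).1) (ClassGroup.mk0 ⟨𝔢.1, he⟩) 𝔢.1,
    ClassGroup.mk0 ⟨𝔢.1, he⟩, ?_, by simp⟩
  intro C
  by_cases hC : C = ClassGroup.mk0 ⟨𝔢.1, he⟩
  · subst hC
    refine ⟨?_, ?_⟩
    · rw [Function.update_self]; exact he
    · simp
  · refine ⟨?_, ?_⟩
    · rw [Function.update_of_ne hC]; exact (f C).2
    · have : (⟨Function.update (fun C => ((f C).1 : Ideal (𝓞 M))) (ClassGroup.mk0 ⟨𝔢.1, he⟩) 𝔢.1 C, by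
          rw [Function.update_of_ne hC]; exact (f C).2⟩ : nonZeroDivisors (Ideal (𝓞 M))) = f C := by
        apply Subtype.ext
        show Function.update (fun C => ((f C).1 : Ideal (𝓞 M))) (ClassGroup.mk0 ⟨𝔢.1, he⟩) 𝔢.1 C = _
        rw [Function.update_of_ne hC]
      rw [this, hf]

lemma disc_le (h1 : DiscQuad) (h2 : KumP) (𝔢 : NZ M) (Z : ℝ) (α : 𝓞 M) (s : E) (𝔡 : Ideal (𝓞 M))
    (hZ : (Ideal.absNorm (Ideal.span {α} : Ideal (𝓞 M)) : ℝ) ≤ Z)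
    (hα : α ≠ 0) (hsq : Squarefree 𝔡) (hI : Ideal.span {α} = 𝔡 * 𝔢.1 ^ 2)
    (hs : s ^ 2 = algebraMap M E (α : M)) (hns : ∀ x : M, algebraMap M E x ≠ s) :
    IntermediateField.adjoin M {s} ∈
      QS M E (4 ^ Module.finrank ℚ M * Z / (Ideal.absNorm 𝔢.1 : ℝ) ^ 2) := by
  obtain ⟨rep, C, hrep, hC⟩ := exists_rep M 𝔢
  obtain ⟨k1, k2, k3⟩ := h2 M E rep hrep
  have hfin := k3 (α : 𝓞 M) s hs hns
  refine ⟨hfin, ?_⟩
  set L := IntermediateField.adjoin M {s} with hL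
  have hE : CharZero E := charZero_of_injective_algebraMap (algebraMap M E).injective
  have : FiniteDimensional M L := Module.finite_of_finrank_pos (by rw [hfin]; norm_num)
  have : CharZero L := charZero_of_injective_algebraMap (algebraMap M L).injective
  have : IsScalarTower ℚ M L := IsScalarTower.rat
  have : FiniteDimensional ℚ L := FiniteDimensional.trans ℚ M L
  have hnf : NumberField L := { to_charZero := inferInstance, to_finiteDimensional := inferInstance }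
  refine ⟨hnf, ?_⟩
  obtain ⟨k, hk⟩ := h1 M
  have hmem : s ∈ L := IntermediateField.mem_adjoin_simple_self M s
  have hd := hk.disc L ⟨s, hmem⟩ α 𝔡 𝔢.1 hfin (by
    apply Subtype.ext
    simpa using hs) (by
    intro x hx
    exact hns x (by simpa using congrArg Subtype.val hx)) hα hsq hI
  have hkp := hk.pos 𝔢.1 α 𝔢.2
  have hN : (Ideal.absNorm (Ideal.span {α} : Ideal (𝓞 M)) : ℝ) =
      (Ideal.absNorm 𝔡 : ℝ) * (Ideal.absNorm 𝔢.1 : ℝ) ^ 2 := by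
    rw [hI, map_mul, map_pow]
    push_cast
    ring
  have he : (0 : ℝ) < (Ideal.absNorm 𝔢.1 : ℝ) ^ 2 := by
    have := norm_pos M 𝔢
    positivity
  have hd1 : (Ideal.absNorm 𝔡 : ℝ) ≤ Z / (Ideal.absNorm 𝔢.1 : ℝ) ^ 2 := by
    rw [le_div_iff₀ he, ← hN]
    exact hZ
  have hdR : (((discr L).natAbs : ℕ) : ℝ) * ((k 𝔢.1 α : ℕ) : ℝ) ^ 2 =
      4 ^ Module.finrank ℚ M * (((discr M).natAbs : ℕ) : ℝ) ^ 2 * (Ideal.absNorm 𝔡 : ℝ) := by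
    exact_mod_cast hd
  have hk1 : (1 : ℝ) ≤ ((k 𝔢.1 α : ℕ) : ℝ) ^ 2 := by
    have : (1 : ℝ) ≤ ((k 𝔢.1 α : ℕ) : ℝ) := by exact_mod_cast hkp
    nlinarith
  have hl : ((|discr L| : ℤ) : ℝ) = (((discr L).natAbs : ℕ) : ℝ) := by
    rw [Int.abs_eq_natAbs]
    simp
  have hm : ((discr M : ℤ) : ℝ) ^ 2 = (((discr M).natAbs : ℕ) : ℝ) ^ 2 := by
    rw [Nat.cast_natAbs, Int.cast_abs, sq_abs]
  rw [hl, hm]
  calc (((discr L).natAbs : ℕ) : ℝ) ≤ (((discr L).natAbs : ℕ) : ℝ) * ((k 𝔢.1 α : ℕ) : ℝ) ^ 2 := by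
        have : (0 : ℝ) ≤ (((discr L).natAbs : ℕ) : ℝ) := Nat.cast_nonneg _
        nlinarith
    _ = 4 ^ Module.finrank ℚ M * (((discr M).natAbs : ℕ) : ℝ) ^ 2 * (Ideal.absNorm 𝔡 : ℝ) := hdR
    _ ≤ 4 ^ Module.finrank ℚ M * (((discr M).natAbs : ℕ) : ℝ) ^ 2 *
        (Z / (Ideal.absNorm 𝔢.1 : ℝ) ^ 2) := by gcongr
    _ = _ := by ring

lemma S2_card (h1 : DiscQuad) (h2 : KumP) (h3 : QuadUnif) (𝔢 : NZ M) (Z : ℝ) (hZ : 0 ≤ Z) :
    (S2 M E 𝔢 Z).ncard ≤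
      (QS M E (4 ^ Module.finrank ℚ M * Z / (Ideal.absNorm 𝔢.1 : ℝ) ^ 2)).ncard := by
  classical
  have hex : ∀ I : Ideal (𝓞 M), ∃ p : 𝓞 M × E × Ideal (𝓞 M), I ∈ S2 M E 𝔢 Z →
      I = Ideal.span {p.1} ∧ p.1 ≠ 0 ∧ Squarefree p.2.2 ∧ I = p.2.2 * 𝔢.1 ^ 2 ∧
      p.2.1 ^ 2 = algebraMap M E (p.1 : M) ∧ ∀ x : M, algebraMap M E x ≠ p.2.1 := by
    intro I
    by_cases hI : I ∈ S2 M E 𝔢 Z
    · obtain ⟨_, α, s, 𝔡, h⟩ := hI
      exact ⟨(α, s, 𝔡), fun _ => h⟩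
    · exact ⟨(0, 0, ⊥), fun h => absurd h hI⟩
  choose p hp using hex
  obtain ⟨C0, hC0⟩ := h3 (Module.finrank ℚ M)
  have hfin : (QS M E (4 ^ Module.finrank ℚ M * Z / (Ideal.absNorm 𝔢.1 : ℝ) ^ 2)).Finite :=
    (hC0 M E rfl _ (by positivity)).1
  refine Set.ncard_le_ncard_of_injOn (fun I => IntermediateField.adjoin M {(p I).2.1}) ?_ ?_ hfin
  · intro I hI
    obtain ⟨a1, a2, a3, a4, a5, a6⟩ := hp I hI
    refine disc_le M E h1 h2 𝔢 Z (p I).1 (p I).2.1 (p I).2.2 ?_ a2 a3 ?_ a5 a6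
    · rw [← a1]; exact hI.1
    · rw [← a1]; exact a4
  · intro I hI I' hI' hII
    obtain ⟨a1, a2, a3, a4, a5, a6⟩ := hp I hI
    obtain ⟨b1, b2, b3, b4, b5, b6⟩ := hp I' hI'
    obtain ⟨rep, C, hrep, hC⟩ := exists_rep M 𝔢
    obtain ⟨k1, k2, k3⟩ := h2 M E rep hrep
    obtain ⟨_, u, hu⟩ := k2 C C (p I).1 (p I').1 (p I).2.1 (p I').2.1
      ⟨a2, (p I).2.2, a3, by rw [hC, ← a1]; exact a4⟩
      ⟨b2, (p I').2.2, b3, by rw [hC, ← b1]; exact b4⟩ a5 b5 a6 hII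
    rw [a1, b1, hu, mul_comm]
    symm
    rw [Ideal.span_singleton_mul_right_unit ((Units.isUnit u).pow 2)]

/- nonzero principal ideals of norm at most `Z` -/
def PZ (Z : ℝ) : Set (Ideal (𝓞 M)) :=
  {I | I ≠ ⊥ ∧ (∃ x, I = Ideal.span {x}) ∧ (Ideal.absNorm I : ℝ) ≤ Z}

lemma T_fin (Z : ℝ) : {𝔢 : NZ M | (Ideal.absNorm 𝔢.1 : ℝ) ^ 2 ≤ Z}.Finite := by
  have h := Ideal.finite_setOfPred_absNorm_le (S := 𝓞 M) ⌊Z⌋₊
  refine Set.Finite.of_finite_image (f := Subtype.val) (h.subset ?_) Subtype.val_injective.injOn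
  rintro _ ⟨𝔢, he, rfl⟩
  show Ideal.absNorm 𝔢.1 ≤ ⌊Z⌋₊
  apply Nat.le_floor
  have h1 := norm_pos M 𝔢
  have h2 : (Ideal.absNorm 𝔢.1 : ℝ) ^ 2 ≤ Z := he
  nlinarith

lemma PZ_sub (Z : ℝ) : PZ M Z ⊆ ⋃ 𝔢 ∈ (T_fin M Z).toFinset, ({𝔢.1 ^ 2} ∪ S2 M E 𝔢 Z) := by
  rintro I ⟨hI0, ⟨α, hα⟩, hN⟩
  have hα0 : α ≠ 0 := by
    rintro rfl
    apply hI0
    rw [hα]; simp
  obtain ⟨𝔡, 𝔢, hd, he, hde⟩ := exists_dec I hI0
  obtain ⟨s, hs⟩ := IsAlgClosed.exists_pow_nat_eq (algebraMap M E (α : M)) (n := 2) (by norm_num)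
  rw [Set.mem_iUnion₂]
  by_cases hns : ∀ x : M, algebraMap M E x ≠ s
  · refine ⟨⟨𝔢, he⟩, ?_, Or.inr ⟨hN, α, s, 𝔡, hα, hα0, hd, hde, hs, hns⟩⟩
    rw [Set.Finite.mem_toFinset]
    show (Ideal.absNorm 𝔢 : ℝ) ^ 2 ≤ Z
    have h1 : (Ideal.absNorm I : ℝ) = (Ideal.absNorm 𝔡 : ℝ) * (Ideal.absNorm 𝔢 : ℝ) ^ 2 := by
      rw [hde, map_mul, map_pow]; push_cast; ring
    have h2 : (1 : ℝ) ≤ (Ideal.absNorm 𝔡 : ℝ) := norm_pos M ⟨𝔡, hd.ne_zero⟩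
    have h3 : (0 : ℝ) ≤ (Ideal.absNorm 𝔢 : ℝ) ^ 2 := by positivity
    nlinarith
  · push Not at hns
    obtain ⟨x, hx⟩ := hns
    have hx2 : x ^ 2 = (α : M) := by
      apply (algebraMap M E).injective
      rw [map_pow, hx, hs]
    have hint : IsIntegral ℤ x := by
      refine IsIntegral.of_pow (n := 2) (by norm_num) ?_
      rw [hx2]; exact α.2
    set β : 𝓞 M := ⟨x, hint⟩ with hβ
    have hβ2 : β ^ 2 = α := by
      apply RingOfIntegers.ext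
      show ((β ^ 2 : 𝓞 M) : M) = _
      rw [show ((β ^ 2 : 𝓞 M) : M) = (β : M) ^ 2 from by simp]
      exact hx2
    have hβ0 : β ≠ 0 := by
      rintro h
      apply hα0
      rw [← hβ2, h]; simp
    have hspan : I = Ideal.span {β} ^ 2 := by
      rw [hα, ← hβ2, Ideal.span_singleton_pow]
    refine ⟨⟨Ideal.span {β}, by simpa using hβ0⟩, ?_, Or.inl hspan⟩
    rw [Set.Finite.mem_toFinset]
    show (Ideal.absNorm (Ideal.span {β} : Ideal (𝓞 M)) : ℝ) ^ 2 ≤ Z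
    have h1 : (Ideal.absNorm I : ℝ) = (Ideal.absNorm (Ideal.span {β} : Ideal (𝓞 M)) : ℝ) ^ 2 := by
      rw [hspan, map_pow]; push_cast; ring
    rw [← h1]; exact hN

lemma PZ_card (h1 : DiscQuad) (h2 : KumP) (h3 : QuadUnif) (Z : ℝ) (hZ : 0 ≤ Z) :
    ((PZ M Z).ncard : ℝ) ≤ ∑ 𝔢 ∈ (T_fin M Z).toFinset, (1 +
      ((QS M E (4 ^ Module.finrank ℚ M * Z / (Ideal.absNorm 𝔢.1 : ℝ) ^ 2)).ncard : ℝ)) := by
  have hfin : (⋃ 𝔢 ∈ (T_fin M Z).toFinset, ({𝔢.1 ^ 2} ∪ S2 M E 𝔢 Z)).Finite := by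
    refine Set.Finite.biUnion (Finset.finite_toSet _) ?_
    intro 𝔢 _
    refine (Set.finite_singleton _).union ?_
    refine (Ideal.finite_setOfPred_absNorm_le (S := 𝓞 M) ⌊Z⌋₊).subset ?_
    intro I hI
    exact Nat.le_floor hI.1
  have ha : (PZ M Z).ncard ≤ ∑ 𝔢 ∈ (T_fin M Z).toFinset, ({𝔢.1 ^ 2} ∪ S2 M E 𝔢 Z).ncard :=
    (Set.ncard_le_ncard (PZ_sub M E Z) hfin).trans (Finset.set_ncard_biUnion_le _ _)
  have hb : ∀ 𝔢 ∈ (T_fin M Z).toFinset, ({𝔢.1 ^ 2} ∪ S2 M E 𝔢 Z).ncard ≤ 1 +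
      (QS M E (4 ^ Module.finrank ℚ M * Z / (Ideal.absNorm 𝔢.1 : ℝ) ^ 2)).ncard := by
    intro 𝔢 _
    refine (Set.ncard_union_le _ _).trans ?_
    rw [Set.ncard_singleton]
    exact Nat.add_le_add_left (S2_card M E h1 h2 h3 𝔢 Z hZ) 1
  have hc := ha.trans (Finset.sum_le_sum hb)
  exact_mod_cast hc

lemma PZ_tendsto : Tendsto (fun Z : ℝ => ((PZ M Z).ncard : ℝ) / Z) atTop
    (𝓝 ((2 ^ InfinitePlace.nrRealPlaces M * (2 * Real.pi) ^ InfinitePlace.nrComplexPlaces M *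
      Units.regulator M) / (Units.torsionOrder M * Real.sqrt |discr M|))) := by
  refine (NumberField.Ideal.tendsto_norm_le_and_mk_eq_div_atTop M 1).congr fun Z => ?_
  congr 2
  rw [← Nat.card_coe_set_eq]
  refine Nat.card_congr ?_
  refine ⟨fun I => ⟨I.1.1, ?_⟩, fun I => ⟨⟨I.1, mem_nonZeroDivisors_of_ne_zero I.2.1⟩, ?_⟩,
    fun I => rfl, fun I => rfl⟩
  · refine ⟨nonZeroDivisors.coe_ne_zero I.1, ?_, I.2.1⟩
    have h := (ClassGroup.mk0_eq_one_iff I.1.2).1 I.2.2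
    obtain ⟨x, hx⟩ := h
    exact ⟨x, hx⟩
  · refine ⟨I.2.2.2, ?_⟩
    rw [ClassGroup.mk0_eq_one_iff]
    obtain ⟨x, hx⟩ := I.2.2.1
    exact ⟨x, hx⟩

theorem quadPos (h1 : DiscQuad) (h2 : KumP) (h3 : QuadUnif) : QuadPos := by
  intro M E _ _ _ _ _ hlim
  obtain ⟨C0, hC0⟩ := h3 (Module.finrank ℚ M)
  set C1 : ℝ := C0 * ((|discr M| : ℤ) : ℝ) ^ (7 / 4 : ℝ) with hC1
  have hn : ∀ Y : ℝ, 0 ≤ Y → ((QS M E Y).ncard : ℝ) ≤ C1 * Y := fun Y hY => (hC0 M E rfl Y hY).2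
  have hC1' : 0 ≤ C1 := by
    have := hn 1 zero_le_one
    have h0 : (0 : ℝ) ≤ ((QS M E 1).ncard : ℝ) := Nat.cast_nonneg _
    linarith
  set D : ℝ := 4 ^ Module.finrank ℚ M with hD
  have hDpos : 0 < D := by positivity
  let F : ℝ → NZ M → ℝ := fun Z 𝔢 => if (Ideal.absNorm 𝔢.1 : ℝ) ^ 2 ≤ Z then
    (1 + ((QS M E (D * Z / (Ideal.absNorm 𝔢.1 : ℝ) ^ 2)).ncard : ℝ)) / Z else 0
  have hT : Tendsto (fun Z => ∑' 𝔢, F Z 𝔢) atTop (𝓝 (∑' _ : NZ M, (0 : ℝ))) := by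
    refine tendsto_tsum_of_dominated_convergence
      (bound := fun 𝔢 : NZ M => (1 + C1 * D) * (1 / (Ideal.absNorm 𝔢.1 : ℝ) ^ 2))
      ((summable_inv_sq M).mul_left _) ?_ ?_
    · intro 𝔢
      have he : (0 : ℝ) < (Ideal.absNorm 𝔢.1 : ℝ) ^ 2 := by
        have := norm_pos M 𝔢
        positivity
      have hc : Tendsto (fun Z : ℝ => (D / (Ideal.absNorm 𝔢.1 : ℝ) ^ 2) * Z) atTop atTop :=
        Tendsto.const_mul_atTop (by positivity) tendsto_id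
      have h5 := (hlim.comp hc).const_mul (D / (Ideal.absNorm 𝔢.1 : ℝ) ^ 2)
      have h6 := (tendsto_inv_atTop_zero (𝕜 := ℝ)).add h5
      rw [mul_zero, add_zero] at h6
      refine h6.congr' ?_
      filter_upwards [eventually_ge_atTop ((Ideal.absNorm 𝔢.1 : ℝ) ^ 2), eventually_gt_atTop 0] with Z hZ hZ0
      show Z⁻¹ + D / (Ideal.absNorm 𝔢.1 : ℝ) ^ 2 *
        (((QS M E (D / (Ideal.absNorm 𝔢.1 : ℝ) ^ 2 * Z)).ncard : ℝ) / (D / (Ideal.absNorm 𝔢.1 : ℝ) ^ 2 * Z)) = F Z 𝔢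
      simp only [F]
      rw [if_pos hZ]
      have h7 : D / (Ideal.absNorm 𝔢.1 : ℝ) ^ 2 * Z = D * Z / (Ideal.absNorm 𝔢.1 : ℝ) ^ 2 := by ring
      rw [h7]
      exact aux D _ Z _ hDpos he hZ0
    · filter_upwards [eventually_gt_atTop 0] with Z hZ 𝔢
      have he : (0 : ℝ) < (Ideal.absNorm 𝔢.1 : ℝ) ^ 2 := by
        have := norm_pos M 𝔢
        positivity
      simp only [F]
      split_ifs with h
      · rw [Real.norm_of_nonneg (by positivity)]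
        have h8 := hn (D * Z / (Ideal.absNorm 𝔢.1 : ℝ) ^ 2) (by positivity)
        rw [div_le_iff₀ hZ]
        have h9 : (1 : ℝ) ≤ 1 / (Ideal.absNorm 𝔢.1 : ℝ) ^ 2 * Z := by
          rw [one_div, inv_mul_eq_div, le_div_iff₀ he]; linarith
        calc (1 : ℝ) + ((QS M E (D * Z / (Ideal.absNorm 𝔢.1 : ℝ) ^ 2)).ncard : ℝ) ≤
            1 / (Ideal.absNorm 𝔢.1 : ℝ) ^ 2 * Z + C1 * (D * Z / (Ideal.absNorm 𝔢.1 : ℝ) ^ 2) :=
              add_le_add h9 h8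
          _ = _ := by ring
      · rw [norm_zero]; positivity
  rw [tsum_zero] at hT
  have hle : ∀ᶠ Z : ℝ in atTop, ((PZ M Z).ncard : ℝ) / Z ≤ ∑' 𝔢, F Z 𝔢 := by
    filter_upwards [eventually_gt_atTop 0] with Z hZ
    rw [tsum_eq_sum (s := (T_fin M Z).toFinset)]
    · rw [div_le_iff₀ hZ, Finset.sum_mul]
      refine (PZ_card M E h1 h2 h3 Z hZ.le).trans (le_of_eq ?_)
      refine Finset.sum_congr rfl fun 𝔢 he => ?_
      rw [Set.Finite.mem_toFinset] at he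
      simp only [F]
      rw [if_pos (show (Ideal.absNorm 𝔢.1 : ℝ) ^ 2 ≤ Z from he), div_mul_cancel₀ _ hZ.ne']
    · intro 𝔢 he
      rw [Set.Finite.mem_toFinset] at he
      simp only [F]
      exact if_neg he
  have hfinal := le_of_tendsto_of_tendsto (PZ_tendsto M) hT hle
  have hpos : 0 < (2 ^ InfinitePlace.nrRealPlaces M * (2 * Real.pi) ^ InfinitePlace.nrComplexPlaces M *
      Units.regulator M) / (Units.torsionOrder M * Real.sqrt |discr M|) := by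
    refine div_pos ?_ ?_
    · exact mul_pos (by positivity) (Units.regulator_pos M)
    · exact mul_pos (Nat.cast_pos.mpr (Units.torsionOrder_pos M)) <|
        Real.sqrt_pos_of_pos <| abs_pos.mpr (Int.cast_ne_zero.mpr (discr_ne_zero M))
  exact absurd hfinal (not_le.mpr hpos)

end main

end Pool.Agent.TH858.J3094
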