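import Mathlib
import Pool.Agent.H84.L.S8_TH263_J3086
import Pool.Agent.H84.L.S8_TH293_J3093
import Pool.Agent.H84.L.S8_TH444_ML_Defs
import Pool.Agent.H84.L.S8_TH444_ML_Defs2
import Pool.Agent.H84.L.S8_TH55_J3092
import Pool.Agent.H84.L.S8_TH626_J3090
import Pool.Agent.H84.L.S8_TH858_J3094
import Pool.Agent.H84.L.S8_TH89_J3091
import Pool.Agent.H84.L.S8_TH914_J3087



/-!
# The asymptotic formula for `C₂ ≀ H`
-/

set_option autoImplicit false
set_option linter.unusedSectionVars false

open NumberField Filter Topology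

namespace Pool.Agent.TH444.ML

/- the three remaining inputs -/
structure Rest : Prop where
  coneFacts : ConeFacts
  coneSqf : ConeSqf
  fewGal : FewGalRel

theorem quadLim (r : Rest) : QuadLim :=
  Pool.Agent.TH626.J3090.quadLim Pool.Agent.TH263.J3086.discQuad Pool.Agent.TH914.J3087.kumP
    r.coneFacts r.coneSqf

theorem quadUnif : QuadUnif :=
  Pool.Agent.TH293.J3093.quadUnif Pool.Agent.TH263.J3086.discQuad Pool.Agent.TH914.J3087.kumP
    Pool.Agent.TH89.J3091.idealUnif Pool.Agent.TH55.J3092.princUnif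

theorem quadPos : QuadPos :=
  Pool.Agent.TH858.J3094.quadPos Pool.Agent.TH263.J3086.discQuad Pool.Agent.TH914.J3087.kumP
    quadUnif


end Pool.Agent.TH444.ML
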