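import Mathlib
import Pool.Agent.H84.L.S8_TH444_ML_Defs

namespace Pool.Agent.TH444.ML
end Pool.Agent.TH444.ML


/-! Project ML, job 3089: the squarefree sieve in the fundamental cone. -/

set_option autoImplicit false

open NumberField Filter Topology

namespace Pool.Agent.TH370.J3089

open Pool.Agent.TH444.ML

section

variable (M : Type) [Field M] [NumberField M]

/- nonzero ideals of norm at most `Z` -/
def IS (Z : ℝ) : Set (Ideal (𝓞 M)) := {I | I ≠ ⊥ ∧ (Ideal.absNorm I : ℝ) ≤ Z}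

lemma IS_finite (Z : ℝ) : (IS M Z).Finite := by
  refine (Ideal.finite_setOfPred_absNorm_le (S := 𝓞 M) ⌊Z⌋₊).subset ?_
  rintro I ⟨_, h⟩
  exact Nat.le_floor h

variable {M} in
lemma one_le_norm {I : Ideal (𝓞 M)} (hI : I ≠ ⊥) : (1 : ℝ) ≤ (Ideal.absNorm I : ℝ) := by
  have h : Ideal.absNorm I ≠ 0 := fun h => hI (Ideal.absNorm_eq_zero_iff.1 h)
  exact_mod_cast Nat.one_le_iff_ne_zero.2 h

lemma IS_mono {Z Z' : ℝ} (h : Z ≤ Z') : IS M Z ⊆ IS M Z' := fun _ hI => ⟨hI.1, hI.2.trans h⟩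

/- the number of the ideals -/
lemma IS_le : ∃ C : ℝ, 0 ≤ C ∧ ∀ Z : ℝ, 0 ≤ Z → ((IS M Z).ncard : ℝ) ≤ C * Z := by
  have h := NumberField.Ideal.tendsto_norm_le_div_atTop M
  obtain ⟨c, hc⟩ : ∃ c : ℝ, c = ((2 ^ InfinitePlace.nrRealPlaces M *
      (2 * Real.pi) ^ InfinitePlace.nrComplexPlaces M * Units.regulator M * classNumber M) /
        (Units.torsionOrder M * Real.sqrt |(discr M : ℝ)|)) := ⟨_, rfl⟩
  rw [← hc] at h
  have h1 : ∀ᶠ s : ℝ in atTop,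
      (Nat.card {I : Ideal (𝓞 M) // (Ideal.absNorm I : ℝ) ≤ s} : ℝ) / s < |c| + 1 :=
    h.eventually_lt_const (by linarith [le_abs_self c])
  obtain ⟨s0, hs0⟩ := eventually_atTop.1 (h1.and (eventually_ge_atTop 1))
  have hs1 : 1 ≤ s0 := (hs0 s0 le_rfl).2
  have key : ∀ s, s0 ≤ s → ((IS M s).ncard : ℝ) ≤ (|c| + 1) * s := by
    intro s hs
    obtain ⟨h2, h3⟩ := hs0 s hs
    rw [div_lt_iff₀ (by linarith)] at h2
    refine le_trans ?_ h2.le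
    have h4 : (IS M s).ncard ≤ Set.ncard {I : Ideal (𝓞 M) | (Ideal.absNorm I : ℝ) ≤ s} := by
      refine Set.ncard_le_ncard (fun I hI => hI.2) ?_
      refine (Ideal.finite_setOfPred_absNorm_le (S := 𝓞 M) ⌊s⌋₊).subset ?_
      intro I hI
      exact Nat.le_floor hI
    exact_mod_cast h4
  have hc1 : 0 ≤ |c| + 1 := by positivity
  refine ⟨(|c| + 1) * s0, by positivity, fun Z hZ => ?_⟩
  rcases le_or_gt s0 Z with h2 | h2
  · refine (key Z h2).trans ?_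
    refine mul_le_mul_of_nonneg_right ?_ hZ
    exact le_mul_of_one_le_right hc1 hs1
  rcases lt_or_ge Z 1 with h3 | h3
  · have h4 : IS M Z = ∅ := by
      ext I
      constructor
      · rintro ⟨h5, h6⟩
        have := one_le_norm h5
        linarith
      · exact fun h => absurd h (Set.notMem_empty _)
    rw [h4, Set.ncard_empty, Nat.cast_zero]
    positivity
  · have h4 : ((IS M Z).ncard : ℝ) ≤ ((IS M s0).ncard : ℝ) := by
      exact_mod_cast Set.ncard_le_ncard (IS_mono M h2.le) (IS_finite M s0)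
    refine (h4.trans (key s0 le_rfl)).trans ?_
    exact le_mul_of_one_le_right (by positivity) h3

/- the series of the inverse squares of the norms -/
lemma summ : Summable (fun I : Ideal (𝓞 M) => 1 / (Ideal.absNorm I : ℝ) ^ 2) := by
  classical
  obtain ⟨C, hC, hIS⟩ := IS_le M
  refine summable_of_sum_le (c := 4 * C) (fun I => by positivity) fun u => ?_
  set u' := u.filter (fun I => I ≠ ⊥) with hu'
  have h1 : ∑ I ∈ u, 1 / (Ideal.absNorm I : ℝ) ^ 2 = ∑ I ∈ u', 1 / (Ideal.absNorm I : ℝ) ^ 2 := by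
    symm
    apply Finset.sum_subset (Finset.filter_subset _ _)
    intro I hI hI'
    have h2 : I = ⊥ := by
      by_contra h2
      exact hI' (Finset.mem_filter.2 ⟨hI, h2⟩)
    rw [h2]
    simp
  rw [h1]
  obtain ⟨K, hK⟩ : ∃ K : ℕ, ∀ I ∈ u', Nat.log 2 (Ideal.absNorm I) < K := by
    refine ⟨u'.sup (fun I => Nat.log 2 (Ideal.absNorm I)) + 1, fun I hI => ?_⟩
    exact Nat.lt_succ_of_le (Finset.le_sup (f := fun I => Nat.log 2 (Ideal.absNorm I)) hI)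
  have h2 : ∑ I ∈ u', 1 / (Ideal.absNorm I : ℝ) ^ 2 =
      ∑ k ∈ Finset.range K, ∑ I ∈ u'.filter (fun I => Nat.log 2 (Ideal.absNorm I) = k),
        1 / (Ideal.absNorm I : ℝ) ^ 2 := by
    symm
    apply Finset.sum_fiberwise_of_maps_to
    intro I hI
    exact Finset.mem_range.2 (hK I hI)
  rw [h2]
  have h3 : ∀ k ∈ Finset.range K,
      ∑ I ∈ u'.filter (fun I => Nat.log 2 (Ideal.absNorm I) = k),
        1 / (Ideal.absNorm I : ℝ) ^ 2 ≤ 2 * C * (1 / 2) ^ k := by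
    intro k _
    have h4 : ∀ I ∈ u'.filter (fun I => Nat.log 2 (Ideal.absNorm I) = k),
        (2 : ℝ) ^ k ≤ (Ideal.absNorm I : ℝ) ∧ (Ideal.absNorm I : ℝ) ≤ 2 ^ (k + 1) ∧ I ≠ ⊥ := by
      intro I hI
      obtain ⟨h5, h6⟩ := Finset.mem_filter.1 hI
      have h7 := (Finset.mem_filter.1 h5).2
      have h8 : Ideal.absNorm I ≠ 0 := fun h => h7 (Ideal.absNorm_eq_zero_iff.1 h)
      have h9 := Nat.pow_log_le_self 2 h8
      have h10 := Nat.lt_pow_succ_log_self (b := 2) (by norm_num) (Ideal.absNorm I)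
      rw [h6] at h9 h10
      exact ⟨by exact_mod_cast h9, by exact_mod_cast h10.le, h7⟩
    have h5 : ((u'.filter (fun I => Nat.log 2 (Ideal.absNorm I) = k)).card : ℝ) ≤
        C * 2 ^ (k + 1) := by
      refine le_trans ?_ (hIS (2 ^ (k + 1)) (by positivity))
      have h6 : (u'.filter (fun I => Nat.log 2 (Ideal.absNorm I) = k)).card ≤
          (IS M (2 ^ (k + 1))).ncard := by
        rw [← Set.ncard_coe_finset]
        refine Set.ncard_le_ncard ?_ (IS_finite M _)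
        intro I hI
        obtain ⟨_, h8, h9⟩ := h4 I (Finset.mem_coe.1 hI)
        exact ⟨h9, h8⟩
      exact_mod_cast h6
    calc ∑ I ∈ u'.filter (fun I => Nat.log 2 (Ideal.absNorm I) = k),
        1 / (Ideal.absNorm I : ℝ) ^ 2
        ≤ ∑ _I ∈ u'.filter (fun I => Nat.log 2 (Ideal.absNorm I) = k),
          1 / ((2 : ℝ) ^ k) ^ 2 := by
          refine Finset.sum_le_sum fun I hI => ?_
          obtain ⟨h7, _, _⟩ := h4 I hI
          exact one_div_le_one_div_of_le (by positivity) (pow_le_pow_left₀ (by positivity) h7 2)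
      _ = ((u'.filter (fun I => Nat.log 2 (Ideal.absNorm I) = k)).card : ℝ) *
          (1 / ((2 : ℝ) ^ k) ^ 2) := by rw [Finset.sum_const, nsmul_eq_mul]
      _ ≤ (C * 2 ^ (k + 1)) * (1 / ((2 : ℝ) ^ k) ^ 2) :=
          mul_le_mul_of_nonneg_right h5 (by positivity)
      _ = 2 * C * (1 / 2) ^ k := by
          rw [one_div_pow]
          field_simp
          ring
  refine (Finset.sum_le_sum h3).trans ?_
  rw [← Finset.mul_sum]
  have h4 : ∑ k ∈ Finset.range K, ((1 : ℝ) / 2) ^ k ≤ 2 := by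
    have h5 := (summable_geometric_two).sum_le_tsum (Finset.range K) (fun k _ => by positivity)
    rwa [tsum_geometric_two] at h5
  calc 2 * C * ∑ k ∈ Finset.range K, ((1 : ℝ) / 2) ^ k ≤ 2 * C * 2 :=
        mul_le_mul_of_nonneg_left h4 (by positivity)
    _ = 4 * C := by ring

/- the tails of the series -/
lemma tail_small (ε : ℝ) (hε : 0 < ε) : ∃ z : ℝ, ∀ F : Finset (Ideal (𝓞 M)),
    (∀ I ∈ F, z < (Ideal.absNorm I : ℝ)) → ∑ I ∈ F, 1 / (Ideal.absNorm I : ℝ) ^ 2 ≤ ε := by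
  classical
  obtain ⟨s, hs⟩ := summable_iff_vanishing_norm.1 (summ M) ε hε
  refine ⟨∑ I ∈ s, (Ideal.absNorm I : ℝ), fun F hF => ?_⟩
  have h1 : Disjoint F s := by
    rw [Finset.disjoint_left]
    intro I hI hI'
    have h2 := hF I hI
    have h3 := Finset.single_le_sum (f := fun I => (Ideal.absNorm I : ℝ))
      (fun J _ => Nat.cast_nonneg _) hI'
    linarith
  have h2 := hs F h1
  exact (le_abs_self _).trans h2.le

/- the norm of an element is the norm of its ideal -/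
lemma nrm_eq (α : 𝓞 M) : nrm α = (Ideal.absNorm (Ideal.span {α}) : ℝ) := by
  unfold nrm
  rw [Ideal.absNorm_span_singleton]
  rw [← Int.cast_natCast (R := ℝ), Int.natCast_natAbs]

variable {M}

lemma one_le_nrm {α : 𝓞 M} (h : α ≠ 0) : 1 ≤ nrm α := by
  rw [nrm_eq]
  refine one_le_norm ?_
  rw [Ne, Ideal.span_singleton_eq_bot]
  exact h

/- squarefree quotients -/
lemma sqf_iff {𝔠 : Ideal (𝓞 M)} (hc : 𝔠 ≠ ⊥) {α : 𝓞 M} (hα : α ≠ 0) :
    Sqf M 𝔠 α ↔ α ∈ 𝔠 ^ 2 ∧ ∀ 𝔭 : Ideal (𝓞 M), 𝔭.IsPrime → 𝔭 ≠ ⊥ → α ∉ 𝔭 ^ 2 * 𝔠 ^ 2 := by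
  have hc2 : 𝔠 ^ 2 ≠ 0 := pow_ne_zero 2 hc
  have hspan : Ideal.span {α} ≠ 0 := by
    rw [Ideal.zero_eq_bot, Ne, Ideal.span_singleton_eq_bot]
    exact hα
  constructor
  · rintro ⟨_, 𝔡, h1, h2⟩
    refine ⟨?_, fun 𝔭 hp hp0 h3 => ?_⟩
    · rw [← Ideal.dvd_span_singleton, h2]
      exact dvd_mul_left _ _
    · rw [← Ideal.dvd_span_singleton, h2] at h3
      have h4 : 𝔭 ^ 2 ∣ 𝔡 := (mul_dvd_mul_iff_right hc2).1 h3
      have h5 := h1 𝔭 (by rw [← sq]; exact h4)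
      rw [Ideal.isUnit_iff] at h5
      exact hp.ne_top h5
  · rintro ⟨h1, h2⟩
    rw [← Ideal.dvd_span_singleton] at h1
    obtain ⟨𝔡, h3⟩ := h1
    have h4 : 𝔡 ≠ 0 := by
      rintro rfl
      rw [mul_zero] at h3
      exact hspan h3
    refine ⟨hα, 𝔡, ?_, by rw [h3, mul_comm]⟩
    rw [squarefree_iff_irreducible_sq_not_dvd_of_ne_zero h4]
    intro x hx hxd
    have h5 : Prime x := hx.prime
    refine h2 x (Ideal.isPrime_of_prime h5) h5.ne_zero ?_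
    rw [← Ideal.dvd_span_singleton, h3, mul_comm (𝔠 ^ 2) 𝔡]
    exact mul_dvd_mul (by rw [sq]; exact hxd) dvd_rfl

/- elements of the cone divisible by an ideal -/
lemma div_cnt (h1 : ConeFacts) {𝔟 : Ideal (𝓞 M)} (hb : 𝔟 ≠ ⊥) (X : ℝ) :
    Set.ncard {α : 𝓞 M | α ∈ cone M ∧ α ∈ 𝔟 ∧ nrm α ≤ X} ≤
      Units.torsionOrder M * (IS M (X / Ideal.absNorm 𝔟)).ncard := by
  classical
  obtain ⟨f1, f2, f3⟩ := h1 M
  have hfin : {α : 𝓞 M | α ∈ cone M ∧ α ∈ 𝔟 ∧ nrm α ≤ X}.Finite :=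
    (f1 X).subset fun α hα => ⟨hα.1, hα.2.2⟩
  have hex : ∀ α : 𝓞 M, ∃ J : Ideal (𝓞 M), α ∈ 𝔟 → Ideal.span {α} = 𝔟 * J := by
    intro α
    by_cases h : α ∈ 𝔟
    · obtain ⟨J, hJ⟩ := Ideal.dvd_span_singleton.2 h
      exact ⟨J, fun _ => hJ⟩
    · exact ⟨⊥, fun h' => absurd h' h⟩
  choose J hJ using hex
  have hN : (0 : ℝ) < Ideal.absNorm 𝔟 := lt_of_lt_of_le one_pos (one_le_norm hb)
  have h2 : ((hfin.toFinset).image J).card ≤ (IS M (X / Ideal.absNorm 𝔟)).ncard := by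
    rw [← Set.ncard_coe_finset]
    refine Set.ncard_le_ncard ?_ (IS_finite M _)
    intro I hI
    obtain ⟨α, hα, rfl⟩ := Finset.mem_image.1 (Finset.mem_coe.1 hI)
    obtain ⟨g1, g2, g3⟩ := (Set.Finite.mem_toFinset hfin).1 hα
    have g4 := hJ α g2
    have g5 : α ≠ 0 := f2 α g1
    refine ⟨?_, ?_⟩
    · intro h
      rw [h, Ideal.mul_bot, Ideal.span_singleton_eq_bot] at g4
      exact g5 g4
    · rw [le_div_iff₀ hN, mul_comm]
      rw [nrm_eq, g4, map_mul] at g3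
      exact_mod_cast g3
  rw [Set.ncard_eq_toFinset_card _ hfin]
  refine (Finset.card_le_mul_card_image (f := J) hfin.toFinset
    (Units.torsionOrder M) ?_).trans (Nat.mul_le_mul_left _ h2)
  intro I hI
  obtain ⟨α0, hα0, rfl⟩ := Finset.mem_image.1 hI
  obtain ⟨g1, g2, g3⟩ := (Set.Finite.mem_toFinset hfin).1 hα0
  have g5 : α0 ≠ 0 := f2 α0 g1
  have g6 := f3 α0 g5
  rw [← g6]
  have hfu : {u : (𝓞 M)ˣ | (u : 𝓞 M) * α0 ∈ cone M}.Finite := by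
    refine Set.finite_of_ncard_ne_zero ?_
    rw [g6]
    exact (Units.torsionOrder_pos M).ne'
  rw [← Set.ncard_coe_finset]
  refine le_trans (Set.ncard_le_ncard (t := (fun u : (𝓞 M)ˣ => (u : 𝓞 M) * α0) ''
    {u : (𝓞 M)ˣ | (u : 𝓞 M) * α0 ∈ cone M}) ?_ (hfu.image _)) (Set.ncard_image_le hfu)
  intro α hα
  obtain ⟨k1, k2⟩ := Finset.mem_filter.1 (Finset.mem_coe.1 hα)
  obtain ⟨k3, k4, k5⟩ := (Set.Finite.mem_toFinset hfin).1 k1
  have k6 : Ideal.span {α0} = Ideal.span {α} := by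
    rw [hJ α0 g2, hJ α k4, k2]
  obtain ⟨u, hu⟩ := Ideal.span_singleton_eq_span_singleton.1 k6
  refine ⟨u, ?_, ?_⟩
  · show (u : 𝓞 M) * α0 ∈ cone M
    rw [mul_comm, hu]
    exact k3
  · show (u : 𝓞 M) * α0 = α
    rw [mul_comm, hu]

/- the limit for conditions depending on residue classes -/
lemma lim_fin (h1 : ConeFacts) (h2 : ConeDens) {𝔟 : Ideal (𝓞 M)} (hb : 𝔟 ≠ ⊥) (g : 𝓞 M → ℝ)
    (hg : ∀ α α' : 𝓞 M, α - α' ∈ 𝔟 → g α = g α') (hg0 : ∀ α, 0 ≤ g α) (cd : 𝓞 M → Prop)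
    (hcd : ∀ α α' : 𝓞 M, α - α' ∈ 𝔟 → (cd α ↔ cd α')) {G : ℝ} (hG : ∀ α, g α ≤ G) :
    ∃ c : ℝ, Tendsto (fun Y : ℝ =>
      (Set.ncard {α : 𝓞 M | α ∈ cone M ∧ cd α ∧ nrm α ≤ Y * g α} : ℝ) / Y) atTop (𝓝 c) := by
  classical
  obtain ⟨f1, f2, f3⟩ := h1 M
  have : Finite (𝓞 M ⧸ 𝔟) := Ring.HasFiniteQuotients.finiteQuotient hb
  have := Fintype.ofFinite (𝓞 M ⧸ 𝔟)
  -- representatives
  obtain ⟨r, hr⟩ : ∃ r : 𝓞 M ⧸ 𝔟 → 𝓞 M, ∀ q, Ideal.Quotient.mk 𝔟 (r q) = q :=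
    ⟨fun q => (Ideal.Quotient.mk_surjective q).choose,
      fun q => (Ideal.Quotient.mk_surjective q).choose_spec⟩
  have hclass : ∀ q : 𝓞 M ⧸ 𝔟, ∃ c : ℝ, Tendsto (fun Y : ℝ =>
      (Set.ncard {α : 𝓞 M | α ∈ cone M ∧ cd (r q) ∧ α - r q ∈ 𝔟 ∧ nrm α ≤ Y * g (r q)} : ℝ) / Y)
        atTop (𝓝 c) := by
    intro q
    by_cases hq : cd (r q)
    · rcases (hg0 (r q)).eq_or_lt with h0 | h0
      · refine ⟨0, ?_⟩
        have : (fun Y : ℝ => (Set.ncard {α : 𝓞 M | α ∈ cone M ∧ cd (r q) ∧ α - r q ∈ 𝔟 ∧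
            nrm α ≤ Y * g (r q)} : ℝ) / Y) = fun _ => 0 := by
          funext Y
          have h3 : {α : 𝓞 M | α ∈ cone M ∧ cd (r q) ∧ α - r q ∈ 𝔟 ∧
            nrm α ≤ Y * g (r q)} = ∅ := by
            ext α
            constructor
            · rintro ⟨k1, _, _, k2⟩
              rw [← h0, mul_zero] at k2
              have := one_le_nrm (f2 α k1)
              linarith
            · exact fun h => absurd h (Set.notMem_empty _)
          rw [h3]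
          simp
        rw [this]
        exact tendsto_const_nhds
      · obtain ⟨c, hc⟩ := h2 M 𝔟 hb (r q)
        refine ⟨c * g (r q), ?_⟩
        have h3 := (hc.comp (tendsto_id.atTop_mul_const h0)).mul_const (g (r q))
        refine h3.congr' ?_
        filter_upwards [eventually_gt_atTop 0] with Y hY
        simp only [Function.comp_apply, id_eq]
        have h4 : {α : 𝓞 M | α ∈ cone M ∧ cd (r q) ∧ α - r q ∈ 𝔟 ∧ nrm α ≤ Y * g (r q)} =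
            {α : 𝓞 M | α ∈ cone M ∧ α - r q ∈ 𝔟 ∧ nrm α ≤ Y * g (r q)} := by
          ext α
          exact ⟨fun h => ⟨h.1, h.2.2⟩, fun h => ⟨h.1, hq, h.2⟩⟩
        rw [h4]
        field_simp
    · refine ⟨0, ?_⟩
      have : (fun Y : ℝ => (Set.ncard {α : 𝓞 M | α ∈ cone M ∧ cd (r q) ∧ α - r q ∈ 𝔟 ∧
          nrm α ≤ Y * g (r q)} : ℝ) / Y) = fun _ => 0 := by
        funext Y
        have h3 : {α : 𝓞 M | α ∈ cone M ∧ cd (r q) ∧ α - r q ∈ 𝔟 ∧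
          nrm α ≤ Y * g (r q)} = ∅ := by
          ext α
          exact ⟨fun h => absurd h.2.1 hq, fun h => absurd h (Set.notMem_empty _)⟩
        rw [h3]
        simp
      rw [this]
      exact tendsto_const_nhds
  choose c hc using hclass
  refine ⟨∑ q, c q, ?_⟩
  have h3 := tendsto_finsetSum Finset.univ (fun q _ => hc q)
  refine h3.congr' ?_
  filter_upwards [eventually_ge_atTop 0] with Y hY
  have hfin : {α : 𝓞 M | α ∈ cone M ∧ cd α ∧ nrm α ≤ Y * g α}.Finite :=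
    (f1 (Y * G)).subset fun α hα => ⟨hα.1, hα.2.2.trans (mul_le_mul_of_nonneg_left (hG α) hY)⟩
  rw [← Finset.sum_div, Set.ncard_eq_toFinset_card _ hfin,
    Finset.card_eq_sum_card_fiberwise (f := Ideal.Quotient.mk 𝔟) (t := Finset.univ)
      (fun _ _ => Finset.mem_coe.2 (Finset.mem_univ _)), Nat.cast_sum]
  congr 1
  refine Finset.sum_congr rfl fun q _ => ?_
  rw [← Set.ncard_coe_finset]
  congr 2
  ext α
  simp only [Set.mem_ofPred_eq, Finset.coe_filter, Set.Finite.mem_toFinset]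
  have hmk : ∀ α, Ideal.Quotient.mk 𝔟 α = q ↔ α - r q ∈ 𝔟 := by
    intro α
    rw [← Ideal.Quotient.eq, hr q]
  rw [hmk]
  constructor
  · rintro ⟨k1, k2, k3, k4⟩
    refine ⟨⟨k1, (hcd α (r q) k3).2 k2, ?_⟩, k3⟩
    rw [hg α (r q) k3]
    exact k4
  · rintro ⟨⟨k1, k2, k3⟩, k4⟩
    rw [hg α (r q) k4] at k3
    exact ⟨k1, (hcd α (r q) k4).1 k2, k4, k3⟩

end

/- the squarefree sieve in the fundamental cone -/
theorem coneSqf (h1 : ConeFacts) (h2 : ConeDens) : ConeSqf := by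
  classical
  intro M _ _ 𝔠 𝔪 hc hm g hg hg0
  obtain ⟨f1, f2, f3⟩ := h1 M
  -- the bound of `g`
  obtain ⟨G, hG⟩ : ∃ G : ℝ, ∀ α, g α ≤ G := by
    have : Finite (𝓞 M ⧸ 𝔪) := Ring.HasFiniteQuotients.finiteQuotient hm
    have := Fintype.ofFinite (𝓞 M ⧸ 𝔪)
    refine ⟨∑ q : 𝓞 M ⧸ 𝔪, g (Ideal.Quotient.mk_surjective q).choose, fun α => ?_⟩
    have h3 : g α = g (Ideal.Quotient.mk_surjective (Ideal.Quotient.mk 𝔪 α)).choose := by
      refine hg _ _ ?_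
      rw [← Ideal.Quotient.eq]
      exact (Ideal.Quotient.mk_surjective (Ideal.Quotient.mk 𝔪 α)).choose_spec.symm
    rw [h3]
    exact Finset.single_le_sum (f := fun q : 𝓞 M ⧸ 𝔪 =>
      g (Ideal.Quotient.mk_surjective q).choose) (fun q _ => hg0 _) (Finset.mem_univ _)
  have hG0 : 0 ≤ G := (hg0 0).trans (hG 0)
  obtain ⟨C, hC, hIS⟩ := IS_le M
  obtain ⟨w, hw⟩ : ∃ w : ℝ, w = Units.torsionOrder M := ⟨_, rfl⟩
  have hw0 : 0 ≤ w := by rw [hw]; positivity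
  -- the sets
  obtain ⟨A, hA⟩ : ∃ A : ℝ → Set (𝓞 M), ∀ Y, A Y =
    {α : 𝓞 M | α ∈ cone M ∧ Sqf M 𝔠 α ∧ nrm α ≤ Y * g α} := ⟨_, fun _ => rfl⟩
  have hgoal : (fun Y : ℝ => (Set.ncard {α : 𝓞 M | α ∈ cone M ∧ Sqf M 𝔠 α ∧
      nrm α ≤ Y * g α} : ℝ) / Y) = fun Y => ((A Y).ncard : ℝ) / Y := by
    funext Y
    rw [hA]
  rw [hgoal]
  have key : ∀ ε : ℝ, 0 < ε → ∃ f : ℝ → ℝ, (∃ c : ℝ, Tendsto f atTop (𝓝 c)) ∧
      ∀ Y : ℝ, 0 < Y → |((A Y).ncard : ℝ) / Y - f Y| ≤ ε := by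
    intro ε hε
    obtain ⟨z, hz⟩ := tail_small M (ε / (w * C * G + 1)) (by positivity)
    -- the small primes
    have hPfin : {𝔭 : Ideal (𝓞 M) | 𝔭.IsPrime ∧ 𝔭 ≠ ⊥ ∧ (Ideal.absNorm 𝔭 : ℝ) ≤ z}.Finite :=
      (IS_finite M z).subset fun 𝔭 h => ⟨h.2.1, h.2.2⟩
    set P := hPfin.toFinset with hP
    have hPmem : ∀ 𝔭, 𝔭 ∈ P ↔ 𝔭.IsPrime ∧ 𝔭 ≠ ⊥ ∧ (Ideal.absNorm 𝔭 : ℝ) ≤ z := fun 𝔭 => by
      rw [hP, Set.Finite.mem_toFinset]
      rfl
    obtain ⟨𝔟, h𝔟⟩ : ∃ 𝔟 : Ideal (𝓞 M), 𝔟 = 𝔪 * (𝔠 ^ 2 * ∏ 𝔭 ∈ P, 𝔭 ^ 2) := ⟨_, rfl⟩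
    have hb0 : 𝔟 ≠ ⊥ := by
      rw [h𝔟]
      refine mul_ne_zero hm (mul_ne_zero (pow_ne_zero 2 hc) ?_)
      rw [Finset.prod_ne_zero_iff]
      intro 𝔭 h𝔭
      exact pow_ne_zero 2 ((hPmem 𝔭).1 h𝔭).2.1
    have hb1 : 𝔟 ≤ 𝔪 := by
      apply Ideal.le_of_dvd
      rw [h𝔟]
      exact dvd_mul_right _ _
    have hb2 : 𝔟 ≤ 𝔠 ^ 2 := by
      apply Ideal.le_of_dvd
      rw [h𝔟]
      exact (dvd_mul_right _ _).trans (dvd_mul_left _ _)
    have hb3 : ∀ 𝔭 ∈ P, 𝔟 ≤ 𝔭 ^ 2 * 𝔠 ^ 2 := by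
      intro 𝔭 h𝔭
      apply Ideal.le_of_dvd
      rw [h𝔟, mul_comm (𝔭 ^ 2)]
      exact (mul_dvd_mul dvd_rfl (Finset.dvd_prod_of_mem (fun 𝔭 : Ideal (𝓞 M) => 𝔭 ^ 2)
        h𝔭)).trans (dvd_mul_left _ _)
    have hmemiff : ∀ (I : Ideal (𝓞 M)), 𝔟 ≤ I → ∀ α α' : 𝓞 M, α - α' ∈ 𝔟 → (α ∈ I ↔ α' ∈ I) := by
      intro I hI α α' h
      have h3 := hI h
      constructor
      · intro h4
        have := I.sub_mem h4 h3
        rwa [sub_sub_cancel] at this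
      · intro h4
        have := I.add_mem h3 h4
        rwa [sub_add_cancel] at this
    obtain ⟨cd, hcd⟩ : ∃ cd : 𝓞 M → Prop, ∀ α, cd α ↔
      (α ∈ 𝔠 ^ 2 ∧ ∀ 𝔭 ∈ P, α ∉ 𝔭 ^ 2 * 𝔠 ^ 2) := ⟨_, fun _ => Iff.rfl⟩
    have hlim := lim_fin h1 h2 hb0 g (fun α α' h => hg α α' (hb1 h)) hg0 cd (by
      intro α α' h
      rw [hcd, hcd, hmemiff _ hb2 α α' h]
      refine and_congr_right fun _ => forall_congr' fun 𝔭 => forall_congr' fun h𝔭 => ?_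
      rw [hmemiff _ (hb3 𝔭 h𝔭) α α' h]) hG
    refine ⟨_, hlim, fun Y hY => ?_⟩
    obtain ⟨B, hB⟩ : ∃ B : Set (𝓞 M), B = {α : 𝓞 M | α ∈ cone M ∧ cd α ∧ nrm α ≤ Y * g α} :=
      ⟨_, rfl⟩
    rw [← hB]
    have hYG : ∀ α : 𝓞 M, nrm α ≤ Y * g α → nrm α ≤ Y * G := fun α h =>
      h.trans (mul_le_mul_of_nonneg_left (hG α) hY.le)
    have hBfin : B.Finite := by
      rw [hB]
      exact (f1 (Y * G)).subset fun α hα => ⟨hα.1, hYG α hα.2.2⟩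
    have hAB : A Y ⊆ B := by
      rw [hA, hB]
      rintro α ⟨k1, k2, k3⟩
      refine ⟨k1, ?_, k3⟩
      rw [hcd]
      obtain ⟨k4, k5⟩ := (sqf_iff hc (f2 α k1)).1 k2
      exact ⟨k4, fun 𝔭 h𝔭 => k5 𝔭 ((hPmem 𝔭).1 h𝔭).1 ((hPmem 𝔭).1 h𝔭).2.1⟩
    have hAfin : (A Y).Finite := hBfin.subset hAB
    have hAB' : ((A Y).ncard : ℝ) ≤ B.ncard := by exact_mod_cast Set.ncard_le_ncard hAB hBfin
    -- the large primes
    have hLfin : {𝔭 : Ideal (𝓞 M) | 𝔭.IsPrime ∧ 𝔭 ≠ ⊥ ∧ z < (Ideal.absNorm 𝔭 : ℝ) ∧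
        (Ideal.absNorm 𝔭 : ℝ) ≤ Y * G}.Finite :=
      (IS_finite M (Y * G)).subset fun 𝔭 h => ⟨h.2.1, h.2.2.2⟩
    set L := hLfin.toFinset with hL
    have hLmem : ∀ 𝔭, 𝔭 ∈ L ↔ 𝔭.IsPrime ∧ 𝔭 ≠ ⊥ ∧ z < (Ideal.absNorm 𝔭 : ℝ) ∧
        (Ideal.absNorm 𝔭 : ℝ) ≤ Y * G := fun 𝔭 => by
      rw [hL, Set.Finite.mem_toFinset]
      rfl
    have hDfin : ∀ 𝔭 : Ideal (𝓞 M),
        {α : 𝓞 M | α ∈ cone M ∧ α ∈ 𝔭 ^ 2 ∧ nrm α ≤ Y * G}.Finite := fun 𝔭 =>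
      (f1 (Y * G)).subset fun α hα => ⟨hα.1, hα.2.2⟩
    have hsub : hBfin.toFinset ⊆ hAfin.toFinset ∪ L.biUnion (fun 𝔭 => (hDfin 𝔭).toFinset) := by
      intro α hα
      rw [Set.Finite.mem_toFinset, hB] at hα
      obtain ⟨k1, k2, k3⟩ := hα
      rw [hcd] at k2
      rw [Finset.mem_union, Set.Finite.mem_toFinset, Finset.mem_biUnion]
      by_cases h : Sqf M 𝔠 α
      · left
        rw [hA]
        exact ⟨k1, h, k3⟩
      · right
        rw [sqf_iff hc (f2 α k1)] at h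
        have h3 : ∃ 𝔭 : Ideal (𝓞 M), 𝔭.IsPrime ∧ 𝔭 ≠ ⊥ ∧ α ∈ 𝔭 ^ 2 * 𝔠 ^ 2 := by
          by_contra hcon
          push Not at hcon
          exact h ⟨k2.1, hcon⟩
        obtain ⟨𝔭, h4, h5, h6⟩ := h3
        have h6' : 𝔭 ^ 2 * 𝔠 ^ 2 ≤ 𝔭 ^ 2 := Ideal.mul_le_left
        have h7 : α ∈ 𝔭 ^ 2 := h6' h6
        have h8 : z < (Ideal.absNorm 𝔭 : ℝ) := by
          by_contra hcon
          exact k2.2 𝔭 ((hPmem 𝔭).2 ⟨h4, h5, not_lt.1 hcon⟩) h6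
        have h9 : (Ideal.absNorm 𝔭 : ℝ) ≤ nrm α := by
          rw [nrm_eq]
          have h10 : Ideal.absNorm 𝔭 ∣ Ideal.absNorm (Ideal.span {α}) := by
            refine map_dvd _ ?_
            refine (dvd_pow_self 𝔭 two_ne_zero).trans ?_
            exact Ideal.dvd_span_singleton.2 h7
          have h11 : Ideal.absNorm (Ideal.span {α}) ≠ 0 := by
            rw [Ne, Ideal.absNorm_eq_zero_iff, Ideal.span_singleton_eq_bot]
            exact f2 α k1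
          exact_mod_cast Nat.le_of_dvd (Nat.pos_of_ne_zero h11) h10
        refine ⟨𝔭, (hLmem 𝔭).2 ⟨h4, h5, h8, h9.trans (hYG α k3)⟩, ?_⟩
        rw [Set.Finite.mem_toFinset]
        exact ⟨k1, h7, hYG α k3⟩
    have hcount : (B.ncard : ℝ) ≤ (A Y).ncard + ε * Y := by
      have k1 := (Finset.card_le_card hsub).trans (Finset.card_union_le _ _)
      rw [← Set.ncard_eq_toFinset_card _ hBfin, ← Set.ncard_eq_toFinset_card _ hAfin] at k1
      have k2 : (B.ncard : ℝ) ≤ (A Y).ncard + ((L.biUnion (fun 𝔭 =>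
        (hDfin 𝔭).toFinset)).card : ℝ) := by exact_mod_cast k1
      refine k2.trans (add_le_add le_rfl ?_)
      have k3 : ((L.biUnion (fun 𝔭 => (hDfin 𝔭).toFinset)).card : ℝ) ≤
            ∑ 𝔭 ∈ L, (Set.ncard {α : 𝓞 M | α ∈ cone M ∧ α ∈ 𝔭 ^ 2 ∧ nrm α ≤ Y * G} : ℝ) := by
        refine le_trans (Nat.cast_le.2 Finset.card_biUnion_le) ?_
        rw [Nat.cast_sum]
        refine Finset.sum_le_sum fun 𝔭 _ => ?_
        rw [Set.ncard_eq_toFinset_card _ (hDfin 𝔭)]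
      refine k3.trans ?_
      have k4 : ∀ 𝔭 ∈ L, (Set.ncard {α : 𝓞 M | α ∈ cone M ∧ α ∈ 𝔭 ^ 2 ∧ nrm α ≤ Y * G} : ℝ) ≤
          (w * C * G * Y) * (1 / (Ideal.absNorm 𝔭 : ℝ) ^ 2) := by
        intro 𝔭 h𝔭
        obtain ⟨_, h5, _, _⟩ := (hLmem 𝔭).1 h𝔭
        have h6 := div_cnt h1 (M := M) (𝔟 := 𝔭 ^ 2) (pow_ne_zero 2 h5) (Y * G)
        have h7 : (Set.ncard {α : 𝓞 M | α ∈ cone M ∧ α ∈ 𝔭 ^ 2 ∧ nrm α ≤ Y * G} : ℝ) ≤
            w * ((IS M (Y * G / Ideal.absNorm (𝔭 ^ 2))).ncard : ℝ) := by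
          rw [hw]
          exact_mod_cast h6
        refine h7.trans ?_
        have h8 := hIS (Y * G / Ideal.absNorm (𝔭 ^ 2)) (by positivity)
        refine (mul_le_mul_of_nonneg_left h8 hw0).trans (le_of_eq ?_)
        rw [map_pow]
        push_cast
        ring
      refine (Finset.sum_le_sum k4).trans ?_
      rw [← Finset.mul_sum]
      have k5 := hz L (fun 𝔭 h𝔭 => ((hLmem 𝔭).1 h𝔭).2.2.1)
      refine (mul_le_mul_of_nonneg_left k5 (by positivity)).trans ?_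
      have k6 : w * C * G / (w * C * G + 1) ≤ 1 := by
        rw [div_le_one (by positivity)]
        linarith
      calc w * C * G * Y * (ε / (w * C * G + 1)) = (w * C * G / (w * C * G + 1)) * (ε * Y) := by
            field_simp
        _ ≤ 1 * (ε * Y) := mul_le_mul_of_nonneg_right k6 (by positivity)
        _ = ε * Y := one_mul _
    rw [← sub_div, abs_div, abs_of_pos hY, div_le_iff₀ hY, abs_le]
    constructor
    · linarith
    · have : 0 ≤ ε * Y := by positivity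
      linarith
  -- the conclusion
  refine cauchySeq_tendsto_of_complete ?_
  rw [Metric.cauchySeq_iff']
  intro ε hε
  obtain ⟨f, ⟨c, hf⟩, hfA⟩ := key (ε / 5) (by positivity)
  obtain ⟨N, hN⟩ := eventually_atTop.1 ((Metric.tendsto_nhds.1 hf (ε / 5) (by positivity)).and
    (eventually_gt_atTop 0))
  refine ⟨N, fun Y hY => ?_⟩
  obtain ⟨a1, a2⟩ := hN Y hY
  obtain ⟨b1, b2⟩ := hN N le_rfl
  have a3 := hfA Y a2
  have b3 := hfA N b2
  rw [Real.dist_eq] at a1 b1 ⊢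
  rw [abs_lt] at a1 b1 ⊢
  rw [abs_le] at a3 b3
  constructor <;> linarith [a1.1, a1.2, b1.1, b1.2, a3.1, a3.2, b3.1, b3.2]

end Pool.Agent.TH370.J3089
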