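import Mathlib

namespace Pool.Agent.TH444.ML
end Pool.Agent.TH444.ML


/-!
# Polynomial count of number fields (crude quantitative form of the theorem of Hermite)
-/

set_option autoImplicit false

open NumberField Module NumberField.InfinitePlace NumberField.mixedEmbedding ENNReal NNReal
  IntermediateField Polynomial

namespace Pool.Agent.TH979.J3100

open Pool.Agent.TH444.ML

variable {K : Type*} [Field K] [NumberField K]

/- bound for the Minkowski bound -/
noncomputable def BB (D : ℕ) (Z : ℝ≥0) : ℝ≥0 := NNReal.sqrt Z * (2 : ℝ≥0) ^ D + 1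

theorem mink_lt {Z : ℝ≥0} (hK : ((|discr K| : ℤ) : ℝ) ≤ Z) :
    minkowskiBound K ↑1 < BB (finrank ℚ K) Z := by
  have : BB (finrank ℚ K) Z - 1 < BB (finrank ℚ K) Z := by
    simp_rw [BB, add_tsub_cancel_right, lt_add_iff_pos_right, zero_lt_one]
  refine lt_of_le_of_lt ?_ (coe_lt_coe.mpr this)
  rw [minkowskiBound, volume_fundamentalDomain_fractionalIdealLatticeBasis, BB,
    add_tsub_cancel_right, Units.val_one, FractionalIdeal.absNorm_one, Rat.cast_one,
    ENNReal.ofReal_one, one_mul, mixedEmbedding.finrank, volume_fundamentalDomain_latticeBasis,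
    coe_mul, ENNReal.coe_pow, coe_ofNat,
    show ((NNReal.sqrt Z : ℝ≥0) : ℝ≥0∞) = (1 : ℝ≥0∞) * NNReal.sqrt Z by rw [one_mul]]
  gcongr
  · exact pow_le_one₀ (by positivity) (by simp)
  · rw [← NNReal.coe_le_coe, coe_nnnorm, Int.norm_eq_abs, ← Int.cast_abs]
    exact hK


end Pool.Agent.TH979.J3100
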