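import Mathlib
import Pool.Agent.H84.L.S8_TH444_ML_Defs
import Pool.Agent.H84.L.S8_TH979_ML_J3100



/-!
# Relative polynomial count of number fields, part 1: small generators
-/

set_option autoImplicit false

open NumberField Module NumberField.InfinitePlace NumberField.mixedEmbedding ENNReal NNReal
  IntermediateField Polynomial MeasureTheory

namespace Pool.Agent.TH979.J3100

section gen

variable {K : Type*} [Field K] [NumberField K]

theorem exists_real (w₀ : InfinitePlace K) (hw₀ : IsReal w₀) {B : ℝ≥0}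
    (hB : minkowskiBound K ↑1 < convexBodyLTFactor K * B) :
    ∃ a : 𝓞 K, ℚ⟮(a : K)⟯ = ⊤ ∧ (∀ w : InfinitePlace K, w ≠ w₀ → w a < 1) ∧ w₀ a < B := by
  classical
  have : minkowskiBound K ↑1 < volume (convexBodyLT K (fun w ↦ if w = w₀ then B else 1)) := by
    rw [convexBodyLT_volume, ← Finset.prod_erase_mul _ _ (Finset.mem_univ w₀)]
    simp_rw [ite_pow, one_pow]
    rw [Finset.prod_ite_eq']
    simp_rw [Finset.notMem_erase, ite_false, mult, hw₀, ite_true, one_mul, pow_one]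
    exact hB
  obtain ⟨a, h_nz, h_le⟩ := exists_ne_zero_mem_ringOfIntegers_lt K this
  have h1 : ∀ w : InfinitePlace K, w ≠ w₀ → w a < 1 := by
    intro w hw
    have := h_le w
    rw [if_neg hw] at this
    exact_mod_cast this
  refine ⟨a, is_primitive_element_of_infinitePlace_lt h_nz (fun w hw => h1 w hw) (Or.inl hw₀), h1,
    ?_⟩
  have := h_le w₀
  rwa [if_pos rfl] at this

theorem exists_complex (w₀ : InfinitePlace K) (hw₀ : IsComplex w₀) {B : ℝ≥0}
    (hB : minkowskiBound K ↑1 < convexBodyLT'Factor K * B) :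
    ∃ a : 𝓞 K, ℚ⟮(a : K)⟯ = ⊤ ∧ (∀ w : InfinitePlace K, w ≠ w₀ → w a < 1) ∧
      w₀ a < Real.sqrt (1 + B ^ 2) := by
  classical
  have : minkowskiBound K ↑1 <
      volume (convexBodyLT' K (fun w ↦ if w = w₀ then NNReal.sqrt B else 1) ⟨w₀, hw₀⟩) := by
    rw [convexBodyLT'_volume, ← Finset.prod_erase_mul _ _ (Finset.mem_univ w₀)]
    simp_rw [ite_pow, one_pow]
    rw [Finset.prod_ite_eq']
    simp_rw [Finset.notMem_erase, ite_false, mult, not_isReal_iff_isComplex.mpr hw₀,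
      ite_true, ite_false, one_mul, NNReal.sq_sqrt]
    exact hB
  obtain ⟨a, h_nz, h_le, h_le₀⟩ := exists_ne_zero_mem_ringOfIntegers_lt' K ⟨w₀, hw₀⟩ this
  have h1 : ∀ w : InfinitePlace K, w ≠ w₀ → w a < 1 := by
    intro w hw
    have := h_le w hw
    rw [if_neg hw] at this
    exact_mod_cast this
  refine ⟨a, is_primitive_element_of_infinitePlace_lt h_nz (fun w hw => h1 w hw)
    (Or.inr h_le₀.1), h1, ?_⟩
  rw [if_pos rfl] at h_le₀
  dsimp only at h_le₀
  rw [← norm_embedding_eq, Real.lt_sqrt (norm_nonneg _), ← Complex.re_add_im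
    (embedding w₀ _), Complex.norm_add_mul_I, Real.sq_sqrt (by positivity)]
  refine add_lt_add ?_ ?_
  · rw [← sq_abs, sq_lt_one_iff₀ (abs_nonneg _)]
    exact h_le₀.1
  · rw [sq_lt_sq, NNReal.abs_eq, ← NNReal.sq_sqrt B]
    exact h_le₀.2

theorem BB_sq_le (D : ℕ) {Z : ℝ≥0} (hZ : 1 ≤ Z) : (BB D Z : ℝ) ^ 2 ≤ 4 ^ (D + 1) * Z := by
  have hZ' : (1 : ℝ) ≤ Z := by exact_mod_cast hZ
  have h0 : (1 : ℝ) ≤ Real.sqrt Z := by
    rw [Real.le_sqrt' one_pos]; simpa using hZ'
  rw [BB, NNReal.coe_add, NNReal.coe_mul, NNReal.coe_pow, NNReal.coe_one, Real.coe_sqrt]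
  have h3 : ((2 : ℝ≥0) : ℝ) = 2 := by norm_num
  rw [h3]
  have h2 : (1 : ℝ) ≤ 2 ^ D := one_le_pow₀ (by norm_num)
  have h4 : Real.sqrt Z * 2 ^ D + 1 ≤ 2 ^ (D + 1) * Real.sqrt Z := by
    rw [pow_succ]
    nlinarith [mul_le_mul h0 h2 (by norm_num) (by positivity)]
  calc (Real.sqrt Z * 2 ^ D + 1) ^ 2 ≤ (2 ^ (D + 1) * Real.sqrt Z) ^ 2 :=
        pow_le_pow_left₀ (by positivity) h4 2
    _ = 4 ^ (D + 1) * Z := by
        rw [mul_pow, Real.sq_sqrt (by positivity), ← pow_mul, mul_comm (D + 1) 2, pow_mul]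
        norm_num

/- a primitive element with only one large absolute value -/
theorem exists_gen2 {Z : ℝ≥0} (hZ : 1 ≤ Z) (hK : ((|discr K| : ℤ) : ℝ) ≤ Z) :
    ∃ (w₀ : InfinitePlace K) (x : 𝓞 K), ℚ⟮(x : K)⟯ = ⊤ ∧
      (∀ w : InfinitePlace K, w ≠ w₀ → w x < 1) ∧
      (w₀ x) ^ 2 ≤ 4 ^ (finrank ℚ K + 2) * Z := by
  classical
  obtain ⟨B, hB⟩ : ∃ B : ℝ≥0, B = BB (finrank ℚ K) Z := ⟨_, rfl⟩
  have hlt : minkowskiBound K ↑1 < B := by rw [hB]; exact mink_lt hK
  have hBle : (B : ℝ) ^ 2 ≤ 4 ^ (finrank ℚ K + 1) * Z := by rw [hB]; exact BB_sq_le _ hZ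
  have hZ' : (1 : ℝ) ≤ Z := by exact_mod_cast hZ
  have hpow : (1 : ℝ) ≤ 4 ^ (finrank ℚ K + 1) := one_le_pow₀ (by norm_num)
  have hB1 : (1 : ℝ) ≤ 4 ^ (finrank ℚ K + 1) * Z := by nlinarith
  have hB2 : (4 : ℝ) ^ (finrank ℚ K + 2) * Z = 4 * (4 ^ (finrank ℚ K + 1) * Z) := by ring
  obtain ⟨w₀⟩ := (inferInstance : Nonempty (InfinitePlace K))
  by_cases hw₀ : IsReal w₀
  · have h1 : minkowskiBound K ↑1 < (convexBodyLTFactor K) * B := by
      calc minkowskiBound K 1 < B := hlt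
        _ = 1 * B := by rw [one_mul]
        _ ≤ convexBodyLTFactor K * B := by gcongr; exact mod_cast one_le_convexBodyLTFactor K
    obtain ⟨x, hx₁, hx₂, hx₃⟩ := exists_real w₀ hw₀ h1
    refine ⟨w₀, x, hx₁, hx₂, ?_⟩
    have h2 : 0 ≤ w₀ x := apply_nonneg _ _
    rw [hB2]
    nlinarith [pow_le_pow_left₀ h2 hx₃.le 2]
  · rw [not_isReal_iff_isComplex] at hw₀
    have h1 : minkowskiBound K ↑1 < (convexBodyLT'Factor K) * B := by
      calc minkowskiBound K 1 < B := hlt
        _ = 1 * B := by rw [one_mul]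
        _ ≤ convexBodyLT'Factor K * B := by gcongr; exact mod_cast one_le_convexBodyLT'Factor K
    obtain ⟨x, hx₁, hx₂, hx₃⟩ := exists_complex w₀ hw₀ h1
    refine ⟨w₀, x, hx₁, hx₂, ?_⟩
    have h2 : 0 ≤ w₀ x := apply_nonneg _ _
    have h3 := pow_le_pow_left₀ h2 hx₃.le 2
    rw [Real.sq_sqrt (by positivity)] at h3
    rw [hB2]
    linarith

end gen

theorem prod_max_le (s : Multiset ℂ) (hs : s.Nodup) (a b : ℂ) (R : ℝ) (hR : 1 ≤ R)
    (ha : ‖a‖ ≤ R) (hb : ‖b‖ ≤ R) (h : ∀ r ∈ s, r ≠ a → r ≠ b → ‖r‖ ≤ 1) :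
    (s.map (fun r ↦ max 1 ‖r‖)).prod ≤ R ^ 2 := by
  classical
  have h1 : (s.map (fun r ↦ max 1 ‖r‖)).prod = ∏ r ∈ s.toFinset, max 1 ‖r‖ := by
    rw [Finset.prod, Multiset.toFinset_val, hs.dedup]
  rw [h1]
  calc ∏ r ∈ s.toFinset, max 1 ‖r‖
      ≤ ∏ r ∈ s.toFinset, ((if r = a then R else 1) * (if r = b then R else 1)) := by
        refine Finset.prod_le_prod (fun r _ => by positivity) fun r hr => ?_
        by_cases hra : r = a
        · by_cases hrb : r = b
          · rw [if_pos hra, if_pos hrb]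
            subst hra
            refine max_le ?_ ?_ <;> nlinarith
          · rw [if_pos hra, if_neg hrb, mul_one, hra]
            exact max_le hR ha
        · by_cases hrb : r = b
          · rw [if_neg hra, if_pos hrb, one_mul, hrb]
            exact max_le hR hb
          · rw [if_neg hra, if_neg hrb, one_mul]
            exact max_le le_rfl (h r (Multiset.mem_toFinset.1 hr) hra hrb)
    _ = (if a ∈ s.toFinset then R else 1) * (if b ∈ s.toFinset then R else 1) := by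
        rw [Finset.prod_mul_distrib, Finset.prod_ite_eq', Finset.prod_ite_eq']
    _ ≤ R * R := by
        refine mul_le_mul ?_ ?_ ?_ (by linarith)
        · split_ifs <;> linarith
        · split_ifs <;> linarith
        · split_ifs <;> linarith
    _ = R ^ 2 := by ring

section coeff

variable {K L : Type*} [Field K] [NumberField K] [Field L] [NumberField L] [Algebra K L]

theorem exists_embedding (x : L) (τ : K →+* ℂ) (r : ℂ)
    (hr : r ∈ ((minpoly K x).map τ).roots) :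
    ∃ σ : L →+* ℂ, σ.comp (algebraMap K L) = τ ∧ σ x = r := by
  let _ : Algebra K ℂ := τ.toAlgebra
  have h1 : r ∈ (minpoly K x).rootSet ℂ := by
    rw [mem_rootSet]
    refine ⟨minpoly.ne_zero (Algebra.IsIntegral.isIntegral x), ?_⟩
    have h2 := (mem_roots'.1 hr).2
    rw [IsRoot.def, eval_map] at h2
    exact h2
  rw [← Algebra.IsAlgebraic.range_eval_eq_rootSet_minpoly] at h1
  obtain ⟨ψ, hψ⟩ := h1
  refine ⟨ψ.toRingHom, ?_, hψ⟩
  ext k
  exact ψ.commutes k

open scoped Classical in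
theorem coef_bound (x : 𝓞 L) (w₀ : InfinitePlace L)
    (hx : ∀ w : InfinitePlace L, w ≠ w₀ → w x < 1) (R : ℝ) (hR : 1 ≤ R) (hx0 : w₀ x ≤ R)
    (v : InfinitePlace K) (i : ℕ) :
    v ((minpoly K (x : L)).coeff i) ≤
      2 ^ finrank K L * (if v = w₀.comap (algebraMap K L) then R ^ 2 else 1) := by
  classical
  have hint : IsIntegral K (x : L) := Algebra.IsIntegral.isIntegral _
  obtain ⟨τ, hτ⟩ : ∃ τ : K →+* ℂ, τ = v.embedding := ⟨_, rfl⟩
  have hmk : InfinitePlace.mk τ = v := by rw [hτ, mk_embedding]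
  have h1 : v ((minpoly K (x : L)).coeff i) = ‖((minpoly K (x : L)).map τ).coeff i‖ := by
    rw [coeff_map, ← hmk]
    rfl
  rw [h1]
  have h2 : ((minpoly K (x : L)).map τ).natDegree ≤ finrank K L :=
    natDegree_map_le.trans (minpoly.natDegree_le (x : L))
  have hmon : ((minpoly K (x : L)).map τ).Monic := (minpoly.monic hint).map τ
  have h3 := norm_coeff_le_choose_mul_mahlerMeasure i ((minpoly K (x : L)).map τ)
  have h4 : ((((minpoly K (x : L)).map τ).natDegree.choose i : ℕ) : ℝ) ≤ 2 ^ finrank K L := by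
    have h5 : ((minpoly K (x : L)).map τ).natDegree.choose i ≤ 2 ^ finrank K L :=
      (Nat.choose_le_two_pow _ _).trans (Nat.pow_le_pow_right (by norm_num) h2)
    exact_mod_cast h5
  refine h3.trans ?_
  refine mul_le_mul h4 ?_ (mahlerMeasure_nonneg _) (by positivity)
  rw [mahlerMeasure_eq_leadingCoeff_mul_prod_roots, hmon.leadingCoeff, norm_one, one_mul]
  have hnd : ((minpoly K (x : L)).map τ).roots.Nodup := by
    refine nodup_roots ?_
    exact ((minpoly.irreducible hint).separable).map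
  have hsmall : ∀ σ : L →+* ℂ, InfinitePlace.mk σ ≠ w₀ → ‖σ x‖ ≤ 1 := by
    intro σ hσ
    exact (hx _ hσ).le
  by_cases hv : v = w₀.comap (algebraMap K L)
  · rw [if_pos hv]
    refine prod_max_le _ hnd (w₀.embedding x) (ComplexEmbedding.conjugate w₀.embedding x) R hR
      ?_ ?_ ?_
    · rw [norm_embedding_eq]; exact hx0
    · rw [ComplexEmbedding.conjugate_coe_eq, RCLike.norm_conj, norm_embedding_eq]; exact hx0
    · intro r hr hr1 hr2
      obtain ⟨σ, -, hσ⟩ := exists_embedding (x : L) τ r hr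
      rw [← hσ]
      refine hsmall σ fun h => ?_
      rw [← mk_embedding w₀, mk_eq_iff] at h
      rcases h with h | h
      · exact hr1 (by rw [← hσ, h])
      · refine hr2 ?_
        rw [← hσ, ← h, ComplexEmbedding.conjugate_coe_eq, ComplexEmbedding.conjugate_coe_eq,
          Complex.conj_conj]
  · rw [if_neg hv]
    refine le_of_eq (Multiset.prod_eq_one fun y hy => ?_)
    rw [Multiset.mem_map] at hy
    obtain ⟨r, hr, rfl⟩ := hy
    obtain ⟨σ, hσ1, hσ⟩ := exists_embedding (x : L) τ r hr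
    refine max_eq_left ?_
    rw [← hσ]
    refine hsmall σ fun h => hv ?_
    rw [← h, comap_mk, hσ1, hmk]

end coeff

end Pool.Agent.TH979.J3100
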