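import Mathlib
import Pool.Agent.H84.L.S8_TH444_ML_Defs
import Pool.Agent.H84.L.S8_TH444_ML_Defs2
import Pool.Agent.H84.L.S8_TH979_ML_Rel1



/-!
# Relative polynomial count of number fields, part 2: the count
-/

set_option autoImplicit false

open NumberField Module NumberField.InfinitePlace IntermediateField Polynomial

namespace Pool.Agent.TH979.J3100

open scoped Classical in
/- integers of `K` bounded by `R` at the place `v₀` and by `c` at the other places -/
def Bs (K : Type) [Field K] [NumberField K] (c R : ℝ) (v₀ : InfinitePlace K) : Set (𝓞 K) :=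
  {a | ∀ v : InfinitePlace K, v (a : K) ≤ if v = v₀ then R else c}

theorem finite_le (K : Type) [Field K] [NumberField K] (B : ℝ) :
    {a : 𝓞 K | ∀ v : InfinitePlace K, v (a : K) ≤ B}.Finite := by
  have h := Embeddings.finite_of_norm_le K ℂ B
  have h2 : ((fun a : 𝓞 K => (a : K)) ⁻¹' {x : K | IsIntegral ℤ x ∧
      ∀ φ : K →+* ℂ, ‖φ x‖ ≤ B}).Finite :=
    h.preimage (RingOfIntegers.coe_injective.injOn)
  refine h2.subset fun a ha => ?_
  refine ⟨a.isIntegral_coe, fun φ => ?_⟩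
  exact ha (InfinitePlace.mk φ)

theorem Bs_count (K : Type) [Field K] [NumberField K] (c : ℝ) :
    ∃ C : ℝ, 1 ≤ C ∧ ∀ (R : ℝ) (v₀ : InfinitePlace K), 0 ≤ R →
      (Bs K c R v₀).Finite ∧ ((Bs K c R v₀).ncard : ℝ) ≤ C * (R + 1) ^ 2 := by
  classical
  obtain ⟨N, hN⟩ : ∃ N : ℕ, N = {a : 𝓞 K | ∀ v : InfinitePlace K, v (a : K) ≤
    max 2 (2 * c)}.ncard := ⟨_, rfl⟩
  refine ⟨4 * N + 1, by have : (0 : ℝ) ≤ N := by positivity
                        linarith, fun R v₀ hR => ?_⟩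
  have hfin : (Bs K c R v₀).Finite := by
    refine (finite_le K (max R c)).subset fun a ha v => (ha v).trans ?_
    split_ifs
    · exact le_max_left _ _
    · exact le_max_right _ _
  refine ⟨hfin, ?_⟩
  obtain ⟨s, hs⟩ : ∃ s : Finset (𝓞 K), s = hfin.toFinset := ⟨_, rfl⟩
  obtain ⟨f, hf⟩ : ∃ f : 𝓞 K → ℤ × ℤ, f = fun a : 𝓞 K => (⌊(v₀.embedding (a : K)).re⌋,
    ⌊(v₀.embedding (a : K)).im⌋) := ⟨_, rfl⟩
  obtain ⟨T, hT⟩ : ∃ T : Finset (ℤ × ℤ), T = Finset.Icc ⌊-R⌋ ⌊R⌋ ×ˢ Finset.Icc ⌊-R⌋ ⌊R⌋ :=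
    ⟨_, rfl⟩
  have hmem : ∀ a, a ∈ s ↔ a ∈ Bs K c R v₀ := fun a => by rw [hs, Set.Finite.mem_toFinset]
  have hnorm : ∀ a ∈ s, ‖v₀.embedding (a : K)‖ ≤ R := by
    intro a ha
    rw [norm_embedding_eq]
    have := (hmem a).1 ha v₀
    rwa [if_pos rfl] at this
  have hmaps : ∀ a ∈ s, f a ∈ T := by
    intro a ha
    have h1 := hnorm a ha
    have h2 := abs_le.1 ((Complex.abs_re_le_norm _).trans h1)
    have h3 := abs_le.1 ((Complex.abs_im_le_norm _).trans h1)
    rw [hT, hf, Finset.mem_product, Finset.mem_Icc, Finset.mem_Icc]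
    exact ⟨⟨Int.floor_le_floor h2.1, Int.floor_le_floor h2.2⟩,
      Int.floor_le_floor h3.1, Int.floor_le_floor h3.2⟩
  have hfib : ∀ b ∈ T, (s.filter (fun a => f a = b)).card ≤ N := by
    intro b _
    rcases (s.filter (fun a => f a = b)).eq_empty_or_nonempty with h0 | ⟨a₀, ha₀⟩
    · rw [h0]; simp
    rw [Finset.mem_filter] at ha₀
    rw [hN, ← Set.ncard_coe_finset]
    have hinj : Function.Injective (fun a : 𝓞 K => a - a₀) := sub_left_injective
    rw [← Set.ncard_image_of_injective _ hinj]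
    refine Set.ncard_le_ncard ?_ (finite_le K _)
    rintro y ⟨a, ha, rfl⟩
    rw [Finset.mem_coe, Finset.mem_filter] at ha
    intro v
    have hcoe : (((a - a₀ : 𝓞 K)) : K) = (a : K) - (a₀ : K) := rfl
    change v (((a - a₀ : 𝓞 K)) : K) ≤ _
    rw [hcoe]
    by_cases hv : v = v₀
    · subst hv
      rw [← norm_embedding_eq, map_sub]
      have h1 := ha.2.trans ha₀.2.symm
      rw [hf] at h1
      simp only [Prod.mk.injEq] at h1
      obtain ⟨h2, h3⟩ := h1
      have h4 : |(v.embedding (a : K) - v.embedding (a₀ : K)).re| < 1 := by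
        rw [Complex.sub_re]
        exact Int.abs_sub_lt_one_of_floor_eq_floor h2
      have h5 : |(v.embedding (a : K) - v.embedding (a₀ : K)).im| < 1 := by
        rw [Complex.sub_im]
        exact Int.abs_sub_lt_one_of_floor_eq_floor h3
      have h6 := Complex.norm_le_abs_re_add_abs_im (v.embedding (a : K) - v.embedding (a₀ : K))
      exact (h6.trans (by linarith)).trans (le_max_left _ _)
    · have h1 := (hmem a).1 ha.1 v
      have h2 := (hmem a₀).1 ha₀.1 v
      rw [if_neg hv] at h1 h2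
      have h3 : v ((a : K) - (a₀ : K)) ≤ v (a : K) + v (a₀ : K) := by
        rw [← norm_embedding_eq, ← norm_embedding_eq, ← norm_embedding_eq, map_sub]
        exact norm_sub_le _ _
      exact (h3.trans (by linarith)).trans (le_max_right _ _)
  have hcard := Finset.card_le_mul_card_image_of_maps_to hmaps N hfib
  have h1 : (Bs K c R v₀).ncard = s.card := by
    rw [hs, Set.ncard_eq_toFinset_card _ hfin]
  rw [h1]
  have h2 : ((Finset.Icc ⌊-R⌋ ⌊R⌋).card : ℝ) ≤ 2 * (R + 1) := by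
    rw [Int.card_Icc]
    have h3 : ⌊-R⌋ ≤ ⌊R⌋ + 1 := by
      have : ⌊-R⌋ ≤ ⌊R⌋ := Int.floor_le_floor (by linarith)
      omega
    have h4 : (((⌊R⌋ + 1 - ⌊-R⌋).toNat : ℕ) : ℝ) = (⌊R⌋ : ℝ) + 1 - ⌊-R⌋ := by
      have h5 : (((⌊R⌋ + 1 - ⌊-R⌋).toNat : ℕ) : ℤ) = ⌊R⌋ + 1 - ⌊-R⌋ := Int.toNat_of_nonneg (by omega)
      have h6 : ((((⌊R⌋ + 1 - ⌊-R⌋).toNat : ℕ) : ℤ) : ℝ) = ((⌊R⌋ + 1 - ⌊-R⌋ : ℤ) : ℝ) := by
        rw [h5]
      rw [Int.cast_natCast] at h6
      rw [h6]
      push_cast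
      ring
    rw [h4]
    have h7 := Int.floor_le R
    have h8 := Int.lt_floor_add_one (-R)
    linarith
  have h3 : (T.card : ℝ) ≤ (2 * (R + 1)) ^ 2 := by
    rw [hT, Finset.card_product, Nat.cast_mul, sq]
    exact mul_le_mul h2 h2 (by positivity) (by positivity)
  calc (s.card : ℝ) ≤ (N : ℝ) * T.card := by exact_mod_cast hcard
    _ ≤ (N : ℝ) * (2 * (R + 1)) ^ 2 := by gcongr
    _ ≤ (4 * N + 1) * (R + 1) ^ 2 := by nlinarith [sq_nonneg (R + 1)]

section polys

variable {O : Type} [CommRing O]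

open scoped Classical in
/- monic polynomials of degree `u` with lower coefficients in `S` -/
noncomputable def QP (u : ℕ) (S : Finset O) : Finset O[X] :=
  (Fintype.piFinset fun _ : Fin u => S).image
    fun c => X ^ u + ∑ i : Fin u, C (c i) * X ^ (i : ℕ)

theorem card_QP (u : ℕ) (S : Finset O) : (QP u S).card ≤ S.card ^ u := by
  classical
  refine Finset.card_image_le.trans ?_
  rw [Fintype.card_piFinset_const]

theorem mem_QP {u : ℕ} {S : Finset O} {f : O[X]} (hf : f.Monic) (hd : f.natDegree = u)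
    (hc : ∀ i, i < u → f.coeff i ∈ S) : f ∈ QP u S := by
  classical
  rw [QP, Finset.mem_image]
  refine ⟨fun i => f.coeff i, ?_, ?_⟩
  · rw [Fintype.mem_piFinset]
    intro i
    exact hc i i.2
  · subst hd
    have h := hf.as_sum
    rw [Finset.sum_range] at h
    exact h.symm

theorem natDegree_QP [Nontrivial O] {u : ℕ} {S : Finset O} {f : O[X]} (hf : f ∈ QP u S) :
    f.Monic ∧ f.natDegree = u := by
  classical
  rw [QP, Finset.mem_image] at hf
  obtain ⟨c, -, rfl⟩ := hf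
  have h : (∑ i : Fin u, C (c i) * X ^ (i : ℕ) : O[X]).degree < (u : ℕ) :=
    Polynomial.degree_sum_fin_lt _
  refine ⟨monic_X_pow_add h, ?_⟩
  have h1 : (X ^ u + ∑ i : Fin u, C (c i) * X ^ (i : ℕ) : O[X]).degree = (u : ℕ) := by
    rw [degree_add_eq_left_of_degree_lt, degree_X_pow]
    rw [degree_X_pow]
    exact h
  exact natDegree_eq_of_degree_eq_some h1

open scoped Classical in
/- the roots of these polynomials -/
noncomputable def RT (A : Type) [Field A] [Algebra O A] (u : ℕ) (S : Finset O) : Finset A :=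
  (QP u S).biUnion fun f => ((f.map (algebraMap O A)).roots).toFinset

theorem card_RT [Nontrivial O] (A : Type) [Field A] [Algebra O A] (u : ℕ) (S : Finset O) :
    (RT A u S).card ≤ S.card ^ u * u := by
  classical
  rw [RT]
  refine (Finset.card_biUnion_le_card_mul _ _ u fun f hf => ?_).trans
    (Nat.mul_le_mul_right _ (card_QP u S))
  refine (Multiset.toFinset_card_le _).trans ((card_roots' _).trans ?_)
  rw [← (natDegree_QP hf).2]
  exact natDegree_map_le

theorem mem_RT {A : Type} [Field A] [Algebra O A] {u : ℕ} {S : Finset O} {x : A} (f : O[X])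
    (hf : f.Monic) (hx : aeval x f = 0) (hd : f.natDegree = u)
    (hc : ∀ i, i < u → f.coeff i ∈ S) : x ∈ RT A u S := by
  classical
  rw [RT, Finset.mem_biUnion]
  refine ⟨f, mem_QP hf hd hc, ?_⟩
  rw [Multiset.mem_toFinset, mem_roots]
  · rw [IsRoot.def, eval_map_algebraMap]
    exact hx
  · exact (hf.map _).ne_zero

end polys

theorem exists_RT (K Ω : Type) [Field K] [NumberField K] [Field Ω] [Algebra K Ω] (u : ℕ) (Z : ℝ)
    (hZ : 1 ≤ Z) (F : IntermediateField K Ω) (hfin : FiniteDimensional K F)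
    (hu : finrank K F = u) (hF : Pool.Agent.TH444.ML.dsc F ≤ Z)
    (S : InfinitePlace K → Finset (𝓞 K))
    (hS : ∀ v₀, ∀ a ∈ Bs K (2 ^ u) (2 ^ u * (4 ^ (u * finrank ℚ K + 2) * Z)) v₀, a ∈ S v₀) :
    ∃ (v₀ : InfinitePlace K) (y : Ω), y ∈ RT Ω u (S v₀) ∧ F = K⟮y⟯ := by
  classical
  have hNF : NumberField F := NumberField.of_module_finite K F
  have hF' : ((|discr F| : ℤ) : ℝ) ≤ Z := by
    rw [Pool.Agent.TH444.ML.dsc, dif_pos hNF] at hF
    exact hF
  obtain ⟨Z', rfl⟩ : ∃ Z' : NNReal, (Z' : ℝ) = Z := ⟨⟨Z, by linarith⟩, rfl⟩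
  have hZ' : 1 ≤ Z' := by exact_mod_cast hZ
  obtain ⟨w₀, x, hx, hx1, hx2⟩ := exists_gen2 (K := F) hZ' hF'
  have htop : (IntermediateField.adjoin K {(x : F)} : IntermediateField K F) = ⊤ := by
    rw [eq_top_iff]
    intro z _
    have hz : z ∈ (IntermediateField.adjoin ℚ {(x : F)}).toSubfield := by
      rw [hx]
      exact Set.mem_univ z
    have hle : (IntermediateField.adjoin ℚ {(x : F)}).toSubfield ≤
        (IntermediateField.adjoin K {(x : F)} : IntermediateField K F).toSubfield := by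
      refine IntermediateField.adjoin_le_subfield ℚ _ ?_ ?_
      · rintro _ ⟨q, rfl⟩
        rw [eq_ratCast]
        exact SubfieldClass.ratCast_mem (IntermediateField.adjoin K {(x : F)} : IntermediateField K F) q
      · intro w hw
        rw [Set.mem_singleton_iff] at hw
        subst hw
        exact IntermediateField.mem_adjoin_simple_self K _
    exact hle hz
  obtain ⟨y, hy⟩ : ∃ y : Ω, y = ((x : F) : Ω) := ⟨_, rfl⟩
  have hFy : F = K⟮y⟯ := by
    have hx' := congrArg IntermediateField.lift htop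
    rw [IntermediateField.lift_top, IntermediateField.lift_adjoin, Set.image_singleton] at hx'
    rw [hy]
    exact hx'.symm
  have hyi : IsIntegral ℤ y := by
    rw [hy]
    exact x.isIntegral_coe.map (IsScalarTower.toAlgHom ℤ F Ω)
  have hinty : IsIntegral (𝓞 K) y := hyi.tower_top
  have hmin1 : minpoly K y = minpoly K (x : F) := by
    rw [hy]
    exact minpoly.algebraMap_eq (algebraMap F Ω).injective (x : F)
  have hmin2 : minpoly K y = (minpoly (𝓞 K) y).map (algebraMap (𝓞 K) K) :=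
    minpoly.isIntegrallyClosed_eq_field_fractions' K hinty
  have hmon := minpoly.monic hinty
  refine ⟨w₀.comap (algebraMap K F), y, mem_RT (minpoly (𝓞 K) y) hmon (minpoly.aeval _ _) ?_ ?_,
    hFy⟩
  · have h1 := (Field.primitive_element_iff_minpoly_natDegree_eq K (x : F)).1 htop
    rw [← hu, ← h1, ← hmin1, hmin2, hmon.natDegree_map]
  · intro i _
    refine hS _ _ fun v => ?_
    have hc : (((minpoly (𝓞 K) y).coeff i : 𝓞 K) : K) = (minpoly K (x : F)).coeff i := by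
      rw [← hmin1, hmin2, coeff_map]
    rw [hc]
    obtain ⟨R, hR⟩ : ∃ R : ℝ, R = max 1 (w₀ x) := ⟨_, rfl⟩
    have hR1 : 1 ≤ R := by rw [hR]; exact le_max_left _ _
    have hR2 : w₀ x ≤ R := by rw [hR]; exact le_max_right _ _
    have hdeg : finrank ℚ F = u * finrank ℚ K := by
      rw [← hu, mul_comm, Module.finrank_mul_finrank]
    have hR3 : R ^ 2 ≤ 4 ^ (u * finrank ℚ K + 2) * Z' := by
      rw [hdeg] at hx2
      rw [hR]
      rcases max_choice 1 (w₀ x) with h | h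
      · rw [h]
        have h4 : (1 : ℝ) ≤ 4 ^ (u * finrank ℚ K + 2) := one_le_pow₀ (by norm_num)
        nlinarith
      · rw [h]; exact hx2
    have hcb := coef_bound (K := K) x w₀ hx1 R hR1 hR2 v i
    rw [hu] at hcb
    refine hcb.trans ?_
    by_cases hv : v = w₀.comap (algebraMap K F)
    · rw [if_pos hv, if_pos hv]
      gcongr
    · rw [if_neg hv, if_neg hv, mul_one]

theorem hermiteRel : Pool.Agent.TH444.ML.HermiteRel := by
  classical
  intro K Ω _ _ _ _ _ u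
  obtain ⟨C, hC1, hC⟩ := Bs_count K (2 ^ u)
  obtain ⟨E, hE⟩ : ∃ E : ℝ, E = 2 ^ u * 4 ^ (u * finrank ℚ K + 2) := ⟨_, rfl⟩
  have hE1 : 1 ≤ E := by
    rw [hE]
    have h1 : (1 : ℝ) ≤ 2 ^ u := one_le_pow₀ (by norm_num)
    have h2 : (1 : ℝ) ≤ 4 ^ (u * finrank ℚ K + 2) := one_le_pow₀ (by norm_num)
    nlinarith
  refine ⟨Fintype.card (InfinitePlace K) * ((C * (2 * E) ^ 2) ^ u * u), fun Z hZ => ?_⟩
  have hR : 0 ≤ 2 ^ u * (4 ^ (u * finrank ℚ K + 2) * Z) := by positivity
  obtain ⟨S, hS⟩ : ∃ S : InfinitePlace K → Finset (𝓞 K), S = fun v₀ =>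
    (hC (2 ^ u * (4 ^ (u * finrank ℚ K + 2) * Z)) v₀ hR).1.toFinset := ⟨_, rfl⟩
  have hS1 : ∀ v₀, ∀ a ∈ Bs K (2 ^ u) (2 ^ u * (4 ^ (u * finrank ℚ K + 2) * Z)) v₀, a ∈ S v₀ := by
    intro v₀ a ha
    rw [hS]
    exact (Set.Finite.mem_toFinset _).2 ha
  have hS2 : ∀ v₀, ((S v₀).card : ℝ) ≤ C * (2 * E) ^ 2 * Z ^ 2 := by
    intro v₀
    have h1 := (hC (2 ^ u * (4 ^ (u * finrank ℚ K + 2) * Z)) v₀ hR).2
    rw [Set.ncard_eq_toFinset_card _ (hC _ v₀ hR).1] at h1
    rw [hS]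
    refine h1.trans ?_
    have h2 : 2 ^ u * (4 ^ (u * finrank ℚ K + 2) * Z) = E * Z := by rw [hE]; ring
    rw [h2, mul_assoc C]
    have h3 : (1 : ℝ) ≤ E * Z := by nlinarith
    have h4 : (E * Z + 1) ^ 2 ≤ (2 * E) ^ 2 * Z ^ 2 := by
      rw [← mul_pow]
      exact pow_le_pow_left₀ (by positivity) (by nlinarith) 2
    gcongr
  obtain ⟨T, hT⟩ : ∃ T : Finset Ω, T = Finset.univ.biUnion fun v₀ => RT Ω u (S v₀) := ⟨_, rfl⟩
  have hsub : {F : IntermediateField K Ω | FiniteDimensional K F ∧ Module.finrank K F = u ∧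
      Pool.Agent.TH444.ML.dsc F ≤ Z} ⊆ ((T.image fun y => K⟮y⟯ :
        Finset (IntermediateField K Ω)) : Set (IntermediateField K Ω)) := by
    rintro F ⟨hfin, hu, hF⟩
    obtain ⟨v₀, y, hy, hFy⟩ := exists_RT K Ω u Z hZ F hfin hu hF S hS1
    rw [Finset.mem_coe, Finset.mem_image]
    refine ⟨y, ?_, hFy.symm⟩
    rw [hT, Finset.mem_biUnion]
    exact ⟨v₀, Finset.mem_univ _, hy⟩
  refine ⟨(Finset.finite_toSet _).subset hsub, ?_⟩
  have h1 : Set.ncard {F : IntermediateField K Ω | FiniteDimensional K F ∧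
      Module.finrank K F = u ∧ Pool.Agent.TH444.ML.dsc F ≤ Z} ≤ T.card := by
    refine (Set.ncard_le_ncard hsub (Finset.finite_toSet _)).trans ?_
    rw [Set.ncard_coe_finset]
    exact Finset.card_image_le
  have h2 : (T.card : ℝ) ≤ ∑ v₀ : InfinitePlace K, ((RT Ω u (S v₀)).card : ℝ) := by
    rw [hT]
    exact_mod_cast Finset.card_biUnion_le
  have h3 : ∀ v₀ : InfinitePlace K, ((RT Ω u (S v₀)).card : ℝ) ≤
      (C * (2 * E) ^ 2) ^ u * u * Z ^ (2 * u) := by
    intro v₀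
    calc ((RT Ω u (S v₀)).card : ℝ) ≤ ((S v₀).card : ℝ) ^ u * u := by
          exact_mod_cast card_RT Ω u (S v₀)
      _ ≤ (C * (2 * E) ^ 2 * Z ^ 2) ^ u * u := by
          gcongr
          exact hS2 v₀
      _ = _ := by rw [mul_pow, ← pow_mul]; ring
  calc ((Set.ncard {F : IntermediateField K Ω | FiniteDimensional K F ∧
      Module.finrank K F = u ∧ Pool.Agent.TH444.ML.dsc F ≤ Z} : ℕ) : ℝ) ≤ T.card := by
        exact_mod_cast h1
    _ ≤ _ := h2
    _ ≤ ∑ _v₀ : InfinitePlace K, (C * (2 * E) ^ 2) ^ u * u * Z ^ (2 * u) :=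
        Finset.sum_le_sum fun v₀ _ => h3 v₀
    _ = _ := by
        rw [Finset.sum_const, Finset.card_univ, nsmul_eq_mul]
        ring

end Pool.Agent.TH979.J3100
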