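import Mathlib
import Pool.Agent.H84.L.S8_TH228_J3101
import Pool.Agent.H84.L.S8_TH370_J3089
import Pool.Agent.H84.L.S8_TH444_ML_All
import Pool.Agent.H84.L.S8_TH938_J3088
import Pool.Agent.H84.L.S8_TH979_ML_Rel2



namespace Pool.Agent.TH444.ML

theorem rest : Rest :=
  ⟨Pool.Agent.TH938.J3088.coneFacts,
    Pool.Agent.TH370.J3089.coneSqf Pool.Agent.TH938.J3088.coneFacts Pool.Agent.TH938.J3088.coneDens,
    Pool.Agent.TH228.J3101.fewGalRel Pool.Agent.TH979.J3100.hermiteRel⟩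

end Pool.Agent.TH444.ML
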