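import Mathlib
import Pool.Agent.H84.L.A9_W5h46_MR_Defs
import Pool.Agent.H84.L.A9_W5h46_MR_JobA
import Pool.Agent.H84.L.A9_W5h46_MR_JobA2
import Pool.Agent.H84.L.A9_W5h46_MR_JobB
import Pool.Agent.H84.L.A9_W5h46_MR_JobC
import Pool.Agent.H84.L.S8_TH263_J3086
import Pool.Agent.H84.L.S8_TH444_ML_All
import Pool.Agent.H84.L.S8_TH444_ML_Done
import Pool.Agent.H84.L.S8_TH55_J3092
import Pool.Agent.H84.L.S8_TH89_J3091
import Pool.Agent.H84.L.S8_TH914_J3087
import Pool.Agent.H84.L.S8_TH938_J3088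

namespace Pool.Agent.TH444.ML
end Pool.Agent.TH444.ML


/-!
# The facts on quadratic extensions
-/

set_option autoImplicit false

namespace Pool.Agent.W5h46.MR

open Pool.Agent.TH444.ML (quadLim quadUnif quadPos rest)

theorem limR₀ : LimR :=
  limR wtR Pool.Agent.TH914.J3087.kumP Pool.Agent.TH938.J3088.coneFacts rest.coneSqf (quadLim rest)
    quadPos quadUnif Pool.Agent.TH263.J3086.discQuad

theorem compR₀ : CompR :=
  compR wtR Pool.Agent.TH263.J3086.discQuad Pool.Agent.TH914.J3087.kumP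

theorem unifR₀ : UnifR :=
  unifR ramR Pool.Agent.TH914.J3087.kumP Pool.Agent.TH89.J3091.idealUnif
    Pool.Agent.TH55.J3092.princUnif

end Pool.Agent.W5h46.MR
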