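import Mathlib
import Pool.Agent.H84.L.A9_W5h46_ML_Grp
import Pool.Agent.H84.L.S8_TH365_J3099
import Pool.Agent.H84.L.S8_TH444_ML_Defs

namespace Pool.Agent.TH365.J3099
end Pool.Agent.TH365.J3099
namespace Pool.Agent.W5h46.ML
end Pool.Agent.W5h46.ML


/-!
# Extensions with group `C₂ ^ (X / V) ⋊ X`, acting on `X × {0, 1}`
-/

set_option autoImplicit false
set_option linter.unusedSectionVars false

open IntermediateField
open Pool.Agent.TH365.J3099 (act act_apply act_apply_apply ker_act imP ncard_imP)
open Pool.Agent.W5h46.ML (exists_ext act_val_eq card_emb Over exists_pair)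

namespace Pool.Agent.W5h46.MR


/- pairs `(N, M)`: `N/K` is Galois with group `X`, `M` corresponds to `V` -/
def PV (K Ω : Type) [Field K] [Field Ω] [Algebra K Ω] (X : Type) [Group X] (V : Subgroup X) :
    Set (IntermediateField K Ω × IntermediateField K Ω) :=
  {p | FiniteDimensional K p.1 ∧ ∃ h : (Ω ≃ₐ[K] Ω) →* X, Function.Surjective h ∧
    h.ker = p.1.fixingSubgroup ∧ V.comap h = p.2.fixingSubgroup}


section wr

variable {X : Type} [Group X] {V : Subgroup X}


theorem perm_bool {f : Equiv.Perm Bool} {b : Bool} (h : f b = b) : f = 1 := by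
  ext c
  have h1 : f (!b) ≠ b := by
    intro h2
    have := f.injective (h2.trans h.symm)
    cases b <;> simp at this
  have h3 : f (!b) = !b := by
    revert h1
    cases f (!b) <;> cases b <;> simp
  by_cases hc : c = b
  · rw [hc, h]; rfl
  · have : c = !b := by revert hc; cases c <;> cases b <;> simp
    rw [this, h3]; rfl


end wr

section main

variable {K Ω : Type} [Field K] [CharZero K] [Field Ω] [Algebra K Ω] [IsAlgClosure K Ω]
variable {X : Type} [Group X] [Finite X] {V : Subgroup X}

theorem fix_inj [IsGalois K Ω] {A B : IntermediateField K Ω} (h : A.fixingSubgroup = B.fixingSubgroup) :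
    A = B := by
  rw [← InfiniteGalois.fixedField_fixingSubgroup A, h, InfiniteGalois.fixedField_fixingSubgroup]

theorem le_of_fix [IsGalois K Ω] {A B : IntermediateField K Ω} (h : B.fixingSubgroup ≤ A.fixingSubgroup) :
    A ≤ B := by
  rw [← InfiniteGalois.fixedField_fixingSubgroup A, ← InfiniteGalois.fixedField_fixingSubgroup B]
  intro x hx
  rw [mem_fixedField_iff] at hx ⊢
  exact fun σ hσ => hx σ (h hσ)

/- fields with given open fixing subgroup -/
theorem exists_field [IsGalois K Ω] (B : Subgroup (Ω ≃ₐ[K] Ω)) (hB : IsOpen (B : Set (Ω ≃ₐ[K] Ω))) :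
    ∃ M : IntermediateField K Ω, M.fixingSubgroup = B ∧ FiniteDimensional K M := by
  have hBc : IsClosed (B : Set (Ω ≃ₐ[K] Ω)) := Subgroup.isClosed_of_isOpen _ hB
  have hM : (fixedField B).fixingSubgroup = B :=
    InfiniteGalois.fixingSubgroup_fixedField ⟨B, hBc⟩
  refine ⟨fixedField B, hM, ?_⟩
  rw [← InfiniteGalois.isOpen_iff_finite, hM]
  exact hB

theorem mem_fix_iff (L : IntermediateField K Ω) (σ : Ω ≃ₐ[K] Ω) :
    σ ∈ L.fixingSubgroup ↔ act L σ L.val = L.val := by
  have h := act_val_eq L 1 σ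
  rw [map_one, Equiv.Perm.one_apply, inv_one, one_mul] at h
  rw [← h]
  exact eq_comm

/- basic facts on the pairs -/
theorem pv_basic {N M : IntermediateField K Ω} (h : (N, M) ∈ PV K Ω X V) :
    M ≤ N ∧ FiniteDimensional K M ∧ IsGalois K N ∧ Module.finrank K N = Nat.card X ∧
      Module.finrank K M = Nat.card (X ⧸ V) ∧ N ∈ Pool.Agent.TH444.ML.Gal K Ω X := by
  have i2 : Normal K Ω := IsAlgClosure.normal K Ω
  have i3 : Algebra.IsAlgebraic K Ω := IsAlgClosure.isAlgebraic
  have i4 : Algebra.IsSeparable K Ω := inferInstance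
  have i5 : IsGalois K Ω := ⟨⟩
  obtain ⟨hfd, h, hs, hk, hv⟩ := h
  simp only at hfd hk hv
  have hle : h.ker ≤ V.comap h := by
    intro σ hσ
    rw [MonoidHom.mem_ker] at hσ
    rw [Subgroup.mem_comap, hσ]
    exact one_mem _
  have hMN : M ≤ N := le_of_fix (by rw [← hk, ← hv]; exact hle)
  have hMfd : FiniteDimensional K M :=
    FiniteDimensional.of_injective (IntermediateField.inclusion hMN).toLinearMap
      (IntermediateField.inclusion hMN).injective
  have hnorm : N.fixingSubgroup.Normal := by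
    rw [← hk]
    infer_instance
  have hgal : IsGalois K N := by
    rw [← InfiniteGalois.normal_iff_isGalois]
    exact hnorm
  have hker : h.ker = (AlgEquiv.restrictNormalHom (F := K) (K₁ := Ω) N).ker := by
    rw [IntermediateField.restrictNormalHom_ker, hk]
  have f := (QuotientGroup.quotientKerEquivOfSurjective _ (AlgEquiv.restrictNormalHom_surjective (F := K) (K₁ := N) Ω)).symm.trans
    ((QuotientGroup.quotientMulEquivOfEq hker.symm).trans (QuotientGroup.quotientKerEquivOfSurjective h hs))
  refine ⟨hMN, hMfd, hgal, ?_, ?_, ⟨hfd, hgal, ⟨f⟩⟩⟩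
  · rw [IntermediateField.finrank_eq_fixingSubgroup_index, ← hk, Subgroup.index_ker,
      MonoidHom.range_eq_top.2 hs]
    exact Nat.card_congr Subgroup.topEquiv.toEquiv
  · rw [IntermediateField.finrank_eq_fixingSubgroup_index, ← hv,
      Subgroup.index_comap_of_surjective _ hs]
    rfl

/- the equivariant bijection between the embeddings and the points of `A` -/
theorem emb_equiv [IsGalois K Ω] {A : Type} [MulAction X A] [MulAction.IsPretransitive X A] (F : IntermediateField K Ω)
    (h : (Ω ≃ₐ[K] Ω) →* X) (hs : Function.Surjective h) (a0 : A)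
    (hF : F.fixingSubgroup = (MulAction.stabilizer X a0).comap h) :
    ∃ e : (F →ₐ[K] Ω) ≃ A, (∀ σ φ, e (act F σ φ) = h σ • e φ) ∧ e F.val = a0 := by
  choose s hsv using exists_ext (K := K) (Ω := Ω) F
  have hwd : ∀ σ τ : Ω ≃ₐ[K] Ω, act F σ F.val = act F τ F.val ↔ h σ • a0 = h τ • a0 := by
    intro σ τ
    rw [act_val_eq, hF, Subgroup.mem_comap, MulAction.mem_stabilizer_iff, map_mul, map_inv, mul_smul,
      inv_smul_eq_iff, eq_comm]
  let θ : (F →ₐ[K] Ω) → A := fun φ => h (s φ) • a0
  have hθ : ∀ σ, θ (act F σ F.val) = h σ • a0 := fun σ => (hwd _ _).1 (hsv _)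
  have hbij : Function.Bijective θ := by
    constructor
    · intro φ ψ hφψ
      rw [← hsv φ, ← hsv ψ]
      exact (hwd _ _).2 hφψ
    · intro q
      obtain ⟨x, hx⟩ := MulAction.exists_smul_eq X a0 q
      obtain ⟨σ, hσ⟩ := hs x
      exact ⟨act F σ F.val, by rw [hθ, hσ, hx]⟩
  refine ⟨Equiv.ofBijective θ hbij, ?_, ?_⟩
  · intro σ φ
    change θ (act F σ φ) = h σ • θ φ
    conv_lhs => rw [← hsv φ]
    rw [← Equiv.Perm.mul_apply, ← map_mul, hθ, map_mul, mul_smul]
  · change θ F.val = a0
    have h1 := hθ 1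
    rw [map_one, map_one, one_smul] at h1
    exact h1


end main

end Pool.Agent.W5h46.MR
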