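import Mathlib
import Pool.Agent.H84.L.S8_TH444_ML_Defs



/-!
# Quadratic extensions of M as extensions of K
-/

set_option autoImplicit false
set_option linter.unusedSectionVars false

open NumberField Filter Topology

namespace Pool.Agent.TH444.ML

section basics

variable {K Ω : Type} [Field K] [NumberField K] [Field Ω] [Algebra K Ω]

theorem nf_of_fd (M : IntermediateField K Ω) [FiniteDimensional K M] : NumberField M :=
  NumberField.of_module_finite K M

theorem dsc_eq (M : IntermediateField K Ω) [h : NumberField M] :
    dsc M = ((|discr M| : ℤ) : ℝ) := by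
  unfold dsc
  rw [dif_pos h]

theorem one_le_dsc (M : IntermediateField K Ω) : 1 ≤ dsc M := by
  unfold dsc
  split_ifs with h
  · have : (1 : ℤ) ≤ |@discr M _ h| := Int.one_le_abs (@discr_ne_zero M _ h)
    exact_mod_cast this
  · exact le_rfl


/- the quadratic extensions of `M` as extensions of `K` -/
def AS (M : IntermediateField K Ω) (Y : ℝ) : Set (IntermediateField K Ω) :=
  {L | M ≤ L ∧ Module.finrank K L = 2 * Module.finrank K M ∧ dsc L ≤ Y * dsc M ^ 2}

theorem fd_of_AS {M : IntermediateField K Ω} [FiniteDimensional K M] {L : IntermediateField K Ω}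
    (h : Module.finrank K L = 2 * Module.finrank K M) : FiniteDimensional K L := by
  have : 0 < Module.finrank K M := Module.finrank_pos
  exact FiniteDimensional.of_finrank_pos (by omega)

theorem extend_mem {M : IntermediateField K Ω} [FiniteDimensional K M] [NumberField M] {Y : ℝ}
    (L : IntermediateField K Ω) (hML : M ≤ L) :
    L ∈ AS M Y ↔ IntermediateField.extendScalars hML ∈ QS M Ω Y := by
  have hfin : Module.finrank K L = Module.finrank K M *
      Module.finrank M (IntermediateField.extendScalars hML) := by
    exact (Module.finrank_mul_finrank K M (IntermediateField.extendScalars hML)).symm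
  have hpos : 0 < Module.finrank K M := Module.finrank_pos
  constructor
  · rintro ⟨-, h1, h2⟩
    have hfd : FiniteDimensional K L := fd_of_AS h1
    have hnf : NumberField L := nf_of_fd L
    refine ⟨?_, ?_⟩
    · rw [h1] at hfin
      exact (Nat.eq_of_mul_eq_mul_left hpos (by rw [← hfin]; ring))
    · refine ⟨hnf, ?_⟩
      rw [dsc_eq L, dsc_eq M] at h2
      have e : (((|discr M| : ℤ) : ℝ)) ^ 2 = ((discr M : ℤ) : ℝ) ^ 2 := by
        push_cast
        exact sq_abs _
      rw [e] at h2
      exact h2
  · rintro ⟨h1, hnf, h2⟩
    have hnf' : NumberField L := hnf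
    refine ⟨hML, ?_, ?_⟩
    · rw [hfin, h1]; ring
    · rw [dsc_eq L, dsc_eq M]
      have e : (((|discr M| : ℤ) : ℝ)) ^ 2 = ((discr M : ℤ) : ℝ) ^ 2 := by
        push_cast
        exact sq_abs _
      rw [e]
      exact h2


theorem finite_AS (M : IntermediateField K Ω) [FiniteDimensional K M] [NumberField M] (Y : ℝ)
    (h : (QS M Ω Y).Finite) : (AS M Y).Finite := by
  have himg : (fun L' : IntermediateField M Ω => IntermediateField.restrictScalars K L') ''
      (QS M Ω Y) = AS M Y := by
    ext L
    constructor
    · rintro ⟨L', hL', rfl⟩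
      have hle : M ≤ IntermediateField.restrictScalars K L' := by
        intro x hx
        exact L'.algebraMap_mem ⟨x, hx⟩
      rw [extend_mem _ hle]
      exact hL'
    · intro hL
      refine ⟨IntermediateField.extendScalars hL.1, (extend_mem L hL.1).1 hL, ?_⟩
      rfl
  rw [← himg]
  exact h.image _

end basics

end Pool.Agent.TH444.ML
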