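import Mathlib
import Pool.Agent.H84.L.A9_W5h46_MR_JobA2
import Pool.Agent.H84.L.S8_TH444_ML_Defs
import Pool.Agent.H84.L.S8_TH444_ML_Tr

namespace Pool.Agent.TH444.ML
end Pool.Agent.TH444.ML


/-!
# JOB D: `d_M ^ [N : M] ≤ d_N`
-/

set_option autoImplicit false

open NumberField IntermediateField

namespace Pool.Agent.W5h46.MR

open Pool.Agent.TH444.ML (dsc nf_of_fd dsc_eq)

theorem dsc_pow_le (K Ω : Type) [Field K] [NumberField K] [Field Ω] [Algebra K Ω]
    (M N : IntermediateField K Ω) [FiniteDimensional K N] (hMN : M ≤ N) (r : ℕ)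
    (hr : Module.finrank K N = r * Module.finrank K M) :
    Pool.Agent.TH444.ML.dsc M ^ r ≤ Pool.Agent.TH444.ML.dsc N := by
  have hfM : FiniteDimensional K M :=
    FiniteDimensional.of_injective (IntermediateField.inclusion hMN).toLinearMap
      (IntermediateField.inclusion hMN).injective
  have hnM : NumberField M := nf_of_fd M
  have hnN : NumberField N := nf_of_fd N
  let _ : Algebra M N := (IntermediateField.inclusion hMN).toRingHom.toAlgebra
  have hst : IsScalarTower K M N := IsScalarTower.of_algebraMap_eq fun x => rfl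
  have h2 : Module.finrank K M * Module.finrank M N = Module.finrank K N :=
    Module.finrank_mul_finrank K M N
  have hpos : 0 < Module.finrank K M := Module.finrank_pos
  have h3 : Module.finrank M N = r := by
    rw [hr, mul_comm] at h2
    exact Nat.eq_of_mul_eq_mul_right hpos h2
  have h1 := discr_eq (M := M) (N := N)
  rw [h3] at h1
  have h4 : 1 ≤ Ideal.absNorm (dif M N) := Nat.one_le_iff_ne_zero.2 (by
    rw [Ne, Ideal.absNorm_eq_zero_iff]
    exact dif_ne)
  have h5 : (discr M).natAbs ^ r ≤ (discr N).natAbs := by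
    rw [h1]
    exact Nat.le_mul_of_pos_left _ h4
  rw [dsc_eq M, dsc_eq N]
  have h6 : ((|discr M| : ℤ) : ℝ) = ((discr M).natAbs : ℝ) := by
    rw [Int.abs_eq_natAbs, Int.cast_natCast]
  have h7 : ((|discr N| : ℤ) : ℝ) = ((discr N).natAbs : ℝ) := by
    rw [Int.abs_eq_natAbs, Int.cast_natCast]
  rw [h6, h7]
  exact_mod_cast h5

end Pool.Agent.W5h46.MR
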