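import Mathlib
import Pool.Agent.H84.L.A9_W5h46_MR_Defs
import Pool.Agent.H84.L.S8_TH914_J3087

namespace Pool.Agent.TH914.J3087
end Pool.Agent.TH914.J3087


/-! JOB G (helper18 for helper46): the quadratic extensions with a given compositum. -/

set_option autoImplicit false

open IntermediateField

namespace Pool.Agent.W5h46.MR

open Pool.Agent.TH914.J3087

section fields

variable {M E : Type} [Field M] [CharZero M] [Field E] [Algebra M E]

lemma adjoin_eq_iff {a a' : M} {y y' : E} (hy : y ≠ 0) (hy' : y' ≠ 0)
    (h : y ^ 2 = algebraMap M E a) (h' : y' ^ 2 = algebraMap M E a') :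
    adjoin M {y} = adjoin M {y'} ↔ ∃ m : M, m ≠ 0 ∧ y' = algebraMap M E m * y := by
  constructor
  · intro he
    have hmem : y' ∈ adjoin M {y} := by
      rw [he]
      exact mem_adjoin_simple_self M y'
    obtain ⟨p, q, hpq⟩ := mem_adjoin h hmem
    by_cases hM : ∃ x : M, algebraMap M E x = y
    · obtain ⟨x, hx⟩ := hM
      have hx0 : x ≠ 0 := by
        rintro rfl
        exact hy (by rw [← hx, map_zero])
      have h1 : y' = algebraMap M E ((p + q * x) / x) * y := by
        rw [map_div₀, map_add, map_mul, hx, hpq]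
        field_simp
      refine ⟨(p + q * x) / x, ?_, h1⟩
      intro h0
      rw [h0, map_zero, zero_mul] at h1
      exact hy' h1
    · push Not at hM
      have h2 : algebraMap M E (2 * p * q) * y = algebraMap M E (a' - p ^ 2 - q ^ 2 * a) := by
        rw [map_mul, map_mul, map_sub, map_sub, map_mul, map_pow, map_pow, ← h, ← h', hpq,
          map_ofNat]
        ring
      have h3 : p = 0 ∨ q = 0 := by
        by_contra hcon
        push Not at hcon
        have h4 : (2 * p * q : M) ≠ 0 := mul_ne_zero (mul_ne_zero two_ne_zero hcon.1) hcon.2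
        apply hM ((a' - p ^ 2 - q ^ 2 * a) / (2 * p * q))
        rw [map_div₀, ← h2]
        have h5 : algebraMap M E (2 * p * q) ≠ 0 := (_root_.map_ne_zero _).2 h4
        field_simp
      rcases h3 with rfl | rfl
      · refine ⟨q, ?_, by rw [hpq, map_zero, zero_add]⟩
        rintro rfl
        apply hy'
        rw [hpq]
        simp
      · exfalso
        have h4 : y' = algebraMap M E p := by rw [hpq]; simp
        have h5 : adjoin M {y'} = ⊥ := by
          rw [adjoin_simple_eq_bot_iff, mem_bot]
          exact ⟨p, h4.symm⟩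
        have h6 := finrank_two h hM
        rw [he, h5, IntermediateField.finrank_bot] at h6
        omega
  · rintro ⟨m, hm, rfl⟩
    have hm' : algebraMap M E m ≠ 0 := (_root_.map_ne_zero _).2 hm
    apply le_antisymm
    · rw [adjoin_simple_le_iff]
      have h1 : algebraMap M E m⁻¹ * (algebraMap M E m * y) = y := by
        rw [← mul_assoc, ← map_mul, inv_mul_cancel₀ hm, map_one, one_mul]
      have h2 := (adjoin M {algebraMap M E m * y}).mul_mem
        ((adjoin M {algebraMap M E m * y}).algebraMap_mem m⁻¹)
        (mem_adjoin_simple_self M (algebraMap M E m * y))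
      rwa [h1] at h2
    · rw [adjoin_simple_le_iff]
      exact (adjoin M {y}).mul_mem ((adjoin M {y}).algebraMap_mem _) (mem_adjoin_simple_self M _)

lemma exists_gen (L : IntermediateField M E) (hL : Module.finrank M L = 2) :
    ∃ (b : M) (s : E), s ^ 2 = algebraMap M E b ∧ (∀ x : M, algebraMap M E x ≠ s) ∧
      L = adjoin M {s} := by
  obtain ⟨b, s, hsL, hs, hns⟩ := exists_sqrt L hL
  refine ⟨b, s, hs, hns, ?_⟩
  have : FiniteDimensional M L := Module.finite_of_finrank_pos (by omega)
  have h1 : adjoin M {s} ≤ L := by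
    rw [adjoin_simple_le_iff]
    exact hsL
  exact (eq_of_le_of_finrank_eq h1 (by rw [finrank_two hs hns, hL])).symm

end fields

lemma adjoin_adjoin {M N E : Type} [Field M] [Field N] [Algebra M N] [Field E] [Algebra M E]
    [Algebra N E] [IsScalarTower M N E] (s : E) :
    adjoin N ((adjoin M {s} : IntermediateField M E) : Set E) = adjoin N {s} := by
  apply le_antisymm
  · rw [adjoin_le_iff]
    have h1 : adjoin M {s} ≤ (adjoin N {s}).restrictScalars M := by
      rw [adjoin_simple_le_iff]
      exact mem_adjoin_simple_self N s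
    exact h1
  · rw [adjoin_simple_le_iff]
    exact subset_adjoin N _ (mem_adjoin_simple_self M s)

lemma ncard_image_eq {α β γ : Type*} {f : α → β} {g : α → γ} {X : Set α}
    (h : ∀ x ∈ X, ∀ x' ∈ X, f x = f x' ↔ g x = g x') : (f '' X).ncard = (g '' X).ncard := by
  have hc : ∀ b ∈ f '' X, ∃ x ∈ X, f x = b := fun b hb => hb
  choose r hrX hr using hc
  refine Set.ncard_congr (fun b hb => g (r b hb)) ?_ ?_ ?_
  · intro b hb
    exact ⟨r b hb, hrX b hb, rfl⟩
  · intro b b' hb hb' hbb
    have := (h _ (hrX b hb) _ (hrX b' hb')).2 hbb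
    rw [hr b hb, hr b' hb'] at this
    exact this
  · rintro _ ⟨x, hx, rfl⟩
    have hfx : f x ∈ f '' X := ⟨x, hx, rfl⟩
    refine ⟨f x, hfx, ?_⟩
    exact (h _ (hrX _ hfx) _ hx).1 (hr _ hfx)

theorem fibR : FibR := by
  intro M N E _ _ _ _ _ _ _ _ _ _
  have hcN : CharZero N := charZero_of_injective_algebraMap (FaithfulSMul.algebraMap_injective M N)
  have hfin : Finite (IntermediateField M N) :=
    Field.finite_intermediateField_of_exists_primitive_element M N
      (Field.exists_primitive_element M N)
  set X : Set N := {x | x ≠ 0 ∧ ∃ c : M, algebraMap M N c = x ^ 2} with hX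
  have hXne : (1 : N) ∈ X := ⟨one_ne_zero, 1, by simp⟩
  refine ⟨((fun x : N => adjoin M {x}) '' X).ncard, ?_, ?_⟩
  · rw [Set.ncard_pos (Set.toFinite _)]
    exact ⟨_, 1, hXne, rfl⟩
  · rintro L' hL' ⟨L0, hL0, hL0'⟩
    obtain ⟨a0, s0, hs0, hns0, rfl⟩ := exists_gen L0 hL0
    rw [adjoin_adjoin] at hL0'
    have hs0' : s0 ^ 2 = algebraMap N E (algebraMap M N a0) := by
      rw [hs0, IsScalarTower.algebraMap_apply M N E]
    have hs00 : s0 ≠ 0 := by
      rintro rfl
      exact hns0 0 (map_zero _)
    have ha0 : a0 ≠ 0 := by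
      rintro rfl
      rw [map_zero] at hs0
      exact hs00 (pow_eq_zero_iff (two_ne_zero) |>.1 hs0)
    have hs0N : ∀ x : N, algebraMap N E x ≠ s0 := by
      intro x hx
      have h1 : adjoin N {s0} = ⊥ := by
        rw [adjoin_simple_eq_bot_iff, mem_bot]
        exact ⟨x, hx⟩
      rw [← hL0', h1, IntermediateField.finrank_bot] at hL'
      omega
    have hsq : ∀ x : N, ∀ c : M, algebraMap M N c = x ^ 2 →
        (algebraMap N E x * s0) ^ 2 = algebraMap M E (c * a0) := by
      intro x c hc
      rw [mul_pow, hs0, map_mul, ← map_pow, ← hc, ← IsScalarTower.algebraMap_apply M N E]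
    have hne : ∀ x : N, x ≠ 0 → algebraMap N E x ≠ 0 := fun x hx => (_root_.map_ne_zero _).2 hx
    have key : {L : IntermediateField M E | Module.finrank M L = 2 ∧
        adjoin N (L : Set E) = L'} = (fun x : N => adjoin M {algebraMap N E x * s0}) '' X := by
      ext L
      constructor
      · rintro ⟨hL, hLL⟩
        obtain ⟨a, s, hs, hns, rfl⟩ := exists_gen L hL
        rw [adjoin_adjoin, ← hL0'] at hLL
        have hs' : s ^ 2 = algebraMap N E (algebraMap M N a) := by
          rw [hs, IsScalarTower.algebraMap_apply M N E]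
        have hs1 : s ≠ 0 := by
          rintro rfl
          exact hns 0 (map_zero _)
        obtain ⟨x, hx0, hx⟩ := (adjoin_eq_iff hs00 hs1 hs0' hs').1 hLL.symm
        refine ⟨x, ⟨hx0, a / a0, ?_⟩, ?_⟩
        · apply FaithfulSMul.algebraMap_injective N E
          rw [← IsScalarTower.algebraMap_apply M N E, map_div₀, map_pow, ← hs, ← hs0, hx]
          field_simp
        · show adjoin M {algebraMap N E x * s0} = _
          rw [hx]
      · rintro ⟨x, ⟨hx0, c, hc⟩, rfl⟩
        have h1 := hsq x c hc
        have h2 : ∀ z : M, algebraMap M E z ≠ algebraMap N E x * s0 := by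
          intro z hz
          apply hs0N (algebraMap M N z / x)
          rw [map_div₀, ← IsScalarTower.algebraMap_apply M N E, hz]
          have := hne x hx0
          field_simp
        refine ⟨finrank_two h1 h2, ?_⟩
        show adjoin N ((adjoin M {algebraMap N E x * s0} : IntermediateField M E) : Set E) = L'
        rw [adjoin_adjoin, ← hL0']
        have h3 : (algebraMap N E x * s0) ^ 2 = algebraMap N E (algebraMap M N (c * a0)) := by
          rw [h1, IsScalarTower.algebraMap_apply M N E]
        exact ((adjoin_eq_iff hs00 (mul_ne_zero (hne x hx0) hs00) hs0' h3).2 ⟨x, hx0, rfl⟩).symm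
    rw [key]
    apply ncard_image_eq
    rintro x ⟨hx0, c, hc⟩ x' ⟨hx0', c', hc'⟩
    show adjoin M {algebraMap N E x * s0} = adjoin M {algebraMap N E x' * s0} ↔
      adjoin M {x} = adjoin M {x'}
    rw [adjoin_eq_iff (mul_ne_zero (hne x hx0) hs00) (mul_ne_zero (hne x' hx0') hs00)
      (hsq x c hc) (hsq x' c' hc'), adjoin_eq_iff hx0 hx0' hc.symm hc'.symm]
    constructor
    · rintro ⟨m, hm, h⟩
      refine ⟨m, hm, ?_⟩
      apply FaithfulSMul.algebraMap_injective N E
      rw [map_mul, ← IsScalarTower.algebraMap_apply M N E]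
      apply mul_right_cancel₀ hs00
      rw [h]
      ring
    · rintro ⟨m, hm, rfl⟩
      refine ⟨m, hm, ?_⟩
      rw [map_mul, ← IsScalarTower.algebraMap_apply M N E]
      ring

end Pool.Agent.W5h46.MR
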