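import Mathlib



/-!
# Multiquadratic extensions: independence of the products of square roots
-/

set_option autoImplicit false

namespace Pool.Agent.TH958.FP

open Finset

section
variable {V Ω : Type} [Field V] [Field Ω] [Algebra V Ω] {ι : Type} [DecidableEq ι]
  {η : ι → Ω} {w : ι → V}

/- the subalgebra generated by some of the roots -/
noncomputable abbrev As (V : Type) {Ω : Type} [Field V] [Field Ω] [Algebra V Ω] {ι : Type}
    (η : ι → Ω) (s : Set ι) : Subalgebra V Ω := Algebra.adjoin V (η '' s)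


lemma mem_As_insert (hyw : ∀ i, η i ^ 2 = algebraMap V Ω (w i)) (k : ι) (s : Set ι) (z : Ω)
    (hz : z ∈ As V η (insert k s)) : ∃ α ∈ As V η s, ∃ β ∈ As V η s, z = α + β * η k := by
  induction hz using Algebra.adjoin_induction with
  | mem x hx =>
    obtain ⟨i, hi, rfl⟩ := hx
    rcases hi with rfl | hi
    · exact ⟨0, zero_mem _, 1, one_mem _, by ring⟩
    · exact ⟨η i, Algebra.subset_adjoin ⟨i, hi, rfl⟩, 0, zero_mem _, by ring⟩
  | algebraMap c => exact ⟨_, (As V η s).algebraMap_mem c, 0, zero_mem _, by ring⟩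
  | add a b _ _ ha hb =>
    obtain ⟨α, hα, β, hβ, rfl⟩ := ha
    obtain ⟨α', hα', β', hβ', rfl⟩ := hb
    exact ⟨α + α', add_mem hα hα', β + β', add_mem hβ hβ', by ring⟩
  | mul a b _ _ ha hb =>
    obtain ⟨α, hα, β, hβ, rfl⟩ := ha
    obtain ⟨α', hα', β', hβ', rfl⟩ := hb
    refine ⟨α * α' + β * β' * algebraMap V Ω (w k), ?_, α * β' + β * α', ?_, ?_⟩
    · exact add_mem (mul_mem hα hα') (mul_mem (mul_mem hβ hβ') (Subalgebra.algebraMap_mem _ _))
    · exact add_mem (mul_mem hα hβ') (mul_mem hβ hα')
    · rw [← hyw k]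
      ring

/- If no `w₀ ∏_{i ∈ S} w_i` is a square then the root of `w₀` is not in the extension. -/
theorem notmem [Algebra.IsAlgebraic V Ω] (h2 : (2 : V) ≠ 0)
    (hyw : ∀ i, η i ^ 2 = algebraMap V Ω (w i)) (s : Finset ι) :
    ∀ (w₀ : V) (η₀ : Ω), η₀ ^ 2 = algebraMap V Ω w₀ →
      (∀ S, S ⊆ s → ¬ IsSquare (w₀ * ∏ i ∈ S, w i)) → η₀ ∉ As V η s := by
  induction s using Finset.induction_on with
  | empty =>
    intro w₀ η₀ h0 hns hmem
    apply hns ∅ (Finset.Subset.refl _)
    rw [coe_empty, As, Set.image_empty, Algebra.adjoin_empty, Algebra.mem_bot] at hmem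
    obtain ⟨v, rfl⟩ := hmem
    refine ⟨v, ?_⟩
    apply (algebraMap V Ω).injective
    rw [prod_empty, mul_one, ← h0, map_mul]
    ring
  | insert k s hk ih =>
    intro w₀ η₀ h0 hns hmem
    rw [coe_insert] at hmem
    obtain ⟨α, hα, β, hβ, hz⟩ := mem_As_insert hyw k s η₀ hmem
    have hsub : ∀ S, S ⊆ s → ¬ IsSquare (w₀ * ∏ i ∈ S, w i) := fun S hS =>
      hns S (hS.trans (subset_insert k s))
    have hnot := ih w₀ η₀ h0 hsub
    by_cases hβ0 : β = 0
    · rw [hβ0, zero_mul, add_zero] at hz
      exact hnot (hz ▸ hα)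
    by_cases hα0 : α = 0
    · rw [hα0, zero_add] at hz
      have h1 : η₀ * η k = β * algebraMap V Ω (w k) := by
        rw [hz, ← hyw k]
        ring
      refine ih (w₀ * w k) (η₀ * η k) ?_ ?_ ?_
      · rw [mul_pow, h0, hyw, map_mul]
      · intro S hS
        have h3 := hns (insert k S) (insert_subset_insert k hS)
        rw [prod_insert fun h => hk (hS h)] at h3
        rwa [mul_assoc]
      · rw [h1]
        exact mul_mem hβ (Subalgebra.algebraMap_mem _ _)
    · have h2' : (2 : Ω) ≠ 0 := by
        rw [← map_ofNat (algebraMap V Ω) 2]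
        exact (map_ne_zero _).2 h2
      have hηk : η k ∈ As V η s := by
        have h1 : η k = (algebraMap V Ω w₀ - α ^ 2 - β ^ 2 * algebraMap V Ω (w k)) *
            (2 * α * β)⁻¹ := by
          rw [eq_mul_inv_iff_mul_eq₀ (mul_ne_zero (mul_ne_zero h2' hα0) hβ0), ← h0, hz, ← hyw k]
          ring
        rw [h1]
        refine mul_mem (sub_mem (sub_mem (Subalgebra.algebraMap_mem _ _) (pow_mem hα 2))
          (mul_mem (pow_mem hβ 2) (Subalgebra.algebraMap_mem _ _))) ?_
        have h3 : 2 * α * β ∈ As V η (s : Set ι) := by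
          refine mul_mem (mul_mem ?_ hα) hβ
          have := Subalgebra.algebraMap_mem (As V η (s : Set ι)) 2
          rwa [map_ofNat] at this
        exact Subalgebra.inv_mem_of_algebraic (As V η (s : Set ι)) (x := ⟨_, h3⟩)
          (Algebra.IsAlgebraic.isAlgebraic _)
      apply hnot
      rw [hz]
      exact add_mem hα (mul_mem hβ hηk)

lemma prod_mem_As (s S : Finset ι) (h : S ⊆ s) : ∏ i ∈ S, η i ∈ As V η (s : Set ι) :=
  prod_mem fun i hi => Algebra.subset_adjoin ⟨i, h hi, rfl⟩

/- The products of the square roots are linearly independent. -/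
theorem lin_indep [Algebra.IsAlgebraic V Ω] (h2 : (2 : V) ≠ 0)
    (hyw : ∀ i, η i ^ 2 = algebraMap V Ω (w i)) (s : Finset ι)
    (hs : ∀ S, S ⊆ s → S.Nonempty → ¬ IsSquare (∏ i ∈ S, w i)) (c : Finset ι → V)
    (hc : ∑ S ∈ s.powerset, algebraMap V Ω (c S) * ∏ i ∈ S, η i = 0) :
    ∀ S ∈ s.powerset, c S = 0 := by
  induction s using Finset.induction_on generalizing c with
  | empty =>
    intro S hS
    rw [powerset_empty, mem_singleton] at hS
    subst hS
    simpa using hc
  | insert k s hk ih =>
    have hs' : ∀ S, S ⊆ s → S.Nonempty → ¬ IsSquare (∏ i ∈ S, w i) := fun S hS =>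
      hs S (hS.trans (subset_insert k s))
    rw [sum_powerset_insert hk] at hc
    set α := ∑ S ∈ s.powerset, algebraMap V Ω (c S) * ∏ i ∈ S, η i with hα
    have hβe : ∑ S ∈ s.powerset, algebraMap V Ω (c (insert k S)) * ∏ i ∈ insert k S, η i =
        (∑ S ∈ s.powerset, algebraMap V Ω (c (insert k S)) * ∏ i ∈ S, η i) * η k := by
      rw [sum_mul]
      refine sum_congr rfl fun S hS => ?_
      rw [prod_insert fun h => hk (mem_powerset.1 hS h)]
      ring
    rw [hβe] at hc
    set β := ∑ S ∈ s.powerset, algebraMap V Ω (c (insert k S)) * ∏ i ∈ S, η i with hβ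
    have hαm : α ∈ As V η (s : Set ι) := sum_mem fun S hS =>
      mul_mem (Subalgebra.algebraMap_mem _ _) (prod_mem_As s S (mem_powerset.1 hS))
    have hβm : β ∈ As V η (s : Set ι) := sum_mem fun S hS =>
      mul_mem (Subalgebra.algebraMap_mem _ _) (prod_mem_As s S (mem_powerset.1 hS))
    have hβ0 : β = 0 := by
      by_contra hne
      refine notmem h2 hyw s (w k) (η k) (hyw k) ?_ ?_
      · intro S hS
        have h3 := hs (insert k S) (insert_subset_insert k hS) (insert_nonempty k S)
        rwa [prod_insert fun h => hk (hS h)] at h3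
      · have h1 : η k = -α * β⁻¹ := by
          rw [eq_mul_inv_iff_mul_eq₀ hne]
          linear_combination hc
        rw [h1]
        exact mul_mem (neg_mem hαm) (Subalgebra.inv_mem_of_algebraic (As V η (s : Set ι))
          (x := ⟨_, hβm⟩) (Algebra.IsAlgebraic.isAlgebraic _))
    have hα0 : α = 0 := by
      rw [hβ0, zero_mul, add_zero] at hc
      exact hc
    have k1 := ih hs' c hα0
    have k2 := ih hs' (fun S => c (insert k S)) hβ0
    intro S hS
    rw [mem_powerset] at hS
    by_cases hkS : k ∈ S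
    · have := k2 (S.erase k) (mem_powerset.2 (by
        intro x hx
        have h4 := hS (mem_of_mem_erase hx)
        rcases mem_insert.1 h4 with rfl | h5
        · exact (notMem_erase _ _ hx).elim
        · exact h5))
      rwa [insert_erase hkS] at this
    · exact k1 S (mem_powerset.2 fun x hx => by
        rcases mem_insert.1 (hS hx) with rfl | h5
        · exact (hkS hx).elim
        · exact h5)

end

end Pool.Agent.TH958.FP
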