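import Mathlib



/-!
# Multiquadratic extensions: simultaneous eigenvectors of the sign changes
-/

set_option autoImplicit false

namespace Pool.Agent.TH958.FP

open Finset

section
variable {V K : Type} [CommRing V] [CommRing K] [Algebra V K] {ι : Type} [DecidableEq ι]
  {y : ι → K} {w : ι → V}

/- The products of the square roots span the extension. -/
lemma span_top (hyw : ∀ i, y i ^ 2 = algebraMap V K (w i))
    (hadj : Algebra.adjoin V (Set.range y) = ⊤) :
    Submodule.span V (Set.range fun S : Finset ι => ∏ i ∈ S, y i) = ⊤ := by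
  set M := Submodule.span V (Set.range fun S : Finset ι => ∏ i ∈ S, y i) with hM
  have hy : ∀ i, ∀ m ∈ M, y i * m ∈ M := by
    intro i m hm
    induction hm using Submodule.span_induction with
    | mem x hx =>
      obtain ⟨S, rfl⟩ := hx
      by_cases hi : i ∈ S
      · have h1 : y i * ∏ j ∈ S, y j = (w i) • ∏ j ∈ S.erase i, y j := by
          rw [← mul_prod_erase S y hi, ← mul_assoc, ← sq, hyw, Algebra.smul_def]
        simp only
        rw [h1]
        exact M.smul_mem _ (Submodule.subset_span ⟨_, rfl⟩)
      · simp only
        rw [← prod_insert hi]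
        exact Submodule.subset_span ⟨_, rfl⟩
    | zero => rw [mul_zero]; exact M.zero_mem
    | add a b _ _ ha hb => rw [mul_add]; exact M.add_mem ha hb
    | smul c a _ ha => rw [mul_smul_comm]; exact M.smul_mem _ ha
  have hall : ∀ z ∈ Algebra.adjoin V (Set.range y), ∀ m ∈ M, z * m ∈ M := by
    intro z hz
    induction hz using Algebra.adjoin_induction with
    | mem x hx =>
      obtain ⟨i, rfl⟩ := hx
      exact hy i
    | algebraMap c =>
      intro m hm
      rw [← Algebra.smul_def]
      exact M.smul_mem _ hm
    | add a b _ _ ha hb =>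
      intro m hm
      rw [add_mul]
      exact M.add_mem (ha m hm) (hb m hm)
    | mul a b _ _ ha hb =>
      intro m hm
      rw [mul_assoc]
      exact ha _ (hb m hm)
  rw [eq_top_iff]
  intro z _
  have h1 : (1 : K) ∈ M := Submodule.subset_span ⟨∅, by simp⟩
  have h2 : z ∈ Algebra.adjoin V (Set.range y) := by rw [hadj]; trivial
  have h3 := hall z h2 1 h1
  rwa [mul_one] at h3

variable {σ : ι → K →ₐ[V] K}


end


end Pool.Agent.TH958.FP
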