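import Mathlib
import Pool.Agent.H84.L.S8_TH958_FP_Kummer
import Pool.Agent.H84.L.S8_TH958_FP_Multi

namespace Pool.Agent.TH444.ML
end Pool.Agent.TH444.ML


/-!
# Kummer theory: if the normal closure of `M(√α)` is smaller than expected, a nonempty product of
conjugates of `α` is a square
-/

set_option autoImplicit false

namespace Pool.Agent.TH111.J3097

open Pool.Agent.TH444.ML

/- the degree of a multiquadratic extension -/
theorem finrank_mq {V Ω : Type} [Field V] [Field Ω] [Algebra V Ω] [Algebra.IsAlgebraic V Ω]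
    {ι : Type} [Fintype ι] [DecidableEq ι] {η : ι → Ω} {w : ι → V} (h2 : (2 : V) ≠ 0)
    (hyw : ∀ i, η i ^ 2 = algebraMap V Ω (w i))
    (hs : ∀ S : Finset ι, S.Nonempty → ¬ IsSquare (∏ i ∈ S, w i)) :
    Module.finrank V (Algebra.adjoin V (Set.range η)) = 2 ^ Fintype.card ι := by
  set A := Algebra.adjoin V (Set.range η) with hA
  set y : ι → A := fun i => ⟨η i, Algebra.subset_adjoin ⟨i, rfl⟩⟩ with hy
  have h1 : ∀ i, y i ^ 2 = algebraMap V A (w i) := fun i => by
    apply Subtype.ext
    exact hyw i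
  have h3 : Algebra.adjoin V (Set.range y) = ⊤ := by
    have h4 : Set.range y = ((↑) : A → Ω) ⁻¹' Set.range η := by
      ext z
      constructor
      · rintro ⟨i, rfl⟩
        exact ⟨i, rfl⟩
      · rintro ⟨i, hi⟩
        exact ⟨i, Subtype.ext hi⟩
    rw [h4]
    exact Algebra.adjoin_adjoin_coe_preimage
  have hspan := Pool.Agent.TH958.FP.span_top h1 h3
  have hli : LinearIndependent V (fun S : Finset ι => ∏ i ∈ S, y i) := by
    rw [Fintype.linearIndependent_iff]
    intro g hg S
    refine Pool.Agent.TH958.FP.lin_indep h2 hyw Finset.univ (fun S _ => hs S) g ?_ S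
      (by simp)
    have h5 := congrArg (algebraMap A Ω) hg
    rw [map_zero, map_sum] at h5
    rw [Finset.powerset_univ, ← h5]
    apply Finset.sum_congr rfl
    intro T _
    rw [Algebra.smul_def, map_mul, map_prod]
    rfl
  have h6 := finrank_span_eq_card hli
  rw [hspan, finrank_top, Fintype.card_finset] at h6
  exact h6

theorem finrank_mq' {V Ω : Type} [Field V] [Field Ω] [Algebra V Ω] [Algebra.IsAlgebraic V Ω]
    {ι : Type} [Fintype ι] [DecidableEq ι] {η : ι → Ω} {w : ι → V} (h2 : (2 : V) ≠ 0)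
    (hyw : ∀ i, η i ^ 2 = algebraMap V Ω (w i))
    (hs : ∀ S : Finset ι, S.Nonempty → ¬ IsSquare (∏ i ∈ S, w i)) :
    Module.finrank V (IntermediateField.adjoin V (Set.range η)) = 2 ^ Fintype.card ι := by
  have h1 := finrank_mq h2 hyw hs
  rw [← IntermediateField.adjoin_toSubalgebra] at h1
  exact h1


end Pool.Agent.TH111.J3097
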