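import Mathlib
import Pool.Agent.H84.L.S8_TH444_ML_Defs

namespace Pool.Agent.TH444.ML
end Pool.Agent.TH444.ML


set_option autoImplicit false

open NumberField Filter Topology

namespace Pool.Agent.TH521.J3102

open Pool.Agent.TH444.ML

/- units modulo squares -/
abbrev USq (M : Type) [Field M] : Type :=
  (𝓞 M)ˣ ⧸ (powMonoidHom 2 : (𝓞 M)ˣ →* (𝓞 M)ˣ).range

lemma finite_USq (M : Type) [Field M] [NumberField M] : Finite (USq M) := by
  have : Group.FG (𝓞 M)ˣ := Group.fg_iff_monoid_fg.mpr inferInstance
  refine CommGroup.finite_of_fg_isMulTorsion _ ?_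
  intro x
  obtain ⟨u, rfl⟩ := QuotientGroup.mk_surjective x
  refine isOfFinOrder_iff_pow_eq_one.mpr ⟨2, by norm_num, ?_⟩
  rw [← QuotientGroup.mk_pow, QuotientGroup.eq_one_iff]
  exact ⟨u, rfl⟩

lemma USq_eq (M : Type) [Field M] [NumberField M] (u v : (𝓞 M)ˣ)
    (h : (QuotientGroup.mk u : USq M) = QuotientGroup.mk v) : ∃ w : (𝓞 M)ˣ, v = u * w ^ 2 := by
  rw [QuotientGroup.eq] at h
  obtain ⟨w, hw⟩ := h
  refine ⟨w, ?_⟩
  have : w ^ 2 = u⁻¹ * v := hw
  rw [this]
  group

lemma exists_rep (M : Type) [Field M] [NumberField M] :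
    ∃ rep : ClassGroup (𝓞 M) → Ideal (𝓞 M), Rep M rep := by
  have h := ClassGroup.mk0_surjective (R := 𝓞 M)
  choose f hf using h
  exact ⟨fun C => (f C).1, fun C => ⟨(f C).2, hf C⟩⟩

section

variable (K Ω : Type) [Field K] [NumberField K] [Field Ω] [Algebra K Ω] [IsAlgClosure K Ω]
  (M : IntermediateField K Ω) [FiniteDimensional K M]


omit [FiniteDimensional K M] [NumberField K] in
lemma finrank_ext (L : IntermediateField K Ω) [FiniteDimensional K M] (h : M ≤ L)
    (h2 : Module.finrank K L = 2 * Module.finrank K M) :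
    Module.finrank M (IntermediateField.extendScalars h) = 2 := by
  have h3 : Module.finrank K M * Module.finrank M (IntermediateField.extendScalars h) =
      Module.finrank K (IntermediateField.extendScalars h) :=
    Module.finrank_mul_finrank K M (IntermediateField.extendScalars h)
  have h4 : Module.finrank K (IntermediateField.extendScalars h) = Module.finrank K L := rfl
  have h5 : 0 < Module.finrank K M := Module.finrank_pos
  rw [h4, h2] at h3
  exact Nat.eq_of_mul_eq_mul_left h5 (by rw [h3]; ring)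


omit [NumberField K] [IsAlgClosure K Ω] [FiniteDimensional K M] in
/- the same ideal, class and unit class give the same field -/
lemma same (α α' : 𝓞 M) (s s' : Ω)
    (hs : s ^ 2 = algebraMap M Ω (α : M)) (hs' : s' ^ 2 = algebraMap M Ω (α' : M))
    (w : (𝓞 M)ˣ) (h : α' = (w : 𝓞 M) ^ 2 * α) :
    IntermediateField.adjoin M {s} = IntermediateField.adjoin M {s'} := by
  obtain ⟨x, hx⟩ : ∃ x : M, x = ((w : 𝓞 M) : M) := ⟨_, rfl⟩
  have hx0 : x ≠ 0 := by
    rw [hx]
    intro h0
    have : (w : 𝓞 M) = 0 := RingOfIntegers.coe_eq_zero_iff.mp h0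
    exact w.ne_zero this
  have h1 : s' ^ 2 = (algebraMap M Ω x * s) ^ 2 := by
    rw [hs', h, mul_pow, hs, ← map_pow, ← map_mul, hx]
    simp
  have hx0' : algebraMap M Ω x ≠ 0 := by
    intro h0
    exact hx0 ((map_eq_zero _).mp h0)
  have key : ∀ y : M, y ≠ 0 → s' = algebraMap M Ω y * s →
      IntermediateField.adjoin M {s} = IntermediateField.adjoin M {s'} := by
    intro y hy h2
    have hy' : algebraMap M Ω y ≠ 0 := fun h0 => hy ((map_eq_zero _).mp h0)
    apply le_antisymm
    · rw [IntermediateField.adjoin_simple_le_iff]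
      have h3 : s = algebraMap M Ω y⁻¹ * s' := by
        rw [h2, map_inv₀, inv_mul_cancel_left₀ hy']
      rw [h3]
      exact mul_mem (IntermediateField.algebraMap_mem _ _)
        (IntermediateField.mem_adjoin_simple_self M s')
    · rw [IntermediateField.adjoin_simple_le_iff, h2]
      exact mul_mem (IntermediateField.algebraMap_mem _ _)
        (IntermediateField.mem_adjoin_simple_self M s)
  rcases sq_eq_sq_iff_eq_or_eq_neg.mp h1 with h2 | h2
  · exact key x hx0 h2
  · exact key (-x) (neg_ne_zero.mpr hx0) (by rw [h2, map_neg, neg_mul])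


end


end Pool.Agent.TH521.J3102
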