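import Mathlib
import Pool.Agent.H84.L.A9_W5h46_ML_Grp
import Pool.Agent.H84.L.A9_W5h46_ML_Siv
import Pool.Agent.H84.L.A9_W5h46_ML_Spl
import Pool.Agent.H84.L.S8_TH111_J3097
import Pool.Agent.H84.L.S8_TH365_J3099
import Pool.Agent.H84.L.S8_TH444_ML_Defs
import Pool.Agent.H84.L.S8_TH521_J3102

namespace Pool.Agent.TH365.J3099
end Pool.Agent.TH365.J3099
namespace Pool.Agent.TH444.ML
end Pool.Agent.TH444.ML
namespace Pool.Agent.TH521.J3102
end Pool.Agent.TH521.J3102
namespace Pool.Agent.W5h46.ML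
end Pool.Agent.W5h46.ML


/-!
# Kummer theory over a Galois extension `N` containing `M`, and the fields with small closure
-/

set_option autoImplicit false
set_option linter.unusedSectionVars false

open IntermediateField Filter Topology NumberField

namespace Pool.Agent.W5h46.MR

open Pool.Agent.TH365.J3099 (act act_apply act_apply_apply)
open Pool.Agent.W5h46.ML (exists_ext card_emb badIdQ sqBadQ sieveQ)
open Pool.Agent.TH444.ML (IsK Rep Sqf KumP DiscQuad SplitSum dsc)
open Pool.Agent.TH521.J3102 (USq finite_USq USq_eq exists_rep finrank_ext same)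

section

variable {K Ω : Type} [Field K] [NumberField K] [Field Ω] [Algebra K Ω] [IsAlgClosure K Ω]

theorem map_le_normal (N : IntermediateField K Ω) [Normal K N] (σ : Ω ≃ₐ[K] Ω) {x : Ω} (hx : x ∈ N) :
    σ x ∈ N := by
  have hnorm : Normal K Ω := IsAlgClosure.normal K Ω
  have h := (IntermediateField.normal_iff_forall_map_le' (K := N)).1 inferInstance σ
  exact h ⟨x, hx, rfl⟩

theorem val_memN {M N : IntermediateField K Ω} [Normal K N] (hMN : M ≤ N) (φ : M →ₐ[K] Ω) (x : M) :
    φ x ∈ N := by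
  obtain ⟨σ, hσ⟩ := exists_ext M φ
  have h1 : σ (x : Ω) = φ x := DFunLike.congr_fun hσ x
  rw [← h1]
  exact map_le_normal N σ (hMN x.2)

theorem notFullN (M N : IntermediateField K Ω) [FiniteDimensional K M] [FiniteDimensional K N] [Normal K N] (hMN : M ≤ N)
    (L : IntermediateField K Ω) (α : M) (s : Ω) (hs : s ^ 2 = (α : Ω))
    (hL : L = M ⊔ IntermediateField.adjoin K {s})
    (hne : Module.finrank K (normalClosure K (L ⊔ N : IntermediateField K Ω) Ω) ≠
      2 ^ Module.finrank K M * Module.finrank K N) :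
    ∃ S : Finset (M →ₐ[K] Ω), S.Nonempty ∧
      IsSquare (∏ φ ∈ S, (⟨φ α, val_memN hMN φ α⟩ : N)) := by
  classical
  by_contra hcon
  push Not at hcon
  apply hne
  have hac : IsAlgClosed Ω := IsAlgClosure.isAlgClosed K
  have hnorm : Normal K Ω := IsAlgClosure.normal K Ω
  have halg : Algebra.IsAlgebraic K Ω := IsAlgClosure.isAlgebraic
  have halgN : Algebra.IsAlgebraic N Ω := Algebra.IsAlgebraic.tower_top (K := K) N
  have h2 : (2 : N) ≠ 0 := by
    have : CharZero K := inferInstance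
    have : CharZero N := charZero_of_injective_algebraMap (algebraMap K N).injective
    exact two_ne_zero
  have hex : ∀ φ : M →ₐ[K] Ω, ∃ t : Ω, t ^ 2 = algebraMap N Ω ⟨φ α, val_memN hMN φ α⟩ := fun φ =>
    IsAlgClosed.exists_pow_nat_eq _ two_pos
  choose η hη using hex
  have hdeg := Pool.Agent.TH111.J3097.finrank_mq' h2 hη hcon
  have hcard : Fintype.card (M →ₐ[K] Ω) = Module.finrank K M := by
    rw [← card_emb M, Nat.card_eq_fintype_card]
  -- two square roots of the same element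
  have hroot : ∀ (E : IntermediateField K Ω) (u v : Ω), u ^ 2 = v ^ 2 → v ∈ E → u ∈ E := by
    intro E u v h hv
    rcases sq_eq_sq_iff_eq_or_eq_neg.1 h with rfl | rfl
    · exact hv
    · exact neg_mem hv
  have hNC : (IntermediateField.adjoin N (Set.range η)).restrictScalars K =
      IntermediateField.normalClosure K (L ⊔ N : IntermediateField K Ω) Ω := by
    apply le_antisymm
    · have hM : N ≤ IntermediateField.normalClosure K (L ⊔ N : IntermediateField K Ω) Ω :=
        le_sup_right.trans (IntermediateField.le_normalClosure _)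
      have h3 : IntermediateField.adjoin N (Set.range η) ≤
          IntermediateField.extendScalars hM := by
        rw [IntermediateField.adjoin_le_iff]
        rintro _ ⟨φ, rfl⟩
        show η φ ∈ IntermediateField.normalClosure K (L ⊔ N : IntermediateField K Ω) Ω
        obtain ⟨σ, hσ⟩ := exists_ext M φ
        apply hroot _ (η φ) (σ s)
        · rw [hη, ← map_pow, hs]
          exact (DFunLike.congr_fun hσ α).symm
        · rw [IntermediateField.normalClosure_def'']
          have h4 : (L ⊔ N : IntermediateField K Ω).map (σ : Ω →ₐ[K] Ω) ≤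
              ⨆ f : Ω ≃ₐ[K] Ω, (L ⊔ N : IntermediateField K Ω).map (f : Ω →ₐ[K] Ω) :=
            le_iSup (fun f : Ω ≃ₐ[K] Ω => (L ⊔ N : IntermediateField K Ω).map (f : Ω →ₐ[K] Ω)) σ
          apply h4
          refine ⟨s, ?_, rfl⟩
          apply (le_sup_left : L ≤ L ⊔ N)
          rw [hL]
          exact (le_sup_right : IntermediateField.adjoin K {s} ≤ _)
            (IntermediateField.mem_adjoin_simple_self K s)
      exact h3
    · rw [IntermediateField.normalClosure_def'']
      apply iSup_le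
      intro σ
      rw [hL, IntermediateField.map_sup, IntermediateField.map_sup, IntermediateField.adjoin_map, Set.image_singleton]
      apply sup_le
      · apply sup_le
        · rintro _ ⟨m, hm, rfl⟩
          have h6 : σ m ∈ N := map_le_normal N σ (hMN hm)
          exact IntermediateField.algebraMap_mem (IntermediateField.adjoin N (Set.range η)) ⟨_, h6⟩
        · rw [IntermediateField.adjoin_simple_le_iff]
          show σ s ∈ (IntermediateField.adjoin N (Set.range η)).restrictScalars K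
          apply hroot _ (σ s) (η (act M σ M.val))
          · rw [hη, ← map_pow, hs]
            rfl
          · exact IntermediateField.subset_adjoin N _ ⟨_, rfl⟩
      · rintro _ ⟨m, hm, rfl⟩
        have h6 : σ m ∈ N := map_le_normal N σ hm
        exact IntermediateField.algebraMap_mem (IntermediateField.adjoin N (Set.range η)) ⟨_, h6⟩
  rw [← hNC, ← hcard, ← hdeg]
  have h7 := Module.finrank_mul_finrank K N (IntermediateField.adjoin N (Set.range η))
  rw [mul_comm, h7]
  rfl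

end

section

variable (K Ω : Type) [Field K] [NumberField K] [Field Ω] [Algebra K Ω] [IsAlgClosure K Ω]
  (M N : IntermediateField K Ω) [FiniteDimensional K M] [FiniteDimensional K N] [Normal K N] (hMN : M ≤ N)

/- the embedding of `M` in `N` -/
noncomputable abbrev algR {K Ω : Type} [Field K] [Field Ω] [Algebra K Ω] {M N : IntermediateField K Ω}
    (hMN : M ≤ N) : Algebra M N :=
  (IntermediateField.inclusion hMN).toAlgebra

/- bad ideals of bounded norm -/
def TZR [NumberField M] [NumberField N] (Z : ℝ) : Set (Ideal (𝓞 M)) :=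
  {𝔡 : Ideal (𝓞 M) | 𝔡 ∈ badIdQ K M N ∧ (Ideal.absNorm 𝔡 : ℝ) ≤ Z}

include hMN

theorem bad_of_sqR [NumberField M] [NumberField N] (α : 𝓞 M) (𝔡 𝔠 : Ideal (𝓞 M)) (S : Finset (M →ₐ[K] Ω))
    (hα : α ≠ 0) (hsq : Squarefree 𝔡) (hdc : Ideal.span {α} = 𝔡 * 𝔠 ^ 2) (hS : S.Nonempty)
    (hprod : IsSquare (∏ φ ∈ S, (⟨φ (α : M), val_memN hMN φ α⟩ : N))) :
    𝔡 ∈ badIdQ K M N := by
  have hnorm : Normal K Ω := IsAlgClosure.normal K Ω
  have i3 : Algebra.IsAlgebraic K Ω := IsAlgClosure.isAlgebraic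
  let _ : Algebra M N := algR hMN
  have htow : IsScalarTower K M N := IsScalarTower.of_algebraMap_eq fun x => rfl
  have hgal : IsGalois K N := ⟨⟩
  choose s hs using exists_ext (K := K) (Ω := Ω) M
  have key : ∀ (φ : M →ₐ[K] Ω) (x : M),
      ((s φ).restrictNormal N (algebraMap M N x)) = (⟨φ x, val_memN hMN φ x⟩ : N) := by
    intro φ x
    apply Subtype.ext
    have h1 := (s φ).restrictNormal_commutes N (algebraMap M N x)
    have h2 : (s φ) (x : Ω) = φ x := DFunLike.congr_fun (hs φ) x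
    exact h1.trans h2
  apply sqBadQ K M N
    (fun φ : M →ₐ[K] Ω => (s φ).restrictNormal N) ?_ α 𝔡 𝔠 S hα hsq hdc hS
  · convert hprod using 1
    exact Finset.prod_congr rfl fun φ _ => key φ α
  · intro φ ψ h
    ext x
    have h1 := h x
    simp only [key] at h1
    exact congrArg Subtype.val h1

omit hMN in
/- the set to be counted -/
def SYR (Y : ℝ) : Set (IntermediateField K Ω) :=
  {L : IntermediateField K Ω | M ≤ L ∧
      Module.finrank K L = 2 * Module.finrank K M ∧
      Module.finrank K (IntermediateField.normalClosure K (L ⊔ N : IntermediateField K Ω) Ω) ≠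
        2 ^ Module.finrank K M * Module.finrank K N ∧ dsc L ≤ Y * dsc M ^ 2}

lemma dataR (h2 : KumP) [NumberField M] [NumberField N]
    (k : Ideal (𝓞 M) → 𝓞 M → ℕ) (hk : IsK M k) (rep : ClassGroup (𝓞 M) → Ideal (𝓞 M))
    (hrep : Rep M rep) (Y : ℝ) (L : IntermediateField K Ω) (hL : L ∈ SYR K Ω M N Y) :
    ∃ (C : ClassGroup (𝓞 M)) (α : 𝓞 M) (s : Ω) (𝔡 : Ideal (𝓞 M)), α ≠ 0 ∧
      Ideal.span {α} = 𝔡 * rep C ^ 2 ∧ s ^ 2 = algebraMap M Ω (α : M) ∧
      L = (IntermediateField.adjoin M {s}).restrictScalars K ∧ 𝔡 ∈ badIdQ K M N ∧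
      (Ideal.absNorm 𝔡 : ℝ) ≤ 4 ^ (Module.finrank ℚ M) * Y := by
  obtain ⟨hML, hfin, hnc, hdsc⟩ := hL
  have : IsAlgClosed Ω := IsAlgClosure.isAlgClosed K
  have hL' := finrank_ext K Ω M L hML hfin
  obtain ⟨C, α, s, ⟨hα0, 𝔡, hsq, hspan⟩, hs, hsM, hadj⟩ := (h2 M Ω rep hrep).1 _ hL'
  have hLeq : L = (IntermediateField.adjoin M {s}).restrictScalars K := by
    rw [← hadj, IntermediateField.extendScalars_restrictScalars]
  have hsup : L = M ⊔ IntermediateField.adjoin K {s} := by
    rw [hLeq, IntermediateField.restrictScalars_adjoin, IntermediateField.adjoin_union,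
      IntermediateField.adjoin_self]
  have hsM' : s ∉ M := fun h => hsM ⟨s, h⟩ rfl
  have hα0' : (α : M) ≠ 0 := fun h => hα0 (RingOfIntegers.coe_eq_zero_iff.mp h)
  obtain ⟨S, hS, hsqr⟩ := notFullN M N hMN L (α : M) s hs hsup hnc
  have hbad := bad_of_sqR K Ω M N hMN α 𝔡 (rep C) S hα0 hsq hspan hS hsqr
  have hMpos : 0 < Module.finrank K M := Module.finrank_pos
  have hKL : FiniteDimensional K L := Module.finite_of_finrank_pos (by rw [hfin]; omega)
  have hNL : NumberField L := NumberField.of_module_finite K L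
  let _ : Algebra M L := (IntermediateField.inclusion hML).toAlgebra
  have htower : IsScalarTower K M L := IsScalarTower.of_algebraMap_eq fun x => rfl
  have hf2 : Module.finrank M L = 2 := by
    have h5 := Module.finrank_mul_finrank K M L
    rw [hfin] at h5
    exact Nat.eq_of_mul_eq_mul_left hMpos (by rw [h5]; ring)
  have hsL : s ∈ L := by
    rw [hsup]
    exact (le_sup_right : IntermediateField.adjoin K {s} ≤ _)
      (IntermediateField.mem_adjoin_simple_self K s)
  have hd := hk.disc L (⟨s, hsL⟩ : L) α 𝔡 (rep C) hf2 (by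
      apply Subtype.ext
      exact hs) (by
      intro x hx
      exact hsM x (congrArg Subtype.val hx)) hα0 hsq hspan
  have hrc : rep C ≠ ⊥ := by
    obtain ⟨h, _⟩ := hrep C
    exact nonZeroDivisors.ne_zero h
  have hkle := hk.le (rep C) α hrc
  have e1 : dsc L = ((discr L).natAbs : ℝ) := by
    unfold dsc
    rw [dif_pos hNL, Nat.cast_natAbs]
  have e2 : dsc M = ((discr M).natAbs : ℝ) := by
    unfold dsc
    rw [dif_pos ‹NumberField M›, Nat.cast_natAbs]
  rw [e1, e2] at hdsc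
  have hdM : (0 : ℝ) < ((discr M).natAbs : ℝ) := by
    have : 0 < (discr M).natAbs := Int.natAbs_pos.mpr (discr_ne_zero M)
    exact_mod_cast this
  have hd' : ((discr L).natAbs : ℝ) * (k (rep C) α : ℝ) ^ 2 =
      4 ^ Module.finrank ℚ M * ((discr M).natAbs : ℝ) ^ 2 * (Ideal.absNorm 𝔡 : ℝ) := by
    exact_mod_cast hd
  have hk' : (k (rep C) α : ℝ) ^ 2 ≤ (4 ^ Module.finrank ℚ M : ℝ) ^ 2 := by
    have : (k (rep C) α : ℝ) ≤ (4 ^ Module.finrank ℚ M : ℝ) := by exact_mod_cast hkle
    exact pow_le_pow_left₀ (Nat.cast_nonneg _) this 2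
  have h4D : (0 : ℝ) < 4 ^ Module.finrank ℚ M := by positivity
  refine ⟨C, α, s, 𝔡, hα0, hspan, hs, hLeq, hbad, ?_⟩
  have h6 : 4 ^ Module.finrank ℚ M * ((discr M).natAbs : ℝ) ^ 2 * (Ideal.absNorm 𝔡 : ℝ) ≤
      (Y * ((discr M).natAbs : ℝ) ^ 2) * (4 ^ Module.finrank ℚ M : ℝ) ^ 2 := by
    rw [← hd']
    exact mul_le_mul hdsc hk' (by positivity) ((Nat.cast_nonneg _).trans hdsc)
  have h7 : 0 < (4 : ℝ) ^ Module.finrank ℚ M * ((discr M).natAbs : ℝ) ^ 2 := by positivity
  have h8 : 4 ^ Module.finrank ℚ M * ((discr M).natAbs : ℝ) ^ 2 * (Ideal.absNorm 𝔡 : ℝ) ≤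
      4 ^ Module.finrank ℚ M * ((discr M).natAbs : ℝ) ^ 2 * (4 ^ Module.finrank ℚ M * Y) := by
    calc _ ≤ _ := h6
      _ = _ := by ring
  exact le_of_mul_le_mul_left h8 h7

omit hMN in
lemma TZR_fin [NumberField M] [NumberField N] (Z : ℝ) : (TZR K Ω M N Z).Finite := by
  refine (Ideal.finite_setOfPred_absNorm_le (S := 𝓞 M) ⌊Z⌋₊).subset ?_
  intro 𝔡 h
  exact Nat.le_floor h.2

theorem sieveR [NumberField M] [NumberField N] (h : SplitSum) :
    Tendsto (fun Z : ℝ => ((TZR K Ω M N Z).ncard : ℝ) / Z) atTop (𝓝 0) := by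
  have hnorm : Normal K Ω := IsAlgClosure.normal K Ω
  have i3 : Algebra.IsAlgebraic K Ω := IsAlgClosure.isAlgebraic
  let _ : Algebra M N := algR hMN
  have htow : IsScalarTower K M N := IsScalarTower.of_algebraMap_eq fun x => rfl
  have hgal : IsGalois K N := ⟨⟩
  exact sieveQ h K M N

lemma countSY (h2 : KumP) [NumberField M] [NumberField N]
    (k : Ideal (𝓞 M) → 𝓞 M → ℕ) (hk : IsK M k) (rep : ClassGroup (𝓞 M) → Ideal (𝓞 M))
    (hrep : Rep M rep) (Y : ℝ) :
    (SYR K Ω M N Y).ncard ≤ (TZR K Ω M N (4 ^ (Module.finrank ℚ M) * Y)).ncard *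
      (Set.univ : Set (ClassGroup (𝓞 M) × USq M)).ncard := by
  classical
  have hdat := dataR K Ω M N hMN h2 k hk rep hrep Y
  choose! C α s 𝔡 h5 h6 h7 h8 h9 h10 using hdat
  obtain ⟨ρ, hρ⟩ : ∃ ρ : Ideal (𝓞 M) → ClassGroup (𝓞 M) → IntermediateField K Ω,
      ∀ L ∈ SYR K Ω M N Y, ρ (𝔡 L) (C L) ∈ SYR K Ω M N Y ∧ 𝔡 (ρ (𝔡 L) (C L)) = 𝔡 L ∧
        C (ρ (𝔡 L) (C L)) = C L := by
    refine ⟨fun d c => if h : ∃ L, L ∈ SYR K Ω M N Y ∧ 𝔡 L = d ∧ C L = c then h.choose else ⊥,
      fun L hL => ?_⟩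
    have h : ∃ L', L' ∈ SYR K Ω M N Y ∧ 𝔡 L' = 𝔡 L ∧ C L' = C L := ⟨L, hL, rfl, rfl⟩
    simp only [dif_pos h]
    exact h.choose_spec
  have hu : ∀ L ∈ SYR K Ω M N Y, ∃ u : (𝓞 M)ˣ, α L = α (ρ (𝔡 L) (C L)) * u := by
    intro L hL
    obtain ⟨h11, h12, h13⟩ := hρ L hL
    have h14 := h6 _ h11
    rw [h12, h13, ← h6 L hL, Ideal.span_singleton_eq_span_singleton] at h14
    obtain ⟨u, hu⟩ := h14
    exact ⟨u, hu.symm⟩
  choose! u hu using hu
  have hfin : (TZR K Ω M N (4 ^ (Module.finrank ℚ M) * Y)).Finite := TZR_fin K Ω M N _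
  have hfU : Finite (USq M) := finite_USq M
  rw [← Set.ncard_prod]
  refine Set.ncard_le_ncard_of_injOn (fun L => (𝔡 L, (C L, (QuotientGroup.mk (u L) : USq M))))
    ?_ ?_ (hfin.prod Set.finite_univ)
  · intro L hL
    exact ⟨⟨h9 L hL, h10 L hL⟩, Set.mem_univ _⟩
  · intro L hL L' hL' he
    simp only [Prod.mk.injEq] at he
    obtain ⟨e1, e2, e3⟩ := he
    obtain ⟨w, hw⟩ := USq_eq M _ _ e3
    have h11 := hu L hL
    have h12 := hu L' hL'
    rw [← e1, ← e2, hw] at h12
    have h13 : α L' = (w : 𝓞 M) ^ 2 * α L := by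
      rw [h12, h11]
      push_cast
      ring
    rw [h8 L hL, h8 L' hL', same K Ω M (α L) (α L') (s L) (s L') (h7 L hL) (h7 L' hL') w h13]

end

theorem badSmallR (h1 : DiscQuad) (h2 : KumP) (h5 : SplitSum)
    (K Ω : Type) [Field K] [NumberField K] [Field Ω] [Algebra K Ω] [IsAlgClosure K Ω]
    (M N : IntermediateField K Ω) [FiniteDimensional K M] [FiniteDimensional K N] [Normal K N] (hMN : M ≤ N) :
    Tendsto (fun Y : ℝ => (Set.ncard (SYR K Ω M N Y) : ℝ) / Y) atTop (𝓝 0) := by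
  have hNM : NumberField M := NumberField.of_module_finite K M
  have hNN : NumberField N := NumberField.of_module_finite K N
  obtain ⟨k, hk⟩ := h1 M
  obtain ⟨rep, hrep⟩ := exists_rep M
  have hc := countSY K Ω M N hMN h2 k hk rep hrep
  obtain ⟨D, hD⟩ : ∃ D : ℝ, D = 4 ^ (Module.finrank ℚ M) := ⟨_, rfl⟩
  obtain ⟨c, hc0⟩ : ∃ c : ℕ, c = (Set.univ : Set (ClassGroup (𝓞 M) × USq M)).ncard := ⟨_, rfl⟩
  have hDpos : 0 < D := by rw [hD]; positivity
  have h6 : Tendsto (fun Z : ℝ => ((TZR K Ω M N Z).ncard : ℝ) / Z) atTop (𝓝 0) :=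
    sieveR K Ω M N hMN h5
  have h7 : Tendsto (fun Y : ℝ => D * Y) atTop atTop := tendsto_id.const_mul_atTop hDpos
  have h8 := (h6.comp h7).mul_const (D * c)
  rw [zero_mul] at h8
  refine squeeze_zero' ?_ ?_ h8
  · filter_upwards [eventually_gt_atTop 0] with Y hY
    positivity
  · filter_upwards [eventually_gt_atTop 0] with Y hY
    have h9 := hc Y
    rw [← hD, ← hc0] at h9
    have h10 : ((SYR K Ω M N Y).ncard : ℝ) ≤ ((TZR K Ω M N (D * Y)).ncard : ℝ) * c := by
      exact_mod_cast h9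
    have h11 : ((SYR K Ω M N Y).ncard : ℝ) / Y ≤ ((TZR K Ω M N (D * Y)).ncard : ℝ) / (D * Y) * (D * c) := by
      rw [div_mul_eq_mul_div, div_le_div_iff₀ hY (by positivity)]
      calc ((SYR K Ω M N Y).ncard : ℝ) * (D * Y) ≤
          (((TZR K Ω M N (D * Y)).ncard : ℝ) * c) * (D * Y) :=
            mul_le_mul_of_nonneg_right h10 (by positivity)
        _ = _ := by ring
    exact h11

end Pool.Agent.W5h46.MR
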