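import Mathlib
import Pool.Agent.H84.L.A9_W5h46_MR_Kum
import Pool.Agent.H84.L.S8_TH444_ML_Defs
import Pool.Agent.H84.L.S8_TH444_ML_Tr

namespace Pool.Agent.TH444.ML
end Pool.Agent.TH444.ML


/-!
# The extensions above a fixed pair `(N, M)`
-/

set_option autoImplicit false
set_option linter.unusedSectionVars false

open IntermediateField Filter Topology NumberField

namespace Pool.Agent.W5h46.MR

open Pool.Agent.TH444.ML (KumP DiscQuad SplitSum dsc nf_of_fd dsc_eq one_le_dsc AS QS extend_mem finite_AS fd_of_AS)

section

variable {K Ω : Type} [Field K] [NumberField K] [Field Ω] [Algebra K Ω] [IsAlgClosure K Ω]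
variable {M N : IntermediateField K Ω}

theorem tow1 (hMN : M ≤ N) : letI := algR hMN; IsScalarTower K M N := by
  let _ := algR hMN
  exact IsScalarTower.of_algebraMap_eq fun x => rfl

theorem tow2 (hMN : M ≤ N) : letI := algR hMN; IsScalarTower M N Ω := by
  let _ := algR hMN
  exact IsScalarTower.of_algebraMap_eq fun x => rfl

theorem adj_restrict (L : IntermediateField M Ω) :
    (adjoin N (L : Set Ω)).restrictScalars K = L.restrictScalars K ⊔ N := by
  have h1 := IntermediateField.restrictScalars_adjoin K N (L : Set Ω)
  rw [h1, IntermediateField.adjoin_union, IntermediateField.adjoin_self, sup_comm]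
  congr 1
  exact IntermediateField.adjoin_self K (L.restrictScalars K)


theorem nf_sq {N : IntermediateField K Ω} [NumberField N] :
    ((discr N : ℤ) : ℝ) ^ 2 = dsc N ^ 2 := by
  rw [dsc_eq N]
  push_cast
  exact (sq_abs _).symm

theorem finrank_MN (hMN : M ≤ N) [FiniteDimensional K M] [FiniteDimensional K N] (r : ℕ)
    (hr : Module.finrank K N = Module.finrank K M * r) :
    letI := algR hMN; Module.finrank M N = r := by
  let _ := algR hMN
  have htow := tow1 hMN
  have h := Module.finrank_mul_finrank K M N
  have hpos : 0 < Module.finrank K M := Module.finrank_pos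
  exact Nat.eq_of_mul_eq_mul_left hpos (by rw [h, hr])


end

end Pool.Agent.W5h46.MR
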