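import Mathlib
import Pool.Agent.H84.L.A9_W5h46_MR_JobB
import Pool.Agent.H84.L.S8_H921R2_TatePole_Dirichlet
import Pool.Agent.H84.L.S8_TH444_ML_Defs
import Pool.Agent.H84.L.S8_TH444_ML_Tr

namespace Pool.Agent.TH444.ML
end Pool.Agent.TH444.ML


/-!
# The extensions above a fixed pair `(N, M)`: limit and uniform bound
-/

set_option autoImplicit false
set_option linter.unusedSectionVars false

open IntermediateField Filter Topology NumberField

namespace Pool.Agent.W5h46.MR

open Pool.Agent.TH444.ML (KumP DiscQuad SplitSum QuadUnif dsc nf_of_fd dsc_eq one_le_dsc AS QS extend_mem finite_AS fd_of_AS)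

lemma ncard_fib {α β : Type*} (f : α → β) (S : Set α) (hS : S.Finite) (κ : ℕ)
    (h : ∀ b ∈ f '' S, {x | x ∈ S ∧ f x = b}.ncard = κ) : S.ncard = κ * (f '' S).ncard := by
  classical
  rw [Set.ncard_eq_toFinset_card S hS, Set.ncard_eq_toFinset_card (f '' S) (hS.image f),
    Finset.card_eq_sum_card_image f]
  have e1 : hS.toFinset.image f = (hS.image f).toFinset := by
    ext b
    simp
  rw [e1, mul_comm, ← smul_eq_mul, ← Finset.sum_const]
  refine Finset.sum_congr rfl fun b hb => ?_
  rw [← h b ((hS.image f).mem_toFinset.1 hb), ← Set.ncard_coe_finset]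
  congr 1
  ext x
  simp


end Pool.Agent.W5h46.MR
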