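import Mathlib
import Pool.Agent.H84.L.A9_W5h46_MR_JobB
import Pool.Agent.H84.L.S8_H921R2_TatePole_Dirichlet
import Pool.Agent.H84.L.S8_TH444_ML_Defs
import Pool.Agent.H84.L.S8_TH444_ML_Tr

namespace Pool.Agent.TH444.ML
end Pool.Agent.TH444.ML


/-!
# The extensions above a fixed pair `(N, M)`: uniform bound
-/

set_option autoImplicit false
set_option linter.unusedSectionVars false

open IntermediateField Filter Topology NumberField

namespace Pool.Agent.W5h46.MR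

open Pool.Agent.TH444.ML (dsc nf_of_fd dsc_eq one_le_dsc)

/- real number computation -/
theorem calc_bound {r : ℕ} (hr : 0 < r) {C dM dN B D q : ℝ} (hM : 1 ≤ dM) (hN : 1 ≤ dN)
    (hMN : dM ^ r ≤ dN) (hB : 0 < B) (hD : 0 < D)
    (hq : q ≤ C * dM ^ (7 / 4 : ℝ) * dN ^ (1 / (8 * r) : ℝ) * (B * (D / dN ^ 2)) ^ (1 / (r : ℝ))) :
    q ≤ max C 0 * D ^ (1 / (r : ℝ)) * B ^ (1 / (r : ℝ)) * dN ^ (-(1 / (8 * r)) : ℝ) := by
  have hr' : (0 : ℝ) < r := by exact_mod_cast hr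
  have hM0 : 0 < dM := by linarith
  have hN0 : 0 < dN := by linarith
  have h1 : dM ≤ dN ^ (1 / (r : ℝ)) := by
    have h2 : (dM ^ r) ^ ((r : ℝ)⁻¹) = dM := Real.pow_rpow_inv_natCast hM0.le (by omega)
    rw [one_div, ← h2]
    exact Real.rpow_le_rpow (by positivity) hMN (by positivity)
  have h3 : dM ^ (7 / 4 : ℝ) ≤ dN ^ (7 / (4 * r) : ℝ) := by
    calc dM ^ (7 / 4 : ℝ) ≤ (dN ^ (1 / (r : ℝ))) ^ (7 / 4 : ℝ) :=
          Real.rpow_le_rpow hM0.le h1 (by norm_num)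
      _ = dN ^ (7 / (4 * r) : ℝ) := by
          rw [← Real.rpow_mul hN0.le]
          congr 1
          field_simp
  have h4 : (B * (D / dN ^ 2)) ^ (1 / (r : ℝ)) =
      B ^ (1 / (r : ℝ)) * (D ^ (1 / (r : ℝ)) * dN ^ (-(2 / r) : ℝ)) := by
    rw [Real.mul_rpow hB.le (by positivity), Real.div_rpow hD.le (by positivity),
      ← Real.rpow_natCast dN 2, ← Real.rpow_mul hN0.le, Real.rpow_neg hN0.le, div_eq_mul_inv]
    congr 4
    push_cast
    ring
  have h5 : dN ^ (7 / (4 * r) : ℝ) * dN ^ (1 / (8 * r) : ℝ) * dN ^ (-(2 / r) : ℝ) =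
      dN ^ (-(1 / (8 * r)) : ℝ) := by
    rw [← Real.rpow_add hN0, ← Real.rpow_add hN0]
    congr 1
    field_simp
    norm_num
  refine hq.trans ?_
  calc C * dM ^ (7 / 4 : ℝ) * dN ^ (1 / (8 * r) : ℝ) * (B * (D / dN ^ 2)) ^ (1 / (r : ℝ)) ≤
      max C 0 * dN ^ (7 / (4 * r) : ℝ) * dN ^ (1 / (8 * r) : ℝ) *
        (B * (D / dN ^ 2)) ^ (1 / (r : ℝ)) := by
        apply mul_le_mul_of_nonneg_right _ (by positivity)
        apply mul_le_mul_of_nonneg_right _ (by positivity)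
        exact mul_le_mul (le_max_left _ _) h3 (by positivity) (le_max_right _ _)
    _ = max C 0 * D ^ (1 / (r : ℝ)) * B ^ (1 / (r : ℝ)) *
        (dN ^ (7 / (4 * r) : ℝ) * dN ^ (1 / (8 * r) : ℝ) * dN ^ (-(2 / r) : ℝ)) := by
        rw [h4]
        ring
    _ = _ := by rw [h5]


end Pool.Agent.W5h46.MR
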