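import Mathlib
import Pool.Agent.H84.L.S8_TH365_J3099
import Pool.Agent.H84.L.S8_TH444_ML_Defs

namespace Pool.Agent.TH365.J3099
end Pool.Agent.TH365.J3099
namespace Pool.Agent.TH444.ML
end Pool.Agent.TH444.ML


/-!
# The group `C₂ ^ (X / V) ⋊ X` acting on `X / W × {0, 1}`, for `W ≤ V ≤ X`
-/

set_option autoImplicit false

open IntermediateField NumberField

namespace Pool.Agent.W5h46.MW

open Pool.Agent.TH444.ML (dsc Gal)
open Pool.Agent.TH365.J3099 (act)

/- the group `C₂ ^ (X / V) ⋊ X` acting on `X / W × Bool` -/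
def WrW {X : Type} [Group X] (V W : Subgroup X) : Set (Equiv.Perm ((X ⧸ W) × Bool)) :=
  {π | ∃ (h : X) (a : X ⧸ V → Equiv.Perm Bool), ∀ (x : X) (b : Bool),
    π ((x : X ⧸ W), b) = (((h * x : X) : X ⧸ W), a (x : X ⧸ V) b)}

/- `L/K` has Galois group `C₂ ^ (X / V) ⋊ X` (as a permutation group on the embeddings) -/
def IsWrW (K Ω : Type) [Field K] [Field Ω] [Algebra K Ω] {X : Type} [Group X] (V W : Subgroup X)
    (L : IntermediateField K Ω) : Prop :=
  ∃ e : (L →ₐ[K] Ω) ≃ (X ⧸ W) × Bool, ∀ π : Equiv.Perm ((X ⧸ W) × Bool), π ∈ WrW V W ↔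
    ∃ σ : Ω ≃ₐ[K] Ω, ∀ φ : L →ₐ[K] Ω, e (σ.toAlgHom.comp φ) = π (e φ)

/- pairs `(P, M)` which correspond to `(W, V)`, for a Galois extension with group `X` -/
def PW (K Ω : Type) [Field K] [Field Ω] [Algebra K Ω] {X : Type} [Group X] (V W : Subgroup X) :
    Set (IntermediateField K Ω × IntermediateField K Ω) :=
  {p | FiniteDimensional K p.1 ∧ ∃ h : (Ω ≃ₐ[K] Ω) →* X, Function.Surjective h ∧
    W.comap h = p.1.fixingSubgroup ∧ V.comap h = p.2.fixingSubgroup}

/- the pairs `(P, M)` which show that `L'/K` has group `C₂ ^ (X / V) ⋊ X` -/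
def MidW (K Ω : Type) [Field K] [Field Ω] [Algebra K Ω] {X : Type} [Group X] (V W : Subgroup X)
    (L' P M : IntermediateField K Ω) : Prop :=
  (P, M) ∈ PW K Ω V W ∧
    (∃ L : IntermediateField K Ω, M ≤ L ∧ Module.finrank K L = 2 * Module.finrank K M ∧
      L' = L ⊔ P) ∧
    Module.finrank K (normalClosure K L' Ω) = 2 ^ Module.finrank K M * Nat.card X

/- the hypotheses on the groups: `W ≤ V`, and every `g ≠ 1` in `X` moves more than `[V : W]` points
of `X / W` (in particular `W` is core-free) -/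
structure Hyp {X : Type} [Group X] (V W : Subgroup X) : Prop where
  le : W ≤ V
  moves : ∀ g : X, g ≠ 1 → W.relIndex V < Set.ncard {q : X ⧸ W | g • q ≠ q}

/- the extensions with group `C₂ ^ (X / V) ⋊ X` above `(P, M)`, of bounded discriminant -/
def SW {K Ω : Type} [Field K] [NumberField K] [Field Ω] [Algebra K Ω] {X : Type} [Group X]
    (V W : Subgroup X) (P M : IntermediateField K Ω) (Z : ℝ) : Set (IntermediateField K Ω) :=
  {L' | MidW K Ω V W L' P M ∧ dsc L' ≤ Z}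

/- the extensions of `K` with group `C₂ ^ (X / V) ⋊ X`, of bounded discriminant -/
def TTW (K Ω : Type) [Field K] [Field Ω] [Algebra K Ω] {X : Type} [Group X] (V W : Subgroup X)
    (Z : ℝ) : Set (IntermediateField K Ω) :=
  {L | Module.finrank K L = 2 * Nat.card (X ⧸ W) ∧ IsWrW K Ω V W L ∧ dsc L ≤ Z}

/- `G ≤ S_n` is, up to a bijection `f` of `{1, ..., n}` with `X / W × {0, 1}`, the group of all
permutations `(x W, b) ↦ (h x W, a (x V) b)`, `h ∈ X`, `a : X / V → Sym {0, 1}`. -/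
def IsC2W {X : Type} [Group X] (V W : Subgroup X) {n : ℕ} (G : Subgroup (Equiv.Perm (Fin n))) : Prop :=
  ∃ f : Fin n ≃ (X ⧸ W) × Bool, ∀ π : Equiv.Perm (Fin n), π ∈ G ↔
    ∃ (h : X) (a : X ⧸ V → Equiv.Perm Bool), ∀ (i : Fin n) (x : X), (f i).1 = (x : X ⧸ W) →
      f (π i) = (((h * x : X) : X ⧸ W), a (x : X ⧸ V) (f i).2)

/- JOB W1 -/
def BasicW : Prop :=
  ∀ (K Ω X : Type) [Field K] [NumberField K] [Field Ω] [Algebra K Ω] [IsAlgClosure K Ω] [Group X]
    [Finite X] (V W : Subgroup X), Hyp V W → ∀ P M : IntermediateField K Ω, (P, M) ∈ PW K Ω V W →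
      M ≤ P ∧ FiniteDimensional K M ∧ Module.finrank K P = Nat.card (X ⧸ W) ∧
        Module.finrank K M = Nat.card (X ⧸ V) ∧ normalClosure K P Ω ∈ Gal K Ω X ∧
        Module.finrank K (normalClosure K P Ω) = Nat.card X

/- JOB W1 -/
def NcardW : Prop :=
  ∀ (X : Type) [Group X] [Finite X] (V W : Subgroup X), Hyp V W →
    (WrW V W).ncard = 2 ^ Nat.card (X ⧸ V) * Nat.card X

/- JOB W2 -/
def ForwardW : Prop :=
  ∀ (K Ω X : Type) [Field K] [NumberField K] [Field Ω] [Algebra K Ω] [IsAlgClosure K Ω] [Group X]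
    [Finite X] (V W : Subgroup X), Hyp V W → ∀ L' : IntermediateField K Ω,
      Module.finrank K L' = 2 * Nat.card (X ⧸ W) → IsWrW K Ω V W L' → ∃ P M, MidW K Ω V W L' P M

/- JOB W3 -/
def BackwardW : Prop :=
  ∀ (K Ω X : Type) [Field K] [NumberField K] [Field Ω] [Algebra K Ω] [IsAlgClosure K Ω] [Group X]
    [Finite X] (V W : Subgroup X), Hyp V W → ∀ (L' P M : IntermediateField K Ω)
    (h : (Ω ≃ₐ[K] Ω) →* X), Function.Surjective h → FiniteDimensional K P →
    W.comap h = P.fixingSubgroup → V.comap h = M.fixingSubgroup →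
    (∃ L : IntermediateField K Ω, M ≤ L ∧ Module.finrank K L = 2 * Module.finrank K M ∧
      L' = L ⊔ P) →
    Module.finrank K (normalClosure K L' Ω) = 2 ^ Module.finrank K M * Nat.card X →
    FiniteDimensional K L' ∧ Module.finrank K L' = 2 * Nat.card (X ⧸ W) ∧
      ∃ e : (L' →ₐ[K] Ω) ≃ (X ⧸ W) × Bool,
        (∀ σ, (e (act L' σ L'.val)).1 = ((h σ : X) : X ⧸ W)) ∧
        ∀ π : Equiv.Perm ((X ⧸ W) × Bool), π ∈ WrW V W ↔
          ∃ σ : Ω ≃ₐ[K] Ω, ∀ φ : L' →ₐ[K] Ω, e (σ.toAlgHom.comp φ) = π (e φ)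

/- JOB W4 -/
def UniqueW : Prop :=
  ∀ (K Ω X : Type) [Field K] [NumberField K] [Field Ω] [Algebra K Ω] [IsAlgClosure K Ω] [Group X]
    [Finite X] (V W : Subgroup X), Hyp V W → ∀ L' P M P₂ M₂ : IntermediateField K Ω,
      MidW K Ω V W L' P M → MidW K Ω V W L' P₂ M₂ → P = P₂ ∧ M = M₂

/- JOB W5 -/
def ConjW : Prop :=
  ∀ (X : Type) [Group X] [Finite X] (V W : Subgroup X), ∃ k : ℕ, 0 < k ∧
    ∀ (K Ω : Type) [Field K] [NumberField K] [Field Ω] [Algebra K Ω] [IsAlgClosure K Ω]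
      (L : IntermediateField K Ω), IsWrW K Ω V W L →
        Set.ncard {L' : IntermediateField K Ω | Nonempty (L ≃ₐ[K] L')} = k

/- JOB W6 -/
def FewW : Prop :=
  ∀ (K Ω X : Type) [Field K] [NumberField K] [Field Ω] [Algebra K Ω] [IsAlgClosure K Ω] [Group X]
    [Finite X] (V W U : Subgroup X), W ≤ V → W ≤ U → U.normalCore = ⊥ →
    16 * U.index * (U.index + 1) ≤ V.index →
    Summable (fun p : PW K Ω V W => (dsc p.1.1) ^ (-(1 / (8 * (W.relIndex V : ℝ)))))

/- JOB W7 -/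
def HypW : Prop :=
  ∀ (X : Type) [Group X] [Finite X] (V W U : Subgroup X), W ≤ V → W ≤ U → U.normalCore = ⊥ →
    16 * U.index * (U.index + 1) ≤ V.index → Hyp V W

/- JOB W7 -/
def ExistsW : Prop :=
  ∀ (K Ω X : Type) [Field K] [NumberField K] [Field Ω] [Algebra K Ω] [IsAlgClosure K Ω] [Group X]
    [Finite X] (V W : Subgroup X), (Gal K Ω X).Nonempty → (PW K Ω V W).Nonempty

end Pool.Agent.W5h46.MW
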