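import Mathlib



/-!
# Permutation groups on `Fin n`, counting up to isomorphism
-/

set_option autoImplicit false
set_option linter.unusedSectionVars false

open NumberField Filter Topology

namespace Pool.Agent.TH444.ML


/- the Galois group of (the normal closure of) `L/K`, acting on the embeddings of `L`, is `G` -/
def HasGp (K : Type) [Field K] {n : ℕ} (G : Subgroup (Equiv.Perm (Fin n)))
    (L : IntermediateField K (AlgebraicClosure K)) : Prop :=
  ∃ e : (L →ₐ[K] AlgebraicClosure K) ≃ Fin n, ∀ π : Equiv.Perm (Fin n),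
    π ∈ G ↔ ∃ σ : AlgebraicClosure K ≃ₐ[K] AlgebraicClosure K,
      ∀ φ : L →ₐ[K] AlgebraicClosure K, e (σ.toAlgHom.comp φ) = π (e φ)


/- the set of the extensions of `K` with group `G` and relative discriminant of norm `≤ X` -/
def Cnt (K : Type) [Field K] [NumberField K] {n : ℕ} (G : Subgroup (Equiv.Perm (Fin n))) (X : ℝ) :
    Set (IntermediateField K (AlgebraicClosure K)) :=
  {L | Module.finrank K L = n ∧ HasGp K G L ∧ ∃ h : NumberField L,
    ((|@discr L _ h| : ℤ) : ℝ) ≤ X * ((|discr K| : ℤ) : ℝ) ^ n}


end Pool.Agent.TH444.ML
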