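import Mathlib



/-!
# Counting up to isomorphism
-/

set_option autoImplicit false
set_option linter.unusedSectionVars false

open NumberField Filter Topology

namespace Pool.Agent.TH444.ML

/- an equivalence relation on a finite type all of whose classes have `h` elements -/
theorem card_quot {T : Type} [Finite T] (r : T → T → Prop) (hr : Equivalence r) (h : ℕ)
    (hh : ∀ x, Nat.card {y // r x y} = h) : Nat.card (Quot r) * h = Nat.card T := by
  classical
  have e : T ≃ Σ q : Quot r, {y : T // Quot.mk r y = q} :=
    { toFun := fun y => ⟨Quot.mk r y, y, rfl⟩
      invFun := fun p => p.2.1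
      left_inv := fun y => rfl
      right_inv := by
        rintro ⟨q, y, rfl⟩
        rfl }
  have : Fintype (Quot r) := Fintype.ofFinite _
  have hf : ∀ q : Quot r, Nat.card {y : T // Quot.mk r y = q} = h := by
    intro q
    obtain ⟨x, rfl⟩ := Quot.exists_rep q
    rw [← hh x]
    refine Nat.card_congr (Equiv.subtypeEquivRight fun y => ?_)
    constructor
    · intro hy
      have := (Equivalence.quot_mk_eq_iff hr y x).1 hy
      exact hr.symm this
    · intro hy
      exact Quot.sound (hr.symm hy)
  have hfin : ∀ q : Quot r, Finite {y : T // Quot.mk r y = q} := fun q => inferInstance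
  rw [Nat.card_congr e, Nat.card_sigma, Finset.sum_congr rfl (fun q _ => hf q), Finset.sum_const,
    Finset.card_univ, smul_eq_mul, Nat.card_eq_fintype_card]


end Pool.Agent.TH444.ML
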