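import Mathlib
import Pool.Agent.H84.L.A9_W5h46_MW_Defs
import Pool.Agent.H84.L.S8_TH444_ML_Defs
import Pool.Agent.H84.L.S8_TH444_ML_Fin
import Pool.Agent.H84.L.S8_TH444_ML_Quo
import Pool.Agent.H84.L.S8_TH444_ML_Tr

namespace Pool.Agent.TH444.ML
end Pool.Agent.TH444.ML


/-!
# Permutation groups on `Fin n`, counting up to isomorphism, for `C₂ ^ (X / V) ⋊ X` on `X / W × {0, 1}`
-/

set_option autoImplicit false
set_option linter.unusedSectionVars false

open NumberField Filter Topology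

namespace Pool.Agent.W5h46.MW

open Pool.Agent.TH444.ML (HasGp Cnt dsc nf_of_fd dsc_eq card_quot Gal)

theorem c2w_n {X : Type} [Group X] [Finite X] {V W : Subgroup X} {n : ℕ}
    {G : Subgroup (Equiv.Perm (Fin n))} (hG : IsC2W V W G) : n = 2 * Nat.card (X ⧸ W) := by
  obtain ⟨f, -⟩ := hG
  have := Nat.card_congr f
  rw [Nat.card_prod] at this
  simpa [mul_comm] using this

theorem hasGpW_iff (K : Type) [Field K] {X : Type} [Group X] {V W : Subgroup X} {n : ℕ}
    {G : Subgroup (Equiv.Perm (Fin n))} (hG : IsC2W V W G)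
    (L : IntermediateField K (AlgebraicClosure K)) :
    HasGp K G L ↔ IsWrW K (AlgebraicClosure K) V W L := by
  obtain ⟨f, hf⟩ := hG
  -- the group `G` in terms of `WrW`
  have key : ∀ π : Equiv.Perm (Fin n), π ∈ G ↔ f.symm.trans (π.trans f) ∈ WrW V W := by
    intro π
    rw [hf π]
    constructor
    · rintro ⟨h, a, hh⟩
      refine ⟨h, a, fun x b => ?_⟩
      have := hh (f.symm ((x : X ⧸ W), b)) x (by simp)
      simpa using this
    · rintro ⟨h, a, hh⟩
      refine ⟨h, a, fun i x hx => ?_⟩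
      have := hh x (f i).2
      rw [← hx] at this
      simpa using this
  constructor
  · rintro ⟨e, he⟩
    refine ⟨e.trans f, fun π => ?_⟩
    have h2 := he (f.trans (π.trans f.symm))
    have h3 : π ∈ WrW V W ↔ f.trans (π.trans f.symm) ∈ G := by
      rw [key]
      have h4 : f.symm.trans ((f.trans (π.trans f.symm)).trans f) = π := by
        ext1 x
        simp
      rw [h4]
    rw [h3, h2]
    constructor
    · rintro ⟨σ, hσ⟩
      refine ⟨σ, fun φ => ?_⟩
      have := hσ φ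
      simp only [Equiv.trans_apply] at this ⊢
      rw [this]
      simp
    · rintro ⟨σ, hσ⟩
      refine ⟨σ, fun φ => ?_⟩
      have := hσ φ
      simp only [Equiv.trans_apply] at this ⊢
      rw [← this]
      simp
  · rintro ⟨e, he⟩
    refine ⟨e.trans f.symm, fun π => ?_⟩
    have h2 := he (f.symm.trans (π.trans f))
    rw [key, h2]
    constructor
    · rintro ⟨σ, hσ⟩
      refine ⟨σ, fun φ => ?_⟩
      have := hσ φ
      simp only [Equiv.trans_apply] at this ⊢
      rw [this]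
      simp
    · rintro ⟨σ, hσ⟩
      refine ⟨σ, fun φ => ?_⟩
      have := hσ φ
      simp only [Equiv.trans_apply] at this ⊢
      rw [← this]
      simp

theorem cntW_eq (K : Type) [Field K] [NumberField K] {X : Type} [Group X] [Finite X]
    {V W : Subgroup X} {n : ℕ} {G : Subgroup (Equiv.Perm (Fin n))} (hG : IsC2W V W G) (B : ℝ) :
    Cnt K G B = TTW K (AlgebraicClosure K) V W (B * ((|discr K| : ℤ) : ℝ) ^ n) := by
  have hn := c2w_n hG
  ext L
  constructor
  · rintro ⟨h1, h2, h3, h4⟩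
    refine ⟨by rw [h1, hn], (hasGpW_iff K hG L).1 h2, ?_⟩
    rw [dsc_eq L]
    exact h4
  · rintro ⟨h1, h2, h3⟩
    have hpos : 0 < Nat.card (X ⧸ W) := Nat.card_pos
    have hfd : FiniteDimensional K L := FiniteDimensional.of_finrank_pos (by omega)
    have hnf : NumberField L := nf_of_fd L
    refine ⟨by rw [h1, hn], (hasGpW_iff K hG L).2 h2, hnf, ?_⟩
    rw [dsc_eq L] at h3
    exact h3

/- isomorphic fields have the same properties -/
theorem ttW_iso {K Ω X : Type} [Field K] [NumberField K] [Field Ω] [Algebra K Ω] [Group X]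
    [Finite X] {V W : Subgroup X} {Z : ℝ} {L L' : IntermediateField K Ω} (h : L ∈ TTW K Ω V W Z)
    (ε : L ≃ₐ[K] L') : L' ∈ TTW K Ω V W Z := by
  obtain ⟨h1, ⟨e, he⟩, h3⟩ := h
  have hpos : 0 < Nat.card (X ⧸ W) := Nat.card_pos
  have hfd : FiniteDimensional K L := FiniteDimensional.of_finrank_pos (by omega)
  have hnf : NumberField L := nf_of_fd L
  have hfd' : FiniteDimensional K L' := Module.Finite.equiv ε.toLinearEquiv
  have hnf' : NumberField L' := nf_of_fd L'
  refine ⟨?_, ?_, ?_⟩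
  · rw [← h1]; exact (ε.toLinearEquiv.finrank_eq).symm
  · let E : (L' →ₐ[K] Ω) ≃ (L →ₐ[K] Ω) :=
      { toFun := fun φ => φ.comp ε.toAlgHom
        invFun := fun φ => φ.comp ε.symm.toAlgHom
        left_inv := fun φ => by ext x; simp
        right_inv := fun φ => by ext x; simp }
    refine ⟨E.trans e, fun π => ?_⟩
    rw [he π]
    constructor
    · rintro ⟨σ, hσ⟩
      exact ⟨σ, fun φ => hσ (E φ)⟩
    · rintro ⟨σ, hσ⟩
      refine ⟨σ, fun φ => ?_⟩
      have := hσ (E.symm φ)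
      simp only [Equiv.trans_apply, Equiv.apply_symm_apply] at this
      rw [← this]
      congr 1
      ext x
      simp [E]
  · rw [dsc_eq L']
    rw [dsc_eq L] at h3
    rw [← NumberField.discr_eq_discr_of_ringEquiv L (ε : L ≃+* L')]
    exact h3

theorem quot_TTW {K Ω X : Type} [Field K] [NumberField K] [Field Ω] [Algebra K Ω]
    [IsAlgClosure K Ω] [Group X] [Finite X] {V W : Subgroup X} {k : ℕ}
    (hk : ∀ L : IntermediateField K Ω, IsWrW K Ω V W L →
      Set.ncard {L' : IntermediateField K Ω | Nonempty (L ≃ₐ[K] L')} = k) (Z : ℝ)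
    (hfin : (TTW K Ω V W Z).Finite) :
    Nat.card (Quot (fun L L' : TTW K Ω V W Z => Nonempty (L.1 ≃ₐ[K] L'.1))) * k =
      (TTW K Ω V W Z).ncard := by
  have : Finite (TTW K Ω V W Z) := hfin
  rw [card_quot (T := TTW K Ω V W Z) (fun L L' => Nonempty (L.1 ≃ₐ[K] L'.1)) ?_ k ?_]
  · rfl
  · exact ⟨fun L => ⟨AlgEquiv.refl⟩, fun ⟨a⟩ => ⟨a.symm⟩, fun ⟨a⟩ ⟨b⟩ => ⟨a.trans b⟩⟩
  · intro L
    rw [← hk L.1 L.2.2.1, ← Nat.card_coe_set_eq]
    refine Nat.card_congr ⟨fun y => ⟨y.1.1, y.2⟩,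
      fun y => ⟨⟨y.1, ttW_iso L.2 y.2.some⟩, y.2⟩, fun y => rfl, fun y => rfl⟩

/- an extension with group `C₂ ^ (X / V) ⋊ X` gives an extension with group `X` -/
theorem gal_of_cntW (hF : ForwardW) (hB : BasicW) (K : Type) [Field K] [NumberField K] (X : Type)
    [Group X] [Finite X] (V W : Subgroup X) (hH : Hyp V W) {d : ℕ}
    {G : Subgroup (Equiv.Perm (Fin d))} (hG : IsC2W V W G) {B : ℝ}
    {L : IntermediateField K (AlgebraicClosure K)} (hL : L ∈ Cnt K G B) :
    ∃ M : IntermediateField K (AlgebraicClosure K), M ∈ Gal K (AlgebraicClosure K) X := by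
  rw [cntW_eq K hG] at hL
  obtain ⟨P, M, hM⟩ := hF K (AlgebraicClosure K) X V W hH L hL.1 hL.2.1
  exact ⟨_, (hB K (AlgebraicClosure K) X V W hH P M hM.1).2.2.2.2.1⟩

/- the asymptotic formula for the extensions with group `G` -/
theorem asympW (K : Type) [Field K] [NumberField K] (X : Type) [Group X] [Finite X]
    (V W : Subgroup X) {n : ℕ} {G : Subgroup (Equiv.Perm (Fin n))} (hG : IsC2W V W G)
    (hm : (∀ B : ℝ, 0 < B →
        (TTW K (AlgebraicClosure K) V W (B * ((|discr K| : ℤ) : ℝ) ^ n)).Finite) ∧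
      ∃ c : ℝ, 0 < c ∧ Tendsto (fun B : ℝ =>
        (Set.ncard (TTW K (AlgebraicClosure K) V W (B * ((|discr K| : ℤ) : ℝ) ^ n)) : ℝ) /
          B ^ (1 / (W.relIndex V : ℝ))) atTop (𝓝 c)) :
    (∀ B : ℝ, 0 < B → (Cnt K G B).Finite) ∧ ∃ c : ℝ, 0 < c ∧
      Tendsto (fun B : ℝ => (Set.ncard (Cnt K G B) : ℝ) / B ^ (1 / (W.relIndex V : ℝ)))
        atTop (𝓝 c) := by
  simp only [cntW_eq K hG]
  exact hm

/- up to isomorphism -/
theorem asympW_iso (hc : ConjW) (K : Type) [Field K] [NumberField K] (X : Type) [Group X]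
    [Finite X] (V W : Subgroup X) {n : ℕ} {G : Subgroup (Equiv.Perm (Fin n))}
    (hG : IsC2W V W G)
    (hm : (∀ B : ℝ, 0 < B →
        (TTW K (AlgebraicClosure K) V W (B * ((|discr K| : ℤ) : ℝ) ^ n)).Finite) ∧
      ∃ c : ℝ, 0 < c ∧ Tendsto (fun B : ℝ =>
        (Set.ncard (TTW K (AlgebraicClosure K) V W (B * ((|discr K| : ℤ) : ℝ) ^ n)) : ℝ) /
          B ^ (1 / (W.relIndex V : ℝ))) atTop (𝓝 c)) :
    ∃ c : ℝ, 0 < c ∧ Tendsto (fun B : ℝ =>
      (Nat.card (Quot (fun L L' : Cnt K G B => Nonempty (L.1 ≃ₐ[K] L'.1))) : ℝ) /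
        B ^ (1 / (W.relIndex V : ℝ))) atTop (𝓝 c) := by
  obtain ⟨hfin, c, hc0, hlim⟩ := asympW K X V W hG hm
  obtain ⟨k, hk0, hk⟩ := hc X V W
  have hpos : (0 : ℝ) < k := by exact_mod_cast hk0
  refine ⟨c / k, by positivity, ?_⟩
  have h := hlim.div_const (k : ℝ)
  refine h.congr' ?_
  filter_upwards [eventually_gt_atTop (0 : ℝ)] with B hB
  have hB' := hfin B hB
  rw [cntW_eq K hG] at hB' ⊢
  have hq := quot_TTW (K := K) (Ω := AlgebraicClosure K) (X := X) (V := V) (W := W)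
    (hk K (AlgebraicClosure K)) _ hB'
  rw [← hq]
  push_cast
  have hb : (0 : ℝ) < B ^ (1 / (W.relIndex V : ℝ)) := Real.rpow_pos_of_pos hB _
  field_simp

end Pool.Agent.W5h46.MW
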