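import Mathlib
import Pool.Agent.H84.L.A9_W5h46_MR_Defs
import Pool.Agent.H84.L.A9_W5h46_MR_JobB
import Pool.Agent.H84.L.A9_W5h46_MR_JobG
import Pool.Agent.H84.L.A9_W5h46_MR_Kum
import Pool.Agent.H84.L.A9_W5h46_MR_Main1
import Pool.Agent.H84.L.A9_W5h46_MR_Main2
import Pool.Agent.H84.L.A9_W5h46_MR_Main3
import Pool.Agent.H84.L.A9_W5h46_MW_Defs
import Pool.Agent.H84.L.S8_TH444_ML_Defs
import Pool.Agent.H84.L.S8_TH444_ML_Tr
import Pool.Agent.H84.L.S8_TH914_J3087

namespace Pool.Agent.TH444.ML
end Pool.Agent.TH444.ML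
namespace Pool.Agent.W5h46.MR
end Pool.Agent.W5h46.MR


/-!
# The extensions above a fixed pair `(P, M)`
-/

set_option autoImplicit false
set_option linter.unusedSectionVars false

open IntermediateField Filter Topology NumberField

namespace Pool.Agent.W5h46.MW

open Pool.Agent.TH444.ML (KumP DiscQuad SplitSum QuadUnif dsc nf_of_fd dsc_eq one_le_dsc AS QS extend_mem finite_AS fd_of_AS)
open Pool.Agent.W5h46.MR (algR tow1 tow2 adj_restrict QR LimR CompR UnifR FibR exists_gen adjoin_adj nf_sq
  finrank_MN ncard_fib SYR badSmallR calc_bound)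

section

variable {K Ω : Type} [Field K] [NumberField K] [Field Ω] [Algebra K Ω] [IsAlgClosure K Ω]
variable {M P : IntermediateField K Ω}

/- the full ones -/
def FQ [NumberField P] (hMP : M ≤ P) (c : ℕ) (Y : ℝ) : Set (IntermediateField M Ω) :=
  letI := algR hMP
  {L | L ∈ QR M P Ω Y ∧ Module.finrank K
      (normalClosure K ((adjoin P (L : Set Ω)).restrictScalars K) Ω) = c}

theorem finrank_top (hMP : M ≤ P) [FiniteDimensional K M] [FiniteDimensional K P]
    {L : IntermediateField M Ω} (hL : Module.finrank M L = 2)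
    (hne : Module.finrank K (normalClosure K ((adjoin P (L : Set Ω)).restrictScalars K) Ω) ≠
      Module.finrank K (normalClosure K P Ω)) :
    Module.finrank P (adjoin P (L : Set Ω)) = 2 := by
  let _ := algR hMP
  have htow := tow2 hMP
  have hac : IsAlgClosed Ω := IsAlgClosure.isAlgClosed K
  have hNM : NumberField M := nf_of_fd M
  have hNN : NumberField P := nf_of_fd P
  obtain ⟨b, s, hs, hns, hLs⟩ := exists_gen L hL
  rw [hLs] at hne ⊢
  rw [adjoin_adj (M := M) (N := P) s] at hne ⊢
  have h1 : s ^ 2 = algebraMap P Ω (algebraMap M P b) := by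
    rw [hs, IsScalarTower.algebraMap_apply M P Ω]
  refine Pool.Agent.TH914.J3087.finrank_two h1 ?_
  intro x hx
  apply hne
  have h2 : s ∈ (⊥ : IntermediateField P Ω) := IntermediateField.mem_bot.2 ⟨x, hx⟩
  have h3 : adjoin P {s} = ⊥ := IntermediateField.adjoin_simple_eq_bot_iff.2 h2
  rw [h3]
  have h4 : (⊥ : IntermediateField P Ω).restrictScalars K = P := by
    ext y
    simp
  rw [h4]

section pair

variable {X : Type} [Group X] [Finite X] {V W : Subgroup X}

theorem finrank_pw (hB : BasicW) (hyp : Hyp V W) (h : (P, M) ∈ PW K Ω V W) :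
    Module.finrank K P = Module.finrank K M * W.relIndex V := by
  obtain ⟨h1, h2, h3, h4, h5, h6⟩ := hB K Ω X V W hyp P M h
  rw [h3, h4]
  have h7 := Subgroup.relIndex_mul_index hyp.le
  rw [mul_comm] at h7
  exact h7.symm

theorem full_ne (hB : BasicW) (hyp : Hyp V W) (h : (P, M) ∈ PW K Ω V W) :
    2 ^ Module.finrank K M * Nat.card X ≠ Module.finrank K (normalClosure K P Ω) := by
  obtain ⟨h1, h2, h3, h4, h5, h6⟩ := hB K Ω X V W hyp P M h
  rw [h6]
  have hX : 0 < Nat.card X := Nat.card_pos
  have hm : 0 < Module.finrank K M := Module.finrank_pos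
  have h7 : 2 ≤ 2 ^ Module.finrank K M := by
    calc 2 = 2 ^ 1 := rfl
      _ ≤ _ := Nat.pow_le_pow_right two_pos hm
  nlinarith

theorem image_FQ (hB : BasicW) (hyp : Hyp V W) [NumberField P] (h : (P, M) ∈ PW K Ω V W) (hMP : M ≤ P) (Y : ℝ) :
    (fun L : IntermediateField M Ω => (adjoin P (L : Set Ω)).restrictScalars K) ''
      (FQ hMP (2 ^ Module.finrank K M * Nat.card X) Y) = SW V W P M (Y ^ W.relIndex V * dsc P ^ 2) := by
  obtain ⟨-, hMfd, hP, hM, hG, hN⟩ := hB K Ω X V W hyp P M h
  have hPfd : FiniteDimensional K P := h.1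
  let _ := algR hMP
  have htow1 := tow1 hMP
  have htow2 := tow2 hMP
  have hr := finrank_MN hMP (W.relIndex V) (finrank_pw hB hyp h)
  have hNM : NumberField M := nf_of_fd M
  have hne := full_ne hB hyp h
  ext L'
  constructor
  · rintro ⟨L, ⟨⟨h1, h2, h3, h4⟩, h5⟩, rfl⟩
    refine ⟨⟨h, ⟨L.restrictScalars K, ?_, ?_, ?_⟩, h5⟩, ?_⟩
    · intro x hx
      exact L.algebraMap_mem ⟨x, hx⟩
    · have h6 := Module.finrank_mul_finrank K M L
      rw [h1] at h6
      rw [mul_comm, h6]
      rfl
    · exact adj_restrict L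
    · have hnf : NumberField ((adjoin P (L : Set Ω)).restrictScalars K) := h3
      show dsc ((adjoin P (L : Set Ω)).restrictScalars K) ≤ _
      rw [dsc_eq ((adjoin P (L : Set Ω)).restrictScalars K), ← nf_sq, ← hr]
      exact h4
  · rintro ⟨⟨-, ⟨L₁, h1, h2, h3⟩, h5⟩, h4⟩
    have hfin : Module.finrank M (extendScalars h1) = 2 := by
      have h6 := Module.finrank_mul_finrank K M (extendScalars h1)
      have hpos : 0 < Module.finrank K M := Module.finrank_pos
      have h7 : Module.finrank K (extendScalars h1) = Module.finrank K L₁ := rfl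
      rw [h7, h2, mul_comm 2] at h6
      exact Nat.eq_of_mul_eq_mul_left hpos h6
    have h8 : (adjoin P ((extendScalars h1 : IntermediateField M Ω) : Set Ω)).restrictScalars K = L' := by
      rw [adj_restrict, h3]
      rfl
    refine ⟨extendScalars h1, ⟨⟨hfin, ?_, ?_⟩, ?_⟩, h8⟩
    · refine finrank_top hMP hfin ?_
      rw [h8, h5]
      exact hne
    · have hfd : FiniteDimensional K L' := by
        rw [h3]
        have hL₁ : FiniteDimensional K L₁ := by
          have hpos : 0 < Module.finrank K M := Module.finrank_pos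
          exact FiniteDimensional.of_finrank_pos (by omega)
        infer_instance
      have hnf' : NumberField L' := nf_of_fd L'
      have hnf : NumberField ((adjoin P ((extendScalars h1 : IntermediateField M Ω) : Set Ω)).restrictScalars K) := by
        rw [h8]; exact hnf'
      refine ⟨hnf, ?_⟩
      have h9 : dsc ((adjoin P ((extendScalars h1 : IntermediateField M Ω) : Set Ω)).restrictScalars K) ≤
          Y ^ W.relIndex V * dsc P ^ 2 := by rw [h8]; exact h4
      rw [dsc_eq ((adjoin P ((extendScalars h1 : IntermediateField M Ω) : Set Ω)).restrictScalars K),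
        ← nf_sq, ← hr] at h9
      exact h9
    · rw [h8]
      exact h5

theorem ncard_FQ (hfib : FibR) (hB : BasicW) (hyp : Hyp V W) [NumberField P]
    (h : (P, M) ∈ PW K Ω V W) (hMP : M ≤ P) :
    ∃ κ : ℕ, 0 < κ ∧ ∀ Y : ℝ, (FQ hMP (2 ^ Module.finrank K M * Nat.card X) Y).Finite →
      (FQ hMP (2 ^ Module.finrank K M * Nat.card X) Y).ncard =
        κ * (SW V W P M (Y ^ W.relIndex V * dsc P ^ 2)).ncard := by
  obtain ⟨-, hMfd, hP, hM, hG, hN⟩ := hB K Ω X V W hyp P M h
  have hPfd : FiniteDimensional K P := h.1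
  let _ := algR hMP
  have htow1 := tow1 hMP
  have htow2 := tow2 hMP
  have hac : IsAlgClosed Ω := IsAlgClosure.isAlgClosed K
  have hNM : NumberField M := nf_of_fd M
  have hfdMN : FiniteDimensional M P := Module.Finite.of_restrictScalars_finite K M P
  obtain ⟨κ, hκ, hk⟩ := hfib M P Ω
  refine ⟨κ, hκ, fun Y hfin => ?_⟩
  rw [← image_FQ hB hyp h hMP Y]
  have e1 : (fun L : IntermediateField M Ω => (adjoin P (L : Set Ω)).restrictScalars K) ''
      (FQ hMP (2 ^ Module.finrank K M * Nat.card X) Y) =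
      (fun L' : IntermediateField P Ω => L'.restrictScalars K) ''
        ((fun L : IntermediateField M Ω => adjoin P (L : Set Ω)) ''
          (FQ hMP (2 ^ Module.finrank K M * Nat.card X) Y)) := by
    rw [Set.image_image]
  rw [e1, Set.ncard_image_of_injective _ (IntermediateField.restrictScalars_injective K)]
  apply ncard_fib _ _ hfin
  rintro _ ⟨L, hL, rfl⟩
  obtain ⟨⟨h1, h2, h3⟩, h4⟩ := hL
  rw [← hk (adjoin P (L : Set Ω)) h2 ⟨L, h1, rfl⟩]
  congr 1
  ext L₂
  constructor
  · rintro ⟨h5, h6⟩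
    exact ⟨h5.1.1, h6⟩
  · rintro ⟨h5, h6⟩
    refine ⟨⟨⟨h5, ?_, ?_⟩, ?_⟩, h6⟩
    · rw [h6]; exact h2
    · rw [h6]; exact h3
    · rw [h6]; exact h4

end pair

theorem ncl_sup (L P : IntermediateField K Ω) :
    normalClosure K (L ⊔ normalClosure K P Ω : IntermediateField K Ω) Ω =
      normalClosure K (L ⊔ P : IntermediateField K Ω) Ω := by
  have i2 : Normal K Ω := IsAlgClosure.normal K Ω
  apply le_antisymm
  · have h1 : (L ⊔ normalClosure K P Ω : IntermediateField K Ω) ≤
        normalClosure K (L ⊔ P : IntermediateField K Ω) Ω := by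
      apply sup_le
      · exact le_sup_left.trans (IntermediateField.le_normalClosure _)
      · exact IntermediateField.normalClosure_mono _ _ le_sup_right
    have h2 := IntermediateField.normalClosure_mono _ _ h1
    refine h2.trans (le_of_eq ?_)
    exact IntermediateField.normalClosure_of_normal _
  · apply IntermediateField.normalClosure_mono
    exact sup_le_sup_left (IntermediateField.le_normalClosure _) _

/- the others are few -/
theorem bad_sub (hcomp : CompR) (hMP : M ≤ P) [FiniteDimensional K M] [NumberField M] [NumberField P]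
    (c : ℕ) (hc : c = 2 ^ Module.finrank K M * Module.finrank K (normalClosure K P Ω)) :
    letI := algR hMP
    ∃ C : ℝ, 0 < C ∧ ∀ Y : ℝ, 0 ≤ Y →
      (fun L : IntermediateField M Ω => L.restrictScalars K) '' (QR M P Ω Y \ FQ hMP c Y) ⊆
        SYR K Ω M (normalClosure K P Ω) (C * Y) := by
  let _ := algR hMP
  have htow1 := tow1 hMP
  have htow2 := tow2 hMP
  have hac : IsAlgClosed Ω := IsAlgClosure.isAlgClosed K
  obtain ⟨C, hC, hcc⟩ := hcomp M P Ω
  refine ⟨C, hC, fun Y hY => ?_⟩
  rintro _ ⟨L, ⟨hL1, hL2⟩, rfl⟩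
  have hle : M ≤ L.restrictScalars K := by
    intro x hx
    exact L.algebraMap_mem ⟨x, hx⟩
  have h1 : L.restrictScalars K ∈ AS M (C * Y) := by
    rw [extend_mem _ hle]
    exact hcc Y hY hL1
  refine ⟨h1.1, h1.2.1, ?_, h1.2.2⟩
  intro h2
  apply hL2
  refine ⟨hL1, ?_⟩
  rw [adj_restrict, hc, ← h2, ncl_sup]

end

end Pool.Agent.W5h46.MW
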