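import Mathlib
import Pool.Agent.H84.L.A9_W5h46_MR_Defs
import Pool.Agent.H84.L.A9_W5h46_MR_JobB
import Pool.Agent.H84.L.A9_W5h46_MR_JobG
import Pool.Agent.H84.L.A9_W5h46_MR_Kum
import Pool.Agent.H84.L.A9_W5h46_MR_Main1
import Pool.Agent.H84.L.A9_W5h46_MR_Main2
import Pool.Agent.H84.L.A9_W5h46_MR_Main3
import Pool.Agent.H84.L.A9_W5h46_MW_Defs
import Pool.Agent.H84.L.A9_W5h46_MW_Main1
import Pool.Agent.H84.L.S8_H921R2_TatePole_Dirichlet
import Pool.Agent.H84.L.S8_TH444_ML_Defs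
import Pool.Agent.H84.L.S8_TH444_ML_Tr

namespace Pool.Agent.TH444.ML
end Pool.Agent.TH444.ML
namespace Pool.Agent.W5h46.MR
end Pool.Agent.W5h46.MR


/-!
# The extensions above a fixed pair `(P, M)`: limit and uniform bound
-/

set_option autoImplicit false
set_option linter.unusedSectionVars false

open IntermediateField Filter Topology NumberField

namespace Pool.Agent.W5h46.MW

open Pool.Agent.TH444.ML (KumP DiscQuad SplitSum QuadUnif dsc nf_of_fd dsc_eq one_le_dsc AS QS extend_mem finite_AS fd_of_AS)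
open Pool.Agent.W5h46.MR (algR tow1 tow2 adj_restrict QR LimR CompR UnifR FibR exists_gen adjoin_adj nf_sq
  finrank_MN ncard_fib SYR badSmallR calc_bound)

section

variable {K Ω : Type} [Field K] [NumberField K] [Field Ω] [Algebra K Ω] [IsAlgClosure K Ω]
variable {M P : IntermediateField K Ω}

theorem lim_FQ (hlim : LimR) (hcomp : CompR) (hu : QuadUnif) (h1 : DiscQuad) (h2 : KumP)
    (h5 : SplitSum) (huni : UnifR) (hMP : M ≤ P) [FiniteDimensional K M] [FiniteDimensional K P]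
    [NumberField M] [NumberField P]
    (c₀ : ℕ) (hc₀ : c₀ = 2 ^ Module.finrank K M * Module.finrank K (normalClosure K P Ω)) :
    ∃ c : ℝ, 0 < c ∧ (∀ Y : ℝ, 0 ≤ Y → (FQ hMP c₀ Y).Finite) ∧
      Tendsto (fun Y : ℝ => (Set.ncard (FQ hMP c₀ Y) : ℝ) / Y) atTop (𝓝 c) := by
  let _ := algR hMP
  have htow1 := tow1 hMP
  have htow2 := tow2 hMP
  have i2 : Normal K Ω := IsAlgClosure.normal K Ω
  have hac : IsAlgClosed Ω := IsAlgClosure.isAlgClosed K
  obtain ⟨c, hc0, hc⟩ := hlim M P Ω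
  obtain ⟨C, hC, hbad⟩ := bad_sub hcomp hMP c₀ hc₀
  obtain ⟨C₁, hC₁⟩ := huni (Module.finrank ℚ M) (Module.finrank M P) 1 one_pos
  have hfin : ∀ Y : ℝ, 0 ≤ Y → (QR M P Ω Y).Finite := fun Y hY => (hC₁ M P Ω rfl rfl Y hY).1
  have hsub : ∀ Y : ℝ, FQ hMP c₀ Y ⊆ QR M P Ω Y := fun Y L hL => hL.1
  have hfinF : ∀ Y : ℝ, 0 ≤ Y → (FQ hMP c₀ Y).Finite := fun Y hY => (hfin Y hY).subset (hsub Y)
  refine ⟨c, hc0, hfinF, ?_⟩
  obtain ⟨C₂, hC₂⟩ := hu (Module.finrank ℚ M)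
  have hMN : M ≤ normalClosure K P Ω := hMP.trans (IntermediateField.le_normalClosure _)
  have hfinS : ∀ Y : ℝ, 0 ≤ Y → (SYR K Ω M (normalClosure K P Ω) Y).Finite := by
    intro Y hY
    refine (finite_AS M Y (hC₂ M Ω rfl Y hY).1).subset ?_
    rintro L ⟨a1, a2, a3, a4⟩
    exact ⟨a1, a2, a4⟩
  have hS := badSmallR h1 h2 h5 K Ω M (normalClosure K P Ω) hMN
  have hCY : Tendsto (fun Y : ℝ => C * Y) atTop atTop := tendsto_id.const_mul_atTop hC
  have hS2 := (hS.comp hCY).mul_const C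
  rw [zero_mul] at hS2
  have hbad0 : Tendsto (fun Y : ℝ => ((QR M P Ω Y \ FQ hMP c₀ Y).ncard : ℝ) / Y) atTop (𝓝 0) := by
    refine squeeze_zero' ?_ ?_ hS2
    · filter_upwards [eventually_gt_atTop 0] with Y hY
      positivity
    · filter_upwards [eventually_gt_atTop 0] with Y hY
      have h3 : (QR M P Ω Y \ FQ hMP c₀ Y).ncard ≤ (SYR K Ω M (normalClosure K P Ω) (C * Y)).ncard := by
        rw [← Set.ncard_image_of_injective (QR M P Ω Y \ FQ hMP c₀ Y)
          (IntermediateField.restrictScalars_injective K)]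
        exact Set.ncard_le_ncard (hbad Y hY.le) (hfinS _ (by positivity))
      have h4 : ((QR M P Ω Y \ FQ hMP c₀ Y).ncard : ℝ) ≤
          (SYR K Ω M (normalClosure K P Ω) (C * Y)).ncard := by
        exact_mod_cast h3
      show _ ≤ ((SYR K Ω M (normalClosure K P Ω) (C * Y)).ncard : ℝ) / (C * Y) * C
      rw [div_mul_eq_mul_div, div_le_div_iff₀ hY (by positivity)]
      calc ((QR M P Ω Y \ FQ hMP c₀ Y).ncard : ℝ) * (C * Y) ≤
          ((SYR K Ω M (normalClosure K P Ω) (C * Y)).ncard : ℝ) * (C * Y) :=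
            mul_le_mul_of_nonneg_right h4 (by positivity)
        _ = _ := by ring
  have h6 := hc.sub hbad0
  rw [sub_zero] at h6
  refine h6.congr' ?_
  filter_upwards [eventually_gt_atTop 0] with Y hY
  have h7 := Set.ncard_sdiff_add_ncard_of_subset (hsub Y) (hfin Y hY.le)
  rw [← h7]
  push_cast
  ring

variable {X : Type} [Group X] [Finite X] {V W : Subgroup X}

theorem relIndex_pos : 0 < W.relIndex V := by
  have : (W.subgroupOf V).index ≠ 0 := Subgroup.index_ne_zero_of_finite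
  exact Nat.pos_of_ne_zero this

theorem limSW (hlim : LimR) (hcomp : CompR) (hfib : FibR) (hu : QuadUnif) (h1 : DiscQuad) (h2 : KumP)
    (h5 : SplitSum) (huni : UnifR) (hB : BasicW) (hyp : Hyp V W) (h : (P, M) ∈ PW K Ω V W)
    (D : ℝ) (hD : 0 < D) :
    ∃ c : ℝ, 0 < c ∧ Tendsto (fun B : ℝ =>
      (Set.ncard (SW V W P M (B * D)) : ℝ) / B ^ (1 / (W.relIndex V : ℝ))) atTop (𝓝 c) := by
  obtain ⟨hMP, hMfd, hP, hM, hG, hN⟩ := hB K Ω X V W hyp P M h
  have hPfd : FiniteDimensional K P := h.1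
  have hNM : NumberField M := nf_of_fd M
  have hNN : NumberField P := nf_of_fd P
  obtain ⟨c, hc0, hfin, hc⟩ := lim_FQ hlim hcomp hu h1 h2 h5 huni hMP _
    (by rw [hN] : 2 ^ Module.finrank K M * Nat.card X =
      2 ^ Module.finrank K M * Module.finrank K (normalClosure K P Ω))
  obtain ⟨κ, hκ, hk⟩ := ncard_FQ hfib hB hyp h hMP
  obtain ⟨r, hr⟩ : ∃ r : ℕ, r = W.relIndex V := ⟨_, rfl⟩
  have hr0 : 0 < r := by rw [hr]; exact relIndex_pos
  rw [← hr] at hk ⊢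
  have hr0' : (0 : ℝ) < r := by exact_mod_cast hr0
  have hκ' : (0 : ℝ) < κ := by exact_mod_cast hκ
  have hd1 : 1 ≤ dsc P := one_le_dsc P
  obtain ⟨E, hE⟩ : ∃ E : ℝ, E = D / dsc P ^ 2 := ⟨_, rfl⟩
  have hE0 : 0 < E := by rw [hE]; positivity
  -- `ncard SW / Y`
  have h3 : Tendsto (fun Y : ℝ => ((SW V W P M (Y ^ r * dsc P ^ 2)).ncard : ℝ) / Y) atTop
      (𝓝 (c / κ)) := by
    refine (hc.div_const (κ : ℝ)).congr' ?_
    filter_upwards [eventually_gt_atTop 0] with Y hY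
    rw [hk Y (hfin Y hY.le)]
    push_cast
    field_simp
  have h4 : Tendsto (fun B : ℝ => (B * E) ^ (1 / (r : ℝ))) atTop atTop :=
    (tendsto_rpow_atTop (by positivity)).comp (tendsto_id.atTop_mul_const hE0)
  refine ⟨c / κ * E ^ (1 / (r : ℝ)), by positivity, ?_⟩
  refine ((h3.comp h4).mul_const (E ^ (1 / (r : ℝ)))).congr' ?_
  filter_upwards [eventually_gt_atTop 0] with B hB
  show ((SW V W P M (((B * E) ^ (1 / (r : ℝ))) ^ r * dsc P ^ 2)).ncard : ℝ) / (B * E) ^ (1 / (r : ℝ)) *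
    E ^ (1 / (r : ℝ)) = _
  have e1 : ((B * E) ^ (1 / (r : ℝ))) ^ r = B * E := by
    rw [one_div]
    exact Real.rpow_inv_natCast_pow (by positivity) (by omega)
  have e2 : B * E * dsc P ^ 2 = B * D := by
    rw [hE]
    field_simp
  rw [e1, e2, Real.mul_rpow hB.le hE0.le]
  have e3 : 0 < B ^ (1 / (r : ℝ)) := Real.rpow_pos_of_pos hB _
  have e4 : 0 < E ^ (1 / (r : ℝ)) := Real.rpow_pos_of_pos hE0 _
  field_simp

theorem boundSW (huni : UnifR)
    (hpow : ∀ (K Ω : Type) [Field K] [NumberField K] [Field Ω] [Algebra K Ω]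
      (M N : IntermediateField K Ω) [FiniteDimensional K N], M ≤ N → ∀ (r : ℕ),
      Module.finrank K N = r * Module.finrank K M → dsc M ^ r ≤ dsc N)
    (hBa : BasicW) (K Ω X : Type) [Field K] [NumberField K] [Field Ω] [Algebra K Ω]
    [IsAlgClosure K Ω] [Group X] [Finite X] (V W : Subgroup X) (hyp : Hyp V W) (D : ℝ) (hD : 0 < D) :
    ∃ C : ℝ, 0 ≤ C ∧ ∀ P M : IntermediateField K Ω, (P, M) ∈ PW K Ω V W → ∀ B : ℝ, 0 < B →
      (SW V W P M (B * D)).Finite ∧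
      (Set.ncard (SW V W P M (B * D)) : ℝ) ≤
        C * B ^ (1 / (W.relIndex V : ℝ)) * (dsc P) ^ (-(1 / (8 * (W.relIndex V : ℝ)))) := by
  obtain ⟨r, hr⟩ : ∃ r : ℕ, r = W.relIndex V := ⟨_, rfl⟩
  have hr0 : 0 < r := by rw [hr]; exact relIndex_pos
  have hr0' : (0 : ℝ) < r := by exact_mod_cast hr0
  have hac : IsAlgClosed Ω := IsAlgClosure.isAlgClosed K
  obtain ⟨C, hC⟩ := huni (Module.finrank ℚ K * Nat.card (X ⧸ V)) r (1 / (8 * r)) (by positivity)
  rw [← hr]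
  refine ⟨max C 0 * D ^ (1 / (r : ℝ)), by positivity, ?_⟩
  intro P M h B hB
  obtain ⟨hMP, hMfd, hP, hM, hG, hN⟩ := hBa K Ω X V W hyp P M h
  have hPfd : FiniteDimensional K P := h.1
  have hNM : NumberField M := nf_of_fd M
  have hNN : NumberField P := nf_of_fd P
  let _ := algR hMP
  have htow1 := tow1 hMP
  have htow2 := tow2 hMP
  have hrk := finrank_MN hMP (W.relIndex V) (finrank_pw hBa hyp h)
  have hdeg : Module.finrank ℚ M = Module.finrank ℚ K * Nat.card (X ⧸ V) := by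
    rw [← hM, Module.finrank_mul_finrank ℚ K M]
  have hd1 : 1 ≤ dsc P := one_le_dsc P
  obtain ⟨Y, hY⟩ : ∃ Y : ℝ, Y = (B * (D / dsc P ^ 2)) ^ (1 / (r : ℝ)) := ⟨_, rfl⟩
  have hY0 : 0 ≤ Y := by rw [hY]; positivity
  have e1 : Y ^ r = B * (D / dsc P ^ 2) := by
    rw [hY, one_div]
    exact Real.rpow_inv_natCast_pow (by positivity) (by omega)
  have e2 : Y ^ W.relIndex V * dsc P ^ 2 = B * D := by
    rw [← hr, e1]
    field_simp
  have himg := image_FQ hBa hyp h hMP Y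
  rw [e2] at himg
  obtain ⟨hf, hle⟩ := hC M P Ω hdeg (by rw [hr]; exact hrk) Y hY0
  have hsub : FQ hMP (2 ^ Module.finrank K M * Nat.card X) Y ⊆ QR M P Ω Y := fun L hL => hL.1
  have hfF : (FQ hMP (2 ^ Module.finrank K M * Nat.card X) Y).Finite := hf.subset hsub
  refine ⟨by rw [← himg]; exact hfF.image _, ?_⟩
  have h1 : (SW V W P M (B * D)).ncard ≤ (QR M P Ω Y).ncard := by
    rw [← himg]
    exact (Set.ncard_image_le hfF).trans (Set.ncard_le_ncard hsub hf)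
  have h2 : ((SW V W P M (B * D)).ncard : ℝ) ≤ (QR M P Ω Y).ncard := by exact_mod_cast h1
  have h3 := calc_bound hr0 (one_le_dsc M) hd1 (hpow K Ω M P hMP r (by
    rw [finrank_pw hBa hyp h, ← hr, mul_comm])) hB hD (q := ((SW V W P M (B * D)).ncard : ℝ)) (C := C) (by
      rw [← hY, dsc_eq M, dsc_eq P]
      exact h2.trans hle)
  exact h3

end

end Pool.Agent.W5h46.MW
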