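import Mathlib
import Pool.Agent.H84.L.A9_W5h46_ML_Grp
import Pool.Agent.H84.L.A9_W5h46_MR_Grp
import Pool.Agent.H84.L.A9_W5h46_MW_Defs
import Pool.Agent.H84.L.A9_W5h46_MW_W1
import Pool.Agent.H84.L.S8_TH365_J3099
import Pool.Agent.H84.L.S8_TH444_ML_Defs

namespace Pool.Agent.TH365.J3099
end Pool.Agent.TH365.J3099
namespace Pool.Agent.TH444.ML
end Pool.Agent.TH444.ML
namespace Pool.Agent.W5h46.ML
end Pool.Agent.W5h46.ML
namespace Pool.Agent.W5h46.MR
end Pool.Agent.W5h46.MR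


/-!
# JOB W2 (helper15 for helper46): extensions with group `C₂ ^ (X / V) ⋊ X` on `X / W × {0, 1}` come
from a pair `(P, M)`
-/

set_option autoImplicit false
set_option linter.unusedSectionVars false

open IntermediateField NumberField

namespace Pool.Agent.W5h46.MW

open Pool.Agent.TH444.ML (dsc Gal)
open Pool.Agent.TH365.J3099 (act act_apply act_apply_apply ker_act imP ncard_imP)
open Pool.Agent.W5h46.ML (exists_ext act_val_eq card_emb Over exists_pair)
open Pool.Agent.W5h46.MR (fix_inj le_of_fix exists_field mem_fix_iff perm_bool)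

section main

variable {K Ω : Type} [Field K] [NumberField K] [Field Ω] [Algebra K Ω] [IsAlgClosure K Ω]
variable {X : Type} [Group X] [Finite X] {V W : Subgroup X}

theorem forward (hH : Hyp V W) (L' : IntermediateField K Ω)
    (hL : Module.finrank K L' = 2 * Nat.card (X ⧸ W)) (hw : IsWrW K Ω V W L') :
    ∃ P M, MidW K Ω V W L' P M := by
  obtain ⟨e, he⟩ := hw
  have hpos : 0 < Nat.card (X ⧸ W) := Nat.card_pos
  have hfd : FiniteDimensional K L' := FiniteDimensional.of_finrank_pos (by omega)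
  have i1 : IsAlgClosed Ω := IsAlgClosure.isAlgClosed K
  have i2 : Normal K Ω := IsAlgClosure.normal K Ω
  have i3 : Algebra.IsAlgebraic K Ω := IsAlgClosure.isAlgebraic
  have i4 : Algebra.IsSeparable K Ω := inferInstance
  have i5 : IsGalois K Ω := ⟨⟩
  let T : (Ω ≃ₐ[K] Ω) →* Equiv.Perm ((X ⧸ W) × Bool) :=
    e.permCongrHom.toMonoidHom.comp (act L')
  have hP : ∀ (σ : Ω ≃ₐ[K] Ω) (φ : L' →ₐ[K] Ω), e (act L' σ φ) = T σ (e φ) := by
    intro σ φ
    change _ = e (act L' σ (e.symm (e φ)))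
    rw [Equiv.symm_apply_apply]
  have hPW : ∀ σ, T σ ∈ WrW V W := fun σ => (he _).2 ⟨σ, fun φ => hP σ φ⟩
  choose g a ha using hPW
  obtain ⟨x0, b0, hx0⟩ : ∃ (x0 : X) (b0 : Bool), e L'.val = ((x0 : X ⧸ W), b0) := by
    obtain ⟨x0, hx0⟩ := QuotientGroup.mk_surjective (e L'.val).1
    exact ⟨x0, (e L'.val).2, Prod.ext hx0.symm rfl⟩
  let h : (Ω ≃ₐ[K] Ω) →* X :=
    { toFun := g
      map_one' := by
        apply hH.eq_of_smul
        intro q
        obtain ⟨x, rfl⟩ := QuotientGroup.mk_surjective q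
        have h1 := ha 1 x true
        rw [map_one, Equiv.Perm.one_apply] at h1
        rw [one_smul]
        exact (congrArg Prod.fst h1).symm
      map_mul' := fun σ τ => by
        apply hH.eq_of_smul
        intro q
        obtain ⟨x, rfl⟩ := QuotientGroup.mk_surjective q
        have h1 := ha (σ * τ) x true
        rw [map_mul, Equiv.Perm.mul_apply, ha τ, ha σ] at h1
        rw [mul_smul]
        exact (congrArg Prod.fst h1).symm }
  have hg : ∀ σ, h σ = g σ := fun σ => rfl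
  have haa : ∀ σ τ (x : X), a (σ * τ) (x : X ⧸ V) = a σ ((g τ * x : X) : X ⧸ V) * a τ (x : X ⧸ V) := by
    intro σ τ x
    ext b
    have h1 := ha (σ * τ) x b
    rw [map_mul, Equiv.Perm.mul_apply, ha τ, ha σ] at h1
    exact (congrArg Prod.snd h1).symm
  have ha1 : ∀ x : X, a 1 (x : X ⧸ V) = 1 := by
    intro x
    ext b
    have h1 := ha 1 x b
    rw [map_one, Equiv.Perm.one_apply] at h1
    exact (congrArg Prod.snd h1).symm
  have hlift : ∀ p : X × (X ⧸ V → Equiv.Perm Bool), ∃ σ, g σ = p.1 ∧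
      ∀ x : X, a σ (x : X ⧸ V) = p.2 (x : X ⧸ V) := by
    rintro ⟨x1, f⟩
    obtain ⟨σ, hσ⟩ := (he (wrF hH (x1, f))).1 (wrF_mem hH _)
    have h1 : ∀ (x : X) (b : Bool), T σ ((x : X ⧸ W), b) = wrF hH (x1, f) ((x : X ⧸ W), b) := by
      intro x b
      have h2 := hσ (e.symm ((x : X ⧸ W), b))
      rw [← act_apply, hP, Equiv.apply_symm_apply] at h2
      exact h2
    refine ⟨σ, ?_, ?_⟩
    · apply hH.eq_of_smul
      intro q
      obtain ⟨x, rfl⟩ := QuotientGroup.mk_surjective q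
      have h4 := h1 x true
      rw [ha, wrF_apply_mk] at h4
      exact congrArg Prod.fst h4
    · intro x
      ext b
      have h4 := h1 x b
      rw [ha, wrF_apply_mk] at h4
      exact congrArg Prod.snd h4
  have hs : Function.Surjective h := by
    intro x
    obtain ⟨σ, hσ, -⟩ := hlift (x, 1)
    exact ⟨σ, hσ⟩
  let h' : (Ω ≃ₐ[K] Ω) →* X := (MulAut.conj x0⁻¹).toMonoidHom.comp h
  have hh' : ∀ σ, h' σ = x0⁻¹ * g σ * x0 := by
    intro σ
    change x0⁻¹ * h σ * (x0⁻¹)⁻¹ = _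
    rw [inv_inv]
    rfl
  have hs' : Function.Surjective h' := (MulAut.conj x0⁻¹).surjective.comp hs
  -- coset of `x0`
  have hcos : ∀ (U : Subgroup X) (τ : Ω ≃ₐ[K] Ω), h' τ ∈ U ↔
      ((g τ * x0 : X) : X ⧸ U) = (x0 : X ⧸ U) := by
    intro U τ
    rw [eq_comm, QuotientGroup.eq, hh', ← mul_assoc]
  let c : (V.comap h') →* Equiv.Perm Bool :=
    { toFun := fun σ => a σ.1 (x0 : X ⧸ V)
      map_one' := ha1 x0
      map_mul' := fun σ τ => by
        change a (σ.1 * τ.1) (x0 : X ⧸ V) = _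
        rw [haa, (hcos V τ.1).1 τ.2] }
  have hcs : Function.Surjective c := by
    classical
    intro f
    obtain ⟨σ, hσ, hσ2⟩ := hlift (1, fun q => if q = (x0 : X ⧸ V) then f else 1)
    refine ⟨⟨σ, ?_⟩, ?_⟩
    · rw [Subgroup.mem_comap, hh', hσ]
      have : x0⁻¹ * 1 * x0 = 1 := by group
      change x0⁻¹ * 1 * x0 ∈ V
      rw [this]
      exact one_mem _
    · change a σ (x0 : X ⧸ V) = f
      rw [hσ2]
      simp
  -- the point stabilizer
  have hL' : ∀ σ, σ ∈ L'.fixingSubgroup ↔ h' σ ∈ W ∧ a σ (x0 : X ⧸ V) = 1 := by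
    intro σ
    rw [mem_fix_iff, hcos]
    constructor
    · intro h1
      have h2 := hP σ L'.val
      rw [h1, hx0, ha] at h2
      exact ⟨(congrArg Prod.fst h2).symm, perm_bool (b := b0) (congrArg Prod.snd h2).symm⟩
    · rintro ⟨h1, h2⟩
      apply e.injective
      rw [hP, hx0, ha, h1, h2]
      rfl
  have hopen : IsOpen (L'.fixingSubgroup : Set (Ω ≃ₐ[K] Ω)) := L'.fixingSubgroup_isOpen
  have hkle : L'.fixingSubgroup ≤ W.comap h' := fun σ hσ => ((hL' σ).1 hσ).1
  have hWV : W.comap h' ≤ V.comap h' := Subgroup.comap_mono hH.le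
  let S : Subgroup (Ω ≃ₐ[K] Ω) := c.ker.map (V.comap h').subtype
  have hS : ∀ σ, σ ∈ S ↔ σ ∈ V.comap h' ∧ a σ (x0 : X ⧸ V) = 1 := by
    intro σ
    constructor
    · rintro ⟨τ, hτ, rfl⟩
      exact ⟨τ.2, hτ⟩
    · rintro ⟨h1, h2⟩
      exact ⟨⟨σ, h1⟩, h2, rfl⟩
  have hLS : L'.fixingSubgroup ≤ S := by
    intro σ hσ
    rw [hS]
    exact ⟨hWV (hkle hσ), ((hL' σ).1 hσ).2⟩
  obtain ⟨P, hPf, hPfd⟩ := exists_field (W.comap h') (Subgroup.isOpen_mono hkle hopen)
  obtain ⟨M, hM, hMfd⟩ := exists_field (V.comap h') (Subgroup.isOpen_mono (hkle.trans hWV) hopen)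
  obtain ⟨L, hLf, hLfd⟩ := exists_field S (Subgroup.isOpen_mono hLS hopen)
  have hPM : (P, M) ∈ PW K Ω V W := ⟨hPfd, h', hs', hPf.symm, hM.symm⟩
  obtain ⟨-, -, -, hcM, -, -⟩ := basic hH hPM
  refine ⟨P, M, hPM, ⟨L, ?_, ?_, ?_⟩, ?_⟩
  · apply le_of_fix
    rw [hLf, hM]
    intro σ hσ
    exact ((hS σ).1 hσ).1
  · rw [finrank_eq_fixingSubgroup_index, finrank_eq_fixingSubgroup_index, hLf, hM]
    change (c.ker.map (V.comap h').subtype).index = _
    rw [Subgroup.index_map_subtype, Subgroup.index_ker, MonoidHom.range_eq_top.2 hcs]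
    congr 1
    rw [Nat.card_congr Subgroup.topEquiv.toEquiv, Nat.card_eq_fintype_card, Fintype.card_perm]
    simp
  · apply fix_inj
    rw [fixingSubgroup_sup, hLf, hPf]
    ext σ
    rw [hL', Subgroup.mem_inf, hS, Subgroup.mem_comap, Subgroup.mem_comap]
    constructor
    · rintro ⟨h1, h2⟩
      exact ⟨⟨hH.le h1, h2⟩, h1⟩
    · rintro ⟨⟨-, h2⟩, h1⟩
      exact ⟨h1, h2⟩
  · have h1 : imP L' e = WrW V W := by
      ext π
      exact (he π).symm
    rw [← ncard_imP L' e, h1, ncard_WrW hH, hcM]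

end main

theorem forwardW (_hN : NcardW) (_hB : BasicW) : ForwardW := by
  intro K Ω X _ _ _ _ _ _ _ V W hH L' hL hw
  exact forward hH L' hL hw

end Pool.Agent.W5h46.MW
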