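import Mathlib

namespace Pool.Agent.TH444.ML
end Pool.Agent.TH444.ML


set_option autoImplicit false

namespace Pool.Agent.TH928.J3106

open Pool.Agent.TH444.ML

section

variable {K Ω : Type} [Field K] [Field Ω] [Algebra K Ω]
variable {L : IntermediateField K Ω}

lemma mem_fix (φ : L →ₐ[K] Ω) (σ : Ω ≃ₐ[K] Ω) :
    σ ∈ φ.fieldRange.fixingSubgroup ↔ σ.toAlgHom.comp φ = φ := by
  rw [IntermediateField.mem_fixingSubgroup_iff]
  constructor
  · intro h
    ext x
    exact h (φ x) ⟨x, rfl⟩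
  · rintro h _ ⟨x, rfl⟩
    exact DFunLike.congr_fun h x

lemma range_eq_iff [IsGalois K Ω] (φ ψ : L →ₐ[K] Ω) : φ.fieldRange = ψ.fieldRange ↔
    ∀ σ : Ω ≃ₐ[K] Ω, σ.toAlgHom.comp φ = φ ↔ σ.toAlgHom.comp ψ = ψ := by
  constructor
  · intro h σ
    rw [← mem_fix, ← mem_fix, h]
  · intro h
    have h1 : φ.fieldRange.fixingSubgroup = ψ.fieldRange.fixingSubgroup := by
      ext σ
      rw [mem_fix, mem_fix]
      exact h σ
    rw [← InfiniteGalois.fixedField_fixingSubgroup φ.fieldRange, h1,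
      InfiniteGalois.fixedField_fixingSubgroup]

end


end Pool.Agent.TH928.J3106
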