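import Mathlib
import Pool.Agent.H84.L.A9_W5h46_MR_Grp
import Pool.Agent.H84.L.A9_W5h46_MW_Defs
import Pool.Agent.H84.L.A9_W5h46_MW_W1
import Pool.Agent.H84.L.S8_TH444_ML_Defs

namespace Pool.Agent.W5h46.MR
end Pool.Agent.W5h46.MR


/-!
# JOB M: Malle's constants of `C₂ ^ (X / V) ⋊ X` on `X / W × {0, 1}`
-/

set_option autoImplicit false
set_option linter.unusedSectionVars false

namespace Pool.Agent.W5h46.MW

open Pool.Agent.W5h46.MR (perm_bool)

section ind

variable {n : ℕ}

theorem supp_le_ind (π : Equiv.Perm (Fin n)) :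
    π.support.card ≤ 2 * (π.cycleType.map (fun l => l - 1)).sum := by
  rw [← Equiv.Perm.sum_cycleType, ← Multiset.sum_map_mul_left]
  calc π.cycleType.sum = (π.cycleType.map (fun l => l)).sum := by rw [Multiset.map_id']
    _ ≤ _ := Multiset.sum_map_le_sum_map _ _ fun l hl => by
      have := Equiv.Perm.two_le_of_mem_cycleType hl
      omega

theorem supp_eq_ind (π : Equiv.Perm (Fin n)) (h : π ^ 2 = 1) :
    π.support.card = 2 * (π.cycleType.map (fun l => l - 1)).sum := by
  rw [← Equiv.Perm.sum_cycleType, ← Multiset.sum_map_mul_left]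
  calc π.cycleType.sum = (π.cycleType.map (fun l => l)).sum := by rw [Multiset.map_id']
    _ = _ := by
      congr 1
      apply Multiset.map_congr rfl
      intro l hl
      have h1 := Equiv.Perm.two_le_of_mem_cycleType hl
      have h2 := (Equiv.Perm.dvd_of_mem_cycleType hl).trans (orderOf_dvd_of_pow_eq_one h)
      have h3 := Nat.le_of_dvd (by norm_num) h2
      omega

theorem supp_card {Q : Type} (f : Fin n ≃ Q) (π : Equiv.Perm (Fin n)) :
    π.support.card = {q : Q | f (π (f.symm q)) ≠ q}.ncard := by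
  rw [← Set.ncard_coe_finset, ← Set.ncard_image_of_injective _ f.injective]
  congr 1
  ext q
  constructor
  · rintro ⟨i, hi, rfl⟩
    rw [Finset.mem_coe, Equiv.Perm.mem_support] at hi
    intro h
    rw [Equiv.symm_apply_apply] at h
    exact hi (f.injective h)
  · intro h
    refine ⟨f.symm q, ?_, by simp⟩
    rw [Finset.mem_coe, Equiv.Perm.mem_support]
    intro h1
    apply h
    rw [h1, Equiv.apply_symm_apply]

end ind

variable {X : Type} [Group X] [Finite X] {V W : Subgroup X}

theorem pr_smul (hH : Hyp V W) (x : X) (q : X ⧸ W) : pr hH (x • q) = x • pr hH q := by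
  obtain ⟨y, rfl⟩ := QuotientGroup.mk_surjective q
  rfl

theorem ncard_fib (hH : Hyp V W) (S : Set (X ⧸ V)) :
    {q : X ⧸ W | pr hH q ∈ S}.ncard = S.ncard * W.relIndex V := by
  have h0 : ∀ q : X ⧸ W, (Subgroup.quotientEquivProdOfLE hH.le q).1 = pr hH q := by
    intro q
    obtain ⟨y, rfl⟩ := QuotientGroup.mk_surjective q
    rfl
  have h3 : (Subgroup.quotientEquivProdOfLE hH.le) '' {q : X ⧸ W | pr hH q ∈ S} =
      S ×ˢ (Set.univ : Set (V ⧸ W.subgroupOf V)) := by
    ext p
    constructor
    · rintro ⟨q, hq, rfl⟩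
      refine ⟨?_, Set.mem_univ _⟩
      rw [h0]
      exact hq
    · rintro ⟨h1, -⟩
      refine ⟨(Subgroup.quotientEquivProdOfLE hH.le).symm p, ?_, Equiv.apply_symm_apply _ _⟩
      change pr hH _ ∈ S
      rw [← h0, Equiv.apply_symm_apply]
      exact h1
  rw [← Set.ncard_image_of_injective _ (Subgroup.quotientEquivProdOfLE hH.le).injective, h3,
    Set.ncard_prod, Set.ncard_univ]
  rfl

theorem ncard_moved (hH : Hyp V W) (a : X ⧸ V → Equiv.Perm Bool) :
    {p : (X ⧸ W) × Bool | wrF hH (1, a) p ≠ p}.ncard =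
      2 * (W.relIndex V * {c : X ⧸ V | a c ≠ 1}.ncard) := by
  have h1 : {p : (X ⧸ W) × Bool | wrF hH (1, a) p ≠ p} =
      {q : X ⧸ W | pr hH q ∈ {c : X ⧸ V | a c ≠ 1}} ×ˢ (Set.univ : Set Bool) := by
    ext ⟨q, b⟩
    rw [Set.mem_prod]
    constructor
    · intro h
      refine ⟨?_, Set.mem_univ _⟩
      intro h2
      apply h
      rw [wrF_apply, one_smul, h2]
      rfl
    · rintro ⟨h, -⟩ h2
      apply h
      rw [wrF_apply] at h2
      exact perm_bool (congrArg Prod.snd h2)
  rw [h1, Set.ncard_prod, ncard_fib, Set.ncard_univ]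
  simp only [Nat.card_eq_fintype_card, Fintype.card_bool]
  ring

theorem ncard_moved' (hH : Hyp V W) {h : X} (hh : h ≠ 1) (a : X ⧸ V → Equiv.Perm Bool) :
    2 * W.relIndex V < {p : (X ⧸ W) × Bool | wrF hH (h, a) p ≠ p}.ncard := by
  have h1 : {q : X ⧸ W | h • q ≠ q} ×ˢ (Set.univ : Set Bool) ⊆
      {p : (X ⧸ W) × Bool | wrF hH (h, a) p ≠ p} := by
    rintro ⟨q, b⟩ ⟨hq, -⟩ h2
    apply hq
    exact congrArg Prod.fst h2
  have h2 := Set.ncard_le_ncard h1 (Set.toFinite _)
  rw [Set.ncard_prod, Set.ncard_univ] at h2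
  have h3 := hH.moves h hh
  simp only [Nat.card_eq_fintype_card, Fintype.card_bool] at h2
  omega

open Classical in
/- the element of `C₂ ^ (X / V)` supported on `c` -/
noncomputable def tau (hH : Hyp V W) (c : X ⧸ V) : Equiv.Perm ((X ⧸ W) × Bool) :=
  wrF hH (1, fun c' => if c' = c then Equiv.swap false true else 1)

theorem tau_conj (hH : Hyp V W) (x : X) (c : X ⧸ V) :
    wrF hH (x, 1) * tau hH c = tau hH (x • c) * wrF hH (x, 1) := by
  classical
  ext1 ⟨q, b⟩
  rw [Equiv.Perm.mul_apply, Equiv.Perm.mul_apply, tau, tau, wrF_apply, wrF_apply, wrF_apply,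
    wrF_apply]
  simp only [one_smul, Pi.one_apply, Equiv.Perm.coe_one, id_eq]
  rw [pr_smul]
  simp only [smul_left_cancel_iff]

theorem perm_bool_ne {f : Equiv.Perm Bool} (h : f ≠ 1) : f = Equiv.swap false true := by
  revert f
  decide

theorem perm_bool_sq (f : Equiv.Perm Bool) (b : Bool) : f (f b) = b := by
  revert f b
  decide

theorem index_W (hH : Hyp V W) {d : ℕ} {G : Subgroup (Equiv.Perm (Fin d))}
    (hG : IsC2W V W G) :
    IsLeast {k : ℕ | ∃ π ∈ G, π ≠ 1 ∧ (π.cycleType.map (fun l => l - 1)).sum = k}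
      (W.relIndex V) ∧
    ∀ π ∈ G, ∀ π2 ∈ G, (π.cycleType.map (fun l => l - 1)).sum = W.relIndex V →
      (π2.cycleType.map (fun l => l - 1)).sum = W.relIndex V → ∃ g ∈ G, π2 = g * π * g⁻¹ := by
  classical
  obtain ⟨f, hf⟩ := hG
  have hpos : 0 < W.relIndex V := Nat.pos_of_ne_zero
    (Subgroup.index_ne_zero_of_finite (H := W.subgroupOf V))
  -- the group `G` in terms of `WrW`
  have key : ∀ π : Equiv.Perm (Fin d), π ∈ G ↔ f.permCongrHom π ∈ WrW V W := by
    intro π
    rw [hf π]
    constructor
    · rintro ⟨h, a, hh⟩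
      refine ⟨h, a, fun x b => ?_⟩
      have := hh (f.symm ((x : X ⧸ W), b)) x (by simp)
      simpa using this
    · rintro ⟨h, a, hh⟩
      refine ⟨h, a, fun i x hx => ?_⟩
      have := hh x (f i).2
      rw [← hx] at this
      simpa using this
  have hsupp : ∀ π : Equiv.Perm (Fin d), π.support.card =
      {q : (X ⧸ W) × Bool | f.permCongrHom π q ≠ q}.ncard := fun π => supp_card f π
  -- the elements of small index
  have main : ∀ π : Equiv.Perm (Fin d), π ∈ G → π ≠ 1 →
      W.relIndex V ≤ (π.cycleType.map (fun l => l - 1)).sum ∧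
      ((π.cycleType.map (fun l => l - 1)).sum = W.relIndex V →
        ∃ c, f.permCongrHom π = tau hH c) := by
    intro π hπ hne
    have h1 := (key π).1 hπ
    rw [← range_wrF hH] at h1
    obtain ⟨⟨h, a⟩, ha⟩ := h1
    by_cases hh : h = 1
    · subst hh
      have hsq : π ^ 2 = 1 := by
        apply f.permCongrHom.injective
        rw [map_pow, map_one, ← ha, sq]
        ext1 ⟨q, b⟩
        rw [Equiv.Perm.mul_apply, wrF_apply, wrF_apply, one_smul, one_smul, perm_bool_sq]
        rfl
      have h2 := supp_eq_ind π hsq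
      rw [hsupp, ← ha, ncard_moved] at h2
      have h3 : (π.cycleType.map (fun l => l - 1)).sum =
          W.relIndex V * {c : X ⧸ V | a c ≠ 1}.ncard := by omega
      have h4 : {c : X ⧸ V | a c ≠ 1}.ncard ≠ 0 := by
        intro h4
        rw [Set.ncard_eq_zero] at h4
        apply hne
        apply f.permCongrHom.injective
        rw [← ha, map_one]
        ext1 ⟨q, b⟩
        rw [wrF_apply, one_smul]
        have h5 : a (pr hH q) = 1 := by
          by_contra h6
          have : pr hH q ∈ {c : X ⧸ V | a c ≠ 1} := h6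
          rw [h4] at this
          exact this
        rw [h5]
        rfl
      refine ⟨?_, ?_⟩
      · rw [h3]
        exact Nat.le_mul_of_pos_right _ (Nat.pos_of_ne_zero h4)
      · intro h5
        rw [h3] at h5
        have h6 : {c : X ⧸ V | a c ≠ 1}.ncard = 1 := by
          have : W.relIndex V * {c : X ⧸ V | a c ≠ 1}.ncard = W.relIndex V * 1 := by
            rw [h5, mul_one]
          exact Nat.eq_of_mul_eq_mul_left hpos this
        rw [Set.ncard_eq_one] at h6
        obtain ⟨c, hc⟩ := h6
        refine ⟨c, ?_⟩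
        rw [← ha, tau]
        congr 2
        funext c'
        by_cases hcc : c' = c
        · rw [if_pos hcc]
          apply perm_bool_ne
          have : c' ∈ {c : X ⧸ V | a c ≠ 1} := by rw [hc, hcc]; rfl
          exact this
        · rw [if_neg hcc]
          by_contra h7
          have : c' ∈ {c : X ⧸ V | a c ≠ 1} := h7
          rw [hc] at this
          exact hcc this
    · have h2 := supp_le_ind π
      have h3 := ncard_moved' hH hh a
      rw [hsupp, ← ha] at h2
      refine ⟨by omega, fun h4 => by omega⟩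
  have hindtau : ∀ (c : X ⧸ V) (π : Equiv.Perm (Fin d)), f.permCongrHom π = tau hH c →
      (π.cycleType.map (fun l => l - 1)).sum = W.relIndex V := by
    intro c π hπ
    have hsq : π ^ 2 = 1 := by
      apply f.permCongrHom.injective
      rw [map_pow, map_one, hπ, sq, tau]
      ext1 ⟨q, b⟩
      rw [Equiv.Perm.mul_apply, wrF_apply, wrF_apply, one_smul, one_smul, perm_bool_sq]
      rfl
    have h2 := supp_eq_ind π hsq
    rw [hsupp, hπ, tau, ncard_moved] at h2
    have h3 : {c' : X ⧸ V | (if c' = c then Equiv.swap false true else (1 : Equiv.Perm Bool)) ≠ 1} =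
        {c} := by
      ext c'
      rw [Set.mem_singleton_iff]
      constructor
      · intro h
        by_contra h4
        apply h
        rw [if_neg h4]
      · intro h
        change (if c' = c then Equiv.swap false true else (1 : Equiv.Perm Bool)) ≠ 1
        rw [if_pos h]
        decide
    rw [h3, Set.ncard_singleton] at h2
    omega
  refine ⟨⟨?_, ?_⟩, ?_⟩
  · let c : X ⧸ V := ((1 : X) : X ⧸ V)
    have h1 : f.permCongrHom (f.permCongrHom.symm (tau hH c)) = tau hH c :=
      MulEquiv.apply_symm_apply _ _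
    have h2 := hindtau c _ h1
    refine ⟨f.permCongrHom.symm (tau hH c), ?_, ?_, h2⟩
    · rw [key, h1]
      exact wrF_mem hH _
    · intro h3
      rw [h3] at h2
      simp at h2
      omega
  · rintro k ⟨π, hπ, hne, rfl⟩
    exact (main π hπ hne).1
  · intro π hπ π2 hπ2 h1 h2
    have hne : π ≠ 1 := by
      rintro rfl
      simp at h1
      omega
    have hne2 : π2 ≠ 1 := by
      rintro rfl
      simp at h2
      omega
    obtain ⟨c, hc⟩ := (main π hπ hne).2 h1
    obtain ⟨c2, hc2⟩ := (main π2 hπ2 hne2).2 h2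
    obtain ⟨x, hx⟩ := MulAction.exists_smul_eq X c c2
    refine ⟨f.permCongrHom.symm (wrF hH (x, 1)), ?_, ?_⟩
    · rw [key, MulEquiv.apply_symm_apply]
      exact wrF_mem hH _
    · apply f.permCongrHom.injective
      rw [map_mul, map_mul, map_inv, MulEquiv.apply_symm_apply, hc, hc2, tau_conj, hx,
        mul_inv_cancel_right]

end Pool.Agent.W5h46.MW
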