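import Mathlib
import Pool.Agent.H84.L.S8_H391R2_T4_Sem
import Pool.Agent.H84.L.S8_H391R2_WrGrp
import Pool.Agent.H84.L.S8_W200_IG_HF
import Pool.Agent.H84.L.S8_W200_IJ_SA

namespace Pool.Agent.H391R2
end Pool.Agent.H391R2


/-!
# Small core-free subgroups of extensions by products of wreath products

`X` is a finite group with a normal subgroup `N`, and `U` a core-free subgroup of `N`; then `U` is a
core-free subgroup of `X`.
-/

set_option autoImplicit false

open Pool.Agent.H391R2 (Wr)

namespace Pool.Agent.W5h93.MX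

section

variable {X : Type} [Group X]

theorem core_map (N : Subgroup X) [N.Normal] (U : Subgroup N) (hU : U.normalCore = ⊥) :
    (U.map N.subtype).normalCore = ⊥ := by
  rw [eq_bot_iff]
  intro x hx
  have hxN : x ∈ N := by
    obtain ⟨y, -, rfl⟩ := Subgroup.normalCore_le _ hx
    exact y.2
  have h1 : (⟨x, hxN⟩ : N) ∈ U.normalCore := by
    intro g
    obtain ⟨y, hy, hy'⟩ := hx (g : X)
    have : y = g * ⟨x, hxN⟩ * g⁻¹ := Subtype.ext hy'
    rwa [← this]
  rw [hU, Subgroup.mem_bot] at h1
  rw [Subgroup.mem_bot]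
  exact congrArg Subtype.val h1

/- core-free subgroups under isomorphisms -/
theorem core_equiv {Y : Type} [Group Y] (e : X ≃* Y) (U : Subgroup Y) (hU : U.normalCore = ⊥) :
    (U.comap e.toMonoidHom).normalCore = ⊥ := by
  rw [eq_bot_iff]
  intro x hx
  have h1 : e x ∈ U.normalCore := by
    intro g
    have h := hx (e.symm g)
    rw [Subgroup.mem_comap] at h
    simpa using h
  rw [hU, Subgroup.mem_bot] at h1
  rw [Subgroup.mem_bot]
  exact (map_eq_one_iff e e.injective).1 h1

theorem core_pi {ι : Type} {H : ι → Type} [∀ i, Group (H i)] [DecidableEq ι]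
    (U : ∀ i, Subgroup (H i)) (hU : ∀ i, (U i).normalCore = ⊥) :
    (Subgroup.pi Set.univ U).normalCore = ⊥ := by
  rw [eq_bot_iff]
  intro x hx
  rw [Subgroup.mem_bot]
  funext i
  have h1 : x i ∈ (U i).normalCore := by
    intro g
    have h := hx (Pi.mulSingle i g)
    have h2 := (Subgroup.mem_pi _).1 h i (Set.mem_univ i)
    simpa using h2
  rw [hU i, Subgroup.mem_bot] at h1
  exact h1

end

theorem index_pi' {ι : Type} [Fintype ι] {H : ι → Type} [∀ i, Group (H i)]
    (U : ∀ i, Subgroup (H i)) : (Subgroup.pi Set.univ U).index = ∏ i, (U i).index := by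
  simp_rw [Subgroup.index, ← Nat.card_pi]
  refine Nat.card_congr ((Quotient.congrRight (fun x y ↦ ?_)).trans (Setoid.piQuotientEquiv _).symm)
  rw [QuotientGroup.leftRel_apply, Setoid.piSetoid_apply]
  simp only [QuotientGroup.leftRel_apply, Subgroup.mem_pi, Set.mem_univ, true_implies]
  rfl


end Pool.Agent.W5h93.MX
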