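import Mathlib
import Pool.Agent.H84.L.S8_TH444_TW_ClsDef

namespace Pool.Agent.TH444.TW
end Pool.Agent.TH444.TW


/-!
# Groups in the class are Galois groups over number fields
-/

set_option autoImplicit false

open Pool.Agent.TH444.TW (Cls)

namespace Pool.Agent.TH444.ML


/- a Galois extension with finite group has finite degree -/
theorem fd_of_finite_aut (K F : Type) [Field K] [Field F] [Algebra K F] [IsGalois K F]
    [Finite (F ≃ₐ[K] F)] : FiniteDimensional K F :=
  IsGaloisGroup.finiteDimensional (F ≃ₐ[K] F) K F


end Pool.Agent.TH444.ML
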