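import Mathlib
import Pool.Agent.H84.L.S8_H391R2_WrGrp
import Pool.Agent.H84.L.S8_TH15_IGP_TwB
import Pool.Agent.H84.L.S8_TH444_ML_Defs
import Pool.Agent.H84.L.S8_TH444_ML_Real
import Pool.Agent.H84.L.S8_TH444_TW_ClsDef
import Pool.Agent.H84.L.S8_TH444_TW_RS
import Pool.Agent.H84.L.S8_TH444_TW_RSK

namespace Pool.Agent.H391R2
end Pool.Agent.H391R2
namespace Pool.Agent.TH444.ML
end Pool.Agent.TH444.ML
namespace Pool.Agent.TH444.TW
end Pool.Agent.TH444.TW


/-!
# Groups over a Galois group in the tower class
-/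

set_option autoImplicit false
set_option linter.unusedSectionVars false

open Pool.Agent.TH444.TW (Cls)
open Pool.Agent.H391R2 (Wr)

namespace Pool.Agent.W5h93.MX

open Pool.Agent.TH444.ML (Gal fd_of_finite_aut)

/- `Γ` is a Galois group over `K`. -/
def IsG (K Γ : Type) [Field K] [Group Γ] : Prop :=
  ∃ (L : Type) (_ : Field L) (_ : Algebra K L), IsGalois K L ∧ Nonempty (Γ ≃* (L ≃ₐ[K] L))


section

variable (K : Type) [Field K] [NumberField K]


/- quotients of Galois groups -/
theorem isG_of_gal {Γ X : Type} [Group Γ] [Group X] [Finite X] (p : X →* Γ)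
    (hp : Function.Surjective p) {M : IntermediateField K (AlgebraicClosure K)}
    (hM : M ∈ Gal K (AlgebraicClosure K) X) : IsG K Γ := by
  obtain ⟨h1, h2, ⟨f⟩⟩ := hM
  let q : (M ≃ₐ[K] M) →* Γ := p.comp f.toMonoidHom
  have hq : Function.Surjective q := hp.comp f.surjective
  have hnorm : q.ker.Normal := inferInstance
  let F := IntermediateField.fixedField (F := K) (E := M) q.ker
  have hgal : IsGalois K F := by
    have := IsGalois.of_fixedField_normal_subgroup (K := K) (L := M) q.ker
    exact this
  refine ⟨F, inferInstance, inferInstance, hgal, ⟨?_⟩⟩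
  exact ((QuotientGroup.quotientKerEquivOfSurjective q hq).symm.trans
    (IsGalois.normalAutEquivQuotient (K := K) (L := M) q.ker))


end


end Pool.Agent.W5h93.MX
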