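import Mathlib
import Pool.Agent.H84.L.S8_H391R2_WrGrp
import Pool.Agent.H84.L.S8_TH444_ML_Defs

namespace Pool.Agent.H391R2
end Pool.Agent.H391R2


/-!
# The fixed field of a point stabilizer in an extension with group `A ≀ S_n`
-/

set_option autoImplicit false

open IntermediateField
open Pool.Agent.H391R2 (Wr wr_mul_left wr_mul_right)

namespace Pool.Agent.R70.MA


section

variable {A : Type} [Group A] {n : ℕ} {k₀ M : Type} [Field k₀] [Field M] [Algebra k₀ M]
  (e : (M ≃ₐ[k₀] M) ≃* Wr A n) (z : Fin n)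


theorem gal_nonempty_of (K Ω : Type) [Field K] [Field Ω] [Algebra K Ω] [IsAlgClosure K Ω]
    (E H : Type) [Field E] [Algebra K E] [FiniteDimensional K E] [IsGalois K E] [Group H]
    (e : (E ≃ₐ[K] E) ≃* H) : (Pool.Agent.TH444.ML.Gal K Ω H).Nonempty := by
  have hac : IsAlgClosed Ω := IsAlgClosure.isAlgClosed K
  let j : E →ₐ[K] Ω := IsAlgClosed.lift
  let ε : E ≃ₐ[K] j.fieldRange := AlgEquiv.ofInjectiveField j
  refine ⟨j.fieldRange, ?_, ?_, ?_⟩
  · exact Module.Finite.equiv ε.toLinearEquiv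
  · exact IsGalois.of_algEquiv ε
  · exact ⟨(AlgEquiv.autCongr ε).symm.trans e⟩


end

end Pool.Agent.R70.MA
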