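import Mathlib
import Pool.Agent.H84.L.S8_H391R2_T4_Blueprint
import Pool.Agent.H84.L.S8_H391R2_T4_Gp
import Pool.Agent.H84.L.S8_H391R2_T4_Red
import Pool.Agent.H84.L.S8_H391R2_WrGrp
import Pool.Agent.H84.L.S8_TH59_WX_UE
import Pool.Agent.H84.L.S8_TH59_WX_UF

namespace Pool.Agent.H391R2
end Pool.Agent.H391R2
namespace Pool.Agent.H391R2.T4
end Pool.Agent.H391R2.T4


/-!
Embedding problems with kernel a wreath product: final forms.
-/

set_option autoImplicit false

namespace Pool.Agent.TH59.WX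

open Pool.Agent.H391R2 (Wr)
open Pool.Agent.H391R2.T4 (EG RegSol HilbField)


theorem reg_kernel' {G : Type} [Group G] [Finite G] [Nontrivial G]
    (hZ : Subgroup.center G = ⊥)
    (hT : ∃ T : Subgroup (MulAut G), IsCompl T (MulAut.conj : G →* MulAut G).range) (n : ℕ)
    (hn : ((3 * Nat.card G + 2).factorial) ^ 3 ≤ n)
    (K L X : Type) [Field K] [Field L] [Algebra K L] [FiniteDimensional K L] [IsGalois K L]
    [Group X] (β : X →* (L ≃ₐ[K] L)) (hβ : Function.Surjective β)
    (hι : Nonempty (β.ker ≃* Wr G n)) : RegSol K L X β := by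
  obtain ⟨T, hT⟩ := hT
  obtain ⟨ι⟩ := hι
  have hZ' : ∀ z : G, (∀ g, z * g = g * z) → z = 1 := fun z hz => by
    have h1 : z ∈ Subgroup.center G := Subgroup.mem_center_iff.2 fun g => (hz g).symm
    rw [hZ] at h1
    exact h1
  exact reg_kernel K L G hZ' T hT n ((fac_bound _ Nat.card_pos).trans hn) X β hβ ι.symm

end Pool.Agent.TH59.WX
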