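import Mathlib
import Pool.Agent.H84.L.S8_H391R2_HitMulti
import Pool.Agent.H84.L.S8_H391R2_T4_Blueprint
import Pool.Agent.H84.L.S8_H391R2_T4_Red
import Pool.Agent.H84.L.S8_H391R2_WrGrp
import Pool.Agent.H84.L.S8_H391R2_WrRes
import Pool.Agent.H84.L.S8_TH15_IGP_TwB
import Pool.Agent.H84.L.S8_TH59_WX_GT1
import Pool.Agent.H84.L.S8_TH59_WX_PA
import Pool.Agent.H84.L.S8_TH59_WX_PE
import Pool.Agent.H84.L.S8_TH59_WX_PF
import Pool.Agent.H84.L.S8_TH59_WX_UI
import Pool.Agent.H84.L.S8_W200_IG_HD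
import Pool.Agent.H84.L.S8_W200_IG_HF

namespace Nfff32c05
end Nfff32c05
namespace Pool.Agent.H391R2
end Pool.Agent.H391R2
namespace Pool.Agent.H391R2.T4
end Pool.Agent.H391R2.T4
namespace Pool.Agent.W200.IG
end Pool.Agent.W200.IG


/-!
# Embedding problems whose kernel is a direct product of wreath products `G ≀ S_n`: final forms
-/

set_option autoImplicit false

namespace Pool.Agent.TH59.WX

open Nfff32c05
open Pool.Agent.H391R2 (Wr isRealizable_of isRealizable_quotient)
open Pool.Agent.H391R2.T4 (RegSol HilbField finite_wr)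
open Pool.Agent.W200.IG (HP SP hp_base sp_base sp_poly)

set_option linter.unusedSectionVars false

section prod

variable {ι : Type} [Finite ι] {G : ι → Type} [∀ i, Group (G i)] [∀ i, Finite (G i)]
  [∀ i, Nontrivial (G i)] {n : ι → ℕ} (hZ : ∀ i, Subgroup.center (G i) = ⊥)
  (hT : ∀ i, ∃ T : Subgroup (MulAut (G i)), IsCompl T (MulAut.conj : G i →* MulAut (G i)).range)
  (hn : ∀ i, ((3 * Nat.card (G i) + 2).factorial) ^ 3 ≤ n i)

include hZ hT hn

theorem good_prod_wr : GoodKer (∀ i, Wr (G i) (n i)) := by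
  have hfin : ∀ i, Finite (Wr (G i) (n i)) := fun i => finite_wr (G i) (n i)
  have hn2 : ∀ i, 2 ≤ n i := by
    intro i
    refine le_trans ?_ (hn i)
    have h1 : 3 * Nat.card (G i) + 2 ≤ (3 * Nat.card (G i) + 2).factorial :=
      Nat.self_le_factorial _
    have h2 : (3 * Nat.card (G i) + 2).factorial ≤ ((3 * Nat.card (G i) + 2).factorial) ^ 3 :=
      Nat.le_self_pow (by norm_num) _
    omega
  refine prod_good ι _ (fun i => ?_) (fun i => ?_) (fun i => ?_)
  · refine wr_indec (fun z hz => ?_) (hn2 i)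
    have h1 : z ∈ Subgroup.center (G i) := Subgroup.mem_center_iff.2 fun g => (hz g).symm
    rw [hZ i] at h1
    exact h1
  · obtain ⟨g, hg⟩ := exists_ne (1 : G i)
    have h0 : 0 < n i := lt_of_lt_of_le (by norm_num) (hn2 i)
    exact ⟨⟨sgl ⟨0, h0⟩ g, 1, fun h => hg (sgl_inj (h.trans (sgl_one _).symm))⟩⟩
  · intro K L X _ _ _ _ _ _ _ α hα hι
    exact reg_kernel' (hZ i) (hT i) (n i) (hn i) K L X α hα hι

theorem reg_prod (K L X : Type) [Field K] [Field L] [Algebra K L] [FiniteDimensional K L]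
    [IsGalois K L] [Group X] (α : X →* (L ≃ₐ[K] L)) (hα : Function.Surjective α)
    (hι : Nonempty (α.ker ≃* (∀ i, Wr (G i) (n i)))) : RegSol K L X α := by
  have hfin : ∀ i, Finite (Wr (G i) (n i)) := fun i => finite_wr (G i) (n i)
  exact good_all (good_prod_wr hZ hT hn) K L X α hα hι


end prod

end Pool.Agent.TH59.WX
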